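import Pool.Agent.Lib.K708.Osgood

/-! # K708: complex differentiable maps on finite-dimensional spaces are analytic -/

set_option autoImplicit false

open scoped Manifold ContDiff Topology
open Set Filter

noncomputable section

namespace Pool.Agent.K708

section

variable {V : Type*} [NormedAddCommGroup V] [NormedSpace ℂ V] [FiniteDimensional ℂ V]

/-- A function which is complex differentiable near a point is analytic at the point. -/
theorem holo_omega_at {G : V → ℂ} {x : V} (hG : ∀ᶠ z in 𝓝 x, DifferentiableAt ℂ G z) :
    ContDiffAt ℂ ω G x := by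
  let e : V ≃L[ℂ] E (Module.finrank ℂ V) :=
    ContinuousLinearEquiv.ofFinrankEq (by simp [E])
  have h1 : ContDiffAt ℂ ω (fun y : E (Module.finrank ℂ V) => G (e.symm y)) (e x) := by
    apply osgood_contDiffAt
    have hc : Tendsto e.symm (𝓝 (e x)) (𝓝 x) := by
      have := e.symm.continuous.tendsto (e x)
      rwa [e.symm_apply_apply] at this
    filter_upwards [hc.eventually hG] with y hy
    exact hy.comp y e.symm.differentiableAt
  have h2 : ContDiffAt ℂ ω (fun z : V => G (e.symm (e z))) x :=
    h1.comp x e.contDiff.contDiffAt
  simpa using h2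

/-- A map to `ℂ^m` which is complex differentiable near a point is analytic at the point. -/
theorem holo_omega_pi_at {m : ℕ} {G : V → E m} {x : V}
    (hG : ∀ᶠ z in 𝓝 x, DifferentiableAt ℂ G z) : ContDiffAt ℂ ω G x := by
  rw [contDiffAt_pi]
  intro i
  apply holo_omega_at
  filter_upwards [hG] with z hz
  exact differentiableAt_pi.1 hz i

/-- A complex differentiable function on an open set is analytic. -/
theorem holo_omega {G : V → ℂ} {U : Set V} (hU : IsOpen U) (hG : DifferentiableOn ℂ G U) :
    ContDiffOn ℂ ω G U := by
  intro x hx
  refine (holo_omega_at ?_).contDiffWithinAt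
  filter_upwards [hU.mem_nhds hx] with z hz
  exact (hG z hz).differentiableAt (hU.mem_nhds hz)

/-- A complex differentiable map to `ℂ^m` on an open set is analytic. -/
theorem holo_omega_pi {m : ℕ} {G : V → E m} {U : Set V} (hU : IsOpen U)
    (hG : DifferentiableOn ℂ G U) : ContDiffOn ℂ ω G U := by
  intro x hx
  refine (holo_omega_pi_at ?_).contDiffWithinAt
  filter_upwards [hU.mem_nhds hx] with z hz
  exact (hG z hz).differentiableAt (hU.mem_nhds hz)

end

end Pool.Agent.K708
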