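import Pool.Agent.Lib.K708.FcD

/-! # K708: finite smooth partitions of unity on compact complex manifolds -/

set_option autoImplicit false

open scoped Manifold ContDiff Topology
open Set

noncomputable section

namespace Pool.Agent.K708

/-- A finite family of holomorphic charts with a smooth partition of unity. -/
structure PUnit' (n : ℕ) (X : CMfd n) where
  N : ℕ
  φ : Fin N → OpenPartialHomeomorph X (E n)
  χ : Fin N → X → ℝ
  mem : ∀ k, φ k ∈ CA n X
  smooth : ∀ k, ContMDiff 𝓘(ℝ, E n) 𝓘(ℝ, ℝ) ∞ (χ k)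
  nonneg : ∀ k x, 0 ≤ χ k x
  supp : ∀ k, tsupport (χ k) ⊆ (φ k).source
  sum : ∀ x, ∑ k, χ k x = 1

/-- Existence, subordinate to any neighbourhood assignment. -/
theorem exists_pu {n : ℕ} (X : CMfd n) (hX : CompactSpace X) (U : X → Set X)
    (hU : ∀ x, U x ∈ 𝓝 x) :
    ∃ (P : PUnit' n X) (c : Fin P.N → X), ∀ k, (P.φ k).source ⊆ U (c k) := by
  classical
  have hV : ∀ x, ∃ V : Set X, V ⊆ U x ∧ IsOpen V ∧ x ∈ V := fun x => mem_nhds_iff.1 (hU x)
  choose V hVU hVo hxV using hV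
  let ψ : X → OpenPartialHomeomorph X (E n) := fun x => (chartAt (E n) x).restr (V x)
  have hψ : ∀ x, ψ x ∈ CA n X := fun x => restr_mem_CA (chartAt_mem_CA x) (hVo x)
  have hψs : ∀ x, (ψ x).source = (chartAt (E n) x).source ∩ V x := fun x => by
    rw [OpenPartialHomeomorph.restr_source, (hVo x).interior_eq]
  have hxψ : ∀ x, x ∈ (ψ x).source := fun x => by
    rw [hψs]
    exact ⟨mem_chart_source _ x, hxV x⟩
  obtain ⟨t, ht⟩ := isCompact_univ.elim_nhds_subcover (fun x => (ψ x).source)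
    (fun x _ => (ψ x).open_source.mem_nhds (hxψ x))
  obtain ⟨ρ, hρ⟩ := SmoothPartitionOfUnity.exists_isSubordinate 𝓘(ℝ, E n) (isClosed_univ (X := X))
    (fun i : t => (ψ i.1).source) (fun i => (ψ i.1).open_source) (by
      intro x hx
      obtain ⟨y, hy, hxy⟩ := mem_iUnion₂.1 (ht.2 hx)
      exact mem_iUnion.2 ⟨⟨y, hy⟩, hxy⟩)
  let e : Fin (Fintype.card t) ≃ t := (Fintype.equivFin t).symm
  refine ⟨⟨Fintype.card t, fun k => ψ (e k).1, fun k => ρ (e k), fun k => hψ _, fun k =>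
    (ρ (e k)).contMDiff, fun k x => ρ.nonneg _ x, fun k => hρ (e k), fun x => ?_⟩,
    fun k => (e k).1, fun k => ?_⟩
  · have h1 := ρ.sum_eq_one (mem_univ x)
    rw [finsum_eq_sum_of_fintype] at h1
    rw [← h1]
    exact Equiv.sum_comp e (fun i => ρ i x)
  · change (ψ (e k).1).source ⊆ _
    rw [hψs]
    exact inter_subset_right.trans (hVU _)

/-- A smooth bump function near a compact set. -/
theorem exists_bump {n : ℕ} (X : CMfd n) {K U : Set X} (hK : IsCompact K) (hU : IsOpen U)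
    (hKU : K ⊆ U) : ∃ χ : X → ℝ, ContMDiff 𝓘(ℝ, E n) 𝓘(ℝ, ℝ) ∞ χ ∧ (∀ x, 0 ≤ χ x ∧ χ x ≤ 1) ∧
      (∀ᶠ x in 𝓝ˢ K, χ x = 1) ∧ tsupport χ ⊆ U ∧ HasCompactSupport χ := by
  have : LocallyCompactSpace X := ChartedSpace.locallyCompactSpace (E n) X
  obtain ⟨L, hL, hKL, hLU⟩ := exists_compact_between hK hU hKU
  obtain ⟨f, hf0, hf1, hf⟩ := exists_contMDiffMap_zero_one_nhds_of_isClosed 𝓘(ℝ, E n)
    (isOpen_interior (s := L)).isClosed_compl hK.isClosed
    (disjoint_compl_left_iff_subset.2 hKL)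
  have hsupp : tsupport f ⊆ L := by
    intro x hx
    by_contra hxL
    have h1 : x ∈ (interior L)ᶜ := fun h => hxL (interior_subset h)
    have h2 : ∀ᶠ y in 𝓝 x, f y = 0 := (eventually_nhdsSet_iff_forall.1 hf0) x h1
    exact (notMem_tsupport_iff_eventuallyEq.2 h2) hx
  exact ⟨f, f.contMDiff, fun x => hf x, hf1, hsupp.trans hLU,
    IsCompact.of_isClosed_subset hL (isClosed_tsupport _) hsupp⟩

/-- Transplanting a smooth function with compact support in a chart. -/
theorem smooth_extend {n : ℕ} (X : CMfd n) {φ : OpenPartialHomeomorph X (E n)} (hφ : φ ∈ RA n X)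
    {g : E n → ℂ} (hg : ContDiff ℝ ∞ g) (hc : HasCompactSupport g) (ht : tsupport g ⊆ φ.target) :
    S0 n (fun x => (φ.source).indicator (fun y => g (φ y)) x) := by
  intro x
  by_cases hx : x ∈ φ.source
  · have h1 : ContMDiffAt 𝓘(ℝ, E n) 𝓘(ℝ, ℂ) ∞ (g ∘ φ) x :=
      (hg.contMDiff.contMDiffAt).comp x (contMDiffAt_of_mem_maximalAtlas hφ hx)
    refine h1.congr_of_eventuallyEq ?_
    filter_upwards [φ.open_source.mem_nhds hx] with y hy
    rw [indicator_of_mem hy]
    rfl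
  · have hK : IsCompact (φ.symm '' tsupport g) :=
      hc.isCompact.image_of_continuousOn (φ.continuousOn_symm.mono ht)
    have hxK : x ∈ (φ.symm '' tsupport g)ᶜ := by
      rintro ⟨z, hz, rfl⟩
      exact hx (φ.map_target (ht hz))
    have h0 : ContMDiffAt 𝓘(ℝ, E n) 𝓘(ℝ, ℂ) ∞ (fun _ : X => (0 : ℂ)) x := contMDiffAt_const
    refine h0.congr_of_eventuallyEq ?_
    filter_upwards [hK.isClosed.isOpen_compl.mem_nhds hxK] with y hy
    by_cases hys : y ∈ φ.source
    · rw [indicator_of_mem hys]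
      by_contra hne
      exact hy ⟨φ y, subset_tsupport g hne, φ.left_inv hys⟩
    · rw [indicator_of_notMem hys]

end Pool.Agent.K708
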