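import Pool.Agent.Lib.K708.FcD

/-! # K708: local expressions of derivatives and forms -/

set_option autoImplicit false

open scoped Manifold ContDiff Topology
open Set

noncomputable section

namespace Pool.Agent.K708

section

variable {n m k : ℕ} {M N P : Type*}
  [TopologicalSpace M] [ChartedSpace (E n) M] [IsManifold 𝓘(ℂ, E n) ω M]
  [TopologicalSpace N] [ChartedSpace (E m) N] [IsManifold 𝓘(ℂ, E m) ω N]
  [TopologicalSpace P] [ChartedSpace (E k) P] [IsManifold 𝓘(ℂ, E k) ω P]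

/-- Local expression of a derivative. -/
theorem D_loc {f : M → N} {φ : OpenPartialHomeomorph M (E n)} {ψ : OpenPartialHomeomorph N (E m)}
    (hφ : φ ∈ RA n M) (hψ : ψ ∈ RA m N) {z : E n} (hz : z ∈ φ.target)
    (hfz : f (φ.symm z) ∈ ψ.source)
    (hf : MDifferentiableAt 𝓘(ℝ, E n) 𝓘(ℝ, E m) f (φ.symm z)) :
    (D m m ψ (f (φ.symm z))).comp ((D n m f (φ.symm z)).comp (D n n φ.symm z)) =
      fderiv ℝ (ψ ∘ f ∘ φ.symm) z := by
  have h1 : D n m (ψ ∘ (f ∘ φ.symm)) z =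
      (D m m ψ ((f ∘ φ.symm) z)).comp (D n m (f ∘ φ.symm) z) :=
    D_comp (M := E n) (mdiff_chart hψ hfz) (hf.comp z (mdiff_chart_symm hφ hz))
  have h2 : D n m (f ∘ φ.symm) z = (D n m f (φ.symm z)).comp (D n n φ.symm z) :=
    D_comp (M := E n) hf (mdiff_chart_symm hφ hz)
  rw [h2] at h1
  rw [← D_model]
  exact h1.symm

/-- The same, solved for the derivative of `f`. -/
theorem D_loc' {f : M → N} {φ : OpenPartialHomeomorph M (E n)} {ψ : OpenPartialHomeomorph N (E m)}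
    (hφ : φ ∈ RA n M) (hψ : ψ ∈ RA m N) {z : E n} (hz : z ∈ φ.target)
    (hfz : f (φ.symm z) ∈ ψ.source)
    (hf : MDifferentiableAt 𝓘(ℝ, E n) 𝓘(ℝ, E m) f (φ.symm z)) :
    (D n m f (φ.symm z)).comp (D n n φ.symm z) =
      (D m m ψ.symm (ψ (f (φ.symm z)))).comp (fderiv ℝ (ψ ∘ f ∘ φ.symm) z) := by
  rw [← D_loc hφ hψ hz hfz hf, ← ContinuousLinearMap.comp_assoc, D_symm_comp hψ hfz,
    ContinuousLinearMap.id_comp]

/-- Local expression of a pulled back 1-form. -/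
theorem loc1_pb1 {f : M → N} {φ : OpenPartialHomeomorph M (E n)}
    {ψ : OpenPartialHomeomorph N (E m)}
    (hφ : φ ∈ RA n M) (hψ : ψ ∈ RA m N) {z : E n} (hz : z ∈ φ.target)
    (hfz : f (φ.symm z) ∈ ψ.source)
    (hf : MDifferentiableAt 𝓘(ℝ, E n) 𝓘(ℝ, E m) f (φ.symm z)) (α : F1 m N) :
    loc1 φ (pb1 n f α) z =
      (loc1 ψ α (ψ (f (φ.symm z)))).comp (fderiv ℝ (ψ ∘ f ∘ φ.symm) z) := by
  have h1 := D_loc' hφ hψ hz hfz hf
  have h2 : ψ.symm (ψ (f (φ.symm z))) = f (φ.symm z) := ψ.left_inv hfz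
  unfold loc1 pb1
  rw [ContinuousLinearMap.comp_assoc, h1, h2, ContinuousLinearMap.comp_assoc]

/-- Local expression of a pulled back 2-form. -/
theorem loc2_pb2 {f : M → N} {φ : OpenPartialHomeomorph M (E n)}
    {ψ : OpenPartialHomeomorph N (E m)}
    (hφ : φ ∈ RA n M) (hψ : ψ ∈ RA m N) {z : E n} (hz : z ∈ φ.target)
    (hfz : f (φ.symm z) ∈ ψ.source)
    (hf : MDifferentiableAt 𝓘(ℝ, E n) 𝓘(ℝ, E m) f (φ.symm z)) (σ : F2 m N) :
    loc2 φ (pb2 n f σ) z =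
      (loc2 ψ σ (ψ (f (φ.symm z)))).bilinearComp (fderiv ℝ (ψ ∘ f ∘ φ.symm) z)
        (fderiv ℝ (ψ ∘ f ∘ φ.symm) z) := by
  have h1 := D_loc' hφ hψ hz hfz hf
  have h2 : ψ.symm (ψ (f (φ.symm z))) = f (φ.symm z) := ψ.left_inv hfz
  have h3 : ∀ u, D n m f (φ.symm z) (D n n φ.symm z u) =
      D m m ψ.symm (ψ (f (φ.symm z))) (fderiv ℝ (ψ ∘ f ∘ φ.symm) z u) := fun u =>
    DFunLike.congr_fun h1 u
  ext u v
  simp only [loc2, pb2, ContinuousLinearMap.bilinearComp_apply, h3, h2]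

/-- Change of charts. -/
theorem loc1_change {φ ψ : OpenPartialHomeomorph M (E n)} (hφ : φ ∈ RA n M) (hψ : ψ ∈ RA n M)
    {z : E n} (hz : z ∈ φ.target) (hz' : φ.symm z ∈ ψ.source) (α : F1 n M) :
    loc1 φ α z = (loc1 ψ α (ψ (φ.symm z))).comp (fderiv ℝ (ψ ∘ φ.symm) z) := by
  have h1 : pb1 n (id : M → M) α = α := by
    funext x
    unfold pb1
    rw [D_id, ContinuousLinearMap.comp_id]
    rfl
  have h2 := loc1_pb1 (f := (id : M → M)) hφ hψ hz hz' mdifferentiableAt_id α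
  rw [h1] at h2
  exact h2

theorem loc2_change {φ ψ : OpenPartialHomeomorph M (E n)} (hφ : φ ∈ RA n M) (hψ : ψ ∈ RA n M)
    {z : E n} (hz : z ∈ φ.target) (hz' : φ.symm z ∈ ψ.source) (σ : F2 n M) :
    loc2 φ σ z = (loc2 ψ σ (ψ (φ.symm z))).bilinearComp (fderiv ℝ (ψ ∘ φ.symm) z)
      (fderiv ℝ (ψ ∘ φ.symm) z) := by
  have h1 : pb2 n (id : M → M) σ = σ := by
    funext x
    unfold pb2
    rw [D_id]
    rfl
  have h2 := loc2_pb2 (f := (id : M → M)) hφ hψ hz hz' mdifferentiableAt_id σ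
  rw [h1] at h2
  exact h2

/-- Coordinate changes are smooth. -/
theorem contDiffOn_change {φ ψ : OpenPartialHomeomorph M (E n)} (hφ : φ ∈ RA n M)
    (hψ : ψ ∈ RA n M) : ContDiffOn ℝ ∞ (ψ ∘ φ.symm) (φ.symm ≫ₕ ψ).source := by
  have h := StructureGroupoid.compatible_of_mem_maximalAtlas hφ hψ
  rw [contDiffGroupoid, mem_groupoid_of_pregroupoid] at h
  simpa [contDiffPregroupoid] using h.1

theorem contDiffAt_change {φ ψ : OpenPartialHomeomorph M (E n)} (hφ : φ ∈ RA n M)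
    (hψ : ψ ∈ RA n M) {z : E n} (hz : z ∈ φ.target) (hz' : φ.symm z ∈ ψ.source) :
    ContDiffAt ℝ ∞ (ψ ∘ φ.symm) z := by
  refine (contDiffOn_change hφ hψ).contDiffAt ((φ.symm ≫ₕ ψ).open_source.mem_nhds ?_)
  rw [OpenPartialHomeomorph.trans_source]
  exact ⟨hz, hz'⟩

/-- Recover a form from its local expression. -/
theorem eq_of_loc1 {φ : OpenPartialHomeomorph M (E n)} (hφ : φ ∈ RA n M) {x : M}
    (hx : x ∈ φ.source) (α : F1 n M) : α x = (loc1 φ α (φ x)).comp (D n n φ x) := by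
  unfold loc1
  rw [ContinuousLinearMap.comp_assoc, D_symm_comp hφ hx, ContinuousLinearMap.comp_id,
    φ.left_inv hx]

theorem eq_of_loc2 {φ : OpenPartialHomeomorph M (E n)} (hφ : φ ∈ RA n M) {x : M}
    (hx : x ∈ φ.source) (σ : F2 n M) :
    σ x = (loc2 φ σ (φ x)).bilinearComp (D n n φ x) (D n n φ x) := by
  have h3 : ∀ u, D n n φ.symm (φ x) (D n n φ x u) = u := fun u =>
    DFunLike.congr_fun (D_symm_comp hφ hx) u
  ext u v
  simp only [loc2, ContinuousLinearMap.bilinearComp_apply, h3, φ.left_inv hx]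

theorem loc1_chartAt (α : F1 n M) (x : M) :
    loc1 (chartAt (E n) x) α (chartAt (E n) x x) = α x := by
  unfold loc1
  rw [D_chartAt_symm, ContinuousLinearMap.comp_id,
    (chartAt (E n) x).left_inv (mem_chart_source (E n) x)]

theorem loc2_chartAt (σ : F2 n M) (x : M) :
    loc2 (chartAt (E n) x) σ (chartAt (E n) x x) = σ x := by
  ext u v
  simp only [loc2, ContinuousLinearMap.bilinearComp_apply, D_chartAt_symm,
    ContinuousLinearMap.id_apply, (chartAt (E n) x).left_inv (mem_chart_source (E n) x)]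

/-- Local expression of a smooth map. -/
theorem Smth.contDiffAt_loc {f : M → N} (hf : Smth n m f) {φ : OpenPartialHomeomorph M (E n)}
    {ψ : OpenPartialHomeomorph N (E m)} (hφ : φ ∈ RA n M) (hψ : ψ ∈ RA m N) {z : E n}
    (hz : z ∈ φ.target) (hfz : f (φ.symm z) ∈ ψ.source) :
    ContDiffAt ℝ ∞ (ψ ∘ f ∘ φ.symm) z := by
  rw [← contMDiffAt_iff_contDiffAt]
  have h1 : ContMDiffAt 𝓘(ℝ, E n) 𝓘(ℝ, E n) ∞ φ.symm z :=
    (contMDiffOn_symm_of_mem_maximalAtlas hφ).contMDiffAt (φ.open_target.mem_nhds hz)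
  have h2 : ContMDiffAt 𝓘(ℝ, E m) 𝓘(ℝ, E m) ∞ ψ (f (φ.symm z)) :=
    (contMDiffOn_of_mem_maximalAtlas hψ).contMDiffAt (ψ.open_source.mem_nhds hfz)
  exact ContMDiffAt.comp z h2 (ContMDiffAt.comp z (hf (φ.symm z)) h1)

/-- Local expression of a holomorphic map. -/
theorem HoloAt.analyticAt_loc {f : M → N} {φ : OpenPartialHomeomorph M (E n)}
    {ψ : OpenPartialHomeomorph N (E m)} (hφ : φ ∈ CA n M) (hψ : ψ ∈ CA m N) {z : E n}
    (hz : z ∈ φ.target) (hfz : f (φ.symm z) ∈ ψ.source) (hf : HoloAt n m f (φ.symm z)) :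
    ContDiffAt ℂ ω (ψ ∘ f ∘ φ.symm) z := by
  rw [← contMDiffAt_iff_contDiffAt]
  have h1 : ContMDiffAt 𝓘(ℂ, E n) 𝓘(ℂ, E n) ω φ.symm z :=
    (contMDiffOn_symm_of_mem_maximalAtlas hφ).contMDiffAt (φ.open_target.mem_nhds hz)
  have h2 : ContMDiffAt 𝓘(ℂ, E m) 𝓘(ℂ, E m) ω ψ (f (φ.symm z)) :=
    (contMDiffOn_of_mem_maximalAtlas hψ).contMDiffAt (ψ.open_source.mem_nhds hfz)
  exact ContMDiffAt.comp z h2 (ContMDiffAt.comp z hf h1)

/-- Exterior derivative of a function in a chart. -/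
theorem loc1_d0 {f : M → ℂ} {φ : OpenPartialHomeomorph M (E n)} (hφ : φ ∈ RA n M) {z : E n}
    (hz : z ∈ φ.target) (hf : MDifferentiableAt 𝓘(ℝ, E n) 𝓘(ℝ, ℂ) f (φ.symm z)) :
    loc1 φ (d0 n f) z = fderiv ℝ (f ∘ φ.symm) z := by
  unfold loc1 d0 D
  rw [← mfderiv_eq_fderiv, mfderiv_comp z hf (mdiff_chart_symm hφ hz)]
  rfl

theorem S0.contDiffAt_loc {f : M → ℂ} (hf : S0 n f) {φ : OpenPartialHomeomorph M (E n)}
    (hφ : φ ∈ RA n M) {z : E n} (hz : z ∈ φ.target) : ContDiffAt ℝ ∞ (f ∘ φ.symm) z := by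
  rw [← contMDiffAt_iff_contDiffAt]
  have h1 : ContMDiffAt 𝓘(ℝ, E n) 𝓘(ℝ, E n) ∞ φ.symm z :=
    (contMDiffOn_symm_of_mem_maximalAtlas hφ).contMDiffAt (φ.open_target.mem_nhds hz)
  exact ContMDiffAt.comp z (hf (φ.symm z)) h1

end

end Pool.Agent.K708
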