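import Pool.Agent.Lib.K708.FcL

/-! # K708: smoothness of forms, exterior derivative in charts, pull-backs -/

set_option autoImplicit false

open scoped Manifold ContDiff Topology
open Set

noncomputable section

namespace Pool.Agent.K708

namespace FcS

theorem two_le_inf : (2 : WithTop ℕ∞) ≤ ∞ := WithTop.coe_le_coe.2 le_top

theorem flip_bdd {A B C : Type*} [NormedAddCommGroup A] [NormedSpace ℝ A] [NormedAddCommGroup B]
    [NormedSpace ℝ B] [NormedAddCommGroup C] [NormedSpace ℝ C] :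
    IsBoundedLinearMap ℝ (fun τ : A →L[ℝ] B →L[ℝ] C => τ.flip) where
  map_add := fun x y => rfl
  map_smul := fun c x => rfl
  bound := ⟨1, one_pos, fun x => by rw [ContinuousLinearMap.opNorm_flip, one_mul]⟩

theorem flip_contDiff {A B C : Type*} [NormedAddCommGroup A] [NormedSpace ℝ A]
    [NormedAddCommGroup B] [NormedSpace ℝ B] [NormedAddCommGroup C] [NormedSpace ℝ C] :
    ContDiff ℝ ∞ (fun τ : A →L[ℝ] B →L[ℝ] C => τ.flip) :=
  flip_bdd.contDiff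

theorem flip_differentiableAt {X A B C : Type*} [NormedAddCommGroup X] [NormedSpace ℝ X]
    [NormedAddCommGroup A] [NormedSpace ℝ A]
    [NormedAddCommGroup B] [NormedSpace ℝ B] [NormedAddCommGroup C] [NormedSpace ℝ C]
    {f : X → A →L[ℝ] B →L[ℝ] C} {z : X} (hf : DifferentiableAt ℝ f z) :
    DifferentiableAt ℝ (fun y => (f y).flip) z := by
  have h : DifferentiableAt ℝ (fun τ : A →L[ℝ] B →L[ℝ] C => τ.flip) (f z) :=
    (flip_contDiff (A := A) (B := B) (C := C)).differentiable (by simp) (f z)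
  exact DifferentiableAt.comp (𝕜 := ℝ) (E := X) (F := A →L[ℝ] B →L[ℝ] C)
    (G := B →L[ℝ] A →L[ℝ] C) (f := f) (g := fun τ : A →L[ℝ] B →L[ℝ] C => τ.flip) z h hf

theorem bilinearComp_contDiffAt {n m k : ℕ} {τ : E k → (E m →L[ℝ] E m →L[ℝ] ℂ)}
    {A : E k → (E n →L[ℝ] E m)} {z : E k} (hτ : ContDiffAt ℝ ∞ τ z) (hA : ContDiffAt ℝ ∞ A z) :
    ContDiffAt ℝ ∞ (fun w => (τ w).bilinearComp (A w) (A w)) z := by
  have h1 : ContDiffAt ℝ ∞ (fun w => (τ w).comp (A w)) z := hτ.clm_comp hA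
  have h2 : ContDiffAt ℝ ∞ (fun w => ((τ w).comp (A w)).flip) z :=
    flip_contDiff.contDiffAt.comp z h1
  have h3 : ContDiffAt ℝ ∞ (fun w => (((τ w).comp (A w)).flip).comp (A w)) z := h2.clm_comp hA
  exact flip_contDiff.contDiffAt.comp z h3

theorem fderiv_contDiffAt {n m : ℕ} {g : E n → E m} {z : E n} (hg : ContDiffAt ℝ ∞ g z) :
    ContDiffAt ℝ ∞ (fderiv ℝ g) z :=
  hg.fderiv_right (by simp)

end FcS

section

variable {n m k : ℕ} {M N P : Type*}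
  [TopologicalSpace M] [ChartedSpace (E n) M] [IsManifold 𝓘(ℂ, E n) ω M]
  [TopologicalSpace N] [ChartedSpace (E m) N] [IsManifold 𝓘(ℂ, E m) ω N]
  [TopologicalSpace P] [ChartedSpace (E k) P] [IsManifold 𝓘(ℂ, E k) ω P]

namespace FcS

omit [ChartedSpace (E n) M] [IsManifold 𝓘(ℂ, E n) ω M] in
/-- Near `z` the overlap condition holds. -/
theorem eventually_overlap {φ ψ : OpenPartialHomeomorph M (E n)} {z : E n} (hz : z ∈ φ.target)
    (hz' : φ.symm z ∈ ψ.source) : ∀ᶠ w in 𝓝 z, w ∈ φ.target ∧ φ.symm w ∈ ψ.source := by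
  have h1 : ∀ᶠ w in 𝓝 z, w ∈ φ.target := φ.open_target.mem_nhds hz
  have h2 : ∀ᶠ w in 𝓝 z, φ.symm w ∈ ψ.source :=
    (φ.continuousAt_symm hz).preimage_mem_nhds (ψ.open_source.mem_nhds hz')
  exact h1.and h2

theorem loc1_eventuallyEq {φ ψ : OpenPartialHomeomorph M (E n)} (hφ : φ ∈ RA n M)
    (hψ : ψ ∈ RA n M) {z : E n} (hz : z ∈ φ.target) (hz' : φ.symm z ∈ ψ.source) (α : F1 n M) :
    loc1 φ α =ᶠ[𝓝 z]
      fun w => (loc1 ψ α ((ψ ∘ φ.symm) w)).comp (fderiv ℝ (ψ ∘ φ.symm) w) := by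
  filter_upwards [eventually_overlap hz hz'] with w hw
  exact loc1_change hφ hψ hw.1 hw.2 α

theorem loc2_eventuallyEq {φ ψ : OpenPartialHomeomorph M (E n)} (hφ : φ ∈ RA n M)
    (hψ : ψ ∈ RA n M) {z : E n} (hz : z ∈ φ.target) (hz' : φ.symm z ∈ ψ.source) (σ : F2 n M) :
    loc2 φ σ =ᶠ[𝓝 z]
      fun w => (loc2 ψ σ ((ψ ∘ φ.symm) w)).bilinearComp (fderiv ℝ (ψ ∘ φ.symm) w)
        (fderiv ℝ (ψ ∘ φ.symm) w) := by
  filter_upwards [eventually_overlap hz hz'] with w hw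
  exact loc2_change hφ hψ hw.1 hw.2 σ

theorem loc1_contDiffAt_of {φ ψ : OpenPartialHomeomorph M (E n)} (hφ : φ ∈ RA n M)
    (hψ : ψ ∈ RA n M) {z : E n} (hz : z ∈ φ.target) (hz' : φ.symm z ∈ ψ.source) {α : F1 n M}
    (h : ContDiffAt ℝ ∞ (loc1 ψ α) (ψ (φ.symm z))) : ContDiffAt ℝ ∞ (loc1 φ α) z := by
  refine ContDiffAt.congr_of_eventuallyEq ?_ (loc1_eventuallyEq hφ hψ hz hz' α)
  have hg := contDiffAt_change hφ hψ hz hz'
  exact (ContDiffAt.comp z h hg).clm_comp (fderiv_contDiffAt hg)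

theorem loc2_contDiffAt_of {φ ψ : OpenPartialHomeomorph M (E n)} (hφ : φ ∈ RA n M)
    (hψ : ψ ∈ RA n M) {z : E n} (hz : z ∈ φ.target) (hz' : φ.symm z ∈ ψ.source) {σ : F2 n M}
    (h : ContDiffAt ℝ ∞ (loc2 ψ σ) (ψ (φ.symm z))) : ContDiffAt ℝ ∞ (loc2 φ σ) z := by
  refine ContDiffAt.congr_of_eventuallyEq ?_ (loc2_eventuallyEq hφ hψ hz hz' σ)
  have hg := contDiffAt_change hφ hψ hz hz'
  have h' : ContDiffAt ℝ ∞ (fun w => loc2 ψ σ ((ψ ∘ φ.symm) w)) z :=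
    ContDiffAt.comp (g := loc2 ψ σ) (f := ψ ∘ φ.symm) z h hg
  exact bilinearComp_contDiffAt h' (fderiv_contDiffAt hg)

theorem loc1_differentiableAt_of {φ ψ : OpenPartialHomeomorph M (E n)} (hφ : φ ∈ RA n M)
    (hψ : ψ ∈ RA n M) {z : E n} (hz : z ∈ φ.target) (hz' : φ.symm z ∈ ψ.source) {α : F1 n M}
    (h : DifferentiableAt ℝ (loc1 ψ α) (ψ (φ.symm z))) : DifferentiableAt ℝ (loc1 φ α) z := by
  refine DifferentiableAt.congr_of_eventuallyEq ?_ (loc1_eventuallyEq hφ hψ hz hz' α)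
  have hg := contDiffAt_change hφ hψ hz hz'
  exact (DifferentiableAt.comp z h (hg.differentiableAt (by simp))).clm_comp
    ((fderiv_contDiffAt hg).differentiableAt (by simp))

/-- Derivative of a pulled back 2-form on the model space. -/
theorem fderiv_bilinearComp {p : ℕ} {τ : E m → (E m →L[ℝ] E m →L[ℝ] ℂ)} {g : E p → E m} {z : E p}
    (hτ : DifferentiableAt ℝ τ (g z)) (hg : ContDiffAt ℝ ∞ g z) (u v w : E p) :
    fderiv ℝ (fun y => (τ (g y)).bilinearComp (fderiv ℝ g y) (fderiv ℝ g y)) z u v w =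
      fderiv ℝ τ (g z) (fderiv ℝ g z u) (fderiv ℝ g z v) (fderiv ℝ g z w)
      + τ (g z) (fderiv ℝ (fderiv ℝ g) z u v) (fderiv ℝ g z w)
      + τ (g z) (fderiv ℝ g z v) (fderiv ℝ (fderiv ℝ g) z u w) := by
  have hg1 : DifferentiableAt ℝ g z := hg.differentiableAt (by simp)
  have hg2 : DifferentiableAt ℝ (fderiv ℝ g) z :=
    (fderiv_contDiffAt hg).differentiableAt (by simp)
  have hτ' : HasFDerivAt τ (fderiv ℝ τ (g z)) (g z) := hτ.hasFDerivAt
  have hτg : HasFDerivAt (fun y => τ (g y)) ((fderiv ℝ τ (g z)).comp (fderiv ℝ g z)) z :=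
    HasFDerivAt.comp (G := E m →L[ℝ] E m →L[ℝ] ℂ) z hτ' hg1.hasFDerivAt
  have hA : HasFDerivAt (fun y => fderiv ℝ g y) (fderiv ℝ (fderiv ℝ g) z) z := hg2.hasFDerivAt
  have hAv : ∀ v : E p, HasFDerivAt (fun y => fderiv ℝ g y v)
      ((fderiv ℝ (fderiv ℝ g) z).flip v) z := fun v => by
    have := hA.clm_apply (hasFDerivAt_const v z)
    simpa using this
  have h5 : HasFDerivAt (fun y => τ (g y) (fderiv ℝ g y v) (fderiv ℝ g y w)) _ z :=
    (hτg.clm_apply (hAv v)).clm_apply (hAv w)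
  have hdiff : DifferentiableAt ℝ
      (fun y => (τ (g y)).bilinearComp (fderiv ℝ g y) (fderiv ℝ g y)) z := by
    have h1 : DifferentiableAt ℝ (fun y => (τ (g y)).comp (fderiv ℝ g y)) z :=
      hτg.differentiableAt.clm_comp hg2
    have h2 : DifferentiableAt ℝ (fun y => ((τ (g y)).comp (fderiv ℝ g y)).flip) z :=
      flip_differentiableAt h1
    have h3 := h2.clm_comp hg2
    exact flip_differentiableAt h3
  have hv : HasFDerivAt (fun y => (τ (g y)).bilinearComp (fderiv ℝ g y) (fderiv ℝ g y) v w)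
      (((fderiv ℝ (fun y => (τ (g y)).bilinearComp (fderiv ℝ g y) (fderiv ℝ g y)) z).flip
        v).flip w) z := by
    have h1 := (hdiff.hasFDerivAt.clm_apply (hasFDerivAt_const v z)).clm_apply
      (hasFDerivAt_const w z)
    simpa using h1
  have h6 := congrArg (fun L => L u) (hv.unique h5)
  simp only [ContinuousLinearMap.flip_apply] at h6
  rw [h6]
  simp only [add_apply, ContinuousLinearMap.comp_apply,
    ContinuousLinearMap.flip_apply]
  ring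

end FcS

/-- Smoothness of a 1-form can be tested near each point in one chart. -/
theorem S1_of_local {α : F1 n M}
    (h : ∀ x : M, ∃ φ ∈ RA n M, x ∈ φ.source ∧ ContDiffAt ℝ ∞ (loc1 φ α) (φ x)) : S1 α := by
  intro ψ hψ z hz
  obtain ⟨φ, hφ, hx, hs⟩ := h (ψ.symm z)
  exact (FcS.loc1_contDiffAt_of hψ hφ hz hx hs).contDiffWithinAt

omit [IsManifold 𝓘(ℂ, E n) ω M] in
theorem S1.contDiffAt {α : F1 n M} (h : S1 α) {φ : OpenPartialHomeomorph M (E n)}
    (hφ : φ ∈ RA n M) {z : E n} (hz : z ∈ φ.target) : ContDiffAt ℝ ∞ (loc1 φ α) z :=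
  (h φ hφ).contDiffAt (φ.open_target.mem_nhds hz)

theorem S2_of_local {σ : F2 n M} (ha : ∀ x u v, σ x u v = - σ x v u)
    (h : ∀ x : M, ∃ φ ∈ RA n M, x ∈ φ.source ∧ ContDiffAt ℝ ∞ (loc2 φ σ) (φ x)) : S2 σ := by
  refine ⟨ha, fun ψ hψ z hz => ?_⟩
  obtain ⟨φ, hφ, hx, hs⟩ := h (ψ.symm z)
  exact (FcS.loc2_contDiffAt_of hψ hφ hz hx hs).contDiffWithinAt

omit [IsManifold 𝓘(ℂ, E n) ω M] in
theorem S2.contDiffAt {σ : F2 n M} (h : S2 σ) {φ : OpenPartialHomeomorph M (E n)}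
    (hφ : φ ∈ RA n M) {z : E n} (hz : z ∈ φ.target) : ContDiffAt ℝ ∞ (loc2 φ σ) z :=
  (h.2 φ hφ).contDiffAt (φ.open_target.mem_nhds hz)

/-- Naturality of the exterior derivative of a 1-form on the model spaces. -/
theorem dE1_pull {a : E m → (E m →L[ℝ] ℂ)} {g : E n → E m} {z : E n}
    (ha : DifferentiableAt ℝ a (g z)) (hg : ContDiffAt ℝ ∞ g z) :
    dE1 (fun w => (a (g w)).comp (fderiv ℝ g w)) z =
      (dE1 a (g z)).bilinearComp (fderiv ℝ g z) (fderiv ℝ g z) := by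
  have hg1 : DifferentiableAt ℝ g z := hg.differentiableAt (by simp)
  have hg2 : DifferentiableAt ℝ (fderiv ℝ g) z :=
    (FcS.fderiv_contDiffAt hg).differentiableAt (by simp)
  have hag : HasFDerivAt (fun y => a (g y)) ((fderiv ℝ a (g z)).comp (fderiv ℝ g z)) z :=
    ha.hasFDerivAt.comp z hg1.hasFDerivAt
  have hd := (hag.clm_comp hg2.hasFDerivAt).fderiv
  have hsymm : IsSymmSndFDerivAt ℝ g z :=
    hg.isSymmSndFDerivAt (by simpa using FcS.two_le_inf)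
  ext u v
  simp only [dE1, hd]
  have hs := hsymm.eq u v
  simp [hs]

/-- The exterior derivative in any real smooth chart. -/
theorem loc2_d1_at {κ : F1 n M} {φ : OpenPartialHomeomorph M (E n)} (hφ : φ ∈ RA n M) {z : E n}
    (hz : z ∈ φ.target) (hκ : DifferentiableAt ℝ (loc1 φ κ) z) :
    loc2 φ (d1 κ) z = dE1 (loc1 φ κ) z := by
  set x := φ.symm z with hx
  set ψ := chartAt (E n) x with hψd
  have hψ : ψ ∈ RA n M := chartAt_mem_RA x
  have hxs : x ∈ ψ.source := mem_chart_source (E n) x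
  have hg := contDiffAt_change hφ hψ hz hxs
  have hφx : φ x = z := φ.right_inv hz
  have hκ' : DifferentiableAt ℝ (loc1 ψ κ) (ψ x) := by
    refine FcS.loc1_differentiableAt_of (φ := ψ) (ψ := φ) hψ hφ (ψ.map_source hxs) ?_ ?_
    · rw [ψ.left_inv hxs]; exact φ.map_target hz
    · rw [ψ.left_inv hxs, hφx]; exact hκ
  have h1 : dE1 (loc1 φ κ) z =
      dE1 (fun w => (loc1 ψ κ ((ψ ∘ φ.symm) w)).comp (fderiv ℝ (ψ ∘ φ.symm) w)) z := by
    unfold dE1
    rw [(FcS.loc1_eventuallyEq hφ hψ hz hxs κ).fderiv_eq]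
  rw [h1, dE1_pull (a := loc1 ψ κ) (g := ψ ∘ φ.symm) hκ' hg]
  have h2 : fderiv ℝ (ψ ∘ φ.symm) z = D n n φ.symm z := by
    have h3 : D n n (ψ ∘ φ.symm) z = (D n n ψ (φ.symm z)).comp (D n n φ.symm z) :=
      D_comp (mdiff_chart hψ hxs) (mdiff_chart_symm hφ hz)
    have h4 : D n n ψ (φ.symm z) = ContinuousLinearMap.id ℝ (E n) := D_chartAt x
    rw [← D_model, h3, h4]
    rfl
  rw [h2]
  rfl

theorem loc2_d1 {κ : F1 n M} (hκ : S1 κ) {φ : OpenPartialHomeomorph M (E n)} (hφ : φ ∈ RA n M)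
    {z : E n} (hz : z ∈ φ.target) : loc2 φ (d1 κ) z = dE1 (loc1 φ κ) z :=
  loc2_d1_at hφ hz ((hκ.contDiffAt hφ hz).differentiableAt (by simp))

/-- Closedness of a 2-form can be tested near each point in one chart. -/
theorem Cl2_of_local {σ : F2 n M} (hσ : S2 σ)
    (h : ∀ x : M, ∃ φ ∈ RA n M, x ∈ φ.source ∧ ∀ u v w : E n,
      fderiv ℝ (loc2 φ σ) (φ x) u v w + fderiv ℝ (loc2 φ σ) (φ x) v w u +
        fderiv ℝ (loc2 φ σ) (φ x) w u v = 0) : Cl2 σ := by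
  intro ψ hψ z hz u v w
  obtain ⟨φ, hφ, hx, hs⟩ := h (ψ.symm z)
  have hg := contDiffAt_change hψ hφ hz hx
  have hτ : DifferentiableAt ℝ (loc2 φ σ) ((φ ∘ ψ.symm) z) :=
    (hσ.contDiffAt hφ (φ.map_source hx)).differentiableAt (by simp)
  have hsymm : IsSymmSndFDerivAt ℝ (φ ∘ ψ.symm) z :=
    hg.isSymmSndFDerivAt (by simpa using FcS.two_le_inf)
  have he := (FcS.loc2_eventuallyEq hψ hφ hz hx σ).fderiv_eq (𝕜 := ℝ)
  have ha : ∀ y a b, loc2 φ σ y a b = - loc2 φ σ y b a := fun y a b => hσ.1 _ _ _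
  rw [he, FcS.fderiv_bilinearComp hτ hg, FcS.fderiv_bilinearComp hτ hg,
    FcS.fderiv_bilinearComp hτ hg]
  set G := fderiv ℝ (φ ∘ ψ.symm) z
  set H := fderiv ℝ (fderiv ℝ (φ ∘ ψ.symm)) z
  have e1 := hs (G u) (G v) (G w)
  have e2 := ha ((φ ∘ ψ.symm) z) (H u v) (G w)
  have e3 := ha ((φ ∘ ψ.symm) z) (H v w) (G u)
  have e4 := ha ((φ ∘ ψ.symm) z) (H w u) (G v)
  have s1 : H u v = H v u := hsymm.eq u v
  have s2 : H v w = H w v := hsymm.eq v w
  have s3 : H w u = H u w := hsymm.eq w u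
  rw [← s3, ← s2, ← s1, e2, e3, e4]
  simp only [Function.comp_apply] at e1 ⊢
  linear_combination e1

end

end Pool.Agent.K708
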