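import Pool.Agent.Lib.K708.Mfd

/-! # K708: base file (forms, pull-back, exterior derivative)

The charts of a complex manifold make them real smooth manifolds (instance
`realMfd`).  A (real, `ℂ`-valued) 1-form on `M` is a plain function `M → (E n →L[ℝ] ℂ)`: its value
at `x` is a linear form on `T_x M`, which Mathlib identifies with `E n` by the preferred chart.
-/

set_option autoImplicit false

open scoped Manifold ContDiff Topology
open Set

noncomputable section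

namespace Pool.Agent.K708

section Real

variable {n : ℕ} {M : Type*} [TopologicalSpace M] [ChartedSpace (E n) M]

/-- A complex manifold is a real smooth manifold. -/
instance realMfd [IsManifold 𝓘(ℂ, E n) ω M] : IsManifold 𝓘(ℝ, E n) ∞ M := by
  refine isManifold_of_contDiffOn 𝓘(ℝ, E n) ∞ M fun e e' he he' => ?_
  have h := (contDiffGroupoid ω 𝓘(ℂ, E n)).compatible he he'
  rw [contDiffGroupoid, mem_groupoid_of_pregroupoid] at h
  have h2 : ContDiffOn ℂ ω (e.symm ≫ₕ e') (e.symm ≫ₕ e').source := by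
    simpa [contDiffPregroupoid] using h.1
  have h3 : ContDiffOn ℝ ∞ (e.symm ≫ₕ e') (e.symm ≫ₕ e').source :=
    (h2.restrict_scalars ℝ).of_le le_top
  simpa using h3

end Real

section Maps

variable {n m k : ℕ} {M N P : Type*}
  [TopologicalSpace M] [ChartedSpace (E n) M]
  [TopologicalSpace N] [ChartedSpace (E m) N]
  [TopologicalSpace P] [ChartedSpace (E k) P]

variable (n m) in
/-- Real smooth maps between complex manifolds. -/
def Smth (f : M → N) : Prop := ContMDiff 𝓘(ℝ, E n) 𝓘(ℝ, E m) ∞ f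

variable (n m) in
/-- The real derivative, as a map `E n → E m`. -/
def D (f : M → N) (x : M) : E n →L[ℝ] E m := mfderiv 𝓘(ℝ, E n) 𝓘(ℝ, E m) f x

theorem Holo.smth [IsManifold 𝓘(ℂ, E n) ω M] [IsManifold 𝓘(ℂ, E m) ω N] {f : M → N}
    (hf : Holo n m f) : Smth n m f := by
  intro x
  have h := hf x
  rw [contMDiffAt_iff] at h ⊢
  refine ⟨h.1, ?_⟩
  simpa using (h.2.restrict_scalars ℝ).of_le le_top

end Maps

section Forms

variable {n m : ℕ} {M N : Type*}
  [TopologicalSpace M] [ChartedSpace (E n) M]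
  [TopologicalSpace N] [ChartedSpace (E m) N]

variable (n M) in
/-- `ℂ`-valued real 1-forms on `M` (no regularity). -/
abbrev F1 := M → (E n →L[ℝ] ℂ)

variable (n M) in
/-- `ℂ`-valued real bilinear forms on the tangent spaces of `M` (no regularity); 2-forms are the
alternating ones. -/
abbrev F2 := M → (E n →L[ℝ] E n →L[ℝ] ℂ)

/-- Expression of a 1-form in a chart. -/
def loc1 (φ : OpenPartialHomeomorph M (E n)) (α : F1 n M) (z : E n) : E n →L[ℝ] ℂ :=
  (α (φ.symm z)).comp (D n n φ.symm z)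

/-- Expression of a 2-form in a chart. -/
def loc2 (φ : OpenPartialHomeomorph M (E n)) (σ : F2 n M) (z : E n) : E n →L[ℝ] E n →L[ℝ] ℂ :=
  (σ (φ.symm z)).bilinearComp (D n n φ.symm z) (D n n φ.symm z)

variable (n) in
/-- Smooth function with complex values. -/
def S0 (f : M → ℂ) : Prop := ContMDiff 𝓘(ℝ, E n) 𝓘(ℝ, ℂ) ∞ f

/-- Smooth 1-forms: smooth in every real smooth chart. -/
def S1 (α : F1 n M) : Prop :=
  ∀ φ ∈ IsManifold.maximalAtlas 𝓘(ℝ, E n) ∞ M, ContDiffOn ℝ ∞ (loc1 φ α) φ.target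

/-- Smooth 2-forms: alternating and smooth in every real smooth chart. -/
def S2 (σ : F2 n M) : Prop :=
  (∀ x u v, σ x u v = - σ x v u) ∧
  ∀ φ ∈ IsManifold.maximalAtlas 𝓘(ℝ, E n) ∞ M, ContDiffOn ℝ ∞ (loc2 φ σ) φ.target

variable (n) in
/-- Exterior derivative of a function. -/
def d0 (f : M → ℂ) : F1 n M := fun x => mfderiv 𝓘(ℝ, E n) 𝓘(ℝ, ℂ) f x

/-- Exterior derivative of a 1-form on the model space. -/
def dE1 (a : E n → (E n →L[ℝ] ℂ)) (z : E n) : E n →L[ℝ] E n →L[ℝ] ℂ :=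
  fderiv ℝ a z - (fderiv ℝ a z).flip

/-- Exterior derivative of a 1-form (computed in the preferred chart at each point). -/
def d1 (κ : F1 n M) : F2 n M := fun x => dE1 (loc1 (chartAt (E n) x) κ) (chartAt (E n) x x)

/-- Closed 2-forms (in every real smooth chart). -/
def Cl2 (σ : F2 n M) : Prop :=
  ∀ φ ∈ IsManifold.maximalAtlas 𝓘(ℝ, E n) ∞ M, ∀ z ∈ φ.target, ∀ u v w : E n,
    fderiv ℝ (loc2 φ σ) z u v w + fderiv ℝ (loc2 φ σ) z v w u + fderiv ℝ (loc2 φ σ) z w u v = 0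

/-- Wedge product of 1-forms. -/
def wedge (α β : F1 n M) : F2 n M := fun x =>
  (α x).smulRight (β x) - ((α x).smulRight (β x)).flip

/-- Complex conjugate of a 1-form. -/
def cj (α : F1 n M) : F1 n M := fun x => (Complex.conjCLE : ℂ →L[ℝ] ℂ).comp (α x)

/-- Exact 2-forms. -/
def Ex2 (σ : F2 n M) : Prop := ∃ κ : F1 n M, S1 κ ∧ σ = d1 κ

/-- Closed smooth 1-forms. -/
def C1 (α : F1 n M) : Prop := S1 α ∧ d1 α = 0

/-- Closed holomorphic 1-forms: closed smooth forms of type (1,0). -/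
def H1 (α : F1 n M) : Prop := C1 α ∧ ∀ x u, α x (Complex.I • u) = Complex.I * α x u

variable (n) in
/-- Pull-back of a 1-form. -/
def pb1 (f : M → N) (α : F1 m N) : F1 n M := fun x => (α (f x)).comp (D n m f x)

variable (n) in
/-- Pull-back of a 2-form. -/
def pb2 (f : M → N) (σ : F2 m N) : F2 n M := fun x =>
  (σ (f x)).bilinearComp (D n m f x) (D n m f x)

end Forms

/-! ## Surfaces: Kähler forms, volume, integrals of 4-forms `σ ∧ τ` -/

/-- The standard real basis of `ℂ²`. -/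
def bv : Fin 4 → E 2 := ![![1, 0], ![Complex.I, 0], ![0, 1], ![0, Complex.I]]

/-- `(B ∧ C)(e₁, i e₁, e₂, i e₂)` for alternating bilinear forms on `ℂ²`. -/
def w4 (B C : E 2 →L[ℝ] E 2 →L[ℝ] ℂ) : ℂ :=
  B (bv 0) (bv 1) * C (bv 2) (bv 3) - B (bv 0) (bv 2) * C (bv 1) (bv 3)
    + B (bv 0) (bv 3) * C (bv 1) (bv 2) + B (bv 1) (bv 2) * C (bv 0) (bv 3)
    - B (bv 1) (bv 3) * C (bv 0) (bv 2) + B (bv 2) (bv 3) * C (bv 0) (bv 1)

/-- Kähler forms on a complex manifold. -/
structure Kah {n : ℕ} {M : Type*} [TopologicalSpace M] [ChartedSpace (E n) M] (Ω : F2 n M) :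
    Prop where
  s2 : S2 Ω
  cl : Cl2 Ω
  real : ∀ x u v, (Ω x u v).im = 0
  inv : ∀ x u v, Ω x (Complex.I • u) (Complex.I • v) = Ω x u v
  pos : ∀ x u, u ≠ 0 → 0 < (Ω x u (Complex.I • u)).re

instance (n : ℕ) (X : CMfd n) : MeasurableSpace X := borel X
instance (n : ℕ) (X : CMfd n) : BorelSpace X := ⟨rfl⟩

/-- `μ` is the volume measure with density `w4 Ω Ω`. -/
structure IsVol (X : CMfd 2) (Ω : F2 2 X) (μ : MeasureTheory.Measure X) : Prop where
  fin : MeasureTheory.IsFiniteMeasure μ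
  chart : ∀ φ ∈ IsManifold.maximalAtlas 𝓘(ℝ, E 2) ∞ X, ∀ g : X → ENNReal, Measurable g →
    ∫⁻ x in φ.source, g x ∂μ = ∫⁻ z in φ.target, g (φ.symm z) *
      ENNReal.ofReal ((w4 (Ω (φ.symm z)) (Ω (φ.symm z))).re * |(D 2 2 φ.symm z).det|)

open Classical in
/-- The volume measure of a Kähler form (junk value `0` if it does not exist). -/
def vol (X : CMfd 2) (Ω : F2 2 X) : MeasureTheory.Measure X :=
  if h : ∃ μ, IsVol X Ω μ then h.choose else 0

/-- `∫_X σ ∧ τ`. -/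
def Int4 (X : CMfd 2) (Ω σ τ : F2 2 X) : ℂ :=
  ∫ x, w4 (σ x) (τ x) / w4 (Ω x) (Ω x) ∂(vol X Ω)

/-! ## Maps to the elliptic curve `ℂ / ℤ[i]` -/

/-- The Gaussian integers in `ℂ`. -/
def Gau : AddSubgroup ℂ where
  carrier := {z | ∃ a b : ℤ, z = a + b * Complex.I}
  zero_mem' := ⟨0, 0, by simp⟩
  add_mem' := by
    rintro _ _ ⟨a, b, rfl⟩ ⟨c, d, rfl⟩
    exact ⟨a + c, b + d, by push_cast; ring⟩
  neg_mem' := by
    rintro _ ⟨a, b, rfl⟩
    exact ⟨-a, -b, by push_cast; ring⟩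

/-- The elliptic curve with complex multiplication by `i`. -/
abbrev Tor := ℂ ⧸ Gau

/-- `F : M → ℂ/ℤ[i]` is smooth and `a` is the pull-back of `dz`. -/
def TF {n : ℕ} {M : Type*} [TopologicalSpace M] [ChartedSpace (E n) M] (F : M → Tor)
    (a : F1 n M) : Prop :=
  ∀ x, ∃ g : M → ℂ, ContMDiffAt 𝓘(ℝ, E n) 𝓘(ℝ, ℂ) ∞ g x ∧
    ∀ᶠ y in 𝓝 x, F y = (QuotientAddGroup.mk (g y) : Tor) ∧ a y = d0 n g y

end Pool.Agent.K708
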