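import Pool.Agent.Lib.K708.CDefs
import Pool.Agent.Lib.MP_708a61_C.Cross

/-! # K708, Section C: double and triple points in an snc chart -/

set_option autoImplicit false

open scoped Manifold ContDiff Topology NNReal ENNReal
open Set Filter MeasureTheory

noncomputable section

namespace Pool.Agent.K708

namespace CGermD

/-- limits are transported by continuous maps -/
theorem limAt_comp {P P' : Type*} [TopologicalSpace P] [TopologicalSpace P'] {E' : Type*}
    [TopologicalSpace E'] {B : Type*} {u : Ultrafilter ℕ} {T : P → B} {T' : P' → B} {t : ℕ → B}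
    {f : ℕ → P → E'} {f' : ℕ → P' → E'} {e : P → P'} (he : Continuous e)
    (hT : ∀ p, T' (e p) = T p) (hf : ∀ n p, f' n (e p) = f n p) {x : P} {c : E'}
    (h : K708C.LimAt u T' t f' (e x) c) : K708C.LimAt u T t f x c := by
  intro O hO
  obtain ⟨W, hW, hW2⟩ := h O hO
  refine ⟨e ⁻¹' W, he.continuousAt hW, ?_⟩
  filter_upwards [hW2] with n hn w hw hwn
  rw [← hf]
  exact hn (e w) hw (by rw [hT, hwn])

/-- `ℂ × ℂ × ℂ → ℂ³` -/
def vec (p : ℂ × ℂ × ℂ) : E 3 := ![p.1, p.2.1, p.2.2]

/-- `ℂ³ → ℂ × ℂ × ℂ` -/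
def tri (z : E 3) : ℂ × ℂ × ℂ := (z 0, z 1, z 2)

theorem continuous_vec : Continuous vec := by
  refine continuous_pi fun i => ?_
  fin_cases i
  · exact continuous_fst
  · exact continuous_fst.comp continuous_snd
  · exact continuous_snd.comp continuous_snd

theorem continuous_tri : Continuous tri :=
  (continuous_apply 0).prodMk ((continuous_apply 1).prodMk (continuous_apply 2))

theorem vec_tri (z : E 3) : vec (tri z) = z := by
  funext i
  fin_cases i <;> rfl

theorem tri_vec (p : ℂ × ℂ × ℂ) : tri (vec p) = p := rfl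

theorem vec_zero : vec (0, 0, 0) = 0 := by
  funext i
  fin_cases i <;> rfl

theorem vec_mem {r : ℝ} (hr : 0 < r) {p : ℂ × ℂ × ℂ} (hp : p ∈ K708C.tridisc r) :
    vec p ∈ Metric.ball (0 : E 3) r := by
  rw [mem_ball_zero_iff, pi_norm_lt_iff hr]
  intro i
  fin_cases i
  · exact hp.1
  · exact hp.2.1
  · exact hp.2.2

end CGermD

open CGermD

/-- C-D. Double points. -/
theorem cross2 (u : Ultrafilter ℕ) (hk : 2 ≤ 3) {r : ℝ} (hr : 0 < r) {C : ℝ≥0}
    {s : ℕ → ℂ} (hs : Tendsto s (u : Filter ℕ) (𝓝 0)) (hs0 : ∀ n, s n ≠ 0)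
    {f : ℕ → E 3 → Tor} (hf : BoxProp hk r C s f) {c₁ c₂ : Tor}
    (h₁ : ∀ z ∈ Metric.ball (0 : E 3) r, z 0 = 0 → z 1 ≠ 0 →
      K708C.LimAt u (pr hk) s f z c₁)
    (h₂ : ∀ z ∈ Metric.ball (0 : E 3) r, z 1 = 0 → z 0 ≠ 0 →
      K708C.LimAt u (pr hk) s f z c₂) :
    c₁ = c₂ ∧ K708C.LimAt u (pr hk) s f 0 c₁ := by
  have hpr : ∀ p : ℂ × ℂ × ℂ, pr hk (vec p) = p.1 * p.2.1 := by
    intro p
    simp [pr, vec, Fin.prod_univ_succ]
  have key := K708C.double_point tau u hs hs0 hr (fun n p => f n (vec p)) (c₁ := c₂) (c₂ := c₁) ?_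
    ?_ ?_
  · refine ⟨key.1.symm, ?_⟩
    have h1 := key.2 0 (by simpa using hr)
    rw [← key.1]
    refine limAt_comp continuous_tri (T' := fun p => p.1 * p.2.1)
      (f' := fun n p => f n (vec p)) ?_ ?_ h1
    · intro z
      rw [← hpr, vec_tri]
    · intro n z
      rw [vec_tri]
  · intro n
    have h2 := hf n 0 2 (by decide)
      {w : ℂ × ℂ | ‖s n‖ < r * ‖w.1‖ ∧ ‖w.1‖ < r ∧ ‖w.2‖ < r} ?_
      (fun w => vec (w.1, s n / w.1, w.2)) ?_ ?_
    · obtain ⟨a, ha, _⟩ := h2
      exact ⟨a, ha⟩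
    · refine IsOpen.inter ?_ (IsOpen.inter ?_ ?_)
      · exact isOpen_lt continuous_const (continuous_const.mul continuous_fst.norm)
      · exact isOpen_lt continuous_fst.norm continuous_const
      · exact isOpen_lt continuous_snd.norm continuous_const
    · rw [differentiableOn_pi]
      intro i
      fin_cases i
      · exact differentiableOn_fst
      · show DifferentiableOn ℂ (fun w : ℂ × ℂ => s n / w.1) _
        simp only [div_eq_mul_inv]
        refine (differentiableOn_const _).mul (differentiableOn_fst.inv fun w hw h => ?_)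
        have h3 := hw.1
        rw [h, norm_zero, mul_zero] at h3
        exact absurd h3 (not_lt.2 (norm_nonneg _))
      · exact differentiableOn_snd
    · intro w hw
      have hw1 : w.1 ≠ 0 := by
        intro h
        have h3 := hw.1
        rw [h, norm_zero, mul_zero] at h3
        exact absurd h3 (not_lt.2 (norm_nonneg _))
      refine ⟨vec_mem hr ⟨hw.2.1, ?_, hw.2.2⟩, rfl, rfl, ?_⟩
      · show ‖s n / w.1‖ < r
        rw [norm_div, div_lt_iff₀ (norm_pos_iff.2 hw1)]
        exact hw.1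
      · rw [hpr]
        show w.1 * (s n / w.1) = s n
        rw [mul_div_cancel₀ _ hw1]
  · intro x z hx hm
    refine limAt_comp continuous_vec (T' := pr hk) (f' := f) hpr (fun _ _ => rfl) ?_
    exact h₂ _ (vec_mem hr hm) rfl hx
  · intro y z hy hm
    refine limAt_comp continuous_vec (T' := pr hk) (f' := f) hpr (fun _ _ => rfl) ?_
    exact h₁ _ (vec_mem hr hm) rfl hy

/-- C-D. Triple points. -/
theorem cross3 (u : Ultrafilter ℕ) (hk : 3 ≤ 3) {r : ℝ} (hr : 0 < r) {C : ℝ≥0}
    {s : ℕ → ℂ} (hs : Tendsto s (u : Filter ℕ) (𝓝 0)) (hs0 : ∀ n, s n ≠ 0)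
    {f : ℕ → E 3 → Tor} (hf : BoxProp hk r C s f) {c : Tor}
    (h : ∀ z ∈ Metric.ball (0 : E 3) r, z ≠ 0 → pr hk z = 0 →
      K708C.LimAt u (pr hk) s f z c) :
    K708C.LimAt u (pr hk) s f 0 c := by
  have hpr : ∀ p : ℂ × ℂ × ℂ, pr hk (vec p) = p.1 * p.2.1 * p.2.2 := by
    intro p
    simp [pr, vec, Fin.prod_univ_succ]
    ring
  have key := K708C.triple_point tau u hs hs0 hr (fun n p => f n (vec p)) (c := c) ?_ ?_
  · refine limAt_comp continuous_tri (T' := fun p => p.1 * p.2.1 * p.2.2)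
      (f' := fun n p => f n (vec p)) ?_ ?_ key
    · intro z
      rw [← hpr, vec_tri]
    · intro n z
      rw [vec_tri]
  · intro n
    have h2 := hf n 0 1 (by decide)
      {w : ℂ × ℂ | ‖s n‖ < r * (‖w.1‖ * ‖w.2‖) ∧ ‖w.1‖ < r ∧ ‖w.2‖ < r} ?_
      (fun w => vec (w.1, w.2, s n / (w.1 * w.2))) ?_ ?_
    · obtain ⟨a, ha, _⟩ := h2
      exact ⟨a, ha⟩
    · refine IsOpen.inter ?_ (IsOpen.inter ?_ ?_)
      · exact isOpen_lt continuous_const
          (continuous_const.mul (continuous_fst.norm.mul continuous_snd.norm))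
      · exact isOpen_lt continuous_fst.norm continuous_const
      · exact isOpen_lt continuous_snd.norm continuous_const
    · rw [differentiableOn_pi]
      intro i
      fin_cases i
      · exact differentiableOn_fst
      · exact differentiableOn_snd
      · show DifferentiableOn ℂ (fun w : ℂ × ℂ => s n / (w.1 * w.2)) _
        simp only [div_eq_mul_inv]
        refine (differentiableOn_const _).mul
          ((differentiableOn_fst.mul differentiableOn_snd).inv fun w hw h => ?_)
        have h3 := hw.1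
        rw [← norm_mul] at h3
        change w.1 * w.2 = 0 at h
        rw [h, norm_zero, mul_zero] at h3
        exact absurd h3 (not_lt.2 (norm_nonneg _))
    · intro w hw
      have hw1 : w.1 * w.2 ≠ 0 := by
        intro h
        have h3 := hw.1
        rw [← norm_mul, h, norm_zero, mul_zero] at h3
        exact absurd h3 (not_lt.2 (norm_nonneg _))
      refine ⟨vec_mem hr ⟨hw.2.1, hw.2.2, ?_⟩, rfl, rfl, ?_⟩
      · show ‖s n / (w.1 * w.2)‖ < r
        rw [norm_div, div_lt_iff₀ (norm_pos_iff.2 hw1), norm_mul]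
        exact hw.1
      · rw [hpr]
        show w.1 * w.2 * (s n / (w.1 * w.2)) = s n
        rw [mul_div_cancel₀ _ hw1]
  · intro p hp hp0 hpp
    refine limAt_comp continuous_vec (T' := pr hk) (f' := f) hpr (fun _ _ => rfl) ?_
    refine h _ (vec_mem hr hp) ?_ (by rw [hpr]; exact hpp)
    intro h0
    apply hp0
    have h1 := congrArg tri h0
    rw [tri_vec] at h1
    rw [h1]
    rfl

end Pool.Agent.K708
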