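import Pool.Agent.Lib.K708.CLoc
import Pool.Agent.Lib.K708.CGermD

/-! # K708, Section C: the limit at all points of the central fibre -/

set_option autoImplicit false

open scoped Manifold ContDiff Topology NNReal ENNReal
open Set Filter MeasureTheory

noncomputable section

namespace Pool.Agent.K708

variable {X : CMfd 2} {G : RatDegen X} {u : Ultrafilter ℕ}

namespace CAll

theorem fin3 : ∀ a b l m : Fin 3, b ≠ a → l ≠ a → l ≠ b → m = a ∨ m = b ∨ m = l := by
  decide

/-- Points on exactly one component. -/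
theorem sgl (σ : FSeq G u) {e : G.ι → Tor}
    (he : ∀ i, ∀ x ∈ G.S i, (∀ j, j ≠ i → x ∉ G.S j) → σ.Lim x (e i))
    {φ : OpenPartialHomeomorph G.T (E 3)} {k : ℕ} {hk : k ≤ 3} {c : Fin k → G.ι}
    (hS : ∀ i : Fin k, ∀ y ∈ φ.source, y ∈ G.S (c i) ↔ φ y (Fin.castLE hk i) = 0)
    (hd : ∀ i, i ∉ range c → Disjoint (G.S i) φ.source) {y : G.T} (hy : y ∈ φ.source)
    (m : Fin k) (h0 : φ y (Fin.castLE hk m) = 0)
    (h1 : ∀ l, l ≠ m → φ y (Fin.castLE hk l) ≠ 0) : σ.Lim y (e (c m)) := by
  refine he (c m) y ((hS m y hy).2 h0) fun j hj hyj => ?_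
  by_cases hr : j ∈ range c
  · obtain ⟨l, rfl⟩ := hr
    exact h1 l (fun h => hj (by rw [h])) ((hS l y hy).1 hyj)
  · exact (Set.disjoint_left.1 (hd j hr)) hyj hy

/-- Points on exactly two components. -/
theorem dbl (σ : FSeq G u) {e : G.ι → Tor}
    (he : ∀ i, ∀ x ∈ G.S i, (∀ j, j ≠ i → x ∉ G.S j) → σ.Lim x (e i))
    {x : G.T} (hx : G.π x = G.o) {i j : G.ι} (hij : i ≠ j) (hi : x ∈ G.S i) (hj : x ∈ G.S j)
    (hall : ∀ l, x ∈ G.S l → l = i ∨ l = j) : e i = e j ∧ σ.Lim x (e i) := by
  obtain ⟨φ, hφ, k, hk, c, r, C, s, f', hk1, hxs, hφx, hc, hS, hd, hr, hball, hs, hs0, hbox,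
    hlim⟩ := σ.loc x hx
  have hir : i ∈ range c := by
    by_contra h
    exact (Set.disjoint_left.1 (hd i h)) hi hxs
  have hjr : j ∈ range c := by
    by_contra h
    exact (Set.disjoint_left.1 (hd j h)) hj hxs
  have hcx : ∀ m, c m = i ∨ c m = j := fun m => hall _ ((hS m x hxs).2 (by rw [hφx]; rfl))
  have hk2 : k = 2 := by
    obtain ⟨m1, h1⟩ := hir
    obtain ⟨m2, h2⟩ := hjr
    have hne : m1 ≠ m2 := fun h => hij (by rw [← h1, ← h2, h])
    have hcard : k ≤ 2 := by
      have h3 : ∀ m, m = m1 ∨ m = m2 := by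
        intro m
        rcases hcx m with h | h
        · exact Or.inl (hc (h.trans h1.symm))
        · exact Or.inr (hc (h.trans h2.symm))
      have h4 : (Finset.univ : Finset (Fin k)) ⊆ {m1, m2} := by
        intro m _
        rw [Finset.mem_insert, Finset.mem_singleton]
        exact h3 m
      have h5 := Finset.card_le_card h4
      rw [Finset.card_univ, Fintype.card_fin] at h5
      exact h5.trans Finset.card_le_two
    have h6 : k ≠ 1 := by
      rintro rfl
      exact hne (Subsingleton.elim _ _)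
    omega
  subst hk2
  have e0 : Fin.castLE hk (0 : Fin 2) = (0 : Fin 3) := rfl
  have e1 : Fin.castLE hk (1 : Fin 2) = (1 : Fin 3) := rfl
  have key := cross2 u hk hr hs hs0 hbox (c₁ := e (c 0)) (c₂ := e (c 1)) (by
    intro z hz z0 z1
    have hzt : z ∈ φ.target := hball hz
    have h := (hlim (φ.symm z) (φ.map_target hzt) (e (c 0))).2 (sgl σ he hS hd
      (φ.map_target hzt) 0 (by rw [φ.right_inv hzt]; exact z0) (by
        intro l hl
        have : l = 1 := by
          rcases Fin.exists_fin_two.1 ⟨l, rfl⟩ with h | h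
          · exact absurd h hl
          · exact h
        rw [this, φ.right_inv hzt]
        exact z1))
    rwa [φ.right_inv hzt] at h) (by
    intro z hz z1 z0
    have hzt : z ∈ φ.target := hball hz
    have h := (hlim (φ.symm z) (φ.map_target hzt) (e (c 1))).2 (sgl σ he hS hd
      (φ.map_target hzt) 1 (by rw [φ.right_inv hzt]; exact z1) (by
        intro l hl
        have : l = 0 := by
          rcases Fin.exists_fin_two.1 ⟨l, rfl⟩ with h | h
          · exact h
          · exact absurd h hl
        rw [this, φ.right_inv hzt]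
        exact z0))
    rwa [φ.right_inv hzt] at h)
  have hL : σ.Lim x (e (c 0)) := (hlim x hxs _).1 (by rw [hφx]; exact key.2)
  have hc01 : c 0 ≠ c 1 := fun h => by
    have := hc h
    exact absurd this (by decide)
  rcases hcx 0 with h0 | h0
  · rcases hcx 1 with h1 | h1
    · exact absurd (h0.trans h1.symm) hc01
    · rw [h0] at hL
      rw [h0, h1] at key
      exact ⟨key.1, hL⟩
  · rcases hcx 1 with h1 | h1
    · rw [h0] at hL
      rw [h0, h1] at key
      exact ⟨key.1.symm, by rw [← key.1]; exact hL⟩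
    · exact absurd (h0.trans h1.symm) hc01

end CAll

open CAll

/-- C-S. The limit at all points of the central fibre (`FSeq.loc`, `cross2`, `cross3`). -/
theorem FSeq.all (σ : FSeq G u) (e : G.ι → Tor)
    (he : ∀ i, ∀ x ∈ G.S i, (∀ j, j ≠ i → x ∉ G.S j) → σ.Lim x (e i)) :
    ∀ x, G.π x = G.o → ∃ i, σ.Lim x (e i) := by
  intro x hx
  obtain ⟨φ, hφ, k, hk, c, r, C, s, f', hk1, hxs, hφx, hc, hS, hd, hr, hball, hs, hs0, hbox,
    hlim⟩ := σ.loc x hx
  have hmem : ∀ m, x ∈ G.S (c m) := fun m => (hS m x hxs).2 (by rw [hφx]; rfl)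
  have hrange : ∀ y ∈ φ.source, ∀ l, y ∈ G.S l → ∃ m, c m = l := by
    intro y hy l hl
    by_contra h
    exact (Set.disjoint_left.1 (hd l (fun ⟨m, hm⟩ => h ⟨m, hm⟩))) hl hy
  have hπ : ∀ y l, y ∈ G.S l → G.π y = G.o := by
    intro y l hl
    have : y ∈ ⋃ i, G.S i := mem_iUnion.2 ⟨l, hl⟩
    rw [G.union] at this
    exact this
  have hcases : k = 1 ∨ k = 2 ∨ k = 3 := by omega
  rcases hcases with rfl | rfl | rfl
  · refine ⟨c 0, sgl σ he hS hd hxs 0 (by rw [hφx]; rfl) fun l hl => ?_⟩
    exact absurd (Subsingleton.elim l 0) hl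
  · have hc01 : c 0 ≠ c 1 := fun h => by
      have := hc h
      exact absurd this (by decide)
    refine ⟨c 0, (dbl σ he hx hc01 (hmem 0) (hmem 1) fun l hl => ?_).2⟩
    obtain ⟨m, rfl⟩ := hrange x hxs l hl
    rcases Fin.exists_fin_two.1 ⟨m, rfl⟩ with h | h
    · exact Or.inl (by rw [← h])
    · exact Or.inr (by rw [← h])
  · -- triple points
    have hcne : ∀ a b : Fin 3, a ≠ b → c a ≠ c b := fun a b hab h => hab (hc h)
    -- points of the chart with exactly two vanishing coordinates
    have hdbl : ∀ a b : Fin 3, a ≠ b → ∀ z ∈ Metric.ball (0 : E 3) r, z a = 0 → z b = 0 →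
        (∀ l, l ≠ a → l ≠ b → z l ≠ 0) → e (c a) = e (c b) ∧
          K708C.LimAt u (pr hk) s f' z (e (c a)) := by
      intro a b hab z hz za zb zl
      have hzt : z ∈ φ.target := hball hz
      have hys := φ.map_target hzt
      have hya : φ.symm z ∈ G.S (c a) := (hS a _ hys).2 (by rw [φ.right_inv hzt]; exact za)
      have hyb : φ.symm z ∈ G.S (c b) := (hS b _ hys).2 (by rw [φ.right_inv hzt]; exact zb)
      have h := dbl σ he (hπ _ _ hya) (hcne a b hab) hya hyb (by
        intro l hl
        obtain ⟨m, rfl⟩ := hrange _ hys l hl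
        by_contra hcon
        rw [not_or] at hcon
        refine zl m (fun h => hcon.1 (by rw [h])) (fun h => hcon.2 (by rw [h])) ?_
        have := (hS m _ hys).1 hl
        rw [φ.right_inv hzt] at this
        exact this)
      refine ⟨h.1, ?_⟩
      have := (hlim _ hys _).2 h.2
      rwa [φ.right_inv hzt] at this
    have hsgl : ∀ a : Fin 3, ∀ z ∈ Metric.ball (0 : E 3) r, z a = 0 → (∀ l, l ≠ a → z l ≠ 0) →
        K708C.LimAt u (pr hk) s f' z (e (c a)) := by
      intro a z hz za zl
      have hzt : z ∈ φ.target := hball hz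
      have hys := φ.map_target hzt
      have h := sgl σ he hS hd hys a (by rw [φ.right_inv hzt]; exact za) (fun l hl => by
        rw [φ.right_inv hzt]; exact zl l hl)
      have := (hlim _ hys _).2 h
      rwa [φ.right_inv hzt] at this
    -- the constants agree
    have heq : ∀ a b : Fin 3, a ≠ b → e (c a) = e (c b) := by
      intro a b hab
      set z : E 3 := fun l => if l = a ∨ l = b then 0 else ((r / 2 : ℝ) : ℂ) with hz
      refine (hdbl a b hab z ?_ ?_ ?_ ?_).1
      · rw [mem_ball_zero_iff]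
        refine lt_of_le_of_lt ((pi_norm_le_iff_of_nonneg (by positivity : 0 ≤ r / 2)).2
          fun l => ?_) (by linarith : r / 2 < r)
        rw [hz]
        simp only
        split_ifs
        · rw [norm_zero]; positivity
        · rw [Complex.norm_real, Real.norm_of_nonneg (by positivity)]
      · rw [hz]; simp
      · rw [hz]; simp
      · intro l hla hlb
        rw [hz]
        simp only [hla, hlb, or_self, if_false]
        exact_mod_cast (by positivity : (r / 2 : ℝ) ≠ 0)
    refine ⟨c 0, (hlim x hxs _).1 ?_⟩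
    rw [hφx]
    refine cross3 u hk hr hs hs0 hbox fun z hz hz0 hpr => ?_
    have hto : ∀ a : Fin 3, K708C.LimAt u (pr hk) s f' z (e (c a)) →
        K708C.LimAt u (pr hk) s f' z (e (c 0)) := by
      intro a ha
      by_cases h : a = 0
      · rwa [h] at ha
      · rwa [heq a 0 h] at ha
    -- the vanishing coordinates
    have hex : ∃ a, z a = 0 := by
      unfold pr at hpr
      obtain ⟨i, -, hi⟩ := Finset.prod_eq_zero_iff.1 hpr
      exact ⟨_, hi⟩
    obtain ⟨a, ha⟩ := hex
    by_cases h2 : ∃ b, b ≠ a ∧ z b = 0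
    · obtain ⟨b, hba, hb⟩ := h2
      refine hto a (hdbl a b hba.symm z hz ha hb fun l hla hlb hl => hz0 ?_).2
      funext m
      have hm : m = a ∨ m = b ∨ m = l := fin3 a b l m hba hla hlb
      rcases hm with rfl | rfl | rfl
      · exact ha
      · exact hb
      · exact hl
    · refine hto a (hsgl a z hz ha fun l hl h => h2 ⟨l, hl, h⟩)

end Pool.Agent.K708
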