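import Pool.Agent.Lib.K708.CBoxA

/-! # K708, Section C: the local energy bound -/

set_option autoImplicit false

open scoped Manifold ContDiff Topology NNReal ENNReal
open Set Filter MeasureTheory

noncomputable section

namespace Pool.Agent.K708

namespace CBox

/-- The energy density bounds the square of the norm of the derivative. -/
theorem pointwise {T : CMfd 3} {Y : CMfd 2} {ι : Y → T} (hι : CEmb (n := 2) (m := 3) ι)
    {φ : OpenPartialHomeomorph T (E 3)} (hφ : φ ∈ IsManifold.maximalAtlas 𝓘(ℂ, E 3) ω T)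
    {i j : Fin 3} {U : Set (E 2)} (hU : IsOpen U) {γ : E 2 → E 3}
    (hγd : DifferentiableOn ℂ γ U) (hγt : ∀ z ∈ U, γ z ∈ φ.target)
    (hi : ∀ z ∈ U, γ z i = z 0) (hj : ∀ z ∈ U, γ z j = z 1)
    {P : E 3 → ℂ} (hP : Differentiable ℂ P) {s : ℂ} (hPs : ∀ z ∈ U, P (γ z) = s)
    {K : Set (E 3)} (hγK : ∀ z ∈ U, γ z ∈ K) {δ : ℝ} (hδ : 0 < δ) {Ω : F2 3 T}
    (hlow : ∀ z ∈ K, ∀ v : E 3, fderiv ℂ P z v = 0 →
      δ * ‖v‖ ^ 2 ≤ (loc2 φ Ω z v (Complex.I • v)).re)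
    (hK : Kah (pb2 2 ι Ω)) {a : F1 2 Y} (ha : H1 a) {χ : OpenPartialHomeomorph Y (E 2)}
    (hχ : χ ∈ IsManifold.maximalAtlas 𝓘(ℂ, E 2) ω Y) (hχt : χ.target = U)
    (hχι : ∀ z ∈ U, ι (χ.symm z) = φ.symm (γ z)) {z : E 2} (hz : z ∈ U) :
    ‖(clin (loc1 χ a z)).comp
      ((ContinuousLinearEquiv.finTwoArrow ℂ ℂ).symm : ℂ × ℂ →L[ℂ] E 2)‖ ^ 2 ≤
      2 / δ * (w4 (loc2 χ (Complex.I • wedge a (cj a)) z) (loc2 χ (pb2 2 ι Ω) z)).re := by
  have hzt : z ∈ χ.target := by rw [hχt]; exact hz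
  obtain ⟨l, hl⟩ : ∃ l, l = loc1 χ a z := ⟨_, rfl⟩
  have hlI : ∀ u, l (Complex.I • u) = Complex.I * l u := by
    intro u
    rw [hl]
    exact loc1_T10 ha.2 hχ hzt u
  have hsym : HoloAt 2 2 χ.symm z :=
    (contMDiffOn_symm_of_mem_maximalAtlas hχ).contMDiffAt (χ.open_target.mem_nhds hzt)
  obtain ⟨B, hB⟩ : ∃ B, B = loc2 χ (pb2 2 ι Ω) z := ⟨_, rfl⟩
  have hBa : ∀ u w, B u w = - B w u := by
    intro u w
    rw [hB]
    exact hK.s2.1 (χ.symm z) (D 2 2 χ.symm z u) (D 2 2 χ.symm z w)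
  have hBi : ∀ u w, B (Complex.I • u) (Complex.I • w) = B u w := by
    intro u w
    have e1 : D 2 2 χ.symm z (Complex.I • u) = Complex.I • D 2 2 χ.symm z u := D_smul_I hsym u
    have e2 : D 2 2 χ.symm z (Complex.I • w) = Complex.I • D 2 2 χ.symm z w := D_smul_I hsym w
    have e3 := hK.inv (χ.symm z) (D 2 2 χ.symm z u) (D 2 2 χ.symm z w)
    rw [hB]
    show pb2 2 ι Ω (χ.symm z) (D 2 2 χ.symm z (Complex.I • u)) (D 2 2 χ.symm z (Complex.I • w)) =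
      pb2 2 ι Ω (χ.symm z) (D 2 2 χ.symm z u) (D 2 2 χ.symm z w)
    rw [e1, e2]
    exact e3
  have h1 := w4_wedge_cj l hlI B hBa hBi
  have h2 : loc2 χ (Complex.I • wedge a (cj a)) z =
      Complex.I • (l.smulRight ((Complex.conjCLE : ℂ →L[ℝ] ℂ).comp l) -
      (l.smulRight ((Complex.conjCLE : ℂ →L[ℝ] ℂ).comp l)).flip) := by
    rw [hl]
    ext u w
    rfl
  obtain ⟨v, hv⟩ : ∃ v : E 2, v = ![-(l ![0, 1]), l ![1, 0]] := ⟨_, rfl⟩
  rw [← hv] at h1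
  rw [h2, ← hB, h1, ← hl]
  -- the form in the coordinates of `φ`
  have hsrc : ι (χ.symm z) ∈ φ.source := by rw [hχι z hz]; exact φ.map_target (hγt z hz)
  have hιm : MDifferentiableAt 𝓘(ℝ, E 2) 𝓘(ℝ, E 3) ι (χ.symm z) := (hι.holo.smth).mdiff _
  have h3 := loc2_pb2 (ra_of_ca hχ) (ra_of_ca hφ) hzt hsrc hιm Ω
  have hγz : DifferentiableAt ℂ γ z := (hγd z hz).differentiableAt (hU.mem_nhds hz)
  have h4 : fderiv ℝ (φ ∘ ι ∘ χ.symm) z = (fderiv ℂ γ z).restrictScalars ℝ := by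
    have h5 : (φ ∘ ι ∘ χ.symm) =ᶠ[𝓝 z] γ := by
      filter_upwards [hU.mem_nhds hz] with w hw
      show φ (ι (χ.symm w)) = γ w
      rw [hχι w hw, φ.right_inv (hγt w hw)]
    rw [h5.fderiv_eq]
    exact hγz.fderiv_restrictScalars ℝ
  have h6 : φ (ι (χ.symm z)) = γ z := by rw [hχι z hz, φ.right_inv (hγt z hz)]
  rw [h4, h6, ← hB] at h3
  have h7 : B v (Complex.I • v) =
      loc2 φ Ω (γ z) (fderiv ℂ γ z v) (Complex.I • fderiv ℂ γ z v) := by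
    rw [h3]
    show loc2 φ Ω (γ z) (fderiv ℂ γ z v) (fderiv ℂ γ z (Complex.I • v)) = _
    rw [map_smul]
  have h8 : fderiv ℂ P (γ z) (fderiv ℂ γ z v) = 0 := by
    have h9 : fderiv ℂ (fun w => P (γ w)) z = (fderiv ℂ P (γ z)).comp (fderiv ℂ γ z) :=
      fderiv_comp z (hP (γ z)) hγz
    have h10 : (fun w => P (γ w)) =ᶠ[𝓝 z] fun _ => s := by
      filter_upwards [hU.mem_nhds hz] with w hw
      exact hPs w hw
    rw [h10.fderiv_eq] at h9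
    have h11 : fderiv ℂ (fun _ : E 2 => s) z v = (fderiv ℂ P (γ z)) (fderiv ℂ γ z v) := by
      rw [h9]
      rfl
    rw [← h11, fderiv_fun_const]
    rfl
  have h12 := hlow (γ z) (hγK z hz) (fderiv ℂ γ z v) h8
  have hcoord : ∀ (c : Fin 3) (b : Fin 2), (∀ w ∈ U, γ w c = w b) →
      fderiv ℂ γ z v c = v b := by
    intro c b hab
    have h14 : fderiv ℂ (fun w => γ w c) z = (ContinuousLinearMap.proj b : E 2 →L[ℂ] ℂ) := by
      have h15 : (fun w => γ w c) =ᶠ[𝓝 z] (ContinuousLinearMap.proj b : E 2 →L[ℂ] ℂ) := by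
        filter_upwards [hU.mem_nhds hz] with w hw
        exact hab w hw
      rw [h15.fderiv_eq]
      exact ContinuousLinearMap.fderiv _
    have h16 : fderiv ℂ (fun w => γ w c) z v = fderiv ℂ γ z v c := by
      rw [fderiv_apply hγz c]
      rfl
    rw [h14] at h16
    exact h16.symm
  have h17 : ‖v‖ ≤ ‖fderiv ℂ γ z v‖ := by
    rw [pi_norm_le_iff_of_nonneg (norm_nonneg _)]
    intro b
    fin_cases b
    · have := norm_le_pi_norm (fderiv ℂ γ z v) i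
      rwa [hcoord i 0 hi] at this
    · have := norm_le_pi_norm (fderiv ℂ γ z v) j
      rwa [hcoord j 1 hj] at this
  have h18 := norm_clin l
  rw [← hv] at h18
  have h19 : (2 * B v (Complex.I • v)).re =
      2 * (loc2 φ Ω (γ z) (fderiv ℂ γ z v) (Complex.I • fderiv ℂ γ z v)).re := by
    rw [h7]
    simp
  rw [h19]
  have h20 : δ * ‖v‖ ^ 2 ≤
      (loc2 φ Ω (γ z) (fderiv ℂ γ z v) (Complex.I • fderiv ℂ γ z v)).re := by
    refine le_trans ?_ h12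
    gcongr
  calc ‖(clin l).comp ((ContinuousLinearEquiv.finTwoArrow ℂ ℂ).symm : ℂ × ℂ →L[ℂ] E 2)‖ ^ 2
      ≤ (2 * ‖v‖) ^ 2 := by gcongr
    _ = 2 / δ * (2 * (δ * ‖v‖ ^ 2)) := by field_simp
    _ ≤ _ := by gcongr

end CBox

open CBox

/-- C-X. The local energy bound. -/
theorem box {X : CMfd 2} (G : RatDegen X) (Ω : F2 3 G.T) (hΩ : RelKah G.π Ω) (c : ℝ)
    {φ : OpenPartialHomeomorph G.T (E 3)} (hφ : φ ∈ IsManifold.maximalAtlas 𝓘(ℂ, E 3) ω G.T)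
    {ψ : OpenPartialHomeomorph G.B (E 1)} (hψ : ψ ∈ IsManifold.maximalAtlas 𝓘(ℂ, E 1) ω G.B)
    {k : ℕ} (hk : k ≤ 3)
    (hprod : ∀ y ∈ φ.source, G.π y ∈ ψ.source ∧ ψ (G.π y) 0 = pr hk (φ y))
    {r : ℝ} (hr : Metric.closedBall (0 : E 3) r ⊆ φ.target) :
    ∃ C : ℝ≥0, ∀ t ∈ ψ.source, t ≠ G.o → ∀ (Y : CMfd 2) (ι : Y → G.T), IsFib G.π t ι →
      CptConn Y → Kah (pb2 2 ι Ω) → ∀ (F : Y → Tor) (a : F1 2 Y), TF F a → H1 a →
      Int4 Y (pb2 2 ι Ω) (Complex.I • wedge a (cj a)) (pb2 2 ι Ω) = c →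
      ∀ f : G.T → Tor, (∀ y, f (ι y) = F y) →
      ∀ i j : Fin 3, i ≠ j → ∀ U : Set (ℂ × ℂ), IsOpen U → ∀ γ : ℂ × ℂ → E 3,
        DifferentiableOn ℂ γ U →
        (∀ w ∈ U, γ w ∈ Metric.ball 0 r ∧ γ w i = w.1 ∧ γ w j = w.2 ∧ pr hk (γ w) = ψ t 0) →
        ∃ a', K708C.HolOn tau (fun w => f (φ.symm (γ w))) a' U ∧
          ∫⁻ w in U, ‖a' w‖ₑ ^ 2 ≤ C := by
  obtain ⟨δ, hδ, hlow⟩ := lower_bound G Ω hΩ hφ hψ hk hprod (isCompact_closedBall (0 : E 3) r) hr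
  refine ⟨(2 / δ).toNNReal * c.toNNReal, ?_⟩
  intro t ht hto Y ι hfib hcc hKah F a hTF hH1 hInt f hf i j hij U hU γ hγd hγ
  have hne : Nonempty Y := hcc.conn.toNonempty
  have hL : Continuous (fun z : E 2 => ((z 0, z 1) : ℂ × ℂ)) := by fun_prop
  obtain ⟨U', hU'⟩ : ∃ U' : Set (E 2), U' = {z | (z 0, z 1) ∈ U} := ⟨_, rfl⟩
  have hU'o : IsOpen U' := by
    rw [hU']
    exact hU.preimage hL
  have hmem : ∀ z, z ∈ U' ↔ (z 0, z 1) ∈ U := by
    intro z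
    rw [hU']
    rfl
  obtain ⟨γ', hγ'⟩ : ∃ γ' : E 2 → E 3, γ' = fun z => γ (z 0, z 1) := ⟨_, rfl⟩
  have hγv : ∀ z, γ' z = γ (z 0, z 1) := fun z => by rw [hγ']
  have hγ'd : DifferentiableOn ℂ γ' U' := by
    rw [hγ']
    refine DifferentiableOn.comp (t := U) hγd (f := fun z : E 2 => ((z 0, z 1) : ℂ × ℂ)) ?_ ?_
    · fun_prop
    · intro z hz
      exact (hmem z).1 hz
  have hb : ∀ z ∈ U', γ' z ∈ Metric.closedBall (0 : E 3) r := fun z hz => by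
    rw [hγv]
    exact Metric.ball_subset_closedBall (hγ _ ((hmem z).1 hz)).1
  have hγt : ∀ z ∈ U', γ' z ∈ φ.target := fun z hz => hr (hb z hz)
  have hi : ∀ z ∈ U', γ' z i = z 0 := fun z hz => by
    rw [hγv]
    exact (hγ _ ((hmem z).1 hz)).2.1
  have hj : ∀ z ∈ U', γ' z j = z 1 := fun z hz => by
    rw [hγv]
    exact (hγ _ ((hmem z).1 hz)).2.2.1
  have hP : ∀ z ∈ U', pr hk (γ' z) = ψ t 0 := fun z hz => by
    rw [hγv]
    exact (hγ _ ((hmem z).1 hz)).2.2.2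
  have hrange : ∀ z ∈ U', φ.symm (γ' z) ∈ range ι := by
    intro z hz
    rw [hfib.range]
    have h1 : φ.symm (γ' z) ∈ φ.source := φ.map_target (hγt z hz)
    obtain ⟨h2, h3⟩ := hprod _ h1
    rw [φ.right_inv (hγt z hz), hP z hz] at h3
    have h4 : ψ (G.π (φ.symm (γ' z))) = ψ t := by
      funext b
      rw [Subsingleton.elim b 0]
      exact h3
    exact ψ.injOn h2 ht h4
  obtain ⟨g, hg, hhol, hinj, himm⟩ := param hfib.emb hφ hU'o hγ'd hγt hi hj hrange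
  obtain ⟨χ, hχ, hχt, hχg⟩ := exists_chart hU'o hhol hinj himm
  have hE := energy_chart Y hcc (pb2 2 ι Ω) hKah a hH1 c hInt χ hχ
  rw [hχt] at hE
  have hχι : ∀ z ∈ U', ι (χ.symm z) = φ.symm (γ' z) := fun z hz => by
    rw [hχg hz]
    exact hg z hz
  have hpd : Differentiable ℂ (pr hk) := (CBoxL.contDiff_pr hk).differentiable (by simp)
  have hpt : ∀ z ∈ U', ‖(clin (loc1 χ a z)).comp
      ((ContinuousLinearEquiv.finTwoArrow ℂ ℂ).symm : ℂ × ℂ →L[ℂ] E 2)‖ ^ 2 ≤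
      2 / δ * (w4 (loc2 χ (Complex.I • wedge a (cj a)) z) (loc2 χ (pb2 2 ι Ω) z)).re :=
    fun z hz => pointwise hfib.emb hφ hU'o hγ'd hγt hi hj hpd hP hb hδ hlow hKah hH1 hχ hχt
      hχι hz
  obtain ⟨a', ha'⟩ : ∃ a' : ℂ × ℂ → (ℂ × ℂ →L[ℂ] ℂ), a' = fun w =>
      (clin ((a (g ![w.1, w.2])).comp (D 2 2 g ![w.1, w.2]))).comp
        ((ContinuousLinearEquiv.finTwoArrow ℂ ℂ).symm : ℂ × ℂ →L[ℂ] E 2) := ⟨_, rfl⟩
  have hvec : ∀ w : ℂ × ℂ, w ∈ U ↔ (![w.1, w.2] : E 2) ∈ U' := by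
    intro w
    rw [hmem]
    simp
  have hhol2 : K708C.HolOn tau (fun w : ℂ × ℂ => F (g ![w.1, w.2])) a' U := by
    rw [ha']
    exact hTF.holOn hH1 hU fun w hw => hhol _ ((hvec w).1 hw)
  refine ⟨a', ?_, ?_⟩
  · intro w hw
    refine K708C.HolAt.congr tau (hhol2 w hw) ?_ (Filter.EventuallyEq.refl _ _)
    filter_upwards [hU.mem_nhds hw] with x hx
    have h1 := hg _ ((hvec x).1 hx)
    have h2 : γ' ![x.1, x.2] = γ x := by
      rw [hγv]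
      simp
    rw [h2] at h1
    rw [← h1, hf]
  · have hmp := MeasureTheory.volume_preserving_finTwoArrow ℂ
    have h1 : ∫⁻ w in U, ‖a' w‖ₑ ^ 2 = ∫⁻ z in U', ‖a' (z 0, z 1)‖ₑ ^ 2 := by
      have h2 := hmp.setLIntegral_comp_preimage_emb (MeasurableEquiv.measurableEmbedding _)
        (fun w => ‖a' w‖ₑ ^ 2) U
      rw [← h2]
      rw [hU']
      rfl
    rw [h1]
    have h3 : ∀ z ∈ U', ‖a' (z 0, z 1)‖ₑ ^ 2 ≤ ENNReal.ofReal (2 / δ) * ENNReal.ofReal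
        (w4 (loc2 χ (Complex.I • wedge a (cj a)) z) (loc2 χ (pb2 2 ι Ω) z)).re := by
      intro z hz
      have h4 := hpt z hz
      have h5 : (![z 0, z 1] : E 2) = z := by
        funext b
        fin_cases b <;> rfl
      have h6 : a' (z 0, z 1) = (clin (loc1 χ a z)).comp
          ((ContinuousLinearEquiv.finTwoArrow ℂ ℂ).symm : ℂ × ℂ →L[ℂ] E 2) := by
        rw [ha']
        show (clin ((a (g ![z 0, z 1])).comp (D 2 2 g ![z 0, z 1]))).comp _ = _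
        rw [h5]
        have h7 : D 2 2 χ.symm z = D 2 2 g z := by
          apply D_congr
          filter_upwards [hU'o.mem_nhds hz] with w hw
          exact hχg hw
        have h8 : χ.symm z = g z := hχg hz
        unfold loc1
        rw [h7, h8]
      rw [h6, ← ENNReal.ofReal_mul (by positivity)]
      rw [← ofReal_norm, ← ENNReal.ofReal_pow (norm_nonneg _)]
      exact ENNReal.ofReal_le_ofReal h4
    calc ∫⁻ z in U', ‖a' (z 0, z 1)‖ₑ ^ 2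
        ≤ ∫⁻ z in U', ENNReal.ofReal (2 / δ) * ENNReal.ofReal
          (w4 (loc2 χ (Complex.I • wedge a (cj a)) z) (loc2 χ (pb2 2 ι Ω) z)).re :=
          setLIntegral_mono' hU'o.measurableSet h3
      _ = ENNReal.ofReal (2 / δ) * ∫⁻ z in U', ENNReal.ofReal
          (w4 (loc2 χ (Complex.I • wedge a (cj a)) z) (loc2 χ (pb2 2 ι Ω) z)).re :=
          lintegral_const_mul' _ _ ENNReal.ofReal_ne_top
      _ ≤ ENNReal.ofReal (2 / δ) * ENNReal.ofReal c := by gcongr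
      _ = (((2 / δ).toNNReal * c.toNNReal : ℝ≥0) : ℝ≥0∞) := by
          rw [ENNReal.coe_mul]
          rfl

end Pool.Agent.K708
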