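import Pool.Agent.Lib.K708.VolI

/-! # K708, Section C: energy in a chart -/

set_option autoImplicit false

open scoped Manifold ContDiff Topology NNReal ENNReal
open Set Filter MeasureTheory

noncomputable section

namespace Pool.Agent.K708

/-- C-E. Energy in a chart (uses the volume API). -/
theorem energy_chart (Y : CMfd 2) (hY : CptConn Y) (Ω : F2 2 Y) (hΩ : Kah Ω) (a : F1 2 Y)
    (ha : H1 a) (c : ℝ) (hc : Int4 Y Ω (Complex.I • wedge a (cj a)) Ω = c)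
    (χ : OpenPartialHomeomorph Y (E 2)) (hχ : χ ∈ IsManifold.maximalAtlas 𝓘(ℂ, E 2) ω Y) :
    ∫⁻ z in χ.target, ENNReal.ofReal
      (w4 (loc2 χ (Complex.I • wedge a (cj a)) z) (loc2 χ Ω z)).re ≤ ENNReal.ofReal c := by
  obtain ⟨σ, hσ⟩ : ∃ σ : F2 2 Y, σ = Complex.I • wedge a (cj a) := ⟨_, rfl⟩
  rw [← hσ] at hc ⊢
  have hX : CompactSpace Y := hY.1
  have hs : S2 σ := by
    rw [hσ]
    exact S2.smul _ (S2.wedge ha.1.1 ha.1.1.cj)
  have hn : ∀ x, 0 ≤ (w4 (σ x) (Ω x)).re ∧ (w4 (σ x) (Ω x)).im = 0 := by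
    intro x
    rw [hσ]
    exact w4_energy_nonneg (ha.2 x) (hΩ.pkah x)
  have hμ := isVol_vol hX hΩ
  have := hμ.fin
  obtain ⟨e, he⟩ : ∃ e : Y → ℝ, e = fun x => (w4 (σ x) (Ω x)).re / (w4 (Ω x) (Ω x)).re :=
    ⟨_, rfl⟩
  have hc' : ∫ x, e x ∂(vol Y Ω) = c := by
    have h1 := VolI.Int4_real hΩ hn
    rw [hc] at h1
    rw [he]
    exact_mod_cast h1.symm
  have hcont : Continuous e := by
    have h1 := Complex.continuous_re.comp (continuous_w4_ratio hΩ hs hΩ.s2)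
    rw [he]
    refine h1.congr fun x => ?_
    show (w4 (σ x) (Ω x) / w4 (Ω x) (Ω x)).re = _
    rw [VolI.ratio_real hΩ (hn x), Complex.ofReal_re]
  have hnn : ∀ x, 0 ≤ e x := by rw [he]; exact VolI.ratio_nonneg hΩ hn
  have hint : Integrable e (vol Y Ω) :=
    hcont.integrable_of_hasCompactSupport (HasCompactSupport.of_compactSpace _)
  have h2 := ofReal_integral_eq_lintegral_ofReal hint (Eventually.of_forall hnn)
  rw [hc'] at h2
  rw [h2]
  have h3 : ∫⁻ x in χ.source, ENNReal.ofReal (e x) ∂(vol Y Ω) ≤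
      ∫⁻ x, ENNReal.ofReal (e x) ∂(vol Y Ω) := setLIntegral_le_lintegral _ _
  refine le_trans (le_of_eq ?_) h3
  rw [hμ.chart χ (ra_of_ca hχ) _ (hcont.measurable.ennreal_ofReal)]
  refine setLIntegral_congr_fun χ.open_target.measurableSet fun z hz => ?_
  have h4 : (w4 (loc2 χ σ z) (loc2 χ Ω z)).re =
      (D 2 2 χ.symm z).det * (w4 (σ (χ.symm z)) (Ω (χ.symm z))).re := by
    rw [VolI.w4_loc χ hs hΩ.s2 z, Complex.re_ofReal_mul]
  have h5 := (w4_pkah_pos (hΩ.pkah (χ.symm z))).1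
  show ENNReal.ofReal (w4 (loc2 χ σ z) (loc2 χ Ω z)).re = _
  rw [← ENNReal.ofReal_mul (hnn _)]
  congr 1
  rw [h4, he, abs_of_pos (VolI.det_pos hχ hz)]
  field_simp

end Pool.Agent.K708
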