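import Pool.Agent.Lib.K708.FcS

/-! # K708: pull-backs of forms -/

set_option autoImplicit false

open scoped Manifold ContDiff Topology
open Set

noncomputable section

set_option linter.unusedSectionVars false

namespace Pool.Agent.K708

section
variable {F G H : Type*} [NormedAddCommGroup F] [NormedSpace ℝ F] [NormedAddCommGroup G]
  [NormedSpace ℝ G] [NormedAddCommGroup H] [NormedSpace ℝ H]

theorem FcP.flip_cd (F' G' : Type*) [NormedAddCommGroup F'] [NormedSpace ℝ F']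
    [NormedAddCommGroup G'] [NormedSpace ℝ G'] :
    ContDiff ℝ ∞ (fun T : F' →L[ℝ] G' →L[ℝ] ℂ => T.flip) := by
  have := LinearIsometryEquiv.contDiff (𝕜 := ℝ) (E := F' →L[ℝ] G' →L[ℝ] ℂ)
    (F := G' →L[ℝ] F' →L[ℝ] ℂ) (n := ∞) (ContinuousLinearMap.flipₗᵢ ℝ F' G' ℂ)
  exact this

theorem FcP.cda_bilin {B : F → (G →L[ℝ] G →L[ℝ] ℂ)}
    {L : F → (H →L[ℝ] G)} {z : F} (hB : ContDiffAt ℝ ∞ B z) (hL : ContDiffAt ℝ ∞ L z) :
    ContDiffAt ℝ ∞ (fun w => (B w).bilinearComp (L w) (L w)) z := by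
  have h1 : ContDiffAt ℝ ∞ (fun w => (B w).comp (L w)) z := hB.clm_comp hL
  have h2 : ContDiffAt ℝ ∞ (fun w => ((B w).comp (L w)).flip) z :=
    ContDiffAt.comp (g := fun T : H →L[ℝ] G →L[ℝ] ℂ => T.flip) z (FcP.flip_cd H G).contDiffAt h1
  have h3 : ContDiffAt ℝ ∞ (fun w => (((B w).comp (L w)).flip).comp (L w)) z := h2.clm_comp hL
  exact ContDiffAt.comp (g := fun T : H →L[ℝ] H →L[ℝ] ℂ => T.flip) z
    (FcP.flip_cd H H).contDiffAt h3

theorem FcP.fderiv_bil {B : G → (G →L[ℝ] G →L[ℝ] ℂ)} {g : F → G} {z : F}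
    (hB : DifferentiableAt ℝ B (g z)) (hg : ContDiffAt ℝ ∞ g z) (u v w : F) :
    fderiv ℝ (fun y => (B (g y)).bilinearComp (fderiv ℝ g y) (fderiv ℝ g y)) z u v w =
      fderiv ℝ B (g z) (fderiv ℝ g z u) (fderiv ℝ g z v) (fderiv ℝ g z w) +
      B (g z) (fderiv ℝ (fderiv ℝ g) z u v) (fderiv ℝ g z w) +
      B (g z) (fderiv ℝ g z v) (fderiv ℝ (fderiv ℝ g) z u w) := by
  have hg1 : DifferentiableAt ℝ g z := hg.differentiableAt (by simp)
  have hg2 : DifferentiableAt ℝ (fderiv ℝ g) z :=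
    (hg.fderiv_right (m := 1) (WithTop.coe_le_coe.2 (le_top : (2 : ℕ∞) ≤ ⊤))).differentiableAt
      (by simp)
  have hBg : DifferentiableAt ℝ (fun y => B (g y)) z :=
    DifferentiableAt.comp (g := B) (f := g) z hB hg1
  have hd1 : DifferentiableAt ℝ (fun y => (B (g y)).comp (fderiv ℝ g y)) z := hBg.clm_comp hg2
  have hd2 : DifferentiableAt ℝ (fun y => ((B (g y)).comp (fderiv ℝ g y)).flip) z :=
    DifferentiableAt.comp (g := fun T : F →L[ℝ] G →L[ℝ] ℂ => T.flip) z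
      ((FcP.flip_cd F G).differentiable (by simp)).differentiableAt hd1
  have hd3 : DifferentiableAt ℝ
      (fun y => (((B (g y)).comp (fderiv ℝ g y)).flip).comp (fderiv ℝ g y)) z := hd2.clm_comp hg2
  have hd4 : DifferentiableAt ℝ
      (fun y => (B (g y)).bilinearComp (fderiv ℝ g y) (fderiv ℝ g y)) z :=
    DifferentiableAt.comp (g := fun T : F →L[ℝ] F →L[ℝ] ℂ => T.flip) z
      ((FcP.flip_cd F F).differentiable (by simp)).differentiableAt hd3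
  have k1 : HasFDerivAt (fun y => (B (g y)).bilinearComp (fderiv ℝ g y) (fderiv ℝ g y) v w)
      (((fderiv ℝ (fun y => (B (g y)).bilinearComp (fderiv ℝ g y) (fderiv ℝ g y)) z).flip v).flip
        w) z := by
    have a1 := hd4.hasFDerivAt.clm_apply (hasFDerivAt_const v z)
    have a2 := a1.clm_apply (hasFDerivAt_const w z)
    refine a2.congr_fderiv ?_
    ext t
    simp
  have k2 : HasFDerivAt (fun y => B (g y) (fderiv ℝ g y v) (fderiv ℝ g y w))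
      (((B (g z) (fderiv ℝ g z v)).comp ((fderiv ℝ (fderiv ℝ g) z).flip w)) +
        ((((B (g z)).comp ((fderiv ℝ (fderiv ℝ g) z).flip v)) +
          (((fderiv ℝ B (g z)).comp (fderiv ℝ g z)).flip (fderiv ℝ g z v))).flip
            (fderiv ℝ g z w))) z := by
    have b1 : HasFDerivAt (fun y => fderiv ℝ g y v) ((fderiv ℝ (fderiv ℝ g) z).flip v) z := by
      refine (hg2.hasFDerivAt.clm_apply (hasFDerivAt_const v z)).congr_fderiv ?_
      ext t : 1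
      simp
    have b2 : HasFDerivAt (fun y => fderiv ℝ g y w) ((fderiv ℝ (fderiv ℝ g) z).flip w) z := by
      refine (hg2.hasFDerivAt.clm_apply (hasFDerivAt_const w z)).congr_fderiv ?_
      ext t : 1
      simp
    have b3 : HasFDerivAt (fun y => B (g y)) ((fderiv ℝ B (g z)).comp (fderiv ℝ g z)) z :=
      HasFDerivAt.comp (g := B) (f := g) z hB.hasFDerivAt hg1.hasFDerivAt
    exact (b3.clm_apply b1).clm_apply b2
  have k3 := k1.unique k2
  have k4 := congrArg (fun L : F →L[ℝ] ℂ => L u) k3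
  simp only [ContinuousLinearMap.flip_apply, add_apply, ContinuousLinearMap.comp_apply] at k4
  rw [k4]
  ring

/-- the pull-back of a closed form is closed, in coordinates -/
theorem FcP.cyc {B : G → (G →L[ℝ] G →L[ℝ] ℂ)} {g : F → G} {z : F}
    (hB : DifferentiableAt ℝ B (g z)) (hg : ContDiffAt ℝ ∞ g z)
    (halt : ∀ s t : G, B (g z) s t = - B (g z) t s)
    (hcl : ∀ u v w : G, fderiv ℝ B (g z) u v w + fderiv ℝ B (g z) v w u
      + fderiv ℝ B (g z) w u v = 0) (u v w : F) :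
    fderiv ℝ (fun y => (B (g y)).bilinearComp (fderiv ℝ g y) (fderiv ℝ g y)) z u v w +
    fderiv ℝ (fun y => (B (g y)).bilinearComp (fderiv ℝ g y) (fderiv ℝ g y)) z v w u +
    fderiv ℝ (fun y => (B (g y)).bilinearComp (fderiv ℝ g y) (fderiv ℝ g y)) z w u v = 0 := by
  have hsym : IsSymmSndFDerivAt ℝ g z := hg.isSymmSndFDerivAt
    (by simp only [minSmoothness_of_isRCLikeNormedField]
        exact WithTop.coe_le_coe.2 (le_top : (2 : ℕ∞) ≤ ⊤))
  rw [FcP.fderiv_bil hB hg, FcP.fderiv_bil hB hg, FcP.fderiv_bil hB hg]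
  rw [hsym.eq v u, hsym.eq w v, hsym.eq w u]
  rw [halt (fderiv ℝ g z v) (fderiv ℝ (fderiv ℝ g) z u w),
    halt (fderiv ℝ g z w) (fderiv ℝ (fderiv ℝ g) z u v),
    halt (fderiv ℝ g z u) (fderiv ℝ (fderiv ℝ g) z v w)]
  linear_combination hcl (fderiv ℝ g z u) (fderiv ℝ g z v) (fderiv ℝ g z w)

end

section

variable {n m k : ℕ} {M N P : Type*}
  [TopologicalSpace M] [ChartedSpace (E n) M] [IsManifold 𝓘(ℂ, E n) ω M]
  [TopologicalSpace N] [ChartedSpace (E m) N] [IsManifold 𝓘(ℂ, E m) ω N]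
  [TopologicalSpace P] [ChartedSpace (E k) P] [IsManifold 𝓘(ℂ, E k) ω P]

/-! ## auxiliary facts -/

/-- Points near `φ x` correspond to points near `x`. -/
theorem FcP.tendsto_symm {φ : OpenPartialHomeomorph M (E n)} {x : M} (hx : x ∈ φ.source) :
    Filter.Tendsto φ.symm (𝓝 (φ x)) (𝓝 x) := by
  have h := (φ.continuousAt_symm (φ.map_source hx)).tendsto
  rwa [φ.left_inv hx] at h

theorem FcP.target_mem {φ : OpenPartialHomeomorph M (E n)} {x : M} (hx : x ∈ φ.source) :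
    ∀ᶠ z in 𝓝 (φ x), z ∈ φ.target :=
  φ.open_target.mem_nhds (φ.map_source hx)

theorem FcP.ev_mdiff {f : M → N} {x : M} (hf : ContMDiffAt 𝓘(ℝ, E n) 𝓘(ℝ, E m) ∞ f x) :
    ∀ᶠ y in 𝓝 x, MDifferentiableAt 𝓘(ℝ, E n) 𝓘(ℝ, E m) f y := by
  have h1 : ContMDiffAt 𝓘(ℝ, E n) 𝓘(ℝ, E m) 1 f x := hf.of_le (by exact_mod_cast le_top)
  have h2 := (contMDiffAt_iff_contMDiffAt_nhds (by decide)).1 h1
  filter_upwards [h2] with y hy
  exact hy.mdifferentiableAt (by decide)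

theorem FcP.ev_mdiff0 {f : M → ℂ} {x : M} (hf : ContMDiffAt 𝓘(ℝ, E n) 𝓘(ℝ, ℂ) ∞ f x) :
    ∀ᶠ y in 𝓝 x, MDifferentiableAt 𝓘(ℝ, E n) 𝓘(ℝ, ℂ) f y := by
  have h1 : ContMDiffAt 𝓘(ℝ, E n) 𝓘(ℝ, ℂ) 1 f x := hf.of_le (by exact_mod_cast le_top)
  have h2 := (contMDiffAt_iff_contMDiffAt_nhds (by decide)).1 h1
  filter_upwards [h2] with y hy
  exact hy.mdifferentiableAt (by decide)

/-- Local expression of a map which is smooth at one point. -/
theorem FcP.cda_loc {f : M → N} {x : M} (hf : ContMDiffAt 𝓘(ℝ, E n) 𝓘(ℝ, E m) ∞ f x)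
    {φ : OpenPartialHomeomorph M (E n)} {ψ : OpenPartialHomeomorph N (E m)}
    (hφ : φ ∈ RA n M) (hψ : ψ ∈ RA m N) (hx : x ∈ φ.source) (hfx : f x ∈ ψ.source) :
    ContDiffAt ℝ ∞ (ψ ∘ f ∘ φ.symm) (φ x) := by
  have h1 : ContMDiffAt 𝓘(ℝ, E n) 𝓘(ℝ, E n) ∞ φ.symm (φ x) :=
    contMDiffAt_symm_of_mem_maximalAtlas hφ (φ.map_source hx)
  have h2 : ContMDiffAt 𝓘(ℝ, E m) 𝓘(ℝ, E m) ∞ ψ (f x) :=
    contMDiffAt_of_mem_maximalAtlas hψ hfx
  have h3 : ContMDiffAt 𝓘(ℝ, E n) 𝓘(ℝ, E m) ∞ f (φ.symm (φ x)) := by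
    rw [φ.left_inv hx]; exact hf
  have h4 : ContMDiffAt 𝓘(ℝ, E n) 𝓘(ℝ, E m) ∞ (f ∘ φ.symm) (φ x) := h3.comp (φ x) h1
  have h5 : ContMDiffAt 𝓘(ℝ, E m) 𝓘(ℝ, E m) ∞ ψ ((f ∘ φ.symm) (φ x)) := by
    rw [Function.comp_apply, φ.left_inv hx]; exact h2
  exact (h5.comp (φ x) h4).contDiffAt

theorem FcP.cda_loc0 {f : M → ℂ} {x : M} (hf : ContMDiffAt 𝓘(ℝ, E n) 𝓘(ℝ, ℂ) ∞ f x)
    {φ : OpenPartialHomeomorph M (E n)} (hφ : φ ∈ RA n M) (hx : x ∈ φ.source) :
    ContDiffAt ℝ ∞ (f ∘ φ.symm) (φ x) := by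
  have h1 : ContMDiffAt 𝓘(ℝ, E n) 𝓘(ℝ, E n) ∞ φ.symm (φ x) :=
    contMDiffAt_symm_of_mem_maximalAtlas hφ (φ.map_source hx)
  have h3 : ContMDiffAt 𝓘(ℝ, E n) 𝓘(ℝ, ℂ) ∞ f (φ.symm (φ x)) := by
    rw [φ.left_inv hx]; exact hf
  exact (h3.comp (φ x) h1).contDiffAt

/-- Local expression of the pull-back near a point. -/
theorem FcP.ev_loc1 {f : M → N} {x : M} (hf : ContMDiffAt 𝓘(ℝ, E n) 𝓘(ℝ, E m) ∞ f x)
    {φ : OpenPartialHomeomorph M (E n)} {ψ : OpenPartialHomeomorph N (E m)}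
    (hφ : φ ∈ RA n M) (hψ : ψ ∈ RA m N) (hx : x ∈ φ.source) (hfx : f x ∈ ψ.source)
    (α : F1 m N) :
    loc1 φ (pb1 n f α) =ᶠ[𝓝 (φ x)] fun z =>
      (loc1 ψ α ((ψ ∘ f ∘ φ.symm) z)).comp (fderiv ℝ (ψ ∘ f ∘ φ.symm) z) := by
  have h1 := FcP.tendsto_symm (n := n) hx
  have h2 : ∀ᶠ y in 𝓝 x, f y ∈ ψ.source :=
    hf.continuousAt.eventually_mem (ψ.open_source.mem_nhds hfx)
  filter_upwards [FcP.target_mem hx, h1.eventually h2, h1.eventually (FcP.ev_mdiff hf)]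
    with z hz hfz hd
  exact loc1_pb1 hφ hψ hz hfz hd α

theorem FcP.ev_loc2 {f : M → N} {x : M} (hf : ContMDiffAt 𝓘(ℝ, E n) 𝓘(ℝ, E m) ∞ f x)
    {φ : OpenPartialHomeomorph M (E n)} {ψ : OpenPartialHomeomorph N (E m)}
    (hφ : φ ∈ RA n M) (hψ : ψ ∈ RA m N) (hx : x ∈ φ.source) (hfx : f x ∈ ψ.source)
    (σ : F2 m N) :
    loc2 φ (pb2 n f σ) =ᶠ[𝓝 (φ x)] fun z =>
      (loc2 ψ σ ((ψ ∘ f ∘ φ.symm) z)).bilinearComp (fderiv ℝ (ψ ∘ f ∘ φ.symm) z)
        (fderiv ℝ (ψ ∘ f ∘ φ.symm) z) := by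
  have h1 := FcP.tendsto_symm (n := n) hx
  have h2 : ∀ᶠ y in 𝓝 x, f y ∈ ψ.source :=
    hf.continuousAt.eventually_mem (ψ.open_source.mem_nhds hfx)
  filter_upwards [FcP.target_mem hx, h1.eventually h2, h1.eventually (FcP.ev_mdiff hf)]
    with z hz hfz hd
  exact loc2_pb2 hφ hψ hz hfz hd σ

theorem FcP.g_at {f : M → N} {x : M} {φ : OpenPartialHomeomorph M (E n)}
    {ψ : OpenPartialHomeomorph N (E m)} (hx : x ∈ φ.source) :
    (ψ ∘ f ∘ φ.symm) (φ x) = ψ (f x) := by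
  simp [Function.comp, φ.left_inv hx]

/-! ## pull-backs -/

theorem S1.pb {f : M → N} (hf : Smth n m f) {α : F1 m N} (h : S1 α) : S1 (pb1 n f α) := by
  refine S1_of_local fun x => ⟨chartAt (E n) x, chartAt_mem_RA x, mem_chart_source _ x, ?_⟩
  have hφ := chartAt_mem_RA (n := n) x
  have hψ := chartAt_mem_RA (n := m) (f x)
  have hx := mem_chart_source (E n) x
  have hfx := mem_chart_source (E m) (f x)
  have hg := FcP.cda_loc (hf x) hφ hψ hx hfx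
  refine ContDiffAt.congr_of_eventuallyEq ?_ (FcP.ev_loc1 (hf x) hφ hψ hx hfx α)
  have h1 : ContDiffAt ℝ ∞ (loc1 (chartAt (E m) (f x)) α)
      ((chartAt (E m) (f x) ∘ f ∘ (chartAt (E n) x).symm) (chartAt (E n) x x)) := by
    rw [FcP.g_at hx]
    exact h.contDiffAt hψ ((chartAt (E m) (f x)).map_source hfx)
  exact (h1.comp _ hg).clm_comp (hg.fderiv_right (by simp))

theorem S2.pb {f : M → N} (hf : Smth n m f) {σ : F2 m N} (h : S2 σ) : S2 (pb2 n f σ) := by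
  refine S2_of_local (fun x u v => h.1 _ _ _) fun x =>
    ⟨chartAt (E n) x, chartAt_mem_RA x, mem_chart_source _ x, ?_⟩
  have hφ := chartAt_mem_RA (n := n) x
  have hψ := chartAt_mem_RA (n := m) (f x)
  have hx := mem_chart_source (E n) x
  have hfx := mem_chart_source (E m) (f x)
  have hg := FcP.cda_loc (hf x) hφ hψ hx hfx
  refine ContDiffAt.congr_of_eventuallyEq ?_ (FcP.ev_loc2 (hf x) hφ hψ hx hfx σ)
  have h1 : ContDiffAt ℝ ∞ (loc2 (chartAt (E m) (f x)) σ)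
      ((chartAt (E m) (f x) ∘ f ∘ (chartAt (E n) x).symm) (chartAt (E n) x x)) := by
    rw [FcP.g_at hx]
    exact h.contDiffAt hψ ((chartAt (E m) (f x)).map_source hfx)
  exact FcP.cda_bilin (h1.comp _ hg) (hg.fderiv_right (by simp))

theorem Cl2.pb {f : M → N} (hf : Smth n m f) {σ : F2 m N} (hs : S2 σ) (h : Cl2 σ) :
    Cl2 (pb2 n f σ) := by
  refine Cl2_of_local (hs.pb hf) fun x =>
    ⟨chartAt (E n) x, chartAt_mem_RA x, mem_chart_source _ x, fun u v w => ?_⟩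
  have hφ := chartAt_mem_RA (n := n) x
  have hψ := chartAt_mem_RA (n := m) (f x)
  have hx := mem_chart_source (E n) x
  have hfx := mem_chart_source (E m) (f x)
  have hg := FcP.cda_loc (hf x) hφ hψ hx hfx
  have hfx' := (chartAt (E m) (f x)).map_source hfx
  have hB : DifferentiableAt ℝ (loc2 (chartAt (E m) (f x)) σ)
      ((chartAt (E m) (f x) ∘ f ∘ (chartAt (E n) x).symm) (chartAt (E n) x x)) := by
    rw [FcP.g_at hx]
    exact (hs.contDiffAt hψ hfx').differentiableAt (by simp)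
  rw [(FcP.ev_loc2 (hf x) hφ hψ hx hfx σ).fderiv_eq]
  exact FcP.cyc hB hg (fun s t => hs.1 _ _ _)
    (h _ hψ _ (by rw [FcP.g_at hx]; exact hfx')) u v w

/-- Local version of the naturality of `d`. -/
theorem d1_pb_at {f : M → N} {x : M} (hf : ContMDiffAt 𝓘(ℝ, E n) 𝓘(ℝ, E m) ∞ f x) {κ : F1 m N}
    {ψ : OpenPartialHomeomorph N (E m)} (hψ : ψ ∈ RA m N) (hx : f x ∈ ψ.source)
    (h : DifferentiableAt ℝ (loc1 ψ κ) (ψ (f x))) :
    d1 (pb1 n f κ) x = pb2 n f (d1 κ) x := by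
  have hφ := chartAt_mem_RA (n := n) x
  have hx0 := mem_chart_source (E n) x
  have hg := FcP.cda_loc hf hφ hψ hx0 hx
  have h1 := loc2_chartAt (n := n) (pb2 n f (d1 κ)) x
  have h2 := loc2_pb2 (f := f) hφ hψ ((chartAt (E n) x).map_source hx0)
    (by rw [(chartAt (E n) x).left_inv hx0]; exact hx)
    (by rw [(chartAt (E n) x).left_inv hx0]; exact (FcP.ev_mdiff hf).self_of_nhds) (d1 κ)
  rw [h1, (chartAt (E n) x).left_inv hx0] at h2
  rw [h2, loc2_d1_at hψ (ψ.map_source hx) h]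
  have e := FcP.ev_loc1 hf hφ hψ hx0 hx κ
  unfold d1
  have e2 : dE1 (loc1 (chartAt (E n) x) (pb1 n f κ)) (chartAt (E n) x x) =
      dE1 (fun z => (loc1 ψ κ ((ψ ∘ f ∘ (chartAt (E n) x).symm) z)).comp
        (fderiv ℝ (ψ ∘ f ∘ (chartAt (E n) x).symm) z)) (chartAt (E n) x x) := by
    unfold dE1
    rw [e.fderiv_eq]
  rw [e2, dE1_pull (by rw [FcP.g_at hx0]; exact h) hg, FcP.g_at hx0]

theorem d1_pb {f : M → N} (hf : Smth n m f) {κ : F1 m N} (h : S1 κ) :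
    d1 (pb1 n f κ) = pb2 n f (d1 κ) := by
  funext x
  have hfx := mem_chart_source (E m) (f x)
  exact d1_pb_at (hf x) (chartAt_mem_RA (n := m) (f x)) hfx
    ((h.contDiffAt (chartAt_mem_RA (n := m) (f x))
      ((chartAt (E m) (f x)).map_source hfx)).differentiableAt (by simp))

theorem C1.pb {f : M → N} (hf : Smth n m f) {α : F1 m N} (h : C1 α) : C1 (pb1 n f α) := by
  refine ⟨h.1.pb hf, ?_⟩
  rw [d1_pb hf h.1, h.2]
  funext x
  ext u v
  simp [pb2]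

theorem Ex2.pb {f : M → N} (hf : Smth n m f) {σ : F2 m N} (h : Ex2 σ) : Ex2 (pb2 n f σ) := by
  obtain ⟨κ, hκ, rfl⟩ := h
  exact ⟨pb1 n f κ, hκ.pb hf, (d1_pb hf hκ).symm⟩

/-- Closed holomorphic forms pull back under holomorphic maps. -/
theorem H1.pb {f : M → N} (hf : Holo n m f) {α : F1 m N} (h : H1 α) : H1 (pb1 n f α) := by
  refine ⟨h.1.pb hf.smth, fun x u => ?_⟩
  have h1 := D_smul_I (n := n) (m := m) (hf x) u
  simp only [pb1, ContinuousLinearMap.comp_apply]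
  rw [h1, h.2]

theorem pb1_comp {f : M → N} {g : N → P} (hf : Smth n m f) (hg : Smth m k g) (α : F1 k P) :
    pb1 n (g ∘ f) α = pb1 n f (pb1 m g α) := by
  funext x
  simp only [pb1]
  rw [D_comp (hg.mdiff _) (hf.mdiff _)]
  rfl

theorem pb2_comp {f : M → N} {g : N → P} (hf : Smth n m f) (hg : Smth m k g) (σ : F2 k P) :
    pb2 n (g ∘ f) σ = pb2 n f (pb2 m g σ) := by
  funext x
  simp only [pb2]
  rw [D_comp (hg.mdiff _) (hf.mdiff _)]
  rfl

theorem FcP.d0_comp_at {f : M → N} {g : N → ℂ} {x : M}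
    (hf : MDifferentiableAt 𝓘(ℝ, E n) 𝓘(ℝ, E m) f x)
    (hg : MDifferentiableAt 𝓘(ℝ, E m) 𝓘(ℝ, ℂ) g (f x)) :
    d0 n (g ∘ f) x = pb1 n f (d0 m g) x := by
  simp only [d0, pb1, D]
  rw [mfderiv_comp x hg hf]
  rfl

theorem d0_comp {f : M → N} {g : N → ℂ} (hf : Smth n m f) (hg : S0 m g) :
    d0 n (g ∘ f) = pb1 n f (d0 m g) := by
  funext x
  exact FcP.d0_comp_at (hf.mdiff x) ((hg (f x)).mdifferentiableAt (by simp))

omit [IsManifold 𝓘(ℂ, E n) ω M] [IsManifold 𝓘(ℂ, E m) ω N] in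
theorem pb2_wedge (f : M → N) (α β : F1 m N) :
    pb2 n f (wedge α β) = wedge (pb1 n f α) (pb1 n f β) := by
  funext x
  ext u v
  simp [pb2, wedge, pb1]

omit [IsManifold 𝓘(ℂ, E n) ω M] [IsManifold 𝓘(ℂ, E m) ω N] in
theorem pb1_cj (f : M → N) (α : F1 m N) : pb1 n f (cj α) = cj (pb1 n f α) := by
  funext x
  ext u
  simp [pb1, cj]

theorem TF.pb {f : M → N} (hf : Smth n m f) {F : N → Tor} {a : F1 m N} (h : TF F a) :
    TF (F ∘ f) (pb1 n f a) := by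
  intro x
  obtain ⟨g, hg, hF⟩ := h (f x)
  refine ⟨g ∘ f, hg.comp x (hf x), ?_⟩
  have hc := (hf x).continuousAt.tendsto
  filter_upwards [hc.eventually hF, hc.eventually (FcP.ev_mdiff0 hg)] with y hy hgy
  refine ⟨hy.1, ?_⟩
  rw [FcP.d0_comp_at (hf.mdiff y) hgy]
  simp only [pb1]
  rw [hy.2]

/-- A map to the elliptic curve has a closed smooth differential. -/
theorem TF.C1 {F : M → Tor} {a : F1 n M} (h : TF F a) : C1 a := by
  have key : ∀ x : M, ∃ q : E n → ℂ, ContDiffAt ℝ ∞ q (chartAt (E n) x x) ∧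
      loc1 (chartAt (E n) x) a =ᶠ[𝓝 (chartAt (E n) x x)] fderiv ℝ q := by
    intro x
    obtain ⟨g, hg, hF⟩ := h x
    have hφ := chartAt_mem_RA (n := n) x
    have hx := mem_chart_source (E n) x
    refine ⟨g ∘ (chartAt (E n) x).symm, FcP.cda_loc0 hg hφ hx, ?_⟩
    have h1 := FcP.tendsto_symm (n := n) hx
    filter_upwards [FcP.target_mem hx, h1.eventually hF, h1.eventually (FcP.ev_mdiff0 hg)]
      with z hz hFz hd
    rw [← loc1_d0 hφ hz hd]
    simp only [loc1]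
    rw [hFz.2]
  constructor
  · refine S1_of_local fun x => ⟨chartAt (E n) x, chartAt_mem_RA x, mem_chart_source _ x, ?_⟩
    obtain ⟨q, hq, he⟩ := key x
    exact (hq.fderiv_right (by simp)).congr_of_eventuallyEq he
  · funext x
    obtain ⟨q, hq, he⟩ := key x
    have hsym : IsSymmSndFDerivAt ℝ q (chartAt (E n) x x) := hq.isSymmSndFDerivAt
      (by simp only [minSmoothness_of_isRCLikeNormedField]
          exact WithTop.coe_le_coe.2 (le_top : (2 : ℕ∞) ≤ ⊤))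
    simp only [d1, dE1]
    rw [he.fderiv_eq]
    ext u v
    simp only [sub_apply, ContinuousLinearMap.flip_apply, Pi.zero_apply, zero_apply]
    rw [hsym.eq u v, sub_self]

theorem Holo.comp {f : M → N} {g : N → P} (hg : Holo m k g) (hf : Holo n m f) :
    Holo n k (g ∘ f) := by
  exact ContMDiff.comp hg hf

theorem Smth.comp {f : M → N} {g : N → P} (hg : Smth m k g) (hf : Smth n m f) :
    Smth n k (g ∘ f) := by
  exact ContMDiff.comp hg hf

theorem S0.comp {f : M → N} {g : N → ℂ} (hg : S0 m g) (hf : Smth n m f) : S0 n (g ∘ f) := by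
  exact ContMDiff.comp hg hf

end

end Pool.Agent.K708
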