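import Pool.Agent.Lib.K708.CDefs
import Pool.Agent.Lib.K708.FcP

/-! # K708, Section C: lower bound for the relative Kaehler form -/

set_option autoImplicit false

open scoped Manifold ContDiff Topology NNReal ENNReal
open Set Filter MeasureTheory

noncomputable section

namespace Pool.Agent.K708

namespace CBoxL

theorem contDiff_pr {k : ℕ} (hk : k ≤ 3) : ContDiff ℂ ω (pr hk) := by
  unfold pr
  exact contDiff_prod fun i _ => contDiff_apply ℂ ℂ _

theorem contDiff_pr_real {k : ℕ} (hk : k ≤ 3) : ContDiff ℝ ω (pr hk) :=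
  (contDiff_pr hk).restrict_scalars ℝ

theorem fderiv_pr {k : ℕ} (hk : k ≤ 3) (z v : E 3) :
    fderiv ℝ (pr hk) z v = fderiv ℂ (pr hk) z v := by
  have h : DifferentiableAt ℂ (pr hk) z := (contDiff_pr hk).differentiable (by simp) z
  rw [h.fderiv_restrictScalars ℝ]
  rfl

end CBoxL

open CBoxL

/-- C-L. Lower bound for a relative Kähler form on vectors tangent to the fibres. -/
theorem lower_bound {X : CMfd 2} (G : RatDegen X) (Ω : F2 3 G.T) (hΩ : RelKah G.π Ω)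
    {φ : OpenPartialHomeomorph G.T (E 3)} (hφ : φ ∈ IsManifold.maximalAtlas 𝓘(ℂ, E 3) ω G.T)
    {ψ : OpenPartialHomeomorph G.B (E 1)} (hψ : ψ ∈ IsManifold.maximalAtlas 𝓘(ℂ, E 1) ω G.B)
    {k : ℕ} (hk : k ≤ 3)
    (hprod : ∀ y ∈ φ.source, G.π y ∈ ψ.source ∧ ψ (G.π y) 0 = pr hk (φ y))
    {K : Set (E 3)} (hK : IsCompact K) (hKt : K ⊆ φ.target) :
    ∃ δ : ℝ, 0 < δ ∧ ∀ z ∈ K, ∀ v : E 3, fderiv ℂ (pr hk) z v = 0 →
      δ * ‖v‖ ^ 2 ≤ (loc2 φ Ω z v (Complex.I • v)).re := by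
  have hφR : φ ∈ RA 3 G.T := ra_of_ca hφ
  have hψR : ψ ∈ RA 1 G.B := ra_of_ca hψ
  have pos : ∀ z ∈ φ.target, ∀ v : E 3, v ≠ 0 → fderiv ℂ (pr hk) z v = 0 →
      0 < (loc2 φ Ω z v (Complex.I • v)).re := by
    intro z hz v hv hker
    have hsrc : φ.symm z ∈ φ.source := φ.map_target hz
    have hπz : G.π (φ.symm z) ∈ ψ.source := (hprod _ hsrc).1
    have hhol : HoloAt 3 3 φ.symm z := (contMDiffOn_symm_of_mem_maximalAtlas hφ).contMDiffAt
      (φ.open_target.mem_nhds hz)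
    have hmd : MDifferentiableAt 𝓘(ℝ, E 3) 𝓘(ℝ, E 1) G.π (φ.symm z) :=
      (G.holo.smth).mdiff _
    have h1 := D_loc hφR hψR hz hπz hmd
    have hloc : (ψ ∘ G.π ∘ φ.symm) =ᶠ[𝓝 z] fun w => (fun _ => pr hk w : E 1) := by
      filter_upwards [φ.open_target.mem_nhds hz] with w hw
      have h2 := (hprod _ (φ.map_target hw)).2
      rw [φ.right_inv hw] at h2
      funext i
      have hi : i = 0 := Subsingleton.elim _ _
      rw [hi]
      exact h2
    have h3 : fderiv ℝ (ψ ∘ G.π ∘ φ.symm) z v = 0 := by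
      rw [hloc.fderiv_eq]
      have h4 : HasFDerivAt (fun w => (fun _ => pr hk w : E 1))
          (ContinuousLinearMap.pi fun _ => fderiv ℝ (pr hk) z) z := by
        rw [hasFDerivAt_pi]
        intro _
        exact ((contDiff_pr_real hk).differentiable (by simp) z).hasFDerivAt
      rw [h4.fderiv]
      funext i
      show fderiv ℝ (pr hk) z v = 0
      rw [fderiv_pr, hker]
    set u : E 3 := D 3 3 φ.symm z v with hu
    have h5 : D 1 1 ψ (G.π (φ.symm z)) (D 3 1 G.π (φ.symm z) u) = 0 := by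
      have h11 : (D 1 1 ψ (G.π (φ.symm z))) ((D 3 1 G.π (φ.symm z)) (D 3 3 φ.symm z v)) =
          fderiv ℝ (ψ ∘ G.π ∘ φ.symm) z v := by
        rw [← h1]
        rfl
      rw [hu, h11, h3]
    have h6 : D 3 1 G.π (φ.symm z) u = 0 := by
      have h7 := D_symm_comp hψR hπz
      have h8 := congrArg (fun L => L (D 3 1 G.π (φ.symm z) u)) h7
      simp only [ContinuousLinearMap.comp_apply, ContinuousLinearMap.id_apply] at h8
      rw [← h8, h5, map_zero]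
    have hu0 : u ≠ 0 := by
      intro h0
      apply hv
      have h7 := D_comp_symm hφR hz
      have h8 := congrArg (fun L => L v) h7
      simp only [ContinuousLinearMap.comp_apply, ContinuousLinearMap.id_apply] at h8
      rw [← h8, ← hu, h0, map_zero]
    have h9 : DC 3 1 G.π (φ.symm z) u = 0 := by
      rw [← D_eq_DC (G.holo _), h6]
    have h10 := hΩ.pos (φ.symm z) u hu0 h9
    show 0 < (Ω (φ.symm z) (D 3 3 φ.symm z v) (D 3 3 φ.symm z (Complex.I • v))).re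
    rw [D_smul_I hhol, ← hu]
    exact h10
  -- continuity
  have hcont : ContinuousOn (fun p : E 3 × E 3 => (loc2 φ Ω p.1 p.2 (Complex.I • p.2)).re)
      (φ.target ×ˢ univ) := by
    have h1 : ContinuousOn (loc2 φ Ω) φ.target := (hΩ.s2.2 φ hφR).continuousOn
    have h2 : ContinuousOn (fun p : E 3 × E 3 => loc2 φ Ω p.1) (φ.target ×ˢ univ) :=
      h1.comp continuousOn_fst fun p hp => hp.1
    exact Complex.continuous_re.comp_continuousOn
      ((h2.clm_apply continuousOn_snd).clm_apply (continuousOn_snd.const_smul Complex.I))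
  have hcl : IsClosed {p : E 3 × E 3 | fderiv ℂ (pr hk) p.1 p.2 = 0} :=
    isClosed_eq (((contDiff_pr hk).of_le le_top).continuous_fderiv_apply (n := 1) one_ne_zero)
      continuous_const
  have hS : IsCompact ((K ×ˢ Metric.sphere (0 : E 3) 1) ∩
      {p : E 3 × E 3 | fderiv ℂ (pr hk) p.1 p.2 = 0}) :=
    (hK.prod (isCompact_sphere _ _)).inter_right hcl
  have hex : ∃ δ : ℝ, 0 < δ ∧ ∀ z ∈ K, ∀ v : E 3, ‖v‖ = 1 → fderiv ℂ (pr hk) z v = 0 →
      δ ≤ (loc2 φ Ω z v (Complex.I • v)).re := by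
    by_cases hne : ((K ×ˢ Metric.sphere (0 : E 3) 1) ∩
      {p : E 3 × E 3 | fderiv ℂ (pr hk) p.1 p.2 = 0}).Nonempty
    · obtain ⟨p, hp, hmin⟩ := hS.exists_isMinOn hne (hcont.mono fun q hq => ⟨hKt hq.1.1, trivial⟩)
      refine ⟨_, pos p.1 (hKt hp.1.1) p.2 ?_ hp.2, ?_⟩
      · intro h0
        have h1 := hp.1.2
        rw [h0, mem_sphere_zero_iff_norm, norm_zero] at h1
        exact zero_ne_one h1
      · intro z hz v hv hker
        exact hmin (a := (z, v)) ⟨⟨hz, by simpa using hv⟩, hker⟩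
    · refine ⟨1, one_pos, fun z hz v hv hker => ?_⟩
      exact absurd ⟨(z, v), ⟨hz, by simpa using hv⟩, hker⟩ hne
  obtain ⟨δ, hδ, hmain⟩ := hex
  refine ⟨δ, hδ, fun z hz v hker => ?_⟩
  by_cases hv : v = 0
  · subst hv
    simp
  · have hn : ‖v‖ ≠ 0 := norm_ne_zero_iff.mpr hv
    have hn0 : 0 < ‖v‖ := norm_pos_iff.mpr hv
    have h1 : ‖(‖v‖⁻¹ : ℝ) • v‖ = 1 := by
      rw [norm_smul, norm_inv, norm_norm, inv_mul_cancel₀ hn]
    have h2 : fderiv ℂ (pr hk) z ((‖v‖⁻¹ : ℝ) • v) = 0 := by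
      rw [← fderiv_pr, map_smul, fderiv_pr, hker, smul_zero]
    have h3 := hmain z hz _ h1 h2
    have h4 : Complex.I • ((‖v‖⁻¹ : ℝ) • v) = (‖v‖⁻¹ : ℝ) • (Complex.I • v) := smul_comm _ _ _
    rw [h4] at h3
    have h6 : loc2 φ Ω z ((‖v‖⁻¹ : ℝ) • v) ((‖v‖⁻¹ : ℝ) • (Complex.I • v)) =
        ((‖v‖⁻¹ : ℝ) : ℂ) * (((‖v‖⁻¹ : ℝ) : ℂ) * loc2 φ Ω z v (Complex.I • v)) := by
      have e1 : loc2 φ Ω z ((‖v‖⁻¹ : ℝ) • v) = (‖v‖⁻¹ : ℝ) • loc2 φ Ω z v :=
        (loc2 φ Ω z).map_smul _ _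
      have e2 : loc2 φ Ω z v ((‖v‖⁻¹ : ℝ) • (Complex.I • v)) =
          (‖v‖⁻¹ : ℝ) • loc2 φ Ω z v (Complex.I • v) := (loc2 φ Ω z v).map_smul _ _
      rw [e1]
      show (‖v‖⁻¹ : ℝ) • (loc2 φ Ω z v ((‖v‖⁻¹ : ℝ) • (Complex.I • v))) = _
      rw [e2, Complex.real_smul, Complex.real_smul]
    rw [h6, Complex.re_ofReal_mul, Complex.re_ofReal_mul] at h3
    have h5 : ‖v‖ ^ 2 * (‖v‖⁻¹ * (‖v‖⁻¹ * (loc2 φ Ω z v (Complex.I • v)).re)) =
        (loc2 φ Ω z v (Complex.I • v)).re := by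
      field_simp
    rw [← h5, mul_comm δ]
    exact mul_le_mul_of_nonneg_left h3 (by positivity)

end Pool.Agent.K708
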