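import Pool.Agent.Lib.K708.FcC

/-! # K708: closed holomorphic 1-forms, local primitives, maps to the elliptic curve -/

set_option autoImplicit false

open scoped Manifold ContDiff Topology
open Set

noncomputable section

namespace Pool.Agent.K708

namespace FcHol

/-- Identity theorem on a ball, by restriction to complex lines. -/
theorem zero_of_eventually {n : ℕ} {g : E n → ℂ} {c : E n} {r : ℝ}
    (hg : DifferentiableOn ℂ g (Metric.ball c r)) {y w : E n} (hy : y ∈ Metric.ball c r)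
    (hw : w ∈ Metric.ball c r) (h0 : ∀ᶠ z in 𝓝 y, g z = 0) : g w = 0 := by
  set L : ℂ → E n := fun t => y + t • (w - y) with hLdef
  have hL : Differentiable ℂ L := by
    intro t
    exact ((differentiableAt_id.smul_const (w - y)).const_add y)
  have hSo : IsOpen (L ⁻¹' Metric.ball c r) := Metric.isOpen_ball.preimage hL.continuous
  have hSc : Convex ℝ (L ⁻¹' Metric.ball c r) := by
    intro a ha b hb s t hs ht hst
    have h1 := convex_ball c r ha hb hs ht hst
    have h2 : L (s • a + t • b) = s • L a + t • L b := by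
      have hs' : (s : ℂ) + (t : ℂ) = 1 := by exact_mod_cast hst
      funext i
      simp only [hLdef, Pi.add_apply, Pi.smul_apply, Pi.sub_apply, smul_eq_mul,
        Complex.real_smul]
      linear_combination (-(y i)) * hs'
    rw [mem_preimage, h2]
    exact h1
  have hA : AnalyticOnNhd ℂ (g ∘ L) (L ⁻¹' Metric.ball c r) :=
    DifferentiableOn.analyticOnNhd (hg.comp hL.differentiableOn (fun _ h => h)) hSo
  have hL0 : L 0 = y := by simp [hLdef]
  have hL1 : L 1 = w := by simp [hLdef]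
  have hev : (g ∘ L) =ᶠ[𝓝 0] 0 := by
    have h1 : Filter.Tendsto L (𝓝 0) (𝓝 y) := by
      rw [← hL0]
      exact hL.continuous.continuousAt
    exact h1.eventually h0
  have h2 := hA.eqOn_zero_of_preconnected_of_eventuallyEq_zero hSc.isPreconnected
    (show (0 : ℂ) ∈ L ⁻¹' Metric.ball c r by rw [mem_preimage, hL0]; exact hy) hev
    (show (1 : ℂ) ∈ L ⁻¹' Metric.ball c r by rw [mem_preimage, hL1]; exact hw)
  simpa [hL1] using h2

/-- A real linear map which commutes with `i` is complex linear. -/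
theorem map_smul_of_I {n : ℕ} (f : E n →L[ℝ] ℂ) (h : ∀ u, f (Complex.I • u) = Complex.I * f u)
    (c : ℂ) (u : E n) : f (c • u) = c * f u := by
  have h1 : c • u = c.re • u + c.im • (Complex.I • u) := by
    funext i
    simp only [Pi.add_apply, Pi.smul_apply, smul_eq_mul, Complex.real_smul]
    conv_lhs => rw [← Complex.re_add_im c]
    ring
  rw [h1, map_add, map_smul, map_smul, h, Complex.real_smul, Complex.real_smul]
  conv_rhs => rw [← Complex.re_add_im c]
  ring

end FcHol

section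

variable {n : ℕ} {M : Type*}
  [TopologicalSpace M] [ChartedSpace (E n) M] [IsManifold 𝓘(ℂ, E n) ω M]

/-- In a holomorphic chart a closed form of type (1,0) has type (1,0) coefficients. -/
theorem loc1_T10 {α : F1 n M} (h : ∀ x u, α x (Complex.I • u) = Complex.I * α x u)
    {φ : OpenPartialHomeomorph M (E n)} (hφ : φ ∈ CA n M) {z : E n} (hz : z ∈ φ.target)
    (u : E n) : loc1 φ α z (Complex.I • u) = Complex.I * loc1 φ α z u := by
  have h1 : HoloAt n n φ.symm z :=
    (contMDiffOn_symm_of_mem_maximalAtlas hφ).contMDiffAt (φ.open_target.mem_nhds hz)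
  show α (φ.symm z) (D n n φ.symm z (Complex.I • u)) = Complex.I * α (φ.symm z) (D n n φ.symm z u)
  rw [D_smul_I h1, h]

/-- Holomorphic coefficients. -/
theorem H1.coeff {α : F1 n M} (h : H1 α) {φ : OpenPartialHomeomorph M (E n)} (hφ : φ ∈ CA n M)
    (v : E n) : DifferentiableOn ℂ (fun z => loc1 φ α z v) φ.target := by
  intro z hz
  have hφ' := ra_of_ca hφ
  have hC : ContDiffAt ℝ ∞ (loc1 φ α) z := S1.contDiffAt h.1.1 hφ' hz
  have hD : DifferentiableAt ℝ (loc1 φ α) z := hC.differentiableAt (by simp)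
  have hev : ∀ w : E n, HasFDerivAt (fun y => loc1 φ α y w)
      ((ContinuousLinearMap.apply ℝ ℂ w).comp (fderiv ℝ (loc1 φ α) z)) z := fun w =>
    (ContinuousLinearMap.apply ℝ ℂ w).hasFDerivAt.comp z hD.hasFDerivAt
  have hcl : ∀ u w : E n, fderiv ℝ (loc1 φ α) z u w = fderiv ℝ (loc1 φ α) z w u := by
    intro u w
    have h1 := loc2_d1 h.1.1 hφ' hz
    have h2 : loc2 φ (d1 α) z = 0 := by
      rw [h.1.2]
      ext a b
      simp [loc2]
    rw [h2] at h1
    have h3 := congrArg (fun B : E n →L[ℝ] E n →L[ℝ] ℂ => B u w) h1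
    have h4 : (0 : ℂ) = fderiv ℝ (loc1 φ α) z u w - fderiv ℝ (loc1 φ α) z w u := h3
    exact (sub_eq_zero.1 h4.symm)
  have hI : ∀ u w : E n, fderiv ℝ (loc1 φ α) z w (Complex.I • u) =
      Complex.I * fderiv ℝ (loc1 φ α) z w u := by
    intro u w
    have e1 : (fun y => loc1 φ α y (Complex.I • u)) =ᶠ[𝓝 z]
        fun y => Complex.I * loc1 φ α y u := by
      filter_upwards [φ.open_target.mem_nhds hz] with y hy
      exact loc1_T10 h.2 hφ hy u
    have e2 := e1.fderiv_eq (𝕜 := ℝ)
    rw [(hev (Complex.I • u)).fderiv, ((hev u).const_mul Complex.I).fderiv] at e2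
    have e3 := congrArg (fun B : E n →L[ℝ] ℂ => B w) e2
    exact e3
  have hlin : ∀ (c : ℂ) (u : E n), fderiv ℝ (loc1 φ α) z (c • u) v =
      c * fderiv ℝ (loc1 φ α) z u v := by
    intro c u
    rw [hcl (c • u) v, FcHol.map_smul_of_I _ (fun u => hI u v), hcl u v]
  refine ((differentiableAt_iff_restrictScalars ℝ (hev v).differentiableAt).2
    ⟨{ toFun := fun u => fderiv ℝ (loc1 φ α) z u v
       map_add' := fun a b => by rw [map_add]; rfl
       map_smul' := fun c u => hlin c u
       cont := ((ContinuousLinearMap.apply ℝ ℂ v).comp (fderiv ℝ (loc1 φ α) z)).cont }, ?_⟩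
    ).differentiableWithinAt
  rw [(hev v).fderiv]
  ext u
  rfl

/-- Identity theorem for closed holomorphic forms. -/
theorem H1.eq_zero_of_open [ConnectedSpace M] {α : F1 n M} (h : H1 α) {U : Set M}
    (hU : IsOpen U) (hne : U.Nonempty) (h0 : ∀ x ∈ U, α x = 0) : α = 0 := by
  have hZo : IsOpen {x : M | ∀ᶠ y in 𝓝 x, α y = 0} := isOpen_setOfPred_eventually_nhds
  have hZn : {x : M | ∀ᶠ y in 𝓝 x, α y = 0}.Nonempty := by
    obtain ⟨x, hx⟩ := hne
    exact ⟨x, Filter.mem_of_superset (hU.mem_nhds hx) h0⟩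
  have hZc : IsClosed {x : M | ∀ᶠ y in 𝓝 x, α y = 0} := by
    rw [← closure_subset_iff_isClosed]
    intro x hx
    obtain ⟨r, hr, hb⟩ := Metric.isOpen_iff.1 (chartAt (E n) x).open_target
      (chartAt (E n) x x) (mem_chart_target (E n) x)
    have hV : IsOpen ((chartAt (E n) x).source ∩
        (chartAt (E n) x) ⁻¹' Metric.ball (chartAt (E n) x x) r) :=
      (chartAt (E n) x).isOpen_inter_preimage Metric.isOpen_ball
    have hxV : x ∈ (chartAt (E n) x).source ∩
        (chartAt (E n) x) ⁻¹' Metric.ball (chartAt (E n) x x) r :=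
      ⟨mem_chart_source (E n) x, Metric.mem_ball_self hr⟩
    obtain ⟨y, hyV, hyZ⟩ := mem_closure_iff.1 hx _ hV hxV
    have hloc : ∀ᶠ z in 𝓝 (chartAt (E n) x y), loc1 (chartAt (E n) x) α z = 0 := by
      have h1 : Filter.Tendsto (chartAt (E n) x).symm (𝓝 (chartAt (E n) x y)) (𝓝 y) := by
        have h2 := (chartAt (E n) x).continuousAt_symm
          ((chartAt (E n) x).map_source hyV.1)
        rw [ContinuousAt, (chartAt (E n) x).left_inv hyV.1] at h2
        exact h2
      filter_upwards [h1.eventually hyZ] with z hz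
      unfold loc1
      rw [hz]
      simp
    have hball : ∀ w ∈ Metric.ball (chartAt (E n) x x) r,
        loc1 (chartAt (E n) x) α w = 0 := by
      intro w hw
      ext v
      have h3 := FcHol.zero_of_eventually
        ((H1.coeff h (chartAt_mem_CA x) v).mono hb) hyV.2 hw
        (hloc.mono fun z hz => by simp [hz])
      simpa using h3
    refine Filter.mem_of_superset (hV.mem_nhds hxV) ?_
    intro x' hx'
    show α x' = 0
    rw [eq_of_loc1 (chartAt_mem_RA x) hx'.1 α, hball _ hx'.2]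
    simp
  have hZ : {x : M | ∀ᶠ y in 𝓝 x, α y = 0} = univ := IsClopen.eq_univ ⟨hZc, hZo⟩ hZn
  funext x
  have hx : x ∈ {x : M | ∀ᶠ y in 𝓝 x, α y = 0} := by rw [hZ]; exact mem_univ x
  exact Filter.Eventually.self_of_nhds (p := fun y => α y = 0) hx

namespace FcHol

omit [IsManifold 𝓘(ℂ, E n) ω M] in
theorem eventually_mdiff [IsManifold 𝓘(ℝ, E n) ∞ M] {g : M → ℂ} {x : M}
    (hg : ContMDiffAt 𝓘(ℝ, E n) 𝓘(ℝ, ℂ) ∞ g x) :
    ∀ᶠ y in 𝓝 x, MDifferentiableAt 𝓘(ℝ, E n) 𝓘(ℝ, ℂ) g y := by
  have h1 : ContMDiffAt 𝓘(ℝ, E n) 𝓘(ℝ, ℂ) 1 g x := hg.of_le (by simp)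
  have : IsManifold 𝓘(ℝ, E n) 1 M := IsManifold.of_le (n := ∞) (by simp)
  filter_upwards [(contMDiffAt_iff_contMDiffAt_nhds (by simp)).1 h1] with y hy
  exact hy.mdifferentiableAt (by simp)

omit [IsManifold 𝓘(ℂ, E n) ω M] in
theorem d0_sub {g f : M → ℂ} {y : M} (hg : MDifferentiableAt 𝓘(ℝ, E n) 𝓘(ℝ, ℂ) g y)
    (hf : MDifferentiableAt 𝓘(ℝ, E n) 𝓘(ℝ, ℂ) f y) :
    d0 n (fun y => g y - f y) y = d0 n g y - d0 n f y := by
  have h1 := (hg.hasMFDerivAt.sub hf.hasMFDerivAt).mfderiv
  exact h1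

theorem gau_small {z : ℂ} (hz : z ∈ Gau) (h : ‖z‖ < 1) : z = 0 := by
  obtain ⟨a, b, rfl⟩ := hz
  have h1 : ‖(a : ℂ) + b * Complex.I‖ ^ 2 < 1 := by
    have := norm_nonneg ((a : ℂ) + b * Complex.I)
    nlinarith
  rw [← Complex.normSq_eq_norm_sq, Complex.normSq_apply] at h1
  simp only [Complex.add_re, Complex.intCast_re, Complex.mul_re, Complex.I_re, mul_zero,
    Complex.intCast_im, Complex.I_im, mul_one, sub_self, add_zero, Complex.add_im,
    Complex.mul_im, zero_add] at h1
  have h2 : a * a + b * b < 1 := by exact_mod_cast h1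
  have ha : a = 0 := by nlinarith [sq_nonneg a, sq_nonneg b, mul_self_nonneg a, mul_self_nonneg b]
  have hb : b = 0 := by nlinarith [sq_nonneg a, sq_nonneg b, mul_self_nonneg a, mul_self_nonneg b]
  rw [ha, hb]
  simp

end FcHol

/-- Change of a map to the elliptic curve by a function. -/
theorem TF.sub_fun {F : M → Tor} {a : F1 n M} (h : TF F a) {f : M → ℂ} (hf : S0 n f) :
    TF (fun x => F x - QuotientAddGroup.mk (f x)) (a - d0 n f) := by
  intro x
  obtain ⟨g, hg, hev⟩ := h x
  refine ⟨fun y => g y - f y, hg.sub (hf x), ?_⟩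
  filter_upwards [hev, FcHol.eventually_mdiff hg] with y hy hgy
  refine ⟨?_, ?_⟩
  · rw [hy.1]
    rfl
  · rw [FcHol.d0_sub hgy ((hf y).mdifferentiableAt (by simp)), Pi.sub_apply, hy.2]

theorem TF.smooth_unique {F : M → Tor} {a b : F1 n M} (h : TF F a) (h' : TF F b) : a = b := by
  funext x
  obtain ⟨g, hg, hev⟩ := h x
  obtain ⟨g', hg', hev'⟩ := h' x
  have hc : ContinuousAt (fun y => g y - g' y) x := hg.continuousAt.sub hg'.continuousAt
  have hsm : ∀ᶠ y in 𝓝 x, ‖(g y - g' y) - (g x - g' x)‖ < 1 := by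
    have h1 := hc.eventually (Metric.ball_mem_nhds _ one_pos)
    filter_upwards [h1] with y hy
    rwa [← dist_eq_norm]
  have hmem : ∀ᶠ y in 𝓝 x, g y - g' y ∈ Gau := by
    filter_upwards [hev, hev'] with y hy hy'
    have h2 : (QuotientAddGroup.mk (g y) : Tor) = QuotientAddGroup.mk (g' y) := by
      rw [← hy.1, ← hy'.1]
    have h3 := QuotientAddGroup.eq.1 h2
    have h4 := Gau.neg_mem h3
    have h5 : g y - g' y = -(-g y + g' y) := by ring
    rw [h5]
    exact h4
  have hx := hmem.self_of_nhds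
  have hconst : (fun y => g y) =ᶠ[𝓝 x] fun y => g' y - (-(g x - g' x)) := by
    filter_upwards [hmem, hsm] with y hy hy'
    have h6 := FcHol.gau_small (Gau.sub_mem hy hx) hy'
    linear_combination h6
  have e1 : d0 n g x = d0 n (fun y => g' y - (-(g x - g' x))) x := by
    unfold d0
    exact hconst.mfderiv_eq
  have hd' : MDifferentiableAt 𝓘(ℝ, E n) 𝓘(ℝ, ℂ) g' x := hg'.mdifferentiableAt (by simp)
  rw [FcHol.d0_sub hd' mdifferentiableAt_const] at e1
  have e2 : d0 n (fun _ : M => -(g x - g' x)) x = 0 := by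
    unfold d0
    exact mfderiv_const
  rw [e2, sub_zero] at e1
  rw [hev.self_of_nhds.2, hev'.self_of_nhds.2]
  exact e1

end

end Pool.Agent.K708
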