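import Pool.Agent.Lib.K708.CDefs
import Pool.Agent.Lib.K708.FcHol

/-! # K708, Section C: maps to the torus in a parametrisation -/

set_option autoImplicit false

open scoped Manifold ContDiff Topology NNReal ENNReal
open Set Filter MeasureTheory

noncomputable section

namespace Pool.Agent.K708

/-- The complex linear form with the same values as `l` on the standard basis. -/
def clin {n : ℕ} (l : E n →L[ℝ] ℂ) : E n →L[ℂ] ℂ :=
  ∑ i, (ContinuousLinearMap.proj i : E n →L[ℂ] ℂ).smulRight (l (Pi.single i 1))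

namespace CBoxT

theorem clin_apply {n : ℕ} (l : E n →L[ℝ] ℂ) (u : E n) :
    clin l u = ∑ i, u i * l (Pi.single i 1) := by
  unfold clin
  rw [sum_apply]
  rfl

theorem clin_eq {n : ℕ} (l : E n →L[ℝ] ℂ) (h : ∀ u, l (Complex.I • u) = Complex.I * l u)
    (u : E n) : clin l u = l u := by
  rw [clin_apply]
  have h1 : u = ∑ i, u i • (Pi.single i (1 : ℂ) : E n) := by
    funext j
    rw [Finset.sum_apply]
    simp [Pi.single_apply]
  conv_rhs => rw [h1]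
  rw [map_sum]
  exact Finset.sum_congr rfl fun i _ => (FcHol.map_smul_of_I l h _ _).symm

end CBoxT

open CBoxT

/-- C-T. The local derivative of a map to `ℂ/ℤ[i]` in a holomorphic parametrisation. -/
theorem TF.holOn {Y : CMfd 2} {F : Y → Tor} {a : F1 2 Y} (hF : TF F a) (ha : H1 a)
    {U : Set (ℂ × ℂ)} (hU : IsOpen U) {g : E 2 → Y} (hg : ∀ w ∈ U, HoloAt 2 2 g ![w.1, w.2]) :
    K708C.HolOn tau (fun w : ℂ × ℂ => F (g ![w.1, w.2]))
      (fun w => (clin ((a (g ![w.1, w.2])).comp (D 2 2 g ![w.1, w.2]))).comp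
        ((ContinuousLinearEquiv.finTwoArrow ℂ ℂ).symm : ℂ × ℂ →L[ℂ] E 2)) U := by
  intro z hz
  obtain ⟨G0, hG0, hev⟩ := hF (g ![z.1, z.2])
  have hj : Continuous fun w : ℂ × ℂ => (![w.1, w.2] : E 2) :=
    ((ContinuousLinearEquiv.finTwoArrow ℂ ℂ).symm : ℂ × ℂ →L[ℂ] E 2).continuous
  have hgc : ContinuousAt (fun w : ℂ × ℂ => g ![w.1, w.2]) z :=
    ContinuousAt.comp (f := fun w : ℂ × ℂ => (![w.1, w.2] : E 2)) (hg z hz).continuousAt
      hj.continuousAt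
  have hG1 : ∀ᶠ y in 𝓝 (g ![z.1, z.2]), ContMDiffAt 𝓘(ℝ, E 2) 𝓘(ℝ, ℂ) 1 G0 y :=
    contMDiffAt_iff_contMDiffAt_nhds (n := 1) (by simp) |>.mp
      (ContMDiffAt.of_le hG0 (by exact_mod_cast le_top))
  refine ⟨fun w => G0 (g ![w.1, w.2]), ?_⟩
  filter_upwards [hgc.eventually hev, hgc.eventually hG1, hU.mem_nhds hz] with w h1 h2 hwU
  refine ⟨h1.1, ?_⟩
  have hgw := hg w hwU
  have hmG : MDifferentiableAt 𝓘(ℝ, E 2) 𝓘(ℝ, ℂ) G0 (g ![w.1, w.2]) :=
    h2.mdifferentiableAt (by simp)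
  have hmg : MDifferentiableAt 𝓘(ℝ, E 2) 𝓘(ℝ, E 2) g ![w.1, w.2] := hgw.mdiff
  have hcomp := mfderiv_comp (![w.1, w.2] : E 2) hmG hmg
  have hdiff : MDifferentiableAt 𝓘(ℝ, E 2) 𝓘(ℝ, ℂ) (G0 ∘ g) (![w.1, w.2] : E 2) := hmG.comp _ hmg
  set L : E 2 →L[ℝ] ℂ := (a (g ![w.1, w.2])).comp (D 2 2 g ![w.1, w.2]) with hL
  have hL2 : fderiv ℝ (G0 ∘ g) (![w.1, w.2] : E 2) = L := by
    rw [← mfderiv_eq_fderiv, hcomp, hL, h1.2]
    rfl
  have hLI : ∀ u, L (Complex.I • u) = Complex.I * L u := by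
    intro u
    show a (g ![w.1, w.2]) (D 2 2 g ![w.1, w.2] (Complex.I • u)) = _
    rw [D_smul_I hgw, ha.2]
    rfl
  have hr : HasFDerivAt (G0 ∘ g) L (![w.1, w.2] : E 2) := by
    rw [← hL2]
    exact (mdifferentiableAt_iff_differentiableAt.mp hdiff).hasFDerivAt
  have hc : HasFDerivAt (G0 ∘ g) (clin L) (![w.1, w.2] : E 2) := by
    refine hasFDerivAt_of_restrictScalars ℝ hr ?_
    ext u
    exact clin_eq L hLI u
  have hJ : HasFDerivAt (fun w : ℂ × ℂ => (![w.1, w.2] : E 2))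
      ((ContinuousLinearEquiv.finTwoArrow ℂ ℂ).symm : ℂ × ℂ →L[ℂ] E 2) w :=
    ((ContinuousLinearEquiv.finTwoArrow ℂ ℂ).symm : ℂ × ℂ →L[ℂ] E 2).hasFDerivAt
  exact HasFDerivAt.comp (f := fun w : ℂ × ℂ => (![w.1, w.2] : E 2)) w hc hJ

end Pool.Agent.K708
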