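import Pool.Agent.Lib.K708.W4

/-! # K708, Section C: linear algebra of the energy -/

set_option autoImplicit false

open scoped Manifold ContDiff Topology NNReal ENNReal
open Set Filter MeasureTheory

noncomputable section

namespace Pool.Agent.K708

/-- C-W. `i l ∧ l̄ ∧ B = 2 B (v, i v)`, `v` spanning the kernel of `l`. -/
theorem w4_wedge_cj (l : E 2 →L[ℝ] ℂ) (hl : ∀ u, l (Complex.I • u) = Complex.I * l u)
    (B : E 2 →L[ℝ] E 2 →L[ℝ] ℂ) (hB : ∀ u v, B u v = - B v u)
    (hJ : ∀ u v, B (Complex.I • u) (Complex.I • v) = B u v) :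
    w4 (Complex.I • (l.smulRight ((Complex.conjCLE : ℂ →L[ℝ] ℂ).comp l) -
      (l.smulRight ((Complex.conjCLE : ℂ →L[ℝ] ℂ).comp l)).flip)) B =
    2 * B ![-(l ![0, 1]), l ![1, 0]] (Complex.I • ![-(l ![0, 1]), l ![1, 0]]) := by
  set e1 : E 2 := ![1, 0] with he1
  set e2 : E 2 := ![0, 1] with he2
  have b0 : bv 0 = e1 := rfl
  have b1 : bv 1 = Complex.I • e1 := by
    funext i
    fin_cases i <;> simp [bv, he1]
  have b2 : bv 2 = e2 := rfl
  have b3 : bv 3 = Complex.I • e2 := by
    funext i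
    fin_cases i <;> simp [bv, he2]
  set a : ℂ := l e1 with ha
  set b : ℂ := l e2 with hb
  have hv : (![-b, a] : E 2) = ((-b.re : ℝ)) • e1 + ((-b.im : ℝ)) • (Complex.I • e1) +
      (a.re : ℝ) • e2 + (a.im : ℝ) • (Complex.I • e2) := by
    funext i
    fin_cases i
    · simp only [he1, he2]
      apply Complex.ext <;> simp
    · simp only [he1, he2]
      apply Complex.ext <;> simp
  have hIv : Complex.I • (![-b, a] : E 2) = (b.im : ℝ) • e1 + ((-b.re : ℝ)) • (Complex.I • e1) +
      ((-a.im : ℝ)) • e2 + (a.re : ℝ) • (Complex.I • e2) := by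
    funext i
    fin_cases i
    · simp only [he1, he2]
      apply Complex.ext <;> simp
    · simp only [he1, he2]
      apply Complex.ext <;> simp
  have hII : ∀ u : E 2, Complex.I • (Complex.I • u) = -u := by
    intro u
    rw [smul_smul, Complex.I_mul_I, neg_one_smul]
  -- values of B
  have B11 : B e1 e1 = 0 := by
    have := hB e1 e1
    linear_combination this / 2
  have B22 : B e2 e2 = 0 := by
    have := hB e2 e2
    linear_combination this / 2
  have BI11 : B (Complex.I • e1) (Complex.I • e1) = 0 := by rw [hJ, B11]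
  have BI22 : B (Complex.I • e2) (Complex.I • e2) = 0 := by rw [hJ, B22]
  have B21 : B e2 e1 = - B e1 e2 := hB _ _
  have BI1 : B (Complex.I • e1) e1 = - B e1 (Complex.I • e1) := hB _ _
  have BI2 : B (Complex.I • e2) e2 = - B e2 (Complex.I • e2) := hB _ _
  have BI12 : B (Complex.I • e1) (Complex.I • e2) = B e1 e2 := hJ _ _
  have BI21 : B (Complex.I • e2) (Complex.I • e1) = - B e1 e2 := by rw [hJ, B21]
  have Bi1_2 : B (Complex.I • e1) e2 = - B e1 (Complex.I • e2) := by
    have := hJ (Complex.I • e1) e2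
    rw [hII] at this
    have h2 : B (-e1) (Complex.I • e2) = - B e1 (Complex.I • e2) := by
      rw [map_neg]
      rfl
    rw [← this, h2]
  have B2_i1 : B e2 (Complex.I • e1) = B e1 (Complex.I • e2) := by
    rw [hB, Bi1_2, neg_neg]
  have Bi2_1 : B (Complex.I • e2) e1 = - B e1 (Complex.I • e2) := hB _ _
  have L1 : l (Complex.I • e1) = Complex.I * a := hl _
  have L2 : l (Complex.I • e2) = Complex.I * b := hl _
  have hrhs : B ![-b, a] (Complex.I • ![-b, a]) =
      (Complex.normSq b : ℂ) * B e1 (Complex.I • e1) + (Complex.normSq a : ℂ) * B e2 (Complex.I • e2)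
      + ((2 * (b.re * a.im - b.im * a.re) : ℝ) : ℂ) * B e1 e2
      - ((2 * (b.re * a.re + b.im * a.im) : ℝ) : ℂ) * B e1 (Complex.I • e2) := by
    rw [hIv, hv]
    simp only [map_add, map_smul, add_apply, smul_apply]
    simp only [B11, B22, BI11, BI22, B21, BI1, BI2, BI12, BI21, Bi1_2, B2_i1, Bi2_1,
      Complex.real_smul, Complex.normSq_apply]
    push_cast
    ring
  rw [hrhs]
  have hW : ∀ u v, (Complex.I • (l.smulRight ((Complex.conjCLE : ℂ →L[ℝ] ℂ).comp l) -
      (l.smulRight ((Complex.conjCLE : ℂ →L[ℝ] ℂ).comp l)).flip)) u v =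
      Complex.I * (l u * (starRingEnd ℂ) (l v) - l v * (starRingEnd ℂ) (l u)) := by
    intro u v
    rfl
  unfold w4
  rw [hW, hW, hW, hW, hW, hW, b0, b1, b2, b3, L1, L2, ← ha, ← hb]
  simp only [map_mul, Complex.conj_I]
  rw [BI12, Bi1_2, B2_i1.symm.trans B2_i1]
  have ea : a = (a.re : ℂ) + (a.im : ℂ) * Complex.I := (Complex.re_add_im a).symm
  have eb : b = (b.re : ℂ) + (b.im : ℂ) * Complex.I := (Complex.re_add_im b).symm
  have eca : (starRingEnd ℂ) a = (a.re : ℂ) - (a.im : ℂ) * Complex.I := by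
    apply Complex.ext <;> simp
  have ecb : (starRingEnd ℂ) b = (b.re : ℂ) - (b.im : ℂ) * Complex.I := by
    apply Complex.ext <;> simp
  have na : (Complex.normSq a : ℂ) = (a.re : ℂ) ^ 2 + (a.im : ℂ) ^ 2 := by
    rw [Complex.normSq_apply]
    push_cast
    ring
  have nb : (Complex.normSq b : ℂ) = (b.re : ℂ) ^ 2 + (b.im : ℂ) ^ 2 := by
    rw [Complex.normSq_apply]
    push_cast
    ring
  rw [eca, ecb, na, nb]
  clear hrhs hW hv hIv hII eca ecb na nb L1 L2 BI12 Bi1_2 B2_i1 B11 B22 BI11 BI22 B21 BI1 BI2 BI21 Bi2_1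
  push_cast
  generalize B e1 e2 = p
  generalize B e1 (Complex.I • e2) = q
  generalize B e1 (Complex.I • e1) = r
  generalize B e2 (Complex.I • e2) = s
  clear_value a b
  generalize (a.re : ℂ) = x at *
  generalize (a.im : ℂ) = y at *
  generalize (b.re : ℂ) = x' at *
  generalize (b.im : ℂ) = y' at *
  subst ea eb
  have hI2 : Complex.I ^ 2 = -1 := Complex.I_sq
  have hI3 : Complex.I ^ 3 = -Complex.I := by rw [pow_succ, hI2]; ring
  have hI4 : Complex.I ^ 4 = 1 := by rw [pow_succ, hI3]; ring_nf; rw [hI2]; ring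
  ring_nf
  simp only [hI2, hI3, hI4]
  ring

end Pool.Agent.K708
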