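import Pool.Agent.Lib.K708.FcP

/-! # K708, Section C: charts from parametrisations -/

set_option autoImplicit false

open scoped Manifold ContDiff Topology NNReal ENNReal
open Set Filter MeasureTheory

noncomputable section

namespace Pool.Agent.K708

namespace CChB

/-- an injective endomorphism is an equivalence -/
theorem exists_equiv {n : ℕ} (L : E n →L[ℂ] E n) (hL : Function.Injective L) :
    ∃ L' : E n ≃L[ℂ] E n, (L' : E n →L[ℂ] E n) = L := by
  refine ⟨(LinearEquiv.ofInjectiveEndo (L : E n →ₗ[ℂ] E n) hL).toContinuousLinearEquiv, ?_⟩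
  ext u
  rfl

theorem contDiffAt_loc {n : ℕ} {M : CMfd n} {g : E n → M} {z : E n} (hg : HoloAt n n g z) :
    ContDiffAt ℂ ω (chartAt (E n) (g z) ∘ g) z := by
  have h := hg
  unfold HoloAt at h
  rw [contMDiffAt_iff] at h
  have e : chartAt (E n) z = OpenPartialHomeomorph.refl (E n) := chartAt_self_eq
  have h2 := h.2
  simp only [extChartAt, e, mfld_simps, contDiffWithinAt_univ] at h2
  exact h2

theorem fderiv_loc {n : ℕ} {M : CMfd n} {g : E n → M} {z : E n} (hg : HoloAt n n g z) :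
    fderiv ℂ (chartAt (E n) (g z) ∘ g) z = DC n n g z := by
  have h1 : MDifferentiableAt 𝓘(ℂ, E n) 𝓘(ℂ, E n) g z := ContMDiffAt.mdifferentiableAt hg (by simp)
  have h2 : DC n n g z = fderivWithin ℂ (writtenInExtChartAt 𝓘(ℂ, E n) 𝓘(ℂ, E n) z g)
      (range 𝓘(ℂ, E n)) (extChartAt 𝓘(ℂ, E n) z z) := h1.mfderiv
  rw [h2]
  have e : chartAt (E n) z = OpenPartialHomeomorph.refl (E n) := chartAt_self_eq
  simp only [writtenInExtChartAt, extChartAt, e, mfld_simps, fderivWithin_univ]

end CChB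

open CChB

/-- C-B2. An injective holomorphic immersion from an open set of `ℂⁿ` to a complex manifold of
dimension `n` is the inverse of a chart. -/
theorem exists_chart {n : ℕ} {M : CMfd n} {U : Set (E n)} (hU : IsOpen U) {g : E n → M}
    (hg : ∀ z ∈ U, HoloAt n n g z) (hinj : InjOn g U)
    (himm : ∀ z ∈ U, Function.Injective (DC n n g z)) :
    ∃ χ ∈ IsManifold.maximalAtlas 𝓘(ℂ, E n) ω M, χ.target = U ∧ EqOn χ.symm g U := by
  have hloc : ∀ z ∈ U, ∃ L' : E n ≃L[ℂ] E n,
      HasStrictFDerivAt (chartAt (E n) (g z) ∘ g) (L' : E n →L[ℂ] E n) z := by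
    intro z hz
    obtain ⟨L', hL'⟩ := exists_equiv (DC n n g z) (himm z hz)
    refine ⟨L', ?_⟩
    rw [hL', ← fderiv_loc (hg z hz)]
    exact (contDiffAt_loc (hg z hz)).hasStrictFDerivAt (by simp)
  have hcont : ∀ z ∈ U, ContinuousAt g z := fun z hz => (hg z hz).continuousAt
  have hmap : ∀ z ∈ U, map g (𝓝 z) = 𝓝 (g z) := by
    intro z hz
    obtain ⟨L', hL'⟩ := hloc z hz
    have h1 := hL'.map_nhds_eq_of_equiv
    have hs := mem_chart_source (E n) (g z)
    have h2 : g =ᶠ[𝓝 z] (chartAt (E n) (g z)).symm ∘ (chartAt (E n) (g z) ∘ g) := by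
      filter_upwards [(hcont z hz).preimage_mem_nhds
        ((chartAt (E n) (g z)).open_source.mem_nhds hs)] with w hw
      exact ((chartAt (E n) (g z)).left_inv hw).symm
    rw [map_congr h2, ← Filter.map_map, h1]
    have h3 := (chartAt (E n) (g z)).symm.map_nhds_eq
      (x := (chartAt (E n) (g z)) (g z)) ((chartAt (E n) (g z)).map_source hs)
    rw [(chartAt (E n) (g z)).left_inv hs] at h3
    exact h3
  obtain ⟨e, he1, he2⟩ : ∃ e : OpenPartialHomeomorph (E n) M, e.source = U ∧
      (e : E n → M) = g := by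
    refine ⟨OpenPartialHomeomorph.ofContinuousOpenRestrict (hinj.toPartialEquiv g U)
      (fun z hz => (hcont z hz).continuousWithinAt) ?_ hU, rfl, rfl⟩
    refine isOpenMap_iff_nhds_le.2 fun x => ?_
    have hx : (x : E n) ∈ U := x.2
    have h4 : map (Subtype.val : U → E n) (𝓝 x) = 𝓝 (x : E n) :=
      map_nhds_subtype_coe_eq_nhds hx (hU.mem_nhds hx)
    show 𝓝 (g x) ≤ map (g ∘ (Subtype.val : U → E n)) (𝓝 x)
    rw [← Filter.map_map, h4, hmap x hx]
  refine ⟨e.symm, ?_, he1, ?_⟩
  · refine OpenPartialHomeomorph.mem_maximalAtlas_of_contMDiffOn _ ?_ ?_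
    · intro y hy
      have hz : e.symm y ∈ U := he1 ▸ e.map_target hy
      have hgy : g (e.symm y) = y := by
        rw [← he2]; exact e.right_inv hy
      obtain ⟨L', hL'⟩ := hloc _ hz
      have hs := mem_chart_source (E n) (g (e.symm y))
      obtain ⟨ψ, hψ⟩ : ∃ ψ, ψ = chartAt (E n) (g (e.symm y)) := ⟨_, rfl⟩
      rw [← hψ] at hL' hs
      have hψa : ψ ∈ CA n M := by rw [hψ]; exact chartAt_mem_CA _
      have hys : y ∈ ψ.source := by rw [← hgy]; exact hs
      obtain ⟨F, hF⟩ : ∃ F : OpenPartialHomeomorph (E n) (E n), F = e ≫ₕ ψ := ⟨_, rfl⟩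
      have hFs : F.symm (ψ y) = e.symm y := by
        rw [hF]
        show e.symm (ψ.symm (ψ y)) = e.symm y
        rw [ψ.left_inv hys]
      have hFt : ψ y ∈ F.target := by
        rw [hF]
        refine ⟨ψ.map_source hys, ?_⟩
        show ψ.symm (ψ y) ∈ e.target
        rw [ψ.left_inv hys]
        exact hy
      have hFc : (F : E n → E n) = ψ ∘ g := by
        rw [hF, ← he2]; rfl
      have hd : HasFDerivAt F (L' : E n →L[ℂ] E n) (F.symm (ψ y)) := by
        rw [hFs, hFc]
        exact hL'.hasFDerivAt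
      have hc : ContDiffAt ℂ ω F (F.symm (ψ y)) := by
        rw [hFs, hFc, hψ]
        exact contDiffAt_loc (hg _ hz)
      have h5 := F.contDiffAt_symm hFt hd hc
      have h6 : ContMDiffAt 𝓘(ℂ, E n) 𝓘(ℂ, E n) ω (F.symm ∘ ψ) y :=
        (h5.contMDiffAt).comp y (contMDiffAt_of_mem_maximalAtlas hψa hys)
      refine (h6.congr_of_eventuallyEq ?_).contMDiffWithinAt
      filter_upwards [ψ.open_source.mem_nhds hys] with y' hy'
      show e.symm y' = F.symm (ψ y')
      rw [hF]
      show e.symm y' = e.symm (ψ.symm (ψ y'))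
      rw [ψ.left_inv hy']
    · intro z hz
      have hz' : z ∈ U := he1 ▸ hz
      have h7 : ContMDiffAt 𝓘(ℂ, E n) 𝓘(ℂ, E n) ω e.symm.symm z := by
        rw [OpenPartialHomeomorph.symm_symm, he2]
        exact hg z hz'
      exact h7.contMDiffWithinAt
  · intro z _
    rw [OpenPartialHomeomorph.symm_symm, he2]

end Pool.Agent.K708
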