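import Pool.Agent.Lib.K708.CChA
import Pool.Agent.Lib.K708.CChB
import Pool.Agent.Lib.K708.CBoxW
import Pool.Agent.Lib.K708.CBoxE
import Pool.Agent.Lib.K708.CBoxT
import Pool.Agent.Lib.K708.CBoxL
import Pool.Agent.Lib.K708.HolAn

/-! # K708, Section C: the local energy bound, preparations -/

set_option autoImplicit false

open scoped Manifold ContDiff Topology NNReal ENNReal
open Set Filter MeasureTheory

noncomputable section

namespace Pool.Agent.K708

namespace CBox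

/-- A graph over two coordinates in a fibre gives an injective immersion into the fibre. -/
theorem param {T : CMfd 3} {Y : CMfd 2} [Nonempty Y] {ι : Y → T}
    (hι : CEmb (n := 2) (m := 3) ι)
    {φ : OpenPartialHomeomorph T (E 3)} (hφ : φ ∈ IsManifold.maximalAtlas 𝓘(ℂ, E 3) ω T)
    {i j : Fin 3} {U : Set (E 2)} (hU : IsOpen U) {γ : E 2 → E 3}
    (hγd : DifferentiableOn ℂ γ U) (hγt : ∀ z ∈ U, γ z ∈ φ.target)
    (hi : ∀ z ∈ U, γ z i = z 0) (hj : ∀ z ∈ U, γ z j = z 1)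
    (hr : ∀ z ∈ U, φ.symm (γ z) ∈ range ι) :
    ∃ g : E 2 → Y, (∀ z ∈ U, ι (g z) = φ.symm (γ z)) ∧ (∀ z ∈ U, HoloAt 2 2 g z) ∧
      InjOn g U ∧ ∀ z ∈ U, Function.Injective (DC 2 2 g z) := by
  have h1 : ∀ z, z ∈ U → ∃ y, ι y = φ.symm (γ z) := hr
  choose! g hg using h1
  have hγo : ∀ z ∈ U, ContDiffAt ℂ ω γ z := fun z hz =>
    holo_omega_pi_at (by
      filter_upwards [hU.mem_nhds hz] with w hw
      exact (hγd w hw).differentiableAt (hU.mem_nhds hw))
  have hhol : ∀ z ∈ U, HoloAt 2 2 g z := by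
    intro z hz
    apply hι.holoAt_model
    have h2 : HoloAt 3 3 φ.symm (γ z) :=
      (contMDiffOn_symm_of_mem_maximalAtlas hφ).contMDiffAt
        (φ.open_target.mem_nhds (hγt z hz))
    have h3 : ContMDiffAt 𝓘(ℂ, E 2) 𝓘(ℂ, E 3) ω γ z := (hγo z hz).contMDiffAt
    have h4 : ContMDiffAt 𝓘(ℂ, E 2) 𝓘(ℂ, E 3) ω (fun w => φ.symm (γ w)) z :=
      ContMDiffAt.comp z h2 h3
    exact h4.congr_of_eventuallyEq (by
      filter_upwards [hU.mem_nhds hz] with w hw
      exact hg w hw)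
  refine ⟨g, hg, hhol, ?_, ?_⟩
  · intro z hz z' hz' h
    have h5 : φ.symm (γ z) = φ.symm (γ z') := by rw [← hg z hz, ← hg z' hz', h]
    have h6 : γ z = γ z' := by
      rw [← φ.right_inv (hγt z hz), h5, φ.right_inv (hγt z' hz')]
    funext a
    fin_cases a
    · have := congrFun h6 i
      rw [hi z hz, hi z' hz'] at this
      exact this
    · have := congrFun h6 j
      rw [hj z hz, hj z' hz'] at this
      exact this
  · intro z hz
    rw [injective_iff_map_eq_zero]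
    intro u hu
    have hsrc : ι (g z) ∈ φ.source := by rw [hg z hz]; exact φ.map_target (hγt z hz)
    have h7 : HoloAt 3 3 φ (ι (g z)) :=
      (contMDiffOn_of_mem_maximalAtlas hφ).contMDiffAt (φ.open_source.mem_nhds hsrc)
    have h8 : HoloAt 2 3 (fun y => φ (ι y)) (g z) :=
      ContMDiffAt.comp (g z) h7 (hι.holo (g z))
    have h9 : DC 2 3 (fun w => φ (ι (g w))) z = (DC 2 3 (fun y => φ (ι y)) (g z)).comp
        (DC 2 2 g z) :=
      mfderiv_comp (I' := 𝓘(ℂ, E 2)) (g := fun y => φ (ι y)) z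
        (ContMDiffAt.mdifferentiableAt h8 (by simp))
        (ContMDiffAt.mdifferentiableAt (hhol z hz) (by simp))
    have h10 : DC 2 3 (fun w => φ (ι (g w))) z = fderiv ℂ γ z := by
      have h11 : (fun w => φ (ι (g w))) =ᶠ[𝓝 z] γ := by
        filter_upwards [hU.mem_nhds hz] with w hw
        show φ (ι (g w)) = γ w
        rw [hg w hw, φ.right_inv (hγt w hw)]
      have h12 : DC 2 3 (fun w => φ (ι (g w))) z = DC 2 3 γ z := h11.mfderiv_eq
      rw [h12]
      exact mfderiv_eq_fderiv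
    have h13 : fderiv ℂ γ z u = 0 := by
      rw [← h10, h9]
      show (DC 2 3 (fun y => φ (ι y)) (g z)) (DC 2 2 g z u) = 0
      rw [hu, map_zero]
    have hd : DifferentiableAt ℂ γ z := (hγd z hz).differentiableAt (hU.mem_nhds hz)
    have hcoord : ∀ (a : Fin 3) (b : Fin 2), (∀ w ∈ U, γ w a = w b) → u b = 0 := by
      intro a b hab
      have h14 : fderiv ℂ (fun w => γ w a) z = (ContinuousLinearMap.proj b : E 2 →L[ℂ] ℂ) := by
        have h15 : (fun w => γ w a) =ᶠ[𝓝 z] (ContinuousLinearMap.proj b : E 2 →L[ℂ] ℂ) := by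
          filter_upwards [hU.mem_nhds hz] with w hw
          exact hab w hw
        rw [h15.fderiv_eq]
        exact ContinuousLinearMap.fderiv _
      have h16 : fderiv ℂ (fun w => γ w a) z u = fderiv ℂ γ z u a := by
        rw [fderiv_apply hd a]
        rfl
      rw [h14, h13] at h16
      exact h16
    funext b
    fin_cases b
    · exact hcoord i 0 hi
    · exact hcoord j 1 hj

/-- The norm of the derivative in the other coordinates. -/
theorem norm_clin (l : E 2 →L[ℝ] ℂ) :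
    ‖(clin l).comp ((ContinuousLinearEquiv.finTwoArrow ℂ ℂ).symm : ℂ × ℂ →L[ℂ] E 2)‖ ≤
      2 * ‖(![-(l ![0, 1]), l ![1, 0]] : E 2)‖ := by
  have e0 : (Pi.single (0 : Fin 2) (1 : ℂ) : E 2) = ![1, 0] := by
    funext a
    fin_cases a <;> simp
  have e1 : (Pi.single (1 : Fin 2) (1 : ℂ) : E 2) = ![0, 1] := by
    funext a
    fin_cases a <;> simp
  refine ContinuousLinearMap.opNorm_le_bound _ (by positivity) fun x => ?_
  have h1 : (clin l).comp ((ContinuousLinearEquiv.finTwoArrow ℂ ℂ).symm : ℂ × ℂ →L[ℂ] E 2) x =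
      x.1 * l ![1, 0] + x.2 * l ![0, 1] := by
    show clin l ((ContinuousLinearEquiv.finTwoArrow ℂ ℂ).symm x) = _
    rw [CBoxT.clin_apply, Fin.sum_univ_two, e0, e1]
    rfl
  rw [h1]
  have h2 : ‖l ![1, 0]‖ ≤ ‖(![-(l ![0, 1]), l ![1, 0]] : E 2)‖ :=
    norm_le_pi_norm (![-(l ![0, 1]), l ![1, 0]] : E 2) 1
  have h3 : ‖l ![0, 1]‖ ≤ ‖(![-(l ![0, 1]), l ![1, 0]] : E 2)‖ := by
    have := norm_le_pi_norm (![-(l ![0, 1]), l ![1, 0]] : E 2) 0
    simpa using this
  have h4 : ‖x.1‖ ≤ ‖x‖ := norm_fst_le x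
  have h5 : ‖x.2‖ ≤ ‖x‖ := norm_snd_le x
  calc ‖x.1 * l ![1, 0] + x.2 * l ![0, 1]‖
      ≤ ‖x.1‖ * ‖l ![1, 0]‖ + ‖x.2‖ * ‖l ![0, 1]‖ := by
        refine (norm_add_le _ _).trans ?_
        rw [norm_mul, norm_mul]
    _ ≤ ‖x‖ * ‖(![-(l ![0, 1]), l ![1, 0]] : E 2)‖ +
        ‖x‖ * ‖(![-(l ![0, 1]), l ![1, 0]] : E 2)‖ := by gcongr
    _ = 2 * ‖(![-(l ![0, 1]), l ![1, 0]] : E 2)‖ * ‖x‖ := by ring

end CBox

end Pool.Agent.K708
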