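import Pool.Agent.Lib.K708.RegZero

/-! # K708: maps into submanifolds; fibres exist -/

set_option autoImplicit false

open scoped Manifold ContDiff Topology
open Set

noncomputable section

namespace Pool.Agent.K708

namespace Fib

section

variable {n m : ℕ} {M N : Type*}
  [TopologicalSpace M] [ChartedSpace (E n) M] [IsManifold 𝓘(ℂ, E n) ω M]
  [TopologicalSpace N] [ChartedSpace (E m) N] [IsManifold 𝓘(ℂ, E m) ω N]

theorem holoAt_chart (x : M) : HoloAt n n (chartAt (E n) x : M → E n) x :=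
  contMDiffOn_chart.contMDiffAt (chart_source_mem_nhds _ x)

theorem DC_chart (x : M) :
    DC n n (chartAt (E n) x : M → E n) x = ContinuousLinearMap.id ℂ (E n) := by
  have h : DC n n (chartAt (E n) x : M → E n) x = tangentCoordChange 𝓘(ℂ, E n) x x x :=
    mfderiv_chartAt_eq_tangentCoordChange (I := 𝓘(ℂ, E n)) (x := x) (y := x)
      (mem_chart_source (E n) x)
  rw [h]
  exact ContinuousLinearMap.ext fun u => tangentCoordChange_self (mem_extChartAt_source x)

omit [IsManifold 𝓘(ℂ, E n) ω M] in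
theorem contDiffAt_of_holoAt {g : M → E m} {x : M} (hg : HoloAt n m g x) :
    ContDiffAt ℂ ω (g ∘ (chartAt (E n) x).symm) (chartAt (E n) x x) := by
  unfold HoloAt at hg
  rw [contMDiffAt_iff] at hg
  have := hg.2
  rw [← contDiffWithinAt_univ]
  simpa using this

omit [IsManifold 𝓘(ℂ, E n) ω M] in
theorem hasFDerivAt_of_holoAt {g : M → E m} {x : M} (hg : HoloAt n m g x) :
    HasFDerivAt (g ∘ (chartAt (E n) x).symm) (DC n m g x) (chartAt (E n) x x) := by
  have h1 : MDifferentiableAt 𝓘(ℂ, E n) 𝓘(ℂ, E m) g x := hg.mdifferentiableAt (by simp)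
  have h2 := h1.hasMFDerivAt.2
  rw [← hasFDerivWithinAt_univ]
  simp only [writtenInExtChartAt, extChartAt, OpenPartialHomeomorph.extend,
    modelWithCornersSelf_partialEquiv, PartialEquiv.trans_refl,
    OpenPartialHomeomorph.toFun_eq_coe, OpenPartialHomeomorph.coe_toPartialEquiv_symm,
    modelWithCornersSelf_coe, range_id, chartAt_self_eq] at h2
  exact h2

end

/-- Near a point, the chart of a submanifold is a holomorphic function of the ambient chart. -/
theorem exists_retr {n m : ℕ} {Y : CMfd n} {T : CMfd m} {ι : Y → T}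
    (hι : CEmb (n := n) (m := m) ι) (y₀ : Y) :
    ∃ G : E m → E n, ContDiffAt ℂ ω G (chartAt (E m) (ι y₀) (ι y₀)) ∧
      ∀ᶠ y in 𝓝 y₀, chartAt (E n) y₀ y = G (chartAt (E m) (ι y₀) (ι y)) := by
  set χ := chartAt (E m) (ι y₀) with hχ
  set φ := chartAt (E n) y₀ with hφ
  obtain ⟨L0, hL0⟩ := (DC n m ι y₀ : E n →ₗ[ℂ] E m).exists_leftInverse_of_injective
    (LinearMap.ker_eq_bot.2 (hι.imm y₀))
  let L : E m →L[ℂ] E n := LinearMap.toContinuousLinearMap L0
  have hL : ∀ u, L (DC n m ι y₀ u) = u := fun u => congrArg (fun f => f u) hL0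
  let F : Y → E n := fun y => L (χ (ι y))
  have h1 : HoloAt m n (fun t : T => L (χ t)) (ι y₀) := by
    have h := holoAt_chart (n := m) (ι y₀)
    exact (L.contMDiff.contMDiffAt (x := χ (ι y₀))).comp (ι y₀) h
  have hF : HoloAt n n F y₀ :=
    ContMDiffAt.comp (g := fun t : T => L (χ t)) (f := ι) y₀ h1 (hι.holo y₀)
  have hD1 : DC m n (fun t : T => L (χ t)) (ι y₀) = L := by
    have h2 : DC m n (fun t : T => L (χ t)) (ι y₀) = (DC m n (L : E m → E n) (χ (ι y₀))).comp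
        (DC m m (χ : T → E m) (ι y₀)) :=
      mfderiv_comp (ι y₀) (L.contMDiff.contMDiffAt.mdifferentiableAt (n := ω) (by simp))
        ((holoAt_chart (n := m) (ι y₀)).mdifferentiableAt (by simp))
    have h3 : DC m n (L : E m → E n) (χ (ι y₀)) = L := by
      show mfderiv 𝓘(ℂ, E m) 𝓘(ℂ, E n) L (χ (ι y₀)) = L
      rw [mfderiv_eq_fderiv]
      exact L.fderiv
    rw [h2, h3, DC_chart (n := m) (ι y₀)]
    exact ContinuousLinearMap.comp_id L
  have hD : DC n n F y₀ = ContinuousLinearMap.id ℂ (E n) := by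
    have h2 : DC n n F y₀ = (DC m n (fun t : T => L (χ t)) (ι y₀)).comp (DC n m ι y₀) :=
      mfderiv_comp y₀ (h1.mdifferentiableAt (by simp)) ((hι.holo y₀).mdifferentiableAt (by simp))
    rw [h2, hD1]
    exact ContinuousLinearMap.ext hL
  have hg1 := contDiffAt_of_holoAt hF
  have hg2 := hasFDerivAt_of_holoAt hF
  rw [hD] at hg2
  have hg3 : HasFDerivAt (F ∘ φ.symm) ((ContinuousLinearEquiv.refl ℂ (E n) :
    E n ≃L[ℂ] E n) : E n →L[ℂ] E n) (φ y₀) := hg2
  let Ψ := hg1.toOpenPartialHomeomorph _ hg3 (by simp)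
  have hx0 : φ y₀ ∈ Ψ.source := hg1.mem_toOpenPartialHomeomorph_source hg3 (by simp)
  have hinv : ContDiffAt ℂ ω Ψ.symm ((F ∘ φ.symm) (φ y₀)) := hg1.to_localInverse hg3 (by simp)
  have hval : (F ∘ φ.symm) (φ y₀) = L (χ (ι y₀)) := by
    show L (χ (ι (φ.symm (φ y₀)))) = _
    rw [φ.left_inv (mem_chart_source _ y₀)]
  rw [hval] at hinv
  refine ⟨Ψ.symm ∘ L, ?_, ?_⟩
  · exact hinv.comp (χ (ι y₀)) L.contDiff.contDiffAt
  · have h4 : ∀ᶠ y in 𝓝 y₀, φ y ∈ Ψ.source :=
      (φ.continuousAt (mem_chart_source _ y₀)).eventually_mem (Ψ.open_source.mem_nhds hx0)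
    filter_upwards [h4, chart_source_mem_nhds (E n) y₀] with y hy1 hy2
    have h5 : Ψ.symm (Ψ (φ y)) = φ y := Ψ.left_inv hy1
    have h6 : Ψ (φ y) = L (χ (ι y)) := by
      show L (χ (ι (φ.symm (φ y)))) = _
      rw [φ.left_inv hy2]
    rw [h6] at h5
    exact h5.symm

end Fib

open Fib

/-- A map to a submanifold is holomorphic if it is holomorphic as a map to the ambient manifold. -/
theorem CEmb.holoAt_of_comp {p n m : ℕ} {W : CMfd p} {Y : CMfd n} {T : CMfd m} {ι : Y → T}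
    (hι : CEmb (n := n) (m := m) ι) {f : W → Y} {w : W} (hf : HoloAt p m (fun x => ι (f x)) w) :
    HoloAt p n f w := by
  have hc : ContinuousAt f w := by
    rw [hι.emb.isInducing.continuousAt_iff]
    exact hf.continuousAt
  obtain ⟨G, hG, hG2⟩ := exists_retr hι (f w)
  unfold HoloAt
  rw [contMDiffAt_iff_target]
  refine ⟨hc, ?_⟩
  have h1 : ContMDiffAt 𝓘(ℂ, E p) 𝓘(ℂ, E n) ω
      (fun x => G (chartAt (E m) (ι (f w)) (ι (f x)))) w := by
    have h2 : ContMDiffAt 𝓘(ℂ, E p) 𝓘(ℂ, E m) ω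
        (fun x => chartAt (E m) (ι (f w)) (ι (f x))) w :=
      ContMDiffAt.comp w (holoAt_chart (n := m) (ι (f w))) hf
    exact ContMDiffAt.comp w hG.contMDiffAt h2
  refine h1.congr_of_eventuallyEq ?_
  filter_upwards [hc.eventually hG2] with x hx
  simpa using hx

/-- A map to a submanifold is smooth if it is smooth as a map to the ambient manifold. -/
theorem CEmb.smthAt_of_comp {p n m : ℕ} {W : CMfd p} {Y : CMfd n} {T : CMfd m} {ι : Y → T}
    (hι : CEmb (n := n) (m := m) ι) {f : W → Y} {w : W}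
    (hf : ContMDiffAt 𝓘(ℝ, E p) 𝓘(ℝ, E m) ∞ (fun x => ι (f x)) w) :
    ContMDiffAt 𝓘(ℝ, E p) 𝓘(ℝ, E n) ∞ f w := by
  have hc : ContinuousAt f w := by
    rw [hι.emb.isInducing.continuousAt_iff]
    exact hf.continuousAt
  obtain ⟨G, hG, hG2⟩ := exists_retr hι (f w)
  rw [contMDiffAt_iff_target]
  refine ⟨hc, ?_⟩
  have h1 : ContMDiffAt 𝓘(ℝ, E p) 𝓘(ℝ, E n) ∞
      (fun x => G (chartAt (E m) (ι (f w)) (ι (f x)))) w := by
    have h2 : ContMDiffAt 𝓘(ℝ, E p) 𝓘(ℝ, E m) ∞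
        (fun x => chartAt (E m) (ι (f w)) (ι (f x))) w := by
      have h3 : ContMDiffAt 𝓘(ℝ, E m) 𝓘(ℝ, E m) ∞ (chartAt (E m) (ι (f w))) (ι (f w)) :=
        contMDiffOn_chart.contMDiffAt (chart_source_mem_nhds _ (ι (f w)))
      exact ContMDiffAt.comp w h3 hf
    have h4 : ContDiffAt ℝ ∞ G (chartAt (E m) (ι (f w)) (ι (f w))) :=
      (hG.restrict_scalars ℝ).of_le le_top
    exact ContMDiffAt.comp w h4.contMDiffAt h2
  refine h1.congr_of_eventuallyEq ?_
  filter_upwards [hc.eventually hG2] with x hx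
  simpa using hx

/-- Fibres exist. -/
theorem exists_fib {T : CMfd 3} {B : CMfd 1} (π : T → B) (hπ : Holo 3 1 π) (t : B)
    (ht : ∀ x, π x = t → DC 3 1 π x ≠ 0) : ∃ (Y : CMfd 2) (ι : Y → T), IsFib π t ι := by
  have hcl : IsClosed (π ⁻¹' {t}) := isClosed_singleton.preimage hπ.continuous
  suffices hreg : ∀ x ∈ π ⁻¹' {t}, ∃ g : T → E 1, HoloAt 3 1 g x ∧
      Function.Surjective (DC 3 1 g x) ∧ ∀ᶠ y in 𝓝 x, (y ∈ π ⁻¹' {t} ↔ g y = 0) by
    obtain ⟨Y, ι, h1, h2⟩ := reg_zero (m := 3) (k := 1) (n := 2) rfl T hcl hreg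
    exact ⟨Y, ι, h1, h2⟩
  intro x hx
  have hx' : π x = t := hx
  set ψ := chartAt (E 1) t with hψ
  have hψx : HoloAt 1 1 (ψ : B → E 1) (π x) := by
    rw [hx']
    exact holoAt_chart (n := 1) t
  have hDψ : DC 1 1 (ψ : B → E 1) (π x) = ContinuousLinearMap.id ℂ (E 1) := by
    rw [hx']
    exact DC_chart (n := 1) t
  have hsub : ContMDiff 𝓘(ℂ, E 1) 𝓘(ℂ, E 1) ω (fun w : E 1 => w - ψ t) :=
    (contDiff_id.sub contDiff_const).contMDiff
  have hg0 : HoloAt 3 1 (fun y => ψ (π y)) x := ContMDiffAt.comp x hψx (hπ x)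
  have hg : HoloAt 3 1 (fun y => ψ (π y) - ψ t) x :=
    ContMDiffAt.comp (g := fun w : E 1 => w - ψ t) (f := fun y => ψ (π y)) x
      (hsub.contMDiffAt (x := ψ (π x))) hg0
  refine ⟨fun y => ψ (π y) - ψ t, hg, ?_, ?_⟩
  · have h3 : DC 3 1 (fun y => ψ (π y) - ψ t) x = DC 3 1 π x := by
      have h4 : DC 3 1 (fun y => ψ (π y)) x = (DC 1 1 (ψ : B → E 1) (π x)).comp (DC 3 1 π x) :=
        mfderiv_comp x (hψx.mdifferentiableAt (by simp)) ((hπ x).mdifferentiableAt (by simp))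
      have h5 : DC 3 1 (fun y => ψ (π y) - ψ t) x = (DC 1 1 (fun w : E 1 => w - ψ t)
          (ψ (π x))).comp (DC 3 1 (fun y => ψ (π y)) x) :=
        mfderiv_comp x (hsub.contMDiffAt.mdifferentiableAt (by simp))
          (hg0.mdifferentiableAt (by simp))
      have h6 : DC 1 1 (fun w : E 1 => w - ψ t) (ψ (π x)) = ContinuousLinearMap.id ℂ (E 1) := by
        show mfderiv 𝓘(ℂ, E 1) 𝓘(ℂ, E 1) (fun w : E 1 => w - ψ t) (ψ (π x)) = _
        rw [mfderiv_eq_fderiv, fderiv_sub_const, fderiv_fun_id]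
      rw [h5, h6, h4, hDψ]
      exact ContinuousLinearMap.ext fun u => rfl
    rw [h3]
    have h7 := ht x hx'
    obtain ⟨u, hu⟩ : ∃ u, DC 3 1 π x u ≠ 0 := by
      by_contra hcon
      push Not at hcon
      exact h7 (ContinuousLinearMap.ext hcon)
    have hu0 : DC 3 1 π x u 0 ≠ 0 := by
      intro h0
      apply hu
      funext i
      rw [Subsingleton.elim i 0]
      exact h0
    intro w
    refine ⟨(w 0 / DC 3 1 π x u 0) • u, ?_⟩
    rw [map_smul]
    funext i
    rw [Subsingleton.elim i 0]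
    show w 0 / DC 3 1 π x u 0 * DC 3 1 π x u 0 = w 0
    field_simp
  · have h8 : ∀ᶠ y in 𝓝 x, π y ∈ ψ.source := by
      refine (hπ.continuous.continuousAt (x := x)).eventually_mem (ψ.open_source.mem_nhds ?_)
      rw [hx']
      exact mem_chart_source _ t
    filter_upwards [h8] with y hy
    show π y = t ↔ _
    rw [sub_eq_zero]
    constructor
    · intro h
      rw [h]
    · intro h
      exact ψ.injOn hy (mem_chart_source _ t) h

end Pool.Agent.K708
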