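import Pool.Agent.Lib.K708.FcP
import Pool.Agent.Lib.K708.Fib

/-! # K708, Section C: maps into closed submanifolds (from the model space) -/

set_option autoImplicit false

open scoped Manifold ContDiff Topology NNReal ENNReal
open Set Filter MeasureTheory

noncomputable section

namespace Pool.Agent.K708

/-- C-B1. A map `g` from the model space with `ι ∘ g` holomorphic at `x` (`ι` a closed holomorphic
embedding) is holomorphic at `x`. -/
theorem CEmb.holoAt_model {n m k : ℕ} {M : CMfd n} {N : CMfd m} {ι : M → N}
    (hι : CEmb (n := n) (m := m) ι) {g : E k → M} {x : E k}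
    (hg : HoloAt k m (fun y => ι (g y)) x) : HoloAt k n g x :=
  hι.holoAt_of_comp (W := ⟨E k⟩) hg

end Pool.Agent.K708
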