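import Pool.Agent.Lib.K708.CDefs
import Pool.Agent.Lib.MP_708a61_C.Montel
import Pool.Agent.Lib.MP_708a61_C.Extend

/-! # K708, Section C: limits on a component in an snc chart -/

set_option autoImplicit false

open scoped Manifold ContDiff Topology NNReal ENNReal
open Set Filter MeasureTheory

noncomputable section

namespace Pool.Agent.K708

namespace CGermG

/-- the first of the two other coordinates -/
def oi : Fin 3 → Fin 3 := ![1, 0, 0]

/-- the second of the two other coordinates -/
def oj : Fin 3 → Fin 3 := ![2, 2, 1]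

/-- the product of the coordinates `< k` other than the distinguished one -/
def P (k : ℕ) (w : ℂ × ℂ) : ℂ := if k ≤ 1 then 1 else if k = 2 then w.1 else w.1 * w.2

theorem oi_ne_oj (M : Fin 3) : oi M ≠ oj M := by fin_cases M <;> simp [oi, oj]

theorem ins_self (M : Fin 3) (v : ℂ) (w : ℂ × ℂ) : ins M v w M = v := by
  fin_cases M <;> simp [ins]

theorem ins_oi (M : Fin 3) (v : ℂ) (w : ℂ × ℂ) : ins M v w (oi M) = w.1 := by
  fin_cases M <;> simp [ins, oi]

theorem ins_oj (M : Fin 3) (v : ℂ) (w : ℂ × ℂ) : ins M v w (oj M) = w.2 := by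
  fin_cases M <;> simp [ins, oj]

theorem forall_coord (M : Fin 3) {p : Fin 3 → Prop} (h0 : p M) (h1 : p (oi M)) (h2 : p (oj M)) :
    ∀ i, p i := by
  intro i
  fin_cases M <;> fin_cases i <;> simp_all [oi, oj]

theorem ins_proj (M : Fin 3) (z : E 3) : ins M (z M) (z (oi M), z (oj M)) = z := by
  funext i
  revert i
  refine forall_coord M ?_ ?_ ?_
  · rw [ins_self]
  · rw [ins_oi]
  · rw [ins_oj]

theorem pr_ins {k : ℕ} (hk : k ≤ 3) (m : Fin k) (v : ℂ) (w : ℂ × ℂ) :
    pr hk (ins (Fin.castLE hk m) v w) = v * P k w := by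
  have h3 : k = 0 ∨ k = 1 ∨ k = 2 ∨ k = 3 := by omega
  rcases h3 with rfl | rfl | rfl | rfl
  · exact m.elim0
  · fin_cases m
    simp [pr, ins, P]
  · fin_cases m <;> simp [pr, ins, P, Fin.prod_univ_succ, mul_comm]
  · fin_cases m <;> simp [pr, ins, P, Fin.prod_univ_succ] <;> ring

end CGermG

open CGermG

/-- C-G0. The level sets accumulate at the points with exactly one zero among the first `k`
coordinates. -/
theorem level_acc (u : Ultrafilter ℕ) {k : ℕ} (hk : k ≤ 3) {s : ℕ → ℂ}
    (hs : Tendsto s (u : Filter ℕ) (𝓝 0)) (m : Fin k) {z : E 3}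
    (hz : z (Fin.castLE hk m) = 0) (hz' : ∀ l : Fin k, l ≠ m → z (Fin.castLE hk l) ≠ 0) :
    ∀ W ∈ 𝓝 z, ∀ᶠ n in (u : Filter ℕ), ∃ w ∈ W, pr hk w = s n := by
  intro W hW
  set M := Fin.castLE hk m with hM
  set Q : ℂ := ∏ l ∈ Finset.univ.erase m, z (Fin.castLE hk l) with hQ
  have hQ0 : Q ≠ 0 := Finset.prod_ne_zero_iff.2 fun l hl => hz' l (Finset.ne_of_mem_erase hl)
  have hprod : ∀ v : ℂ, pr hk (Function.update z M v) = v * Q := by
    intro v
    rw [pr, ← Finset.mul_prod_erase _ _ (Finset.mem_univ m), ← hM, Function.update_self, hQ]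
    congr 1
    refine Finset.prod_congr rfl fun l hl => ?_
    rw [Function.update_of_ne]
    intro h
    exact Finset.ne_of_mem_erase hl (Fin.castLE_injective hk h)
  have hlim : Tendsto (fun n => Function.update z M (s n / Q)) (u : Filter ℕ) (𝓝 z) := by
    have h1 : Tendsto (fun n => s n / Q) (u : Filter ℕ) (𝓝 (z M)) := by
      rw [hz]
      simpa using hs.div_const Q
    have h2 := (tendsto_const_nhds (x := z) (f := (u : Filter ℕ))).update M h1
    rwa [Function.update_eq_self] at h2
  filter_upwards [hlim hW] with n hn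
  refine ⟨_, hn, ?_⟩
  rw [hprod, div_mul_cancel₀ _ hQ0]

/-- C-G. The limit on a component in an snc chart: outside the other components it is given by a
holomorphic function which extends to the whole ball. (`limit_hol`, `extend_one`, `extend_two`.) -/
theorem germ (u : Ultrafilter ℕ) {k : ℕ} (hk : k ≤ 3) {r : ℝ} (hr : 0 < r) {C : ℝ≥0}
    {s : ℕ → ℂ} (hs : Tendsto s (u : Filter ℕ) (𝓝 0)) (hs0 : ∀ n, s n ≠ 0)
    {f : ℕ → E 3 → Tor} (hf : BoxProp hk r C s f) (m : Fin k) :
    ∃ G : E 3 → ℂ, DifferentiableOn ℂ G (Metric.ball 0 r) ∧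
      ∀ z ∈ Metric.ball (0 : E 3) r, z (Fin.castLE hk m) = 0 →
        (∀ l : Fin k, l ≠ m → z (Fin.castLE hk l) ≠ 0) →
        K708C.LimAt u (pr hk) s f z (tau.q (G z)) := by
  set M := Fin.castLE hk m with hM
  have hPc : Continuous (P k) := by
    unfold P
    split_ifs
    · exact continuous_const
    · exact continuous_fst
    · exact continuous_fst.mul continuous_snd
  have hPd : Differentiable ℂ (P k) := by
    unfold P
    split_ifs
    · exact differentiable_const _
    · exact differentiable_fst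
    · exact differentiable_fst.mul differentiable_snd
  obtain ⟨Un, hUn⟩ : ∃ Un : ℕ → Set (ℂ × ℂ), Un = fun n =>
      {w | (‖w.1‖ < r ∧ ‖w.2‖ < r) ∧ ‖s n‖ < r * ‖P k w‖} := ⟨_, rfl⟩
  have hUo : ∀ n, IsOpen (Un n) := by
    intro n
    rw [hUn]
    refine IsOpen.inter (IsOpen.inter ?_ ?_) ?_
    · exact isOpen_lt (continuous_fst.norm) continuous_const
    · exact isOpen_lt (continuous_snd.norm) continuous_const
    · exact isOpen_lt continuous_const (continuous_const.mul hPc.norm)
  have hPne : ∀ n, ∀ w ∈ Un n, P k w ≠ 0 := by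
    intro n w hw h
    rw [hUn] at hw
    have h1 := hw.2
    rw [h, norm_zero, mul_zero] at h1
    exact absurd h1 (not_lt.2 (norm_nonneg _))
  obtain ⟨γ, hγ⟩ : ∃ γ : ℕ → ℂ × ℂ → E 3, γ = fun n w => ins M (s n / P k w) w := ⟨_, rfl⟩
  have hγ' : ∀ n w, γ n w = ins M (s n / P k w) w := by
    intro n w
    rw [hγ]
  have hbox : ∀ n, ∃ a, K708C.HolOn tau (fun w => f n (γ n w)) a (Un n) ∧
      ∫⁻ w in Un n, ‖a w‖ₑ ^ 2 ≤ C := by
    intro n
    refine hf n (oi M) (oj M) (oi_ne_oj M) (Un n) (hUo n) (γ n) ?_ ?_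
    · rw [hγ, differentiableOn_pi]
      refine forall_coord M ?_ ?_ ?_
      · simp only [ins_self]
        simp only [div_eq_mul_inv]
        exact (differentiableOn_const _).mul (hPd.differentiableOn.inv (hPne n))
      · simp only [ins_oi]
        exact differentiableOn_fst
      · simp only [ins_oj]
        exact differentiableOn_snd
    · intro w hw
      have hP0 := hPne n w hw
      have hw' := hw
      rw [hUn] at hw'
      refine ⟨?_, ?_, ?_, ?_⟩
      · rw [mem_ball_zero_iff, pi_norm_lt_iff hr, hγ']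
        refine forall_coord M ?_ ?_ ?_
        · rw [ins_self, norm_div, div_lt_iff₀ (norm_pos_iff.2 hP0)]
          exact hw'.2
        · rw [ins_oi]
          exact hw'.1.1
        · rw [ins_oj]
          exact hw'.1.2
      · rw [hγ', ins_oi]
      · rw [hγ', ins_oj]
      · rw [hγ', hM, pr_ins, div_mul_cancel₀ _ hP0]
  choose a ha1 ha2 using hbox
  obtain ⟨U, hU⟩ : ∃ U : Set (ℂ × ℂ), U = K708C.bidisc r ∩ {w | P k w ≠ 0} := ⟨_, rfl⟩
  have hbo : IsOpen (K708C.bidisc r) := by
    refine IsOpen.inter ?_ ?_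
    · exact isOpen_lt (continuous_fst.norm) continuous_const
    · exact isOpen_lt (continuous_snd.norm) continuous_const
  have hUo' : IsOpen U := by
    rw [hU]
    exact hbo.inter (isOpen_ne_fun hPc continuous_const)
  have hex : ∀ K ⊆ U, IsCompact K → ∀ᶠ n in (u : Filter ℕ), K ⊆ Un n := by
    intro K hK hKc
    rcases K.eq_empty_or_nonempty with rfl | hKne
    · exact Eventually.of_forall fun n => empty_subset _
    · obtain ⟨w0, hw0, hmin⟩ := hKc.exists_isMinOn hKne hPc.norm.continuousOn
      have hpos : 0 < r * ‖P k w0‖ := by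
        have h1 := hK hw0
        rw [hU] at h1
        exact mul_pos hr (norm_pos_iff.2 h1.2)
      have h2 : ∀ᶠ n in (u : Filter ℕ), ‖s n‖ < r * ‖P k w0‖ := by
        have h3 := hs.norm
        rw [norm_zero] at h3
        exact h3.eventually (gt_mem_nhds hpos)
      filter_upwards [h2] with n hn w hw
      rw [hUn]
      have h1 := hK hw
      rw [hU] at h1
      exact ⟨h1.1, hn.trans_le (mul_le_mul_of_nonneg_left (hmin hw) hr.le)⟩
  obtain ⟨F', a', hF', hlim, hfin⟩ := K708C.limit_hol tau u hUo' Un hUo hex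
    (fun n w => f n (γ n w)) a ha1 C ha2
  have hfin' : ∫⁻ z in U, ‖a' z‖ₑ ^ 2 < ⊤ := hfin.trans_lt ENNReal.coe_lt_top
  have hext : ∃ G2 : ℂ × ℂ → ℂ, DifferentiableOn ℂ G2 (K708C.bidisc r) ∧
      ∀ w ∈ U, F' w = tau.q (G2 w) := by
    rcases Nat.lt_or_ge 1 k with h1 | h1
    · rcases Nat.lt_or_ge 2 k with h2 | h2
      · have e1 : U = K708C.bidisc r ∩ {z | z.1 ≠ 0 ∧ z.2 ≠ 0} := by
          rw [hU]
          congr 1
          ext w
          simp [P, not_le.2 h1, h2.ne']
        rw [e1] at hF' hfin'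
        obtain ⟨G2, hG1, hG2⟩ := K708C.extend_two tau hr F' a' hF' hfin'
        refine ⟨G2, hG1, fun w hw => ?_⟩
        rw [e1] at hw
        exact hG2 w hw.1 hw.2.1 hw.2.2
      · have h3 : k = 2 := by omega
        have e1 : U = K708C.bidisc r ∩ {z | z.1 ≠ 0} := by
          rw [hU]
          congr 1
          ext w
          simp [P, h3]
        rw [e1] at hF' hfin'
        obtain ⟨G2, hG1, hG2⟩ := K708C.extend_one tau hr F' a' hF' hfin'
        refine ⟨G2, hG1, fun w hw => ?_⟩
        rw [e1] at hw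
        exact hG2 w hw.1 hw.2
    · have e1 : U = K708C.bidisc r := by
        rw [hU]
        ext w
        simp [P, h1]
      have hconv : Convex ℝ U := by
        rw [e1]
        have e2 : K708C.bidisc r = Metric.ball (0 : ℂ × ℂ) r := by
          ext w
          rw [mem_ball_zero_iff, Prod.norm_def, max_lt_iff]
          rfl
        rw [e2]
        exact convex_ball _ _
      have h0 : ((0 : ℂ), (0 : ℂ)) ∈ U := by
        rw [e1]
        exact ⟨by simpa using hr, by simpa using hr⟩
      obtain ⟨g0, hg0⟩ := tau.surj (F' (0, 0))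
      obtain ⟨G2, _, hG2⟩ := hF'.exists_lift tau hUo' hconv h0 hg0
      refine ⟨G2, ?_, fun w hw => (hG2 w hw).1⟩
      intro w hw
      rw [← e1] at hw
      exact (hG2 w hw).2.differentiableAt.differentiableWithinAt
  obtain ⟨G2, hG2, hG2'⟩ := hext
  obtain ⟨p, hp⟩ : ∃ p : E 3 → ℂ × ℂ, p = fun z => (z (oi M), z (oj M)) := ⟨_, rfl⟩
  have hpd : Differentiable ℂ p := by
    rw [hp]
    exact (differentiable_apply _).prodMk (differentiable_apply _)
  have hpm : ∀ z ∈ Metric.ball (0 : E 3) r, p z ∈ K708C.bidisc r := by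
    intro z hz
    rw [mem_ball_zero_iff, pi_norm_lt_iff hr] at hz
    rw [hp]
    exact ⟨hz _, hz _⟩
  have hkey : ∀ z : E 3, pr hk z = z M * P k (p z) := by
    intro z
    conv_lhs => rw [← ins_proj M z]
    rw [hM, pr_ins, hp, hM]
  refine ⟨fun z => G2 (p z), hG2.comp hpd.differentiableOn hpm, fun z hz hzM hzl => ?_⟩
  have hPz : P k (p z) ≠ 0 := by
    have h1 : pr hk (Function.update z M 1) = P k (p z) := by
      rw [hkey, Function.update_self, one_mul]
      congr 1
      rw [hp]
      have h2 : oi M ≠ M := by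
        generalize M = M'
        fin_cases M' <;> simp [oi]
      have h3 : oj M ≠ M := by
        generalize M = M'
        fin_cases M' <;> simp [oj]
      simp [Function.update_of_ne h2, Function.update_of_ne h3]
    rw [← h1, pr, Finset.prod_ne_zero_iff]
    intro l _
    by_cases hl : l = m
    · rw [hl, ← hM, Function.update_self]
      exact one_ne_zero
    · rw [Function.update_of_ne]
      · exact hzl l hl
      · intro h
        exact hl (Fin.castLE_injective hk h)
  have hzU : p z ∈ U := by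
    rw [hU]
    exact ⟨hpm z hz, hPz⟩
  intro O hO
  rw [← hG2' _ hzU] at hO
  have h1 := hlim _ hzU hO
  rw [Filter.mem_map, Filter.mem_prod_iff] at h1
  obtain ⟨A, hA, V, hV, hAV⟩ := h1
  refine ⟨p ⁻¹' V, hpd.continuous.continuousAt hV, ?_⟩
  filter_upwards [hA] with n hn w hw hwn
  have h2 : f n (γ n (p w)) ∈ O := hAV (Set.mk_mem_prod hn hw)
  have h3 : γ n (p w) = w := by
    rw [hkey] at hwn
    have h4 : P k (p w) ≠ 0 := by
      intro h
      rw [h, mul_zero] at hwn
      exact hs0 n hwn.symm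
    rw [hγ]
    show ins M (s n / P k (p w)) (p w) = w
    rw [← hwn, mul_div_cancel_right₀ _ h4, hp]
    exact ins_proj M w
  rw [h3] at h2
  exact h2

end Pool.Agent.K708
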