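import Pool.Agent.Lib.K708.Mfd

/-! # K708: surfaces, birational equivalence, snc degenerations -/

set_option autoImplicit false

open scoped Manifold ContDiff Topology
open Set

noncomputable section

namespace Pool.Agent.K708

/-- Complex projective space (as a type of lines). -/
abbrev PN (N : ℕ) := Projectivization ℂ (E (N + 1))

section Proj

variable {n : ℕ} {M : Type*} [TopologicalSpace M] [ChartedSpace (E n) M] {N : ℕ}

variable (n) in
/-- `F` is a holomorphic nowhere zero lift of `j : M → ℙᴺ` near `x`. -/
def IsLift (j : M → PN N) (F : M → E (N + 1)) (x : M) : Prop :=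
  HoloAt n (N + 1) F x ∧
    ∀ᶠ y in 𝓝 x, ∃ h : F y ≠ 0, j y = Projectivization.mk ℂ (F y) h

variable (n) in
/-- Holomorphic maps to projective space. -/
def HoloP (j : M → PN N) : Prop := ∀ x, ∃ F, IsLift n j F x

variable (n) in
/-- The kernel of the derivative of `j : M → ℙᴺ` at `x`: tangent vectors `v` such that `dF(v)` is
proportional to `F(x)` for a lift `F`. -/
def KerP (j : M → PN N) (x : M) : Set (E n) :=
  {v | ∃ F, IsLift n j F x ∧ ∃ c : ℂ, DC n (N + 1) F x v = c • F x}

end Proj

/-- Smooth projective irreducible surface: compact connected complex manifold of dimension two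
with a holomorphic embedding in a projective space. -/
structure IsSurface (X : CMfd 2) : Prop where
  cpt : CompactSpace X
  conn : ConnectedSpace X
  proj : ∃ (N : ℕ) (j : X → PN N), HoloP 2 j ∧ Function.Injective j ∧
    ∀ x, ∀ v ∈ KerP 2 j x, v = 0

/-- `g : Z → Y` is a birational morphism: a holomorphic map which is biholomorphic over the
complement of a finite set of points of `Y`. -/
def Modif {Z Y : CMfd 2} (g : Z → Y) : Prop :=
  Holo 2 2 g ∧ ∃ (S : Set Y) (h : Y → Z), S.Finite ∧ (∀ y ∉ S, g (h y) = y) ∧
    (∀ z, g z ∉ S → h (g z) = z) ∧ ∀ y ∉ S, HoloAt 2 2 h y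

/-- Birational equivalence of smooth projective surfaces: the equivalence relation generated by
the birational morphisms (every birational map between smooth projective surfaces is dominated by
blow-ups of both, so this is the usual birational equivalence). -/
def Birational : CMfd 2 → CMfd 2 → Prop :=
  Relation.EqvGen fun Z Y => IsSurface Z ∧ IsSurface Y ∧ ∃ g : Z → Y, Modif g

/-- `Q` is biholomorphic to the projective plane. -/
def IsP2 (Q : CMfd 2) : Prop :=
  CompactSpace Q ∧ ∃ j : Q → PN 2, HoloP 2 j ∧ Function.Bijective j ∧ ∀ x, ∀ v ∈ KerP 2 j x, v = 0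

/-- Rational surfaces: smooth projective surfaces birational to the projective plane. -/
def IsRational (R : CMfd 2) : Prop := ∃ Q : CMfd 2, IsP2 Q ∧ Birational R Q

/-- An snc degeneration of the surface `X` all of whose components are rational: a proper
holomorphic map `π : T → B` from a complex 3-manifold to a connected Riemann surface, with a
relative embedding in `ℙᴺ × B` (so `π` is projective), submersive off `π⁻¹(o)`, with a fibre over
some `b ≠ o` isomorphic to `X`; the central fibre `π⁻¹(o)` is a reduced simple normal crossings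
divisor with components `S i`, each of which is a rational surface.  (Flatness is automatic.  The
base may be a disc or a smooth pointed curve.) -/
structure RatDegen (X : CMfd 2) where
  /-- the base: a connected Riemann surface -/
  B : CMfd 1
  connB : ConnectedSpace B
  /-- the point `0` -/
  o : B
  /-- the (smooth) total space -/
  T : CMfd 3
  /-- the projection -/
  π : T → B
  holo : Holo 3 1 π
  proper : IsProperMap π
  /-- relative projective embedding `T → ℙᴺ × B` -/
  N : ℕ
  j : T → PN N
  holoj : HoloP 3 j
  injj : ∀ x y, j x = j y → π x = π y → x = y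
  immj : ∀ x, ∀ v ∈ KerP 3 j x, DC 3 1 π x v = 0 → v = 0
  /-- the fibres over `t ≠ 0` are smooth -/
  smooth : ∀ x, π x ≠ o → DC 3 1 π x ≠ 0
  /-- some fibre over `b ≠ 0` is isomorphic to `X` -/
  b : B
  hb : b ≠ o
  g : X → T
  gemb : CEmb (n := 2) (m := 3) g
  grange : range g = π ⁻¹' {b}
  /-- the irreducible components of the central fibre -/
  ι : Type
  fin : Finite ι
  S : ι → Set T
  closed : ∀ i, IsClosed (S i)
  irred : ∀ i, IsConnected (S i)
  union : ⋃ i, S i = π ⁻¹' {o}
  /-- simple normal crossings: near every point of the central fibre there are holomorphic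
  coordinates `(z₁, z₂, z₃)` of `T` and `s` of `B` such that `s ∘ π = z₁ ⋯ z_k`, the components
  through the point are exactly `z₁ = 0, ..., z_k = 0`, each once -/
  snc : ∀ x, π x = o → ∃ φ ∈ IsManifold.maximalAtlas 𝓘(ℂ, E 3) ω T,
    ∃ ψ ∈ IsManifold.maximalAtlas 𝓘(ℂ, E 1) ω B, ∃ (k : ℕ) (_ : 1 ≤ k) (hk : k ≤ 3)
      (c : Fin k → ι), x ∈ φ.source ∧ φ x = 0 ∧ o ∈ ψ.source ∧ ψ o = 0 ∧
      Function.Injective c ∧
      (∀ i : Fin k, ∀ y ∈ φ.source, y ∈ S (c i) ↔ φ y (Fin.castLE hk i) = 0) ∧
      (∀ i, i ∉ range c → Disjoint (S i) φ.source) ∧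
      ∀ y ∈ φ.source, π y ∈ ψ.source ∧ ψ (π y) 0 = ∏ i : Fin k, φ y (Fin.castLE hk i)
  /-- every component is a rational surface -/
  rational : ∀ i, ∃ R : CMfd 2, IsRational R ∧ ∃ h : R → T, CEmb (n := 2) (m := 3) h ∧
    range h = S i

/-- The negative answer: some surface `X` has no birational model with an snc degeneration to a
union of rational surfaces. -/
def NegativeAnswer : Prop :=
  ∃ X : CMfd 2, IsSurface X ∧ ∀ X' : CMfd 2, Birational X X' → IsEmpty (RatDegen X')

end Pool.Agent.K708
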