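import Pool.Agent.Lib.K708.FcP
import Pool.Agent.Lib.K708.Defs

/-! # K708: homogeneous coordinates on the projective plane -/

set_option autoImplicit false

open scoped Manifold ContDiff Topology
open Set Filter

noncomputable section

namespace Pool.Agent.K708

namespace PPar

/-- a holomorphic map between model spaces -/
theorem holoAt_model {n m : ℕ} {f : E n → E m} {z : E n} (h : ContDiffAt ℂ ω f z) :
    HoloAt n m f z := h.contMDiffAt

theorem DC_eq {n m : ℕ} {M : Type*} [TopologicalSpace M] [ChartedSpace (E n) M]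
    [IsManifold 𝓘(ℂ, E n) ω M] {F : M → E m} {x : M} (hF : HoloAt n m F x) :
    DC n m F x = fderiv ℂ (F ∘ (chartAt (E n) x).symm) (chartAt (E n) x x) := by
  have h1 : MDifferentiableAt 𝓘(ℂ, E n) 𝓘(ℂ, E m) F x := hF.mdifferentiableAt (by simp)
  show mfderiv 𝓘(ℂ, E n) 𝓘(ℂ, E m) F x = _
  rw [h1.mfderiv]
  simp only [mfld_simps, fderivWithin_univ] <;> rfl

/-- The map `w ↦ (c, z)` with `w = c J z`, `J` a lift of the embedding in a chart. -/
theorem local_par {Q : CMfd 2} {j : Q → PN 2} (hj : HoloP 2 j)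
    (hker : ∀ x, ∀ v ∈ KerP 2 j x, v = 0) (x : Q) {v : E 3} (hv : v ≠ 0)
    (hjv : j x = Projectivization.mk ℂ v hv) :
    ∃ q : E 3 → E 2, ContDiffAt ℂ ω q v ∧ q v = chartAt (E 2) x x ∧
      (∀ u, ∃ w, fderiv ℂ q v w = u) ∧
      ∀ᶠ w in 𝓝 v, ∃ hw : w ≠ 0, q w ∈ (chartAt (E 2) x).target ∧
        j ((chartAt (E 2) x).symm (q w)) = Projectivization.mk ℂ w hw := by
  obtain ⟨F, hF, hFj⟩ := hj x
  set φ := chartAt (E 2) x with hφ
  set z0 := φ x with hz0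
  have hxs : x ∈ φ.source := mem_chart_source _ x
  have hz0t : z0 ∈ φ.target := φ.map_source hxs
  have hsym : φ.symm z0 = x := φ.left_inv hxs
  obtain ⟨J, hJdef⟩ : ∃ J : E 2 → E 3, J = F ∘ φ.symm := ⟨_, rfl⟩
  have hJ : ContDiffAt ℂ ω J z0 := by
    have hch : chartAt (E 3) (F x) = OpenPartialHomeomorph.refl (E 3) := chartAt_self_eq
    have h1 := HoloAt.analyticAt_loc (n := 2) (m := 3) (N := E 3) (f := F) (φ := φ)
      (ψ := chartAt (E 3) (F x)) (chartAt_mem_CA x) (chartAt_mem_CA _) hz0t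
      (by rw [hch]; trivial) (by rw [hsym]; exact hF)
    rw [hch] at h1
    rw [hJdef]
    exact h1
  have hJz : J z0 = F x := by rw [hJdef, Function.comp_apply, hsym]
  obtain ⟨hFx, hjx⟩ := hFj.self_of_nhds
  -- the scalar
  have hprop : Projectivization.mk ℂ (F x) hFx = Projectivization.mk ℂ v hv := hjx.symm.trans hjv
  obtain ⟨c1, hc1⟩ := (Projectivization.mk_eq_mk_iff' ℂ _ _ hv hFx).1 hprop.symm
  have hc10 : c1 ≠ 0 := by
    rintro rfl
    rw [zero_smul] at hc1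
    exact hv hc1.symm
  obtain ⟨J', hJ'⟩ : ∃ J' : E 2 →L[ℂ] E 3, J' = fderiv ℂ J z0 := ⟨_, rfl⟩
  have hJ'd : HasFDerivAt J J' z0 := by
    rw [hJ']
    exact (hJ.differentiableAt (by simp)).hasFDerivAt
  have hinj : ∀ u, ∀ c : ℂ, J' u = c • F x → u = 0 := by
    intro u c h
    refine hker x u ⟨F, ⟨hF, hFj⟩, c, ?_⟩
    rw [DC_eq hF, ← h, hJ', hJdef]
  -- the map
  obtain ⟨Ψ, hΨ⟩ : ∃ Ψ : ℂ × E 2 → E 3, Ψ = fun q => q.1 • J q.2 := ⟨_, rfl⟩
  have hΨc : ContDiffAt ℂ ω Ψ (c1, z0) := by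
    rw [hΨ]
    exact contDiffAt_fst.smul (ContDiffAt.comp (g := J) (f := Prod.snd) (c1, z0) hJ contDiffAt_snd)
  have hΨv : Ψ (c1, z0) = v := by
    rw [hΨ]
    show c1 • J z0 = v
    rw [hJz, hc1]
  obtain ⟨L0, hL0⟩ : ∃ L0 : ℂ × E 2 →L[ℂ] E 3, L0 = fderiv ℂ Ψ (c1, z0) := ⟨_, rfl⟩
  have hL0d : HasFDerivAt Ψ L0 (c1, z0) := by
    rw [hL0]
    exact (hΨc.differentiableAt (by simp)).hasFDerivAt
  have hL0a : ∀ q : ℂ × E 2, L0 q = c1 • J' q.2 + q.1 • F x := by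
    intro q
    have h1 : HasFDerivAt Ψ (c1 • (J'.comp (ContinuousLinearMap.snd ℂ ℂ (E 2))) +
        (ContinuousLinearMap.fst ℂ ℂ (E 2)).smulRight (J z0)) (c1, z0) := by
      rw [hΨ]
      exact HasFDerivAt.smul (hasFDerivAt_fst (𝕜 := ℂ) (p := (c1, z0)))
        (HasFDerivAt.comp (c1, z0) (g := J) (f := Prod.snd) hJ'd hasFDerivAt_snd)
    rw [hL0d.unique h1]
    simp [hJz]
  have hL0i : Function.Injective L0 := by
    rw [injective_iff_map_eq_zero]
    intro q hq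
    rw [hL0a] at hq
    have h1 : J' q.2 = (-(q.1 / c1)) • F x := by
      have h2 : c1 • J' q.2 = -(q.1 • F x) := eq_neg_of_add_eq_zero_left hq
      have h3 : J' q.2 = c1⁻¹ • (c1 • J' q.2) := by
        rw [smul_smul, inv_mul_cancel₀ hc10, one_smul]
      rw [h3, h2, smul_neg, smul_smul, neg_smul, div_eq_inv_mul]
    have h2 := hinj _ _ h1
    rw [h2, map_zero, smul_zero, zero_add, smul_eq_zero] at hq
    exact Prod.ext (hq.resolve_right hFx) h2
  have hL0s : Function.Surjective L0 := by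
    have h1 : Module.finrank ℂ (ℂ × E 2) = Module.finrank ℂ (E 3) := by simp
    exact (LinearMap.injective_iff_surjective_of_finrank_eq_finrank (f := L0.toLinearMap) h1).1
      hL0i
  obtain ⟨L, hL⟩ : ∃ L : (ℂ × E 2) ≃L[ℂ] E 3, (L : ℂ × E 2 →L[ℂ] E 3) = L0 :=
    ⟨ContinuousLinearEquiv.ofBijective L0 (LinearMap.ker_eq_bot.2 hL0i)
      (LinearMap.range_eq_top.2 hL0s), by
        ext <;> rfl⟩
  rw [← hL] at hL0d
  have hω : (ω : WithTop ℕ∞) ≠ 0 := by simp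
  obtain ⟨h, hh⟩ : ∃ h : E 3 → ℂ × E 2, h = hΨc.localInverse hL0d hω := ⟨_, rfl⟩
  have hh1 : ContDiffAt ℂ ω h v := by
    rw [hh, ← hΨv]
    exact hΨc.to_localInverse hL0d hω
  have hh2 : h v = (c1, z0) := by
    rw [hh]
    conv_lhs => rw [← hΨv]
    exact hΨc.localInverse_apply_image hL0d hω
  have hh3 : ∀ᶠ w in 𝓝 v, Ψ (h w) = w := by
    rw [hh]
    have := (hΨc.hasStrictFDerivAt' hL0d hω).eventually_right_inverse
    rwa [hΨv] at this
  have hh4 : HasFDerivAt h (L.symm : E 3 →L[ℂ] ℂ × E 2) v := by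
    have := (hΨc.hasStrictFDerivAt' hL0d hω).to_localInverse.hasFDerivAt
    rw [hΨv] at this
    rw [hh]
    exact this
  refine ⟨fun w => (h w).2, contDiffAt_snd.comp v hh1, congrArg Prod.snd hh2, ?_, ?_⟩
  · intro u
    refine ⟨L (0, u), ?_⟩
    have h1 : HasFDerivAt (fun w => (h w).2) ((ContinuousLinearMap.snd ℂ ℂ (E 2)).comp
        (L.symm : E 3 →L[ℂ] ℂ × E 2)) v := hh4.snd
    rw [h1.fderiv]
    simp
  · have hc : Tendsto (fun w => (h w).2) (𝓝 v) (𝓝 z0) := by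
      have h1 := (hh1.continuousAt.snd : ContinuousAt (fun w => (h w).2) v)
      have h2 := h1.tendsto
      rwa [hh2] at h2
    have h1 : ∀ᶠ z in 𝓝 z0, z ∈ φ.target ∧ ∃ hz : J z ≠ 0,
        j (φ.symm z) = Projectivization.mk ℂ (J z) hz := by
      have h2 : ∀ᶠ z in 𝓝 z0, z ∈ φ.target := φ.open_target.mem_nhds hz0t
      have h3 : Tendsto φ.symm (𝓝 z0) (𝓝 x) := by
        have := (φ.continuousAt_symm hz0t).tendsto
        rwa [hsym] at this
      filter_upwards [h2, h3.eventually hFj] with z h4 h5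
      rw [hJdef]
      exact ⟨h4, h5⟩
    filter_upwards [hc.eventually h1, hh3, isOpen_ne.mem_nhds hv] with w h2 h3 h4
    obtain ⟨h5, h6, h7⟩ := h2
    refine ⟨h4, h5, ?_⟩
    rw [h7, Projectivization.mk_eq_mk_iff']
    have h8 : (h w).1 • J (h w).2 = w := by
      rw [hΨ] at h3
      exact h3
    have h9 : (h w).1 ≠ 0 := by
      intro h0
      rw [h0, zero_smul] at h8
      exact h4 h8.symm
    refine ⟨(h w).1⁻¹, ?_⟩
    have h10 : (h w).1⁻¹ • w = (h w).1⁻¹ • ((h w).1 • J (h w).2) := by rw [h8]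
    rw [h10, smul_smul, inv_mul_cancel₀ h9, one_smul]

end PPar

/-- Homogeneous coordinates on the projective plane: the quotient map `ℂ³ ∖ 0 → Q` is holomorphic
with surjective derivative. -/
theorem exists_parP {Q : CMfd 2} (hQ : IsP2 Q) : ∃ p : E 3 → Q,
    (∀ v, v ≠ 0 → ∀ c : ℂ, c ≠ 0 → p (c • v) = p v) ∧
    (∀ x, ∃ v, v ≠ 0 ∧ p v = x) ∧
    ∀ v, v ≠ 0 → HoloAt 3 2 p v ∧ ∀ u : E 2, ∃ w : E 3, D 3 2 p v w = u := by
  classical
  obtain ⟨_, j, hj, hbij, hker⟩ := hQ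
  obtain ⟨ji, hji⟩ : ∃ ji : PN 2 → Q, ∀ y, j (ji y) = y := ⟨_, Function.surjInv_eq hbij.2⟩
  obtain ⟨e0, he0⟩ : ∃ e0 : E 3, e0 ≠ 0 := exists_ne 0
  obtain ⟨p, hp⟩ : ∃ p : E 3 → Q, p = fun v => if h : v ≠ 0 then ji (Projectivization.mk ℂ v h)
      else ji (Projectivization.mk ℂ e0 he0) := ⟨_, rfl⟩
  have hp1 : ∀ v (h : v ≠ 0), j (p v) = Projectivization.mk ℂ v h := by
    intro v h
    rw [hp]
    simp only [dif_pos h, hji]
  refine ⟨p, ?_, ?_, ?_⟩
  · intro v hv c hc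
    have hcv : c • v ≠ 0 := smul_ne_zero hc hv
    apply hbij.1
    rw [hp1 _ hcv, hp1 _ hv, Projectivization.mk_eq_mk_iff']
    exact ⟨c, rfl⟩
  · intro x
    refine ⟨(j x).rep, (j x).rep_nonzero, ?_⟩
    apply hbij.1
    rw [hp1 _ (j x).rep_nonzero, Projectivization.mk_rep]
  · intro v hv
    obtain ⟨q, hq1, hq2, hq3, hq4⟩ := PPar.local_par hj hker (p v) hv (hp1 v hv)
    set φ := chartAt (E 2) (p v) with hφ
    have hz0t : φ (p v) ∈ φ.target := φ.map_source (mem_chart_source _ _)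
    have hev : p =ᶠ[𝓝 v] φ.symm ∘ q := by
      filter_upwards [hq4] with w hw
      obtain ⟨h1, h2, h3⟩ := hw
      apply hbij.1
      rw [hp1 _ h1]
      exact h3.symm
    have hq5 : HoloAt 3 2 q v := PPar.holoAt_model hq1
    have hφs : HoloAt 2 2 φ.symm (q v) := by
      rw [hq2]
      exact contMDiffAt_symm_of_mem_maximalAtlas (chartAt_mem_CA _) hz0t
    refine ⟨?_, ?_⟩
    · exact (ContMDiffAt.comp v hφs hq5).congr_of_eventuallyEq hev
    · intro u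
      obtain ⟨w, hw⟩ := hq3 u
      refine ⟨w, ?_⟩
      rw [D_congr hev, D_comp hφs.mdiff hq5.mdiff, hq2, D_chartAt_symm, ContinuousLinearMap.id_comp,
        D_model, ← hw]
      rw [(hq1.differentiableAt (by simp)).fderiv_restrictScalars ℝ]
      rfl

end Pool.Agent.K708
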