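import Pool.Agent.Lib.K708.CDefs
import Pool.Agent.Lib.K708.PPar
import Pool.Agent.Lib.MP_708a61_C.Lines

/-! # K708, Section C: maps from the projective plane to the torus are constant -/

set_option autoImplicit false

open scoped Manifold ContDiff Topology NNReal ENNReal
open Set Filter MeasureTheory

noncomputable section

namespace Pool.Agent.K708

namespace CRatP

/-- Maps which have holomorphic lifts locally are holomorphic, with some derivative. -/
theorem holOn_of_local {E' : Type*} [TopologicalSpace E'] (τ : K708C.Tor E') {V : Type*}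
    [NormedAddCommGroup V] [NormedSpace ℂ V] {F : V → E'} {U : Set V} (hU : IsOpen U)
    (h : ∀ z ∈ U, ∃ G : V → ℂ, ∀ᶠ w in 𝓝 z, F w = τ.q (G w) ∧ DifferentiableAt ℂ G w) :
    ∃ a, K708C.HolOn τ F a U := by
  classical
  choose! G hG using h
  refine ⟨fun w => fderiv ℂ (G w) w, fun z hz => ⟨G z, ?_⟩⟩
  filter_upwards [(hG z hz).eventually_nhds, hU.mem_nhds hz] with w h1 hw
  refine ⟨h1.self_of_nhds.1, ?_⟩
  have h2 := K708C.HolAt.lift_eventuallyEq τ (G := G w) (G' := G z) (z := w)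
    ((hG w hw).mono fun v hv => hv.2.continuousAt) (h1.mono fun v hv => hv.2.continuousAt)
    (((hG w hw).and h1).mono fun v hv => hv.1.1.symm.trans hv.2.1)
  have h3 : fderiv ℂ (G w) w = fderiv ℂ (G z) w := by
    rw [Filter.EventuallyEq.fderiv_eq h2, fderiv_add_const]
  rw [h3]
  exact h1.self_of_nhds.2.hasFDerivAt

end CRatP

/-- C-R6 the projective plane. -/
theorem const_of_isP2 {Q : CMfd 2} (hQ : IsP2 Q) {F : Q → Tor} (hF : HolT 2 F) :
    ∀ x y, F x = F y := by
  obtain ⟨p, hp1, hp2, hp3⟩ := exists_parP hQ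
  have hloc : ∀ z ∈ K708C.coneMinus ∅, ∃ G : E 3 → ℂ, ∀ᶠ w in 𝓝 z,
      (fun v => F (p v)) w = tau.q (G w) ∧ DifferentiableAt ℂ G w := by
    intro v hv
    obtain ⟨hpv, _⟩ := hp3 v hv.1
    obtain ⟨g, hg⟩ := hF (p v)
    refine ⟨g ∘ p, ?_⟩
    have h3 : ∀ᶠ w in 𝓝 v, ContMDiffAt 𝓘(ℂ, E 3) 𝓘(ℂ, E 2) ω p w :=
      (contMDiffAt_iff_contMDiffAt_nhds (by simp)).1 hpv
    filter_upwards [h3, hpv.continuousAt.tendsto.eventually hg] with w h5 h6
    refine ⟨h6.2, ?_⟩
    exact mdifferentiableAt_iff_differentiableAt.1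
      (MDifferentiableAt.comp w h6.1 (h5.mdifferentiableAt (by simp)))
  have hopen : IsOpen (K708C.coneMinus ∅) := by
    have : K708C.coneMinus ∅ = {v | v ≠ 0} := by
      ext v
      simp [K708C.coneMinus]
    rw [this]
    exact isOpen_ne
  obtain ⟨a, ha⟩ := CRatP.holOn_of_local tau hopen hloc
  have key := K708C.plane_const tau ∅ (fun v => F (p v)) a ha (by
    intro v hv c hc
    simp only [hp1 v hv.1 c hc])
  intro x y
  obtain ⟨v, hv, rfl⟩ := hp2 x
  obtain ⟨w, hw, rfl⟩ := hp2 y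
  exact key v ⟨hv, by simp⟩ w ⟨hw, by simp⟩

end Pool.Agent.K708
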