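import Pool.Agent.Lib.K708.CRatA
import Pool.Agent.Lib.K708.CRatP

/-! # K708, Section C: maps from rational surfaces to the torus are constant -/

set_option autoImplicit false

open scoped Manifold ContDiff Topology NNReal ENNReal
open Set Filter MeasureTheory

noncomputable section

namespace Pool.Agent.K708

namespace CRatB

/-- The complement of a finite set in a nonempty surface is not empty. -/
theorem compl_nonempty {Y : CMfd 2} (hY : Nonempty Y) {S : Set Y} (hS : S.Finite) :
    Sᶜ.Nonempty := by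
  by_contra h
  rw [not_nonempty_iff_eq_empty, compl_empty_iff] at h
  rw [h] at hS
  have hfin : Finite Y := finite_univ_iff.mp hS
  obtain ⟨y⟩ := hY
  have h1 : IsOpen ({y} : Set Y) := by
    have : DiscreteTopology Y := inferInstance
    exact isOpen_discrete _
  have h2 : IsOpen (chartAt (E 2) y '' ({y} : Set Y)) :=
    (chartAt (E 2) y).isOpen_image_of_subset_source h1 (by simp)
  rw [image_singleton, isOpen_singleton_iff_punctured_nhds] at h2
  have h3 : NeBot (𝓝[≠] (chartAt (E 2) y y)) := Module.punctured_nhds_neBot ℂ (E 2) _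
  exact h3.ne h2

end CRatB

open CRatB

/-- C-R4 birational morphisms, upwards. -/
theorem const_of_modif {Z Y : CMfd 2} (hZ : IsSurface Z) (hY : IsSurface Y) {g : Z → Y}
    (hg : Modif g) (h : ∀ F : Y → Tor, HolT 2 F → ∀ x y, F x = F y) :
    ∀ F : Z → Tor, HolT 2 F → ∀ x y, F x = F y := by
  intro F hF
  obtain ⟨hgH, S, k, hS, hk1, hk2, hk3⟩ := hg
  obtain ⟨F', hF', hF'2⟩ := HolT.extend (F := fun y => F (k y)) hS
    (fun y hy => (hF (k y)).comp (hk3 y hy))
  have hconst := h F' hF'
  have hYne : Nonempty Y := hY.conn.toNonempty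
  obtain ⟨y0, hy0⟩ := compl_nonempty hYne hS
  have hgc : Continuous g := hgH.continuous
  have hall : ∀ x, F x = F' y0 := by
    refine HolT.eq_const hZ.conn hF (V := g ⁻¹' Sᶜ) (hS.isClosed.isOpen_compl.preimage hgc)
      ⟨k y0, ?_⟩ ?_
    · show g (k y0) ∈ Sᶜ
      rw [hk1 y0 hy0]
      exact hy0
    · intro z hz
      rw [hconst y0 (g z), hF'2 (g z) hz, hk2 z hz]
  intro x y
  rw [hall x, hall y]

/-- C-R5 birational morphisms, downwards. -/
theorem const_of_modif' {Z Y : CMfd 2} (hZ : IsSurface Z) (hY : IsSurface Y) {g : Z → Y}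
    (hg : Modif g) (h : ∀ F : Z → Tor, HolT 2 F → ∀ x y, F x = F y) :
    ∀ F : Y → Tor, HolT 2 F → ∀ x y, F x = F y := by
  intro F hF
  obtain ⟨hgH, S, k, hS, hk1, hk2, hk3⟩ := hg
  have hconst := h (fun z => F (g z)) (fun z => (hF (g z)).comp (hgH z))
  have hYne : Nonempty Y := hY.conn.toNonempty
  obtain ⟨y0, hy0⟩ := compl_nonempty hYne hS
  have hall : ∀ x, F x = F y0 := by
    refine HolT.eq_const hY.conn hF (V := Sᶜ) hS.isClosed.isOpen_compl ⟨y0, hy0⟩ ?_
    intro y hy
    have h1 := hconst (k y) (k y0)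
    rw [hk1 y hy, hk1 y0 hy0] at h1
    exact h1
  intro x y
  rw [hall x, hall y]

/-- C-R7 rational surfaces. -/
theorem rational_const {R : CMfd 2} (hR : IsRational R) {F : R → Tor} (hF : HolT 2 F) :
    ∀ x y, F x = F y := by
  obtain ⟨Q, hQ, hb⟩ := hR
  have key : ∀ A B : CMfd 2, Birational A B →
      ((∀ F : A → Tor, HolT 2 F → ∀ x y, F x = F y) ↔
        (∀ F : B → Tor, HolT 2 F → ∀ x y, F x = F y)) := by
    intro A B hAB
    induction hAB with
    | rel A B h =>
      obtain ⟨hA, hB, g, hg⟩ := h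
      exact ⟨const_of_modif' hA hB hg, const_of_modif hA hB hg⟩
    | refl A => exact Iff.rfl
    | symm A B _ ih => exact ih.symm
    | trans A B C _ _ ih1 ih2 => exact ih1.trans ih2
  exact (key R Q hb).mpr (fun F hF => const_of_isP2 hQ hF) F hF

end Pool.Agent.K708
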