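import Pool.Agent.Lib.K708.CLoc
import Pool.Agent.Lib.K708.CGermG
import Pool.Agent.Lib.K708.CRatB

/-! # K708, Section C: the limit on a component -/

set_option autoImplicit false

open scoped Manifold ContDiff Topology NNReal ENNReal
open Set Filter MeasureTheory

noncomputable section

namespace Pool.Agent.K708

variable {X : CMfd 2} {G : RatDegen X} {u : Ultrafilter ℕ}

namespace CComp

/-- Limits are unique where the level sets accumulate. -/
theorem limAt_unique {P B E' : Type*} [TopologicalSpace P] [TopologicalSpace E'] [T2Space E']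
    {u : Ultrafilter ℕ} {T : P → B} {t : ℕ → B} {f : ℕ → P → E'} {x : P} {e e' : E'}
    (hacc : ∀ W ∈ 𝓝 x, ∀ᶠ n in (u : Filter ℕ), ∃ w ∈ W, T w = t n)
    (h : K708C.LimAt u T t f x e) (h' : K708C.LimAt u T t f x e') : e = e' := by
  by_contra hne
  obtain ⟨O, O', hO, hO', heO, heO', hdis⟩ := t2_separation hne
  obtain ⟨W, hW, hWe⟩ := h O (hO.mem_nhds heO)
  obtain ⟨W', hW', hWe'⟩ := h' O' (hO'.mem_nhds heO')
  have hev := (hacc (W ∩ W') (inter_mem hW hW')).and (hWe.and hWe')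
  obtain ⟨n, ⟨w, hw, hwt⟩, h1, h2⟩ := hev.exists
  exact (Set.disjoint_left.1 hdis (h1 w hw.1 hwt)) (h2 w hw.2 hwt)

theorem pi_eq {i : G.ι} {x : G.T} (hx : x ∈ G.S i) : G.π x = G.o := by
  have h : x ∈ G.π ⁻¹' {G.o} := by
    rw [← G.union]
    exact mem_iUnion.2 ⟨i, hx⟩
  exact h

theorem lim_unique (σ : FSeq G u) {i : G.ι} {x : G.T} (hx : x ∈ G.S i)
    (hx' : ∀ j, j ≠ i → x ∉ G.S j) {e e' : Tor} (h : σ.Lim x e) (h' : σ.Lim x e') : e = e' := by
  obtain ⟨φ, hφ, k, hk, c, r, C, s, f', h1k, hxs, hφx, hc, hS, hdis, hr, hball, hs, hs0, hbox,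
    hlim⟩ := σ.loc x (pi_eq hx)
  have hi : i ∈ range c := by
    by_contra hi
    exact (Set.disjoint_left.1 (hdis i hi) hx) hxs
  obtain ⟨m, rfl⟩ := hi
  refine limAt_unique (level_acc u hk hs m ((hS m x hxs).1 hx) ?_) ((hlim x hxs e).2 h)
    ((hlim x hxs e').2 h')
  intro l hl h0
  exact hx' (c l) (fun h => hl (hc h)) ((hS l x hxs).2 h0)

theorem germ_comp (σ : FSeq G u) {i : G.ι} {R : CMfd 2} {h : R → G.T}
    (hh : CEmb (n := 2) (m := 3) h) (hr : range h = G.S i) (y₀ : R) :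
    ∃ (g : R → ℂ) (N : Set R), IsOpen N ∧ y₀ ∈ N ∧
      (∀ y ∈ N, MDifferentiableAt 𝓘(ℂ, E 2) 𝓘(ℂ, ℂ) g y) ∧
      (∀ y ∈ N, (∀ j, j ≠ i → h y ∉ G.S j) → σ.Lim (h y) (tau.q (g y))) ∧
      y₀ ∈ closure {y | ∀ j, j ≠ i → h y ∉ G.S j} := by
  have hx : h y₀ ∈ G.S i := hr ▸ mem_range_self y₀
  obtain ⟨φ, hφ, k, hk, c, r, C, s, f', h1k, hxs, hφx, hc, hS, hdis, hr0, hball, hs, hs0, hbox,
    hlim⟩ := σ.loc (h y₀) (pi_eq hx)
  have hi : i ∈ range c := by
    by_contra hi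
    exact (Set.disjoint_left.1 (hdis i hi) hx) hxs
  obtain ⟨m, rfl⟩ := hi
  obtain ⟨Γ, hΓ, hΓlim⟩ := germ u hk hr0 hs hs0 hbox m
  have hhc : Continuous h := hh.emb.continuous
  -- the neighbourhood
  have hN0 : IsOpen (φ.source ∩ φ ⁻¹' Metric.ball 0 r) :=
    φ.isOpen_inter_preimage Metric.isOpen_ball
  refine ⟨fun y => Γ (φ (h y)), h ⁻¹' (φ.source ∩ φ ⁻¹' Metric.ball 0 r), hN0.preimage hhc,
    ⟨hxs, ?_⟩, ?_, ?_, ?_⟩
  · show φ (h y₀) ∈ Metric.ball 0 r
    rw [hφx]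
    exact Metric.mem_ball_self hr0
  · rintro y ⟨hy1, hy2⟩
    have h1 : MDifferentiableAt 𝓘(ℂ, E 2) 𝓘(ℂ, E 3) h y :=
      (hh.holo y).mdifferentiableAt (by simp)
    have h2 : MDifferentiableAt 𝓘(ℂ, E 3) 𝓘(ℂ, E 3) φ (h y) :=
      (contMDiffAt_of_mem_maximalAtlas hφ hy1).mdifferentiableAt (by simp)
    have h3 : MDifferentiableAt 𝓘(ℂ, E 3) 𝓘(ℂ, ℂ) Γ (φ (h y)) :=
      (hΓ.differentiableAt (Metric.isOpen_ball.mem_nhds hy2)).mdifferentiableAt
    exact h3.comp y (h2.comp y h1)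
  · rintro y ⟨hy1, hy2⟩ hj
    rw [← hlim (h y) hy1]
    apply hΓlim _ hy2
    · exact (hS m _ hy1).1 (hr ▸ mem_range_self y)
    · intro l hl h0
      exact hj (c l) (fun h => hl (hc h)) ((hS l _ hy1).2 h0)
  · rw [mem_closure_iff_nhds]
    intro W hW
    rw [hh.emb.isInducing.nhds_eq_comap, mem_comap] at hW
    obtain ⟨W', hW', hWW⟩ := hW
    have h0t : (0 : E 3) ∈ φ.target := by rw [← hφx]; exact φ.map_source hxs
    have hsymm : φ.symm 0 = h y₀ := by rw [← hφx]; exact φ.left_inv hxs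
    have hcont : ContinuousAt φ.symm 0 := φ.continuousAt_symm h0t
    have hev1 : ∀ᶠ z in 𝓝 (0 : E 3), φ.symm z ∈ W' := by
      apply hcont
      rw [hsymm]
      exact hW'
    have hev2 : ∀ᶠ z in 𝓝 (0 : E 3), z ∈ Metric.ball (0 : E 3) r :=
      Metric.ball_mem_nhds 0 hr0
    -- the path
    let p : ℂ → E 3 := fun ε l => if l = Fin.castLE hk m then 0 else ε
    have hp : Tendsto p (𝓝[≠] 0) (𝓝 0) := by
      have hpc : Continuous p := by
        apply continuous_pi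
        intro l
        by_cases hl : l = Fin.castLE hk m
        · have he : (fun a => p a l) = fun _ => 0 := by funext a; simp [p, hl]
          rw [he]; exact continuous_const
        · have he : (fun a => p a l) = fun a => a := by funext a; simp [p, hl]
          rw [he]; exact continuous_id
      have hp0 : p 0 = 0 := by
        funext l
        simp [p]
      have := hpc.tendsto 0
      rw [hp0] at this
      exact this.mono_left nhdsWithin_le_nhds
    have hev3 : ∀ᶠ ε in 𝓝[≠] (0 : ℂ), ε ≠ 0 := eventually_mem_nhdsWithin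
    obtain ⟨ε, ⟨hε1, hε2⟩, hε3⟩ := ((hp.eventually (hev1.and hev2)).and hev3).exists
    have htgt : p ε ∈ φ.target := hball hε2
    have hsrc : φ.symm (p ε) ∈ φ.source := φ.map_target htgt
    have hri : φ (φ.symm (p ε)) = p ε := φ.right_inv htgt
    have hmem : φ.symm (p ε) ∈ G.S (c m) := by
      rw [hS m _ hsrc, hri]
      simp [p]
    rw [← hr] at hmem
    obtain ⟨y, hy⟩ := hmem
    refine ⟨y, hWW (by show h y ∈ W'; rw [hy]; exact hε1), ?_⟩
    intro j hj hjm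
    rw [hy] at hjm
    by_cases hjc : j ∈ range c
    · obtain ⟨l, rfl⟩ := hjc
      have hl : l ≠ m := fun h => hj (by rw [h])
      rw [hS l _ hsrc, hri] at hjm
      have hne : Fin.castLE hk l ≠ Fin.castLE hk m := fun h => hl (Fin.castLE_injective hk h)
      simp [p, hne] at hjm
      exact hε3 hjm
    · exact (Set.disjoint_left.1 (hdis j hjc) hjm) hsrc

end CComp

/-- C-Q. The limit is constant on the part of a component outside the other components
(`FSeq.loc`, `level_acc`, `germ`, `rational_const`). -/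
theorem FSeq.comp (σ : FSeq G u) (i : G.ι) :
    ∃ e : Tor, ∀ x ∈ G.S i, (∀ j, j ≠ i → x ∉ G.S j) → σ.Lim x e := by
  obtain ⟨R, hR, h, hh, hr⟩ := G.rational i
  choose g N hNo hNy hdiff hlim hcl using CComp.germ_comp σ hh hr
  have hkey : ∀ y₀, ∀ y ∈ N y₀, tau.q (g y y) = tau.q (g y₀ y) := by
    intro y₀ y hy
    have hA := hcl y
    rw [mem_closure_iff_nhdsWithin_neBot] at hA
    have ht : ∀ y₁, y ∈ N y₁ → Tendsto (fun y' => tau.q (g y₁ y'))
        (𝓝[{y | ∀ j, j ≠ i → h y ∉ G.S j}] y) (𝓝 (tau.q (g y₁ y))) := by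
      intro y₁ hy₁
      have hc : ContinuousAt (g y₁) y := (hdiff y₁ y hy₁).continuousAt
      have hc' : ContinuousAt (fun y' => tau.q (g y₁ y')) y :=
        (K708C.Tor.continuous tau).continuousAt.comp hc
      exact hc'.tendsto.mono_left nhdsWithin_le_nhds
    refine tendsto_nhds_unique_of_eventuallyEq (ht y (hNy y)) (ht y₀ hy) ?_
    have h1 : ∀ᶠ y' in 𝓝[{y | ∀ j, j ≠ i → h y ∉ G.S j}] y, y' ∈ N y :=
      mem_nhdsWithin_of_mem_nhds ((hNo y).mem_nhds (hNy y))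
    have h2 : ∀ᶠ y' in 𝓝[{y | ∀ j, j ≠ i → h y ∉ G.S j}] y, y' ∈ N y₀ :=
      mem_nhdsWithin_of_mem_nhds ((hNo y₀).mem_nhds hy)
    filter_upwards [h1, h2, self_mem_nhdsWithin] with y' hy1 hy2 hy3
    exact CComp.lim_unique σ (hr ▸ mem_range_self y') hy3 (hlim y y' hy1 hy3) (hlim y₀ y' hy2 hy3)
  have hL : HolT 2 (fun y : R => tau.q (g y y)) := by
    intro y₀
    refine ⟨g y₀, ?_⟩
    filter_upwards [(hNo y₀).mem_nhds (hNy y₀)] with y hy
    exact ⟨hdiff y₀ y hy, hkey y₀ y hy⟩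
  have hconst := rational_const hR hL
  obtain ⟨x₀, hx₀⟩ := (G.irred i).nonempty
  rw [← hr] at hx₀
  obtain ⟨y₀, -⟩ := hx₀
  refine ⟨tau.q (g y₀ y₀), ?_⟩
  intro x hx hx'
  rw [← hr] at hx
  obtain ⟨y, rfl⟩ := hx
  rw [hconst y₀ y]
  exact hlim y y (hNy y) hx'

end Pool.Agent.K708
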