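import Pool.Agent.Lib.K708.FcP
import Pool.Agent.Lib.MP_708a61_C.Lift

/-! # K708, Section C (limit): definitions on the manifold level

`tau` is the covering `ℂ → ℂ/ℤ[i]` in the sense of the local files `K708C` (directory
`MP_708a61_C`), `HolT` the holomorphic maps to `ℂ/ℤ[i]`, `BoxProp` the local energy bound. -/

set_option autoImplicit false

open scoped Manifold ContDiff Topology NNReal ENNReal
open Set Filter MeasureTheory

noncomputable section

namespace Pool.Agent.K708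

namespace CDefs

instance gau_discrete : DiscreteTopology Gau := by
  apply DiscreteTopology.of_forall_le_dist (r := 1) one_pos
  intro x y hxy
  show (1 : ℝ) ≤ dist (x : ℂ) (y : ℂ)
  rw [dist_eq_norm]
  have h1 : (x : ℂ) - y ∈ K708C.gaussSet := K708C.gaussSet_sub x.2 y.2
  apply K708C.gaussSet_norm h1
  intro h
  exact hxy (Subtype.ext (sub_eq_zero.mp h))

instance gau_closed : IsClosed (Gau : Set ℂ) := AddSubgroup.isClosed_of_discrete

theorem mem_gau (z : ℂ) : z ∈ Gau ↔ ∃ m n : ℤ, z = (m : ℂ) + (n : ℂ) * Complex.I := Iff.rfl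

end CDefs

/-- `ℂ/ℤ[i]` is Hausdorff. -/
instance tor_t2 : T2Space Tor := inferInstance

theorem tor_eq_iff (z w : ℂ) : (QuotientAddGroup.mk z : Tor) = QuotientAddGroup.mk w ↔
    ∃ m n : ℤ, z - w = (m : ℂ) + (n : ℂ) * Complex.I := by
  rw [QuotientAddGroup.eq, CDefs.mem_gau]
  constructor
  · rintro ⟨m, n, h⟩
    refine ⟨-m, -n, ?_⟩
    push_cast
    linear_combination -h
  · rintro ⟨m, n, h⟩
    refine ⟨-m, -n, ?_⟩
    push_cast
    linear_combination -h

/-- The quotient map is a covering. -/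
theorem tor_cov : IsCoveringMap (fun z : ℂ => (QuotientAddGroup.mk z : Tor)) :=
  (AddSubgroup.isAddQuotientCoveringMap_of_comm Gau ⟨CDefs.gau_discrete⟩).isCoveringMap

/-- `ℂ/ℤ[i]` is compact. -/
instance tor_cpt : CompactSpace Tor := by
  let K : Set ℂ := (fun p : ℝ × ℝ => (p.1 : ℂ) + (p.2 : ℂ) * Complex.I) '' (Icc 0 1 ×ˢ Icc 0 1)
  have hK : IsCompact K := (isCompact_Icc.prod isCompact_Icc).image (by fun_prop)
  have hc : Continuous (fun z : ℂ => (QuotientAddGroup.mk z : Tor)) := tor_cov.continuous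
  have h : (fun z : ℂ => (QuotientAddGroup.mk z : Tor)) '' K = univ := by
    apply eq_univ_of_forall
    intro x
    obtain ⟨z, rfl⟩ := QuotientAddGroup.mk_surjective x
    refine ⟨(Int.fract z.re : ℝ) + (Int.fract z.im : ℝ) * Complex.I, ?_, ?_⟩
    · exact ⟨(Int.fract z.re, Int.fract z.im), ⟨⟨Int.fract_nonneg _, (Int.fract_lt_one _).le⟩,
        ⟨Int.fract_nonneg _, (Int.fract_lt_one _).le⟩⟩, rfl⟩
    · show (QuotientAddGroup.mk _ : Tor) = QuotientAddGroup.mk z
      rw [tor_eq_iff]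
      refine ⟨-⌊z.re⌋, -⌊z.im⌋, ?_⟩
      have h1 : (Int.fract z.re : ℝ) = z.re - ⌊z.re⌋ := rfl
      have h2 : (Int.fract z.im : ℝ) = z.im - ⌊z.im⌋ := rfl
      rw [h1, h2]
      apply Complex.ext
      · simp
      · simp
  exact ⟨by rw [← h]; exact hK.image hc⟩

/-- The covering `ℂ → ℂ/ℤ[i]`. -/
def tau : K708C.Tor Tor where
  q := fun z => QuotientAddGroup.mk z
  cov := tor_cov
  surj := QuotientAddGroup.mk_surjective
  eq_iff := tor_eq_iff

section HolT

variable {M : Type*} [TopologicalSpace M]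

/-- Holomorphic maps to `ℂ/ℤ[i]` (near a point): local lifts are complex differentiable near the
point. -/
def HolTAt (n : ℕ) [ChartedSpace (E n) M] (F : M → Tor) (x : M) : Prop :=
  ∃ g : M → ℂ, ∀ᶠ y in 𝓝 x, MDifferentiableAt 𝓘(ℂ, E n) 𝓘(ℂ, ℂ) g y ∧ F y = tau.q (g y)

/-- Holomorphic maps to `ℂ/ℤ[i]`. -/
def HolT (n : ℕ) [ChartedSpace (E n) M] (F : M → Tor) : Prop := ∀ x, HolTAt n F x

end HolT

/-- The product `z₁ ⋯ z_k` of the first `k` coordinates on `ℂ³`. -/
def pr {k : ℕ} (hk : k ≤ 3) (z : E 3) : ℂ := ∏ i : Fin k, z (Fin.castLE hk i)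

/-- The point of `ℂ³` with `m`-th coordinate `v` and the other coordinates `w.1`, `w.2`. -/
def ins (m : Fin 3) (v : ℂ) (w : ℂ × ℂ) : E 3 :=
  ![![v, w.1, w.2], ![w.1, v, w.2], ![w.1, w.2, v]] m

/-- The energy bound for a family of maps `f n`, defined on the level sets `z₁ ⋯ z_k = s n` in
the ball of radius `r`: for each piece of the level set which is a graph over two of the three
coordinates, the map is holomorphic in these coordinates with energy at most `C`. -/
def BoxProp {k : ℕ} (hk : k ≤ 3) (r : ℝ) (C : ℝ≥0) (s : ℕ → ℂ) (f : ℕ → E 3 → Tor) : Prop :=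
  ∀ n, ∀ i j : Fin 3, i ≠ j → ∀ U : Set (ℂ × ℂ), IsOpen U → ∀ γ : ℂ × ℂ → E 3,
    DifferentiableOn ℂ γ U →
    (∀ w ∈ U, γ w ∈ Metric.ball 0 r ∧ γ w i = w.1 ∧ γ w j = w.2 ∧ pr hk (γ w) = s n) →
    ∃ a, K708C.HolOn tau (fun w => f n (γ w)) a U ∧ ∫⁻ w in U, ‖a w‖ₑ ^ 2 ≤ C

end Pool.Agent.K708
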