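import Pool.Agent.Lib.K708.CDefs
import Pool.Agent.Lib.K708.FcHol

/-! # K708, Section C: maps to the torus on compact surfaces -/

set_option autoImplicit false

open scoped Manifold ContDiff Topology NNReal ENNReal
open Set Filter MeasureTheory

noncomputable section

namespace Pool.Agent.K708

namespace CFinA

/-- a real linear form which commutes with `I` is complex linear -/
def cplx {n : ℕ} (f : E n →L[ℝ] ℂ) (h : ∀ u, f (Complex.I • u) = Complex.I * f u) :
    E n →L[ℂ] ℂ where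
  toFun := f
  map_add' := f.map_add
  map_smul' := fun c u => FcHol.map_smul_of_I f h c u
  cont := f.continuous

/-- a real differentiable function with complex linear derivative is complex differentiable -/
theorem mdiff_complex {n : ℕ} {M : Type*} [TopologicalSpace M] [ChartedSpace (E n) M]
    {g : M → ℂ} {y : M} (hg : MDifferentiableAt 𝓘(ℝ, E n) 𝓘(ℝ, ℂ) g y)
    (h : ∀ u, d0 n g y (Complex.I • u) = Complex.I * d0 n g y u) :
    MDifferentiableAt 𝓘(ℂ, E n) 𝓘(ℂ, ℂ) g y := by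
  have h1 := hg.hasMFDerivAt
  have h2 : HasMFDerivAt 𝓘(ℂ, E n) 𝓘(ℂ, ℂ) g y (cplx (d0 n g y) h) := by
    refine ⟨h1.1, ?_⟩
    have h3 := h1.2
    simp only [mfld_simps] at h3 ⊢
    exact hasFDerivWithinAt_univ.2
      (hasFDerivAt_of_restrictScalars ℝ (hasFDerivWithinAt_univ.1 h3) rfl)
  exact h2.mdifferentiableAt

end CFinA

/-- C-F1. -/
theorem TF.holT {n : ℕ} {Y : CMfd n} {F : Y → Tor} {a : F1 n Y} (hF : TF F a) (ha : H1 a) :
    HolT n F := by
  intro x
  obtain ⟨g, hg, hev⟩ := hF x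
  refine ⟨g, ?_⟩
  filter_upwards [hev, FcHol.eventually_mdiff hg] with y hy hgy
  refine ⟨CFinA.mdiff_complex hgy fun u => ?_, hy.1⟩
  rw [← hy.2]
  exact ha.2 y u

/-- C-F2. -/
theorem TF.eq_zero {n : ℕ} {Y : CMfd n} {F : Y → Tor} {a : F1 n Y} (hF : TF F a)
    (h : ∀ x y, F x = F y) : a = 0 := by
  refine TF.smooth_unique hF fun x => ?_
  obtain ⟨c, hc⟩ := QuotientAddGroup.mk_surjective (F x)
  refine ⟨fun _ => c, contMDiffAt_const, Eventually.of_forall fun y => ⟨?_, ?_⟩⟩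
  · rw [h y x, ← hc]
  · exact (hasMFDerivAt_const c y).mfderiv.symm

/-- C-F3. A holomorphic map from a compact connected surface to a small disc is constant. -/
theorem HolT.const_of_disc {Y : CMfd 2} (hY : CptConn Y) {F : Y → Tor} (hF : HolT 2 F) {c : ℂ}
    {ε : ℝ} (hε : ε ≤ 1 / 4) (h : ∀ y, F y ∈ tau.disc c ε) : ∀ x y, F x = F y := by
  have := hY.cpt
  have := hY.conn
  choose g hg hgF using h
  have hd : MDifferentiable 𝓘(ℂ, E 2) 𝓘(ℂ, ℂ) g := by
    intro x
    obtain ⟨g0, hev⟩ := hF x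
    obtain ⟨hd0, hx0⟩ := hev.self_of_nhds
    have h1 : tau.q (g0 x) = tau.q (g x) := by rw [← hx0, ← hgF x]
    obtain ⟨m, k, hmk⟩ := (tau.eq_iff _ _).1 h1
    set γ : ℂ := (m : ℂ) + (k : ℂ) * Complex.I with hγ
    have hq : ∀ z, tau.q (z - γ) = tau.q z := fun z =>
      (tau.eq_iff _ _).2 ⟨-m, -k, by rw [hγ]; push_cast; ring⟩
    have hd1 : MDifferentiableAt 𝓘(ℂ, E 2) 𝓘(ℂ, ℂ) (fun y => g0 y - γ) x :=
      hd0.sub mdifferentiableAt_const
    have hx1 : g0 x - γ = g x := by rw [← hmk]; ring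
    have hmem : ∀ᶠ y in 𝓝 x, g0 y - γ ∈ Metric.ball c ε := by
      apply hd1.continuousAt.eventually_mem
      rw [hx1]
      exact Metric.isOpen_ball.mem_nhds (hg x)
    refine hd1.congr_of_eventuallyEq ?_
    filter_upwards [hev, hmem] with y hy hy1
    have h2 : tau.q (g y) = tau.q (g0 y - γ) := by rw [hq, hgF y, ← hy.2]
    obtain ⟨m', k', hmk'⟩ := (tau.eq_iff _ _).1 h2
    have h3 : g y - (g0 y - γ) ∈ Gau := ⟨m', k', hmk'⟩
    have h4 : ‖g y - (g0 y - γ)‖ < 1 := by
      have h5 := hg y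
      rw [Metric.mem_ball] at h5 hy1
      have h6 := dist_triangle_right (g y) (g0 y - γ) c
      rw [← dist_eq_norm]
      linarith
    exact sub_eq_zero.1 (FcHol.gau_small h3 h4)
  intro x y
  rw [← hgF x, ← hgF y, hd.apply_eq_of_compactSpace x y]

end Pool.Agent.K708
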