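import Pool.Agent.Lib.K708.CSeq
import Pool.Agent.Lib.K708.CFinA

/-! # K708, Section C: end of the limit argument -/

set_option autoImplicit false

open scoped Manifold ContDiff Topology NNReal ENNReal
open Set Filter MeasureTheory

noncomputable section

namespace Pool.Agent.K708

variable {X : CMfd 2} {G : RatDegen X} {u : Ultrafilter ℕ}

namespace CFinB

theorem tf_continuous {n : ℕ} {Y : CMfd n} {F : Y → Tor} {a : F1 n Y} (hF : TF F a) :
    Continuous F := by
  rw [continuous_iff_continuousAt]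
  intro x
  obtain ⟨g, hg, hev⟩ := hF x
  have h1 : ContinuousAt (fun y => tau.q (g y)) x :=
    (K708C.Tor.continuous tau).continuousAt.comp hg.continuousAt
  refine h1.congr ?_
  filter_upwards [hev] with y hy
  exact hy.1.symm

/-- Small discs around finitely many points are disjoint. -/
theorem exists_eps {ι : Type} [Finite ι] (e : ι → Tor) (c : ι → ℂ) (hc : ∀ i, tau.q (c i) = e i) :
    ∃ ε : ℝ, 0 < ε ∧ ε ≤ 1 / 4 ∧ ∀ i j, e i ≠ e j →
      Disjoint (tau.disc (c i) ε) (tau.disc (c j) ε) := by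
  have key : ∀ i j, ∀ᶠ ε in 𝓝[>] (0 : ℝ), e i ≠ e j →
      Disjoint (tau.disc (c i) ε) (tau.disc (c j) ε) := by
    intro i j
    by_cases hij : e i = e j
    · exact Eventually.of_forall fun ε h => absurd hij h
    obtain ⟨U, V, hU, hV, hiU, hjV, hUV⟩ := t2_separation hij
    obtain ⟨ε₁, hε₁, h1⟩ := K708C.Tor.exists_disc_subset tau (c i) (O := U)
      (hU.mem_nhds (by rw [hc]; exact hiU))
    obtain ⟨ε₂, hε₂, h2⟩ := K708C.Tor.exists_disc_subset tau (c j) (O := V)
      (hV.mem_nhds (by rw [hc]; exact hjV))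
    have h3 : Ioo (0 : ℝ) (min ε₁ ε₂) ∈ 𝓝[>] (0 : ℝ) := Ioo_mem_nhdsGT (lt_min hε₁ hε₂)
    filter_upwards [h3] with ε hε _
    refine hUV.mono ((image_mono (Metric.ball_subset_ball ?_)).trans h1)
      ((image_mono (Metric.ball_subset_ball ?_)).trans h2)
    · exact (hε.2.trans_le (min_le_left _ _)).le
    · exact (hε.2.trans_le (min_le_right _ _)).le
  have h4 : ∀ᶠ ε in 𝓝[>] (0 : ℝ), ∀ i j, e i ≠ e j →
      Disjoint (tau.disc (c i) ε) (tau.disc (c j) ε) :=
    eventually_all.2 fun i => eventually_all.2 fun j => key i j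
  have h5 : Ioo (0 : ℝ) (1 / 4) ∈ 𝓝[>] (0 : ℝ) := Ioo_mem_nhdsGT (by norm_num)
  obtain ⟨ε, h6, h7⟩ := (h4.and h5).exists
  exact ⟨ε, h7.1, h7.2.le, h6⟩

end CFinB

open CFinB

/-- C-F4. -/
theorem FSeq.final (σ : FSeq G u) (e : G.ι → Tor)
    (h : ∀ x, G.π x = G.o → ∃ i, σ.Lim x (e i)) :
    ∀ᶠ n in (u : Filter ℕ), σ.a n = 0 := by
  haveI := G.fin
  -- representatives depending only on the value
  have hsurj : ∀ v : Tor, ∃ z : ℂ, tau.q z = v := tau.surj
  choose b hb using hsurj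
  obtain ⟨ε, hε, hε4, hdisj⟩ := exists_eps e (fun i => b (e i)) (fun i => hb _)
  have hW : ∀ x : G.T, G.π x = G.o → ∃ W : Set G.T, IsOpen W ∧ x ∈ W ∧
      ∀ᶠ n in (u : Filter ℕ), ∀ w ∈ W, G.π w = σ.t n → ∃ i, σ.f n w ∈ tau.disc (b (e i)) ε := by
    intro x hx
    obtain ⟨i, hi⟩ := h x hx
    obtain ⟨W, hW, hWn⟩ := hi (tau.disc (b (e i)) ε) (by
      have := K708C.Tor.disc_mem_nhds tau (b (e i)) hε
      rwa [hb] at this)
    obtain ⟨W', hW', hWo, hxW⟩ := mem_nhds_iff.1 hW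
    refine ⟨W', hWo, hxW, ?_⟩
    filter_upwards [hWn] with n hn w hw hwt
    exact ⟨i, hn w (hW' hw) hwt⟩
  have hcpt : IsCompact (G.π ⁻¹' {G.o}) := G.proper.isCompact_preimage isCompact_singleton
  choose! W hWo hxW hWn using hW
  obtain ⟨s, hs, hcov⟩ := hcpt.elim_nhds_subcover W fun x hx =>
    (hWo x hx).mem_nhds (hxW x hx)
  set V : Set G.T := ⋃ x ∈ s, W x with hV
  have hVo : IsOpen V := isOpen_biUnion fun x hx => hWo x (hs x hx)
  have hcl : IsClosed (G.π '' Vᶜ) := G.proper.isClosedMap _ hVo.isClosed_compl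
  have ho : G.o ∉ G.π '' Vᶜ := by
    rintro ⟨x, hx, hxo⟩
    exact hx (hcov hxo)
  have hev : ∀ᶠ n in (u : Filter ℕ), σ.t n ∉ G.π '' Vᶜ :=
    σ.tends (hcl.isOpen_compl.mem_nhds ho)
  have hall : ∀ᶠ n in (u : Filter ℕ), ∀ x ∈ s, ∀ w ∈ W x, G.π w = σ.t n →
      ∃ i, σ.f n w ∈ tau.disc (b (e i)) ε :=
    (eventually_all_finset s).2 fun x hx => hWn x (hs x hx)
  filter_upwards [hev, hall] with n hn1 hn2
  -- the values on the fibre
  have hval : ∀ y, ∃ i, σ.F n y ∈ tau.disc (b (e i)) ε := by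
    intro y
    have hy : G.π (σ.ι n y) = σ.t n := by
      have : σ.ι n y ∈ range (σ.ι n) := mem_range_self y
      rw [(σ.fib n).range] at this
      exact this
    have hyV : σ.ι n y ∈ V := by
      by_contra hcon
      exact hn1 ⟨_, hcon, hy⟩
    obtain ⟨x, hx, hyx⟩ := mem_iUnion₂.1 hyV
    have := hn2 x hx _ hyx hy
    rwa [σ.hf] at this
  haveI := (σ.conn n).conn
  have hF := tf_continuous (σ.tf n)
  obtain ⟨y₀⟩ : Nonempty (σ.Y n) := inferInstance
  obtain ⟨i₀, hi₀⟩ := hval y₀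
  set A : Set (σ.Y n) := σ.F n ⁻¹' tau.disc (b (e i₀)) ε with hA
  have hAo : IsOpen A := (K708C.Tor.isOpen_disc tau _ _).preimage hF
  have hAc : IsOpen Aᶜ := by
    have : Aᶜ = ⋃ i, ⋃ (_ : e i ≠ e i₀), σ.F n ⁻¹' tau.disc (b (e i)) ε := by
      ext y
      simp only [mem_compl_iff, mem_iUnion, exists_prop]
      constructor
      · intro hy
        obtain ⟨i, hi⟩ := hval y
        refine ⟨i, fun hei => hy ?_, hi⟩
        rw [hA, mem_preimage, ← hei]
        exact hi
      · rintro ⟨i, hei, hi⟩ hy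
        exact (Set.disjoint_left.1 (hdisj i i₀ hei)) hi hy
    rw [this]
    exact isOpen_iUnion fun i => isOpen_iUnion fun _ =>
      (K708C.Tor.isOpen_disc tau _ _).preimage hF
  have huniv : A = univ := IsClopen.eq_univ ⟨isOpen_compl_iff.1 hAc, hAo⟩ ⟨y₀, hi₀⟩
  have hin : ∀ y, σ.F n y ∈ tau.disc (b (e i₀)) ε := fun y => by
    have : y ∈ A := by rw [huniv]; exact mem_univ y
    exact this
  exact (σ.tf n).eq_zero ((HolT.const_of_disc (σ.conn n) ((σ.tf n).holT (σ.h1 n)) hε4 hin))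

/-- C-F5. There is a sequence tending to `o`. -/
theorem exists_seq_o {B : CMfd 1} (o : B) :
    ∃ t : ℕ → B, (∀ n, t n ≠ o) ∧ Tendsto t atTop (𝓝 o) := by
  have h : o ∈ closure ({o}ᶜ : Set B) := by
    by_contra hcon
    have h1 : IsOpen ({o} : Set B) := by
      rw [closure_compl, mem_compl_iff, not_not] at hcon
      have h2 : interior ({o} : Set B) = {o} :=
        Subset.antisymm interior_subset (singleton_subset_iff.2 hcon)
      rw [← h2]
      exact isOpen_interior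
    set φ := chartAt (E 1) o
    have h3 : IsOpen (φ '' {o}) :=
      φ.isOpen_image_of_subset_source h1 (singleton_subset_iff.2 (mem_chart_source (E 1) o))
    rw [image_singleton] at h3
    exact not_isOpen_singleton _ h3
  obtain ⟨t, ht, ht'⟩ := mem_closure_iff_seq_limit.1 h
  exact ⟨t, fun n hn => ht n (by rw [hn]; rfl), ht'⟩

end Pool.Agent.K708
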