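import Pool.Agent.Lib.K708.CComp
import Pool.Agent.Lib.K708.CAll
import Pool.Agent.Lib.K708.CFinB

/-! # K708, Section C: `limit` up to the Kaehler property of the fibres -/

set_option autoImplicit false

open scoped Manifold ContDiff Topology NNReal ENNReal
open Set Filter MeasureTheory

noncomputable section

namespace Pool.Agent.K708

theorem limit' {X : CMfd 2} (G : RatDegen X) (Ω : F2 3 G.T) (hΩ : RelKah G.π Ω) (c : ℝ)
    (Y : G.B → CMfd 2) (ι : ∀ t, Y t → G.T) (hι : ∀ t, t ≠ G.o → IsFib G.π t (ι t))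
    (hY : ∀ t, t ≠ G.o → CptConn (Y t))
    (hkah : ∀ t, t ≠ G.o → Kah (pb2 2 (ι t) Ω))
    (F : ∀ t, Y t → Tor) (a : ∀ t, F1 2 (Y t))
    (hF : ∀ t, t ≠ G.o → TF (F t) (a t) ∧ H1 (a t) ∧
      Int4 (Y t) (pb2 2 (ι t) Ω) (Complex.I • wedge (a t) (cj (a t))) (pb2 2 (ι t) Ω) = c) :
    ∃ t, t ≠ G.o ∧ a t = 0 := by
  classical
  obtain ⟨t, ht0, ht⟩ := exists_seq_o G.o
  have hex : ∀ n, ∃ f : G.T → Tor, ∀ y, f (ι (t n) y) = F (t n) y := fun n => by
    have hinj : Function.Injective (ι (t n)) := (hι (t n) (ht0 n)).emb.emb.injective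
    exact ⟨Function.extend (ι (t n)) (F (t n)) (fun _ => 0), fun y => hinj.extend_apply _ _ y⟩
  choose f hf using hex
  let σ : FSeq G (Filter.hyperfilter ℕ) :=
    { t := t, t0 := ht0
      tends := ht.mono_left (Nat.hyperfilter_le_atTop)
      Ω := Ω, hΩ := hΩ, c := c
      Y := fun n => Y (t n), ι := fun n => ι (t n)
      fib := fun n => hι _ (ht0 n), conn := fun n => hY _ (ht0 n), kah := fun n => hkah _ (ht0 n)
      F := fun n => F (t n), a := fun n => a (t n)
      tf := fun n => (hF _ (ht0 n)).1, h1 := fun n => (hF _ (ht0 n)).2.1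
      energy := fun n => (hF _ (ht0 n)).2.2
      f := f, hf := hf }
  choose e he using σ.comp
  obtain ⟨n, hn⟩ := (σ.final e (σ.all e he)).exists
  exact ⟨t n, ht0 n, hn⟩

end Pool.Agent.K708
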