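import Pool.Agent.Lib.K708.CSeq
import Pool.Agent.Lib.K708.CBox

/-! # K708, Section C: local data at a point of the central fibre -/

set_option autoImplicit false

open scoped Manifold ContDiff Topology NNReal ENNReal
open Set Filter MeasureTheory

noncomputable section

namespace Pool.Agent.K708

variable {X : CMfd 2} {G : RatDegen X} {u : Ultrafilter ℕ}

open Classical in
/-- C-P. The local data at a point of the central fibre (from `G.snc` and `box`). -/
theorem FSeq.loc (σ : FSeq G u) (x : G.T) (hx : G.π x = G.o) :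
    ∃ φ ∈ IsManifold.maximalAtlas 𝓘(ℂ, E 3) ω G.T, ∃ (k : ℕ) (hk : k ≤ 3)
      (c : Fin k → G.ι) (r : ℝ) (C : ℝ≥0) (s : ℕ → ℂ) (f' : ℕ → E 3 → Tor),
      1 ≤ k ∧ x ∈ φ.source ∧ φ x = 0 ∧ Function.Injective c ∧
      (∀ i : Fin k, ∀ y ∈ φ.source, y ∈ G.S (c i) ↔ φ y (Fin.castLE hk i) = 0) ∧
      (∀ i, i ∉ range c → Disjoint (G.S i) φ.source) ∧
      0 < r ∧ Metric.ball 0 r ⊆ φ.target ∧ Tendsto s (u : Filter ℕ) (𝓝 0) ∧
      (∀ n, s n ≠ 0) ∧ BoxProp hk r C s f' ∧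
      (∀ y ∈ φ.source, ∀ e, K708C.LimAt u (pr hk) s f' (φ y) e ↔ σ.Lim y e) := by
  obtain ⟨φ, hφ, ψ, hψ, k, hk1, hk, c, hxs, hφx, hos, hψo, hc, hS, hdisj, hprod⟩ := G.snc x hx
  have hprod' : ∀ y ∈ φ.source, G.π y ∈ ψ.source ∧ ψ (G.π y) 0 = pr hk (φ y) := hprod
  have h0 : (0 : E 3) ∈ φ.target := by rw [← hφx]; exact φ.map_source hxs
  obtain ⟨r, hr, hball⟩ := Metric.nhds_basis_closedBall.mem_iff.1 (φ.open_target.mem_nhds h0)
  obtain ⟨C, hC⟩ := box G σ.Ω σ.hΩ σ.c hφ hψ hk hprod' hball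
  -- coordinates on the base
  have hinj : ∀ t ∈ ψ.source, ∀ t' ∈ ψ.source, ψ t 0 = ψ t' 0 → t = t' := by
    intro t ht t' ht' h
    refine ψ.injOn ht ht' ?_
    funext i
    rw [Subsingleton.elim i 0]
    exact h
  have hev : ∀ᶠ n in (u : Filter ℕ), σ.t n ∈ ψ.source :=
    σ.tends (ψ.open_source.mem_nhds hos)
  set s : ℕ → ℂ := fun n => if σ.t n ∈ ψ.source then ψ (σ.t n) 0 else 1 with hs
  set f' : ℕ → E 3 → Tor := fun n =>
    if σ.t n ∈ ψ.source then fun z => σ.f n (φ.symm z) else fun _ => 0 with hf'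
  have hs1 : ∀ n, σ.t n ∈ ψ.source → s n = ψ (σ.t n) 0 := fun n hn => by
    rw [hs]; exact if_pos hn
  have hf1 : ∀ n, σ.t n ∈ ψ.source → ∀ z, f' n z = σ.f n (φ.symm z) := fun n hn z => by
    rw [hf']; simp only; rw [if_pos hn]
  refine ⟨φ, hφ, k, hk, c, r, C, s, f', hk1, hxs, hφx, hc, hS, hdisj, hr,
    Metric.ball_subset_closedBall.trans hball, ?_, ?_, ?_, ?_⟩
  · -- the parameters tend to zero
    have h1 : Tendsto (fun n => ψ (σ.t n)) (u : Filter ℕ) (𝓝 (ψ G.o)) :=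
      (ψ.continuousAt hos).tendsto.comp σ.tends
    have h2 : Tendsto (fun n => ψ (σ.t n) 0) (u : Filter ℕ) (𝓝 (ψ G.o 0)) :=
      (tendsto_pi_nhds.1 h1) 0
    rw [hψo] at h2
    refine h2.congr' ?_
    filter_upwards [hev] with n hn
    exact (hs1 n hn).symm
  · intro n
    by_cases hn : σ.t n ∈ ψ.source
    · rw [hs1 n hn]
      intro h
      refine σ.t0 n (hinj _ hn _ hos ?_)
      rw [h, hψo]
      rfl
    · have : s n = 1 := by rw [hs]; exact if_neg hn
      rw [this]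
      exact one_ne_zero
  · intro n i j hij U hU γ hγ hγ'
    by_cases hn : σ.t n ∈ ψ.source
    · rw [hs1 n hn] at hγ'
      obtain ⟨a', ha', hb⟩ := hC (σ.t n) hn (σ.t0 n) (σ.Y n) (σ.ι n) (σ.fib n) (σ.conn n)
        (σ.kah n) (σ.F n) (σ.a n) (σ.tf n) (σ.h1 n) (σ.energy n) (σ.f n) (σ.hf n) i j hij U hU γ
        hγ hγ'
      refine ⟨a', ?_, hb⟩
      have e : (fun w => f' n (γ w)) = fun w => σ.f n (φ.symm (γ w)) := by
        funext w; exact hf1 n hn _
      rw [e]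
      exact ha'
    · refine ⟨fun _ => 0, ?_, ?_⟩
      · have e : (fun w => f' n (γ w)) = fun _ => (0 : Tor) := by
          funext w
          rw [hf']
          simp only
          rw [if_neg hn]
        rw [e]
        intro z _
        exact ⟨fun _ => 0, Eventually.of_forall fun w => ⟨rfl, hasFDerivAt_const 0 w⟩⟩
      · refine le_trans (le_of_eq ?_) (bot_le (a := (C : ℝ≥0∞)))
        have e0 : ‖(0 : (ℂ × ℂ) →L[ℂ] ℂ)‖ₑ = 0 := by
          rw [← ofReal_norm_eq_enorm, norm_zero, ENNReal.ofReal_zero]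
        simp only [e0]
        norm_num
  · intro y hy e
    have hφy : φ y ∈ φ.target := φ.map_source hy
    constructor
    · intro h O hO
      obtain ⟨W, hW, hWn⟩ := h O hO
      refine ⟨φ.source ∩ φ ⁻¹' W, inter_mem (φ.open_source.mem_nhds hy)
        ((φ.continuousAt hy).preimage_mem_nhds hW), ?_⟩
      filter_upwards [hev, hWn] with n hn hW' w hw hwt
      have h1 := hW' (φ w) hw.2 (by rw [hs1 n hn, ← (hprod' w hw.1).2, hwt])
      rw [hf1 n hn, φ.left_inv hw.1] at h1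
      exact h1
    · intro h O hO
      obtain ⟨W, hW, hWn⟩ := h O hO
      have hc : ContinuousAt φ.symm (φ y) := φ.symm.continuousAt hφy
      have hW2 : W ∈ 𝓝 (φ.symm (φ y)) := by rw [φ.left_inv hy]; exact hW
      refine ⟨φ.target ∩ φ.symm ⁻¹' W, inter_mem (φ.open_target.mem_nhds hφy)
        (hc.preimage_mem_nhds hW2), ?_⟩
      filter_upwards [hev, hWn] with n hn hW' z hz hzt
      rw [hf1 n hn]
      have hzs : φ.symm z ∈ φ.source := φ.map_target hz.1
      refine hW' (φ.symm z) hz.2 (hinj _ (hprod' _ hzs).1 _ hn ?_)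
      rw [(hprod' _ hzs).2, φ.right_inv hz.1, hzt, hs1 n hn]

end Pool.Agent.K708
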