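import Pool.Agent.Lib.K708.CDefs
import Pool.Agent.Lib.MP_708a61_C.Hartogs

/-! # K708, Section C: holomorphic maps to the torus, basic facts -/

set_option autoImplicit false

open scoped Manifold ContDiff Topology NNReal ENNReal
open Set Filter MeasureTheory

noncomputable section

namespace Pool.Agent.K708

namespace CRatA

/-- Differentiability in the preferred chart at another point. -/
theorem mdiff_iff {n : ℕ} {M : Type*} [TopologicalSpace M] [ChartedSpace (E n) M]
    [IsManifold 𝓘(ℂ, E n) ω M] {x y : M} (hy : y ∈ (chartAt (E n) x).source) {g : M → ℂ} :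
    MDifferentiableAt 𝓘(ℂ, E n) 𝓘(ℂ, ℂ) g y ↔
      DifferentiableAt ℂ (g ∘ (chartAt (E n) x).symm) (chartAt (E n) x y) := by
  rw [mdifferentiableAt_iff_of_mem_source (x := x) (y := g y) hy (mem_chart_source _ _)]
  simp only [mfld_simps, differentiableWithinAt_univ]
  constructor
  · exact fun h => h.2
  · intro h
    refine ⟨?_, h⟩
    have h1 : ContinuousAt ((g ∘ (chartAt (E n) x).symm) ∘ chartAt (E n) x) y :=
      ContinuousAt.comp h.continuousAt ((chartAt (E n) x).continuousAt hy)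
    refine h1.congr ?_
    filter_upwards [(chartAt (E n) x).open_source.mem_nhds hy] with w hw
    show g ((chartAt (E n) x).symm (chartAt (E n) x w)) = g w
    rw [(chartAt (E n) x).left_inv hw]

/-- A lift in a chart. -/
theorem HolTAt.chart {n : ℕ} {M : Type*} [TopologicalSpace M] [ChartedSpace (E n) M]
    [IsManifold 𝓘(ℂ, E n) ω M] {F : M → Tor} {x y : M} (hy : y ∈ (chartAt (E n) x).source)
    (h : HolTAt n F y) : ∃ G : E n → ℂ, ∀ᶠ z in 𝓝 (chartAt (E n) x y),
      DifferentiableAt ℂ G z ∧ F ((chartAt (E n) x).symm z) = tau.q (G z) := by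
  obtain ⟨g, hg⟩ := h
  set φ := chartAt (E n) x with hφ
  refine ⟨g ∘ φ.symm, ?_⟩
  have h1 : Tendsto φ.symm (𝓝 (φ y)) (𝓝 y) := by
    have := φ.symm.continuousAt (x := φ y) (φ.map_source hy)
    rw [ContinuousAt, φ.left_inv hy] at this
    exact this
  filter_upwards [h1.eventually hg, φ.open_target.mem_nhds (φ.map_source hy)] with z hz hzt
  refine ⟨?_, hz.2⟩
  have h2 := (mdiff_iff (x := x) (φ.map_target hzt)).mp hz.1
  rwa [← hφ, φ.right_inv hzt] at h2

/-- Holomorphy from a lift in a chart. -/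
theorem holTAt_of_chart {n : ℕ} {M : Type*} [TopologicalSpace M] [ChartedSpace (E n) M]
    [IsManifold 𝓘(ℂ, E n) ω M] {F : M → Tor} {x y : M} (hy : y ∈ (chartAt (E n) x).source)
    {G : E n → ℂ} (h : ∀ᶠ z in 𝓝 (chartAt (E n) x y),
      DifferentiableAt ℂ G z ∧ F ((chartAt (E n) x).symm z) = tau.q (G z)) : HolTAt n F y := by
  set φ := chartAt (E n) x with hφ
  refine ⟨G ∘ φ, ?_⟩
  have h1 : Tendsto φ (𝓝 y) (𝓝 (φ y)) := φ.continuousAt hy
  filter_upwards [h1.eventually h, φ.open_source.mem_nhds hy] with w hw hws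
  refine ⟨?_, ?_⟩
  · refine (mdiff_iff (x := x) hws).mpr ?_
    rw [← hφ]
    refine hw.1.congr_of_eventuallyEq ?_
    filter_upwards [φ.open_target.mem_nhds (φ.map_source hws)] with z hz
    show G (φ (φ.symm z)) = G z
    rw [φ.right_inv hz]
  · have h2 := hw.2
    rw [φ.left_inv hws] at h2
    exact h2

theorem holTAt_congr {n : ℕ} {M : Type*} [TopologicalSpace M] [ChartedSpace (E n) M]
    {F F' : M → Tor} {x : M} (h : HolTAt n F x) (he : F' =ᶠ[𝓝 x] F) : HolTAt n F' x := by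
  obtain ⟨g, hg⟩ := h
  refine ⟨g, ?_⟩
  filter_upwards [hg, he] with y hy hy'
  exact ⟨hy.1, by rw [hy', hy.2]⟩

/-- Two lifts near a point differ by a constant. -/
theorem lift_const {X : Type*} [TopologicalSpace X] {G G' : X → ℂ} {z : X}
    (hG : ContinuousAt G z) (hG' : ContinuousAt G' z)
    (h : ∀ᶠ w in 𝓝 z, tau.q (G w) = tau.q (G' w)) :
    ∀ᶠ w in 𝓝 z, G w = G' w + (G z - G' z) := by
  have hc : ContinuousAt (fun w => G w - G' w) z := hG.sub hG'
  have h1 : ∀ᶠ w in 𝓝 z, dist (G w - G' w) (G z - G' z) < 1 :=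
    hc.eventually (Metric.ball_mem_nhds _ one_pos)
  filter_upwards [h1, h] with w hw hq
  by_contra hne
  have h2 : (G w - G' w) - (G z - G' z) ∈ K708C.gaussSet :=
    K708C.gaussSet_sub ((tau.eq_iff' _ _).mp hq) ((tau.eq_iff' _ _).mp h.self_of_nhds)
  have h3 : (G w - G' w) - (G z - G' z) ≠ 0 := by
    intro h0
    apply hne
    linear_combination h0
  have h4 := K708C.gaussSet_norm h2 h3
  rw [dist_eq_norm] at hw
  linarith

/-- Identity principle on a ball. -/
theorem ball_const {V : Type*} [NormedAddCommGroup V] [NormedSpace ℂ V] {h : V → ℂ} {c z0 : V}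
    {r : ℝ} (hd : DifferentiableOn ℂ h (Metric.ball c r)) (hz0 : z0 ∈ Metric.ball c r)
    (he : ∀ᶠ z in 𝓝 z0, h z = h z0) : ∀ z ∈ Metric.ball c r, h z = h z0 := by
  intro z hz
  let : NormedSpace ℝ V := NormedSpace.restrictScalars ℝ ℂ V
  set ℓ : ℂ → V := fun t => z0 + t • (z - z0) with hℓ
  have hℓd : Differentiable ℂ ℓ := by
    rw [hℓ]
    fun_prop
  set U : Set ℂ := ℓ ⁻¹' Metric.ball c r with hU
  have hUo : IsOpen U := Metric.isOpen_ball.preimage hℓd.continuous
  have hUc : Convex ℝ U := by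
    intro s hs t ht a b ha hb hab
    have h1 := (convex_ball c r) hs ht ha hb hab
    show ℓ (a • s + b • t) ∈ Metric.ball c r
    have h2 : ℓ (a • s + b • t) = a • ℓ s + b • ℓ t := by
      simp only [hℓ]
      have hb' : (b : ℝ) = 1 - a := by linarith
      have e1 : ∀ (x : ℝ) (v : V), x • v = (x : ℂ) • v := fun x v => rfl
      have e2 : ∀ (x : ℝ) (v : ℂ), x • v = (x : ℂ) * v := fun x v => by simp
      rw [e1, e1, e2, e2, hb', smul_add, smul_add, smul_smul, smul_smul]
      push_cast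
      module
    rw [h2]
    exact h1
  have h0 : (0 : ℂ) ∈ U := by
    show ℓ 0 ∈ Metric.ball c r
    simpa [hℓ] using hz0
  have h1 : (1 : ℂ) ∈ U := by
    show ℓ 1 ∈ Metric.ball c r
    simpa [hℓ] using hz
  have hk : DifferentiableOn ℂ (h ∘ ℓ) U := hd.comp hℓd.differentiableOn fun t ht => ht
  have hka : AnalyticOnNhd ℂ (h ∘ ℓ) U := hk.analyticOnNhd hUo
  have hkc : AnalyticOnNhd ℂ (fun _ : ℂ => h z0) U := analyticOnNhd_const
  have hev : (h ∘ ℓ) =ᶠ[𝓝 0] fun _ => h z0 := by
    have h2 : Tendsto ℓ (𝓝 0) (𝓝 z0) := by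
      have := hℓd.continuous.tendsto 0
      simpa [hℓ] using this
    exact h2.eventually he
  have h3 := hka.eqOn_of_preconnected_of_eventuallyEq hkc hUc.isPreconnected h0 hev h1
  have h4 : ℓ 1 = z := by simp [hℓ]
  rw [Function.comp_apply, h4] at h3
  exact h3

end CRatA

open CRatA

/-- C-R1 composition. -/
theorem HolTAt.comp {n m : ℕ} {M N : Type*} [TopologicalSpace M] [ChartedSpace (E n) M]
    [IsManifold 𝓘(ℂ, E n) ω M] [TopologicalSpace N] [ChartedSpace (E m) N]
    [IsManifold 𝓘(ℂ, E m) ω N] {F : N → Tor} {g : M → N} {x : M}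
    (hF : HolTAt m F (g x)) (hg : HoloAt n m g x) : HolTAt n (fun y => F (g y)) x := by
  obtain ⟨G, hG⟩ := hF
  have h1 : ∀ᶠ y in 𝓝 x, ContMDiffAt 𝓘(ℂ, E n) 𝓘(ℂ, E m) ω g y :=
    (contMDiffAt_iff_contMDiffAt_nhds (by simp)).mp hg
  refine ⟨G ∘ g, ?_⟩
  filter_upwards [h1, hg.continuousAt.eventually hG] with y hy hy2
  exact ⟨hy2.1.comp y (hy.mdifferentiableAt (by simp)), hy2.2⟩

/-- C-R2 identity principle. -/
theorem HolT.eq_const {n : ℕ} {M : CMfd n} (hM : ConnectedSpace M) {F : M → Tor}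
    (hF : HolT n F) {V : Set M} (hV : IsOpen V) (hne : V.Nonempty) {e : Tor}
    (h : ∀ x ∈ V, F x = e) : ∀ x, F x = e := by
  set W : Set M := {x | ∀ᶠ y in 𝓝 x, F y = e} with hW
  have hWo : IsOpen W := by
    rw [isOpen_iff_mem_nhds]
    intro x hx
    exact eventually_eventually_nhds.mpr hx
  have hWc : IsClosed W := by
    rw [isClosed_iff_clusterPt]
    intro x hx
    set φ := chartAt (E n) x with hφ
    have hxs : x ∈ φ.source := mem_chart_source _ _
    obtain ⟨G, hG⟩ := HolTAt.chart hxs (hF x)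
    rw [← hφ] at hG
    obtain ⟨r, hr, hb⟩ := Metric.eventually_nhds_iff_ball.mp
      (hG.and (φ.open_target.mem_nhds (φ.map_source hxs)))
    -- the neighbourhood of x
    have hO : φ.source ∩ φ ⁻¹' Metric.ball (φ x) r ∈ 𝓝 x :=
      (φ.continuousOn.isOpen_inter_preimage φ.open_source Metric.isOpen_ball).mem_nhds
        ⟨hxs, Metric.mem_ball_self hr⟩
    obtain ⟨y, ⟨hys, hyb⟩, hyW⟩ := (clusterPt_principal_iff.mp hx) _ hO
    have hyb' : φ y ∈ Metric.ball (φ x) r := hyb
    have hGy := (hb (φ y) hyb').1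
    have hqe : tau.q (G (φ y)) = e := by
      rw [← hGy.2, φ.left_inv hys]
      exact hyW.self_of_nhds
    have hsymm : Tendsto φ.symm (𝓝 (φ y)) (𝓝 y) := by
      have := φ.symm.continuousAt (x := φ y) (φ.map_source hys)
      rw [ContinuousAt, φ.left_inv hys] at this
      exact this
    have hloc : ∀ᶠ z in 𝓝 (φ y), G z = G (φ y) := by
      have h1 : ∀ᶠ z in 𝓝 (φ y), tau.q (G z) = tau.q (G (φ y)) := by
        filter_upwards [hsymm.eventually hyW, Metric.isOpen_ball.mem_nhds hyb'] with z hz hzb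
        rw [hqe, ← (hb z hzb).1.2, hz]
      have h2 := lift_const (G := G) (G' := fun _ => G (φ y)) hGy.1.continuousAt
        continuousAt_const h1
      filter_upwards [h2] with z hz
      rw [hz, sub_self, add_zero]
    have hGd : DifferentiableOn ℂ G (Metric.ball (φ x) r) := fun z hz =>
      (hb z hz).1.1.differentiableWithinAt
    have hconst := ball_const hGd hyb' hloc
    show ∀ᶠ y in 𝓝 x, F y = e
    filter_upwards [hO] with w hw
    have h3 := (hb (φ w) hw.2).1.2
    rw [φ.left_inv hw.1] at h3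
    rw [h3, hconst _ hw.2, hqe]
  have hWn : W.Nonempty := by
    obtain ⟨x, hx⟩ := hne
    exact ⟨x, by filter_upwards [hV.mem_nhds hx] with y hy using h y hy⟩
  have hWu : W = univ := IsClopen.eq_univ ⟨hWc, hWo⟩ hWn
  intro x
  have hx : x ∈ W := by rw [hWu]; trivial
  have hx' : ∀ᶠ y in 𝓝 x, F y = e := hx
  exact hx'.self_of_nhds

namespace CRatA

open Classical in
/-- Extension over one point. -/
theorem extend_at {Y : CMfd 2} {s : Y} {F : Y → Tor}
    (hF : ∀ᶠ y in 𝓝 s, y ≠ s → HolTAt 2 F y) :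
    ∃ e : Tor, HolTAt 2 (fun y => if y = s then e else F y) s := by
  set φ := chartAt (E 2) s with hφ
  have hss : s ∈ φ.source := mem_chart_source _ _
  set p0 := φ s with hp0
  have hsymm0 : φ.symm p0 = s := φ.left_inv hss
  set J : (ℂ × ℂ) ≃L[ℂ] E 2 := (ContinuousLinearEquiv.finTwoArrow ℂ ℂ).symm with hJ
  have hJ1 : ∀ z : ℂ × ℂ, J z = ![z.1, z.2] := fun z => rfl
  have hsymm : Tendsto φ.symm (𝓝 p0) (𝓝 s) := by
    have := φ.symm.continuousAt (x := φ s) (φ.map_source hss)
    rw [ContinuousAt, φ.left_inv hss] at this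
    exact this
  obtain ⟨r, hr, hb⟩ := Metric.eventually_nhds_iff_ball.mp
    ((hsymm.eventually hF).and (φ.open_target.mem_nhds (φ.map_source hss)))
  have hbi : ∀ z : ℂ × ℂ, z ∈ K708C.bidisc r → p0 + J z ∈ Metric.ball p0 r := by
    intro z hz
    rw [Metric.mem_ball, dist_eq_norm, add_sub_cancel_left, pi_norm_lt_iff hr]
    intro i
    rw [hJ1]
    fin_cases i
    · exact hz.1
    · exact hz.2
  have hbi2 : ∀ v ∈ Metric.ball p0 r, J.symm (v - p0) ∈ K708C.bidisc r := by
    intro v hv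
    rw [Metric.mem_ball, dist_eq_norm, pi_norm_lt_iff hr] at hv
    exact ⟨hv 0, hv 1⟩
  have hne : ∀ v ∈ Metric.ball p0 r, v ≠ p0 → φ.symm v ≠ s := by
    intro v hv hvp h
    apply hvp
    rw [← φ.right_inv (hb v hv).2, h]
  set F1 : ℂ × ℂ → Tor := fun z => F (φ.symm (p0 + J z)) with hF1
  set a : ℂ × ℂ → (ℂ × ℂ →L[ℂ] ℂ) := fun z =>
    if h : ∃ L : ℂ × ℂ →L[ℂ] ℂ, ∃ G : ℂ × ℂ → ℂ,
      (∀ᶠ w in 𝓝 z, F1 w = tau.q (G w)) ∧ HasFDerivAt G L z then h.choose else 0 with ha
  have hHol : K708C.HolOn tau F1 a (K708C.bidisc r \ {0}) := by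
    rintro z ⟨hz, hz0⟩
    have hz0' : z ≠ 0 := hz0
    have hvb := hbi z hz
    have hvne : p0 + J z ≠ p0 := by
      intro h
      apply hz0'
      have h1 : J z = 0 := by simpa using h
      exact (J.map_eq_zero_iff).mp h1
    have hvt := (hb _ hvb).2
    obtain ⟨G0, hG0⟩ := HolTAt.chart (x := s) (φ.map_target hvt) ((hb _ hvb).1 (hne _ hvb hvne))
    rw [← hφ, φ.right_inv hvt] at hG0
    have hJd : Differentiable ℂ (fun w : ℂ × ℂ => p0 + J w) :=
      (differentiable_const _).add J.differentiable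
    have hG : ∀ᶠ w in 𝓝 z, DifferentiableAt ℂ (fun w => G0 (p0 + J w)) w ∧
        F1 w = tau.q (G0 (p0 + J w)) := by
      have h1 : Tendsto (fun w : ℂ × ℂ => p0 + J w) (𝓝 z) (𝓝 (p0 + J z)) :=
        hJd.continuous.tendsto z
      filter_upwards [h1.eventually hG0] with w hw
      exact ⟨DifferentiableAt.comp (g := G0) w hw.1 (hJd w), hw.2⟩
    refine ⟨fun w => G0 (p0 + J w), ?_⟩
    filter_upwards [eventually_eventually_nhds.mpr hG] with w hw
    have hw1 := hw.self_of_nhds
    refine ⟨hw1.2, ?_⟩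
    have hex : ∃ L : ℂ × ℂ →L[ℂ] ℂ, ∃ G : ℂ × ℂ → ℂ,
      (∀ᶠ w' in 𝓝 w, F1 w' = tau.q (G w')) ∧ HasFDerivAt G L w :=
      ⟨_, _, hw.mono fun w' hw' => hw'.2, hw1.1.hasFDerivAt⟩
    have haw : a w = hex.choose := by
      simp only [ha]
      rw [dif_pos hex]
    obtain ⟨G', hG'1, hG'2⟩ := hex.choose_spec
    rw [haw]
    have h2 := lift_const (G := fun w => G0 (p0 + J w)) (G' := G') hw1.1.continuousAt
      hG'2.continuousAt (by
        filter_upwards [hw, hG'1] with w' h3 h4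
        rw [← h3.2, ← h4])
    have h5 : HasFDerivAt (fun w' => G' w' + (G0 (p0 + J w) - G' w)) hex.choose w :=
      hG'2.add_const _
    exact h5.congr_of_eventuallyEq h2
  obtain ⟨G, hGd, hG⟩ := K708C.extend_point tau hr F1 a hHol
  refine ⟨tau.q (G 0), ?_⟩
  refine holTAt_of_chart (x := s) (G := fun v => G (J.symm (v - p0))) hss ?_
  rw [← hφ, ← hp0]
  filter_upwards [Metric.ball_mem_nhds p0 hr] with v hv
  have hopen : IsOpen (K708C.bidisc r) := by
    have h1 : K708C.bidisc r = {z : ℂ × ℂ | ‖z.1‖ < r} ∩ {z | ‖z.2‖ < r} := rfl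
    rw [h1]
    exact (isOpen_lt (by fun_prop) continuous_const).inter
      (isOpen_lt (by fun_prop) continuous_const)
  have hv' := hbi2 v hv
  refine ⟨?_, ?_⟩
  · have h1 : DifferentiableAt ℂ G (J.symm (v - p0)) :=
      (hGd _ hv').differentiableAt (hopen.mem_nhds hv')
    have h2 : DifferentiableAt ℂ (fun v : E 2 => J.symm (v - p0)) v :=
      (J.symm.differentiable _).comp v (by fun_prop)
    exact DifferentiableAt.comp (g := G) v h1 h2
  · by_cases hvp : v = p0
    · rw [hvp, hsymm0, if_pos rfl, sub_self, map_zero]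
    · rw [if_neg (hne v hv hvp)]
      have h1 : J.symm (v - p0) ≠ 0 := by
        intro h
        apply hvp
        have := (J.symm.map_eq_zero_iff).mp h
        exact sub_eq_zero.mp this
      rw [← hG _ hv' h1, hF1]
      simp

end CRatA

/-- C-R3 extension over finite sets. -/
theorem HolT.extend {Y : CMfd 2} {S : Set Y} (hS : S.Finite) {F : Y → Tor}
    (hF : ∀ y ∉ S, HolTAt 2 F y) : ∃ F' : Y → Tor, HolT 2 F' ∧ ∀ y ∉ S, F' y = F y := by
  classical
  have h1 : ∀ s : Y, ∃ e : Tor, HolTAt 2 (fun y => if y = s then e else F y) s := by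
    intro s
    apply extend_at
    have h2 : (S \ {s})ᶜ ∈ 𝓝 s := by
      apply (hS.subset sdiff_subset).isClosed.isOpen_compl.mem_nhds
      simp
    filter_upwards [h2] with y hy hys
    exact hF y fun hyS => hy ⟨hyS, hys⟩
  choose e he using h1
  refine ⟨fun y => if y ∈ S then e y else F y, ?_, ?_⟩
  · intro s
    by_cases hs : s ∈ S
    · refine holTAt_congr (he s) ?_
      have h2 : (S \ {s})ᶜ ∈ 𝓝 s := by
        apply (hS.subset sdiff_subset).isClosed.isOpen_compl.mem_nhds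
        simp
      filter_upwards [h2] with y hy
      by_cases hys : y = s
      · rw [hys, if_pos hs, if_pos rfl]
      · rw [if_neg hys, if_neg fun hyS => hy ⟨hyS, hys⟩]
    · refine holTAt_congr (hF s hs) ?_
      filter_upwards [hS.isClosed.isOpen_compl.mem_nhds hs] with y hy
      rw [if_neg hy]
  · intro y hy
    simp only
    rw [if_neg hy]

end Pool.Agent.K708
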