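import Pool.Agent.Lib.K708.CDefs

/-! # K708, Section C: sequences of fibres -/

set_option autoImplicit false

open scoped Manifold ContDiff Topology NNReal ENNReal
open Set Filter MeasureTheory

noncomputable section

namespace Pool.Agent.K708

/-- A sequence of fibres tending to the central fibre, with maps to `ℂ/ℤ[i]` of energy `c`. -/
structure FSeq {X : CMfd 2} (G : RatDegen X) (u : Ultrafilter ℕ) where
  t : ℕ → G.B
  t0 : ∀ n, t n ≠ G.o
  tends : Tendsto t (u : Filter ℕ) (𝓝 G.o)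
  Ω : F2 3 G.T
  hΩ : RelKah G.π Ω
  c : ℝ
  Y : ℕ → CMfd 2
  ι : ∀ n, Y n → G.T
  fib : ∀ n, IsFib G.π (t n) (ι n)
  conn : ∀ n, CptConn (Y n)
  kah : ∀ n, Kah (pb2 2 (ι n) Ω)
  F : ∀ n, Y n → Tor
  a : ∀ n, F1 2 (Y n)
  tf : ∀ n, TF (F n) (a n)
  h1 : ∀ n, H1 (a n)
  energy : ∀ n, Int4 (Y n) (pb2 2 (ι n) Ω) (Complex.I • wedge (a n) (cj (a n)))
    (pb2 2 (ι n) Ω) = c
  f : ℕ → G.T → Tor
  hf : ∀ n y, f n (ι n y) = F n y

variable {X : CMfd 2} {G : RatDegen X} {u : Ultrafilter ℕ}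

/-- The limit of the maps of the sequence `σ` at `x` is `e`. -/
def FSeq.Lim (σ : FSeq G u) (x : G.T) (e : Tor) : Prop :=
  K708C.LimAt u G.π σ.t σ.f x e

end Pool.Agent.K708
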