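import Pool.Agent.Lib.K708.PFun

/-! # K708: the curve `(℘ z - s) (℘ w - s) = 1` in `E × E` -/

set_option autoImplicit false

open Set Filter
open scoped Topology

noncomputable section

namespace Pool.Agent.K708.Cur

open PeriodPair Pool.Agent.K708.PFun

variable (L : PeriodPair)

/-- The points where `R L s` is holomorphic. -/
def Ok (s z : ℂ) : Prop := z ∉ L.lattice → ℘[L] z ≠ s

variable {L} {s : ℂ}

theorem Ok.analyticAt {z : ℂ} (h : Ok L s z) : AnalyticAt ℂ (R L s) z := analyticAt_R L h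

theorem Ok.eventually {z : ℂ} (h : Ok L s z) : ∀ᶠ z' in 𝓝 z, Ok L s z' := by
  by_cases hz : z ∈ L.lattice
  · obtain ⟨u, hu, hu1, hR⟩ := R_near L (s := s) hz
    have hne : ∀ᶠ z' in 𝓝 z, u z' ≠ 0 := hu.continuousAt.eventually_ne (by simp [hu1])
    filter_upwards [hR, hne] with w hw hw2 hwL h0
    rw [R_of_notMem L hwL, h0, sub_self, inv_zero] at hw
    have h3 : (w - z) ^ 2 ≠ 0 := by
      refine pow_ne_zero _ (sub_ne_zero.mpr ?_)
      rintro rfl
      exact hwL hz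
    exact mul_ne_zero h3 hw2 hw.symm
  · have h1 : ∀ᶠ z' in 𝓝 z, ℘[L] z' ≠ s :=
      (analyticAt_P L hz).continuousAt.eventually_ne (h hz)
    filter_upwards [h1] with w hw _
    exact hw

theorem Ok.add {z l : ℂ} (hl : l ∈ L.lattice) (h : Ok L s z) : Ok L s (z + l) := by
  intro hz
  rw [L.weierstrassP_add_coe z ⟨l, hl⟩]
  exact h (fun h' => hz (add_mem h' hl))

theorem Ok.neg {z : ℂ} (h : Ok L s z) : Ok L s (-z) := by
  intro hz
  rw [L.weierstrassP_neg]
  exact h (fun h' => hz (neg_mem h'))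

/-- If `z` is not on the lattice and `P z ≠ s` then `R z ≠ 0`. -/
theorem R_inv {z : ℂ} (hz : z ∉ L.lattice) : (R L s z)⁻¹ = ℘[L] z - s := by
  rw [R_of_notMem L hz, inv_inv]

theorem R_eq_zero_iff {z : ℂ} (h : Ok L s z) : R L s z = 0 ↔ z ∈ L.lattice := by
  constructor
  · intro h0
    by_contra hz
    rw [R_of_notMem L hz, inv_eq_zero, sub_eq_zero] at h0
    exact h hz h0
  · exact R_of_mem L

theorem cur_iff_left {z w : ℂ} (hw : w ∉ L.lattice) (hz : Ok L s z) :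
    Cur L s z w ↔ ℘[L] w - s = R L s z := by
  constructor
  · rintro (⟨-, -, h⟩ | ⟨hz', hw', h⟩)
    · exact h
    · rw [R_of_notMem L hw] at h
      rw [R_of_notMem L hz', h, inv_inv]
  · intro h
    exact Or.inl ⟨hw, hz, h⟩

theorem cur_symm {z w : ℂ} : Cur L s z w ↔ Cur L s w z := by
  unfold Cur
  exact or_comm

theorem cur_iff_right {z w : ℂ} (hz : z ∉ L.lattice) (hw : Ok L s w) :
    Cur L s z w ↔ ℘[L] z - s = R L s w := by
  rw [cur_symm, cur_iff_left hz hw]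

theorem cur_cases {z w : ℂ} (h : Cur L s z w) :
    (w ∉ L.lattice ∧ Ok L s z ∧ ℘[L] w - s = R L s z) ∨
      (z ∉ L.lattice ∧ Ok L s w ∧ ℘[L] z - s = R L s w) := h

theorem cur_add {z w k l : ℂ} (hk : k ∈ L.lattice) (hl : l ∈ L.lattice) (h : Cur L s z w) :
    Cur L s (z + k) (w + l) := by
  rcases cur_cases h with ⟨h1, h2, h3⟩ | ⟨h1, h2, h3⟩
  · refine Or.inl ⟨fun h => h1 (by simpa using sub_mem h hl), h2.add hk, ?_⟩
    rw [L.weierstrassP_add_coe w ⟨l, hl⟩, R_add_coe L hk, h3]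
  · refine Or.inr ⟨fun h => h1 (by simpa using sub_mem h hk), h2.add hl, ?_⟩
    rw [L.weierstrassP_add_coe z ⟨k, hk⟩, R_add_coe L hl, h3]

theorem cur_add_iff {z w k l : ℂ} (hk : k ∈ L.lattice) (hl : l ∈ L.lattice) :
    Cur L s (z + k) (w + l) ↔ Cur L s z w := by
  refine ⟨fun h => ?_, cur_add hk hl⟩
  have := cur_add (neg_mem hk) (neg_mem hl) h
  simpa using this

theorem cur_neg {z w : ℂ} (h : Cur L s z w) : Cur L s z (-w) := by
  rcases cur_cases h with ⟨h1, h2, h3⟩ | ⟨h1, h2, h3⟩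
  · refine Or.inl ⟨fun h => h1 (by simpa using neg_mem h), h2, ?_⟩
    rw [L.weierstrassP_neg, h3]
  · refine Or.inr ⟨h1, h2.neg, ?_⟩
    rw [R_neg, h3]

/-- The fibres of the projection to `z` are the orbits of `w ↦ -w`. -/
theorem cur_fibre {z w w' : ℂ} (h : Cur L s z w) (h' : Cur L s z w') :
    w - w' ∈ L.lattice ∨ w + w' ∈ L.lattice := by
  by_cases hw : w ∈ L.lattice
  · -- then `P z = s`
    have hz : z ∉ L.lattice ∧ ℘[L] z = s := by
      rcases cur_cases h with ⟨h1, -, -⟩ | ⟨h1, h2, h3⟩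
      · exact absurd hw h1
      · rw [R_of_mem L hw, sub_eq_zero] at h3
        exact ⟨h1, h3⟩
    have hw' : w' ∈ L.lattice := by
      rcases cur_cases h' with ⟨-, h2, -⟩ | ⟨h1, h2, h3⟩
      · exact absurd hz.2 (h2 hz.1)
      · rw [hz.2, sub_self] at h3
        exact (R_eq_zero_iff h2).mp h3.symm
    exact Or.inl (sub_mem hw hw')
  · by_cases hw' : w' ∈ L.lattice
    · have hz : z ∉ L.lattice ∧ ℘[L] z = s := by
        rcases cur_cases h' with ⟨h1, -, -⟩ | ⟨h1, h2, h3⟩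
        · exact absurd hw' h1
        · rw [R_of_mem L hw', sub_eq_zero] at h3
          exact ⟨h1, h3⟩
      exfalso
      rcases cur_cases h with ⟨-, h2, -⟩ | ⟨h1, h2, h3⟩
      · exact absurd hz.2 (h2 hz.1)
      · rw [hz.2, sub_self] at h3
        exact hw ((R_eq_zero_iff h2).mp h3.symm)
    · have key : ∀ u, u ∉ L.lattice → Cur L s z u → ℘[L] u - s = R L s z := by
        intro u hu hc
        rcases cur_cases hc with ⟨-, -, h3⟩ | ⟨h1, h2, h3⟩
        · exact h3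
        · rw [R_of_notMem L h1, h3, R_inv hu]
      have h5 : ℘[L] w = ℘[L] w' := by
        have := (key w hw h).trans (key w' hw' h').symm
        linear_combination this
      exact (P_eq_iff L hw hw').mp h5

/-- The curve is closed. -/
theorem isClosed_cur : IsClosed {p : ℂ × ℂ | Cur L s p.1 p.2} := by
  rw [← isOpen_compl_iff, isOpen_iff_mem_nhds]
  rintro ⟨z, w⟩ hzw
  simp only [mem_compl_iff, mem_ofPred_eq] at hzw
  have tz : Tendsto (fun p : ℂ × ℂ => p.1) (𝓝 (z, w)) (𝓝 z) := continuous_fst.tendsto _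
  have tw : Tendsto (fun p : ℂ × ℂ => p.2) (𝓝 (z, w)) (𝓝 w) := continuous_snd.tendsto _
  have left : ∀ z w : ℂ, ¬ Cur L s z w → w ∉ L.lattice → Ok L s z →
      ∀ᶠ p in 𝓝 (z, w), ¬ Cur L s p.1 p.2 := by
    intro z w h hw hz
    have tz : Tendsto (fun p : ℂ × ℂ => p.1) (𝓝 (z, w)) (𝓝 z) := continuous_fst.tendsto _
    have tw : Tendsto (fun p : ℂ × ℂ => p.2) (𝓝 (z, w)) (𝓝 w) := continuous_snd.tendsto _
    have c1 : ContinuousAt (fun p : ℂ × ℂ => ℘[L] p.2 - s - R L s p.1) (z, w) := by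
      have a1 : ContinuousAt (fun p : ℂ × ℂ => ℘[L] p.2) (z, w) :=
        ContinuousAt.comp (g := ℘[L]) (analyticAt_P L hw).continuousAt continuousAt_snd
      have a2 : ContinuousAt (fun p : ℂ × ℂ => R L s p.1) (z, w) :=
        ContinuousAt.comp (g := R L s) hz.analyticAt.continuousAt continuousAt_fst
      exact (a1.sub continuousAt_const).sub a2
    have c2 : ∀ᶠ p in 𝓝 (z, w), ℘[L] (p : ℂ × ℂ).2 - s - R L s p.1 ≠ 0 := by
      refine c1.eventually_ne ?_
      rw [sub_ne_zero]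
      exact fun h' => h ((cur_iff_left hw hz).mpr h')
    filter_upwards [c2, tw.eventually (nhds_notMem L hw), tz.eventually hz.eventually]
      with p h1 h2 h3 h4
    exact h1 (sub_eq_zero.mpr ((cur_iff_left h2 h3).mp h4))
  by_cases h1 : w ∉ L.lattice ∧ Ok L s z
  · exact left z w hzw h1.1 h1.2
  by_cases h2 : z ∉ L.lattice ∧ Ok L s w
  · have h3 := left w z (fun h => hzw (cur_symm.mp h)) h2.1 h2.2
    have h4 : Tendsto (fun p : ℂ × ℂ => (p.2, p.1)) (𝓝 (z, w)) (𝓝 (w, z)) :=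
      (continuous_swap.tendsto (z, w))
    filter_upwards [h4.eventually h3] with p hp hp'
    exact hp (cur_symm.mp hp')
  by_cases hw : w ∈ L.lattice
  · by_cases hz : z ∈ L.lattice
    · have ok : Ok L s z := fun h => absurd hz h
      have ok' : Ok L s w := fun h => absurd hw h
      have c1 : Tendsto (fun p : ℂ × ℂ => R L s p.1 * R L s p.2) (𝓝 (z, w)) (𝓝 0) := by
        have a1 := (ok.analyticAt.continuousAt.tendsto).comp tz
        have a2 := (ok'.analyticAt.continuousAt.tendsto).comp tw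
        rw [R_of_mem L hz] at a1
        rw [R_of_mem L hw] at a2
        simpa using a1.mul a2
      have c2 : ∀ᶠ p in 𝓝 (z, w), R L s (p : ℂ × ℂ).1 * R L s p.2 ≠ 1 :=
        c1.eventually_ne (by norm_num)
      have key : ∀ u v : ℂ, Ok L s v → v ∉ L.lattice → ℘[L] v - s = R L s u →
          R L s u * R L s v = 1 := by
        intro u v hv hv' h
        rw [← h, R_of_notMem L hv']
        exact mul_inv_cancel₀ (sub_ne_zero.mpr (hv hv'))
      filter_upwards [c2, tz.eventually ok.eventually, tw.eventually ok'.eventually]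
        with p hp h5 h6 h7
      rcases cur_cases h7 with ⟨g1, -, g3⟩ | ⟨g1, -, g3⟩
      · exact hp (key _ _ h6 g1 g3)
      · refine hp ?_
        rw [mul_comm]
        exact key _ _ h5 g1 g3
    · exact absurd ⟨hz, fun h => absurd hw h⟩ h2
  · by_cases hz : z ∈ L.lattice
    · exact absurd ⟨hw, fun h => absurd hz h⟩ h1
    · have e1 : ℘[L] z = s := by
        by_contra h
        exact h1 ⟨hw, fun _ => h⟩
      have e2 : ℘[L] w = s := by
        by_contra h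
        exact h2 ⟨hz, fun _ => h⟩
      have c1 : Tendsto (fun p : ℂ × ℂ => (℘[L] p.1 - s) * (℘[L] p.2 - s)) (𝓝 (z, w)) (𝓝 0) := by
        have a1 := ((analyticAt_P L hz).continuousAt.tendsto).comp tz
        have a2 := ((analyticAt_P L hw).continuousAt.tendsto).comp tw
        rw [e1] at a1
        rw [e2] at a2
        have := (a1.sub_const s).mul (a2.sub_const s)
        simpa using this
      have c2 : ∀ᶠ p in 𝓝 (z, w), (℘[L] (p : ℂ × ℂ).1 - s) * (℘[L] p.2 - s) ≠ 1 :=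
        c1.eventually_ne (by norm_num)
      have key : ∀ u v : ℂ, Ok L s u → u ∉ L.lattice → ℘[L] v - s = R L s u →
          (℘[L] u - s) * (℘[L] v - s) = 1 := by
        intro u v hu hu' h
        rw [h, R_of_notMem L hu']
        exact mul_inv_cancel₀ (sub_ne_zero.mpr (hu hu'))
      filter_upwards [c2, tz.eventually (nhds_notMem L hz), tw.eventually (nhds_notMem L hw)]
        with p hp h5 h6 h7
      rcases cur_cases h7 with ⟨-, g2, g3⟩ | ⟨-, g2, g3⟩
      · exact hp (key _ _ g2 h5 g3)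
      · refine hp ?_
        rw [mul_comm]
        exact key _ _ g2 h6 g3

/-! ### Nonsingularity -/

/-- The condition on the parameter. -/
def Gen (L : PeriodPair) (s : ℂ) : Prop :=
  s ∉ Br L ∧ ∀ e ∈ Br L, ∀ e' ∈ Br L, (e - s) * (e' - s) ≠ 1

theorem nonsing (hs : Gen L s) {z w : ℂ} (hw : w ∉ L.lattice) (hz : Ok L s z)
    (h : ℘[L] w - s = R L s z) (h' : ℘'[L] w = 0) : z ∉ L.lattice ∧ ℘'[L] z ≠ 0 := by
  have hBr : ℘[L] w ∈ Br L := ⟨w, hw, h', rfl⟩
  have hne : R L s z ≠ 0 := by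
    rw [← h, sub_ne_zero]
    intro h0
    exact hs.1 (h0 ▸ hBr)
  have hzL : z ∉ L.lattice := fun hzL => hne (R_of_mem L hzL)
  refine ⟨hzL, fun h0 => ?_⟩
  have hBr' : ℘[L] z ∈ Br L := ⟨z, hzL, h0, rfl⟩
  refine hs.2 _ hBr _ hBr' ?_
  rw [h, R_of_notMem L hzL]
  exact inv_mul_cancel₀ (sub_ne_zero.mpr (hz hzL))

variable (L s) in
/-- The branch points of the projection to `z`. -/
def Ram : Set ℂ := {z | ∃ w, 2 * w ∈ L.lattice ∧ Cur L s z w}

theorem level_countable (c : ℂ) : {z | z ∉ L.lattice ∧ ℘[L] z = c}.Countable := by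
  by_cases h : ∃ z₁, z₁ ∉ L.lattice ∧ ℘[L] z₁ = c
  · obtain ⟨z₁, hz₁, rfl⟩ := h
    have hc : ({z | z - z₁ ∈ L.lattice} ∪ {z | z + z₁ ∈ L.lattice}).Countable := by
      refine Set.Countable.union ?_ ?_
      · exact (countable_lattice L).preimage_of_injOn (f := fun z => z - z₁)
          (fun a _ b _ h => by simpa using h)
      · exact (countable_lattice L).preimage_of_injOn (f := fun z => z + z₁)
          (fun a _ b _ h => by simpa using h)
    refine hc.mono ?_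
    rintro z ⟨hz, hz2⟩
    exact (P_eq_iff L hz hz₁).mp hz2
  · convert countable_empty
    ext z
    simp only [mem_ofPred_eq, mem_empty_iff_false, iff_false]
    exact fun hz => h ⟨z, hz⟩

theorem Ram_sub (hs : Gen L s) : Ram L s ⊆ {z | z ∉ L.lattice ∧ ℘[L] z = s} ∪
    ⋃ e ∈ Br L, {z | z ∉ L.lattice ∧ ℘[L] z = s + (e - s)⁻¹} := by
  rintro z ⟨w, hw2, hc⟩
  by_cases hw : w ∈ L.lattice
  · left
    rcases cur_cases hc with ⟨h1, -, -⟩ | ⟨h1, h2, h3⟩
    · exact absurd hw h1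
    · rw [R_of_mem L hw, sub_eq_zero] at h3
      exact ⟨h1, h3⟩
  · right
    have hw' : ℘'[L] w = 0 := (P'_eq_zero_iff L hw).mpr hw2
    simp only [mem_iUnion]
    refine ⟨℘[L] w, ⟨w, hw, hw', rfl⟩, ?_⟩
    rcases cur_cases hc with ⟨-, h2, h3⟩ | ⟨h1, h2, h3⟩
    · by_cases hz : z ∈ L.lattice
      · exfalso
        rw [R_of_mem L hz, sub_eq_zero] at h3
        exact hs.1 ⟨w, hw, hw', h3⟩
      · refine ⟨hz, ?_⟩
        rw [h3, R_inv hz]
        ring
    · refine ⟨h1, ?_⟩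
      rw [← R_of_notMem L hw, ← h3]
      ring

theorem Ram_countable (hs : Gen L s) : (Ram L s).Countable :=
  ((level_countable s).union ((Br_finite L).countable.biUnion
    fun _ _ => level_countable _)).mono (Ram_sub hs)

theorem Ram_spec (hs : Gen L s) {z : ℂ} (hz : z ∈ Ram L s) : z ∉ L.lattice ∧ ℘'[L] z ≠ 0 := by
  obtain ⟨w, hw2, hc⟩ := hz
  by_cases hw : w ∈ L.lattice
  · rcases cur_cases hc with ⟨h1, -, -⟩ | ⟨h1, h2, h3⟩
    · exact absurd hw h1
    · rw [R_of_mem L hw, sub_eq_zero] at h3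
      exact ⟨h1, fun h => hs.1 ⟨z, h1, h, h3⟩⟩
  · have hw' : ℘'[L] w = 0 := (P'_eq_zero_iff L hw).mpr hw2
    rcases cur_cases hc with ⟨-, h2, h3⟩ | ⟨h1, h2, h3⟩
    · exact nonsing hs hw h2 h3 hw'
    · refine ⟨h1, fun h => ?_⟩
      refine hs.2 (℘[L] w) ⟨w, hw, hw', rfl⟩ (℘[L] z) ⟨z, h1, h, rfl⟩ ?_
      rw [h3, R_of_notMem L hw]
      exact mul_inv_cancel₀ (sub_ne_zero.mpr (h2 hw))

/-- Every point of `E` is under a point of the curve. -/
theorem exists_cur (z : ℂ) : ∃ w, Cur L s z w := by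
  by_cases hz : Ok L s z
  · obtain ⟨w, hw, hw'⟩ := exists_P_eq L (s + R L s z)
    exact ⟨w, Or.inl ⟨hw, hz, by rw [hw']; ring⟩⟩
  · unfold Ok at hz
    push Not at hz
    refine ⟨0, Or.inr ⟨hz.1, fun h => absurd (zero_mem _) h, ?_⟩⟩
    rw [hz.2, sub_self, R_of_mem L (zero_mem _)]

theorem exists_ram : ∃ z w, Cur L s z w ∧ 2 * w ∈ L.lattice := by
  obtain ⟨z, hz, hz'⟩ := exists_P_eq L s
  refine ⟨z, 0, Or.inr ⟨hz, fun h => absurd (zero_mem _) h, ?_⟩, by simp⟩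
  rw [hz', sub_self, R_of_mem L (zero_mem _)]

/-- Local equations of the curve, in separated form `A z = B w`. -/
theorem cur_local (hs : Gen L s) {z w : ℂ} (h : Cur L s z w) : ∃ A B : ℂ → ℂ,
    AnalyticAt ℂ A z ∧ AnalyticAt ℂ B w ∧ A z = B w ∧
    (∀ᶠ p in 𝓝 (z, w), Cur L s p.1 p.2 ↔ A p.1 = B p.2) ∧
    (2 * w ∉ L.lattice → deriv B w ≠ 0) ∧
    (2 * w ∈ L.lattice → deriv A z ≠ 0 ∧ deriv B w = 0) := by
  have tz : Tendsto (fun p : ℂ × ℂ => p.1) (𝓝 (z, w)) (𝓝 z) := continuous_fst.tendsto _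
  have tw : Tendsto (fun p : ℂ × ℂ => p.2) (𝓝 (z, w)) (𝓝 w) := continuous_snd.tendsto _
  by_cases hc : w ∉ L.lattice ∧ Ok L s z
  · obtain ⟨h1, h2⟩ := hc
    have h3 := (cur_iff_left h1 h2).mp h
    have hP := hasDerivAt_P L h1
    refine ⟨R L s, fun w => ℘[L] w - s, h2.analyticAt, (analyticAt_P L h1).sub analyticAt_const,
      h3.symm, ?_, ?_, ?_⟩
    · filter_upwards [tz.eventually h2.eventually, tw.eventually (nhds_notMem L h1)] with p h4 h5
      rw [cur_iff_left h5 h4, eq_comm]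
    · intro h4
      rw [(hP.sub_const s).deriv]
      exact fun h5 => h4 ((P'_eq_zero_iff L h1).mp h5)
    · intro h4
      have h5 : ℘'[L] w = 0 := (P'_eq_zero_iff L h1).mpr h4
      obtain ⟨h6, h7⟩ := nonsing hs h1 h2 h3 h5
      refine ⟨?_, by rw [(hP.sub_const s).deriv, h5]⟩
      rw [(hasDerivAt_R L h6 (h2 h6)).deriv]
      exact div_ne_zero (neg_ne_zero.mpr h7) (pow_ne_zero _ (sub_ne_zero.mpr (h2 h6)))
  · obtain ⟨h1, h2, h3⟩ : z ∉ L.lattice ∧ Ok L s w ∧ ℘[L] z - s = R L s w := by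
      rcases cur_cases h with ⟨h1, h2, -⟩ | h'
      · exact absurd ⟨h1, h2⟩ hc
      · exact h'
    have hP := hasDerivAt_P L h1
    refine ⟨fun z => ℘[L] z - s, R L s, (analyticAt_P L h1).sub analyticAt_const, h2.analyticAt,
      h3, ?_, ?_, ?_⟩
    · filter_upwards [tw.eventually h2.eventually, tz.eventually (nhds_notMem L h1)] with p h4 h5
      rw [cur_iff_right h5 h4]
    · intro h4
      have hw : w ∉ L.lattice := fun h => h4 (by simpa [two_mul] using add_mem h h)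
      rw [(hasDerivAt_R L hw (h2 hw)).deriv]
      exact div_ne_zero (neg_ne_zero.mpr (fun h5 => h4 ((P'_eq_zero_iff L hw).mp h5)))
        (pow_ne_zero _ (sub_ne_zero.mpr (h2 hw)))
    · intro h4
      have hR := Ram_spec hs ⟨w, h4, h⟩
      refine ⟨by rw [(hP.sub_const s).deriv]; exact hR.2, ?_⟩
      by_cases hw : w ∈ L.lattice
      · exact (hasDerivAt_R_mem L hw).deriv
      · rw [(hasDerivAt_R L hw (h2 hw)).deriv, (P'_eq_zero_iff L hw).mpr h4]
        simp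

/-- Choice of the translations. -/
theorem exists_c (hs : Gen L s) : ∃ c₂ c₃ : ℂ, ∀ x y : ℂ,
    ¬ (x ∈ Ram L s ∧ y ∈ Ram L s ∧ x + y + c₂ ∈ Ram L s) ∧
    ¬ (x ∈ Ram L s ∧ y ∈ Ram L s ∧ x + Complex.I * y + c₃ ∈ Ram L s) ∧
    ¬ (x ∈ Ram L s ∧ x + y + c₂ ∈ Ram L s ∧ x + Complex.I * y + c₃ ∈ Ram L s) ∧
    ¬ (y ∈ Ram L s ∧ x + y + c₂ ∈ Ram L s ∧ x + Complex.I * y + c₃ ∈ Ram L s) := by
  have hR := Ram_countable hs
  set S := Ram L s
  have h3 : (S ×ˢ (S ×ˢ S)).Countable := hR.prod (hR.prod hR)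
  obtain ⟨c₂, hc₂⟩ : ∃ c₂ : ℂ, c₂ ∉ (fun p : ℂ × ℂ × ℂ => p.1 - p.2.1 - p.2.2) '' (S ×ˢ (S ×ˢ S)) :=
    ((h3.image _).dense_compl ℝ).nonempty
  have hbad := ((h3.image (fun p : ℂ × ℂ × ℂ => p.1 - p.2.1 - Complex.I * p.2.2)).union
    (h3.image (fun p : ℂ × ℂ × ℂ =>
      p.1 - p.2.1 - Complex.I * (p.2.2 - p.2.1 - c₂)))).union
    (h3.image (fun p : ℂ × ℂ × ℂ => p.1 - (p.2.2 - p.2.1 - c₂) - Complex.I * p.2.1))
  obtain ⟨c₃, hc₃⟩ := (hbad.dense_compl ℝ).nonempty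
  simp only [mem_compl_iff, mem_union, not_or] at hc₃
  refine ⟨c₂, c₃, fun x y => ⟨?_, ?_, ?_, ?_⟩⟩
  · rintro ⟨h1, h2, h3⟩
    exact hc₂ ⟨(x + y + c₂, x, y), ⟨h3, h1, h2⟩, by simp only; ring⟩
  · rintro ⟨h1, h2, h3⟩
    exact hc₃.1.1 ⟨(x + Complex.I * y + c₃, x, y), ⟨h3, h1, h2⟩, by simp only; ring⟩
  · rintro ⟨h1, h2, h3⟩
    exact hc₃.1.2 ⟨(x + Complex.I * y + c₃, x, x + y + c₂), ⟨h3, h1, h2⟩, by simp only; ring⟩
  · rintro ⟨h1, h2, h3⟩
    exact hc₃.2 ⟨(x + Complex.I * y + c₃, y, x + y + c₂), ⟨h3, h1, h2⟩, by simp only; ring⟩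

end Pool.Agent.K708.Cur
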