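import Pool.Agent.Lib.K708.DPar

/-! # K708: the example `X` is connected (row DConn) -/

set_option autoImplicit false

open scoped Manifold ContDiff Topology
open Set Filter

noncomputable section

namespace Pool.Agent.K708

/-- The projection of the curve to `z` is open (`Cur.cur_local`, one variable open mapping theorem
`AnalyticAt.eventually_constant_or_nhds_le_map_nhds`, fibres are countable by `Cur.cur_fibre`). -/
theorem open_cur {L : PeriodPair} {s : ℂ} (hs : Cur.Gen L s) {z w : ℂ} (h : PFun.Cur L s z w)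
    {U : Set ℂ} (hU : U ∈ 𝓝 w) : ∀ᶠ z' in 𝓝 z, ∃ w' ∈ U, PFun.Cur L s z' w' := by
  obtain ⟨A, B, hA, hB, hAB, hloc, -, -⟩ := Cur.cur_local hs h
  have hloc' := hloc
  rw [nhds_prod_eq] at hloc
  obtain ⟨V1, hV1, V2, hV2, hV⟩ := Filter.mem_prod_iff.1 hloc
  rcases hB.eventually_constant_or_nhds_le_map_nhds with hc | hm
  · exfalso
    have h1 : ∀ᶠ w' in 𝓝 w, w' ∈ ({w' | w - w' ∈ L.lattice} ∪ {w' | w + w' ∈ L.lattice} : Set ℂ) := by
      filter_upwards [hc, hV2] with w' hw' hw2
      have h2 : PFun.Cur L s z w' := by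
        have h3 : (z, w') ∈ V1 ×ˢ V2 := ⟨mem_of_mem_nhds hV1, hw2⟩
        exact (hV h3).2 (hAB.trans hw'.symm)
      exact Cur.cur_fibre h h2
    have hcount : ({w' | w - w' ∈ L.lattice} ∪ {w' | w + w' ∈ L.lattice} : Set ℂ).Countable := by
      refine Set.Countable.union ?_ ?_
      · exact (PFun.countable_lattice L).preimage_of_injOn (f := fun z => w - z)
          (fun a _ b _ h => by simpa using h)
      · exact (PFun.countable_lattice L).preimage_of_injOn (f := fun z => w + z)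
          (fun a _ b _ h => by simpa using h)
    obtain ⟨ε, hε, hb⟩ := Metric.eventually_nhds_iff_ball.1 h1
    have h3 : (Metric.ball w ε).Countable := hcount.mono hb
    have h4 := (Metric.isOpen_ball (x := w) (ε := ε)).interior_eq
    have h5 : interior (Metric.ball w ε) = ∅ := by
      have := h3.dense_compl ℝ
      rwa [← interior_eq_empty_iff_dense_compl] at this
    rw [h4] at h5
    have h6 : w ∈ Metric.ball w ε := Metric.mem_ball_self hε
    rw [h5] at h6
    exact h6
  · have h1 : B '' (U ∩ V2) ∈ 𝓝 (B w) := hm (image_mem_map (inter_mem hU hV2))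
    have h2 : ∀ᶠ z' in 𝓝 z, A z' ∈ B '' (U ∩ V2) := by
      have h3 := hA.continuousAt.tendsto
      rw [hAB] at h3
      exact h3.eventually h1
    filter_upwards [h2, hV1] with z' hz' hz2
    obtain ⟨w', ⟨hw1, hw2⟩, hw3⟩ := hz'
    exact ⟨w', hw1, (hV (⟨hz2, hw2⟩ : (z', w') ∈ V1 ×ˢ V2)).2 hw3.symm⟩

namespace DConn

/-- Subsets of `XL`, closed and open in `XL` and invariant under the lattice. -/
structure Clo (P : Par) (A : Set (E 6)) : Prop where
  sub : A ⊆ XL P
  cl : IsClosed A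
  cl' : IsClosed (XL P \ A)
  inv : ∀ p ∈ A, ∀ l : E 6, (∀ i, l i ∈ Gau) → p + l ∈ A

theorem exists_near (w : ℂ) : ∃ l ∈ Gau, ‖w + l‖ ≤ 2 := by
  refine ⟨((-round w.re : ℤ) : ℂ) + ((-round w.im : ℤ) : ℂ) * Complex.I, ⟨_, _, rfl⟩, ?_⟩
  refine (Complex.norm_le_abs_re_add_abs_im _).trans ?_
  have h1 := abs_sub_round w.re
  have h2 := abs_sub_round w.im
  have e1 : (w + (((-round w.re : ℤ) : ℂ) + ((-round w.im : ℤ) : ℂ) * Complex.I)).re =
      w.re - round w.re := by
    simp [sub_eq_add_neg]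
  have e2 : (w + (((-round w.re : ℤ) : ℂ) + ((-round w.im : ℤ) : ℂ) * Complex.I)).im =
      w.im - round w.im := by
    simp [sub_eq_add_neg]
  rw [e1, e2]
  linarith

theorem f_cont (P : Par) (j : Fin 4) : Continuous (fun b : ℂ × ℂ => P.f j b.1 b.2) := by
  fin_cases j <;> simp [Par.f] <;> fun_prop

/-- A point of `ℂ⁶`. -/
def pt (x y : ℂ) (w : Fin 4 → ℂ) : E 6 := ![x, y, w 0, w 1, w 2, w 3]

theorem pt_wi (x y : ℂ) (w : Fin 4 → ℂ) (j : Fin 4) : pt x y w (wi j) = w j := by
  fin_cases j <;> rfl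

theorem forall6 {p : Fin 6 → Prop} (h0 : p 0) (h1 : p 1) (h : ∀ j, p (wi j)) : ∀ i, p i := by
  intro i
  fin_cases i
  · exact h0
  · exact h1
  · exact h 0
  · exact h 1
  · exact h 2
  · exact h 3

theorem Clo.surj {P : Par} {A : Set (E 6)} (hA : Clo P A) (hne : A.Nonempty) (x y : ℂ) :
    ∃ p ∈ A, p 0 = x ∧ p 1 = y := by
  let S : Set (ℂ × ℂ) := {b | ∃ p ∈ A, p 0 = b.1 ∧ p 1 = b.2}
  suffices hS : S = univ by
    have h1 : ((x, y) : ℂ × ℂ) ∈ S := hS ▸ mem_univ _
    exact h1
  have hopen : IsOpen S := by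
    rw [isOpen_iff_mem_nhds]
    rintro b ⟨p, hp, hb1, hb2⟩
    have h1 : ∀ᶠ p' in 𝓝 p, p' ∈ XL P → p' ∈ A := by
      have h2 : (XL P \ A)ᶜ ∈ 𝓝 p := hA.cl'.isOpen_compl.mem_nhds fun h => h.2 hp
      filter_upwards [h2] with p' h3 h4
      by_contra h5
      exact h3 ⟨h4, h5⟩
    obtain ⟨r, hr, hb⟩ := Metric.eventually_nhds_iff_ball.1 h1
    have h2 : ∀ᶠ b' : ℂ × ℂ in 𝓝 b, ∀ j, ∃ w' ∈ Metric.ball (p (wi j)) r,
        PFun.Cur LG P.s (P.f j b'.1 b'.2) w' := by
      refine eventually_all.2 fun j => ?_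
      have h3 := hA.sub hp j
      rw [hb1, hb2] at h3
      exact ((f_cont P j).tendsto b).eventually
        (open_cur P.gen h3 (Metric.ball_mem_nhds _ hr))
    have h3 : ∀ᶠ b' : ℂ × ℂ in 𝓝 b, b' ∈ Metric.ball b r := Metric.ball_mem_nhds _ hr
    filter_upwards [h2, h3] with b' hb' hb3
    choose w hw1 hw2 using hb'
    have hb3' : dist b'.1 b.1 < r ∧ dist b'.2 b.2 < r := by
      rw [Metric.mem_ball, Prod.dist_eq] at hb3
      exact max_lt_iff.1 hb3
    refine ⟨pt b'.1 b'.2 w, hb _ ?_ fun j => ?_, rfl, rfl⟩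
    · rw [Metric.mem_ball, dist_pi_lt_iff hr]
      refine forall6 ?_ ?_ fun j => ?_
      · rw [hb1]
        exact hb3'.1
      · rw [hb2]
        exact hb3'.2
      · rw [pt_wi]
        exact hw1 j
    · rw [pt_wi]
      exact hw2 j
  have hclosed : IsClosed S := by
    refine isClosed_of_closure_subset fun b hb => ?_
    let R : ℝ := ‖b‖ + 3
    let Kc : Set (E 6) := A ∩ Metric.closedBall 0 R
    have hKc : IsCompact Kc := (isCompact_closedBall _ _).inter_left hA.cl
    have hpi : Continuous (fun p : E 6 => ((p 0, p 1) : ℂ × ℂ)) := by fun_prop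
    have hcl : IsClosed ((fun p : E 6 => ((p 0, p 1) : ℂ × ℂ)) '' Kc) :=
      (hKc.image hpi).isClosed
    have hmem : b ∈ closure ((fun p : E 6 => ((p 0, p 1) : ℂ × ℂ)) '' Kc) := by
      rw [mem_closure_iff_nhds] at hb ⊢
      intro W hW
      obtain ⟨b', ⟨hb1, hb2⟩, p, hp, h1, h2⟩ :=
        hb (W ∩ Metric.ball b 1) (inter_mem hW (Metric.ball_mem_nhds _ one_pos))
      choose l hl1 hl2 using fun j : Fin 4 => exists_near (p (wi j))
      have hl : ∀ i, pt 0 0 l i ∈ Gau := by
        refine forall6 (zero_mem _) (zero_mem _) fun j => ?_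
        rw [pt_wi]
        exact hl1 j
      have e0 : (p + pt 0 0 l) 0 = b'.1 := by
        rw [Pi.add_apply, h1]
        exact add_zero _
      have e1 : (p + pt 0 0 l) 1 = b'.2 := by
        rw [Pi.add_apply, h2]
        exact add_zero _
      have hb3 : ‖b'.1‖ ≤ R ∧ ‖b'.2‖ ≤ R := by
        have h3 : ‖b'‖ ≤ ‖b‖ + 1 := by
          have h4 : ‖b'‖ ≤ ‖b‖ + ‖b' - b‖ := by
            have := norm_add_le b (b' - b)
            rwa [add_sub_cancel] at this
          have h5 : ‖b' - b‖ < 1 := by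
            rw [← dist_eq_norm]
            exact hb2
          linarith
        exact ⟨(norm_fst_le b').trans (by linarith), (norm_snd_le b').trans (by linarith)⟩
      refine ⟨b', hb1, p + pt 0 0 l, ⟨hA.inv p hp _ hl, ?_⟩, ?_⟩
      · have hR : (0 : ℝ) ≤ R := by positivity
        rw [mem_closedBall_zero_iff, pi_norm_le_iff_of_nonneg hR]
        refine forall6 ?_ ?_ fun j => ?_
        · rw [e0]
          exact hb3.1
        · rw [e1]
          exact hb3.2
        · rw [Pi.add_apply, pt_wi]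
          refine (hl2 j).trans ?_
          have := norm_nonneg b
          change (2 : ℝ) ≤ ‖b‖ + 3
          linarith
      · exact Prod.ext e0 e1
    rw [hcl.closure_eq] at hmem
    obtain ⟨p, ⟨hp, -⟩, rfl⟩ := hmem
    exact ⟨p, hp, rfl, rfl⟩
  obtain ⟨p, hp⟩ := hne
  exact IsClopen.eq_univ ⟨hclosed, hopen⟩ ⟨(p 0, p 1), p, hp, rfl, rfl⟩

theorem wi_inj {i j : Fin 4} (h : wi i = wi j) : i = j := by
  have := congrArg Fin.val h
  simp only [wi] at this
  exact Fin.ext (by omega)

theorem wi_ne0 (j : Fin 4) : (0 : Fin 6) ≠ wi j := by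
  intro h
  have := congrArg Fin.val h
  simp [wi] at this

theorem wi_ne1 (j : Fin 4) : (1 : Fin 6) ≠ wi j := by
  intro h
  have := congrArg Fin.val h
  simp [wi] at this

/-- The involution `w_j ↦ -w_j`. -/
def sg (j : Fin 4) (p : E 6) : E 6 := Function.update p (wi j) (-p (wi j))

theorem sg_self (j : Fin 4) (p : E 6) : sg j p (wi j) = -p (wi j) := Function.update_self _ _ _

theorem sg_of_ne {j : Fin 4} {i : Fin 6} (h : i ≠ wi j) (p : E 6) : sg j p i = p i :=
  Function.update_of_ne h _ _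

theorem sg_cont (j : Fin 4) : Continuous (sg j) := by
  unfold sg
  exact continuous_id.update _ (continuous_apply _).neg

theorem sg_add (j : Fin 4) (p l : E 6) : sg j (p + l) = sg j p + sg j l := by
  funext i
  by_cases h : i = wi j
  · subst h
    rw [Pi.add_apply, sg_self, sg_self, sg_self, Pi.add_apply]
    ring
  · rw [Pi.add_apply, sg_of_ne h, sg_of_ne h, sg_of_ne h, Pi.add_apply]

theorem sg_gau (j : Fin 4) {l : E 6} (hl : ∀ i, l i ∈ Gau) : ∀ i, sg j l i ∈ Gau := by
  intro i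
  by_cases h : i = wi j
  · subst h
    rw [sg_self]
    exact neg_mem (hl _)
  · rw [sg_of_ne h]
    exact hl i

theorem sg_XL {P : Par} (j : Fin 4) {p : E 6} (hp : p ∈ XL P) : sg j p ∈ XL P := by
  intro i
  rw [sg_of_ne (wi_ne0 j), sg_of_ne (wi_ne1 j)]
  by_cases h : i = j
  · subst h
    rw [sg_self]
    exact Cur.cur_neg (hp i)
  · rw [sg_of_ne fun h' => h (wi_inj h')]
    exact hp i

theorem exists_f (P : Par) (j : Fin 4) (z : ℂ) : ∃ x y, P.f j x y = z := by
  fin_cases j
  · exact ⟨z, 0, rfl⟩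
  · exact ⟨0, z, rfl⟩
  · exact ⟨z - P.c₂, 0, by simp [Par.f]⟩
  · exact ⟨z - P.c₃, 0, by simp [Par.f]⟩

/-- Clopen invariant subsets are invariant under the involutions. -/
theorem Clo.sg {P : Par} {A : Set (E 6)} (hA : Clo P A) (j : Fin 4) :
    ∀ p ∈ A, DConn.sg j p ∈ A := by
  by_contra hcon
  push Not at hcon
  obtain ⟨p0, hp0, hp0'⟩ := hcon
  let D : Set (E 6) := A ∩ DConn.sg j ⁻¹' (XL P \ A)
  have hD : Clo P D := by
    refine ⟨fun p hp => hA.sub hp.1, hA.cl.inter (hA.cl'.preimage (sg_cont j)), ?_, ?_⟩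
    · have e1 : XL P \ D = (XL P \ A) ∪ (XL P ∩ DConn.sg j ⁻¹' A) := by
        ext p
        constructor
        · rintro ⟨h1, h2⟩
          by_cases h3 : p ∈ A
          · refine Or.inr ⟨h1, ?_⟩
            by_contra h4
            exact h2 ⟨h3, sg_XL j h1, h4⟩
          · exact Or.inl ⟨h1, h3⟩
        · rintro (⟨h1, h2⟩ | ⟨h1, h2⟩)
          · exact ⟨h1, fun h => h2 h.1⟩
          · exact ⟨h1, fun h => h.2.2 h2⟩
      rw [e1]
      exact hA.cl'.union ((isClosed_XL P).inter (hA.cl.preimage (sg_cont j)))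
    · rintro p ⟨h1, h2, h3⟩ l hl
      refine ⟨hA.inv p h1 l hl, sg_XL j ((XL_add P hl).2 (hA.sub h1)), fun h4 => h3 ?_⟩
      have h4' : DConn.sg j (p + l) ∈ A := h4
      have h5 := hA.inv _ h4' (-DConn.sg j l) fun i => neg_mem (sg_gau j hl i)
      rwa [sg_add, add_neg_cancel_right] at h5
  have hDne : D.Nonempty := ⟨p0, hp0, sg_XL j (hA.sub hp0), hp0'⟩
  obtain ⟨z, w, hzw, hw⟩ := Cur.exists_ram (L := LG) (s := P.s)
  obtain ⟨x, y, hxy⟩ := exists_f P j z
  obtain ⟨p, ⟨hp, -, hp'⟩, hx, hy⟩ := hD.surj hDne x y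
  apply hp'
  have h1 := hA.sub hp j
  rw [hx, hy, hxy] at h1
  have h2 : 2 * p (wi j) ∈ LG.lattice := by
    rcases Cur.cur_fibre h1 hzw with h | h
    · have h3 := add_mem (add_mem h h) hw
      have e : p (wi j) - w + (p (wi j) - w) + 2 * w = 2 * p (wi j) := by ring
      rwa [e] at h3
    · have h3 := sub_mem (add_mem h h) hw
      have e : p (wi j) + w + (p (wi j) + w) - 2 * w = 2 * p (wi j) := by ring
      rwa [e] at h3
  have h3 := hA.inv p hp (DConn.sg j p - p) (by
    intro i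
    rw [Pi.sub_apply]
    by_cases h : i = wi j
    · subst h
      rw [sg_self]
      have e : -p (wi j) - p (wi j) = -(2 * p (wi j)) := by ring
      rw [e]
      exact neg_mem (mem_LG.1 h2)
    · rw [sg_of_ne h, sub_self]
      exact zero_mem _)
  rwa [add_sub_cancel] at h3

theorem Clo.all {P : Par} {A : Set (E 6)} (hA : Clo P A) (hne : A.Nonempty) : XL P ⊆ A := by
  classical
  intro p' hp'
  have key : ∀ s : Finset (Fin 4), ∃ p ∈ A, p 0 = p' 0 ∧ p 1 = p' 1 ∧
      ∀ j ∈ s, p' (wi j) - p (wi j) ∈ Gau := by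
    intro s
    induction s using Finset.induction_on with
    | empty =>
      obtain ⟨p, hp, h0, h1⟩ := hA.surj hne (p' 0) (p' 1)
      exact ⟨p, hp, h0, h1, fun j hj => absurd hj (Finset.notMem_empty j)⟩
    | insert j s hj ih =>
      obtain ⟨p, hp, h0, h1, h2⟩ := ih
      have h3 := hA.sub hp j
      rw [h0, h1] at h3
      rcases Cur.cur_fibre (hp' j) h3 with h | h
      · refine ⟨p, hp, h0, h1, fun i hi => ?_⟩
        rcases Finset.mem_insert.1 hi with rfl | hi
        · exact mem_LG.1 h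
        · exact h2 i hi
      · refine ⟨DConn.sg j p, hA.sg j p hp, ?_, ?_, fun i hi => ?_⟩
        · rw [sg_of_ne (wi_ne0 j), h0]
        · rw [sg_of_ne (wi_ne1 j), h1]
        · rcases Finset.mem_insert.1 hi with rfl | hi
          · rw [sg_self, sub_neg_eq_add]
            exact mem_LG.1 h
          · have hne' : i ≠ j := fun h => hj (h ▸ hi)
            rw [sg_of_ne fun h' => hne' (wi_inj h')]
            exact h2 i hi
  obtain ⟨p, hp, h0, h1, h2⟩ := key Finset.univ
  have h3 := hA.inv p hp (p' - p) (forall6 (by rw [Pi.sub_apply, h0, sub_self]; exact zero_mem _)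
    (by rw [Pi.sub_apply, h1, sub_self]; exact zero_mem _)
    fun j => h2 j (Finset.mem_univ j))
  rwa [add_sub_cancel] at h3

end DConn

/-- Connectedness: a relatively clopen nonempty subset `A` of `q '' XL` is closed in the torus, its
image in the `(x, y)`-torus is closed (compactness) and open (`open_cur`), so everything; the four
involutions `w_j ↦ -w_j` preserve `A` (a point of `A \ σ_j A` over a ramified `f_j` is fixed); they
act transitively on the fibres (`Cur.cur_fibre`). Nonempty by `Cur.exists_cur`. -/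
theorem XS_conn (P : Par) {T : CMfd 6} {q : E 6 → T} (hT : IsTorus T q) :
    IsConnected (q '' XL P) := by
  refine ⟨?_, ?_⟩
  · choose w hw using fun j : Fin 4 => Cur.exists_cur (L := LG) (s := P.s) (P.f j 0 0)
    refine ⟨q (DConn.pt 0 0 w), _, fun j => ?_, rfl⟩
    rw [DConn.pt_wi]
    exact hw j
  · rw [isPreconnected_closed_iff]
    rintro t t' ht ht' hsub ⟨_, ⟨p1, hp1, rfl⟩, h1⟩ ⟨_, ⟨p2, hp2, rfl⟩, h2⟩
    by_contra hcon
    rw [not_nonempty_iff_eq_empty] at hcon
    have hqc := hT.continuous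
    have hA : DConn.Clo P (XL P ∩ q ⁻¹' t) := by
      refine ⟨inter_subset_left, (isClosed_XL P).inter (ht.preimage hqc), ?_, ?_⟩
      · have e1 : XL P \ (XL P ∩ q ⁻¹' t) = XL P ∩ q ⁻¹' t' := by
          ext p
          constructor
          · rintro ⟨h3, h4⟩
            refine ⟨h3, ?_⟩
            rcases hsub ⟨p, h3, rfl⟩ with h5 | h5
            · exact absurd ⟨h3, h5⟩ h4
            · exact h5
          · rintro ⟨h3, h4⟩
            refine ⟨h3, fun h5 => ?_⟩
            have h6 : q p ∈ q '' XL P ∩ (t ∩ t') := ⟨⟨p, h3, rfl⟩, h5.2, h4⟩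
            rw [hcon] at h6
            exact h6
        rw [e1]
        exact (isClosed_XL P).inter (ht'.preimage hqc)
      · rintro p ⟨h3, h4⟩ l hl
        refine ⟨(XL_add P hl).2 h3, ?_⟩
        have h5 : q (p + l) = q p := (hT.eq_iff _ _).2 fun i => by
          rw [Pi.add_apply, add_sub_cancel_left]
          exact hl i
        rw [mem_preimage, h5]
        exact h4
    have h3 := hA.all ⟨p1, hp1, h1⟩ hp2
    have h6 : q p2 ∈ q '' XL P ∩ (t ∩ t') := ⟨⟨p2, hp2, rfl⟩, h3.2, h2⟩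
    rw [hcon] at h6
    exact h6

end Pool.Agent.K708
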