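import Pool.Agent.Lib.K708.FcC

/-! # K708: local primitives of closed 1-forms -/

set_option autoImplicit false

open scoped Manifold ContDiff Topology
open Set

noncomputable section

namespace Pool.Agent.K708

section

variable {n : ℕ} {M : Type*}
  [TopologicalSpace M] [ChartedSpace (E n) M] [IsManifold 𝓘(ℂ, E n) ω M]

omit [IsManifold 𝓘(ℂ, E n) ω M] in
private theorem FcPoin.symm_holoAt {φ : OpenPartialHomeomorph M (E n)} (hφ : φ ∈ CA n M)
    {z : E n} (hz : z ∈ φ.target) : HoloAt n n φ.symm z :=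
  (contMDiffOn_symm_of_mem_maximalAtlas hφ).contMDiffAt (φ.open_target.mem_nhds hz)

omit [IsManifold 𝓘(ℂ, E n) ω M] in
private theorem FcPoin.holoAt {φ : OpenPartialHomeomorph M (E n)} (hφ : φ ∈ CA n M)
    {x : M} (hx : x ∈ φ.source) : HoloAt n n φ x :=
  (contMDiffOn_of_mem_maximalAtlas hφ).contMDiffAt (φ.open_source.mem_nhds hx)

/-- A form which is closed holomorphic in some holomorphic chart near each point is so. -/
theorem H1_of_local {α : F1 n M}
    (h : ∀ x : M, ∃ φ ∈ CA n M, x ∈ φ.source ∧ ∃ g : E n → ℂ, ContDiffAt ℂ ω g (φ x) ∧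
      ∀ᶠ z in 𝓝 (φ x), ∀ u, loc1 φ α z u = fderiv ℂ g z u) : H1 α := by
  have key : ∀ (φ : OpenPartialHomeomorph M (E n)) (x : M) (g : E n → ℂ),
      ContDiffAt ℂ ω g (φ x) → (∀ᶠ z in 𝓝 (φ x), ∀ u, loc1 φ α z u = fderiv ℂ g z u) →
      loc1 φ α =ᶠ[𝓝 (φ x)] fderiv ℝ g := by
    intro φ x g hg hev
    have h1 : ∀ᶠ z in 𝓝 (φ x), DifferentiableAt ℂ g z := by
      have h2 := (hg.of_le (le_top : (1 : WithTop ℕ∞) ≤ ω)).eventually (by simp)
      filter_upwards [h2] with z hz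
      exact hz.differentiableAt (by simp)
    filter_upwards [hev, h1] with z hz hz1
    ext u
    rw [hz u, (hz1.hasFDerivAt.restrictScalars ℝ).fderiv]
    rfl
  have hS : S1 α := by
    refine S1_of_local fun x => ?_
    obtain ⟨φ, hφ, hx, g, hg, hev⟩ := h x
    refine ⟨φ, ra_of_ca hφ, hx, ?_⟩
    have hgR : ContDiffAt ℝ ω g (φ x) := hg.restrict_scalars ℝ
    have h1 : ContDiffAt ℝ ∞ (fderiv ℝ g) (φ x) := by
      refine (hgR.fderiv_right (m := ω) ?_).of_le le_top
      simp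
    exact h1.congr_of_eventuallyEq (key φ x g hg hev)
  refine ⟨⟨hS, ?_⟩, ?_⟩
  · funext x
    obtain ⟨φ, hφ, hx, g, hg, hev⟩ := h x
    have hgR : ContDiffAt ℝ ω g (φ x) := hg.restrict_scalars ℝ
    have h1 := loc2_d1 hS (ra_of_ca hφ) (φ.map_source hx)
    have h2 : dE1 (loc1 φ α) (φ x) = 0 := by
      unfold dE1
      rw [(key φ x g hg hev).fderiv_eq]
      have h5 : fderiv ℝ (fderiv ℝ g) (φ x) = (fderiv ℝ (fderiv ℝ g) (φ x)).flip := by
        ext u v
        rw [ContinuousLinearMap.flip_apply]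
        have h3 : IsSymmSndFDerivAt ℝ g (φ x) := hgR.isSymmSndFDerivAt (by simp)
        exact h3.eq u v
      rw [← h5]
      ext u v
      exact sub_self (fderiv ℝ (fderiv ℝ g) (φ x) u v)
    rw [h2] at h1
    have h4 := eq_of_loc2 (ra_of_ca hφ) hx (d1 α)
    rw [h1] at h4
    rw [h4]
    rfl
  · intro x u
    obtain ⟨φ, hφ, hx, g, hg, hev⟩ := h x
    have h1 := eq_of_loc1 (ra_of_ca hφ) hx α
    have h2 := hev.self_of_nhds
    rw [h1, ContinuousLinearMap.comp_apply, ContinuousLinearMap.comp_apply,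
      D_smul_I (FcPoin.holoAt hφ hx), h2, h2, map_smul, smul_eq_mul]

/-- Poincare lemma for 1-forms on balls of the model space. -/
theorem poincare_ball {a : E n → (E n →L[ℝ] ℂ)} {z₀ : E n} {r : ℝ}
    (ha : ContDiffOn ℝ ∞ a (Metric.ball z₀ r)) (hcl : ∀ z ∈ Metric.ball z₀ r, dE1 a z = 0) :
    ∃ g : E n → ℂ, ContDiffOn ℝ ∞ g (Metric.ball z₀ r) ∧
      ∀ z ∈ Metric.ball z₀ r, fderiv ℝ g z = a z := by
  obtain ⟨g, hg⟩ := (convex_ball z₀ r).exists_forall_hasFDerivAt_of_fderiv_symmetric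
    Metric.isOpen_ball (ha.differentiableOn (by simp)) (fun z hz u v => by
      have h1 : fderiv ℝ a z = (fderiv ℝ a z).flip := eq_of_sub_eq_zero (hcl z hz)
      conv_lhs => rw [h1]
      rfl)
  refine ⟨g, ?_, fun z hz => (hg z hz).fderiv⟩
  rw [contDiffOn_infty_iff_fderiv_of_isOpen Metric.isOpen_ball]
  exact ⟨fun z hz => (hg z hz).differentiableAt.differentiableWithinAt,
    ha.congr fun z hz => (hg z hz).fderiv⟩

/-- Local primitives of closed 1-forms. -/
theorem C1.primitive {α : F1 n M} (h : C1 α) {φ : OpenPartialHomeomorph M (E n)}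
    (hφ : φ ∈ RA n M) {z₀ : E n} {r : ℝ} (hb : Metric.ball z₀ r ⊆ φ.target) :
    ∃ g : E n → ℂ, ContDiffOn ℝ ∞ g (Metric.ball z₀ r) ∧
      ∀ z ∈ Metric.ball z₀ r, fderiv ℝ g z = loc1 φ α z := by
  refine poincare_ball ((h.1 φ hφ).mono hb) fun z hz => ?_
  rw [← loc2_d1 h.1 hφ (hb hz), h.2]
  rfl

/-- Local holomorphic primitives of closed holomorphic 1-forms. -/
theorem H1.primitive {α : F1 n M} (h : H1 α) {φ : OpenPartialHomeomorph M (E n)}
    (hφ : φ ∈ CA n M) {z₀ : E n} {r : ℝ} (hb : Metric.ball z₀ r ⊆ φ.target) :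
    ∃ g : E n → ℂ, DifferentiableOn ℂ g (Metric.ball z₀ r) ∧
      ∀ z ∈ Metric.ball z₀ r, ∀ u, fderiv ℂ g z u = loc1 φ α z u := by
  obtain ⟨g, hg, hd⟩ := h.1.primitive (ra_of_ca hφ) hb
  have hI : ∀ z ∈ Metric.ball z₀ r, ∀ u, loc1 φ α z (Complex.I • u) =
      Complex.I * loc1 φ α z u := by
    intro z hz u
    unfold loc1
    rw [ContinuousLinearMap.comp_apply, ContinuousLinearMap.comp_apply,
      D_smul_I (FcPoin.symm_holoAt hφ (hb hz)), h.2]
  have key : ∀ z ∈ Metric.ball z₀ r, ∃ L : E n →L[ℂ] ℂ, HasFDerivAt g L z ∧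
      ∀ u, L u = loc1 φ α z u := by
    intro z hz
    have hsm : ∀ (c : ℂ) (u : E n), loc1 φ α z (c • u) = c * loc1 φ α z u := by
      intro c u
      have h1 : c • u = c.re • u + c.im • (Complex.I • u) := by
        conv_lhs => rw [← Complex.re_add_im c]
        rw [add_smul, mul_smul]
        rfl
      rw [h1, map_add, map_smul, map_smul, hI z hz, Complex.real_smul, Complex.real_smul]
      conv_rhs => rw [← Complex.re_add_im c]
      ring
    let L : E n →L[ℂ] ℂ :=
      { toFun := fun u => loc1 φ α z u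
        map_add' := fun u v => map_add _ u v
        map_smul' := fun c u => by rw [hsm, RingHom.id_apply, smul_eq_mul]
        cont := (loc1 φ α z).continuous }
    have h2 : HasFDerivAt g (loc1 φ α z) z := by
      rw [← hd z hz]
      exact ((hg.contDiffAt (Metric.isOpen_ball.mem_nhds hz)).differentiableAt
        (by simp)).hasFDerivAt
    exact ⟨L, hasFDerivAt_of_restrictScalars ℝ h2 (by ext u; rfl), fun u => rfl⟩
  refine ⟨g, fun z hz => ?_, fun z hz u => ?_⟩
  · obtain ⟨L, hL, _⟩ := key z hz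
    exact hL.differentiableAt.differentiableWithinAt
  · obtain ⟨L, hL, hLu⟩ := key z hz
    rw [hL.fderiv]
    exact hLu u

end

end Pool.Agent.K708
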