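import Pool.Agent.Lib.K708.DHart
import Pool.Agent.Lib.K708.FcPoin
import Pool.Agent.Lib.K708.FcHol

/-! # K708: extension of closed holomorphic forms over finite sets (row DExt) -/

set_option autoImplicit false

open scoped Manifold ContDiff Topology
open Set Filter

noncomputable section

namespace Pool.Agent.K708

namespace DExt

theorem isPreconnected_punct (z₀ : E 2) {r : ℝ} (hr : 0 < r) :
    IsPreconnected (Metric.ball z₀ r \ {z₀}) := by
  have hrank : 1 < Module.rank ℝ (E 2) := by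
    rw [← Module.finrank_eq_rank]
    have : Module.finrank ℝ (E 2) = 4 := by
      rw [Module.finrank_pi_fintype]
      simp [Complex.finrank_real_complex]
    rw [this]
    norm_num
  have h1 : Metric.ball z₀ r \ {z₀} =
      (OpenPartialHomeomorph.univBall z₀ r : E 2 → E 2) '' {0}ᶜ := by
    have h0 : (OpenPartialHomeomorph.univBall z₀ r : E 2 → E 2) 0 = z₀ :=
      OpenPartialHomeomorph.univBall_apply_zero z₀ r
    have hs : (OpenPartialHomeomorph.univBall z₀ r : OpenPartialHomeomorph (E 2) (E 2)).source =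
        univ := OpenPartialHomeomorph.univBall_source z₀ r
    ext z
    constructor
    · rintro ⟨hz1, hz2⟩
      have hz : z ∈ (OpenPartialHomeomorph.univBall z₀ r :
          OpenPartialHomeomorph (E 2) (E 2)).target := by
        rwa [OpenPartialHomeomorph.univBall_target z₀ hr]
      refine ⟨_, ?_, OpenPartialHomeomorph.right_inv _ hz⟩
      intro h
      rw [mem_singleton_iff] at h
      have h2 := OpenPartialHomeomorph.right_inv _ hz
      rw [h, h0] at h2
      exact hz2 h2.symm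
    · rintro ⟨w, hw, rfl⟩
      refine ⟨?_, ?_⟩
      · rw [← OpenPartialHomeomorph.univBall_target z₀ hr]
        exact OpenPartialHomeomorph.map_source _ (by rw [hs]; exact mem_univ _)
      · intro h
        rw [mem_singleton_iff] at h
        apply hw
        rw [mem_singleton_iff]
        have h2 := (OpenPartialHomeomorph.univBall z₀ r :
          OpenPartialHomeomorph (E 2) (E 2)).injOn (x₁ := w) (x₂ := 0)
          (by rw [hs]; exact mem_univ _) (by rw [hs]; exact mem_univ _)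
        exact h2 (by rw [h, h0])
  rw [h1]
  refine (isConnected_compl_singleton_of_one_lt_rank hrank 0).isPreconnected.image _ ?_
  exact (OpenPartialHomeomorph.continuous_univBall z₀ r).continuousOn

/-- Extension of a closed holomorphic form over the centre of a ball. -/
theorem ext_form {b : E 2 → (E 2 →L[ℝ] ℂ)} {z₀ : E 2} {r : ℝ} (hr : 0 < r)
    (hb : ∀ z ∈ Metric.ball z₀ r, z ≠ z₀ → ∃ G : E 2 → ℂ, ContDiffAt ℂ ω G z ∧
      ∀ᶠ w in 𝓝 z, ∀ u, b w u = fderiv ℂ G w u) :
    ∃ G : E 2 → ℂ, (∀ z ∈ Metric.ball z₀ r, ContDiffAt ℂ ω G z) ∧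
      ∀ z ∈ Metric.ball z₀ r, z ≠ z₀ → ∀ u, b z u = fderiv ℂ G z u := by
  -- coefficients
  have hcoef : ∀ v : E 2, ∀ z ∈ Metric.ball z₀ r, z ≠ z₀ →
      DifferentiableAt ℂ (fun z => b z v) z := by
    intro v z hz hne
    obtain ⟨G, hG, hev⟩ := hb z hz hne
    have h1 : ContDiffAt ℂ ω (fderiv ℂ G) z := hG.fderiv_right (by simp)
    have h2 : DifferentiableAt ℂ (fun w => fderiv ℂ G w v) z :=
      (h1.differentiableAt (by simp)).clm_apply (differentiableAt_const v)
    refine h2.congr_of_eventuallyEq ?_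
    filter_upwards [hev] with w hw
    exact hw v
  obtain ⟨C0, -, hC0, hC0'⟩ := hartogs_pt (fun z => b z (Pi.single 0 1)) z₀ hr (hcoef _)
  obtain ⟨C1, -, hC1, hC1'⟩ := hartogs_pt (fun z => b z (Pi.single 1 1)) z₀ hr (hcoef _)
  let A : E 2 → (E 2 →L[ℂ] ℂ) := fun z => C0 z • ContinuousLinearMap.proj 0 +
    C1 z • ContinuousLinearMap.proj 1
  let AR : E 2 → (E 2 →L[ℝ] ℂ) := fun z => C0 z • ContinuousLinearMap.proj 0 +
    C1 z • ContinuousLinearMap.proj 1
  have hAR : ∀ z, (A z).restrictScalars ℝ = AR z := fun z => rfl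
  have hAb : ∀ z ∈ Metric.ball z₀ r, z ≠ z₀ → ∀ u, b z u = A z u := by
    intro z hz hne u
    obtain ⟨G, hG, hev⟩ := hb z hz hne
    have h1 := hev.self_of_nhds
    have h2 : u = u 0 • (Pi.single 0 1 : E 2) + u 1 • (Pi.single 1 1 : E 2) := by
      funext i
      fin_cases i <;> simp
    have h3 : A z u = C0 z * u 0 + C1 z * u 1 := rfl
    rw [h3, hC0' z hz hne, hC1' z hz hne, h1, h1, h1]
    conv_lhs => rw [h2]
    rw [map_add, map_smul, map_smul, smul_eq_mul, smul_eq_mul]
    ring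
  have hARc : ContDiffOn ℝ ω AR (Metric.ball z₀ r) :=
    ((hC0.restrict_scalars ℝ).smul contDiffOn_const).add
      ((hC1.restrict_scalars ℝ).smul contDiffOn_const)
  have hdiff : ∀ z ∈ Metric.ball z₀ r, ContDiffAt ℝ ω AR z := fun z hz =>
    hARc.contDiffAt (Metric.isOpen_ball.mem_nhds hz)
  -- closed
  have hcl : ∀ z ∈ Metric.ball z₀ r, z ≠ z₀ → ∀ u v, fderiv ℝ AR z u v = fderiv ℝ AR z v u := by
    intro z hz hne u v
    obtain ⟨G, hG, hev⟩ := hb z hz hne
    have h1 : AR =ᶠ[𝓝 z] fderiv ℝ G := by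
      have h2 : ∀ᶠ w in 𝓝 z, DifferentiableAt ℂ G w := by
        have h2 := (hG.of_le (le_top : (1 : WithTop ℕ∞) ≤ ω)).eventually (by simp)
        filter_upwards [h2] with z hz
        exact hz.differentiableAt (by simp)
      filter_upwards [hev, h2, Metric.isOpen_ball.mem_nhds hz, isOpen_ne.mem_nhds hne]
        with w hw1 hw2 hw3 hw4
      rw [← hAR, (hw2.hasFDerivAt.restrictScalars ℝ).fderiv]
      ext u
      have h3 := hAb w hw3 hw4 u
      rw [hw1] at h3
      exact h3.symm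
    rw [h1.fderiv_eq]
    have hGR : ContDiffAt ℝ ω G z := hG.restrict_scalars ℝ
    have h3 : IsSymmSndFDerivAt ℝ G z := hGR.isSymmSndFDerivAt (by simp)
    exact h3.eq u v
  have hcl' : ∀ z ∈ Metric.ball z₀ r, ∀ u v, fderiv ℝ AR z u v = fderiv ℝ AR z v u := by
    intro z hz u v
    by_cases hne : z = z₀
    · subst hne
      have h1 : ContinuousAt (fun w => fderiv ℝ AR w) z :=
        ((hdiff z hz).fderiv_right (m := 0) (by simp)).continuousAt
      have h2 : ContinuousAt (fun w => fderiv ℝ AR w u v) z :=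
        (h1.clm_apply continuousAt_const).clm_apply continuousAt_const
      have h3 : ContinuousAt (fun w => fderiv ℝ AR w v u) z :=
        (h1.clm_apply continuousAt_const).clm_apply continuousAt_const
      have h4 : ∀ᶠ w in 𝓝[≠] z, fderiv ℝ AR w u v = fderiv ℝ AR w v u := by
        filter_upwards [nhdsWithin_le_nhds (Metric.isOpen_ball.mem_nhds hz), self_mem_nhdsWithin]
          with w hw hw'
        exact hcl w hw hw' u v
      have : (𝓝[≠] z).NeBot := inferInstance
      exact tendsto_nhds_unique ((h2.tendsto.mono_left nhdsWithin_le_nhds).congr' h4)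
        (h3.tendsto.mono_left nhdsWithin_le_nhds)
    · exact hcl z hz hne u v
  obtain ⟨G, hG⟩ := (convex_ball z₀ r).exists_forall_hasFDerivAt_of_fderiv_symmetric
    Metric.isOpen_ball (hARc.differentiableOn (by simp)) hcl'
  have hGC : ∀ z ∈ Metric.ball z₀ r, HasFDerivAt G (A z) z := fun z hz =>
    hasFDerivAt_of_restrictScalars ℝ (hG z hz) (hAR z)
  refine ⟨G, fun z hz => ?_, fun z hz hne u => ?_⟩
  · refine (DHart.analyticAt_of_differentiable ?_).contDiffAt
    filter_upwards [Metric.isOpen_ball.mem_nhds hz] with w hw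
    exact (hGC w hw).differentiableAt
  · rw [(hGC z hz).fderiv, hAb z hz hne u]

end DExt

/-- Extension of closed holomorphic forms over a finite set (row DExt). -/
theorem H1_extend {Y : CMfd 2} {S : Set Y} (hS : S.Finite) {β : F1 2 Y}
    (hβ : ∀ y ∉ S, ∃ φ ∈ CA 2 Y, y ∈ φ.source ∧ ∃ g : E 2 → ℂ, ContDiffAt ℂ ω g (φ y) ∧
      ∀ᶠ z in 𝓝 (φ y), ∀ u, loc1 φ β z u = fderiv ℂ g z u) :
    ∃ α : F1 2 Y, H1 α ∧ ∀ y ∉ S, α y = β y := by
  classical
  -- data near the points of `S`
  have hdata : ∀ s : Y, ∃ (r : ℝ) (G : E 2 → ℂ), 0 < r ∧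
      Metric.ball (chartAt (E 2) s s) r ⊆ (chartAt (E 2) s).target ∧
      (∀ z ∈ Metric.ball (chartAt (E 2) s s) r, z ≠ chartAt (E 2) s s →
        (chartAt (E 2) s).symm z ∉ S) ∧
      (∀ z ∈ Metric.ball (chartAt (E 2) s s) r, ContDiffAt ℂ ω G z) ∧
      ∀ z ∈ Metric.ball (chartAt (E 2) s s) r, z ≠ chartAt (E 2) s s →
        ∀ u, loc1 (chartAt (E 2) s) β z u = fderiv ℂ G z u := by
    intro s
    set ψ := chartAt (E 2) s with hψ
    have hψA : ψ ∈ CA 2 Y := chartAt_mem_CA s
    have hs : s ∈ ψ.source := mem_chart_source _ s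
    have hopen : IsOpen (ψ.target ∩ ψ.symm ⁻¹' (S \ {s})ᶜ) :=
      ψ.symm.isOpen_inter_preimage (hS.subset diff_subset).isClosed.isOpen_compl
    obtain ⟨r, hr, hball⟩ := Metric.isOpen_iff.1 hopen (ψ s) ⟨ψ.map_source hs, by
      rw [mem_preimage, ψ.left_inv hs]
      exact fun h => h.2 rfl⟩
    have hnot : ∀ z ∈ Metric.ball (ψ s) r, z ≠ ψ s → ψ.symm z ∉ S := by
      intro z hz hne hzS
      apply (hball hz).2
      refine ⟨hzS, fun h => hne ?_⟩
      rw [mem_singleton_iff] at h
      rw [← h, ψ.right_inv (hball hz).1]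
    obtain ⟨G, hG1, hG2⟩ := DExt.ext_form (b := loc1 ψ β) (z₀ := ψ s) hr (by
      intro z hz hne
      obtain ⟨φ, hφ, hy, g, hg, hev⟩ := hβ (ψ.symm z) (hnot z hz hne)
      have hzt : z ∈ ψ.target := (hball hz).1
      refine ⟨g ∘ (φ ∘ ψ.symm), ?_, ?_⟩
      · have h1 : ContDiffAt ℂ ω (φ ∘ (id : Y → Y) ∘ ψ.symm) z :=
          HoloAt.analyticAt_loc hψA hφ hzt hy contMDiffAt_id
        exact ContDiffAt.comp z hg h1
      · have hev2 : ∀ᶠ w in 𝓝 z, ψ.symm w ∈ φ.source := by
          exact (ψ.symm.continuousAt hzt).preimage_mem_nhds (φ.open_source.mem_nhds hy)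
        have hev3 : ∀ᶠ w in 𝓝 z, ∀ u, loc1 φ β (φ (ψ.symm w)) u =
            fderiv ℂ g (φ (ψ.symm w)) u := by
          have h1 : ContinuousAt (fun w => φ (ψ.symm w)) z :=
            ContinuousAt.comp (φ.continuousAt hy) (ψ.symm.continuousAt hzt)
          exact h1.eventually hev
        have hev4 : ∀ᶠ w in 𝓝 z, DifferentiableAt ℂ g (φ (ψ.symm w)) := by
          have h1 : ContinuousAt (fun w => φ (ψ.symm w)) z :=
            ContinuousAt.comp (φ.continuousAt hy) (ψ.symm.continuousAt hzt)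
          have h2 := (hg.of_le (le_top : (1 : WithTop ℕ∞) ≤ ω)).eventually (by simp)
          filter_upwards [h1.eventually h2] with w hw
          exact hw.differentiableAt (by simp)
        filter_upwards [hev2, hev3, hev4, ψ.open_target.mem_nhds hzt] with w hw2 hw3 hw4 hw5 u
        rw [loc1_change (ra_of_ca hψA) (ra_of_ca hφ) hw5 hw2, ContinuousLinearMap.comp_apply, hw3]
        have h1 : ContDiffAt ℂ ω (φ ∘ (id : Y → Y) ∘ ψ.symm) w :=
          HoloAt.analyticAt_loc hψA hφ hw5 hw2 contMDiffAt_id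
        have h2 : DifferentiableAt ℂ (φ ∘ ψ.symm) w := h1.differentiableAt (by simp)
        rw [fderiv_comp w hw4 h2, ContinuousLinearMap.comp_apply,
          (h2.hasFDerivAt.restrictScalars ℝ).fderiv]
        rfl)
    exact ⟨r, G, hr, fun z hz => (hball hz).1, hnot, hG1, hG2⟩
  choose r G hr hball hnot hG1 hG2 using hdata
  let α : F1 2 Y := fun y => if y ∈ S then
    (fderiv ℂ (G y) (chartAt (E 2) y y)).restrictScalars ℝ else β y
  have hαβ : ∀ y ∉ S, α y = β y := fun y hy => if_neg hy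
  refine ⟨α, H1_of_local fun y => ?_, hαβ⟩
  by_cases hy : y ∈ S
  · refine ⟨chartAt (E 2) y, chartAt_mem_CA y, mem_chart_source _ y, G y,
      hG1 y _ (Metric.mem_ball_self (hr y)), ?_⟩
    filter_upwards [Metric.ball_mem_nhds _ (hr y)] with z hz u
    by_cases hz' : z = chartAt (E 2) y y
    · rw [hz', loc1_chartAt]
      simp only [α, if_pos hy]
      rfl
    · rw [← hG2 y z hz hz' u]
      have h1 := hαβ _ (hnot y z hz hz')
      simp only [loc1, h1]
  · obtain ⟨φ, hφ, hyφ, g, hg, hev⟩ := hβ y hy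
    refine ⟨φ, hφ, hyφ, g, hg, ?_⟩
    have h1 : ∀ᶠ z in 𝓝 (φ y), φ.symm z ∉ S := by
      have h2 : ContinuousAt φ.symm (φ y) := φ.symm.continuousAt (φ.map_source hyφ)
      refine h2.eventually (hS.isClosed.isOpen_compl.mem_nhds ?_)
      rw [φ.left_inv hyφ]
      exact hy
    filter_upwards [hev, h1] with z hz1 hz2 u
    rw [← hz1 u]
    have h3 := hαβ _ hz2
    simp only [loc1, h3]

/-- Extension of maps to the elliptic curve over a finite set (row DExt). -/
theorem TF_extend {Y : CMfd 2} {S : Set Y} (hS : S.Finite) {F : Y → Tor} {α : F1 2 Y}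
    (hα : H1 α)
    (hF : ∀ y ∉ S, ∃ g : Y → ℂ, ContMDiffAt 𝓘(ℝ, E 2) 𝓘(ℝ, ℂ) ∞ g y ∧
      ∀ᶠ y' in 𝓝 y, F y' = (QuotientAddGroup.mk (g y') : Tor) ∧ α y' = d0 2 g y') :
    ∃ F' : Y → Tor, TF F' α ∧ ∀ y ∉ S, F' y = F y := by
  classical
  have hdata : ∀ s : Y, ∃ (r : ℝ) (G : E 2 → ℂ) (c : ℂ), 0 < r ∧
      Metric.ball (chartAt (E 2) s s) r ⊆ (chartAt (E 2) s).target ∧
      (∀ z ∈ Metric.ball (chartAt (E 2) s s) r, z ≠ chartAt (E 2) s s →
        (chartAt (E 2) s).symm z ∉ S) ∧
      ContDiffOn ℝ ∞ G (Metric.ball (chartAt (E 2) s s) r) ∧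
      (∀ z ∈ Metric.ball (chartAt (E 2) s s) r, fderiv ℝ G z = loc1 (chartAt (E 2) s) α z) ∧
      ∀ z ∈ Metric.ball (chartAt (E 2) s s) r, z ≠ chartAt (E 2) s s →
        F ((chartAt (E 2) s).symm z) = (QuotientAddGroup.mk (G z + c) : Tor) := by
    intro s
    set ψ := chartAt (E 2) s with hψ
    have hψA : ψ ∈ CA 2 Y := chartAt_mem_CA s
    have hψR : ψ ∈ RA 2 Y := chartAt_mem_RA s
    have hs : s ∈ ψ.source := mem_chart_source _ s
    have hopen : IsOpen (ψ.target ∩ ψ.symm ⁻¹' (S \ {s})ᶜ) :=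
      ψ.symm.isOpen_inter_preimage (hS.subset diff_subset).isClosed.isOpen_compl
    obtain ⟨r, hr, hball⟩ := Metric.isOpen_iff.1 hopen (ψ s) ⟨ψ.map_source hs, by
      rw [mem_preimage, ψ.left_inv hs]
      exact fun h => h.2 rfl⟩
    have hnot : ∀ z ∈ Metric.ball (ψ s) r, z ≠ ψ s → ψ.symm z ∉ S := by
      intro z hz hne hzS
      apply (hball hz).2
      refine ⟨hzS, fun h => hne ?_⟩
      rw [mem_singleton_iff] at h
      rw [← h, ψ.right_inv (hball hz).1]
    have hbt : Metric.ball (ψ s) r ⊆ ψ.target := fun z hz => (hball hz).1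
    obtain ⟨G, hG1, hG2⟩ := hα.1.primitive hψR hbt
    -- the difference is locally constant
    have hloc : ∀ z ∈ Metric.ball (ψ s) r \ {ψ s}, ∀ᶠ w in 𝓝 z,
        F (ψ.symm w) - (QuotientAddGroup.mk (G w) : Tor) =
          F (ψ.symm z) - (QuotientAddGroup.mk (G z) : Tor) := by
      rintro z ⟨hz, hne⟩
      obtain ⟨g, hg, hev⟩ := hF (ψ.symm z) (hnot z hz hne)
      have hzt : z ∈ ψ.target := hbt hz
      have hcont : ContinuousAt ψ.symm z := ψ.symm.continuousAt hzt
      have h1 : ∀ᶠ w in 𝓝 z, (F (ψ.symm w) = (QuotientAddGroup.mk (g (ψ.symm w)) : Tor) ∧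
          α (ψ.symm w) = d0 2 g (ψ.symm w)) ∧
          MDifferentiableAt 𝓘(ℝ, E 2) 𝓘(ℝ, ℂ) g (ψ.symm w) ∧ w ∈ Metric.ball (ψ s) r := by
        filter_upwards [hcont.eventually hev, hcont.eventually (FcHol.eventually_mdiff hg),
          Metric.isOpen_ball.mem_nhds hz] with w hw1 hw2 hw3
        exact ⟨hw1, hw2, hw3⟩
      obtain ⟨ε, hε, hball2⟩ := Metric.eventually_nhds_iff_ball.1 h1
      have hk : ∀ w ∈ Metric.ball z ε,
          HasFDerivAt (fun w => g (ψ.symm w) - G w) (0 : E 2 →L[ℝ] ℂ) w := by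
        intro w hw
        obtain ⟨⟨-, h2⟩, h3, h4⟩ := hball2 w hw
        have hwt : w ∈ ψ.target := hbt h4
        have h5 : DifferentiableAt ℝ (g ∘ ψ.symm) w := by
          rw [← mdifferentiableAt_iff_differentiableAt]
          exact MDifferentiableAt.comp w h3 (mdiff_chart_symm hψR hwt)
        have h6 : DifferentiableAt ℝ G w :=
          (hG1.contDiffAt (Metric.isOpen_ball.mem_nhds h4)).differentiableAt (by simp)
        have h7 : fderiv ℝ (g ∘ ψ.symm) w = fderiv ℝ G w := by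
          rw [← loc1_d0 hψR hwt h3, hG2 w h4]
          simp only [loc1, h2]
        have h8 := h5.hasFDerivAt.sub h6.hasFDerivAt
        rw [h7, sub_self] at h8
        exact h8
      filter_upwards [Metric.ball_mem_nhds z hε] with w hw
      have h2 : (fun w => g (ψ.symm w) - G w) w = (fun w => g (ψ.symm w) - G w) z :=
        Metric.isOpen_ball.is_const_of_fderiv_eq_zero (convex_ball z ε).isPreconnected
          (fun x hx => (hk x hx).differentiableAt.differentiableWithinAt)
          (fun x hx => (hk x hx).fderiv) hw (Metric.mem_ball_self hε)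
      rw [(hball2 w hw).1.1, (hball2 z (Metric.mem_ball_self hε)).1.1]
      simp only at h2
      rw [← QuotientAddGroup.mk_sub, ← QuotientAddGroup.mk_sub, h2]
    -- a point
    obtain ⟨z₁, hz₁⟩ : (Metric.ball (ψ s) r \ {ψ s}).Nonempty := by
      have hne : (𝓝[≠] (ψ s)).NeBot := inferInstance
      have h1 : Metric.ball (ψ s) r \ {ψ s} ∈ 𝓝[≠] (ψ s) := by
        rw [diff_eq]
        exact inter_mem (nhdsWithin_le_nhds (Metric.ball_mem_nhds _ hr)) self_mem_nhdsWithin
      exact hne.nonempty_of_mem h1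
    obtain ⟨c, hc⟩ := QuotientAddGroup.mk_surjective
      (F (ψ.symm z₁) - (QuotientAddGroup.mk (G z₁) : Tor))
    refine ⟨r, G, c, hr, hbt, hnot, hG1, hG2, fun z hz hne => ?_⟩
    have h1 := (DExt.isPreconnected_punct (ψ s) hr).induction₂'
      (fun z w => F (ψ.symm z) - (QuotientAddGroup.mk (G z) : Tor) =
        F (ψ.symm w) - (QuotientAddGroup.mk (G w) : Tor)) (by
        intro x hx
        filter_upwards [nhdsWithin_le_nhds (hloc x hx)] with w hw
        exact ⟨hw.symm, hw⟩) (by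
        intro x y z _ _ _ h1 h2
        exact h1.trans h2) (x := z) (y := z₁) ⟨hz, hne⟩ hz₁
    rw [← hc] at h1
    rw [QuotientAddGroup.mk_add, ← h1]
    abel
  choose r G c hr hball hnot hG1 hG2 hG3 using hdata
  let F' : Y → Tor := fun y => if y ∈ S then
    (QuotientAddGroup.mk (G y (chartAt (E 2) y y) + c y) : Tor) else F y
  have hF' : ∀ y ∉ S, F' y = F y := fun y hy => if_neg hy
  refine ⟨F', fun x => ?_, hF'⟩
  by_cases hx : x ∈ S
  · have hψR : chartAt (E 2) x ∈ RA 2 Y := chartAt_mem_RA x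
    have hxs : x ∈ (chartAt (E 2) x).source := mem_chart_source _ x
    refine ⟨(fun w => G x w + c x) ∘ chartAt (E 2) x, ?_, ?_⟩
    · have h1 : ContDiffAt ℝ ∞ (fun w => G x w + c x) (chartAt (E 2) x x) :=
        ((hG1 x).contDiffAt (Metric.ball_mem_nhds _ (hr x))).add contDiffAt_const
      exact ContMDiffAt.comp x h1.contMDiffAt
        ((contMDiffOn_of_mem_maximalAtlas hψR).contMDiffAt
          ((chartAt (E 2) x).open_source.mem_nhds hxs))
    · have h2 : ∀ᶠ y in 𝓝 x, chartAt (E 2) x y ∈ Metric.ball (chartAt (E 2) x x) (r x) :=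
        ((chartAt (E 2) x).continuousAt hxs).eventually (Metric.ball_mem_nhds _ (hr x))
      filter_upwards [h2, (chartAt (E 2) x).open_source.mem_nhds hxs] with y hy1 hy2
      constructor
      · by_cases hyx : y = x
        · subst hyx
          simp only [F', if_pos hx]
          rfl
        · have hne : chartAt (E 2) x y ≠ chartAt (E 2) x x := fun h =>
            hyx ((chartAt (E 2) x).injOn hy2 hxs h)
          have h3 := hnot x _ hy1 hne
          have h4 := hG3 x _ hy1 hne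
          rw [(chartAt (E 2) x).left_inv hy2] at h3 h4
          rw [hF' y h3, h4]
          rfl
      · rw [eq_of_loc1 hψR hy2 α, ← hG2 x _ hy1]
        have h3 : DifferentiableAt ℝ (G x) (chartAt (E 2) x y) :=
          ((hG1 x).contDiffAt (Metric.isOpen_ball.mem_nhds hy1)).differentiableAt (by simp)
        have h4 : HasFDerivAt (fun w => G x w + c x) (fderiv ℝ (G x) (chartAt (E 2) x y))
            (chartAt (E 2) x y) := h3.hasFDerivAt.add_const _
        have h5 := mfderiv_comp y (I := 𝓘(ℝ, E 2)) (I' := 𝓘(ℝ, E 2)) (I'' := 𝓘(ℝ, ℂ))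
          (g := fun w => G x w + c x) (f := chartAt (E 2) x)
          h4.differentiableAt.mdifferentiableAt (mdiff_chart hψR hy2)
        rw [mfderiv_eq_fderiv, h4.fderiv] at h5
        exact h5.symm
  · obtain ⟨g, hg, hev⟩ := hF x hx
    refine ⟨g, hg, ?_⟩
    filter_upwards [hev, hS.isClosed.isOpen_compl.mem_nhds hx] with y hy1 hy2
    rw [hF' y hy2]
    exact hy1

end Pool.Agent.K708
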