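import Pool.Agent.Lib.K708.DMod

/-! # K708: birationally invariant form of the data (row DGood) -/

set_option autoImplicit false

open scoped Manifold ContDiff Topology
open Set Filter

noncomputable section

namespace Pool.Agent.K708

/-- `a 0, a 1, a 0 + a 1, a 0 + i a 1`. -/
def eF {X : CMfd 2} (a : Fin 6 → F1 2 X) : Fin 4 → F1 2 X :=
  ![a 0, a 1, a 0 + a 1, a 0 + Complex.I • a 1]

/-- The index of `w_j`. -/
def gi (j : Fin 4) : Fin 6 := ⟨j.val + 2, by omega⟩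

/-- The data in holomorphic form. -/
structure GoodD (X : CMfd 2) (F : X → Tor) (a : Fin 6 → F1 2 X) : Prop where
  h1 : ∀ k, H1 (a k)
  tf : TF F (a 0)
  wed : ∀ j, wedge (eF a j) (a (gi j)) = 0
  ind : ∀ (j : Fin 4) (l : ℂ), a (gi j) ≠ l • eF a j
  nz : wedge (a 0) (a 1) ≠ 0

def Good (X : CMfd 2) : Prop := ∃ F a, GoodD X F a

theorem DGood.pb1_eF {Z Y : CMfd 2} (g : Z → Y) (a : Fin 6 → F1 2 Y) (j : Fin 4) :
    eF (fun k => pb1 2 g (a k)) j = pb1 2 g (eF a j) := by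
  fin_cases j
  · rfl
  · rfl
  · exact (pb1_add g (a 0) (a 1)).symm
  · change pb1 2 g (a 0) + Complex.I • pb1 2 g (a 1) = pb1 2 g (a 0 + Complex.I • a 1)
    rw [pb1_add, pb1_smul]

theorem DGood.eF_H1 {X : CMfd 2} {a : Fin 6 → F1 2 X} (h : ∀ k, H1 (a k)) (j : Fin 4) :
    H1 (eF a j) := by
  fin_cases j
  · exact h 0
  · exact h 1
  · exact (h 0).add (h 1)
  · exact (h 0).add ((h 1).smul _)

theorem DGood.pb2_zero {Z Y : CMfd 2} (g : Z → Y) : pb2 2 g (0 : F2 2 Y) = 0 := by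
  funext x
  ext u v
  rfl

theorem Good.up {Z Y : CMfd 2} (hZ : IsSurface Z) (hY : IsSurface Y) {g : Z → Y} (hg : Modif g)
    (h : Good Y) : Good Z := by
  obtain ⟨F, a, h⟩ := h
  refine ⟨F ∘ g, fun k => pb1 2 g (a k), fun k => (h.h1 k).pb hg.1, h.tf.pb hg.1.smth, ?_, ?_, ?_⟩
  · intro j
    rw [DGood.pb1_eF, ← pb2_wedge, h.wed j, DGood.pb2_zero]
  · intro j l hl
    rw [DGood.pb1_eF, ← pb1_smul] at hl
    have h1 : S1 (a (gi j) - l • eF a j) := (h.h1 _).1.1.sub ((DGood.eF_H1 h.h1 j).1.1.smul l)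
    have h2 : pb1 2 g (a (gi j) - l • eF a j) = 0 := by
      have h3 : pb1 2 g (a (gi j) - l • eF a j) + pb1 2 g (l • eF a j) =
          pb1 2 g (a (gi j)) := by
        rw [← pb1_add, sub_add_cancel]
      rw [hl] at h3
      simpa using h3
    exact h.ind j l (sub_eq_zero.1 (hg.pb1_inj h1 h2))
  · intro h0
    rw [← pb2_wedge] at h0
    exact h.nz (hg.pb2_inj (S2.wedge (h.h1 0).1.1 (h.h1 1).1.1) h0)

theorem Good.down {Z Y : CMfd 2} (hZ : IsSurface Z) (hY : IsSurface Y) {g : Z → Y}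
    (hg : Modif g) (h : Good Z) : Good Y := by
  obtain ⟨F, a, h⟩ := h
  choose α hα hαa using fun k => hg.down hZ.conn (h.h1 k)
  have ha : a = fun k => pb1 2 g (α k) := funext fun k => (hαa k).symm
  subst ha
  obtain ⟨F', hF'⟩ := hg.down_TF (hα 0) h.tf
  refine ⟨F', α, hα, hF', ?_, ?_, ?_⟩
  · intro j
    refine hg.pb2_inj (S2.wedge (DGood.eF_H1 hα j).1.1 (hα _).1.1) ?_
    rw [pb2_wedge, ← DGood.pb1_eF]
    exact h.wed j
  · intro j l hl
    refine h.ind j l ?_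
    rw [DGood.pb1_eF, ← pb1_smul, ← hl]
  · intro h0
    refine h.nz ?_
    rw [← pb2_wedge, h0, DGood.pb2_zero]

theorem Good.birational {X X' : CMfd 2} (h : Birational X X') : Good X ↔ Good X' := by
  induction h with
  | rel Z Y h =>
    obtain ⟨hZ, hY, g, hg⟩ := h
    exact ⟨Good.down hZ hY hg, Good.up hZ hY hg⟩
  | refl => exact Iff.rfl
  | symm _ _ _ ih => exact ih.symm
  | trans _ _ _ _ _ ih₁ ih₂ => exact ih₁.trans ih₂

end Pool.Agent.K708
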