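import Pool.Agent.Lib.K708.Base

/-! # K708: Hartogs extension over a point of `ℂ²` (row DHart) -/

set_option autoImplicit false

open scoped Manifold ContDiff Topology BoundedContinuousFunction
open Set Filter

noncomputable section

namespace Pool.Agent.K708

namespace DHart

/-- Integration over the torus as a functional. -/
theorem exists_functional (H : ℝ → ℝ → ℂ) (hH : Continuous fun p : ℝ × ℝ => H p.1 p.2) :
    ∃ Φ : ((ℝ × ℝ) →ᵇ ℂ) →L[ℂ] ℂ, ∀ φ : (ℝ × ℝ) →ᵇ ℂ, Φ φ = ∫ θ₁ in (0:ℝ)..2 * Real.pi,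
      ∫ θ₂ in (0:ℝ)..2 * Real.pi, H θ₁ θ₂ * φ (θ₁, θ₂) := by
  have hcont : ∀ φ : (ℝ × ℝ) →ᵇ ℂ, Continuous fun p : ℝ × ℝ => H p.1 p.2 * φ p := fun φ =>
    hH.mul φ.continuous
  have hin : ∀ (φ : (ℝ × ℝ) →ᵇ ℂ) (θ₁ : ℝ), Continuous fun θ₂ => H θ₁ θ₂ * φ (θ₁, θ₂) := by
    intro φ θ₁
    exact (hcont φ).comp (by fun_prop : Continuous fun θ₂ : ℝ => (θ₁, θ₂))
  have hout : ∀ (φ : (ℝ × ℝ) →ᵇ ℂ), Continuous fun θ₁ => ∫ θ₂ in (0:ℝ)..2 * Real.pi,
      H θ₁ θ₂ * φ (θ₁, θ₂) := by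
    intro φ
    exact intervalIntegral.continuous_parametric_intervalIntegral_of_continuous'
      (f := fun θ₁ θ₂ => H θ₁ θ₂ * φ (θ₁, θ₂)) (hcont φ) _ _
  obtain ⟨C, hC⟩ : ∃ C : ℝ, ∀ θ₁ ∈ Icc (0:ℝ) (2 * Real.pi), ∀ θ₂ ∈ Icc (0:ℝ) (2 * Real.pi),
      ‖H θ₁ θ₂‖ ≤ C := by
    obtain ⟨C, hC⟩ := ((isCompact_Icc (a := (0:ℝ)) (b := 2 * Real.pi)).prod
      (isCompact_Icc (a := (0:ℝ)) (b := 2 * Real.pi))).exists_bound_of_continuousOn hH.continuousOn
    exact ⟨C, fun θ₁ h1 θ₂ h2 => hC (θ₁, θ₂) ⟨h1, h2⟩⟩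
  have hpi : (0:ℝ) ≤ 2 * Real.pi := by positivity
  have huIoc : ∀ θ ∈ Set.uIoc (0:ℝ) (2 * Real.pi), θ ∈ Icc (0:ℝ) (2 * Real.pi) := by
    intro θ hθ
    rw [uIoc_of_le hpi] at hθ
    exact Ioc_subset_Icc_self hθ
  let Φ₀ : ((ℝ × ℝ) →ᵇ ℂ) →ₗ[ℂ] ℂ :=
    { toFun := fun φ => ∫ θ₁ in (0:ℝ)..2 * Real.pi, ∫ θ₂ in (0:ℝ)..2 * Real.pi,
        H θ₁ θ₂ * φ (θ₁, θ₂)
      map_add' := by
        intro φ ψ
        rw [← intervalIntegral.integral_add ((hout φ).intervalIntegrable _ _)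
          ((hout ψ).intervalIntegrable _ _)]
        refine intervalIntegral.integral_congr fun θ₁ _ => ?_
        rw [← intervalIntegral.integral_add ((hin φ θ₁).intervalIntegrable _ _)
          ((hin ψ θ₁).intervalIntegrable _ _)]
        refine intervalIntegral.integral_congr fun θ₂ _ => ?_
        simp only [BoundedContinuousFunction.coe_add, Pi.add_apply]
        ring
      map_smul' := by
        intro c φ
        rw [RingHom.id_apply, ← intervalIntegral.integral_smul]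
        refine intervalIntegral.integral_congr fun θ₁ _ => ?_
        rw [← intervalIntegral.integral_smul]
        refine intervalIntegral.integral_congr fun θ₂ _ => ?_
        simp only [BoundedContinuousFunction.coe_smul, smul_eq_mul]
        ring }
  refine ⟨Φ₀.mkContinuous (C * (2 * Real.pi) * (2 * Real.pi)) ?_, fun φ => rfl⟩
  intro φ
  change ‖∫ θ₁ in (0:ℝ)..2 * Real.pi, ∫ θ₂ in (0:ℝ)..2 * Real.pi, H θ₁ θ₂ * φ (θ₁, θ₂)‖ ≤ _
  have h1 : ∀ θ₁ ∈ Set.uIoc (0:ℝ) (2 * Real.pi),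
      ‖∫ θ₂ in (0:ℝ)..2 * Real.pi, H θ₁ θ₂ * φ (θ₁, θ₂)‖ ≤ C * ‖φ‖ * |2 * Real.pi - 0| := by
    intro θ₁ hθ₁
    refine intervalIntegral.norm_integral_le_of_norm_le_const fun θ₂ hθ₂ => ?_
    rw [norm_mul]
    have h2 := hC θ₁ (huIoc _ hθ₁) θ₂ (huIoc _ hθ₂)
    exact mul_le_mul h2 (φ.norm_coe_le_norm _) (norm_nonneg _) ((norm_nonneg _).trans h2)
  refine (intervalIntegral.norm_integral_le_of_norm_le_const h1).trans (le_of_eq ?_)
  rw [sub_zero, abs_of_nonneg hpi]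
  ring

/-- The circle as a bounded function. -/
def bmap (a : ℂ) (ρ : ℝ) (p : ℝ × ℝ → ℝ) (hp : Continuous p) : (ℝ × ℝ) →ᵇ ℂ :=
  BoundedContinuousFunction.ofNormedAddCommGroup (fun t => circleMap a ρ (p t))
    ((continuous_circleMap a ρ).comp hp) (‖a‖ + |ρ|) (by
      intro t
      rw [circleMap]
      refine (norm_add_le _ _).trans ?_
      rw [norm_mul, Complex.norm_exp_ofReal_mul_I, mul_one, Complex.norm_real]
      rfl)

theorem circle_sub_ne {a z : ℂ} {ρ : ℝ} (hz : ‖z - a‖ < ρ) (θ : ℝ) :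
    ρ - ‖z - a‖ ≤ ‖circleMap a ρ θ - z‖ := by
  have h0 : 0 < ρ := (norm_nonneg _).trans_lt hz
  have h1 : ‖circleMap a ρ θ - a‖ = ρ := by
    rw [circleMap, add_sub_cancel_left, norm_mul, Complex.norm_exp_ofReal_mul_I, mul_one,
      Complex.norm_real, Real.norm_eq_abs, abs_of_pos h0]
  have h2 : circleMap a ρ θ - a = (circleMap a ρ θ - z) + (z - a) := by ring
  have h3 := norm_add_le (circleMap a ρ θ - z) (z - a)
  rw [← h2, h1] at h3
  linarith

/-- The Cauchy kernel. -/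
def ker (a : ℂ) (ρ : ℝ) (p : ℝ × ℝ → ℝ) (hp : Continuous p) (z : ℂ) (hz : ‖z - a‖ < ρ) :
    ((ℝ × ℝ) →ᵇ ℂ)ˣ where
  val := bmap a ρ p hp - algebraMap ℂ ((ℝ × ℝ) →ᵇ ℂ) z
  inv := BoundedContinuousFunction.ofNormedAddCommGroup (fun t => (circleMap a ρ (p t) - z)⁻¹)
    (by
      refine Continuous.inv₀ (((continuous_circleMap a ρ).comp hp).sub continuous_const) ?_
      intro t h0
      have := circle_sub_ne hz (p t)
      rw [h0, norm_zero] at this
      linarith) ((ρ - ‖z - a‖)⁻¹) (by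
        intro t
        rw [norm_inv]
        exact inv_anti₀ (by linarith) (circle_sub_ne hz (p t)))
  val_inv := by
    ext t
    have h0 : circleMap a ρ (p t) - z ≠ 0 := by
      intro h0
      have := circle_sub_ne hz (p t)
      rw [h0, norm_zero] at this
      linarith
    exact mul_inv_cancel₀ h0
  inv_val := by
    ext t
    have h0 : circleMap a ρ (p t) - z ≠ 0 := by
      intro h0
      have := circle_sub_ne hz (p t)
      rw [h0, norm_zero] at this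
      linarith
    exact inv_mul_cancel₀ h0

theorem ring_inverse_ker (a : ℂ) (ρ : ℝ) (p : ℝ × ℝ → ℝ) (hp : Continuous p) {z : ℂ}
    (hz : ‖z - a‖ < ρ) (t : ℝ × ℝ) :
    (Ring.inverse (bmap a ρ p hp - algebraMap ℂ ((ℝ × ℝ) →ᵇ ℂ) z)) t =
      (circleMap a ρ (p t) - z)⁻¹ := by
  have h := Ring.inverse_unit (ker a ρ p hp z hz)
  have h2 : ((ker a ρ p hp z hz : ((ℝ × ℝ) →ᵇ ℂ)ˣ) : (ℝ × ℝ) →ᵇ ℂ) =
    bmap a ρ p hp - algebraMap ℂ ((ℝ × ℝ) →ᵇ ℂ) z := rfl
  rw [h2] at h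
  rw [h]
  rfl

theorem analyticAt_ker (a : ℂ) {ρ : ℝ} (hρ : 0 < ρ) (p : ℝ × ℝ → ℝ) (hp : Continuous p) :
    AnalyticAt ℂ (fun z : ℂ => Ring.inverse (bmap a ρ p hp - algebraMap ℂ ((ℝ × ℝ) →ᵇ ℂ) z)) a := by
  have h0 : ‖a - a‖ < ρ := by rwa [sub_self, norm_zero]
  have h1 : AnalyticAt ℂ (Ring.inverse : ((ℝ × ℝ) →ᵇ ℂ) → ((ℝ × ℝ) →ᵇ ℂ))
      ((fun z : ℂ => bmap a ρ p hp - algebraMap ℂ ((ℝ × ℝ) →ᵇ ℂ) z) a) :=
    analyticAt_inverse (𝕜 := ℂ) (ker a ρ p hp a h0)
  have h2 : AnalyticAt ℂ (fun z : ℂ => bmap a ρ p hp - algebraMap ℂ ((ℝ × ℝ) →ᵇ ℂ) z) a := by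
    refine analyticAt_const.sub ?_
    exact (algebraMapCLM ℂ ((ℝ × ℝ) →ᵇ ℂ)).analyticAt a
  exact AnalyticAt.comp (f := fun z : ℂ => bmap a ρ p hp - algebraMap ℂ ((ℝ × ℝ) →ᵇ ℂ) z) h1 h2

/-- Cauchy's formula on the torus gives a holomorphic extension over a point. -/
theorem extend_pt (f : E 2 → ℂ) (z₀ : E 2) {r : ℝ} (hr : 0 < r)
    (hf : ∀ z ∈ Metric.ball z₀ r, z ≠ z₀ → DifferentiableAt ℂ f z) :
    ∃ g : E 2 → ℂ, AnalyticAt ℂ g z₀ ∧ ∀ᶠ z in 𝓝 z₀, z ≠ z₀ → g z = f z := by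
  obtain ⟨ρ, hρ, hρr⟩ : ∃ ρ : ℝ, 0 < ρ ∧ ρ < r := ⟨r / 2, by positivity, by linarith⟩
  have hball : ∀ w₁ w₂ : ℂ, ‖w₁ - z₀ 0‖ < r → ‖w₂ - z₀ 1‖ < r → ![w₁, w₂] ∈ Metric.ball z₀ r := by
    intro w₁ w₂ h1 h2
    rw [mem_ball_iff_norm, pi_norm_lt_iff hr]
    intro i
    fin_cases i
    · exact h1
    · exact h2
  have hne1 : ∀ w₁ w₂ : ℂ, w₁ ≠ z₀ 0 → ![w₁, w₂] ≠ z₀ := by
    intro w₁ w₂ h1 h2
    exact h1 (congrFun h2 0)
  have hne2 : ∀ w₁ w₂ : ℂ, w₂ ≠ z₀ 1 → ![w₁, w₂] ≠ z₀ := by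
    intro w₁ w₂ h1 h2
    exact h1 (congrFun h2 1)
  have hcirc : ∀ (a : ℂ) (θ : ℝ), ‖circleMap a ρ θ - a‖ = ρ := by
    intro a θ
    rw [circleMap, add_sub_cancel_left, norm_mul, Complex.norm_exp_ofReal_mul_I, mul_one,
      Complex.norm_real, Real.norm_eq_abs, abs_of_pos hρ]
  have hcne : ∀ (a : ℂ) (θ : ℝ), circleMap a ρ θ ≠ a := by
    intro a θ h
    have := hcirc a θ
    rw [h, sub_self, norm_zero] at this
    linarith
  let H : ℝ → ℝ → ℂ := fun θ₁ θ₂ => deriv (circleMap (z₀ 0) ρ) θ₁ * deriv (circleMap (z₀ 1) ρ) θ₂ *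
    f ![circleMap (z₀ 0) ρ θ₁, circleMap (z₀ 1) ρ θ₂]
  have hH : Continuous fun p : ℝ × ℝ => H p.1 p.2 := by
    have h1 : Continuous (fun p : ℝ × ℝ => deriv (circleMap (z₀ 0) ρ) p.1) := by
      simp only [deriv_circleMap]
      exact ((continuous_circleMap 0 ρ).comp continuous_fst).mul continuous_const
    have h2 : Continuous (fun p : ℝ × ℝ => deriv (circleMap (z₀ 1) ρ) p.2) := by
      simp only [deriv_circleMap]
      exact ((continuous_circleMap 0 ρ).comp continuous_snd).mul continuous_const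
    refine (h1.mul h2).mul ?_
    rw [continuous_iff_continuousAt]
    intro p
    have h3 : ContinuousAt f ![circleMap (z₀ 0) ρ p.1, circleMap (z₀ 1) ρ p.2] := by
      refine (hf _ (hball _ _ ?_ ?_) (hne1 _ _ (hcne _ _))).continuousAt
      · rw [hcirc]; exact hρr
      · rw [hcirc]; exact hρr
    have h4 : Continuous (fun p : ℝ × ℝ => (![circleMap (z₀ 0) ρ p.1, circleMap (z₀ 1) ρ p.2] : E 2)) := by
      refine continuous_pi fun i => ?_
      fin_cases i
      · exact (continuous_circleMap _ _).comp continuous_fst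
      · exact (continuous_circleMap _ _).comp continuous_snd
    exact ContinuousAt.comp (f := fun p : ℝ × ℝ =>
      (![circleMap (z₀ 0) ρ p.1, circleMap (z₀ 1) ρ p.2] : E 2)) h3 h4.continuousAt
  obtain ⟨Φ, hΦ⟩ := exists_functional H hH
  let g : E 2 → ℂ := fun z => ((2 * Real.pi * Complex.I : ℂ)⁻¹ * (2 * Real.pi * Complex.I : ℂ)⁻¹) *
    Φ (Ring.inverse (bmap (z₀ 0) ρ Prod.fst continuous_fst - algebraMap ℂ ((ℝ × ℝ) →ᵇ ℂ) (z 0)) *
      Ring.inverse (bmap (z₀ 1) ρ Prod.snd continuous_snd - algebraMap ℂ ((ℝ × ℝ) →ᵇ ℂ) (z 1)))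
  have hg : AnalyticAt ℂ g z₀ := by
    refine analyticAt_const.mul ?_
    have h1 : AnalyticAt ℂ (fun z : E 2 => Ring.inverse (bmap (z₀ 0) ρ Prod.fst continuous_fst -
        algebraMap ℂ ((ℝ × ℝ) →ᵇ ℂ) (z 0))) z₀ :=
      AnalyticAt.comp (f := fun z : E 2 => z 0) (analyticAt_ker (z₀ 0) hρ Prod.fst continuous_fst)
        ((ContinuousLinearMap.proj (R := ℂ) (φ := fun _ : Fin 2 => ℂ) 0).analyticAt z₀)
    have h2 : AnalyticAt ℂ (fun z : E 2 => Ring.inverse (bmap (z₀ 1) ρ Prod.snd continuous_snd -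
        algebraMap ℂ ((ℝ × ℝ) →ᵇ ℂ) (z 1))) z₀ :=
      AnalyticAt.comp (f := fun z : E 2 => z 1) (analyticAt_ker (z₀ 1) hρ Prod.snd continuous_snd)
        ((ContinuousLinearMap.proj (R := ℂ) (φ := fun _ : Fin 2 => ℂ) 1).analyticAt z₀)
    exact AnalyticAt.comp (g := Φ) (Φ.analyticAt _) (h1.mul h2)
  -- Cauchy's formula
  have hcauchy : ∀ z : E 2, ‖z 0 - z₀ 0‖ < ρ → ‖z 1 - z₀ 1‖ < ρ → z 1 ≠ z₀ 1 → g z = f z := by
    intro z hz0 hz1 hne
    have hpi : (2 * Real.pi * Complex.I : ℂ) ≠ 0 := by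
      simp [Real.pi_ne_zero]
    have h1 : ∀ w₁ : ℂ, ‖w₁ - z₀ 0‖ = ρ → (∮ w₂ in C(z₀ 1, ρ), (w₂ - z 1)⁻¹ • f ![w₁, w₂]) =
        (2 * Real.pi * Complex.I : ℂ) • f ![w₁, z 1] := by
      intro w₁ hw₁
      refine DifferentiableOn.circleIntegral_sub_inv_smul (f := fun w₂ => f ![w₁, w₂]) ?_ ?_
      · intro w₂ hw₂
        rw [mem_closedBall_iff_norm] at hw₂
        have h2 : DifferentiableAt ℂ f ![w₁, w₂] := by
          refine hf _ (hball _ _ (by rw [hw₁]; exact hρr) (hw₂.trans_lt hρr)) (hne1 _ _ ?_)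
          rintro rfl
          rw [sub_self, norm_zero] at hw₁
          linarith
        have h3 : DifferentiableAt ℂ (fun w₂ : ℂ => (![w₁, w₂] : E 2)) w₂ := by
          rw [differentiableAt_pi]
          intro i
          fin_cases i
          · exact differentiableAt_const _
          · exact differentiableAt_id
        exact (DifferentiableAt.comp w₂ h2 h3).differentiableWithinAt
      · rw [mem_ball_iff_norm]
        exact hz1
    have h2 : (∮ w₁ in C(z₀ 0, ρ), (w₁ - z 0)⁻¹ • f ![w₁, z 1]) =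
        (2 * Real.pi * Complex.I : ℂ) • f ![z 0, z 1] := by
      refine DifferentiableOn.circleIntegral_sub_inv_smul (f := fun w₁ => f ![w₁, z 1]) ?_ ?_
      · intro w₁ hw₁
        rw [mem_closedBall_iff_norm] at hw₁
        have h2 : DifferentiableAt ℂ f ![w₁, z 1] :=
          hf _ (hball _ _ (hw₁.trans_lt hρr) (hz1.trans hρr)) (hne2 _ _ hne)
        have h3 : DifferentiableAt ℂ (fun w₁ : ℂ => (![w₁, z 1] : E 2)) w₁ := by
          rw [differentiableAt_pi]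
          intro i
          fin_cases i
          · exact differentiableAt_id
          · exact differentiableAt_const _
        exact (DifferentiableAt.comp w₁ h2 h3).differentiableWithinAt
      · rw [mem_ball_iff_norm]
        exact hz0
    have h3 : Φ (Ring.inverse (bmap (z₀ 0) ρ Prod.fst continuous_fst -
        algebraMap ℂ ((ℝ × ℝ) →ᵇ ℂ) (z 0)) * Ring.inverse (bmap (z₀ 1) ρ Prod.snd continuous_snd -
        algebraMap ℂ ((ℝ × ℝ) →ᵇ ℂ) (z 1))) = ∮ w₁ in C(z₀ 0, ρ), (w₁ - z 0)⁻¹ •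
          (∮ w₂ in C(z₀ 1, ρ), (w₂ - z 1)⁻¹ • f ![w₁, w₂]) := by
      rw [hΦ, circleIntegral]
      refine intervalIntegral.integral_congr fun θ₁ _ => ?_
      simp only [circleIntegral]
      rw [← intervalIntegral.integral_smul, ← intervalIntegral.integral_smul]
      refine intervalIntegral.integral_congr fun θ₂ _ => ?_
      simp only [BoundedContinuousFunction.coe_mul, Pi.mul_apply, smul_eq_mul, H]
      rw [ring_inverse_ker _ _ _ _ hz0, ring_inverse_ker _ _ _ _ hz1]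
      ring
    have h4 : (∮ w₁ in C(z₀ 0, ρ), (w₁ - z 0)⁻¹ •
          (∮ w₂ in C(z₀ 1, ρ), (w₂ - z 1)⁻¹ • f ![w₁, w₂])) =
        (2 * Real.pi * Complex.I : ℂ) • (2 * Real.pi * Complex.I : ℂ) • f ![z 0, z 1] := by
      rw [← h2, ← circleIntegral.integral_smul]
      refine circleIntegral.integral_congr hρ.le fun w₁ hw₁ => ?_
      rw [h1 w₁ (by rwa [mem_sphere_iff_norm] at hw₁), smul_comm]
    have h5 : (![z 0, z 1] : E 2) = z := by
      funext i
      fin_cases i <;> rfl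
    simp only [g]
    rw [h3, h4, h5, smul_eq_mul, smul_eq_mul]
    field_simp
  refine ⟨g, hg, ?_⟩
  have hgc : ∀ᶠ z in 𝓝 z₀, ContinuousAt g z := by
    filter_upwards [hg.eventually_analyticAt] with z hz
    exact hz.continuousAt
  filter_upwards [hgc, Metric.ball_mem_nhds z₀ hρ] with z hz hzρ hne
  rw [mem_ball_iff_norm, pi_norm_lt_iff hρ] at hzρ
  by_cases h1 : z 1 = z₀ 1
  · -- approach `z` by points with a different second coordinate
    have hfz : ContinuousAt f z := by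
      refine (hf z ?_ hne).continuousAt
      rw [mem_ball_iff_norm, pi_norm_lt_iff hr]
      intro i
      exact (hzρ i).trans hρr
    let z' : ℂ → E 2 := fun t => ![z 0, z 1 + t]
    have hz' : Continuous z' := by
      refine continuous_pi fun i => ?_
      fin_cases i
      · exact continuous_const
      · exact continuous_const.add continuous_id
    have hz'0 : z' 0 = z := by
      funext i
      fin_cases i
      · rfl
      · exact add_zero _
    have ht1 : Tendsto (fun t => g (z' t)) (𝓝[≠] 0) (𝓝 (g z)) := by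
      have : ContinuousAt g (z' 0) := by rwa [hz'0]
      have h2 := (ContinuousAt.comp this hz'.continuousAt).tendsto
      simp only [Function.comp_apply, hz'0] at h2
      exact h2.mono_left nhdsWithin_le_nhds
    have ht2 : Tendsto (fun t => f (z' t)) (𝓝[≠] 0) (𝓝 (f z)) := by
      have : ContinuousAt f (z' 0) := by rwa [hz'0]
      have h2 := (ContinuousAt.comp this hz'.continuousAt).tendsto
      simp only [Function.comp_apply, hz'0] at h2
      exact h2.mono_left nhdsWithin_le_nhds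
    have hev : ∀ᶠ t in 𝓝[≠] (0:ℂ), g (z' t) = f (z' t) := by
      have h3 : ∀ᶠ t in 𝓝 (0:ℂ), ‖z' t 1 - z₀ 1‖ < ρ := by
        have h4 : ContinuousAt (fun t => ‖z' t 1 - z₀ 1‖) 0 :=
          (((continuous_apply 1).comp hz').sub continuous_const).norm.continuousAt
        refine h4.eventually_lt_const ?_
        change ‖z' 0 1 - z₀ 1‖ < ρ
        rw [hz'0]
        exact hzρ 1
      filter_upwards [nhdsWithin_le_nhds h3, self_mem_nhdsWithin] with t ht ht0
      refine hcauchy (z' t) (hzρ 0) ht ?_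
      change z 1 + t ≠ z₀ 1
      rw [h1]
      intro h5
      exact ht0 (by simpa using h5)
    exact tendsto_nhds_unique (ht1.congr' hev) ht2
  · exact hcauchy z (hzρ 0) (hzρ 1) h1

/-- Complex differentiable functions of two variables are analytic. -/
theorem analyticAt_of_differentiable {f : E 2 → ℂ} {z₀ : E 2}
    (hf : ∀ᶠ z in 𝓝 z₀, DifferentiableAt ℂ f z) : AnalyticAt ℂ f z₀ := by
  obtain ⟨r, hr, hr'⟩ := Metric.eventually_nhds_iff_ball.1 hf
  obtain ⟨g, hg, hg'⟩ := extend_pt f z₀ hr fun z hz _ => hr' z hz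
  have h0 : g z₀ = f z₀ := by
    have h1 : Tendsto g (𝓝[≠] z₀) (𝓝 (g z₀)) := hg.continuousAt.tendsto.mono_left nhdsWithin_le_nhds
    have h2 : Tendsto f (𝓝[≠] z₀) (𝓝 (f z₀)) :=
      hf.self_of_nhds.continuousAt.tendsto.mono_left nhdsWithin_le_nhds
    have h3 : ∀ᶠ z in 𝓝[≠] z₀, g z = f z := by
      filter_upwards [nhdsWithin_le_nhds hg', self_mem_nhdsWithin] with z hz hz'
      exact hz hz'
    have : (𝓝[≠] z₀).NeBot := inferInstance
    exact tendsto_nhds_unique (h1.congr' h3) h2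
  refine hg.congr ?_
  filter_upwards [hg'] with z hz
  by_cases h : z = z₀
  · rw [h, h0]
  · exact hz h

end DHart

/-- Hartogs extension over a point in dimension two (row DHart). -/
theorem hartogs_pt (f : E 2 → ℂ) (z₀ : E 2) {r : ℝ} (hr : 0 < r)
    (hf : ∀ z ∈ Metric.ball z₀ r, z ≠ z₀ → DifferentiableAt ℂ f z) :
    ∃ g : E 2 → ℂ, DifferentiableOn ℂ g (Metric.ball z₀ r) ∧
      ContDiffOn ℂ ω g (Metric.ball z₀ r) ∧ ∀ z ∈ Metric.ball z₀ r, z ≠ z₀ → g z = f z := by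
  classical
  obtain ⟨g, hg, hg'⟩ := DHart.extend_pt f z₀ hr hf
  have hcd : ContDiffOn ℂ ω (Function.update f z₀ (g z₀)) (Metric.ball z₀ r) := by
    intro z hz
    refine (AnalyticAt.contDiffAt ?_).contDiffWithinAt
    by_cases h : z = z₀
    · subst h
      refine hg.congr ?_
      filter_upwards [hg'] with w hw
      by_cases h : w = z
      · rw [h, Function.update_self]
      · rw [Function.update_of_ne h, hw h]
    · have h1 : AnalyticAt ℂ f z := by
        refine DHart.analyticAt_of_differentiable ?_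
        filter_upwards [Metric.isOpen_ball.mem_nhds hz, isOpen_ne.mem_nhds h] with w hw hw'
        exact hf w hw hw'
      refine h1.congr ?_
      filter_upwards [isOpen_ne.mem_nhds h] with w hw
      rw [Function.update_of_ne hw]
  exact ⟨_, hcd.differentiableOn (by simp), hcd, fun z _ hz => Function.update_of_ne hz _ _⟩

end Pool.Agent.K708
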