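import Pool.Agent.Lib.K708.FcD

/-! # K708: Segre embedding (row DSegre) and the Weierstrass map (row DWei) -/

set_option autoImplicit false

open scoped Manifold ContDiff Topology
open Set Filter

noncomputable section

namespace Pool.Agent.K708

namespace DSegre

section Der

variable {n : ℕ} {M : Type*} [TopologicalSpace M] [ChartedSpace (E n) M]

/-- `c` is the derivative of the holomorphic function `f` at `x` in the direction `v`. -/
def HD (f : M → ℂ) (x : M) (v : E n) (c : ℂ) : Prop :=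
  ∃ f' : TangentSpace 𝓘(ℂ, E n) x →L[ℂ] ℂ, HasMFDerivAt 𝓘(ℂ, E n) 𝓘(ℂ, ℂ) f x f' ∧ f' v = c

theorem HD.mul {f g : M → ℂ} {x : M} {v : E n} {c d : ℂ} (hf : HD f x v c) (hg : HD g x v d) :
    HD (fun y => f y * g y) x v (f x * d + g x * c) := by
  obtain ⟨f', h1, h2⟩ := hf
  obtain ⟨g', h3, h4⟩ := hg
  refine ⟨_, h1.mul h3, ?_⟩
  rw [← h2, ← h4]
  rfl

theorem HD.unique {f g : M → ℂ} {x : M} {v : E n} {c d : ℂ} (hf : HD f x v c)
    (hg : HD g x v d) (h : f =ᶠ[𝓝 x] g) : c = d := by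
  obtain ⟨f', h1, h2⟩ := hf
  obtain ⟨g', h3, h4⟩ := hg
  have h5 := h3.congr_of_eventuallyEq h
  have h6 : f' = g' := hasMFDerivAt_unique h1 h5
  rw [← h2, ← h4, h6]

theorem HD.comp_proj {m : ℕ} {F : M → E m} {x : M} (hF : HoloAt n m F x) (v : E n) (k : Fin m) :
    HD (fun y => F y k) x v (DC n m F x v k) := by
  have h1 : MDifferentiableAt 𝓘(ℂ, E n) 𝓘(ℂ, E m) F x :=
    ContMDiffAt.mdifferentiableAt hF (by simp)
  have h2 := h1.hasMFDerivAt
  have h3 : HasMFDerivAt 𝓘(ℂ, E m) 𝓘(ℂ, ℂ)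
      (ContinuousLinearMap.proj (R := ℂ) (φ := fun _ : Fin m => ℂ) k) (F x)
      (ContinuousLinearMap.proj (R := ℂ) (φ := fun _ : Fin m => ℂ) k) :=
    (ContinuousLinearMap.proj (R := ℂ) (φ := fun _ : Fin m => ℂ) k).hasMFDerivAt
  exact ⟨_, h3.comp x h2, rfl⟩

end Der

section Alg

variable {N₁ N₂ : ℕ}

/-- dimension of the Segre embedding -/
def sN (N₁ N₂ : ℕ) : ℕ := N₁ * N₂ + N₁ + N₂

theorem sN_succ (N₁ N₂ : ℕ) : (N₁ + 1) * (N₂ + 1) = sN N₁ N₂ + 1 := by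
  unfold sN; ring

/-- the index set of the Segre embedding -/
def sE (N₁ N₂ : ℕ) : Fin (N₁ + 1) × Fin (N₂ + 1) ≃ Fin (sN N₁ N₂ + 1) :=
  finProdFinEquiv.trans (finCongr (sN_succ N₁ N₂))

/-- the Segre map on vectors -/
def sg (a : E (N₁ + 1)) (b : E (N₂ + 1)) : E (sN N₁ N₂ + 1) :=
  fun k => a ((sE N₁ N₂).symm k).1 * b ((sE N₁ N₂).symm k).2

theorem sg_apply (a : E (N₁ + 1)) (b : E (N₂ + 1)) (i : Fin (N₁ + 1)) (j : Fin (N₂ + 1)) :
    sg a b (sE N₁ N₂ (i, j)) = a i * b j := by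
  simp [sg]

theorem exists_ne {m : ℕ} {a : E m} (h : a ≠ 0) : ∃ i, a i ≠ 0 := by
  by_contra hc
  push Not at hc
  exact h (funext hc)

theorem sg_ne {a : E (N₁ + 1)} {b : E (N₂ + 1)} (ha : a ≠ 0) (hb : b ≠ 0) : sg a b ≠ 0 := by
  obtain ⟨i, hi⟩ := exists_ne ha
  obtain ⟨j, hj⟩ := exists_ne hb
  intro h
  have h1 := congrFun h (sE N₁ N₂ (i, j))
  rw [sg_apply] at h1
  exact mul_ne_zero hi hj h1

theorem sg_smul (c d : ℂ) (a : E (N₁ + 1)) (b : E (N₂ + 1)) :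
    sg (c • a) (d • b) = (c * d) • sg a b := by
  funext k
  simp only [sg, Pi.smul_apply, smul_eq_mul]
  ring

/-- the first factor of proportional Segre vectors -/
theorem left_of_sg {a a' : E (N₁ + 1)} {b b' : E (N₂ + 1)} {c : ℂ} (hb : b ≠ 0)
    (h : c • sg a' b' = sg a b) : ∃ d : ℂ, d • a' = a := by
  obtain ⟨j, hj⟩ := exists_ne hb
  refine ⟨c * b' j / b j, ?_⟩
  funext i
  have h1 := congrFun h (sE N₁ N₂ (i, j))
  rw [Pi.smul_apply, sg_apply, sg_apply, smul_eq_mul] at h1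
  rw [Pi.smul_apply, smul_eq_mul, div_mul_eq_mul_div, div_eq_iff hj]
  linear_combination h1

theorem right_of_sg {a a' : E (N₁ + 1)} {b b' : E (N₂ + 1)} {c : ℂ} (ha : a ≠ 0)
    (h : c • sg a' b' = sg a b) : ∃ d : ℂ, d • b' = b := by
  obtain ⟨i, hi⟩ := exists_ne ha
  refine ⟨c * a' i / a i, ?_⟩
  funext j
  have h1 := congrFun h (sE N₁ N₂ (i, j))
  rw [Pi.smul_apply, sg_apply, sg_apply, smul_eq_mul] at h1
  rw [Pi.smul_apply, smul_eq_mul, div_mul_eq_mul_div, div_eq_iff hi]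
  linear_combination h1

end Alg

section Lift

variable {n : ℕ} {M : Type*} [TopologicalSpace M] [ChartedSpace (E n) M] {N₁ N₂ : ℕ}

theorem holo_sg {F₁ : M → E (N₁ + 1)} {F₂ : M → E (N₂ + 1)} {x : M}
    (h₁ : HoloAt n (N₁ + 1) F₁ x) (h₂ : HoloAt n (N₂ + 1) F₂ x) :
    HoloAt n (sN N₁ N₂ + 1) (fun y => sg (F₁ y) (F₂ y)) x := by
  unfold HoloAt at h₁ h₂ ⊢
  rw [contMDiffAt_pi_space] at h₁ h₂ ⊢
  intro k
  exact (h₁ _).mul (h₂ _)

/-- the combined map -/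
def seg (j₁ : M → PN N₁) (j₂ : M → PN N₂) (x : M) : PN (sN N₁ N₂) :=
  Projectivization.mk ℂ (sg (j₁ x).rep (j₂ x).rep)
    (sg_ne (Projectivization.rep_nonzero _) (Projectivization.rep_nonzero _))

theorem seg_eq {j₁ : M → PN N₁} {j₂ : M → PN N₂} {y : M} {a : E (N₁ + 1)} {b : E (N₂ + 1)}
    (ha : a ≠ 0) (hb : b ≠ 0) (h₁ : j₁ y = Projectivization.mk ℂ a ha)
    (h₂ : j₂ y = Projectivization.mk ℂ b hb) :
    seg j₁ j₂ y = Projectivization.mk ℂ (sg a b) (sg_ne ha hb) := by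
  unfold seg
  rw [Projectivization.mk_eq_mk_iff']
  obtain ⟨c, hc⟩ := Projectivization.exists_smul_eq_mk_rep ℂ a ha
  obtain ⟨d, hd⟩ := Projectivization.exists_smul_eq_mk_rep ℂ b hb
  refine ⟨(c : ℂ) * d, ?_⟩
  rw [h₁, h₂, ← hc, ← hd, ← sg_smul]
  rfl

theorem isLift_seg {j₁ : M → PN N₁} {j₂ : M → PN N₂} {x : M} {F₁ : M → E (N₁ + 1)}
    {F₂ : M → E (N₂ + 1)} (h₁ : IsLift n j₁ F₁ x) (h₂ : IsLift n j₂ F₂ x) :
    IsLift n (seg j₁ j₂) (fun y => sg (F₁ y) (F₂ y)) x := by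
  refine ⟨holo_sg h₁.1 h₂.1, ?_⟩
  filter_upwards [h₁.2, h₂.2] with y hy1 hy2
  obtain ⟨ha, ha'⟩ := hy1
  obtain ⟨hb, hb'⟩ := hy2
  exact ⟨sg_ne ha hb, seg_eq ha hb ha' hb'⟩

/-- all lifts have proportional derivatives on the kernel -/
theorem ker_lift {N : ℕ} {j : M → PN N} {x : M} {F S : M → E (N + 1)} (hF : IsLift n j F x)
    (hS : IsLift n j S x) {v : E n} {c : ℂ} (h : DC n (N + 1) F x v = c • F x) :
    ∃ d : ℂ, DC n (N + 1) S x v = d • S x := by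
  obtain ⟨hS0, hS1⟩ := hS.2.self_of_nhds
  obtain ⟨hF0, hF1⟩ := hF.2.self_of_nhds
  have hmin : ∀ k l, (fun y => S y k * F y l) =ᶠ[𝓝 x] (fun y => S y l * F y k) := by
    intro k l
    filter_upwards [hF.2, hS.2] with y hy1 hy2
    obtain ⟨ha, ha'⟩ := hy1
    obtain ⟨hb, hb'⟩ := hy2
    rw [ha', Projectivization.mk_eq_mk_iff'] at hb'
    obtain ⟨t, ht⟩ := hb'
    rw [← ht]
    simp only [Pi.smul_apply, smul_eq_mul]
    ring
  have hx : ∃ t : ℂ, t • S x = F x := by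
    rw [hF1, Projectivization.mk_eq_mk_iff'] at hS1
    exact hS1
  obtain ⟨t, ht⟩ := hx
  have ht0 : t ≠ 0 := by
    rintro rfl
    rw [zero_smul] at ht
    exact hF0 ht.symm
  obtain ⟨l, hl⟩ := exists_ne hS0
  have hd : ∀ k l, DC n (N + 1) S x v k * S x l = DC n (N + 1) S x v l * S x k := by
    intro k l
    have e1 := (HD.comp_proj hS.1 v k).mul (HD.comp_proj hF.1 v l)
    have e2 := (HD.comp_proj hS.1 v l).mul (HD.comp_proj hF.1 v k)
    have e3 := e1.unique e2 (hmin k l)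
    have f1 := congrFun h k
    have f2 := congrFun h l
    simp only [Pi.smul_apply, smul_eq_mul] at f1 f2
    have g1 := congrFun ht k
    have g2 := congrFun ht l
    simp only [Pi.smul_apply, smul_eq_mul] at g1 g2
    rw [f1, f2, ← g1, ← g2] at e3
    apply mul_left_cancel₀ ht0
    linear_combination e3
  refine ⟨DC n (N + 1) S x v l / S x l, ?_⟩
  funext k
  rw [Pi.smul_apply, smul_eq_mul, div_mul_eq_mul_div, eq_div_iff hl]
  exact hd k l

end Lift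

end DSegre

open DSegre in
/-- Segre: two holomorphic maps to projective spaces can be combined. -/
theorem segre {n : ℕ} {M : CMfd n} {N₁ N₂ : ℕ} (j₁ : M → PN N₁) (j₂ : M → PN N₂)
    (h₁ : HoloP n j₁) (h₂ : HoloP n j₂) :
    ∃ (N : ℕ) (j : M → PN N), HoloP n j ∧ (∀ x y, j x = j y → j₁ x = j₁ y ∧ j₂ x = j₂ y) ∧
      ∀ x, KerP n j x ⊆ KerP n j₁ x ∩ KerP n j₂ x := by
  refine ⟨sN N₁ N₂, seg j₁ j₂, ?_, ?_, ?_⟩
  · intro x
    obtain ⟨F₁, hF₁⟩ := h₁ x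
    obtain ⟨F₂, hF₂⟩ := h₂ x
    exact ⟨_, isLift_seg hF₁ hF₂⟩
  · intro x y hxy
    unfold seg at hxy
    rw [Projectivization.mk_eq_mk_iff'] at hxy
    obtain ⟨c, hc⟩ := hxy
    obtain ⟨d, hd⟩ := left_of_sg (Projectivization.rep_nonzero _) hc
    obtain ⟨e, he⟩ := right_of_sg (Projectivization.rep_nonzero _) hc
    constructor
    · rw [← Projectivization.mk_rep (j₁ x), ← Projectivization.mk_rep (j₁ y),
        Projectivization.mk_eq_mk_iff']
      exact ⟨d, hd⟩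
    · rw [← Projectivization.mk_rep (j₂ x), ← Projectivization.mk_rep (j₂ y),
        Projectivization.mk_eq_mk_iff']
      exact ⟨e, he⟩
  · rintro x v ⟨F, hF, c, hc⟩
    obtain ⟨F₁, hF₁⟩ := h₁ x
    obtain ⟨F₂, hF₂⟩ := h₂ x
    obtain ⟨d, hd⟩ := ker_lift hF (isLift_seg hF₁ hF₂) hc
    obtain ⟨h1, -⟩ := hF₁.2.self_of_nhds
    obtain ⟨h2, -⟩ := hF₂.2.self_of_nhds
    have key : ∀ i j, F₁ x i * DC n (N₂ + 1) F₂ x v j + F₂ x j * DC n (N₁ + 1) F₁ x v i =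
        d * (F₁ x i * F₂ x j) := by
      intro i j
      have e1 := (HD.comp_proj hF₁.1 v i).mul (HD.comp_proj hF₂.1 v j)
      have e2 := HD.comp_proj (holo_sg hF₁.1 hF₂.1) v (sE N₁ N₂ (i, j))
      have e3 := e1.unique e2 (Filter.Eventually.of_forall fun y => (sg_apply _ _ i j).symm)
      rw [e3, hd, Pi.smul_apply, smul_eq_mul, sg_apply]
    constructor
    · obtain ⟨j, hj⟩ := exists_ne h2
      refine ⟨F₁, hF₁, d - DC n (N₂ + 1) F₂ x v j / F₂ x j, ?_⟩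
      funext i
      rw [Pi.smul_apply, smul_eq_mul]
      have hk := key i j
      field_simp
      linear_combination hk
    · obtain ⟨i, hi⟩ := exists_ne h1
      refine ⟨F₂, hF₂, d - DC n (N₁ + 1) F₁ x v i / F₁ x i, ?_⟩
      funext j
      rw [Pi.smul_apply, smul_eq_mul]
      have hk := key i j
      field_simp
      linear_combination hk

end Pool.Agent.K708
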