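import Pool.Agent.Lib.K708.DTor
import Pool.Agent.Lib.K708.FcPoin

/-! # K708: the coordinate forms on a manifold mapped to a torus (row DTorForms) -/

set_option autoImplicit false

open scoped Manifold ContDiff Topology
open Set Filter

noncomputable section

namespace Pool.Agent.K708

/-- Coordinates of a holomorphic map to a torus: maps `F k` to `ℂ/ℤ[i]` and the closed holomorphic
forms `a k = dz_k` (row DTorForms). -/
structure TorForms {n m : ℕ} {T : CMfd m} (q : E m → T) {M : CMfd n} (φ : M → T)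
    (F : Fin m → M → Tor) (a : Fin m → F1 n M) : Prop where
  h1 : ∀ k, H1 (a k)
  tf : ∀ k, TF (F k) (a k)
  val : ∀ k x p, q p = φ x → F k x = (QuotientAddGroup.mk (p k) : Tor)
  der : ∀ (x : M) (σ : T → E m), HoloAt m m σ (φ x) → (∀ᶠ t in 𝓝 (φ x), q (σ t) = t) →
    ∀ k v, a k x v = DC n m (σ ∘ φ) x v k

namespace DTorForms

theorem gau_small {z : ℂ} (hz : z ∈ Gau) (h : ‖z‖ < 1) : z = 0 := by
  obtain ⟨a, b, rfl⟩ := hz
  have hr := (Complex.abs_re_le_norm _).trans_lt h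
  have hi := (Complex.abs_im_le_norm _).trans_lt h
  simp only [Complex.add_re, Complex.intCast_re, Complex.mul_re, Complex.I_re, mul_zero,
    Complex.intCast_im, Complex.I_im, mul_one, sub_self, add_zero, Complex.add_im,
    Complex.mul_im, zero_add] at hr hi
  have ha : a = 0 := by
    have : |a| < 1 := by exact_mod_cast hr
    exact Int.abs_lt_one_iff.mp this
  have hb : b = 0 := by
    have : |b| < 1 := by exact_mod_cast hi
    exact Int.abs_lt_one_iff.mp this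
  simp [ha, hb]

theorem sec_unique {m : ℕ} {T : CMfd m} {q : E m → T} (hT : IsTorus T q) {t₀ : T}
    {σ σ' : T → E m} (h : ContinuousAt σ t₀) (h' : ContinuousAt σ' t₀)
    (hq : ∀ᶠ t in 𝓝 t₀, q (σ t) = t) (hq' : ∀ᶠ t in 𝓝 t₀, q (σ' t) = t) :
    ∀ᶠ t in 𝓝 t₀, σ t = σ' t + (σ t₀ - σ' t₀) := by
  have hc : ContinuousAt (fun t => σ t - σ' t) t₀ := h.sub h'
  have h1 : ∀ᶠ t in 𝓝 t₀, dist (σ t - σ' t) (σ t₀ - σ' t₀) < 1 :=
    hc.eventually (Metric.ball_mem_nhds _ one_pos)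
  have h0 : ∀ i, σ t₀ i - σ' t₀ i ∈ Gau :=
    (hT.eq_iff _ _).mp (hq.self_of_nhds.trans hq'.self_of_nhds.symm)
  filter_upwards [h1, hq, hq'] with t ht hqt hqt'
  have h2 : ∀ i, σ t i - σ' t i ∈ Gau := (hT.eq_iff _ _).mp (hqt.trans hqt'.symm)
  ext i
  have h3 : ‖(σ t i - σ' t i) - (σ t₀ i - σ' t₀ i)‖ < 1 := by
    rw [dist_eq_norm] at ht
    exact (norm_le_pi_norm ((σ t - σ' t) - (σ t₀ - σ' t₀)) i).trans_lt ht
  have h4 := gau_small (sub_mem (h2 i) (h0 i)) h3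
  simp only [Pi.add_apply, Pi.sub_apply]
  linear_combination h4

section

variable {n m k : ℕ} {M N P : Type*}
  [TopologicalSpace M] [ChartedSpace (E n) M] [IsManifold 𝓘(ℂ, E n) ω M]
  [TopologicalSpace N] [ChartedSpace (E m) N] [IsManifold 𝓘(ℂ, E m) ω N]
  [TopologicalSpace P] [ChartedSpace (E k) P] [IsManifold 𝓘(ℂ, E k) ω P]

omit [IsManifold 𝓘(ℂ, E n) ω M] [IsManifold 𝓘(ℂ, E m) ω N] in
theorem mdC {f : M → N} {x : M} (hf : HoloAt n m f x) :
    MDifferentiableAt 𝓘(ℂ, E n) 𝓘(ℂ, E m) f x :=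
  ContMDiffAt.mdifferentiableAt hf (by simp)

omit [IsManifold 𝓘(ℂ, E n) ω M] [IsManifold 𝓘(ℂ, E m) ω N] [IsManifold 𝓘(ℂ, E k) ω P] in
theorem DC_comp {f : M → N} {g : N → P} {x : M}
    (hg : MDifferentiableAt 𝓘(ℂ, E m) 𝓘(ℂ, E k) g (f x))
    (hf : MDifferentiableAt 𝓘(ℂ, E n) 𝓘(ℂ, E m) f x) :
    DC n k (g ∘ f) x = (DC m k g (f x)).comp (DC n m f x) :=
  mfderiv_comp x hg hf

omit [IsManifold 𝓘(ℂ, E n) ω M] [IsManifold 𝓘(ℂ, E m) ω N] in
theorem DC_congr {f g : M → N} {x : M} (h : f =ᶠ[𝓝 x] g) : DC n m f x = DC n m g x :=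
  h.mfderiv_eq

theorem DC_model (f : E n → E m) (z : E n) : DC n m f z = fderiv ℂ f z := by
  rw [DC, mfderiv_eq_fderiv]

omit [IsManifold 𝓘(ℂ, E n) ω M] in
theorem DC_add_const {f : M → E m} {x : M} (hf : MDifferentiableAt 𝓘(ℂ, E n) 𝓘(ℂ, E m) f x)
    (c : E m) : DC n m (fun y => f y + c) x = DC n m f x := by
  have h1 : (fun y => f y + c) = (fun p : E m => p + c) ∘ f := rfl
  have h2 : HasFDerivAt (fun p : E m => p + c) (ContinuousLinearMap.id ℂ (E m)) (f x) :=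
    (hasFDerivAt_id _).add_const c
  rw [h1, DC_comp (g := fun p : E m => p + c) h2.differentiableAt.mdifferentiableAt hf, DC_model,
    h2.fderiv, ContinuousLinearMap.id_comp]

omit [IsManifold 𝓘(ℂ, E n) ω M] [IsManifold 𝓘(ℂ, E m) ω N] in
theorem smthAt_of_holoAt {f : M → N} {x : M} (hf : HoloAt n m f x) :
    ContMDiffAt 𝓘(ℝ, E n) 𝓘(ℝ, E m) ∞ f x := by
  have h : ContMDiffAt 𝓘(ℂ, E n) 𝓘(ℂ, E m) ω f x := hf
  rw [contMDiffAt_iff] at h ⊢
  refine ⟨h.1, ?_⟩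
  simpa using (h.2.restrict_scalars ℝ).of_le le_top

theorem d0_coord {f : M → E m} {x : M} (hf : HoloAt n m f x) (k : Fin m) (v : E n) :
    d0 n (fun y => f y k) x v = DC n m f x v k := by
  have h1 : MDifferentiableAt 𝓘(ℝ, E n) 𝓘(ℝ, E m) f x := hf.mdiff
  let L : E m →L[ℝ] ℂ := ContinuousLinearMap.proj (R := ℝ) (φ := fun _ : Fin m => ℂ) k
  have h2 : mfderiv 𝓘(ℝ, E n) 𝓘(ℝ, ℂ) (L ∘ f) x =
      (mfderiv 𝓘(ℝ, E m) 𝓘(ℝ, ℂ) L (f x)).comp (mfderiv 𝓘(ℝ, E n) 𝓘(ℝ, E m) f x) :=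
    mfderiv_comp x L.mdifferentiableAt h1
  have h3 : d0 n (fun y => f y k) x v = mfderiv 𝓘(ℝ, E n) 𝓘(ℝ, ℂ) (L ∘ f) x v := rfl
  rw [h3, h2, ContinuousLinearMap.mfderiv_eq, ← D_eq_DC hf v]
  rfl

omit [IsManifold 𝓘(ℂ, E n) ω M] in
theorem holoAt_symm {e : OpenPartialHomeomorph M (E n)} (he : e ∈ CA n M) {z : E n}
    (hz : z ∈ e.target) : HoloAt n n e.symm z :=
  contMDiffAt_symm_of_mem_maximalAtlas he hz

end

end DTorForms

open DTorForms

theorem exists_torForms {n m : ℕ} {T : CMfd m} {q : E m → T} (hT : IsTorus T q) {M : CMfd n}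
    {φ : M → T} (hφ : Holo n m φ) :
    ∃ (F : Fin m → M → Tor) (a : Fin m → F1 n M), TorForms q φ F a := by
  classical
  choose p hp using fun x : M => hT.surj (φ x)
  choose σ hσ hσp hσq using fun x : M => hT.sec (p x)
  have hσ' : ∀ x, HoloAt m m (σ x) (φ x) := fun x => by rw [← hp x]; exact hσ x
  have hσq' : ∀ x, ∀ᶠ t in 𝓝 (φ x), q (σ x t) = t := fun x => by
    have := hσq x; rwa [hp x] at this
  let F : Fin m → M → Tor := fun k x => QuotientAddGroup.mk (p x k)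
  let a : Fin m → F1 n M := fun k x =>
    ((ContinuousLinearMap.proj (R := ℂ) (φ := fun _ : Fin m => ℂ) k).comp
      (DC n m (σ x ∘ φ) x)).restrictScalars ℝ
  have hval : ∀ k x r, q r = φ x → F k x = (QuotientAddGroup.mk (r k) : Tor) := by
    intro k x r hr
    have h1 := (hT.eq_iff (p x) r).mp ((hp x).trans hr.symm) k
    show (QuotientAddGroup.mk (p x k) : Tor) = QuotientAddGroup.mk (r k)
    rw [QuotientAddGroup.eq]
    have h2 : -(p x k) + r k = -(p x k - r k) := by ring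
    rw [h2]
    exact neg_mem h1
  have hder : ∀ (x : M) (τ : T → E m), HoloAt m m τ (φ x) → (∀ᶠ t in 𝓝 (φ x), q (τ t) = t) →
      ∀ k v, a k x v = DC n m (τ ∘ φ) x v k := by
    intro x τ hτ hτq k v
    have h1 := sec_unique hT (hσ' x).continuousAt hτ.continuousAt (hσq' x) hτq
    have h2 : ∀ᶠ y in 𝓝 x, (σ x ∘ φ) y = (τ ∘ φ) y + (σ x (φ x) - τ (φ x)) :=
      (hφ x).continuousAt.eventually h1
    have h3 : MDifferentiableAt 𝓘(ℂ, E n) 𝓘(ℂ, E m) (τ ∘ φ) x :=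
      (mdC hτ).comp x (mdC (hφ x))
    have h4 : DC n m (σ x ∘ φ) x = DC n m (τ ∘ φ) x := by
      rw [DC_congr h2]
      exact DC_add_const h3 _
    show (DC n m (σ x ∘ φ) x v) k = _
    rw [h4]
  have hloc : ∀ x, ∀ᶠ y in 𝓝 x, HoloAt n m (σ x ∘ φ) y ∧
      (∀ k v, a k y v = DC n m (σ x ∘ φ) y v k) ∧
      ∀ k, F k y = (QuotientAddGroup.mk (σ x (φ y) k) : Tor) := by
    intro x
    have hσe : ∀ᶠ t in 𝓝 (φ x), HoloAt m m (σ x) t :=
      (contMDiffAt_iff_contMDiffAt_nhds (by simp)).mp (hσ' x)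
    have hqe := (hσq' x).eventually_nhds
    filter_upwards [(hφ x).continuousAt.eventually hσe, (hφ x).continuousAt.eventually hqe]
      with y h1 h2
    refine ⟨ContMDiffAt.comp y h1 (hφ y), hder y (σ x) h1 h2, fun k => ?_⟩
    exact hval k y _ h2.self_of_nhds
  refine ⟨F, a, ?_, ?_, hval, hder⟩
  · intro k
    refine H1_of_local fun x => ?_
    set e := chartAt (E n) x with he
    have heC : e ∈ CA n M := chartAt_mem_CA x
    have hxs : x ∈ e.source := mem_chart_source (E n) x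
    have hxt : e x ∈ e.target := e.map_source hxs
    have hex : e.symm (e x) = x := e.left_inv hxs
    refine ⟨e, heC, hxs, fun z => σ x (φ (e.symm z)) k, ?_, ?_⟩
    · have h1 : HoloAt n m ((σ x ∘ φ) ∘ e.symm) (e x) := by
        refine ContMDiffAt.comp (e x) ?_ (holoAt_symm heC hxt)
        rw [hex]
        exact (hloc x).self_of_nhds.1
      have h2 : ContDiffAt ℂ ω ((σ x ∘ φ) ∘ e.symm) (e x) := ContMDiffAt.contDiffAt h1
      exact contDiffAt_pi.mp h2 k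
    · have hc : Tendsto e.symm (𝓝 (e x)) (𝓝 x) := by
        have := (e.continuousAt_symm hxt).tendsto
        rwa [hex] at this
      filter_upwards [hc.eventually (hloc x), e.open_target.mem_nhds hxt] with z hz hzt u
      have h1 : HoloAt n n e.symm z := holoAt_symm heC hzt
      have h2 : MDifferentiableAt 𝓘(ℂ, E n) 𝓘(ℂ, E m) ((σ x ∘ φ) ∘ e.symm) z :=
        (mdC hz.1).comp z (mdC h1)
      have h3 : DifferentiableAt ℂ ((σ x ∘ φ) ∘ e.symm) z := h2.differentiableAt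
      have h4 : loc1 e (a k) z u = a k (e.symm z) (D n n e.symm z u) := rfl
      rw [h4, hz.2.1, D_eq_DC h1]
      have h5 := DC_comp (f := e.symm) (g := σ x ∘ φ) (mdC hz.1) (mdC h1)
      have h6 : DC n m (σ x ∘ φ) (e.symm z) (DC n n e.symm z u) =
          fderiv ℂ ((σ x ∘ φ) ∘ e.symm) z u := by
        rw [← DC_model, h5]; rfl
      rw [h6]
      have h7 : fderiv ℂ (fun z => σ x (φ (e.symm z)) k) z =
          (ContinuousLinearMap.proj (R := ℂ) (φ := fun _ : Fin m => ℂ) k).comp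
            (fderiv ℂ ((σ x ∘ φ) ∘ e.symm) z) :=
        (hasFDerivAt_pi'.mp h3.hasFDerivAt k).fderiv
      rw [h7]; rfl
  · intro k x
    refine ⟨fun y => σ x (φ y) k, ?_, ?_⟩
    · have h1 := smthAt_of_holoAt (hloc x).self_of_nhds.1
      exact (contMDiffAt_pi_space.mp h1) k
    · filter_upwards [hloc x] with y hy
      refine ⟨hy.2.2 k, ?_⟩
      ext v
      rw [hy.2.1]
      exact (d0_coord hy.1 k v).symm

end Pool.Agent.K708
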