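import Pool.Agent.Lib.K708.DReg
import Pool.Agent.Lib.K708.DTorForms

/-! # K708: tangent space of the example `X` (row DTan) -/

set_option autoImplicit false

open scoped Manifold ContDiff Topology
open Set Filter

noncomputable section

namespace Pool.Agent.K708

namespace DTan

open DTorForms

theorem hasFDerivAt_of_holoAt {n m : ℕ} {M : Type*} [TopologicalSpace M] [ChartedSpace (E n) M]
    {g : M → E m} {x : M} (hg : HoloAt n m g x) :
    HasFDerivAt (g ∘ (chartAt (E n) x).symm) (DC n m g x) (chartAt (E n) x x) := by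
  have h1 : MDifferentiableAt 𝓘(ℂ, E n) 𝓘(ℂ, E m) g x := hg.mdifferentiableAt (by simp)
  have h2 := h1.hasMFDerivAt.2
  rw [← hasFDerivWithinAt_univ]
  simp only [writtenInExtChartAt, extChartAt, OpenPartialHomeomorph.extend,
    modelWithCornersSelf_partialEquiv, PartialEquiv.trans_refl,
    OpenPartialHomeomorph.toFun_eq_coe, OpenPartialHomeomorph.coe_toPartialEquiv_symm,
    modelWithCornersSelf_coe, range_id, chartAt_self_eq] at h2
  exact h2

theorem fl_eq (j : Fin 4) (x y : ℂ) : fl j x y = fl j 1 0 * x + fl j 0 1 * y := by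
  fin_cases j <;> simp [fl]

theorem f_eq (P : Par) (j : Fin 4) (x y : ℂ) :
    P.f j x y = fl j 1 0 * x + fl j 0 1 * y + P.f j 0 0 := by
  have h := P.f_add j 0 0 x y
  rw [zero_add, zero_add] at h
  rw [h, fl_eq j x y]
  ring

/-- Any two of the linear forms `fl` are independent. -/
theorem fl_pair {i j : Fin 4} (h : i ≠ j) (c d : ℂ) : ∃ x y, fl i x y = c ∧ fl j x y = d := by
  have hI : (1 - Complex.I) ≠ 0 := by
    intro h
    have := congrArg Complex.re h
    simp at this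
  have key : ∀ a b a' b' : ℂ, a * b' - a' * b ≠ 0 → ∃ x y, a * x + b * y = c ∧
      a' * x + b' * y = d := by
    intro a b a' b' hd
    refine ⟨(c * b' - d * b) / (a * b' - a' * b), (a * d - a' * c) / (a * b' - a' * b), ?_, ?_⟩
    · rw [← mul_div_assoc, ← mul_div_assoc, ← add_div, div_eq_iff hd]; ring
    · rw [← mul_div_assoc, ← mul_div_assoc, ← add_div, div_eq_iff hd]; ring
  have hdet : fl i 1 0 * fl j 0 1 - fl j 1 0 * fl i 0 1 ≠ 0 := by
    have hI' : Complex.I - 1 ≠ 0 := by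
      intro h
      apply hI
      linear_combination -h
    fin_cases i <;> fin_cases j <;> simp [fl] at h ⊢ <;> assumption
  obtain ⟨x, y, h1, h2⟩ := key _ _ _ _ hdet
  exact ⟨x, y, by rw [fl_eq, h1], by rw [fl_eq, h2]⟩

theorem two_of {R : Fin 4 → Prop} (h012 : ¬ (R 0 ∧ R 1 ∧ R 2)) (h013 : ¬ (R 0 ∧ R 1 ∧ R 3))
    (h023 : ¬ (R 0 ∧ R 2 ∧ R 3)) (h123 : ¬ (R 1 ∧ R 2 ∧ R 3)) :
    ∃ i j : Fin 4, i ≠ j ∧ ∀ k, R k → k = i ∨ k = j := by
  classical
  have key : ∀ f : Fin 4 → Bool, ¬ (f 0 ∧ f 1 ∧ f 2) → ¬ (f 0 ∧ f 1 ∧ f 3) →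
      ¬ (f 0 ∧ f 2 ∧ f 3) → ¬ (f 1 ∧ f 2 ∧ f 3) →
      ∃ i j : Fin 4, i ≠ j ∧ ∀ k, f k → k = i ∨ k = j := by
    decide
  obtain ⟨i, j, hij, h⟩ := key (fun k => decide (R k)) (by simpa using h012)
    (by simpa using h013) (by simpa using h023) (by simpa using h123)
  exact ⟨i, j, hij, fun k hk => h k (by simpa using hk)⟩

theorem wi_inj {i j : Fin 4} (h : wi i = wi j) : i = j := by
  simp only [wi, Fin.mk.injEq] at h
  exact Fin.ext (by omega)

/-- The map of the four equations. -/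
def Psi (α β : Fin 4 → ℂ) : E 6 →ₗ[ℂ] E 4 where
  toFun u := fun j => α j * fl j (u 0) (u 1) - β j * u (wi j)
  map_add' u v := by
    funext j
    simp only [Pi.add_apply]
    rw [fl_eq j (u 0 + v 0), fl_eq j (u 0), fl_eq j (v 0)]
    ring
  map_smul' c u := by
    funext j
    simp only [Pi.smul_apply, smul_eq_mul, RingHom.id_apply]
    rw [fl_eq j (c * u 0), fl_eq j (u 0)]
    ring

theorem Psi_surj {α β : Fin 4 → ℂ} {R : Fin 4 → Prop} (hβ : ∀ j, ¬ R j → β j ≠ 0)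
    (hα : ∀ j, R j → α j ≠ 0) {i j : Fin 4} (hij : i ≠ j) (h : ∀ k, R k → k = i ∨ k = j) :
    Function.Surjective (Psi α β) := by
  classical
  intro c
  obtain ⟨x, y, h1, h2⟩ := fl_pair hij (c i / α i) (c j / α j)
  have hxy : ∀ k, R k → α k * fl k x y = c k := by
    intro k hk
    rcases h k hk with rfl | rfl
    · rw [h1]; field_simp [hα k hk]
    · rw [h2]; field_simp [hα k hk]
  let u : E 6 := ![x, y, if R 0 then 0 else (α 0 * fl 0 x y - c 0) / β 0,
    if R 1 then 0 else (α 1 * fl 1 x y - c 1) / β 1,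
    if R 2 then 0 else (α 2 * fl 2 x y - c 2) / β 2,
    if R 3 then 0 else (α 3 * fl 3 x y - c 3) / β 3]
  have hu : ∀ k, u (wi k) = if R k then 0 else (α k * fl k x y - c k) / β k := by
    intro k
    fin_cases k <;> rfl
  refine ⟨u, ?_⟩
  funext k
  show α k * fl k x y - β k * u (wi k) = c k
  rw [hu]
  split_ifs with hk
  · rw [mul_zero, sub_zero, hxy k hk]
  · rw [mul_div_cancel₀ _ (hβ k hk)]
    ring

end DTan

open DTan DTorForms

/-- The tangent space of `X` (row DTan): range of the differential = kernel of the differentials of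
the four equations. -/
theorem IsX.tangent {P : Par} {T : CMfd 6} {q : E 6 → T} {X : CMfd 2} {ι : X → T}
    (hX : IsX P q ι) {F : Fin 6 → X → Tor} {a : Fin 6 → F1 2 X} (ha : TorForms q ι F a)
    (x : X) (p : E 6) (hp : q p = ι x) :
    ∃ α β : Fin 4 → ℂ, (∀ j, 2 * p (wi j) ∉ LG.lattice → β j ≠ 0) ∧
      (∀ j, 2 * p (wi j) ∈ LG.lattice → α j ≠ 0 ∧ β j = 0) ∧
      ∀ u : E 6, (∃ v : E 2, ∀ k, a k x v = u k) ↔
        ∀ j, α j * fl j (u 0) (u 1) = β j * u (wi j) := by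
  have hT := hX.tor
  obtain ⟨σ, hσ, hσp, hσq⟩ := hT.sec p
  rw [hp] at hσ hσp hσq
  have hpX : p ∈ XL P := by
    rw [← mem_XS P hT, hp, ← hX.range]
    exact mem_range_self x
  choose A B hA hB hAB hloc hβ hα using fun j => Cur.cur_local P.gen (hpX j)
  refine ⟨fun j => deriv (A j) (P.f j (p 0) (p 1)), fun j => deriv (B j) (p (wi j)),
    hβ, hα, ?_⟩
  -- the local lift
  have hh : HoloAt 2 6 (σ ∘ ι) x := ContMDiffAt.comp x hσ (hX.emb.holo x)
  have hhx : (σ ∘ ι) x = p := hσp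
  -- injectivity
  have hinj : Function.Injective (DC 2 6 (σ ∘ ι) x) := by
    rw [DC_comp (f := ι) (g := σ) (mdC hσ) (mdC (hX.emb.holo x))]
    have h1 : Function.Injective (DC 6 6 σ (ι x)) := by
      have h2 : (DC 6 6 q (σ (ι x))).comp (DC 6 6 σ (ι x)) = ContinuousLinearMap.id ℂ (E 6) := by
        rw [← DC_comp (f := σ) (g := q) (mdC (hT.holo _)) (mdC hσ)]
        have h3 : (q ∘ σ) =ᶠ[𝓝 (ι x)] id := hσq
        rw [DC_congr h3]
        exact mfderiv_id
      intro u v huv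
      have h4 := congrArg (fun L => L u) h2
      have h5 := congrArg (fun L => L v) h2
      simp only [ContinuousLinearMap.comp_apply, ContinuousLinearMap.id_apply] at h4 h5
      rw [← h4, ← h5, huv]
    exact h1.comp (hX.emb.imm x)
  -- the equations
  have hmem : ∀ᶠ y in 𝓝 x, (σ ∘ ι) y ∈ XL P := by
    filter_upwards [(hX.emb.holo x).continuousAt.eventually hσq] with y hy
    rw [← mem_XS P hT]
    show q (σ (ι y)) ∈ _
    rw [hy, ← hX.range]
    exact mem_range_self y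
  have hcont : ContinuousAt (σ ∘ ι) x := hh.continuousAt
  have heq : ∀ j, ∀ᶠ y in 𝓝 x, A j (P.f j ((σ ∘ ι) y 0) ((σ ∘ ι) y 1)) =
      B j ((σ ∘ ι) y (wi j)) := by
    intro j
    have hc : ContinuousAt (fun y => (P.f j ((σ ∘ ι) y 0) ((σ ∘ ι) y 1), (σ ∘ ι) y (wi j))) x := by
      have hk : ∀ k, ContinuousAt (fun y => (σ ∘ ι) y k) x := fun k =>
        (continuous_apply k).continuousAt.comp hcont
      refine ContinuousAt.prodMk ?_ (hk _)
      have : (fun y => P.f j ((σ ∘ ι) y 0) ((σ ∘ ι) y 1)) = fun y =>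
        fl j 1 0 * (σ ∘ ι) y 0 + fl j 0 1 * (σ ∘ ι) y 1 + P.f j 0 0 := by
        funext y; rw [f_eq]
      rw [this]
      exact ((continuousAt_const.mul (hk 0)).add (continuousAt_const.mul (hk 1))).add
        continuousAt_const
    have hl := hloc j
    have hl' : ∀ᶠ p' in 𝓝 (P.f j ((σ ∘ ι) x 0) ((σ ∘ ι) x 1), (σ ∘ ι) x (wi j)),
        PFun.Cur LG P.s p'.1 p'.2 ↔ A j p'.1 = B j p'.2 := by
      rw [hhx]; exact hl
    filter_upwards [hc.eventually hl', hmem] with y h1 h2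
    exact h1.mp (h2 j)
  set e := chartAt (E 2) x with he
  have hxs : x ∈ e.source := mem_chart_source (E 2) x
  have hex : e.symm (e x) = x := e.left_inv hxs
  have hH : HasFDerivAt ((σ ∘ ι) ∘ e.symm) (DC 2 6 (σ ∘ ι) x) (e x) := hasFDerivAt_of_holoAt hh
  have hHk : ∀ k, HasFDerivAt (fun z => ((σ ∘ ι) ∘ e.symm) z k)
      ((ContinuousLinearMap.proj (R := ℂ) (φ := fun _ : Fin 6 => ℂ) k).comp
        (DC 2 6 (σ ∘ ι) x)) (e x) := fun k => hasFDerivAt_pi'.mp hH k
  have hHx : ((σ ∘ ι) ∘ e.symm) (e x) = p := by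
    show (σ ∘ ι) (e.symm (e x)) = p
    rw [hex, hhx]
  have hsub : ∀ v : E 2, ∀ j, deriv (A j) (P.f j (p 0) (p 1)) *
      fl j (DC 2 6 (σ ∘ ι) x v 0) (DC 2 6 (σ ∘ ι) x v 1) =
      deriv (B j) (p (wi j)) * DC 2 6 (σ ∘ ι) x v (wi j) := by
    intro v j
    have hf : HasFDerivAt (fun z => fl j 1 0 * ((σ ∘ ι) ∘ e.symm) z 0 +
        fl j 0 1 * ((σ ∘ ι) ∘ e.symm) z 1 + P.f j 0 0) _ (e x) :=
      (((hHk 0).const_mul (fl j 1 0)).add ((hHk 1).const_mul (fl j 0 1))).add_const (P.f j 0 0)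
    have hval : fl j 1 0 * ((σ ∘ ι) ∘ e.symm) (e x) 0 +
        fl j 0 1 * ((σ ∘ ι) ∘ e.symm) (e x) 1 + P.f j 0 0 = P.f j (p 0) (p 1) := by
      rw [hHx, ← f_eq]
    have hA' : HasDerivAt (A j) (deriv (A j) (P.f j (p 0) (p 1)))
        (fl j 1 0 * ((σ ∘ ι) ∘ e.symm) (e x) 0 +
        fl j 0 1 * ((σ ∘ ι) ∘ e.symm) (e x) 1 + P.f j 0 0) := by
      rw [hval]
      exact (hA j).differentiableAt.hasDerivAt
    have hB' : HasDerivAt (B j) (deriv (B j) (p (wi j))) (((σ ∘ ι) ∘ e.symm) (e x) (wi j)) := by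
      rw [hHx]
      exact (hB j).differentiableAt.hasDerivAt
    have h1 := hA'.comp_hasFDerivAt (e x) hf
    have h2 := hB'.comp_hasFDerivAt (e x) (hHk (wi j))
    have hc : Tendsto e.symm (𝓝 (e x)) (𝓝 x) := by
      have := (e.continuousAt_symm (e.map_source hxs)).tendsto
      rwa [hex] at this
    have h3 : (A j ∘ fun z => fl j 1 0 * ((σ ∘ ι) ∘ e.symm) z 0 +
        fl j 0 1 * ((σ ∘ ι) ∘ e.symm) z 1 + P.f j 0 0) =ᶠ[𝓝 (e x)]
        (B j ∘ fun z => ((σ ∘ ι) ∘ e.symm) z (wi j)) := by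
      filter_upwards [hc.eventually (heq j)] with z hz
      rw [f_eq] at hz
      exact hz
    have h4 := h1.unique (h2.congr_of_eventuallyEq h3)
    have h5 := congrArg (fun L => L v) h4
    simp only [smul_apply, add_apply, ContinuousLinearMap.comp_apply,
      ContinuousLinearMap.proj_apply, smul_eq_mul] at h5
    rw [fl_eq]
    exact h5
  -- the dimension count
  set α : Fin 4 → ℂ := fun j => deriv (A j) (P.f j (p 0) (p 1)) with hαdef
  set β : Fin 4 → ℂ := fun j => deriv (B j) (p (wi j)) with hβdef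
  have hR : ∀ j, 2 * p (wi j) ∈ LG.lattice → P.f j (p 0) (p 1) ∈ Cur.Ram LG P.s := fun j hj =>
    ⟨p (wi j), hj, hpX j⟩
  obtain ⟨h012, h013, h023, h123⟩ := P.noth (p 0) (p 1)
  obtain ⟨i, j, hij, hij'⟩ := two_of (R := fun j => 2 * p (wi j) ∈ LG.lattice)
    (fun h => h012 ⟨hR 0 h.1, hR 1 h.2.1, hR 2 h.2.2⟩)
    (fun h => h013 ⟨hR 0 h.1, hR 1 h.2.1, hR 3 h.2.2⟩)
    (fun h => h023 ⟨hR 0 h.1, hR 2 h.2.1, hR 3 h.2.2⟩)
    (fun h => h123 ⟨hR 1 h.1, hR 2 h.2.1, hR 3 h.2.2⟩)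
  have hsurj : Function.Surjective (Psi α β) :=
    Psi_surj (R := fun j => 2 * p (wi j) ∈ LG.lattice) hβ (fun j h => (hα j h).1) hij hij'
  have hker : Module.finrank ℂ (LinearMap.ker (Psi α β)) = 2 := by
    have h1 := LinearMap.finrank_range_add_finrank_ker (Psi α β)
    rw [LinearMap.range_eq_top.mpr hsurj, finrank_top, Module.finrank_fin_fun,
      Module.finrank_fin_fun] at h1
    omega
  have hrange : Module.finrank ℂ (LinearMap.range (DC 2 6 (σ ∘ ι) x : E 2 →ₗ[ℂ] E 6)) = 2 := by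
    rw [LinearMap.finrank_range_of_inj hinj, Module.finrank_fin_fun]
  have hle : LinearMap.range (DC 2 6 (σ ∘ ι) x : E 2 →ₗ[ℂ] E 6) ≤ LinearMap.ker (Psi α β) := by
    rintro _ ⟨v, rfl⟩
    rw [LinearMap.mem_ker]
    funext j
    exact sub_eq_zero.mpr (hsub v j)
  have hEq := Submodule.eq_of_le_of_finrank_eq hle (hrange.trans hker.symm)
  intro u
  constructor
  · rintro ⟨v, hv⟩ j
    have h1 : u = DC 2 6 (σ ∘ ι) x v := by
      funext k
      rw [← hv k, ha.der x σ hσ hσq k v]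
    rw [h1]
    exact hsub v j
  · intro hu
    have h1 : u ∈ LinearMap.ker (Psi α β) := by
      rw [LinearMap.mem_ker]
      funext j
      exact sub_eq_zero.mpr (hu j)
    rw [← hEq] at h1
    obtain ⟨v, hv⟩ := h1
    refine ⟨v, fun k => ?_⟩
    rw [ha.der x σ hσ hσq k v, ← hv]
    rfl

end Pool.Agent.K708
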