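import Pool.Agent.Lib.K708.Base

/-! # K708: complex differentiable functions of several variables are analytic -/

set_option autoImplicit false

open scoped Manifold ContDiff Topology Real
open Set Filter MeasureTheory

noncomputable section

namespace Pool.Agent.K708

namespace Osgood

theorem torusMap_mem {n : ℕ} (c : E n) {R R' : ℝ} (hR : 0 < R) (hR' : R < R') (θ : Fin n → ℝ) :
    torusMap c (fun _ => R) θ ∈ Metric.ball c R' := by
  have h0 : 0 < R' := hR.trans hR'
  rw [Metric.mem_ball, dist_pi_lt_iff h0]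
  intro i
  simp only [torusMap, dist_eq_norm]
  simpa [abs_of_pos hR] using hR'

theorem torusMap_sub_ne {n : ℕ} {c z : E n} {R : ℝ} (hR : 0 < R) (hz : z ∈ Metric.ball c R)
    (θ : Fin n → ℝ) (i : Fin n) : torusMap c (fun _ => R) θ i - z i ≠ 0 := by
  intro h
  rw [sub_eq_zero] at h
  have h1 : dist (z i) (c i) < R := (dist_pi_lt_iff hR).mp (Metric.mem_ball.mp hz) i
  rw [← h, dist_eq_norm] at h1
  simp [torusMap, abs_of_pos hR] at h1

theorem continuous_torusMap {n : ℕ} (c : E n) (R : Fin n → ℝ) : Continuous (torusMap c R) := by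
  unfold torusMap
  fun_prop

theorem continuous_coord {n : ℕ} (c : E n) (R : ℝ) (i : Fin n) :
    Continuous fun θ : Fin n → ℝ => torusMap c (fun _ => R) θ i := by
  unfold torusMap
  fun_prop

theorem continuous_kernel {n : ℕ} {c z : E n} {R : ℝ} (hR : 0 < R) (hz : z ∈ Metric.ball c R) :
    Continuous fun θ : Fin n → ℝ => ∏ i, (torusMap c (fun _ => R) θ i - z i)⁻¹ := by
  refine continuous_finsetProd _ fun i _ => ?_
  have h0 := continuous_coord c R i
  have h1 : Continuous fun θ : Fin n → ℝ => torusMap c (fun _ => R) θ i - z i := by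
    fun_prop
  exact h1.inv₀ (fun θ => torusMap_sub_ne hR hz θ i)

theorem continuous_f {n : ℕ} {c : E n} {R R' : ℝ} (hR : 0 < R) (hR' : R < R') {f : E n → ℂ}
    (hf : DifferentiableOn ℂ f (Metric.ball c R')) :
    Continuous fun θ : Fin n → ℝ => f (torusMap c (fun _ => R) θ) :=
  hf.continuousOn.comp_continuous (continuous_torusMap c _) (torusMap_mem c hR hR')

theorem torusIntegrable_kernel {n : ℕ} {c z : E n} {R R' : ℝ} (hR : 0 < R) (hR' : R < R')
    (hz : z ∈ Metric.ball c R) {f : E n → ℂ} (hf : DifferentiableOn ℂ f (Metric.ball c R')) :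
    TorusIntegrable (fun ζ => (∏ i, (ζ i - z i)⁻¹) * f ζ) c (fun _ => R) := by
  unfold TorusIntegrable
  have : Continuous fun θ : Fin n → ℝ => (∏ i, (torusMap c (fun _ => R) θ i - z i)⁻¹) *
      f (torusMap c (fun _ => R) θ) := (continuous_kernel hR hz).mul (continuous_f hR hR' hf)
  exact this.continuousOn.integrableOn_compact isCompact_Icc

theorem differentiable_cons {n : ℕ} (y : E n) :
    Differentiable ℂ (fun x : ℂ => (Fin.cons x y : E (n + 1))) := by
  rw [differentiable_pi]
  intro i
  refine Fin.cases ?_ (fun j => ?_) i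
  · simp only [Fin.cons_zero]
    exact differentiable_id
  · simp only [Fin.cons_succ]
    exact differentiable_const _

theorem differentiable_cons' {n : ℕ} (x : ℂ) :
    Differentiable ℂ (fun y : E n => (Fin.cons x y : E (n + 1))) := by
  rw [differentiable_pi]
  intro i
  refine Fin.cases ?_ (fun j => ?_) i
  · simp only [Fin.cons_zero]
    exact differentiable_const _
  · simp only [Fin.cons_succ]
    exact differentiable_apply j

theorem cons_mem {n : ℕ} {c : E (n + 1)} {r : ℝ} (hr : 0 < r) {x : ℂ} {y : E n}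
    (hx : dist x (c 0) < r) (hy : y ∈ Metric.ball (c ∘ Fin.succ) r) :
    (Fin.cons x y : E (n + 1)) ∈ Metric.ball c r := by
  rw [Metric.mem_ball, dist_pi_lt_iff hr]
  intro i
  refine Fin.cases ?_ (fun j => ?_) i
  · simpa using hx
  · simpa using (dist_pi_lt_iff hr).mp (Metric.mem_ball.mp hy) j

/-- Cauchy's formula on polydiscs. -/
theorem torus_cauchy (n : ℕ) : ∀ (c z : E n) (R R' : ℝ), 0 < R → R < R' → z ∈ Metric.ball c R →
    ∀ f : E n → ℂ, DifferentiableOn ℂ f (Metric.ball c R') →
    (∯ ζ in T(c, fun _ => R), (∏ i, (ζ i - z i)⁻¹) * f ζ) = (2 * π * Complex.I) ^ n * f z := by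
  induction n with
  | zero =>
    intro c z R R' hR hR' hz f hf
    rw [torusIntegral_dim0]
    simp [Subsingleton.elim c z]
  | succ n ih =>
    intro c z R R' hR hR' hz f hf
    rw [torusIntegral_succ (torusIntegrable_kernel hR hR' hz hf)]
    have hz0 : dist (z 0) (c 0) < R := (dist_pi_lt_iff hR).mp (Metric.mem_ball.mp hz) 0
    have hz1 : z ∘ Fin.succ ∈ Metric.ball (c ∘ Fin.succ) R := by
      rw [Metric.mem_ball, dist_pi_lt_iff hR]
      intro i
      exact (dist_pi_lt_iff hR).mp (Metric.mem_ball.mp hz) i.succ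
    have h0 : 0 < R' := hR.trans hR'
    have hinner : ∀ x ∈ Metric.sphere (c 0) R,
        (∯ y in T(c ∘ Fin.succ, (fun _ => R) ∘ Fin.succ), (∏ i, ((Fin.cons x y : E (n + 1)) i - z i)⁻¹) *
          f (Fin.cons x y)) =
        (x - z 0)⁻¹ • ((2 * π * Complex.I) ^ n * f (Fin.cons x (z ∘ Fin.succ))) := by
      intro x hx
      have hx' : dist x (c 0) < R' := by
        rw [Metric.mem_sphere.mp hx]
        exact hR'
      have hfx : DifferentiableOn ℂ (fun y : E n => f (Fin.cons x y))
          (Metric.ball (c ∘ Fin.succ) R') :=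
        hf.comp (differentiable_cons' x).differentiableOn (fun y hy => cons_mem h0 hx' hy)
      rw [← ih (c ∘ Fin.succ) (z ∘ Fin.succ) R R' hR hR' hz1 _ hfx, smul_eq_mul,
        ← torusIntegral_const_mul]
      congr 1
      funext y
      rw [Fin.prod_univ_succ]
      simp only [Fin.cons_zero, Fin.cons_succ, Function.comp]
      ring
    rw [circleIntegral.integral_congr hR.le hinner]
    have hd : DifferentiableOn ℂ (fun x : ℂ => (2 * π * Complex.I) ^ n *
        f (Fin.cons x (z ∘ Fin.succ))) (Metric.closedBall (c 0) R) := by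
      refine DifferentiableOn.const_mul ?_ _
      refine hf.comp (differentiable_cons _).differentiableOn (fun x hx => ?_)
      exact cons_mem h0 (lt_of_le_of_lt (Metric.mem_closedBall.mp hx) hR')
        (Metric.ball_subset_ball hR'.le hz1)
    rw [hd.circleIntegral_sub_inv_smul (Metric.mem_ball.mpr hz0)]
    have hc : (Fin.cons (z 0) (z ∘ Fin.succ) : E (n + 1)) = z := Fin.cons_self_tail z
    rw [hc, smul_eq_mul]
    ring

/-- The parameter space of the torus. -/
abbrev Th (n : ℕ) := (Icc (0 : Fin n → ℝ) fun _ => 2 * π)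

/-- The coordinate functions on the torus. -/
def aa {n : ℕ} (c : E n) (R : ℝ) (i : Fin n) : C(Th n, ℂ) :=
  ⟨fun θ => torusMap c (fun _ => R) θ.1 i, (continuous_coord c R i).comp continuous_subtype_val⟩

theorem aa_sub_apply {n : ℕ} (c : E n) (R : ℝ) (i : Fin n) (w : ℂ) (θ : Th n) :
    (aa c R i - algebraMap ℂ C(Th n, ℂ) w) θ = torusMap c (fun _ => R) θ.1 i - w := by
  simp [aa]

/-- The kernel as a function with values in the Banach algebra of continuous functions. -/
def KK {n : ℕ} (c : E n) (R : ℝ) (z : E n) : C(Th n, ℂ) :=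
  ∏ i, Ring.inverse (aa c R i - algebraMap ℂ C(Th n, ℂ) (z i))

theorem isUnit_aa {n : ℕ} {c z : E n} {R : ℝ} (hR : 0 < R) (hz : z ∈ Metric.ball c R)
    (i : Fin n) : IsUnit (aa c R i - algebraMap ℂ C(Th n, ℂ) (z i)) := by
  rw [ContinuousMap.isUnit_iff_forall_ne_zero]
  intro θ
  rw [aa_sub_apply]
  exact torusMap_sub_ne hR hz θ.1 i

theorem KK_apply {n : ℕ} {c z : E n} {R : ℝ} (hR : 0 < R) (hz : z ∈ Metric.ball c R)
    (θ : Th n) : KK c R z θ = ∏ i, (torusMap c (fun _ => R) θ.1 i - z i)⁻¹ := by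
  unfold KK
  rw [ContinuousMap.prod_apply]
  refine Finset.prod_congr rfl fun i _ => ?_
  have h1 := Ring.mul_inverse_cancel _ (isUnit_aa hR hz i)
  have h2 := congrArg (fun φ : C(Th n, ℂ) => φ θ) h1
  simp only [ContinuousMap.mul_apply, ContinuousMap.one_apply] at h2
  rw [aa_sub_apply] at h2
  exact eq_inv_of_mul_eq_one_right h2

theorem analyticAt_KK {n : ℕ} {c z : E n} {R : ℝ} (hR : 0 < R) (hz : z ∈ Metric.ball c R) :
    AnalyticAt ℂ (KK c R) z := by
  unfold KK
  refine Finset.analyticAt_fun_prod _ fun i _ => ?_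
  obtain ⟨u, hu⟩ := isUnit_aa hR hz i
  have h1 : AnalyticAt ℂ (fun z : E n => aa c R i - algebraMap ℂ C(Th n, ℂ) (z i)) z := by
    refine analyticAt_const.sub ?_
    have h2 : (fun z : E n => algebraMap ℂ C(Th n, ℂ) (z i)) =
        fun z : E n => ((ContinuousLinearMap.toSpanSingleton ℂ (1 : C(Th n, ℂ))).comp
          (ContinuousLinearMap.proj (R := ℂ) (φ := fun _ : Fin n => ℂ) i)) z := by
      funext z
      simp [Algebra.algebraMap_eq_smul_one]
    rw [h2]
    exact ContinuousLinearMap.analyticAt _ _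
  have h3 : AnalyticAt ℂ (Ring.inverse : C(Th n, ℂ) → C(Th n, ℂ))
      (aa c R i - algebraMap ℂ C(Th n, ℂ) (z i)) := by
    rw [← hu]
    exact analyticAt_inverse u
  exact AnalyticAt.fun_comp (g := Ring.inverse)
    (f := fun z : E n => aa c R i - algebraMap ℂ C(Th n, ℂ) (z i)) h3 h1

/-- The functional. -/
theorem exists_functional {n : ℕ} (c : E n) (R : ℝ) (f : E n → ℂ)
    (hf : Continuous fun θ : Fin n → ℝ => f (torusMap c (fun _ => R) θ)) :
    ∃ Λ : C(Th n, ℂ) →L[ℂ] ℂ, ∀ (φ : C(Th n, ℂ)) (k : E n → ℂ),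
      (∀ θ : Th n, φ θ = k (torusMap c (fun _ => R) θ.1)) →
      Λ φ = ∯ ζ in T(c, fun _ => R), k ζ * f ζ := by
  set μ : Measure (Th n) := (volume : Measure (Fin n → ℝ)).comap Subtype.val with hμ
  have : IsFiniteMeasure μ := by
    refine ⟨?_⟩
    rw [hμ, Measure.comap_apply _ Subtype.val_injective
      (fun s hs => (MeasurableEmbedding.subtype_coe measurableSet_Icc).measurableSet_image' hs) _
      MeasurableSet.univ]
    simp only [image_univ, Subtype.range_coe]
    exact measure_Icc_lt_top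
  set J : (Fin n → ℝ) → ℂ := fun θ => (∏ i : Fin n, (R : ℂ) * Complex.exp (θ i * Complex.I) *
    Complex.I) * f (torusMap c (fun _ => R) θ) with hJ
  have hJc : Continuous J := by
    have : Continuous fun θ : Fin n → ℝ =>
        (∏ i : Fin n, (R : ℂ) * Complex.exp (θ i * Complex.I) * Complex.I) := by fun_prop
    exact this.mul hf
  have hint : ∀ φ : C(Th n, ℂ), Integrable (fun θ : Th n => J θ.1 * φ θ) μ := by
    intro φ
    have h1 : Continuous (fun θ : Th n => J θ.1 * φ θ) := by fun_prop
    exact (h1.integrable_of_hasCompactSupport (HasCompactSupport.of_compactSpace _))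
  refine ⟨LinearMap.mkContinuous
    { toFun := fun φ => ∫ θ : Th n, J θ.1 * φ θ ∂μ
      map_add' := fun φ ψ => by
        rw [← integral_add (hint φ) (hint ψ)]
        congr 1
        funext θ
        simp [mul_add]
      map_smul' := fun r φ => by
        rw [RingHom.id_apply, ← integral_smul]
        congr 1
        funext θ
        simp
        ring }
    (∫ θ : Th n, ‖J θ.1‖ ∂μ) ?_, ?_⟩
  · intro φ
    simp only [LinearMap.coe_mk, AddHom.coe_mk]
    refine (norm_integral_le_integral_norm _).trans ?_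
    rw [← integral_mul_const]
    refine integral_mono_ae (hint φ).norm ?_ (Filter.Eventually.of_forall fun θ => ?_)
    · have h1 : Continuous (fun θ : Th n => ‖J θ.1‖ * ‖φ‖) := by fun_prop
      exact (h1.integrable_of_hasCompactSupport (HasCompactSupport.of_compactSpace _))
    · simp only [norm_mul]
      exact mul_le_mul_of_nonneg_left (φ.norm_coe_le_norm θ) (norm_nonneg _)
  · intro φ k hk
    simp only [LinearMap.mkContinuous_apply, LinearMap.coe_mk, AddHom.coe_mk]
    unfold torusIntegral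
    rw [← integral_subtype_comap measurableSet_Icc]
    refine integral_congr_ae (Filter.Eventually.of_forall fun θ => ?_)
    simp only [hJ, hk, smul_eq_mul]
    ring

end Osgood

open Osgood

/-- Osgood's lemma. -/
theorem osgood {n : ℕ} {f : E n → ℂ} {U : Set (E n)} (hU : IsOpen U)
    (hf : DifferentiableOn ℂ f U) : AnalyticOnNhd ℂ f U := by
  intro c hc
  obtain ⟨R', hR', hb⟩ := Metric.isOpen_iff.mp hU c hc
  set R := R' / 2 with hRdef
  have hR : 0 < R := by positivity
  have hRR : R < R' := by rw [hRdef]; linarith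
  have hfb := hf.mono hb
  obtain ⟨Λ, hΛ⟩ := exists_functional c R f (continuous_f hR hRR hfb)
  have hcb : c ∈ Metric.ball c R := Metric.mem_ball_self hR
  have h1 : AnalyticAt ℂ (fun z => (2 * π * Complex.I : ℂ)⁻¹ ^ n * Λ (KK c R z)) c :=
    analyticAt_const.mul ((Λ.analyticAt _).fun_comp (analyticAt_KK hR hcb))
  refine h1.congr ?_
  filter_upwards [Metric.ball_mem_nhds c hR] with z hz
  have h2 := torus_cauchy n c z R R' hR hRR hz f hfb
  rw [hΛ (KK c R z) (fun ζ => ∏ i, (ζ i - z i)⁻¹) (KK_apply hR hz), h2, ← mul_assoc,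
    ← mul_pow, inv_mul_cancel₀, one_pow, one_mul]
  simp [Real.pi_ne_zero, Complex.I_ne_zero]

theorem osgood_contDiffAt {n : ℕ} {f : E n → ℂ} {z : E n}
    (hf : ∀ᶠ w in 𝓝 z, DifferentiableAt ℂ f w) : ContDiffAt ℂ ω f z := by
  obtain ⟨U, hU, hUo, hz⟩ := eventually_nhds_iff.mp hf
  exact ((osgood hUo (fun w hw => (hU w hw).differentiableWithinAt)) z hz).contDiffAt

end Pool.Agent.K708
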