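import Pool.Agent.Lib.K708.DPar
import Pool.Agent.Lib.K708.DSegre
import Pool.Agent.Lib.K708.FcHol
import Pool.Agent.Lib.K708.Osgood

/-! # K708: the Weierstrass map `(1 : ℘ : ℘')` (row DWei) -/

set_option autoImplicit false

open scoped Manifold ContDiff Topology
open Set Filter

noncomputable section

namespace Pool.Agent.K708

namespace DWei

open PeriodPair Pool.Agent.K708.PFun

open Classical in
/-- The standard lift of `(1 : ℘ : ℘')`. -/
def w0 (z : ℂ) : E 3 := if z ∈ LG.lattice then ![0, 0, 1] else ![1, ℘[LG] z, ℘'[LG] z]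

theorem w0_mem {z : ℂ} (hz : z ∈ LG.lattice) : w0 z = ![0, 0, 1] := by simp [w0, hz]

theorem w0_notMem {z : ℂ} (hz : z ∉ LG.lattice) : w0 z = ![1, ℘[LG] z, ℘'[LG] z] := by
  simp [w0, hz]

theorem w0_ne (z : ℂ) : w0 z ≠ 0 := by
  intro h
  by_cases hz : z ∈ LG.lattice
  · rw [w0_mem hz] at h
    have := congrFun h 2
    simp at this
  · rw [w0_notMem hz] at h
    have := congrFun h 0
    simp at this

theorem w0_add {z l : ℂ} (hl : l ∈ LG.lattice) : w0 (z + l) = w0 z := by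
  by_cases hz : z ∈ LG.lattice
  · rw [w0_mem hz, w0_mem (add_mem hz hl)]
  · have hz' : z + l ∉ LG.lattice := fun h => hz (by simpa using sub_mem h hl)
    rw [w0_notMem hz, w0_notMem hz', LG.weierstrassP_add_coe z ⟨l, hl⟩,
      LG.derivWeierstrassP_add_coe z ⟨l, hl⟩]

theorem w0_inj {z z' c : ℂ} (h : c • w0 z' = w0 z) : z - z' ∈ LG.lattice := by
  by_cases hz : z ∈ LG.lattice
  · by_cases hz' : z' ∈ LG.lattice
    · exact sub_mem hz hz'
    · exfalso
      rw [w0_mem hz, w0_notMem hz'] at h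
      have h0 := congrFun h 0
      have h2 := congrFun h 2
      simp at h0 h2
      rw [h0] at h2
      simp at h2
  · by_cases hz' : z' ∈ LG.lattice
    · exfalso
      rw [w0_notMem hz, w0_mem hz'] at h
      have h0 := congrFun h 0
      simp at h0
    · rw [w0_notMem hz, w0_notMem hz'] at h
      have h0 := congrFun h 0
      have h1 := congrFun h 1
      have h2 := congrFun h 2
      simp at h0 h1 h2
      rw [h0, one_mul] at h1 h2
      exact sub_mem_of_eq LG hz hz' h1.symm h2.symm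

/-- The Weierstrass map on the elliptic curve. -/
def jT (t : Tor) : PN 2 := Projectivization.mk ℂ (w0 (Quotient.out t)) (w0_ne _)

theorem jT_mk (z : ℂ) : jT (QuotientAddGroup.mk z) = Projectivization.mk ℂ (w0 z) (w0_ne z) := by
  have h : (QuotientAddGroup.mk (Quotient.out (QuotientAddGroup.mk z : Tor)) : Tor) =
      QuotientAddGroup.mk z := Quotient.out_eq' _
  have h1 : -(Quotient.out (QuotientAddGroup.mk z : Tor)) + z ∈ Gau := QuotientAddGroup.eq.mp h
  unfold jT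
  have h2 : w0 z = w0 (Quotient.out (QuotientAddGroup.mk z : Tor)) := by
    have := w0_add (z := Quotient.out (QuotientAddGroup.mk z : Tor)) (mem_LG.mpr h1)
    rw [← this]
    congr 1
    ring
  congr 1
  exact h2.symm

theorem jT_inj : Function.Injective jT := by
  intro s t h
  obtain ⟨z, rfl⟩ := QuotientAddGroup.mk_surjective s
  obtain ⟨w, rfl⟩ := QuotientAddGroup.mk_surjective t
  rw [jT_mk, jT_mk, Projectivization.mk_eq_mk_iff'] at h
  obtain ⟨c, hc⟩ := h
  have h1 := w0_inj hc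
  rw [QuotientAddGroup.eq]
  have h2 : -z + w = -(z - w) := by ring
  rw [h2]
  exact neg_mem (mem_LG.mp h1)

/-- Local holomorphic lifts near a lattice point. -/
theorem exists_W_mem {l : ℂ} (hz : l ∈ LG.lattice) : ∃ (W : ℂ → E 3) (W' : E 3),
    ContDiffAt ℂ ω W l ∧ W l ≠ 0 ∧
    (∀ᶠ z in 𝓝 l, ∃ c : ℂ, c ≠ 0 ∧ W z = c • w0 z) ∧ HasDerivAt W W' l ∧
    ∀ c d : ℂ, c • W' = d • W l → c = 0 := by
  have hP : AnalyticAt ℂ ℘[LG - l] l := LG.analyticAt_weierstrassPExcept l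
  have hP' : AnalyticAt ℂ ℘'[LG - l] l := LG.analyticAt_derivWeierstrassPExcept l
  set g1 : ℂ → ℂ := fun z => (z - l) ^ 3 * (℘[LG - l] z - 1 / l ^ 2) + (z - l) with hg1
  set g2 : ℂ → ℂ := fun z => (z - l) ^ 3 * ℘'[LG - l] z - 2 with hg2
  have hg1a : AnalyticAt ℂ g1 l := by fun_prop
  have hg2a : AnalyticAt ℂ g2 l := by fun_prop
  have hcube : HasDerivAt (fun z : ℂ => (z - l) ^ 3) 0 l := by
    have := ((hasDerivAt_id l).sub_const l).fun_pow 3
    simpa using this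
  have hd1 : HasDerivAt g1 1 l := by
    have h1 := hcube.fun_mul (hP.differentiableAt.hasDerivAt.sub_const (1 / l ^ 2))
    have h2 := h1.fun_add ((hasDerivAt_id l).sub_const l)
    simpa [hg1] using h2
  have hd2 : HasDerivAt g2 0 l := by
    have h1 := (hcube.fun_mul hP'.differentiableAt.hasDerivAt).sub_const 2
    simpa [hg2] using h1
  refine ⟨fun z => ![(z - l) ^ 3, g1 z, g2 z], ![0, 1, 0], ?_, ?_, ?_, ?_, ?_⟩
  · rw [contDiffAt_pi]
    intro i
    fin_cases i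
    · have : AnalyticAt ℂ (fun z : ℂ => (z - l) ^ 3) l := by fun_prop
      exact this.contDiffAt
    · exact hg1a.contDiffAt
    · exact hg2a.contDiffAt
  · intro h
    have := congrFun h 2
    simp [hg2] at this
  · filter_upwards [LG.compl_lattice_sdiff_singleton_mem_nhds l] with z hz2
    by_cases hzl : z = l
    · rw [hzl]
      refine ⟨-2, by norm_num, ?_⟩
      rw [w0_mem hz]
      funext i
      fin_cases i
      · simp
      · simp [hg1]
      · simp [hg2]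
    · have hzL : z ∉ LG.lattice := fun h => hz2 ⟨h, hzl⟩
      have hsub : z - l ≠ 0 := sub_ne_zero.mpr hzl
      refine ⟨(z - l) ^ 3, pow_ne_zero _ hsub, ?_⟩
      rw [w0_notMem hzL]
      have e1 := LG.weierstrassPExcept_def ⟨l, hz⟩ z
      have e2 := LG.derivWeierstrassPExcept_def ⟨l, hz⟩ z
      simp only at e1 e2
      funext i
      fin_cases i
      · simp
      · show (z - l) ^ 3 * (℘[LG - l] z - 1 / l ^ 2) + (z - l) = (z - l) ^ 3 * ℘[LG] z
        rw [e1]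
        have e3 : (z - l) ^ 3 * (1 / (z - l) ^ 2) = z - l := by
          field_simp
        linear_combination (-1 : ℂ) * e3
      · show (z - l) ^ 3 * ℘'[LG - l] z - 2 = (z - l) ^ 3 * ℘'[LG] z
        rw [e2]
        field_simp
        ring
  · rw [hasDerivAt_pi]
    intro i
    fin_cases i
    · exact hcube
    · exact hd1
    · exact hd2
  · intro c d h
    have := congrFun h 1
    simpa [hg1] using this

/-- Local holomorphic lifts. -/
theorem exists_W (z₀ : ℂ) : ∃ (W : ℂ → E 3) (W' : E 3), ContDiffAt ℂ ω W z₀ ∧ W z₀ ≠ 0 ∧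
    (∀ᶠ z in 𝓝 z₀, ∃ c : ℂ, c ≠ 0 ∧ W z = c • w0 z) ∧ HasDerivAt W W' z₀ ∧
    ∀ c d : ℂ, c • W' = d • W z₀ → c = 0 := by
  by_cases hz : z₀ ∈ LG.lattice
  · exact exists_W_mem hz
  · have hP := analyticAt_P LG hz
    have hP' := analyticAt_P' LG hz
    refine ⟨fun z => ![1, ℘[LG] z, ℘'[LG] z], ![0, ℘'[LG] z₀, 6 * ℘[LG] z₀ ^ 2 - LG.g₂ / 2],
      ?_, ?_, ?_, ?_, ?_⟩
    · rw [contDiffAt_pi]
      intro i
      fin_cases i
      · exact contDiffAt_const
      · exact hP.contDiffAt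
      · exact hP'.contDiffAt
    · intro h
      have := congrFun h 0
      simp at this
    · filter_upwards [nhds_notMem LG hz] with z hz
      exact ⟨1, one_ne_zero, by rw [w0_notMem hz, one_smul]⟩
    · rw [hasDerivAt_pi]
      intro i
      fin_cases i
      · exact hasDerivAt_const _ _
      · exact hasDerivAt_P LG hz
      · have := hP'.differentiableAt.hasDerivAt
        rwa [deriv_P' LG hz] at this
    · intro c d h
      have h0 := congrFun h 0
      have h1 := congrFun h 1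
      have h2 := congrFun h 2
      simp at h0 h1 h2
      rw [← h0] at h1 h2
      simp at h1 h2
      by_contra hc
      have h3 := h1.resolve_left hc
      exact P''_ne_zero LG hz h3 (h2.resolve_left hc)

section

variable {n : ℕ} {M : Type*}
  [TopologicalSpace M] [ChartedSpace (E n) M] [IsManifold 𝓘(ℂ, E n) ω M]

/-- Local holomorphic lifts of a holomorphic map to the elliptic curve. -/
theorem exists_g {F : M → Tor} {a : F1 n M} (hF : TF F a) (ha : H1 a) (x : M) :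
    ∃ (g : M → ℂ) (g' : TangentSpace 𝓘(ℂ, E n) x →L[ℂ] ℂ),
      ContMDiffAt 𝓘(ℂ, E n) 𝓘(ℂ, ℂ) ω g x ∧
      (∀ᶠ y in 𝓝 x, F y = (QuotientAddGroup.mk (g y) : Tor)) ∧
      HasMFDerivAt 𝓘(ℂ, E n) 𝓘(ℂ, ℂ) g x g' ∧ ∀ v, g' v = a x v := by
  obtain ⟨g, hg, hev⟩ := hF x
  set φ := chartAt (E n) x with hφ
  have hφC : φ ∈ CA n M := chartAt_mem_CA x
  have hφR := ra_of_ca hφC
  have hx : x ∈ φ.source := mem_chart_source (E n) x
  set z₀ := φ x with hz₀
  have hz₀t : z₀ ∈ φ.target := φ.map_source hx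
  have hsymm : Tendsto φ.symm (𝓝 z₀) (𝓝 x) := by
    have := φ.continuousAt_symm hz₀t
    rw [ContinuousAt, hz₀, φ.left_inv hx] at this
    exact this
  have hdiff : ∀ᶠ z in 𝓝 z₀, DifferentiableAt ℂ (g ∘ φ.symm) z := by
    have h1 := hsymm.eventually (hev.and (FcHol.eventually_mdiff hg)).eventually_nhds
    filter_upwards [h1, φ.open_target.mem_nhds hz₀t] with z h2 hz
    have h3 : MDifferentiableAt 𝓘(ℝ, E n) 𝓘(ℝ, ℂ) g (φ.symm z) := h2.self_of_nhds.2
    have h4 : loc1 φ (d0 n g) z = fderiv ℝ (g ∘ φ.symm) z := loc1_d0 hφR hz h3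
    have h5 : loc1 φ a z = fderiv ℝ (g ∘ φ.symm) z := by
      rw [← h4]
      unfold loc1
      rw [h2.self_of_nhds.1.2]
    have h6 : DifferentiableAt ℝ (g ∘ φ.symm) z := by
      have h7 : MDifferentiableAt 𝓘(ℝ, E n) 𝓘(ℝ, ℂ) (g ∘ φ.symm) z :=
        MDifferentiableAt.comp z h3 (mdiff_chart_symm hφR hz)
      exact h7.differentiableAt
    refine (differentiableAt_iff_restrictScalars ℝ h6).2
      ⟨{ toFun := fun u => fderiv ℝ (g ∘ φ.symm) z u
         map_add' := fun a b => map_add _ a b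
         map_smul' := fun c u => ?_
         cont := (fderiv ℝ (g ∘ φ.symm) z).cont }, ?_⟩
    · rw [← h5]
      exact FcHol.map_smul_of_I _ (fun u => loc1_T10 ha.2 hφC hz u) c u
    · ext u
      rfl
  have hG : ContDiffAt ℂ ω (g ∘ φ.symm) z₀ := osgood_contDiffAt hdiff
  have hgC : ContMDiffAt 𝓘(ℂ, E n) 𝓘(ℂ, ℂ) ω g x := by
    have h1 : ContMDiffAt 𝓘(ℂ, E n) 𝓘(ℂ, ℂ) ω ((g ∘ φ.symm) ∘ φ) x :=
      ContMDiffAt.comp x hG.contMDiffAt (contMDiffAt_of_mem_maximalAtlas hφC hx)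
    refine h1.congr_of_eventuallyEq ?_
    filter_upwards [φ.open_source.mem_nhds hx] with y hy
    simp [φ.left_inv hy]
  have hmd : MDifferentiableAt 𝓘(ℂ, E n) 𝓘(ℂ, ℂ) g x := hgC.mdifferentiableAt (by simp)
  refine ⟨g, mfderiv 𝓘(ℂ, E n) 𝓘(ℂ, ℂ) g x, hgC, hev.mono fun y hy => hy.1, hmd.hasMFDerivAt,
    fun v => ?_⟩
  have h1 : HasMFDerivAt 𝓘(ℝ, E n) 𝓘(ℝ, ℂ) g x
      ((mfderiv 𝓘(ℂ, E n) 𝓘(ℂ, ℂ) g x).restrictScalars ℝ) :=
    ⟨hmd.hasMFDerivAt.1, hmd.hasMFDerivAt.2.restrictScalars ℝ⟩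
  have h2 := h1.mfderiv
  rw [hev.self_of_nhds.2]
  unfold d0
  rw [h2]
  rfl

end

end DWei

open DWei

/-- A holomorphic map `F : M → ℂ/ℤ[i]` composed with `(1 : ℘ : ℘')` is a holomorphic map to `ℙ²`,
injective and immersive modulo the fibres and the kernel of `dF` (`PFun.sub_mem_of_eq`,
`PFun.P''_ne_zero`; near the lattice use the lift `((z-l)^3, (z-l)^3 ℘, (z-l)^3 ℘')`). -/
theorem wei {n : ℕ} {M : CMfd n} {F : M → Tor} {a : F1 n M} (hF : TF F a) (ha : H1 a) :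
    ∃ j : M → PN 2, HoloP n j ∧ (∀ x y, j x = j y → F x = F y) ∧
      ∀ x, ∀ v ∈ KerP n j x, a x v = 0 := by
  have key : ∀ x : M, ∃ (Φ : M → E 3), IsLift n (jT ∘ F) Φ x ∧
      ∀ v (d : ℂ), DC n 3 Φ x v = d • Φ x → a x v = 0 := by
    intro x
    obtain ⟨g, g', hg, hFg, hg', hga⟩ := exists_g hF ha x
    obtain ⟨W, W', hW, hW0, hWw, hWd, hWi⟩ := exists_W (g x)
    have hgc : Tendsto g (𝓝 x) (𝓝 (g x)) := hg.continuousAt.tendsto
    have hWm : ContMDiffAt 𝓘(ℂ, ℂ) 𝓘(ℂ, E 3) ω W (g x) := hW.contMDiffAt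
    refine ⟨W ∘ g, ⟨ContMDiffAt.comp x hWm hg, ?_⟩, ?_⟩
    · filter_upwards [hFg, hgc.eventually hWw] with y hy1 hy2
      obtain ⟨c, hc, hcw⟩ := hy2
      have hne : (W ∘ g) y ≠ 0 := by
        show W (g y) ≠ 0
        rw [hcw]
        exact smul_ne_zero hc (w0_ne _)
      refine ⟨hne, ?_⟩
      show jT (F y) = _
      rw [hy1, jT_mk, Projectivization.mk_eq_mk_iff']
      refine ⟨c⁻¹, ?_⟩
      show c⁻¹ • W (g y) = w0 (g y)
      rw [hcw, smul_smul, inv_mul_cancel₀ hc, one_smul]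
    · intro v d hv
      have h1 : HasMFDerivAt 𝓘(ℂ, ℂ) 𝓘(ℂ, E 3) W (g x)
          (ContinuousLinearMap.toSpanSingleton ℂ W') := hWd.hasFDerivAt.hasMFDerivAt
      have h2 := h1.comp x hg'
      have h3 : DC n 3 (W ∘ g) x v = (g' v) • W' := by
        unfold DC
        rw [h2.mfderiv]
        rfl
      rw [h3] at hv
      rw [← hga v]
      exact hWi _ _ hv
  refine ⟨jT ∘ F, fun x => ?_, fun x y h => jT_inj h, fun x v hv => ?_⟩
  · obtain ⟨Φ, hΦ, -⟩ := key x
    exact ⟨Φ, hΦ⟩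
  · obtain ⟨Φ, hΦ, hΦi⟩ := key x
    obtain ⟨G, hG, c, hc⟩ := hv
    obtain ⟨d, hd⟩ := DSegre.ker_lift hG hΦ hc
    exact hΦi v d hd

end Pool.Agent.K708
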