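import Pool.Agent.Lib.K708.DConn
import Pool.Agent.Lib.K708.DTan
import Pool.Agent.Lib.K708.DSegre
import Pool.Agent.Lib.K708.DWei

/-! # K708: the example is a connected projective surface (row DXProj) -/

set_option autoImplicit false

open scoped Manifold ContDiff Topology
open Set Filter

noncomputable section

namespace Pool.Agent.K708

namespace DXProj

/-- Finitely many maps to projective spaces can be combined. -/
theorem combine {n : ℕ} {M : CMfd n} : ∀ (m : ℕ) (N : Fin (m + 1) → ℕ)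
    (j : ∀ k, M → PN (N k)), (∀ k, HoloP n (j k)) →
    ∃ (N' : ℕ) (j' : M → PN N'), HoloP n j' ∧ (∀ x y, j' x = j' y → ∀ k, j k x = j k y) ∧
      ∀ x k, KerP n j' x ⊆ KerP n (j k) x := by
  intro m
  induction m with
  | zero =>
    intro N j hj
    refine ⟨N 0, j 0, hj 0, fun x y h k => ?_, fun x k => ?_⟩
    · obtain rfl : k = 0 := Fin.fin_one_eq_zero k
      exact h
    · obtain rfl : k = 0 := Fin.fin_one_eq_zero k
      exact subset_rfl
  | succ m ih =>
    intro N j hj
    obtain ⟨N1, j1, h1, h2, h3⟩ := ih (fun k => N k.castSucc) (fun k => j k.castSucc)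
      fun k => hj k.castSucc
    obtain ⟨N2, j2, g1, g2, g3⟩ := segre j1 (j (Fin.last (m + 1))) h1 (hj _)
    refine ⟨N2, j2, g1, fun x y h k => ?_, fun x k => ?_⟩
    · obtain ⟨e1, e2⟩ := g2 x y h
      refine Fin.lastCases ?_ (fun i => ?_) k
      · exact e2
      · exact h2 x y e1 i
    · refine Fin.lastCases ?_ (fun i => ?_) k
      · exact fun v hv => (g3 x hv).2
      · exact fun v hv => h3 x i (g3 x hv).1

end DXProj

open DXProj in
/-- From `XS_conn`, `exists_torForms`, `wei` for the six coordinates and `segre` five times. -/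
theorem IsX.isSurface {P : Par} {T : CMfd 6} {q : E 6 → T} {X : CMfd 2} {ι : X → T}
    (hX : IsX P q ι) : IsSurface X := by
  have hcT : CompactSpace T := hX.tor.cpt
  refine ⟨hX.emb.emb.compactSpace, ?_, ?_⟩
  · have h1 := XS_conn P hX.tor
    rw [← hX.range, ← image_univ] at h1
    have h2 : IsPreconnected (univ : Set X) :=
      (hX.emb.emb.isInducing.isPreconnected_image).1 h1.isPreconnected
    have h3 : Nonempty X := by
      obtain ⟨_, ⟨x, _, _⟩⟩ := h1.nonempty
      exact ⟨x⟩
    exact { isPreconnected_univ := h2, toNonempty := h3 }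
  · obtain ⟨F, a, ha⟩ := exists_torForms hX.tor hX.emb.holo
    choose j hj1 hj2 hj3 using fun k => wei (ha.tf k) (ha.h1 k)
    obtain ⟨N, J, hJ1, hJ2, hJ3⟩ := combine 5 (fun _ => 2) j hj1
    refine ⟨N, J, hJ1, fun x y hxy => ?_, fun x v hv => ?_⟩
    · refine hX.emb.emb.injective ?_
      obtain ⟨p, hp⟩ := hX.tor.surj (ι x)
      obtain ⟨p', hp'⟩ := hX.tor.surj (ι y)
      rw [← hp, ← hp', hX.tor.eq_iff]
      intro k
      have h1 : F k x = F k y := hj2 k x y (hJ2 x y hxy k)
      rw [ha.val k x p hp, ha.val k y p' hp', QuotientAddGroup.eq] at h1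
      have h2 := Gau.neg_mem h1
      have h3 : -(-p k + p' k) = p k - p' k := by ring
      rwa [h3] at h2
    · obtain ⟨p, hp⟩ := hX.tor.surj (ι x)
      obtain ⟨σ, hσ1, hσ2, hσ3⟩ := hX.tor.sec p
      rw [hp] at hσ1 hσ2 hσ3
      have h1 : DC 2 6 (σ ∘ ι) x v = 0 := by
        funext k
        rw [← ha.der x σ hσ1 hσ3 k v]
        exact hj3 k x v (hJ3 x k hv)
      have hs : HoloAt 2 6 (σ ∘ ι) x := ContMDiffAt.comp x hσ1 (hX.emb.holo x)
      have h2 : DC 2 6 (q ∘ (σ ∘ ι)) x = (DC 6 6 q ((σ ∘ ι) x)).comp (DC 2 6 (σ ∘ ι) x) :=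
        mfderiv_comp x ((hX.tor.holo _).mdifferentiableAt (by simp))
          (hs.mdifferentiableAt (by simp))
      have h3 : (q ∘ (σ ∘ ι)) =ᶠ[𝓝 x] ι := by
        have hc : ContinuousAt ι x := hX.emb.emb.continuous.continuousAt
        exact hc.eventually hσ3
      have h4 : DC 2 6 (q ∘ (σ ∘ ι)) x = DC 2 6 ι x := h3.mfderiv_eq
      have h5 : DC 2 6 ι x v = 0 := by
        rw [← h4, h2]
        show DC 6 6 q ((σ ∘ ι) x) (DC 2 6 (σ ∘ ι) x v) = 0
        rw [h1]
        exact map_zero _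
      exact hX.emb.imm x (h5.trans (map_zero _).symm)

end Pool.Agent.K708
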