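import Pool.Agent.Lib.K708.DXGood
import Pool.Agent.Lib.K708.DXProj

/-! # K708: existence of the example -/

set_option autoImplicit false

open scoped Manifold ContDiff Topology
open Set Filter

noncomputable section

namespace Pool.Agent.K708

theorem exists_good : ∃ X : CMfd 2, IsSurface X ∧ Good X := by
  obtain ⟨P⟩ := exists_par
  obtain ⟨T, q, hT⟩ := exists_torus 6
  obtain ⟨X, ι, hX⟩ := exists_X P hT
  exact ⟨X, hX.isSurface, hX.good⟩

end Pool.Agent.K708
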