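import Pool.Agent.Lib.K708.DExt
import Pool.Agent.Lib.K708.FcP

/-! # K708: closed holomorphic forms and birational morphisms (row DMod) -/

set_option autoImplicit false

open scoped Manifold ContDiff Topology
open Set Filter

noncomputable section

namespace Pool.Agent.K708

namespace DMod

/-- Data of a birational morphism. -/
structure Dat {Z Y : CMfd 2} (g : Z → Y) (S : Set Y) (h : Y → Z) : Prop where
  hol : Holo 2 2 g
  fin : S.Finite
  gh : ∀ y ∉ S, g (h y) = y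
  hg : ∀ z, g z ∉ S → h (g z) = z
  holh : ∀ y ∉ S, HoloAt 2 2 h y

theorem Dat.nhds {Z Y : CMfd 2} {g : Z → Y} {S : Set Y} {h : Y → Z} (d : Dat g S h) {y : Y}
    (hy : y ∉ S) : ∀ᶠ y' in 𝓝 y, y' ∉ S := d.fin.isClosed.isOpen_compl.mem_nhds hy

theorem Dat.D_gh {Z Y : CMfd 2} {g : Z → Y} {S : Set Y} {h : Y → Z} (d : Dat g S h) {y : Y}
    (hy : y ∉ S) : (D 2 2 g (h y)).comp (D 2 2 h y) = ContinuousLinearMap.id ℝ (E 2) := by
  have h1 : D 2 2 (g ∘ h) y = (D 2 2 g (h y)).comp (D 2 2 h y) :=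
    D_comp (d.hol.smth.mdiff _) (d.holh y hy).mdiff
  rw [← h1, ← D_id y]
  refine D_congr ?_
  filter_upwards [d.nhds hy] with y' hy'
  exact d.gh y' hy'

theorem Dat.D_hg {Z Y : CMfd 2} {g : Z → Y} {S : Set Y} {h : Y → Z} (d : Dat g S h) {z : Z}
    (hz : g z ∉ S) : (D 2 2 h (g z)).comp (D 2 2 g z) = ContinuousLinearMap.id ℝ (E 2) := by
  have h1 : D 2 2 (h ∘ g) z = (D 2 2 h (g z)).comp (D 2 2 g z) :=
    D_comp (d.holh _ hz).mdiff (d.hol.smth.mdiff _)
  rw [← h1, ← D_id z]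
  refine D_congr ?_
  filter_upwards [d.hol.continuous.continuousAt.eventually (d.nhds hz)] with z' hz'
  exact d.hg z' hz'

/-- A finite set in a surface has dense complement. -/
theorem ne_nhds {Y : CMfd 2} (y : Y) {S : Set Y} (hS : S.Finite) :
    ∀ᶠ z in 𝓝[≠] (chartAt (E 2) y y), (chartAt (E 2) y).symm z ∉ S := by
  set ψ := chartAt (E 2) y with hψ
  have hs : y ∈ ψ.source := mem_chart_source _ y
  have hopen : IsOpen (ψ.target ∩ ψ.symm ⁻¹' (S \ {y})ᶜ) :=
    ψ.symm.isOpen_inter_preimage (hS.subset diff_subset).isClosed.isOpen_compl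
  have h1 : ψ.target ∩ ψ.symm ⁻¹' (S \ {y})ᶜ ∈ 𝓝 (ψ y) := hopen.mem_nhds ⟨ψ.map_source hs, by
    rw [mem_preimage, ψ.left_inv hs]
    exact fun h => h.2 rfl⟩
  filter_upwards [nhdsWithin_le_nhds h1, self_mem_nhdsWithin] with z hz hne hzS
  apply hz.2
  refine ⟨hzS, fun h => hne ?_⟩
  rw [mem_singleton_iff] at h ⊢
  rw [← h, ψ.right_inv hz.1]

theorem exists_not_mem {Y : CMfd 2} (y : Y) {S : Set Y} (hS : S.Finite) : ∃ y', y' ∉ S := by
  have hne : (𝓝[≠] (chartAt (E 2) y y)).NeBot := inferInstance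
  obtain ⟨z, hz⟩ := (ne_nhds y hS).exists
  exact ⟨_, hz⟩

/-- A smooth form vanishing off a finite set vanishes. -/
theorem S1.eq_zero {Y : CMfd 2} {S : Set Y} (hS : S.Finite) {α : F1 2 Y} (hα : S1 α)
    (h : ∀ y ∉ S, α y = 0) : α = 0 := by
  funext y
  have hc : ContinuousAt (loc1 (chartAt (E 2) y) α) (chartAt (E 2) y y) :=
    (S1.contDiffAt hα (chartAt_mem_RA y) ((chartAt (E 2) y).map_source
      (mem_chart_source _ y))).continuousAt
  have h1 : ∀ᶠ z in 𝓝[≠] (chartAt (E 2) y y), loc1 (chartAt (E 2) y) α z = 0 := by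
    filter_upwards [ne_nhds y hS] with z hz
    unfold loc1
    rw [h _ hz, ContinuousLinearMap.zero_comp]
  have hne : (𝓝[≠] (chartAt (E 2) y y)).NeBot := inferInstance
  have h2 : loc1 (chartAt (E 2) y) α (chartAt (E 2) y y) = 0 :=
    tendsto_nhds_unique (hc.tendsto.mono_left nhdsWithin_le_nhds)
      (tendsto_const_nhds.congr' (h1.mono fun z hz => hz.symm))
  rw [← loc1_chartAt α y, h2]
  rfl

theorem S2.eq_zero {Y : CMfd 2} {S : Set Y} (hS : S.Finite) {σ : F2 2 Y} (hσ : S2 σ)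
    (h : ∀ y ∉ S, σ y = 0) : σ = 0 := by
  funext y
  have hc : ContinuousAt (loc2 (chartAt (E 2) y) σ) (chartAt (E 2) y y) :=
    (S2.contDiffAt hσ (chartAt_mem_RA y) ((chartAt (E 2) y).map_source
      (mem_chart_source _ y))).continuousAt
  have h1 : ∀ᶠ z in 𝓝[≠] (chartAt (E 2) y y), loc2 (chartAt (E 2) y) σ z = 0 := by
    filter_upwards [ne_nhds y hS] with z hz
    unfold loc2
    rw [h _ hz]
    ext u v
    simp
  have hne : (𝓝[≠] (chartAt (E 2) y y)).NeBot := inferInstance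
  have h2 : loc2 (chartAt (E 2) y) σ (chartAt (E 2) y y) = 0 :=
    tendsto_nhds_unique (hc.tendsto.mono_left nhdsWithin_le_nhds)
      (tendsto_const_nhds.congr' (h1.mono fun z hz => hz.symm))
  rw [← loc2_chartAt σ y, h2]
  rfl

end DMod

open DMod

theorem Modif.pb1_inj {Z Y : CMfd 2} {g : Z → Y} (hg : Modif g) {α : F1 2 Y} (hα : S1 α)
    (h : pb1 2 g α = 0) : α = 0 := by
  obtain ⟨hol, S, k, fin, gh, hg', holh⟩ := hg
  have d : Dat g S k := ⟨hol, fin, gh, hg', holh⟩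
  refine DMod.S1.eq_zero fin hα fun y hy => ?_
  have h1 : (α (g (k y))).comp (D 2 2 g (k y)) = 0 := congrFun h (k y)
  rw [d.gh y hy] at h1
  have h2 := congrArg (fun L => L.comp (D 2 2 k y)) h1
  simp only [ContinuousLinearMap.comp_assoc, d.D_gh hy, ContinuousLinearMap.comp_id,
    ContinuousLinearMap.zero_comp] at h2
  exact h2

theorem Modif.pb2_inj {Z Y : CMfd 2} {g : Z → Y} (hg : Modif g) {σ : F2 2 Y} (hσ : S2 σ)
    (h : pb2 2 g σ = 0) : σ = 0 := by
  obtain ⟨hol, S, k, fin, gh, hg', holh⟩ := hg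
  have d : Dat g S k := ⟨hol, fin, gh, hg', holh⟩
  refine DMod.S2.eq_zero fin hσ fun y hy => ?_
  have h1 : (σ (g (k y))).bilinearComp (D 2 2 g (k y)) (D 2 2 g (k y)) = 0 := congrFun h (k y)
  rw [d.gh y hy] at h1
  have h3 : ∀ u, D 2 2 g (k y) (D 2 2 k y u) = u := fun u => DFunLike.congr_fun (d.D_gh hy) u
  ext u v
  have h2 := congrArg (fun B => B (D 2 2 k y u) (D 2 2 k y v)) h1
  simp only [ContinuousLinearMap.bilinearComp_apply, h3] at h2
  exact h2

/-- Closed holomorphic forms descend. -/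
theorem Modif.down {Z Y : CMfd 2} (hZ : ConnectedSpace Z) {g : Z → Y} (hg : Modif g)
    {a : F1 2 Z} (ha : H1 a) : ∃ α : F1 2 Y, H1 α ∧ pb1 2 g α = a := by
  obtain ⟨hol, S, k, fin, gh, hg', holh⟩ := hg
  have d : Dat g S k := ⟨hol, fin, gh, hg', holh⟩
  obtain ⟨α, hα, hαβ⟩ := H1_extend (Y := Y) fin (β := pb1 2 k a) (by
    intro y hy
    refine ⟨chartAt (E 2) y, chartAt_mem_CA y, mem_chart_source _ y, ?_⟩
    set φ := chartAt (E 2) y with hφ
    set ψ := chartAt (E 2) (k y) with hψ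
    have hφC : φ ∈ CA 2 Y := chartAt_mem_CA y
    have hψC : ψ ∈ CA 2 Z := chartAt_mem_CA (k y)
    have hyφ : y ∈ φ.source := mem_chart_source _ y
    have hkψ : k y ∈ ψ.source := mem_chart_source _ (k y)
    obtain ⟨r, hr, hb⟩ := Metric.isOpen_iff.1 ψ.open_target (ψ (k y)) (ψ.map_source hkψ)
    obtain ⟨G, hG1, hG2⟩ := ha.primitive hψC hb
    have hGA : ∀ w ∈ Metric.ball (ψ (k y)) r, ContDiffAt ℂ ω G w := by
      intro w hw
      refine (DHart.analyticAt_of_differentiable ?_).contDiffAt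
      filter_upwards [Metric.isOpen_ball.mem_nhds hw] with w' hw'
      exact (hG1 w' hw').differentiableAt (Metric.isOpen_ball.mem_nhds hw')
    -- the local expression of `k`
    have hsymm : ContinuousAt φ.symm (φ y) := φ.symm.continuousAt (φ.map_source hyφ)
    have hev : ∀ᶠ z in 𝓝 (φ y), z ∈ φ.target ∧ φ.symm z ∉ S ∧ k (φ.symm z) ∈ ψ.source ∧
        ψ (k (φ.symm z)) ∈ Metric.ball (ψ (k y)) r := by
      have h1 : ∀ᶠ y' in 𝓝 y, y' ∉ S := d.nhds hy
      have hkc : ContinuousAt k y := (holh y hy).continuousAt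
      have h2 : ∀ᶠ y' in 𝓝 y, k y' ∈ ψ.source := hkc.eventually (ψ.open_source.mem_nhds hkψ)
      have h3 : ∀ᶠ y' in 𝓝 y, ψ (k y') ∈ Metric.ball (ψ (k y)) r :=
        (ContinuousAt.comp (ψ.continuousAt hkψ) hkc).eventually (Metric.ball_mem_nhds _ hr)
      have h4 : Tendsto φ.symm (𝓝 (φ y)) (𝓝 y) := by
        have := hsymm.tendsto
        rwa [φ.left_inv hyφ] at this
      filter_upwards [φ.open_target.mem_nhds (φ.map_source hyφ), h4.eventually h1,
        h4.eventually h2, h4.eventually h3] with z a1 a2 a3 a4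
      exact ⟨a1, a2, a3, a4⟩
    have hloc : ∀ z, z ∈ φ.target → φ.symm z ∉ S → k (φ.symm z) ∈ ψ.source →
        ContDiffAt ℂ ω (ψ ∘ k ∘ φ.symm) z := fun z h1 h2 h3 =>
      HoloAt.analyticAt_loc hφC hψC h1 h3 (holh _ h2)
    refine ⟨G ∘ (ψ ∘ k ∘ φ.symm), ?_, ?_⟩
    · obtain ⟨a1, a2, a3, a4⟩ := hev.self_of_nhds
      exact ContDiffAt.comp (φ y) (hGA _ a4) (hloc _ a1 a2 a3)
    · filter_upwards [hev] with z hz u
      obtain ⟨a1, a2, a3, a4⟩ := hz
      rw [loc1_pb1 (ra_of_ca hφC) (ra_of_ca hψC) a1 a3 (holh _ a2).mdiff,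
        ContinuousLinearMap.comp_apply, ← hG2 _ a4]
      have h1 : DifferentiableAt ℂ (ψ ∘ k ∘ φ.symm) z := (hloc z a1 a2 a3).differentiableAt (by simp)
      have h2 : DifferentiableAt ℂ G ((ψ ∘ k ∘ φ.symm) z) := (hGA _ a4).differentiableAt (by simp)
      rw [fderiv_comp z h2 h1, ContinuousLinearMap.comp_apply,
        (h1.hasFDerivAt.restrictScalars ℝ).fderiv]
      rfl)
  refine ⟨α, hα, ?_⟩
  have hsub : H1 (pb1 2 g α + (-1 : ℂ) • a) := (hα.pb hol).add (ha.smul _)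
  have h0 : pb1 2 g α + (-1 : ℂ) • a = 0 := by
    refine hsub.eq_zero_of_open (U := g ⁻¹' Sᶜ) (fin.isClosed.isOpen_compl.preimage hol.continuous)
      ?_ ?_
    · obtain ⟨z⟩ := hZ.toNonempty
      obtain ⟨y, hy⟩ := exists_not_mem (g z) fin
      exact ⟨k y, by rw [mem_preimage, gh y hy]; exact hy⟩
    · intro z hz
      have h1 : pb1 2 g α z = a z := by
        have h2 : pb1 2 g α z = (α (g z)).comp (D 2 2 g z) := rfl
        rw [h2, hαβ _ hz]
        have h3 : pb1 2 k a (g z) = (a (k (g z))).comp (D 2 2 k (g z)) := rfl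
        rw [h3, ContinuousLinearMap.comp_assoc, d.D_hg hz, ContinuousLinearMap.comp_id, hg' z hz]
      have h4 : (pb1 2 g α + (-1 : ℂ) • a) z = pb1 2 g α z + (-1 : ℂ) • a z := rfl
      rw [h4, h1]
      ext u
      change a z u + (-1) * a z u = 0
      ring
  have h5 : pb1 2 g α = (pb1 2 g α + (-1 : ℂ) • a) + a := by
    funext z
    ext u
    change pb1 2 g α z u = (pb1 2 g α z u + (-1) * a z u) + a z u
    ring
  rw [h5, h0, zero_add]

/-- Maps to the elliptic curve descend. -/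
theorem Modif.down_TF {Z Y : CMfd 2} {g : Z → Y} (hg : Modif g) {F : Z → Tor} {α : F1 2 Y}
    (hα : H1 α) (hF : TF F (pb1 2 g α)) : ∃ F' : Y → Tor, TF F' α := by
  obtain ⟨hol, S, k, fin, gh, hg', holh⟩ := hg
  have d : Dat g S k := ⟨hol, fin, gh, hg', holh⟩
  obtain ⟨F', hF', -⟩ := TF_extend (Y := Y) fin (F := fun y => F (k y)) hα (by
    intro y hy
    obtain ⟨c, hc, hev⟩ := hF (k y)
    have hks : ContMDiffAt 𝓘(ℝ, E 2) 𝓘(ℝ, E 2) ∞ k y := by
      have h1 := holh y hy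
      unfold HoloAt at h1
      rw [contMDiffAt_iff] at h1 ⊢
      refine ⟨h1.1, ?_⟩
      simpa using (h1.2.restrict_scalars ℝ).of_le le_top
    refine ⟨fun y => c (k y), ContMDiffAt.comp y hc hks, ?_⟩
    have hkc : ContinuousAt k y := (holh y hy).continuousAt
    filter_upwards [hkc.eventually hev, hkc.eventually (FcHol.eventually_mdiff hc), d.nhds hy]
      with y' h1 h2 h3
    refine ⟨h1.1, ?_⟩
    have h4 : d0 2 (c ∘ k) y' = (d0 2 c (k y')).comp (D 2 2 k y') :=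
      mfderiv_comp y' h2 (holh y' h3).mdiff
    change α y' = d0 2 (c ∘ k) y'
    rw [h4, ← h1.2]
    have h5 : pb1 2 g α (k y') = (α (g (k y'))).comp (D 2 2 g (k y')) := rfl
    rw [h5, ContinuousLinearMap.comp_assoc, d.D_gh h3, ContinuousLinearMap.comp_id, gh y' h3])
  exact ⟨F', hF'⟩

end Pool.Agent.K708
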