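import Pool.Agent.Lib.K708.FcAlg
import Pool.Agent.Lib.K708.FcP

/-! # K708: sums, products and derivatives of smooth and closed forms -/

set_option autoImplicit false
set_option linter.unusedSectionVars false

open scoped Manifold ContDiff Topology
open Set

noncomputable section

namespace Pool.Agent.K708

namespace FcC

section

variable {n : ℕ} {M : Type*} [TopologicalSpace M] [ChartedSpace (E n) M]

theorem s1_iff {α : F1 n M} : S1 α ↔ ∀ φ ∈ IsManifold.maximalAtlas 𝓘(ℝ, E n) ∞ M, ∀ u : E n,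
    ContDiffOn ℝ ∞ (fun z => loc1 φ α z u) φ.target :=
  ⟨fun h φ hφ u => contDiffOn_clm_apply.1 (h φ hφ) u,
    fun h φ hφ => contDiffOn_clm_apply.2 (h φ hφ)⟩

theorem s2_iff {σ : F2 n M} : S2 σ ↔ (∀ x u v, σ x u v = - σ x v u) ∧
    ∀ φ ∈ IsManifold.maximalAtlas 𝓘(ℝ, E n) ∞ M, ∀ u v : E n,
      ContDiffOn ℝ ∞ (fun z => loc2 φ σ z u v) φ.target :=
  ⟨fun h => ⟨h.1, fun φ hφ u v =>
      contDiffOn_clm_apply.1 (contDiffOn_clm_apply.1 (h.2 φ hφ) u) v⟩,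
    fun h => ⟨h.1, fun φ hφ => contDiffOn_clm_apply.2 fun u =>
      contDiffOn_clm_apply.2 fun v => h.2 φ hφ u v⟩⟩

theorem loc1_sub (φ : OpenPartialHomeomorph M (E n)) (α β : F1 n M) :
    loc1 φ (α - β) = loc1 φ α - loc1 φ β := by
  funext z
  ext u
  rfl

theorem loc2_sub (φ : OpenPartialHomeomorph M (E n)) (σ τ : F2 n M) :
    loc2 φ (σ - τ) = loc2 φ σ - loc2 φ τ := by
  funext z
  ext u v
  rfl

theorem loc1_zero (φ : OpenPartialHomeomorph M (E n)) : loc1 φ (0 : F1 n M) = 0 := by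
  funext z
  ext u
  rfl

theorem loc2_zero (φ : OpenPartialHomeomorph M (E n)) : loc2 φ (0 : F2 n M) = 0 := by
  funext z
  ext u v
  rfl

/-- Conjugation of covectors as a continuous linear map. -/
def cjL (n : ℕ) : (E n →L[ℝ] ℂ) →L[ℝ] (E n →L[ℝ] ℂ) :=
  ContinuousLinearMap.compL ℝ (E n) ℂ ℂ (Complex.conjCLE : ℂ →L[ℝ] ℂ)

theorem loc1_cj' (φ : OpenPartialHomeomorph M (E n)) (α : F1 n M) :
    loc1 φ (cj α) = fun z => cjL n (loc1 φ α z) := by
  funext z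
  ext u
  rfl

/-- dE1 of a function depends only on the germ. -/
theorem dE1_congr {a b : E n → (E n →L[ℝ] ℂ)} {z : E n} (h : a =ᶠ[𝓝 z] b) :
    dE1 a z = dE1 b z := by
  unfold dE1
  rw [h.fderiv_eq]

theorem dE1_apply (a : E n → (E n →L[ℝ] ℂ)) (z u v : E n) :
    dE1 a z u v = fderiv ℝ a z u v - fderiv ℝ a z v u := rfl

theorem dE1_add {a b : E n → (E n →L[ℝ] ℂ)} {z : E n} (ha : DifferentiableAt ℝ a z)
    (hb : DifferentiableAt ℝ b z) : dE1 (a + b) z = dE1 a z + dE1 b z := by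
  ext u v
  rw [dE1_apply, fderiv_add ha hb]
  change _ = dE1 a z u v + dE1 b z u v
  rw [dE1_apply, dE1_apply]
  simp only [add_apply]
  ring

theorem dE1_sub {a b : E n → (E n →L[ℝ] ℂ)} {z : E n} (ha : DifferentiableAt ℝ a z)
    (hb : DifferentiableAt ℝ b z) : dE1 (a - b) z = dE1 a z - dE1 b z := by
  ext u v
  rw [dE1_apply, fderiv_sub ha hb]
  change _ = dE1 a z u v - dE1 b z u v
  rw [dE1_apply, dE1_apply]
  simp only [sub_apply]
  ring

theorem dE1_smul (c : ℂ) {a : E n → (E n →L[ℝ] ℂ)} {z : E n} (ha : DifferentiableAt ℝ a z) :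
    dE1 (c • a) z = c • dE1 a z := by
  ext u v
  rw [dE1_apply, fderiv_const_smul ha]
  change _ = c * dE1 a z u v
  rw [dE1_apply, mul_sub]
  rfl

theorem dE1_cj {a : E n → (E n →L[ℝ] ℂ)} {z : E n} (ha : DifferentiableAt ℝ a z) (u v : E n) :
    dE1 (fun w => cjL n (a w)) z u v = (starRingEnd ℂ) (dE1 a z u v) := by
  have h : fderiv ℝ (fun w => cjL n (a w)) z = (cjL n).comp (fderiv ℝ a z) :=
    ((cjL n).hasFDerivAt.comp z ha.hasFDerivAt).fderiv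
  rw [dE1_apply, dE1_apply, h, map_sub]
  rfl

/-- Second derivatives commute. -/
theorem dE1_fderiv {g : E n → ℂ} {z : E n} (hg : ContDiffAt ℝ ∞ g z) :
    dE1 (fun w => fderiv ℝ g w) z = 0 := by
  have h : IsSymmSndFDerivAt ℝ g z := hg.isSymmSndFDerivAt (by
    rw [minSmoothness_of_isRCLikeNormedField]
    exact WithTop.coe_le_coe.2 le_top)
  ext u v
  rw [dE1_apply]
  change fderiv ℝ (fderiv ℝ g) z u v - fderiv ℝ (fderiv ℝ g) z v u = 0
  rw [h u v, sub_self]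

theorem dE1_fsmul {f : E n → ℂ} {a : E n → (E n →L[ℝ] ℂ)} {z : E n}
    (hf : DifferentiableAt ℝ f z) (ha : DifferentiableAt ℝ a z) (u v : E n) :
    dE1 (f • a) z u v = fderiv ℝ f z u * a z v - fderiv ℝ f z v * a z u
      + f z * dE1 a z u v := by
  have h : HasFDerivAt (f • a) (f z • fderiv ℝ a z + (fderiv ℝ f z).smulRight (a z)) z :=
    hf.hasFDerivAt.smul ha.hasFDerivAt
  rw [dE1_apply, h.fderiv, dE1_apply]
  change f z * fderiv ℝ a z u v + fderiv ℝ f z u * a z v -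
    (f z * fderiv ℝ a z v u + fderiv ℝ f z v * a z u) = _
  ring

theorem S2.sm {σ : F2 n M} (hσ : S2 σ) {φ : OpenPartialHomeomorph M (E n)}
    (hφ : φ ∈ IsManifold.maximalAtlas 𝓘(ℝ, E n) ∞ M) {z : E n} (hz : z ∈ φ.target) :
    ContDiffAt ℝ ∞ (loc2 φ σ) z := (hσ.2 φ hφ).contDiffAt (φ.open_target.mem_nhds hz)

theorem S1.sm {α : F1 n M} (hα : S1 α) {φ : OpenPartialHomeomorph M (E n)}
    (hφ : φ ∈ IsManifold.maximalAtlas 𝓘(ℝ, E n) ∞ M) {z : E n} (hz : z ∈ φ.target) :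
    ContDiffAt ℝ ∞ (loc1 φ α) z := (hα φ hφ).contDiffAt (φ.open_target.mem_nhds hz)

theorem ev1 {A : E n → (E n →L[ℝ] ℂ)} {z : E n} (h : DifferentiableAt ℝ A z) (u w : E n) :
    fderiv ℝ (fun y => A y u) z w = fderiv ℝ A z w u := by
  have h1 : HasFDerivAt (fun y => A y u) ((ContinuousLinearMap.apply ℝ ℂ u).comp (fderiv ℝ A z)) z :=
    (ContinuousLinearMap.apply ℝ ℂ u).hasFDerivAt.comp z h.hasFDerivAt
  rw [h1.fderiv]
  rfl

theorem ev2 {A : E n → (E n →L[ℝ] E n →L[ℝ] ℂ)} {z : E n} (h : DifferentiableAt ℝ A z)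
    (u v w : E n) : fderiv ℝ (fun y => A y u v) z w = fderiv ℝ A z w u v := by
  have h1 := h.hasFDerivAt.clm_apply (hasFDerivAt_const u z)
  rw [ev1 h1.differentiableAt v w, h1.fderiv]
  simp

theorem dif2 {A : E n → (E n →L[ℝ] E n →L[ℝ] ℂ)} {z : E n} (h : ContDiffAt ℝ ∞ A z)
    (u v : E n) : DifferentiableAt ℝ (fun y => A y u v) z :=
  ((h.differentiableAt (by simp)).clm_apply (differentiableAt_const u)).clm_apply
    (differentiableAt_const v)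

theorem dif1 {A : E n → (E n →L[ℝ] ℂ)} {z : E n} (h : ContDiffAt ℝ ∞ A z)
    (u : E n) : DifferentiableAt ℝ (fun y => A y u) z :=
  (h.differentiableAt (by simp)).clm_apply (differentiableAt_const u)

theorem cl2_iff {σ : F2 n M} (hσ : S2 σ) : Cl2 σ ↔
    ∀ φ ∈ IsManifold.maximalAtlas 𝓘(ℝ, E n) ∞ M, ∀ z ∈ φ.target, ∀ u v w : E n,
      fderiv ℝ (fun y => loc2 φ σ y v w) z u + fderiv ℝ (fun y => loc2 φ σ y w u) z v +
        fderiv ℝ (fun y => loc2 φ σ y u v) z w = 0 := by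
  have key : ∀ φ ∈ IsManifold.maximalAtlas 𝓘(ℝ, E n) ∞ M, ∀ z ∈ φ.target, ∀ u v w : E n,
      fderiv ℝ (fun y => loc2 φ σ y v w) z u = fderiv ℝ (loc2 φ σ) z u v w :=
    fun φ hφ z hz u v w => ev2 ((S2.sm hσ hφ hz).differentiableAt (by simp)) v w u
  constructor
  · intro h φ hφ z hz u v w
    rw [key φ hφ z hz, key φ hφ z hz, key φ hφ z hz]
    exact h φ hφ z hz u v w
  · intro h φ hφ z hz u v w
    rw [← key φ hφ z hz, ← key φ hφ z hz, ← key φ hφ z hz]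
    exact h φ hφ z hz u v w

theorem fderiv_conj {g : E n → ℂ} {z : E n} (hg : DifferentiableAt ℝ g z) (u : E n) :
    fderiv ℝ (fun y => (starRingEnd ℂ) (g y)) z u = (starRingEnd ℂ) (fderiv ℝ g z u) := by
  have h : HasFDerivAt (fun y => (starRingEnd ℂ) (g y))
      ((Complex.conjCLE : ℂ →L[ℝ] ℂ).comp (fderiv ℝ g z)) z :=
    (Complex.conjCLE : ℂ →L[ℝ] ℂ).hasFDerivAt.comp z hg.hasFDerivAt
  rw [h.fderiv]
  rfl

end

end FcC

section

variable {n : ℕ} {M : Type*}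
  [TopologicalSpace M] [ChartedSpace (E n) M] [IsManifold 𝓘(ℂ, E n) ω M]

theorem S1.zero : S1 (0 : F1 n M) := by
  intro φ hφ
  rw [FcC.loc1_zero]
  exact contDiffOn_const

theorem S1.add {α β : F1 n M} (hα : S1 α) (hβ : S1 β) : S1 (α + β) := by
  intro φ hφ
  rw [loc1_add]
  exact ContDiffOn.add (hα φ hφ) (hβ φ hφ)

theorem S1.sub {α β : F1 n M} (hα : S1 α) (hβ : S1 β) : S1 (α - β) := by
  intro φ hφ
  rw [FcC.loc1_sub]
  exact ContDiffOn.sub (hα φ hφ) (hβ φ hφ)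

theorem S1.smul (c : ℂ) {α : F1 n M} (hα : S1 α) : S1 (c • α) := by
  intro φ hφ
  rw [loc1_smul]
  exact ContDiffOn.const_smul c (hα φ hφ)

theorem S1.fsmul {f : M → ℂ} (hf : S0 n f) {α : F1 n M} (hα : S1 α) : S1 (f • α) := by
  intro φ hφ
  rw [loc1_fsmul]
  exact ContDiffOn.smul (fun z hz => (hf.contDiffAt_loc hφ hz).contDiffWithinAt) (hα φ hφ)

theorem S1.cj {α : F1 n M} (hα : S1 α) : S1 (cj α) := by
  intro φ hφ
  rw [FcC.loc1_cj']
  exact (FcC.cjL n).contDiff.comp_contDiffOn (hα φ hφ)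

theorem S1.sum {ι : Type*} (s : Finset ι) {α : ι → F1 n M} (h : ∀ i ∈ s, S1 (α i)) :
    S1 (∑ i ∈ s, α i) := by
  classical
  induction s using Finset.induction_on with
  | empty => exact S1.zero
  | insert i s hi ih =>
    rw [Finset.sum_insert hi]
    exact S1.add (h i (Finset.mem_insert_self i s))
      (ih fun j hj => h j (Finset.mem_insert_of_mem hj))

theorem S0.d0 {f : M → ℂ} (hf : S0 n f) : S1 (d0 n f) := by
  intro φ hφ z hz
  have h1 : ContDiffAt ℝ ∞ (fun w => fderiv ℝ (f ∘ φ.symm) w) z :=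
    (hf.contDiffAt_loc hφ hz).fderiv_right (m := ∞) (by simp)
  refine (h1.congr_of_eventuallyEq ?_).contDiffWithinAt
  filter_upwards [φ.open_target.mem_nhds hz] with w hw
  exact loc1_d0 hφ hw (hf.mdifferentiable (by simp) _)

theorem S2.zero : S2 (0 : F2 n M) := by
  refine ⟨fun x u v => ?_, fun φ hφ => ?_⟩
  · change (0 : ℂ) = - 0
    rw [neg_zero]
  · rw [FcC.loc2_zero]
    exact contDiffOn_const

theorem S2.add {σ τ : F2 n M} (hσ : S2 σ) (hτ : S2 τ) : S2 (σ + τ) := by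
  refine ⟨fun x u v => ?_, fun φ hφ => ?_⟩
  · change σ x u v + τ x u v = - (σ x v u + τ x v u)
    rw [hσ.1, hτ.1]
    ring
  · rw [loc2_add]
    exact ContDiffOn.add (hσ.2 φ hφ) (hτ.2 φ hφ)

theorem S2.sub {σ τ : F2 n M} (hσ : S2 σ) (hτ : S2 τ) : S2 (σ - τ) := by
  refine ⟨fun x u v => ?_, fun φ hφ => ?_⟩
  · change σ x u v - τ x u v = - (σ x v u - τ x v u)
    rw [hσ.1, hτ.1]
    ring
  · rw [FcC.loc2_sub]
    exact ContDiffOn.sub (hσ.2 φ hφ) (hτ.2 φ hφ)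

theorem S2.smul (c : ℂ) {σ : F2 n M} (hσ : S2 σ) : S2 (c • σ) := by
  refine ⟨fun x u v => ?_, fun φ hφ => ?_⟩
  · change c * σ x u v = - (c * σ x v u)
    rw [hσ.1]
    ring
  · rw [loc2_smul]
    exact ContDiffOn.const_smul c (hσ.2 φ hφ)

theorem S2.fsmul {f : M → ℂ} (hf : S0 n f) {σ : F2 n M} (hσ : S2 σ) : S2 (f • σ) := by
  rw [FcC.s2_iff] at hσ ⊢
  refine ⟨fun x u v => ?_, fun φ hφ u v => ?_⟩
  · change f x * σ x u v = - (f x * σ x v u)
    rw [hσ.1]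
    ring
  · rw [loc2_fsmul]
    exact ContDiffOn.mul (fun z hz => (hf.contDiffAt_loc hφ hz).contDiffWithinAt)
      (hσ.2 φ hφ u v)

theorem S2.cj2 {σ : F2 n M} (hσ : S2 σ) : S2 (cj2 σ) := by
  rw [FcC.s2_iff] at hσ ⊢
  refine ⟨fun x u v => ?_, fun φ hφ u v => ?_⟩
  · change (starRingEnd ℂ) (σ x u v) = - (starRingEnd ℂ) (σ x v u)
    rw [hσ.1, map_neg]
  · simp only [loc2_cj2]
    exact (Complex.conjCLE : ℂ →L[ℝ] ℂ).contDiff.comp_contDiffOn (hσ.2 φ hφ u v)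

theorem S2.wedge {α β : F1 n M} (hα : S1 α) (hβ : S1 β) : S2 (wedge α β) := by
  rw [FcC.s1_iff] at hα hβ
  refine FcC.s2_iff.2 ⟨fun x u v => ?_, fun φ hφ u v => ?_⟩
  · rw [wedge_apply, wedge_apply]
    ring
  · simp only [loc2_wedge]
    exact ((hα φ hφ u).mul (hβ φ hφ v)).sub ((hα φ hφ v).mul (hβ φ hφ u))

theorem S2.d1 {κ : F1 n M} (hκ : S1 κ) : S2 (d1 κ) := by
  refine FcC.s2_iff.2 ⟨fun x u v => ?_, fun φ hφ u v => ?_⟩
  · change dE1 _ _ u v = - dE1 _ _ v u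
    rw [FcC.dE1_apply, FcC.dE1_apply]
    ring
  · have h1 : ContDiffOn ℝ ∞ (fderiv ℝ (loc1 φ κ)) φ.target :=
      (hκ φ hφ).fderiv_of_isOpen φ.open_target (by simp)
    have h2 : ContDiffOn ℝ ∞ (fun z => fderiv ℝ (loc1 φ κ) z u v - fderiv ℝ (loc1 φ κ) z v u)
        φ.target :=
      ((h1.clm_apply contDiffOn_const).clm_apply contDiffOn_const).sub
        ((h1.clm_apply contDiffOn_const).clm_apply contDiffOn_const)
    refine h2.congr fun z hz => ?_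
    rw [loc2_d1 hκ hφ hz, FcC.dE1_apply]

theorem Cl2.zero : Cl2 (0 : F2 n M) := by
  intro φ hφ z hz u v w
  rw [FcC.loc2_zero]
  simp

theorem Cl2.add {σ τ : F2 n M} (hs : S2 σ) (ht : S2 τ) (hσ : Cl2 σ) (hτ : Cl2 τ) :
    Cl2 (σ + τ) := by
  rw [FcC.cl2_iff hs] at hσ
  rw [FcC.cl2_iff ht] at hτ
  rw [FcC.cl2_iff (hs.add ht)]
  intro φ hφ z hz u v w
  have key : ∀ a b c : E n, fderiv ℝ (fun y => loc2 φ (σ + τ) y a b) z c =
      fderiv ℝ (fun y => loc2 φ σ y a b) z c + fderiv ℝ (fun y => loc2 φ τ y a b) z c := by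
    intro a b c
    have h := fderiv_add (FcC.dif2 (FcC.S2.sm hs hφ hz) a b) (FcC.dif2 (FcC.S2.sm ht hφ hz) a b)
    rw [loc2_add]
    exact congrArg (fun L : E n →L[ℝ] ℂ => L c) h
  rw [key, key, key]
  linear_combination hσ φ hφ z hz u v w + hτ φ hφ z hz u v w

theorem Cl2.smul (c : ℂ) {σ : F2 n M} (hs : S2 σ) (hσ : Cl2 σ) : Cl2 (c • σ) := by
  rw [FcC.cl2_iff hs] at hσ
  rw [FcC.cl2_iff (hs.smul c)]
  intro φ hφ z hz u v w
  have key : ∀ a b d : E n, fderiv ℝ (fun y => loc2 φ (c • σ) y a b) z d =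
      c * fderiv ℝ (fun y => loc2 φ σ y a b) z d := by
    intro a b d
    have h := fderiv_const_mul (FcC.dif2 (FcC.S2.sm hs hφ hz) a b) c
    rw [loc2_smul]
    exact congrArg (fun L : E n →L[ℝ] ℂ => L d) h
  rw [key, key, key]
  linear_combination c * hσ φ hφ z hz u v w

theorem Cl2.cj2 {σ : F2 n M} (hs : S2 σ) (hσ : Cl2 σ) : Cl2 (cj2 σ) := by
  rw [FcC.cl2_iff hs] at hσ
  rw [FcC.cl2_iff hs.cj2]
  intro φ hφ z hz u v w
  have key : ∀ a b d : E n, fderiv ℝ (fun y => loc2 φ (Pool.Agent.K708.cj2 σ) y a b) z d =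
      (starRingEnd ℂ) (fderiv ℝ (fun y => loc2 φ σ y a b) z d) := by
    intro a b d
    simp only [loc2_cj2]
    exact FcC.fderiv_conj (FcC.dif2 (FcC.S2.sm hs hφ hz) a b) d
  rw [key, key, key, ← map_add, ← map_add, hσ φ hφ z hz u v w, map_zero]

theorem Cl2.d1 {κ : F1 n M} (hκ : S1 κ) : Cl2 (d1 κ) := by
  rw [FcC.cl2_iff (S2.d1 hκ)]
  intro φ hφ z hz u v w
  have h0 : ContDiffAt ℝ ∞ (loc1 φ κ) z := FcC.S1.sm hκ hφ hz
  have h1 : ContDiffAt ℝ ∞ (fderiv ℝ (loc1 φ κ)) z := h0.fderiv_right (m := ∞) (by simp)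
  have hsym : IsSymmSndFDerivAt ℝ (loc1 φ κ) z := h0.isSymmSndFDerivAt (by
    rw [minSmoothness_of_isRCLikeNormedField]
    exact WithTop.coe_le_coe.2 le_top)
  have key : ∀ a b c : E n, fderiv ℝ (fun y => loc2 φ (Pool.Agent.K708.d1 κ) y a b) z c =
      fderiv ℝ (fderiv ℝ (loc1 φ κ)) z c a b - fderiv ℝ (fderiv ℝ (loc1 φ κ)) z c b a := by
    intro a b c
    have e1 : (fun y => loc2 φ (Pool.Agent.K708.d1 κ) y a b) =ᶠ[𝓝 z]
        fun y => fderiv ℝ (loc1 φ κ) y a b - fderiv ℝ (loc1 φ κ) y b a := by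
      filter_upwards [φ.open_target.mem_nhds hz] with y hy
      rw [loc2_d1 hκ hφ hy, FcC.dE1_apply]
    rw [e1.fderiv_eq]
    have h2 := fderiv_sub (FcC.dif2 h1 a b) (FcC.dif2 h1 b a)
    have h3 := congrArg (fun L : E n →L[ℝ] ℂ => L c) h2
    refine h3.trans ?_
    change fderiv ℝ (fun y => fderiv ℝ (loc1 φ κ) y a b) z c -
      fderiv ℝ (fun y => fderiv ℝ (loc1 φ κ) y b a) z c = _
    rw [FcC.ev2 (h1.differentiableAt (by simp)), FcC.ev2 (h1.differentiableAt (by simp))]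
  rw [key, key, key, hsym u v, hsym v w, hsym w u]
  ring

theorem Cl2.wedge {α β : F1 n M} (hα : C1 α) (hβ : C1 β) : Cl2 (wedge α β) := by
  rw [FcC.cl2_iff (S2.wedge hα.1 hβ.1)]
  intro φ hφ z hz u v w
  have ha : ContDiffAt ℝ ∞ (loc1 φ α) z := FcC.S1.sm hα.1 hφ hz
  have hb : ContDiffAt ℝ ∞ (loc1 φ β) z := FcC.S1.sm hβ.1 hφ hz
  have h1 : ∀ a b : E n, fderiv ℝ (loc1 φ α) z a b = fderiv ℝ (loc1 φ α) z b a := by
    intro a b
    have h := loc2_d1 hα.1 hφ hz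
    rw [hα.2, FcC.loc2_zero] at h
    have h2 := congrArg (fun L : E n →L[ℝ] E n →L[ℝ] ℂ => L a b) h
    exact sub_eq_zero.1 h2.symm
  have h2 : ∀ a b : E n, fderiv ℝ (loc1 φ β) z a b = fderiv ℝ (loc1 φ β) z b a := by
    intro a b
    have h := loc2_d1 hβ.1 hφ hz
    rw [hβ.2, FcC.loc2_zero] at h
    have h2 := congrArg (fun L : E n →L[ℝ] E n →L[ℝ] ℂ => L a b) h
    exact sub_eq_zero.1 h2.symm
  have key : ∀ a b c : E n, fderiv ℝ (fun y => loc2 φ (Pool.Agent.K708.wedge α β) y a b) z c =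
      (fderiv ℝ (loc1 φ α) z c a * loc1 φ β z b + loc1 φ α z a * fderiv ℝ (loc1 φ β) z c b) -
      (fderiv ℝ (loc1 φ α) z c b * loc1 φ β z a + loc1 φ α z b * fderiv ℝ (loc1 φ β) z c a) := by
    intro a b c
    simp only [loc2_wedge]
    have e1 := ((FcC.dif1 ha a).hasFDerivAt.mul (FcC.dif1 hb b).hasFDerivAt).sub
      ((FcC.dif1 ha b).hasFDerivAt.mul (FcC.dif1 hb a).hasFDerivAt)
    have e2 := congrArg (fun L : E n →L[ℝ] ℂ => L c) e1.fderiv
    refine Eq.trans e2 ?_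
    change (loc1 φ α z a * fderiv ℝ (fun y => loc1 φ β y b) z c +
        loc1 φ β z b * fderiv ℝ (fun y => loc1 φ α y a) z c) -
      (loc1 φ α z b * fderiv ℝ (fun y => loc1 φ β y a) z c +
        loc1 φ β z a * fderiv ℝ (fun y => loc1 φ α y b) z c) = _
    rw [FcC.ev1 (ha.differentiableAt (by simp)), FcC.ev1 (ha.differentiableAt (by simp)),
      FcC.ev1 (hb.differentiableAt (by simp)), FcC.ev1 (hb.differentiableAt (by simp))]
    ring
  rw [key, key, key, h1 u v, h1 v w, h1 w u, h2 u v, h2 v w, h2 w u]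
  ring

/-- Differentiability in the preferred chart. -/
theorem FcC.dif_chart {α : F1 n M} (hα : S1 α) (x : M) :
    DifferentiableAt ℝ (loc1 (chartAt (E n) x) α) (chartAt (E n) x x) :=
  (FcC.S1.sm hα (chartAt_mem_RA x) (mem_chart_target (E n) x)).differentiableAt (by simp)

theorem d1_add {α β : F1 n M} (hα : S1 α) (hβ : S1 β) : d1 (α + β) = d1 α + d1 β := by
  funext x
  change dE1 _ _ = dE1 _ _ + dE1 _ _
  rw [loc1_add, FcC.dE1_add (FcC.dif_chart hα x) (FcC.dif_chart hβ x)]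

theorem d1_sub {α β : F1 n M} (hα : S1 α) (hβ : S1 β) : d1 (α - β) = d1 α - d1 β := by
  funext x
  change dE1 _ _ = dE1 _ _ - dE1 _ _
  rw [FcC.loc1_sub, FcC.dE1_sub (FcC.dif_chart hα x) (FcC.dif_chart hβ x)]

theorem d1_smul (c : ℂ) {α : F1 n M} (hα : S1 α) : d1 (c • α) = c • d1 α := by
  funext x
  change dE1 _ _ = c • dE1 _ _
  rw [loc1_smul, FcC.dE1_smul c (FcC.dif_chart hα x)]

theorem d1_cj {α : F1 n M} (hα : S1 α) : d1 (cj α) = cj2 (d1 α) := by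
  funext x
  ext u v
  rw [cj2_apply]
  change dE1 _ _ u v = (starRingEnd ℂ) (dE1 _ _ u v)
  rw [FcC.loc1_cj', FcC.dE1_cj (FcC.dif_chart hα x)]

theorem d1_congr {α β : F1 n M} {x : M} (h : α =ᶠ[𝓝 x] β) : d1 α x = d1 β x := by
  refine FcC.dE1_congr ?_
  have h1 : Filter.Tendsto (chartAt (E n) x).symm (𝓝 (chartAt (E n) x x)) (𝓝 x) := by
    have h2 := (chartAt (E n) x).continuousAt_symm (mem_chart_target (E n) x)
    have h3 := h2.tendsto
    rwa [(chartAt (E n) x).left_inv (mem_chart_source (E n) x)] at h3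
  filter_upwards [h1.eventually h] with z hz
  unfold loc1
  rw [hz]

theorem d1_d0 {f : M → ℂ} (hf : S0 n f) : d1 (d0 n f) = 0 := by
  funext x
  change dE1 (loc1 (chartAt (E n) x) (d0 n f)) (chartAt (E n) x x) = 0
  have hc := hf.contDiffAt_loc (chartAt_mem_RA x) (mem_chart_target (E n) x)
  rw [← FcC.dE1_fderiv hc]
  refine FcC.dE1_congr ?_
  filter_upwards [(chartAt (E n) x).open_target.mem_nhds (mem_chart_target (E n) x)] with w hw
  exact loc1_d0 (chartAt_mem_RA x) hw (hf.mdifferentiable (by simp) _)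

theorem d1_fsmul {f : M → ℂ} (hf : S0 n f) {α : F1 n M} (hα : S1 α) :
    d1 (f • α) = wedge (d0 n f) α + f • d1 α := by
  funext x
  ext u v
  have hc := hf.contDiffAt_loc (chartAt_mem_RA x) (mem_chart_target (E n) x)
  have h1 : fderiv ℝ (f ∘ (chartAt (E n) x).symm) (chartAt (E n) x x) = d0 n f x := by
    rw [← loc1_d0 (chartAt_mem_RA x) (mem_chart_target (E n) x)
      (hf.mdifferentiable (by simp) _), loc1_chartAt]
  change dE1 (loc1 (chartAt (E n) x) (f • α)) (chartAt (E n) x x) u v =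
    wedge (d0 n f) α x u v + f x * dE1 (loc1 (chartAt (E n) x) α) (chartAt (E n) x x) u v
  rw [loc1_fsmul, FcC.dE1_fsmul (hc.differentiableAt (by simp)) (FcC.dif_chart hα x), h1,
    loc1_chartAt, wedge_apply, Function.comp_apply,
    (chartAt (E n) x).left_inv (mem_chart_source (E n) x)]

theorem C1.add {α β : F1 n M} (hα : C1 α) (hβ : C1 β) : C1 (α + β) :=
  ⟨hα.1.add hβ.1, by
    rw [d1_add hα.1 hβ.1, hα.2, hβ.2]
    funext x
    ext u v
    exact add_zero (0 : ℂ)⟩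

theorem C1.sub {α β : F1 n M} (hα : C1 α) (hβ : C1 β) : C1 (α - β) :=
  ⟨hα.1.sub hβ.1, by
    rw [d1_sub hα.1 hβ.1, hα.2, hβ.2]
    funext x
    ext u v
    exact sub_zero (0 : ℂ)⟩

theorem C1.smul (c : ℂ) {α : F1 n M} (hα : C1 α) : C1 (c • α) :=
  ⟨hα.1.smul c, by
    rw [d1_smul c hα.1, hα.2]
    funext x
    ext u v
    exact mul_zero c⟩

theorem C1.cj {α : F1 n M} (hα : C1 α) : C1 (cj α) :=
  ⟨hα.1.cj, by
    rw [d1_cj hα.1, hα.2]
    funext x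
    ext u v
    rw [cj2_apply]
    exact map_zero _⟩

theorem C1.d0 {f : M → ℂ} (hf : S0 n f) : C1 (d0 n f) := ⟨hf.d0, d1_d0 hf⟩

theorem H1.add {α β : F1 n M} (hα : H1 α) (hβ : H1 β) : H1 (α + β) :=
  ⟨hα.1.add hβ.1, fun x u => by
    change α x (Complex.I • u) + β x (Complex.I • u) = Complex.I * (α x u + β x u)
    rw [hα.2, hβ.2, mul_add]⟩

theorem H1.smul (c : ℂ) {α : F1 n M} (hα : H1 α) : H1 (c • α) :=
  ⟨hα.1.smul c, fun x u => by
    change c * α x (Complex.I • u) = Complex.I * (c * α x u)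
    rw [hα.2]
    ring⟩

theorem H1.zero : H1 (0 : F1 n M) := by
  refine ⟨⟨S1.zero, ?_⟩, fun x u => ?_⟩
  · funext x
    ext u v
    have h := d1_smul (0 : ℂ) (S1.zero (n := n) (M := M))
    have h1 : ((0 : ℂ) • (0 : F1 n M)) = 0 := by
      funext x
      ext u
      exact zero_mul (0 : ℂ)
    rw [h1] at h
    have h2 := congrArg (fun σ : F2 n M => σ x u v) h
    refine h2.trans ?_
    exact zero_mul _
  · change (0 : ℂ) = Complex.I * 0
    rw [mul_zero]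

theorem Ex2.add {σ τ : F2 n M} (hσ : Ex2 σ) (hτ : Ex2 τ) : Ex2 (σ + τ) := by
  obtain ⟨κ, h1, rfl⟩ := hσ
  obtain ⟨κ', h2, rfl⟩ := hτ
  exact ⟨κ + κ', h1.add h2, (d1_add h1 h2).symm⟩

theorem Ex2.sub {σ τ : F2 n M} (hσ : Ex2 σ) (hτ : Ex2 τ) : Ex2 (σ - τ) := by
  obtain ⟨κ, h1, rfl⟩ := hσ
  obtain ⟨κ', h2, rfl⟩ := hτ
  exact ⟨κ - κ', h1.sub h2, (d1_sub h1 h2).symm⟩

theorem Ex2.smul (c : ℂ) {σ : F2 n M} (hσ : Ex2 σ) : Ex2 (c • σ) := by
  obtain ⟨κ, h1, rfl⟩ := hσ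
  exact ⟨c • κ, h1.smul c, (d1_smul c h1).symm⟩

/-- `df ∧ β = d(f β)` for `β` closed. -/
theorem Ex2.d0_wedge {f : M → ℂ} (hf : S0 n f) {β : F1 n M} (hβ : C1 β) :
    Ex2 (wedge (d0 n f) β) :=
  ⟨f • β, hβ.1.fsmul hf, by
    rw [d1_fsmul hf hβ.1, hβ.2]
    funext x
    ext u v
    change _ = wedge (d0 n f) β x u v + f x * 0
    rw [mul_zero, add_zero]⟩

theorem Ex2.wedge_d0 {f : M → ℂ} (hf : S0 n f) {β : F1 n M} (hβ : C1 β) :
    Ex2 (wedge β (d0 n f)) := by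
  have h := (Ex2.d0_wedge hf hβ).smul (-1)
  have h1 : (-1 : ℂ) • wedge (d0 n f) β = wedge β (d0 n f) := by
    funext x
    ext u v
    change (-1 : ℂ) * wedge (d0 n f) β x u v = _
    rw [wedge_apply, wedge_apply]
    ring
  rwa [h1] at h

end

end Pool.Agent.K708
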