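import Pool.Agent.Lib.K708.VolE
import Pool.Agent.Lib.K708.FcC

/-! # K708: integrals of 4-forms on a compact Kähler surface -/

set_option autoImplicit false

open scoped Manifold ContDiff Topology
open Set MeasureTheory

noncomputable section

namespace Pool.Agent.K708

section

variable {X : CMfd 2} {Ω : F2 2 X}

namespace VolI

theorem alt_of_S2 {σ : F2 2 X} (hσ : S2 σ) (x : X) : Alt (σ x) := fun u v => hσ.1 x u v

theorem w4_loc (φ : OpenPartialHomeomorph X (E 2)) {σ τ : F2 2 X} (hσ : S2 σ) (hτ : S2 τ)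
    (z : E 2) : w4 (loc2 φ σ z) (loc2 φ τ z) =
      ((D 2 2 φ.symm z).det : ℂ) * w4 (σ (φ.symm z)) (τ (φ.symm z)) :=
  w4_comp (alt_of_S2 hσ _) (alt_of_S2 hτ _) _

theorem w4_ne (hΩ : Kah Ω) (x : X) : w4 (Ω x) (Ω x) ≠ 0 := by
  intro h
  have := (w4_pkah_pos (hΩ.pkah x)).1
  rw [h] at this
  simp at this

theorem det_ne {φ : OpenPartialHomeomorph X (E 2)} (hφ : φ ∈ RA 2 X) {z : E 2}
    (hz : z ∈ φ.target) : (D 2 2 φ.symm z).det ≠ 0 := by
  intro h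
  have h1 := D_comp_symm hφ hz
  have h2 := congrArg ContinuousLinearMap.det h1
  have h3 : ((D 2 2 φ (φ.symm z)).comp (D 2 2 φ.symm z)).det =
      (D 2 2 φ (φ.symm z)).det * (D 2 2 φ.symm z).det := by
    simp [ContinuousLinearMap.det]
  rw [h3, h, mul_zero] at h2
  simp [ContinuousLinearMap.det] at h2

theorem w4_loc_ne (hΩ : Kah Ω) {φ : OpenPartialHomeomorph X (E 2)} (hφ : φ ∈ RA 2 X) {z : E 2}
    (hz : z ∈ φ.target) : w4 (loc2 φ Ω z) (loc2 φ Ω z) ≠ 0 := by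
  rw [w4_loc φ hΩ.s2 hΩ.s2 z]
  exact mul_ne_zero (by exact_mod_cast det_ne hφ hz) (w4_ne hΩ _)

theorem ratio_loc {φ : OpenPartialHomeomorph X (E 2)} (hφ : φ ∈ RA 2 X)
    {σ τ : F2 2 X} (hσ : S2 σ) (hτ : S2 τ) (hΩ : Kah Ω) {z : E 2} (hz : z ∈ φ.target) :
    w4 (σ (φ.symm z)) (τ (φ.symm z)) / w4 (Ω (φ.symm z)) (Ω (φ.symm z)) =
      w4 (loc2 φ σ z) (loc2 φ τ z) / w4 (loc2 φ Ω z) (loc2 φ Ω z) := by
  rw [w4_loc φ hσ hτ z, w4_loc φ hΩ.s2 hΩ.s2 z]
  have h1 : ((D 2 2 φ.symm z).det : ℂ) ≠ 0 := by exact_mod_cast det_ne hφ hz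
  rw [mul_div_mul_left _ _ h1]

/-- Continuity of `w4` of local expressions. -/
theorem continuousAt_w4 {Z : Type*} [TopologicalSpace Z] {B C : Z → Bil 2} {z : Z}
    (hB : ContinuousAt B z) (hC : ContinuousAt C z) :
    ContinuousAt (fun z => w4 (B z) (C z)) z := by
  have hb : ∀ i j, ContinuousAt (fun z => B z (bv i) (bv j)) z := fun i j =>
    (hB.clm_apply continuousAt_const).clm_apply continuousAt_const
  have hc : ∀ i j, ContinuousAt (fun z => C z (bv i) (bv j)) z := fun i j =>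
    (hC.clm_apply continuousAt_const).clm_apply continuousAt_const
  unfold w4
  exact ((((((hb _ _).mul (hc _ _)).sub ((hb _ _).mul (hc _ _))).add
    ((hb _ _).mul (hc _ _))).add ((hb _ _).mul (hc _ _))).sub
    ((hb _ _).mul (hc _ _))).add ((hb _ _).mul (hc _ _))

theorem continuousAt_w4_loc {φ : OpenPartialHomeomorph X (E 2)} (hφ : φ ∈ RA 2 X)
    {σ τ : F2 2 X} (hσ : S2 σ) (hτ : S2 τ) {z : E 2} (hz : z ∈ φ.target) :
    ContinuousAt (fun z => w4 (loc2 φ σ z) (loc2 φ τ z)) z :=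
  continuousAt_w4 (hσ.contDiffAt hφ hz).continuousAt (hτ.contDiffAt hφ hz).continuousAt

end VolI

open VolI

theorem continuous_w4_ratio (hΩ : Kah Ω) {σ τ : F2 2 X} (hσ : S2 σ) (hτ : S2 τ) :
    Continuous fun x => w4 (σ x) (τ x) / w4 (Ω x) (Ω x) := by
  rw [continuous_iff_continuousAt]
  intro x
  have hφ := chartAt_mem_RA (n := 2) x
  have hx := mem_chart_source (E 2) x
  have hz := (chartAt (E 2) x).map_source hx
  have h1 : ContinuousAt (fun z => w4 (loc2 (chartAt (E 2) x) σ z) (loc2 (chartAt (E 2) x) τ z) /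
      w4 (loc2 (chartAt (E 2) x) Ω z) (loc2 (chartAt (E 2) x) Ω z)) (chartAt (E 2) x x) :=
    (continuousAt_w4_loc hφ hσ hτ hz).div (continuousAt_w4_loc hφ hΩ.s2 hΩ.s2 hz)
      (w4_loc_ne hΩ hφ hz)
  have h2 := ContinuousAt.comp h1 ((chartAt (E 2) x).continuousAt hx)
  refine h2.congr ?_
  filter_upwards [(chartAt (E 2) x).open_source.mem_nhds hx] with y hy
  have h3 := ratio_loc hφ hσ hτ hΩ ((chartAt (E 2) x).map_source hy)
  rw [(chartAt (E 2) x).left_inv hy] at h3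
  exact h3.symm

theorem integrable_w4 (hX : CompactSpace X) (hΩ : Kah Ω) {σ τ : F2 2 X} (hσ : S2 σ)
    (hτ : S2 τ) :
    MeasureTheory.Integrable (fun x => w4 (σ x) (τ x) / w4 (Ω x) (Ω x)) (vol X Ω) := by
  have := (isVol_vol hX hΩ).fin
  exact (continuous_w4_ratio hΩ hσ hτ).integrable_of_hasCompactSupport
    (HasCompactSupport.of_compactSpace _)

theorem Int4_comm (σ τ : F2 2 X) : Int4 X Ω σ τ = Int4 X Ω τ σ := by
  unfold Int4
  simp only [w4_comm]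

theorem Int4_add_left (hX : CompactSpace X) (hΩ : Kah Ω) {σ σ' τ : F2 2 X} (hσ : S2 σ)
    (hσ' : S2 σ') (hτ : S2 τ) : Int4 X Ω (σ + σ') τ = Int4 X Ω σ τ + Int4 X Ω σ' τ := by
  unfold Int4
  rw [← integral_add (integrable_w4 hX hΩ hσ hτ) (integrable_w4 hX hΩ hσ' hτ)]
  congr 1
  funext x
  rw [Pi.add_apply, w4_add_left, add_div]

theorem Int4_sub_left (hX : CompactSpace X) (hΩ : Kah Ω) {σ σ' τ : F2 2 X} (hσ : S2 σ)
    (hσ' : S2 σ') (hτ : S2 τ) : Int4 X Ω (σ - σ') τ = Int4 X Ω σ τ - Int4 X Ω σ' τ := by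
  unfold Int4
  rw [← integral_sub (integrable_w4 hX hΩ hσ hτ) (integrable_w4 hX hΩ hσ' hτ)]
  congr 1
  funext x
  rw [Pi.sub_apply, w4_sub_left, sub_div]

theorem Int4_smul_left (c : ℂ) (σ τ : F2 2 X) : Int4 X Ω (c • σ) τ = c * Int4 X Ω σ τ := by
  unfold Int4
  rw [← integral_const_mul]
  congr 1
  funext x
  rw [Pi.smul_apply, w4_smul_left, mul_div_assoc]

theorem Int4_conj (hΩ : Kah Ω) (σ τ : F2 2 X) :
    Int4 X Ω (cj2 σ) (cj2 τ) = (starRingEnd ℂ) (Int4 X Ω σ τ) := by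
  unfold Int4
  rw [← integral_conj]
  congr 1
  funext x
  have h1 : w4 (cj2 σ x) (cj2 τ x) = (starRingEnd ℂ) (w4 (σ x) (τ x)) :=
    w4_conj (fun u v => cj2_apply σ x u v) (fun u v => cj2_apply τ x u v)
  have h2 : (starRingEnd ℂ) (w4 (Ω x) (Ω x)) = w4 (Ω x) (Ω x) :=
    Complex.conj_eq_iff_im.mpr (w4_pkah_pos (hΩ.pkah x)).2
  rw [map_div₀, h1, h2]


namespace VolI

theorem det_pos {φ : OpenPartialHomeomorph X (E 2)} (hφ : φ ∈ CA 2 X) {z : E 2}
    (hz : z ∈ φ.target) : 0 < (D 2 2 φ.symm z).det := by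
  have hR := ra_of_ca hφ
  have hh : HoloAt 2 2 φ.symm z := contMDiffAt_symm_of_mem_maximalAtlas hφ hz
  refine det_pos_of_complex (fun u => D_smul_I hh u) ?_
  intro u v huv
  have h1 := D_comp_symm hR hz
  have h2 := congrArg (fun L : E 2 →L[ℝ] E 2 => L u) h1
  have h3 := congrArg (fun L : E 2 →L[ℝ] E 2 => L v) h1
  simp only [ContinuousLinearMap.comp_apply, ContinuousLinearMap.id_apply] at h2 h3
  rw [← h2, ← h3, huv]

/-- The density in a chart. -/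
def dens (φ : OpenPartialHomeomorph X (E 2)) (Ω : F2 2 X) (z : E 2) : ℝ :=
  (w4 (Ω (φ.symm z)) (Ω (φ.symm z))).re * |(D 2 2 φ.symm z).det|

theorem dens_eq (hΩ : Kah Ω) {φ : OpenPartialHomeomorph X (E 2)} (hφ : φ ∈ CA 2 X) {z : E 2}
    (hz : z ∈ φ.target) : dens φ Ω z = (w4 (loc2 φ Ω z) (loc2 φ Ω z)).re := by
  unfold dens
  rw [w4_loc φ hΩ.s2 hΩ.s2 z, abs_of_pos (det_pos hφ hz), Complex.re_ofReal_mul, mul_comm]

theorem dens_nonneg (hΩ : Kah Ω) (φ : OpenPartialHomeomorph X (E 2)) (z : E 2) :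
    0 ≤ dens φ Ω z :=
  mul_nonneg (w4_pkah_pos (hΩ.pkah _)).1.le (abs_nonneg _)

theorem w4_loc_real (hΩ : Kah Ω) (φ : OpenPartialHomeomorph X (E 2)) (z : E 2) :
    (w4 (loc2 φ Ω z) (loc2 φ Ω z)).im = 0 := by
  rw [w4_loc φ hΩ.s2 hΩ.s2 z, Complex.im_ofReal_mul, (w4_pkah_pos (hΩ.pkah _)).2, mul_zero]

theorem aemeas_dens (hΩ : Kah Ω) {φ : OpenPartialHomeomorph X (E 2)} (hφ : φ ∈ CA 2 X) :
    AEMeasurable (fun z => ENNReal.ofReal (dens φ Ω z)) (volume.restrict φ.target) := by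
  refine AEMeasurable.ennreal_ofReal ?_
  have hc : ContinuousOn (dens φ Ω) φ.target := by
    refine ContinuousOn.congr (f := fun z => (w4 (loc2 φ Ω z) (loc2 φ Ω z)).re) ?_
      (fun z hz => dens_eq hΩ hφ hz)
    intro z hz
    exact (Complex.continuous_re.continuousAt.comp
      (continuousAt_w4_loc (ra_of_ca hφ) hΩ.s2 hΩ.s2 hz)).continuousWithinAt
  exact hc.aemeasurable φ.open_target.measurableSet

/-- The volume measure in a chart. -/
theorem restrict_eq_map {μ : Measure X} (hμ : IsVol X Ω μ) (hΩ : Kah Ω)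
    {φ : OpenPartialHomeomorph X (E 2)} (hφ : φ ∈ CA 2 X) :
    μ.restrict φ.source = Measure.map φ.symm
      ((volume.restrict φ.target).withDensity fun z => ENNReal.ofReal (dens φ Ω z)) := by
  have hm : AEMeasurable φ.symm (volume.restrict φ.target) :=
    φ.continuousOn_symm.aemeasurable φ.open_target.measurableSet
  have hm' : AEMeasurable φ.symm ((volume.restrict φ.target).withDensity
      fun z => ENNReal.ofReal (dens φ Ω z)) :=
    hm.mono_ac (withDensity_absolutelyContinuous _ _)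
  refine Measure.ext_of_lintegral _ fun g hg => ?_
  rw [hμ.chart φ (ra_of_ca hφ) g hg, lintegral_map' hg.aemeasurable hm']
  refine Eq.trans ?_ (lintegral_withDensity_eq_lintegral_mul₀ (aemeas_dens hΩ hφ)
    (hg.comp_aemeasurable hm)).symm
  refine lintegral_congr fun z => ?_
  exact mul_comm _ _

/-- Integral over the source of a chart. -/
theorem setIntegral_chart {μ : Measure X} (hμ : IsVol X Ω μ) (hΩ : Kah Ω)
    {φ : OpenPartialHomeomorph X (E 2)} (hφ : φ ∈ CA 2 X) {f : X → ℂ} (hf : Continuous f) :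
    ∫ x in φ.source, f x ∂μ =
      ∫ z in φ.target, f (φ.symm z) * w4 (loc2 φ Ω z) (loc2 φ Ω z) := by
  have hm : AEMeasurable φ.symm (volume.restrict φ.target) :=
    φ.continuousOn_symm.aemeasurable φ.open_target.measurableSet
  have hm' : AEMeasurable φ.symm ((volume.restrict φ.target).withDensity
      fun z => ENNReal.ofReal (dens φ Ω z)) :=
    hm.mono_ac (withDensity_absolutelyContinuous _ _)
  rw [restrict_eq_map hμ hΩ hφ, integral_map hm' hf.aestronglyMeasurable,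
    integral_withDensity_eq_integral_toReal_smul₀ (aemeas_dens hΩ hφ)
      (Filter.Eventually.of_forall fun z => ENNReal.ofReal_lt_top)]
  refine setIntegral_congr_fun φ.open_target.measurableSet fun z hz => ?_
  have h1 : w4 (loc2 φ Ω z) (loc2 φ Ω z) = ((dens φ Ω z : ℝ) : ℂ) := by
    apply Complex.ext
    · rw [dens_eq hΩ hφ hz, Complex.ofReal_re]
    · rw [w4_loc_real hΩ φ z, Complex.ofReal_im]
  show (ENNReal.ofReal (dens φ Ω z)).toReal • f (φ.symm z) = _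
  rw [ENNReal.toReal_ofReal (dens_nonneg hΩ φ z), h1, Complex.real_smul, mul_comm]

end VolI

/-- Integral in a holomorphic chart. -/
theorem Int4_chart (hX : CompactSpace X) (hΩ : Kah Ω) {φ : OpenPartialHomeomorph X (E 2)}
    (hφ : φ ∈ CA 2 X) {χ : X → ℝ} (hχ : Continuous χ) (hs : tsupport χ ⊆ φ.source)
    {σ τ : F2 2 X} (hσ : S2 σ) (hτ : S2 τ) :
    Int4 X Ω (fun x => (χ x : ℂ) • σ x) τ =
      ∫ z in φ.target, (χ (φ.symm z) : ℂ) * w4 (loc2 φ σ z) (loc2 φ τ z) := by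
  have hμ := isVol_vol hX hΩ
  obtain ⟨r, hr⟩ : ∃ r : X → ℂ, r = fun x => w4 (σ x) (τ x) / w4 (Ω x) (Ω x) := ⟨_, rfl⟩
  have hrc : Continuous r := hr ▸ continuous_w4_ratio hΩ hσ hτ
  have hfc : Continuous fun x => (χ x : ℂ) * r x :=
    (Complex.continuous_ofReal.comp hχ).mul hrc
  have h1 : Int4 X Ω (fun x => (χ x : ℂ) • σ x) τ = ∫ x, (χ x : ℂ) * r x ∂(vol X Ω) := by
    unfold Int4
    congr 1
    funext x
    rw [w4_smul_left, hr, mul_div_assoc]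
  have h2 : ∫ x in φ.source, (χ x : ℂ) * r x ∂(vol X Ω) = ∫ x, (χ x : ℂ) * r x ∂(vol X Ω) := by
    refine setIntegral_eq_integral_of_forall_compl_eq_zero fun x hx => ?_
    have : χ x = 0 := by
      by_contra h
      exact hx (hs (subset_tsupport _ h))
    rw [this, Complex.ofReal_zero, zero_mul]
  rw [h1, ← h2, setIntegral_chart hμ hΩ hφ hfc]
  refine setIntegral_congr_fun φ.open_target.measurableSet fun z hz => ?_
  have h3 := ratio_loc (ra_of_ca hφ) hσ hτ hΩ hz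
  have h4 := w4_loc_ne hΩ (ra_of_ca hφ) hz
  show (χ (φ.symm z) : ℂ) * r (φ.symm z) * _ = _
  rw [hr]
  simp only
  rw [h3, mul_assoc, div_mul_cancel₀ _ h4]

/-- Integral by a partition of unity. -/
theorem Int4_pu (hX : CompactSpace X) (hΩ : Kah Ω) (P : PUnit' 2 X) {σ τ : F2 2 X} (hσ : S2 σ)
    (hτ : S2 τ) :
    Int4 X Ω σ τ = ∑ k, ∫ z in (P.φ k).target,
      (P.χ k ((P.φ k).symm z) : ℂ) * w4 (loc2 (P.φ k) σ z) (loc2 (P.φ k) τ z) := by
  have := (isVol_vol hX hΩ).fin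
  have h1 : ∀ k, Int4 X Ω (fun x => (P.χ k x : ℂ) • σ x) τ = ∫ z in (P.φ k).target,
      (P.χ k ((P.φ k).symm z) : ℂ) * w4 (loc2 (P.φ k) σ z) (loc2 (P.φ k) τ z) := fun k =>
    Int4_chart hX hΩ (P.mem k) (P.smooth k).continuous (P.supp k) hσ hτ
  rw [← Finset.sum_congr rfl fun k _ => h1 k]
  unfold Int4
  rw [← integral_finsetSum]
  · congr 1
    funext x
    have h2 : ∀ k, w4 ((P.χ k x : ℂ) • σ x) (τ x) / w4 (Ω x) (Ω x) =
        (P.χ k x : ℂ) * (w4 (σ x) (τ x) / w4 (Ω x) (Ω x)) := fun k => by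
      rw [w4_smul_left, mul_div_assoc]
    rw [Finset.sum_congr rfl fun k _ => h2 k, ← Finset.sum_mul, ← Complex.ofReal_sum, P.sum x,
      Complex.ofReal_one, one_mul]
  · intro k _
    have hc : Continuous fun x => (P.χ k x : ℂ) * (w4 (σ x) (τ x) / w4 (Ω x) (Ω x)) :=
      (Complex.continuous_ofReal.comp (P.smooth k).continuous).mul
        (continuous_w4_ratio hΩ hσ hτ)
    have h3 : (fun x => w4 ((P.χ k x : ℂ) • σ x) (τ x) / w4 (Ω x) (Ω x)) =
        fun x => (P.χ k x : ℂ) * (w4 (σ x) (τ x) / w4 (Ω x) (Ω x)) := by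
      funext x
      rw [w4_smul_left, mul_div_assoc]
    rw [h3]
    exact hc.integrable_of_hasCompactSupport (HasCompactSupport.of_compactSpace _)

/-- The integral does not depend on the Kähler form used to define it. -/
theorem Int4_indep (hX : CompactSpace X) (hΩ : Kah Ω) {Ω' : F2 2 X} (hΩ' : Kah Ω')
    {σ τ : F2 2 X} (hσ : S2 σ) (hτ : S2 τ) : Int4 X Ω σ τ = Int4 X Ω' σ τ := by
  obtain ⟨P, -, -⟩ := exists_pu X hX (fun _ => univ) (fun _ => Filter.univ_mem)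
  rw [Int4_pu hX hΩ P hσ hτ, Int4_pu hX hΩ' P hσ hτ]

namespace VolI

theorem ratio_real (hΩ : Kah Ω) {σ τ : F2 2 X} {x : X}
    (h : 0 ≤ (w4 (σ x) (τ x)).re ∧ (w4 (σ x) (τ x)).im = 0) :
    w4 (σ x) (τ x) / w4 (Ω x) (Ω x) =
      (((w4 (σ x) (τ x)).re / (w4 (Ω x) (Ω x)).re : ℝ) : ℂ) := by
  have h1 : w4 (σ x) (τ x) = ((w4 (σ x) (τ x)).re : ℂ) :=
    Complex.ext (by simp) (by simpa using h.2)
  have h2 : w4 (Ω x) (Ω x) = ((w4 (Ω x) (Ω x)).re : ℂ) :=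
    Complex.ext (by simp) (by simpa using (w4_pkah_pos (hΩ.pkah x)).2)
  rw [Complex.ofReal_div, ← h1, ← h2]

theorem Int4_real (hΩ : Kah Ω) {σ τ : F2 2 X}
    (h : ∀ x, 0 ≤ (w4 (σ x) (τ x)).re ∧ (w4 (σ x) (τ x)).im = 0) :
    Int4 X Ω σ τ =
      ((∫ x, (w4 (σ x) (τ x)).re / (w4 (Ω x) (Ω x)).re ∂(vol X Ω) : ℝ) : ℂ) := by
  unfold Int4
  refine Eq.trans ?_ (integral_ofReal (𝕜 := ℂ))
  congr 1
  funext x
  exact ratio_real hΩ (h x)

theorem ratio_nonneg (hΩ : Kah Ω) {σ τ : F2 2 X}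
    (h : ∀ x, 0 ≤ (w4 (σ x) (τ x)).re ∧ (w4 (σ x) (τ x)).im = 0) (x : X) :
    0 ≤ (w4 (σ x) (τ x)).re / (w4 (Ω x) (Ω x)).re :=
  div_nonneg (h x).1 (w4_pkah_pos (hΩ.pkah x)).1.le

end VolI

/-- Positivity. -/
theorem Int4_nonneg (hX : CompactSpace X) (hΩ : Kah Ω) {σ τ : F2 2 X} (hσ : S2 σ) (hτ : S2 τ)
    (h : ∀ x, 0 ≤ (w4 (σ x) (τ x)).re ∧ (w4 (σ x) (τ x)).im = 0) :
    0 ≤ (Int4 X Ω σ τ).re ∧ (Int4 X Ω σ τ).im = 0 := by
  rw [Int4_real hΩ h]
  refine ⟨?_, Complex.ofReal_im _⟩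
  rw [Complex.ofReal_re]
  exact integral_nonneg (ratio_nonneg hΩ h)

theorem Int4_eq_zero (hX : CompactSpace X) (hΩ : Kah Ω) {σ τ : F2 2 X} (hσ : S2 σ) (hτ : S2 τ)
    (h : ∀ x, 0 ≤ (w4 (σ x) (τ x)).re ∧ (w4 (σ x) (τ x)).im = 0) (h0 : Int4 X Ω σ τ = 0) :
    ∀ x, w4 (σ x) (τ x) = 0 := by
  have hμ := isVol_vol hX hΩ
  have := hμ.fin
  have : (vol X Ω).IsOpenPosMeasure :=
    ⟨fun U hU hne => (IsVol.open_pos hΩ hμ hU hne).ne'⟩
  have hc : Continuous fun x => (w4 (σ x) (τ x)).re / (w4 (Ω x) (Ω x)).re := by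
    have h1 := Complex.continuous_re.comp (continuous_w4_ratio hΩ hσ hτ)
    refine h1.congr fun x => ?_
    show (w4 (σ x) (τ x) / w4 (Ω x) (Ω x)).re = _
    rw [ratio_real hΩ (h x), Complex.ofReal_re]
  have h2 : ∫ x, (w4 (σ x) (τ x)).re / (w4 (Ω x) (Ω x)).re ∂(vol X Ω) = 0 := by
    rw [Int4_real hΩ h] at h0
    exact_mod_cast h0
  have h3 := (integral_eq_zero_iff_of_nonneg (ratio_nonneg hΩ h)
    (hc.integrable_of_hasCompactSupport (HasCompactSupport.of_compactSpace _))).1 h2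
  have h4 := (Continuous.ae_eq_iff_eq (vol X Ω) hc continuous_zero).1 h3
  intro x
  have h5 := congrFun h4 x
  have h6 : (w4 (σ x) (τ x)).re = 0 := by
    rcases div_eq_zero_iff.1 h5 with h7 | h7
    · exact h7
    · exact absurd h7 (w4_pkah_pos (hΩ.pkah x)).1.ne'
  exact Complex.ext h6 (h x).2

/-- Integrand zero. -/
theorem Int4_of_zero {σ τ : F2 2 X} (h : ∀ x, w4 (σ x) (τ x) = 0) : Int4 X Ω σ τ = 0 := by
  unfold Int4
  simp [h]

namespace VolI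

variable {Y : CMfd 2}

/-- Transport of a chart along a biholomorphic map. -/
def tr (h : X ≃ₜ Y) (φ : OpenPartialHomeomorph Y (E 2)) : OpenPartialHomeomorph X (E 2) :=
  h.toOpenPartialHomeomorph ≫ₕ φ

theorem tr_mem {h : X ≃ₜ Y} (hf : Holo 2 2 h) (hg : Holo 2 2 h.symm)
    {φ : OpenPartialHomeomorph Y (E 2)} (hφ : φ ∈ CA 2 Y) : tr h φ ∈ CA 2 X := by
  refine OpenPartialHomeomorph.mem_maximalAtlas_of_contMDiffOn _ ?_ ?_
  · have h1 := (contMDiffOn_of_mem_maximalAtlas hφ).comp (s := (tr h φ).source)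
      (hf.contMDiffOn) (fun x hx => by simpa [tr] using hx)
    exact h1
  · have h1 := (hg.contMDiffOn (s := univ)).comp (contMDiffOn_symm_of_mem_maximalAtlas hφ)
      (fun x _ => mem_univ _)
    refine h1.mono fun z hz => ?_
    simpa [tr] using hz

theorem loc2_tr {h : X ≃ₜ Y} (hf : Holo 2 2 h) (hg : Holo 2 2 h.symm)
    {φ : OpenPartialHomeomorph Y (E 2)} (hφ : φ ∈ CA 2 Y) (σ : F2 2 Y) {z : E 2}
    (hz : z ∈ φ.target) : loc2 (tr h φ) (pb2 2 h σ) z = loc2 φ σ z := by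
  have hz' : z ∈ (tr h φ).target := by simpa [tr] using hz
  have hR := ra_of_ca (tr_mem hf hg hφ)
  have e1 : h ((tr h φ).symm z) = φ.symm z := by
    show h (h.symm (φ.symm z)) = φ.symm z
    exact h.apply_symm_apply _
  have hd : D 2 2 φ.symm z = (D 2 2 h ((tr h φ).symm z)).comp (D 2 2 (tr h φ).symm z) := by
    rw [← D_comp (hf.smth.mdiff _) (mdiff_chart_symm hR hz')]
    congr 1
    funext w
    show φ.symm w = h (h.symm (φ.symm w))
    exact (h.apply_symm_apply _).symm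
  unfold loc2 pb2
  rw [hd, e1]
  rfl

end VolI

/-- Invariance under biholomorphic maps. -/
theorem Int4_biholo {Y : CMfd 2} (hX : CompactSpace X) (hY : CompactSpace Y) {Ω' : F2 2 Y}
    (hΩ : Kah Ω) (hΩ' : Kah Ω') {f : X → Y} {g : Y → X} (hf : Holo 2 2 f) (hg : Holo 2 2 g)
    (h1 : ∀ x, g (f x) = x) (h2 : ∀ y, f (g y) = y) {σ τ : F2 2 Y} (hσ : S2 σ) (hτ : S2 τ) :
    Int4 X Ω (pb2 2 f σ) (pb2 2 f τ) = Int4 Y Ω' σ τ := by
  obtain ⟨h, hh, hh'⟩ : ∃ h : X ≃ₜ Y, (h : X → Y) = f ∧ (h.symm : Y → X) = g :=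
    ⟨⟨⟨f, g, h1, h2⟩, hf.continuous, hg.continuous⟩, rfl, rfl⟩
  subst hh hh'
  obtain ⟨P, -, -⟩ := exists_pu Y hY (fun _ => univ) (fun _ => Filter.univ_mem)
  have hsm : ∀ k, ContMDiff 𝓘(ℝ, E 2) 𝓘(ℝ, ℝ) ∞ (P.χ k ∘ h) := fun k =>
    (P.smooth k).comp hf.smth
  obtain ⟨Q, hQ⟩ : ∃ Q : PUnit' 2 X, Q = ⟨P.N, fun k => tr h (P.φ k), fun k => P.χ k ∘ h,
      fun k => tr_mem hf hg (P.mem k), hsm, fun k x => P.nonneg k (h x),
      fun k x hx => by
        have hx' : h x ∈ tsupport (P.χ k) := by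
          have := tsupport_comp_subset_preimage (P.χ k) h.continuous hx
          exact this
        simpa [tr] using P.supp k hx', fun x => P.sum (h x)⟩ := ⟨_, rfl⟩
  rw [Int4_pu hX hΩ Q (hσ.pb hf.smth) (hτ.pb hf.smth), Int4_pu hY hΩ' P hσ hτ]
  subst hQ
  refine Finset.sum_congr rfl fun k _ => ?_
  have ht : (tr h (P.φ k)).target = (P.φ k).target := by simp [tr]
  show ∫ z in (tr h (P.φ k)).target, ((P.χ k ∘ h) ((tr h (P.φ k)).symm z) : ℂ) *
    w4 (loc2 (tr h (P.φ k)) (pb2 2 h σ) z) (loc2 (tr h (P.φ k)) (pb2 2 h τ) z) = _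
  rw [ht]
  refine setIntegral_congr_fun (P.φ k).open_target.measurableSet fun z hz => ?_
  have e1 : h ((tr h (P.φ k)).symm z) = (P.φ k).symm z := by
    show h (h.symm ((P.φ k).symm z)) = (P.φ k).symm z
    exact h.apply_symm_apply _
  simp only [loc2_tr hf hg (P.mem k) _ hz, Function.comp_apply, e1]

end

end Pool.Agent.K708
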