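import Pool.Agent.Lib.K708.FcAlg

/-! # K708: linear algebra of 2-forms on `ℂ²` -/

set_option autoImplicit false

open scoped Manifold ContDiff Topology
open Set

noncomputable section

namespace Pool.Agent.K708

/-- `ℂ`-valued covectors. -/
abbrev Cov (n : ℕ) := E n →L[ℝ] ℂ

/-- `ℂ`-valued bilinear forms. -/
abbrev Bil (n : ℕ) := E n →L[ℝ] E n →L[ℝ] ℂ

/-- Wedge product of covectors (so `wedge α β x = wd (α x) (β x)` by `rfl`). -/
def wd {n : ℕ} (a b : Cov n) : Bil n := a.smulRight b - (a.smulRight b).flip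

/-- Conjugate covector (so `cj α x = cv (α x)` by `rfl`). -/
def cv {n : ℕ} (a : Cov n) : Cov n := (Complex.conjCLE : ℂ →L[ℝ] ℂ).comp a

/-- Covectors of type (1,0). -/
def T10 {n : ℕ} (a : Cov n) : Prop := ∀ u, a (Complex.I • u) = Complex.I * a u

/-- Alternating bilinear forms. -/
def Alt {n : ℕ} (B : Bil n) : Prop := ∀ u v, B u v = - B v u

/-- Bilinear forms of type (1,1) (i.e. invariant under multiplication by `i`). -/
def T11 {n : ℕ} (B : Bil n) : Prop := ∀ u v, B (Complex.I • u) (Complex.I • v) = B u v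

/-- Pointwise Kähler forms. -/
structure PKah {n : ℕ} (B : Bil n) : Prop where
  alt : Alt B
  real : ∀ u v, (B u v).im = 0
  inv : T11 B
  pos : ∀ u, u ≠ 0 → 0 < (B u (Complex.I • u)).re

theorem wedge_eq_wd {n : ℕ} {M : Type*} (α β : F1 n M) (x : M) :
    wedge α β x = wd (α x) (β x) := rfl

theorem cj_eq_cv {n : ℕ} {M : Type*} (α : F1 n M) (x : M) : cj α x = cv (α x) := rfl

theorem Kah.pkah {n : ℕ} {M : Type*} [TopologicalSpace M] [ChartedSpace (E n) M] {Ω : F2 n M}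
    (h : Kah Ω) (x : M) : PKah (Ω x) :=
  ⟨h.s2.1 x, h.real x, h.inv x, h.pos x⟩

theorem wd_apply {n : ℕ} (a b : Cov n) (u v : E n) : wd a b u v = a u * b v - a v * b u := by
  simp [wd, ContinuousLinearMap.smulRight_apply, ContinuousLinearMap.flip_apply]

theorem cv_apply {n : ℕ} (a : Cov n) (u : E n) : cv a u = (starRingEnd ℂ) (a u) := by
  simp [cv]

theorem alt_wd {n : ℕ} (a b : Cov n) : Alt (wd a b) := by
  intro u v
  rw [wd_apply, wd_apply]
  ring

/-- `w4` as an expression in the sixteen... twelve coefficients is symmetric and bilinear. -/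
theorem w4_comm (B C : Bil 2) : w4 B C = w4 C B := by
  unfold w4
  ring

theorem w4_add_left (B B' C : Bil 2) : w4 (B + B') C = w4 B C + w4 B' C := by
  simp only [w4, add_apply]
  ring

theorem w4_add_right (B C C' : Bil 2) : w4 B (C + C') = w4 B C + w4 B C' := by
  simp only [w4, add_apply]
  ring

theorem w4_sub_left (B B' C : Bil 2) : w4 (B - B') C = w4 B C - w4 B' C := by
  simp only [w4, sub_apply]
  ring

theorem w4_sub_right (B C C' : Bil 2) : w4 B (C - C') = w4 B C - w4 B C' := by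
  simp only [w4, sub_apply]
  ring

theorem w4_neg_left (B C : Bil 2) : w4 (-B) C = - w4 B C := by
  simp only [w4, neg_apply]
  ring

theorem w4_smul_left (c : ℂ) (B C : Bil 2) : w4 (c • B) C = c * w4 B C := by
  simp only [w4, smul_apply, smul_eq_mul]
  ring

theorem w4_smul_right (c : ℂ) (B C : Bil 2) : w4 B (c • C) = c * w4 B C := by
  simp only [w4, smul_apply, smul_eq_mul]
  ring

/-- Conjugation. -/
theorem w4_conj {B C B' C' : Bil 2} (hB : ∀ u v, B' u v = (starRingEnd ℂ) (B u v))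
    (hC : ∀ u v, C' u v = (starRingEnd ℂ) (C u v)) : w4 B' C' = (starRingEnd ℂ) (w4 B C) := by
  simp only [w4, hB, hC, map_add, map_sub, map_mul]

namespace W4

theorem bv1 : bv 1 = Complex.I • bv 0 := by
  ext i
  fin_cases i <;> simp [bv]

theorem bv3 : bv 3 = Complex.I • bv 2 := by
  ext i
  fin_cases i <;> simp [bv]

theorem I_bv1 : Complex.I • bv 1 = - bv 0 := by
  rw [bv1, smul_smul, Complex.I_mul_I, neg_one_smul]

theorem I_bv3 : Complex.I • bv 3 = - bv 2 := by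
  rw [bv3, smul_smul, Complex.I_mul_I, neg_one_smul]

theorem decomp (u : E 2) :
    u = (u 0).re • bv 0 + (u 0).im • bv 1 + (u 1).re • bv 2 + (u 1).im • bv 3 := by
  ext i
  fin_cases i
  · simp [bv, Complex.re_add_im]
  · simp [bv, Complex.re_add_im]

theorem I_comb (x0 x1 x2 x3 : ℝ) :
    Complex.I • (x0 • bv 0 + x1 • bv 1 + x2 • bv 2 + x3 • bv 3) =
      (-x1) • bv 0 + x0 • bv 1 + (-x3) • bv 2 + x2 • bv 3 := by
  rw [smul_add, smul_add, smul_add, smul_comm _ x0, smul_comm _ x1, smul_comm _ x2,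
    smul_comm _ x3, I_bv1, I_bv3, ← bv1, ← bv3, smul_neg, smul_neg, neg_smul, neg_smul]
  abel

theorem coord {x0 x1 x2 x3 y0 y1 y2 y3 : ℝ}
    (h : x0 • bv 0 + x1 • bv 1 + x2 • bv 2 + x3 • bv 3 =
      y0 • bv 0 + y1 • bv 1 + y2 • bv 2 + y3 • bv 3) : x0 = y0 ∧ x1 = y1 ∧ x2 = y2 ∧ x3 = y3 := by
  have h0 := congrFun h 0
  have h1 := congrFun h 1
  simp [bv] at h0 h1
  have a0 := congrArg Complex.re h0
  have a1 := congrArg Complex.im h0
  have a2 := congrArg Complex.re h1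
  have a3 := congrArg Complex.im h1
  simp at a0 a1 a2 a3
  exact ⟨a0, a1, a2, a3⟩

/-- A real bilinear form in coordinates. -/
theorem expand (B : Bil 2) (x0 x1 x2 x3 y0 y1 y2 y3 : ℝ) :
    B (x0 • bv 0 + x1 • bv 1 + x2 • bv 2 + x3 • bv 3)
      (y0 • bv 0 + y1 • bv 1 + y2 • bv 2 + y3 • bv 3) =
    x0 * y0 * B (bv 0) (bv 0) + x0 * y1 * B (bv 0) (bv 1) + x0 * y2 * B (bv 0) (bv 2) +
      x0 * y3 * B (bv 0) (bv 3) +
    (x1 * y0 * B (bv 1) (bv 0) + x1 * y1 * B (bv 1) (bv 1) + x1 * y2 * B (bv 1) (bv 2) +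
      x1 * y3 * B (bv 1) (bv 3)) +
    (x2 * y0 * B (bv 2) (bv 0) + x2 * y1 * B (bv 2) (bv 1) + x2 * y2 * B (bv 2) (bv 2) +
      x2 * y3 * B (bv 2) (bv 3)) +
    (x3 * y0 * B (bv 3) (bv 0) + x3 * y1 * B (bv 3) (bv 1) + x3 * y2 * B (bv 3) (bv 2) +
      x3 * y3 * B (bv 3) (bv 3)) := by
  simp only [map_add, map_smul, add_apply, smul_apply,
    Complex.real_smul]
  ring

theorem alt_self {B : Bil 2} (hB : Alt B) (u : E 2) : B u u = 0 := by
  have h := hB u u
  have h2 : (2 : ℂ) * B u u = 0 := by linear_combination h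
  simpa using h2

/-- An alternating form in coordinates. -/
theorem expandAlt {B : Bil 2} (hB : Alt B) (x0 x1 x2 x3 y0 y1 y2 y3 : ℝ) :
    B (x0 • bv 0 + x1 • bv 1 + x2 • bv 2 + x3 • bv 3)
      (y0 • bv 0 + y1 • bv 1 + y2 • bv 2 + y3 • bv 3) =
    (x0 * y1 - x1 * y0) * B (bv 0) (bv 1) + (x0 * y2 - x2 * y0) * B (bv 0) (bv 2) +
    (x0 * y3 - x3 * y0) * B (bv 0) (bv 3) + (x1 * y2 - x2 * y1) * B (bv 1) (bv 2) +
    (x1 * y3 - x3 * y1) * B (bv 1) (bv 3) + (x2 * y3 - x3 * y2) * B (bv 2) (bv 3) := by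
  rw [expand, alt_self hB (bv 0), alt_self hB (bv 1), alt_self hB (bv 2), alt_self hB (bv 3),
    hB (bv 1) (bv 0), hB (bv 2) (bv 0), hB (bv 3) (bv 0), hB (bv 2) (bv 1), hB (bv 3) (bv 1),
    hB (bv 3) (bv 2)]
  ring

theorem T11_13 {B : Bil 2} (h : T11 B) : B (bv 1) (bv 3) = B (bv 0) (bv 2) := by
  rw [bv1, bv3, h]

theorem T11_03 {B : Bil 2} (h : T11 B) : B (bv 0) (bv 3) = - B (bv 1) (bv 2) := by
  rw [← h (bv 1) (bv 2), I_bv1, ← bv3, map_neg, neg_apply, neg_neg]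

theorem T10_1 {a : Cov 2} (h : T10 a) : a (bv 1) = Complex.I * a (bv 0) := by
  rw [bv1, h]

theorem T10_3 {a : Cov 2} (h : T10 a) : a (bv 3) = Complex.I * a (bv 2) := by
  rw [bv3, h]

theorem cov_ext {a b : Cov 2} (h : ∀ i, a (bv i) = b (bv i)) : a = b := by
  ext u
  rw [decomp u]
  simp only [map_add, map_smul, h]

theorem bil_ext {B C : Bil 2} (h : ∀ i j, B (bv i) (bv j) = C (bv i) (bv j)) : B = C := by
  ext u v
  rw [decomp u, decomp v]
  simp only [map_add, map_smul, add_apply, smul_apply, h]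

theorem T10_ext {a b : Cov 2} (ha : T10 a) (hb : T10 b) (h0 : a (bv 0) = b (bv 0))
    (h2 : a (bv 2) = b (bv 2)) : a = b := by
  refine cov_ext fun i => ?_
  fin_cases i
  · exact h0
  · change a (bv 1) = b (bv 1)
    rw [T10_1 ha, T10_1 hb, h0]
  · exact h2
  · change a (bv 3) = b (bv 3)
    rw [T10_3 ha, T10_3 hb, h2]

/-- The real basis. -/
theorem li : LinearIndependent ℝ bv := by
  rw [Fintype.linearIndependent_iff]
  intro g hg
  have h0 := congrFun hg 0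
  have h1 := congrFun hg 1
  simp only [Fin.sum_univ_four, Pi.add_apply, Pi.smul_apply, bv, Pi.zero_apply] at h0 h1
  simp only [Fin.isValue, Matrix.cons_val_zero, Matrix.cons_val_one, Matrix.cons_val,
    Complex.real_smul, mul_one, mul_zero, add_zero, zero_add] at h0 h1
  have a0 := congrArg Complex.re h0
  have a1 := congrArg Complex.im h0
  have a2 := congrArg Complex.re h1
  have a3 := congrArg Complex.im h1
  simp at a0 a1 a2 a3
  intro i
  fin_cases i
  · exact a0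
  · exact a1
  · exact a2
  · exact a3

theorem sp : ⊤ ≤ Submodule.span ℝ (Set.range bv) := by
  rintro u -
  rw [decomp u]
  have h : ∀ i, bv i ∈ Submodule.span ℝ (Set.range bv) := fun i =>
    Submodule.subset_span ⟨i, rfl⟩
  exact add_mem (add_mem (add_mem (Submodule.smul_mem _ _ (h 0)) (Submodule.smul_mem _ _ (h 1)))
    (Submodule.smul_mem _ _ (h 2))) (Submodule.smul_mem _ _ (h 3))

/-- The real basis. -/
def bas : Module.Basis (Fin 4) ℝ (E 2) := Module.Basis.mk li sp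

theorem bas_apply (i : Fin 4) : bas i = bv i := by
  rw [bas, Module.Basis.mk_apply]

/-- The matrix of a real linear map. -/
def mt (L : E 2 →L[ℝ] E 2) : Matrix (Fin 4) (Fin 4) ℝ :=
  LinearMap.toMatrix bas bas (L : E 2 →ₗ[ℝ] E 2)

theorem det_mt (L : E 2 →L[ℝ] E 2) : L.det = (mt L).det := by
  rw [mt, LinearMap.det_toMatrix]

theorem L_bv (L : E 2 →L[ℝ] E 2) (j : Fin 4) :
    L (bv j) = mt L 0 j • bv 0 + mt L 1 j • bv 1 + mt L 2 j • bv 2 + mt L 3 j • bv 3 := by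
  have h := LinearMap.toMatrix_mulVec_repr bas bas (L : E 2 →ₗ[ℝ] E 2) (bv j)
  have h2 := bas.sum_repr (L (bv j))
  rw [← h2, Fin.sum_univ_four, bas_apply, bas_apply, bas_apply, bas_apply]
  have h3 : ∀ i, bas.repr (L (bv j)) i = mt L i j := by
    intro i
    rw [mt, LinearMap.toMatrix_apply, bas_apply]
    rfl
  rw [h3, h3, h3, h3]

theorem det4 (m : Matrix (Fin 4) (Fin 4) ℝ) : m.det =
    m 0 0 * (m 1 1 * (m 2 2 * m 3 3 - m 2 3 * m 3 2) - m 1 2 * (m 2 1 * m 3 3 - m 2 3 * m 3 1) +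
      m 1 3 * (m 2 1 * m 3 2 - m 2 2 * m 3 1)) -
    m 0 1 * (m 1 0 * (m 2 2 * m 3 3 - m 2 3 * m 3 2) - m 1 2 * (m 2 0 * m 3 3 - m 2 3 * m 3 0) +
      m 1 3 * (m 2 0 * m 3 2 - m 2 2 * m 3 0)) +
    m 0 2 * (m 1 0 * (m 2 1 * m 3 3 - m 2 3 * m 3 1) - m 1 1 * (m 2 0 * m 3 3 - m 2 3 * m 3 0) +
      m 1 3 * (m 2 0 * m 3 1 - m 2 1 * m 3 0)) -
    m 0 3 * (m 1 0 * (m 2 1 * m 3 2 - m 2 2 * m 3 1) - m 1 1 * (m 2 0 * m 3 2 - m 2 2 * m 3 0) +
      m 1 2 * (m 2 0 * m 3 1 - m 2 1 * m 3 0)) := by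
  rw [Matrix.det_succ_row_zero]
  simp only [Fin.sum_univ_four, Matrix.det_fin_three, Matrix.submatrix_apply]
  simp [Fin.succAbove]
  ring

end W4

open W4

/-- Change of variables. -/
theorem w4_comp {B C : Bil 2} (hB : Alt B) (hC : Alt C) (L : E 2 →L[ℝ] E 2) :
    w4 (B.bilinearComp L L) (C.bilinearComp L L) = (L.det : ℂ) * w4 B C := by
  simp only [w4, ContinuousLinearMap.bilinearComp_apply]
  rw [det_mt, det4]
  simp only [L_bv, expandAlt hB, expandAlt hC]
  generalize mt L = m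
  generalize B (bv 0) (bv 1) = b01
  generalize B (bv 0) (bv 2) = b02
  generalize B (bv 0) (bv 3) = b03
  generalize B (bv 1) (bv 2) = b12
  generalize B (bv 1) (bv 3) = b13
  generalize B (bv 2) (bv 3) = b23
  generalize C (bv 0) (bv 1) = c01
  generalize C (bv 0) (bv 2) = c02
  generalize C (bv 0) (bv 3) = c03
  generalize C (bv 1) (bv 2) = c12
  generalize C (bv 1) (bv 3) = c13
  generalize C (bv 2) (bv 3) = c23
  push_cast
  ring

/-- The real determinant of a complex linear isomorphism is positive. -/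
theorem det_pos_of_complex {L : E 2 →L[ℝ] E 2} (hL : ∀ u, L (Complex.I • u) = Complex.I • L u)
    (hi : Function.Injective L) : 0 < L.det := by
  have h1 : L (bv 1) = Complex.I • L (bv 0) := by rw [bv1, hL]
  have h3 : L (bv 3) = Complex.I • L (bv 2) := by rw [bv3, hL]
  rw [L_bv L 1, L_bv L 0, I_comb] at h1
  rw [L_bv L 3, L_bv L 2, I_comb] at h3
  obtain ⟨e0, e1, e2, e3⟩ := coord h1
  obtain ⟨f0, f1, f2, f3⟩ := coord h3
  have hne : L.det ≠ 0 := by
    intro h0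
    have h5 := LinearMap.bot_lt_ker_of_det_eq_zero (f := (L : E 2 →ₗ[ℝ] E 2)) h0
    have h6 : LinearMap.ker (L : E 2 →ₗ[ℝ] E 2) = ⊥ := LinearMap.ker_eq_bot.mpr hi
    rw [h6] at h5
    exact lt_irrefl _ h5
  have hd : L.det = (mt L 0 0 * mt L 2 2 - mt L 1 0 * mt L 3 2 - mt L 0 2 * mt L 2 0 +
      mt L 1 2 * mt L 3 0) ^ 2 + (mt L 0 0 * mt L 3 2 + mt L 1 0 * mt L 2 2 -
      mt L 0 2 * mt L 3 0 - mt L 1 2 * mt L 2 0) ^ 2 := by
    rw [det_mt, det4, e0, e1, e2, e3, f0, f1, f2, f3]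
    ring
  have hnn : 0 ≤ L.det := by
    rw [hd]
    positivity
  exact lt_of_le_of_ne hnn (Ne.symm hne)

/-- Three covectors of type (1,0) have product zero. -/
theorem w4_three {a b c : Cov 2} (d : Cov 2) (ha : T10 a) (hb : T10 b) (hc : T10 c) :
    w4 (wd a b) (wd c d) = 0 := by
  simp only [w4, wd_apply, T10_1 ha, T10_1 hb, T10_1 hc, T10_3 ha, T10_3 hb, T10_3 hc]
  ring

theorem w4_three' {a b c : Cov 2} (d : Cov 2) (ha : T10 a) (hb : T10 b) (hc : T10 c) :
    w4 (wd (cv a) (cv b)) (wd (cv c) d) = 0 := by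
  simp only [w4, wd_apply, cv_apply, T10_1 ha, T10_1 hb, T10_1 hc, T10_3 ha, T10_3 hb, T10_3 hc,
    map_mul, Complex.conj_I]
  ring

/-- (2,0) against (1,1). -/
theorem w4_T10_T11 {a b : Cov 2} {B : Bil 2} (ha : T10 a) (hb : T10 b) (hB : Alt B)
    (hB' : T11 B) : w4 (wd a b) B = 0 := by
  simp only [w4, wd_apply, T10_1 ha, T10_1 hb, T10_3 ha, T10_3 hb, T11_13 hB', T11_03 hB']
  linear_combination ((a (bv 2) * b (bv 0) - a (bv 0) * b (bv 2)) * B (bv 0) (bv 2)) *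
    Complex.I_mul_I

theorem w4_T01_T11 {a b : Cov 2} {B : Bil 2} (ha : T10 a) (hb : T10 b) (hB : Alt B)
    (hB' : T11 B) : w4 (wd (cv a) (cv b)) B = 0 := by
  simp only [w4, wd_apply, cv_apply, T10_1 ha, T10_1 hb, T10_3 ha, T10_3 hb, map_mul,
    Complex.conj_I, T11_13 hB', T11_03 hB']
  linear_combination (((starRingEnd ℂ) (a (bv 2)) * (starRingEnd ℂ) (b (bv 0)) -
    (starRingEnd ℂ) (a (bv 0)) * (starRingEnd ℂ) (b (bv 2))) * B (bv 0) (bv 2)) *
    Complex.I_mul_I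

namespace W4

/-- The kernel vector of a (1,0)-covector. -/
def kv (a : Cov 2) : E 2 := (a (bv 2)).re • bv 0 + (a (bv 2)).im • bv 1 +
  (-(a (bv 0)).re) • bv 2 + (-(a (bv 0)).im) • bv 3

theorem energy_eq {a : Cov 2} {B : Bil 2} (ha : T10 a) (hB : Alt B) (hB' : T11 B) :
    w4 (Complex.I • wd a (cv a)) B = 2 * B (kv a) (Complex.I • kv a) := by
  rw [kv, I_comb, expandAlt hB]
  simp only [w4, smul_apply, smul_eq_mul, wd_apply, cv_apply, T10_1 ha, T10_3 ha, map_mul,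
    Complex.conj_I, T11_13 hB', T11_03 hB']
  have h0 := Complex.re_add_im (a (bv 0))
  have h2 := Complex.re_add_im (a (bv 2))
  have c0 : (starRingEnd ℂ) (a (bv 0)) = (a (bv 0)).re - (a (bv 0)).im * Complex.I := by
    apply Complex.ext <;> simp
  have c2 : (starRingEnd ℂ) (a (bv 2)) = (a (bv 2)).re - (a (bv 2)).im * Complex.I := by
    apply Complex.ext <;> simp
  rw [c0, c2]
  generalize (a (bv 0)).re = x0 at *
  generalize (a (bv 0)).im = x1 at *
  generalize (a (bv 2)).re = x2 at *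
  generalize (a (bv 2)).im = x3 at *
  rw [← h0, ← h2]
  push_cast
  ring_nf
  simp only [Complex.I_sq, Complex.I_pow_four]
  ring

theorem kv_zero {a : Cov 2} (ha : T10 a) (h : kv a = 0) : a = 0 := by
  have h1 : kv a = (0 : ℝ) • bv 0 + (0 : ℝ) • bv 1 + (0 : ℝ) • bv 2 + (0 : ℝ) • bv 3 := by
    rw [h]
    simp
  rw [kv] at h1
  obtain ⟨e0, e1, e2, e3⟩ := coord h1
  refine T10_ext ha (fun u => by simp) ?_ ?_
  · exact Complex.ext (by simpa using e2) (by simpa using e3)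
  · exact Complex.ext (by simpa using e0) (by simpa using e1)

theorem T20 {B : Bil 2} (hB : Alt B) (hI : ∀ u v, B (Complex.I • u) v = Complex.I * B u v) :
    B (bv 0) (bv 1) = 0 ∧ B (bv 2) (bv 3) = 0 ∧ B (bv 0) (bv 3) = Complex.I * B (bv 0) (bv 2) ∧
    B (bv 1) (bv 2) = Complex.I * B (bv 0) (bv 2) ∧ B (bv 1) (bv 3) = - B (bv 0) (bv 2) := by
  have h03 : B (bv 0) (bv 3) = Complex.I * B (bv 0) (bv 2) := by
    rw [hB, bv3, hI, hB (bv 2)]
    ring
  refine ⟨?_, ?_, h03, ?_, ?_⟩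
  · rw [hB, bv1, hI, alt_self hB, mul_zero, neg_zero]
  · rw [hB, bv3, hI, alt_self hB, mul_zero, neg_zero]
  · rw [bv1, hI]
  · rw [bv1, hI, h03, ← mul_assoc, Complex.I_mul_I, neg_one_mul]

theorem wd_T20 {a b : Cov 2} (ha : T10 a) (hb : T10 b) (u v : E 2) :
    wd a b (Complex.I • u) v = Complex.I * wd a b u v := by
  rw [wd_apply, wd_apply, ha, hb]
  ring

theorem wd_cv {a b : Cov 2} (u v : E 2) :
    wd (cv a) (cv b) u v = (starRingEnd ℂ) (wd a b u v) := by
  rw [wd_apply, wd_apply, cv_apply, cv_apply, cv_apply, cv_apply, map_sub, map_mul, map_mul]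

end W4

/-- `i a ∧ ā ∧ Ω ≥ 0`, with equality only for `a = 0`. -/
theorem w4_energy_nonneg {a : Cov 2} {B : Bil 2} (ha : T10 a) (hB : PKah B) :
    0 ≤ (w4 (Complex.I • wd a (cv a)) B).re ∧ (w4 (Complex.I • wd a (cv a)) B).im = 0 := by
  rw [energy_eq ha hB.alt hB.inv]
  constructor
  · by_cases h : kv a = 0
    · rw [h]
      simp
    · have := hB.pos _ h
      rw [Complex.mul_re]
      simp only [Complex.re_ofNat, Complex.im_ofNat, zero_mul, sub_zero]
      positivity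
  · rw [Complex.mul_im, hB.real]
    simp

theorem w4_energy_eq_zero {a : Cov 2} {B : Bil 2} (ha : T10 a) (hB : PKah B)
    (h : w4 (Complex.I • wd a (cv a)) B = 0) : a = 0 := by
  rw [energy_eq ha hB.alt hB.inv] at h
  by_contra h0
  have h1 : kv a ≠ 0 := fun h2 => h0 (kv_zero ha h2)
  have h3 := hB.pos _ h1
  have h4 : B (kv a) (Complex.I • kv a) = 0 := by simpa using h
  rw [h4] at h3
  simp at h3

/-- The same for general (2,0)-forms (sums of products of (1,0)-covectors). -/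
theorem w4_T20_nonneg {B C : Bil 2} (hB : Alt B)
    (hI : ∀ u v, B (Complex.I • u) v = Complex.I * B u v)
    (hC : ∀ u v, C u v = (starRingEnd ℂ) (B u v)) :
    0 ≤ (w4 B C).re ∧ (w4 B C).im = 0 ∧ (w4 B C = 0 → B = 0) := by
  obtain ⟨h01, h23, h03, h12, h13⟩ := T20 hB hI
  have h : w4 B C = 4 * (Complex.normSq (B (bv 0) (bv 2)) : ℂ) := by
    rw [Complex.normSq_eq_conj_mul_self]
    simp only [w4, hC, h01, h23, h03, h12, h13, map_mul, map_neg, Complex.conj_I, map_zero]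
    linear_combination (-2 * B (bv 0) (bv 2) * (starRingEnd ℂ) (B (bv 0) (bv 2))) *
      Complex.I_mul_I
  rw [h]
  refine ⟨?_, ?_, ?_⟩
  · rw [Complex.mul_re]
    simp only [Complex.re_ofNat, Complex.im_ofNat, zero_mul, sub_zero, Complex.ofReal_re]
    have := Complex.normSq_nonneg (B (bv 0) (bv 2))
    positivity
  · rw [Complex.mul_im]
    simp
  · intro h0
    have h02 : B (bv 0) (bv 2) = 0 := by
      have : (Complex.normSq (B (bv 0) (bv 2)) : ℂ) = 0 := by simpa using h0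
      exact Complex.normSq_eq_zero.mp (by exact_mod_cast this)
    have hz : ∀ i j, B (bv i) (bv j) = 0 := by
      rw [h02] at h03 h12 h13
      intro i j
      fin_cases i <;> fin_cases j <;> simp only [Fin.zero_eta, Fin.mk_one, Fin.reduceFinMk,
        Fin.isValue]
      · exact alt_self hB _
      · exact h01
      · exact h02
      · rw [h03, mul_zero]
      · rw [hB, h01, neg_zero]
      · exact alt_self hB _
      · rw [h12, mul_zero]
      · rw [h13, neg_zero]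
      · rw [hB, h02, neg_zero]
      · rw [hB, h12, mul_zero, neg_zero]
      · exact alt_self hB _
      · exact h23
      · rw [hB, h03, mul_zero, neg_zero]
      · rw [hB, h13, neg_zero, neg_zero]
      · rw [hB, h23, neg_zero]
      · exact alt_self hB _
    exact bil_ext fun i j => by rw [hz]; rfl

/-- `a ∧ b ∧ ā ∧ b̄ ≥ 0`, with equality only for `a ∧ b = 0`. -/
theorem w4_quad_nonneg {a b : Cov 2} (ha : T10 a) (hb : T10 b) :
    0 ≤ (w4 (wd a b) (wd (cv a) (cv b))).re ∧ (w4 (wd a b) (wd (cv a) (cv b))).im = 0 := by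
  obtain ⟨h1, h2, -⟩ := w4_T20_nonneg (alt_wd a b) (wd_T20 ha hb) wd_cv
  exact ⟨h1, h2⟩

theorem w4_quad_eq_zero {a b : Cov 2} (ha : T10 a) (hb : T10 b)
    (h : w4 (wd a b) (wd (cv a) (cv b)) = 0) : wd a b = 0 :=
  (w4_T20_nonneg (alt_wd a b) (wd_T20 ha hb) wd_cv).2.2 h

theorem w4_swap {a b c d : Cov 2} : w4 (wd a b) (wd c d) = - w4 (wd a c) (wd b d) := by
  simp only [w4, wd_apply]
  ring

theorem w4_pkah_pos {B : Bil 2} (hB : PKah B) : 0 < (w4 B B).re ∧ (w4 B B).im = 0 := by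
  have hr : ∀ u v, B u v = ((B u v).re : ℂ) := fun u v =>
    Complex.ext rfl (by rw [hB.real, Complex.ofReal_im])
  have h13 := T11_13 hB.inv
  have h03 := T11_03 hB.inv
  have hw : w4 B B = ((2 * ((B (bv 0) (bv 1)).re * (B (bv 2) (bv 3)).re -
      (B (bv 0) (bv 2)).re ^ 2 - (B (bv 1) (bv 2)).re ^ 2) : ℝ) : ℂ) := by
    simp only [w4, h13, h03]
    rw [hr (bv 0) (bv 1), hr (bv 2) (bv 3), hr (bv 0) (bv 2), hr (bv 1) (bv 2)]
    simp only [Complex.ofReal_re]
    push_cast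
    ring
  have hP : 0 < (B (bv 0) (bv 1)).re := by
    rw [bv1]
    refine hB.pos _ fun h => ?_
    have := congrFun h 0
    simp [bv] at this
  obtain ⟨P, hPd⟩ : ∃ P, P = (B (bv 0) (bv 1)).re := ⟨_, rfl⟩
  obtain ⟨s, hs⟩ : ∃ s, s = (B (bv 1) (bv 2)).re := ⟨_, rfl⟩
  obtain ⟨t, ht⟩ : ∃ t, t = (B (bv 0) (bv 2)).re := ⟨_, rfl⟩
  obtain ⟨Q, hQ⟩ : ∃ Q, Q = (B (bv 2) (bv 3)).re := ⟨_, rfl⟩
  have hp := hB.pos (s • bv 0 + (-t) • bv 1 + P • bv 2 + (0 : ℝ) • bv 3) (by
    intro h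
    have h1 : s • bv 0 + (-t) • bv 1 + P • bv 2 + (0 : ℝ) • bv 3 =
        (0 : ℝ) • bv 0 + (0 : ℝ) • bv 1 + (0 : ℝ) • bv 2 + (0 : ℝ) • bv 3 := by
      rw [h]
      simp
    have := (coord h1).2.2.1
    rw [hPd] at this
    exact hP.ne' this)
  rw [I_comb, expandAlt hB.alt, h13, h03] at hp
  rw [hr (bv 0) (bv 1), hr (bv 2) (bv 3), hr (bv 0) (bv 2), hr (bv 1) (bv 2)] at hp
  rw [← hPd, ← hs, ← ht, ← hQ] at hp
  rw [hw, ← hPd, ← hs, ← ht, ← hQ]
  rw [← hPd] at hP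
  refine ⟨?_, Complex.ofReal_im _⟩
  rw [Complex.ofReal_re]
  have h5 : 0 < P * (P * Q - t ^ 2 - s ^ 2) := by
    have h6 : (((s * s - -t * - -t) * P + (s * -0 - P * - -t) * t + (s * P - 0 * - -t) * -s +
        (-t * -0 - P * s) * s + (-t * P - 0 * s) * t + (P * P - 0 * -0) * Q : ℝ) : ℂ).re =
        P * (P * Q - t ^ 2 - s ^ 2) := by
      rw [Complex.ofReal_re]
      ring
    rw [← h6]
    push_cast
    convert hp using 2
    push_cast
    ring
  have h7 := (mul_pos_iff_of_pos_left hP).mp h5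
  linarith

/-- Two (1,0)-covectors with product zero are proportional. -/
theorem wd_eq_zero_iff {a b : Cov 2} (ha : T10 a) (hb : T10 b) (ha0 : a ≠ 0)
    (h : wd a b = 0) : ∃ s : ℂ, b = s • a := by
  have h02 : a (bv 0) * b (bv 2) - a (bv 2) * b (bv 0) = 0 := by
    rw [← wd_apply, h]
    rfl
  have hs : ∀ s : ℂ, T10 (s • a) := by
    intro s u
    rw [smul_apply, smul_apply, ha, smul_eq_mul, smul_eq_mul]
    ring
  by_cases h0 : a (bv 0) = 0
  · have h2 : a (bv 2) ≠ 0 := by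
      intro h2
      exact ha0 (T10_ext ha (fun u => by simp) h0 h2)
    refine ⟨b (bv 2) / a (bv 2), T10_ext hb (hs _) ?_ ?_⟩
    · rw [smul_apply, smul_eq_mul, h0, mul_zero]
      rw [h0, zero_mul, zero_sub, neg_eq_zero] at h02
      exact (mul_eq_zero.mp h02).resolve_left h2
    · rw [smul_apply, smul_eq_mul]
      field_simp
  · refine ⟨b (bv 0) / a (bv 0), T10_ext hb (hs _) ?_ ?_⟩
    · rw [smul_apply, smul_eq_mul]
      field_simp
    · rw [smul_apply, smul_eq_mul]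
      field_simp
      linear_combination h02

end Pool.Agent.K708
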