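import Pool.Agent.Lib.K708.DGood
import Pool.Agent.Lib.K708.VolI
import Pool.Agent.Lib.K708.W4
import Pool.Agent.Lib.K708.FcHol

/-! # K708: from the holomorphic data to `PD` (row DPD) -/

set_option autoImplicit false

open scoped Manifold ContDiff Topology
open Set Filter

noncomputable section

namespace Pool.Agent.K708

namespace DPD

/-- A complex linear real functional is complex differentiable. -/
theorem diff_of_T10 {n : ℕ} {h : E n → ℂ} {z : E n} (hd : DifferentiableAt ℝ h z)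
    (hI : ∀ u, fderiv ℝ h z (Complex.I • u) = Complex.I * fderiv ℝ h z u) :
    DifferentiableAt ℂ h z := by
  refine (differentiableAt_iff_restrictScalars ℝ hd).2 ?_
  refine ⟨⟨⟨⟨fderiv ℝ h z, fun u v => map_add _ u v⟩, fun c u => ?_⟩, ?_⟩, rfl⟩
  · exact FcHol.map_smul_of_I (fderiv ℝ h z) hI c u
  · exact (fderiv ℝ h z).continuous

/-- A smooth function with differential of type (1,0) on a compact connected surface is constant. -/
theorem d0_eq_zero {X : CMfd 2} (hX : CptConn X) {f : X → ℂ} (hf : S0 2 f)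
    (hI : ∀ x u, d0 2 f x (Complex.I • u) = Complex.I * d0 2 f x u) : d0 2 f = 0 := by
  have := hX.cpt
  have := hX.conn
  have hm : MDifferentiable 𝓘(ℂ, E 2) 𝓘(ℂ, ℂ) f := by
    intro x
    have hφ := chartAt_mem_CA (n := 2) x
    have hφ' := chartAt_mem_RA (n := 2) x
    have hz := (chartAt (E 2) x).map_source (mem_chart_source (E 2) x)
    have h1 := S0.contDiffAt_loc hf hφ' hz
    have h2 : DifferentiableAt ℂ (f ∘ (chartAt (E 2) x).symm) (chartAt (E 2) x x) := by
      refine diff_of_T10 (h1.differentiableAt (by simp)) fun u => ?_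
      rw [← loc1_d0 hφ' hz ((hf _).mdifferentiableAt (by simp))]
      exact loc1_T10 hI hφ hz u
    rw [mdifferentiableAt_iff]
    refine ⟨(hf x).continuousAt, ?_⟩
    simp only [writtenInExtChartAt, extChartAt, mfld_simps, differentiableWithinAt_univ]
    exact h2
  obtain ⟨v, hv⟩ := hm.exists_eq_const_of_compactSpace
  rw [hv]
  funext x
  exact mfderiv_const

theorem wedge_wd {X : CMfd 2} (a b : F1 2 X) (x : X) : wedge a b x = wd (a x) (b x) := rfl

theorem quad_nonneg {X : CMfd 2} {a b : F1 2 X} (ha : H1 a) (hb : H1 b) (x : X) :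
    0 ≤ (w4 (wedge a b x) (wedge (cj a) (cj b) x)).re ∧
      (w4 (wedge a b x) (wedge (cj a) (cj b) x)).im = 0 :=
  w4_quad_nonneg (ha.2 x) (hb.2 x)

theorem int_ne {X : CMfd 2} (hX : CptConn X) {Ω : F2 2 X} (hΩ : Kah Ω) {a b : F1 2 X}
    (ha : H1 a) (hb : H1 b) (hab : wedge a b ≠ 0) :
    Int4 X Ω (wedge a (cj a)) (wedge b (cj b)) ≠ 0 := by
  have h1 : Int4 X Ω (wedge a (cj a)) (wedge b (cj b)) =
      - Int4 X Ω (wedge a b) (wedge (cj a) (cj b)) := by
    unfold Int4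
    rw [← MeasureTheory.integral_neg]
    congr 1
    funext x
    have h2 : w4 (wedge a (cj a) x) (wedge b (cj b) x) =
        - w4 (wedge a b x) (wedge (cj a) (cj b) x) := w4_swap
    rw [h2, neg_div]
  rw [h1]
  intro h0
  have h2 : Int4 X Ω (wedge a b) (wedge (cj a) (cj b)) = 0 := neg_eq_zero.1 h0
  have h3 := Int4_eq_zero hX.cpt hΩ (S2.wedge ha.1.1 hb.1.1) (S2.wedge ha.1.1.cj hb.1.1.cj)
    (quad_nonneg ha hb) h2
  apply hab
  funext x
  exact w4_quad_eq_zero (ha.2 x) (hb.2 x) (h3 x)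

theorem energy_pos {X : CMfd 2} (hX : CptConn X) {Ω : F2 2 X} (hΩ : Kah Ω) {a : F1 2 X}
    (ha : H1 a) (h0 : a ≠ 0) :
    ∃ c : ℝ, 0 < c ∧ Int4 X Ω (Complex.I • wedge a (cj a)) Ω = c := by
  have hs : S2 (Complex.I • wedge a (cj a)) := S2.smul _ (S2.wedge ha.1.1 ha.1.1.cj)
  have hn : ∀ x, 0 ≤ (w4 ((Complex.I • wedge a (cj a)) x) (Ω x)).re ∧
      (w4 ((Complex.I • wedge a (cj a)) x) (Ω x)).im = 0 := fun x =>
    w4_energy_nonneg (ha.2 x) (hΩ.pkah x)
  obtain ⟨h1, h2⟩ := Int4_nonneg hX.cpt hΩ hs hΩ.s2 hn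
  refine ⟨(Int4 X Ω (Complex.I • wedge a (cj a)) Ω).re, lt_of_le_of_ne h1 ?_, ?_⟩
  · intro h3
    have h4 : Int4 X Ω (Complex.I • wedge a (cj a)) Ω = 0 := Complex.ext h3.symm h2
    have h5 := Int4_eq_zero hX.cpt hΩ hs hΩ.s2 hn h4
    apply h0
    funext x
    exact w4_energy_eq_zero (ha.2 x) (hΩ.pkah x) (h5 x)
  · exact Complex.ext rfl (by rw [h2, Complex.ofReal_im])

end DPD

open DPD

/-- A compact connected surface with good data has the data `PD`. (`w4_quad_nonneg`,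
`w4_swap`, `w4_energy_nonneg`, `Int4_nonneg`, `Int4_eq_zero`; `γ = l e + df` with `γ - l e` of type
(1,0) forces `f` holomorphic, so constant.) -/
theorem Good.pd {X : CMfd 2} (hX : CptConn X) (h : Good X) {Ω : F2 2 X} (hΩ : Kah Ω) :
    ∃ c : ℝ, 0 < c ∧ PD X Ω c := by
  obtain ⟨F, a, hG⟩ := h
  have he : ∀ j, H1 (eF a j) := by
    intro j
    fin_cases j
    · exact hG.h1 0
    · exact hG.h1 1
    · exact H1.add (hG.h1 0) (hG.h1 1)
    · exact H1.add (hG.h1 0) (H1.smul _ (hG.h1 1))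
  have ha0 : a 0 ≠ 0 := by
    intro h0
    apply hG.nz
    rw [h0, wedge_zero_left]
  obtain ⟨c, hc, hc'⟩ := energy_pos hX hΩ (hG.h1 0) ha0
  refine ⟨c, hc, eF a, fun j => a (gi j), F, fun j => ⟨(he j).1, (hG.h1 _).1, hG.wed j, ?_⟩,
    hG.tf, rfl, rfl, int_ne hX hΩ (hG.h1 0) (hG.h1 1) hG.nz, hc'⟩
  intro l f hf heq
  replace heq : a (gi j) = l • eF a j + d0 2 f := heq
  have h1 : d0 2 f = a (gi j) - l • eF a j := by
    rw [heq]
    exact (add_sub_cancel_left _ _).symm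
  have h2 : ∀ x u, d0 2 f x (Complex.I • u) = Complex.I * d0 2 f x u := by
    intro x u
    rw [h1]
    have e1 := (hG.h1 (gi j)).2 x u
    have e2 := (he j).2 x u
    show a (gi j) x (Complex.I • u) - l * eF a j x (Complex.I • u) =
      Complex.I * (a (gi j) x u - l * eF a j x u)
    rw [e1, e2]
    ring
  have h3 := d0_eq_zero hX hf h2
  apply hG.ind j l
  have h4 := heq
  rw [h3] at h4
  exact h4.trans (add_zero _)

end Pool.Agent.K708
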