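import Pool.Agent.Lib.K708.PD

/-! # K708: the tori `ℂⁿ / ℤ[i]ⁿ` as complex manifolds -/

set_option autoImplicit false

open scoped Manifold ContDiff Topology
open Set

noncomputable section

namespace Pool.Agent.K708

namespace DTor

/-- The lattice. -/
def Lam (n : ℕ) : AddSubgroup (E n) where
  carrier := {z | ∀ i, z i ∈ Gau}
  zero_mem' := fun _ => Gau.zero_mem
  add_mem' := fun ha hb i => Gau.add_mem (ha i) (hb i)
  neg_mem' := fun ha i => Gau.neg_mem (ha i)

theorem mem_Lam {n : ℕ} {z : E n} : z ∈ Lam n ↔ ∀ i, z i ∈ Gau := Iff.rfl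

theorem mem_Gau_iff {z : ℂ} : z ∈ Gau ↔ z.re ∈ range ((↑) : ℤ → ℝ) ∧
    z.im ∈ range ((↑) : ℤ → ℝ) := by
  constructor
  · rintro ⟨a, b, rfl⟩
    exact ⟨⟨a, by simp⟩, ⟨b, by simp⟩⟩
  · rintro ⟨⟨a, ha⟩, ⟨b, hb⟩⟩
    refine ⟨a, b, ?_⟩
    apply Complex.ext
    · simp [ha]
    · simp [hb]

theorem eq_zero_of_mem_Gau {z : ℂ} (h : z ∈ Gau) (h1 : ‖z‖ < 1) : z = 0 := by
  obtain ⟨⟨a, ha⟩, ⟨b, hb⟩⟩ := mem_Gau_iff.1 h
  have h2 : |z.re| < 1 := (Complex.abs_re_le_norm z).trans_lt h1
  have h3 : |z.im| < 1 := (Complex.abs_im_le_norm z).trans_lt h1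
  rw [← ha] at h2
  rw [← hb] at h3
  have h4 : a = 0 := by
    have : |a| < 1 := by exact_mod_cast h2
    exact Int.abs_lt_one_iff.1 this
  have h5 : b = 0 := by
    have : |b| < 1 := by exact_mod_cast h3
    exact Int.abs_lt_one_iff.1 this
  apply Complex.ext
  · rw [← ha, h4]
    simp
  · rw [← hb, h5]
    simp

theorem isClosed_Gau : IsClosed (Gau : Set ℂ) := by
  have h : (Gau : Set ℂ) = Complex.re ⁻¹' (range ((↑) : ℤ → ℝ)) ∩
      Complex.im ⁻¹' (range ((↑) : ℤ → ℝ)) := by
    ext z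
    exact mem_Gau_iff
  rw [h]
  exact (Int.isClosedEmbedding_coe_real.isClosed_range.preimage Complex.continuous_re).inter
    (Int.isClosedEmbedding_coe_real.isClosed_range.preimage Complex.continuous_im)

theorem isClosed_Lam (n : ℕ) : IsClosed (Lam n : Set (E n)) := by
  have h : (Lam n : Set (E n)) = ⋂ i, (fun z : E n => z i) ⁻¹' (Gau : Set ℂ) := by
    ext z
    simp [mem_Lam]
  rw [h]
  exact isClosed_iInter fun i => isClosed_Gau.preimage (continuous_apply i)

/-- The torus. -/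
abbrev TT (n : ℕ) := E n ⧸ Lam n

/-- The quotient map. -/
def q (n : ℕ) (z : E n) : TT n := QuotientAddGroup.mk z

theorem q_eq_iff {n : ℕ} {x y : E n} : q n x = q n y ↔ ∀ i, x i - y i ∈ Gau := by
  unfold q
  rw [QuotientAddGroup.eq]
  constructor
  · intro h i
    have h1 := Gau.neg_mem (h i)
    have h2 : -((-x + y) i) = x i - y i := by
      show -(-x i + y i) = _
      ring
    rwa [h2] at h1
  · intro h i
    have := Gau.neg_mem (h i)
    have h2 : (-x + y) i = -(x i - y i) := by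
      show -x i + y i = _
      ring
    rw [h2]
    exact this

theorem q_continuous (n : ℕ) : Continuous (q n) := continuous_quotient_mk'

theorem q_surj (n : ℕ) : Function.Surjective (q n) := QuotientAddGroup.mk_surjective

theorem q_open (n : ℕ) : IsOpenMap (q n) := QuotientAddGroup.isOpenMap_coe

instance instT2 (n : ℕ) : T2Space (TT n) := by
  have : IsClosed (Lam n : Set (E n)) := isClosed_Lam n
  infer_instance

instance instSC (n : ℕ) : SecondCountableTopology (TT n) :=
  (QuotientAddGroup.isQuotientMap_mk (G := E n) (N := Lam n)).secondCountableTopology (q_open n)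

theorem exists_red (n : ℕ) (z : E n) : ∃ w : E n, q n w = q n z ∧
    ∀ i, w i ∈ Icc (0 : ℝ) 1 ×ℂ Icc (0 : ℝ) 1 := by
  refine ⟨fun i => ⟨Int.fract (z i).re, Int.fract (z i).im⟩, ?_, fun i => ?_⟩
  · rw [q_eq_iff]
    intro i
    rw [mem_Gau_iff]
    constructor
    · refine ⟨-⌊(z i).re⌋, ?_⟩
      simp only [Complex.sub_re, Int.cast_neg]
      have := Int.fract_add_floor (z i).re
      linarith
    · refine ⟨-⌊(z i).im⌋, ?_⟩
      simp only [Complex.sub_im, Int.cast_neg]
      have := Int.fract_add_floor (z i).im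
      linarith
  · rw [Complex.mem_reProdIm]
    exact ⟨⟨Int.fract_nonneg _, (Int.fract_lt_one _).le⟩,
      ⟨Int.fract_nonneg _, (Int.fract_lt_one _).le⟩⟩

instance instCpt (n : ℕ) : CompactSpace (TT n) := by
  have h1 : IsCompact (Set.pi univ fun _ : Fin n => Icc (0 : ℝ) 1 ×ℂ Icc (0 : ℝ) 1) :=
    isCompact_univ_pi fun i => isCompact_Icc.reProdIm isCompact_Icc
  have h2 := h1.image (q_continuous n)
  have h3 : q n '' (Set.pi univ fun _ : Fin n => Icc (0 : ℝ) 1 ×ℂ Icc (0 : ℝ) 1) = univ := by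
    rw [eq_univ_iff_forall]
    intro t
    obtain ⟨z, rfl⟩ := q_surj n t
    obtain ⟨w, hw1, hw2⟩ := exists_red n z
    exact ⟨w, fun i _ => hw2 i, hw1⟩
  rw [h3] at h2
  exact ⟨h2⟩

theorem q_injOn (n : ℕ) (z₀ : E n) : InjOn (q n) (Metric.ball z₀ (1 / 2)) := by
  intro x hx y hy h
  rw [q_eq_iff] at h
  have h1 : dist x y < 1 := by
    have := dist_triangle_right x y z₀
    rw [Metric.mem_ball] at hx hy
    linarith
  funext i
  have h2 : ‖x i - y i‖ < 1 := by
    rw [← dist_eq_norm]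
    exact (dist_le_pi_dist x y i).trans_lt h1
  exact sub_eq_zero.1 (eq_zero_of_mem_Gau (h i) h2)

/-- The quotient map near `z₀` as a local homeomorphism. -/
def Te (n : ℕ) (z₀ : E n) : OpenPartialHomeomorph (E n) (TT n) :=
  OpenPartialHomeomorph.ofContinuousOpen ((q_injOn n z₀).toPartialEquiv (q n) _)
    (q_continuous n).continuousOn (q_open n) Metric.isOpen_ball

theorem Te_apply (n : ℕ) (z₀ z : E n) : Te n z₀ z = q n z := rfl

theorem mem_Te_source (n : ℕ) (z₀ : E n) : z₀ ∈ (Te n z₀).source :=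
  Metric.mem_ball_self (by norm_num)

/-- Two branches of the inverse differ by a translation. -/
theorem Te_trans {n : ℕ} {z₁ z : E n} (hz1 : q n z ∈ (Te n z₁).target) :
    ∀ᶠ z' in 𝓝 z, (Te n z₁).symm (q n z') = z' + ((Te n z₁).symm (q n z) - z) := by
  set w := (Te n z₁).symm (q n z) with hw
  have hws : w ∈ (Te n z₁).source := (Te n z₁).map_target hz1
  have hqw : q n w = q n z := (Te n z₁).right_inv hz1
  have h1 : ∀ᶠ z' in 𝓝 z, z' + (w - z) ∈ (Te n z₁).source := by
    have hc : ContinuousAt (fun z' : E n => z' + (w - z)) z := by fun_prop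
    refine hc.eventually_mem ((Te n z₁).open_source.mem_nhds ?_)
    rw [add_sub_cancel]
    exact hws
  filter_upwards [h1] with z' hz'
  have h2 : q n (z' + (w - z)) = q n z' := by
    rw [q_eq_iff] at hqw ⊢
    intro i
    have : (z' + (w - z)) i - z' i = w i - z i := by
      show z' i + (w i - z i) - z' i = _
      ring
    rw [this]
    exact hqw i
  have h3 := (Te n z₁).left_inv hz'
  rw [Te_apply, h2] at h3
  exact h3

instance instCh (n : ℕ) : ChartedSpace (E n) (TT n) where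
  atlas := range fun z₀ => (Te n z₀).symm
  chartAt t := (Te n (Function.surjInv (q_surj n) t)).symm
  mem_chart_source t := by
    have h := (Te n (Function.surjInv (q_surj n) t)).map_source (mem_Te_source n _)
    rw [Te_apply, Function.surjInv_eq (q_surj n) t] at h
    exact h
  chart_mem_atlas t := ⟨_, rfl⟩

theorem chartAt_eq (n : ℕ) (t : TT n) :
    chartAt (E n) t = (Te n (Function.surjInv (q_surj n) t)).symm := rfl

instance instMfd (n : ℕ) : IsManifold 𝓘(ℂ, E n) ω (TT n) := by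
  refine isManifold_of_contDiffOn 𝓘(ℂ, E n) ω (TT n) ?_
  rintro _ _ ⟨z₀, rfl⟩ ⟨z₁, rfl⟩
  suffices h : ContDiffOn ℂ ω (fun z => (Te n z₁).symm (q n z))
      {z | q n z ∈ (Te n z₁).target} by
    have h2 : ContDiffOn ℂ ω ((Te n z₀).symm.symm ≫ₕ (Te n z₁).symm)
        ((Te n z₀).symm.symm ≫ₕ (Te n z₁).symm).source := by
      refine h.mono fun z hz => ?_
      rw [OpenPartialHomeomorph.trans_source] at hz
      exact hz.2
    simpa using h2
  intro z hz
  refine ContDiffAt.contDiffWithinAt ?_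
  refine ContDiffAt.congr_of_eventuallyEq ?_ (Te_trans hz)
  exact contDiffAt_id.add contDiffAt_const

/-- The torus as a complex manifold. -/
def TC (n : ℕ) : CMfd n := { carrier := TT n }

theorem symm_mem (n : ℕ) (z₀ : E n) :
    (Te n z₀).symm ∈ IsManifold.maximalAtlas 𝓘(ℂ, E n) ω (TT n) :=
  IsManifold.subset_maximalAtlas ⟨z₀, rfl⟩

theorem q_holo (n : ℕ) : Holo n n (M := E n) (N := TC n) (q n) := by
  have h : ContMDiff 𝓘(ℂ, E n) 𝓘(ℂ, E n) ω (q n : E n → TT n) := by
    intro z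
    have h1 : ContMDiffOn 𝓘(ℂ, E n) 𝓘(ℂ, E n) ω (Te n z).symm.symm (Te n z).symm.target :=
      contMDiffOn_symm_of_mem_maximalAtlas (symm_mem n z)
    have h2 : (Te n z).symm.target = Metric.ball z (1 / 2) := rfl
    rw [h2] at h1
    exact h1.contMDiffAt (Metric.ball_mem_nhds z (by norm_num))
  exact h

theorem symm_holo (n : ℕ) (z₀ : E n) : HoloAt n n (M := TC n) (N := E n) (Te n z₀).symm (q n z₀) := by
  have h : ContMDiffAt 𝓘(ℂ, E n) 𝓘(ℂ, E n) ω ((Te n z₀).symm : TT n → E n) (q n z₀) := by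
    refine (contMDiffOn_of_mem_maximalAtlas (symm_mem n z₀)).contMDiffAt ?_
    exact (Te n z₀).open_target.mem_nhds ((Te n z₀).map_source (mem_Te_source n z₀))
  exact h

end DTor

/-- `T` with `q : ℂⁿ → T` is the torus `ℂⁿ / ℤ[i]ⁿ`. -/
structure IsTorus {n : ℕ} (T : CMfd n) (q : E n → T) : Prop where
  surj : Function.Surjective q
  eq_iff : ∀ x y, q x = q y ↔ ∀ i, x i - y i ∈ Gau
  holo : Holo n n q
  opn : IsOpenMap q
  /-- local holomorphic sections -/
  sec : ∀ x, ∃ σ : T → E n, HoloAt n n σ (q x) ∧ σ (q x) = x ∧ ∀ᶠ t in 𝓝 (q x), q (σ t) = t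
  cpt : CompactSpace T

theorem exists_torus (n : ℕ) : ∃ (T : CMfd n) (q : E n → T), IsTorus T q := by
  refine ⟨DTor.TC n, DTor.q n, DTor.q_surj n, fun x y => DTor.q_eq_iff, DTor.q_holo n,
    DTor.q_open n, fun x => ⟨(DTor.Te n x).symm, DTor.symm_holo n x, ?_, ?_⟩, DTor.instCpt n⟩
  · exact (DTor.Te n x).left_inv (DTor.mem_Te_source n x)
  · have h1 : (DTor.Te n x).target ∈ 𝓝 (DTor.q n x) :=
      (DTor.Te n x).open_target.mem_nhds ((DTor.Te n x).map_source (DTor.mem_Te_source n x))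
    have h2 : ∀ᶠ t : DTor.TT n in 𝓝 (DTor.q n x), DTor.q n ((DTor.Te n x).symm t) = t := by
      filter_upwards [h1] with t ht
      exact (DTor.Te n x).right_inv ht
    exact h2

namespace IsTorus

variable {n : ℕ} {T : CMfd n} {q : E n → T}

theorem continuous (h : IsTorus T q) : Continuous q := h.holo.continuous

/-- A local section is a local left inverse. -/
theorem sec_left (h : IsTorus T q) {x : E n} {σ : T → E n} (hσ : HoloAt n n σ (q x))
    (hx : σ (q x) = x) (hq : ∀ᶠ t in 𝓝 (q x), q (σ t) = t) : ∀ᶠ y in 𝓝 x, σ (q y) = y := by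
  have hc : ContinuousAt (fun y => σ (q y)) x :=
    ContinuousAt.comp (g := σ) (f := q) hσ.continuousAt h.continuous.continuousAt
  have h1 : ∀ᶠ y in 𝓝 x, q (σ (q y)) = q y := h.continuous.continuousAt.eventually hq
  have h2 : ∀ᶠ y in 𝓝 x, dist (σ (q y)) x < 1 / 2 := by
    have := hc.eventually_mem (Metric.ball_mem_nhds (σ (q x)) (by norm_num : (0 : ℝ) < 1 / 2))
    filter_upwards [this] with y hy
    rw [hx] at hy
    exact hy
  have h3 : ∀ᶠ y in 𝓝 x, dist y x < 1 / 2 := Metric.ball_mem_nhds x (by norm_num)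
  filter_upwards [h1, h2, h3] with y g1 g2 g3
  rw [h.eq_iff] at g1
  funext i
  have g4 : ‖σ (q y) i - y i‖ < 1 := by
    rw [← dist_eq_norm]
    refine (dist_le_pi_dist (σ (q y)) y i).trans_lt ?_
    have := dist_triangle_right (σ (q y)) y x
    linarith
  exact sub_eq_zero.1 (DTor.eq_zero_of_mem_Gau (g1 i) g4)

theorem conn (h : IsTorus T q) : ConnectedSpace T := h.surj.connectedSpace h.continuous

end IsTorus

end Pool.Agent.K708
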