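import Pool.Agent.Lib.K708.Cur
import Pool.Agent.Lib.K708.DTor

/-! # K708: the example, definition of the lifted surface in `ℂ⁶` -/

set_option autoImplicit false

open scoped Manifold ContDiff Topology
open Set

noncomputable section

namespace Pool.Agent.K708

open PeriodPair

/-- The Gaussian integers as a period pair. -/
def LG : PeriodPair where
  ω₁ := 1
  ω₂ := Complex.I
  indep := by
    rw [LinearIndependent.pair_iff]
    intro s t h
    have h1 := congrArg Complex.re h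
    have h2 := congrArg Complex.im h
    simp at h1 h2
    exact ⟨h1, h2⟩

theorem mem_LG {z : ℂ} : z ∈ LG.lattice ↔ z ∈ Gau := by
  rw [PeriodPair.mem_lattice]
  constructor
  · rintro ⟨m, n, h⟩
    exact ⟨m, n, by rw [← h]; simp [LG]⟩
  · rintro ⟨m, n, h⟩
    exact ⟨m, n, by rw [h]; simp [LG]⟩

/-- The parameters of the example. -/
structure Par where
  s : ℂ
  c₂ : ℂ
  c₃ : ℂ
  gen : Cur.Gen LG s
  noth : ∀ x y : ℂ,
    ¬ (x ∈ Cur.Ram LG s ∧ y ∈ Cur.Ram LG s ∧ x + y + c₂ ∈ Cur.Ram LG s) ∧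
    ¬ (x ∈ Cur.Ram LG s ∧ y ∈ Cur.Ram LG s ∧ x + Complex.I * y + c₃ ∈ Cur.Ram LG s) ∧
    ¬ (x ∈ Cur.Ram LG s ∧ x + y + c₂ ∈ Cur.Ram LG s ∧ x + Complex.I * y + c₃ ∈ Cur.Ram LG s) ∧
    ¬ (y ∈ Cur.Ram LG s ∧ x + y + c₂ ∈ Cur.Ram LG s ∧ x + Complex.I * y + c₃ ∈ Cur.Ram LG s)

theorem exists_par : Nonempty Par := by
  obtain ⟨s, hs⟩ := PFun.exists_s LG
  obtain ⟨c₂, c₃, h⟩ := Cur.exists_c (L := LG) (s := s) hs
  exact ⟨⟨s, c₂, c₃, hs, h⟩⟩

/-- The four affine forms `x, y, x + y + c₂, x + i y + c₃`. -/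
def Par.f (P : Par) (j : Fin 4) (x y : ℂ) : ℂ :=
  ![x, y, x + y + P.c₂, x + Complex.I * y + P.c₃] j

/-- Their linear parts. -/
def fl (j : Fin 4) (x y : ℂ) : ℂ := ![x, y, x + y, x + Complex.I * y] j

/-- The index of the coordinate `w_j`. -/
def wi (j : Fin 4) : Fin 6 := ⟨j.val + 2, by omega⟩

/-- The lift to `ℂ⁶` of the surface. -/
def XL (P : Par) : Set (E 6) := {p | ∀ j : Fin 4, PFun.Cur LG P.s (P.f j (p 0) (p 1)) (p (wi j))}

theorem fl_gau (j : Fin 4) {x y : ℂ} (hx : x ∈ Gau) (hy : y ∈ Gau) : fl j x y ∈ Gau := by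
  have hI : Complex.I * y ∈ Gau := by
    obtain ⟨a, b, rfl⟩ := hy
    refine ⟨-b, a, ?_⟩
    push_cast
    linear_combination (b : ℂ) * Complex.I_sq
  fin_cases j
  · exact hx
  · exact hy
  · exact add_mem hx hy
  · exact add_mem hx hI

theorem Par.f_add (P : Par) (j : Fin 4) (x y x' y' : ℂ) :
    P.f j (x + x') (y + y') = P.f j x y + fl j x' y' := by
  fin_cases j <;> simp [Par.f, fl] <;> ring

theorem XL_add (P : Par) {p l : E 6} (hl : ∀ i, l i ∈ Gau) : p + l ∈ XL P ↔ p ∈ XL P := by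
  refine forall_congr' fun j => ?_
  rw [Pi.add_apply, Pi.add_apply, P.f_add, Pi.add_apply]
  exact Cur.cur_add_iff (mem_LG.mpr (fl_gau j (hl 0) (hl 1))) (mem_LG.mpr (hl _))

theorem isClosed_XL (P : Par) : IsClosed (XL P) := by
  have : XL P = ⋂ j : Fin 4, {p | PFun.Cur LG P.s (P.f j (p 0) (p 1)) (p (wi j))} := by
    ext p
    simp [XL]
  rw [this]
  refine isClosed_iInter fun j => ?_
  have hc : Continuous (fun p : E 6 => (P.f j (p 0) (p 1), p (wi j))) := by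
    refine Continuous.prodMk ?_ (continuous_apply _)
    fin_cases j <;> simp [Par.f] <;> fun_prop
  exact (Cur.isClosed_cur (L := LG) (s := P.s)).preimage hc

/-- The image of `XL` in the torus is closed. -/
theorem isClosed_XS (P : Par) {T : CMfd 6} {q : E 6 → T} (hT : IsTorus T q) :
    IsClosed (q '' XL P) := by
  rw [← isOpen_compl_iff]
  have : (q '' XL P)ᶜ = q '' (XL P)ᶜ := by
    ext t
    constructor
    · intro ht
      obtain ⟨p, rfl⟩ := hT.surj t
      exact ⟨p, fun hp => ht ⟨p, hp, rfl⟩, rfl⟩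
    · rintro ⟨p, hp, rfl⟩ ⟨p', hp', h⟩
      refine hp ?_
      have h1 := (hT.eq_iff p' p).mp h
      have h2 : p' = p + (p' - p) := by abel
      rw [h2, XL_add P (l := p' - p) h1] at hp'
      exact hp'
  rw [this]
  exact hT.opn _ (isClosed_XL P).isOpen_compl

theorem mem_XS (P : Par) {T : CMfd 6} {q : E 6 → T} (hT : IsTorus T q) {p : E 6} :
    q p ∈ q '' XL P ↔ p ∈ XL P := by
  refine ⟨?_, fun h => ⟨p, h, rfl⟩⟩
  rintro ⟨p', hp', h⟩
  have h1 := (hT.eq_iff p' p).mp h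
  have h2 : p' = p + (p' - p) := by abel
  rw [h2, XL_add P (l := p' - p) h1] at hp'
  exact hp'

end Pool.Agent.K708
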