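import Pool.Agent.Lib.K708.PD

/-! # K708: regular zero sets are complex manifolds -/

set_option autoImplicit false

open scoped Manifold ContDiff Topology
open Set

noncomputable section

namespace Pool.Agent.K708

namespace RegZero

/-- A flattening chart of `Z` near `x`. -/
structure Flat {m : ℕ} (T : CMfd m) (k n : ℕ) (Z : Set T) (x : T) where
  Φ : OpenPartialHomeomorph T (E k × E n)
  mem : x ∈ Φ.source
  sm : ContMDiffOn 𝓘(ℂ, E m) 𝓘(ℂ, E k × E n) ω Φ Φ.source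
  sm' : ContMDiffOn 𝓘(ℂ, E k × E n) 𝓘(ℂ, E m) ω Φ.symm Φ.target
  zero : ∀ y ∈ Φ.source, (y ∈ Z ↔ (Φ y).1 = 0)

theorem finE (n : ℕ) : Module.finrank ℂ (E n) = n := by
  simp [E]

/-- A surjective linear map is the first component of an isomorphism. -/
theorem exists_split {m k n : ℕ} (hm : m = n + k) (A : E m →L[ℂ] E k)
    (hA : Function.Surjective A) : ∃ (P : E m →L[ℂ] E n) (e : E m ≃L[ℂ] E k × E n),
      ∀ v, e v = (A v, P v) := by
  have hr : Module.finrank ℂ (LinearMap.range (A : E m →ₗ[ℂ] E k)) = k := by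
    rw [LinearMap.range_eq_top.2 hA, finrank_top]
    exact finE k
  have hk : Module.finrank ℂ (LinearMap.ker (A : E m →ₗ[ℂ] E k)) = n := by
    have h := LinearMap.finrank_range_add_finrank_ker (A : E m →ₗ[ℂ] E k)
    rw [hr, finE m] at h
    omega
  have hk' : Module.finrank ℂ (LinearMap.ker (A : E m →ₗ[ℂ] E k)) = Module.finrank ℂ (E n) := by
    rw [hk, finE n]
  obtain ⟨q, hq⟩ := Submodule.exists_isCompl (LinearMap.ker (A : E m →ₗ[ℂ] E k))
  let e0 : LinearMap.ker (A : E m →ₗ[ℂ] E k) ≃ₗ[ℂ] E n := LinearEquiv.ofFinrankEq _ _ hk'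
  let P0 : E m →ₗ[ℂ] E n := e0.toLinearMap ∘ₗ Submodule.projectionOnto _ q hq
  let F : E m →ₗ[ℂ] E k × E n := (A : E m →ₗ[ℂ] E k).prod P0
  have hF : Function.Injective F := by
    rw [← LinearMap.ker_eq_bot, LinearMap.ker_eq_bot']
    intro v hv
    have h1 : A v = 0 := congrArg Prod.fst hv
    have h2 : e0 (Submodule.projectionOnto _ q hq v) = 0 := congrArg Prod.snd hv
    have h3 : Submodule.projectionOnto _ q hq v = 0 := by
      rwa [LinearEquiv.map_eq_zero_iff] at h2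
    have h4 := Submodule.projectionOnto_apply_left hq ⟨v, h1⟩
    rw [h3] at h4
    exact (congrArg Subtype.val h4).symm
  have hfr : Module.finrank ℂ (E m) = Module.finrank ℂ (E k × E n) := by
    rw [Module.finrank_prod, finE, finE, finE]
    omega
  have hb : Function.Bijective F :=
    ⟨hF, (LinearMap.injective_iff_surjective_of_finrank_eq_finrank hfr).1 hF⟩
  refine ⟨LinearMap.toContinuousLinearMap P0,
    (LinearEquiv.ofBijective F hb).toContinuousLinearEquiv, fun v => rfl⟩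

theorem exists_flat {m k n : ℕ} (hm : m = n + k) (T : CMfd m) (Z : Set T) {x : T}
    {g : T → E k} (hg : HoloAt m k g x) (hs : Function.Surjective (DC m k g x))
    (hz : ∀ᶠ y in 𝓝 x, (y ∈ Z ↔ g y = 0)) : Nonempty (Flat T k n Z x) := by
  obtain ⟨P, e, he⟩ := exists_split hm (DC m k g x) hs
  set φ := chartAt (E m) x with hφ
  -- the map in the chart
  have hg1 := hg
  unfold HoloAt at hg1
  rw [contMDiffAt_iff] at hg1
  have hg2 : ContDiffAt ℂ ω (g ∘ φ.symm) (φ x) := by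
    have := hg1.2
    rw [← contDiffWithinAt_univ]
    simpa [hφ] using this
  have hg3 : HasFDerivAt (g ∘ φ.symm) (DC m k g x) (φ x) := by
    have h1 : MDifferentiableAt 𝓘(ℂ, E m) 𝓘(ℂ, E k) g x := hg.mdifferentiableAt (by simp)
    have h2 := h1.hasMFDerivAt.2
    rw [← hasFDerivWithinAt_univ]
    simp only [writtenInExtChartAt, extChartAt, OpenPartialHomeomorph.extend,
      modelWithCornersSelf_partialEquiv, PartialEquiv.trans_refl,
      OpenPartialHomeomorph.toFun_eq_coe, OpenPartialHomeomorph.coe_toPartialEquiv_symm,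
      modelWithCornersSelf_coe, range_id, chartAt_self_eq] at h2
    exact h2
  let G : E m → E k × E n := fun z => ((g ∘ φ.symm) z, P z)
  have hG : ContDiffAt ℂ ω G (φ x) := hg2.prodMk P.contDiff.contDiffAt
  have hG' : HasFDerivAt G (e : E m →L[ℂ] E k × E n) (φ x) := by
    have h := hg3.prodMk P.hasFDerivAt (x := φ x)
    have h1 : (e : E m →L[ℂ] E k × E n) = (DC m k g x).prod P :=
      ContinuousLinearMap.ext fun v => he v
    rw [h1]
    exact h
  let Ψ0 := hG.toOpenPartialHomeomorph G hG' (by simp)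
  let Ψ := Ψ0.restrContDiff ℂ ω (by simp)
  have hx0 : φ x ∈ Ψ0.source := hG.mem_toOpenPartialHomeomorph_source hG' (by simp)
  have hxΨ : φ x ∈ Ψ.source := by
    refine ⟨hx0, hG, ?_⟩
    have h := hG.to_localInverse hG' (by simp)
    exact h
  obtain ⟨U, hU, hUo, hxU⟩ := mem_nhds_iff.1 hz
  let Φ := (φ.trans Ψ).restr U
  have hsrc : ∀ y ∈ Φ.source, y ∈ φ.source ∧ φ y ∈ Ψ.source ∧ y ∈ U := by
    intro y hy
    have h1 : y ∈ (φ.trans Ψ).source ∩ interior U := hy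
    rw [hUo.interior_eq] at h1
    exact ⟨h1.1.1, h1.1.2, h1.2⟩
  refine ⟨⟨Φ, ?_, ?_, ?_, ?_⟩⟩
  · have : x ∈ (φ.trans Ψ).source ∩ interior U := by
      rw [hUo.interior_eq]
      exact ⟨⟨mem_chart_source _ x, hxΨ⟩, hxU⟩
    exact this
  · have h1 : ContMDiffOn 𝓘(ℂ, E m) 𝓘(ℂ, E m) ω φ φ.source := contMDiffOn_chart
    have h2 : ContMDiffOn 𝓘(ℂ, E m) 𝓘(ℂ, E k × E n) ω Ψ Ψ.source :=
      contMDiffOn_iff_contDiffOn.2 (Ψ0.contDiffOn_restrContDiff_source ℂ (by simp))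
    exact h2.comp (h1.mono fun y hy => (hsrc y hy).1) fun y hy => (hsrc y hy).2.1
  · have h1 : ContMDiffOn 𝓘(ℂ, E m) 𝓘(ℂ, E m) ω φ.symm φ.target := contMDiffOn_chart_symm
    have h2 : ContMDiffOn 𝓘(ℂ, E k × E n) 𝓘(ℂ, E m) ω Ψ.symm Ψ.target :=
      contMDiffOn_iff_contDiffOn.2 (Ψ0.contDiffOn_restrContDiff_target ℂ (by simp))
    have ht : ∀ w ∈ Φ.target, w ∈ Ψ.target ∧ Ψ.symm w ∈ φ.target := by
      intro w hw
      have h3 := Φ.map_target hw
      have h4 : w ∈ (φ.trans Ψ).target := hw.1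
      rw [OpenPartialHomeomorph.trans_target] at h4
      exact ⟨h4.1, h4.2⟩
    exact h1.comp (h2.mono fun w hw => (ht w hw).1) fun w hw => (ht w hw).2
  · intro y hy
    obtain ⟨h1, h2, h3⟩ := hsrc y hy
    have h4 : (Φ y).1 = g y := by
      have : (Φ y).1 = g (φ.symm (φ y)) := rfl
      rw [this, φ.left_inv h1]
    rw [h4]
    exact hU h3

section Build

variable {m k n : ℕ} {T : CMfd m} {Z : Set T}

open Classical in
/-- The chart of `Z` given by a flattening chart. -/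
def ch {x : T} (F : Flat T k n Z x) (hx : x ∈ Z) : OpenPartialHomeomorph Z (E n) where
  toFun y := (F.Φ y).2
  invFun w := if h : ((0 : E k), w) ∈ F.Φ.target then
      ⟨F.Φ.symm (0, w), (F.zero _ (F.Φ.map_target h)).2 (by rw [F.Φ.right_inv h])⟩ else ⟨x, hx⟩
  source := {y | (y : T) ∈ F.Φ.source}
  target := {w | ((0 : E k), w) ∈ F.Φ.target}
  map_source' y hy := by
    have h1 : (F.Φ y).1 = 0 := (F.zero y hy).1 y.2
    have h2 : ((0 : E k), (F.Φ y).2) = F.Φ y := by rw [← h1]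
    show ((0 : E k), (F.Φ y).2) ∈ F.Φ.target
    rw [h2]
    exact F.Φ.map_source hy
  map_target' w hw := by
    have hw' : ((0 : E k), w) ∈ F.Φ.target := hw
    show ((dite _ _ _ : Z) : T) ∈ F.Φ.source
    rw [dif_pos hw']
    exact F.Φ.map_target hw'
  left_inv' y hy := by
    have h1 : (F.Φ y).1 = 0 := (F.zero y hy).1 y.2
    have h2 : ((0 : E k), (F.Φ y).2) = F.Φ y := by rw [← h1]
    have h3 : ((0 : E k), (F.Φ y).2) ∈ F.Φ.target := by
      rw [h2]
      exact F.Φ.map_source hy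
    show (dite _ _ _ : Z) = y
    rw [dif_pos h3]
    refine Subtype.ext ?_
    show F.Φ.symm (0, (F.Φ y).2) = y
    rw [h2]
    exact F.Φ.left_inv hy
  right_inv' w hw := by
    have hw' : ((0 : E k), w) ∈ F.Φ.target := hw
    show (F.Φ ((dite _ _ _ : Z) : T)).2 = w
    rw [dif_pos hw']
    show (F.Φ (F.Φ.symm (0, w))).2 = w
    rw [F.Φ.right_inv hw']
  open_source := F.Φ.open_source.preimage continuous_subtype_val
  open_target := F.Φ.open_target.preimage (by fun_prop)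
  continuousOn_toFun := by
    have h1 : ContinuousOn (fun y : Z => F.Φ y) {y | (y : T) ∈ F.Φ.source} :=
      F.Φ.continuousOn.comp continuous_subtype_val.continuousOn fun y hy => hy
    exact continuous_snd.comp_continuousOn h1
  continuousOn_invFun := by
    rw [Topology.IsInducing.subtypeVal.continuousOn_iff]
    have h1 : ContinuousOn (fun w : E n => F.Φ.symm ((0 : E k), w))
        {w | ((0 : E k), w) ∈ F.Φ.target} :=
      F.Φ.continuousOn_symm.comp (by fun_prop) fun w hw => hw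
    refine h1.congr fun w hw => ?_
    have hw' : ((0 : E k), w) ∈ F.Φ.target := hw
    show ((dite _ _ _ : Z) : T) = _
    rw [dif_pos hw']

theorem ch_apply {x : T} (F : Flat T k n Z x) (hx : x ∈ Z) (y : Z) :
    ch F hx y = (F.Φ y).2 := rfl

open Classical in
theorem ch_symm {x : T} (F : Flat T k n Z x) (hx : x ∈ Z) {w : E n}
    (hw : w ∈ (ch F hx).target) : (((ch F hx).symm w : Z) : T) = F.Φ.symm (0, w) := by
  have hw' : ((0 : E k), w) ∈ F.Φ.target := hw
  have h : (ch F hx).symm w = if h : ((0 : E k), w) ∈ F.Φ.target then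
      ⟨F.Φ.symm (0, w), (F.zero _ (F.Φ.map_target h)).2 (by rw [F.Φ.right_inv h])⟩ else
        ⟨x, hx⟩ := rfl
  rw [h, dif_pos hw']

/-- The charts of `Z`. -/
abbrev charted (F : ∀ x ∈ Z, Flat T k n Z x) : ChartedSpace (E n) Z where
  atlas := range fun z : Z => ch (F z z.2) z.2
  chartAt z := ch (F z z.2) z.2
  mem_chart_source z := (F z z.2).mem
  chart_mem_atlas z := ⟨z, rfl⟩

theorem compat {x x' : T} (F : Flat T k n Z x) (hx : x ∈ Z) (F' : Flat T k n Z x') (hx' : x' ∈ Z) :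
    ContDiffOn ℂ ω ((ch F hx).symm ≫ₕ ch F' hx') ((ch F hx).symm ≫ₕ ch F' hx').source := by
  have h1 : ContMDiffOn 𝓘(ℂ, E k × E n) 𝓘(ℂ, E k × E n) ω (F'.Φ ∘ F.Φ.symm)
      (F.Φ.target ∩ F.Φ.symm ⁻¹' F'.Φ.source) :=
    F'.sm.comp (F.sm'.mono inter_subset_left) fun w hw => hw.2
  have h2 : ContDiffOn ℂ ω (F'.Φ ∘ F.Φ.symm) (F.Φ.target ∩ F.Φ.symm ⁻¹' F'.Φ.source) :=
    contMDiffOn_iff_contDiffOn.1 h1
  have h3 : ContDiffOn ℂ ω (fun w : E n => ((F'.Φ ∘ F.Φ.symm) ((0 : E k), w)).2)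
      {w | ((0 : E k), w) ∈ F.Φ.target ∩ F.Φ.symm ⁻¹' F'.Φ.source} := by
    refine contDiff_snd.comp_contDiffOn (h2.comp ?_ fun w hw => hw)
    exact (contDiff_const.prodMk contDiff_id).contDiffOn
  have h4 : ∀ w ∈ ((ch F hx).symm ≫ₕ ch F' hx').source,
      w ∈ (ch F hx).target ∧ ((0 : E k), w) ∈ F.Φ.target ∩ F.Φ.symm ⁻¹' F'.Φ.source := by
    intro w hw
    rw [OpenPartialHomeomorph.trans_source] at hw
    have hw1 : w ∈ (ch F hx).target := hw.1
    refine ⟨hw1, hw1, ?_⟩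
    have hw2 : (((ch F hx).symm w : Z) : T) ∈ F'.Φ.source := hw.2
    rw [ch_symm F hx hw1] at hw2
    exact hw2
  refine (h3.mono fun w hw => (h4 w hw).2).congr fun w hw => ?_
  show (F'.Φ (((ch F hx).symm w : Z) : T)).2 = _
  rw [ch_symm F hx (h4 w hw).1]
  rfl

theorem isMfd (F : ∀ x ∈ Z, Flat T k n Z x) :
    letI := charted F
    IsManifold 𝓘(ℂ, E n) ω Z := by
  let _ := charted F
  refine isManifold_of_contDiffOn 𝓘(ℂ, E n) ω Z ?_
  rintro _ _ ⟨z, rfl⟩ ⟨z', rfl⟩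
  have h := compat (F z z.2) z.2 (F z' z'.2) z'.2
  simpa using h

/-- The submanifold. -/
def mk (F : ∀ x ∈ Z, Flat T k n Z x) : CMfd n :=
  letI := charted F
  haveI := isMfd F
  { carrier := Z }

theorem imm_aux (F : ∀ x ∈ Z, Flat T k n Z x) :
    letI := charted F
    (∀ z : Z, ContMDiffAt 𝓘(ℂ, E n) 𝓘(ℂ, E m) ω (Subtype.val : Z → T) z) →
    ∀ z : Z, Function.Injective (DC n m (Subtype.val : Z → T) z) := by
  let _ := charted F
  have _ := isMfd F
  intro hval z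
  have h1 : ContMDiffAt 𝓘(ℂ, E m) 𝓘(ℂ, E n) ω (fun t : T => ((F z z.2).Φ t).2) z := by
    have h2 : ContMDiffAt 𝓘(ℂ, E m) 𝓘(ℂ, E k × E n) ω (F z z.2).Φ z :=
      (F z z.2).sm.contMDiffAt ((F z z.2).Φ.open_source.mem_nhds (F z z.2).mem)
    have h3 : ContMDiff 𝓘(ℂ, E k × E n) 𝓘(ℂ, E n) ω (Prod.snd : E k × E n → E n) :=
      contDiff_snd.contMDiff
    exact ContMDiffAt.comp (z : T) h3.contMDiffAt h2
  have h2 : mfderiv 𝓘(ℂ, E n) 𝓘(ℂ, E n) (chartAt (E n) z : Z → E n) z =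
      (mfderiv 𝓘(ℂ, E m) 𝓘(ℂ, E n) (fun t : T => ((F z z.2).Φ t).2) (z : T)).comp
        (mfderiv 𝓘(ℂ, E n) 𝓘(ℂ, E m) (Subtype.val : Z → T) z) :=
    mfderiv_comp z (h1.mdifferentiableAt (by simp)) ((hval z).mdifferentiableAt (by simp))
  have h3 : mfderiv 𝓘(ℂ, E n) 𝓘(ℂ, E n) (chartAt (E n) z : Z → E n) z =
      ContinuousLinearMap.id ℂ (E n) := by
    have h : mfderiv 𝓘(ℂ, E n) 𝓘(ℂ, E n) (chartAt (E n) z : Z → E n) z =
        tangentCoordChange 𝓘(ℂ, E n) z z z :=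
      mfderiv_chartAt_eq_tangentCoordChange (I := 𝓘(ℂ, E n)) (x := z) (y := z)
        (mem_chart_source (E n) z)
    rw [h]
    exact ContinuousLinearMap.ext fun u => tangentCoordChange_self (mem_extChartAt_source z)
  intro u v huv
  have h4 : ∀ w : E n, (mfderiv 𝓘(ℂ, E m) 𝓘(ℂ, E n) (fun t : T => ((F z z.2).Φ t).2) (z : T))
      (DC n m (Subtype.val : Z → T) z w) = w := by
    intro w
    have := congrArg (fun L => L w) (h2.symm.trans h3)
    exact this
  have huv' : DC n m (Subtype.val : Z → T) z u = DC n m (Subtype.val : Z → T) z v := huv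
  rw [← h4 u, ← h4 v, huv']

theorem cemb (F : ∀ x ∈ Z, Flat T k n Z x) (hZ : IsClosed Z) :
    CEmb (n := n) (m := m) (M := mk F) (N := T) Subtype.val := by
  let _ := charted F
  have _ := isMfd F
  have hval : ∀ z : Z, ContMDiffAt 𝓘(ℂ, E n) 𝓘(ℂ, E m) ω (Subtype.val : Z → T) z := by
    intro z
    set Fz := F z z.2
    have h1 : ContMDiffAt 𝓘(ℂ, E n) 𝓘(ℂ, E n) ω (chartAt (E n) z) z :=
      contMDiffOn_chart.contMDiffAt (chart_source_mem_nhds _ z)
    have h2 : ContMDiff 𝓘(ℂ, E n) 𝓘(ℂ, E k × E n) ω (fun w : E n => ((0 : E k), w)) :=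
      (contDiff_const.prodMk contDiff_id).contMDiff
    have h0 : ((0 : E k), (Fz.Φ z).2) = Fz.Φ z := by
      have := (Fz.zero z Fz.mem).1 z.2
      rw [← this]
    have h3 : ContMDiffAt 𝓘(ℂ, E k × E n) 𝓘(ℂ, E m) ω Fz.Φ.symm ((0 : E k), (Fz.Φ z).2) := by
      rw [h0]
      exact Fz.sm'.contMDiffAt (Fz.Φ.open_target.mem_nhds (Fz.Φ.map_source Fz.mem))
    have h4 : ContMDiffAt 𝓘(ℂ, E n) 𝓘(ℂ, E m) ω
        (Fz.Φ.symm ∘ (fun w : E n => ((0 : E k), w)) ∘ (chartAt (E n) z)) z :=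
      ContMDiffAt.comp z h3 (ContMDiffAt.comp z h2.contMDiffAt h1)
    refine h4.congr_of_eventuallyEq ?_
    filter_upwards [chart_source_mem_nhds (E n) z] with y hy
    have hy' : (y : T) ∈ Fz.Φ.source := hy
    have h5 : (Fz.Φ y).1 = 0 := (Fz.zero y hy').1 y.2
    have h6 : ((0 : E k), (Fz.Φ y).2) = Fz.Φ y := by rw [← h5]
    show (y : T) = Fz.Φ.symm (0, (Fz.Φ y).2)
    rw [h6, Fz.Φ.left_inv hy']
  refine ⟨hval, hZ.isClosedEmbedding_subtypeVal, ?_⟩
  have himm : ∀ z : Z, Function.Injective (DC n m (Subtype.val : Z → T) z) := by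
    intro z
    exact imm_aux F hval z
  exact himm
end Build

end RegZero

/-- A closed subset which is locally the zero set of a holomorphic submersion is the image of a
closed holomorphic embedding of a complex manifold. -/
theorem reg_zero {m k n : ℕ} (hm : m = n + k) (M : CMfd m) {Z : Set M} (hZ : IsClosed Z)
    (hreg : ∀ x ∈ Z, ∃ g : M → E k, HoloAt m k g x ∧ Function.Surjective (DC m k g x) ∧
      ∀ᶠ y in 𝓝 x, (y ∈ Z ↔ g y = 0)) :
    ∃ (Y : CMfd n) (ι : Y → M), CEmb (n := n) (m := m) ι ∧ range ι = Z := by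
  have hF : ∀ x ∈ Z, Nonempty (RegZero.Flat M k n Z x) := by
    intro x hx
    obtain ⟨g, h1, h2, h3⟩ := hreg x hx
    exact RegZero.exists_flat hm M Z h1 h2 h3
  let F : ∀ x ∈ Z, RegZero.Flat M k n Z x := fun x hx => (hF x hx).some
  exact ⟨RegZero.mk F, Subtype.val, RegZero.cemb F hZ, Subtype.range_val⟩

end Pool.Agent.K708
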