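import Pool.Agent.Lib.K708.DPar
import Pool.Agent.Lib.K708.RegZero

/-! # K708: the example `X` as a regular zero set (row DReg) -/

set_option autoImplicit false

open scoped Manifold ContDiff Topology
open Set Filter

noncomputable section

namespace Pool.Agent.K708

namespace DReg

/-- Any two of the linear forms `fl j` are independent. -/
theorem solve_fl (J : Set (Fin 4)) (d : Fin 4 → ℂ)
    (h012 : ¬ ((0 : Fin 4) ∈ J ∧ (1 : Fin 4) ∈ J ∧ (2 : Fin 4) ∈ J))
    (h013 : ¬ ((0 : Fin 4) ∈ J ∧ (1 : Fin 4) ∈ J ∧ (3 : Fin 4) ∈ J))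
    (h023 : ¬ ((0 : Fin 4) ∈ J ∧ (2 : Fin 4) ∈ J ∧ (3 : Fin 4) ∈ J))
    (h123 : ¬ ((1 : Fin 4) ∈ J ∧ (2 : Fin 4) ∈ J ∧ (3 : Fin 4) ∈ J)) :
    ∃ x y : ℂ, ∀ j ∈ J, fl j x y = d j := by
  have hI : (1 - Complex.I) ≠ 0 := by
    intro h
    have := congrArg Complex.re h
    simp at this
  have hII : Complex.I * Complex.I = -1 := Complex.I_mul_I
  by_cases h0 : (0 : Fin 4) ∈ J
  · by_cases h1 : (1 : Fin 4) ∈ J
    · refine ⟨d 0, d 1, fun j hj => ?_⟩
      fin_cases j
      · simp [fl]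
      · simp [fl]
      · exact absurd ⟨h0, h1, hj⟩ h012
      · exact absurd ⟨h0, h1, hj⟩ h013
    · by_cases h2 : (2 : Fin 4) ∈ J
      · refine ⟨d 0, d 2 - d 0, fun j hj => ?_⟩
        fin_cases j
        · simp [fl]
        · exact absurd hj h1
        · simp [fl]
        · exact absurd ⟨h0, h2, hj⟩ h023
      · refine ⟨d 0, -Complex.I * (d 3 - d 0), fun j hj => ?_⟩
        fin_cases j
        · simp [fl]
        · exact absurd hj h1
        · exact absurd hj h2
        · simp only [fl]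
          show d 0 + Complex.I * (-Complex.I * (d 3 - d 0)) = d 3
          linear_combination (-(d 3 - d 0)) * hII
  · by_cases h1 : (1 : Fin 4) ∈ J
    · by_cases h2 : (2 : Fin 4) ∈ J
      · refine ⟨d 2 - d 1, d 1, fun j hj => ?_⟩
        fin_cases j
        · exact absurd hj h0
        · simp [fl]
        · simp [fl]
        · exact absurd ⟨h1, h2, hj⟩ h123
      · refine ⟨d 3 - Complex.I * d 1, d 1, fun j hj => ?_⟩
        fin_cases j
        · exact absurd hj h0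
        · simp [fl]
        · exact absurd hj h2
        · simp [fl]
    · refine ⟨d 2 - (d 2 - d 3) / (1 - Complex.I), (d 2 - d 3) / (1 - Complex.I),
        fun j hj => ?_⟩
      fin_cases j
      · exact absurd hj h0
      · exact absurd hj h1
      · simp [fl]
      · simp only [fl]
        show d 2 - (d 2 - d 3) / (1 - Complex.I) + Complex.I * ((d 2 - d 3) / (1 - Complex.I)) = d 3
        field_simp
        ring

/-- The linear algebra of the regularity. -/
theorem surj_aux (P : Par) {p : E 6} (hp : p ∈ XL P) (α β : Fin 4 → ℂ)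
    (h1 : ∀ j, 2 * p (wi j) ∉ LG.lattice → β j ≠ 0)
    (h2 : ∀ j, 2 * p (wi j) ∈ LG.lattice → α j ≠ 0 ∧ β j = 0) (c : Fin 4 → ℂ) :
    ∃ u : E 6, ∀ j, α j * fl j (u 0) (u 1) - β j * u (wi j) = c j := by
  classical
  have hram : ∀ j, 2 * p (wi j) ∈ LG.lattice → P.f j (p 0) (p 1) ∈ Cur.Ram LG P.s :=
    fun j hj => ⟨p (wi j), hj, hp j⟩
  have hn := P.noth (p 0) (p 1)
  obtain ⟨x, y, hxy⟩ := solve_fl {j | 2 * p (wi j) ∈ LG.lattice} (fun j => c j / α j)
    (fun h => hn.1 ⟨hram 0 h.1, hram 1 h.2.1, hram 2 h.2.2⟩)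
    (fun h => hn.2.1 ⟨hram 0 h.1, hram 1 h.2.1, hram 3 h.2.2⟩)
    (fun h => hn.2.2.1 ⟨hram 0 h.1, hram 2 h.2.1, hram 3 h.2.2⟩)
    (fun h => hn.2.2.2 ⟨hram 1 h.1, hram 2 h.2.1, hram 3 h.2.2⟩)
  refine ⟨fun i => if i = 0 then x else if i = 1 then y else
    if h : 2 ≤ i.val then (α ⟨i.val - 2, by omega⟩ * fl ⟨i.val - 2, by omega⟩ x y -
      c ⟨i.val - 2, by omega⟩) / β ⟨i.val - 2, by omega⟩ else 0, fun j => ?_⟩
  have hw0 : wi j ≠ 0 := by
    intro h
    have := congrArg Fin.val h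
    simp [wi] at this
  have hw1 : wi j ≠ 1 := by
    intro h
    have := congrArg Fin.val h
    simp [wi] at this
  have hw2 : 2 ≤ (wi j).val := by simp [wi]
  have hw3 : (⟨(wi j).val - 2, by omega⟩ : Fin 4) = j := by
    ext
    simp [wi]
  have e0 : (1 : Fin 6) ≠ 0 := by decide
  simp only [if_pos, if_neg hw0, if_neg hw1, dif_pos hw2, hw3, if_neg e0]
  by_cases hj : 2 * p (wi j) ∈ LG.lattice
  · obtain ⟨ha, hb⟩ := h2 j hj
    rw [hb, hxy j hj]
    field_simp
    simp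
  · have hb := h1 j hj
    field_simp
    ring

/-- Linear part as a continuous linear map. -/
theorem exists_lin (P : Par) (j : Fin 4) : ∃ ℓ : E 6 →L[ℂ] ℂ, (∀ u, ℓ u = fl j (u 0) (u 1)) ∧
    ∀ u : E 6, P.f j (u 0) (u 1) = ℓ u + P.f j 0 0 := by
  set p0 : E 6 →L[ℂ] ℂ := ContinuousLinearMap.proj 0
  set p1 : E 6 →L[ℂ] ℂ := ContinuousLinearMap.proj 1
  fin_cases j
  · exact ⟨p0, fun u => by simp [fl, p0], fun u => by simp [Par.f, p0]⟩
  · exact ⟨p1, fun u => by simp [fl, p1], fun u => by simp [Par.f, p1]⟩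
  · exact ⟨p0 + p1, fun u => by simp [fl, p0, p1], fun u => by simp [Par.f, p0, p1]⟩
  · exact ⟨p0 + Complex.I • p1, fun u => by simp [fl, p0, p1],
      fun u => by simp [Par.f, p0, p1]⟩

theorem f_contDiff (P : Par) (j : Fin 4) : ContDiff ℂ ω (fun u : E 6 => P.f j (u 0) (u 1)) := by
  obtain ⟨ℓ, -, hℓ⟩ := exists_lin P j
  have : (fun u : E 6 => P.f j (u 0) (u 1)) = fun u => ℓ u + P.f j 0 0 := funext hℓ
  rw [this]
  exact ℓ.contDiff.add contDiff_const

theorem G_contDiffAt (P : Par) (p : E 6) (j : Fin 4) (A B : ℂ → ℂ)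
    (hA : AnalyticAt ℂ A (P.f j (p 0) (p 1))) (hB : AnalyticAt ℂ B (p (wi j))) :
    ContDiffAt ℂ ω (fun u : E 6 => A (P.f j (u 0) (u 1)) - B (u (wi j))) p := by
  have h1 : ContDiffAt ℂ ω (fun u : E 6 => A (P.f j (u 0) (u 1))) p :=
    ContDiffAt.comp (g := A) (f := fun u : E 6 => P.f j (u 0) (u 1)) p hA.contDiffAt
      (f_contDiff P j).contDiffAt
  have h2 : ContDiffAt ℂ ω (fun u : E 6 => B (u (wi j))) p :=
    ContDiffAt.comp (g := B) (f := fun u : E 6 => u (wi j)) p hB.contDiffAt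
      (contDiff_apply ℂ ℂ (wi j)).contDiffAt
  exact h1.sub h2

/-- Derivative of one equation. -/
theorem G_hasFDerivAt (P : Par) (p : E 6) (j : Fin 4) (A B : ℂ → ℂ)
    (hA : AnalyticAt ℂ A (P.f j (p 0) (p 1))) (hB : AnalyticAt ℂ B (p (wi j))) :
    ∃ ℓ : E 6 →L[ℂ] ℂ, (∀ u, ℓ u = deriv A (P.f j (p 0) (p 1)) * fl j (u 0) (u 1) -
      deriv B (p (wi j)) * u (wi j)) ∧
      HasFDerivAt (fun u : E 6 => A (P.f j (u 0) (u 1)) - B (u (wi j))) ℓ p := by
  obtain ⟨ℓ, hℓ1, hℓ2⟩ := exists_lin P j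
  have h1 : HasFDerivAt (fun u : E 6 => P.f j (u 0) (u 1)) ℓ p := by
    have : (fun u : E 6 => P.f j (u 0) (u 1)) = fun u => ℓ u + P.f j 0 0 := funext hℓ2
    rw [this]
    exact ℓ.hasFDerivAt.add_const _
  have h2 : HasFDerivAt (fun u : E 6 => u (wi j))
      (ContinuousLinearMap.proj (wi j) : E 6 →L[ℂ] ℂ) p := hasFDerivAt_apply (wi j) p
  have h3 := hA.differentiableAt.hasDerivAt.comp_hasFDerivAt p h1
  have h4 := hB.differentiableAt.hasDerivAt.comp_hasFDerivAt p h2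
  refine ⟨_, fun u => ?_, h3.sub h4⟩
  simp [hℓ1]

end DReg

open DReg

/-- The image of `XL` in the torus is regular: near each point it is the zero set of a holomorphic
submersion to `ℂ⁴` (use `Cur.cur_local` for the four equations; at most two of the `f_j` lie in
`Cur.Ram` by `Par.noth`, and any two of the `fl j` are independent). -/
theorem XS_reg (P : Par) {T : CMfd 6} {q : E 6 → T} (hT : IsTorus T q) :
    ∀ x ∈ q '' XL P, ∃ g : T → E 4, HoloAt 6 4 g x ∧ Function.Surjective (DC 6 4 g x) ∧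
      ∀ᶠ y in 𝓝 x, (y ∈ q '' XL P ↔ g y = 0) := by
  rintro _ ⟨p, hp, rfl⟩
  obtain ⟨σ, hσ, hσp, hσq⟩ := hT.sec p
  have hleft := hT.sec_left hσ hσp hσq
  have hloc := fun j => Cur.cur_local P.gen (hp j)
  choose A B hA hB hAB hev hb ha using hloc
  set G : E 6 → E 4 := fun u j => A j (P.f j (u 0) (u 1)) - B j (u (wi j)) with hG
  have hder := fun j => G_hasFDerivAt P p j (A j) (B j) (hA j) (hB j)
  choose ℓ hℓ hdℓ using hder
  have hGd : HasFDerivAt G (ContinuousLinearMap.pi ℓ) p := hasFDerivAt_pi.mpr hdℓ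
  have hGan : ContDiffAt ℂ ω G p := by
    rw [contDiffAt_pi]
    intro j
    exact G_contDiffAt P p j (A j) (B j) (hA j) (hB j)
  have hGh : HoloAt 6 4 G (σ (q p)) := by
    rw [hσp]
    exact hGan.contMDiffAt
  have hgh : HoloAt 6 4 (G ∘ σ) (q p) := ContMDiffAt.comp (q p) hGh hσ
  refine ⟨G ∘ σ, hgh, ?_, ?_⟩
  · -- surjectivity of the derivative
    have hmG : MDifferentiableAt 𝓘(ℂ, E 6) 𝓘(ℂ, E 4) G (σ (q p)) :=
      hGh.mdifferentiableAt (by simp)
    have hmσ : MDifferentiableAt 𝓘(ℂ, E 6) 𝓘(ℂ, E 6) σ (q p) := hσ.mdifferentiableAt (by simp)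
    have hmq : MDifferentiableAt 𝓘(ℂ, E 6) 𝓘(ℂ, E 6) q p := (hT.holo p).mdifferentiableAt (by simp)
    have hcomp : DC 6 4 (G ∘ σ) (q p) = (DC 6 4 G (σ (q p))).comp (DC 6 6 σ (q p)) :=
      mfderiv_comp (q p) hmG hmσ
    have hid : (DC 6 6 σ (q p)).comp (DC 6 6 q p) = ContinuousLinearMap.id ℂ (E 6) := by
      have h1 : DC 6 6 (σ ∘ q) p = (DC 6 6 σ (q p)).comp (DC 6 6 q p) := mfderiv_comp p hmσ hmq
      rw [← h1]
      have h2 : σ ∘ q =ᶠ[𝓝 p] id := hleft
      unfold DC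
      rw [h2.mfderiv_eq]
      exact mfderiv_id
    have hGD : DC 6 4 G (σ (q p)) = ContinuousLinearMap.pi ℓ := by
      rw [hσp]
      unfold DC
      rw [mfderiv_eq_fderiv]
      exact hGd.fderiv
    intro c
    obtain ⟨u, hu⟩ := surj_aux P hp (fun j => deriv (A j) (P.f j (p 0) (p 1)))
      (fun j => deriv (B j) (p (wi j))) hb ha c
    refine ⟨DC 6 6 q p u, ?_⟩
    rw [hcomp, hGD]
    have h3 : DC 6 6 σ (q p) (DC 6 6 q p u) = u := by
      have := congrArg (fun f => f u) hid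
      simpa using this
    rw [ContinuousLinearMap.comp_apply, h3]
    funext j
    rw [ContinuousLinearMap.pi_apply, hℓ j u]
    exact hu j
  · -- local equations
    have hσc : Tendsto σ (𝓝 (q p)) (𝓝 p) := by
      have := hσ.continuousAt.tendsto
      rwa [hσp] at this
    have hall : ∀ᶠ t in 𝓝 (q p), ∀ j, (PFun.Cur LG P.s (P.f j (σ t 0) (σ t 1)) (σ t (wi j)) ↔
        A j (P.f j (σ t 0) (σ t 1)) = B j (σ t (wi j))) := by
      rw [eventually_all]
      intro j
      have hc : Continuous (fun u : E 6 => (P.f j (u 0) (u 1), u (wi j))) := by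
        refine Continuous.prodMk ?_ (continuous_apply _)
        fin_cases j <;> simp [Par.f] <;> fun_prop
      exact ((hc.tendsto p).comp hσc).eventually (hev j)
    filter_upwards [hall, hσq] with t ht hqt
    have h1 : t ∈ q '' XL P ↔ σ t ∈ XL P := by
      rw [← mem_XS P hT, hqt]
    rw [h1]
    constructor
    · intro h
      funext j
      simp only [hG, Function.comp, Pi.zero_apply]
      rw [(ht j).mp (h j), sub_self]
    · intro h j
      have h2 := congrFun h j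
      simp only [hG, Function.comp, Pi.zero_apply, sub_eq_zero] at h2
      exact (ht j).mpr h2

/-- The surface `X` (without connectedness). -/
structure IsX (P : Par) {T : CMfd 6} (q : E 6 → T) {X : CMfd 2} (ι : X → T) : Prop where
  tor : IsTorus T q
  emb : CEmb (n := 2) (m := 6) ι
  range : range ι = q '' XL P

theorem exists_X (P : Par) {T : CMfd 6} {q : E 6 → T} (hT : IsTorus T q) :
    ∃ (X : CMfd 2) (ι : X → T), IsX P q ι := by
  obtain ⟨X, ι, h1, h2⟩ := reg_zero (m := 6) (k := 4) (n := 2) rfl T (isClosed_XS P hT)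
    (XS_reg P hT)
  exact ⟨X, ι, hT, h1, h2⟩

end Pool.Agent.K708
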