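import Pool.Agent.Lib.K708.DTan
import Pool.Agent.Lib.K708.DGood

/-! # K708: the example has good data (row DXGood) -/

set_option autoImplicit false

open scoped Manifold ContDiff Topology
open Set Filter

noncomputable section

namespace Pool.Agent.K708

namespace DXGood

theorem eF_apply {X : CMfd 2} (a : Fin 6 → F1 2 X) (j : Fin 4) (x : X) (v : E 2) :
    eF a j x v = fl j (a 0 x v) (a 1 x v) := by
  fin_cases j <;> simp [eF, fl]

/-- The point of `ℂ⁶` with given coordinates. -/
def pt (x y : ℂ) (w : Fin 4 → ℂ) : E 6 := fun i =>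
  if i = 0 then x else if i = 1 then y else if h : 2 ≤ i.val then w ⟨i.val - 2, by omega⟩ else 0

theorem wi_ne_zero (j : Fin 4) : wi j ≠ 0 := by
  intro h
  have := congrArg Fin.val h
  simp [wi] at this

theorem wi_ne_one (j : Fin 4) : wi j ≠ 1 := by
  intro h
  have := congrArg Fin.val h
  simp [wi] at this

theorem wi_inj {i j : Fin 4} (h : wi i = wi j) : i = j := by
  have := congrArg Fin.val h
  simp only [wi] at this
  ext
  omega

@[simp] theorem pt_zero (x y : ℂ) (w : Fin 4 → ℂ) : pt x y w 0 = x := by simp [pt]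

@[simp] theorem pt_one (x y : ℂ) (w : Fin 4 → ℂ) : pt x y w 1 = y := by simp [pt]

@[simp] theorem pt_wi (x y : ℂ) (w : Fin 4 → ℂ) (j : Fin 4) : pt x y w (wi j) = w j := by
  have hw2 : 2 ≤ (wi j).val := by simp [wi]
  have hw3 : (⟨(wi j).val - 2, by omega⟩ : Fin 4) = j := by
    ext
    simp [wi]
  simp only [pt, if_neg (wi_ne_zero j), if_neg (wi_ne_one j), dif_pos hw2, hw3]

theorem exists_pt (P : Par) (x y : ℂ) : ∃ w : Fin 4 → ℂ, pt x y w ∈ XL P := by
  choose w hw using fun j => Cur.exists_cur (L := LG) (s := P.s) (P.f j x y)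
  exact ⟨w, fun j => by simpa using hw j⟩

/-- A point with `w_j` of order two. -/
theorem exists_ram_pt (P : Par) (j : Fin 4) : ∃ p ∈ XL P, 2 * p (wi j) ∈ LG.lattice := by
  obtain ⟨z, w, h1, h2⟩ := Cur.exists_ram (L := LG) (s := P.s)
  obtain ⟨x, y, hxy⟩ : ∃ x y, P.f j x y = z := by
    fin_cases j
    · exact ⟨z, 0, by simp [Par.f]⟩
    · exact ⟨0, z, by simp [Par.f]⟩
    · exact ⟨z - P.c₂, 0, by simp [Par.f]⟩
    · exact ⟨z - P.c₃, 0, by simp [Par.f]⟩
  obtain ⟨w', hw'⟩ := exists_pt P x y
  refine ⟨pt x y (Function.update w' j w), fun i => ?_, by simpa using h2⟩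
  simp only [pt_zero, pt_one, pt_wi]
  by_cases hij : i = j
  · subst hij
    simpa [hxy] using h1
  · rw [Function.update_of_ne hij]
    simpa using hw' i

/-- A point with no `w_j` of order two. -/
theorem exists_unram_pt (P : Par) : ∃ p ∈ XL P, ∀ j, 2 * p (wi j) ∉ LG.lattice := by
  have hR := Cur.Ram_countable P.gen
  obtain ⟨x, hx⟩ : ∃ x : ℂ, x ∉ Cur.Ram LG P.s := (hR.dense_compl ℝ).nonempty
  have hbad : (Cur.Ram LG P.s ∪ {y | x + y + P.c₂ ∈ Cur.Ram LG P.s} ∪
      {y | x + Complex.I * y + P.c₃ ∈ Cur.Ram LG P.s}).Countable := by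
    refine (hR.union ?_).union ?_
    · exact hR.preimage_of_injOn (f := fun y => x + y + P.c₂)
        (fun a _ b _ h => by simpa using h)
    · exact hR.preimage_of_injOn (f := fun y => x + Complex.I * y + P.c₃)
        (fun a _ b _ h => by simpa using h)
  obtain ⟨y, hy⟩ := (hbad.dense_compl ℝ).nonempty
  simp only [mem_compl_iff, mem_union, mem_ofPred_eq, not_or] at hy
  obtain ⟨w, hw⟩ := exists_pt P x y
  refine ⟨pt x y w, hw, fun j hj => ?_⟩
  have h1 : P.f j x y ∈ Cur.Ram LG P.s := by
    refine ⟨w j, by simpa using hj, ?_⟩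
    have := hw j
    simpa using this
  fin_cases j
  · exact hx (by simpa [Par.f] using h1)
  · exact hy.1.1 (by simpa [Par.f] using h1)
  · exact hy.1.2 (by simpa [Par.f] using h1)
  · exact hy.2 (by simpa [Par.f] using h1)

end DXGood

open DXGood

/-- `wed` and `ind`, `nz` from `IsX.tangent` (at a point with `2 w_j ∈ ℤ[i]` the form
`e_j` vanishes and `a (gi j)` does not; at a point with no ramification `(a 0, a 1)` is onto). -/
theorem IsX.good {P : Par} {T : CMfd 6} {q : E 6 → T} {X : CMfd 2} {ι : X → T}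
    (hX : IsX P q ι) : Good X := by
  obtain ⟨F, a, ha⟩ := exists_torForms hX.tor hX.emb.holo
  have hlift : ∀ p ∈ XL P, ∃ x : X, q p = ι x := by
    intro p hp
    have : q p ∈ Set.range ι := by
      rw [hX.range]
      exact ⟨p, hp, rfl⟩
    obtain ⟨x, hx⟩ := this
    exact ⟨x, hx.symm⟩
  refine ⟨F 0, a, ha.h1, ha.tf 0, fun j => ?_, fun j l hl => ?_, fun h => ?_⟩
  · funext x
    have hx : ι x ∈ q '' XL P := by
      rw [← hX.range]
      exact ⟨x, rfl⟩
    obtain ⟨p, hp, hpx⟩ := hx
    obtain ⟨α, β, h1, h2, h3⟩ := hX.tangent ha x p hpx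
    have h4 : ∀ v, α j * eF a j x v = β j * a (gi j) x v := by
      intro v
      have := (h3 (fun k => a k x v)).mp ⟨v, fun k => rfl⟩ j
      rw [eF_apply]
      exact this
    ext u v
    rw [wedge_apply]
    show _ = (0 : ℂ)
    by_cases hj : 2 * p (wi j) ∈ LG.lattice
    · obtain ⟨h5, h6⟩ := h2 j hj
      have h7 : ∀ v, eF a j x v = 0 := by
        intro v
        have := h4 v
        rw [h6, zero_mul] at this
        exact (mul_eq_zero.mp this).resolve_left h5
      rw [h7, h7]
      ring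
    · have h5 := h1 j hj
      have h6 : ∀ v, a (gi j) x v = α j / β j * eF a j x v := by
        intro v
        have := h4 v
        field_simp
        rw [this]
        ring
      rw [h6, h6]
      ring
  · obtain ⟨p, hp, hp2⟩ := exists_ram_pt P j
    obtain ⟨x, hx⟩ := hlift p hp
    obtain ⟨α, β, h1, h2, h3⟩ := hX.tangent ha x p hx
    obtain ⟨h5, h6⟩ := h2 j hp2
    have h7 : ∀ v, eF a j x v = 0 := by
      intro v
      have := (h3 (fun k => a k x v)).mp ⟨v, fun k => rfl⟩ j
      rw [eF_apply]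
      rw [h6, zero_mul] at this
      exact (mul_eq_zero.mp this).resolve_left h5
    obtain ⟨v, hv⟩ := (h3 (Pi.single (wi j) 1)).mpr (fun i => by
      rw [Pi.single_eq_of_ne (wi_ne_zero j).symm, Pi.single_eq_of_ne (wi_ne_one j).symm]
      have hfl0 : fl i 0 0 = 0 := by fin_cases i <;> simp [fl]
      rw [hfl0, mul_zero]
      by_cases hij : i = j
      · subst hij
        rw [h6, zero_mul]
      · rw [Pi.single_eq_of_ne (fun h => hij (wi_inj h)), mul_zero])
    have h8 := hv (wi j)
    rw [Pi.single_eq_same] at h8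
    have h9 : a (gi j) x v = l * eF a j x v := by
      have := congrFun hl x
      have := congrArg (fun f => f v) this
      simpa using this
    have h10 : a (gi j) x v = 1 := h8
    rw [h9, h7, mul_zero] at h10
    exact zero_ne_one h10
  · obtain ⟨p, hp, hp2⟩ := exists_unram_pt P
    obtain ⟨x, hx⟩ := hlift p hp
    obtain ⟨α, β, h1, h2, h3⟩ := hX.tangent ha x p hx
    have key : ∀ s t : ℂ, ∃ v : E 2, a 0 x v = s ∧ a 1 x v = t := by
      intro s t
      obtain ⟨v, hv⟩ := (h3 (pt s t (fun j => α j * fl j s t / β j))).mpr (fun j => by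
        rw [pt_zero, pt_one, pt_wi]
        have := h1 j (hp2 j)
        field_simp)
      exact ⟨v, by simpa using hv 0, by simpa using hv 1⟩
    obtain ⟨v, hv0, hv1⟩ := key 1 0
    obtain ⟨u, hu0, hu1⟩ := key 0 1
    have h4 := congrFun h x
    have h5 := congrArg (fun f => f v u) h4
    simp only [wedge_apply] at h5
    rw [hv0, hv1, hu0, hu1] at h5
    simp at h5

end Pool.Agent.K708
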