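import Pool.Agent.Lib.K708.FcL

/-! # K708: algebra of forms (sums, multiples, conjugates, wedge products, d) -/

set_option autoImplicit false

open scoped Manifold ContDiff Topology
open Set

noncomputable section

namespace Pool.Agent.K708

/-- Conjugate of a 2-form. -/
def cj2 {n : ℕ} {M : Type*} (σ : F2 n M) : F2 n M := fun x =>
  (ContinuousLinearMap.compL ℝ (E n) ℂ ℂ (Complex.conjCLE : ℂ →L[ℝ] ℂ)).comp (σ x)

section

variable {n : ℕ} {M : Type*}

theorem cj_apply (α : F1 n M) (x : M) (u : E n) : cj α x u = (starRingEnd ℂ) (α x u) := rfl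

theorem cj2_apply (σ : F2 n M) (x : M) (u v : E n) :
    cj2 σ x u v = (starRingEnd ℂ) (σ x u v) := rfl

theorem wedge_apply (α β : F1 n M) (x : M) (u v : E n) :
    wedge α β x u v = α x u * β x v - α x v * β x u := by
  simp [wedge]

theorem cj_cj (α : F1 n M) : cj (cj α) = α := by
  funext x
  ext u : 1
  simp [cj_apply]

theorem cj_add (α β : F1 n M) : cj (α + β) = cj α + cj β := by
  funext x
  ext u : 1
  simp [cj_apply]

theorem cj_sub (α β : F1 n M) : cj (α - β) = cj α - cj β := by
  funext x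
  ext u : 1
  simp [cj_apply]

theorem cj_smul (c : ℂ) (α : F1 n M) : cj (c • α) = (starRingEnd ℂ) c • cj α := by
  funext x
  ext u : 1
  simp [cj_apply]

theorem cj2_wedge (α β : F1 n M) : cj2 (wedge α β) = wedge (cj α) (cj β) := by
  funext x
  ext u v : 2
  simp [cj2_apply, wedge_apply, cj_apply]

theorem wedge_add_left (α α' β : F1 n M) : wedge (α + α') β = wedge α β + wedge α' β := by
  funext x
  ext u v : 2
  simp [wedge_apply]
  ring

theorem wedge_add_right (α β β' : F1 n M) : wedge α (β + β') = wedge α β + wedge α β' := by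
  funext x
  ext u v : 2
  simp [wedge_apply]
  ring

theorem wedge_sub_left (α α' β : F1 n M) : wedge (α - α') β = wedge α β - wedge α' β := by
  funext x
  ext u v : 2
  simp [wedge_apply]
  ring

theorem wedge_sub_right (α β β' : F1 n M) : wedge α (β - β') = wedge α β - wedge α β' := by
  funext x
  ext u v : 2
  simp [wedge_apply]
  ring

theorem wedge_smul_left (c : ℂ) (α β : F1 n M) : wedge (c • α) β = c • wedge α β := by
  funext x
  ext u v : 2
  simp [wedge_apply]
  ring

theorem wedge_smul_right (c : ℂ) (α β : F1 n M) : wedge α (c • β) = c • wedge α β := by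
  funext x
  ext u v : 2
  simp [wedge_apply]
  ring

theorem wedge_fsmul_left (f : M → ℂ) (α β : F1 n M) : wedge (f • α) β = f • wedge α β := by
  funext x
  ext u v : 2
  have h : (f • wedge α β) x u v = f x * wedge α β x u v := rfl
  have h1 : (f • α) x u = f x * α x u := rfl
  have h2 : (f • α) x v = f x * α x v := rfl
  rw [h, wedge_apply, wedge_apply, h1, h2]
  ring

theorem wedge_fsmul_right (f : M → ℂ) (α β : F1 n M) : wedge α (f • β) = f • wedge α β := by
  funext x
  ext u v : 2
  have h : (f • wedge α β) x u v = f x * wedge α β x u v := rfl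
  have h1 : (f • β) x u = f x * β x u := rfl
  have h2 : (f • β) x v = f x * β x v := rfl
  rw [h, wedge_apply, wedge_apply, h1, h2]
  ring

theorem wedge_swap (α β : F1 n M) : wedge α β = - wedge β α := by
  funext x
  ext u v : 2
  simp [wedge_apply]
  ring

theorem wedge_self (α : F1 n M) : wedge α α = 0 := by
  funext x
  ext u v : 2
  simp [wedge_apply]
  ring

theorem wedge_zero_left (β : F1 n M) : wedge (0 : F1 n M) β = 0 := by
  funext x
  ext u v : 2
  simp [wedge_apply]

theorem wedge_zero_right (α : F1 n M) : wedge α (0 : F1 n M) = 0 := by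
  funext x
  ext u v : 2
  simp [wedge_apply]

end

section

variable {n m : ℕ} {M N : Type*}
  [TopologicalSpace M] [ChartedSpace (E n) M]
  [TopologicalSpace N] [ChartedSpace (E m) N]

theorem pb1_add (f : M → N) (α β : F1 m N) : pb1 n f (α + β) = pb1 n f α + pb1 n f β := by
  funext x
  ext u : 1
  simp [pb1]

theorem pb1_smul (f : M → N) (c : ℂ) (α : F1 m N) : pb1 n f (c • α) = c • pb1 n f α := by
  funext x
  ext u : 1
  simp [pb1]

theorem pb1_fsmul (f : M → N) (g : N → ℂ) (α : F1 m N) :
    pb1 n f (g • α) = (g ∘ f) • pb1 n f α := by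
  funext x
  ext u : 1
  simp [pb1]

theorem pb2_add (f : M → N) (σ τ : F2 m N) : pb2 n f (σ + τ) = pb2 n f σ + pb2 n f τ := by
  funext x
  ext u v : 2
  simp [pb2]

theorem pb2_sub (f : M → N) (σ τ : F2 m N) : pb2 n f (σ - τ) = pb2 n f σ - pb2 n f τ := by
  funext x
  ext u v : 2
  simp [pb2]

theorem pb2_smul (f : M → N) (c : ℂ) (σ : F2 m N) : pb2 n f (c • σ) = c • pb2 n f σ := by
  funext x
  ext u v : 2
  simp [pb2]

theorem loc1_add (φ : OpenPartialHomeomorph M (E n)) (α β : F1 n M) :
    loc1 φ (α + β) = loc1 φ α + loc1 φ β := by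
  funext x
  ext u : 1
  simp [loc1]

theorem loc1_smul (φ : OpenPartialHomeomorph M (E n)) (c : ℂ) (α : F1 n M) :
    loc1 φ (c • α) = c • loc1 φ α := by
  funext x
  ext u : 1
  simp [loc1]

theorem loc1_fsmul (φ : OpenPartialHomeomorph M (E n)) (f : M → ℂ) (α : F1 n M) :
    loc1 φ (f • α) = (f ∘ φ.symm) • loc1 φ α := by
  funext x
  ext u : 1
  simp [loc1]

theorem loc1_cj (φ : OpenPartialHomeomorph M (E n)) (α : F1 n M) (z : E n) (u : E n) :
    loc1 φ (cj α) z u = (starRingEnd ℂ) (loc1 φ α z u) := by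
  simp [loc1, cj_apply]

theorem loc2_add (φ : OpenPartialHomeomorph M (E n)) (σ τ : F2 n M) :
    loc2 φ (σ + τ) = loc2 φ σ + loc2 φ τ := by
  funext x
  ext u v : 2
  simp [loc2]

theorem loc2_smul (φ : OpenPartialHomeomorph M (E n)) (c : ℂ) (σ : F2 n M) :
    loc2 φ (c • σ) = c • loc2 φ σ := by
  funext x
  ext u v : 2
  simp [loc2]

theorem loc2_fsmul (φ : OpenPartialHomeomorph M (E n)) (f : M → ℂ) (σ : F2 n M) :
    loc2 φ (f • σ) = (f ∘ φ.symm) • loc2 φ σ := rfl

theorem loc2_cj2 (φ : OpenPartialHomeomorph M (E n)) (σ : F2 n M) (z : E n) (u v : E n) :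
    loc2 φ (cj2 σ) z u v = (starRingEnd ℂ) (loc2 φ σ z u v) := by
  simp [loc2, cj2_apply]

theorem loc2_wedge (φ : OpenPartialHomeomorph M (E n)) (α β : F1 n M) (z : E n) (u v : E n) :
    loc2 φ (wedge α β) z u v =
      loc1 φ α z u * loc1 φ β z v - loc1 φ α z v * loc1 φ β z u := by
  simp [loc2, loc1, wedge_apply]

end

end Pool.Agent.K708
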