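import Pool.Agent.Lib.K708.PD

/-! # K708: derivatives, charts, local expressions of forms -/

set_option autoImplicit false

open scoped Manifold ContDiff Topology
open Set

noncomputable section

namespace Pool.Agent.K708

/-- The real smooth maximal atlas. -/
abbrev RA (n : ℕ) (M : Type*) [TopologicalSpace M] [ChartedSpace (E n) M] :=
  IsManifold.maximalAtlas 𝓘(ℝ, E n) ∞ M

/-- The complex maximal atlas. -/
abbrev CA (n : ℕ) (M : Type*) [TopologicalSpace M] [ChartedSpace (E n) M] :=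
  IsManifold.maximalAtlas 𝓘(ℂ, E n) ω M

section

variable {n m k : ℕ} {M N P : Type*}
  [TopologicalSpace M] [ChartedSpace (E n) M] [IsManifold 𝓘(ℂ, E n) ω M]
  [TopologicalSpace N] [ChartedSpace (E m) N] [IsManifold 𝓘(ℂ, E m) ω N]
  [TopologicalSpace P] [ChartedSpace (E k) P] [IsManifold 𝓘(ℂ, E k) ω P]

theorem ra_of_ca {φ : OpenPartialHomeomorph M (E n)} (hφ : φ ∈ CA n M) : φ ∈ RA n M := by
  have key : ∀ g : OpenPartialHomeomorph (E n) (E n), g ∈ contDiffGroupoid ω 𝓘(ℂ, E n) →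
      g ∈ contDiffGroupoid ∞ 𝓘(ℝ, E n) := by
    intro g hg
    rw [contDiffGroupoid, mem_groupoid_of_pregroupoid] at hg ⊢
    have h1 : ContDiffOn ℂ ω g g.source := by simpa [contDiffPregroupoid] using hg.1
    have h2 : ContDiffOn ℂ ω g.symm g.target := by simpa [contDiffPregroupoid] using hg.2
    refine ⟨?_, ?_⟩
    · simpa [contDiffPregroupoid] using (h1.restrict_scalars ℝ).of_le le_top
    · simpa [contDiffPregroupoid] using (h2.restrict_scalars ℝ).of_le le_top
  intro e' he'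
  exact ⟨key _ (hφ e' he').1, key _ (hφ e' he').2⟩

theorem chartAt_mem_RA (x : M) : chartAt (E n) x ∈ RA n M := IsManifold.chart_mem_maximalAtlas x

theorem chartAt_mem_CA (x : M) : chartAt (E n) x ∈ CA n M := IsManifold.chart_mem_maximalAtlas x

/-- Restriction of a chart to an open set. -/
theorem restr_mem_RA {φ : OpenPartialHomeomorph M (E n)} (hφ : φ ∈ RA n M) {s : Set M}
    (hs : IsOpen s) : φ.restr s ∈ RA n M := restr_mem_maximalAtlas _ hφ hs

theorem restr_mem_CA {φ : OpenPartialHomeomorph M (E n)} (hφ : φ ∈ CA n M) {s : Set M}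
    (hs : IsOpen s) : φ.restr s ∈ CA n M := restr_mem_maximalAtlas _ hφ hs

omit [IsManifold 𝓘(ℂ, E n) ω M] [IsManifold 𝓘(ℂ, E m) ω N] [IsManifold 𝓘(ℂ, E k) ω P] in
theorem D_comp {f : M → N} {g : N → P} {x : M}
    (hg : MDifferentiableAt 𝓘(ℝ, E m) 𝓘(ℝ, E k) g (f x))
    (hf : MDifferentiableAt 𝓘(ℝ, E n) 𝓘(ℝ, E m) f x) :
    D n k (g ∘ f) x = (D m k g (f x)).comp (D n m f x) := mfderiv_comp x hg hf

omit [IsManifold 𝓘(ℂ, E n) ω M] in
theorem D_id (x : M) : D n n (id : M → M) x = ContinuousLinearMap.id ℝ (E n) := mfderiv_id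

omit [IsManifold 𝓘(ℂ, E n) ω M] [IsManifold 𝓘(ℂ, E m) ω N] in
theorem D_congr {f g : M → N} {x : M} (h : f =ᶠ[𝓝 x] g) : D n m f x = D n m g x := h.mfderiv_eq

/-- On the model spaces `D` is the Frechet derivative. -/
theorem D_model (f : E n → E m) (z : E n) : D n m f z = fderiv ℝ f z := mfderiv_eq_fderiv

/-- For a holomorphic map the real derivative is the complex derivative. -/
theorem D_eq_DC {f : M → N} {x : M} (hf : HoloAt n m f x) (u : E n) :
    D n m f x u = DC n m f x u := by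
  have h1 : MDifferentiableAt 𝓘(ℂ, E n) 𝓘(ℂ, E m) f x := ContMDiffAt.mdifferentiableAt hf (by simp)
  have h2 : MDifferentiableAt 𝓘(ℝ, E n) 𝓘(ℝ, E m) f x := by
    have h : ContMDiffAt 𝓘(ℝ, E n) 𝓘(ℝ, E m) ∞ f x := by
      unfold HoloAt at hf
      rw [contMDiffAt_iff] at hf ⊢
      refine ⟨hf.1, ?_⟩
      simpa using (hf.2.restrict_scalars ℝ).of_le le_top
    exact h.mdifferentiableAt (by simp)
  have h3 := h1.hasMFDerivAt
  have h4 : HasMFDerivAt 𝓘(ℝ, E n) 𝓘(ℝ, E m) f x ((DC n m f x).restrictScalars ℝ) := by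
    refine ⟨h3.1, ?_⟩
    exact h3.2.restrictScalars ℝ
  have h6 := h4.mfderiv
  unfold D
  rw [h6]
  rfl

theorem D_smul_I {f : M → N} {x : M} (hf : HoloAt n m f x) (u : E n) :
    D n m f x (Complex.I • u) = Complex.I • D n m f x u := by
  rw [D_eq_DC hf, D_eq_DC hf, map_smul]

theorem HoloAt.mdiff {f : M → N} {x : M} (hf : HoloAt n m f x) :
    MDifferentiableAt 𝓘(ℝ, E n) 𝓘(ℝ, E m) f x := by
  have h : ContMDiffAt 𝓘(ℝ, E n) 𝓘(ℝ, E m) ∞ f x := by
    unfold HoloAt at hf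
    rw [contMDiffAt_iff] at hf ⊢
    refine ⟨hf.1, ?_⟩
    simpa using (hf.2.restrict_scalars ℝ).of_le le_top
  exact h.mdifferentiableAt (by simp)

theorem Smth.mdiff {f : M → N} (hf : Smth n m f) (x : M) :
    MDifferentiableAt 𝓘(ℝ, E n) 𝓘(ℝ, E m) f x := (hf x).mdifferentiableAt (by simp)

theorem mdiff_chart {φ : OpenPartialHomeomorph M (E n)} (hφ : φ ∈ RA n M) {x : M}
    (hx : x ∈ φ.source) : MDifferentiableAt 𝓘(ℝ, E n) 𝓘(ℝ, E n) φ x := (contMDiffAt_of_mem_maximalAtlas hφ hx).mdifferentiableAt (by simp)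

theorem mdiff_chart_symm {φ : OpenPartialHomeomorph M (E n)} (hφ : φ ∈ RA n M) {z : E n}
    (hz : z ∈ φ.target) : MDifferentiableAt 𝓘(ℝ, E n) 𝓘(ℝ, E n) φ.symm z := (contMDiffAt_symm_of_mem_maximalAtlas hφ hz).mdifferentiableAt (by simp)

theorem D_symm_comp {φ : OpenPartialHomeomorph M (E n)} (hφ : φ ∈ RA n M) {x : M}
    (hx : x ∈ φ.source) :
    (D n n φ.symm (φ x)).comp (D n n φ x) = ContinuousLinearMap.id ℝ (E n) := by
  have h1 : D n n (φ.symm ∘ φ) x = (D n n φ.symm (φ x)).comp (D n n φ x) :=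
    D_comp (mdiff_chart_symm hφ (φ.map_source hx)) (mdiff_chart hφ hx)
  rw [← h1, ← D_id x]
  refine D_congr ?_
  filter_upwards [φ.open_source.mem_nhds hx] with y hy
  exact φ.left_inv hy

theorem D_comp_symm {φ : OpenPartialHomeomorph M (E n)} (hφ : φ ∈ RA n M) {z : E n}
    (hz : z ∈ φ.target) :
    (D n n φ (φ.symm z)).comp (D n n φ.symm z) = ContinuousLinearMap.id ℝ (E n) := by
  have hz' : φ.symm z ∈ φ.source := φ.map_target hz
  have h1 : D n n (φ ∘ φ.symm) z = (D n n φ (φ.symm z)).comp (D n n φ.symm z) :=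
    D_comp (mdiff_chart hφ hz') (mdiff_chart_symm hφ hz)
  rw [← h1, ← D_id z]
  refine D_congr ?_
  filter_upwards [φ.open_target.mem_nhds hz] with y hy
  exact φ.right_inv hy

/-- The preferred chart at `x` has derivative `id` at `x`. -/
theorem D_chartAt (x : M) : D n n (chartAt (E n) x) x = ContinuousLinearMap.id ℝ (E n) := by
  have h : D n n (chartAt (E n) x) x = tangentCoordChange 𝓘(ℝ, E n) x x x :=
    mfderiv_chartAt_eq_tangentCoordChange (I := 𝓘(ℝ, E n)) (x := x) (y := x)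
      (mem_chart_source (E n) x)
  rw [h]
  exact ContinuousLinearMap.ext fun u => tangentCoordChange_self (mem_extChartAt_source x)

theorem D_chartAt_symm (x : M) :
    D n n (chartAt (E n) x).symm (chartAt (E n) x x) = ContinuousLinearMap.id ℝ (E n) := by
  have h := D_symm_comp (chartAt_mem_RA x) (mem_chart_source (E n) x)
  rwa [D_chartAt, ContinuousLinearMap.comp_id] at h

end

end Pool.Agent.K708
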