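import Pool.Agent.Lib.K708.Top

/-! # K708: the negative answer, from the main theorems of the sections -/

set_option autoImplicit false

open scoped Manifold ContDiff Topology
open Set

noncomputable section

namespace Pool.Agent.K708

theorem w4_zero_left (C : E 2 →L[ℝ] E 2 →L[ℝ] ℂ) : w4 0 C = 0 := by
  simp [w4]

theorem negativeAnswer : NegativeAnswer := by
  obtain ⟨X, hX, hex⟩ := exists_example
  refine ⟨X, hX, fun X' hbir => ⟨fun G => ?_⟩⟩
  have hX' : IsSurface X' := hX.of_birational hbir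
  obtain ⟨Ω, hΩ⟩ := exists_relKah G
  have hfib : IsFib G.π G.b G.g := ⟨G.gemb, G.grange⟩
  have hkah : Kah (pb2 2 G.g Ω) := hΩ.kah G.holo hfib
  obtain ⟨c, hc, hPD⟩ := hex X' hbir _ hkah
  have hch : ∀ t : G.B, ∃ (Y : CMfd 2) (ι : Y → G.T), t ≠ G.o → IsFib G.π t ι := by
    intro t
    by_cases ht : t = G.o
    · exact ⟨X', G.g, fun h => absurd ht h⟩
    · obtain ⟨Y, ι, h⟩ := exists_fib G.π G.holo t
        (fun x hx => G.smooth x (by rw [hx]; exact ht))
      exact ⟨Y, ι, fun _ => h⟩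
  choose Y ι hι using hch
  have hYt : ∀ t, t ≠ G.o → CptConn (Y t) ∧ PD (Y t) (pb2 2 (ι t) Ω) c := fun t ht =>
    transport G.connB G.o G.π G.holo G.proper G.smooth Ω hΩ G.hb ht hfib (hι t ht)
      ⟨hX'.cpt, hX'.conn⟩ c hPD
  have hFt : ∀ t, ∃ (F : Y t → Tor) (a : F1 2 (Y t)), t ≠ G.o → TF F a ∧ H1 a ∧
      Int4 (Y t) (pb2 2 (ι t) Ω) (Complex.I • wedge a (cj a)) (pb2 2 (ι t) Ω) = c := by
    intro t
    by_cases ht : t = G.o
    · exact ⟨fun _ => 0, 0, fun h => absurd ht h⟩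
    · obtain ⟨F, a, h⟩ := holo_of_PD (Y t) (hYt t ht).1 _ (hΩ.kah G.holo (hι t ht)) c hc
        (hYt t ht).2
      exact ⟨F, a, fun _ => h⟩
  choose F a hF using hFt
  obtain ⟨t, ht, hat⟩ := limit G Ω hΩ c Y ι hι (fun t ht => (hYt t ht).1) F a hF
  have h3 := (hF t ht).2.2
  rw [hat] at h3
  have h0 : Int4 (Y t) (pb2 2 (ι t) Ω) (Complex.I • wedge (0 : F1 2 (Y t)) (cj 0))
      (pb2 2 (ι t) Ω) = 0 := by
    have hw : (Complex.I • wedge (0 : F1 2 (Y t)) (cj 0)) = 0 := by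
      funext x
      ext u v
      simp [wedge]
    rw [hw]
    simp [Int4, w4_zero_left]
  rw [h0] at h3
  exact hc.ne (by exact_mod_cast h3)

end Pool.Agent.K708
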