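import Pool.Agent.Lib.K708.HdDefs

/-! # K708, Section A: linear algebra -/

set_option autoImplicit false

open scoped ContDiff Topology
open Set Metric MeasureTheory

noncomputable section

namespace Pool.Agent.K708.Hd

/-! ### Task HdAlg1 -/

theorem cG_add (α β : V →L[ℝ] ℝ) (j : Fin 2) : cG (α + β) j = cG α j + cG β j := by
  simp only [cG, add_apply]
  push_cast
  ring

theorem cG_smul (r : ℝ) (α : V →L[ℝ] ℝ) (j : Fin 2) : cG (r • α) j = (r : ℂ) * cG α j := by
  simp only [cG, smul_apply, smul_eq_mul]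
  push_cast
  ring

private theorem decomp (v : V) :
    v = ∑ j, ((v j).re • bb j + (v j).im • (Complex.I • bb j)) := by
  funext k
  rw [Finset.sum_apply, Fin.sum_univ_two]
  fin_cases k <;>
  · simp [bb, mul_comm Complex.I]

/-- a real covector is determined by its complex gradient -/
theorem apply_eq_cG (α : V →L[ℝ] ℝ) (v : V) : α v = 2 * (∑ j, cG α j * v j).re := by
  conv_lhs => rw [decomp v]
  rw [map_sum, Complex.re_sum, Finset.mul_sum]
  refine Finset.sum_congr rfl fun j _ => ?_
  rw [map_add, map_smul, map_smul, Complex.mul_re]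
  simp only [cG, smul_eq_mul]
  have e1 : (((α (bb j) : ℂ) - Complex.I * (α (Complex.I • bb j) : ℂ)) / 2).re
      = α (bb j) / 2 := by
    simp
  have e2 : (((α (bb j) : ℂ) - Complex.I * (α (Complex.I • bb j) : ℂ)) / 2).im
      = - α (Complex.I • bb j) / 2 := by
    simp
  rw [e1, e2]
  ring

/-- the real covector with given complex gradient -/
def ofG (p : Fin 2 → ℂ) : V →L[ℝ] ℝ :=
  (2 : ℝ) • ∑ j, Complex.reCLM.comp
    ((p j • (ContinuousLinearMap.proj (R := ℂ) (φ := fun _ : Fin 2 => ℂ) j)).restrictScalars ℝ)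

theorem ofG_apply (p : Fin 2 → ℂ) (v : V) : ofG p v = 2 * (∑ j, p j * v j).re := by
  simp only [ofG, smul_apply, smul_eq_mul, sum_apply, Complex.re_sum]
  rfl

theorem cG_ofG (p : Fin 2 → ℂ) (j : Fin 2) : cG (ofG p) j = p j := by
  have e1 : ∑ k, p k * bb j k = p j := by
    rw [Fin.sum_univ_two]
    fin_cases j <;> simp [bb]
  have e2 : ∑ k, p k * (Complex.I • bb j) k = Complex.I * p j := by
    rw [← e1, Finset.mul_sum]
    refine Finset.sum_congr rfl fun k _ => ?_
    rw [Pi.smul_apply, smul_eq_mul]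
    ring
  rw [cG, ofG_apply, ofG_apply, e1, e2]
  apply Complex.ext
  · simp
  · simp

theorem ofG_cG (α : V →L[ℝ] ℝ) : ofG (cG α) = α := by
  ext v
  rw [ofG_apply, ← apply_eq_cG]

private theorem norm_bb (j : Fin 2) : ‖bb j‖ = 1 := by
  rw [bb, Pi.norm_single, norm_one]

private theorem norm_Ibb (j : Fin 2) : ‖Complex.I • bb j‖ = 1 := by
  rw [norm_smul, Complex.norm_I, norm_bb, one_mul]

theorem norm_cG_le (α : V →L[ℝ] ℝ) (j : Fin 2) : ‖cG α j‖ ≤ ‖α‖ := by
  rw [cG, norm_div]
  have h1 := α.le_opNorm (bb j)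
  have h2 := α.le_opNorm (Complex.I • bb j)
  rw [norm_bb, mul_one] at h1
  rw [norm_Ibb, mul_one] at h2
  have h3 := norm_sub_le (α (bb j) : ℂ) (Complex.I * (α (Complex.I • bb j) : ℂ))
  rw [norm_mul, Complex.norm_I, one_mul, Complex.norm_real, Complex.norm_real] at h3
  rw [Complex.norm_ofNat, div_le_iff₀ (by norm_num)]
  linarith

theorem norm_ofG_le (p : Fin 2 → ℂ) : ‖ofG p‖ ≤ 4 * ‖p‖ := by
  refine ContinuousLinearMap.opNorm_le_bound _ (by positivity) fun v => ?_
  rw [ofG_apply, Real.norm_eq_abs, abs_mul, abs_of_pos (by norm_num : (0 : ℝ) < 2)]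
  have h1 : |(∑ j, p j * v j).re| ≤ ‖p‖ * ‖v‖ + ‖p‖ * ‖v‖ := by
    refine (Complex.abs_re_le_norm _).trans ((norm_sum_le _ _).trans ?_)
    rw [Fin.sum_univ_two, norm_mul, norm_mul]
    exact add_le_add (mul_le_mul (norm_le_pi_norm p 0) (norm_le_pi_norm v 0) (norm_nonneg _)
      (norm_nonneg _)) (mul_le_mul (norm_le_pi_norm p 1) (norm_le_pi_norm v 1) (norm_nonneg _)
      (norm_nonneg _))
  linarith

theorem en_add_left (C : Matrix (Fin 2) (Fin 2) ℂ) (α α' β : V →L[ℝ] ℝ) :
    en C (α + α') β = en C α β + en C α' β := by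
  simp only [en, cG_add, Fin.sum_univ_two]
  rw [← Complex.add_re]
  congr 1
  ring

theorem en_add_right (C : Matrix (Fin 2) (Fin 2) ℂ) (α β β' : V →L[ℝ] ℝ) :
    en C α (β + β') = en C α β + en C α β' := by
  simp only [en, cG_add, Fin.sum_univ_two, map_add]
  rw [← Complex.add_re]
  congr 1
  ring

theorem en_smul_left (C : Matrix (Fin 2) (Fin 2) ℂ) (r : ℝ) (α β : V →L[ℝ] ℝ) :
    en C (r • α) β = r * en C α β := by
  simp only [en, cG_smul, Fin.sum_univ_two]
  rw [← Complex.re_ofReal_mul]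
  congr 1
  ring

theorem en_smul_right (C : Matrix (Fin 2) (Fin 2) ℂ) (r : ℝ) (α β : V →L[ℝ] ℝ) :
    en C α (r • β) = r * en C α β := by
  simp only [en, cG_smul, Fin.sum_univ_two, map_mul, Complex.conj_ofReal]
  rw [← Complex.re_ofReal_mul]
  congr 1
  ring

theorem en_symm {C : Matrix (Fin 2) (Fin 2) ℂ} (hC : C.IsHermitian) (α β : V →L[ℝ] ℝ) :
    en C α β = en C β α := by
  have h : ∀ j k, C j k = (starRingEnd ℂ) (C k j) := fun j k => (hC.apply j k).symm
  rw [en, en, ← Complex.conj_re]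
  simp only [Fin.sum_univ_two, map_add, map_mul, Complex.conj_conj, ← h]
  congr 1
  ring

theorem adj_herm {G : Matrix (Fin 2) (Fin 2) ℂ} (hG : G.IsHermitian) :
    G.adjugate.IsHermitian := by
  rw [Matrix.IsHermitian, Matrix.adjugate_conjTranspose, hG.eq]

theorem cH_herm (B : V →L[ℝ] V →L[ℝ] ℝ) (hB : ∀ u v, B u v = B v u) : (cH B).IsHermitian := by
  ext j k
  rw [Matrix.conjTranspose_apply, cH, cH]
  simp only [star_div₀, star_add, star_mul', star_sub, Complex.star_def, Complex.conj_ofReal,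
    Complex.conj_I, map_ofNat]
  rw [hB (bb k) (bb j), hB (Complex.I • bb k) (Complex.I • bb j), hB (bb k) (Complex.I • bb j),
    hB (Complex.I • bb k) (bb j)]
  ring

/-- `tr(A)² = tr(A²) + 2 det A` for `A = C M` -/
theorem lp_sq {G : Matrix (Fin 2) (Fin 2) ℂ} (hG : G.IsHermitian) (B : V →L[ℝ] V →L[ℝ] ℝ)
    (hB : ∀ u v, B u v = B v u) :
    (lp G.adjugate B) ^ 2 = hn G.adjugate (cH B) + 2 * (G.det).re * ((cH B).det).re := by
  have hM := cH_herm B hB
  obtain ⟨M, hMM⟩ : ∃ M, M = cH B := ⟨_, rfl⟩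
  rw [lp, hn, ← hMM]
  rw [← hMM] at hM
  have g00 : (G 0 0).im = 0 := by
    have := congrArg Complex.im (hG.apply 0 0)
    simp only [Complex.star_def, Complex.conj_im] at this
    linarith
  have g11 : (G 1 1).im = 0 := by
    have := congrArg Complex.im (hG.apply 1 1)
    simp only [Complex.star_def, Complex.conj_im] at this
    linarith
  have m00 : (M 0 0).im = 0 := by
    have := congrArg Complex.im (hM.apply 0 0)
    simp only [Complex.star_def, Complex.conj_im] at this
    linarith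
  have m11 : (M 1 1).im = 0 := by
    have := congrArg Complex.im (hM.apply 1 1)
    simp only [Complex.star_def, Complex.conj_im] at this
    linarith
  have g10r : (G 1 0).re = (G 0 1).re := by
    have := congrArg Complex.re (hG.apply 1 0)
    simp only [Complex.star_def, Complex.conj_re] at this
    linarith
  have g10i : (G 1 0).im = - (G 0 1).im := by
    have := congrArg Complex.im (hG.apply 1 0)
    simp only [Complex.star_def, Complex.conj_im] at this
    linarith
  have m10r : (M 1 0).re = (M 0 1).re := by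
    have := congrArg Complex.re (hM.apply 1 0)
    simp only [Complex.star_def, Complex.conj_re] at this
    linarith
  have m10i : (M 1 0).im = - (M 0 1).im := by
    have := congrArg Complex.im (hM.apply 1 0)
    simp only [Complex.star_def, Complex.conj_im] at this
    linarith
  simp only [Matrix.adjugate_fin_two, Matrix.det_fin_two, Matrix.trace_fin_two,
    Matrix.mul_apply, Fin.sum_univ_two, Matrix.of_apply, Matrix.cons_val', Matrix.cons_val_zero,
    Matrix.cons_val_one, Matrix.cons_val_fin_one, Complex.add_re, Complex.sub_re, Complex.mul_re,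
    Complex.neg_re, Complex.add_im, Complex.sub_im, Complex.mul_im, Complex.neg_im,
    g00, g11, m00, m11, g10r, g10i, m10r, m10i]
  ring

/-! ### Task HdAlg2: transformation rules for a complex linear map `A` with matrix `J` -/

/-- the matrix of a complex linear map -/
def mat (A : V →L[ℂ] V) : Matrix (Fin 2) (Fin 2) ℂ := fun a b => A (bb b) a

/-- pull-back of a covector -/
def pbc (A : V →L[ℂ] V) (α : V →L[ℝ] ℝ) : V →L[ℝ] ℝ := α.comp (A.restrictScalars ℝ)

/-- pull-back of a bilinear form -/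
def pbb (A : V →L[ℂ] V) (B : V →L[ℝ] V →L[ℝ] ℝ) : V →L[ℝ] V →L[ℝ] ℝ :=
  B.bilinearComp (A.restrictScalars ℝ) (A.restrictScalars ℝ)

private theorem cdecomp (v : V) : v = ∑ j, v j • bb j := by
  funext k
  rw [Finset.sum_apply, Fin.sum_univ_two]
  fin_cases k <;> simp [bb]

private theorem half_apply (α : V →L[ℝ] ℝ) (v : V) :
    ((α v : ℂ) - Complex.I * (α (Complex.I • v) : ℂ)) / 2 = ∑ j, cG α j * v j := by
  have e1 : ∑ j, cG α j * (Complex.I • v) j = Complex.I * ∑ j, cG α j * v j := by
    rw [Finset.mul_sum]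
    refine Finset.sum_congr rfl fun k _ => ?_
    rw [Pi.smul_apply, smul_eq_mul]
    ring
  rw [apply_eq_cG α v, apply_eq_cG α (Complex.I • v), e1]
  apply Complex.ext
  · simp
  · simp
    ring

theorem cG_pbc (A : V →L[ℂ] V) (α : V →L[ℝ] ℝ) (j : Fin 2) :
    cG (pbc A α) j = ∑ a, mat A a j * cG α a := by
  have e1 : cG (pbc A α) j
      = ((α (A (bb j)) : ℂ) - Complex.I * (α (Complex.I • A (bb j)) : ℂ)) / 2 := by
    rw [← map_smul]
    rfl
  rw [e1, half_apply]
  refine Finset.sum_congr rfl fun a _ => ?_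
  rw [mul_comm]
  rfl

private def hh (B : V →L[ℝ] V →L[ℝ] ℝ) (u v : V) : ℂ :=
  ((B u v : ℂ) + (B (Complex.I • u) (Complex.I • v) : ℂ)
    + Complex.I * ((B u (Complex.I • v) : ℂ) - (B (Complex.I • u) v : ℂ))) / 4

private theorem hh_add_left (B : V →L[ℝ] V →L[ℝ] ℝ) (u u' v : V) :
    hh B (u + u') v = hh B u v + hh B u' v := by
  simp only [hh, smul_add, map_add, add_apply]
  push_cast
  ring

private theorem hh_add_right (B : V →L[ℝ] V →L[ℝ] ℝ) (u v v' : V) :
    hh B u (v + v') = hh B u v + hh B u v' := by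
  simp only [hh, smul_add, map_add, add_apply]
  push_cast
  ring

private theorem I_I_smul (u : V) : Complex.I • Complex.I • u = -u := by
  rw [smul_smul, Complex.I_mul_I, neg_one_smul]

private theorem csmul (c : ℂ) (u : V) : c • u = c.re • u + c.im • (Complex.I • u) := by
  funext k
  simp only [Pi.smul_apply, Pi.add_apply, smul_eq_mul, Complex.real_smul]
  conv_lhs => rw [← Complex.re_add_im c]
  ring

private theorem hh_smul_left (B : V →L[ℝ] V →L[ℝ] ℝ) (c : ℂ) (u v : V) :
    hh B (c • u) v = c * hh B u v := by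
  have e2 : Complex.I • (c • u) = c.re • (Complex.I • u) - c.im • u := by
    rw [csmul c u, smul_add, smul_comm _ c.re, smul_comm _ c.im, I_I_smul, smul_neg,
      sub_eq_add_neg]
  simp only [hh]
  rw [e2, csmul c u]
  simp only [map_add, map_sub, map_smul, add_apply, sub_apply, smul_apply, smul_eq_mul]
  push_cast
  conv_rhs => rw [← Complex.re_add_im c]
  linear_combination (-(c.im : ℂ) * (((B u) (Complex.I • v) : ℂ) - ((B (Complex.I • u)) v : ℂ)) / 4)
    * Complex.I_mul_I

private theorem hh_smul_right (B : V →L[ℝ] V →L[ℝ] ℝ) (c : ℂ) (u v : V) :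
    hh B u (c • v) = (starRingEnd ℂ) c * hh B u v := by
  have e2 : Complex.I • (c • v) = c.re • (Complex.I • v) - c.im • v := by
    rw [csmul c v, smul_add, smul_comm _ c.re, smul_comm _ c.im, I_I_smul, smul_neg,
      sub_eq_add_neg]
  have e3 : (starRingEnd ℂ) c = (c.re : ℂ) - c.im * Complex.I := by
    apply Complex.ext <;> simp
  simp only [hh]
  rw [e2, csmul c v, e3]
  simp only [map_add, map_sub, map_smul, add_apply, sub_apply, smul_apply, smul_eq_mul]
  push_cast
  linear_combination ((c.im : ℂ) * (((B u) (Complex.I • v) : ℂ) - ((B (Complex.I • u)) v : ℂ)) / 4)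
    * Complex.I_mul_I

theorem cH_pbb (A : V →L[ℂ] V) (B : V →L[ℝ] V →L[ℝ] ℝ) :
    cH (pbb A B) = (mat A).transpose * cH B * (mat A).map (starRingEnd ℂ) := by
  ext j k
  have e1 : cH (pbb A B) j k = hh B (A (bb j)) (A (bb k)) := by
    have e2 : ∀ j, Complex.I • A (bb j) = A (Complex.I • bb j) := fun j => (map_smul A _ _).symm
    simp only [hh, e2]
    rfl
  have e3 : ∀ j k, cH B j k = hh B (bb j) (bb k) := fun _ _ => rfl
  rw [e1, cdecomp (A (bb j)), cdecomp (A (bb k))]
  simp only [Fin.sum_univ_two, hh_add_left, hh_add_right, hh_smul_left, hh_smul_right,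
    Matrix.mul_apply, Matrix.transpose_apply, Matrix.map_apply, e3, mat]
  ring

private theorem en_eq (C : Matrix (Fin 2) (Fin 2) ℂ) (α β : V →L[ℝ] ℝ) :
    en C α β = (∑ j, ∑ k, C k j * cG α j * (starRingEnd ℂ) (cG β k)).re := rfl

private theorem re_mul_sq (z w : ℂ) : (z * (w * (starRingEnd ℂ) w)).re = z.re * ‖w‖ ^ 2 := by
  rw [Complex.mul_conj, Complex.normSq_eq_norm_sq, mul_comm, Complex.re_ofReal_mul, mul_comm]

private theorem form_pb (A : V →L[ℂ] V) (G : Matrix (Fin 2) (Fin 2) ℂ) (α β : V →L[ℝ] ℝ) :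
    en ((mat A).transpose * G * (mat A).map (starRingEnd ℂ)).adjugate (pbc A α) (pbc A β)
      = en G.adjugate α β * ‖(mat A).det‖ ^ 2 := by
  rw [en, en, ← re_mul_sq]
  congr 1
  simp only [cG_pbc, Matrix.adjugate_fin_two, Matrix.det_fin_two, Matrix.mul_apply,
    Fin.sum_univ_two, Matrix.of_apply, Matrix.cons_val', Matrix.cons_val_zero,
    Matrix.cons_val_one, Matrix.cons_val_fin_one, Matrix.transpose_apply, Matrix.map_apply,
    map_add, map_mul, map_sub]
  ring

theorem en_pb (A : V →L[ℂ] V) (G : Matrix (Fin 2) (Fin 2) ℂ) (α β : V →L[ℝ] ℝ) :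
    en ((mat A).transpose * G * (mat A).map (starRingEnd ℂ)).adjugate (pbc A α) (pbc A β)
      = en G.adjugate α β * ‖(mat A).det‖ ^ 2 := form_pb A G α β

theorem lp_pb (A : V →L[ℂ] V) (G : Matrix (Fin 2) (Fin 2) ℂ) (B : V →L[ℝ] V →L[ℝ] ℝ) :
    lp ((mat A).transpose * G * (mat A).map (starRingEnd ℂ)).adjugate (pbb A B)
      = lp G.adjugate B * ‖(mat A).det‖ ^ 2 := by
  rw [lp, lp, ← re_mul_sq]
  congr 1
  simp only [cH_pbb, Matrix.adjugate_fin_two, Matrix.det_fin_two, Matrix.mul_apply,
    Fin.sum_univ_two, Matrix.of_apply, Matrix.cons_val', Matrix.cons_val_zero,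
    Matrix.cons_val_one, Matrix.cons_val_fin_one, Matrix.transpose_apply, Matrix.map_apply,
    map_add, map_mul, map_sub]
  ring

theorem hn_pb (A : V →L[ℂ] V) (G M : Matrix (Fin 2) (Fin 2) ℂ) :
    hn ((mat A).transpose * G * (mat A).map (starRingEnd ℂ)).adjugate
        ((mat A).transpose * M * (mat A).map (starRingEnd ℂ))
      = hn G.adjugate M * (‖(mat A).det‖ ^ 2) ^ 2 := by
  obtain ⟨J, hJ⟩ : ∃ J, J = mat A := ⟨_, rfl⟩
  obtain ⟨L, hL⟩ : ∃ L : Matrix (Fin 2) (Fin 2) ℂ, L = J.map (starRingEnd ℂ) := ⟨_, rfl⟩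
  have hdet : L.det = (starRingEnd ℂ) J.det := by
    rw [hL]
    simp [Matrix.det_fin_two]
  rw [← hJ, ← hL, hn, hn]
  have e1 : (J.transpose * G * L).adjugate * (J.transpose * M * L)
      = J.det • (L.adjugate * (G.adjugate * M) * L) := by
    rw [Matrix.adjugate_mul_distrib, Matrix.adjugate_mul_distrib]
    have e2 : J.transpose.adjugate * J.transpose = J.det • 1 := by
      rw [Matrix.adjugate_mul, Matrix.det_transpose]
    calc L.adjugate * (G.adjugate * J.transpose.adjugate) * (J.transpose * M * L)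
        = L.adjugate * G.adjugate * (J.transpose.adjugate * J.transpose) * M * L := by
          simp only [Matrix.mul_assoc]
      _ = J.det • (L.adjugate * (G.adjugate * M) * L) := by
          rw [e2]
          simp only [Matrix.mul_smul, Matrix.smul_mul, Matrix.mul_one, Matrix.mul_assoc]
  have e3 : ((J.transpose * G * L).adjugate * (J.transpose * M * L)
      * (J.transpose * G * L).adjugate * (J.transpose * M * L)).trace
      = J.det * J.det * (L.det * L.det) * ((G.adjugate * M * G.adjugate * M).trace) := by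
    rw [Matrix.mul_assoc ((J.transpose * G * L).adjugate * (J.transpose * M * L)), e1]
    simp only [Matrix.mul_smul, Matrix.smul_mul, Matrix.trace_smul, smul_eq_mul]
    have e4 : L.adjugate * (G.adjugate * M) * L * (L.adjugate * (G.adjugate * M) * L)
        = L.det • (L.adjugate * ((G.adjugate * M * G.adjugate * M) * L)) := by
      calc L.adjugate * (G.adjugate * M) * L * (L.adjugate * (G.adjugate * M) * L)
          = L.adjugate * (G.adjugate * M) * (L * L.adjugate) * (G.adjugate * M) * L := by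
            simp only [Matrix.mul_assoc]
        _ = _ := by
            rw [Matrix.mul_adjugate]
            simp only [Matrix.mul_smul, Matrix.smul_mul, Matrix.mul_one, Matrix.mul_assoc]
    rw [e4, Matrix.trace_smul, Matrix.trace_mul_comm, Matrix.mul_assoc, Matrix.mul_adjugate]
    simp only [Matrix.mul_smul, Matrix.mul_one, Matrix.trace_smul, smul_eq_mul]
    ring
  rw [e3, hdet]
  have e5 : J.det * J.det * ((starRingEnd ℂ) J.det * (starRingEnd ℂ) J.det)
      = (((‖J.det‖ ^ 2) ^ 2 : ℝ) : ℂ) := by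
    rw [← Complex.normSq_eq_norm_sq]
    push_cast
    rw [← Complex.mul_conj]
    ring
  rw [e5, Complex.re_ofReal_mul, mul_comm]

theorem rr_pb (A : V →L[ℂ] V) (M : Matrix (Fin 2) (Fin 2) ℂ) (α β : V →L[ℝ] ℝ) :
    rr ((mat A).transpose * M * (mat A).map (starRingEnd ℂ)).adjugate (pbc A α) (pbc A β)
      = rr M.adjugate α β * ‖(mat A).det‖ ^ 2 := form_pb A M α β

theorem det_pb (A : V →L[ℂ] V) (M : Matrix (Fin 2) (Fin 2) ℂ) :
    (((mat A).transpose * M * (mat A).map (starRingEnd ℂ)).det).re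
      = (M.det).re * ‖(mat A).det‖ ^ 2 := by
  rw [← re_mul_sq]
  congr 1
  rw [Matrix.det_mul, Matrix.det_mul, Matrix.det_transpose]
  have hdet : ((mat A).map (starRingEnd ℂ)).det = (starRingEnd ℂ) (mat A).det := by
    simp [Matrix.det_fin_two]
  rw [hdet]
  ring

/-- the real determinant of a complex linear map -/
theorem real_det (A : V →L[ℂ] V) : (A.restrictScalars ℝ).det = ‖(mat A).det‖ ^ 2 := by
  have e1 : (A.restrictScalars ℝ).det = LinearMap.det ((A : V →ₗ[ℂ] V).restrictScalars ℝ) := rfl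
  rw [e1, LinearMap.det_restrictScalars, Algebra.norm_complex_apply, Complex.normSq_eq_norm_sq]
  have e2 : LinearMap.toMatrix' (A : V →ₗ[ℂ] V) = mat A := by
    ext a b
    rw [LinearMap.toMatrix'_apply, mat, bb]
    rfl
  rw [← e2, LinearMap.det_toMatrix']

end Pool.Agent.K708.Hd
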