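import Pool.Agent.Lib.K708.HdAlg

/-! # K708, Section A: uniform bounds on compact polydiscs -/

set_option autoImplicit false

open scoped ContDiff Topology
open Set Metric MeasureTheory

noncomputable section

namespace Pool.Agent.K708.Hd

namespace HdBounds

/-- real coordinates of a Hermitian matrix -/
theorem herm_coords {G : Matrix (Fin 2) (Fin 2) ℂ} (hG : G.IsHermitian) :
    ∃ a d b1 b2 : ℝ, G 0 0 = ⟨a, 0⟩ ∧ G 1 1 = ⟨d, 0⟩ ∧ G 0 1 = ⟨b1, b2⟩ ∧ G 1 0 = ⟨b1, -b2⟩ := by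
  have h00 := hG.apply 0 0
  have h11 := hG.apply 1 1
  have h10 := hG.apply 1 0
  refine ⟨(G 0 0).re, (G 1 1).re, (G 0 1).re, (G 0 1).im, ?_, ?_, ?_, ?_⟩
  · apply Complex.ext
    · rfl
    · have := congrArg Complex.im h00
      simp at this ⊢
      linarith
  · apply Complex.ext
    · rfl
    · have := congrArg Complex.im h11
      simp at this ⊢
      linarith
  · rfl
  · rw [← h10]
    rfl

theorem pos_coords {G : Matrix (Fin 2) (Fin 2) ℂ} {a d b1 b2 : ℝ}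
    (hp : ∀ v : V, v ≠ 0 → 0 < (∑ j, ∑ k, G j k * v j * (starRingEnd ℂ) (v k)).re)
    (h00 : G 0 0 = ⟨a, 0⟩) (h11 : G 1 1 = ⟨d, 0⟩) (h01 : G 0 1 = ⟨b1, b2⟩)
    (h10 : G 1 0 = ⟨b1, -b2⟩) : 0 < a ∧ 0 < d ∧ 0 < a * d - b1 ^ 2 - b2 ^ 2 := by
  have ha : 0 < a := by
    have h := hp ![1, 0] (fun h => by simpa using congrFun h 0)
    simpa [Fin.sum_univ_two, h00] using h
  have hd : 0 < d := by
    have h := hp ![0, 1] (fun h => by simpa using congrFun h 1)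
    simpa [Fin.sum_univ_two, h11] using h
  refine ⟨ha, hd, ?_⟩
  have h := hp ![⟨-b1, b2⟩, (a : ℂ)] (fun h => by
    have := congrFun h 1
    simp at this
    exact ha.ne' this)
  have h2 : (∑ j, ∑ k, G j k * (![⟨-b1, b2⟩, (a : ℂ)] : V) j
      * (starRingEnd ℂ) ((![⟨-b1, b2⟩, (a : ℂ)] : V) k)).re = a * (a * d - b1 ^ 2 - b2 ^ 2) := by
    simp only [Fin.sum_univ_two, h00, h11, h01, h10, Matrix.cons_val_zero, Matrix.cons_val_one,
      Matrix.cons_val_fin_one, Complex.add_re, Complex.mul_re, Complex.mul_im, Complex.conj_re,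
      Complex.conj_im, Complex.ofReal_re, Complex.ofReal_im]
    ring
  rw [h2] at h
  exact (mul_pos_iff_of_pos_left ha).1 h

theorem en_coords {G : Matrix (Fin 2) (Fin 2) ℂ} {a d b1 b2 : ℝ}
    (h00 : G 0 0 = ⟨a, 0⟩) (h11 : G 1 1 = ⟨d, 0⟩) (h01 : G 0 1 = ⟨b1, b2⟩)
    (h10 : G 1 0 = ⟨b1, -b2⟩) (α : V →L[ℝ] ℝ) :
    en G.adjugate α α = d * ((cG α 0).re ^ 2 + (cG α 0).im ^ 2)
      + a * ((cG α 1).re ^ 2 + (cG α 1).im ^ 2)
      - 2 * (b1 * ((cG α 0).re * (cG α 1).re + (cG α 0).im * (cG α 1).im)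
        + b2 * ((cG α 0).im * (cG α 1).re - (cG α 0).re * (cG α 1).im)) := by
  unfold en
  simp only [Fin.sum_univ_two, Matrix.adjugate_fin_two, Matrix.of_apply, Matrix.cons_val',
    Matrix.cons_val_zero, Matrix.cons_val_one, Matrix.cons_val_fin_one, h00, h11, h01, h10,
    Complex.add_re, Complex.mul_re, Complex.mul_im, Complex.conj_re, Complex.neg_re,
    Complex.neg_im, Complex.conj_im]
  ring

theorem hn_coords {G M : Matrix (Fin 2) (Fin 2) ℂ} {a d b1 b2 m q n1 n2 : ℝ}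
    (h00 : G 0 0 = ⟨a, 0⟩) (h11 : G 1 1 = ⟨d, 0⟩) (h01 : G 0 1 = ⟨b1, b2⟩)
    (h10 : G 1 0 = ⟨b1, -b2⟩) (m00 : M 0 0 = ⟨m, 0⟩) (m11 : M 1 1 = ⟨q, 0⟩)
    (m01 : M 0 1 = ⟨n1, n2⟩) (m10 : M 1 0 = ⟨n1, -n2⟩) :
    hn G.adjugate M = (d * m + a * q - 2 * (b1 * n1 + b2 * n2)) ^ 2
      - 2 * (a * d - b1 ^ 2 - b2 ^ 2) * (m * q - n1 ^ 2 - n2 ^ 2) := by
  unfold hn
  simp only [Matrix.trace_fin_two, Matrix.mul_apply, Fin.sum_univ_two, Matrix.adjugate_fin_two,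
    Matrix.of_apply, Matrix.cons_val',
    Matrix.cons_val_zero, Matrix.cons_val_one, Matrix.cons_val_fin_one, h00, h11, h01, h10,
    m00, m11, m01, m10, Complex.add_re, Complex.add_im, Complex.mul_re, Complex.mul_im,
    Complex.neg_re, Complex.neg_im]
  ring

theorem det_coords {G : Matrix (Fin 2) (Fin 2) ℂ} {a d b1 b2 : ℝ}
    (h00 : G 0 0 = ⟨a, 0⟩) (h11 : G 1 1 = ⟨d, 0⟩) (h01 : G 0 1 = ⟨b1, b2⟩)
    (h10 : G 1 0 = ⟨b1, -b2⟩) :
    G.det.re = a * d - b1 ^ 2 - b2 ^ 2 ∧ G.det.im = 0 := by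
  rw [Matrix.det_fin_two, h00, h11, h01, h10]
  simp only [Complex.sub_re, Complex.mul_re, Complex.sub_im, Complex.mul_im]
  constructor <;> ring

theorem norm_bb (j : Fin 2) : ‖bb j‖ = 1 := by
  unfold bb
  rw [Pi.norm_single]
  simp

theorem norm_Ibb (j : Fin 2) : ‖Complex.I • bb j‖ = 1 := by
  rw [norm_smul, norm_bb]
  simp

theorem norm_cH_le (B : V →L[ℝ] V →L[ℝ] ℝ) (j k : Fin 2) : ‖cH B j k‖ ≤ ‖B‖ := by
  have h : ∀ u v : V, ‖u‖ = 1 → ‖v‖ = 1 → ‖((B u v : ℝ) : ℂ)‖ ≤ ‖B‖ := by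
    intro u v hu hv
    rw [Complex.norm_real]
    have := B.le_opNorm₂ u v
    rw [hu, hv] at this
    simpa using this
  have h1 := h _ _ (norm_bb j) (norm_bb k)
  have h2 := h _ _ (norm_Ibb j) (norm_Ibb k)
  have h3 := h _ _ (norm_bb j) (norm_Ibb k)
  have h4 := h _ _ (norm_Ibb j) (norm_bb k)
  unfold cH
  rw [norm_div]
  have h5 : ‖(B (bb j) (bb k) : ℂ) + (B (Complex.I • bb j) (Complex.I • bb k) : ℂ)
      + Complex.I * ((B (bb j) (Complex.I • bb k) : ℂ) - (B (Complex.I • bb j) (bb k) : ℂ))‖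
      ≤ ‖B‖ + ‖B‖ + 1 * (‖B‖ + ‖B‖) := by
    refine (norm_add_le _ _).trans (add_le_add ((norm_add_le _ _).trans (add_le_add h1 h2)) ?_)
    rw [norm_mul, Complex.norm_I]
    gcongr
    exact (norm_sub_le _ _).trans (add_le_add h3 h4)
  have h6 : ‖(4 : ℂ)‖ = 4 := by simp
  rw [h6, div_le_iff₀ (by norm_num)]
  linarith

/-- bound of a covector by its complex gradient -/
theorem norm_sq_le (α : V →L[ℝ] ℝ) :
    ‖α‖ ^ 2 ≤ 8 * (‖cG α 0‖ ^ 2 + ‖cG α 1‖ ^ 2) := by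
  have h : ‖α‖ ≤ 2 * (‖cG α 0‖ + ‖cG α 1‖) := by
    apply ContinuousLinearMap.opNorm_le_bound _ (by positivity)
    intro v
    rw [apply_eq_cG, Fin.sum_univ_two, norm_mul, Real.norm_eq_abs, Real.norm_eq_abs]
    have h1 : |(cG α 0 * v 0 + cG α 1 * v 1).re| ≤ (‖cG α 0‖ + ‖cG α 1‖) * ‖v‖ := by
      refine (Complex.abs_re_le_norm _).trans ?_
      refine (norm_add_le _ _).trans ?_
      rw [norm_mul, norm_mul, add_mul]
      gcongr
      · exact norm_le_pi_norm v 0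
      · exact norm_le_pi_norm v 1
    rw [abs_of_pos (by norm_num : (0 : ℝ) < 2)]
    linarith
  have h0 : 0 ≤ ‖α‖ := norm_nonneg _
  have h3 : ‖α‖ ^ 2 ≤ (2 * (‖cG α 0‖ + ‖cG α 1‖)) ^ 2 := by gcongr
  nlinarith [sq_nonneg (‖cG α 0‖ - ‖cG α 1‖)]

theorem norm_sq_coords (w : ℂ) : ‖w‖ ^ 2 = w.re ^ 2 + w.im ^ 2 := by
  rw [Complex.sq_norm, Complex.normSq_apply]
  ring

/-- the explicit inequality for the Hessian term -/
theorem hn_real {a d b1 b2 m q n1 n2 K0 δ : ℝ} (ha : 0 < a) (hd : 0 < d)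
    (hD : 0 < a * d - b1 ^ 2 - b2 ^ 2) (haK : a ≤ K0) (hdK : d ≤ K0) (hδ0 : 0 < δ)
    (hδz : δ ≤ a * d - b1 ^ 2 - b2 ^ 2) (hK0 : 0 < K0)
    (hnn : 0 ≤ (d * m + a * q - 2 * (b1 * n1 + b2 * n2)) ^ 2
      - 2 * (a * d - b1 ^ 2 - b2 ^ 2) * (m * q - n1 ^ 2 - n2 ^ 2)) :
    δ / (16 * K0 ^ 2) * (m ^ 2 + q ^ 2 + 2 * (n1 ^ 2 + n2 ^ 2))
      ≤ ((d * m + a * q - 2 * (b1 * n1 + b2 * n2)) ^ 2
      - 2 * (a * d - b1 ^ 2 - b2 ^ 2) * (m * q - n1 ^ 2 - n2 ^ 2))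
        / (a * d - b1 ^ 2 - b2 ^ 2) := by
  set Δ := a * d - b1 ^ 2 - b2 ^ 2 with hΔ
  set N := (d * m + a * q - 2 * (b1 * n1 + b2 * n2)) ^ 2
    - 2 * Δ * (m * q - n1 ^ 2 - n2 ^ 2) with hN
  clear_value N Δ
  have k1 : Δ ^ 2 * q ^ 2 ≤ d ^ 2 * N := by
    have h1 : d ^ 2 * N - Δ ^ 2 * q ^ 2
        = (d ^ 2 * m - 2 * d * (b1 * n1 + b2 * n2) + (b1 ^ 2 + b2 ^ 2) * q) ^ 2
          + 2 * Δ * ((d * n1 - b1 * q) ^ 2 + (d * n2 - b2 * q) ^ 2) := by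
      rw [hN, hΔ]; ring
    have h2 : 0 ≤ (d ^ 2 * m - 2 * d * (b1 * n1 + b2 * n2) + (b1 ^ 2 + b2 ^ 2) * q) ^ 2
          + 2 * Δ * ((d * n1 - b1 * q) ^ 2 + (d * n2 - b2 * q) ^ 2) := by positivity
    linarith
  have k2 : Δ ^ 2 * m ^ 2 ≤ a ^ 2 * N := by
    have h1 : a ^ 2 * N - Δ ^ 2 * m ^ 2
        = (a ^ 2 * q - 2 * a * (b1 * n1 + b2 * n2) + (b1 ^ 2 + b2 ^ 2) * m) ^ 2
          + 2 * Δ * ((a * n1 - b1 * m) ^ 2 + (a * n2 - b2 * m) ^ 2) := by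
      rw [hN, hΔ]; ring
    have h2 : 0 ≤ (a ^ 2 * q - 2 * a * (b1 * n1 + b2 * n2) + (b1 ^ 2 + b2 ^ 2) * m) ^ 2
          + 2 * Δ * ((a * n1 - b1 * m) ^ 2 + (a * n2 - b2 * m) ^ 2) := by positivity
    linarith
  have k3 : 2 * Δ * ((d * n1 - b1 * q) ^ 2 + (d * n2 - b2 * q) ^ 2) ≤ d ^ 2 * N := by
    have h1 : d ^ 2 * N - 2 * Δ * ((d * n1 - b1 * q) ^ 2 + (d * n2 - b2 * q) ^ 2)
        = (d ^ 2 * m - 2 * d * (b1 * n1 + b2 * n2) + (b1 ^ 2 + b2 ^ 2) * q) ^ 2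
          + Δ ^ 2 * q ^ 2 := by
      rw [hN, hΔ]; ring
    have h2 : 0 ≤ (d ^ 2 * m - 2 * d * (b1 * n1 + b2 * n2) + (b1 ^ 2 + b2 ^ 2) * q) ^ 2
          + Δ ^ 2 * q ^ 2 := by positivity
    linarith
  -- `d² |n|² ≤ 2 |dn - bq|² + 2 |b|² q²`
  have k4 : d ^ 2 * (n1 ^ 2 + n2 ^ 2) ≤ 2 * ((d * n1 - b1 * q) ^ 2 + (d * n2 - b2 * q) ^ 2)
      + 2 * ((b1 ^ 2 + b2 ^ 2) * q ^ 2) := by
    nlinarith [sq_nonneg (d * n1 - 2 * (b1 * q)), sq_nonneg (d * n2 - 2 * (b2 * q))]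
  have k5 : Δ ^ 2 * (n1 ^ 2 + n2 ^ 2) ≤ (Δ + 2 * (b1 ^ 2 + b2 ^ 2)) * N := by
    have h1 : d ^ 2 * (Δ ^ 2 * (n1 ^ 2 + n2 ^ 2))
        ≤ d ^ 2 * ((Δ + 2 * (b1 ^ 2 + b2 ^ 2)) * N) := by
      calc d ^ 2 * (Δ ^ 2 * (n1 ^ 2 + n2 ^ 2)) = Δ ^ 2 * (d ^ 2 * (n1 ^ 2 + n2 ^ 2)) := by ring
        _ ≤ Δ ^ 2 * (2 * ((d * n1 - b1 * q) ^ 2 + (d * n2 - b2 * q) ^ 2)
          + 2 * ((b1 ^ 2 + b2 ^ 2) * q ^ 2)) := by gcongr
        _ = Δ * (2 * Δ * ((d * n1 - b1 * q) ^ 2 + (d * n2 - b2 * q) ^ 2))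
          + 2 * (b1 ^ 2 + b2 ^ 2) * (Δ ^ 2 * q ^ 2) := by ring
        _ ≤ Δ * (d ^ 2 * N) + 2 * (b1 ^ 2 + b2 ^ 2) * (d ^ 2 * N) := by gcongr
        _ = d ^ 2 * ((Δ + 2 * (b1 ^ 2 + b2 ^ 2)) * N) := by ring
    exact le_of_mul_le_mul_left h1 (by positivity)
  have hb : b1 ^ 2 + b2 ^ 2 = a * d - Δ := by rw [hΔ]; ring
  have k6 : Δ ^ 2 * (m ^ 2 + q ^ 2 + 2 * (n1 ^ 2 + n2 ^ 2)) ≤ 16 * K0 ^ 2 * N := by
    have h1 : Δ ^ 2 * (m ^ 2 + q ^ 2 + 2 * (n1 ^ 2 + n2 ^ 2))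
        ≤ (a ^ 2 + d ^ 2 + 2 * (Δ + 2 * (b1 ^ 2 + b2 ^ 2))) * N := by
      have e1 : Δ ^ 2 * (m ^ 2 + q ^ 2 + 2 * (n1 ^ 2 + n2 ^ 2))
        = Δ ^ 2 * m ^ 2 + Δ ^ 2 * q ^ 2 + 2 * (Δ ^ 2 * (n1 ^ 2 + n2 ^ 2)) := by ring
      have e2 : (a ^ 2 + d ^ 2 + 2 * (Δ + 2 * (b1 ^ 2 + b2 ^ 2))) * N
        = a ^ 2 * N + d ^ 2 * N + 2 * ((Δ + 2 * (b1 ^ 2 + b2 ^ 2)) * N) := by ring
      rw [e1, e2]
      linarith
    refine h1.trans (mul_le_mul_of_nonneg_right ?_ hnn)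
    rw [hb]
    nlinarith [mul_pos ha hd, sq_nonneg (a - d)]
  rw [le_div_iff₀ hD, div_mul_eq_mul_div, div_mul_eq_mul_div, div_le_iff₀ (by positivity)]
  have hT : 0 ≤ m ^ 2 + q ^ 2 + 2 * (n1 ^ 2 + n2 ^ 2) := by positivity
  calc δ * (m ^ 2 + q ^ 2 + 2 * (n1 ^ 2 + n2 ^ 2)) * Δ
      ≤ Δ * (m ^ 2 + q ^ 2 + 2 * (n1 ^ 2 + n2 ^ 2)) * Δ := by gcongr
    _ = Δ ^ 2 * (m ^ 2 + q ^ 2 + 2 * (n1 ^ 2 + n2 ^ 2)) := by ring
    _ ≤ N * (16 * K0 ^ 2) := by linarith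

end HdBounds

open HdBounds

/-! ### Task HdBounds -/

theorem det_pos {G : V → Matrix (Fin 2) (Fin 2) ℂ} (hG : IsK G) {z : V}
    (hz : z ∈ ball (0 : V) 3) : 0 < ((G z).det).re ∧ ((G z).det).im = 0 := by
  obtain ⟨a, d, b1, b2, h00, h11, h01, h10⟩ := herm_coords (hG.herm z hz)
  obtain ⟨ha, hd, hD⟩ := pos_coords (hG.pos z hz) h00 h11 h01 h10
  obtain ⟨h1, h2⟩ := det_coords h00 h11 h01 h10
  exact ⟨h1 ▸ hD, h2⟩

theorem en_nonneg {G : V → Matrix (Fin 2) (Fin 2) ℂ} (hG : IsK G) {z : V}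
    (hz : z ∈ ball (0 : V) 3) (α : V →L[ℝ] ℝ) : 0 ≤ en (G z).adjugate α α := by
  obtain ⟨a, d, b1, b2, h00, h11, h01, h10⟩ := herm_coords (hG.herm z hz)
  obtain ⟨ha, hd, hD⟩ := pos_coords (hG.pos z hz) h00 h11 h01 h10
  rw [en_coords h00 h11 h01 h10]
  set x0 := (cG α 0).re
  set y0 := (cG α 0).im
  set x1 := (cG α 1).re
  set y1 := (cG α 1).im
  have h : 0 ≤ d * (d * (x0 ^ 2 + y0 ^ 2) + a * (x1 ^ 2 + y1 ^ 2)
      - 2 * (b1 * (x0 * x1 + y0 * y1) + b2 * (y0 * x1 - x0 * y1))) := by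
    have h1 : d * (d * (x0 ^ 2 + y0 ^ 2) + a * (x1 ^ 2 + y1 ^ 2)
      - 2 * (b1 * (x0 * x1 + y0 * y1) + b2 * (y0 * x1 - x0 * y1)))
      = (d * x0 - b1 * x1 + b2 * y1) ^ 2 + (d * y0 - b1 * y1 - b2 * x1) ^ 2
        + (a * d - b1 ^ 2 - b2 ^ 2) * (x1 ^ 2 + y1 ^ 2) := by ring
    rw [h1]
    positivity
  exact nonneg_of_mul_nonneg_right h hd

/-- Cauchy-Schwarz -/
theorem en_sq_le {G : V → Matrix (Fin 2) (Fin 2) ℂ} (hG : IsK G) {z : V}
    (hz : z ∈ ball (0 : V) 3) (α β : V →L[ℝ] ℝ) :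
    (en (G z).adjugate α β) ^ 2 ≤ en (G z).adjugate α α * en (G z).adjugate β β := by
  have hsym := en_symm (adj_herm (hG.herm z hz)) α β
  have h : ∀ t : ℝ, 0 ≤ en (G z).adjugate β β * (t * t) + 2 * en (G z).adjugate α β * t
      + en (G z).adjugate α α := by
    intro t
    have h1 := en_nonneg hG hz (α + t • β)
    rw [en_add_left, en_add_right, en_add_right, en_smul_left, en_smul_left, en_smul_right,
      en_smul_right, ← hsym] at h1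
    linarith
  have h2 := discrim_le_zero h
  unfold discrim at h2
  linarith

theorem hn_nonneg {G : V → Matrix (Fin 2) (Fin 2) ℂ} (hG : IsK G) {z : V}
    (hz : z ∈ ball (0 : V) 3) {M : Matrix (Fin 2) (Fin 2) ℂ} (hM : M.IsHermitian) :
    0 ≤ hn (G z).adjugate M := by
  obtain ⟨a, d, b1, b2, h00, h11, h01, h10⟩ := herm_coords (hG.herm z hz)
  obtain ⟨ha, hd, hD⟩ := pos_coords (hG.pos z hz) h00 h11 h01 h10
  obtain ⟨m, q, n1, n2, m00, m11, m01, m10⟩ := herm_coords hM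
  rw [hn_coords h00 h11 h01 h10 m00 m11 m01 m10]
  have h : 0 ≤ d ^ 2 * ((d * m + a * q - 2 * (b1 * n1 + b2 * n2)) ^ 2
      - 2 * (a * d - b1 ^ 2 - b2 ^ 2) * (m * q - n1 ^ 2 - n2 ^ 2)) := by
    have h1 : d ^ 2 * ((d * m + a * q - 2 * (b1 * n1 + b2 * n2)) ^ 2
      - 2 * (a * d - b1 ^ 2 - b2 ^ 2) * (m * q - n1 ^ 2 - n2 ^ 2))
      = (d ^ 2 * m - 2 * d * (b1 * n1 + b2 * n2) + (b1 ^ 2 + b2 ^ 2) * q) ^ 2
        + (a * d - b1 ^ 2 - b2 ^ 2) ^ 2 * q ^ 2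
        + 2 * (a * d - b1 ^ 2 - b2 ^ 2) * ((d * n1 - b1 * q) ^ 2 + (d * n2 - b2 * q) ^ 2) := by
      ring
    rw [h1]
    positivity
  exact nonneg_of_mul_nonneg_right h (by positivity)

theorem bounds {G : V → Matrix (Fin 2) (Fin 2) ℂ} (hG : IsK G) :
    ∃ c : ℝ, 0 < c ∧ ∃ Kc : ℝ, 0 < Kc ∧ ∀ z ∈ closedBall (0 : V) 2,
      (∀ α : V →L[ℝ] ℝ, c * ‖α‖ ^ 2 ≤ en (G z).adjugate α α ∧
        en (G z).adjugate α α ≤ Kc * ‖α‖ ^ 2) ∧
      (c ≤ ((G z).det).re ∧ ((G z).det).re ≤ Kc) ∧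
      (∀ j k, ‖(G z).adjugate j k‖ ≤ Kc) ∧
      (∀ B : V →L[ℝ] V →L[ℝ] ℝ, |lp (G z).adjugate B| ≤ Kc * ‖B‖) ∧
      ∀ M : Matrix (Fin 2) (Fin 2) ℂ, M.IsHermitian →
        c * ∑ j, ∑ k, ‖M j k‖ ^ 2 ≤ hn (G z).adjugate M / ((G z).det).re := by
  have hsub : closedBall (0 : V) 2 ⊆ ball (0 : V) 3 := closedBall_subset_ball (by norm_num)
  have hcG : ∀ j k, ContinuousOn (fun z => G z j k) (closedBall (0 : V) 2) := fun j k =>
    (hG.s j k).continuousOn.mono hsub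
  -- upper bound of the entries
  have hub : ∀ j k, ∃ C, ∀ z ∈ closedBall (0 : V) 2, ‖G z j k‖ ≤ C := fun j k =>
    (isCompact_closedBall (0 : V) 2).exists_bound_of_continuousOn (hcG j k)
  choose C hC using hub
  set K0 : ℝ := 1 + ∑ j, ∑ k, |C j k| with hK0
  have hK1 : 1 ≤ K0 := by
    have : 0 ≤ ∑ j, ∑ k, |C j k| := by positivity
    linarith
  have hK : ∀ j k, ∀ z ∈ closedBall (0 : V) 2, ‖G z j k‖ ≤ K0 := by
    intro j k z hz
    have h1 : |C j k| ≤ ∑ k, |C j k| :=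
      Finset.single_le_sum (f := fun k => |C j k|) (fun _ _ => abs_nonneg _) (Finset.mem_univ k)
    have h2 : ∑ k, |C j k| ≤ ∑ j, ∑ k, |C j k| :=
      Finset.single_le_sum (f := fun j => ∑ k, |C j k|) (fun _ _ => by positivity)
        (Finset.mem_univ j)
    linarith [hC j k z hz, le_abs_self (C j k)]
  -- lower bound of the determinant
  have hdetc : ContinuousOn (fun z => ((G z).det).re) (closedBall (0 : V) 2) := by
    apply Complex.continuous_re.comp_continuousOn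
    simp only [Matrix.det_fin_two]
    exact ((hcG 0 0).mul (hcG 1 1)).sub ((hcG 0 1).mul (hcG 1 0))
  obtain ⟨z0, hz0, hmin⟩ := (isCompact_closedBall (0 : V) 2).exists_isMinOn
    ⟨0, by simp⟩ hdetc
  set δ : ℝ := ((G z0).det).re with hδ
  have hδ0 : 0 < δ := (det_pos hG (hsub hz0)).1
  refine ⟨δ / (16 * K0 ^ 2), by positivity, 4 * K0 ^ 2, by positivity, fun z hz => ?_⟩
  have hz3 := hsub hz
  obtain ⟨a, d, b1, b2, h00, h11, h01, h10⟩ := herm_coords (hG.herm z hz3)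
  obtain ⟨ha, hd, hD⟩ := pos_coords (hG.pos z hz3) h00 h11 h01 h10
  obtain ⟨hdet, -⟩ := det_coords h00 h11 h01 h10
  have hδz : δ ≤ a * d - b1 ^ 2 - b2 ^ 2 := by
    rw [← hdet]
    exact hmin hz
  have hre : ∀ (w : ℂ), |w.re| ≤ ‖w‖ := Complex.abs_re_le_norm
  have haK : a ≤ K0 := by
    have h1 := hK 0 0 z hz
    rw [h00] at h1
    exact (le_abs_self a).trans ((hre ⟨a, 0⟩).trans h1)
  have hdK : d ≤ K0 := by
    have h1 := hK 1 1 z hz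
    rw [h11] at h1
    exact (le_abs_self d).trans ((hre ⟨d, 0⟩).trans h1)
  have hadK : a * d - b1 ^ 2 - b2 ^ 2 ≤ K0 ^ 2 := by nlinarith [sq_nonneg b1, sq_nonneg b2]
  have hadjK : ∀ j k, ‖(G z).adjugate j k‖ ≤ K0 := by
    intro j k
    have e00 : (G z).adjugate 0 0 = G z 1 1 := by simp [Matrix.adjugate_fin_two]
    have e01 : (G z).adjugate 0 1 = - G z 0 1 := by simp [Matrix.adjugate_fin_two]
    have e10 : (G z).adjugate 1 0 = - G z 1 0 := by simp [Matrix.adjugate_fin_two]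
    have e11 : (G z).adjugate 1 1 = G z 0 0 := by simp [Matrix.adjugate_fin_two]
    fin_cases j <;> fin_cases k
    · simp only [Fin.zero_eta]; rw [e00]; exact hK 1 1 z hz
    · simp only [Fin.zero_eta, Fin.mk_one]; rw [e01, norm_neg]; exact hK 0 1 z hz
    · simp only [Fin.zero_eta, Fin.mk_one]; rw [e10, norm_neg]; exact hK 1 0 z hz
    · simp only [Fin.mk_one]; rw [e11]; exact hK 0 0 z hz
  have hKK : K0 ≤ 4 * K0 ^ 2 := by nlinarith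
  refine ⟨fun α => ⟨?_, ?_⟩, ⟨?_, ?_⟩, fun j k => (hadjK j k).trans hKK, fun B => ?_,
    fun M hM => ?_⟩
  · -- lower bound of the energy
    have h1 := norm_sq_le α
    rw [norm_sq_coords, norm_sq_coords] at h1
    rw [en_coords h00 h11 h01 h10]
    set x0 := (cG α 0).re
    set y0 := (cG α 0).im
    set x1 := (cG α 1).re
    set y1 := (cG α 1).im
    have hkey : (a * d - b1 ^ 2 - b2 ^ 2) * (x0 ^ 2 + y0 ^ 2 + (x1 ^ 2 + y1 ^ 2))
        ≤ (a + d) * (d * (x0 ^ 2 + y0 ^ 2) + a * (x1 ^ 2 + y1 ^ 2)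
      - 2 * (b1 * (x0 * x1 + y0 * y1) + b2 * (y0 * x1 - x0 * y1))) := by
      have h2 : (a + d) * (d * (x0 ^ 2 + y0 ^ 2) + a * (x1 ^ 2 + y1 ^ 2)
        - 2 * (b1 * (x0 * x1 + y0 * y1) + b2 * (y0 * x1 - x0 * y1)))
        - (a * d - b1 ^ 2 - b2 ^ 2) * (x0 ^ 2 + y0 ^ 2 + (x1 ^ 2 + y1 ^ 2))
        = (d * x0 - b1 * x1 + b2 * y1) ^ 2 + (d * y0 - b1 * y1 - b2 * x1) ^ 2
          + ((a * x1 - b1 * x0 - b2 * y0) ^ 2 + (a * y1 - b1 * y0 + b2 * x0) ^ 2) := by ring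
      have h3 : 0 ≤ (d * x0 - b1 * x1 + b2 * y1) ^ 2 + (d * y0 - b1 * y1 - b2 * x1) ^ 2
          + ((a * x1 - b1 * x0 - b2 * y0) ^ 2 + (a * y1 - b1 * y0 + b2 * x0) ^ 2) := by
        positivity
      linarith
    set S := x0 ^ 2 + y0 ^ 2 + (x1 ^ 2 + y1 ^ 2) with hS
    set Q := d * (x0 ^ 2 + y0 ^ 2) + a * (x1 ^ 2 + y1 ^ 2)
      - 2 * (b1 * (x0 * x1 + y0 * y1) + b2 * (y0 * x1 - x0 * y1))
    have hS0 : 0 ≤ S := by positivity
    have h4 : δ * S ≤ 2 * K0 * Q := by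
      have hQ0 : 0 ≤ Q := by
        have h5 : 0 ≤ (a + d) * Q := le_trans (by positivity) hkey
        exact nonneg_of_mul_nonneg_right h5 (by positivity)
      calc δ * S ≤ (a * d - b1 ^ 2 - b2 ^ 2) * S := by gcongr
        _ ≤ (a + d) * Q := hkey
        _ ≤ 2 * K0 * Q := by gcongr; linarith
    rw [div_mul_eq_mul_div, div_le_iff₀ (by positivity)]
    calc δ * ‖α‖ ^ 2 ≤ δ * (8 * S) := by gcongr
      _ = 8 * (δ * S) := by ring
      _ ≤ 8 * (2 * K0 * Q) := by gcongr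
      _ ≤ Q * (16 * K0 ^ 2) := by
        have hQ0 : 0 ≤ Q := by
          have h5 : 0 ≤ (a + d) * Q := le_trans (by positivity) hkey
          exact nonneg_of_mul_nonneg_right h5 (by positivity)
        nlinarith [mul_nonneg hQ0 (mul_nonneg (by linarith : (0 : ℝ) ≤ K0)
          (by linarith : (0 : ℝ) ≤ K0 - 1))]
  · -- upper bound of the energy
    have h0 := norm_cG_le α 0
    have h1 := norm_cG_le α 1
    have h0' : ‖cG α 0‖ ^ 2 ≤ ‖α‖ ^ 2 := by gcongr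
    have h1' : ‖cG α 1‖ ^ 2 ≤ ‖α‖ ^ 2 := by gcongr
    rw [norm_sq_coords] at h0' h1'
    rw [en_coords h00 h11 h01 h10]
    set x0 := (cG α 0).re
    set y0 := (cG α 0).im
    set x1 := (cG α 1).re
    set y1 := (cG α 1).im
    have hkey : d * (x0 ^ 2 + y0 ^ 2) + a * (x1 ^ 2 + y1 ^ 2)
      - 2 * (b1 * (x0 * x1 + y0 * y1) + b2 * (y0 * x1 - x0 * y1))
        ≤ (a + d) * (x0 ^ 2 + y0 ^ 2 + (x1 ^ 2 + y1 ^ 2)) := by
      have h2 : 0 ≤ a * ((a + d) * (x0 ^ 2 + y0 ^ 2 + (x1 ^ 2 + y1 ^ 2))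
        - (d * (x0 ^ 2 + y0 ^ 2) + a * (x1 ^ 2 + y1 ^ 2)
          - 2 * (b1 * (x0 * x1 + y0 * y1) + b2 * (y0 * x1 - x0 * y1)))) := by
        have h3 : a * ((a + d) * (x0 ^ 2 + y0 ^ 2 + (x1 ^ 2 + y1 ^ 2))
          - (d * (x0 ^ 2 + y0 ^ 2) + a * (x1 ^ 2 + y1 ^ 2)
            - 2 * (b1 * (x0 * x1 + y0 * y1) + b2 * (y0 * x1 - x0 * y1))))
          = (a * x0 + b1 * x1 - b2 * y1) ^ 2 + (a * y0 + b1 * y1 + b2 * x1) ^ 2
            + (a * d - b1 ^ 2 - b2 ^ 2) * (x1 ^ 2 + y1 ^ 2) := by ring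
        rw [h3]
        positivity
      have h4 := nonneg_of_mul_nonneg_right h2 ha
      linarith
    refine hkey.trans ?_
    calc (a + d) * (x0 ^ 2 + y0 ^ 2 + (x1 ^ 2 + y1 ^ 2))
        ≤ (2 * K0) * (‖α‖ ^ 2 + ‖α‖ ^ 2) := by gcongr <;> linarith
      _ = 4 * K0 * ‖α‖ ^ 2 := by ring
      _ ≤ 4 * K0 ^ 2 * ‖α‖ ^ 2 := by
        gcongr
        nlinarith
  · rw [hdet]
    refine le_trans ?_ hδz
    rw [div_le_iff₀ (by positivity)]
    nlinarith [mul_pos hδ0 (by positivity : (0 : ℝ) < K0 ^ 2)]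
  · rw [hdet]
    nlinarith
  · -- the Laplacian
    unfold lp
    refine (Complex.abs_re_le_norm _).trans ?_
    have hterm : ∀ j k, ‖(G z).adjugate k j * cH B j k‖ ≤ K0 * ‖B‖ := by
      intro j k
      rw [norm_mul]
      gcongr
      · exact hadjK k j
      · exact norm_cH_le B j k
    calc ‖∑ j, ∑ k, (G z).adjugate k j * cH B j k‖
        ≤ ∑ j : Fin 2, ∑ k : Fin 2, K0 * ‖B‖ :=
          norm_sum_le_of_le _ fun j _ => norm_sum_le_of_le _ fun k _ => hterm j k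
      _ = 4 * K0 * ‖B‖ := by simp; ring
      _ ≤ 4 * K0 ^ 2 * ‖B‖ := by
        gcongr
        nlinarith
  · -- the Hessian
    obtain ⟨m, q, n1, n2, m00, m11, m01, m10⟩ := herm_coords hM
    have hnn := hn_nonneg hG hz3 hM
    rw [hn_coords h00 h11 h01 h10 m00 m11 m01 m10] at hnn ⊢
    rw [hdet]
    have hsum : ∑ j, ∑ k, ‖M j k‖ ^ 2 = m ^ 2 + q ^ 2 + 2 * (n1 ^ 2 + n2 ^ 2) := by
      simp only [Fin.sum_univ_two, norm_sq_coords, m00, m11, m01, m10]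
      ring
    rw [hsum]
    exact hn_real ha hd hD haK hdK hδ0 hδz (by linarith) hnn

/-! ### Task HdCont: smoothness of the ingredients -/

theorem adj_smooth {G : V → Matrix (Fin 2) (Fin 2) ℂ} (hG : IsK G) (j k : Fin 2) :
    ContDiffOn ℝ ∞ (fun z => (G z).adjugate j k) (ball 0 3) := by
  have e00 : (fun z => (G z).adjugate 0 0) = fun z => G z 1 1 := by
    funext y; simp [Matrix.adjugate_fin_two]
  have e01 : (fun z => (G z).adjugate 0 1) = fun z => - G z 0 1 := by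
    funext y; simp [Matrix.adjugate_fin_two]
  have e10 : (fun z => (G z).adjugate 1 0) = fun z => - G z 1 0 := by
    funext y; simp [Matrix.adjugate_fin_two]
  have e11 : (fun z => (G z).adjugate 1 1) = fun z => G z 0 0 := by
    funext y; simp [Matrix.adjugate_fin_two]
  fin_cases j <;> fin_cases k
  · simp only [Fin.zero_eta]; rw [e00]; exact hG.s 1 1
  · simp only [Fin.zero_eta, Fin.mk_one]; rw [e01]; exact (hG.s 0 1).neg
  · simp only [Fin.zero_eta, Fin.mk_one]; rw [e10]; exact (hG.s 1 0).neg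
  · simp only [Fin.mk_one]; rw [e11]; exact hG.s 0 0

theorem HdBounds.re_smooth {F : V → ℂ} {s : Set V} (hF : ContDiffOn ℝ ∞ F s) :
    ContDiffOn ℝ ∞ (fun z => (F z).re) s :=
  Complex.reCLM.contDiff.comp_contDiffOn hF

theorem det_smooth {G : V → Matrix (Fin 2) (Fin 2) ℂ} (hG : IsK G) :
    ContDiffOn ℝ ∞ (fun z => ((G z).det).re) (ball 0 3) := by
  apply HdBounds.re_smooth
  simp only [Matrix.det_fin_two]
  exact ((hG.s 0 0).mul (hG.s 1 1)).sub ((hG.s 0 1).mul (hG.s 1 0))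

theorem fderiv_smooth {f : V → ℝ} {r : ℝ} (hf : ContDiffOn ℝ ∞ f (ball 0 r)) :
    ContDiffOn ℝ ∞ (fderiv ℝ f) (ball 0 r) :=
  hf.fderiv_of_isOpen isOpen_ball (by simp)

theorem D2_smooth {f : V → ℝ} {r : ℝ} (hf : ContDiffOn ℝ ∞ f (ball 0 r)) :
    ContDiffOn ℝ ∞ (D2 f) (ball 0 r) :=
  (fderiv_smooth hf).fderiv_of_isOpen isOpen_ball (by simp)

theorem D2_symm {f : V → ℝ} {r : ℝ} (hf : ContDiffOn ℝ ∞ f (ball 0 r)) {z : V}
    (hz : z ∈ ball (0 : V) r) (u v : V) : D2 f z u v = D2 f z v u := by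
  have h : ContDiffAt ℝ ∞ f z := hf.contDiffAt (isOpen_ball.mem_nhds hz)
  have hs : IsSymmSndFDerivAt ℝ f z := h.isSymmSndFDerivAt (by
    simp only [minSmoothness_of_isRCLikeNormedField]
    exact WithTop.coe_le_coe.2 (le_top : (2 : ℕ∞) ≤ ⊤))
  exact hs u v

namespace HdBounds

theorem ofReal_smooth {h : V → ℝ} {s : Set V} (hh : ContDiffOn ℝ ∞ h s) :
    ContDiffOn ℝ ∞ (fun z => (h z : ℂ)) s :=
  Complex.ofRealCLM.contDiff.comp_contDiffOn hh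

end HdBounds

theorem cG_smooth {f : V → ℝ} {r : ℝ} (hf : ContDiffOn ℝ ∞ f (ball 0 r)) (j : Fin 2) :
    ContDiffOn ℝ ∞ (fun z => cG (fderiv ℝ f z) j) (ball 0 r) := by
  unfold cG
  have h : ∀ v : V, ContDiffOn ℝ ∞ (fun z => ((fderiv ℝ f z v : ℝ) : ℂ)) (ball 0 r) := fun v =>
    HdBounds.ofReal_smooth ((fderiv_smooth hf).clm_apply contDiffOn_const)
  exact ((h _).sub (contDiffOn_const.mul (h _))).div_const _

theorem MH_smooth {f : V → ℝ} {r : ℝ} (hf : ContDiffOn ℝ ∞ f (ball 0 r)) (j k : Fin 2) :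
    ContDiffOn ℝ ∞ (fun z => MH f z j k) (ball 0 r) := by
  unfold MH cH
  have h : ∀ u v : V, ContDiffOn ℝ ∞ (fun z => ((D2 f z u v : ℝ) : ℂ)) (ball 0 r) := fun u v =>
    HdBounds.ofReal_smooth (((D2_smooth hf).clm_apply contDiffOn_const).clm_apply
      contDiffOn_const)
  exact (((h _ _).add (h _ _)).add (contDiffOn_const.mul ((h _ _).sub (h _ _)))).div_const _

/-- `∂bar_l ∂_j f` is the entry `(j, l)` of the complex Hessian -/
theorem wb_cG {f : V → ℝ} {r : ℝ} (hf : ContDiffOn ℝ ∞ f (ball 0 r)) {z : V}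
    (hz : z ∈ ball (0 : V) r) (j l : Fin 2) :
    wb l (fun w => cG (fderiv ℝ f w) j) z = MH f z j l := by
  have hd : DifferentiableAt ℝ (fderiv ℝ f) z :=
    ((fderiv_smooth hf).contDiffAt (isOpen_ball.mem_nhds hz)).differentiableAt (by simp)
  have h1 : ∀ v : V, HasFDerivAt (fun w => ((fderiv ℝ f w v : ℝ) : ℂ))
      (Complex.ofRealCLM.comp ((ContinuousLinearMap.apply ℝ ℝ v).comp (D2 f z))) z := by
    intro v
    have h2 : HasFDerivAt (fun w => fderiv ℝ f w v)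
        ((ContinuousLinearMap.apply ℝ ℝ v).comp (D2 f z)) z :=
      (ContinuousLinearMap.apply ℝ ℝ v).hasFDerivAt.comp z hd.hasFDerivAt
    exact Complex.ofRealCLM.hasFDerivAt.comp z h2
  have h3 : ∀ u : V, fderiv ℝ (fun w => cG (fderiv ℝ f w) j) z u
      = ((D2 f z u (bb j) : ℝ) - Complex.I * (D2 f z u (Complex.I • bb j) : ℝ)) / 2 := by
    intro u
    have h4 := ((h1 (bb j)).sub ((h1 (Complex.I • bb j)).const_mul Complex.I)).mul_const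
      ((2 : ℂ)⁻¹)
    have h5 : fderiv ℝ (fun w => cG (fderiv ℝ f w) j) z = _ := h4.fderiv
    rw [h5]
    simp
    ring
  unfold wb MH cH
  rw [h3, h3, D2_symm hf hz (bb l) (bb j), D2_symm hf hz (Complex.I • bb l) (bb j),
    D2_symm hf hz (bb l) (Complex.I • bb j), D2_symm hf hz (Complex.I • bb l) (Complex.I • bb j)]
  linear_combination (-(1 : ℂ) / 4) * ((D2 f z (Complex.I • bb j) (Complex.I • bb l) : ℝ) : ℂ)
    * Complex.I_sq

namespace HdBounds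

theorem conj_smooth {F : V → ℂ} {s : Set V} (hF : ContDiffOn ℝ ∞ F s) :
    ContDiffOn ℝ ∞ (fun z => (starRingEnd ℂ) (F z)) s :=
  Complex.conjCLE.toContinuousLinearMap.contDiff.comp_contDiffOn hF

end HdBounds

theorem en_smooth {G : V → Matrix (Fin 2) (Fin 2) ℂ} (hG : IsK G) {f h : V → ℝ} {r : ℝ}
    (hr : r ≤ 3) (hf : ContDiffOn ℝ ∞ f (ball 0 r)) (hh : ContDiffOn ℝ ∞ h (ball 0 r)) :
    ContDiffOn ℝ ∞ (fun z => en (G z).adjugate (fderiv ℝ f z) (fderiv ℝ h z)) (ball 0 r) := by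
  unfold en
  apply HdBounds.re_smooth
  refine ContDiffOn.sum fun j _ => ContDiffOn.sum fun k _ => ?_
  exact (((adj_smooth hG k j).mono (ball_subset_ball hr)).mul (cG_smooth hf j)).mul
    (HdBounds.conj_smooth (cG_smooth hh k))

theorem lp_smooth {G : V → Matrix (Fin 2) (Fin 2) ℂ} (hG : IsK G) {f : V → ℝ} {r : ℝ}
    (hr : r ≤ 3) (hf : ContDiffOn ℝ ∞ f (ball 0 r)) :
    ContDiffOn ℝ ∞ (fun z => lp (G z).adjugate (D2 f z)) (ball 0 r) := by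
  unfold lp
  apply HdBounds.re_smooth
  refine ContDiffOn.sum fun j _ => ContDiffOn.sum fun k _ => ?_
  exact ((adj_smooth hG k j).mono (ball_subset_ball hr)).mul (MH_smooth hf j k)

theorem lp_add {C : Matrix (Fin 2) (Fin 2) ℂ} (B B' : V →L[ℝ] V →L[ℝ] ℝ) :
    lp C (B + B') = lp C B + lp C B' := by
  unfold lp cH
  rw [← Complex.add_re]
  congr 1
  simp only [Fin.sum_univ_two, add_apply, Complex.ofReal_add]
  ring

theorem lp_smul {C : Matrix (Fin 2) (Fin 2) ℂ} (r : ℝ) (B : V →L[ℝ] V →L[ℝ] ℝ) :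
    lp C (r • B) = r * lp C B := by
  unfold lp cH
  rw [← Complex.re_ofReal_mul]
  congr 1
  simp only [Fin.sum_univ_two, smul_apply, smul_eq_mul, Complex.ofReal_mul]
  ring

/-- product rule for `lp` -/
theorem lp_mul {G : V → Matrix (Fin 2) (Fin 2) ℂ} (hG : IsK G) {f h : V → ℝ} {r : ℝ}
    (hr : r ≤ 3) (hf : ContDiffOn ℝ ∞ f (ball 0 r)) (hh : ContDiffOn ℝ ∞ h (ball 0 r)) {z : V}
    (hz : z ∈ ball (0 : V) r) :
    lp (G z).adjugate (D2 (fun w => f w * h w) z)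
      = f z * lp (G z).adjugate (D2 h z) + 2 * en (G z).adjugate (fderiv ℝ f z) (fderiv ℝ h z)
        + h z * lp (G z).adjugate (D2 f z) := by
  have hn : ball (0 : V) r ∈ 𝓝 z := isOpen_ball.mem_nhds hz
  have hfd : DifferentiableAt ℝ f z := (hf.contDiffAt hn).differentiableAt (by simp)
  have hhd : DifferentiableAt ℝ h z := (hh.contDiffAt hn).differentiableAt (by simp)
  have hfd2 : DifferentiableAt ℝ (fderiv ℝ f) z :=
    ((fderiv_smooth hf).contDiffAt hn).differentiableAt (by simp)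
  have hhd2 : DifferentiableAt ℝ (fderiv ℝ h) z :=
    ((fderiv_smooth hh).contDiffAt hn).differentiableAt (by simp)
  have h1 : fderiv ℝ (fun w => f w * h w) =ᶠ[𝓝 z]
      fun w => f w • fderiv ℝ h w + h w • fderiv ℝ f w := by
    filter_upwards [hn] with y hy
    have hny : ball (0 : V) r ∈ 𝓝 y := isOpen_ball.mem_nhds hy
    have hfy : DifferentiableAt ℝ f y := (hf.contDiffAt hny).differentiableAt (by simp)
    have hhy : DifferentiableAt ℝ h y := (hh.contDiffAt hny).differentiableAt (by simp)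
    exact (hfy.hasFDerivAt.mul hhy.hasFDerivAt).fderiv
  have h2 := ((hfd.hasFDerivAt.smul hhd2.hasFDerivAt).add
    (hhd.hasFDerivAt.smul hfd2.hasFDerivAt)).fderiv
  have h3 : ∀ u v : V, D2 (fun w => f w * h w) z u v
      = f z * D2 h z u v + fderiv ℝ f z u * fderiv ℝ h z v
        + (h z * D2 f z u v + fderiv ℝ h z u * fderiv ℝ f z v) := by
    intro u v
    unfold D2
    rw [h1.fderiv_eq]
    have h4 : fderiv ℝ (fun w => f w • fderiv ℝ h w + h w • fderiv ℝ f w) z = _ := h2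
    rw [h4]
    simp only [add_apply, smul_apply, ContinuousLinearMap.smulRight_apply, smul_eq_mul]
  have h5 : lp (G z).adjugate (D2 (fun w => f w * h w) z)
      = f z * lp (G z).adjugate (D2 h z) + h z * lp (G z).adjugate (D2 f z)
        + (en (G z).adjugate (fderiv ℝ f z) (fderiv ℝ h z)
          + en (G z).adjugate (fderiv ℝ h z) (fderiv ℝ f z)) := by
    unfold lp en
    rw [← Complex.re_ofReal_mul, ← Complex.re_ofReal_mul, ← Complex.add_re, ← Complex.add_re,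
      ← Complex.add_re]
    congr 1
    simp only [Fin.sum_univ_two, cH, h3, cG, map_div₀, map_sub, map_mul, Complex.conj_ofReal,
      Complex.conj_I, Complex.conj_ofNat]
    push_cast
    have hI : Complex.I ^ 2 = -1 := Complex.I_sq
    ring_nf
    simp only [hI]
    ring
  have hz3 : z ∈ ball (0 : V) 3 := ball_subset_ball hr hz
  rw [h5, en_symm (adj_herm (hG.herm z hz3)) (fderiv ℝ h z) (fderiv ℝ f z)]
  ring

theorem D2_add {f h : V → ℝ} {r : ℝ} (hf : ContDiffOn ℝ ∞ f (ball 0 r))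
    (hh : ContDiffOn ℝ ∞ h (ball 0 r)) {z : V} (hz : z ∈ ball (0 : V) r) :
    D2 (fun w => f w + h w) z = D2 f z + D2 h z := by
  have hn : ball (0 : V) r ∈ 𝓝 z := isOpen_ball.mem_nhds hz
  have hfd2 : DifferentiableAt ℝ (fderiv ℝ f) z :=
    ((fderiv_smooth hf).contDiffAt hn).differentiableAt (by simp)
  have hhd2 : DifferentiableAt ℝ (fderiv ℝ h) z :=
    ((fderiv_smooth hh).contDiffAt hn).differentiableAt (by simp)
  have h1 : fderiv ℝ (fun w => f w + h w) =ᶠ[𝓝 z] fun w => fderiv ℝ f w + fderiv ℝ h w := by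
    filter_upwards [hn] with y hy
    have hny : ball (0 : V) r ∈ 𝓝 y := isOpen_ball.mem_nhds hy
    have hfy : DifferentiableAt ℝ f y := (hf.contDiffAt hny).differentiableAt (by simp)
    have hhy : DifferentiableAt ℝ h y := (hh.contDiffAt hny).differentiableAt (by simp)
    exact (hfy.hasFDerivAt.add hhy.hasFDerivAt).fderiv
  unfold D2
  rw [h1.fderiv_eq]
  exact (hfd2.hasFDerivAt.add hhd2.hasFDerivAt).fderiv

end Pool.Agent.K708.Hd
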