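import Pool.Agent.Lib.K708.HdChain

/-! # K708, Section A: densities -/

set_option autoImplicit false

open scoped ContDiff Topology
open Set Metric MeasureTheory

noncomputable section

namespace Pool.Agent.K708.Hd

variable {X : Type} [TopologicalSpace X] {K : KD X}

/-! ### Task HdRules1 -/

theorem ov_open (K : KD X) (i j : K.ι) : IsOpen (ov K.ch i j) :=
  (K.ch i).isOpen_inter_preimage_symm (K.ch j).open_source

theorem ov_sub (K : KD X) (i j : K.ι) : ov K.ch i j ⊆ ball 0 3 := by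
  intro z hz
  rw [← K.tgt i]
  exact hz.1

theorem tt_mem {K : KD X} {i j : K.ι} {z : V} (hz : z ∈ ov K.ch i j) :
    tt K.ch i j z ∈ ov K.ch j i := by
  refine ⟨(K.ch j).map_source hz.2, ?_⟩
  rw [mem_preimage, tt, (K.ch j).left_inv hz.2]
  exact (K.ch i).map_target hz.1

theorem tt_tt {K : KD X} {i j : K.ι} {z : V} (hz : z ∈ ov K.ch i j) :
    tt K.ch j i (tt K.ch i j z) = z := by
  rw [tt, tt, (K.ch j).left_inv hz.2, (K.ch i).right_inv hz.1]

theorem lc_tt {u : X → ℝ} {i j : K.ι} {z : V} (hz : z ∈ ov K.ch i j) :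
    lc K u j (tt K.ch i j z) = lc K u i z := by
  rw [lc, lc, tt, (K.ch j).left_inv hz.2]

private theorem tt_diff {i j : K.ι} {z : V} (hz : z ∈ ov K.ch i j) :
    DifferentiableAt ℝ (tt K.ch i j) z :=
  (((K.hol i j) z hz).differentiableAt ((ov_open K i j).mem_nhds hz)).restrictScalars ℝ

private theorem comp_diff {f : V → ℝ} (hf : ContDiffOn ℝ ∞ f (ball 0 3)) {i j : K.ι} {z : V}
    (hz : z ∈ ov K.ch i j) : DifferentiableAt ℝ (fun w => f (tt K.ch i j w)) z := by
  have h1 : DifferentiableAt ℝ f (tt K.ch i j z) :=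
    (hf.differentiableOn (by simp) _ (ov_sub K j i (tt_mem hz))).differentiableAt
      (isOpen_ball.mem_nhds (ov_sub K j i (tt_mem hz)))
  exact h1.comp z (tt_diff hz)

private theorem at_diff {f : V → ℝ} (hf : ContDiffOn ℝ ∞ f (ball 0 3)) {z : V}
    (hz : z ∈ ball (0 : V) 3) : DifferentiableAt ℝ f z :=
  (hf.differentiableOn (by simp) _ hz).differentiableAt (isOpen_ball.mem_nhds hz)

theorem IsS.isF {u : X → ℝ} (hu : IsS K u) : IsF K (lc K u) := by
  refine ⟨hu, fun i j z hz => ?_⟩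
  refine Filter.EventuallyEq.fderiv_eq ?_
  filter_upwards [(ov_open K i j).mem_nhds hz] with w hw
  exact (lc_tt hw).symm

theorem IsF.add {f h : K.ι → V → ℝ} (hf : IsF K f) (hh : IsF K h) :
    IsF K (fun i z => f i z + h i z) := by
  refine ⟨fun i => (hf.s i).add (hh.s i), fun i j z hz => ?_⟩
  have hz3 := ov_sub K i j hz
  have e1 : fderiv ℝ (fun z => f i z + h i z) z = fderiv ℝ (f i) z + fderiv ℝ (h i) z :=
    fderiv_add (at_diff (hf.s i) hz3) (at_diff (hh.s i) hz3)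
  have e2 : fderiv ℝ (fun w => f j (tt K.ch i j w) + h j (tt K.ch i j w)) z
      = fderiv ℝ (fun w => f j (tt K.ch i j w)) z + fderiv ℝ (fun w => h j (tt K.ch i j w)) z :=
    fderiv_add (comp_diff (hf.s j) hz) (comp_diff (hh.s j) hz)
  rw [e1, e2, hf.c i j z hz, hh.c i j z hz]

theorem IsF.sub {f h : K.ι → V → ℝ} (hf : IsF K f) (hh : IsF K h) :
    IsF K (fun i z => f i z - h i z) := by
  refine ⟨fun i => (hf.s i).sub (hh.s i), fun i j z hz => ?_⟩
  have hz3 := ov_sub K i j hz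
  have e1 : fderiv ℝ (fun z => f i z - h i z) z = fderiv ℝ (f i) z - fderiv ℝ (h i) z :=
    fderiv_sub (at_diff (hf.s i) hz3) (at_diff (hh.s i) hz3)
  have e2 : fderiv ℝ (fun w => f j (tt K.ch i j w) - h j (tt K.ch i j w)) z
      = fderiv ℝ (fun w => f j (tt K.ch i j w)) z - fderiv ℝ (fun w => h j (tt K.ch i j w)) z :=
    fderiv_sub (comp_diff (hf.s j) hz) (comp_diff (hh.s j) hz)
  rw [e1, e2, hf.c i j z hz, hh.c i j z hz]

theorem IsS.const (c : ℝ) : IsS K (fun _ => c) := fun _ => contDiffOn_const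

theorem IsS.add {u v : X → ℝ} (hu : IsS K u) (hv : IsS K v) : IsS K (fun x => u x + v x) :=
  fun i => (hu i).add (hv i)

theorem IsS.sub {u v : X → ℝ} (hu : IsS K u) (hv : IsS K v) : IsS K (fun x => u x - v x) :=
  fun i => (hu i).sub (hv i)

theorem IsS.mul {u v : X → ℝ} (hu : IsS K u) (hv : IsS K v) : IsS K (fun x => u x * v x) :=
  fun i => (hu i).mul (hv i)

theorem IsS.sum {κ : Type} (s : Finset κ) {u : κ → X → ℝ} (hu : ∀ a ∈ s, IsS K (u a)) :
    IsS K (fun x => ∑ a ∈ s, u a x) :=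
  fun i => ContDiffOn.sum (f := fun a => lc K (u a) i) fun a ha => hu a ha i

/-! ### Task HdRules2 -/

theorem IsF.fderiv_rule {f : K.ι → V → ℝ} (hf : IsF K f) {i j : K.ι} {z : V}
    (hz : z ∈ ov K.ch i j) :
    fderiv ℝ (f i) z
      = pbc (fderiv ℂ (tt K.ch i j) z) (fderiv ℝ (f j) (tt K.ch i j z)) := by
  rw [hf.c i j z hz]
  exact fderiv_comp_holo (ov_open K i j) (K.hol i j) (hf.s j) hz (ov_sub K j i (tt_mem hz))

theorem IsF.MH_rule {f : K.ι → V → ℝ} (hf : IsF K f) {i j : K.ι} {z : V}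
    (hz : z ∈ ov K.ch i j) :
    MH (f i) z = (JJ K.ch i j z).transpose * MH (f j) (tt K.ch i j z)
      * (JJ K.ch i j z).map (starRingEnd ℂ) := by
  have h1 : fderiv ℝ (f i) =ᶠ[𝓝 z] fderiv ℝ (fun w => f j (tt K.ch i j w)) := by
    filter_upwards [(ov_open K i j).mem_nhds hz] with w hw
    exact hf.c i j w hw
  have h2 : MH (f i) z = MH (fun w => f j (tt K.ch i j w)) z := by
    rw [MH, MH, D2, D2, h1.fderiv_eq]
  rw [h2]
  exact MH_comp_holo (ov_open K i j) (K.hol i j) (hf.s j) hz (ov_sub K j i (tt_mem hz))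

private theorem JJ_eq (i j : K.ι) (z : V) : JJ K.ch i j z = mat (fderiv ℂ (tt K.ch i j) z) := rfl

theorem g_dens : IsD K K.g := by
  intro i j z hz
  rw [KD.g, KD.g, K.tr i j z hz, JJ_eq]
  exact det_pb _ _

theorem IsF.en_dens {f h : K.ι → V → ℝ} (hf : IsF K f) (hh : IsF K h) :
    IsD K fun i z => en (K.C i z) (fderiv ℝ (f i) z) (fderiv ℝ (h i) z) := by
  intro i j z hz
  simp only [KD.C]
  rw [K.tr i j z hz, JJ_eq, hf.fderiv_rule hz, hh.fderiv_rule hz]
  exact en_pb _ _ _ _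

private theorem lp_congr {C : Matrix (Fin 2) (Fin 2) ℂ} {B B' : V →L[ℝ] V →L[ℝ] ℝ}
    (h : cH B = cH B') : lp C B = lp C B' := by
  rw [lp, lp, h]

theorem IsF.lp_dens {f : K.ι → V → ℝ} (hf : IsF K f) :
    IsD K fun i z => lp (K.C i z) (D2 (f i) z) := by
  intro i j z hz
  simp only [KD.C]
  have h1 : cH (D2 (f i) z)
      = cH (pbb (fderiv ℂ (tt K.ch i j) z) (D2 (f j) (tt K.ch i j z))) := by
    rw [cH_pbb]
    exact hf.MH_rule hz
  rw [K.tr i j z hz, JJ_eq, lp_congr h1]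
  exact lp_pb _ _ _

theorem IsD.add {D D' : K.ι → V → ℝ} (hD : IsD K D) (hD' : IsD K D') :
    IsD K fun i z => D i z + D' i z := by
  intro i j z hz
  simp only
  rw [hD i j z hz, hD' i j z hz]
  ring

theorem IsD.smul {D : K.ι → V → ℝ} (hD : IsD K D) (c : ℝ) : IsD K fun i z => c * D i z := by
  intro i j z hz
  simp only
  rw [hD i j z hz]
  ring

theorem IsD.smulS {D : K.ι → V → ℝ} (hD : IsD K D) (u : X → ℝ) :
    IsD K fun i z => lc K u i z * D i z := by
  intro i j z hz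
  simp only
  rw [hD i j z hz, lc_tt hz]
  ring

private theorem div_aux (a b t : ℝ) : a * t ^ 2 / (b * t) = a / b * t := by
  by_cases ht : t = 0
  · simp [ht]
  · rw [pow_two, ← mul_assoc, mul_div_mul_right _ _ ht]
    ring

/-- `D²/g` is a density if `D` is one -/
theorem IsD.sq_div {D : K.ι → V → ℝ} (hD : IsD K D) : IsD K fun i z => D i z ^ 2 / K.g i z := by
  intro i j z hz
  simp only
  rw [hD i j z hz, g_dens i j z hz, mul_pow]
  exact div_aux _ _ _

theorem IsF.hn_dens {f : K.ι → V → ℝ} (hf : IsF K f) :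
    IsD K fun i z => hn (K.C i z) (MH (f i) z) / K.g i z := by
  intro i j z hz
  simp only
  rw [g_dens i j z hz, ← div_aux]
  congr 1
  simp only [KD.C]
  rw [K.tr i j z hz, hf.MH_rule hz, JJ_eq]
  exact hn_pb _ _ _

theorem IsF.det_dens {f : K.ι → V → ℝ} (hf : IsF K f) :
    IsD K fun i z => ((MH (f i) z).det).re := by
  intro i j z hz
  simp only
  rw [hf.MH_rule hz, JJ_eq]
  exact det_pb _ _

theorem IsF.rr_dens {f χ : K.ι → V → ℝ} (hf : IsF K f) (hχ : IsF K χ) :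
    IsD K fun i z => rr (MH (f i) z).adjugate (fderiv ℝ (χ i) z) (fderiv ℝ (f i) z) := by
  intro i j z hz
  simp only
  rw [hf.MH_rule hz, JJ_eq, hf.fderiv_rule hz, hχ.fderiv_rule hz]
  exact rr_pb _ _ _ _

end Pool.Agent.K708.Hd
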