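import Pool.Agent.Lib.K708.FcS
import Pool.Agent.Lib.K708.HdRules

/-! # K708, Section A: from a compact Kähler surface to the chart data `KD` -/

set_option autoImplicit false

open scoped Manifold ContDiff Topology
open Set Metric

noncomputable section

namespace Pool.Agent.K708.Hd

/-! ### Task HdBr1 -/

/-- the affine change of coordinates `z ↦ (z - c) / r` -/
private def aff (c : V) (r : ℝ) (hr : 0 < r) : V ≃ₜ V where
  toFun z := ((r⁻¹ : ℝ) : ℂ) • (z - c)
  invFun w := c + (r : ℂ) • w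
  left_inv z := by
    have h : (r : ℂ) ≠ 0 := by exact_mod_cast hr.ne'
    simp only [smul_smul, Complex.ofReal_inv]
    rw [mul_inv_cancel₀ h, one_smul]
    abel
  right_inv w := by
    have h : (r : ℂ) ≠ 0 := by exact_mod_cast hr.ne'
    simp only [Complex.ofReal_inv]
    rw [add_sub_cancel_left, smul_smul, inv_mul_cancel₀ h, one_smul]
  continuous_toFun := by fun_prop
  continuous_invFun := by fun_prop

private theorem aff_mem (c : V) (r : ℝ) (hr : 0 < r) (s : Set V) (hs : IsOpen s) :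
    (aff c r hr).toOpenPartialHomeomorph.restr s ∈ contDiffGroupoid ω 𝓘(ℂ, E 2) := by
  refine (closedUnderRestriction' ?_ hs)
  rw [contDiffGroupoid, mem_groupoid_of_pregroupoid]
  have h1 : ContDiff ℂ ω (aff c r hr) := by
    have h : ContDiff ℂ ω (fun z : V => ((r⁻¹ : ℝ) : ℂ) • (z - c)) := by fun_prop
    exact h
  have h2 : ContDiff ℂ ω (aff c r hr).symm := by
    have h : ContDiff ℂ ω (fun w : V => c + (r : ℂ) • w) := by fun_prop
    exact h
  constructor
  · simpa [contDiffPregroupoid] using h1.contDiffOn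
  · simpa [contDiffPregroupoid] using h2.contDiffOn

private theorem comp_mem {X : CMfd 2} {φ : OpenPartialHomeomorph X V} (hφ : φ ∈ CA 2 X)
    {e : OpenPartialHomeomorph V V} (he : e ∈ contDiffGroupoid ω 𝓘(ℂ, E 2)) :
    φ ≫ₕ e ∈ CA 2 X := by
  intro e' he'
  obtain ⟨h1, h2⟩ := hφ e' he'
  constructor
  · rw [OpenPartialHomeomorph.trans_symm_eq_symm_trans_symm, OpenPartialHomeomorph.trans_assoc]
    exact (contDiffGroupoid ω 𝓘(ℂ, E 2)).trans ((contDiffGroupoid ω 𝓘(ℂ, E 2)).symm he) h1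
  · rw [← OpenPartialHomeomorph.trans_assoc]
    exact (contDiffGroupoid ω 𝓘(ℂ, E 2)).trans h2 he

/-- a holomorphic chart centred at `x` whose image is the polydisc of radius `3` -/
theorem exists_chart3 (X : CMfd 2) (x : X) :
    ∃ ψ ∈ CA 2 X, x ∈ ψ.source ∧ ψ x = 0 ∧ ψ.target = ball (0 : V) 3 := by
  have hφ : chartAt (E 2) x ∈ CA 2 X := chartAt_mem_CA x
  obtain ⟨φ, hφe⟩ : ∃ φ, φ = chartAt (E 2) x := ⟨_, rfl⟩
  have hx : x ∈ φ.source := by
    rw [hφe]
    exact mem_chart_source (E 2) x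
  rw [← hφe] at hφ
  obtain ⟨ρ, hρ, hρs⟩ := Metric.isOpen_iff.1 φ.open_target (φ x) (φ.map_source hx)
  obtain ⟨r, hr⟩ : ∃ r : ℝ, r = ρ / 3 := ⟨_, rfl⟩
  have hr0 : 0 < r := by rw [hr]; positivity
  have hb : ball (φ x) (3 * r) ⊆ φ.target := by
    refine (ball_subset_ball ?_).trans hρs
    rw [hr]
    linarith
  refine ⟨φ ≫ₕ (aff (φ x) r hr0).toOpenPartialHomeomorph.restr (ball (φ x) (3 * r)),
    comp_mem hφ (aff_mem _ _ _ _ isOpen_ball), ?_, ?_, ?_⟩
  · rw [OpenPartialHomeomorph.trans_source]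
    refine ⟨hx, ?_⟩
    simp [isOpen_ball.interior_eq, hr0]
  · simp [aff]
  · rw [OpenPartialHomeomorph.trans_target]
    ext w
    have hw : ∀ w : V, (aff (φ x) r hr0).symm w ∈ ball (φ x) (3 * r) ↔ w ∈ ball (0 : V) 3 := by
      intro w
      have e1 : (aff (φ x) r hr0).symm w = φ x + (r : ℂ) • w := rfl
      rw [e1, mem_ball, dist_eq_norm, add_sub_cancel_left, norm_smul, mem_ball_zero_iff,
        Complex.norm_real, Real.norm_of_nonneg hr0.le, mul_comm 3 r]
      exact mul_lt_mul_iff_right₀ hr0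
    constructor
    · rintro ⟨h1, -⟩
      simp only [OpenPartialHomeomorph.restr_target, isOpen_ball.interior_eq] at h1
      exact (hw w).1 h1.2
    · intro h1
      have h2 := (hw w).2 h1
      refine ⟨?_, ?_⟩
      · simp only [OpenPartialHomeomorph.restr_target, isOpen_ball.interior_eq]
        exact ⟨mem_univ _, h2⟩
      · exact hb h2

/-- finitely many charts with image `ball 0 3` such that the preimages of `ball 0 1` cover -/
theorem exists_charts (X : CMfd 2) (hX : CompactSpace X) :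
    ∃ (ι : Type) (_ : Fintype ι) (ch : ι → OpenPartialHomeomorph X V),
      (∀ i, ch i ∈ CA 2 X) ∧ (∀ i, (ch i).target = ball (0 : V) 3) ∧
      ∀ x, ∃ i, x ∈ (ch i).source ∧ ch i x ∈ ball (0 : V) 1 := by
  choose ψ h1 h2 h3 h4 using exists_chart3 X
  obtain ⟨t, ht⟩ := isCompact_univ.elim_finite_subcover
    (fun x : X => (ψ x).source ∩ ψ x ⁻¹' ball (0 : V) 1)
    (fun x => (ψ x).isOpen_inter_preimage isOpen_ball)
    (fun x _ => mem_iUnion.2 ⟨x, h2 x, by rw [mem_preimage, h3 x]; exact mem_ball_self one_pos⟩)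
  refine ⟨t, inferInstance, fun i => ψ i, fun i => h1 i, fun i => h4 i, fun x => ?_⟩
  obtain ⟨y, hy, hxy⟩ := mem_iUnion₂.1 (ht (mem_univ x))
  exact ⟨⟨y, hy⟩, hxy⟩

/-- changes of holomorphic charts are holomorphic -/
theorem tt_holo {X : CMfd 2} {ι : Type} (ch : ι → OpenPartialHomeomorph X V)
    (hch : ∀ i, ch i ∈ CA 2 X) (i j : ι) :
    DifferentiableOn ℂ (tt ch i j) (ov ch i j) := by
  have h := IsManifold.compatible_of_mem_maximalAtlas (hch i) (hch j)
  rw [contDiffGroupoid, mem_groupoid_of_pregroupoid] at h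
  have h2 : ContDiffOn ℂ ω ((ch i).symm ≫ₕ ch j) ((ch i).symm ≫ₕ ch j).source := by
    simpa [contDiffPregroupoid] using h.1
  exact h2.differentiableOn (by simp)

/-- the real derivative of a change of holomorphic charts -/
theorem fderiv_tt {X : CMfd 2} {ι : Type} (ch : ι → OpenPartialHomeomorph X V)
    (hch : ∀ i, ch i ∈ CA 2 X) (i j : ι) {z : V} (hz : z ∈ ov ch i j) :
    fderiv ℝ (ch j ∘ (ch i).symm) z = (fderiv ℂ (tt ch i j) z).restrictScalars ℝ := by
  have ho : IsOpen (ov ch i j) := (ch i).isOpen_inter_preimage_symm (ch j).open_source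
  exact ((tt_holo ch hch i j z hz).differentiableAt (ho.mem_nhds hz)).fderiv_restrictScalars ℝ

/-- the matrix of a Kähler form in a chart -/
def gm {X : CMfd 2} (ψ : OpenPartialHomeomorph X V) (Ω : F2 2 X) (z : V) :
    Matrix (Fin 2) (Fin 2) ℂ := fun j k =>
  loc2 ψ Ω z (bb j) (Complex.I • bb k) - Complex.I * loc2 ψ Ω z (bb j) (bb k)

/-! ### Task HdBr2 -/

namespace HdBr2

/-- the sesquilinear form of a real bilinear form -/
def hh (B : V →L[ℝ] V →L[ℝ] ℂ) (u v : V) : ℂ := B u (Complex.I • v) - Complex.I * B u v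

theorem inv' {B : V →L[ℝ] V →L[ℝ] ℂ} (hi : ∀ u v, B (Complex.I • u) (Complex.I • v) = B u v)
    (u v : V) : B (Complex.I • u) v = - B u (Complex.I • v) := by
  rw [← hi (Complex.I • u) v, smul_smul, Complex.I_mul_I, neg_one_smul, map_neg, neg_apply]

theorem hh_add_left (B : V →L[ℝ] V →L[ℝ] ℂ) (u u' v : V) :
    hh B (u + u') v = hh B u v + hh B u' v := by
  simp only [hh, map_add, add_apply]
  ring

theorem hh_add_right (B : V →L[ℝ] V →L[ℝ] ℂ) (u v v' : V) :
    hh B u (v + v') = hh B u v + hh B u v' := by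
  simp only [hh, map_add, smul_add]
  ring

theorem hh_smul_left {B : V →L[ℝ] V →L[ℝ] ℂ}
    (hi : ∀ u v, B (Complex.I • u) (Complex.I • v) = B u v) (a : ℂ) (u v : V) :
    hh B (a • u) v = a * hh B u v := by
  have h1 : a • u = a.re • u + a.im • (Complex.I • u) := by
    conv_lhs => rw [← Complex.re_add_im a]
    rw [add_smul, mul_smul]
    rfl
  have h2 : ∀ (r : ℝ) (w : V), hh B (r • w) v = (r : ℂ) * hh B w v := by
    intro r w
    simp only [hh, map_smul, smul_apply, Complex.real_smul]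
    ring
  have h3 : hh B (Complex.I • u) v = Complex.I * hh B u v := by
    unfold hh
    rw [hi, inv' hi]
    linear_combination (B u v) * Complex.I_mul_I
  rw [h1, hh_add_left, h2, h2, h3]
  conv_rhs => rw [← Complex.re_add_im a]
  ring

theorem hh_smul_right (B : V →L[ℝ] V →L[ℝ] ℂ) (a : ℂ) (u v : V) :
    hh B u (a • v) = (starRingEnd ℂ) a * hh B u v := by
  have h1 : a • v = a.re • v + a.im • (Complex.I • v) := by
    conv_lhs => rw [← Complex.re_add_im a]
    rw [add_smul, mul_smul]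
    rfl
  have h2 : ∀ (r : ℝ) (w : V), hh B u (r • w) = (r : ℂ) * hh B u w := by
    intro r w
    simp only [hh, smul_comm Complex.I r, map_smul, Complex.real_smul]
    ring
  have h3 : hh B u (Complex.I • v) = - Complex.I * hh B u v := by
    unfold hh
    rw [smul_smul, Complex.I_mul_I, neg_one_smul, map_neg]
    linear_combination (- B u v) * Complex.I_mul_I
  have h4 : (starRingEnd ℂ) a = a.re - a.im * Complex.I := by
    apply Complex.ext <;> simp
  rw [h1, hh_add_right, h2, h2, h3, h4]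
  ring

theorem vsum (u : V) : u = u 0 • bb 0 + u 1 • bb 1 := by
  ext i
  fin_cases i <;> simp [bb]

theorem hh_sum {B : V →L[ℝ] V →L[ℝ] ℂ}
    (hi : ∀ u v, B (Complex.I • u) (Complex.I • v) = B u v) (u v : V) :
    hh B u v = ∑ j, ∑ k, hh B (bb j) (bb k) * u j * (starRingEnd ℂ) (v k) := by
  conv_lhs => rw [vsum u, vsum v]
  rw [hh_add_left, hh_add_right, hh_add_right]
  simp only [hh_smul_left hi, hh_smul_right, Fin.sum_univ_two]
  ring

theorem symm_holo {X : CMfd 2} {ψ : OpenPartialHomeomorph X V} (hψ : ψ ∈ CA 2 X) {z : V}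
    (hz : z ∈ ψ.target) : HoloAt 2 2 ψ.symm z :=
  (contMDiffOn_symm_of_mem_maximalAtlas hψ).contMDiffAt (ψ.open_target.mem_nhds hz)

theorem loc2_inv {X : CMfd 2} {Ω : F2 2 X} (hΩ : Kah Ω) {ψ : OpenPartialHomeomorph X V}
    (hψ : ψ ∈ CA 2 X) {z : V} (hz : z ∈ ψ.target) (u v : V) :
    loc2 ψ Ω z (Complex.I • u) (Complex.I • v) = loc2 ψ Ω z u v := by
  unfold loc2
  rw [ContinuousLinearMap.bilinearComp_apply, ContinuousLinearMap.bilinearComp_apply,
    D_smul_I (symm_holo hψ hz), D_smul_I (symm_holo hψ hz), hΩ.inv]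

theorem loc2_alt {X : CMfd 2} {Ω : F2 2 X} (hΩ : Kah Ω) (ψ : OpenPartialHomeomorph X V)
    (z : V) (u v : V) : loc2 ψ Ω z u v = - loc2 ψ Ω z v u := by
  unfold loc2
  rw [ContinuousLinearMap.bilinearComp_apply, ContinuousLinearMap.bilinearComp_apply, hΩ.s2.1]

theorem loc2_real {X : CMfd 2} {Ω : F2 2 X} (hΩ : Kah Ω) (ψ : OpenPartialHomeomorph X V)
    (z : V) (u v : V) : (starRingEnd ℂ) (loc2 ψ Ω z u v) = loc2 ψ Ω z u v := by
  rw [Complex.conj_eq_iff_im]
  unfold loc2
  rw [ContinuousLinearMap.bilinearComp_apply]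
  exact hΩ.real _ _ _

theorem loc2_pos {X : CMfd 2} {Ω : F2 2 X} (hΩ : Kah Ω) {ψ : OpenPartialHomeomorph X V}
    (hψ : ψ ∈ CA 2 X) {z : V} (hz : z ∈ ψ.target) {u : V} (hu : u ≠ 0) :
    0 < (loc2 ψ Ω z u (Complex.I • u)).re := by
  unfold loc2
  rw [ContinuousLinearMap.bilinearComp_apply, D_smul_I (symm_holo hψ hz)]
  refine hΩ.pos _ _ fun h => hu ?_
  have h1 := D_comp_symm (ra_of_ca hψ) hz
  have h2 : (D 2 2 ψ (ψ.symm z)) (D 2 2 ψ.symm z u) = u := by
    rw [← ContinuousLinearMap.comp_apply, h1]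
    rfl
  rw [← h2, h, map_zero]

theorem alg {B : V → V → V → ℂ} (ha : ∀ w u v, B w u v = - B w v u)
    (hi : ∀ w u v, B w (Complex.I • u) (Complex.I • v) = B w u v)
    (hi' : ∀ w u v, B w (Complex.I • u) v = - B w u (Complex.I • v))
    (hc : ∀ u v w, B u v w + B v w u + B w u v = 0) (w u v : V) :
    (B w u (Complex.I • v) - Complex.I * B w u v) - Complex.I *
      (B (Complex.I • w) u (Complex.I • v) - Complex.I * B (Complex.I • w) u v) =
    (B u w (Complex.I • v) - Complex.I * B u w v) - Complex.I *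
      (B (Complex.I • u) w (Complex.I • v) - Complex.I * B (Complex.I • u) w v) := by
  have c3 := hc (Complex.I • w) u (Complex.I • v)
  have c4 := hc (Complex.I • u) w (Complex.I • v)
  have c5 := hc (Complex.I • w) u v
  have c6 := hc (Complex.I • u) w v
  rw [hi u v w, hi' (Complex.I • v) w u, ha u v w] at c3
  rw [hi w v u, ha w v u, ha (Complex.I • v) (Complex.I • u) w] at c4
  rw [ha u v (Complex.I • w), hi' u w v, hi' v w u] at c5
  rw [ha w v (Complex.I • u), hi' w u v, ha v (Complex.I • u) w] at c6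
  linear_combination (-Complex.I) * (c3 - c4) + Complex.I * Complex.I * (c5 - c6) +
    (B w u (Complex.I • v) - B u w (Complex.I • v)) * Complex.I_mul_I

end HdBr2

open HdBr2

/-- `∑ G_jk u_j conj(v_k) = Ω(u, i v) - i Ω(u, v)` -/
theorem gm_apply {X : CMfd 2} {Ω : F2 2 X} (hΩ : Kah Ω) {ψ : OpenPartialHomeomorph X V}
    (hψ : ψ ∈ CA 2 X) {z : V} (hz : z ∈ ψ.target) (u v : V) :
    ∑ j, ∑ k, gm ψ Ω z j k * u j * (starRingEnd ℂ) (v k)
      = loc2 ψ Ω z u (Complex.I • v) - Complex.I * loc2 ψ Ω z u v :=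
  (hh_sum (loc2_inv hΩ hψ hz) u v).symm

theorem gm_isK {X : CMfd 2} {Ω : F2 2 X} (hΩ : Kah Ω) {ψ : OpenPartialHomeomorph X V}
    (hψ : ψ ∈ CA 2 X) (ht : ψ.target = ball (0 : V) 3) : IsK (gm ψ Ω) := by
  have hs : ContDiffOn ℝ ∞ (loc2 ψ Ω) (ball (0 : V) 3) := by
    rw [← ht]
    exact hΩ.s2.2 ψ (ra_of_ca hψ)
  refine ⟨fun j k => ?_, fun z hz => ?_, fun z hz v hv => ?_, fun z hz j k l => ?_⟩
  · have h1 : ∀ u v : V, ContDiffOn ℝ ∞ (fun z => loc2 ψ Ω z u v) (ball (0 : V) 3) := fun u v =>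
      (hs.clm_apply contDiffOn_const).clm_apply contDiffOn_const
    exact (h1 _ _).sub (contDiffOn_const.mul (h1 _ _))
  · rw [← ht] at hz
    ext j k
    rw [Matrix.conjTranspose_apply]
    change (starRingEnd ℂ) (loc2 ψ Ω z (bb k) (Complex.I • bb j) -
      Complex.I * loc2 ψ Ω z (bb k) (bb j)) = loc2 ψ Ω z (bb j) (Complex.I • bb k) -
      Complex.I * loc2 ψ Ω z (bb j) (bb k)
    rw [map_sub, map_mul, Complex.conj_I, loc2_real hΩ, loc2_real hΩ,
      loc2_alt hΩ ψ z (bb k) (Complex.I • bb j), inv' (loc2_inv hΩ hψ hz),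
      loc2_alt hΩ ψ z (bb k) (bb j)]
    ring
  · rw [← ht] at hz
    rw [gm_apply hΩ hψ hz]
    have h1 : loc2 ψ Ω z v v = 0 := by
      have h2 := loc2_alt hΩ ψ z v v
      have h3 : (2 : ℂ) * loc2 ψ Ω z v v = 0 := by linear_combination h2
      simpa using h3
    rw [h1, mul_zero, sub_zero]
    exact loc2_pos hΩ hψ hz hv
  · have hz' : z ∈ ψ.target := by
      rw [ht]
      exact hz
    have hd : DifferentiableAt ℝ (loc2 ψ Ω) z :=
      (hs.contDiffAt (isOpen_ball.mem_nhds hz)).differentiableAt (by simp)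
    have hev : ∀ u v w : V, fderiv ℝ (fun z => loc2 ψ Ω z u v) z w =
        fderiv ℝ (loc2 ψ Ω) z w u v := by
      intro u v w
      have h1 := hd.hasFDerivAt
      have h3 := (h1.clm_apply (hasFDerivAt_const u z)).clm_apply (hasFDerivAt_const v z)
      rw [h3.fderiv]
      simp
    have hdu : ∀ u v : V, DifferentiableAt ℝ (fun z => loc2 ψ Ω z u v) z := by
      intro u v
      exact ((hd.clm_apply (differentiableAt_const u)).clm_apply (differentiableAt_const v))
    have hG : ∀ (j k : Fin 2) (w : V), fderiv ℝ (fun z => gm ψ Ω z j k) z w =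
        fderiv ℝ (loc2 ψ Ω) z w (bb j) (Complex.I • bb k) -
          Complex.I * fderiv ℝ (loc2 ψ Ω) z w (bb j) (bb k) := by
      intro j k w
      have h1 : fderiv ℝ (fun z => gm ψ Ω z j k) z =
          fderiv ℝ (fun z => loc2 ψ Ω z (bb j) (Complex.I • bb k)) z -
          Complex.I • fderiv ℝ (fun z => loc2 ψ Ω z (bb j) (bb k)) z := by
        have h2 := ((hdu (bb j) (Complex.I • bb k)).hasFDerivAt.sub
          ((hdu (bb j) (bb k)).hasFDerivAt.const_mul Complex.I)).fderiv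
        exact h2
      rw [h1, sub_apply, smul_apply, hev, hev, smul_eq_mul]
    have hopen : ball (0 : V) 3 ∈ 𝓝 z := isOpen_ball.mem_nhds hz
    have key := alg (B := fun w u v => fderiv ℝ (loc2 ψ Ω) z w u v) ?_ ?_ ?_ ?_ (bb l) (bb j) (bb k)
    · unfold wd
      rw [hG, hG, hG, hG]
      rw [key]
    · intro w u v
      change fderiv ℝ (loc2 ψ Ω) z w u v = - fderiv ℝ (loc2 ψ Ω) z w v u
      rw [← hev u v w, ← hev v u w]
      have h1 : (fun z => loc2 ψ Ω z u v) = fun z => - loc2 ψ Ω z v u := by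
        funext y
        exact loc2_alt hΩ ψ y u v
      rw [h1, fderiv_fun_neg, neg_apply]
    · intro w u v
      change fderiv ℝ (loc2 ψ Ω) z w (Complex.I • u) (Complex.I • v) =
        fderiv ℝ (loc2 ψ Ω) z w u v
      rw [← hev (Complex.I • u) (Complex.I • v) w, ← hev u v w]
      have h1 : (fun z => loc2 ψ Ω z (Complex.I • u) (Complex.I • v)) =ᶠ[𝓝 z]
          fun z => loc2 ψ Ω z u v := by
        filter_upwards [hopen] with y hy
        exact loc2_inv hΩ hψ (by rw [ht]; exact hy) u v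
      rw [h1.fderiv_eq]
    · intro w u v
      change fderiv ℝ (loc2 ψ Ω) z w (Complex.I • u) v =
        - fderiv ℝ (loc2 ψ Ω) z w u (Complex.I • v)
      rw [← hev (Complex.I • u) v w, ← hev u (Complex.I • v) w]
      have h1 : (fun z => loc2 ψ Ω z (Complex.I • u) v) =ᶠ[𝓝 z]
          fun z => - loc2 ψ Ω z u (Complex.I • v) := by
        filter_upwards [hopen] with y hy
        exact inv' (loc2_inv hΩ hψ (by rw [ht]; exact hy)) u v
      rw [h1.fderiv_eq, fderiv_fun_neg, neg_apply]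
    · intro u v w
      exact hΩ.cl ψ (ra_of_ca hψ) z hz' u v w

theorem gm_tr {X : CMfd 2} {Ω : F2 2 X} (hΩ : Kah Ω) {ι : Type}
    (ch : ι → OpenPartialHomeomorph X V) (hch : ∀ i, ch i ∈ CA 2 X) (i j : ι) {z : V}
    (hz : z ∈ ov ch i j) :
    gm (ch i) Ω z = (JJ ch i j z).transpose * gm (ch j) Ω (tt ch i j z)
      * (JJ ch i j z).map (starRingEnd ℂ) := by
  have h1 := loc2_change (ra_of_ca (hch i)) (ra_of_ca (hch j)) hz.1 hz.2 Ω
  rw [fderiv_tt ch hch i j hz] at h1
  have hzt : tt ch i j z ∈ (ch j).target := (ch j).map_source hz.2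
  ext a b
  have h2 := gm_apply hΩ (hch j) hzt (fderiv ℂ (tt ch i j) z (bb a)) (fderiv ℂ (tt ch i j) z (bb b))
  have h3 : gm (ch i) Ω z a b = loc2 (ch j) Ω (tt ch i j z) (fderiv ℂ (tt ch i j) z (bb a))
      (Complex.I • fderiv ℂ (tt ch i j) z (bb b)) - Complex.I *
      loc2 (ch j) Ω (tt ch i j z) (fderiv ℂ (tt ch i j) z (bb a))
        (fderiv ℂ (tt ch i j) z (bb b)) := by
    unfold gm
    rw [h1, ← map_smul]
    rfl
  rw [h3, ← h2, Matrix.mul_apply]
  simp only [Matrix.mul_apply, Matrix.transpose_apply, Matrix.map_apply, Fin.sum_univ_two]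
  simp only [JJ]
  ring

theorem exists_KD (X : CMfd 2) (hX : CompactSpace X) (Ω : F2 2 X) (hΩ : Kah Ω) :
    ∃ K : KD X, ∀ i, K.ch i ∈ CA 2 X := by
  obtain ⟨ι, hι, ch, h1, h2, h3⟩ := exists_charts X hX
  exact ⟨⟨ι, hι, ch, h2, h3, tt_holo ch h1, fun i => gm (ch i) Ω,
    fun i => gm_isK hΩ (h1 i) (h2 i), fun i j z hz => gm_tr hΩ ch h1 i j hz⟩, h1⟩

end Pool.Agent.K708.Hd
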