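import Pool.Agent.Lib.K708.HdInt
import Mathlib.MeasureTheory.Integral.CurveIntegral.Poincare

/-! # K708, Section A: smooth limits of exact forms are exact -/

set_option autoImplicit false

open scoped ContDiff Topology
open Set Metric MeasureTheory

noncomputable section

namespace Pool.Agent.K708.Hd

/-! ### Task HdPoin -/

namespace HdPoin

theorem lscale {h : V → ENNReal} (hh : Measurable h) {a : ℝ} (ha : 1 / 2 ≤ a) (b : V) :
    ∫⁻ x, h (a • x + b) ≤ ENNReal.ofReal (2 ^ Module.finrank ℝ V) * ∫⁻ x, h x := by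
  have hpos : 0 < a := by linarith
  have ha0 : a ≠ 0 := hpos.ne'
  have hm : Measurable fun y : V => h (y + b) := hh.comp (measurable_add_const b)
  have h1 : ∫⁻ x, h (a • x + b) = ∫⁻ y, h (y + b) ∂(Measure.map (fun x : V => a • x) volume) := by
    rw [lintegral_map hm (measurable_const_smul a)]
  rw [h1, Measure.map_addHaar_smul _ ha0, lintegral_smul_measure, lintegral_add_right_eq_self,
    smul_eq_mul]
  gcongr
  rw [abs_of_pos (by positivity)]
  rw [← inv_pow]
  apply pow_le_pow_left₀ (by positivity)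
  rw [inv_le_comm₀ hpos (by norm_num)]
  linarith

/-- Cauchy-Schwarz on the unit interval -/
theorem sq_int_le {g : ℝ → ℝ} (hg : ContinuousOn g (Icc 0 1)) :
    (∫ t in (0:ℝ)..1, g t) ^ 2 ≤ ∫ t in (0:ℝ)..1, g t ^ 2 := by
  have hi : IntervalIntegrable g volume 0 1 :=
    ContinuousOn.intervalIntegrable (by rwa [uIcc_of_le zero_le_one])
  have hi2 : IntervalIntegrable (fun t => g t ^ 2) volume 0 1 :=
    ContinuousOn.intervalIntegrable (by rw [uIcc_of_le zero_le_one]; exact hg.pow 2)
  set G := ∫ t in (0:ℝ)..1, g t with hG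
  have h0 : 0 ≤ ∫ t in (0:ℝ)..1, (g t - G) ^ 2 :=
    intervalIntegral.integral_nonneg zero_le_one fun t _ => sq_nonneg _
  have h1 : ∫ t in (0:ℝ)..1, (g t - G) ^ 2 = (∫ t in (0:ℝ)..1, g t ^ 2) - G ^ 2 := by
    have : (fun t => (g t - G) ^ 2) = fun t => (g t ^ 2 - 2 * G * g t) + G ^ 2 := by
      ext t; ring
    rw [this, intervalIntegral.integral_add (hi2.sub (hi.const_mul _)) (by simp),
      intervalIntegral.integral_sub hi2 (hi.const_mul _), intervalIntegral.integral_const_mul,
      ← hG]
    simp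
    ring
  rw [h1] at h0
  linarith

theorem line {r R : ℝ} (hR : r < R) {f : V → ℝ} (hf : ContDiffOn ℝ 1 f (ball 0 R)) {x y : V}
    (hx : x ∈ ball (0 : V) r) (hy : y ∈ ball (0 : V) r) :
    (f x - f y) ^ 2 ≤ (2 * r) ^ 2 *
      ∫ t in (0:ℝ)..1, ‖fderiv ℝ f ((1 - t) • x + t • y)‖ ^ 2 := by
  have hseg : ∀ t ∈ Icc (0:ℝ) 1, (1 - t) • x + t • y ∈ ball (0 : V) r := by
    intro t ht
    exact (convex_ball (0 : V) r) hx hy (by linarith [ht.2]) ht.1 (by ring)
  have hsub : ball (0 : V) r ⊆ ball 0 R := ball_subset_ball hR.le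
  have hfd : ContinuousOn (fderiv ℝ f) (ball 0 R) := hf.continuousOn_fderiv_of_isOpen isOpen_ball le_rfl
  have hcm : Continuous fun t : ℝ => (1 - t) • x + t • y := by fun_prop
  have hc : ContinuousOn (fun t : ℝ => fderiv ℝ f ((1 - t) • x + t • y)) (Icc 0 1) :=
    hfd.comp hcm.continuousOn fun t ht => hsub (hseg t ht)
  have hder : ∀ t ∈ uIcc (0:ℝ) 1, HasDerivAt (fun t : ℝ => f ((1 - t) • x + t • y))
      (fderiv ℝ f ((1 - t) • x + t • y) (y - x)) t := by
    intro t ht
    rw [uIcc_of_le zero_le_one] at ht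
    have h1 : HasFDerivAt f (fderiv ℝ f ((1 - t) • x + t • y)) ((1 - t) • x + t • y) := by
      have := hf.contDiffAt (isOpen_ball.mem_nhds (hsub (hseg t ht)))
      exact (this.differentiableAt one_ne_zero).hasFDerivAt
    have h2 : HasDerivAt (fun t : ℝ => (1 - t) • x + t • y) (y - x) t := by
      have := ((hasDerivAt_id t).const_sub 1).smul_const x |>.add ((hasDerivAt_id t).smul_const y)
      have e : y - x = (-1 : ℝ) • x + (1 : ℝ) • y := by rw [neg_one_smul, one_smul]; abel
      rw [e]
      exact this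
    exact h1.comp_hasDerivAt t h2
  have hint : ContinuousOn (fun t : ℝ => fderiv ℝ f ((1 - t) • x + t • y) (y - x)) (uIcc 0 1) := by
    rw [uIcc_of_le zero_le_one]
    exact hc.clm_apply continuousOn_const
  have hFTC := intervalIntegral.integral_eq_sub_of_hasDerivAt hder hint.intervalIntegrable
  simp only [sub_self, zero_smul, one_smul, zero_add, sub_zero, add_zero] at hFTC
  have hxy : ‖y - x‖ ≤ 2 * r := by
    have h1 := mem_ball_zero_iff.1 hx
    have h2 := mem_ball_zero_iff.1 hy
    calc ‖y - x‖ ≤ ‖y‖ + ‖x‖ := norm_sub_le _ _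
      _ ≤ 2 * r := by linarith
  have hr : 0 ≤ 2 * r := (norm_nonneg _).trans hxy
  have hgc : ContinuousOn (fun t : ℝ => ‖fderiv ℝ f ((1 - t) • x + t • y)‖) (Icc 0 1) := hc.norm
  have hb : |f x - f y| ≤ (2 * r) * ∫ t in (0:ℝ)..1, ‖fderiv ℝ f ((1 - t) • x + t • y)‖ := by
    rw [abs_sub_comm, ← hFTC, ← Real.norm_eq_abs, ← intervalIntegral.integral_const_mul]
    refine (intervalIntegral.norm_integral_le_integral_norm zero_le_one).trans ?_
    apply intervalIntegral.integral_mono_on zero_le_one
    · exact hint.norm.intervalIntegrable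
    · exact ContinuousOn.intervalIntegrable (by
        rw [uIcc_of_le zero_le_one]; exact continuousOn_const.mul hgc)
    · intro t ht
      refine (ContinuousLinearMap.le_opNorm _ _).trans ?_
      rw [mul_comm]
      exact mul_le_mul_of_nonneg_right hxy (norm_nonneg _)
  calc (f x - f y) ^ 2 = |f x - f y| ^ 2 := (sq_abs _).symm
    _ ≤ ((2 * r) * ∫ t in (0:ℝ)..1, ‖fderiv ℝ f ((1 - t) • x + t • y)‖) ^ 2 :=
        pow_le_pow_left₀ (abs_nonneg _) hb 2
    _ = (2 * r) ^ 2 * (∫ t in (0:ℝ)..1, ‖fderiv ℝ f ((1 - t) • x + t • y)‖) ^ 2 := by ring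
    _ ≤ _ := mul_le_mul_of_nonneg_left (sq_int_le hgc) (by positivity)

theorem triple {h : V → ENNReal} (hh : Measurable h) (r : ℝ) :
    ∫⁻ y in ball (0 : V) r, ∫⁻ x in ball (0 : V) r, ∫⁻ t in Ioc (0:ℝ) 1,
      h ((1 - t) • x + t • y)
    ≤ ENNReal.ofReal (2 ^ Module.finrank ℝ V) * (∫⁻ x, h x) * volume (ball (0 : V) r) := by
  have hm3 : Measurable fun p : (V × ℝ) × V => h ((1 - p.1.2) • p.2 + p.1.2 • p.1.1) := by
    apply hh.comp
    have : Continuous fun p : (V × ℝ) × V => (1 - p.1.2) • p.2 + p.1.2 • p.1.1 := by fun_prop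
    exact this.measurable
  have h1 : ∀ y : V, ∫⁻ x in ball (0 : V) r, ∫⁻ t in Ioc (0:ℝ) 1, h ((1 - t) • x + t • y)
      = ∫⁻ t in Ioc (0:ℝ) 1, ∫⁻ x in ball (0 : V) r, h ((1 - t) • x + t • y) := by
    intro y
    apply lintegral_lintegral_swap
    apply Measurable.aemeasurable
    apply hh.comp
    have : Continuous fun p : V × ℝ => (1 - p.2) • p.1 + p.2 • y := by fun_prop
    exact this.measurable
  have h2 : ∫⁻ y in ball (0 : V) r, ∫⁻ t in Ioc (0:ℝ) 1, ∫⁻ x in ball (0 : V) r,
        h ((1 - t) • x + t • y)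
      = ∫⁻ t in Ioc (0:ℝ) 1, ∫⁻ y in ball (0 : V) r, ∫⁻ x in ball (0 : V) r,
        h ((1 - t) • x + t • y) := by
    apply lintegral_lintegral_swap
    apply Measurable.aemeasurable
    exact hm3.lintegral_prod_right'
  simp_rw [h1]
  rw [h2]
  have h3 : ∀ t ∈ Ioc (0:ℝ) 1, ∫⁻ y in ball (0 : V) r, ∫⁻ x in ball (0 : V) r,
        h ((1 - t) • x + t • y)
      ≤ ENNReal.ofReal (2 ^ Module.finrank ℝ V) * (∫⁻ x, h x) * volume (ball (0 : V) r) := by
    intro t ht
    by_cases h12 : t ≤ 1 / 2
    · calc ∫⁻ y in ball (0 : V) r, ∫⁻ x in ball (0 : V) r, h ((1 - t) • x + t • y)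
          ≤ ∫⁻ y in ball (0 : V) r, ENNReal.ofReal (2 ^ Module.finrank ℝ V) * (∫⁻ x, h x) := by
            apply lintegral_mono
            intro y
            refine (setLIntegral_le_lintegral _ _).trans ?_
            exact lscale hh (by linarith) _
        _ = _ := by rw [setLIntegral_const]
    · have hsw : ∫⁻ y in ball (0 : V) r, ∫⁻ x in ball (0 : V) r, h ((1 - t) • x + t • y)
          = ∫⁻ x in ball (0 : V) r, ∫⁻ y in ball (0 : V) r, h (t • y + (1 - t) • x) := by
        rw [lintegral_lintegral_swap]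
        · simp_rw [add_comm]
        · apply Measurable.aemeasurable
          apply hh.comp
          have : Continuous fun p : V × V => (1 - t) • p.2 + t • p.1 := by fun_prop
          exact this.measurable
      rw [hsw]
      calc ∫⁻ x in ball (0 : V) r, ∫⁻ y in ball (0 : V) r, h (t • y + (1 - t) • x)
          ≤ ∫⁻ x in ball (0 : V) r, ENNReal.ofReal (2 ^ Module.finrank ℝ V) * (∫⁻ x, h x) := by
            apply lintegral_mono
            intro y
            refine (setLIntegral_le_lintegral _ _).trans ?_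
            exact lscale hh (by linarith) _
        _ = _ := by rw [setLIntegral_const]
  calc ∫⁻ t in Ioc (0:ℝ) 1, ∫⁻ y in ball (0 : V) r, ∫⁻ x in ball (0 : V) r,
        h ((1 - t) • x + t • y)
      ≤ ∫⁻ t in Ioc (0:ℝ) 1, ENNReal.ofReal (2 ^ Module.finrank ℝ V) * (∫⁻ x, h x)
          * volume (ball (0 : V) r) := setLIntegral_mono' measurableSet_Ioc h3
    _ = _ := by rw [setLIntegral_const]; simp

end HdPoin

/-- Poincaré inequality on a polydisc -/
theorem poincare_ineq {r R : ℝ} (hr : 0 < r) (hR : r < R) : ∃ Kc : ℝ, 0 < Kc ∧ ∀ f : V → ℝ,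
    ContDiffOn ℝ 1 f (ball 0 R) → ∃ c : ℝ, sq r (fun z => f z - c) ≤ Kc * sq r (fderiv ℝ f) := by
  refine ⟨(2 * r) ^ 2 * 2 ^ Module.finrank ℝ V, by positivity, fun f hf => ?_⟩
  have hsub : closedBall (0 : V) r ⊆ ball 0 R := closedBall_subset_ball hR
  have hfd : ContinuousOn (fderiv ℝ f) (ball 0 R) :=
    hf.continuousOn_fderiv_of_isOpen isOpen_ball le_rfl
  set h : V → ENNReal := (ball (0 : V) r).indicator
    (fun z => ENNReal.ofReal (‖fderiv ℝ f z‖ ^ 2)) with hh
  have hhm : Measurable h := by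
    apply Measurable.indicator _ measurableSet_ball
    exact ((measurable_fderiv ℝ f).norm.pow_const 2).ennreal_ofReal
  have hB0 : volume (ball (0 : V) r) ≠ 0 := (measure_ball_pos _ _ hr).ne'
  have hB1 : volume (ball (0 : V) r) ≠ ⊤ := measure_ball_lt_top.ne
  have hfc : ContinuousOn f (ball 0 r) := hf.continuousOn.mono (ball_subset_ball hR.le)
  -- measurable version of f
  have hfm : AEMeasurable f (volume.restrict (ball (0 : V) r)) :=
    hfc.aemeasurable measurableSet_ball
  set F : V → ℝ := hfm.mk f with hF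
  have hFm : Measurable F := hfm.measurable_mk
  set J : V → ENNReal := fun y => ∫⁻ x in ball (0 : V) r, ENNReal.ofReal ((f x - f y) ^ 2) with hJ
  have hJm : AEMeasurable J (volume.restrict (ball (0 : V) r)) := by
    have h1 : Measurable fun y => ∫⁻ x in ball (0 : V) r, ENNReal.ofReal ((F x - F y) ^ 2) := by
      apply Measurable.lintegral_prod_right'
        (f := fun p : V × V => ENNReal.ofReal ((F p.2 - F p.1) ^ 2))
      exact (((hFm.comp measurable_snd).sub (hFm.comp measurable_fst)).pow_const 2).ennreal_ofReal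
    refine ⟨_, h1, ?_⟩
    filter_upwards [hfm.ae_eq_mk] with y hy
    simp only [hJ]
    apply lintegral_congr_ae
    filter_upwards [hfm.ae_eq_mk] with x hx
    rw [hx, hy]
  obtain ⟨y, hy, hle⟩ := exists_le_setLAverage hB0 hB1 hJm
  refine ⟨f y, ?_⟩
  have hI : ∫⁻ y in ball (0 : V) r, J y ≤ ENNReal.ofReal ((2 * r) ^ 2) *
      (ENNReal.ofReal (2 ^ Module.finrank ℝ V) * (∫⁻ x, h x) * volume (ball (0 : V) r)) := by
    refine le_trans ?_ (mul_le_mul_right (HdPoin.triple hhm r) _)
    rw [← lintegral_const_mul' _ _ ENNReal.ofReal_ne_top]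
    apply setLIntegral_mono' measurableSet_ball
    intro y hy
    simp only [hJ]
    rw [← lintegral_const_mul' _ _ ENNReal.ofReal_ne_top]
    apply setLIntegral_mono' measurableSet_ball
    intro x hx
    have h1 := HdPoin.line hR hf hx hy
    have hseg : ∀ t ∈ Icc (0:ℝ) 1, (1 - t) • x + t • y ∈ ball (0 : V) r := by
      intro t ht
      exact (convex_ball (0 : V) r) hx hy (by linarith [ht.2]) ht.1 (by ring)
    have hcm : Continuous fun t : ℝ => (1 - t) • x + t • y := by fun_prop
    have hc : ContinuousOn (fun t : ℝ => ‖fderiv ℝ f ((1 - t) • x + t • y)‖ ^ 2) (Icc 0 1) :=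
      ((hfd.comp hcm.continuousOn fun t ht =>
        (ball_subset_ball hR.le) (hseg t ht)).norm).pow 2
    have h2 : ENNReal.ofReal (∫ t in (0:ℝ)..1, ‖fderiv ℝ f ((1 - t) • x + t • y)‖ ^ 2)
        = ∫⁻ t in Ioc (0:ℝ) 1, h ((1 - t) • x + t • y) := by
      rw [intervalIntegral.integral_of_le zero_le_one, ofReal_integral_eq_lintegral_ofReal]
      · apply setLIntegral_congr_fun measurableSet_Ioc
        intro t ht
        simp only [hh]
        rw [indicator_of_mem (hseg t ⟨ht.1.le, ht.2⟩)]
      · exact (hc.integrableOn_Icc).mono_set Ioc_subset_Icc_self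
      · exact Filter.Eventually.of_forall fun t => by positivity
    rw [← h2, ← ENNReal.ofReal_mul (by positivity)]
    exact ENNReal.ofReal_le_ofReal h1
  have hJy : J y ≤ ENNReal.ofReal ((2 * r) ^ 2) *
      (ENNReal.ofReal (2 ^ Module.finrank ℝ V) * (∫⁻ x, h x)) := by
    refine hle.trans ?_
    rw [setLAverage_eq]
    rw [ENNReal.div_le_iff hB0 hB1, mul_assoc]
    exact hI
  have hhx : ∫⁻ x, h x = ∫⁻ x in ball (0 : V) r, ENNReal.ofReal (‖fderiv ℝ f x‖ ^ 2) := by
    simp only [hh]
    rw [lintegral_indicator measurableSet_ball]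
  have hint1 : IntegrableOn (fun x => ‖fderiv ℝ f x‖ ^ 2) (ball (0 : V) r) volume := by
    have : ContinuousOn (fun x => ‖fderiv ℝ f x‖ ^ 2) (closedBall (0 : V) r) :=
      ((hfd.mono hsub).norm).pow 2
    exact (this.integrableOn_compact (isCompact_closedBall _ _)).mono_set ball_subset_closedBall
  have hint2 : IntegrableOn (fun x => (f x - f y) ^ 2) (ball (0 : V) r) volume := by
    have : ContinuousOn (fun x => (f x - f y) ^ 2) (closedBall (0 : V) r) :=
      ((hf.continuousOn.mono hsub).sub continuousOn_const).pow 2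
    exact (this.integrableOn_compact (isCompact_closedBall _ _)).mono_set ball_subset_closedBall
  have e1 : J y = ENNReal.ofReal (sq r (fun z => f z - f y)) := by
    simp only [hJ, sq, Real.norm_eq_abs, sq_abs]
    rw [ofReal_integral_eq_lintegral_ofReal hint2
      (Filter.Eventually.of_forall fun t => by positivity)]
  have e2 : ∫⁻ x, h x = ENNReal.ofReal (sq r (fderiv ℝ f)) := by
    rw [hhx, sq, ofReal_integral_eq_lintegral_ofReal hint1
      (Filter.Eventually.of_forall fun t => by positivity)]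
  have hsq : 0 ≤ sq r (fderiv ℝ f) := integral_nonneg fun _ => by positivity
  rw [e1, e2, ← ENNReal.ofReal_mul (by positivity), ← ENNReal.ofReal_mul (by positivity)] at hJy
  have := (ENNReal.ofReal_le_ofReal_iff (by positivity)).1 hJy
  rw [mul_assoc]
  exact this

/-! ### Task HdExact -/

namespace HdExact

theorem cts_mul {U : Set V} (hU : IsOpen U) {φ G : V → ℝ} (hφ : Continuous φ)
    (hs : tsupport φ ⊆ U) (hG : ContinuousOn G U) : Continuous fun z => φ z * G z :=
  ContinuousOn.continuous_of_tsupport_subset (hφ.continuousOn.mul hG) hU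
    ((tsupport_mul_subset_left (f := φ) (g := G)).trans hs)

theorem int_mul {U : Set V} (hU : IsOpen U) {φ G : V → ℝ} (hφ : Continuous φ)
    (hc : HasCompactSupport φ) (hs : tsupport φ ⊆ U) (hG : ContinuousOn G U) :
    Integrable fun z => φ z * G z :=
  (cts_mul hU hφ hs hG).integrable_of_hasCompactSupport (hc.mul_right (f' := G))

/-- integration by parts against a test function -/
theorem ibp {U : Set V} (hU : IsOpen U) {φ G : V → ℝ} (hφ : ContDiff ℝ 1 φ)
    (hc : HasCompactSupport φ) (hs : tsupport φ ⊆ U) (hG : ContDiffOn ℝ 1 G U) (v : V) :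
    ∫ z, φ z * fderiv ℝ G z v = - ∫ z, fderiv ℝ φ z v * G z := by
  have hφ' : Continuous fun z => fderiv ℝ φ z v :=
    (hφ.continuous_fderiv one_ne_zero).clm_apply continuous_const
  have hsφ' : tsupport (fun z => fderiv ℝ φ z v) ⊆ tsupport φ := by
    apply closure_minimal _ (isClosed_tsupport _)
    intro z hz
    by_contra h
    apply hz
    simp [fderiv_of_notMem_tsupport ℝ h]
  have hcφ' : HasCompactSupport fun z => fderiv ℝ φ z v :=
    HasCompactSupport.of_support_subset_isCompact hc (subset_tsupport _ |>.trans hsφ')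
  have hG' : ContinuousOn (fun z => fderiv ℝ G z v) U :=
    (hG.continuousOn_fderiv_of_isOpen hU le_rfl).clm_apply continuousOn_const
  exact integral_mul_fderiv_eq_neg_fderiv_mul_of_integrable
    (int_mul hU hφ' hcφ' (hsφ'.trans hs) hG.continuousOn)
    (int_mul hU hφ.continuous hc hs hG')
    (int_mul hU hφ.continuous hc hs hG.continuousOn)
    (fun z _ => hφ.differentiable one_ne_zero z)
    (fun z hz => (hG.contDiffAt (hU.mem_nhds (hs hz))).differentiableAt one_ne_zero)

theorem closed_of_lim {f : ℕ → V → ℝ} {κ : V → (V →L[ℝ] ℝ)} {R : ℝ}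
    (hs : ∀ n, ContDiffOn ℝ ∞ (f n) (ball 0 R)) (hκ : ContDiffOn ℝ ∞ κ (ball 0 R))
    (hlim : ∀ r < R, Filter.Tendsto (fun n => sq r (fun z => fderiv ℝ (f n) z - κ z))
      Filter.atTop (𝓝 0)) (u v : V) :
    ∀ z ∈ ball (0 : V) R, fderiv ℝ κ z u v = fderiv ℝ κ z v u := by
  have hU : IsOpen (ball (0 : V) R) := isOpen_ball
  have hκ1 : ContDiffOn ℝ 1 κ (ball 0 R) := hκ.of_le (by exact_mod_cast le_top)
  have hDc : ContinuousOn (fun z => fderiv ℝ κ z u v - fderiv ℝ κ z v u) (ball 0 R) := by
    have := hκ1.continuousOn_fderiv_of_isOpen hU le_rfl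
    exact ((this.clm_apply continuousOn_const).clm_apply continuousOn_const).sub
      ((this.clm_apply continuousOn_const).clm_apply continuousOn_const)
  have key : ∀ g : V → ℝ, ContDiff ℝ ∞ g → HasCompactSupport g → tsupport g ⊆ ball (0 : V) R →
      ∫ z, g z • (fderiv ℝ κ z u v - fderiv ℝ κ z v u) = 0 := by
    intro g hg hc hsup
    have hg1 : ContDiff ℝ 1 g := hg.of_le (by exact_mod_cast le_top)
    -- evaluation of a form
    have hev : ∀ (η : V → (V →L[ℝ] ℝ)), ContDiffOn ℝ 1 η (ball 0 R) →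
        ∫ z, g z * (fderiv ℝ η z u v - fderiv ℝ η z v u)
          = ∫ z, (fderiv ℝ g z v * η z u - fderiv ℝ g z u * η z v) := by
      intro η hη
      have hap : ∀ a : V, ContDiffOn ℝ 1 (fun z => η z a) (ball 0 R) := fun a =>
        hη.clm_apply contDiffOn_const
      have hfd : ∀ a b : V, ∀ z ∈ ball (0 : V) R,
          fderiv ℝ (fun z => η z a) z b = fderiv ℝ η z b a := by
        intro a b z hz
        have h1 : DifferentiableAt ℝ η z :=
          (hη.contDiffAt (hU.mem_nhds hz)).differentiableAt one_ne_zero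
        rw [fderiv_clm_apply h1 (differentiableAt_const a)]
        simp
      have e1 : ∀ a b : V, ∫ z, g z * fderiv ℝ η z b a = - ∫ z, fderiv ℝ g z b * η z a := by
        intro a b
        rw [← ibp hU hg1 hc hsup (hap a) b]
        congr 1
        ext z
        by_cases hz : z ∈ ball (0 : V) R
        · rw [hfd a b z hz]
        · rw [image_eq_zero_of_notMem_tsupport (fun h => hz (hsup h))]
          simp
      have hcη : ContinuousOn (fderiv ℝ η) (ball 0 R) := hη.continuousOn_fderiv_of_isOpen hU le_rfl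
      have hi : ∀ a b : V, Integrable fun z => g z * fderiv ℝ η z b a := fun a b =>
        int_mul hU hg.continuous hc hsup
          ((hcη.clm_apply continuousOn_const).clm_apply continuousOn_const)
      have hi' : ∀ a b : V, Integrable fun z => fderiv ℝ g z b * η z a := by
        intro a b
        have hsg : tsupport (fun z => fderiv ℝ g z b) ⊆ tsupport g := by
          apply closure_minimal _ (isClosed_tsupport _)
          intro z hz
          by_contra h
          apply hz
          simp [fderiv_of_notMem_tsupport ℝ h]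
        exact int_mul hU ((hg1.continuous_fderiv one_ne_zero).clm_apply continuous_const)
          (HasCompactSupport.of_support_subset_isCompact hc (subset_tsupport _ |>.trans hsg))
          (hsg.trans hsup) (hap a).continuousOn
      simp_rw [mul_sub]
      rw [integral_sub (hi v u) (hi u v), integral_sub (hi' u v) (hi' v u), e1, e1]
      ring
    -- the support lies in a smaller polydisc
    obtain ⟨r, hr, hsr⟩ : ∃ r < R, tsupport g ⊆ ball (0 : V) r := by
      rcases (tsupport g).eq_empty_or_nonempty with he | hne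
      · exact ⟨R - 1, by linarith, by rw [he]; exact empty_subset _⟩
      · obtain ⟨z0, hz0, hmax⟩ := hc.isCompact.exists_isMaxOn hne (f := fun z : V => ‖z‖)
          continuous_norm.continuousOn
        have h0 := mem_ball_zero_iff.1 (hsup hz0)
        refine ⟨(‖z0‖ + R) / 2, by linarith, fun z hz => ?_⟩
        rw [mem_ball_zero_iff]
        have : ‖z‖ ≤ ‖z0‖ := hmax hz
        linarith
    have hsub : ball (0 : V) r ⊆ ball 0 R := ball_subset_ball hr.le
    -- bound for the derivative of `g`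
    have hg'c : Continuous fun z => ‖fderiv ℝ g z‖ := (hg1.continuous_fderiv one_ne_zero).norm
    obtain ⟨M, hM⟩ : ∃ M : ℝ, ∀ z, ‖fderiv ℝ g z‖ ≤ M := by
      have hcg : HasCompactSupport (fderiv ℝ g) := hc.fderiv (𝕜 := ℝ)
      obtain ⟨M, hM⟩ := hcg.exists_bound_of_continuous (hg1.continuous_fderiv one_ne_zero)
      exact ⟨M, hM⟩
    have hM0 : 0 ≤ M := (norm_nonneg _).trans (hM 0)
    set W := (volume (ball (0 : V) r)).toReal with hW
    have hW0 : 0 ≤ W := ENNReal.toReal_nonneg
    have hbound : ∀ n : ℕ, ∀ δ : ℝ, 0 < δ →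
        |∫ z, g z * (fderiv ℝ κ z u v - fderiv ℝ κ z v u)|
          ≤ 2 * M * ‖u‖ * ‖v‖ * (δ * W + δ⁻¹ * sq r (fun z => fderiv ℝ (f n) z - κ z)) := by
      intro n δ hδ
      have hf'1 : ContDiffOn ℝ 1 (fderiv ℝ (f n)) (ball 0 R) := by
        have := (fderiv_smooth (hs n))
        exact this.of_le (by exact_mod_cast le_top)
      have h0 : ∫ z, g z * (fderiv ℝ (fderiv ℝ (f n)) z u v - fderiv ℝ (fderiv ℝ (f n)) z v u)
          = 0 := by
        rw [← integral_zero V ℝ]
        congr 1
        ext z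
        by_cases hz : z ∈ ball (0 : V) R
        · have := D2_symm (hs n) hz u v
          simp only [D2] at this
          rw [this]; simp
        · rw [image_eq_zero_of_notMem_tsupport (fun h => hz (hsup h))]
          simp
      have h1 := hev κ hκ1
      have h2 := hev _ hf'1
      rw [h0] at h2
      set E : V → (V →L[ℝ] ℝ) := fun z => fderiv ℝ (f n) z - κ z with hE
      have hEc : ContinuousOn E (ball 0 R) := hf'1.continuousOn.sub hκ1.continuousOn
      have hint : ∀ (η : V → (V →L[ℝ] ℝ)), ContinuousOn η (ball 0 R) →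
          ∀ a b : V, Integrable fun z => fderiv ℝ g z b * η z a := by
        intro η hη a b
        have hsg : tsupport (fun z => fderiv ℝ g z b) ⊆ tsupport g := by
          apply closure_minimal _ (isClosed_tsupport _)
          intro z hz
          by_contra h
          apply hz
          simp [fderiv_of_notMem_tsupport ℝ h]
        exact int_mul hU ((hg1.continuous_fderiv one_ne_zero).clm_apply continuous_const)
          (HasCompactSupport.of_support_subset_isCompact hc (subset_tsupport _ |>.trans hsg))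
          (hsg.trans hsup) (hη.clm_apply continuousOn_const)
      have h3 : ∫ z, g z * (fderiv ℝ κ z u v - fderiv ℝ κ z v u)
          = ∫ z, (fderiv ℝ g z u * E z v - fderiv ℝ g z v * E z u) := by
        have e : ∀ z, fderiv ℝ g z u * E z v - fderiv ℝ g z v * E z u
            = (fderiv ℝ g z v * κ z u - fderiv ℝ g z u * κ z v)
              - (fderiv ℝ g z v * fderiv ℝ (f n) z u - fderiv ℝ g z u * fderiv ℝ (f n) z v) := by
          intro z
          simp only [hE, _root_.sub_apply]
          ring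
        simp_rw [e]
        rw [integral_sub, ← h1, ← h2, sub_zero]
        · exact (hint κ hκ1.continuousOn u v).sub (hint κ hκ1.continuousOn v u)
        · exact (hint _ hf'1.continuousOn u v).sub (hint _ hf'1.continuousOn v u)
      rw [h3]
      have hEi : IntegrableOn (fun z => ‖E z‖ ^ 2) (ball (0 : V) r) := by
        have : ContinuousOn (fun z => ‖E z‖ ^ 2) (closedBall (0 : V) r) :=
          ((hEc.mono (closedBall_subset_ball hr)).norm).pow 2
        exact (this.integrableOn_compact (isCompact_closedBall _ _)).mono_set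
          ball_subset_closedBall
      have hci : IntegrableOn (fun _ : V => δ) (ball (0 : V) r) :=
        integrableOn_const measure_ball_lt_top.ne
      calc |∫ z, (fderiv ℝ g z u * E z v - fderiv ℝ g z v * E z u)|
          ≤ ∫ z, ‖fderiv ℝ g z u * E z v - fderiv ℝ g z v * E z u‖ := by
            rw [← Real.norm_eq_abs]; exact norm_integral_le_integral_norm _
        _ = ∫ z in ball (0 : V) r, ‖fderiv ℝ g z u * E z v - fderiv ℝ g z v * E z u‖ := by
            rw [setIntegral_eq_integral_of_forall_compl_eq_zero]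
            intro z hz
            have : fderiv ℝ g z = 0 := fderiv_of_notMem_tsupport ℝ (fun h => hz (hsr h))
            rw [this]; simp
        _ ≤ ∫ z in ball (0 : V) r, 2 * M * ‖u‖ * ‖v‖ * (δ + δ⁻¹ * ‖E z‖ ^ 2) := by
            apply setIntegral_mono_on _ _ measurableSet_ball
            · intro z hz
              have a1 : ‖fderiv ℝ g z u‖ ≤ M * ‖u‖ :=
                (ContinuousLinearMap.le_opNorm _ _).trans
                  (mul_le_mul_of_nonneg_right (hM z) (norm_nonneg _))
              have a2 : ‖fderiv ℝ g z v‖ ≤ M * ‖v‖ :=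
                (ContinuousLinearMap.le_opNorm _ _).trans
                  (mul_le_mul_of_nonneg_right (hM z) (norm_nonneg _))
              have a3 : ‖E z v‖ ≤ ‖E z‖ * ‖v‖ := ContinuousLinearMap.le_opNorm _ _
              have a4 : ‖E z u‖ ≤ ‖E z‖ * ‖u‖ := ContinuousLinearMap.le_opNorm _ _
              have a5 : ‖E z‖ ≤ δ + δ⁻¹ * ‖E z‖ ^ 2 := by
                have hEn := norm_nonneg (E z)
                by_cases hle : ‖E z‖ ≤ δ
                · have : 0 ≤ δ⁻¹ * ‖E z‖ ^ 2 := by positivity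
                  linarith
                · push Not at hle
                  have : ‖E z‖ = δ⁻¹ * (δ * ‖E z‖) := by field_simp
                  have h6 : δ⁻¹ * (δ * ‖E z‖) ≤ δ⁻¹ * ‖E z‖ ^ 2 := by
                    apply mul_le_mul_of_nonneg_left _ (by positivity)
                    nlinarith
                  linarith
              calc ‖fderiv ℝ g z u * E z v - fderiv ℝ g z v * E z u‖
                  ≤ ‖fderiv ℝ g z u‖ * ‖E z v‖ + ‖fderiv ℝ g z v‖ * ‖E z u‖ := by
                    refine (norm_sub_le _ _).trans ?_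
                    rw [norm_mul, norm_mul]
                _ ≤ (M * ‖u‖) * (‖E z‖ * ‖v‖) + (M * ‖v‖) * (‖E z‖ * ‖u‖) := by
                    gcongr
                _ = 2 * M * ‖u‖ * ‖v‖ * ‖E z‖ := by ring
                _ ≤ _ := mul_le_mul_of_nonneg_left a5 (by positivity)
            · exact ((hint E hEc v u).sub (hint E hEc u v)).norm.integrableOn
            · exact (hci.add (hEi.const_mul _)).const_mul _
        _ = 2 * M * ‖u‖ * ‖v‖ * (δ * W + δ⁻¹ * sq r E) := by
            rw [integral_const_mul, integral_add hci (hEi.const_mul _), integral_const_mul,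
              setIntegral_const, sq]
            simp [hW, Measure.real, mul_comm]
    simp only [smul_eq_mul]
    by_contra hne
    have hpos : 0 < |∫ z, g z * (fderiv ℝ κ z u v - fderiv ℝ κ z v u)| := abs_pos.2 hne
    set A := |∫ z, g z * (fderiv ℝ κ z u v - fderiv ℝ κ z v u)| with hA
    have h1 : ∀ δ : ℝ, 0 < δ → A ≤ 2 * M * ‖u‖ * ‖v‖ * (δ * W) := by
      intro δ hδ
      have ht : Filter.Tendsto (fun n : ℕ => 2 * M * ‖u‖ * ‖v‖ *
          (δ * W + δ⁻¹ * sq r (fun z => fderiv ℝ (f n) z - κ z))) Filter.atTop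
          (𝓝 (2 * M * ‖u‖ * ‖v‖ * (δ * W + δ⁻¹ * 0))) :=
        (((hlim r hr).const_mul _).const_add _).const_mul _
      have := ge_of_tendsto' ht fun n => hbound n δ hδ
      simpa using this
    have h2 : 0 < 2 * M * ‖u‖ * ‖v‖ * W + 1 := by positivity
    have h3 := h1 (A / (2 * (2 * M * ‖u‖ * ‖v‖ * W + 1))) (by positivity)
    have h4 : 2 * M * ‖u‖ * ‖v‖ * (A / (2 * (2 * M * ‖u‖ * ‖v‖ * W + 1)) * W)
        = A / 2 * ((2 * M * ‖u‖ * ‖v‖ * W) / (2 * M * ‖u‖ * ‖v‖ * W + 1)) := by
      field_simp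
    have h5 : (2 * M * ‖u‖ * ‖v‖ * W) / (2 * M * ‖u‖ * ‖v‖ * W + 1) ≤ 1 := by
      rw [div_le_one h2]; linarith
    have h6 : A / 2 * ((2 * M * ‖u‖ * ‖v‖ * W) / (2 * M * ‖u‖ * ‖v‖ * W + 1)) ≤ A / 2 * 1 :=
      mul_le_mul_of_nonneg_left h5 (by positivity)
    linarith
  have hae := hU.ae_eq_zero_of_integral_contDiff_smul_eq_zero
    (hDc.locallyIntegrableOn measurableSet_ball) key
  have hEq : EqOn (fun z => fderiv ℝ κ z u v - fderiv ℝ κ z v u) (fun _ => 0) (ball (0 : V) R) := by
    apply Measure.eqOn_open_of_ae_eq (μ := (volume : Measure V)) _ hU hDc continuousOn_const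
    rw [Filter.EventuallyEq, ae_restrict_iff' measurableSet_ball]
    exact hae
  intro z hz
  have := hEq hz
  simp only at this
  linarith

theorem smooth_of_fderiv {w : V → ℝ} {κ : V → (V →L[ℝ] ℝ)} {R : ℝ}
    (hκ : ContDiffOn ℝ ∞ κ (ball 0 R)) (hw : ∀ z ∈ ball (0 : V) R, HasFDerivAt w (κ z) z) :
    ContDiffOn ℝ ∞ w (ball 0 R) := by
  rw [contDiffOn_infty_iff_fderiv_of_isOpen isOpen_ball]
  refine ⟨fun z hz => (hw z hz).differentiableAt.differentiableWithinAt, ?_⟩
  exact hκ.congr fun z hz => (hw z hz).fderiv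

end HdExact

/-- local version: a smooth `L²`-limit of exact forms is exact -/
theorem exact_loc {f : ℕ → V → ℝ} {κ : V → (V →L[ℝ] ℝ)} {R : ℝ} (hR : 0 < R) (hR3 : R ≤ 3)
    (hs : ∀ n, ContDiffOn ℝ ∞ (f n) (ball 0 R)) (hκ : ContDiffOn ℝ ∞ κ (ball 0 R))
    (hlim : ∀ r < R, Filter.Tendsto (fun n => sq r (fun z => fderiv ℝ (f n) z - κ z))
      Filter.atTop (𝓝 0)) :
    ∃ w : V → ℝ, ContDiffOn ℝ ∞ w (ball 0 R) ∧ ∀ z ∈ ball (0 : V) R, fderiv ℝ w z = κ z := by
  have hdiff : DifferentiableOn ℝ κ (ball 0 R) := hκ.differentiableOn (by simp)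
  obtain ⟨w, hw⟩ := (convex_ball (0 : V) R).exists_forall_hasFDerivAt_of_fderiv_symmetric
    isOpen_ball hdiff fun z hz x y => HdExact.closed_of_lim hs hκ hlim x y z hz
  exact ⟨w, HdExact.smooth_of_fderiv hκ hw, fun z hz => (hw z hz).fderiv⟩

namespace HdExact

variable {X : Type} [TopologicalSpace X] {K : KD X}

/-- comparison of the normalising constants of two charts -/
theorem trans_lim [T2Space X] {u : ℕ → X → ℝ} (hu : ∀ n, IsS K (u n)) {w : K.ι → V → ℝ}
    (hw : ∀ i, ContinuousOn (w i) (ball 0 2)) {c : ℕ → K.ι → ℝ}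
    (hA : ∀ i, Filter.Tendsto (fun n => sq 1 (fun z => lc K (u n) i z - w i z - c n i))
      Filter.atTop (𝓝 0))
    {i j : K.ι} {x : X} (hi : x ∈ (K.ch i).source) (hi1 : K.ch i x ∈ ball (0 : V) 1)
    (hj : x ∈ (K.ch j).source) (hj1 : K.ch j x ∈ ball (0 : V) 1) :
    Filter.Tendsto (fun n => c n j - c n i) Filter.atTop
      (𝓝 (w i (K.ch i x) - w j (K.ch j x))) := by
  classical
  set z0 := K.ch i x with hz0
  have hsymm : (K.ch i).symm z0 = x := (K.ch i).left_inv hi
  have hz0ov : z0 ∈ ov K.ch i j := by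
    refine ⟨(K.ch i).map_source hi, ?_⟩
    show (K.ch i).symm z0 ∈ (K.ch j).source
    rw [hsymm]; exact hj
  have htz0 : tt K.ch i j z0 = K.ch j x := by
    show K.ch j ((K.ch i).symm z0) = K.ch j x
    rw [hsymm]
  set L := w i z0 - w j (K.ch j x) with hL
  -- the open set
  have hovo : IsOpen (ov K.ch i j) := ov_open K i j
  have httc : ContinuousOn (tt K.ch i j) (ov K.ch i j) := (K.hol i j).continuousOn
  set O : Set V := (ov K.ch i j ∩ tt K.ch i j ⁻¹' ball 0 1) ∩ ball 0 1 with hO
  have hOo : IsOpen O := (httc.isOpen_inter_preimage hovo isOpen_ball).inter isOpen_ball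
  have hz0O : z0 ∈ O := ⟨⟨hz0ov, by show tt K.ch i j z0 ∈ ball 0 1; rw [htz0]; exact hj1⟩, hi1⟩
  have hwi : ContinuousOn (w i) O := (hw i).mono fun z hz => ball_subset_ball (by norm_num) hz.2
  have hwj : ContinuousOn (fun z => w j (tt K.ch i j z)) O :=
    (hw j).comp (httc.mono fun z hz => hz.1.1) fun z hz => ball_subset_ball (by norm_num) hz.1.2
  obtain ⟨bi, hbi0, Bi, hBi0, hbi⟩ := bounds (K.isK i)
  obtain ⟨bj, hbj0, Bj, hBj0, hbj⟩ := bounds (K.isK j)
  rw [Metric.tendsto_atTop]
  intro ε hε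
  -- small closed ball
  obtain ⟨ρ, hρ, hρO⟩ : ∃ ρ > 0, closedBall z0 ρ ⊆ O ∩
      {z | |(w i z - w j (tt K.ch i j z)) - L| < ε / 4} := by
    have hcL : ContinuousAt (fun z => w i z - w j (tt K.ch i j z)) z0 :=
      (hwi.sub hwj).continuousAt (hOo.mem_nhds hz0O)
    have h1 : {z | |(w i z - w j (tt K.ch i j z)) - L| < ε / 4} ∈ 𝓝 z0 := by
      have := hcL.eventually (Metric.ball_mem_nhds _ (by positivity : (0:ℝ) < ε / 4))
      filter_upwards [this] with z hz
      rw [Real.dist_eq, htz0] at hz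
      show |(w i z - w j (tt K.ch i j z)) - L| < ε / 4
      rw [hL]
      exact hz
    exact Metric.nhds_basis_closedBall.mem_iff.1 (Filter.inter_mem (hOo.mem_nhds hz0O) h1)
  set B := closedBall z0 ρ with hB
  have hBO : B ⊆ O := fun z hz => (hρO hz).1
  have hBc : IsCompact B := isCompact_closedBall _ _
  have hBm : MeasurableSet B := measurableSet_closedBall
  have hBov : B ⊆ ov K.ch i j := fun z hz => (hBO hz).1.1
  have hB1 : B ⊆ ball 0 1 := fun z hz => (hBO hz).2
  have hB3 : B ⊆ ball 0 3 := hB1.trans (ball_subset_ball (by norm_num))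
  have hgi : ContinuousOn (fun z => K.g i z) (ball 0 3) := (det_smooth (K.isK i)).continuousOn
  have hgj : ContinuousOn (fun z => K.g j z) (ball 0 3) := (det_smooth (K.isK j)).continuousOn
  have hgiB : IntegrableOn (fun z => K.g i z) B := (hgi.mono hB3).integrableOn_compact hBc
  have h12 : ball (0 : V) 1 ⊆ closedBall 0 2 :=
    (ball_subset_ball (by norm_num)).trans ball_subset_closedBall
  have hgipos : ∀ z ∈ ball (0 : V) 1, bi ≤ K.g i z ∧ K.g i z ≤ Bi := fun z hz =>
    (hbi z (h12 hz)).2.1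
  have hgjpos : ∀ z ∈ ball (0 : V) 1, bj ≤ K.g j z ∧ K.g j z ≤ Bj := fun z hz =>
    (hbj z (h12 hz)).2.1
  -- the mass
  set m := ∫ z in B, K.g i z with hm
  have hvol : 0 < (volume B).toReal :=
    ENNReal.toReal_pos (Metric.measure_closedBall_pos _ _ hρ).ne' hBc.measure_lt_top.ne
  have hmpos : 0 < m := by
    have h1 : ∫ z in B, bi ≤ m := by
      apply setIntegral_mono_on (integrableOn_const hBc.measure_lt_top.ne) hgiB hBm
      intro z hz
      exact (hgipos z (hB1 hz)).1
    rw [setIntegral_const] at h1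
    have : 0 < (volume B).toReal * bi := mul_pos hvol hbi0
    simp only [smul_eq_mul, Measure.real] at h1
    linarith
  -- notation
  set p : ℕ → V → ℝ := fun n z => lc K (u n) i z - w i z - c n i with hp
  set q : ℕ → V → ℝ := fun n z => lc K (u n) j z - w j z - c n j with hq
  have hlc : ∀ n k, ContinuousOn (lc K (u n) k) (ball 0 3) := fun n k => (hu n k).continuousOn
  have hpc : ∀ n, ContinuousOn (p n) (ball 0 2) := fun n =>
    (((hlc n i).mono (ball_subset_ball (by norm_num))).sub (hw i)).sub continuousOn_const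
  have hqc : ∀ n, ContinuousOn (q n) (ball 0 2) := fun n =>
    (((hlc n j).mono (ball_subset_ball (by norm_num))).sub (hw j)).sub continuousOn_const
  have hc12 : closedBall (0 : V) 1 ⊆ ball 0 2 := closedBall_subset_ball (by norm_num)
  have hp1 : ∀ n, ∫ z in B, p n z ^ 2 * K.g i z ≤ Bi * sq 1 (p n) := by
    intro n
    have hI : IntegrableOn (fun z => p n z ^ 2) (ball (0 : V) 1) :=
      ((((hpc n).mono hc12).pow 2).integrableOn_compact (isCompact_closedBall _ _)).mono_set
        ball_subset_closedBall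
    calc ∫ z in B, p n z ^ 2 * K.g i z ≤ ∫ z in B, Bi * p n z ^ 2 := by
          apply setIntegral_mono_on _ _ hBm
          · intro z hz
            rw [mul_comm]
            exact mul_le_mul_of_nonneg_right (hgipos z (hB1 hz)).2 (sq_nonneg _)
          · exact (((((hpc n).mono (hB1.trans (ball_subset_ball (by norm_num)))).pow 2).mul
              (hgi.mono hB3))).integrableOn_compact hBc
          · exact (hI.mono_set hB1).const_mul _
      _ = Bi * ∫ z in B, p n z ^ 2 := integral_const_mul _ _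
      _ ≤ Bi * ∫ z in ball (0 : V) 1, p n z ^ 2 := by
          apply mul_le_mul_of_nonneg_left _ hBi0.le
          exact setIntegral_mono_set hI (Filter.Eventually.of_forall fun _ => sq_nonneg _)
            hB1.eventuallyLE
      _ = Bi * sq 1 (p n) := by
          simp only [sq, Real.norm_eq_abs, sq_abs]
  -- change of variables
  have hq1 : ∀ n, ∫ z in B, q n (tt K.ch i j z) ^ 2 * K.g i z ≤ Bj * sq 1 (q n) := by
    intro n
    set F : X → ℝ := fun y => (u n y - w j (K.ch j y) - c n j) ^ 2 with hF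
    have hD : IsD K fun k z => lc K F k z * K.g k z := g_dens.smulS F
    have h1 := int_tt hD i j hBm hBov
    have e1 : ∫ z in B, q n (tt K.ch i j z) ^ 2 * K.g i z
        = ∫ z in B, lc K F i z * K.g i z := by
      apply setIntegral_congr_fun hBm
      intro z hz
      simp only [hF, lc, hq]
      have hzz : (K.ch j).symm (tt K.ch i j z) = (K.ch i).symm z :=
        (K.ch j).left_inv (hBov hz).2
      rw [hzz]
      rfl
    rw [e1, h1]
    have himg : tt K.ch i j '' B ⊆ ball 0 1 := by
      rintro _ ⟨z, hz, rfl⟩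
      exact (hBO hz).1.2
    have hI : IntegrableOn (fun z => q n z ^ 2 * K.g j z) (ball (0 : V) 1) :=
      (((((hqc n).mono hc12).pow 2).mul (hgj.mono (closedBall_subset_ball (by norm_num)))
        ).integrableOn_compact (isCompact_closedBall _ _)).mono_set ball_subset_closedBall
    have hI2 : IntegrableOn (fun z => q n z ^ 2) (ball (0 : V) 1) :=
      ((((hqc n).mono hc12).pow 2).integrableOn_compact (isCompact_closedBall _ _)).mono_set
        ball_subset_closedBall
    have e2 : ∀ z ∈ ball (0 : V) 1, lc K F j z * K.g j z = q n z ^ 2 * K.g j z := by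
      intro z hz
      simp only [hF, lc, hq]
      have hzt : z ∈ (K.ch j).target := by
        rw [K.tgt j]; exact ball_subset_ball (by norm_num) hz
      rw [(K.ch j).right_inv hzt]
    have hI' : IntegrableOn (fun z => lc K F j z * K.g j z) (ball (0 : V) 1) :=
      hI.congr_fun (fun z hz => (e2 z hz).symm) measurableSet_ball
    calc ∫ z in tt K.ch i j '' B, lc K F j z * K.g j z
        ≤ ∫ z in ball (0 : V) 1, lc K F j z * K.g j z := by
          apply setIntegral_mono_set hI' _ himg.eventuallyLE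
          rw [Filter.EventuallyLE, ae_restrict_iff' measurableSet_ball]
          refine Filter.Eventually.of_forall fun z hz => ?_
          rw [e2 z hz]
          exact mul_nonneg (sq_nonneg _) (hbj0.le.trans (hgjpos z hz).1)
      _ = ∫ z in ball (0 : V) 1, q n z ^ 2 * K.g j z :=
          setIntegral_congr_fun measurableSet_ball e2
      _ ≤ ∫ z in ball (0 : V) 1, Bj * q n z ^ 2 := by
          apply setIntegral_mono_on hI (hI2.const_mul _) measurableSet_ball
          intro z hz
          rw [mul_comm]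
          exact mul_le_mul_of_nonneg_right (hgjpos z hz).2 (sq_nonneg _)
      _ = Bj * sq 1 (q n) := by
          rw [integral_const_mul]
          simp only [sq, Real.norm_eq_abs, sq_abs]
  -- the main inequality
  have hmain : ∀ n, (c n j - c n i - L) ^ 2 * m
      ≤ 3 * (ε / 4) ^ 2 * m + 3 * (Bi * sq 1 (p n)) + 3 * (Bj * sq 1 (q n)) := by
    intro n
    have hqB : ContinuousOn (fun z => q n (tt K.ch i j z)) B :=
      (hqc n).comp (httc.mono hBov) fun z hz => ball_subset_ball (by norm_num) (hBO hz).1.2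
    have i1 : IntegrableOn (fun z => p n z ^ 2 * K.g i z) B :=
      (((((hpc n).mono (hB1.trans (ball_subset_ball (by norm_num)))).pow 2).mul
              (hgi.mono hB3))).integrableOn_compact hBc
    have i2 : IntegrableOn (fun z => q n (tt K.ch i j z) ^ 2 * K.g i z) B :=
      ((hqB.pow 2).mul (hgi.mono hB3)).integrableOn_compact hBc
    have h1 : ∫ z in B, (c n j - c n i - L) ^ 2 * K.g i z
        ≤ ∫ z in B, (3 * (ε / 4) ^ 2 * K.g i z + 3 * (p n z ^ 2 * K.g i z)
          + 3 * (q n (tt K.ch i j z) ^ 2 * K.g i z)) := by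
      apply setIntegral_mono_on (hgiB.const_mul _)
        (((hgiB.const_mul _).add (i1.const_mul _)).add (i2.const_mul _)) hBm
      intro z hz
      have hg0 : 0 ≤ K.g i z := hbi0.le.trans (hgipos z (hB1 hz)).1
      have hlt : lc K (u n) j (tt K.ch i j z) = lc K (u n) i z := lc_tt (hBov hz)
      have hs : |(w i z - w j (tt K.ch i j z)) - L| < ε / 4 := (hρO hz).2
      have e3 : c n j - c n i - L
          = ((w i z - w j (tt K.ch i j z)) - L) + p n z - q n (tt K.ch i j z) := by
        simp only [hp, hq]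
        rw [hlt]; ring
      have h3 : (c n j - c n i - L) ^ 2
          ≤ 3 * (ε / 4) ^ 2 + 3 * p n z ^ 2 + 3 * q n (tt K.ch i j z) ^ 2 := by
        rw [e3]
        have h4 : ((w i z - w j (tt K.ch i j z)) - L) ^ 2 ≤ (ε / 4) ^ 2 := by
          rw [← sq_abs]
          exact pow_le_pow_left₀ (abs_nonneg _) hs.le 2
        nlinarith [sq_nonneg (((w i z - w j (tt K.ch i j z)) - L) - p n z),
          sq_nonneg (((w i z - w j (tt K.ch i j z)) - L) + q n (tt K.ch i j z)),
          sq_nonneg (p n z + q n (tt K.ch i j z))]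
      calc (c n j - c n i - L) ^ 2 * K.g i z
          ≤ (3 * (ε / 4) ^ 2 + 3 * p n z ^ 2 + 3 * q n (tt K.ch i j z) ^ 2) * K.g i z :=
            mul_le_mul_of_nonneg_right h3 hg0
        _ = 3 * (ε / 4) ^ 2 * K.g i z + 3 * (p n z ^ 2 * K.g i z)
          + 3 * (q n (tt K.ch i j z) ^ 2 * K.g i z) := by ring
    have j1 : IntegrableOn (fun z => 3 * (ε / 4) ^ 2 * K.g i z) B := hgiB.const_mul _
    have j2 : IntegrableOn (fun z => 3 * (p n z ^ 2 * K.g i z)) B := i1.const_mul _
    have j3 : IntegrableOn (fun z => 3 * (q n (tt K.ch i j z) ^ 2 * K.g i z)) B :=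
      i2.const_mul _
    have j12 : IntegrableOn (fun z => 3 * (ε / 4) ^ 2 * K.g i z + 3 * (p n z ^ 2 * K.g i z)) B :=
      j1.add j2
    rw [integral_const_mul, integral_add j12 j3, integral_add j1 j2, integral_const_mul,
      integral_const_mul, integral_const_mul] at h1
    have h2 := hp1 n
    have h3 := hq1 n
    rw [← hm] at h1
    linarith
  have hlim : Filter.Tendsto (fun n => 3 * (Bi * sq 1 (p n)) + 3 * (Bj * sq 1 (q n)))
      Filter.atTop (𝓝 (3 * (Bi * 0) + 3 * (Bj * 0))) :=
    (((hA i).const_mul _).const_mul _).add (((hA j).const_mul _).const_mul _)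
  simp only [mul_zero, add_zero] at hlim
  have hev := hlim.eventually (gt_mem_nhds (by positivity : (0:ℝ) < (ε / 4) ^ 2 * m))
  obtain ⟨N, hN⟩ := Filter.eventually_atTop.1 hev
  refine ⟨N, fun n hn => ?_⟩
  have h1 := hmain n
  have h2 := hN n hn
  have h3 : (c n j - c n i - L) ^ 2 * m < (4 * (ε / 4) ^ 2) * m := by linarith
  have h4 : (c n j - c n i - L) ^ 2 < 4 * (ε / 4) ^ 2 := lt_of_mul_lt_mul_right h3 hmpos.le
  rw [Real.dist_eq]
  have h5 : (c n j - c n i - L) ^ 2 < ε ^ 2 := by
    refine h4.trans_le ?_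
    nlinarith [sq_nonneg ε]
  exact abs_lt_of_sq_lt_sq h5 hε.le

end HdExact

variable {X : Type} [TopologicalSpace X] {K : KD X}

theorem exact_limit [T2Space X] [ConnectedSpace X] (u : ℕ → X → ℝ) (hu : ∀ n, IsS K (u n))
    (κ : K.ι → V → (V →L[ℝ] ℝ)) (hκ : ∀ i, ContDiffOn ℝ ∞ (κ i) (ball 0 2))
    (hlim : ∀ i, ∀ r < 2, Filter.Tendsto
      (fun n => sq r (fun z => fderiv ℝ (lc K (u n) i) z - κ i z)) Filter.atTop (𝓝 0)) :
    ∃ U : X → ℝ, ∀ i, ContDiffOn ℝ ∞ (lc K U i) (ball 0 1) ∧
      ∀ z ∈ ball (0 : V) 1, fderiv ℝ (lc K U i) z = κ i z := by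
  classical
  have h23 : ball (0 : V) 2 ⊆ ball 0 3 := ball_subset_ball (by norm_num)
  have h12 : ball (0 : V) 1 ⊆ ball 0 2 := ball_subset_ball (by norm_num)
  have h13 : ball (0 : V) 1 ⊆ ball 0 3 := ball_subset_ball (by norm_num)
  -- primitives
  have hex : ∀ i, ∃ w : V → ℝ, ContDiffOn ℝ ∞ w (ball 0 2) ∧
      ∀ z ∈ ball (0 : V) 2, fderiv ℝ w z = κ i z := fun i =>
    exact_loc (f := fun n => lc K (u n) i) (by norm_num) (by norm_num)
      (fun n => (hu n i).mono h23) (hκ i) (hlim i)
  choose w hw hwκ using hex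
  -- normalising constants
  obtain ⟨Kc, hKc, hpo⟩ := poincare_ineq (r := 1) (R := 2) (by norm_num) (by norm_num)
  have hcex : ∀ n i, ∃ c : ℝ, sq 1 (fun z => lc K (u n) i z - w i z - c)
      ≤ Kc * sq 1 (fderiv ℝ fun z => lc K (u n) i z - w i z) := fun n i =>
    hpo (fun z => lc K (u n) i z - w i z)
      ((((hu n i).mono h23).sub (hw i)).of_le (by exact_mod_cast le_top))
  choose c hc using hcex
  have hA : ∀ i, Filter.Tendsto (fun n => sq 1 (fun z => lc K (u n) i z - w i z - c n i))
      Filter.atTop (𝓝 0) := by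
    intro i
    have h1 := (hlim i 1 (by norm_num)).const_mul Kc
    rw [mul_zero] at h1
    apply squeeze_zero (fun n => integral_nonneg fun _ => by positivity) _ h1
    intro n
    refine (hc n i).trans (le_of_eq ?_)
    congr 1
    apply setIntegral_congr_fun measurableSet_ball
    intro z hz
    show ‖fderiv ℝ (fun z => lc K (u n) i z - w i z) z‖ ^ 2 = _
    have d1 : DifferentiableAt ℝ (lc K (u n) i) z :=
      ((hu n i).contDiffAt (isOpen_ball.mem_nhds (h13 hz))).differentiableAt (by simp)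
    have d2 : DifferentiableAt ℝ (w i) z :=
      ((hw i).contDiffAt (isOpen_ball.mem_nhds (h12 hz))).differentiableAt (by simp)
    rw [fderiv_fun_sub d1 d2, hwκ i z (h12 hz)]
  have hT : ∀ {i j : K.ι} {x : X}, x ∈ (K.ch i).source → K.ch i x ∈ ball (0 : V) 1 →
      x ∈ (K.ch j).source → K.ch j x ∈ ball (0 : V) 1 →
      Filter.Tendsto (fun n => c n j - c n i) Filter.atTop
        (𝓝 (w i (K.ch i x) - w j (K.ch j x))) := fun hi hi1 hj hj1 =>
    HdExact.trans_lim hu (fun i => (hw i).continuousOn) hA hi hi1 hj hj1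
  -- the cover
  set S : K.ι → Set X := fun i => (K.ch i).source ∩ K.ch i ⁻¹' ball 0 1 with hS
  have hSo : ∀ i, IsOpen (S i) := fun i =>
    (K.ch i).continuousOn.isOpen_inter_preimage (K.ch i).open_source isOpen_ball
  have hSn : ∀ i, (S i).Nonempty := by
    intro i
    have h0 : (0 : V) ∈ (K.ch i).target := by
      rw [K.tgt i]; exact mem_ball_self (by norm_num)
    refine ⟨(K.ch i).symm 0, (K.ch i).map_target h0, ?_⟩
    show K.ch i ((K.ch i).symm 0) ∈ ball 0 1
    rw [(K.ch i).right_inv h0]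
    exact mem_ball_self (by norm_num)
  obtain ⟨x0⟩ : Nonempty X := inferInstance
  obtain ⟨i0, hi0⟩ := K.cov x0
  set Pr : K.ι → Prop := fun i => ∃ L : ℝ, Filter.Tendsto (fun n => c n i - c n i0)
    Filter.atTop (𝓝 L) with hPr
  have hPtr : ∀ i j x, x ∈ S i → x ∈ S j → Pr i → Pr j := by
    rintro i j x hi hj ⟨L, hL⟩
    refine ⟨(w i (K.ch i x) - w j (K.ch j x)) + L, ?_⟩
    have := (hT hi.1 hi.2 hj.1 hj.2).add hL
    refine this.congr fun n => by ring
  have hP0 : Pr i0 := ⟨0, by simp⟩
  set A : Set X := ⋃ i ∈ {i | Pr i}, S i with hA'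
  have hAo : IsOpen A := isOpen_biUnion fun i _ => hSo i
  have hAc : IsOpen Aᶜ := by
    have : Aᶜ = ⋃ i ∈ {i | ¬ Pr i}, S i := by
      ext y
      simp only [hA', mem_compl_iff, mem_iUnion, mem_setOf_eq, exists_prop, not_exists, not_and]
      constructor
      · intro h
        obtain ⟨i, hi⟩ := K.cov y
        exact ⟨i, fun hp => h i hp hi, hi⟩
      · rintro ⟨i, hni, hi⟩ j hj hjS
        exact hni (hPtr j i y hjS hi hj)
    rw [this]
    exact isOpen_biUnion fun i _ => hSo i
  have hAuniv : A = univ := by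
    have hcl : IsClopen A := ⟨⟨hAc⟩, hAo⟩
    rcases isClopen_iff.1 hcl with h | h
    · exfalso
      have : x0 ∈ A := mem_iUnion₂.2 ⟨i0, hP0, hi0⟩
      rw [h] at this
      exact this
    · exact h
  have hall : ∀ i, Pr i := by
    intro i
    obtain ⟨y, hy⟩ := hSn i
    have : y ∈ A := by rw [hAuniv]; trivial
    obtain ⟨j, hj, hyj⟩ := mem_iUnion₂.1 this
    exact hPtr j i y hyj hy hj
  choose cc hcc using hall
  -- the glued function
  choose ix hix using K.cov
  set U : X → ℝ := fun x => w (ix x) (K.ch (ix x) x) + cc (ix x) with hU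
  have hUi : ∀ i x, x ∈ S i → U x = w i (K.ch i x) + cc i := by
    intro i x hx
    have h1 := hT hx.1 hx.2 (hix x).1 (hix x).2
    have h2 := (hcc (ix x)).sub (hcc i)
    have h3 : Filter.Tendsto (fun n => c n (ix x) - c n i) Filter.atTop
        (𝓝 (cc (ix x) - cc i)) := h2.congr fun n => by ring
    have h4 := tendsto_nhds_unique h1 h3
    simp only [hU]
    linarith
  have hlcU : ∀ i, ∀ z ∈ ball (0 : V) 1, lc K U i z = w i z + cc i := by
    intro i z hz
    have hzt : z ∈ (K.ch i).target := by rw [K.tgt i]; exact h13 hz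
    have hx : (K.ch i).symm z ∈ S i := by
      refine ⟨(K.ch i).map_target hzt, ?_⟩
      show K.ch i ((K.ch i).symm z) ∈ ball 0 1
      rw [(K.ch i).right_inv hzt]; exact hz
    show U ((K.ch i).symm z) = _
    rw [hUi i _ hx, (K.ch i).right_inv hzt]
  refine ⟨U, fun i => ⟨?_, fun z hz => ?_⟩⟩
  · exact (((hw i).mono h12).add contDiffOn_const).congr (hlcU i)
  · have hev : lc K U i =ᶠ[𝓝 z] fun z => w i z + cc i := by
      filter_upwards [isOpen_ball.mem_nhds hz] with y hy using hlcU i y hy
    rw [hev.fderiv_eq, fderiv_add_const, hwκ i z (h12 hz)]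

end Pool.Agent.K708.Hd
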