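import Pool.Agent.Lib.K708.HdMoll
import Pool.Agent.Lib.MP_708a61_C.Montel

/-! # K708, Section A: limits of almost holomorphic functions -/

set_option autoImplicit false

open scoped ContDiff Topology
open Set Metric MeasureTheory

noncomputable section

namespace Pool.Agent.K708.Hd

namespace HdHolo

open scoped ENNReal

/-- coordinates -/
def ee : V ≃ᵐ ℂ × ℂ := MeasurableEquiv.finTwoArrow

theorem ee_apply (v : V) : ee v = (v 0, v 1) := rfl

theorem ee_symm_apply (w : ℂ × ℂ) : ee.symm w = ![w.1, w.2] := rfl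

theorem ee_pres : MeasurePreserving ee volume volume := volume_preserving_finTwoArrow ℂ

theorem norm_ee_symm (w : ℂ × ℂ) : ‖(![w.1, w.2] : V)‖ = ‖w‖ := by
  apply le_antisymm
  · rw [pi_norm_le_iff_of_nonneg (norm_nonneg _)]
    intro i
    fin_cases i
    · exact norm_fst_le w
    · exact norm_snd_le w
  · rw [Prod.norm_def]
    exact max_le (norm_le_pi_norm (![w.1, w.2] : V) 0) (norm_le_pi_norm (![w.1, w.2] : V) 1)

theorem ee_symm_diff : Differentiable ℂ fun w : ℂ × ℂ => (![w.1, w.2] : V) := by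
  rw [differentiable_pi]
  intro i
  fin_cases i
  · exact differentiable_fst
  · exact differentiable_snd

theorem ee_diff : Differentiable ℂ fun v : V => (v 0, v 1) := by fun_prop

theorem ee_symm_ee (v : V) : (![v 0, v 1] : V) = v := by
  funext i
  fin_cases i <;> rfl

end HdHolo

open HdHolo

/-! ### Task HdHolo -/

open scoped ENNReal in
/-- interior estimate for holomorphic functions -/
theorem sup_le_sq {r R : ℝ} (hr : 0 < r) (hR : r < R) : ∃ Kc : ℝ, 0 < Kc ∧ ∀ P : V → ℂ,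
    DifferentiableOn ℂ P (ball 0 R) → IntegrableOn (fun z => ‖P z‖ ^ 2) (ball 0 R) →
    ∀ z ∈ ball (0 : V) r, ‖P z‖ ^ 2 ≤ Kc * sq R P := by
  have _ := hr
  obtain ⟨K, hK, h⟩ := Pool.Agent.K708C.sup_le_of_L2 (r := R - r) (by linarith)
  refine ⟨K ^ 2, by positivity, fun P hP hi z hz => ?_⟩
  have hsub : ∀ w ∈ ball ((z 0, z 1) : ℂ × ℂ) (R - r), (![w.1, w.2] : V) ∈ ball (0 : V) R := by
    intro w hw
    rw [mem_ball, dist_eq_norm] at hw
    rw [mem_ball_zero_iff] at hz ⊢
    rw [norm_ee_symm]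
    have e1 := norm_le_norm_add_norm_sub' w ((z 0, z 1) : ℂ × ℂ)
    have e2 : ‖((z 0, z 1) : ℂ × ℂ)‖ = ‖z‖ := by
      rw [← norm_ee_symm, ee_symm_ee]
    linarith
  have h1 := h (z 0, z 1) (fun w => P ![w.1, w.2]) (Real.sqrt (sq R P)) (Real.sqrt_nonneg _)
    (by
      intro w hw
      apply DifferentiableAt.differentiableWithinAt
      exact ((hP _ (hsub w hw)).differentiableAt (isOpen_ball.mem_nhds (hsub w hw))).comp w
        (ee_symm_diff w))
    (by
      have hs0 : 0 ≤ sq R P := integral_nonneg fun _ => sq_nonneg _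
      rw [Real.sq_sqrt hs0]
      unfold sq
      rw [ofReal_integral_eq_lintegral_ofReal hi (Filter.Eventually.of_forall fun _ => sq_nonneg _)]
      have e1 := ee_pres.setLIntegral_comp_preimage_emb ee.measurableEmbedding
        (fun w => ‖P ![w.1, w.2]‖ₑ ^ 2) (ball ((z 0, z 1) : ℂ × ℂ) (R - r))
      rw [← e1]
      have e2 : ee ⁻¹' ball ((z 0, z 1) : ℂ × ℂ) (R - r) ⊆ ball 0 R := by
        intro v hv
        have := hsub _ hv
        rw [ee_apply] at this
        simp only [ee_symm_ee] at this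
        exact this
      refine (lintegral_mono_set e2).trans (le_of_eq (lintegral_congr fun v => ?_))
      rw [ee_apply]
      simp only [ee_symm_ee]
      rw [ENNReal.ofReal_pow (norm_nonneg _), ofReal_norm])
  simp only [ee_symm_ee] at h1
  have hs0 : 0 ≤ sq R P := integral_nonneg fun _ => sq_nonneg _
  calc ‖P z‖ ^ 2 ≤ (K * Real.sqrt (sq R P)) ^ 2 := pow_le_pow_left₀ (norm_nonneg _) h1 2
    _ = K ^ 2 * sq R P := by
      rw [mul_pow, Real.sq_sqrt hs0]

namespace HdHolo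

theorem clm_decomp (L : V →L[ℝ] ℂ) (h : ∀ l, L (Complex.I • bb l) = Complex.I * L (bb l)) :
    (∑ l, L (bb l) • (ContinuousLinearMap.proj l : V →L[ℂ] ℂ)).restrictScalars ℝ = L := by
  have h1 : ∀ l (a : ℂ), L (a • bb l) = a * L (bb l) := by
    intro l a
    have e1 : a • bb l = a.re • bb l + a.im • (Complex.I • bb l) := by
      conv_lhs => rw [← Complex.re_add_im a, add_smul]
      congr 1
      rw [mul_smul]
      rfl
    rw [e1, map_add, map_smul, map_smul, h l]
    simp only [Complex.real_smul]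
    conv_rhs => rw [← Complex.re_add_im a]
    ring
  ext v
  have e2 : v = ∑ l, v l • bb l := by
    funext i
    fin_cases i <;> simp [bb, Fin.sum_univ_two]
  conv_rhs => rw [e2, map_sum]
  simp only [h1]
  simp [mul_comm]

end HdHolo

theorem HdHolo.diffAt_of_wb {F : V → ℂ} {z : V} (h1 : DifferentiableAt ℝ F z)
    (h : ∀ l, wb l F z = 0) : DifferentiableAt ℂ F z := by
  have h2 := clm_decomp (fderiv ℝ F z) (fun l => by
    have h3 := h l
    unfold wb at h3
    have h4 : fderiv ℝ F z (bb l) + Complex.I * fderiv ℝ F z (Complex.I • bb l) = 0 := by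
      have := div_eq_zero_iff.mp h3
      rcases this with h5 | h5
      · exact h5
      · norm_num at h5
    have h5 : fderiv ℝ F z (bb l) = - (Complex.I * fderiv ℝ F z (Complex.I • bb l)) :=
      eq_neg_of_add_eq_zero_left h4
    rw [h5, mul_neg, ← mul_assoc, Complex.I_mul_I]
    ring)
  exact (hasFDerivAt_of_restrictScalars ℝ h1.hasFDerivAt h2).differentiableAt

theorem holo_of_wb {F : V → ℂ} {r : ℝ} (hF : ContDiffOn ℝ ∞ F (ball 0 r))
    (h : ∀ l, ∀ z ∈ ball (0 : V) r, wb l F z = 0) : DifferentiableOn ℂ F (ball 0 r) := by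
  intro z hz
  have h1 : DifferentiableAt ℝ F z :=
    (hF.differentiableOn (by simp)) z hz |>.differentiableAt (isOpen_ball.mem_nhds hz)
  exact (diffAt_of_wb h1 fun l => h l z hz).differentiableWithinAt

theorem HdHolo.wb_eq_zero {F : V → ℂ} {z : V} (h : DifferentiableAt ℂ F z) (l : Fin 2) :
    wb l F z = 0 := by
  have h1 : fderiv ℝ F z = (fderiv ℂ F z).restrictScalars ℝ :=
    (h.hasFDerivAt.restrictScalars ℝ).fderiv
  unfold wb
  rw [h1]
  simp only [ContinuousLinearMap.coe_restrictScalars', map_smul, smul_eq_mul]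
  rw [← mul_assoc, Complex.I_mul_I]
  ring

theorem wb_of_holo {F : V → ℂ} {r : ℝ} (hF : DifferentiableOn ℂ F (ball 0 r)) {z : V}
    (hz : z ∈ ball (0 : V) r) (l : Fin 2) : wb l F z = 0 :=
  wb_eq_zero ((hF z hz).differentiableAt (isOpen_ball.mem_nhds hz)) l

namespace HdHolo

open HdMoll1 HdMoll2
open scoped Convolution

section

variable {W : Type} [NormedAddCommGroup W]

theorem sq_int {r : ℝ} {F : V → W} (hF : ContinuousOn F (closedBall 0 r)) :
    IntegrableOn (fun z => ‖F z‖ ^ 2) (ball (0 : V) r) :=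
  ((hF.norm.pow 2).integrableOn_compact (isCompact_closedBall _ _)).mono_set ball_subset_closedBall

theorem sq_tri {r : ℝ} {F G H : V → W} (hF : ContinuousOn F (closedBall 0 r))
    (hG : ContinuousOn G (closedBall 0 r)) (hH : ContinuousOn H (closedBall 0 r)) :
    sq r (fun z => F z - H z) ≤
      2 * sq r (fun z => F z - G z) + 2 * sq r (fun z => G z - H z) := by
  have i1 : Integrable (fun z => 2 * ‖F z - G z‖ ^ 2) (volume.restrict (ball (0 : V) r)) :=
    (sq_int (hF.sub hG)).const_mul 2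
  have i2 : Integrable (fun z => 2 * ‖G z - H z‖ ^ 2) (volume.restrict (ball (0 : V) r)) :=
    (sq_int (hG.sub hH)).const_mul 2
  have i3 : Integrable (fun z => ‖F z - H z‖ ^ 2) (volume.restrict (ball (0 : V) r)) :=
    sq_int (hF.sub hH)
  simp only [sq]
  rw [← integral_const_mul, ← integral_const_mul, ← integral_add i1 i2]
  refine integral_mono i3 (i1.add i2) fun z => ?_
  have h1 : F z - H z = (F z - G z) + (G z - H z) := by abel
  have h2 := norm_add_le (F z - G z) (G z - H z)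
  rw [← h1] at h2
  have h3 := pow_le_pow_left₀ (norm_nonneg _) h2 2
  simp only
  nlinarith [sq_nonneg (‖F z - G z‖ - ‖G z - H z‖)]

theorem sq_le_of_bound {r c : ℝ} {F : V → W} (h : ∀ z ∈ ball (0 : V) r, ‖F z‖ ≤ c)
    (hF : ContinuousOn F (closedBall 0 r)) : sq r F ≤ volume.real (ball (0 : V) r) * c ^ 2 := by
  unfold sq
  calc ∫ z in ball (0 : V) r, ‖F z‖ ^ 2 ≤ ∫ _z in ball (0 : V) r, c ^ 2 :=
        setIntegral_mono_on (sq_int hF) (integrableOn_const measure_ball_lt_top.ne)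
          measurableSet_ball fun z hz => pow_le_pow_left₀ (norm_nonneg _) (h z hz) 2
    _ = _ := by rw [setIntegral_const, smul_eq_mul]

theorem sq_mono {r R : ℝ} (h : r ≤ R) {F : V → W} (hF : ContinuousOn F (closedBall 0 R)) :
    sq r F ≤ sq R F := by
  unfold sq
  refine setIntegral_mono_set (sq_int hF) (Filter.Eventually.of_forall fun z => sq_nonneg _)
    (ball_subset_ball h).eventuallyLE

theorem sq_symm {r : ℝ} (F G : V → W) : sq r (fun z => F z - G z) = sq r (fun z => G z - F z) := by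
  unfold sq
  simp only [norm_sub_rev]

end

/-- extension by zero -/
def ind (F : V → ℂ) : V → ℂ := (ball (0 : V) 2).indicator F

theorem ind_int {F : V → ℂ} (hF : ContinuousOn F (ball 0 3)) : Integrable (ind F) := by
  rw [ind, integrable_indicator_iff measurableSet_ball]
  exact ((hF.mono (closedBall_subset_ball (by norm_num))).integrableOn_compact
    (isCompact_closedBall (0 : V) 2)).mono_set ball_subset_closedBall

theorem ind_norm {F : V → ℂ} (hF : ContinuousOn F (ball 0 3)) :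
    (∫ z, ‖ind F z‖) ^ 2 ≤ volume.real (ball (0 : V) 2) * sq 2 F := by
  have h1 : ∫ z, ‖ind F z‖ = ∫ z in ball (0 : V) 2, ‖F z‖ := by
    rw [← integral_indicator measurableSet_ball]
    refine integral_congr_ae (Filter.Eventually.of_forall fun z => ?_)
    exact norm_indicator_eq_indicator_norm _ _
  rw [h1]
  have hF2 : ContinuousOn F (closedBall 0 2) := hF.mono (closedBall_subset_ball (by norm_num))
  obtain ⟨v, hv⟩ : ∃ v : ℝ, v = volume.real (ball (0 : V) 2) := ⟨_, rfl⟩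
  have hv0 : 0 < v := by
    rw [hv]
    exact ENNReal.toReal_pos (measure_ball_pos _ _ (by norm_num)).ne' measure_ball_lt_top.ne
  obtain ⟨I, hI⟩ : ∃ I : ℝ, I = ∫ z in ball (0 : V) 2, ‖F z‖ := ⟨_, rfl⟩
  have i1 := sq_int hF2
  have i2 : IntegrableOn (fun z => 2 * (I / v) * ‖F z‖) (ball (0 : V) 2) :=
    ((hF2.norm.integrableOn_compact (isCompact_closedBall _ _)).mono_set
      ball_subset_closedBall).const_mul _
  have i3 : IntegrableOn (fun _ : V => (I / v) ^ 2) (ball (0 : V) 2) :=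
    integrableOn_const measure_ball_lt_top.ne
  have h2 : 0 ≤ ∫ z in ball (0 : V) 2, (‖F z‖ - I / v) ^ 2 := integral_nonneg fun _ => sq_nonneg _
  have h3 : ∫ z in ball (0 : V) 2, (‖F z‖ - I / v) ^ 2 =
      sq 2 F - 2 * (I / v) * I + v * (I / v) ^ 2 := by
    have e1 : ∀ z, (‖F z‖ - I / v) ^ 2 = ‖F z‖ ^ 2 - 2 * (I / v) * ‖F z‖ + (I / v) ^ 2 := by
      intro z
      ring
    simp only [e1]
    have i4 : IntegrableOn (fun z => ‖F z‖ ^ 2 - 2 * (I / v) * ‖F z‖) (ball (0 : V) 2) :=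
      i1.sub i2
    rw [integral_add i4 i3, integral_sub i1 i2, integral_const_mul, ← hI,
      setIntegral_const, ← hv, smul_eq_mul]
    rfl
  rw [h3] at h2
  rw [← hv, ← hI]
  have h4 : sq 2 F - 2 * (I / v) * I + v * (I / v) ^ 2 = sq 2 F - I ^ 2 / v := by
    field_simp
    ring
  rw [h4, sub_nonneg, div_le_iff₀ hv0] at h2
  linarith

/-- the kernel -/
def ker (ρ : V → ℝ) (δ : ℝ) (t : V) : ℝ := |(δ ^ Module.finrank ℝ V)⁻¹| * ρ (δ⁻¹ • t)

theorem mo_eq {ρ : V → ℝ} {δ : ℝ} (h0 : 0 < δ) (g : V → ℂ) :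
    mo ρ δ g = (ker ρ δ) ⋆[ContinuousLinearMap.lsmul ℝ ℝ, volume] g := by
  funext x
  have h1 := Measure.integral_comp_smul volume (fun t : V => ρ (δ⁻¹ • t) • g (x - t)) δ
  simp only [smul_smul, inv_mul_cancel₀ h0.ne', one_smul] at h1
  unfold mo
  rw [h1, convolution_def, ← integral_smul]
  refine integral_congr_ae (Filter.Eventually.of_forall fun t => ?_)
  simp only [ker, ContinuousLinearMap.lsmul_apply, smul_smul]

theorem ker_smooth {ρ : V → ℝ} (hρ : IsM ρ) (δ : ℝ) : ContDiff ℝ 1 (ker ρ δ) := by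
  unfold ker
  have h1 : ContDiff ℝ 1 ρ := hρ.s.of_le (by simp)
  exact contDiff_const.mul (h1.comp (contDiff_const_smul _))

theorem ker_supp {ρ : V → ℝ} (hρ : IsM ρ) {δ : ℝ} (h0 : 0 < δ) : HasCompactSupport (ker ρ δ) := by
  apply HasCompactSupport.intro (isCompact_closedBall (0 : V) δ)
  intro t ht
  rw [mem_closedBall_zero_iff, not_le] at ht
  unfold ker
  rw [hρ.supp, mul_zero]
  rw [norm_smul, norm_inv, Real.norm_of_nonneg h0.le, inv_mul_eq_div, le_div_iff₀ h0]
  linarith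

theorem conv_bound {E F' : Type} [NormedAddCommGroup E] [NormedSpace ℝ E] [NormedAddCommGroup F']
    [NormedSpace ℝ F'] (L : E →L[ℝ] ℂ →L[ℝ] F') {k : V → E} (hk : Continuous k)
    (hc : HasCompactSupport k) : ∃ M : ℝ, 0 ≤ M ∧ ∀ g g' : V → ℂ, Integrable g → Integrable g' →
      ∀ x, ‖(k ⋆[L, volume] g) x - (k ⋆[L, volume] g') x‖ ≤ M * ∫ z, ‖g z - g' z‖ := by
  obtain ⟨B, hB⟩ := hc.exists_bound_of_continuous hk
  have hB0 : 0 ≤ B := (norm_nonneg _).trans (hB 0)
  refine ⟨‖L‖ * B, by positivity, fun g g' hg hg' x => ?_⟩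
  have e1 : Integrable (fun t => L (k t) (g (x - t))) :=
    hc.convolutionExists_left L hk hg.locallyIntegrable x
  have e2 : Integrable (fun t => L (k t) (g' (x - t))) :=
    hc.convolutionExists_left L hk hg'.locallyIntegrable x
  rw [convolution_def, convolution_def, ← integral_sub e1 e2]
  have e3 : ∫ z, ‖g z - g' z‖ = ∫ t, ‖g (x - t) - g' (x - t)‖ :=
    (integral_sub_left_eq_self (fun z => ‖g z - g' z‖) volume x).symm
  rw [e3, ← integral_const_mul]
  refine norm_integral_le_of_norm_le ?_ (Filter.Eventually.of_forall fun t => ?_)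
  · exact ((hg.sub hg').norm.comp_sub_left x).const_mul _
  · rw [← map_sub]
    calc ‖L (k t) (g (x - t) - g' (x - t))‖ ≤ ‖L (k t)‖ * ‖g (x - t) - g' (x - t)‖ :=
          (L (k t)).le_opNorm _
      _ ≤ ‖L‖ * B * ‖g (x - t) - g' (x - t)‖ := by
          gcongr
          exact (L.le_opNorm _).trans (by gcongr; exact hB t)

theorem exists_L1 {p : ℕ → V → ℂ} (hs : ∀ n, ContinuousOn (p n) (ball 0 3))
    (hC : ∀ δ : ℝ, 0 < δ → ∃ N : ℕ, ∀ m ≥ N, ∀ n ≥ N, sq 2 (fun z => p m z - p n z) < δ) :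
    ∃ P₀ : V → ℂ, Integrable P₀ ∧
      Filter.Tendsto (fun n => ∫ z, ‖ind (p n) z - P₀ z‖) Filter.atTop (𝓝 0) := by
  have hi := fun n => ind_int (hs n)
  have hcau : CauchySeq (fun n => (hi n).toL1 (ind (p n))) := by
    rw [Metric.cauchySeq_iff]
    intro ε hε
    obtain ⟨v, hv⟩ : ∃ v : ℝ, v = volume.real (ball (0 : V) 2) := ⟨_, rfl⟩
    have hv0 : 0 ≤ v := by rw [hv]; exact measureReal_nonneg
    obtain ⟨N, hN⟩ := hC (ε ^ 2 / (v + 1)) (by positivity)
    refine ⟨N, fun m hm n hn => ?_⟩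
    rw [dist_eq_norm, ← Integrable.toL1_sub, L1.norm_of_fun_eq_integral_norm]
    have h1 := ind_norm (F := fun z => p m z - p n z) ((hs m).sub (hs n))
    have h2 := hN m hm n hn
    have h3 : ∫ z, ‖ind (fun z => p m z - p n z) z‖ = ∫ z, ‖(ind (p m) - ind (p n)) z‖ := by
      refine integral_congr_ae (Filter.Eventually.of_forall fun z => ?_)
      simp only [ind, Pi.sub_apply]
      by_cases hz : z ∈ ball (0 : V) 2
      · simp [indicator_of_mem hz]
      · simp [indicator_of_notMem hz]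
    rw [h3, ← hv] at h1
    have h4 : v * sq 2 (fun z => p m z - p n z) < ε ^ 2 := by
      rw [lt_div_iff₀ (by positivity)] at h2
      have := sq_nonneg' (fun z => p m z - p n z) 2
      nlinarith
    exact lt_of_pow_lt_pow_left₀ 2 hε.le (lt_of_le_of_lt h1 h4)
  obtain ⟨F, hF⟩ := cauchySeq_tendsto_of_complete hcau
  refine ⟨F, L1.integrable_coeFn F, ?_⟩
  rw [tendsto_iff_norm_sub_tendsto_zero] at hF
  refine hF.congr fun n => ?_
  rw [L1.norm_eq_integral_norm]
  refine integral_congr_ae ?_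
  filter_upwards [Lp.coeFn_sub ((hi n).toL1 (ind (p n))) F, Integrable.coeFn_toL1 (hi n)] with z h1 h2
  rw [h1, Pi.sub_apply, h2]

theorem mo_ind {ρ : V → ℝ} (hρ : IsM ρ) {δ : ℝ} (h0 : 0 < δ) (F : V → ℂ) {x : V}
    (hx : x ∈ ball (0 : V) (2 - δ)) : mo ρ δ (ind F) x = mo ρ δ F x := by
  unfold mo
  refine integral_congr_ae (Filter.Eventually.of_forall fun y => ?_)
  simp only
  by_cases hy : ‖y‖ ≤ 1
  · have h1 : x - δ • y ∈ ball (0 : V) 2 := by
      rw [mem_ball_zero_iff] at hx ⊢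
      have h2 := norm_sub_le x (δ • y)
      have h3 : ‖δ • y‖ ≤ δ := by
        rw [norm_smul, Real.norm_of_nonneg h0.le]
        nlinarith
      linarith
    rw [ind, indicator_of_mem h1]
  · push Not at hy
    rw [hρ.supp y hy.le, zero_smul, zero_smul]

/-- the Wirtinger derivative as a linear map -/
def Λ (l : Fin 2) : (V →L[ℝ] ℂ) →L[ℝ] ℂ :=
  (2 : ℂ)⁻¹ • (ContinuousLinearMap.apply ℝ ℂ (bb l) +
    Complex.I • ContinuousLinearMap.apply ℝ ℂ (Complex.I • bb l))

theorem Λ_apply (l : Fin 2) (A : V →L[ℝ] ℂ) :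
    Λ l A = (A (bb l) + Complex.I * A (Complex.I • bb l)) / 2 := by
  simp only [Λ, _root_.smul_apply, _root_.add_apply,
    ContinuousLinearMap.apply_apply, smul_eq_mul]
  ring

theorem wb_eq (l : Fin 2) (F : V → ℂ) (z : V) : wb l F z = Λ l (fderiv ℝ F z) := by
  rw [Λ_apply, wb]

theorem wb_contOn (l : Fin 2) {F : V → ℂ} (hF : ContDiffOn ℝ ∞ F (ball 0 3)) :
    ContinuousOn (wb l F) (ball 0 3) := by
  have h1 : ContinuousOn (fderiv ℝ F) (ball 0 3) :=
    (hF.fderiv_of_isOpen (m := 0) isOpen_ball (by simp)).continuousOn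
  exact ((Λ l).continuous.comp_continuousOn h1).congr fun z _ => wb_eq l F z

theorem wb_mo {ρ : V → ℝ} (hρ : IsM ρ) {δ : ℝ} (h0 : 0 < δ) (h1 : δ < 1) {F : V → ℂ}
    (hF : ContDiffOn ℝ ∞ F (ball 0 3)) (l : Fin 2) {x : V} (hx : x ∈ ball (0 : V) 2) :
    wb l (mo ρ δ F) x = mo ρ δ (wb l F) x := by
  have hF2 : ContinuousOn (fderiv ℝ F) (ball 0 3) :=
    (hF.fderiv_of_isOpen (m := 0) isOpen_ball (by simp)).continuousOn
  rw [wb_eq, fderiv_mo hρ h0 h1 hF hx]
  unfold mo
  rw [← ContinuousLinearMap.integral_comp_comm _ (HdMoll1.integrable hρ h0 h1 hF2 hx)]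
  refine integral_congr_ae (Filter.Eventually.of_forall fun y => ?_)
  simp only [map_smul, wb_eq]

theorem S_holo {ρ : V → ℝ} (hρ : IsM ρ) {δ : ℝ} (h0 : 0 < δ) (h1 : δ < 1) {p : ℕ → V → ℂ}
    (hs : ∀ n, ContDiffOn ℝ ∞ (p n) (ball 0 3))
    (hb : ∀ l, Filter.Tendsto (fun n => sq 2 (wb l (p n))) Filter.atTop (𝓝 0))
    {P₀ : V → ℂ} (hP : Integrable P₀)
    (hlim : Filter.Tendsto (fun n => ∫ z, ‖ind (p n) z - P₀ z‖) Filter.atTop (𝓝 0)) {x : V}
    (hx : x ∈ ball (0 : V) (2 - δ)) : DifferentiableAt ℂ (mo ρ δ P₀) x := by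
  have hx2 : x ∈ ball (0 : V) 2 := ball_subset_ball (by linarith) hx
  have hi : ∀ n, Integrable (ind (p n)) := fun n => ind_int (hs n).continuousOn
  have hk1 := ker_smooth hρ δ
  have hk2 := ker_supp hρ h0
  have hd : ∀ g : V → ℂ, Integrable g → HasFDerivAt (mo ρ δ g)
      ((fderiv ℝ (ker ρ δ) ⋆[(ContinuousLinearMap.lsmul ℝ ℝ : ℝ →L[ℝ] ℂ →L[ℝ] ℂ).precompL V,
        volume] g) x) x := by
    intro g hg
    rw [mo_eq h0 g]
    exact hk2.hasFDerivAt_convolution_left _ hk1 hg.locallyIntegrable x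
  obtain ⟨M, hM0, hM⟩ := conv_bound
    ((ContinuousLinearMap.lsmul ℝ ℝ : ℝ →L[ℝ] ℂ →L[ℝ] ℂ).precompL V)
    (hk1.continuous_fderiv (by simp)) (hk2.fderiv (𝕜 := ℝ))
  obtain ⟨M', hM0', hM'⟩ := conv_bound (ContinuousLinearMap.lsmul ℝ ℝ : ℝ →L[ℝ] ℂ →L[ℝ] ℂ)
    hk1.continuous hk2
  refine diffAt_of_wb (hd P₀ hP).differentiableAt fun l => ?_
  -- convergence of the derivatives
  have h4 : Filter.Tendsto (fun n => fderiv ℝ (mo ρ δ (ind (p n))) x) Filter.atTop
      (𝓝 (fderiv ℝ (mo ρ δ P₀) x)) := by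
    rw [tendsto_iff_norm_sub_tendsto_zero]
    refine squeeze_zero (fun n => norm_nonneg _) (g := fun n => M * ∫ z, ‖ind (p n) z - P₀ z‖)
      (fun n => ?_) ?_
    · rw [(hd _ (hi n)).fderiv, (hd _ hP).fderiv]
      exact hM _ _ (hi n) hP x
    · have := hlim.const_mul M
      rwa [mul_zero] at this
  have h5 : ∀ n, wb l (mo ρ δ (ind (p n))) x = mo ρ δ (wb l (p n)) x := by
    intro n
    rw [← wb_mo hρ h0 h1 (hs n) l hx2, wb_eq, wb_eq]
    congr 1
    apply Filter.EventuallyEq.fderiv_eq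
    filter_upwards [isOpen_ball.mem_nhds hx] with z hz using mo_ind hρ h0 _ hz
  have h6 : Filter.Tendsto (fun n => mo ρ δ (wb l (p n)) x) Filter.atTop (𝓝 0) := by
    rw [tendsto_zero_iff_norm_tendsto_zero]
    refine squeeze_zero (fun n => norm_nonneg _)
      (g := fun n => M' * Real.sqrt (volume.real (ball (0 : V) 2) * sq 2 (wb l (p n))))
      (fun n => ?_) ?_
    · have hc := wb_contOn l (hs n)
      have e1 := hM' (ind (wb l (p n))) 0 (ind_int hc) (integrable_zero _ _ _) x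
      rw [← mo_ind hρ h0 _ hx, mo_eq h0]
      simp only [convolution_zero, Pi.zero_apply, sub_zero] at e1
      refine e1.trans (mul_le_mul_of_nonneg_left ?_ hM0')
      exact Real.le_sqrt_of_sq_le (ind_norm hc)
    · have e1 := ((hb l).const_mul (volume.real (ball (0 : V) 2))).sqrt.const_mul M'
      simpa using e1
  have h7 : Filter.Tendsto (fun n => wb l (mo ρ δ (ind (p n))) x) Filter.atTop
      (𝓝 (wb l (mo ρ δ P₀) x)) := by
    simp only [wb_eq]
    exact ((Λ l).continuous.tendsto _).comp h4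
  simp only [h5] at h7
  exact tendsto_nhds_unique h7 h6

theorem S_cont {ρ : V → ℝ} (hρ : IsM ρ) {δ : ℝ} (h0 : 0 < δ) {g : V → ℂ} (hg : Integrable g) :
    Continuous (mo ρ δ g) := by
  rw [mo_eq h0 g]
  exact (ker_supp hρ h0).continuous_convolution_left _ (ker_smooth hρ δ).continuous
    hg.locallyIntegrable

theorem S_close {ρ : V → ℝ} (hρ : IsM ρ) {p : ℕ → V → ℂ}
    (hs : ∀ n, ContDiffOn ℝ ∞ (p n) (ball 0 3))
    {P₀ : V → ℂ} (hP : Integrable P₀)
    (hlim : Filter.Tendsto (fun n => ∫ z, ‖ind (p n) z - P₀ z‖) Filter.atTop (𝓝 0))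
    {r η : ℝ} (hr : 0 < r) (hr2 : r < 2) (hη : 0 < η) {N : ℕ}
    (hN : ∀ m ≥ N, ∀ n ≥ N, sq 2 (fun z => p m z - p n z) < η) {n : ℕ} (hn : N ≤ n) :
    ∀ᶠ δ in 𝓝[>] (0 : ℝ), sq r (fun z => mo ρ δ P₀ z - p n z) ≤ 8 * η := by
  have hC : ∀ n, ContinuousOn (p n) (ball 0 3) := fun n => (hs n).continuousOn
  have hcl : closedBall (0 : V) r ⊆ ball 0 3 := closedBall_subset_ball (by linarith)
  have h1 := mo_tendsto hρ (hC n) (r := r) (by linarith)
  have hmin : (0 : ℝ) < min 1 (2 - r) := lt_min one_pos (by linarith)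
  filter_upwards [(tendsto_order.1 h1).2 η hη, Ioo_mem_nhdsGT hmin] with δ hδ hδ2
  have h0 : 0 < δ := hδ2.1
  have hδ1 : δ < 1 := hδ2.2.trans_le (min_le_left _ _)
  have hδr : δ < 2 - r := hδ2.2.trans_le (min_le_right _ _)
  have hi : ∀ n, Integrable (ind (p n)) := fun n => ind_int (hC n)
  have hcS := S_cont hρ h0 hP
  have hcI : ∀ n, Continuous (mo ρ δ (ind (p n))) := fun n => S_cont hρ h0 (hi n)
  obtain ⟨M, hM0, hM⟩ := conv_bound (ContinuousLinearMap.lsmul ℝ ℝ : ℝ →L[ℝ] ℂ →L[ℝ] ℂ)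
    (ker_smooth hρ δ).continuous (ker_supp hρ h0)
  -- first term
  have h2 : ∀ m ≥ N, sq r (fun z => mo ρ δ P₀ z - mo ρ δ (ind (p n)) z) ≤
      2 * (volume.real (ball (0 : V) r) * (M * ∫ z, ‖ind (p m) z - P₀ z‖) ^ 2) + 2 * η := by
    intro m hm
    refine (sq_tri hcS.continuousOn (hcI m).continuousOn (hcI n).continuousOn).trans ?_
    have e1 : sq r (fun z => mo ρ δ P₀ z - mo ρ δ (ind (p m)) z) ≤
        volume.real (ball (0 : V) r) * (M * ∫ z, ‖ind (p m) z - P₀ z‖) ^ 2 := by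
      refine sq_le_of_bound (fun z _ => ?_) (hcS.sub (hcI m)).continuousOn
      rw [norm_sub_rev, mo_eq h0, mo_eq h0]
      exact hM _ _ (hi m) hP z
    have e2 : sq r (fun z => mo ρ δ (ind (p m)) z - mo ρ δ (ind (p n)) z) ≤ η := by
      have e3 : sq r (fun z => mo ρ δ (ind (p m)) z - mo ρ δ (ind (p n)) z) =
          sq r (mo ρ δ (fun z => p m z - p n z)) := by
        unfold sq
        refine setIntegral_congr_fun measurableSet_ball fun z hz => ?_
        have hz1 : z ∈ ball (0 : V) (2 - δ) := ball_subset_ball (by linarith) hz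
        have hz2 : z ∈ ball (0 : V) 2 := ball_subset_ball (by linarith) hz
        simp only
        rw [mo_ind hρ h0 _ hz1, mo_ind hρ h0 _ hz1]
        unfold mo
        rw [← integral_sub (HdMoll1.integrable hρ h0 hδ1 (hC m) hz2)
          (HdMoll1.integrable hρ h0 hδ1 (hC n) hz2)]
        simp only [smul_sub]
      rw [e3]
      refine (sq_mo_le hρ h0 hδ1 ((hC m).sub (hC n)) hr (by linarith)).trans ?_
      refine le_trans (sq_mono (R := 2) (by linarith) ?_) (hN m hm n hn).le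
      exact ((hC m).sub (hC n)).mono (closedBall_subset_ball (by norm_num))
    linarith
  have h3 : sq r (fun z => mo ρ δ P₀ z - mo ρ δ (ind (p n)) z) ≤ 2 * η := by
    have e1 : Filter.Tendsto (fun m => 2 * (volume.real (ball (0 : V) r) *
        (M * ∫ z, ‖ind (p m) z - P₀ z‖) ^ 2) + 2 * η) Filter.atTop (𝓝 (2 * η)) := by
      have e2 := ((((hlim.const_mul M).pow 2).const_mul
        (volume.real (ball (0 : V) r))).const_mul 2).add_const (2 * η)
      simpa using e2
    refine ge_of_tendsto e1 ?_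
    filter_upwards [Filter.eventually_ge_atTop N] with m hm using h2 m hm
  have h4 : sq r (fun z => mo ρ δ (ind (p n)) z - p n z) = sq r (fun z => mo ρ δ (p n) z - p n z) := by
    unfold sq
    refine setIntegral_congr_fun measurableSet_ball fun z hz => ?_
    have hz1 : z ∈ ball (0 : V) (2 - δ) := ball_subset_ball (by linarith) hz
    simp only
    rw [mo_ind hρ h0 _ hz1]
  refine (sq_tri hcS.continuousOn (hcI n).continuousOn ((hC n).mono hcl)).trans ?_
  rw [h4]
  linarith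

end HdHolo

theorem holo_limit {p : ℕ → V → ℂ} (hs : ∀ n, ContDiffOn ℝ ∞ (p n) (ball 0 3))
    (hC : ∀ δ : ℝ, 0 < δ → ∃ N : ℕ, ∀ m ≥ N, ∀ n ≥ N, sq 2 (fun z => p m z - p n z) < δ)
    (hb : ∀ l, Filter.Tendsto (fun n => sq 2 (wb l (p n))) Filter.atTop (𝓝 0)) :
    ∃ P : V → ℂ, DifferentiableOn ℂ P (ball 0 2) ∧ ∀ r < 2,
      Filter.Tendsto (fun n => sq r (fun z => p n z - P z)) Filter.atTop (𝓝 0) := by
  obtain ⟨ρ, hρ⟩ := exists_mollifier
  obtain ⟨P₀, hP, hlim⟩ := exists_L1 (fun n => (hs n).continuousOn) hC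
  have hCo : ∀ n, ContinuousOn (p n) (ball 0 3) := fun n => (hs n).continuousOn
  obtain ⟨d, hd⟩ : ∃ d : ℕ → ℝ, d = fun k : ℕ => 1 / ((k : ℝ) + 1 + 1) := ⟨_, rfl⟩
  have hd0 : ∀ k, 0 < d k := fun k => by rw [hd]; positivity
  have hd1 : ∀ k, d k < 1 := fun k => by
    rw [hd]
    simp only
    rw [div_lt_one (by positivity)]
    have : (0 : ℝ) ≤ k := Nat.cast_nonneg k
    linarith
  have hdt : Filter.Tendsto d Filter.atTop (𝓝[>] 0) := by
    rw [tendsto_nhdsWithin_iff]
    refine ⟨?_, Filter.Eventually.of_forall fun k => hd0 k⟩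
    have e1 := (tendsto_one_div_add_atTop_nhds_zero_nat (𝕜 := ℝ)).comp (Filter.tendsto_add_atTop_nat 1)
    rw [hd]
    refine e1.congr fun k => ?_
    simp
  obtain ⟨s, hsd⟩ : ∃ s : ℕ → V → ℂ, s = fun k => mo ρ (d k) P₀ := ⟨_, rfl⟩
  have hsc : ∀ k, Continuous (s k) := fun k => by rw [hsd]; exact S_cont hρ (hd0 k) hP
  have hsh : ∀ r < 2, ∀ᶠ k in Filter.atTop, DifferentiableOn ℂ (s k) (ball 0 r) := by
    intro r hr
    have e1 : ∀ᶠ k in Filter.atTop, d k < 2 - r :=
      (tendsto_order.1 (tendsto_nhdsWithin_iff.1 hdt).1).2 _ (by linarith)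
    filter_upwards [e1] with k hk x hx
    rw [hsd]
    exact (S_holo hρ (hd0 k) (hd1 k) hs hb hP hlim
      (ball_subset_ball (by linarith) hx)).differentiableWithinAt
  have hclose : ∀ r : ℝ, 0 < r → r < 2 → ∀ η : ℝ, 0 < η → ∃ N : ℕ, ∀ n ≥ N, ∀ᶠ k in Filter.atTop,
      sq r (fun z => s k z - p n z) ≤ 8 * η := by
    intro r hr hr2 η hη
    obtain ⟨N, hN⟩ := hC η hη
    refine ⟨N, fun n hn => ?_⟩
    have e1 := hdt.eventually (S_close hρ hs hP hlim hr hr2 hη hN hn)
    rw [hsd]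
    exact e1
  have hsq : ∀ r : ℝ, 0 < r → r < 2 → ∀ η : ℝ, 0 < η → ∃ K : ℕ, ∀ j ≥ K, ∀ k ≥ K,
      sq r (fun z => s j z - s k z) ≤ 32 * η := by
    intro r hr hr2 η hη
    obtain ⟨N, hN⟩ := hclose r hr hr2 η hη
    obtain ⟨K, hK⟩ := Filter.eventually_atTop.1 (hN N le_rfl)
    refine ⟨K, fun j hj k hk => ?_⟩
    have hpN : ContinuousOn (p N) (closedBall 0 r) :=
      (hCo N).mono (closedBall_subset_ball (by linarith))
    have e1 := sq_tri (r := r) (hsc j).continuousOn hpN (hsc k).continuousOn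
    have e2 := hK j hj
    have e3 := hK k hk
    rw [sq_symm] at e3
    linarith
  -- uniform convergence
  have huni : ∀ r : ℝ, 0 < r → r < 2 → ∀ η : ℝ, 0 < η → ∃ K : ℕ, ∀ j ≥ K, ∀ k ≥ K,
      ∀ z ∈ ball (0 : V) r, ‖s j z - s k z‖ ≤ η := by
    intro r hr hr2 η hη
    obtain ⟨r', hr1', hr2'⟩ := exists_between hr2
    obtain ⟨Kc, hKc, hKc2⟩ := sup_le_sq hr hr1'
    obtain ⟨K1, hK1⟩ := hsq r' (hr.trans hr1') hr2' (η ^ 2 / (32 * Kc)) (by positivity)
    obtain ⟨K2, hK2⟩ := Filter.eventually_atTop.1 (hsh r' hr2')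
    refine ⟨max K1 K2, fun j hj k hk z hz => ?_⟩
    have e1 := hKc2 (fun z => s j z - s k z)
      ((hK2 j (le_of_max_le_right hj)).sub (hK2 k (le_of_max_le_right hk)))
      (sq_int ((hsc j).sub (hsc k)).continuousOn) z hz
    have e2 := hK1 j (le_of_max_le_left hj) k (le_of_max_le_left hk)
    have e3 : Kc * sq r' (fun z => s j z - s k z) ≤ η ^ 2 := by
      calc Kc * sq r' (fun z => s j z - s k z) ≤ Kc * (32 * (η ^ 2 / (32 * Kc))) := by gcongr
        _ = η ^ 2 := by field_simp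
    exact le_of_sq_le_sq (e1.trans e3) hη.le
  have hcau : ∀ z ∈ ball (0 : V) 2, ∃ y : ℂ, Filter.Tendsto (fun k => s k z) Filter.atTop (𝓝 y) := by
    intro z hz
    rw [mem_ball_zero_iff] at hz
    obtain ⟨r, hr1, hr2⟩ := exists_between hz
    have hr0 : 0 < r := (norm_nonneg z).trans_lt hr1
    apply cauchySeq_tendsto_of_complete
    rw [Metric.cauchySeq_iff]
    intro ε hε
    obtain ⟨K, hK⟩ := huni r hr0 hr2 (ε / 2) (by positivity)
    refine ⟨K, fun m hm n hn => ?_⟩
    rw [dist_eq_norm]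
    exact (hK m hm n hn z (by rwa [mem_ball_zero_iff])).trans_lt (by linarith)
  choose! P hPl using hcau
  have hunif : ∀ r : ℝ, 0 < r → r < 2 → ∀ η : ℝ, 0 < η → ∃ K : ℕ, ∀ j ≥ K,
      ∀ z ∈ ball (0 : V) r, ‖s j z - P z‖ ≤ η := by
    intro r hr hr2 η hη
    obtain ⟨K, hK⟩ := huni r hr hr2 η hη
    refine ⟨K, fun j hj z hz => ?_⟩
    have e1 : Filter.Tendsto (fun k => ‖s j z - s k z‖) Filter.atTop (𝓝 ‖s j z - P z‖) :=
      (tendsto_const_nhds.sub (hPl z (ball_subset_ball hr2.le hz))).norm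
    refine le_of_tendsto e1 ?_
    filter_upwards [Filter.eventually_ge_atTop K] with k hk using hK j hj k hk z hz
  have hPd : DifferentiableOn ℂ P (ball 0 2) := by
    intro z hz
    rw [mem_ball_zero_iff] at hz
    obtain ⟨r, hr1, hr2⟩ := exists_between hz
    have hr0 : 0 < r := (norm_nonneg z).trans_lt hr1
    obtain ⟨K, hK⟩ := huni r hr0 hr2 1 one_pos
    obtain ⟨B, hB⟩ := (isCompact_closedBall (0 : V) r).exists_bound_of_continuousOn
      (hsc K).continuousOn
    have hmem : ∀ w ∈ ball (0 : ℂ × ℂ) r, (![w.1, w.2] : V) ∈ ball (0 : V) r := by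
      intro w hw
      rw [mem_ball_zero_iff] at hw ⊢
      rwa [norm_ee_symm]
    obtain ⟨G', hG1, hG2, -⟩ := Pool.Agent.K708C.limit_bounded (Filter.hyperfilter ℕ) (z₀ := 0)
      (r := r) (B := B + 1) hr0 (fun k w => s k ![w.1, w.2])
      (by
        have e1 := (hsh r hr2).filter_mono Nat.hyperfilter_le_atTop
        filter_upwards [e1] with k hk w hw
        apply DifferentiableAt.differentiableWithinAt
        exact ((hk _ (hmem w hw)).differentiableAt (isOpen_ball.mem_nhds (hmem w hw))).comp w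
          (ee_symm_diff w))
      (by
        have e1 := (Filter.eventually_ge_atTop K).filter_mono Nat.hyperfilter_le_atTop
        filter_upwards [e1] with k hk w hw
        have e2 := hK k hk K le_rfl _ (hmem w hw)
        have e3 := hB _ (ball_subset_closedBall (hmem w hw))
        have e4 := norm_le_norm_add_norm_sub' (s k ![w.1, w.2]) (s K ![w.1, w.2])
        linarith)
    have hPG : ∀ v ∈ ball (0 : V) r, P v = G' (v 0, v 1) := by
      intro v hv
      have hw : ((v 0, v 1) : ℂ × ℂ) ∈ ball (0 : ℂ × ℂ) r := by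
        rw [mem_ball_zero_iff] at hv ⊢
        rwa [← norm_ee_symm, ee_symm_ee]
      have e1 := hG2 _ hw
      have e2 : Filter.Tendsto (fun k : ℕ => ((k, ((v 0, v 1) : ℂ × ℂ)) : ℕ × (ℂ × ℂ)))
          (Filter.hyperfilter ℕ : Filter ℕ)
          ((Filter.hyperfilter ℕ : Filter ℕ) ×ˢ 𝓝 ((v 0, v 1) : ℂ × ℂ)) :=
        Filter.tendsto_id.prodMk tendsto_const_nhds
      have e3 := e1.comp e2
      have e4 : Filter.Tendsto (fun k => s k v) (Filter.hyperfilter ℕ : Filter ℕ) (𝓝 (P v)) :=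
        (hPl v (ball_subset_ball hr2.le hv)).mono_left Nat.hyperfilter_le_atTop
      refine tendsto_nhds_unique e4 (e3.congr fun k => ?_)
      simp only [Function.comp_apply, ee_symm_ee]
    have hzr : z ∈ ball (0 : V) r := by rwa [mem_ball_zero_iff]
    have hzw : ((z 0, z 1) : ℂ × ℂ) ∈ ball (0 : ℂ × ℂ) r := by
      rw [mem_ball_zero_iff] at hzr ⊢
      rwa [← norm_ee_symm, ee_symm_ee]
    have h1 : DifferentiableAt ℂ (fun v : V => G' (v 0, v 1)) z :=
      DifferentiableAt.comp (g := G') (f := fun v : V => (v 0, v 1)) z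
        ((hG1 _ hzw).differentiableAt (isOpen_ball.mem_nhds hzw)) (ee_diff z)
    apply DifferentiableAt.differentiableWithinAt
    refine h1.congr_of_eventuallyEq ?_
    filter_upwards [isOpen_ball.mem_nhds hzr] with v hv using hPG v hv
  refine ⟨P, hPd, fun r hr => ?_⟩
  -- the case of positive radius
  by_cases hr0 : 0 < r
  · rw [tendsto_order]
    refine ⟨fun a ha => Filter.Eventually.of_forall fun n => ha.trans_le (HdMoll2.sq_nonneg' _ _),
      fun a ha => ?_⟩
    obtain ⟨N, hN⟩ := hclose r hr0 hr (a / 48) (by positivity)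
    obtain ⟨v, hv⟩ : ∃ v : ℝ, v = volume.real (ball (0 : V) r) := ⟨_, rfl⟩
    have hv0 : 0 ≤ v := by rw [hv]; exact measureReal_nonneg
    obtain ⟨η, hη, hη2⟩ : ∃ η : ℝ, 0 < η ∧ v * η ^ 2 < a / 4 := by
      refine ⟨Real.sqrt (a / 4 / (v + 1)), Real.sqrt_pos.mpr (by positivity), ?_⟩
      rw [Real.sq_sqrt (by positivity), mul_div_assoc', div_lt_iff₀ (by positivity)]
      nlinarith
    obtain ⟨K, hK⟩ := hunif r hr0 hr η hη
    filter_upwards [Filter.eventually_ge_atTop N] with n hn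
    obtain ⟨K2, hK2⟩ := Filter.eventually_atTop.1 (hN n hn)
    have hPc : ContinuousOn P (closedBall 0 r) :=
      hPd.continuousOn.mono (closedBall_subset_ball hr)
    have hpn : ContinuousOn (p n) (closedBall 0 r) :=
      (hCo n).mono (closedBall_subset_ball (by linarith))
    have e1 := sq_tri (r := r) hpn (hsc (max K K2)).continuousOn hPc
    have e2 := hK2 (max K K2) (le_max_right _ _)
    have e3 := sq_le_of_bound (r := r) (c := η) (F := fun z => s (max K K2) z - P z)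
      (hK (max K K2) (le_max_left _ _)) ((hsc (max K K2)).continuousOn.sub hPc)
    rw [sq_symm] at e2
    rw [← hv] at e3
    linarith
  · have e1 : ball (0 : V) r = ∅ := ball_eq_empty.mpr (not_lt.mp hr0)
    have e2 : ∀ n, sq r (fun z => p n z - P z) = 0 := by
      intro n
      unfold sq
      rw [e1]
      simp
    simp only [e2]
    exact tendsto_const_nhds

end Pool.Agent.K708.Hd
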