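import Pool.Agent.Lib.K708.HdDefs

/-! # K708, Section A: holomorphic functions of several variables are smooth -/

set_option autoImplicit false

open scoped ContDiff Topology
open Set Metric MeasureTheory Filter

noncomputable section

namespace Pool.Agent.K708.Hd

/-- Cauchy estimates of order one and two. -/
theorem cauchy2 {V : Type*} [NormedAddCommGroup V] [NormedSpace ℂ V] {c : V} {R B : ℝ}
    (hR : 0 < R) {G : V → ℂ} (hG : DifferentiableOn ℂ G (Metric.ball c R))
    (hB : ∀ z ∈ Metric.ball c R, ‖G z‖ ≤ B) :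
    ‖fderiv ℂ G c‖ ≤ 2 * B / R ∧ ∀ z ∈ Metric.ball c R,
      ‖G z - G c‖ ≤ 2 * B / R * dist z c ∧
      ‖G z - G c - fderiv ℂ G c (z - c)‖ ≤ 4 * B / R ^ 2 * ‖z - c‖ ^ 2 := by
  have hc := Metric.mem_ball_self (x := c) hR
  have hB0 : 0 ≤ B := (norm_nonneg _).trans (hB c hc)
  have hm : MapsTo G (Metric.ball c R) (Metric.closedBall (G c) (2 * B)) := by
    intro z hz
    rw [Metric.mem_closedBall, dist_eq_norm]
    have := norm_sub_le (G z) (G c)
    linarith [hB z hz, hB c hc]
  have h1 := Complex.norm_fderiv_le_div_of_mapsTo_ball hG hm hR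
  refine ⟨h1, fun z hz => ⟨?_, ?_⟩⟩
  · rw [← dist_eq_norm]
    exact Complex.dist_le_div_mul_dist_of_mapsTo_ball hG hm hz
  · have hd : HasFDerivAt G (fderiv ℂ G c) c :=
      ((hG c hc).differentiableAt (Metric.ball_mem_nhds c hR)).hasFDerivAt
    have hd2 : DifferentiableOn ℂ (fun w => G w - fderiv ℂ G c (w - c)) (Metric.ball c R) :=
      hG.sub (by fun_prop)
    have hm2 : MapsTo (fun w => G w - fderiv ℂ G c (w - c)) (Metric.ball c R)
        (Metric.closedBall (G c - fderiv ℂ G c (c - c)) (4 * B)) := by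
      intro w hw
      rw [Metric.mem_closedBall, dist_eq_norm, sub_self, map_zero, sub_zero]
      have e1 : G w - fderiv ℂ G c (w - c) - G c = (G w - G c) - fderiv ℂ G c (w - c) := by ring
      rw [e1]
      have h2 := norm_sub_le (G w - G c) (fderiv ℂ G c (w - c))
      have h3 : ‖G w - G c‖ ≤ 2 * B := by
        have := hm hw
        rwa [Metric.mem_closedBall, dist_eq_norm] at this
      have h4 : ‖fderiv ℂ G c (w - c)‖ ≤ 2 * B := by
        refine ((fderiv ℂ G c).le_opNorm _).trans ?_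
        rw [Metric.mem_ball, dist_eq_norm] at hw
        calc ‖fderiv ℂ G c‖ * ‖w - c‖ ≤ 2 * B / R * R :=
              mul_le_mul h1 hw.le (norm_nonneg _) (by positivity)
          _ = 2 * B := by field_simp
      linarith
    have ho : (fun w => (G w - fderiv ℂ G c (w - c)) - (G c - fderiv ℂ G c (c - c))) =o[𝓝 c]
        fun w => ‖w - c‖ ^ 1 := by
      have h5 := hd.isLittleO
      simp only [pow_one]
      refine (h5.norm_right).congr_left fun w => ?_
      rw [sub_self, map_zero, sub_zero]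
      ring
    have h6 := Complex.dist_le_mul_div_pow_of_mapsTo_ball_of_isLittleO hd2 hm2 ho hz
    rw [dist_eq_norm, dist_eq_norm, sub_self, map_zero, sub_zero] at h6
    have e1 : G z - fderiv ℂ G c (z - c) - G c = G z - G c - fderiv ℂ G c (z - c) := by ring
    rw [e1] at h6
    refine h6.trans (le_of_eq ?_)
    rw [div_pow]
    ring

/-- M2. Limits along an ultrafilter of locally uniformly bounded holomorphic functions. -/
theorem limit_bounded {E : Type*} [NormedAddCommGroup E] [NormedSpace ℂ E]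
    [FiniteDimensional ℂ E] (u : Ultrafilter ℕ) {z₀ : E} {r B : ℝ} (hr : 0 < r)
    (G : ℕ → E → ℂ) (hG : ∀ᶠ n in (u : Filter ℕ), DifferentiableOn ℂ (G n) (Metric.ball z₀ r))
    (hB : ∀ᶠ n in (u : Filter ℕ), ∀ z ∈ Metric.ball z₀ r, ‖G n z‖ ≤ B) :
    ∃ G' : E → ℂ, DifferentiableOn ℂ G' (Metric.ball z₀ r) ∧
      (∀ z ∈ Metric.ball z₀ r,
        Tendsto (fun p : ℕ × E => G p.1 p.2) ((u : Filter ℕ) ×ˢ 𝓝 z) (𝓝 (G' z))) ∧
      (∀ z ∈ Metric.ball z₀ r,
        Tendsto (fun n => fderiv ℂ (G n) z) (u : Filter ℕ) (𝓝 (fderiv ℂ G' z))) := by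
  classical
  have hu : NeBot (u : Filter ℕ) := u.neBot
  have : ProperSpace (E →L[ℂ] ℂ) := FiniteDimensional.proper ℂ _
  obtain ⟨R, hR⟩ : ∃ R : E → ℝ, R = fun z => r - dist z z₀ := ⟨_, rfl⟩
  have hR0 : ∀ z ∈ Metric.ball z₀ r, 0 < R z := by
    intro z hz
    rw [hR]
    rw [Metric.mem_ball] at hz
    simp only
    linarith
  have hRs : ∀ z, Metric.ball z (R z) ⊆ Metric.ball z₀ r := by
    intro z
    rw [hR]
    refine Metric.ball_subset_ball' ?_
    simp
  -- the estimates
  have hest : ∀ z ∈ Metric.ball z₀ r, ∀ᶠ n in (u : Filter ℕ), ‖fderiv ℂ (G n) z‖ ≤ 2 * B / R z ∧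
      ∀ w ∈ Metric.ball z (R z), ‖G n w - G n z‖ ≤ 2 * B / R z * dist w z ∧
      ‖G n w - G n z - fderiv ℂ (G n) z (w - z)‖ ≤ 4 * B / R z ^ 2 * ‖w - z‖ ^ 2 := by
    intro z hz
    filter_upwards [hG, hB] with n h1 h2
    exact cauchy2 (hR0 z hz) (h1.mono (hRs z)) fun w hw => h2 w (hRs z hw)
  -- the limits
  have hlim : ∀ z ∈ Metric.ball z₀ r, ∃ y : ℂ, Tendsto (fun n => G n z) (u : Filter ℕ) (𝓝 y) := by
    intro z hz
    obtain ⟨y, -, hy⟩ := (isCompact_closedBall (0 : ℂ) B).ultrafilter_le_nhds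
      (u.map fun n => G n z) (by
        rw [le_principal_iff, Ultrafilter.coe_map, mem_map]
        filter_upwards [hB] with n h1
        rw [mem_preimage, mem_closedBall_zero_iff]
        exact h1 z hz)
    exact ⟨y, hy⟩
  have hlimA : ∀ z ∈ Metric.ball z₀ r, ∃ y : E →L[ℂ] ℂ,
      Tendsto (fun n => fderiv ℂ (G n) z) (u : Filter ℕ) (𝓝 y) := by
    intro z hz
    obtain ⟨y, -, hy⟩ := (isCompact_closedBall (0 : E →L[ℂ] ℂ) (2 * B / R z)).ultrafilter_le_nhds
      (u.map fun n => fderiv ℂ (G n) z) (by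
        rw [le_principal_iff, Ultrafilter.coe_map, mem_map]
        filter_upwards [hest z hz] with n h1
        rw [mem_preimage, mem_closedBall_zero_iff]
        exact h1.1)
    exact ⟨y, hy⟩
  choose! G' hG' using hlim
  choose! A hA using hlimA
  have hder : ∀ z ∈ Metric.ball z₀ r, HasFDerivAt G' (A z) z := by
    intro z hz
    have hq : ∀ w ∈ Metric.ball z (R z), ‖G' w - G' z - A z (w - z)‖ ≤
        4 * B / R z ^ 2 * ‖w - z‖ ^ 2 := by
      intro w hw
      have h1 : Tendsto (fun n => ‖G n w - G n z - fderiv ℂ (G n) z (w - z)‖) (u : Filter ℕ)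
          (𝓝 ‖G' w - G' z - A z (w - z)‖) := by
        refine (((hG' w (hRs z hw)).sub (hG' z hz)).sub ?_).norm
        exact ((ContinuousLinearMap.apply ℂ ℂ (w - z)).continuous.tendsto (A z)).comp (hA z hz)
      refine le_of_tendsto h1 ?_
      filter_upwards [hest z hz] with n h2
      exact (h2.2 w hw).2
    refine HasFDerivAt.of_isLittleO ?_
    have h3 : (fun w => G' w - G' z - A z (w - z)) =O[𝓝 z] fun w => ‖w - z‖ ^ 2 := by
      refine Asymptotics.IsBigO.of_bound (4 * B / R z ^ 2) ?_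
      filter_upwards [Metric.ball_mem_nhds z (hR0 z hz)] with w hw
      refine (hq w hw).trans (le_of_eq ?_)
      rw [Real.norm_of_nonneg (by positivity)]
    exact h3.trans_isLittleO (Asymptotics.isLittleO_pow_sub_sub z (by norm_num))
  refine ⟨G', fun z hz => (hder z hz).differentiableAt.differentiableWithinAt, fun z hz => ?_,
    fun z hz => ?_⟩
  · have h1 : Tendsto (fun p : ℕ × E => G p.1 z) ((u : Filter ℕ) ×ˢ 𝓝 z) (𝓝 (G' z)) :=
      (hG' z hz).comp tendsto_fst
    have h2 : Tendsto (fun p : ℕ × E => G p.1 p.2 - G p.1 z) ((u : Filter ℕ) ×ˢ 𝓝 z)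
        (𝓝 0) := by
      have h3 : Tendsto (fun p : ℕ × E => 2 * B / R z * dist p.2 z)
          ((u : Filter ℕ) ×ˢ 𝓝 z) (𝓝 0) := by
        have h4 : Tendsto (fun w : E => 2 * B / R z * dist w z) (𝓝 z) (𝓝 0) := by
          have h5 : Continuous fun w : E => 2 * B / R z * dist w z := by fun_prop
          have h6 := h5.tendsto z
          simpa using h6
        exact h4.comp tendsto_snd
      refine squeeze_zero_norm' ?_ h3
      filter_upwards [(hest z hz).prod_mk (Metric.ball_mem_nhds z (hR0 z hz))] with p hp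
      exact (hp.1.2 p.2 hp.2).1
    have h3 := h1.add h2
    rw [add_zero] at h3
    refine h3.congr fun p => ?_
    ring
  · rw [(hder z hz).fderiv]
    exact hA z hz

/-- Partial derivatives of holomorphic functions are holomorphic. -/
theorem fderiv_holo {E : Type*} [NormedAddCommGroup E] [NormedSpace ℂ E]
    [FiniteDimensional ℂ E] {G : E → ℂ} {U : Set E} (hU : IsOpen U)
    (hG : DifferentiableOn ℂ G U) (v : E) :
    DifferentiableOn ℂ (fun w => fderiv ℂ G w v) U := by
  intro z hz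
  refine DifferentiableAt.differentiableWithinAt ?_
  -- a ball on which G is bounded
  have hcz : ContinuousAt G z := hG.continuousOn.continuousAt (hU.mem_nhds hz)
  have hb : ∀ᶠ w in 𝓝 z, ‖G w‖ < ‖G z‖ + 1 :=
    hcz.norm.eventually_lt_const (by linarith)
  obtain ⟨ρ, hρ, hρs⟩ := Metric.eventually_nhds_iff_ball.1 (hb.and (hU.mem_nhds hz))
  obtain ⟨s, hs⟩ : ∃ s : ℝ, s = ρ / 2 := ⟨_, rfl⟩
  have hs0 : 0 < s := by rw [hs]; positivity
  obtain ⟨B, hB⟩ : ∃ B : ℝ, B = ‖G z‖ + 1 := ⟨_, rfl⟩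
  have hball : ∀ x ∈ Metric.ball z s, Metric.ball x s ⊆ Metric.ball z ρ := by
    intro x hx
    refine Metric.ball_subset_ball' ?_
    rw [Metric.mem_ball] at hx
    linarith
  have hzs : Metric.ball z s ⊆ Metric.ball z ρ := Metric.ball_subset_ball (by linarith)
  have hGd : DifferentiableOn ℂ G (Metric.ball z ρ) := hG.mono fun w hw => (hρs w hw).2
  have hGB : ∀ w ∈ Metric.ball z ρ, ‖G w‖ ≤ B := fun w hw => by
    rw [hB]
    exact (hρs w hw).1.le
  obtain ⟨u, hu⟩ : ∃ u : Ultrafilter ℕ, (u : Filter ℕ) ≤ atTop :=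
    ⟨Ultrafilter.of atTop, Ultrafilter.of_le _⟩
  obtain ⟨H, hH⟩ : ∃ H : ℕ → E → ℂ, H = fun (n : ℕ) (w : E) =>
    ((n : ℂ) + 1) * (G (w + ((n : ℂ) + 1)⁻¹ • v) - G w) := ⟨_, rfl⟩
  have hne : ∀ n : ℕ, ((n : ℂ) + 1) ≠ 0 := fun n => Nat.cast_add_one_ne_zero n
  have hnorm : ∀ n : ℕ, ‖(n : ℂ) + 1‖ = n + 1 := by
    intro n
    have : (n : ℂ) + 1 = ((n + 1 : ℕ) : ℂ) := by push_cast; ring
    rw [this, Complex.norm_natCast]
    push_cast
    ring
  have hstep : ∀ᶠ n : ℕ in (u : Filter ℕ), ‖((n : ℂ) + 1)⁻¹ • v‖ < s := by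
    refine hu ?_
    have h1 : Tendsto (fun n : ℕ => 1 / ((n : ℝ) + 1) * ‖v‖) atTop (𝓝 (0 * ‖v‖)) :=
      tendsto_one_div_add_atTop_nhds_zero_nat.mul_const _
    rw [zero_mul] at h1
    filter_upwards [h1.eventually_lt_const hs0] with n hn
    rw [norm_smul, norm_inv, hnorm]
    rw [one_div] at hn
    exact hn
  have hHd : ∀ᶠ n in (u : Filter ℕ), DifferentiableOn ℂ (H n) (Metric.ball z s) := by
    filter_upwards [hstep] with n hn
    rw [hH]
    refine (DifferentiableOn.sub ?_ (hGd.mono hzs)).const_mul _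
    refine hGd.comp (f := fun w => w + ((n : ℂ) + 1)⁻¹ • v) (by fun_prop) ?_
    intro w hw
    refine hball w hw ?_
    rw [Metric.mem_ball, dist_eq_norm, add_sub_cancel_left]
    exact hn
  have hHB : ∀ᶠ n in (u : Filter ℕ), ∀ w ∈ Metric.ball z s, ‖H n w‖ ≤ 2 * B / s * ‖v‖ := by
    filter_upwards [hstep] with n hn w hw
    have h1 := (cauchy2 hs0 (hGd.mono (hball w hw)) fun x hx => hGB x (hball w hw hx)).2
      (w + ((n : ℂ) + 1)⁻¹ • v) (by
        rw [Metric.mem_ball, dist_eq_norm, add_sub_cancel_left]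
        exact hn)
    have h2 := h1.1
    rw [dist_eq_norm, add_sub_cancel_left, norm_smul, norm_inv, hnorm] at h2
    rw [hH]
    simp only
    rw [norm_mul, hnorm]
    have h3 : (0 : ℝ) < n + 1 := by positivity
    calc ((n : ℝ) + 1) * ‖G (w + ((n : ℂ) + 1)⁻¹ • v) - G w‖
        ≤ ((n : ℝ) + 1) * (2 * B / s * (((n : ℝ) + 1)⁻¹ * ‖v‖)) :=
          mul_le_mul_of_nonneg_left h2 h3.le
      _ = 2 * B / s * ‖v‖ := by
          field_simp
  obtain ⟨H', h1, h2, -⟩ := limit_bounded u hs0 H hHd hHB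
  have hu' : NeBot (u : Filter ℕ) := u.neBot
  have heq : ∀ w ∈ Metric.ball z s, fderiv ℂ G w v = H' w := by
    intro w hw
    have h3 : Tendsto (fun n => H n w) (u : Filter ℕ) (𝓝 (H' w)) :=
      (h2 w hw).comp (tendsto_id.prodMk tendsto_const_nhds)
    have hd : HasFDerivAt G (fderiv ℂ G w) w :=
      ((hGd w (hzs hw)).differentiableAt (Metric.isOpen_ball.mem_nhds (hzs hw))).hasFDerivAt
    have h4 : Tendsto (fun n => H n w) atTop (𝓝 (fderiv ℂ G w v)) := by
      have h5 : Tendsto (fun n : ℕ => ‖(n : ℂ) + 1‖) atTop atTop := by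
        simp only [hnorm]
        exact tendsto_atTop_add_const_right _ _ tendsto_natCast_atTop_atTop
      have h6 := hd.lim v h5
      rw [hH]
      simpa only [smul_eq_mul] using h6
    exact tendsto_nhds_unique (h4.mono_left hu) h3
  have h5 : DifferentiableAt ℂ H' z :=
    (h1 z (Metric.mem_ball_self hs0)).differentiableAt (Metric.ball_mem_nhds z hs0)
  refine h5.congr_of_eventuallyEq ?_
  filter_upwards [Metric.ball_mem_nhds z hs0] with w hw
  exact heq w hw


/-- Holomorphic functions of several variables are smooth. -/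
theorem holo_contDiffOn_nat {E : Type*} [NormedAddCommGroup E] [NormedSpace ℂ E]
    [FiniteDimensional ℂ E] {U : Set E} (hU : IsOpen U) (n : ℕ) :
    ∀ G : E → ℂ, DifferentiableOn ℂ G U → ContDiffOn ℂ n G U := by
  induction n with
  | zero =>
    intro G hG
    exact contDiffOn_zero.2 hG.continuousOn
  | succ n ih =>
    intro G hG
    have h1 : ((n + 1 : ℕ) : WithTop ℕ∞) = (n : WithTop ℕ∞) + 1 := by push_cast; rfl
    rw [h1, contDiffOn_succ_iff_fderiv_of_isOpen hU]
    refine ⟨hG, fun h => ?_, ?_⟩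
    · simp at h
    · rw [contDiffOn_clm_apply]
      intro v
      exact ih _ (fderiv_holo hU hG v)

theorem holo_contDiffOn_complex {E : Type*} [NormedAddCommGroup E] [NormedSpace ℂ E]
    [FiniteDimensional ℂ E] {U : Set E} (hU : IsOpen U) {G : E → ℂ}
    (hG : DifferentiableOn ℂ G U) : ContDiffOn ℂ ∞ G U :=
  contDiffOn_infty.2 fun n => holo_contDiffOn_nat hU n G hG

/-- Holomorphic functions on open subsets of `ℂ²` are smooth. -/
theorem holo_contDiffOn {U : Set V} (hU : IsOpen U) {G : V → ℂ}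
    (hG : DifferentiableOn ℂ G U) : ContDiffOn ℝ ∞ G U :=
  (holo_contDiffOn_complex hU hG).restrict_scalars ℝ

/-- Holomorphic maps of open subsets of `ℂ²` are smooth. -/
theorem holo_contDiffOn_map {U : Set V} (hU : IsOpen U) {T : V → V}
    (hT : DifferentiableOn ℂ T U) : ContDiffOn ℝ ∞ T U :=
  contDiffOn_pi.2 fun i => holo_contDiffOn hU (differentiableOn_pi.1 hT i)

/-- The entries of the Jacobian matrix of a holomorphic map are holomorphic. -/
theorem holo_jac {U : Set V} (hU : IsOpen U) {T : V → V} (hT : DifferentiableOn ℂ T U) (v : V)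
    (a : Fin 2) : DifferentiableOn ℂ (fun z => fderiv ℂ T z v a) U := by
  refine (fderiv_holo hU (differentiableOn_pi.1 hT a) v).congr fun z hz => ?_
  have h1 : DifferentiableAt ℂ T z := (hT z hz).differentiableAt (hU.mem_nhds hz)
  rw [fderiv_apply h1 a]
  rfl

end Pool.Agent.K708.Hd
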