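import Pool.Agent.Lib.K708.HdGlue
import Pool.Agent.Lib.K708.HdHolo
import Pool.Agent.Lib.K708.HdExact
import Pool.Agent.Lib.K708.HdOsg

/-! # K708, Section A: the decomposition theorem in charts -/

set_option autoImplicit false

open scoped ContDiff Topology
open Set Metric MeasureTheory

noncomputable section

namespace Pool.Agent.K708.Hd

variable {X : Type} [TopologicalSpace X] {K : KD X}

/-! ### Task HdMain -/

private theorem sq_int {W : Type} [NormedAddCommGroup W] {F : V → W} {r R : ℝ} (hr : r < R)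
    (hF : ContinuousOn F (ball 0 R)) : IntegrableOn (fun z => ‖F z‖ ^ 2) (ball (0 : V) r) := by
  have h1 : ContinuousOn (fun z => ‖F z‖ ^ 2) (closedBall (0 : V) r) :=
    (hF.mono (closedBall_subset_ball hr)).norm.pow 2
  exact (h1.integrableOn_compact (isCompact_closedBall _ _)).mono_set ball_subset_closedBall

private theorem sq_nonneg' {W : Type} [NormedAddCommGroup W] (F : V → W) (r : ℝ) :
    0 ≤ sq r F := by
  unfold sq
  positivity

private theorem sq_mono' {W W' : Type} [NormedAddCommGroup W] [NormedAddCommGroup W']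
    {F : V → W} {F' : V → W'} {r R : ℝ} (hr : r < R) (hF : ContinuousOn F' (ball 0 R))
    (h : ∀ z ∈ ball (0 : V) r, ‖F z‖ ≤ ‖F' z‖) : sq r F ≤ sq r F' := by
  unfold sq
  refine integral_mono_of_nonneg (Filter.Eventually.of_forall fun z => by positivity)
    (sq_int hr hF) ?_
  filter_upwards [ae_restrict_mem measurableSet_ball] with z hz
  exact pow_le_pow_left₀ (norm_nonneg _) (h z hz) 2

private theorem sq_le_two {W : Type} [NormedAddCommGroup W]
    {F : V → W} {q : Fin 2 → V → ℂ} {r R : ℝ} (hr : r < R)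
    (hq : ∀ j, ContinuousOn (q j) (ball 0 R))
    (h : ∀ z ∈ ball (0 : V) r, ‖F z‖ ≤ 4 * ‖fun j => q j z‖) :
    sq r F ≤ 16 * (sq r (q 0) + sq r (q 1)) := by
  unfold sq
  rw [← integral_add (sq_int hr (hq 0)) (sq_int hr (hq 1)), ← integral_const_mul]
  refine integral_mono_of_nonneg (Filter.Eventually.of_forall fun z => by positivity)
    (((sq_int hr (hq 0)).add (sq_int hr (hq 1))).const_mul 16) ?_
  filter_upwards [ae_restrict_mem measurableSet_ball] with z hz
  have h1 : ‖fun j => q j z‖ ^ 2 ≤ ‖q 0 z‖ ^ 2 + ‖q 1 z‖ ^ 2 := by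
    have h2 : ‖fun j => q j z‖ ≤ max ‖q 0 z‖ ‖q 1 z‖ := by
      rw [pi_norm_le_iff_of_nonneg (by positivity)]
      intro j
      fin_cases j
      · exact le_max_left _ _
      · exact le_max_right _ _
    refine (pow_le_pow_left₀ (norm_nonneg _) h2 2).trans ?_
    rcases max_cases ‖q 0 z‖ ‖q 1 z‖ with h3 | h3 <;> rw [h3.1] <;>
      nlinarith [sq_nonneg ‖q 0 z‖, sq_nonneg ‖q 1 z‖]
  calc ‖F z‖ ^ 2 ≤ (4 * ‖fun j => q j z‖) ^ 2 := pow_le_pow_left₀ (norm_nonneg _) (h z hz) 2
    _ = 16 * ‖fun j => q j z‖ ^ 2 := by ring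
    _ ≤ 16 * (‖q 0 z‖ ^ 2 + ‖q 1 z‖ ^ 2) := by linarith

private theorem ofG_smooth {p : Fin 2 → V → ℂ} {r : ℝ}
    (hp : ∀ j, ContDiffOn ℝ ∞ (p j) (ball 0 r)) :
    ContDiffOn ℝ ∞ (fun z => ofG fun j => p j z) (ball 0 r) := by
  rw [contDiffOn_clm_apply]
  intro v
  simp only [ofG_apply]
  have h1 : ContDiffOn ℝ ∞ (fun z => ∑ j, p j z * v j) (ball 0 r) :=
    ContDiffOn.sum fun j _ => (hp j).mul contDiffOn_const
  exact contDiffOn_const.mul (Complex.reCLM.contDiff.comp_contDiffOn h1)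

private theorem ofG_sub (p q : Fin 2 → ℂ) : ofG p - ofG q = ofG fun j => p j - q j := by
  ext v
  rw [sub_apply, ofG_apply, ofG_apply, ofG_apply, ← mul_sub,
    ← Complex.sub_re, ← Finset.sum_sub_distrib]
  congr 3
  funext j
  ring

/-- Every multivalued smooth function on a compact connected Kähler surface becomes
pluriharmonic after adding a global smooth function. -/
theorem hodge_chart [T2Space X] [ConnectedSpace X] {H : K.ι → V → ℝ} (hH : IsF K H) :
    ∃ U : X → ℝ, ∀ i, ContDiffOn ℝ ∞ (lc K U i) (ball 0 1) ∧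
      ∀ z ∈ ball (0 : V) 1, MH (fun w => H i w + lc K U i w) z = 0 := by
  obtain ⟨P⟩ := exists_part K
  obtain ⟨u, hu, hC, hL⟩ := good_seq P hH
  obtain ⟨Kg, hKg, hgr⟩ := P.grad_le
  obtain ⟨Kh, hKh, hhe⟩ := P.hess_le
  obtain ⟨f, hf⟩ : ∃ f : ℕ → K.ι → V → ℝ, f = fun n i z => H i z + lc K (u n) i z := ⟨_, rfl⟩
  have hfF : ∀ n, IsF K (f n) := fun n => by
    rw [hf]
    exact hH.add (hu n).isF
  obtain ⟨p, hp⟩ : ∃ p : K.ι → Fin 2 → ℕ → V → ℂ,
      p = fun i j n z => cG (fderiv ℝ (f n i) z) j := ⟨_, rfl⟩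
  have hps : ∀ i j n, ContDiffOn ℝ ∞ (p i j n) (ball 0 3) := fun i j n => by
    rw [hp]
    exact cG_smooth ((hfF n).s i) j
  have hdH : ∀ i, ∀ z ∈ ball (0 : V) 3, DifferentiableAt ℝ (H i) z := fun i z hz =>
    ((hH.s i).differentiableOn (by simp) z hz).differentiableAt (isOpen_ball.mem_nhds hz)
  have hdu : ∀ n i, ∀ z ∈ ball (0 : V) 3, DifferentiableAt ℝ (lc K (u n) i) z := fun n i z hz =>
    ((hu n i).differentiableOn (by simp) z hz).differentiableAt (isOpen_ball.mem_nhds hz)
  have hfd : ∀ n i, ∀ z ∈ ball (0 : V) 3,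
      fderiv ℝ (f n i) z = fderiv ℝ (H i) z + fderiv ℝ (lc K (u n) i) z := by
    intro n i z hz
    rw [hf]
    exact fderiv_add (hdH i z hz) (hdu n i z hz)
  have hsub : ∀ m n i, ∀ z ∈ ball (0 : V) 3, fderiv ℝ (lc K (fun x => u m x - u n x) i) z
      = fderiv ℝ (lc K (u m) i) z - fderiv ℝ (lc K (u n) i) z := by
    intro m n i z hz
    exact fderiv_sub (hdu m i z hz) (hdu n i z hz)
  have h23 : ball (0 : V) 2 ⊆ ball 0 3 := ball_subset_ball (by norm_num)
  -- the complex gradients are Cauchy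
  have hpC : ∀ i j, ∀ δ : ℝ, 0 < δ → ∃ N : ℕ, ∀ m ≥ N, ∀ n ≥ N,
      sq 2 (fun z => p i j m z - p i j n z) < δ := by
    intro i j δ hδ
    obtain ⟨N, hN⟩ := hC (δ / Kg) (by positivity)
    refine ⟨N, fun m hm n hn => ?_⟩
    have h1 := hN m hm n hn
    have h2 := hgr _ ((hu m).sub (hu n)).isF i
    have h3 : sq 2 (fun z => p i j m z - p i j n z)
        ≤ sq 2 (fderiv ℝ (lc K (fun x => u m x - u n x) i)) := by
      refine sq_mono' (R := 3) (by norm_num)
        (fderiv_smooth (((hu m).sub (hu n)) i)).continuousOn ?_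
      intro z hz
      have e1 : p i j m z - p i j n z
          = cG (fderiv ℝ (lc K (fun x => u m x - u n x) i) z) j := by
        have e2 := cG_add (fderiv ℝ (lc K (fun x => u m x - u n x) i) z)
          (fderiv ℝ (f n i) z) j
        have e3 : fderiv ℝ (lc K (fun x => u m x - u n x) i) z + fderiv ℝ (f n i) z
            = fderiv ℝ (f m i) z := by
          rw [hsub m n i z (h23 hz), hfd m i z (h23 hz), hfd n i z (h23 hz)]
          abel
        rw [e3] at e2
        rw [hp]
        simp only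
        rw [e2]
        ring
      rw [e1]
      exact norm_cG_le _ _
    calc sq 2 (fun z => p i j m z - p i j n z) ≤ _ := h3
      _ ≤ _ := h2
      _ < Kg * (δ / Kg) := mul_lt_mul_of_pos_left h1 hKg
      _ = δ := by field_simp
  -- their ∂bar derivatives tend to zero
  have hpb : ∀ i j l, Filter.Tendsto (fun n => sq 2 (wb l (p i j n))) Filter.atTop (𝓝 0) := by
    intro i j l
    have h1 : Filter.Tendsto (fun n => Kh * P.La (f n)) Filter.atTop (𝓝 0) := by
      have h2 := hL.const_mul Kh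
      rw [mul_zero] at h2
      rw [hf]
      exact h2
    refine squeeze_zero (fun n => sq_nonneg' _ _) (fun n => ?_) h1
    have h2 : sq 2 (wb l (p i j n)) = sq 2 (fun z => MH (f n i) z j l) := by
      unfold sq
      refine setIntegral_congr_fun measurableSet_ball fun z hz => ?_
      have h3 : wb l (p i j n) z = MH (f n i) z j l := by
        rw [hp]
        exact wb_cG ((hfF n).s i) (h23 hz) j l
      simp only
      rw [h3]
    rw [h2]
    exact hhe (f n) (hfF n) i j l
  have hPl := fun i j => holo_limit (hps i j) (hpC i j) (hpb i j)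
  choose Q hQ hQl using hPl
  have hQs : ∀ i j, ContDiffOn ℝ ∞ (Q i j) (ball 0 2) := fun i j =>
    holo_contDiffOn isOpen_ball (hQ i j)
  obtain ⟨κ, hκ⟩ : ∃ κ : K.ι → V → (V →L[ℝ] ℝ),
      κ = fun i z => (ofG fun j => Q i j z) - fderiv ℝ (H i) z := ⟨_, rfl⟩
  have hκs : ∀ i, ContDiffOn ℝ ∞ (κ i) (ball 0 2) := fun i => by
    rw [hκ]
    exact (ofG_smooth (hQs i)).sub ((fderiv_smooth (hH.s i)).mono h23)
  obtain ⟨U, hU⟩ := exact_limit u hu κ hκs (by
    intro i r hr
    have h1 : Filter.Tendsto (fun n => 16 * (sq r (fun z => p i 0 n z - Q i 0 z)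
        + sq r (fun z => p i 1 n z - Q i 1 z))) Filter.atTop (𝓝 0) := by
      have h2 := ((hQl i 0 r hr).add (hQl i 1 r hr)).const_mul 16
      rwa [add_zero, mul_zero] at h2
    refine squeeze_zero (fun n => sq_nonneg' _ _) (fun n => ?_) h1
    refine sq_le_two (q := fun j z => p i j n z - Q i j z) hr
      (fun j => ((hps i j n).continuousOn.mono h23).sub (hQs i j).continuousOn) ?_
    intro z hz
    have hz2 : z ∈ ball (0 : V) 2 := ball_subset_ball hr.le hz
    have e1 : fderiv ℝ (lc K (u n) i) z - κ i z = ofG fun j => p i j n z - Q i j z := by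
      rw [← ofG_sub]
      have e2 : (fun j => p i j n z) = cG (fderiv ℝ (f n i) z) := by
        rw [hp]
      rw [e2, ofG_cG, hfd n i z (h23 hz2), hκ]
      simp only
      abel
    rw [e1]
    exact norm_ofG_le _)
  refine ⟨U, fun i => ⟨(hU i).1, fun z hz => ?_⟩⟩
  have h12 : ball (0 : V) 1 ⊆ ball 0 2 := ball_subset_ball (by norm_num)
  have hHs : ContDiffOn ℝ ∞ (H i) (ball 0 1) := (hH.s i).mono (h12.trans h23)
  have hsum : ContDiffOn ℝ ∞ (fun w => H i w + lc K U i w) (ball 0 1) := hHs.add (hU i).1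
  have hfe : ∀ w ∈ ball (0 : V) 1, fderiv ℝ (fun w => H i w + lc K U i w) w
      = ofG fun j => Q i j w := by
    intro w hw
    have e1 : DifferentiableAt ℝ (lc K U i) w :=
      ((hU i).1.differentiableOn (by simp) w hw).differentiableAt (isOpen_ball.mem_nhds hw)
    have e2 : fderiv ℝ (fun w => H i w + lc K U i w) w
        = fderiv ℝ (H i) w + fderiv ℝ (lc K U i) w :=
      fderiv_add (hdH i w (h23 (h12 hw))) e1
    rw [e2, (hU i).2 w hw, hκ]
    simp only
    abel
  ext j l
  rw [← wb_cG hsum hz j l, Matrix.zero_apply, ← wb_of_holo (hQ i j) (h12 hz) l]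
  unfold wb
  have hev : (fun w => cG (fderiv ℝ (fun w => H i w + lc K U i w) w) j) =ᶠ[𝓝 z] Q i j := by
    filter_upwards [isOpen_ball.mem_nhds hz] with w hw
    rw [hfe w hw, cG_ofG]
  rw [hev.fderiv_eq]

end Pool.Agent.K708.Hd
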