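import Pool.Agent.Lib.K708.FcPoin
import Pool.Agent.Lib.K708.HdMain
import Pool.Agent.Lib.K708.HdBr1

/-! # K708, Section A: the Hodge decomposition of closed 1-forms -/

set_option autoImplicit false

open scoped Manifold ContDiff Topology
open Set Metric

noncomputable section

namespace Pool.Agent.K708.Hd

/-! ### Task HdBr3 -/

namespace Br3

/-- The local expression of a real form is real. -/
theorem loc1_im {X : CMfd 2} {e : F1 2 X} (hr : ∀ x u, (e x u).im = 0)
    (φ : OpenPartialHomeomorph X V) (z u : V) : (loc1 φ e z u).im = 0 := hr _ _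

/-- `α ↦ (u ↦ α u - i α (i u))` as a continuous linear map. -/
def TT : (V →L[ℝ] ℝ) →L[ℝ] (V →L[ℝ] ℂ) :=
  ContinuousLinearMap.compL ℝ V ℝ ℂ Complex.ofRealCLM -
    Complex.I • (((ContinuousLinearMap.compL ℝ V V ℂ).flip
      (Complex.I • ContinuousLinearMap.id ℝ V)).comp
        (ContinuousLinearMap.compL ℝ V ℝ ℂ Complex.ofRealCLM))

theorem TT_apply (α : V →L[ℝ] ℝ) (u : V) :
    TT α u = (α u : ℂ) - Complex.I * (α (Complex.I • u) : ℂ) := rfl

/-- bilinear forms with vanishing complex Hessian -/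
theorem cH_zero {B : V →L[ℝ] V →L[ℝ] ℝ} (hB : cH B = 0) (j k : Fin 2) :
    B (Complex.I • bb j) (Complex.I • bb k) = -B (bb j) (bb k) ∧
      B (Complex.I • bb j) (bb k) = B (bb j) (Complex.I • bb k) := by
  have h : cH B j k = 0 := by rw [hB]; rfl
  unfold cH at h
  have h1 := congrArg Complex.re h
  have h2 := congrArg Complex.im h
  simp at h1 h2
  constructor <;> linarith

theorem sum_bb (u : V) : u = ∑ j, ((u j).re • bb j + (u j).im • (Complex.I • bb j)) := by
  funext m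
  simp only [Finset.sum_apply, Pi.add_apply, Pi.smul_apply, bb, Fin.sum_univ_two]
  fin_cases m
  · simp [Complex.ext_iff]
  · simp [Complex.ext_iff]

theorem pluri_inv {B : V →L[ℝ] V →L[ℝ] ℝ} (hB : cH B = 0) (u v : V) :
    B (Complex.I • u) (Complex.I • v) = -B u v := by
  have hII : ∀ w : V, Complex.I • (Complex.I • w) = -w := fun w => by
    rw [smul_smul, Complex.I_mul_I, neg_one_smul]
  have key : ∀ j k : Fin 2, ∀ a b c d : ℝ,
      B (Complex.I • (a • bb j + b • (Complex.I • bb j)))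
        (Complex.I • (c • bb k + d • (Complex.I • bb k))) =
      -B (a • bb j + b • (Complex.I • bb j)) (c • bb k + d • (Complex.I • bb k)) := by
    intro j k a b c d
    obtain ⟨h1, h2⟩ := cH_zero hB j k
    have e1 : Complex.I • (a • bb j + b • (Complex.I • bb j)) =
        a • (Complex.I • bb j) - b • bb j := by
      rw [smul_add, smul_comm, smul_comm Complex.I b, hII, smul_neg, sub_eq_add_neg]
    have e2 : Complex.I • (c • bb k + d • (Complex.I • bb k)) =
        c • (Complex.I • bb k) - d • bb k := by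
      rw [smul_add, smul_comm, smul_comm Complex.I d, hII, smul_neg, sub_eq_add_neg]
    rw [e1, e2]
    simp only [map_sub, map_add, map_smul, ContinuousLinearMap.sub_apply,
      ContinuousLinearMap.add_apply, ContinuousLinearMap.smul_apply, smul_eq_mul, h1, h2]
    ring
  have hu := sum_bb u
  have hv := sum_bb v
  rw [Fin.sum_univ_two] at hu hv
  have h00 := key 0 0 (u 0).re (u 0).im (v 0).re (v 0).im
  have h01 := key 0 1 (u 0).re (u 0).im (v 1).re (v 1).im
  have h10 := key 1 0 (u 1).re (u 1).im (v 0).re (v 0).im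
  have h11 := key 1 1 (u 1).re (u 1).im (v 1).re (v 1).im
  generalize (u 0).re • bb 0 + (u 0).im • (Complex.I • bb 0) = U₀ at *
  generalize (u 1).re • bb 1 + (u 1).im • (Complex.I • bb 1) = U₁ at *
  generalize (v 0).re • bb 0 + (v 0).im • (Complex.I • bb 0) = V₀ at *
  generalize (v 1).re • bb 1 + (v 1).im • (Complex.I • bb 1) = V₁ at *
  subst hu hv
  rw [smul_add Complex.I U₀ U₁, smul_add Complex.I V₀ V₁]
  simp only [map_add, ContinuousLinearMap.add_apply, h00, h01, h10, h11]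
  ring

theorem pluri_symm {B : V →L[ℝ] V →L[ℝ] ℝ} (hB : cH B = 0) (u v : V) :
    B (Complex.I • u) v = B u (Complex.I • v) := by
  have h := pluri_inv hB u (Complex.I • v)
  rw [smul_smul, Complex.I_mul_I, neg_one_smul, map_neg] at h
  exact neg_injective h

end Br3

open Br3

/-- local primitives of a real closed 1-form as a multivalued function -/
theorem exists_prim (X : CMfd 2) (K : KD X) (hK : ∀ i, K.ch i ∈ CA 2 X) (e : F1 2 X)
    (he : C1 e) (hr : ∀ x u, (e x u).im = 0) :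
    ∃ H : K.ι → V → ℝ, IsF K H ∧ ∀ i, ∀ z ∈ ball (0 : V) 3, ∀ u : V,
      ((fderiv ℝ (H i) z u : ℝ) : ℂ) = loc1 (K.ch i) e z u := by
  have hp : ∀ i, ∃ g : V → ℂ, ContDiffOn ℝ ∞ g (ball (0 : V) 3) ∧
      ∀ z ∈ ball (0 : V) 3, fderiv ℝ g z = loc1 (K.ch i) e z := fun i =>
    he.primitive (ra_of_ca (hK i)) (z₀ := 0) (r := 3) (by rw [K.tgt i])
  choose g hg hg' using hp
  have hgd : ∀ i, ∀ z ∈ ball (0 : V) 3, DifferentiableAt ℝ (g i) z := fun i z hz =>
    ((hg i).contDiffAt (isOpen_ball.mem_nhds hz)).differentiableAt (by simp)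
  have hfd : ∀ i, ∀ z ∈ ball (0 : V) 3, fderiv ℝ (fun w => (g i w).re) z =
      Complex.reCLM.comp (fderiv ℝ (g i) z) := fun i z hz =>
    (Complex.reCLM.hasFDerivAt.comp z (hgd i z hz).hasFDerivAt).fderiv
  have hval : ∀ i, ∀ z ∈ ball (0 : V) 3, ∀ u : V,
      ((fderiv ℝ (fun w => (g i w).re) z u : ℝ) : ℂ) = loc1 (K.ch i) e z u := by
    intro i z hz u
    rw [hfd i z hz, ContinuousLinearMap.comp_apply, hg' i z hz, Complex.reCLM_apply]
    refine Complex.ext (by simp) ?_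
    rw [Complex.ofReal_im]
    exact (loc1_im hr _ _ _).symm
  refine ⟨fun i w => (g i w).re, ⟨fun i => Complex.reCLM.contDiff.comp_contDiffOn (hg i), ?_⟩,
    hval⟩
  intro i j z hz
  obtain ⟨hz1, hz2⟩ := hz
  have hz1' : z ∈ ball (0 : V) 3 := by rw [← K.tgt i]; exact hz1
  have htz : tt K.ch i j z ∈ ball (0 : V) 3 := by
    rw [← K.tgt j]; exact (K.ch j).map_source hz2
  have hdt : DifferentiableAt ℝ (tt K.ch i j) z :=
    (contDiffAt_change (ra_of_ca (hK i)) (ra_of_ca (hK j)) hz1 hz2).differentiableAt (by simp)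
  have hdH : DifferentiableAt ℝ (fun w => (g j w).re) (tt K.ch i j z) :=
    Complex.reCLM.differentiableAt.comp _ (hgd j _ htz)
  have hcomp : fderiv ℝ (fun w => (fun w => (g j w).re) (tt K.ch i j w)) z =
      (fderiv ℝ (fun w => (g j w).re) (tt K.ch i j z)).comp (fderiv ℝ (tt K.ch i j) z) :=
    fderiv_comp z hdH hdt
  refine ContinuousLinearMap.ext fun u => ?_
  have h1 := hval i z hz1' u
  have h2 := hval j (tt K.ch i j z) htz (fderiv ℝ (tt K.ch i j) z u)
  rw [loc1_change (ra_of_ca (hK i)) (ra_of_ca (hK j)) hz1 hz2] at h1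
  have h3 : ((fderiv ℝ (fun w => (g i w).re) z u : ℝ) : ℂ) =
      ((fderiv ℝ (fun w => (g j w).re) (tt K.ch i j z) (fderiv ℝ (tt K.ch i j) z u) : ℝ) : ℂ) :=
    h1.trans h2.symm
  have h4 := Complex.ofReal_injective h3
  show fderiv ℝ (fun w => (g i w).re) z u =
    fderiv ℝ (fun w => (fun w => (g j w).re) (tt K.ch i j w)) z u
  rw [hcomp, h4]
  rfl

/-- a pluriharmonic function is the real part of a holomorphic one -/
theorem pluri_prim {h : V → ℝ} (hs : ContDiffOn ℝ ∞ h (ball 0 1))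
    (h0 : ∀ z ∈ ball (0 : V) 1, MH h z = 0) :
    ∃ F : V → ℂ, DifferentiableOn ℂ F (ball 0 1) ∧ ∀ z ∈ ball (0 : V) 1, ∀ u : V,
      fderiv ℂ F z u
        = (fderiv ℝ h z u : ℂ) - Complex.I * (fderiv ℝ h z (Complex.I • u) : ℂ) := by
  have hca : ∀ z ∈ ball (0 : V) 1, ContDiffAt ℝ ∞ h z := fun z hz =>
    hs.contDiffAt (isOpen_ball.mem_nhds hz)
  have hfs : ContDiffOn ℝ ∞ (fderiv ℝ h) (ball (0 : V) 1) := fun z hz =>
    ((hca z hz).fderiv_right (m := ∞) (by simp)).contDiffWithinAt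
  have hd : ∀ z ∈ ball (0 : V) 1, DifferentiableAt ℝ (fderiv ℝ h) z := fun z hz =>
    (hfs.contDiffAt (isOpen_ball.mem_nhds hz)).differentiableAt (by simp)
  have hsym : ∀ z ∈ ball (0 : V) 1, ∀ u v, D2 h z u v = D2 h z v u := by
    intro z hz u v
    have := (hca z hz).isSymmSndFDerivAt (by
      rw [minSmoothness_of_isRCLikeNormedField]; exact WithTop.coe_le_coe.2 le_top)
    exact this u v
  have hda : ∀ z ∈ ball (0 : V) 1, HasFDerivAt (fun w => TT (fderiv ℝ h w)) (TT.comp (D2 h z)) z :=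
    fun z hz => TT.hasFDerivAt.comp z (hd z hz).hasFDerivAt
  obtain ⟨F, hF, hF'⟩ := poincare_ball (n := 2) (a := fun w => TT (fderiv ℝ h w)) (z₀ := 0)
    (r := 1) (TT.contDiff.comp_contDiffOn hfs) (by
      intro z hz
      unfold dE1
      rw [(hda z hz).fderiv]
      refine ContinuousLinearMap.ext fun v => ContinuousLinearMap.ext fun u => ?_
      rw [ContinuousLinearMap.sub_apply, ContinuousLinearMap.sub_apply,
        ContinuousLinearMap.flip_apply, ContinuousLinearMap.comp_apply,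
        ContinuousLinearMap.comp_apply, TT_apply, TT_apply, hsym z hz v u]
      have h1 : D2 h z u (Complex.I • v) = D2 h z v (Complex.I • u) := by
        rw [← pluri_symm (h0 z hz) u v, hsym z hz]
      rw [h1]
      simp)
  have hFd : ∀ z ∈ ball (0 : V) 1, HasFDerivAt F
      (StrongDual.extendRCLike (𝕜 := ℂ) (fderiv ℝ h z)) z := by
    intro z hz
    have h1 : HasFDerivAt F (TT (fderiv ℝ h z)) z := by
      rw [← hF' z hz]
      exact ((hF.contDiffAt (isOpen_ball.mem_nhds hz)).differentiableAt (by simp)).hasFDerivAt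
    refine hasFDerivAt_of_restrictScalars ℝ h1 ?_
    refine ContinuousLinearMap.ext fun u => ?_
    rfl
  refine ⟨F, fun z hz => (hFd z hz).differentiableAt.differentiableWithinAt, fun z hz u => ?_⟩
  rw [(hFd z hz).fderiv]
  rfl

/-- functions which are smooth in the charts are smooth -/
theorem S0_of_charts (X : CMfd 2) (K : KD X) (hK : ∀ i, K.ch i ∈ CA 2 X) {U : X → ℝ}
    (hU : ∀ i, ContDiffOn ℝ ∞ (lc K U i) (ball 0 1)) : S0 2 (fun x => (U x : ℂ)) := by
  intro x
  obtain ⟨i, hx, hxi⟩ := K.cov x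
  have h1 : ContDiffAt ℝ ∞ (fun z => (lc K U i z : ℂ)) (K.ch i x) :=
    Complex.ofRealCLM.contDiff.contDiffAt.comp _
      ((hU i).contDiffAt (isOpen_ball.mem_nhds hxi))
  have h2 : ContMDiffAt 𝓘(ℝ, E 2) 𝓘(ℝ, E 2) ∞ (K.ch i) x :=
    contMDiffAt_of_mem_maximalAtlas (ra_of_ca (hK i)) hx
  have h3 : ContMDiffAt 𝓘(ℝ, E 2) 𝓘(ℝ, ℂ) ∞ ((fun z => (lc K U i z : ℂ)) ∘ (K.ch i)) x :=
    ContMDiffAt.comp x h1.contMDiffAt h2
  refine h3.congr_of_eventuallyEq ?_
  filter_upwards [(K.ch i).open_source.mem_nhds hx] with y hy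
  simp only [Function.comp_apply, lc]
  rw [(K.ch i).left_inv hy]

/-! ### Task HdBr4 -/

namespace HdBr4

/-- `H1_of_local` with a smooth local primitive which is complex differentiable. -/
theorem h1_of_local {X : CMfd 2} {α : F1 2 X}
    (h : ∀ x : X, ∃ φ ∈ CA 2 X, x ∈ φ.source ∧ ∃ g : E 2 → ℂ, ContDiffAt ℝ ∞ g (φ x) ∧
      (∀ᶠ z in 𝓝 (φ x), DifferentiableAt ℂ g z) ∧
      ∀ᶠ z in 𝓝 (φ x), ∀ u, loc1 φ α z u = fderiv ℂ g z u) : H1 α := by
  have key : ∀ (φ : OpenPartialHomeomorph X (E 2)) (x : X) (g : E 2 → ℂ),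
      (∀ᶠ z in 𝓝 (φ x), DifferentiableAt ℂ g z) →
      (∀ᶠ z in 𝓝 (φ x), ∀ u, loc1 φ α z u = fderiv ℂ g z u) →
      loc1 φ α =ᶠ[𝓝 (φ x)] fderiv ℝ g := by
    intro φ x g hg hev
    filter_upwards [hev, hg] with z hz hz1
    ext u
    rw [hz u, (hz1.hasFDerivAt.restrictScalars ℝ).fderiv]
    rfl
  have hS : S1 α := by
    refine S1_of_local fun x => ?_
    obtain ⟨φ, hφ, hx, g, hg, hgc, hev⟩ := h x
    refine ⟨φ, ra_of_ca hφ, hx, ?_⟩
    have h1 : ContDiffAt ℝ ∞ (fderiv ℝ g) (φ x) := hg.fderiv_right (m := ∞) (by simp)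
    exact h1.congr_of_eventuallyEq (key φ x g hgc hev)
  refine ⟨⟨hS, ?_⟩, ?_⟩
  · funext x
    obtain ⟨φ, hφ, hx, g, hg, hgc, hev⟩ := h x
    have h1 := loc2_d1 hS (ra_of_ca hφ) (φ.map_source hx)
    have h2 : dE1 (loc1 φ α) (φ x) = 0 := by
      rw [FcC.dE1_congr (key φ x g hgc hev)]
      exact FcC.dE1_fderiv hg
    rw [h2] at h1
    have h4 := eq_of_loc2 (ra_of_ca hφ) hx (d1 α)
    rw [h1] at h4
    rw [h4]
    rfl
  · intro x u
    obtain ⟨φ, hφ, hx, g, hg, hgc, hev⟩ := h x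
    have h1 := eq_of_loc1 (ra_of_ca hφ) hx α
    have h2 := hev.self_of_nhds
    have h3 : HoloAt 2 2 φ x :=
      (contMDiffOn_of_mem_maximalAtlas hφ).contMDiffAt (φ.open_source.mem_nhds hx)
    rw [h1, ContinuousLinearMap.comp_apply, ContinuousLinearMap.comp_apply,
      D_smul_I h3, h2, h2, map_smul, smul_eq_mul]

/-- the (1,0)-part of a 1-form -/
def p10 {X : CMfd 2} (e : F1 2 X) : F1 2 X := fun x =>
  (1 / 2 : ℂ) • (e x - Complex.I • (e x).comp
    ((Complex.I • ContinuousLinearMap.id ℂ (E 2)).restrictScalars ℝ))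

theorem p10_apply {X : CMfd 2} (e : F1 2 X) (x : X) (u : E 2) :
    p10 e x u = (e x u - Complex.I * e x (Complex.I • u)) / 2 := by
  have h : p10 e x u = (1 / 2 : ℂ) • (e x u - Complex.I • e x (Complex.I • u)) := rfl
  rw [h, smul_eq_mul, smul_eq_mul]
  ring

theorem p10_add_cj {X : CMfd 2} {e : F1 2 X} (hr : ∀ x u, (e x u).im = 0) :
    p10 e + cj (p10 e) = e := by
  funext x
  ext u
  have h1 : (p10 e + cj (p10 e)) x u = p10 e x u + cj (p10 e) x u := rfl
  have h2 : ∀ v, (starRingEnd ℂ) (e x v) = e x v := fun v => Complex.conj_eq_iff_im.2 (hr x v)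
  rw [h1, cj_apply, p10_apply, map_div₀, map_sub, map_mul, h2, h2, Complex.conj_I, map_ofNat]
  ring

end HdBr4

theorem hodge_real (X : CMfd 2) (hX : CptConn X) (Ω : F2 2 X) (hΩ : Kah Ω) (e : F1 2 X)
    (he : C1 e) (hr : ∀ x u, (e x u).im = 0) :
    ∃ (a : F1 2 X) (f : X → ℂ), H1 a ∧ S0 2 f ∧ e = a + cj a + d0 2 f := by
  have := hX.conn
  obtain ⟨K, hK⟩ := exists_KD X hX.cpt Ω hΩ
  obtain ⟨H, hH, hHe⟩ := exists_prim X K hK e he hr
  obtain ⟨U, hU⟩ := hodge_chart hH
  have hUs : S0 2 (fun x => (U x : ℂ)) := S0_of_charts X K hK fun i => (hU i).1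
  set e' : F1 2 X := e + d0 2 (fun x => (U x : ℂ)) with he'
  -- the differential of a real function is real
  have hmd : ∀ x, MDifferentiableAt 𝓘(ℝ, E 2) 𝓘(ℝ, ℂ) (fun x => (U x : ℂ)) x := fun x =>
    (hUs x).mdifferentiableAt (by simp)
  -- in the charts
  have hloc : ∀ i, ∀ z ∈ ball (0 : V) 1, ∀ u : V, loc1 (K.ch i) e' z u =
      ((fderiv ℝ (fun w => H i w + lc K U i w) z u : ℝ) : ℂ) := by
    intro i z hz u
    have hz3 : z ∈ ball (0 : V) 3 := ball_subset_ball (by norm_num) hz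
    have hzt : z ∈ (K.ch i).target := by rw [K.tgt i]; exact hz3
    have hH1 : DifferentiableAt ℝ (H i) z :=
      ((hH.s i).contDiffAt (isOpen_ball.mem_nhds hz3)).differentiableAt (by simp)
    have hU1 : DifferentiableAt ℝ (lc K U i) z :=
      ((hU i).1.contDiffAt (isOpen_ball.mem_nhds hz)).differentiableAt (by simp)
    rw [he', loc1_add]
    have h1 : (loc1 (K.ch i) e + loc1 (K.ch i) (d0 2 (fun x => (U x : ℂ)))) z u =
      loc1 (K.ch i) e z u + loc1 (K.ch i) (d0 2 (fun x => (U x : ℂ))) z u := rfl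
    rw [h1, ← hHe i z hz3 u, loc1_d0 (ra_of_ca (hK i)) hzt (hmd _)]
    have h2 : HasFDerivAt ((fun x => (U x : ℂ)) ∘ (K.ch i).symm)
        (Complex.ofRealCLM.comp (fderiv ℝ (lc K U i) z)) z :=
      Complex.ofRealCLM.hasFDerivAt.comp z hU1.hasFDerivAt
    have h3 : HasFDerivAt (fun w => H i w + lc K U i w)
        (fderiv ℝ (H i) z + fderiv ℝ (lc K U i) z) z := hH1.hasFDerivAt.add hU1.hasFDerivAt
    rw [h2.fderiv, h3.fderiv]
    have h4 : (Complex.ofRealCLM.comp (fderiv ℝ (lc K U i) z)) u =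
      ((fderiv ℝ (lc K U i) z u : ℝ) : ℂ) := rfl
    have h5 : (fderiv ℝ (H i) z + fderiv ℝ (lc K U i) z) u =
      fderiv ℝ (H i) z u + fderiv ℝ (lc K U i) z u := rfl
    rw [h4, h5, Complex.ofReal_add]
  have her : ∀ x u, (e' x u).im = 0 := by
    intro x u
    obtain ⟨i, hx, hx1⟩ := K.cov x
    have h1 := eq_of_loc1 (ra_of_ca (hK i)) hx e'
    rw [h1, ContinuousLinearMap.comp_apply, hloc i _ hx1]
    exact Complex.ofReal_im _
  refine ⟨HdBr4.p10 e', fun x => -(U x : ℂ), ?_, ?_, ?_⟩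
  · refine HdBr4.h1_of_local fun x => ?_
    obtain ⟨i, hx, hx1⟩ := K.cov x
    have hs : ContDiffOn ℝ ∞ (fun w => H i w + lc K U i w) (ball 0 1) :=
      ((hH.s i).mono (ball_subset_ball (by norm_num))).add (hU i).1
    obtain ⟨F, hF, hFd⟩ := pluri_prim hs (hU i).2
    have hF1 : DifferentiableOn ℂ (fun z => F z / 2) (ball 0 1) := by
      simpa only [div_eq_mul_inv] using hF.mul_const (2 : ℂ)⁻¹
    refine ⟨K.ch i, hK i, hx, fun z => F z / 2, ?_, ?_, ?_⟩
    · exact (holo_contDiffOn isOpen_ball hF1).contDiffAt (isOpen_ball.mem_nhds hx1)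
    · filter_upwards [isOpen_ball.mem_nhds hx1] with z hz
      exact (hF1 z hz).differentiableAt (isOpen_ball.mem_nhds hz)
    · filter_upwards [isOpen_ball.mem_nhds hx1] with z hz u
      have hz3 : z ∈ ball (0 : V) 3 := ball_subset_ball (by norm_num) hz
      have hzt : z ∈ (K.ch i).target := by rw [K.tgt i]; exact hz3
      have hFz : DifferentiableAt ℂ F z := (hF z hz).differentiableAt (isOpen_ball.mem_nhds hz)
      have h1 : fderiv ℂ (fun z => F z / 2) z u = fderiv ℂ F z u / 2 := by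
        have h2 : HasFDerivAt (fun z => F z / 2) ((2 : ℂ)⁻¹ • fderiv ℂ F z) z := by
          have h3 := hFz.hasFDerivAt.const_mul (2 : ℂ)⁻¹
          simpa only [div_eq_inv_mul] using h3
        rw [h2.fderiv]
        show (2 : ℂ)⁻¹ * fderiv ℂ F z u = _
        ring
      have hsy : HoloAt 2 2 (K.ch i).symm z :=
        (contMDiffOn_symm_of_mem_maximalAtlas (hK i)).contMDiffAt
          ((K.ch i).open_target.mem_nhds hzt)
      have h4 : ∀ v, loc1 (K.ch i) e' z v = e' ((K.ch i).symm z) (D 2 2 (K.ch i).symm z v) :=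
        fun v => rfl
      have h5 : loc1 (K.ch i) (HdBr4.p10 e') z u =
          HdBr4.p10 e' ((K.ch i).symm z) (D 2 2 (K.ch i).symm z u) := rfl
      rw [h1, hFd z hz u, h5, HdBr4.p10_apply, ← D_smul_I hsy, ← h4, ← h4, hloc i z hz,
        hloc i z hz]
  · exact hUs.neg
  · rw [HdBr4.p10_add_cj her, he']
    funext x
    have h1 : d0 2 (fun x => -(U x : ℂ)) x = - d0 2 (fun x => (U x : ℂ)) x := by
      unfold d0
      exact mfderiv_neg (f := fun x => (U x : ℂ))
    show e x = e x + d0 2 (fun x => (U x : ℂ)) x + d0 2 (fun x => -(U x : ℂ)) x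
    rw [h1]
    abel

end Hd

open Hd in
/-- Section A (Hodge decomposition of closed 1-forms). -/
theorem hodge' (X : CMfd 2) (hX : CptConn X) (Ω : F2 2 X) (hΩ : Kah Ω) (e : F1 2 X)
    (he : C1 e) :
    ∃ (a b : F1 2 X) (f : X → ℂ), H1 a ∧ H1 b ∧ S0 2 f ∧ e = a + cj b + d0 2 f := by
  set e1 : F1 2 X := (1 / 2 : ℂ) • (e + cj e) with he1
  set e2 : F1 2 X := (-Complex.I / 2 : ℂ) • (e - cj e) with he2
  have hC1 : C1 e1 := (he.add he.cj).smul _
  have hC2 : C1 e2 := (he.sub he.cj).smul _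
  have hr1 : ∀ x u, (e1 x u).im = 0 := by
    intro x u
    have h : e1 x u = (1 / 2 : ℂ) * (e x u + (starRingEnd ℂ) (e x u)) := rfl
    rw [h, Complex.add_conj]
    simp
  have hr2 : ∀ x u, (e2 x u).im = 0 := by
    intro x u
    have h : e2 x u = (-Complex.I / 2 : ℂ) * (e x u - (starRingEnd ℂ) (e x u)) := rfl
    have h2 : e2 x u = ((e x u).im : ℂ) := by
      rw [h, Complex.sub_conj]
      have := Complex.I_mul_I
      push_cast
      linear_combination (-(e x u).im : ℂ) * this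
    rw [h2, Complex.ofReal_im]
  obtain ⟨a1, f1, ha1, hf1, hd1⟩ := hodge_real X hX Ω hΩ e1 hC1 hr1
  obtain ⟨a2, f2, ha2, hf2, hd2⟩ := hodge_real X hX Ω hΩ e2 hC2 hr2
  have hsum : e = e1 + Complex.I • e2 := by
    funext x
    ext u
    have h : (e1 + Complex.I • e2) x u = (1 / 2 : ℂ) * (e x u + (starRingEnd ℂ) (e x u)) +
      Complex.I * ((-Complex.I / 2 : ℂ) * (e x u - (starRingEnd ℂ) (e x u))) := rfl
    rw [h]
    have := Complex.I_mul_I
    linear_combination (1 / 2 : ℂ) * (e x u - (starRingEnd ℂ) (e x u)) * this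
  refine ⟨a1 + Complex.I • a2, a1 + (-Complex.I) • a2, fun x => f1 x + Complex.I * f2 x,
    ha1.add (ha2.smul _), ha1.add (ha2.smul _), ?_, ?_⟩
  · exact hf1.add ((ContinuousLinearMap.mul ℝ ℂ Complex.I).contMDiff.comp hf2)
  · have hd0 : d0 2 (fun x => f1 x + Complex.I * f2 x) = d0 2 f1 + Complex.I • d0 2 f2 := by
      funext x
      have h1 := ((hf1 x).mdifferentiableAt (by simp : (∞ : WithTop ℕ∞) ≠ 0)).hasMFDerivAt
      have h2 := ((hf2 x).mdifferentiableAt (by simp : (∞ : WithTop ℕ∞) ≠ 0)).hasMFDerivAt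
      have h4 : HasMFDerivAt 𝓘(ℝ, E 2) 𝓘(ℝ, ℂ) (fun x => Complex.I * f2 x) x
          ((ContinuousLinearMap.mul ℝ ℂ Complex.I).comp (d0 2 f2 x)) :=
        (ContinuousLinearMap.mul ℝ ℂ Complex.I).hasMFDerivAt.comp x h2
      have h3 := h1.add h4
      exact h3.mfderiv
    rw [hd0, cj_add, cj_smul, hsum, hd1, hd2]
    simp only [map_neg, Complex.conj_I, neg_neg, smul_add]
    abel

end Pool.Agent.K708
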