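import Pool.Agent.Lib.K708.HdBounds

/-! # K708, Section A: chain rule for holomorphic changes of coordinates -/

set_option autoImplicit false

open scoped ContDiff Topology
open Set Metric MeasureTheory

noncomputable section

namespace Pool.Agent.K708.Hd

/-! ### Task HdChain -/

namespace HdChain

variable {F : Type*} [NormedAddCommGroup F] [NormedSpace ℂ F]

/-- the integrand of the Cauchy formula for the derivative in the direction `v` -/
def ig (f : V → F) (v : V) (ρ : ℝ) (z : V) (θ : ℝ) : F :=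
  deriv (circleMap 0 ρ) θ • ((circleMap 0 ρ θ - 0) ^ 2)⁻¹ • f (z + circleMap 0 ρ θ • v)

theorem mem_of {z0 z v : V} {δ ρ : ℝ} (hρv : ρ * ‖v‖ ≤ δ)
    (hz : z ∈ closedBall z0 δ) {ζ : ℂ} (hζ : ‖ζ‖ ≤ ρ) : z + ζ • v ∈ closedBall z0 (2 * δ) := by
  rw [mem_closedBall, dist_eq_norm] at hz ⊢
  have h1 : ‖ζ • v‖ ≤ δ := by
    rw [norm_smul]
    exact (mul_le_mul_of_nonneg_right hζ (norm_nonneg _)).trans hρv
  calc ‖z + ζ • v - z0‖ = ‖(z - z0) + ζ • v‖ := by congr 1; abel
    _ ≤ ‖z - z0‖ + ‖ζ • v‖ := norm_add_le _ _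
    _ ≤ 2 * δ := by linarith

theorem norm_cm {ρ : ℝ} (hρ : 0 < ρ) (θ : ℝ) : ‖circleMap 0 ρ θ‖ = ρ := by
  rw [norm_circleMap_zero, abs_of_pos hρ]

theorem formula [CompleteSpace F] {f : V → F} {O : Set V} (hO : IsOpen O)
    (hf : DifferentiableOn ℂ f O) {z0 : V} {δ : ℝ} (hsub : closedBall z0 (2 * δ) ⊆ O) {v : V}
    {ρ : ℝ} (hρ : 0 < ρ) (hρv : ρ * ‖v‖ ≤ δ) {z : V} (hz : z ∈ closedBall z0 δ) :
    fderiv ℂ f z v = (2 * Real.pi * Complex.I : ℂ)⁻¹ • ∫ θ in (0)..(2 * Real.pi),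
      ig f v ρ z θ := by
  have hU : IsOpen {ζ : ℂ | z + ζ • v ∈ O} := hO.preimage (by fun_prop)
  have hg : DifferentiableOn ℂ (fun ζ : ℂ => f (z + ζ • v)) {ζ : ℂ | z + ζ • v ∈ O} := by
    intro ζ hζ
    have h1 : DifferentiableAt ℂ f (z + ζ • v) := hf.differentiableAt (hO.mem_nhds hζ)
    exact (h1.comp ζ (by fun_prop)).differentiableWithinAt
  have hc : closedBall (0 : ℂ) ρ ⊆ {ζ : ℂ | z + ζ • v ∈ O} := by
    intro ζ hζ
    exact hsub (mem_of hρv hz (by simpa using hζ))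
  have h := Complex.two_pi_I_inv_smul_circleIntegral_sub_sq_inv_smul_of_differentiable hU hc hg
    (mem_ball_self hρ)
  have h2 : deriv (fun ζ : ℂ => f (z + ζ • v)) 0 = fderiv ℂ f z v := by
    have h3 : z + (0 : ℂ) • v ∈ O := hc (mem_closedBall_self hρ.le)
    have h4 : HasFDerivAt f (fderiv ℂ f (z + (0 : ℂ) • v)) (z + (0 : ℂ) • v) :=
      (hf.differentiableAt (hO.mem_nhds h3)).hasFDerivAt
    have h5 : HasDerivAt (fun ζ : ℂ => z + ζ • v) v 0 := by
      have := ((hasDerivAt_id (0 : ℂ)).smul_const v).const_add z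
      simpa using this
    have h6 := h4.comp_hasDerivAt (0 : ℂ) h5
    rw [zero_smul, add_zero] at h6
    exact h6.deriv
  rw [← h2, ← h]
  rfl

theorem ig_cont {f : V → F} {O : Set V} (hf : ContinuousOn f O) {z0 : V} {δ : ℝ}
    (hsub : closedBall z0 (2 * δ) ⊆ O) {v : V}
    {ρ : ℝ} (hρ : 0 < ρ) (hρv : ρ * ‖v‖ ≤ δ) {z : V} (hz : z ∈ closedBall z0 δ) :
    Continuous (ig f v ρ z) := by
  unfold ig
  have h1 : Continuous fun θ : ℝ => f (z + circleMap 0 ρ θ • v) :=
    hf.comp_continuous (by fun_prop) fun θ => hsub (mem_of hρv hz (norm_cm hρ θ).le)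
  have h2 : Continuous fun θ : ℝ => ((circleMap 0 ρ θ - 0) ^ 2)⁻¹ := by
    refine Continuous.inv₀ (by fun_prop) fun θ => ?_
    rw [sub_zero]
    refine pow_ne_zero 2 fun h => ?_
    have := norm_cm hρ θ
    rw [h, norm_zero] at this
    exact hρ.ne this
  have h3 : Continuous fun θ : ℝ => deriv (circleMap 0 ρ) θ := by
    simp only [deriv_circleMap]
    fun_prop
  exact h3.smul (h2.smul h1)

theorem ig_norm (f : V → F) (v : V) {ρ : ℝ} (hρ : 0 < ρ) (z : V) (θ : ℝ) :
    ‖ig f v ρ z θ‖ = ρ⁻¹ * ‖f (z + circleMap 0 ρ θ • v)‖ := by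
  unfold ig
  rw [norm_smul, norm_smul, deriv_circleMap, norm_mul, norm_cm hρ, Complex.norm_I, mul_one,
    norm_inv, norm_pow, sub_zero, norm_cm hρ, ← mul_assoc]
  congr 1
  field_simp

theorem cont_fderiv_v [CompleteSpace F] {f : V → F} {O : Set V} (hO : IsOpen O)
    (hf : DifferentiableOn ℂ f O) (v : V) : ContinuousOn (fun z => fderiv ℂ f z v) O := by
  intro z0 hz0
  obtain ⟨δ', hδ', hsub'⟩ := Metric.isOpen_iff.mp hO z0 hz0
  obtain ⟨δ, hδ, rfl⟩ : ∃ δ, 0 < δ ∧ 3 * δ = δ' := ⟨δ' / 3, by positivity, by ring⟩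
  have hsub : closedBall z0 (2 * δ) ⊆ O := (closedBall_subset_ball (by linarith)).trans hsub'
  obtain ⟨ρ, hρ, hρv⟩ : ∃ ρ : ℝ, 0 < ρ ∧ ρ * ‖v‖ ≤ δ := by
    refine ⟨δ / (‖v‖ + 1), by positivity, ?_⟩
    rw [div_mul_eq_mul_div, div_le_iff₀ (by positivity)]
    nlinarith [norm_nonneg v]
  obtain ⟨M, hM⟩ := (isCompact_closedBall z0 (2 * δ)).exists_bound_of_continuousOn
    (hf.continuousOn.mono hsub)
  have hball : closedBall z0 δ ∈ 𝓝 z0 := closedBall_mem_nhds z0 hδ
  have h1 : ContinuousAt (fun z => ∫ θ in (0)..(2 * Real.pi), ig f v ρ z θ) z0 := by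
    refine intervalIntegral.continuousAt_of_dominated_interval (bound := fun _ => ρ⁻¹ * M)
      ?_ ?_ ?_ ?_
    · filter_upwards [hball] with z hz
      exact (ig_cont hf.continuousOn hsub hρ hρv hz).aestronglyMeasurable
    · filter_upwards [hball] with z hz
      refine Filter.Eventually.of_forall fun θ _ => ?_
      rw [ig_norm f v hρ]
      exact mul_le_mul_of_nonneg_left (hM _ (mem_of hρv hz (norm_cm hρ θ).le))
        (by positivity)
    · exact intervalIntegrable_const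
    · refine Filter.Eventually.of_forall fun θ _ => ?_
      have h2 : ContinuousAt f (z0 + circleMap 0 ρ θ • v) :=
        hf.continuousOn.continuousAt (hO.mem_nhds (hsub (mem_of hρv
          (mem_closedBall_self hδ.le) (norm_cm hρ θ).le)))
      have h3 : ContinuousAt (fun z => f (z + circleMap 0 ρ θ • v)) z0 :=
        ContinuousAt.comp (f := fun z => z + circleMap 0 ρ θ • v) h2 (by fun_prop)
      exact (h3.const_smul _).const_smul _
  have h2 : (fun z => fderiv ℂ f z v) =ᶠ[𝓝 z0] fun z => (2 * Real.pi * Complex.I : ℂ)⁻¹ •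
      ∫ θ in (0)..(2 * Real.pi), ig f v ρ z θ := by
    filter_upwards [hball] with z hz
    exact formula hO hf hsub hρ hρv hz
  exact ((h1.const_smul _).congr h2.symm).continuousWithinAt

theorem fderiv_sum (f : V → F) (z : V) : fderiv ℂ f z = ∑ j,
    (ContinuousLinearMap.proj (R := ℂ) (φ := fun _ : Fin 2 => ℂ) j).smulRight
      (fderiv ℂ f z (bb j)) := by
  ext v
  have hv : v = ∑ j, v j • bb j := by
    ext i
    fin_cases i <;> simp [bb, Fin.sum_univ_two]
  conv_lhs => rw [hv, map_sum]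
  rw [sum_apply]
  refine Finset.sum_congr rfl fun j _ => ?_
  rw [map_smul]
  rfl

theorem cont_fderiv [CompleteSpace F] {f : V → F} {O : Set V} (hO : IsOpen O)
    (hf : DifferentiableOn ℂ f O) : ContinuousOn (fderiv ℂ f) O := by
  have h : fderiv ℂ f = fun z => ∑ j,
      ContinuousLinearMap.smulRightL ℂ V F
        (ContinuousLinearMap.proj (R := ℂ) (φ := fun _ : Fin 2 => ℂ) j)
        (fderiv ℂ f z (bb j)) := by
    funext z
    exact (fderiv_sum f z).trans rfl
  rw [h]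
  refine continuousOn_finsetSum _ fun j _ => ?_
  exact (ContinuousLinearMap.continuous _).comp_continuousOn (cont_fderiv_v hO hf (bb j))

theorem diff_fderiv_v [CompleteSpace F] {f : V → F} {O : Set V} (hO : IsOpen O)
    (hf : DifferentiableOn ℂ f O) (v : V) :
    DifferentiableOn ℂ (fun z => fderiv ℂ f z v) O := by
  intro z0 hz0
  obtain ⟨δ', hδ', hsub'⟩ := Metric.isOpen_iff.mp hO z0 hz0
  obtain ⟨δ, hδ, rfl⟩ : ∃ δ, 0 < δ ∧ 3 * δ = δ' := ⟨δ' / 3, by positivity, by ring⟩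
  have hsub : closedBall z0 (2 * δ) ⊆ O := (closedBall_subset_ball (by linarith)).trans hsub'
  obtain ⟨ρ, hρ, hρv⟩ : ∃ ρ : ℝ, 0 < ρ ∧ ρ * ‖v‖ ≤ δ := by
    refine ⟨δ / (‖v‖ + 1), by positivity, ?_⟩
    rw [div_mul_eq_mul_div, div_le_iff₀ (by positivity)]
    nlinarith [norm_nonneg v]
  have hcf := cont_fderiv hO hf
  obtain ⟨M, hM⟩ := (isCompact_closedBall z0 (2 * δ)).exists_bound_of_continuousOn
    (hcf.mono hsub)
  have hball : closedBall z0 δ ∈ 𝓝 z0 := closedBall_mem_nhds z0 hδ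
  have hz0' : z0 ∈ closedBall z0 δ := mem_closedBall_self hδ.le
  have h1 : HasFDerivAt (𝕜 := ℂ) (fun z => ∫ θ in (0)..(2 * Real.pi), ig f v ρ z θ)
      (∫ θ in (0)..(2 * Real.pi), ig (fderiv ℂ f) v ρ z0 θ) z0 := by
    refine intervalIntegral.hasFDerivAt_integral_of_dominated_of_fderiv_le
      (F' := fun z θ => ig (fderiv ℂ f) v ρ z θ) (bound := fun _ => ρ⁻¹ * M) hball
      ?_ ?_ ?_ ?_ ?_ ?_
    · filter_upwards [hball] with z hz
      exact (ig_cont hf.continuousOn hsub hρ hρv hz).aestronglyMeasurable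
    · exact (ig_cont hf.continuousOn hsub hρ hρv hz0').intervalIntegrable _ _
    · exact (ig_cont hcf hsub hρ hρv hz0').aestronglyMeasurable
    · refine Filter.Eventually.of_forall fun θ _ z hz => ?_
      rw [ig_norm _ v hρ]
      exact mul_le_mul_of_nonneg_left (hM _ (mem_of hρv hz (norm_cm hρ θ).le))
        (by positivity)
    · exact intervalIntegrable_const
    · refine Filter.Eventually.of_forall fun θ _ z hz => ?_
      have h2 : HasFDerivAt f (fderiv ℂ f (z + circleMap 0 ρ θ • v)) (z + circleMap 0 ρ θ • v) :=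
        (hf.differentiableAt (hO.mem_nhds (hsub (mem_of hρv hz
          (norm_cm hρ θ).le)))).hasFDerivAt
      have h3 : HasFDerivAt (fun z => f (z + circleMap 0 ρ θ • v))
          (fderiv ℂ f (z + circleMap 0 ρ θ • v)) z := by
        have h4 := h2.comp z ((hasFDerivAt_id z).add_const (circleMap 0 ρ θ • v))
        rw [ContinuousLinearMap.comp_id] at h4
        exact h4
      exact (h3.const_smul _).const_smul _
  have h2 : (fun z => fderiv ℂ f z v) =ᶠ[𝓝 z0] fun z => (2 * Real.pi * Complex.I : ℂ)⁻¹ •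
      ∫ θ in (0)..(2 * Real.pi), ig f v ρ z θ := by
    filter_upwards [hball] with z hz
    exact formula hO hf hsub hρ hρv hz
  exact ((h1.const_smul _).differentiableAt.congr_of_eventuallyEq h2).differentiableWithinAt

theorem diff_fderiv [CompleteSpace F] {f : V → F} {O : Set V} (hO : IsOpen O)
    (hf : DifferentiableOn ℂ f O) : DifferentiableOn ℂ (fderiv ℂ f) O := by
  have h : fderiv ℂ f = fun z => ∑ j,
      ContinuousLinearMap.smulRightL ℂ V F
        (ContinuousLinearMap.proj (R := ℂ) (φ := fun _ : Fin 2 => ℂ) j)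
        (fderiv ℂ f z (bb j)) := by
    funext z
    exact (fderiv_sum f z).trans rfl
  rw [h]
  refine DifferentiableOn.fun_sum fun j _ => ?_
  exact (ContinuousLinearMap.differentiable _).comp_differentiableOn
    (diff_fderiv_v hO hf (bb j))

end HdChain

open HdChain

/-- holomorphic functions of two variables are smooth -/
theorem HdChain.contDiffOn_nat (n : ℕ) : ∀ {F : Type} [NormedAddCommGroup F] [NormedSpace ℂ F]
    [CompleteSpace F] {f : V → F} {O : Set V}, IsOpen O → DifferentiableOn ℂ f O →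
    ContDiffOn ℂ n f O := by
  induction n with
  | zero =>
    intro F _ _ _ f O hO hf
    exact contDiffOn_zero.mpr hf.continuousOn
  | succ n ih =>
    intro F _ _ _ f O hO hf
    rw [Nat.cast_succ, contDiffOn_succ_iff_fderiv_of_isOpen hO]
    refine ⟨hf, fun h => absurd h (by simp), ?_⟩
    exact ih hO (diff_fderiv hO hf)

/-- holomorphic maps are smooth -/
theorem holo_smooth {T : V → V} {O : Set V} (hO : IsOpen O) (hT : DifferentiableOn ℂ T O) :
    ContDiffOn ℝ ∞ T O := by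
  have h : ContDiffOn ℂ ∞ T O := by
    rw [contDiffOn_infty]
    intro n
    exact HdChain.contDiffOn_nat n hO hT
  exact h.restrict_scalars ℝ

theorem fderiv_comp_holo {T : V → V} {O : Set V} (hO : IsOpen O) (hT : DifferentiableOn ℂ T O)
    {f : V → ℝ} {r : ℝ} (hf : ContDiffOn ℝ ∞ f (ball 0 r)) {z : V} (hz : z ∈ O)
    (hTz : T z ∈ ball (0 : V) r) :
    fderiv ℝ (fun w => f (T w)) z = pbc (fderiv ℂ T z) (fderiv ℝ f (T z)) := by
  have h1 : HasFDerivAt T (fderiv ℂ T z) z :=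
    (hT.differentiableAt (hO.mem_nhds hz)).hasFDerivAt
  have h2 : HasFDerivAt f (fderiv ℝ f (T z)) (T z) :=
    ((hf.contDiffAt (isOpen_ball.mem_nhds hTz)).differentiableAt (by simp)).hasFDerivAt
  exact (h2.comp z (h1.restrictScalars ℝ)).fderiv

/-- the second derivative of a composition with a holomorphic map -/
theorem HdChain.D2_comp {T : V → V} {O : Set V} (hO : IsOpen O) (hT : DifferentiableOn ℂ T O)
    {f : V → ℝ} {r : ℝ} (hf : ContDiffOn ℝ ∞ f (ball 0 r)) {z : V} (hz : z ∈ O)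
    (hTz : T z ∈ ball (0 : V) r) (u v : V) :
    D2 (fun w => f (T w)) z u v = fderiv ℝ f (T z) (fderiv ℂ (fderiv ℂ T) z u v) +
      pbb (fderiv ℂ T z) (D2 f (T z)) u v := by
  have hU : IsOpen (O ∩ T ⁻¹' ball (0 : V) r) :=
    hT.continuousOn.isOpen_inter_preimage hO isOpen_ball
  have hev : (fderiv ℝ fun w => f (T w)) =ᶠ[𝓝 z] fun w =>
      (fderiv ℝ f (T w)).comp (ContinuousLinearMap.restrictScalarsL ℂ V V ℝ ℝ (fderiv ℂ T w)) := by
    filter_upwards [hU.mem_nhds ⟨hz, hTz⟩] with w hw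
    exact fderiv_comp_holo hO hT hf hw.1 hw.2
  have h1 : HasFDerivAt T ((fderiv ℂ T z).restrictScalars ℝ) z :=
    (hT.differentiableAt (hO.mem_nhds hz)).hasFDerivAt.restrictScalars ℝ
  have h2 : HasFDerivAt (fderiv ℝ f) (D2 f (T z)) (T z) := by
    have h3 : ContDiffAt ℝ ∞ f (T z) := hf.contDiffAt (isOpen_ball.mem_nhds hTz)
    have h4 : ContDiffAt ℝ 1 (fderiv ℝ f) (T z) := h3.fderiv_right (by norm_cast)
    exact (h4.differentiableAt (by simp)).hasFDerivAt
  have hc := h2.comp z h1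
  have h5 : HasFDerivAt (fderiv ℂ T) ((fderiv ℂ (fderiv ℂ T) z).restrictScalars ℝ) z :=
    ((diff_fderiv hO hT).differentiableAt (hO.mem_nhds hz)).hasFDerivAt.restrictScalars ℝ
  have hd := (ContinuousLinearMap.restrictScalarsL ℂ V V ℝ ℝ).hasFDerivAt.comp z h5
  have hcd := hc.clm_comp hd
  unfold D2
  rw [hev.fderiv_eq]
  have h6 := hcd.fderiv
  change fderiv ℝ (fun w => (fderiv ℝ f (T w)).comp
    (ContinuousLinearMap.restrictScalarsL ℂ V V ℝ ℝ (fderiv ℂ T w))) z = _ at h6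
  rw [h6]
  rfl

/-- the complex Hessian is a tensor -/
theorem MH_comp_holo {T : V → V} {O : Set V} (hO : IsOpen O) (hT : DifferentiableOn ℂ T O)
    {f : V → ℝ} {r : ℝ} (hf : ContDiffOn ℝ ∞ f (ball 0 r)) {z : V} (hz : z ∈ O)
    (hTz : T z ∈ ball (0 : V) r) :
    MH (fun w => f (T w)) z
      = (mat (fderiv ℂ T z)).transpose * MH f (T z)
        * (mat (fderiv ℂ T z)).map (starRingEnd ℂ) := by
  unfold MH
  rw [← cH_pbb]
  ext j k
  simp only [cH, D2_comp hO hT hf hz hTz]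
  have h1 : ∀ u v, fderiv ℂ (fderiv ℂ T) z (Complex.I • u) v =
      Complex.I • fderiv ℂ (fderiv ℂ T) z u v := by
    intro u v
    rw [map_smul]
    rfl
  have h2 : ∀ u v, fderiv ℂ (fderiv ℂ T) z u (Complex.I • v) =
      Complex.I • fderiv ℂ (fderiv ℂ T) z u v := by
    intro u v
    rw [map_smul]
  simp only [h1, h2, smul_smul, Complex.I_mul_I, neg_smul, one_smul, map_neg, Complex.ofReal_add,
    Complex.ofReal_neg]
  ring

end Pool.Agent.K708.Hd
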