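import Mathlib

/-! # K708, Section A (Hodge decomposition of closed 1-forms): definitions

Everything in the files `Hd*.lean` except `HdBridge.lean` is independent of `Base.lean`.
Functions are real valued functions on the polydisc `ball 0 3` of `V = ℂ²` (sup norm); `cG` and
`cH` are the complex gradient `∂_j f` and the complex Hessian `∂_j ∂bar_k f` in terms of the real
derivatives.
-/

set_option autoImplicit false

open scoped ContDiff Topology
open Set Metric MeasureTheory

noncomputable section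

namespace Pool.Agent.K708.Hd

/-- The model space `ℂ²` with the sup norm. -/
abbrev V := Fin 2 → ℂ

/-- the standard basis -/
def bb (j : Fin 2) : V := Pi.single j 1

/-- complex gradient: for `α = df` this is `∂_j f` -/
def cG (α : V →L[ℝ] ℝ) (j : Fin 2) : ℂ :=
  ((α (bb j) : ℂ) - Complex.I * (α (Complex.I • bb j) : ℂ)) / 2

/-- complex Hessian: for `B = D²f` this is `∂_j ∂bar_k f` -/
def cH (B : V →L[ℝ] V →L[ℝ] ℝ) : Matrix (Fin 2) (Fin 2) ℂ := fun j k =>
  ((B (bb j) (bb k) : ℂ) + (B (Complex.I • bb j) (Complex.I • bb k) : ℂ)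
    + Complex.I * ((B (bb j) (Complex.I • bb k) : ℂ) - (B (Complex.I • bb j) (bb k) : ℂ))) / 4

/-- the second real derivative -/
def D2 (f : V → ℝ) (z : V) : V →L[ℝ] V →L[ℝ] ℝ := fderiv ℝ (fderiv ℝ f) z

/-- the complex Hessian of a function -/
def MH (f : V → ℝ) (z : V) : Matrix (Fin 2) (Fin 2) ℂ := cH (D2 f z)

/-- the Wirtinger derivative `∂_l` of a complex valued function -/
def wd (l : Fin 2) (F : V → ℂ) (z : V) : ℂ :=
  (fderiv ℝ F z (bb l) - Complex.I * fderiv ℝ F z (Complex.I • bb l)) / 2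

/-- the Wirtinger derivative `∂bar_l` of a complex valued function -/
def wb (l : Fin 2) (F : V → ℂ) (z : V) : ℂ :=
  (fderiv ℝ F z (bb l) + Complex.I * fderiv ℝ F z (Complex.I • bb l)) / 2

/-- the energy form `∑ C_kj ∂_j f conj(∂_k g)` (real part) -/
def en (C : Matrix (Fin 2) (Fin 2) ℂ) (α β : V →L[ℝ] ℝ) : ℝ :=
  (∑ j, ∑ k, C k j * cG α j * (starRingEnd ℂ) (cG β k)).re

/-- the operator `∑ C_kj ∂_j ∂bar_k f` -/
def lp (C : Matrix (Fin 2) (Fin 2) ℂ) (B : V →L[ℝ] V →L[ℝ] ℝ) : ℝ :=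
  (∑ j, ∑ k, C k j * cH B j k).re

/-- the square of the norm of a Hermitian matrix `M` with respect to `C`: trace of `C M C M` -/
def hn (C M : Matrix (Fin 2) (Fin 2) ℂ) : ℝ := ((C * M * C * M).trace).re

/-- the boundary term: `∑ N_kj ∂_j χ conj(∂_k f)` for `N = adj (MH f)` (real part) -/
def rr (N : Matrix (Fin 2) (Fin 2) ℂ) (α β : V →L[ℝ] ℝ) : ℝ :=
  (∑ j, ∑ k, N k j * cG α j * (starRingEnd ℂ) (cG β k)).re

/-- A Kähler metric on `ball 0 3`. -/
structure IsK (G : V → Matrix (Fin 2) (Fin 2) ℂ) : Prop where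
  s : ∀ j k, ContDiffOn ℝ ∞ (fun z => G z j k) (ball 0 3)
  herm : ∀ z ∈ ball (0 : V) 3, (G z).IsHermitian
  pos : ∀ z ∈ ball (0 : V) 3, ∀ v : V, v ≠ 0 →
    0 < (∑ j, ∑ k, G z j k * v j * (starRingEnd ℂ) (v k)).re
  kah : ∀ z ∈ ball (0 : V) 3, ∀ j k l,
    wd l (fun z => G z j k) z = wd j (fun z => G z l k) z

section

variable {X : Type} [TopologicalSpace X] {ι : Type} (ch : ι → OpenPartialHomeomorph X V)

/-- overlap of two charts, in the coordinates of the first -/
def ov (i j : ι) : Set V := (ch i).target ∩ (ch i).symm ⁻¹' (ch j).source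

/-- change of coordinates -/
def tt (i j : ι) (z : V) : V := ch j ((ch i).symm z)

/-- Jacobian matrix of the change of coordinates -/
def JJ (i j : ι) (z : V) : Matrix (Fin 2) (Fin 2) ℂ := fun a b => fderiv ℂ (tt ch i j) z (bb b) a

end

/-- A complex surface with a Kähler metric, given by finitely many charts whose images are the
polydisc of radius `3`, such that the polydiscs of radius `1` cover. -/
structure KD (X : Type) [TopologicalSpace X] where
  ι : Type
  fin : Fintype ι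
  ch : ι → OpenPartialHomeomorph X V
  tgt : ∀ i, (ch i).target = ball 0 3
  cov : ∀ x, ∃ i, x ∈ (ch i).source ∧ ch i x ∈ ball (0 : V) 1
  hol : ∀ i j, DifferentiableOn ℂ (tt ch i j) (ov ch i j)
  G : ι → V → Matrix (Fin 2) (Fin 2) ℂ
  isK : ∀ i, IsK (G i)
  tr : ∀ i j, ∀ z ∈ ov ch i j,
    G i z = (JJ ch i j z).transpose * G j (tt ch i j z) * (JJ ch i j z).map (starRingEnd ℂ)

attribute [instance] KD.fin

section

variable {X : Type} [TopologicalSpace X] (K : KD X)

/-- the coefficients of the energy form -/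
def KD.C (i : K.ι) (z : V) : Matrix (Fin 2) (Fin 2) ℂ := (K.G i z).adjugate

/-- the determinant of the metric -/
def KD.g (i : K.ι) (z : V) : ℝ := ((K.G i z).det).re

/-- Smooth multivalued functions (local functions whose differentials agree on overlaps). -/
structure IsF (f : K.ι → V → ℝ) : Prop where
  s : ∀ i, ContDiffOn ℝ ∞ (f i) (ball 0 3)
  c : ∀ i j, ∀ z ∈ ov K.ch i j,
    fderiv ℝ (f i) z = fderiv ℝ (fun w => f j (tt K.ch i j w)) z

/-- expression of a function in the charts -/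
def lc (u : X → ℝ) (i : K.ι) (z : V) : ℝ := u ((K.ch i).symm z)

/-- smooth functions -/
def IsS (u : X → ℝ) : Prop := ∀ i, ContDiffOn ℝ ∞ (lc K u i) (ball 0 3)

/-- densities -/
def IsD (D : K.ι → V → ℝ) : Prop := ∀ i j, ∀ z ∈ ov K.ch i j,
  D i z = D j (tt K.ch i j z) * ‖(JJ K.ch i j z).det‖ ^ 2

/-- smooth partitions of unity -/
structure Part where
  χ : K.ι → X → ℝ
  s : ∀ i, IsS K (χ i)
  nn : ∀ i x, 0 ≤ χ i x
  sum : ∀ x, ∑ i, χ i x = 1
  supp : ∀ i x, χ i x ≠ 0 → x ∈ (K.ch i).source ∧ K.ch i x ∈ ball (0 : V) 1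

variable {K}

/-- the integral of a density -/
def Part.Int (P : Part K) (D : K.ι → V → ℝ) : ℝ :=
  ∑ i, ∫ z in ball (0 : V) 1, P.χ i ((K.ch i).symm z) * D i z

/-- the energy form of multivalued functions -/
def Part.En (P : Part K) (f h : K.ι → V → ℝ) : ℝ :=
  P.Int fun i z => en (K.C i z) (fderiv ℝ (f i) z) (fderiv ℝ (h i) z)

/-- the square of the `L²` norm of the Laplacian -/
def Part.La (P : Part K) (f : K.ι → V → ℝ) : ℝ :=
  P.Int fun i z => (lp (K.C i z) (D2 (f i) z)) ^ 2 / K.g i z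

end

/-! ## Mollifiers -/

/-- a mollifier: smooth, nonnegative, supported in the unit ball, integral one -/
structure IsM (ρ : V → ℝ) : Prop where
  s : ContDiff ℝ ∞ ρ
  nn : ∀ y, 0 ≤ ρ y
  supp : ∀ y, 1 ≤ ‖y‖ → ρ y = 0
  int : ∫ y, ρ y = 1

/-- mollification -/
def mo {W : Type} [NormedAddCommGroup W] [NormedSpace ℝ W] (ρ : V → ℝ) (ε : ℝ) (F : V → W)
    (x : V) : W := ∫ y, ρ y • F (x - ε • y)

/-- square of the `L²` norm on the polydisc of radius `r` -/
def sq {W : Type} [NormedAddCommGroup W] (r : ℝ) (F : V → W) : ℝ :=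
  ∫ z in ball (0 : V) r, ‖F z‖ ^ 2

end Pool.Agent.K708.Hd
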