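import Pool.Agent.Lib.K708.HdBounds

/-! # K708, Section A: integration by parts in a chart -/

set_option autoImplicit false

open scoped ContDiff Topology
open Set Metric MeasureTheory

noncomputable section

namespace Pool.Agent.K708.Hd

namespace HdGreen

/-- extension by zero of a smooth function -/
theorem ext_smooth {W : Type} [NormedAddCommGroup W] [NormedSpace ℝ W] {F : V → W}
    (hF : ContDiffOn ℝ ∞ F (ball 0 3)) (hs : ∀ z, z ∉ ball (0 : V) 2 → F z = 0) :
    ContDiff ℝ ∞ F := by
  rw [contDiff_iff_contDiffAt]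
  intro z
  by_cases hz : z ∈ ball (0 : V) 3
  · exact hF.contDiffAt (isOpen_ball.mem_nhds hz)
  · have h3 : z ∈ (closedBall (0 : V) 2)ᶜ := by
      simp only [mem_ball, dist_zero_right, not_lt] at hz
      simp only [mem_compl_iff, mem_closedBall, dist_zero_right, not_le]
      linarith
    have h4 : ∀ᶠ y in 𝓝 z, F y = 0 := by
      filter_upwards [isClosed_closedBall.isOpen_compl.mem_nhds h3] with y hy
      exact hs y fun h => hy (ball_subset_closedBall h)
    exact contDiffAt_const.congr_of_eventuallyEq h4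

theorem compact_supp {W : Type} [NormedAddCommGroup W] {F : V → W}
    (hs : ∀ z, z ∉ ball (0 : V) 2 → F z = 0) : HasCompactSupport F := by
  apply HasCompactSupport.of_support_subset_isCompact (isCompact_closedBall (0 : V) 2)
  intro z hz
  by_contra h
  exact hz (hs z fun h' => h (ball_subset_closedBall h'))

/-- the derivative vanishes outside the ball -/
theorem fderiv_zero {F : V → ℂ} (hF : ContDiff ℝ ∞ F)
    (hs : ∀ z, z ∉ ball (0 : V) 2 → F z = 0) {z : V} (hz : z ∉ ball (0 : V) 2) :
    fderiv ℝ F z = 0 := by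
  have hcont : Continuous (fderiv ℝ F) := hF.continuous_fderiv (by simp)
  have hopen : ∀ y, y ∈ (closedBall (0 : V) 2)ᶜ → fderiv ℝ F y = 0 := by
    intro y hy
    have h4 : F =ᶠ[𝓝 y] fun _ => (0 : ℂ) := by
      filter_upwards [isClosed_closedBall.isOpen_compl.mem_nhds hy] with x hx
      exact hs x fun h => hx (ball_subset_closedBall h)
    rw [h4.fderiv_eq]
    simp
  have hn : 2 ≤ ‖z‖ := by simpa using hz
  have hlim : Filter.Tendsto (fun t : ℝ => (1 + t) • z) (𝓝[>] 0) (𝓝 z) := by
    have h1 : Continuous fun t : ℝ => (1 + t) • z := by fun_prop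
    have h2 := (h1.tendsto 0).mono_left (nhdsWithin_le_nhds (s := Ioi 0))
    simpa using h2
  have h5 : Filter.Tendsto (fun t : ℝ => fderiv ℝ F ((1 + t) • z)) (𝓝[>] 0)
      (𝓝 (fderiv ℝ F z)) := (hcont.tendsto z).comp hlim
  have h6 : ∀ᶠ t : ℝ in 𝓝[>] 0, fderiv ℝ F ((1 + t) • z) = 0 := by
    filter_upwards [self_mem_nhdsWithin] with t ht
    apply hopen
    have ht0 : (0 : ℝ) < t := ht
    simp only [mem_compl_iff, mem_closedBall, dist_zero_right, not_le, norm_smul,
      Real.norm_eq_abs]
    rw [abs_of_pos (by linarith)]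
    nlinarith
  exact tendsto_nhds_unique h5 ((Filter.tendsto_congr' h6).2 tendsto_const_nhds)

/-- the integral of a directional derivative -/
theorem int_fderiv {F : V → ℂ} (hF : ContDiff ℝ ∞ F)
    (hs : ∀ z, z ∉ ball (0 : V) 2 → F z = 0) (v : V) :
    ∫ z in ball (0 : V) 2, fderiv ℝ F z v = 0 := by
  rw [setIntegral_eq_integral_of_forall_compl_eq_zero]
  · have hc := compact_supp hs
    have hcf : HasCompactSupport fun z => fderiv ℝ F z v :=
      (hc.fderiv (𝕜 := ℝ)).comp_left (g := fun L : V →L[ℝ] ℂ => L v) (by simp)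
    have hcont : Continuous fun z => fderiv ℝ F z v :=
      (hF.continuous_fderiv (by simp)).clm_apply continuous_const
    have h := integral_smul_fderiv_eq_neg_fderiv_smul_of_integrable (𝕜 := ℝ)
      (μ := (volume : Measure V)) (f := fun _ : V => (1 : ℝ)) (g := F) (v := v)
      (by simp) (by simpa using hcont.integrable_of_hasCompactSupport hcf)
      (by simpa using hF.continuous.integrable_of_hasCompactSupport hc)
      (by fun_prop) (fun x _ => hF.differentiable (by simp) x)
    simpa using h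
  · intro z hz
    rw [fderiv_zero hF hs hz]
    simp

theorem integrableOn {F : V → ℂ} (hF : ContinuousOn F (ball 0 3)) :
    IntegrableOn F (ball (0 : V) 2) := by
  have h : IntegrableOn F (closedBall (0 : V) 2) :=
    ContinuousOn.integrableOn_compact (isCompact_closedBall 0 2)
      (hF.mono (closedBall_subset_ball (by norm_num)))
  exact h.mono_set ball_subset_closedBall

theorem integrableOn_real {F : V → ℝ} (hF : ContinuousOn F (ball 0 3)) :
    IntegrableOn F (ball (0 : V) 2) := by
  have h : IntegrableOn F (closedBall (0 : V) 2) :=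
    ContinuousOn.integrableOn_compact (isCompact_closedBall 0 2)
      (hF.mono (closedBall_subset_ball (by norm_num)))
  exact h.mono_set ball_subset_closedBall

theorem int_wb {F : V → ℂ} (hF : ContDiffOn ℝ ∞ F (ball 0 3))
    (hs : ∀ z, z ∉ ball (0 : V) 2 → F z = 0) (l : Fin 2) :
    ∫ z in ball (0 : V) 2, wb l F z = 0 := by
  have hF' := ext_smooth hF hs
  have hcont : ∀ v : V, Continuous fun z => fderiv ℝ F z v := fun v =>
    (hF'.continuous_fderiv (by simp)).clm_apply continuous_const
  have hi : ∀ v : V, IntegrableOn (fun z => fderiv ℝ F z v) (ball (0 : V) 2) := fun v =>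
    integrableOn (hcont v).continuousOn
  unfold wb
  rw [integral_div, integral_add (hi _) ((hi _).const_mul _), integral_const_mul,
    int_fderiv hF' hs, int_fderiv hF' hs]
  simp

theorem int_wd {F : V → ℂ} (hF : ContDiffOn ℝ ∞ F (ball 0 3))
    (hs : ∀ z, z ∉ ball (0 : V) 2 → F z = 0) (l : Fin 2) :
    ∫ z in ball (0 : V) 2, wd l F z = 0 := by
  have hF' := ext_smooth hF hs
  have hcont : ∀ v : V, Continuous fun z => fderiv ℝ F z v := fun v =>
    (hF'.continuous_fderiv (by simp)).clm_apply continuous_const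
  have hi : ∀ v : V, IntegrableOn (fun z => fderiv ℝ F z v) (ball (0 : V) 2) := fun v =>
    integrableOn (hcont v).continuousOn
  unfold wd
  rw [integral_div, integral_sub (hi _) ((hi _).const_mul _), integral_const_mul,
    int_fderiv hF' hs, int_fderiv hF' hs]
  simp

section Rules

variable {F H : V → ℂ} {z : V}

theorem wb_mul (hF : DifferentiableAt ℝ F z) (hH : DifferentiableAt ℝ H z) (l : Fin 2) :
    wb l (fun w => F w * H w) z = wb l F z * H z + F z * wb l H z := by
  have h := (hF.hasFDerivAt.mul hH.hasFDerivAt).fderiv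
  have h' : fderiv ℝ (fun w => F w * H w) z = F z • fderiv ℝ H z + H z • fderiv ℝ F z := h
  unfold wb
  rw [h']
  simp only [add_apply, smul_apply, smul_eq_mul]
  ring

theorem wd_mul (hF : DifferentiableAt ℝ F z) (hH : DifferentiableAt ℝ H z) (l : Fin 2) :
    wd l (fun w => F w * H w) z = wd l F z * H z + F z * wd l H z := by
  have h := (hF.hasFDerivAt.mul hH.hasFDerivAt).fderiv
  have h' : fderiv ℝ (fun w => F w * H w) z = F z • fderiv ℝ H z + H z • fderiv ℝ F z := h
  unfold wd
  rw [h']
  simp only [add_apply, smul_apply, smul_eq_mul]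
  ring

theorem fderiv_conj (hF : DifferentiableAt ℝ F z) (v : V) :
    fderiv ℝ (fun w => (starRingEnd ℂ) (F w)) z v = (starRingEnd ℂ) (fderiv ℝ F z v) := by
  have h := (Complex.conjCLE.toContinuousLinearMap.hasFDerivAt (x := F z)).comp z hF.hasFDerivAt
  have h' : fderiv ℝ (fun w => (starRingEnd ℂ) (F w)) z
      = (Complex.conjCLE.toContinuousLinearMap).comp (fderiv ℝ F z) := h.fderiv
  rw [h']
  simp

theorem wd_conj (hF : DifferentiableAt ℝ F z) (l : Fin 2) :
    wd l (fun w => (starRingEnd ℂ) (F w)) z = (starRingEnd ℂ) (wb l F z) := by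
  unfold wd wb
  rw [fderiv_conj hF, fderiv_conj hF]
  simp [map_div₀, sub_eq_add_neg, Complex.conj_ofNat]

theorem wb_conj (hF : DifferentiableAt ℝ F z) (l : Fin 2) :
    wb l (fun w => (starRingEnd ℂ) (F w)) z = (starRingEnd ℂ) (wd l F z) := by
  unfold wd wb
  rw [fderiv_conj hF, fderiv_conj hF]
  simp [map_div₀, sub_eq_add_neg, Complex.conj_ofNat]

theorem fderiv_ofReal {w : V → ℝ} (hw : DifferentiableAt ℝ w z) (v : V) :
    fderiv ℝ (fun x => (w x : ℂ)) z v = (fderiv ℝ w z v : ℂ) := by
  have h := (Complex.ofRealCLM.hasFDerivAt (x := w z)).comp z hw.hasFDerivAt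
  have h' : fderiv ℝ (fun x => (w x : ℂ)) z = Complex.ofRealCLM.comp (fderiv ℝ w z) := h.fderiv
  rw [h']
  simp

theorem wd_ofReal {w : V → ℝ} (hw : DifferentiableAt ℝ w z) (l : Fin 2) :
    wd l (fun x => (w x : ℂ)) z = cG (fderiv ℝ w z) l := by
  unfold wd cG
  rw [fderiv_ofReal hw, fderiv_ofReal hw]

theorem wb_ofReal {w : V → ℝ} (hw : DifferentiableAt ℝ w z) (l : Fin 2) :
    wb l (fun x => (w x : ℂ)) z = (starRingEnd ℂ) (cG (fderiv ℝ w z) l) := by
  unfold wb cG
  rw [fderiv_ofReal hw, fderiv_ofReal hw]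
  simp [map_div₀, sub_eq_add_neg, Complex.conj_ofNat]

theorem wb_neg (l : Fin 2) : wb l (fun w => - F w) z = - wb l F z := by
  have h : fderiv ℝ (fun w => - F w) z = - fderiv ℝ F z := fderiv_fun_neg
  unfold wb
  rw [h]
  simp only [neg_apply]
  ring

theorem wd_neg (l : Fin 2) : wd l (fun w => - F w) z = - wd l F z := by
  have h : fderiv ℝ (fun w => - F w) z = - fderiv ℝ F z := fderiv_fun_neg
  unfold wd
  rw [h]
  simp only [neg_apply]
  ring

/-- commutation of `∂_l` and `∂_j` -/
theorem wd_wd (hF : ContDiffAt ℝ ∞ F z) (l j : Fin 2) : wd l (wd j F) z = wd j (wd l F) z := by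
  have hs : IsSymmSndFDerivAt ℝ F z := hF.isSymmSndFDerivAt (by
    simp only [minSmoothness_of_isRCLikeNormedField]
    exact WithTop.coe_le_coe.2 (le_top : (2 : ℕ∞) ≤ ⊤))
  have hd : DifferentiableAt ℝ (fderiv ℝ F) z :=
    (hF.fderiv_right (m := ∞) (by simp)).differentiableAt (by simp)
  have h1 : ∀ v u : V, fderiv ℝ (fun w => fderiv ℝ F w v) z u = fderiv ℝ (fderiv ℝ F) z u v := by
    intro v u
    have h := (hd.hasFDerivAt.clm_apply (hasFDerivAt_const v z)).fderiv
    rw [h]
    simp
  have hdv : ∀ v : V, DifferentiableAt ℝ (fun w => fderiv ℝ F w v) z := fun v =>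
    hd.clm_apply (differentiableAt_const v)
  have h2 : ∀ (j : Fin 2) (u : V), fderiv ℝ (wd j F) z u
      = (fderiv ℝ (fderiv ℝ F) z u (bb j)
        - Complex.I * fderiv ℝ (fderiv ℝ F) z u (Complex.I • bb j)) / 2 := by
    intro j u
    have h := (((hdv (bb j)).hasFDerivAt.sub
      ((hdv (Complex.I • bb j)).hasFDerivAt.const_mul Complex.I)).mul_const ((2 : ℂ)⁻¹)).fderiv
    have h' : fderiv ℝ (wd j F) z = (2 : ℂ)⁻¹ • (fderiv ℝ (fun w => fderiv ℝ F w (bb j)) z
        - Complex.I • fderiv ℝ (fun w => fderiv ℝ F w (Complex.I • bb j)) z) := by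
      rw [← h]
      congr 1
    rw [h']
    simp only [smul_apply, sub_apply, h1, smul_eq_mul]
    ring
  have e : ∀ l j : Fin 2, wd l (wd j F) z = (fderiv ℝ (wd j F) z (bb l)
      - Complex.I * fderiv ℝ (wd j F) z (Complex.I • bb l)) / 2 := fun _ _ => rfl
  rw [e, e, h2, h2, h2, h2]
  have s1 := hs (bb l) (bb j)
  have s2 := hs (Complex.I • bb l) (bb j)
  have s3 := hs (bb l) (Complex.I • bb j)
  have s4 := hs (Complex.I • bb l) (Complex.I • bb j)
  rw [s1, s2, s3, s4]
  ring

end Rules

end HdGreen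

open HdGreen

/-! ### Task HdGreen -/

/-- Green formula -/
theorem green {G : V → Matrix (Fin 2) (Fin 2) ℂ} (hG : IsK G) {f w : V → ℝ}
    (hf : ContDiffOn ℝ ∞ f (ball 0 3)) (hw : ContDiffOn ℝ ∞ w (ball 0 3))
    (hs : ∀ z, w z ≠ 0 → z ∈ ball (0 : V) 2) :
    ∫ z in ball (0 : V) 2, en (G z).adjugate (fderiv ℝ f z) (fderiv ℝ w z)
      = - ∫ z in ball (0 : V) 2, w z * lp (G z).adjugate (D2 f z) := by
  have hw0 : ∀ z, z ∉ ball (0 : V) 2 → w z = 0 := fun z hz => by
    by_contra h
    exact hz (hs z h)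
  have hwc : ContDiffOn ℝ ∞ (fun z => (w z : ℂ)) (ball 0 3) :=
    Complex.ofRealCLM.contDiff.comp_contDiffOn hw
  set Fk : Fin 2 → Fin 2 → V → ℂ := fun k j z =>
    (w z : ℂ) * ((G z).adjugate k j * cG (fderiv ℝ f z) j) with hFk
  have hsm : ∀ k j, ContDiffOn ℝ ∞ (Fk k j) (ball 0 3) := fun k j =>
    hwc.mul ((adj_smooth hG k j).mul (cG_smooth hf j))
  have hz : ∀ k j z, z ∉ ball (0 : V) 2 → Fk k j z = 0 := by
    intro k j z hz
    simp [hFk, hw0 z hz]
  have hint : ∀ k j, ∫ z in ball (0 : V) 2, wb k (Fk k j) z = 0 := fun k j =>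
    int_wb (hsm k j) (hz k j) k
  have hwbc : ∀ k j, ContinuousOn (wb k (Fk k j)) (ball 0 3) := by
    intro k j
    have hc := ext_smooth (hsm k j) (hz k j)
    have h1 : ∀ v : V, Continuous fun z => fderiv ℝ (Fk k j) z v := fun v =>
      (hc.continuous_fderiv (by simp)).clm_apply continuous_const
    have h2 : Continuous (wb k (Fk k j)) :=
      ((h1 _).add (continuous_const.mul (h1 _))).div_const _
    exact h2.continuousOn
  -- the pointwise identity
  have hpt : ∀ z ∈ ball (0 : V) 2, (∑ k, ∑ j, wb k (Fk k j) z).re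
      = en (G z).adjugate (fderiv ℝ f z) (fderiv ℝ w z)
        + w z * lp (G z).adjugate (D2 f z) := by
    intro z hz2
    have hz3 : z ∈ ball (0 : V) 3 := ball_subset_ball (by norm_num) hz2
    have hn : ball (0 : V) 3 ∈ 𝓝 z := isOpen_ball.mem_nhds hz3
    have hwd : DifferentiableAt ℝ w z := (hw.contDiffAt hn).differentiableAt (by simp)
    have hwcd : DifferentiableAt ℝ (fun z => (w z : ℂ)) z :=
      (hwc.contDiffAt hn).differentiableAt (by simp)
    have hCd : ∀ k j, DifferentiableAt ℝ (fun z => (G z).adjugate k j) z := fun k j =>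
      ((adj_smooth hG k j).contDiffAt hn).differentiableAt (by simp)
    have hPd : ∀ j, DifferentiableAt ℝ (fun z => cG (fderiv ℝ f z) j) z := fun j =>
      ((cG_smooth hf j).contDiffAt hn).differentiableAt (by simp)
    have hGd : ∀ k j, DifferentiableAt ℝ (fun z => G z k j) z := fun k j =>
      ((hG.s k j).contDiffAt hn).differentiableAt (by simp)
    have hterm : ∀ k j, wb k (Fk k j) z
        = (starRingEnd ℂ) (cG (fderiv ℝ w z) k) * ((G z).adjugate k j * cG (fderiv ℝ f z) j)
          + (w z : ℂ) * (wb k (fun z => (G z).adjugate k j) z * cG (fderiv ℝ f z) j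
            + (G z).adjugate k j * MH f z j k) := by
      intro k j
      have h1 := wb_mul (F := fun z => (w z : ℂ))
        (H := fun z => (G z).adjugate k j * cG (fderiv ℝ f z) j) (z := z) hwcd
        ((hCd k j).mul (hPd j)) k
      have h2 := wb_mul (hCd k j) (hPd j) k
      have h3 := wb_ofReal hwd k
      have h4 := wb_cG hf hz3 j k
      simp only [hFk]
      rw [h1, h2, h3, h4]
    -- divergence free coefficients
    have hdiv : ∀ j, ∑ k, wb k (fun z => (G z).adjugate k j) z = 0 := by
      have hGh : ∀ y ∈ ball (0 : V) 3, ∀ a b, G y a b = (starRingEnd ℂ) (G y b a) := by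
        intro y hy a b
        have := (hG.herm y hy).apply a b
        simpa using this.symm
      have hwbG : ∀ k a b, wb k (fun z => G z a b) z
          = (starRingEnd ℂ) (wd k (fun z => G z b a) z) := by
        intro k a b
        rw [← wb_conj (hGd b a) k]
        have he : (fun z => G z a b) =ᶠ[𝓝 z] fun z => (starRingEnd ℂ) (G z b a) := by
          filter_upwards [hn] with y hy
          exact hGh y hy a b
        unfold wb
        rw [he.fderiv_eq]
      intro j
      rw [Fin.sum_univ_two]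
      fin_cases j
      · have e0 : (fun z => (G z).adjugate 0 0) = fun z => G z 1 1 := by
          funext y; simp [Matrix.adjugate_fin_two]
        have e1 : (fun z => (G z).adjugate 1 0) = fun z => - G z 1 0 := by
          funext y; simp [Matrix.adjugate_fin_two]
        simp only [Fin.zero_eta]
        rw [e0, e1, wb_neg, hwbG, hwbG, hG.kah z hz3 1 1 0]
        ring
      · have e0 : (fun z => (G z).adjugate 0 1) = fun z => - G z 0 1 := by
          funext y; simp [Matrix.adjugate_fin_two]
        have e1 : (fun z => (G z).adjugate 1 1) = fun z => G z 0 0 := by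
          funext y; simp [Matrix.adjugate_fin_two]
        simp only [Fin.mk_one]
        rw [e0, e1, wb_neg, hwbG, hwbG, hG.kah z hz3 1 0 0]
        ring
    have hd0 := hdiv 0
    have hd1 := hdiv 1
    have hsum : ∑ k, ∑ j, wb k (Fk k j) z
        = (∑ j, ∑ k, (G z).adjugate k j * cG (fderiv ℝ f z) j
            * (starRingEnd ℂ) (cG (fderiv ℝ w z) k))
          + (w z : ℂ) * ∑ j, ∑ k, (G z).adjugate k j * cH (D2 f z) j k := by
      simp only [hterm, Fin.sum_univ_two] at hd0 hd1 ⊢
      have hMH : ∀ j k, MH f z j k = cH (D2 f z) j k := fun _ _ => rfl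
      simp only [hMH]
      linear_combination (w z : ℂ) * cG (fderiv ℝ f z) 0 * hd0
        + (w z : ℂ) * cG (fderiv ℝ f z) 1 * hd1
    rw [hsum, Complex.add_re, Complex.re_ofReal_mul]
    rfl
  have hwbi : ∀ k j, IntegrableOn (wb k (Fk k j)) (ball (0 : V) 2) := fun k j =>
    integrableOn (hwbc k j)
  have hsum0 : ∫ z in ball (0 : V) 2, (∑ k, ∑ j, wb k (Fk k j) z) = 0 := by
    rw [integral_finsetSum]
    · apply Finset.sum_eq_zero
      intro k _
      rw [integral_finsetSum]
      · exact Finset.sum_eq_zero fun j _ => hint k j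
      · exact fun j _ => hwbi k j
    · exact fun k _ => integrable_finsetSum _ fun j _ => hwbi k j
  have hre : ∫ z in ball (0 : V) 2, (∑ k, ∑ j, wb k (Fk k j) z).re = 0 := by
    have hi : IntegrableOn (fun z => ∑ k, ∑ j, wb k (Fk k j) z) (ball (0 : V) 2) :=
      integrable_finsetSum _ fun k _ => integrable_finsetSum _ fun j _ => hwbi k j
    have h := integral_re (𝕜 := ℂ) hi
    have h2 : ∫ z in ball (0 : V) 2, (∑ k, ∑ j, wb k (Fk k j) z).re
        = (∫ z in ball (0 : V) 2, (∑ k, ∑ j, wb k (Fk k j) z)).re := h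
    rw [h2, hsum0]
    simp
  rw [setIntegral_congr_fun measurableSet_ball hpt, integral_add] at hre
  · linarith
  · exact integrableOn_real (en_smooth hG le_rfl hf hw).continuousOn
  · exact integrableOn_real (hw.continuousOn.mul (lp_smooth hG le_rfl hf).continuousOn)

/-! ### Task HdStokes -/

/-- `2 ∫ χ det(∂∂bar f) = - ∫ adj(∂∂bar f)(∂χ, ∂bar f)` -/
theorem stokes_det {χ f : V → ℝ}
    (hχ : ContDiffOn ℝ ∞ χ (ball 0 3)) (hf : ContDiffOn ℝ ∞ f (ball 0 3))
    (hs : ∀ z, χ z ≠ 0 → z ∈ ball (0 : V) 2) :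
    2 * ∫ z in ball (0 : V) 2, χ z * ((MH f z).det).re
      = - ∫ z in ball (0 : V) 2, rr (MH f z).adjugate (fderiv ℝ χ z) (fderiv ℝ f z) := by
  have hw0 : ∀ z, z ∉ ball (0 : V) 2 → χ z = 0 := fun z hz => by
    by_contra h
    exact hz (hs z h)
  have hwc : ContDiffOn ℝ ∞ (fun z => (χ z : ℂ)) (ball 0 3) :=
    Complex.ofRealCLM.contDiff.comp_contDiffOn hχ
  -- the entries of the adjugate
  have hM : ∀ j k, ContDiffOn ℝ ∞ (fun z => MH f z j k) (ball 0 3) := fun j k =>
    MH_smooth hf j k
  have e00 : (fun z => (MH f z).adjugate 0 0) = fun z => MH f z 1 1 := by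
    funext y; simp [Matrix.adjugate_fin_two]
  have e01 : (fun z => (MH f z).adjugate 0 1) = fun z => - MH f z 0 1 := by
    funext y; simp [Matrix.adjugate_fin_two]
  have e10 : (fun z => (MH f z).adjugate 1 0) = fun z => - MH f z 1 0 := by
    funext y; simp [Matrix.adjugate_fin_two]
  have e11 : (fun z => (MH f z).adjugate 1 1) = fun z => MH f z 0 0 := by
    funext y; simp [Matrix.adjugate_fin_two]
  have hN : ∀ k j, ContDiffOn ℝ ∞ (fun z => (MH f z).adjugate k j) (ball 0 3) := by
    intro k j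
    fin_cases k <;> fin_cases j
    · simp only [Fin.zero_eta]; rw [e00]; exact hM 1 1
    · simp only [Fin.zero_eta, Fin.mk_one]; rw [e01]; exact (hM 0 1).neg
    · simp only [Fin.zero_eta, Fin.mk_one]; rw [e10]; exact (hM 1 0).neg
    · simp only [Fin.mk_one]; rw [e11]; exact hM 0 0
  have hQ : ∀ k, ContDiffOn ℝ ∞ (fun z => (starRingEnd ℂ) (cG (fderiv ℝ f z) k)) (ball 0 3) :=
    fun k => Complex.conjCLE.toContinuousLinearMap.contDiff.comp_contDiffOn (cG_smooth hf k)
  set Fk : Fin 2 → Fin 2 → V → ℂ := fun k j z =>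
    (χ z : ℂ) * ((MH f z).adjugate k j * (starRingEnd ℂ) (cG (fderiv ℝ f z) k)) with hFk
  have hsm : ∀ k j, ContDiffOn ℝ ∞ (Fk k j) (ball 0 3) := fun k j =>
    hwc.mul ((hN k j).mul (hQ k))
  have hz : ∀ k j z, z ∉ ball (0 : V) 2 → Fk k j z = 0 := by
    intro k j z hz
    simp [hFk, hw0 z hz]
  have hint : ∀ k j, ∫ z in ball (0 : V) 2, wd j (Fk k j) z = 0 := fun k j =>
    int_wd (hsm k j) (hz k j) j
  have hwbc : ∀ k j, ContinuousOn (wd j (Fk k j)) (ball 0 3) := by
    intro k j
    have hc := ext_smooth (hsm k j) (hz k j)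
    have h1 : ∀ v : V, Continuous fun z => fderiv ℝ (Fk k j) z v := fun v =>
      (hc.continuous_fderiv (by simp)).clm_apply continuous_const
    have h2 : Continuous (wd j (Fk k j)) :=
      ((h1 _).sub (continuous_const.mul (h1 _))).div_const _
    exact h2.continuousOn
  have hherm : ∀ y ∈ ball (0 : V) 3, ∀ j k, (starRingEnd ℂ) (MH f y k j) = MH f y j k := by
    intro y hy j k
    have h := (cH_herm (D2 f y) fun u v => D2_symm hf hy u v).apply j k
    simpa [MH] using h
  -- the mixed derivatives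
  have hwdQ : ∀ y ∈ ball (0 : V) 3, ∀ j k,
      wd j (fun z => (starRingEnd ℂ) (cG (fderiv ℝ f z) k)) y = MH f y j k := by
    intro y hy j k
    have hn : ball (0 : V) 3 ∈ 𝓝 y := isOpen_ball.mem_nhds hy
    have hPd : DifferentiableAt ℝ (fun z => cG (fderiv ℝ f z) k) y :=
      ((cG_smooth hf k).contDiffAt hn).differentiableAt (by simp)
    rw [wd_conj hPd, wb_cG hf hy k j, hherm y hy]
  -- the pointwise identity
  have hpt : ∀ z ∈ ball (0 : V) 2, (∑ k, ∑ j, wd j (Fk k j) z).re
      = rr (MH f z).adjugate (fderiv ℝ χ z) (fderiv ℝ f z)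
        + 2 * (χ z * ((MH f z).det).re) := by
    intro z hz2
    have hz3 : z ∈ ball (0 : V) 3 := ball_subset_ball (by norm_num) hz2
    have hn : ball (0 : V) 3 ∈ 𝓝 z := isOpen_ball.mem_nhds hz3
    have hwd : DifferentiableAt ℝ χ z := (hχ.contDiffAt hn).differentiableAt (by simp)
    have hwcd : DifferentiableAt ℝ (fun z => (χ z : ℂ)) z :=
      (hwc.contDiffAt hn).differentiableAt (by simp)
    have hCd : ∀ k j, DifferentiableAt ℝ (fun z => (MH f z).adjugate k j) z := fun k j =>
      ((hN k j).contDiffAt hn).differentiableAt (by simp)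
    have hQd : ∀ k, DifferentiableAt ℝ (fun z => (starRingEnd ℂ) (cG (fderiv ℝ f z) k)) z :=
      fun k => ((hQ k).contDiffAt hn).differentiableAt (by simp)
    have hterm : ∀ k j, wd j (Fk k j) z
        = cG (fderiv ℝ χ z) j * ((MH f z).adjugate k j * (starRingEnd ℂ) (cG (fderiv ℝ f z) k))
          + (χ z : ℂ) * (wd j (fun z => (MH f z).adjugate k j) z
              * (starRingEnd ℂ) (cG (fderiv ℝ f z) k)
            + (MH f z).adjugate k j * MH f z j k) := by
      intro k j
      have h1 := wd_mul (F := fun z => (χ z : ℂ))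
        (H := fun z => (MH f z).adjugate k j * (starRingEnd ℂ) (cG (fderiv ℝ f z) k)) (z := z)
        hwcd ((hCd k j).mul (hQd k)) j
      have h2 := wd_mul (hCd k j) (hQd k) j
      have h3 := wd_ofReal hwd j
      have h4 := hwdQ z hz3 j k
      simp only [hFk]
      rw [h1, h2, h3, h4]
    have hcomm : ∀ l j k, wd l (fun z => MH f z j k) z = wd j (fun z => MH f z l k) z := by
      intro l j k
      have he : ∀ j, (fun z => MH f z j k) =ᶠ[𝓝 z]
          wd j (fun z => (starRingEnd ℂ) (cG (fderiv ℝ f z) k)) := by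
        intro j
        filter_upwards [hn] with y hy
        exact (hwdQ y hy j k).symm
      have h1 := wd_wd ((hQ k).contDiffAt hn) l j
      have h2 : ∀ l j, wd l (fun z => MH f z j k) z
          = wd l (wd j (fun z => (starRingEnd ℂ) (cG (fderiv ℝ f z) k))) z := by
        intro l j
        simp only [wd]
        rw [(he j).fderiv_eq]
      rw [h2, h2, h1]
    have hdiv : ∀ k, ∑ j, wd j (fun z => (MH f z).adjugate k j) z = 0 := by
      intro k
      rw [Fin.sum_univ_two]
      fin_cases k
      · simp only [Fin.zero_eta]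
        rw [e00, e01, wd_neg, hcomm 0 1 1]
        ring
      · simp only [Fin.mk_one]
        rw [e10, e11, wd_neg, hcomm 0 1 0]
        ring
    have hd0 := hdiv 0
    have hd1 := hdiv 1
    have hdet : (MH f z).adjugate 0 0 * MH f z 0 0 + (MH f z).adjugate 0 1 * MH f z 1 0
        + ((MH f z).adjugate 1 0 * MH f z 0 1 + (MH f z).adjugate 1 1 * MH f z 1 1)
        = 2 * (MH f z).det := by
      simp only [Matrix.adjugate_fin_two, Matrix.det_fin_two, Matrix.of_apply,
        Matrix.cons_val', Matrix.cons_val_zero, Matrix.cons_val_one, Matrix.cons_val_fin_one]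
      ring
    have hsum : ∑ k, ∑ j, wd j (Fk k j) z
        = (∑ j, ∑ k, (MH f z).adjugate k j * cG (fderiv ℝ χ z) j
            * (starRingEnd ℂ) (cG (fderiv ℝ f z) k))
          + (χ z : ℂ) * (2 * (MH f z).det) := by
      rw [← hdet]
      simp only [hterm, Fin.sum_univ_two] at hd0 hd1 ⊢
      linear_combination (χ z : ℂ) * (starRingEnd ℂ) (cG (fderiv ℝ f z) 0) * hd0
        + (χ z : ℂ) * (starRingEnd ℂ) (cG (fderiv ℝ f z) 1) * hd1
    rw [hsum, Complex.add_re, Complex.re_ofReal_mul]
    have h2 : ((2 : ℂ) * (MH f z).det).re = 2 * ((MH f z).det).re := by simp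
    rw [h2]
    unfold rr
    ring
  have hwbi : ∀ k j, IntegrableOn (wd j (Fk k j)) (ball (0 : V) 2) := fun k j =>
    integrableOn (hwbc k j)
  have hsum0 : ∫ z in ball (0 : V) 2, (∑ k, ∑ j, wd j (Fk k j) z) = 0 := by
    rw [integral_finsetSum]
    · apply Finset.sum_eq_zero
      intro k _
      rw [integral_finsetSum]
      · exact Finset.sum_eq_zero fun j _ => hint k j
      · exact fun j _ => hwbi k j
    · exact fun k _ => integrable_finsetSum _ fun j _ => hwbi k j
  have hre : ∫ z in ball (0 : V) 2, (∑ k, ∑ j, wd j (Fk k j) z).re = 0 := by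
    have hi : IntegrableOn (fun z => ∑ k, ∑ j, wd j (Fk k j) z) (ball (0 : V) 2) :=
      integrable_finsetSum _ fun k _ => integrable_finsetSum _ fun j _ => hwbi k j
    have h := integral_re (𝕜 := ℂ) hi
    have h2 : ∫ z in ball (0 : V) 2, (∑ k, ∑ j, wd j (Fk k j) z).re
        = (∫ z in ball (0 : V) 2, (∑ k, ∑ j, wd j (Fk k j) z)).re := h
    rw [h2, hsum0]
    simp
  have hcχ : ContinuousOn (fun z => fderiv ℝ χ z) (ball 0 3) := (fderiv_smooth hχ).continuousOn
  have hrrc : ContinuousOn (fun z => rr (MH f z).adjugate (fderiv ℝ χ z) (fderiv ℝ f z))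
      (ball 0 3) := by
    unfold rr
    apply Complex.continuous_re.comp_continuousOn
    refine continuousOn_finsetSum _ fun j _ => continuousOn_finsetSum _ fun k _ => ?_
    exact ((hN k j).continuousOn.mul (cG_smooth hχ j).continuousOn).mul (hQ k).continuousOn
  have hdetc : ContinuousOn (fun z => χ z * ((MH f z).det).re) (ball 0 3) := by
    apply hχ.continuousOn.mul
    apply Complex.continuous_re.comp_continuousOn
    simp only [Matrix.det_fin_two]
    exact ((hM 0 0).continuousOn.mul (hM 1 1).continuousOn).sub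
      ((hM 0 1).continuousOn.mul (hM 1 0).continuousOn)
  rw [setIntegral_congr_fun measurableSet_ball hpt, integral_add, integral_const_mul] at hre
  · linarith
  · exact integrableOn_real hrrc
  · exact (integrableOn_real hdetc).const_mul 2

end Pool.Agent.K708.Hd
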