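import Pool.Agent.Lib.K708.HdMoll
import Pool.Agent.Lib.K708.HdGreen

/-! # K708, Section A: the Friedrichs commutator -/

set_option autoImplicit false

open scoped ContDiff Topology
open Set Metric MeasureTheory

noncomputable section

namespace Pool.Agent.K708.Hd

/-- the commutator of mollification and of the Laplacian -/
def comm (G : V → Matrix (Fin 2) (Fin 2) ℂ) (ρ : V → ℝ) (ε : ℝ) (f : V → ℝ) (x : V) : ℝ :=
  lp (G x).adjugate (D2 (mo ρ ε f) x) - mo ρ ε (fun y => lp (G y).adjugate (D2 f y)) x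

/-- the test function `z ↦ ε⁻⁴ ρ ((x - z) / ε)` -/
def tf (ρ : V → ℝ) (ε : ℝ) (x z : V) : ℝ := (ε ^ 4)⁻¹ * ρ (ε⁻¹ • (x - z))

/-! ### Task HdFried1 -/

namespace HdFried1

lemma finrank_V : Module.finrank ℝ V = 4 := by
  rw [Module.finrank_pi_fintype]
  simp [Complex.finrank_real_complex]

lemma mo_eq (ρ : V → ℝ) {ε : ℝ} (h0 : 0 < ε) (F : V → ℝ) (x : V) :
    mo ρ ε F x = ∫ z, tf ρ ε x z * F z := by
  have h1 : mo ρ ε F x = ∫ y, (fun y => ρ (ε⁻¹ • y) * F (x - y)) (ε • y) := by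
    unfold mo
    congr 1
    funext y
    simp only [smul_eq_mul]
    rw [smul_smul, inv_mul_cancel₀ h0.ne', one_smul]
  have h2 : ∫ z, (fun y => ρ (ε⁻¹ • y) * F (x - y)) (x - z)
      = ∫ y, (fun y => ρ (ε⁻¹ • y) * F (x - y)) y :=
    integral_sub_left_eq_self (fun y => ρ (ε⁻¹ • y) * F (x - y)) volume x
  rw [h1, Measure.integral_comp_smul volume (fun y => ρ (ε⁻¹ • y) * F (x - y)) ε, finrank_V, ← h2, smul_eq_mul, ← integral_const_mul,
    abs_of_pos (by positivity)]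
  congr 1
  funext z
  simp only [tf, sub_sub_cancel]
  ring

lemma tf_smooth' {ρ : V → ℝ} (hρ : IsM ρ) (ε : ℝ) (x : V) : ContDiff ℝ ∞ (tf ρ ε x) := by
  unfold tf
  refine contDiff_const.mul (hρ.s.comp ?_)
  exact (contDiff_const.sub contDiff_id).const_smul _

lemma norm_of_ne {ρ : V → ℝ} (hρ : IsM ρ) {ε : ℝ} (h0 : 0 < ε) {x z : V}
    (hz : ρ (ε⁻¹ • (x - z)) ≠ 0) : ‖z - x‖ < ε := by
  by_contra hcon
  push Not at hcon
  apply hz
  apply hρ.supp
  rw [norm_smul, norm_inv, Real.norm_of_nonneg h0.le, norm_sub_rev]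
  rw [inv_mul_eq_div, le_div_iff₀ h0, one_mul]
  exact hcon

lemma tf_supp' {ρ : V → ℝ} (hρ : IsM ρ) {ε : ℝ} (h0 : 0 < ε) (h1 : ε < 1) {x : V}
    (hx : x ∈ ball (0 : V) 1) {z : V} (hz : tf ρ ε x z ≠ 0) : z ∈ ball (0 : V) 2 := by
  have h2 : ‖z - x‖ < ε := norm_of_ne hρ h0 (fun h => hz (by rw [tf, h, mul_zero]))
  rw [mem_ball_zero_iff] at hx ⊢
  have h3 : ‖z‖ ≤ ‖z - x‖ + ‖x‖ := by
    have := norm_add_le (z - x) x
    rwa [sub_add_cancel] at this
  linarith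

lemma mo_lp_eq' {G : V → Matrix (Fin 2) (Fin 2) ℂ} (hG : IsK G) {ρ : V → ℝ} (hρ : IsM ρ)
    {ε : ℝ} (h0 : 0 < ε) (h1 : ε < 1) {f : V → ℝ} (hf : ContDiffOn ℝ ∞ f (ball 0 3)) {x : V}
    (hx : x ∈ ball (0 : V) 1) :
    mo ρ ε (fun y => lp (G y).adjugate (D2 f y)) x
      = - ∫ z in ball (0 : V) 2, en (G z).adjugate (fderiv ℝ f z) (fderiv ℝ (tf ρ ε x) z) := by
  rw [mo_eq ρ h0, green hG hf (tf_smooth' hρ ε x).contDiffOn
    (fun z hz => tf_supp' hρ h0 h1 hx hz), neg_neg]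
  symm
  refine setIntegral_eq_integral_of_forall_compl_eq_zero fun z hz => ?_
  by_contra hne
  exact hz (tf_supp' hρ h0 h1 hx (left_ne_zero_of_mul hne))

lemma isK_const {G : V → Matrix (Fin 2) (Fin 2) ℂ} (hG : IsK G) {x : V}
    (hx : x ∈ ball (0 : V) 3) : IsK (fun _ => G x) := by
  refine ⟨fun j k => contDiffOn_const, fun _ _ => hG.herm x hx, fun _ _ => hG.pos x hx,
    fun z _ j k l => ?_⟩
  simp [wd]

lemma integrable_mo {W : Type} [NormedAddCommGroup W] [NormedSpace ℝ W]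
    {ρ : V → ℝ} (hρ : IsM ρ) {ε : ℝ} (h0 : 0 < ε) (h1 : ε < 1) {F : V → W}
    (hF : ContinuousOn F (ball 0 3)) {x : V} (hx : x ∈ ball (0 : V) 2) :
    Integrable fun y => ρ y • F (x - ε • y) := by
  have hc : ContinuousOn (fun y => ρ y • F (x - ε • y)) (closedBall (0 : V) 1) := by
    refine (hρ.s.continuous.continuousOn).smul (hF.comp ?_ ?_)
    · fun_prop
    · intro y hy
      rw [mem_ball_zero_iff] at hx ⊢
      rw [mem_closedBall_zero_iff] at hy
      have h2 := norm_sub_le x (ε • y)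
      have h3 : ‖ε • y‖ ≤ 1 := by
        rw [norm_smul, Real.norm_of_nonneg h0.le]
        nlinarith [norm_nonneg y]
      linarith
  have h2 := hc.integrableOn_compact (μ := volume) (isCompact_closedBall (0 : V) 1)
  refine h2.integrable_of_forall_notMem_eq_zero fun y hy => ?_
  rw [mem_closedBall_zero_iff, not_le] at hy
  rw [hρ.supp y hy.le, zero_smul]

set_option maxSynthPendingDepth 3 in
lemma lp_mo {G : V → Matrix (Fin 2) (Fin 2) ℂ} (hG : IsK G) {ρ : V → ℝ} (hρ : IsM ρ)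
    {ε : ℝ} (h0 : 0 < ε) (h1 : ε < 1) {f : V → ℝ} (hf : ContDiffOn ℝ ∞ f (ball 0 3)) {x : V}
    (hx : x ∈ ball (0 : V) 1) :
    lp (G x).adjugate (D2 (mo ρ ε f) x) = mo ρ ε (fun y => lp (G x).adjugate (D2 f y)) x := by
  have hx2 : x ∈ ball (0 : V) 2 := ball_subset_ball (by norm_num) hx
  obtain ⟨c, _, Kc, hKc, hb⟩ := bounds hG
  let ℓ : (V →L[ℝ] V →L[ℝ] ℝ) →ₗ[ℝ] ℝ :=
    { toFun := fun B => lp (G x).adjugate B
      map_add' := fun B B' => lp_add B B'
      map_smul' := fun r B => lp_smul r B }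
  have hℓ : ∀ B, ‖ℓ B‖ ≤ Kc * ‖B‖ := fun B => (hb x (ball_subset_closedBall hx2)).2.2.2.1 B
  let Λ : (V →L[ℝ] V →L[ℝ] ℝ) →L[ℝ] ℝ :=
    ⟨ℓ, AddMonoidHomClass.continuous_of_bound ℓ Kc hℓ⟩
  have hΛ : ∀ B, Λ B = lp (G x).adjugate B := fun B => rfl
  rw [D2_mo hρ h0 h1 hf hx2, ← hΛ]
  unfold mo
  refine (Λ.integral_comp_comm (integrable_mo hρ h0 h1 (D2_smooth hf).continuousOn hx2)).symm.trans
    ?_
  congr 1
  funext y
  rw [Λ.map_smul, hΛ]

lemma norm_bb (j : Fin 2) : ‖bb j‖ = 1 := by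
  rw [bb, Pi.norm_single, norm_one]

lemma norm_cG_le (α : V →L[ℝ] ℝ) (j : Fin 2) : ‖cG α j‖ ≤ ‖α‖ := by
  have h1 : ‖((α (bb j) : ℝ) : ℂ)‖ ≤ ‖α‖ := by
    rw [Complex.norm_real]
    exact (α.le_opNorm _).trans (by rw [norm_bb, mul_one])
  have h2 : ‖((α (Complex.I • bb j) : ℝ) : ℂ)‖ ≤ ‖α‖ := by
    rw [Complex.norm_real]
    refine (α.le_opNorm _).trans ?_
    rw [norm_smul, Complex.norm_I, norm_bb, mul_one, mul_one]
  unfold cG
  rw [norm_div, Complex.norm_ofNat, div_le_iff₀ (by norm_num)]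
  refine (norm_sub_le _ _).trans ?_
  rw [norm_mul, Complex.norm_I, one_mul]
  linarith

lemma en_sub_le (C C' : Matrix (Fin 2) (Fin 2) ℂ) {a : ℝ} (h : ∀ j k, ‖C j k - C' j k‖ ≤ a)
    (α β : V →L[ℝ] ℝ) : |en C α β - en C' α β| ≤ 4 * a * ‖α‖ * ‖β‖ := by
  have h1 : en C α β - en C' α β
      = (∑ j, ∑ k, (C k j - C' k j) * cG α j * (starRingEnd ℂ) (cG β k)).re := by
    unfold en
    rw [← Complex.sub_re, ← Finset.sum_sub_distrib]
    congr 1
    refine Finset.sum_congr rfl fun j _ => ?_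
    rw [← Finset.sum_sub_distrib]
    refine Finset.sum_congr rfl fun k _ => ?_
    ring
  have h2 : ∀ j k, ‖(C k j - C' k j) * cG α j * (starRingEnd ℂ) (cG β k)‖ ≤ a * ‖α‖ * ‖β‖ := by
    intro j k
    rw [norm_mul, norm_mul, RCLike.norm_conj]
    have ha : 0 ≤ a := (norm_nonneg _).trans (h k j)
    exact mul_le_mul (mul_le_mul (h k j) (norm_cG_le α j) (norm_nonneg _) ha)
      (norm_cG_le β k) (norm_nonneg _) (by positivity)
  rw [h1]
  refine (Complex.abs_re_le_norm _).trans ?_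
  refine (norm_sum_le _ _).trans ?_
  have h3 : ∀ j ∈ (Finset.univ : Finset (Fin 2)),
      ‖∑ k, (C k j - C' k j) * cG α j * (starRingEnd ℂ) (cG β k)‖ ≤ 2 * (a * ‖α‖ * ‖β‖) := by
    intro j _
    refine (norm_sum_le _ _).trans ?_
    refine (Finset.sum_le_sum fun k _ => h2 j k).trans ?_
    simp
  refine (Finset.sum_le_sum h3).trans ?_
  simp only [Finset.sum_const, Finset.card_univ, Fintype.card_fin, nsmul_eq_mul]
  push_cast
  linarith

/-- Lipschitz bound for the coefficients -/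
lemma exists_lip {G : V → Matrix (Fin 2) (Fin 2) ℂ} (hG : IsK G) :
    ∃ Lc : ℝ, 0 ≤ Lc ∧ ∀ x ∈ closedBall (0 : V) 2, ∀ z ∈ closedBall (0 : V) 2, ∀ j k,
      ‖(G x).adjugate j k - (G z).adjugate j k‖ ≤ Lc * ‖x - z‖ := by
  have h1 : ∀ j k : Fin 2, ∃ Lc : ℝ, 0 ≤ Lc ∧ ∀ x ∈ closedBall (0 : V) 2,
      ∀ z ∈ closedBall (0 : V) 2, ‖(G x).adjugate j k - (G z).adjugate j k‖ ≤ Lc * ‖x - z‖ := by
    intro j k
    have hs := adj_smooth hG j k
    have hsub : closedBall (0 : V) 2 ⊆ ball (0 : V) 3 := closedBall_subset_ball (by norm_num)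
    have hd : ContinuousOn (fderiv ℝ fun z => (G z).adjugate j k) (ball 0 3) :=
      hs.continuousOn_fderiv_of_isOpen isOpen_ball (by simp)
    obtain ⟨Lc, hLc⟩ := (isCompact_closedBall (0 : V) 2).exists_bound_of_continuousOn (hd.mono hsub)
    refine ⟨max Lc 0, le_max_right _ _, fun x hx z hz => ?_⟩
    have h2 := Convex.norm_image_sub_le_of_norm_fderiv_le (𝕜 := ℝ)
      (f := fun z => (G z).adjugate j k) (s := closedBall (0 : V) 2) (C := max Lc 0)
      (fun y hy => (hs.contDiffAt (isOpen_ball.mem_nhds (hsub hy))).differentiableAt (by simp))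
      (fun y hy => (hLc y hy).trans (le_max_left _ _)) (convex_closedBall _ _) hz hx
    exact h2
  choose Lc hL0 hL using h1
  refine ⟨∑ j, ∑ k, Lc j k, Finset.sum_nonneg fun j _ => Finset.sum_nonneg fun k _ => hL0 j k,
    fun x hx z hz j k => (hL j k x hx z hz).trans ?_⟩
  refine mul_le_mul_of_nonneg_right ?_ (norm_nonneg _)
  refine (Finset.single_le_sum (fun k _ => hL0 j k) (Finset.mem_univ k)).trans ?_
  exact Finset.single_le_sum (f := fun j => ∑ k, Lc j k)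
    (fun j _ => Finset.sum_nonneg fun k _ => hL0 j k) (Finset.mem_univ j)

lemma exists_dbound {ρ : V → ℝ} (hρ : IsM ρ) : ∃ M : ℝ, 0 ≤ M ∧
    (∀ y, ‖fderiv ℝ ρ y‖ ≤ M) ∧ ∀ y, 1 ≤ ‖y‖ → fderiv ℝ ρ y = 0 := by
  have hz : ∀ y, 1 ≤ ‖y‖ → fderiv ℝ ρ y = 0 := by
    intro y hy
    apply IsLocalMin.fderiv_eq_zero
    refine Filter.Eventually.of_forall fun w => ?_
    rw [hρ.supp y hy]
    exact hρ.nn w
  have hc : Continuous (fderiv ℝ ρ) := hρ.s.continuous_fderiv (by simp)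
  obtain ⟨M, hM⟩ := (isCompact_closedBall (0 : V) 1).exists_bound_of_continuousOn hc.continuousOn
  refine ⟨max M 0, le_max_right _ _, fun y => ?_, hz⟩
  by_cases hy : 1 ≤ ‖y‖
  · rw [hz y hy, norm_zero]
    exact le_max_right _ _
  · exact (hM y (mem_closedBall_zero_iff.mpr (not_le.mp hy).le)).trans (le_max_left _ _)

lemma fderiv_tf {ρ : V → ℝ} (hρ : IsM ρ) (ε : ℝ) (x z : V) :
    fderiv ℝ (tf ρ ε x) z = (-((ε ^ 4)⁻¹ * ε⁻¹)) • fderiv ℝ ρ (ε⁻¹ • (x - z)) := by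
  have h1 : HasFDerivAt (fun z : V => ε⁻¹ • (x - z)) (ε⁻¹ • (-ContinuousLinearMap.id ℝ V)) z :=
    (((hasFDerivAt_id (𝕜 := ℝ) z).const_sub x)).const_smul ε⁻¹
  have h2 : HasFDerivAt ρ (fderiv ℝ ρ (ε⁻¹ • (x - z))) (ε⁻¹ • (x - z)) :=
    ((hρ.s.differentiable (by simp)) _).hasFDerivAt
  have h3 := (h2.comp z h1).const_mul (ε ^ 4)⁻¹
  have h4 : HasFDerivAt (tf ρ ε x)
      ((ε ^ 4)⁻¹ • (fderiv ℝ ρ (ε⁻¹ • (x - z))).comp (ε⁻¹ • (-ContinuousLinearMap.id ℝ V))) z := h3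
  rw [h4.fderiv]
  ext v
  simp
  ring

lemma integrableOn_ball2 {W : Type} [NormedAddCommGroup W] {F : V → W}
    (hF : ContinuousOn F (ball 0 3)) : IntegrableOn F (ball (0 : V) 2) := by
  have hsub : closedBall (0 : V) 2 ⊆ ball (0 : V) 3 := closedBall_subset_ball (by norm_num)
  exact ((hF.mono hsub).integrableOn_compact (isCompact_closedBall _ _)).mono_set
    ball_subset_closedBall

/-- pointwise bound of the commutator -/
lemma comm_le {G : V → Matrix (Fin 2) (Fin 2) ℂ} (hG : IsK G) {ρ : V → ℝ} (hρ : IsM ρ) :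
    ∃ K1 : ℝ, 0 ≤ K1 ∧ ∀ f : V → ℝ, ContDiffOn ℝ ∞ f (ball 0 3) → ∀ ε : ℝ, 0 < ε → ε < 1 →
      ∀ x ∈ ball (0 : V) 1, |comm G ρ ε f x| ≤ K1 * (ε ^ 4)⁻¹ *
        ∫ z in ball (0 : V) 2 ∩ ball x ε, ‖fderiv ℝ f z‖ := by
  obtain ⟨Lc, hL0, hL⟩ := exists_lip hG
  obtain ⟨M, hM0, hM, hMz⟩ := exists_dbound hρ
  refine ⟨4 * Lc * M, by positivity, fun f hf ε h0 h1 x hx => ?_⟩
  have hx2 : x ∈ closedBall (0 : V) 2 :=
    ball_subset_closedBall (ball_subset_ball (by norm_num) hx)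
  have hx3 : x ∈ ball (0 : V) 3 := ball_subset_ball (by norm_num) hx
  have hGx := isK_const hG hx3
  have hT : ContDiffOn ℝ ∞ (tf ρ ε x) (ball 0 3) := (tf_smooth' hρ ε x).contDiffOn
  have hI1 := integrableOn_ball2 (en_smooth hG (le_refl 3) hf hT).continuousOn
  have hI2 := integrableOn_ball2 (en_smooth hGx (le_refl 3) hf hT).continuousOn
  have hcomm : comm G ρ ε f x = ∫ z in ball (0 : V) 2,
      (en (G z).adjugate (fderiv ℝ f z) (fderiv ℝ (tf ρ ε x) z)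
        - en (G x).adjugate (fderiv ℝ f z) (fderiv ℝ (tf ρ ε x) z)) := by
    have e1 := mo_lp_eq' hG hρ h0 h1 hf hx
    have e2 := mo_lp_eq' hGx hρ h0 h1 hf hx
    rw [comm, lp_mo hG hρ h0 h1 hf hx, e1, e2, integral_sub hI1 hI2]
    ring
  have hdf : ContinuousOn (fderiv ℝ f) (ball 0 3) := (fderiv_smooth hf).continuousOn
  have hpt : ∀ z ∈ ball (0 : V) 2, ‖en (G z).adjugate (fderiv ℝ f z) (fderiv ℝ (tf ρ ε x) z)
        - en (G x).adjugate (fderiv ℝ f z) (fderiv ℝ (tf ρ ε x) z)‖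
      ≤ (ball x ε).indicator (fun z => 4 * Lc * M * (ε ^ 4)⁻¹ * ‖fderiv ℝ f z‖) z := by
    intro z hz
    have hz2 : z ∈ closedBall (0 : V) 2 := ball_subset_closedBall hz
    rw [Real.norm_eq_abs]
    refine (en_sub_le _ _ (fun j k => hL z hz2 x hx2 j k) _ _).trans ?_
    rw [fderiv_tf hρ]
    by_cases hzx : z ∈ ball x ε
    · rw [indicator_of_mem hzx, norm_smul, norm_neg, Real.norm_of_nonneg (by positivity)]
      have h2 : ‖z - x‖ ≤ ε := (mem_ball_iff_norm.mp hzx).le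
      have h3 := hM (ε⁻¹ • (x - z))
      have hi : 0 < (ε ^ 4)⁻¹ := by positivity
      calc 4 * (Lc * ‖z - x‖) * ‖fderiv ℝ f z‖
            * ((ε ^ 4)⁻¹ * ε⁻¹ * ‖fderiv ℝ ρ (ε⁻¹ • (x - z))‖)
          ≤ 4 * (Lc * ε) * ‖fderiv ℝ f z‖ * ((ε ^ 4)⁻¹ * ε⁻¹ * M) := by
            refine mul_le_mul ?_ ?_ (by positivity) (by positivity)
            · refine mul_le_mul_of_nonneg_right ?_ (norm_nonneg _)
              refine mul_le_mul_of_nonneg_left ?_ (by norm_num)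
              exact mul_le_mul_of_nonneg_left h2 hL0
            · exact mul_le_mul_of_nonneg_left h3 (by positivity)
        _ = 4 * Lc * M * (ε ^ 4)⁻¹ * ‖fderiv ℝ f z‖ := by
            field_simp
    · have h2 : 1 ≤ ‖ε⁻¹ • (x - z)‖ := by
        rw [norm_smul, norm_inv, Real.norm_of_nonneg h0.le, norm_sub_rev, inv_mul_eq_div,
          le_div_iff₀ h0, one_mul]
        rw [mem_ball_iff_norm, not_lt] at hzx
        exact hzx
      rw [hMz _ h2, indicator_of_notMem hzx, smul_zero, norm_zero, mul_zero]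
  have hInt : IntegrableOn
      ((ball x ε).indicator (fun z => 4 * Lc * M * (ε ^ 4)⁻¹ * ‖fderiv ℝ f z‖)) (ball (0 : V) 2) := by
    refine IntegrableOn.indicator ?_ measurableSet_ball
    exact (integrableOn_ball2 hdf.norm).const_mul _
  rw [hcomm, ← Real.norm_eq_abs]
  refine (norm_integral_le_integral_norm _).trans ?_
  refine (setIntegral_mono_on (hI1.sub hI2).norm hInt measurableSet_ball hpt).trans ?_
  rw [setIntegral_indicator measurableSet_ball, integral_const_mul]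

/-- Cauchy-Schwarz -/
lemma cs {S : Set V} (hS : volume S ≠ ⊤) {φ : V → ℝ} (h1 : IntegrableOn φ S)
    (h2 : IntegrableOn (fun z => φ z ^ 2) S) :
    (∫ z in S, φ z) ^ 2 ≤ (volume S).toReal * ∫ z in S, φ z ^ 2 := by
  set m := (volume S).toReal with hm
  set I := ∫ z in S, φ z with hI
  set J := ∫ z in S, φ z ^ 2 with hJ
  have hm0 : 0 ≤ m := ENNReal.toReal_nonneg
  have h3 : 0 ≤ ∫ z in S, (m * φ z - I) ^ 2 := integral_nonneg fun z => sq_nonneg _
  have hc : IntegrableOn (fun _ : V => I ^ 2) S := integrableOn_const hS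
  have h4 : ∫ z in S, (m * φ z - I) ^ 2 = m ^ 2 * J - 2 * m * I * I + I ^ 2 * m := by
    have h5 : ∀ z, (m * φ z - I) ^ 2 = m ^ 2 * φ z ^ 2 - 2 * m * I * φ z + I ^ 2 := fun z => by ring
    simp_rw [h5]
    rw [integral_add, integral_sub, integral_const_mul, integral_const_mul, setIntegral_const,
      Measure.real, smul_eq_mul, ← hm, ← hI, ← hJ]
    · ring
    · exact h2.const_mul _
    · exact h1.const_mul _
    · exact (h2.const_mul _).sub (h1.const_mul _)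
    · exact hc
  rw [h4] at h3
  rcases hm0.eq_or_lt with h6 | h6
  · have h7 : volume S = 0 := by
      rcases (ENNReal.toReal_eq_zero_iff _).mp (hm ▸ h6.symm) with h | h
      · exact h
      · exact absurd h hS
    have h8 : I = 0 := by
      rw [hI, Measure.restrict_eq_zero.mpr h7, integral_zero_measure]
    rw [h8, ← h6]
    simp
  · have h9 : 0 ≤ m * (m * J - I ^ 2) := by nlinarith
    have h10 := nonneg_of_mul_nonneg_right h9 h6
    linarith

lemma vol_ball (x : V) {ε : ℝ} (h0 : 0 < ε) :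
    (volume (ball x ε)).toReal = ε ^ 4 * (volume (ball (0 : V) 1)).toReal := by
  rw [Measure.addHaar_ball_of_pos _ _ h0, ENNReal.toReal_mul, finrank_V,
    ENNReal.toReal_ofReal (by positivity)]

/-- Fubini -/
lemma fub {h : V → ℝ} (hh : Integrable h) {ε : ℝ} (hε : 0 < ε) :
    Integrable (fun x => ∫ z in ball x ε, h z) ∧
    ∫ x, ∫ z in ball x ε, h z = ε ^ 4 * (volume (ball (0 : V) 1)).toReal * ∫ z, h z := by
  let g : V → ℝ := (ball (0 : V) ε).indicator fun _ => 1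
  have hg : Integrable g := by
    refine (integrable_indicator_iff measurableSet_ball).mpr ?_
    exact integrableOn_const measure_ball_lt_top.ne
  have h1 : (fun x => ∫ z in ball x ε, h z)
      = convolution h g (ContinuousLinearMap.mul ℝ ℝ) volume := by
    funext x
    rw [convolution_def, ← integral_indicator measurableSet_ball]
    congr 1
    funext z
    by_cases hz : z ∈ ball x ε
    · have h2 : x - z ∈ ball (0 : V) ε := by
        rw [mem_ball_zero_iff, norm_sub_rev]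
        exact mem_ball_iff_norm.mp hz
      simp only [g]
      rw [indicator_of_mem hz, indicator_of_mem h2]
      simp
    · have h2 : x - z ∉ ball (0 : V) ε := by
        rw [mem_ball_zero_iff, norm_sub_rev]
        exact fun h => hz (mem_ball_iff_norm.mpr h)
      simp only [g]
      rw [indicator_of_notMem hz, indicator_of_notMem h2]
      simp
  have h3 : ∫ z, g z = ε ^ 4 * (volume (ball (0 : V) 1)).toReal := by
    simp only [g]
    rw [integral_indicator measurableSet_ball, setIntegral_const, Measure.real, vol_ball 0 hε]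
    simp
  rw [h1]
  refine ⟨hh.integrable_convolution _ hg, ?_⟩
  rw [integral_convolution _ hh hg, h3, ContinuousLinearMap.mul_apply']
  ring

end HdFried1

open HdFried1 in
theorem fried_bound {G : V → Matrix (Fin 2) (Fin 2) ℂ} (hG : IsK G) {ρ : V → ℝ} (hρ : IsM ρ) :
    ∃ Kc : ℝ, 0 < Kc ∧ ∀ f : V → ℝ, ContDiffOn ℝ ∞ f (ball 0 3) → ∀ ε : ℝ, 0 < ε → ε < 1 →
      sq 1 (comm G ρ ε f) ≤ Kc * sq 2 (fderiv ℝ f) := by
  obtain ⟨K1, hK1, hb⟩ := comm_le hG hρ
  set v := (volume (ball (0 : V) 1)).toReal with hv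
  have hv0 : 0 ≤ v := ENNReal.toReal_nonneg
  refine ⟨K1 ^ 2 * v ^ 2 + 1, by positivity, fun f hf ε h0 h1 => ?_⟩
  have hdf : ContinuousOn (fderiv ℝ f) (ball 0 3) := (fderiv_smooth hf).continuousOn
  let h : V → ℝ := (ball (0 : V) 2).indicator fun z => ‖fderiv ℝ f z‖ ^ 2
  have hh0 : ∀ z, 0 ≤ h z := fun z => indicator_nonneg (fun _ _ => by positivity) z
  have hhI : Integrable h :=
    (integrable_indicator_iff measurableSet_ball).mpr (integrableOn_ball2 (hdf.norm.pow 2))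
  have hhv : ∫ z, h z = sq 2 (fderiv ℝ f) := integral_indicator measurableSet_ball
  have hsq0 : 0 ≤ sq 2 (fderiv ℝ f) := by
    rw [← hhv]
    exact integral_nonneg hh0
  obtain ⟨hF1, hF2⟩ := fub hhI h0
  have hpt : ∀ x ∈ ball (0 : V) 1, ‖comm G ρ ε f x‖ ^ 2
      ≤ K1 ^ 2 * (ε ^ 4)⁻¹ * v * ∫ z in ball x ε, h z := by
    intro x hx
    have h2 := hb f hf ε h0 h1 x hx
    have hvol : (volume (ball (0 : V) 2 ∩ ball x ε)).toReal ≤ ε ^ 4 * v := by
      rw [hv, ← vol_ball x h0]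
      exact ENNReal.toReal_mono measure_ball_lt_top.ne (measure_mono inter_subset_right)
    have hi : 0 < (ε ^ 4)⁻¹ := by positivity
    have hcs := cs (S := ball (0 : V) 2 ∩ ball x ε) (φ := fun z => ‖fderiv ℝ f z‖)
      ((measure_mono inter_subset_left).trans_lt measure_ball_lt_top).ne
      ((integrableOn_ball2 hdf.norm).mono_set inter_subset_left)
      ((integrableOn_ball2 (hdf.norm.pow 2)).mono_set inter_subset_left)
    have heq : ∫ z in ball x ε, h z = ∫ z in ball (0 : V) 2 ∩ ball x ε, ‖fderiv ℝ f z‖ ^ 2 := by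
      simp only [h]
      rw [setIntegral_indicator measurableSet_ball, inter_comm]
    rw [heq, Real.norm_eq_abs]
    set I := ∫ z in ball (0 : V) 2 ∩ ball x ε, ‖fderiv ℝ f z‖ with hI
    set J := ∫ z in ball (0 : V) 2 ∩ ball x ε, ‖fderiv ℝ f z‖ ^ 2 with hJ
    have hJ0 : 0 ≤ J := integral_nonneg fun _ => by positivity
    calc |comm G ρ ε f x| ^ 2 ≤ (K1 * (ε ^ 4)⁻¹ * I) ^ 2 :=
          pow_le_pow_left₀ (abs_nonneg _) h2 2
      _ = K1 ^ 2 * (ε ^ 4)⁻¹ ^ 2 * I ^ 2 := by ring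
      _ ≤ K1 ^ 2 * (ε ^ 4)⁻¹ ^ 2 * (ε ^ 4 * v * J) := by
          refine mul_le_mul_of_nonneg_left ?_ (by positivity)
          exact hcs.trans (mul_le_mul_of_nonneg_right hvol hJ0)
      _ = K1 ^ 2 * (ε ^ 4)⁻¹ * v * J := by
          field_simp
  have hRI : Integrable fun x => K1 ^ 2 * (ε ^ 4)⁻¹ * v * ∫ z in ball x ε, h z :=
    hF1.const_mul _
  have hR0 : ∀ x, 0 ≤ K1 ^ 2 * (ε ^ 4)⁻¹ * v * ∫ z in ball x ε, h z := by
    intro x
    have : 0 ≤ ∫ z in ball x ε, h z := integral_nonneg hh0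
    positivity
  have hstep : sq 1 (comm G ρ ε f)
      ≤ ∫ x in ball (0 : V) 1, K1 ^ 2 * (ε ^ 4)⁻¹ * v * ∫ z in ball x ε, h z := by
    unfold sq
    refine integral_mono_of_nonneg (Filter.Eventually.of_forall fun _ => by positivity)
      hRI.integrableOn ?_
    exact (ae_restrict_iff' measurableSet_ball).mpr (Filter.Eventually.of_forall hpt)
  refine hstep.trans ?_
  refine (setIntegral_le_integral hRI (Filter.Eventually.of_forall hR0)).trans ?_
  rw [integral_const_mul, hF2, hhv]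
  have h5 : K1 ^ 2 * (ε ^ 4)⁻¹ * v * (ε ^ 4 * v * sq 2 (fderiv ℝ f))
      = K1 ^ 2 * v ^ 2 * sq 2 (fderiv ℝ f) := by
    field_simp
  rw [h5]
  nlinarith

/-! ### Task HdFried2 -/

namespace HdFried2

open HdFried1

lemma norm_cH_le (B : V →L[ℝ] V →L[ℝ] ℝ) (j k : Fin 2) : ‖cH B j k‖ ≤ ‖B‖ := by
  have hI : ∀ j, ‖Complex.I • bb j‖ = 1 := by
    intro j
    rw [norm_smul, Complex.norm_I, norm_bb, mul_one]
  have h1 : ∀ u v : V, ‖u‖ = 1 → ‖v‖ = 1 → ‖((B u v : ℝ) : ℂ)‖ ≤ ‖B‖ := by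
    intro u v hu hv
    rw [Complex.norm_real]
    refine (B.le_opNorm₂ u v).trans ?_
    rw [hu, hv, mul_one, mul_one]
  have e1 := h1 _ _ (norm_bb j) (norm_bb k)
  have e2 := h1 _ _ (hI j) (hI k)
  have e3 := h1 _ _ (norm_bb j) (hI k)
  have e4 := h1 _ _ (hI j) (norm_bb k)
  unfold cH
  rw [norm_div, Complex.norm_ofNat, div_le_iff₀ (by norm_num)]
  refine (norm_add_le _ _).trans ?_
  have e5 : ‖Complex.I * (((B (bb j) (Complex.I • bb k) : ℝ) : ℂ)
      - ((B (Complex.I • bb j) (bb k) : ℝ) : ℂ))‖ ≤ ‖B‖ + ‖B‖ := by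
    rw [norm_mul, Complex.norm_I, one_mul]
    exact (norm_sub_le _ _).trans (add_le_add e3 e4)
  have e6 : ‖((B (bb j) (bb k) : ℝ) : ℂ)
      + ((B (Complex.I • bb j) (Complex.I • bb k) : ℝ) : ℂ)‖ ≤ ‖B‖ + ‖B‖ :=
    (norm_add_le _ _).trans (add_le_add e1 e2)
  linarith

lemma lp_sub_le (C C' : Matrix (Fin 2) (Fin 2) ℂ) {a : ℝ} (h : ∀ j k, ‖C j k - C' j k‖ ≤ a)
    (B : V →L[ℝ] V →L[ℝ] ℝ) : |lp C B - lp C' B| ≤ 4 * a * ‖B‖ := by
  have h1 : lp C B - lp C' B = (∑ j, ∑ k, (C k j - C' k j) * cH B j k).re := by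
    unfold lp
    rw [← Complex.sub_re, ← Finset.sum_sub_distrib]
    congr 1
    refine Finset.sum_congr rfl fun j _ => ?_
    rw [← Finset.sum_sub_distrib]
    refine Finset.sum_congr rfl fun k _ => ?_
    ring
  have ha : 0 ≤ a := (norm_nonneg _).trans (h 0 0)
  have h2 : ∀ j k, ‖(C k j - C' k j) * cH B j k‖ ≤ a * ‖B‖ := by
    intro j k
    rw [norm_mul]
    exact mul_le_mul (h k j) (norm_cH_le B j k) (norm_nonneg _) ha
  rw [h1]
  refine (Complex.abs_re_le_norm _).trans ?_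
  refine (norm_sum_le _ _).trans ?_
  have h3 : ∀ j ∈ (Finset.univ : Finset (Fin 2)),
      ‖∑ k, (C k j - C' k j) * cH B j k‖ ≤ 2 * (a * ‖B‖) := by
    intro j _
    refine (norm_sum_le _ _).trans ?_
    refine (Finset.sum_le_sum fun k _ => h2 j k).trans ?_
    simp
  refine (Finset.sum_le_sum h3).trans ?_
  simp only [Finset.sum_const, Finset.card_univ, Fintype.card_fin, nsmul_eq_mul]
  push_cast
  linarith

set_option maxSynthPendingDepth 3 in
/-- uniform bound of the commutator for a fixed function -/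
lemma comm_le_eps {G : V → Matrix (Fin 2) (Fin 2) ℂ} (hG : IsK G) {ρ : V → ℝ} (hρ : IsM ρ)
    {f : V → ℝ} (hf : ContDiffOn ℝ ∞ f (ball 0 3)) :
    ∃ K1 : ℝ, 0 ≤ K1 ∧ ∀ ε : ℝ, 0 < ε → ε < 1 →
      ∀ x ∈ ball (0 : V) 1, |comm G ρ ε f x| ≤ K1 * ε := by
  obtain ⟨Lc, hL0, hL⟩ := exists_lip hG
  have hsub : closedBall (0 : V) 2 ⊆ ball (0 : V) 3 := closedBall_subset_ball (by norm_num)
  obtain ⟨M, hM⟩ := (isCompact_closedBall (0 : V) 2).exists_bound_of_continuousOn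
    (((D2_smooth hf).continuousOn).mono hsub)
  refine ⟨4 * Lc * max M 0, by positivity, fun ε h0 h1 x hx => ?_⟩
  have hx1 : ‖x‖ < 1 := mem_ball_zero_iff.mp hx
  have hx2 : x ∈ ball (0 : V) 2 := ball_subset_ball (by norm_num) hx
  have hx3 : x ∈ ball (0 : V) 3 := ball_subset_ball (by norm_num) hx
  have hGx := isK_const hG hx3
  have hJ1 := integrable_mo hρ h0 h1 (lp_smooth hGx (le_refl 3) hf).continuousOn hx2
  have hJ2 := integrable_mo hρ h0 h1 (lp_smooth hG (le_refl 3) hf).continuousOn hx2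
  have hc : comm G ρ ε f x = ∫ y, (ρ y • lp (G x).adjugate (D2 f (x - ε • y))
      - ρ y • lp (G (x - ε • y)).adjugate (D2 f (x - ε • y))) := by
    rw [comm, lp_mo hG hρ h0 h1 hf hx]
    unfold mo
    exact (integral_sub hJ1 hJ2).symm
  have hρi : Integrable ρ := by
    by_contra hcon
    have := hρ.int
    rw [integral_undef hcon] at this
    exact zero_ne_one this
  have hpt : ∀ y, ‖ρ y • lp (G x).adjugate (D2 f (x - ε • y))
      - ρ y • lp (G (x - ε • y)).adjugate (D2 f (x - ε • y))‖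
      ≤ (4 * Lc * max M 0 * ε) * ρ y := by
    intro y
    rw [← smul_sub, norm_smul, Real.norm_of_nonneg (hρ.nn y), mul_comm]
    by_cases hy : 1 ≤ ‖y‖
    · rw [hρ.supp y hy, mul_zero, mul_zero]
    · refine mul_le_mul_of_nonneg_right ?_ (hρ.nn y)
      rw [not_le] at hy
      have h2 : ‖ε • y‖ ≤ ε := by
        rw [norm_smul, Real.norm_of_nonneg h0.le]
        nlinarith [norm_nonneg y]
      have h3 : x - ε • y ∈ closedBall (0 : V) 2 := by
        rw [mem_closedBall_zero_iff]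
        have := norm_sub_le x (ε • y)
        linarith
      have h4 : ∀ j k, ‖(G x).adjugate j k - (G (x - ε • y)).adjugate j k‖ ≤ Lc * ε := by
        intro j k
        refine (hL x (ball_subset_closedBall hx2) _ h3 j k).trans ?_
        rw [sub_sub_cancel]
        exact mul_le_mul_of_nonneg_left h2 hL0
      rw [Real.norm_eq_abs]
      refine (lp_sub_le _ _ h4 _).trans ?_
      have h5 : ‖D2 f (x - ε • y)‖ ≤ max M 0 := (hM _ h3).trans (le_max_left _ _)
      have h6 : 4 * (Lc * ε) * ‖D2 f (x - ε • y)‖ ≤ 4 * (Lc * ε) * max M 0 :=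
        mul_le_mul_of_nonneg_left h5 (by positivity)
      linarith
  rw [hc, ← Real.norm_eq_abs]
  refine (norm_integral_le_of_norm_le (hρi.const_mul _) (Filter.Eventually.of_forall hpt)).trans ?_
  rw [integral_const_mul, hρ.int, mul_one]

end HdFried2

open HdFried1 HdFried2

theorem fried_tendsto {G : V → Matrix (Fin 2) (Fin 2) ℂ} (hG : IsK G) {ρ : V → ℝ} (hρ : IsM ρ)
    {f : V → ℝ} (hf : ContDiffOn ℝ ∞ f (ball 0 3)) :
    Filter.Tendsto (fun ε => sq 1 (comm G ρ ε f)) (𝓝[>] 0) (𝓝 0) := by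
  obtain ⟨K1, hK1, hb⟩ := comm_le_eps hG hρ hf
  set v := (volume (ball (0 : V) 1)).toReal with hv
  have hev : ∀ᶠ ε in 𝓝[>] (0 : ℝ), sq 1 (comm G ρ ε f) ≤ (K1 * ε) ^ 2 * v := by
    filter_upwards [Ioo_mem_nhdsGT (zero_lt_one (α := ℝ))] with ε hε
    unfold sq
    have hcI : IntegrableOn (fun _ : V => (K1 * ε) ^ 2) (ball (0 : V) 1) :=
      integrableOn_const measure_ball_lt_top.ne
    have h2 : ∫ z in ball (0 : V) 1, ‖comm G ρ ε f z‖ ^ 2
        ≤ ∫ _z in ball (0 : V) 1, (K1 * ε) ^ 2 := by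
      refine integral_mono_of_nonneg (Filter.Eventually.of_forall fun _ => by positivity) hcI ?_
      refine (ae_restrict_iff' measurableSet_ball).mpr (Filter.Eventually.of_forall fun x hx => ?_)
      exact pow_le_pow_left₀ (norm_nonneg _) (hb ε hε.1 hε.2 x hx) 2
    refine h2.trans (le_of_eq ?_)
    rw [setIntegral_const, Measure.real, smul_eq_mul, ← hv]
    ring
  have hlim : Filter.Tendsto (fun ε : ℝ => (K1 * ε) ^ 2 * v) (𝓝[>] 0) (𝓝 0) := by
    have h3 : Continuous fun ε : ℝ => (K1 * ε) ^ 2 * v := by fun_prop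
    have h4 := h3.tendsto 0
    simp only [mul_zero, ne_eq, OfNat.ofNat_ne_zero, not_false_eq_true, zero_pow, zero_mul] at h4
    exact h4.mono_left nhdsWithin_le_nhds
  exact tendsto_of_tendsto_of_tendsto_of_le_of_le' tendsto_const_nhds hlim
    (Filter.Eventually.of_forall fun ε => integral_nonneg fun _ => by positivity) hev

theorem tf_smooth {ρ : V → ℝ} (hρ : IsM ρ) {ε : ℝ} (h0 : 0 < ε) (x : V) :
    ContDiff ℝ ∞ (tf ρ ε x) := by
  have _ := h0
  exact tf_smooth' hρ ε x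

theorem tf_supp {ρ : V → ℝ} (hρ : IsM ρ) {ε : ℝ} (h0 : 0 < ε) (h1 : ε < 1) {x : V}
    (hx : x ∈ ball (0 : V) 1) {z : V} (hz : tf ρ ε x z ≠ 0) : z ∈ ball (0 : V) 2 :=
  tf_supp' hρ h0 h1 hx hz

theorem mo_lp_eq {G : V → Matrix (Fin 2) (Fin 2) ℂ} (hG : IsK G) {ρ : V → ℝ} (hρ : IsM ρ)
    {ε : ℝ} (h0 : 0 < ε) (h1 : ε < 1) {f : V → ℝ} (hf : ContDiffOn ℝ ∞ f (ball 0 3)) {x : V}
    (hx : x ∈ ball (0 : V) 1) :
    mo ρ ε (fun y => lp (G y).adjugate (D2 f y)) x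
      = - ∫ z in ball (0 : V) 2, en (G z).adjugate (fderiv ℝ f z) (fderiv ℝ (tf ρ ε x) z) :=
  mo_lp_eq' hG hρ h0 h1 hf hx

theorem tf_energy {G : V → Matrix (Fin 2) (Fin 2) ℂ} (hG : IsK G) {ρ : V → ℝ} (hρ : IsM ρ)
    {ε : ℝ} (h0 : 0 < ε) (h1 : ε < 1) : ∃ Kc : ℝ, ∀ x ∈ ball (0 : V) 1,
      ∫ z in ball (0 : V) 2, en (G z).adjugate (fderiv ℝ (tf ρ ε x) z) (fderiv ℝ (tf ρ ε x) z)
        ≤ Kc := by
  have _ := h1
  obtain ⟨M, hM0, hM, _⟩ := exists_dbound hρ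
  obtain ⟨c, _, Kc, hKc, hb⟩ := bounds hG
  refine ⟨Kc * ((ε ^ 4)⁻¹ * ε⁻¹ * M) ^ 2 * (volume (ball (0 : V) 2)).toReal, fun x _ => ?_⟩
  have hT : ContDiffOn ℝ ∞ (tf ρ ε x) (ball 0 3) := (tf_smooth' hρ ε x).contDiffOn
  have hI := integrableOn_ball2 (en_smooth hG (le_refl 3) hT hT).continuousOn
  have hcI : IntegrableOn (fun _ : V => Kc * ((ε ^ 4)⁻¹ * ε⁻¹ * M) ^ 2) (ball (0 : V) 2) :=
    integrableOn_const measure_ball_lt_top.ne
  refine (setIntegral_mono_on hI hcI measurableSet_ball fun z hz => ?_).trans ?_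
  · refine ((hb z (ball_subset_closedBall hz)).1 _).2.trans ?_
    refine mul_le_mul_of_nonneg_left ?_ hKc.le
    refine pow_le_pow_left₀ (norm_nonneg _) ?_ 2
    rw [fderiv_tf hρ, norm_smul, norm_neg, Real.norm_of_nonneg (by positivity)]
    exact mul_le_mul_of_nonneg_left (hM _) (by positivity)
  · rw [setIntegral_const, Measure.real, smul_eq_mul, mul_comm]

end Pool.Agent.K708.Hd
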