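import Pool.Agent.Lib.K708.HdInt

/-! # K708, Section A: minimising sequences of the energy -/

set_option autoImplicit false

open scoped ContDiff Topology
open Set Metric MeasureTheory

noncomputable section

namespace Pool.Agent.K708.Hd

variable {X : Type} [TopologicalSpace X] {K : KD X}

/-! ### Task HdMin -/

theorem HdMin.dif {f : K.ι → V → ℝ} (hf : IsF K f) (i : K.ι) {z : V}
    (hz : z ∈ ball (0 : V) 1) : DifferentiableAt ℝ (f i) z :=
  ((hf.s i).contDiffAt (isOpen_ball.mem_nhds
    (ball_subset_ball (by norm_num) hz : z ∈ ball (0 : V) 3))).differentiableAt (by simp)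

theorem HdMin.cont {f h : K.ι → V → ℝ} (hf : IsF K f) (hh : IsF K h) (i : K.ι) :
    ContinuousOn (fun z => en (K.C i z) (fderiv ℝ (f i) z) (fderiv ℝ (h i) z)) (ball 0 3) :=
  (en_smooth (K.isK i) le_rfl (hf.s i) (hh.s i)).continuousOn

theorem Part.En_add_left (P : Part K) {f f' h : K.ι → V → ℝ} (hf : IsF K f) (hf' : IsF K f')
    (hh : IsF K h) : P.En (fun i z => f i z + f' i z) h = P.En f h + P.En f' h := by
  unfold Part.En
  rw [← P.Int_add (HdMin.cont hf hh) (HdMin.cont hf' hh)]
  refine P.Int_congr fun i z hz => ?_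
  rw [fderiv_fun_add (HdMin.dif hf i hz) (HdMin.dif hf' i hz), en_add_left]

theorem Part.En_smul_left (P : Part K) {f h : K.ι → V → ℝ} (hf : IsF K f) (hh : IsF K h)
    (r : ℝ) : P.En (fun i z => r * f i z) h = r * P.En f h := by
  unfold Part.En
  rw [← P.Int_smul]
  refine P.Int_congr fun i z hz => ?_
  rw [fderiv_const_mul (HdMin.dif hf i hz), en_smul_left]

theorem Part.En_symm (P : Part K) {f h : K.ι → V → ℝ} (hf : IsF K f) (hh : IsF K h) :
    P.En f h = P.En h f := by
  unfold Part.En
  refine P.Int_congr fun i z hz => ?_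
  exact en_symm (adj_herm ((K.isK i).herm z (ball_subset_ball (by norm_num) hz))) _ _

theorem Part.En_nonneg (P : Part K) {f : K.ι → V → ℝ} (hf : IsF K f) : 0 ≤ P.En f f := by
  unfold Part.En
  exact P.Int_nonneg fun i z hz => en_nonneg (K.isK i) (ball_subset_ball (by norm_num) hz) _

namespace HdMin

theorem isF_neg {b : K.ι → V → ℝ} (hb : IsF K b) : IsF K (fun i z => (-1 : ℝ) * b i z) := by
  have h1 := (hb.sub hb).sub hb
  have h2 : (fun i z => (b i z - b i z) - b i z) = fun i z => (-1 : ℝ) * b i z := by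
    funext i z
    ring
  rwa [h2] at h1

theorem En_add (P : Part K) {a b : K.ι → V → ℝ} (ha : IsF K a) (hb : IsF K b) :
    P.En (fun i z => a i z + b i z) (fun i z => a i z + b i z) =
      P.En a a + 2 * P.En a b + P.En b b := by
  have hab := ha.add hb
  rw [P.En_add_left ha hb hab, P.En_symm ha hab, P.En_symm hb hab, P.En_add_left ha hb ha,
    P.En_add_left ha hb hb, P.En_symm hb ha]
  ring

/-- parallelogram law -/
theorem En_par (P : Part K) {a b : K.ι → V → ℝ} (ha : IsF K a) (hb : IsF K b) :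
    P.En (fun i z => a i z - b i z) (fun i z => a i z - b i z) =
      2 * P.En a a + 2 * P.En b b -
        P.En (fun i z => a i z + b i z) (fun i z => a i z + b i z) := by
  have hneg := isF_neg hb
  have e0 : (fun i z => a i z - b i z) = fun i z => a i z + (-1 : ℝ) * b i z := by
    funext i z
    ring
  have h1 := En_add P ha hneg
  have h2 : P.En a (fun i z => (-1 : ℝ) * b i z) = - P.En a b := by
    rw [P.En_symm ha hneg, P.En_smul_left hb ha, P.En_symm hb ha]
    ring
  have h3 : P.En (fun i z => (-1 : ℝ) * b i z) (fun i z => (-1 : ℝ) * b i z) = P.En b b := by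
    rw [P.En_smul_left hb hneg, P.En_symm hb hneg, P.En_smul_left hb hb]
    ring
  rw [e0, h1, h2, h3, En_add P ha hb]
  ring

theorem En_smul (P : Part K) {a : K.ι → V → ℝ} (ha : IsF K a) (r : ℝ)
    (hr : IsF K fun i z => r * a i z) :
    P.En (fun i z => r * a i z) (fun i z => r * a i z) = r ^ 2 * P.En a a := by
  rw [P.En_smul_left ha hr, P.En_symm ha hr, P.En_smul_left ha ha]
  ring

end HdMin

/-- a minimising sequence of the energy in the class of `H` -/
theorem minimizing (P : Part K) {H : K.ι → V → ℝ} (hH : IsF K H) :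
    ∃ u : ℕ → X → ℝ, (∀ n, IsS K (u n)) ∧
      (∀ δ : ℝ, 0 < δ → ∃ N : ℕ, ∀ m ≥ N, ∀ n ≥ N,
        P.En (lc K fun x => u m x - u n x) (lc K fun x => u m x - u n x) < δ) ∧
      ∀ n, ∀ w, IsS K w → (P.En (fun i z => H i z + lc K (u n) i z) (lc K w)) ^ 2
        ≤ 1 / ((n : ℝ) + 1) * P.En (lc K w) (lc K w) := by
  let F : (X → ℝ) → K.ι → V → ℝ := fun u i z => H i z + lc K u i z
  have hF : ∀ u, IsS K u → IsF K (F u) := fun u hu => hH.add hu.isF
  let S : Set ℝ := {e | ∃ u : X → ℝ, IsS K u ∧ e = P.En (F u) (F u)}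
  have hSne : S.Nonempty := ⟨_, fun _ => 0, IsS.const 0, rfl⟩
  have hSb : BddBelow S := ⟨0, by
    rintro e ⟨u, hu, rfl⟩
    exact P.En_nonneg (hF u hu)⟩
  let m0 := sInf S
  have hm0 : ∀ u, IsS K u → m0 ≤ P.En (F u) (F u) := fun u hu => csInf_le hSb ⟨u, hu, rfl⟩
  have hex : ∀ n : ℕ, ∃ u, IsS K u ∧ P.En (F u) (F u) < m0 + 1 / ((n : ℝ) + 1) := by
    intro n
    have h1 : m0 < m0 + 1 / ((n : ℝ) + 1) := lt_add_of_pos_right _ (by positivity)
    obtain ⟨e, ⟨u, hu, rfl⟩, he⟩ := exists_lt_of_csInf_lt hSne h1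
    exact ⟨u, hu, he⟩
  choose u hu hlt using hex
  refine ⟨u, hu, ?_, ?_⟩
  · intro δ hδ
    obtain ⟨N, hN⟩ := exists_nat_one_div_lt (show (0 : ℝ) < δ / 4 by positivity)
    refine ⟨N, fun m hm n hn => ?_⟩
    have e1 : (lc K fun x => u m x - u n x) = fun i z => F (u m) i z - F (u n) i z := by
      funext i z
      change lc K (u m) i z - lc K (u n) i z =
        (H i z + lc K (u m) i z) - (H i z + lc K (u n) i z)
      ring
    have hmid : IsS K (fun x => (1 / 2 : ℝ) * (u m x + u n x)) :=
      (IsS.const (1 / 2)).mul ((hu m).add (hu n))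
    have e2 : (fun i z => F (u m) i z + F (u n) i z) =
        fun i z => (2 : ℝ) * F (fun x => (1 / 2 : ℝ) * (u m x + u n x)) i z := by
      funext i z
      change (H i z + lc K (u m) i z) + (H i z + lc K (u n) i z) =
        2 * (H i z + (1 / 2) * (lc K (u m) i z + lc K (u n) i z))
      ring
    have h2 := HdMin.En_par P (hF _ (hu m)) (hF _ (hu n))
    have h3 : IsF K (fun i z => (2 : ℝ) * F (fun x => (1 / 2 : ℝ) * (u m x + u n x)) i z) := by
      rw [← e2]
      exact (hF _ (hu m)).add (hF _ (hu n))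
    rw [e2, HdMin.En_smul P (hF _ hmid) 2 h3] at h2
    rw [e1, h2]
    have h4 := hm0 _ hmid
    have h5 := hlt m
    have h6 := hlt n
    have h7 : ∀ j : ℕ, N ≤ j → 1 / ((j : ℝ) + 1) < δ / 4 := fun j hj => by
      refine lt_of_le_of_lt ?_ hN
      have : (N : ℝ) ≤ (j : ℝ) := by exact_mod_cast hj
      exact one_div_le_one_div_of_le (by positivity) (by linarith)
    have h8 := h7 m hm
    have h9 := h7 n hn
    linarith
  · intro n w hw
    change (P.En (F (u n)) (lc K w)) ^ 2 ≤ _
    have h1 : ∀ t : ℝ, 0 ≤ P.En (lc K w) (lc K w) * (t * t) +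
        (2 * P.En (F (u n)) (lc K w)) * t + (P.En (F (u n)) (F (u n)) - m0) := by
      intro t
      have htw : IsS K (fun x => t * w x) := (IsS.const t).mul hw
      have hs : IsS K (fun x => u n x + t * w x) := (hu n).add htw
      have e1 : F (fun x => u n x + t * w x) =
          fun i z => F (u n) i z + lc K (fun x => t * w x) i z := by
        funext i z
        change H i z + (lc K (u n) i z + t * lc K w i z) =
          (H i z + lc K (u n) i z) + t * lc K w i z
        ring
      have e2 : lc K (fun x => t * w x) = fun i z => t * lc K w i z := rfl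
      have hI : IsF K (fun i z => t * lc K w i z) := htw.isF
      have h4 : P.En (F (u n)) (fun i z => t * lc K w i z) = t * P.En (F (u n)) (lc K w) := by
        rw [P.En_symm (hF _ (hu n)) hI, P.En_smul_left hw.isF (hF _ (hu n)),
          P.En_symm hw.isF (hF _ (hu n))]
      have h2 := hm0 _ hs
      rw [e1, HdMin.En_add P (hF _ (hu n)) htw.isF, e2, HdMin.En_smul P hw.isF t hI, h4] at h2
      nlinarith
    have h2 := discrim_le_zero h1
    unfold discrim at h2
    have h3 := P.En_nonneg hw.isF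
    have h4 := hlt n
    have h5 : (P.En (F (u n)) (F (u n)) - m0) * P.En (lc K w) (lc K w) ≤
        1 / ((n : ℝ) + 1) * P.En (lc K w) (lc K w) :=
      mul_le_mul_of_nonneg_right (by linarith) h3
    nlinarith

end Pool.Agent.K708.Hd
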