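import Pool.Agent.Lib.K708.HdHess
import Pool.Agent.Lib.K708.HdFried
import Pool.Agent.Lib.K708.HdMin

/-! # K708, Section A: gluing the mollified functions -/

set_option autoImplicit false

open scoped ContDiff Topology
open Set Metric MeasureTheory

noncomputable section

namespace Pool.Agent.K708.Hd

variable {X : Type} [TopologicalSpace X] {K : KD X}

/-- the error terms of the mollification in one chart -/
def er (ρ : V → ℝ) (ε : ℝ) (f : V → ℝ) : ℝ :=
  sq 1 (fun x => mo ρ ε f x - f x) + sq 1 (fun x => fderiv ℝ (mo ρ ε f) x - fderiv ℝ f x)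

/-! ### Task HdGlue -/

namespace HdGlue

/-- the local correction -/
def gw (P : Part K) (ρ : V → ℝ) (ε : ℝ) (f : K.ι → V → ℝ) (k : K.ι) (x : X) : ℝ :=
  P.χ k x * (mo ρ ε (f k) (K.ch k x) - f k (K.ch k x))

lemma chi_zero (P : Part K) (k : K.ι) {z : V} (hz : z ∈ ball (0 : V) 3) (h1 : 1 ≤ ‖z‖) :
    P.χ k ((K.ch k).symm z) = 0 := by
  by_contra h
  obtain ⟨_, h2⟩ := P.supp k _ h
  rw [(K.ch k).right_inv (by rw [K.tgt]; exact hz), mem_ball_zero_iff] at h2
  linarith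

lemma ev_zero [T2Space X] (P : Part K) (i k : K.ι) {z : V} (hz : z ∈ ball (0 : V) 3)
    (hn : ¬ ((K.ch i).symm z ∈ (K.ch k).source ∧ K.ch k ((K.ch i).symm z) ∈ ball (0 : V) 2)) :
    ∀ᶠ z' in 𝓝 z, P.χ k ((K.ch i).symm z') = 0 := by
  have hS : IsCompact ((K.ch k).symm '' closedBall (0 : V) 1) := by
    apply (isCompact_closedBall (0 : V) 1).image_of_continuousOn
    apply (K.ch k).continuousOn_symm.mono
    rw [K.tgt]
    exact closedBall_subset_ball (by norm_num)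
  have hc : ContinuousAt (K.ch i).symm z := (K.ch i).continuousAt_symm (by rw [K.tgt]; exact hz)
  have hx : (K.ch i).symm z ∉ (K.ch k).symm '' closedBall (0 : V) 1 := by
    rintro ⟨y, hy, hyx⟩
    apply hn
    have hyt : y ∈ (K.ch k).target := by
      rw [K.tgt]
      exact closedBall_subset_ball (by norm_num) hy
    rw [← hyx]
    refine ⟨(K.ch k).map_target hyt, ?_⟩
    rw [(K.ch k).right_inv hyt]
    exact closedBall_subset_ball (by norm_num) hy
  have := hc.eventually (hS.isClosed.isOpen_compl.mem_nhds hx)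
  filter_upwards [this] with z' hz'
  by_contra h
  obtain ⟨h1, h2⟩ := P.supp k _ h
  apply hz'
  exact ⟨K.ch k ((K.ch i).symm z'), ball_subset_closedBall h2, (K.ch k).left_inv h1⟩

lemma ev_zero' (P : Part K) (k : K.ι) {z : V} (hz : z ∈ ball (0 : V) 3) (h1 : 1 < ‖z‖) :
    ∀ᶠ z' in 𝓝 z, P.χ k ((K.ch k).symm z') = 0 := by
  filter_upwards [isOpen_ball.mem_nhds hz,
    (isOpen_lt continuous_const continuous_norm).mem_nhds h1] with z' h2 h3 using
    chi_zero P k h2 (le_of_lt h3)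

lemma chi_le (P : Part K) (k : K.ι) (x : X) : P.χ k x ≤ 1 := by
  rw [← P.sum x]
  exact Finset.single_le_sum (fun i _ => P.nn i x) (Finset.mem_univ k)

lemma lc_gw (P : Part K) (ρ : V → ℝ) (ε : ℝ) (f : K.ι → V → ℝ) (k : K.ι) {z : V}
    (hz : z ∈ ball (0 : V) 3) :
    lc K (gw P ρ ε f k) k z = lc K (P.χ k) k z * (mo ρ ε (f k) z - f k z) := by
  unfold lc gw
  rw [(K.ch k).right_inv (by rw [K.tgt]; exact hz)]

lemma h_smooth {ρ : V → ℝ} (hρ : IsM ρ) {ε : ℝ} (h0 : 0 < ε) (h1 : ε < 1) {f : K.ι → V → ℝ}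
    (hf : IsF K f) (k : K.ι) :
    ContDiffOn ℝ ∞ (fun z => mo ρ ε (f k) z - f k z) (ball 0 2) :=
  (mo_smooth hρ h0 h1 (hf.s k)).sub ((hf.s k).mono (ball_subset_ball (by norm_num)))

lemma gw_smooth_k (P : Part K) {ρ : V → ℝ} (hρ : IsM ρ) {ε : ℝ} (h0 : 0 < ε) (h1 : ε < 1)
    {f : K.ι → V → ℝ} (hf : IsF K f) (k : K.ι) :
    ContDiffOn ℝ ∞ (lc K (gw P ρ ε f k) k) (ball 0 3) := by
  intro z hz
  refine ContDiffAt.contDiffWithinAt ?_
  by_cases h : ‖z‖ < 2
  · have hz2 : z ∈ ball (0 : V) 2 := by rwa [mem_ball_zero_iff]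
    have hcd : ContDiffAt ℝ ∞ (fun z => lc K (P.χ k) k z * (mo ρ ε (f k) z - f k z)) z :=
      ((((P.s k k).mono (ball_subset_ball (by norm_num))).mul (h_smooth hρ h0 h1 hf k)) z
        hz2).contDiffAt (isOpen_ball.mem_nhds hz2)
    refine hcd.congr_of_eventuallyEq ?_
    filter_upwards [isOpen_ball.mem_nhds hz] with z' hz'
    exact lc_gw P ρ ε f k hz'
  · have : lc K (gw P ρ ε f k) k =ᶠ[𝓝 z] fun _ => 0 := by
      filter_upwards [ev_zero' P k hz (by linarith [not_lt.1 h])] with z' hz'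
      unfold lc gw
      rw [hz', zero_mul]
    exact contDiffAt_const.congr_of_eventuallyEq this

lemma gw_isS [T2Space X] (P : Part K) {ρ : V → ℝ} (hρ : IsM ρ) {ε : ℝ} (h0 : 0 < ε) (h1 : ε < 1)
    {f : K.ι → V → ℝ} (hf : IsF K f) (k : K.ι) : IsS K (gw P ρ ε f k) := by
  refine isS_of_chart K k (gw_smooth_k P hρ h0 h1 hf k) ?_
  intro x hx
  have : P.χ k x ≠ 0 := by
    intro h
    apply hx
    unfold gw
    rw [h, zero_mul]
  obtain ⟨a, b⟩ := P.supp k x this
  exact ⟨a, ball_subset_ball (by norm_num) b⟩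

lemma gw_ev [T2Space X] (P : Part K) (ρ : V → ℝ) (ε : ℝ) (f : K.ι → V → ℝ) (i k : K.ι) {z : V}
    (h : ∀ᶠ z' in 𝓝 z, P.χ k ((K.ch i).symm z') = 0) :
    lc K (gw P ρ ε f k) i =ᶠ[𝓝 z] fun _ => 0 := by
  filter_upwards [h] with z' hz'
  unfold lc gw
  rw [hz', zero_mul]

lemma fderiv_ev {F : V → ℝ} {z : V} (h : F =ᶠ[𝓝 z] fun _ => 0) : fderiv ℝ F z = 0 := by
  rw [h.fderiv_eq]
  simp

lemma D2_ev {F : V → ℝ} {z : V} (h : F =ᶠ[𝓝 z] fun _ => 0) : D2 F z = 0 := by
  unfold D2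
  have h2 : fderiv ℝ F =ᶠ[𝓝 z] fun _ => 0 := by
    filter_upwards [h.eventually_nhds] with z' hz'
    exact fderiv_ev hz'
  rw [h2.fderiv_eq]
  simp

lemma en_zero (C : Matrix (Fin 2) (Fin 2) ℂ) : en C 0 0 = 0 := by
  unfold en cG
  simp

lemma lp_zero (C : Matrix (Fin 2) (Fin 2) ℂ) : lp C 0 = 0 := by
  unfold lp cH
  simp

lemma ball_ae : (closedBall (0 : V) 1) =ᵐ[volume] (ball (0 : V) 1) := by
  refine (ae_eq_set.2 ⟨?_, ?_⟩)
  · rw [closedBall_sdiff_ball]
    exact Measure.addHaar_sphere_of_ne_zero volume (0 : V) one_ne_zero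
  · rw [sdiff_eq_empty.2 ball_subset_closedBall]
    exact measure_empty

lemma int_shrink {F : V → ℝ} (h : ∀ z ∈ ball (0 : V) 2, 1 < ‖z‖ → F z = 0) :
    ∫ z in ball (0 : V) 2, F z = ∫ z in ball (0 : V) 1, F z := by
  rw [setIntegral_eq_of_subset_of_forall_sdiff_eq_zero (s := closedBall (0 : V) 1)
    measurableSet_ball (closedBall_subset_ball (by norm_num)), setIntegral_congr_set ball_ae]
  intro z hz
  refine h z hz.1 ?_
  have := hz.2
  rw [mem_closedBall_zero_iff] at this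
  linarith [not_le.1 this]

lemma int_sq {W : Type} [NormedAddCommGroup W] {F : V → W} {r : ℝ}
    (h : ContinuousOn F (closedBall 0 r)) :
    IntegrableOn (fun z => ‖F z‖ ^ 2) (ball (0 : V) r) :=
  ((h.norm.pow 2).integrableOn_compact (isCompact_closedBall _ _)).mono_set ball_subset_closedBall

/-- the estimates for one chart -/
lemma glue_one [T2Space X] (P : Part K) {ρ : V → ℝ} (hρ : IsM ρ) (k : K.ι) :
    ∃ Kc : ℝ, 0 < Kc ∧
    ∀ f : K.ι → V → ℝ, IsF K f → ∀ ε : ℝ, 0 < ε → ε < 1 →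
      P.En (lc K (gw P ρ ε f k)) (lc K (gw P ρ ε f k)) ≤ Kc * er ρ ε (f k) ∧
      P.Int (fun i z => (lc K (P.χ k) i z * lp (K.C i z) (D2 (f i) z) +
          lp (K.C i z) (D2 (lc K (gw P ρ ε f k) i) z)) ^ 2 / K.g i z) ≤
        Kc * (er ρ ε (f k) + sq 1 (fun x => lp (K.C k x) (D2 (mo ρ ε (f k)) x))) := by
  obtain ⟨c, hc, Kb, hKb, hb⟩ := bounds (K.isK k)
  have hχs : ContDiffOn ℝ ∞ (lc K (P.χ k) k) (ball 0 3) := P.s k k
  have h13 : closedBall (0 : V) 1 ⊆ ball 0 3 := closedBall_subset_ball (by norm_num)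
  have h12 : closedBall (0 : V) 1 ⊆ ball 0 2 := closedBall_subset_ball (by norm_num)
  obtain ⟨B₁, hB₁⟩ := (isCompact_closedBall (0 : V) 1).exists_bound_of_continuousOn
    ((fderiv_smooth hχs).continuousOn.mono h13)
  have hcn : ContinuousOn (fun z => ‖D2 (lc K (P.χ k) k) z‖) (closedBall (0 : V) 1) :=
    (continuous_norm (E := V →L[ℝ] V →L[ℝ] ℝ)).comp_continuousOn
      ((D2_smooth hχs).continuousOn.mono h13)
  obtain ⟨B₂, hB₂'⟩ := (isCompact_closedBall (0 : V) 1).exists_bound_of_continuousOn hcn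
  have hB₂ : ∀ z ∈ closedBall (0 : V) 1, ‖D2 (lc K (P.χ k) k) z‖ ≤ B₂ := by
    intro z hz
    exact (Real.le_norm_self _).trans (hB₂' z hz)
  have hB1 : 0 ≤ B₁ := (norm_nonneg _).trans (hB₁ 0 (by simp))
  have hB2 : 0 ≤ B₂ := (norm_nonneg (D2 (lc K (P.χ k) k) 0)).trans (hB₂ 0 (by simp))
  refine ⟨2 * Kb * (1 + B₁ ^ 2) + 3 / c * (1 + 4 * Kb ^ 2 * B₁ ^ 2 + Kb ^ 2 * B₂ ^ 2),
    by positivity, ?_⟩
  intro f hf ε h0 h1
  have hw := gw_isS P hρ h0 h1 hf k
  have hh := h_smooth hρ h0 h1 hf k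
  have hm := mo_smooth hρ h0 h1 (hf.s k)
  have hfk : ContDiffOn ℝ ∞ (f k) (ball 0 2) := (hf.s k).mono (ball_subset_ball (by norm_num))
  -- continuity on the closed ball
  have c1 : ContinuousOn (fun x => mo ρ ε (f k) x - f k x) (closedBall 0 1) :=
    hh.continuousOn.mono h12
  have c2 : ContinuousOn (fun x => fderiv ℝ (mo ρ ε (f k)) x - fderiv ℝ (f k) x)
      (closedBall 0 1) :=
    ((fderiv_smooth hm).continuousOn.sub (fderiv_smooth hfk).continuousOn).mono h12
  have c3 : ContinuousOn (fun x => lp (K.C k x) (D2 (mo ρ ε (f k)) x)) (closedBall 0 1) :=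
    (lp_smooth (K.isK k) (by norm_num) hm).continuousOn.mono h12
  have i1 := int_sq c1
  have i2 := int_sq c2
  have i3 := int_sq c3
  have n1 : 0 ≤ sq 1 (fun x => mo ρ ε (f k) x - f k x) := by
    unfold sq
    exact integral_nonneg (fun _ => by positivity)
  have n2 : 0 ≤ sq 1 (fun x => fderiv ℝ (mo ρ ε (f k)) x - fderiv ℝ (f k) x) := by
    unfold sq
    exact integral_nonneg (fun _ => by positivity)
  have n3 : 0 ≤ sq 1 (fun x => lp (K.C k x) (D2 (mo ρ ε (f k)) x)) := by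
    unfold sq
    exact integral_nonneg (fun _ => by positivity)
  -- pointwise facts
  have hχ0 : ∀ z, 0 ≤ lc K (P.χ k) k z := fun z => P.nn k _
  have hχ1 : ∀ z, lc K (P.χ k) k z ≤ 1 := fun z => chi_le P k _
  have hdh : ∀ z ∈ ball (0 : V) 2, fderiv ℝ (fun z => mo ρ ε (f k) z - f k z) z =
      fderiv ℝ (mo ρ ε (f k)) z - fderiv ℝ (f k) z := by
    intro z hz
    exact fderiv_fun_sub
      (((hm z hz).contDiffAt (isOpen_ball.mem_nhds hz)).differentiableAt (by simp))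
      (((hfk z hz).contDiffAt (isOpen_ball.mem_nhds hz)).differentiableAt (by simp))
  have hwev : ∀ z ∈ ball (0 : V) 2, lc K (gw P ρ ε f k) k =ᶠ[𝓝 z]
      fun z => lc K (P.χ k) k z * (mo ρ ε (f k) z - f k z) := by
    intro z hz
    filter_upwards [isOpen_ball.mem_nhds (ball_subset_ball (by norm_num : (2 : ℝ) ≤ 3) hz)]
      with z' hz'
    exact lc_gw P ρ ε f k hz'
  have hdw : ∀ z ∈ ball (0 : V) 2, fderiv ℝ (lc K (gw P ρ ε f k) k) z =
      lc K (P.χ k) k z • (fderiv ℝ (mo ρ ε (f k)) z - fderiv ℝ (f k) z) +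
        (mo ρ ε (f k) z - f k z) • fderiv ℝ (lc K (P.χ k) k) z := by
    intro z hz
    rw [(hwev z hz).fderiv_eq, ← hdh z hz]
    exact fderiv_fun_mul
      (((hχs z (ball_subset_ball (by norm_num) hz)).contDiffAt
        (isOpen_ball.mem_nhds (ball_subset_ball (by norm_num) hz))).differentiableAt (by simp))
      (((hh z hz).contDiffAt (isOpen_ball.mem_nhds hz)).differentiableAt (by simp))
  have hD2w : ∀ z ∈ ball (0 : V) 2, D2 (lc K (gw P ρ ε f k) k) z =
      D2 (fun z => lc K (P.χ k) k z * (mo ρ ε (f k) z - f k z)) z := by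
    intro z hz
    unfold D2
    exact (hwev z hz).fderiv.fderiv_eq
  have hχ2 : ContDiffOn ℝ ∞ (lc K (P.χ k) k) (ball 0 2) := hχs.mono (ball_subset_ball (by norm_num))
  refine ⟨?_, ?_⟩
  · -- the energy
    have hloc := P.Int_loc (hw.isF.en_dens hw.isF)
      (fun i => (en_smooth (K.isK i) le_rfl (hw i) (hw i)).continuousOn) k
      (by
        intro i z hz hne
        by_contra hno
        apply hne
        have := fderiv_ev (gw_ev P ρ ε f i k (ev_zero P i k hz hno))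
        simp only [this]
        exact en_zero _)
    have e1 : P.En (lc K (gw P ρ ε f k)) (lc K (gw P ρ ε f k)) =
        ∫ z in ball (0 : V) 1, en (K.C k z) (fderiv ℝ (lc K (gw P ρ ε f k) k) z)
          (fderiv ℝ (lc K (gw P ρ ε f k) k) z) := by
      unfold Part.En
      rw [hloc]
      refine int_shrink ?_
      intro z hz h1z
      rw [fderiv_ev (gw_ev P ρ ε f k k (ev_zero' P k (ball_subset_ball (by norm_num) hz) h1z))]
      exact en_zero _
    rw [e1]
    have hpt : ∀ z ∈ ball (0 : V) 1, en (K.C k z) (fderiv ℝ (lc K (gw P ρ ε f k) k) z)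
          (fderiv ℝ (lc K (gw P ρ ε f k) k) z) ≤
        2 * Kb * (1 + B₁ ^ 2) * (‖mo ρ ε (f k) z - f k z‖ ^ 2 +
          ‖fderiv ℝ (mo ρ ε (f k)) z - fderiv ℝ (f k) z‖ ^ 2) := by
      intro z hz
      have hz2 : z ∈ ball (0 : V) 2 := ball_subset_ball (by norm_num) hz
      have hzc : z ∈ closedBall (0 : V) 1 := ball_subset_closedBall hz
      refine ((hb z (ball_subset_closedBall hz2)).1 _).2.trans ?_
      have h3 : ‖fderiv ℝ (lc K (gw P ρ ε f k) k) z‖ ≤
          ‖fderiv ℝ (mo ρ ε (f k)) z - fderiv ℝ (f k) z‖ + ‖mo ρ ε (f k) z - f k z‖ * B₁ := by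
        rw [hdw z hz2]
        refine (norm_add_le _ _).trans ?_
        rw [norm_smul, norm_smul, Real.norm_of_nonneg (hχ0 z)]
        refine add_le_add ?_ (mul_le_mul_of_nonneg_left (hB₁ z hzc) (norm_nonneg _))
        exact mul_le_of_le_one_left (norm_nonneg _) (hχ1 z)
      have h4 : ‖fderiv ℝ (lc K (gw P ρ ε f k) k) z‖ ^ 2 ≤
          (‖fderiv ℝ (mo ρ ε (f k)) z - fderiv ℝ (f k) z‖ + ‖mo ρ ε (f k) z - f k z‖ * B₁) ^ 2 :=
        pow_le_pow_left₀ (norm_nonneg _) h3 2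
      have h5 : (‖fderiv ℝ (mo ρ ε (f k)) z - fderiv ℝ (f k) z‖ +
          ‖mo ρ ε (f k) z - f k z‖ * B₁) ^ 2 ≤
          2 * (1 + B₁ ^ 2) * (‖mo ρ ε (f k) z - f k z‖ ^ 2 +
            ‖fderiv ℝ (mo ρ ε (f k)) z - fderiv ℝ (f k) z‖ ^ 2) := by
        set p := ‖fderiv ℝ (mo ρ ε (f k)) z - fderiv ℝ (f k) z‖
        set q := ‖mo ρ ε (f k) z - f k z‖
        nlinarith [sq_nonneg (p - q * B₁), sq_nonneg (p * B₁), sq_nonneg q, sq_nonneg p]
      calc Kb * ‖fderiv ℝ (lc K (gw P ρ ε f k) k) z‖ ^ 2 ≤ Kb * (2 * (1 + B₁ ^ 2) *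
            (‖mo ρ ε (f k) z - f k z‖ ^ 2 +
            ‖fderiv ℝ (mo ρ ε (f k)) z - fderiv ℝ (f k) z‖ ^ 2)) :=
            mul_le_mul_of_nonneg_left (h4.trans h5) hKb.le
        _ = _ := by ring
    have hcont : ContinuousOn (fun z => en (K.C k z) (fderiv ℝ (lc K (gw P ρ ε f k) k) z)
          (fderiv ℝ (lc K (gw P ρ ε f k) k) z)) (closedBall 0 1) :=
      (en_smooth (K.isK k) le_rfl (hw k) (hw k)).continuousOn.mono h13
    have hint : IntegrableOn (fun z => en (K.C k z) (fderiv ℝ (lc K (gw P ρ ε f k) k) z)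
          (fderiv ℝ (lc K (gw P ρ ε f k) k) z)) (ball (0 : V) 1) :=
      (hcont.integrableOn_compact (isCompact_closedBall _ _)).mono_set ball_subset_closedBall
    refine (setIntegral_mono_on hint ((i1.add i2).const_mul _) measurableSet_ball hpt).trans ?_
    rw [integral_const_mul, integral_add' i1 i2]
    refine mul_le_mul_of_nonneg_right ?_ (add_nonneg n1 n2)
    have : 0 ≤ 3 / c * (1 + 4 * Kb ^ 2 * B₁ ^ 2 + Kb ^ 2 * B₂ ^ 2) := by positivity
    linarith
  · -- the Laplacian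
    have hdens : IsD K (fun i z => lc K (P.χ k) i z * lp (K.C i z) (D2 (f i) z) +
          lp (K.C i z) (D2 (lc K (gw P ρ ε f k) i) z)) :=
      (hf.lp_dens.smulS (P.χ k)).add hw.isF.lp_dens
    have hDc : ∀ i, ContinuousOn (fun z => lc K (P.χ k) i z * lp (K.C i z) (D2 (f i) z) +
          lp (K.C i z) (D2 (lc K (gw P ρ ε f k) i) z)) (ball 0 3) := fun i =>
      ((P.s k i).continuousOn.mul (lp_smooth (K.isK i) le_rfl (hf.s i)).continuousOn).add
        (lp_smooth (K.isK i) le_rfl (hw i)).continuousOn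
    have hgc : ∀ i, ContinuousOn (K.g i) (ball 0 3) := fun i => (det_smooth (K.isK i)).continuousOn
    have hgpos : ∀ i, ∀ z ∈ ball (0 : V) 3, 0 < K.g i z := fun i z hz => (det_pos (K.isK i) hz).1
    have hQc : ∀ i, ContinuousOn (fun z => (lc K (P.χ k) i z * lp (K.C i z) (D2 (f i) z) +
          lp (K.C i z) (D2 (lc K (gw P ρ ε f k) i) z)) ^ 2 / K.g i z) (ball 0 3) := fun i =>
      ((hDc i).pow 2).div (hgc i) (fun z hz => (hgpos i z hz).ne')
    have hloc := P.Int_loc hdens.sq_div hQc k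
      (by
        intro i z hz hne
        by_contra hno
        apply hne
        have hev := ev_zero P i k hz hno
        have h2 := D2_ev (gw_ev P ρ ε f i k hev)
        have h3 : lc K (P.χ k) i z = 0 := hev.self_of_nhds
        simp only [h2, h3, lp_zero]
        simp)
    rw [hloc, int_shrink (by
      intro z hz h1z
      have hev := ev_zero' P k (ball_subset_ball (by norm_num) hz) h1z
      have h2 := D2_ev (gw_ev P ρ ε f k k hev)
      have h3 : lc K (P.χ k) k z = 0 := hev.self_of_nhds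
      simp only [h2, h3, lp_zero]
      simp)]
    have hpt : ∀ z ∈ ball (0 : V) 1, (lc K (P.χ k) k z * lp (K.C k z) (D2 (f k) z) +
          lp (K.C k z) (D2 (lc K (gw P ρ ε f k) k) z)) ^ 2 / K.g k z ≤
        3 / c * (1 + 4 * Kb ^ 2 * B₁ ^ 2 + Kb ^ 2 * B₂ ^ 2) *
          (‖mo ρ ε (f k) z - f k z‖ ^ 2 + ‖fderiv ℝ (mo ρ ε (f k)) z - fderiv ℝ (f k) z‖ ^ 2 +
            ‖lp (K.C k z) (D2 (mo ρ ε (f k)) z)‖ ^ 2) := by
      intro z hz
      have hz2 : z ∈ ball (0 : V) 2 := ball_subset_ball (by norm_num) hz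
      have hz3 : z ∈ ball (0 : V) 3 := ball_subset_ball (by norm_num) hz
      have hzc : z ∈ closedBall (0 : V) 1 := ball_subset_closedBall hz
      obtain ⟨b1, b2, b3, b4, b5⟩ := hb z (ball_subset_closedBall hz2)
      have e1 : lp (K.C k z) (D2 (lc K (gw P ρ ε f k) k) z) =
          lc K (P.χ k) k z * lp (K.C k z) (D2 (fun z => mo ρ ε (f k) z - f k z) z) +
          2 * en (K.C k z) (fderiv ℝ (lc K (P.χ k) k) z)
            (fderiv ℝ (fun z => mo ρ ε (f k) z - f k z) z) +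
          (mo ρ ε (f k) z - f k z) * lp (K.C k z) (D2 (lc K (P.χ k) k) z) := by
        rw [hD2w z hz2]
        exact lp_mul (K.isK k) (by norm_num) hχ2 hh hz2
      have e2 : lp (K.C k z) (D2 (mo ρ ε (f k)) z) = lp (K.C k z) (D2 (f k) z) +
          lp (K.C k z) (D2 (fun z => mo ρ ε (f k) z - f k z) z) := by
        rw [← lp_add, ← D2_add hfk hh hz2]
        congr 2
        funext w
        ring
      have e3 : lc K (P.χ k) k z * lp (K.C k z) (D2 (f k) z) +
          lp (K.C k z) (D2 (lc K (gw P ρ ε f k) k) z) =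
          lc K (P.χ k) k z * lp (K.C k z) (D2 (mo ρ ε (f k)) z) +
          2 * en (K.C k z) (fderiv ℝ (lc K (P.χ k) k) z)
            (fderiv ℝ (mo ρ ε (f k)) z - fderiv ℝ (f k) z) +
          (mo ρ ε (f k) z - f k z) * lp (K.C k z) (D2 (lc K (P.χ k) k) z) := by
        rw [e1, e2, hdh z hz2]
        ring
      rw [e3]
      have hg : c ≤ K.g k z := b2.1
      have hgp : 0 < K.g k z := lt_of_lt_of_le hc hg
      have hen : (en (K.C k z) (fderiv ℝ (lc K (P.χ k) k) z)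
            (fderiv ℝ (mo ρ ε (f k)) z - fderiv ℝ (f k) z)) ^ 2 ≤
          Kb ^ 2 * B₁ ^ 2 * ‖fderiv ℝ (mo ρ ε (f k)) z - fderiv ℝ (f k) z‖ ^ 2 := by
        refine (en_sq_le (K.isK k) hz3 _ _).trans ?_
        have t1 := (b1 (fderiv ℝ (lc K (P.χ k) k) z)).2
        have t2 := (b1 (fderiv ℝ (mo ρ ε (f k)) z - fderiv ℝ (f k) z)).2
        have t3 : ‖fderiv ℝ (lc K (P.χ k) k) z‖ ^ 2 ≤ B₁ ^ 2 :=
          pow_le_pow_left₀ (norm_nonneg _) (hB₁ z hzc) 2
        have t4 := en_nonneg (K.isK k) hz3 (fderiv ℝ (mo ρ ε (f k)) z - fderiv ℝ (f k) z)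
        calc _ ≤ (Kb * B₁ ^ 2) *
              (Kb * ‖fderiv ℝ (mo ρ ε (f k)) z - fderiv ℝ (f k) z‖ ^ 2) :=
              mul_le_mul (t1.trans (mul_le_mul_of_nonneg_left t3 hKb.le)) t2 t4 (by positivity)
          _ = _ := by ring
      have hlp : (lp (K.C k z) (D2 (lc K (P.χ k) k) z)) ^ 2 ≤ Kb ^ 2 * B₂ ^ 2 := by
        have t1 : |lp (K.C k z) (D2 (lc K (P.χ k) k) z)| ≤ Kb * B₂ :=
          (b4 _).trans (mul_le_mul_of_nonneg_left (hB₂ z hzc) hKb.le)
        rw [← sq_abs, ← mul_pow]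
        exact pow_le_pow_left₀ (abs_nonneg _) t1 2
      rw [div_le_iff₀ hgp]
      set A := lp (K.C k z) (D2 (mo ρ ε (f k)) z)
      set x := lc K (P.χ k) k z with hx
      set E := en (K.C k z) (fderiv ℝ (lc K (P.χ k) k) z)
            (fderiv ℝ (mo ρ ε (f k)) z - fderiv ℝ (f k) z)
      set F := lp (K.C k z) (D2 (lc K (P.χ k) k) z)
      set q := mo ρ ε (f k) z - f k z
      set p := ‖fderiv ℝ (mo ρ ε (f k)) z - fderiv ℝ (f k) z‖
      rw [Real.norm_eq_abs q, sq_abs, Real.norm_eq_abs A, sq_abs]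
      have hx0 : 0 ≤ x := hχ0 z
      have hx1 : x ≤ 1 := hχ1 z
      have s1 : (x * A + 2 * E + q * F) ^ 2 ≤ 3 * ((x * A) ^ 2 + (2 * E) ^ 2 + (q * F) ^ 2) := by
        nlinarith [sq_nonneg (x * A - 2 * E), sq_nonneg (2 * E - q * F),
          sq_nonneg (x * A - q * F)]
      have s2 : (x * A) ^ 2 ≤ A ^ 2 := by
        rw [mul_pow]
        have : x ^ 2 ≤ 1 := by nlinarith
        nlinarith [sq_nonneg A]
      have s3 : (2 * E) ^ 2 ≤ 4 * Kb ^ 2 * B₁ ^ 2 * p ^ 2 := by nlinarith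
      have s4 : (q * F) ^ 2 ≤ Kb ^ 2 * B₂ ^ 2 * q ^ 2 := by
        rw [mul_pow]
        nlinarith [sq_nonneg q]
      have s5 : A ^ 2 + 4 * Kb ^ 2 * B₁ ^ 2 * p ^ 2 + Kb ^ 2 * B₂ ^ 2 * q ^ 2 ≤
          (1 + 4 * Kb ^ 2 * B₁ ^ 2 + Kb ^ 2 * B₂ ^ 2) * (q ^ 2 + p ^ 2 + A ^ 2) := by
        have u1 : 0 ≤ 4 * Kb ^ 2 * B₁ ^ 2 := by positivity
        have u2 : 0 ≤ Kb ^ 2 * B₂ ^ 2 := by positivity
        nlinarith [mul_nonneg u1 (sq_nonneg q), mul_nonneg u1 (sq_nonneg A),
          mul_nonneg u2 (sq_nonneg p), mul_nonneg u2 (sq_nonneg A), sq_nonneg q, sq_nonneg p]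
      have s6 : (x * A + 2 * E + q * F) ^ 2 ≤
          3 * ((1 + 4 * Kb ^ 2 * B₁ ^ 2 + Kb ^ 2 * B₂ ^ 2) * (q ^ 2 + p ^ 2 + A ^ 2)) := by
        linarith
      refine s6.trans ?_
      have s7 : 0 ≤ (1 + 4 * Kb ^ 2 * B₁ ^ 2 + Kb ^ 2 * B₂ ^ 2) * (q ^ 2 + p ^ 2 + A ^ 2) := by
        positivity
      calc 3 * ((1 + 4 * Kb ^ 2 * B₁ ^ 2 + Kb ^ 2 * B₂ ^ 2) * (q ^ 2 + p ^ 2 + A ^ 2)) =
            3 / c * ((1 + 4 * Kb ^ 2 * B₁ ^ 2 + Kb ^ 2 * B₂ ^ 2) * (q ^ 2 + p ^ 2 + A ^ 2)) *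
              c := by field_simp
        _ ≤ 3 / c * ((1 + 4 * Kb ^ 2 * B₁ ^ 2 + Kb ^ 2 * B₂ ^ 2) * (q ^ 2 + p ^ 2 + A ^ 2)) *
              K.g k z := mul_le_mul_of_nonneg_left hg (by positivity)
        _ = _ := by ring
    have hint : IntegrableOn (fun z => (lc K (P.χ k) k z * lp (K.C k z) (D2 (f k) z) +
          lp (K.C k z) (D2 (lc K (gw P ρ ε f k) k) z)) ^ 2 / K.g k z) (ball (0 : V) 1) :=
      (((hQc k).mono h13).integrableOn_compact (isCompact_closedBall _ _)).mono_set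
        ball_subset_closedBall
    refine (setIntegral_mono_on hint (((i1.add i2).add i3).const_mul _) measurableSet_ball
      hpt).trans ?_
    rw [integral_const_mul, integral_add' (i1.add i2) i3, integral_add' i1 i2]
    refine mul_le_mul_of_nonneg_right ?_ (add_nonneg (add_nonneg n1 n2) n3)
    have : 0 ≤ 2 * Kb * (1 + B₁ ^ 2) := by positivity
    linarith

lemma en_sum_left (C : Matrix (Fin 2) (Fin 2) ℂ) {κ : Type} (s : Finset κ)
    (α : κ → V →L[ℝ] ℝ) (β : V →L[ℝ] ℝ) :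
    en C (∑ a ∈ s, α a) β = ∑ a ∈ s, en C (α a) β :=
  map_sum (AddMonoidHom.mk' (fun α => en C α β) (fun a b => en_add_left C a b β)) α s

lemma en_sum_right (C : Matrix (Fin 2) (Fin 2) ℂ) {κ : Type} (s : Finset κ)
    (α : κ → V →L[ℝ] ℝ) (β : V →L[ℝ] ℝ) :
    en C β (∑ a ∈ s, α a) = ∑ a ∈ s, en C β (α a) :=
  map_sum (AddMonoidHom.mk' (fun α => en C β α) (fun a b => en_add_right C β a b)) α s

lemma en_sum_le {G : V → Matrix (Fin 2) (Fin 2) ℂ} (hG : IsK G) {z : V}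
    (hz : z ∈ ball (0 : V) 3) {κ : Type} (s : Finset κ) (α : κ → V →L[ℝ] ℝ) :
    en (G z).adjugate (∑ a ∈ s, α a) (∑ a ∈ s, α a) ≤
      s.card * ∑ a ∈ s, en (G z).adjugate (α a) (α a) := by
  have h2 : ∀ a b, 2 * en (G z).adjugate (α a) (α b) ≤
      en (G z).adjugate (α a) (α a) + en (G z).adjugate (α b) (α b) := by
    intro a b
    have h := en_nonneg hG hz (α a + (-1 : ℝ) • α b)
    rw [en_add_left, en_add_right, en_add_right, en_smul_left, en_smul_right, en_smul_left,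
      en_smul_right, en_symm (adj_herm (hG.herm z hz)) (α b) (α a)] at h
    linarith
  rw [en_sum_left]
  simp_rw [en_sum_right]
  have h3 : ∑ a ∈ s, ∑ b ∈ s, en (G z).adjugate (α a) (α b) ≤
      ∑ a ∈ s, ∑ b ∈ s, (en (G z).adjugate (α a) (α a) + en (G z).adjugate (α b) (α b)) / 2 :=
    Finset.sum_le_sum (fun a _ => Finset.sum_le_sum (fun b _ => by linarith [h2 a b]))
  refine h3.trans (le_of_eq ?_)
  have h4 : ∀ a ∈ s, ∑ b ∈ s, (en (G z).adjugate (α a) (α a) +
      en (G z).adjugate (α b) (α b)) / 2 = s.card * (en (G z).adjugate (α a) (α a) / 2) +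
        (∑ b ∈ s, en (G z).adjugate (α b) (α b)) / 2 := by
    intro a _
    rw [← Finset.sum_div, Finset.sum_add_distrib, Finset.sum_const, nsmul_eq_mul]
    ring
  rw [Finset.sum_congr rfl h4, Finset.sum_add_distrib, Finset.sum_const, nsmul_eq_mul,
    ← Finset.mul_sum, ← Finset.sum_div]
  ring

lemma lp_D2_sum (C : Matrix (Fin 2) (Fin 2) ℂ) {κ : Type} (s : Finset κ) {u : κ → V → ℝ}
    (hu : ∀ a, ContDiffOn ℝ ∞ (u a) (ball 0 3)) {z : V} (hz : z ∈ ball (0 : V) 3) :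
    lp C (D2 (fun w => ∑ a ∈ s, u a w) z) = ∑ a ∈ s, lp C (D2 (u a) z) := by
  classical
  induction s using Finset.induction_on with
  | empty =>
    simp only [Finset.sum_empty]
    rw [D2_ev (F := fun _ => 0) (Filter.Eventually.of_forall (fun _ => rfl)), lp_zero]
  | insert a s ha ih =>
    simp only [Finset.sum_insert ha]
    rw [D2_add (hu a) (ContDiffOn.sum (fun b _ => hu b)) hz, lp_add, ih]

end HdGlue

/-- Replace `f` by its mollification in all charts: the correction is a global function `v`. -/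
theorem glue [T2Space X] (P : Part K) {ρ : V → ℝ} (hρ : IsM ρ) : ∃ Kc : ℝ, 0 < Kc ∧
    ∀ f : K.ι → V → ℝ, IsF K f → ∀ ε : ℝ, 0 < ε → ε < 1 → ∃ v : X → ℝ, IsS K v ∧
      P.En (lc K v) (lc K v) ≤ Kc * ∑ k, er ρ ε (f k) ∧
      P.La (fun i z => f i z + lc K v i z) ≤ Kc * ∑ k, (er ρ ε (f k)
        + sq 1 (fun x => lp (K.C k x) (D2 (mo ρ ε (f k)) x))) := by
  classical
  choose Kc hKc hest using fun k => HdGlue.glue_one P hρ k
  set N : ℝ := ((Finset.univ : Finset K.ι).card : ℝ) with hN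
  have hN0 : 0 ≤ N := Nat.cast_nonneg _
  have hKsum : 0 ≤ ∑ k, Kc k := Finset.sum_nonneg (fun k _ => (hKc k).le)
  refine ⟨(N + 1) * (∑ k, Kc k + 1), by positivity, ?_⟩
  intro f hf ε h0 h1
  have hwS : ∀ k, IsS K (HdGlue.gw P ρ ε f k) := fun k => HdGlue.gw_isS P hρ h0 h1 hf k
  have hvS : IsS K (fun x => ∑ k, HdGlue.gw P ρ ε f k x) := IsS.sum _ (fun k _ => hwS k)
  have her : ∀ k, 0 ≤ er ρ ε (f k) := by
    intro k
    unfold er sq
    exact add_nonneg (integral_nonneg (fun _ => by positivity))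
      (integral_nonneg (fun _ => by positivity))
  have her2 : ∀ k, 0 ≤ er ρ ε (f k) + sq 1 (fun x => lp (K.C k x) (D2 (mo ρ ε (f k)) x)) := by
    intro k
    refine add_nonneg (her k) ?_
    unfold sq
    exact integral_nonneg (fun _ => by positivity)
  have hsum : ∀ a : K.ι → ℝ, (∀ k, 0 ≤ a k) →
      N * ∑ k, Kc k * a k ≤ (N + 1) * (∑ k, Kc k + 1) * ∑ k, a k := by
    intro a ha
    have hs0 : 0 ≤ ∑ k, a k := Finset.sum_nonneg (fun k _ => ha k)
    have h2 : ∑ k, Kc k * a k ≤ (∑ k, Kc k) * ∑ k, a k := by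
      rw [Finset.mul_sum]
      refine Finset.sum_le_sum (fun k _ => mul_le_mul_of_nonneg_right ?_ (ha k))
      exact Finset.single_le_sum (fun i _ => (hKc i).le) (Finset.mem_univ k)
    calc N * ∑ k, Kc k * a k ≤ N * ((∑ k, Kc k) * ∑ k, a k) :=
          mul_le_mul_of_nonneg_left h2 hN0
      _ ≤ (N + 1) * ((∑ k, Kc k + 1) * ∑ k, a k) := by
          refine mul_le_mul (by linarith) (mul_le_mul_of_nonneg_right (by linarith) hs0)
            (mul_nonneg hKsum hs0) (by linarith)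
      _ = _ := by ring
  refine ⟨fun x => ∑ k, HdGlue.gw P ρ ε f k x, hvS, ?_, ?_⟩
  · refine le_trans ?_ (hsum _ her)
    have h2 : P.En (lc K (fun x => ∑ k, HdGlue.gw P ρ ε f k x))
        (lc K (fun x => ∑ k, HdGlue.gw P ρ ε f k x)) ≤
        N * ∑ k, P.En (lc K (HdGlue.gw P ρ ε f k)) (lc K (HdGlue.gw P ρ ε f k)) := by
      unfold Part.En
      rw [← P.Int_sum Finset.univ (D := fun k i z => en (K.C i z)
        (fderiv ℝ (lc K (HdGlue.gw P ρ ε f k) i) z) (fderiv ℝ (lc K (HdGlue.gw P ρ ε f k) i) z))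
        (fun k _ i => (en_smooth (K.isK i) le_rfl (hwS k i) (hwS k i)).continuousOn),
        ← P.Int_smul]
      refine P.Int_mono (fun i => (en_smooth (K.isK i) le_rfl (hvS i) (hvS i)).continuousOn)
        (fun i => ?_) ?_
      · refine ContinuousOn.mul continuousOn_const ?_
        exact continuousOn_finsetSum _
          (fun k _ => (en_smooth (K.isK i) le_rfl (hwS k i) (hwS k i)).continuousOn)
      · intro i z hz
        have hz3 : z ∈ ball (0 : V) 3 := ball_subset_ball (by norm_num) hz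
        have e1 : fderiv ℝ (lc K (fun x => ∑ k, HdGlue.gw P ρ ε f k x) i) z =
            ∑ k, fderiv ℝ (lc K (HdGlue.gw P ρ ε f k) i) z := by
          have : lc K (fun x => ∑ k, HdGlue.gw P ρ ε f k x) i =
              fun z => ∑ k, lc K (HdGlue.gw P ρ ε f k) i z := rfl
          rw [this]
          exact fderiv_fun_sum (fun k _ => (((hwS k i) z hz3).contDiffAt
            (isOpen_ball.mem_nhds hz3)).differentiableAt (by simp))
        rw [e1]
        exact HdGlue.en_sum_le (K.isK i) hz3 Finset.univ _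
    exact h2.trans (mul_le_mul_of_nonneg_left
      (Finset.sum_le_sum (fun k _ => (hest k f hf ε h0 h1).1)) hN0)
  · refine le_trans ?_ (hsum _ her2)
    have hgpos : ∀ i, ∀ z ∈ ball (0 : V) 3, 0 < K.g i z := fun i z hz => (det_pos (K.isK i) hz).1
    have hgc : ∀ i, ContinuousOn (K.g i) (ball 0 3) := fun i => (det_smooth (K.isK i)).continuousOn
    have hQc : ∀ k i, ContinuousOn (fun z => (lc K (P.χ k) i z * lp (K.C i z) (D2 (f i) z) +
          lp (K.C i z) (D2 (lc K (HdGlue.gw P ρ ε f k) i) z)) ^ 2 / K.g i z) (ball 0 3) :=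
      fun k i => ((((P.s k i).continuousOn.mul
        (lp_smooth (K.isK i) le_rfl (hf.s i)).continuousOn).add
        (lp_smooth (K.isK i) le_rfl (hwS k i)).continuousOn).pow 2).div (hgc i)
        (fun z hz => (hgpos i z hz).ne')
    have hfv : ∀ i, ContDiffOn ℝ ∞ (fun z => f i z +
        lc K (fun x => ∑ k, HdGlue.gw P ρ ε f k x) i z) (ball 0 3) :=
      fun i => (hf.s i).add (hvS i)
    have h2 : P.La (fun i z => f i z + lc K (fun x => ∑ k, HdGlue.gw P ρ ε f k x) i z) ≤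
        N * ∑ k, P.Int (fun i z => (lc K (P.χ k) i z * lp (K.C i z) (D2 (f i) z) +
          lp (K.C i z) (D2 (lc K (HdGlue.gw P ρ ε f k) i) z)) ^ 2 / K.g i z) := by
      unfold Part.La
      rw [← P.Int_sum Finset.univ (D := fun k i z => (lc K (P.χ k) i z *
          lp (K.C i z) (D2 (f i) z) +
          lp (K.C i z) (D2 (lc K (HdGlue.gw P ρ ε f k) i) z)) ^ 2 / K.g i z)
        (fun k _ i => hQc k i), ← P.Int_smul]
      refine P.Int_mono (fun i => ?_) (fun i => ?_) ?_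
      · exact ((lp_smooth (K.isK i) le_rfl (hfv i)).continuousOn.pow 2).div (hgc i)
          (fun z hz => (hgpos i z hz).ne')
      · exact ContinuousOn.mul continuousOn_const
          (continuousOn_finsetSum _ (fun k _ => hQc k i))
      · intro i z hz
        have hz3 : z ∈ ball (0 : V) 3 := ball_subset_ball (by norm_num) hz
        have e1 : lp (K.C i z) (D2 (fun z => f i z +
            lc K (fun x => ∑ k, HdGlue.gw P ρ ε f k x) i z) z) =
            ∑ k, (lc K (P.χ k) i z * lp (K.C i z) (D2 (f i) z) +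
              lp (K.C i z) (D2 (lc K (HdGlue.gw P ρ ε f k) i) z)) := by
          rw [D2_add (hf.s i) (hvS i) hz3, lp_add]
          have : lc K (fun x => ∑ k, HdGlue.gw P ρ ε f k x) i =
              fun z => ∑ k, lc K (HdGlue.gw P ρ ε f k) i z := rfl
          rw [this, HdGlue.lp_D2_sum _ _ (fun k => hwS k i) hz3, Finset.sum_add_distrib,
            ← Finset.sum_mul]
          have hχ : ∑ k, lc K (P.χ k) i z = 1 := P.sum _
          rw [hχ, one_mul]
        rw [e1, ← Finset.sum_div, mul_div_assoc']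
        refine div_le_div_of_nonneg_right ?_ (hgpos i z hz3).le
        exact sq_sum_le_card_mul_sum_sq
    exact h2.trans (mul_le_mul_of_nonneg_left
      (Finset.sum_le_sum (fun k _ => (hest k f hf ε h0 h1).2)) hN0)

/-! ### Task HdSeq -/

namespace HdSeq

section

variable {W W1 W2 : Type} [NormedAddCommGroup W] [NormedAddCommGroup W1] [NormedAddCommGroup W2]

theorem sq_int {F : V → W} {r R : ℝ} (hF : ContinuousOn F (ball 0 R)) (h : r < R) :
    IntegrableOn (fun z => ‖F z‖ ^ 2) (ball (0 : V) r) := by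
  have h1 : ContinuousOn (fun z => ‖F z‖ ^ 2) (closedBall (0 : V) r) :=
    (hF.mono (closedBall_subset_ball h)).norm.pow 2
  exact (h1.integrableOn_compact (isCompact_closedBall _ _)).mono_set ball_subset_closedBall

theorem sq_nn (r : ℝ) (F : V → W) : 0 ≤ sq r F := by
  unfold sq
  exact integral_nonneg fun z => by positivity

theorem sq_add_le {F : V → W} {A : V → W1} {B : V → W2} {r : ℝ}
    (hA : IntegrableOn (fun z => ‖A z‖ ^ 2) (ball (0 : V) r))
    (hB : IntegrableOn (fun z => ‖B z‖ ^ 2) (ball (0 : V) r))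
    (h : ∀ z ∈ ball (0 : V) r, ‖F z‖ ≤ ‖A z‖ + ‖B z‖) :
    sq r F ≤ 2 * sq r A + 2 * sq r B := by
  unfold sq
  rw [← integral_const_mul, ← integral_const_mul,
    ← integral_add (hA.const_mul 2) (hB.const_mul 2)]
  refine integral_mono_of_nonneg (Filter.Eventually.of_forall fun z => by positivity)
    ((hA.const_mul 2).add (hB.const_mul 2)) ?_
  filter_upwards [ae_restrict_mem measurableSet_ball] with z hz
  have h1 := h z hz
  have h2 := norm_nonneg (F z)
  nlinarith [sq_nonneg (‖A z‖ - ‖B z‖), norm_nonneg (A z), norm_nonneg (B z)]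

theorem sq_mono {F : V → W} {r R : ℝ} (h : r ≤ R)
    (hF : IntegrableOn (fun z => ‖F z‖ ^ 2) (ball (0 : V) R)) : sq r F ≤ sq R F :=
  setIntegral_mono_set hF (Filter.Eventually.of_forall fun z => by positivity)
    (ball_subset_ball h).eventuallyLE

theorem sq_congr {F F' : V → W} {r : ℝ} (h : ∀ z ∈ ball (0 : V) r, F z = F' z) :
    sq r F = sq r F' := by
  unfold sq
  exact setIntegral_congr_fun measurableSet_ball fun z hz => by
    simp only [h z hz]

end

section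

variable {W : Type} [NormedAddCommGroup W] [NormedSpace ℝ W] {ρ : V → ℝ} {ε : ℝ}

theorem mem3 (h0 : 0 < ε) (h1 : ε < 1) {x y : V} (hx : x ∈ ball (0 : V) 2) (hy : ‖y‖ ≤ 1) :
    x - ε • y ∈ ball (0 : V) 3 := by
  rw [mem_ball_zero_iff] at hx ⊢
  have h2 : ‖x - ε • y‖ ≤ ‖x‖ + ‖ε • y‖ := norm_sub_le _ _
  rw [norm_smul, Real.norm_eq_abs, abs_of_pos h0] at h2
  nlinarith [norm_nonneg y]

theorem mo_int (hρ : IsM ρ) (h0 : 0 < ε) (h1 : ε < 1) {F : V → W}
    (hF : ContinuousOn F (ball 0 3)) {x : V} (hx : x ∈ ball (0 : V) 2) :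
    Integrable (fun y => ρ y • F (x - ε • y)) := by
  have hs : Function.support (fun y => ρ y • F (x - ε • y)) ⊆ closedBall (0 : V) 1 := by
    intro y hy
    by_contra h
    rw [mem_closedBall_zero_iff, not_le] at h
    apply hy
    change ρ y • F (x - ε • y) = 0
    rw [hρ.supp y h.le, zero_smul]
  rw [← integrableOn_iff_integrable_of_support_subset hs]
  refine ContinuousOn.integrableOn_compact (isCompact_closedBall _ _) ?_
  have hg : ContinuousOn (fun y : V => x - ε • y) (closedBall (0 : V) 1) :=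
    Continuous.continuousOn (by fun_prop)
  have h2 : ContinuousOn (fun y : V => F (x - ε • y)) (closedBall (0 : V) 1) :=
    hF.comp hg fun y hy => mem3 h0 h1 hx (mem_closedBall_zero_iff.1 hy)
  exact hρ.s.continuous.continuousOn.smul h2

theorem mo_congr (hρ : IsM ρ) (h0 : 0 < ε) (h1 : ε < 1) {F F' : V → W}
    (h : ∀ z ∈ ball (0 : V) 3, F z = F' z) {x : V} (hx : x ∈ ball (0 : V) 2) :
    mo ρ ε F x = mo ρ ε F' x := by
  unfold mo
  refine integral_congr_ae (Filter.Eventually.of_forall fun y => ?_)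
  change ρ y • F (x - ε • y) = ρ y • F' (x - ε • y)
  by_cases hy : 1 ≤ ‖y‖
  · rw [hρ.supp y hy, zero_smul, zero_smul]
  · rw [h _ (mem3 h0 h1 hx (not_le.1 hy).le)]

theorem mo_add (hρ : IsM ρ) (h0 : 0 < ε) (h1 : ε < 1) {F F' : V → W}
    (hF : ContinuousOn F (ball 0 3)) (hF' : ContinuousOn F' (ball 0 3)) {x : V}
    (hx : x ∈ ball (0 : V) 2) :
    mo ρ ε (fun z => F z + F' z) x = mo ρ ε F x + mo ρ ε F' x := by
  unfold mo
  rw [← integral_add (mo_int hρ h0 h1 hF hx) (mo_int hρ h0 h1 hF' hx)]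
  refine integral_congr_ae (Filter.Eventually.of_forall fun y => ?_)
  change ρ y • (F (x - ε • y) + F' (x - ε • y)) = _
  rw [smul_add]

end

theorem comm_add {G : V → Matrix (Fin 2) (Fin 2) ℂ} (hG : IsK G) {ρ : V → ℝ} (hρ : IsM ρ)
    {ε : ℝ} (h0 : 0 < ε) (h1 : ε < 1) {f h : V → ℝ} (hf : ContDiffOn ℝ ∞ f (ball 0 3))
    (hh : ContDiffOn ℝ ∞ h (ball 0 3)) {x : V} (hx : x ∈ ball (0 : V) 2) :
    comm G ρ ε (fun z => f z + h z) x = comm G ρ ε f x + comm G ρ ε h x := by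
  unfold comm
  have e1 : D2 (mo ρ ε (fun z => f z + h z)) x = D2 (mo ρ ε f) x + D2 (mo ρ ε h) x := by
    rw [D2_mo hρ h0 h1 (hf.add hh) hx, D2_mo hρ h0 h1 hf hx, D2_mo hρ h0 h1 hh hx,
      ← mo_add hρ h0 h1 (D2_smooth hf).continuousOn (D2_smooth hh).continuousOn hx]
    exact mo_congr hρ h0 h1 (fun z hz => D2_add hf hh hz) hx
  have e2 : mo ρ ε (fun y => lp (G y).adjugate (D2 (fun z => f z + h z) y)) x =
      mo ρ ε (fun y => lp (G y).adjugate (D2 f y)) x +
        mo ρ ε (fun y => lp (G y).adjugate (D2 h y)) x := by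
    rw [← mo_add hρ h0 h1 (lp_smooth hG le_rfl hf).continuousOn
      (lp_smooth hG le_rfl hh).continuousOn hx]
    exact mo_congr hρ h0 h1 (fun z hz => by rw [D2_add hf hh hz, lp_add]) hx
  rw [e1, e2, lp_add]
  ring

theorem comm_cont {G : V → Matrix (Fin 2) (Fin 2) ℂ} (hG : IsK G) {ρ : V → ℝ} (hρ : IsM ρ)
    {ε : ℝ} (h0 : 0 < ε) (h1 : ε < 1) {f : V → ℝ} (hf : ContDiffOn ℝ ∞ f (ball 0 3)) :
    ContinuousOn (comm G ρ ε f) (ball 0 2) :=
  (lp_smooth hG (by norm_num) (mo_smooth hρ h0 h1 hf)).continuousOn.sub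
    (mo_smooth hρ h0 h1 (lp_smooth hG le_rfl hf)).continuousOn

section

variable (P : Part K)

omit P in
theorem isF_neg {b : K.ι → V → ℝ} (hb : IsF K b) : IsF K (fun i z => (-1 : ℝ) * b i z) := by
  have h1 := (hb.sub hb).sub hb
  have h2 : (fun i z => (b i z - b i z) - b i z) = fun i z => (-1 : ℝ) * b i z := by
    funext i z
    ring
  rwa [h2] at h1

theorem En_neg {b : K.ι → V → ℝ} (hb : IsF K b) :
    P.En (fun i z => (-1 : ℝ) * b i z) (fun i z => (-1 : ℝ) * b i z) = P.En b b := by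
  have hneg := isF_neg hb
  rw [P.En_smul_left hb hneg, P.En_symm hb hneg, P.En_smul_left hb hb]
  ring

theorem En_le {a b : K.ι → V → ℝ} (ha : IsF K a) (hb : IsF K b) :
    P.En (fun i z => a i z + b i z) (fun i z => a i z + b i z)
      ≤ 2 * P.En a a + 2 * P.En b b := by
  have hab := ha.add hb
  have hba := ha.sub hb
  have hneg : IsF K (fun i z => (-1 : ℝ) * b i z) := isF_neg hb
  have e0 : (fun i z => a i z - b i z) = fun i z => a i z + (-1 : ℝ) * b i z := by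
    funext i z
    ring
  have h1 : P.En (fun i z => a i z + b i z) (fun i z => a i z + b i z) =
      P.En a a + 2 * P.En a b + P.En b b := by
    rw [P.En_add_left ha hb hab, P.En_symm ha hab, P.En_symm hb hab, P.En_add_left ha hb ha,
      P.En_add_left ha hb hb, P.En_symm hb ha]
    ring
  have h2 : P.En (fun i z => a i z - b i z) (fun i z => a i z - b i z) =
      P.En a a - 2 * P.En a b + P.En b b := by
    rw [e0] at hba ⊢
    rw [P.En_add_left ha hneg hba, P.En_symm ha hba, P.En_symm hneg hba,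
      P.En_add_left ha hneg ha, P.En_add_left ha hneg hneg, P.En_smul_left hb ha,
      P.En_smul_left hb hneg, P.En_symm hb hneg, P.En_smul_left hb hb, P.En_symm ha hneg,
      P.En_smul_left hb ha, P.En_symm hb ha]
    ring
  have h3 := P.En_nonneg hba
  rw [h2] at h3
  rw [h1]
  linarith

end

/-- The test function as a function on `X`. -/
def tfX (k : K.ι) (ρ : V → ℝ) (ε : ℝ) (x : V) : X → ℝ :=
  (K.ch k).source.indicator fun y => tf ρ ε x (K.ch k y)

theorem lc_tfX {k : K.ι} {ρ : V → ℝ} {ε : ℝ} {x z : V} (hz : z ∈ ball (0 : V) 3) :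
    lc K (tfX k ρ ε x) k z = tf ρ ε x z := by
  have hz' : z ∈ (K.ch k).target := by rw [K.tgt]; exact hz
  unfold lc tfX
  rw [indicator_of_mem ((K.ch k).map_target hz'), (K.ch k).right_inv hz']

theorem tf_small {ρ : V → ℝ} (hρ : IsM ρ) {ε : ℝ} (h0 : 0 < ε) {x z : V}
    (hz : tf ρ ε x z ≠ 0) : ‖z‖ ≤ ‖x‖ + ε := by
  by_contra h
  rw [not_le] at h
  apply hz
  have h1 : 1 ≤ ‖ε⁻¹ • (x - z)‖ := by
    rw [norm_smul, norm_inv, Real.norm_eq_abs, abs_of_pos h0]
    have h2 : ‖z‖ - ‖x‖ ≤ ‖x - z‖ := by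
      rw [norm_sub_rev]
      exact norm_sub_norm_le z x
    rw [inv_mul_eq_div, le_div_iff₀ h0]
    linarith
  unfold tf
  rw [hρ.supp _ h1, mul_zero]

theorem tfX_isS [T2Space X] {k : K.ι} {ρ : V → ℝ} (hρ : IsM ρ) {ε : ℝ} (h0 : 0 < ε)
    (h1 : ε < 1) {x : V} (hx : x ∈ ball (0 : V) 1) : IsS K (tfX k ρ ε x) := by
  refine isS_of_chart K k ?_ fun y hy => ?_
  · exact (tf_smooth hρ h0 x).contDiffOn.congr fun z hz => lc_tfX hz
  · have h2 : y ∈ (K.ch k).source := mem_of_indicator_ne_zero hy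
    refine ⟨h2, ?_⟩
    unfold tfX at hy
    rw [indicator_of_mem h2] at hy
    exact tf_supp hρ h0 h1 hx hy

/-- The energy against the test function is an integral in one chart. -/
theorem En_tfX [T2Space X] (P : Part K) {f : K.ι → V → ℝ} (hf : IsF K f) {k : K.ι}
    {ρ : V → ℝ} (hρ : IsM ρ) {ε : ℝ} (h0 : 0 < ε) (h1 : ε < 1) {x : V}
    (hx : x ∈ ball (0 : V) 1) :
    P.En f (lc K (tfX k ρ ε x)) =
      ∫ z in ball (0 : V) 2, en (K.G k z).adjugate (fderiv ℝ (f k) z)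
        (fderiv ℝ (tf ρ ε x) z) := by
  have hw : IsS K (tfX k ρ ε x) := tfX_isS hρ h0 h1 hx
  have hwF := hw.isF
  unfold Part.En
  rw [P.Int_loc (hf.en_dens hwF) ?_ k ?_]
  · refine setIntegral_congr_fun measurableSet_ball fun z hz => ?_
    have hz3 : z ∈ ball (0 : V) 3 := ball_subset_ball (by norm_num) hz
    have e1 : fderiv ℝ (lc K (tfX k ρ ε x) k) z = fderiv ℝ (tf ρ ε x) z := by
      refine Filter.EventuallyEq.fderiv_eq ?_
      filter_upwards [isOpen_ball.mem_nhds hz3] with w hw'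
      exact lc_tfX hw'
    change en (K.C k z) (fderiv ℝ (f k) z) (fderiv ℝ (lc K (tfX k ρ ε x) k) z) = _
    rw [e1]
    rfl
  · intro i
    exact (en_smooth (K.isK i) le_rfl (hf.s i) (hwF.s i)).continuousOn
  · intro i z hz hne
    -- the support of the test function is contained in a compact set
    have hx' : ‖x‖ + ε < 2 := by
      rw [mem_ball_zero_iff] at hx
      linarith
    let S : Set X := (K.ch k).symm '' closedBall (0 : V) (‖x‖ + ε)
    have hsub : closedBall (0 : V) (‖x‖ + ε) ⊆ (K.ch k).target := by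
      rw [K.tgt]
      exact closedBall_subset_ball (by linarith)
    have hSc : IsClosed S :=
      ((isCompact_closedBall _ _).image_of_continuousOn
        ((K.ch k).continuousOn_symm.mono hsub)).isClosed
    have hmem : (K.ch i).symm z ∈ S := by
      by_contra h
      apply hne
      have hz' : z ∈ (K.ch i).target := by rw [K.tgt]; exact hz
      have h3 : ∀ᶠ w in 𝓝 z, (K.ch i).symm w ∈ Sᶜ :=
        ((K.ch i).continuousAt_symm hz').eventually (hSc.isOpen_compl.mem_nhds h)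
      have h4 : fderiv ℝ (lc K (tfX k ρ ε x) i) z = 0 := by
        have h5 : lc K (tfX k ρ ε x) i =ᶠ[𝓝 z] fun _ => (0 : ℝ) := by
          filter_upwards [h3] with w hw'
          change tfX k ρ ε x ((K.ch i).symm w) = 0
          by_contra h6
          apply hw'
          have h7 : (K.ch i).symm w ∈ (K.ch k).source := mem_of_indicator_ne_zero h6
          unfold tfX at h6
          rw [indicator_of_mem h7] at h6
          exact ⟨K.ch k ((K.ch i).symm w), mem_closedBall_zero_iff.2 (tf_small hρ h0 h6),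
            (K.ch k).left_inv h7⟩
        rw [h5.fderiv_eq]
        simp
      change en (K.C i z) (fderiv ℝ (f i) z) (fderiv ℝ (lc K (tfX k ρ ε x) i) z) = 0
      rw [h4]
      have h8 := en_smul_right (K.C i z) (0 : ℝ) (fderiv ℝ (f i) z) (0 : V →L[ℝ] ℝ)
      rwa [zero_smul, zero_mul] at h8
    obtain ⟨w, hw', hwe⟩ := hmem
    rw [← hwe]
    refine ⟨(K.ch k).map_target (hsub hw'), ?_⟩
    rw [(K.ch k).right_inv (hsub hw')]
    exact closedBall_subset_ball hx' hw'

/-- Pointwise estimate of the mollified Laplacian. -/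
theorem mo_lp_le [T2Space X] (P : Part K) {f : K.ι → V → ℝ} (hf : IsF K f) {k : K.ι}
    {ρ : V → ℝ} (hρ : IsM ρ) {ε : ℝ} (h0 : 0 < ε) (h1 : ε < 1) {c Kc : ℝ} (hc : 0 ≤ c)
    (hK : ∀ x ∈ ball (0 : V) 1, ∫ z in ball (0 : V) 2,
      en (K.G k z).adjugate (fderiv ℝ (tf ρ ε x) z) (fderiv ℝ (tf ρ ε x) z) ≤ Kc)
    (hm : ∀ w, IsS K w → (P.En f (lc K w)) ^ 2 ≤ c * P.En (lc K w) (lc K w)) {x : V}
    (hx : x ∈ ball (0 : V) 1) :
    ‖mo ρ ε (fun y => lp (K.G k y).adjugate (D2 (f k) y)) x‖ ^ 2 ≤ c * Kc := by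
  have hw : IsS K (tfX k ρ ε x) := tfX_isS hρ h0 h1 hx
  have h2 := hm _ hw
  have e1 : P.En (lc K (tfX k ρ ε x)) (lc K (tfX k ρ ε x)) = ∫ z in ball (0 : V) 2,
      en (K.G k z).adjugate (fderiv ℝ (tf ρ ε x) z) (fderiv ℝ (tf ρ ε x) z) := by
    rw [En_tfX P hw.isF hρ h0 h1 hx]
    refine setIntegral_congr_fun measurableSet_ball fun z hz => ?_
    have hz3 : z ∈ ball (0 : V) 3 := ball_subset_ball (by norm_num) hz
    have e2 : fderiv ℝ (lc K (tfX k ρ ε x) k) z = fderiv ℝ (tf ρ ε x) z := by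
      refine Filter.EventuallyEq.fderiv_eq ?_
      filter_upwards [isOpen_ball.mem_nhds hz3] with w hw'
      exact lc_tfX hw'
    simp only [e2]
  rw [e1, En_tfX P hf hρ h0 h1 hx] at h2
  rw [mo_lp_eq (K.isK k) hρ h0 h1 (hf.s k) hx, norm_neg, Real.norm_eq_abs, sq_abs]
  exact h2.trans (mul_le_mul_of_nonneg_left (hK x hx) hc)

theorem sq_mo_lp_le [T2Space X] (P : Part K) {f : K.ι → V → ℝ} (hf : IsF K f) {k : K.ι}
    {ρ : V → ℝ} (hρ : IsM ρ) {ε : ℝ} (h0 : 0 < ε) (h1 : ε < 1) {c Kc : ℝ} (hc : 0 ≤ c)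
    (hK : ∀ x ∈ ball (0 : V) 1, ∫ z in ball (0 : V) 2,
      en (K.G k z).adjugate (fderiv ℝ (tf ρ ε x) z) (fderiv ℝ (tf ρ ε x) z) ≤ Kc)
    (hm : ∀ w, IsS K w → (P.En f (lc K w)) ^ 2 ≤ c * P.En (lc K w) (lc K w)) :
    sq 1 (mo ρ ε (fun y => lp (K.G k y).adjugate (D2 (f k) y)))
      ≤ c * Kc * (volume (ball (0 : V) 1)).toReal := by
  unfold sq
  have h2 : ∫ z in ball (0 : V) 1, c * Kc = c * Kc * (volume (ball (0 : V) 1)).toReal := by
    rw [setIntegral_const, smul_eq_mul, mul_comm]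
    rfl
  rw [← h2]
  refine integral_mono_of_nonneg (Filter.Eventually.of_forall fun z => by positivity) ?_ ?_
  · exact integrableOn_const (measure_ball_lt_top).ne
  · filter_upwards [ae_restrict_mem measurableSet_ball] with z hz
    exact mo_lp_le P hf hρ h0 h1 hc hK hm hz

theorem La_nn (P : Part K) (f : K.ι → V → ℝ) : 0 ≤ P.La f := by
  refine P.Int_nonneg fun i z hz => ?_
  have h := (det_pos (K.isK i) (ball_subset_ball (by norm_num) hz : z ∈ ball (0 : V) 3)).1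
  exact div_nonneg (by positivity) h.le

/-- Choice of the parameters. -/
theorem key [T2Space X] (P : Part K) {f : ℕ → K.ι → V → ℝ} (hf : ∀ n, IsF K (f n))
    {ρ : V → ℝ} (hρ : IsM ρ)
    (hCau : ∀ δ : ℝ, 0 < δ → ∃ N : ℕ, ∀ m ≥ N, ∀ n ≥ N,
      P.En (fun i z => f m i z - f n i z) (fun i z => f m i z - f n i z) < δ)
    (hmin : ∀ n, ∀ w, IsS K w → (P.En (f n) (lc K w)) ^ 2
      ≤ 1 / ((n : ℝ) + 1) * P.En (lc K w) (lc K w)) {δ : ℝ} (hδ : 0 < δ) (N0 : ℕ) :
    ∃ n ≥ N0, ∃ ε : ℝ, 0 < ε ∧ ε < 1 ∧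
      ∑ k, (er ρ ε (f n k) + sq 1 (fun x => lp (K.C k x) (D2 (mo ρ ε (f n k)) x))) < δ := by
  obtain ⟨Kg, hKg, hgrad⟩ := P.grad_le
  obtain ⟨Km, hKm, hmo⟩ := sq_mo_sub_le hρ
  choose Kf hKf hfr using fun k => fried_bound (K.isK k) hρ
  let A : K.ι → ℝ := fun k => 10 + 2 * Km * Kg + 8 * Kg + 4 * Kf k * Kg
  have hA : ∀ k, 0 ≤ A k := fun k => by
    have := hKf k
    positivity
  have hAs : 0 ≤ ∑ k, A k := Finset.sum_nonneg fun k _ => hA k
  obtain ⟨δ', hδ', hδA⟩ : ∃ δ' : ℝ, 0 < δ' ∧ (∑ k, A k) * δ' < δ := by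
    refine ⟨δ / (∑ k, A k + 1), by positivity, ?_⟩
    rw [mul_div_assoc', div_lt_iff₀ (by positivity)]
    nlinarith
  obtain ⟨N, hN⟩ := hCau δ' hδ'
  obtain ⟨m, hmN, hm0⟩ : ∃ m, N ≤ m ∧ N0 ≤ m := ⟨max N N0, le_max_left _ _, le_max_right _ _⟩
  -- choice of ε
  have ev1 : ∀ᶠ ε in 𝓝[>] (0 : ℝ), ∀ k, sq 1 (comm (K.G k) ρ ε (f m k)) < δ' :=
    Filter.eventually_all.2 fun k =>
      (fried_tendsto (K.isK k) hρ ((hf m).s k)).eventually (gt_mem_nhds hδ')
  have ev2 : ∀ᶠ ε in 𝓝[>] (0 : ℝ), ∀ k, sq 1 (fun x => mo ρ ε (f m k) x - f m k x) < δ' :=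
    Filter.eventually_all.2 fun k =>
      (mo_tendsto hρ ((hf m).s k).continuousOn (by norm_num)).eventually (gt_mem_nhds hδ')
  have ev3 : ∀ᶠ ε in 𝓝[>] (0 : ℝ), ∀ k,
      sq 1 (fun x => mo ρ ε (fderiv ℝ (f m k)) x - fderiv ℝ (f m k) x) < δ' :=
    Filter.eventually_all.2 fun k =>
      (mo_tendsto hρ (fderiv_smooth ((hf m).s k)).continuousOn (by norm_num)).eventually
        (gt_mem_nhds hδ')
  have ev4 : ∀ᶠ ε in 𝓝[>] (0 : ℝ), ε < 1 :=
    nhdsWithin_le_nhds (gt_mem_nhds one_pos)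
  have ev5 : ∀ᶠ ε in 𝓝[>] (0 : ℝ), 0 < ε := self_mem_nhdsWithin
  obtain ⟨ε, he1, he2, he3, h1, h0⟩ := (ev1.and (ev2.and (ev3.and (ev4.and ev5)))).exists
  -- choice of n
  choose Kt hKt using fun k => tf_energy (K.isK k) hρ h0 h1
  have ev6 : ∀ᶠ n : ℕ in Filter.atTop, ∀ k,
      1 / ((n : ℝ) + 1) * Kt k * (volume (ball (0 : V) 1)).toReal < δ' := by
    refine Filter.eventually_all.2 fun k => ?_
    have h2 : Filter.Tendsto (fun n : ℕ => 1 / ((n : ℝ) + 1) * Kt k *
        (volume (ball (0 : V) 1)).toReal) Filter.atTop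
        (𝓝 (0 * Kt k * (volume (ball (0 : V) 1)).toReal)) :=
      (tendsto_one_div_add_atTop_nhds_zero_nat.mul_const _).mul_const _
    rw [zero_mul, zero_mul] at h2
    exact h2.eventually (gt_mem_nhds hδ')
  obtain ⟨n, hn1, hn2⟩ := (ev6.and (Filter.eventually_ge_atTop m)).exists
  refine ⟨n, hm0.trans hn2, ε, h0, h1, ?_⟩
  refine lt_of_le_of_lt ?_ hδA
  rw [Finset.sum_mul]
  refine Finset.sum_le_sum fun k _ => ?_
  -- the estimates in the chart k
  have hgF : IsF K (fun i z => f n i z - f m i z) := (hf n).sub (hf m)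
  have hgs := hgF.s k
  have hns := (hf n).s k
  have hms := (hf m).s k
  have hdg : sq 2 (fderiv ℝ (fun z => f n k z - f m k z)) ≤ Kg * δ' :=
    (hgrad _ hgF k).trans
      (mul_le_mul_of_nonneg_left (hN n (hmN.trans hn2) m hmN).le hKg.le)
  have hsum : f n k = fun z => f m k z + (f n k z - f m k z) := by
    funext z
    ring
  have b12 : ∀ {x : V}, x ∈ ball (0 : V) 1 → x ∈ ball (0 : V) 2 :=
    fun hx => ball_subset_ball (by norm_num) hx
  have b13 : ∀ {x : V}, x ∈ ball (0 : V) 1 → x ∈ ball (0 : V) 3 :=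
    fun hx => ball_subset_ball (by norm_num) hx
  have c32 : ∀ {W : Type} [NormedAddCommGroup W] {F : V → W}, ContinuousOn F (ball 0 3) →
      ContinuousOn F (ball 0 2) := fun hF => hF.mono (ball_subset_ball (by norm_num))
  -- (i)
  have i1 : sq 1 (fun x => mo ρ ε (f n k) x - f n k x) ≤ 2 * δ' + 2 * Km * Kg * δ' := by
    have h2 : sq 1 (fun x => mo ρ ε (f n k) x - f n k x) ≤
        2 * sq 1 (fun x => mo ρ ε (f m k) x - f m k x) +
        2 * sq 1 (fun x => mo ρ ε (fun z => f n k z - f m k z) x - (f n k x - f m k x)) := by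
      refine sq_add_le (sq_int (R := 2) ?_ (by norm_num)) (sq_int (R := 2) ?_ (by norm_num))
        fun x hx => ?_
      · exact (mo_smooth hρ h0 h1 hms).continuousOn.sub (c32 hms.continuousOn)
      · exact (mo_smooth hρ h0 h1 hgs).continuousOn.sub (c32 hgs.continuousOn)
      · have h3 : mo ρ ε (f n k) x = mo ρ ε (f m k) x +
            mo ρ ε (fun z => f n k z - f m k z) x := by
          conv_lhs => rw [hsum]
          exact mo_add hρ h0 h1 hms.continuousOn hgs.continuousOn (b12 hx)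
        rw [h3]
        refine le_trans (le_of_eq ?_) (norm_add_le _ _)
        congr 1
        ring
    have h3 := hmo _ hgs ε h0 h1
    have h4 : Km * ε ^ 2 * sq 2 (fderiv ℝ (fun z => f n k z - f m k z)) ≤
        Km * 1 * (Kg * δ') := by
      have h5 : ε ^ 2 ≤ 1 := pow_le_one₀ h0.le h1.le
      have h6 := sq_nn 2 (fderiv ℝ (fun z => f n k z - f m k z))
      have h7 : Km * ε ^ 2 ≤ Km * 1 := mul_le_mul_of_nonneg_left h5 hKm.le
      exact mul_le_mul h7 hdg h6 (by positivity)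
    have h5 := he2 k
    linarith
  -- (ii)
  have i2 : sq 1 (fun x => fderiv ℝ (mo ρ ε (f n k)) x - fderiv ℝ (f n k) x) ≤
      2 * δ' + 8 * Kg * δ' := by
    have hdns := (fderiv_smooth hns).continuousOn
    have hdms := (fderiv_smooth hms).continuousOn
    have hdgs := (fderiv_smooth hgs).continuousOn
    have h2 : sq 1 (fun x => fderiv ℝ (mo ρ ε (f n k)) x - fderiv ℝ (f n k) x) ≤
        2 * sq 1 (fun x => mo ρ ε (fderiv ℝ (f m k)) x - fderiv ℝ (f m k) x) +
        2 * sq 1 (fun x => mo ρ ε (fderiv ℝ (fun z => f n k z - f m k z)) x -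
          fderiv ℝ (fun z => f n k z - f m k z) x) := by
      refine sq_add_le (sq_int (R := 2) ?_ (by norm_num)) (sq_int (R := 2) ?_ (by norm_num))
        fun x hx => ?_
      · exact (mo_smooth hρ h0 h1 (fderiv_smooth hms)).continuousOn.sub (c32 hdms)
      · exact (mo_smooth hρ h0 h1 (fderiv_smooth hgs)).continuousOn.sub (c32 hdgs)
      · have hd : ∀ z ∈ ball (0 : V) 3, fderiv ℝ (f n k) z =
            fderiv ℝ (f m k) z + fderiv ℝ (fun z => f n k z - f m k z) z := by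
          intro z hz
          conv_lhs => rw [hsum]
          exact fderiv_fun_add
            ((hms.contDiffAt (isOpen_ball.mem_nhds hz)).differentiableAt (by simp))
            ((hgs.contDiffAt (isOpen_ball.mem_nhds hz)).differentiableAt (by simp))
        have h3 : fderiv ℝ (mo ρ ε (f n k)) x = mo ρ ε (fderiv ℝ (f m k)) x +
            mo ρ ε (fderiv ℝ (fun z => f n k z - f m k z)) x := by
          rw [fderiv_mo hρ h0 h1 hns (b12 hx), mo_congr hρ h0 h1 hd (b12 hx)]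
          exact mo_add hρ h0 h1 hdms hdgs (b12 hx)
        rw [h3, hd x (b13 hx)]
        refine le_trans (le_of_eq ?_) (norm_add_le _ _)
        congr 1
        abel
    have h3 : sq 1 (fun x => mo ρ ε (fderiv ℝ (fun z => f n k z - f m k z)) x -
          fderiv ℝ (fun z => f n k z - f m k z) x) ≤
        2 * sq 1 (mo ρ ε (fderiv ℝ (fun z => f n k z - f m k z))) +
        2 * sq 1 (fderiv ℝ (fun z => f n k z - f m k z)) := by
      refine sq_add_le (sq_int (R := 2) ?_ (by norm_num)) (sq_int (R := 2) ?_ (by norm_num))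
        fun x hx => norm_sub_le _ _
      · exact (mo_smooth hρ h0 h1 (fderiv_smooth hgs)).continuousOn
      · exact c32 hdgs
    have hi2 : IntegrableOn (fun z => ‖fderiv ℝ (fun z => f n k z - f m k z) z‖ ^ 2)
        (ball (0 : V) 2) := sq_int hdgs (by norm_num)
    have h4 : sq 1 (mo ρ ε (fderiv ℝ (fun z => f n k z - f m k z))) ≤
        sq 2 (fderiv ℝ (fun z => f n k z - f m k z)) :=
      (sq_mo_le hρ h0 h1 hdgs one_pos (by linarith)).trans (sq_mono (by linarith) hi2)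
    have h5 : sq 1 (fderiv ℝ (fun z => f n k z - f m k z)) ≤
        sq 2 (fderiv ℝ (fun z => f n k z - f m k z)) := sq_mono (by norm_num) hi2
    have h6 := he3 k
    linarith
  -- (iii)
  have i3 : sq 1 (fun x => lp (K.C k x) (D2 (mo ρ ε (f n k)) x)) ≤
      6 * δ' + 4 * Kf k * Kg * δ' := by
    have h2 : sq 1 (fun x => lp (K.C k x) (D2 (mo ρ ε (f n k)) x)) ≤
        2 * sq 1 (comm (K.G k) ρ ε (f n k)) +
        2 * sq 1 (mo ρ ε (fun y => lp (K.G k y).adjugate (D2 (f n k) y))) := by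
      refine sq_add_le (sq_int (R := 2) ?_ (by norm_num)) (sq_int (R := 2) ?_ (by norm_num))
        fun x hx => ?_
      · exact comm_cont (K.isK k) hρ h0 h1 hns
      · exact (mo_smooth hρ h0 h1 (lp_smooth (K.isK k) le_rfl hns)).continuousOn
      · refine le_trans (le_of_eq ?_) (norm_add_le _ _)
        congr 1
        unfold comm KD.C
        ring
    have h3 : sq 1 (comm (K.G k) ρ ε (f n k)) ≤
        2 * sq 1 (comm (K.G k) ρ ε (f m k)) +
        2 * sq 1 (comm (K.G k) ρ ε (fun z => f n k z - f m k z)) := by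
      refine sq_add_le (sq_int (R := 2) ?_ (by norm_num)) (sq_int (R := 2) ?_ (by norm_num))
        fun x hx => ?_
      · exact comm_cont (K.isK k) hρ h0 h1 hms
      · exact comm_cont (K.isK k) hρ h0 h1 hgs
      · refine le_trans (le_of_eq ?_) (norm_add_le _ _)
        congr 1
        conv_lhs => rw [hsum]
        exact comm_add (K.isK k) hρ h0 h1 hms hgs (b12 hx)
    have h4 : sq 1 (comm (K.G k) ρ ε (fun z => f n k z - f m k z)) ≤ Kf k * (Kg * δ') :=
      (hfr k _ hgs ε h0 h1).trans (mul_le_mul_of_nonneg_left hdg (hKf k).le)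
    have h5 : sq 1 (mo ρ ε (fun y => lp (K.G k y).adjugate (D2 (f n k) y))) ≤ δ' :=
      (sq_mo_lp_le P (hf n) hρ h0 h1 (by positivity) (hKt k) (hmin n)).trans (hn1 k).le
    have h6 := he1 k
    linarith
  change (sq 1 (fun x => mo ρ ε (f n k) x - f n k x) +
    sq 1 (fun x => fderiv ℝ (mo ρ ε (f n k)) x - fderiv ℝ (f n k) x)) +
      sq 1 (fun x => lp (K.C k x) (D2 (mo ρ ε (f n k)) x)) ≤
      (10 + 2 * Km * Kg + 8 * Kg + 4 * Kf k * Kg) * δ'
  linarith

end HdSeq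

/-- A sequence in the class of `H`, Cauchy for the energy, whose Laplacians tend to zero. -/
theorem good_seq [T2Space X] (P : Part K) {H : K.ι → V → ℝ} (hH : IsF K H) :
    ∃ u : ℕ → X → ℝ, (∀ n, IsS K (u n)) ∧
      (∀ δ : ℝ, 0 < δ → ∃ N : ℕ, ∀ m ≥ N, ∀ n ≥ N,
        P.En (lc K fun x => u m x - u n x) (lc K fun x => u m x - u n x) < δ) ∧
      Filter.Tendsto (fun n => P.La fun i z => H i z + lc K (u n) i z) Filter.atTop (𝓝 0) := by
  obtain ⟨ρ, hρ⟩ := exists_mollifier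
  obtain ⟨u, hu, hCau, hmin⟩ := minimizing P hH
  obtain ⟨Kc, hKc, hgl⟩ := glue P hρ
  let f : ℕ → K.ι → V → ℝ := fun n i z => H i z + lc K (u n) i z
  have hf : ∀ n, IsF K (f n) := fun n => hH.add (hu n).isF
  have hCau' : ∀ δ : ℝ, 0 < δ → ∃ N : ℕ, ∀ m ≥ N, ∀ n ≥ N,
      P.En (fun i z => f m i z - f n i z) (fun i z => f m i z - f n i z) < δ := by
    intro δ hδ
    obtain ⟨N, hN⟩ := hCau δ hδ
    refine ⟨N, fun m hm n hn => ?_⟩
    have h1 : (fun i z => f m i z - f n i z) = lc K fun x => u m x - u n x := by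
      funext i z
      change (H i z + lc K (u m) i z) - (H i z + lc K (u n) i z) =
        lc K (u m) i z - lc K (u n) i z
      ring
    rw [h1]
    exact hN m hm n hn
  have hδj : ∀ j : ℕ, (0 : ℝ) < 1 / (((j : ℝ) + 1) * Kc) := fun j => by positivity
  choose nn hnn ε h0 h1 hs using fun j : ℕ => HdSeq.key P hf hρ hCau' hmin (hδj j) j
  choose v hv hv1 hv2 using fun j => hgl (f (nn j)) (hf _) (ε j) (h0 j) (h1 j)
  have hsum : ∀ j : ℕ, Kc * ∑ k, (er ρ (ε j) (f (nn j) k) +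
      sq 1 (fun x => lp (K.C k x) (D2 (mo ρ (ε j) (f (nn j) k)) x))) ≤ 1 / ((j : ℝ) + 1) := by
    intro j
    refine (mul_le_mul_of_nonneg_left (hs j).le hKc.le).trans (le_of_eq ?_)
    field_simp
  have hEv : ∀ j : ℕ, P.En (lc K (v j)) (lc K (v j)) ≤ 1 / ((j : ℝ) + 1) := by
    intro j
    refine ((hv1 j).trans (mul_le_mul_of_nonneg_left ?_ hKc.le)).trans (hsum j)
    refine Finset.sum_le_sum fun k _ => ?_
    have := HdSeq.sq_nn 1 (fun x => lp (K.C k x) (D2 (mo ρ (ε j) (f (nn j) k)) x))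
    linarith
  refine ⟨fun j x => u (nn j) x + v j x, fun j => (hu _).add (hv j), ?_, ?_⟩
  · intro δ hδ
    obtain ⟨N1, hN1⟩ := hCau (δ / 4) (by positivity)
    obtain ⟨N2, hN2⟩ := exists_nat_one_div_lt (show (0 : ℝ) < δ / 16 by positivity)
    refine ⟨max N1 N2, fun m hm n hn => ?_⟩
    have hm1 : N1 ≤ nn m := (le_max_left _ _).trans (hm.trans (hnn m))
    have hn1 : N1 ≤ nn n := (le_max_left _ _).trans (hn.trans (hnn n))
    have e1 : (lc K fun x => (u (nn m) x + v m x) - (u (nn n) x + v n x)) =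
        fun i z => (lc K fun x => u (nn m) x - u (nn n) x) i z +
          (fun i z => lc K (v m) i z + (fun i z => (-1 : ℝ) * lc K (v n) i z) i z) i z := by
      funext i z
      change (lc K (u (nn m)) i z + lc K (v m) i z) - (lc K (u (nn n)) i z + lc K (v n) i z) =
        (lc K (u (nn m)) i z - lc K (u (nn n)) i z) + (lc K (v m) i z + -1 * lc K (v n) i z)
      ring
    have hvm := (hv m).isF
    have hvn := (hv n).isF
    have hvn' := HdSeq.isF_neg hvn
    have h2 := HdSeq.En_le P ((hu (nn m)).sub (hu (nn n))).isF (hvm.add hvn')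
    have h3 := HdSeq.En_le P hvm hvn'
    rw [HdSeq.En_neg P hvn] at h3
    have h4 := hN1 (nn m) hm1 (nn n) hn1
    have h5 : ∀ j : ℕ, N2 ≤ j → P.En (lc K (v j)) (lc K (v j)) < δ / 16 := by
      intro j hj
      refine (hEv j).trans_lt (lt_of_le_of_lt ?_ hN2)
      have : (N2 : ℝ) ≤ (j : ℝ) := by exact_mod_cast hj
      exact one_div_le_one_div_of_le (by positivity) (by linarith)
    have h6 := h5 m ((le_max_right _ _).trans hm)
    have h7 := h5 n ((le_max_right _ _).trans hn)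
    rw [e1]
    refine lt_of_le_of_lt h2 ?_
    linarith
  · refine squeeze_zero (fun j => HdSeq.La_nn P _) (fun j => ?_)
      tendsto_one_div_add_atTop_nhds_zero_nat
    have e1 : (fun i z => H i z + lc K (fun x => u (nn j) x + v j x) i z) =
        fun i z => f (nn j) i z + lc K (v j) i z := by
      funext i z
      change H i z + (lc K (u (nn j)) i z + lc K (v j) i z) =
        (H i z + lc K (u (nn j)) i z) + lc K (v j) i z
      ring
    rw [e1]
    exact (hv2 j).trans (hsum j)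

end Pool.Agent.K708.Hd
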