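import Pool.Agent.Lib.K708.HdInt
import Pool.Agent.Lib.K708.HdGreen

/-! # K708, Section A: the complex Hessian is controlled by the Laplacian -/

set_option autoImplicit false

open scoped ContDiff Topology
open Set Metric MeasureTheory

noncomputable section

namespace Pool.Agent.K708.Hd

variable {X : Type} [TopologicalSpace X] {K : KD X}

namespace HdHess

theorem rr_eq_en (N : Matrix (Fin 2) (Fin 2) ℂ) (α β : V →L[ℝ] ℝ) : rr N α β = en N α β := rfl

theorem en_zero_left (N : Matrix (Fin 2) (Fin 2) ℂ) (β : V →L[ℝ] ℝ) : en N 0 β = 0 := by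
  have h := en_smul_left N 0 (0 : V →L[ℝ] ℝ) β
  simpa using h

theorem rr_sum_left {κ : Type} (s : Finset κ) (N : Matrix (Fin 2) (Fin 2) ℂ)
    (α : κ → V →L[ℝ] ℝ) (β : V →L[ℝ] ℝ) : rr N (∑ a ∈ s, α a) β = ∑ a ∈ s, rr N (α a) β := by
  classical
  simp only [rr_eq_en]
  induction s using Finset.induction_on with
  | empty => simp [en_zero_left]
  | insert a s ha ih => rw [Finset.sum_insert ha, Finset.sum_insert ha, en_add_left, ih]

/-- where a function of the partition has a non zero differential, it does not vanish -/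
theorem chi_ne (P : Part K) (i j : K.ι) {z : V}
    (h : fderiv ℝ (lc K (P.χ i) j) z ≠ 0) : P.χ i ((K.ch j).symm z) ≠ 0 := by
  intro h0
  apply h
  apply IsLocalMin.fderiv_eq_zero
  refine Filter.Eventually.of_forall fun w => ?_
  change P.χ i ((K.ch j).symm z) ≤ P.χ i ((K.ch j).symm w)
  rw [h0]
  exact P.nn i _

theorem MHc {f : V → ℝ} (hf : ContDiffOn ℝ ∞ f (ball 0 3)) (j k : Fin 2) :
    ContinuousOn (fun z => MH f z j k) (ball 0 3) := (MH_smooth hf j k).continuousOn

theorem adjMHc {f : V → ℝ} (hf : ContDiffOn ℝ ∞ f (ball 0 3)) (j k : Fin 2) :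
    ContinuousOn (fun z => (MH f z).adjugate j k) (ball 0 3) := by
  have e00 : (fun z => (MH f z).adjugate 0 0) = fun z => MH f z 1 1 := by
    funext y; simp [Matrix.adjugate_fin_two]
  have e01 : (fun z => (MH f z).adjugate 0 1) = fun z => - MH f z 0 1 := by
    funext y; simp [Matrix.adjugate_fin_two]
  have e10 : (fun z => (MH f z).adjugate 1 0) = fun z => - MH f z 1 0 := by
    funext y; simp [Matrix.adjugate_fin_two]
  have e11 : (fun z => (MH f z).adjugate 1 1) = fun z => MH f z 0 0 := by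
    funext y; simp [Matrix.adjugate_fin_two]
  fin_cases j <;> fin_cases k
  · simp only [Fin.zero_eta]; rw [e00]; exact MHc hf 1 1
  · simp only [Fin.zero_eta, Fin.mk_one]; rw [e01]; exact (MHc hf 0 1).neg
  · simp only [Fin.zero_eta, Fin.mk_one]; rw [e10]; exact (MHc hf 1 0).neg
  · simp only [Fin.mk_one]; rw [e11]; exact MHc hf 0 0

theorem rrc {χ f : V → ℝ} (hχ : ContDiffOn ℝ ∞ χ (ball 0 3)) (hf : ContDiffOn ℝ ∞ f (ball 0 3)) :
    ContinuousOn (fun z => rr (MH f z).adjugate (fderiv ℝ χ z) (fderiv ℝ f z)) (ball 0 3) := by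
  unfold rr
  apply Complex.continuous_re.comp_continuousOn
  refine continuousOn_finsetSum _ fun j _ => continuousOn_finsetSum _ fun k _ => ?_
  exact ((adjMHc hf k j).mul (cG_smooth hχ j).continuousOn).mul
    (Complex.continuous_conj.comp_continuousOn (cG_smooth hf k).continuousOn)

theorem detc {f : V → ℝ} (hf : ContDiffOn ℝ ∞ f (ball 0 3)) :
    ContinuousOn (fun z => ((MH f z).det).re) (ball 0 3) := by
  apply Complex.continuous_re.comp_continuousOn
  simp only [Matrix.det_fin_two]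
  exact ((MHc hf 0 0).mul (MHc hf 1 1)).sub ((MHc hf 0 1).mul (MHc hf 1 0))

theorem g_pos (i : K.ι) {z : V} (hz : z ∈ ball (0 : V) 3) : 0 < K.g i z := (det_pos (K.isK i) hz).1

theorem gc (i : K.ι) : ContinuousOn (K.g i) (ball 0 3) := (det_smooth (K.isK i)).continuousOn

theorem key (i : K.ι) {f : V → ℝ} (hf : ContDiffOn ℝ ∞ f (ball 0 3)) {z : V}
    (hz : z ∈ ball (0 : V) 3) :
    (lp (K.C i z) (D2 f z)) ^ 2 = hn (K.C i z) (MH f z) + 2 * K.g i z * ((MH f z).det).re :=
  lp_sq ((K.isK i).herm z hz) (D2 f z) fun u v => D2_symm hf hz u v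

theorem hnc (i : K.ι) {f : V → ℝ} (hf : ContDiffOn ℝ ∞ f (ball 0 3)) :
    ContinuousOn (fun z => hn (K.C i z) (MH f z) / K.g i z) (ball 0 3) := by
  have h1 : ContinuousOn (fun z => ((lp (K.C i z) (D2 f z)) ^ 2
      - 2 * K.g i z * ((MH f z).det).re) / K.g i z) (ball 0 3) := by
    have hl : ContinuousOn (fun z => lp (K.C i z) (D2 f z)) (ball 0 3) :=
      (lp_smooth (K.isK i) le_rfl hf).continuousOn
    exact ((hl.pow 2).sub ((continuousOn_const.mul (gc i)).mul (detc hf))).div (gc i)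
      fun z hz => (g_pos i hz).ne'
  refine h1.congr fun z hz => ?_
  simp only
  rw [key i hf hz]
  ring

theorem lac (i : K.ι) {f : V → ℝ} (hf : ContDiffOn ℝ ∞ f (ball 0 3)) :
    ContinuousOn (fun z => (lp (K.C i z) (D2 f z)) ^ 2 / K.g i z) (ball 0 3) := by
  have hl : ContinuousOn (fun z => lp (K.C i z) (D2 f z)) (ball 0 3) :=
    (lp_smooth (K.isK i) le_rfl hf).continuousOn
  exact (hl.pow 2).div (gc i) fun z hz => (g_pos i hz).ne'

theorem sub13 : ball (0 : V) 1 ⊆ ball 0 3 := ball_subset_ball (by norm_num)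

theorem sub23 : ball (0 : V) 2 ⊆ ball 0 3 := ball_subset_ball (by norm_num)

theorem La_nonneg (P : Part K) (f : K.ι → V → ℝ) : 0 ≤ P.La f :=
  P.Int_nonneg fun _ _ hz => div_nonneg (sq_nonneg _) (g_pos _ (sub13 hz)).le

theorem En_nonneg (P : Part K) (f : K.ι → V → ℝ) : 0 ≤ P.En f f :=
  P.Int_nonneg fun i _ hz => en_nonneg (K.isK i) (sub13 hz) _

/-- one term of the sum -/
theorem term (P : Part K) {f : K.ι → V → ℝ} (hf : IsF K f) (i : K.ι) :
    2 * ∫ z in ball (0 : V) 1, P.χ i ((K.ch i).symm z) * ((MH (f i) z).det).re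
      = - P.Int (fun j z => rr (MH (f j) z).adjugate (fderiv ℝ (lc K (P.χ i) j) z)
          (fderiv ℝ (f j) z)) := by
  classical
  set χ' : V → ℝ := fun z => if z ∈ ball (0 : V) 3 then lc K (P.χ i) i z else 0 with hχ'
  have heq : ∀ z ∈ ball (0 : V) 3, χ' z = lc K (P.χ i) i z := fun z hz => if_pos hz
  have hsm : ContDiffOn ℝ ∞ χ' (ball 0 3) := (P.s i i).congr heq
  have hsupp1 : ∀ z, χ' z ≠ 0 → z ∈ ball (0 : V) 1 := by
    intro z hz
    by_cases h3 : z ∈ ball (0 : V) 3
    · rw [heq z h3] at hz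
      have h4 := (P.supp i _ hz).2
      rwa [(K.ch i).right_inv (by rw [K.tgt i]; exact h3)] at h4
    · exact absurd (if_neg h3) hz
  have hsupp : ∀ z, χ' z ≠ 0 → z ∈ ball (0 : V) 2 := fun z hz =>
    ball_subset_ball (by norm_num) (hsupp1 z hz)
  have h1 := stokes_det hsm (hf.s i) hsupp
  have h2 : ∫ z in ball (0 : V) 2, χ' z * ((MH (f i) z).det).re
      = ∫ z in ball (0 : V) 1, P.χ i ((K.ch i).symm z) * ((MH (f i) z).det).re := by
    have h5 : ∫ z in ball (0 : V) 2, χ' z * ((MH (f i) z).det).re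
        = ∫ z in ball (0 : V) 1, χ' z * ((MH (f i) z).det).re := by
      apply setIntegral_eq_of_subset_of_forall_sdiff_eq_zero measurableSet_ball
        (ball_subset_ball (by norm_num))
      rintro z ⟨-, hz⟩
      have : χ' z = 0 := by
        by_contra h
        exact hz (hsupp1 z h)
      rw [this, zero_mul]
    rw [h5]
    refine setIntegral_congr_fun measurableSet_ball fun z hz => ?_
    rw [heq z (sub13 hz)]
    rfl
  have hc : IsF K (lc K (P.χ i)) := (P.s i).isF
  have h3 : P.Int (fun j z => rr (MH (f j) z).adjugate (fderiv ℝ (lc K (P.χ i) j) z)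
          (fderiv ℝ (f j) z))
      = ∫ z in ball (0 : V) 2, rr (MH (f i) z).adjugate (fderiv ℝ (lc K (P.χ i) i) z)
          (fderiv ℝ (f i) z) := by
    apply P.Int_loc (hf.rr_dens hc) (fun j => rrc (P.s i j) (hf.s j))
    intro j z hz hne
    have h4 : fderiv ℝ (lc K (P.χ i) j) z ≠ 0 := by
      intro h0
      apply hne
      rw [h0, rr_eq_en, en_zero_left]
    have h5 := P.supp i _ (chi_ne P i j h4)
    exact ⟨h5.1, ball_subset_ball (by norm_num) h5.2⟩
  have h4 : ∫ z in ball (0 : V) 2, rr (MH (f i) z).adjugate (fderiv ℝ χ' z) (fderiv ℝ (f i) z)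
      = ∫ z in ball (0 : V) 2, rr (MH (f i) z).adjugate (fderiv ℝ (lc K (P.χ i) i) z)
          (fderiv ℝ (f i) z) := by
    refine setIntegral_congr_fun measurableSet_ball fun z hz => ?_
    have h5 : χ' =ᶠ[𝓝 z] lc K (P.χ i) i := by
      filter_upwards [isOpen_ball.mem_nhds (sub23 hz)] with y hy
      exact heq y hy
    change rr _ (fderiv ℝ χ' z) _ = _
    rw [h5.fderiv_eq]
  rw [← h2, h1, h3, h4]

end HdHess

open HdHess

/-! ### Task HdHess -/

/-- `∫ ∂∂bar f ∧ ∂∂bar f = 0` for a multivalued smooth function -/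
theorem Part.Int_det (P : Part K) {f : K.ι → V → ℝ} (hf : IsF K f) :
    P.Int (fun i z => ((MH (f i) z).det).re) = 0 := by
  have h1 : 2 * P.Int (fun i z => ((MH (f i) z).det).re)
      = - P.Int (fun j z => ∑ i, rr (MH (f j) z).adjugate (fderiv ℝ (lc K (P.χ i) j) z)
          (fderiv ℝ (f j) z)) := by
    rw [P.Int_sum Finset.univ fun i _ j => rrc (P.s i j) (hf.s j), ← Finset.sum_neg_distrib]
    unfold Part.Int
    rw [Finset.mul_sum]
    exact Finset.sum_congr rfl fun i _ => term P hf i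
  have h2 : P.Int (fun j z => ∑ i, rr (MH (f j) z).adjugate (fderiv ℝ (lc K (P.χ i) j) z)
          (fderiv ℝ (f j) z)) = P.Int (fun _ _ => 0) := by
    apply P.Int_congr
    intro j z hz
    have hz3 := sub13 hz
    rw [← rr_sum_left]
    have h3 : ∑ i, fderiv ℝ (lc K (P.χ i) j) z = 0 := by
      have h4 : fderiv ℝ (fun w => ∑ i, lc K (P.χ i) j w) z
          = ∑ i, fderiv ℝ (lc K (P.χ i) j) z := by
        apply fderiv_fun_sum
        intro i _
        exact ((P.s i j).contDiffAt (isOpen_ball.mem_nhds hz3)).differentiableAt (by simp)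
      have h5 : (fun w => ∑ i, lc K (P.χ i) j w) = fun _ => (1 : ℝ) := by
        funext w
        exact P.sum _
      rw [← h4, h5]
      simp
    rw [h3, rr_eq_en, en_zero_left]
  have h3 : P.Int (fun _ _ => 0) = 0 := by
    unfold Part.Int
    simp
  rw [h2, h3] at h1
  linarith

/-- the identity `‖∂∂bar f‖² = ‖Δ f‖²` -/
theorem Part.hn_eq (P : Part K) {f : K.ι → V → ℝ} (hf : IsF K f) :
    P.Int (fun i z => hn (K.C i z) (MH (f i) z) / K.g i z) = P.La f := by
  have h1 : P.La f = P.Int (fun i z => hn (K.C i z) (MH (f i) z) / K.g i z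
      + 2 * ((MH (f i) z).det).re) := by
    apply P.Int_congr
    intro i z hz
    have hg := g_pos i (sub13 hz)
    rw [key i (hf.s i) (sub13 hz)]
    field_simp
  have h2 : P.Int (fun i z => hn (K.C i z) (MH (f i) z) / K.g i z
      + 2 * ((MH (f i) z).det).re)
      = P.Int (fun i z => hn (K.C i z) (MH (f i) z) / K.g i z)
        + P.Int (fun i z => 2 * ((MH (f i) z).det).re) :=
    P.Int_add (fun i => hnc i (hf.s i)) fun i => continuousOn_const.mul (detc (hf.s i))
  have h3 : P.Int (fun i z => 2 * ((MH (f i) z).det).re)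
      = 2 * P.Int (fun i z => ((MH (f i) z).det).re) := P.Int_smul _ 2
  rw [h1, h2, h3, P.Int_det hf]
  ring

theorem Part.hess_le (P : Part K) : ∃ Kc : ℝ, 0 < Kc ∧ ∀ f : K.ι → V → ℝ, IsF K f → ∀ k,
    ∀ j l, sq 2 (fun z => MH (f k) z j l) ≤ Kc * P.La f := by
  choose c hc Kc hKc hb using fun k => bounds (K.isK k)
  refine ⟨1 + ∑ k, (c k)⁻¹, ?_, fun f hf k j l => ?_⟩
  · have : 0 ≤ ∑ k, (c k)⁻¹ := Finset.sum_nonneg fun k _ => (inv_pos.2 (hc k)).le
    linarith
  have h1 : c k * sq 2 (fun z => MH (f k) z j l)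
      ≤ ∫ z in ball (0 : V) 2, hn (K.C k z) (MH (f k) z) / K.g k z := by
    unfold sq
    rw [← integral_const_mul]
    apply setIntegral_mono_on
    · exact (HdGreen.integrableOn_real ((MHc (hf.s k) j l).norm.pow 2)).const_mul _
    · exact HdGreen.integrableOn_real (hnc k (hf.s k))
    · exact measurableSet_ball
    · intro z hz
      have hM : (MH (f k) z).IsHermitian :=
        cH_herm _ fun u v => D2_symm (hf.s k) (sub23 hz) u v
      have h2 := (hb k z (ball_subset_closedBall hz)).2.2.2.2 _ hM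
      refine le_trans ?_ h2
      apply mul_le_mul_of_nonneg_left _ (hc k).le
      have h3 : ‖MH (f k) z j l‖ ^ 2 ≤ ∑ l, ‖MH (f k) z j l‖ ^ 2 :=
        Finset.single_le_sum (f := fun l => ‖MH (f k) z j l‖ ^ 2) (fun _ _ => by positivity)
          (Finset.mem_univ l)
      have h4 : ∑ l, ‖MH (f k) z j l‖ ^ 2 ≤ ∑ j, ∑ l, ‖MH (f k) z j l‖ ^ 2 :=
        Finset.single_le_sum (f := fun j => ∑ l, ‖MH (f k) z j l‖ ^ 2)
          (fun _ _ => by positivity) (Finset.mem_univ j)
      exact h3.trans h4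
  have h2 := P.Int_ge hf.hn_dens (fun i => hnc i (hf.s i)) (fun i z hz =>
    div_nonneg (hn_nonneg (K.isK i) hz (cH_herm _ fun u v => D2_symm (hf.s i) hz u v))
      (g_pos i hz).le) k
  rw [P.hn_eq hf] at h2
  have h3 : sq 2 (fun z => MH (f k) z j l) ≤ (c k)⁻¹ * P.La f := by
    rw [← div_eq_inv_mul, le_div_iff₀ (hc k)]
    linarith
  refine h3.trans (mul_le_mul_of_nonneg_right ?_ (La_nonneg P f))
  have h4 : (c k)⁻¹ ≤ ∑ k, (c k)⁻¹ :=
    Finset.single_le_sum (f := fun k => (c k)⁻¹) (fun k _ => (inv_pos.2 (hc k)).le)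
      (Finset.mem_univ k)
  linarith

/-- the gradient is controlled by the energy -/
theorem Part.grad_le (P : Part K) : ∃ Kc : ℝ, 0 < Kc ∧ ∀ f : K.ι → V → ℝ, IsF K f → ∀ k,
    sq 2 (fderiv ℝ (f k)) ≤ Kc * P.En f f := by
  choose c hc Kc hKc hb using fun k => bounds (K.isK k)
  refine ⟨1 + ∑ k, (c k)⁻¹, ?_, fun f hf k => ?_⟩
  · have : 0 ≤ ∑ k, (c k)⁻¹ := Finset.sum_nonneg fun k _ => (inv_pos.2 (hc k)).le
    linarith
  have h1 : c k * sq 2 (fderiv ℝ (f k))
      ≤ ∫ z in ball (0 : V) 2, en (K.C k z) (fderiv ℝ (f k) z) (fderiv ℝ (f k) z) := by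
    unfold sq
    rw [← integral_const_mul]
    apply setIntegral_mono_on
    · exact (HdGreen.integrableOn_real
        (((fderiv_smooth (hf.s k)).continuousOn).norm.pow 2)).const_mul _
    · exact HdGreen.integrableOn_real (en_smooth (K.isK k) le_rfl (hf.s k) (hf.s k)).continuousOn
    · exact measurableSet_ball
    · intro z hz
      exact ((hb k z (ball_subset_closedBall hz)).1 (fderiv ℝ (f k) z)).1
  have h2 := P.Int_ge (hf.en_dens hf)
    (fun i => (en_smooth (K.isK i) le_rfl (hf.s i) (hf.s i)).continuousOn)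
    (fun i z hz => en_nonneg (K.isK i) hz _) k
  have h3 : sq 2 (fderiv ℝ (f k)) ≤ (c k)⁻¹ * P.En f f := by
    rw [← div_eq_inv_mul, le_div_iff₀ (hc k)]
    have h5 : P.Int (fun i z => en (K.C i z) (fderiv ℝ (f i) z) (fderiv ℝ (f i) z))
        = P.En f f := rfl
    rw [h5] at h2
    linarith
  refine h3.trans (mul_le_mul_of_nonneg_right ?_ (En_nonneg P f))
  have h4 : (c k)⁻¹ ≤ ∑ k, (c k)⁻¹ :=
    Finset.single_le_sum (f := fun k => (c k)⁻¹) (fun k _ => (inv_pos.2 (hc k)).le)
      (Finset.mem_univ k)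
  linarith

end Pool.Agent.K708.Hd
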