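import Pool.Agent.Lib.K708.HdRules

/-! # K708, Section A: integrals of densities, partitions of unity -/

set_option autoImplicit false

open scoped ContDiff Topology
open Set Metric MeasureTheory

noncomputable section

namespace Pool.Agent.K708.Hd

variable {X : Type} [TopologicalSpace X] {K : KD X}

/-! ### Task HdInt -/

namespace HdInt

theorem integrableOn_ball {f : V → ℝ} (hf : ContinuousOn f (ball 0 3)) {r : ℝ} (hr : r < 3) :
    IntegrableOn f (ball (0 : V) r) :=
  ((hf.mono (closedBall_subset_ball hr)).integrableOn_compact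
    (isCompact_closedBall (0 : V) r)).mono_set ball_subset_closedBall

theorem cont_chi (P : Part K) (i k : K.ι) :
    ContinuousOn (fun z => P.χ i ((K.ch k).symm z)) (ball 0 3) :=
  (P.s i k).continuousOn

theorem integrable_chi (P : Part K) {D : K.ι → V → ℝ}
    (hc : ∀ i, ContinuousOn (D i) (ball 0 3)) (i k : K.ι) {r : ℝ} (hr : r < 3) :
    IntegrableOn (fun z => P.χ i ((K.ch k).symm z) * D k z) (ball (0 : V) r) :=
  integrableOn_ball ((cont_chi P i k).mul (hc k)) hr

/-- the part of the chart `i` in the chart `k` -/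
def SS (K : KD X) (i k : K.ι) : Set V :=
  ball (0 : V) 1 ∩ (ov K.ch i k ∩ tt K.ch i k ⁻¹' ball (0 : V) 2)

theorem SS_open (K : KD X) (i k : K.ι) : IsOpen (SS K i k) :=
  isOpen_ball.inter ((K.hol i k).continuousOn.isOpen_inter_preimage (ov_open K i k) isOpen_ball)

end HdInt

open HdInt

/-- change of variables -/
theorem int_tt {D : K.ι → V → ℝ} (hD : IsD K D) (i j : K.ι) {S : Set V} (hS : MeasurableSet S)
    (hSo : S ⊆ ov K.ch i j) :
    ∫ z in S, D i z = ∫ z in tt K.ch i j '' S, D j z := by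
  have hd : ∀ z ∈ S, HasFDerivWithinAt (tt K.ch i j)
      ((fderiv ℂ (tt K.ch i j) z).restrictScalars ℝ) S z := by
    intro z hz
    have h1 : DifferentiableAt ℂ (tt K.ch i j) z :=
      (K.hol i j).differentiableAt ((ov_open K i j).mem_nhds (hSo hz))
    exact (h1.hasFDerivAt.restrictScalars ℝ).hasFDerivWithinAt
  have hinj : InjOn (tt K.ch i j) S := by
    intro z hz w hw h
    rw [← tt_tt (hSo hz), ← tt_tt (hSo hw), h]
  rw [integral_image_eq_integral_abs_det_fderiv_smul volume hS hd hinj]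
  refine setIntegral_congr_fun hS fun z hz => ?_
  rw [hD i j z (hSo hz), real_det, smul_eq_mul, abs_of_nonneg (by positivity), mul_comm]
  rfl

namespace HdInt

theorem key (P : Part K) {D : K.ι → V → ℝ} (hD : IsD K D) (i k : K.ι) :
    ∫ z in SS K i k, P.χ i ((K.ch i).symm z) * D i z =
      ∫ w in ball (0 : V) 2, P.χ i ((K.ch k).symm w) * D k w := by
  have h1 := int_tt (hD.smulS (P.χ i)) i k (SS_open K i k).measurableSet
    (fun z hz => hz.2.1)
  change ∫ z in SS K i k, P.χ i ((K.ch i).symm z) * D i z =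
    ∫ z in tt K.ch i k '' SS K i k, P.χ i ((K.ch k).symm z) * D k z at h1
  rw [h1]
  have hsub : tt K.ch i k '' SS K i k ⊆ ball (0 : V) 2 := by
    rintro _ ⟨z, hz, rfl⟩
    exact hz.2.2
  refine (setIntegral_eq_of_subset_of_forall_sdiff_eq_zero measurableSet_ball hsub ?_).symm
  rintro w ⟨hw, hw2⟩
  by_contra hne
  have hchi : P.χ i ((K.ch k).symm w) ≠ 0 := fun h => hne (by rw [h, zero_mul])
  obtain ⟨hx, hx1⟩ := P.supp i _ hchi
  have hwt : w ∈ (K.ch k).target := by
    rw [K.tgt]
    exact ball_subset_ball (by norm_num) hw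
  have hxk : (K.ch k).symm w ∈ (K.ch k).source := (K.ch k).map_target hwt
  have hz : K.ch i ((K.ch k).symm w) ∈ ov K.ch i k := by
    refine ⟨(K.ch i).map_source hx, ?_⟩
    change (K.ch i).symm (K.ch i ((K.ch k).symm w)) ∈ (K.ch k).source
    rw [(K.ch i).left_inv hx]
    exact hxk
  have ht : tt K.ch i k (K.ch i ((K.ch k).symm w)) = w := by
    unfold tt
    rw [(K.ch i).left_inv hx, (K.ch k).right_inv hwt]
  refine hw2 ⟨K.ch i ((K.ch k).symm w), ⟨hx1, hz, ?_⟩, ht⟩
  change tt K.ch i k (K.ch i ((K.ch k).symm w)) ∈ ball (0 : V) 2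
  rw [ht]
  exact hw

theorem sum_chi (P : Part K) {D : K.ι → V → ℝ}
    (hc : ∀ i, ContinuousOn (D i) (ball 0 3)) (k : K.ι) :
    ∑ i, ∫ w in ball (0 : V) 2, P.χ i ((K.ch k).symm w) * D k w =
      ∫ w in ball (0 : V) 2, D k w := by
  rw [← integral_finsetSum _ fun i _ => integrable_chi P hc i k (by norm_num)]
  refine setIntegral_congr_fun measurableSet_ball fun w _ => ?_
  change ∑ i, P.χ i ((K.ch k).symm w) * D k w = D k w
  rw [← Finset.sum_mul, P.sum, one_mul]

end HdInt

/-- The integral of a density supported in one chart. -/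
theorem Part.Int_loc (P : Part K) {D : K.ι → V → ℝ} (hD : IsD K D)
    (hc : ∀ i, ContinuousOn (D i) (ball 0 3)) (k : K.ι)
    (hk : ∀ i, ∀ z ∈ ball (0 : V) 3, D i z ≠ 0 →
      (K.ch i).symm z ∈ (K.ch k).source ∧ K.ch k ((K.ch i).symm z) ∈ ball (0 : V) 2) :
    P.Int D = ∫ z in ball (0 : V) 2, D k z := by
  rw [← sum_chi P hc k]
  refine Finset.sum_congr rfl fun i _ => ?_
  rw [← key P hD i k]
  refine setIntegral_eq_of_subset_of_forall_sdiff_eq_zero measurableSet_ball
    (fun z hz => hz.1) ?_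
  rintro z ⟨hz, hz2⟩
  by_contra hne
  have hD0 : D i z ≠ 0 := fun h => hne (by rw [h, mul_zero])
  have hz3 : z ∈ ball (0 : V) 3 := ball_subset_ball (by norm_num) hz
  obtain ⟨h1, h2⟩ := hk i z hz3 hD0
  refine hz2 ⟨hz, ⟨?_, h1⟩, h2⟩
  rw [K.tgt]
  exact hz3

theorem Part.Int_ge (P : Part K) {D : K.ι → V → ℝ} (hD : IsD K D)
    (hc : ∀ i, ContinuousOn (D i) (ball 0 3)) (h0 : ∀ i, ∀ z ∈ ball (0 : V) 3, 0 ≤ D i z)
    (k : K.ι) : ∫ z in ball (0 : V) 2, D k z ≤ P.Int D := by
  rw [← sum_chi P hc k]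
  refine Finset.sum_le_sum fun i _ => ?_
  rw [← key P hD i k]
  refine setIntegral_mono_set (integrable_chi P hc i i (by norm_num)) ?_ ?_
  · refine (ae_restrict_iff' measurableSet_ball).mpr (Filter.Eventually.of_forall fun z hz => ?_)
    exact mul_nonneg (P.nn _ _) (h0 i z (ball_subset_ball (by norm_num) hz))
  · exact Filter.Eventually.of_forall fun z hz => hz.1

theorem Part.Int_add (P : Part K) {D D' : K.ι → V → ℝ}
    (hc : ∀ i, ContinuousOn (D i) (ball 0 3)) (hc' : ∀ i, ContinuousOn (D' i) (ball 0 3)) :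
    P.Int (fun i z => D i z + D' i z) = P.Int D + P.Int D' := by
  unfold Part.Int
  rw [← Finset.sum_add_distrib]
  refine Finset.sum_congr rfl fun i _ => ?_
  rw [← integral_add (integrable_chi P hc i i (by norm_num))
    (integrable_chi P hc' i i (by norm_num))]
  refine setIntegral_congr_fun measurableSet_ball fun z _ => ?_
  simp only [mul_add]

theorem Part.Int_smul (P : Part K) (D : K.ι → V → ℝ) (c : ℝ) :
    P.Int (fun i z => c * D i z) = c * P.Int D := by
  unfold Part.Int
  rw [Finset.mul_sum]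
  refine Finset.sum_congr rfl fun i _ => ?_
  rw [← integral_const_mul]
  refine setIntegral_congr_fun measurableSet_ball fun z _ => ?_
  change P.χ i ((K.ch i).symm z) * (c * D i z) = c * (P.χ i ((K.ch i).symm z) * D i z)
  ring

theorem Part.Int_sum (P : Part K) {κ : Type} (s : Finset κ) {D : κ → K.ι → V → ℝ}
    (hc : ∀ a ∈ s, ∀ i, ContinuousOn (D a i) (ball 0 3)) :
    P.Int (fun i z => ∑ a ∈ s, D a i z) = ∑ a ∈ s, P.Int (D a) := by
  unfold Part.Int
  rw [Finset.sum_comm]
  refine Finset.sum_congr rfl fun i _ => ?_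
  rw [← integral_finsetSum _ fun a ha => integrable_chi P (hc a ha) i i (by norm_num)]
  refine setIntegral_congr_fun measurableSet_ball fun z _ => ?_
  simp only [Finset.mul_sum]

theorem Part.Int_nonneg (P : Part K) {D : K.ι → V → ℝ}
    (h0 : ∀ i, ∀ z ∈ ball (0 : V) 1, 0 ≤ D i z) : 0 ≤ P.Int D :=
  Finset.sum_nonneg fun i _ => setIntegral_nonneg measurableSet_ball fun z hz =>
    mul_nonneg (P.nn _ _) (h0 i z hz)

theorem Part.Int_mono (P : Part K) {D D' : K.ι → V → ℝ}
    (hc : ∀ i, ContinuousOn (D i) (ball 0 3)) (hc' : ∀ i, ContinuousOn (D' i) (ball 0 3))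
    (h : ∀ i, ∀ z ∈ ball (0 : V) 1, D i z ≤ D' i z) : P.Int D ≤ P.Int D' :=
  Finset.sum_le_sum fun i _ => setIntegral_mono_on (integrable_chi P hc i i (by norm_num))
    (integrable_chi P hc' i i (by norm_num)) measurableSet_ball fun z hz =>
      mul_le_mul_of_nonneg_left (h i z hz) (P.nn _ _)

theorem Part.Int_congr (P : Part K) {D D' : K.ι → V → ℝ}
    (h : ∀ i, ∀ z ∈ ball (0 : V) 1, D i z = D' i z) : P.Int D = P.Int D' :=
  Finset.sum_congr rfl fun i _ => setIntegral_congr_fun measurableSet_ball fun z hz => by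
    simp only [h i z hz]

/-! ### Task HdPart -/

/-- Functions supported in one chart are smooth if they are smooth in this chart. -/
theorem isS_of_chart [T2Space X] (K : KD X) (k : K.ι) {w : X → ℝ}
    (hw : ContDiffOn ℝ ∞ (lc K w k) (ball 0 3))
    (hs : ∀ x, w x ≠ 0 → x ∈ (K.ch k).source ∧ K.ch k x ∈ ball (0 : V) 2) : IsS K w := by
  intro i
  have hsub2 : closedBall (0 : V) 2 ⊆ (K.ch k).target := by
    rw [K.tgt]
    exact closedBall_subset_ball (by norm_num)
  have hcomp : IsCompact ((K.ch k).symm '' closedBall (0 : V) 2) :=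
    (isCompact_closedBall (0 : V) 2).image_of_continuousOn
      ((K.ch k).continuousOn_symm.mono hsub2)
  have hcl : IsClosed ((K.ch k).symm '' closedBall (0 : V) 2) := hcomp.isClosed
  have hsubs : (K.ch k).symm '' closedBall (0 : V) 2 ⊆ (K.ch k).source := by
    rintro _ ⟨z, hz, rfl⟩
    exact (K.ch k).map_target (hsub2 hz)
  have hzero : ∀ x, x ∉ (K.ch k).symm '' closedBall (0 : V) 2 → w x = 0 := by
    intro x hx
    by_contra hne
    obtain ⟨h1, h2⟩ := hs x hne
    exact hx ⟨K.ch k x, ball_subset_closedBall h2, (K.ch k).left_inv h1⟩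
  intro z hz
  by_cases hzk : (K.ch i).symm z ∈ (K.ch k).source
  · have hzo : z ∈ ov K.ch i k := by
      refine ⟨?_, hzk⟩
      rw [K.tgt]
      exact hz
    have hT : ContDiffOn ℝ ∞ (tt K.ch i k) (ov K.ch i k) := holo_smooth (ov_open K i k) (K.hol i k)
    have hmap : MapsTo (tt K.ch i k) (ov K.ch i k) (ball (0 : V) 3) := by
      intro y hy
      exact ov_sub K k i (tt_mem hy)
    have h1 : ContDiffOn ℝ ∞ (lc K w i) (ov K.ch i k) :=
      (hw.comp hT hmap).congr fun y hy => (lc_tt hy).symm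
    exact ((h1.contDiffAt ((ov_open K i k).mem_nhds hzo)).contDiffWithinAt)
  · have hO : IsOpen ((K.ch i).target ∩ (K.ch i).symm ⁻¹'
        ((K.ch k).symm '' closedBall (0 : V) 2)ᶜ) :=
      (K.ch i).isOpen_inter_preimage_symm hcl.isOpen_compl
    have hzO : z ∈ (K.ch i).target ∩ (K.ch i).symm ⁻¹'
        ((K.ch k).symm '' closedBall (0 : V) 2)ᶜ := by
      refine ⟨?_, fun h => hzk (hsubs h)⟩
      rw [K.tgt]
      exact hz
    have h1 : lc K w i =ᶠ[𝓝 z] fun _ => (0 : ℝ) := by
      filter_upwards [hO.mem_nhds hzO] with y hy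
      exact hzero _ hy.2
    exact (contDiffAt_const.congr_of_eventuallyEq h1).contDiffWithinAt

theorem exists_part [T2Space X] (K : KD X) : Nonempty (Part K) := by
  classical
  obtain ⟨β, hβs, hβc, hβr⟩ := (isOpen_ball (x := (0 : V)) (ε := 1)).exists_contDiff_support_eq
    (n := ⊤)
  have hβ0 : ∀ z, 0 ≤ β z := fun z => (hβr ⟨z, rfl⟩).1
  obtain ⟨b, hb⟩ : ∃ b : K.ι → X → ℝ, b = fun i x =>
      if x ∈ (K.ch i).source then β (K.ch i x) else 0 := ⟨_, rfl⟩
  have hbn : ∀ i x, b i x ≠ 0 → x ∈ (K.ch i).source ∧ K.ch i x ∈ ball (0 : V) 1 := by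
    intro i x h
    rw [hb] at h
    by_cases hx : x ∈ (K.ch i).source
    · simp only [if_pos hx] at h
      refine ⟨hx, ?_⟩
      rw [← hβs]
      exact h
    · simp only [if_neg hx] at h
      exact absurd rfl h
  have hb0 : ∀ i x, 0 ≤ b i x := by
    intro i x
    rw [hb]
    by_cases hx : x ∈ (K.ch i).source
    · simp only [if_pos hx]
      exact hβ0 _
    · simp only [if_neg hx]
      exact le_refl _
  have hbS : ∀ i, IsS K (b i) := by
    intro i
    refine isS_of_chart K i ?_ fun x hx => ?_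
    · refine hβc.contDiffOn.congr fun z hz => ?_
      have hzt : z ∈ (K.ch i).target := by
        rw [K.tgt]
        exact hz
      change b i ((K.ch i).symm z) = β z
      rw [hb]
      simp only [if_pos ((K.ch i).map_target hzt), (K.ch i).right_inv hzt]
    · obtain ⟨h1, h2⟩ := hbn i x hx
      exact ⟨h1, ball_subset_ball (by norm_num) h2⟩
  have hpos : ∀ x, 0 < ∑ i, b i x := by
    intro x
    obtain ⟨i, hi, hi1⟩ := K.cov x
    refine Finset.sum_pos' (fun i _ => hb0 i x) ⟨i, Finset.mem_univ _, ?_⟩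
    refine lt_of_le_of_ne (hb0 i x) (Ne.symm ?_)
    rw [hb]
    simp only [if_pos hi]
    rw [← hβs] at hi1
    exact hi1
  have hsum : IsS K fun x => ∑ i, b i x := IsS.sum Finset.univ fun i _ => hbS i
  refine ⟨⟨fun i x => b i x / ∑ j, b j x, fun i k => ?_, fun i x => ?_, fun x => ?_,
    fun i x h => ?_⟩⟩
  · exact (hbS i k).div (hsum k) fun z _ => (hpos _).ne'
  · exact div_nonneg (hb0 i x) (hpos x).le
  · rw [← Finset.sum_div]
    exact div_self (hpos x).ne'
  · exact hbn i x fun h0 => h (by rw [h0, zero_div])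

end Pool.Agent.K708.Hd
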