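import Pool.Agent.Lib.K708.HdBounds

/-! # K708, Section A: mollification on polydiscs -/

set_option autoImplicit false

open scoped ContDiff Topology
open Set Metric MeasureTheory

noncomputable section

namespace Pool.Agent.K708.Hd

namespace HdMoll1

variable {W : Type} [NormedAddCommGroup W] [NormedSpace ℝ W]

theorem mem3 {ε : ℝ} (h0 : 0 < ε) (h1 : ε < 1) {x y : V} (hx : x ∈ ball (0 : V) 2)
    (hy : ‖y‖ ≤ 1) : x - ε • y ∈ ball (0 : V) 3 := by
  rw [mem_ball_zero_iff] at hx ⊢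
  calc ‖x - ε • y‖ ≤ ‖x‖ + ‖ε • y‖ := norm_sub_le _ _
    _ = ‖x‖ + ε * ‖y‖ := by rw [norm_smul, Real.norm_of_nonneg h0.le]
    _ ≤ ‖x‖ + ε * 1 := by gcongr
    _ < 3 := by linarith

theorem cont {ρ : V → ℝ} (hρ : IsM ρ) {ε : ℝ} (h0 : 0 < ε) (h1 : ε < 1) {F : V → W}
    (hF : ContinuousOn F (ball 0 3)) {x : V} (hx : x ∈ ball (0 : V) 2) :
    Continuous fun y => ρ y • F (x - ε • y) := by
  rw [continuous_iff_continuousAt]
  intro y
  by_cases hy : ‖y‖ ≤ 1
  · have h2 : ContinuousAt F (x - ε • y) :=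
      hF.continuousAt (isOpen_ball.mem_nhds (mem3 h0 h1 hx hy))
    have h3 : ContinuousAt (fun y => F (x - ε • y)) y :=
      ContinuousAt.comp (g := F) (f := fun y => x - ε • y) h2 (by fun_prop)
    exact hρ.s.continuous.continuousAt.smul h3
  · push Not at hy
    have h4 : (fun y => ρ y • F (x - ε • y)) =ᶠ[𝓝 y] fun _ => 0 := by
      filter_upwards [(isOpen_lt continuous_const continuous_norm).mem_nhds hy] with w hw
      rw [hρ.supp w (le_of_lt hw), zero_smul]
    exact continuousAt_const.congr h4.symm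

theorem cont' {ρ : V → ℝ} (hρ : IsM ρ) {ε : ℝ} {F : V → W}
    (hF : ContinuousOn F (ball 0 3)) {x : V}
    (hx : ∀ y, ‖y‖ ≤ 1 → x - ε • y ∈ ball (0 : V) 3) :
    Continuous fun y => ρ y • F (x - ε • y) := by
  rw [continuous_iff_continuousAt]
  intro y
  by_cases hy : ‖y‖ ≤ 1
  · have h2 : ContinuousAt F (x - ε • y) :=
      hF.continuousAt (isOpen_ball.mem_nhds (hx y hy))
    have h3 : ContinuousAt (fun y => F (x - ε • y)) y :=
      ContinuousAt.comp (g := F) (f := fun y => x - ε • y) h2 (by fun_prop)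
    exact hρ.s.continuous.continuousAt.smul h3
  · push Not at hy
    have h4 : (fun y => ρ y • F (x - ε • y)) =ᶠ[𝓝 y] fun _ => 0 := by
      filter_upwards [(isOpen_lt continuous_const continuous_norm).mem_nhds hy] with w hw
      rw [hρ.supp w (le_of_lt hw), zero_smul]
    exact continuousAt_const.congr h4.symm

theorem compactSupp {ρ : V → ℝ} (hρ : IsM ρ) (ε : ℝ) (F : V → W) (x : V) :
    HasCompactSupport fun y => ρ y • F (x - ε • y) := by
  apply HasCompactSupport.intro (isCompact_closedBall (0 : V) 1)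
  intro y hy
  rw [mem_closedBall_zero_iff, not_le] at hy
  rw [hρ.supp y hy.le, zero_smul]

theorem integrable {ρ : V → ℝ} (hρ : IsM ρ) {ε : ℝ} (h0 : 0 < ε) (h1 : ε < 1) {F : V → W}
    (hF : ContinuousOn F (ball 0 3)) {x : V} (hx : x ∈ ball (0 : V) 2) :
    Integrable fun y => ρ y • F (x - ε • y) :=
  (cont hρ h0 h1 hF hx).integrable_of_hasCompactSupport (compactSupp hρ ε F x)

theorem integrable' {ρ : V → ℝ} (hρ : IsM ρ) {ε : ℝ} {F : V → W}
    (hF : ContinuousOn F (ball 0 3)) {x : V}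
    (hx : ∀ y, ‖y‖ ≤ 1 → x - ε • y ∈ ball (0 : V) 3) :
    Integrable fun y => ρ y • F (x - ε • y) :=
  (cont' hρ hF hx).integrable_of_hasCompactSupport (compactSupp hρ ε F x)

theorem rho_integrable {ρ : V → ℝ} (hρ : IsM ρ) : Integrable ρ := by
  by_contra h
  have := hρ.int
  rw [integral_undef h] at this
  exact zero_ne_one this

theorem hasFDerivAt_mo [CompleteSpace W]
    {ρ : V → ℝ} (hρ : IsM ρ) {ε : ℝ} (h0 : 0 < ε) (h1 : ε < 1) {F : V → W}
    (hF : ContDiffOn ℝ ∞ F (ball 0 3)) {x : V} (hx : x ∈ ball (0 : V) 2) :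
    HasFDerivAt (mo ρ ε F) (mo ρ ε (fderiv ℝ F) x) x := by
  have hF1 : ContinuousOn F (ball 0 3) := hF.continuousOn
  have hF2 : ContinuousOn (fderiv ℝ F) (ball 0 3) :=
    (hF.fderiv_of_isOpen (m := 0) isOpen_ball (by simp)).continuousOn
  have hd : ∀ z ∈ ball (0 : V) 3, HasFDerivAt F (fderiv ℝ F z) z := fun z hz =>
    ((hF.differentiableOn (by simp)) z hz |>.differentiableAt (isOpen_ball.mem_nhds hz)).hasFDerivAt
  -- the bound
  have hxn : ‖x‖ < 2 := by simpa using hx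
  obtain ⟨δ, hδ, hδ2⟩ : ∃ δ > 0, ‖x‖ + δ < 2 := ⟨(2 - ‖x‖) / 2, by linarith, by linarith⟩
  obtain ⟨M, hM⟩ := (isCompact_closedBall (0 : V) (‖x‖ + δ + ε)).exists_bound_of_continuousOn
    (hF2.mono (closedBall_subset_ball (by linarith)))
  have hsub : ∀ z ∈ ball x δ, z ∈ ball (0 : V) 2 := by
    intro z hz
    rw [mem_ball_zero_iff]
    rw [mem_ball, dist_eq_norm] at hz
    have := norm_le_norm_add_norm_sub' z x
    linarith
  have key := hasFDerivAt_integral_of_dominated_of_fderiv_le (μ := volume) (𝕜 := ℝ)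
    (F := fun z y => ρ y • F (z - ε • y)) (F' := fun z y => ρ y • fderiv ℝ F (z - ε • y))
    (x₀ := x) (s := ball x δ) (bound := fun y => M * ρ y) (ball_mem_nhds x hδ)
    (by
      filter_upwards [ball_mem_nhds x hδ] with z hz
      exact (cont hρ h0 h1 hF1 (hsub z hz)).aestronglyMeasurable)
    (integrable hρ h0 h1 hF1 hx)
    (cont hρ h0 h1 hF2 hx).aestronglyMeasurable
    (by
      refine Filter.Eventually.of_forall fun y z hz => ?_
      rw [norm_smul, Real.norm_of_nonneg (hρ.nn y), mul_comm]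
      by_cases hy : ‖y‖ ≤ 1
      · apply mul_le_mul_of_nonneg_right _ (hρ.nn y)
        apply hM
        rw [mem_closedBall_zero_iff]
        rw [mem_ball, dist_eq_norm] at hz
        have e1 := norm_le_norm_add_norm_sub' z x
        calc ‖z - ε • y‖ ≤ ‖z‖ + ‖ε • y‖ := norm_sub_le _ _
          _ = ‖z‖ + ε * ‖y‖ := by rw [norm_smul, Real.norm_of_nonneg h0.le]
          _ ≤ ‖z‖ + ε * 1 := by gcongr
          _ ≤ ‖x‖ + δ + ε := by linarith
      · push Not at hy
        rw [hρ.supp y hy.le]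
        simp)
    ((rho_integrable hρ).const_mul M)
    (by
      refine Filter.Eventually.of_forall fun y z hz => ?_
      by_cases hy : ‖y‖ ≤ 1
      · have e1 := hd _ (mem3 h0 h1 (hsub z hz) hy)
        have e2 : HasFDerivAt (fun z : V => z - ε • y) (ContinuousLinearMap.id ℝ V) z :=
          (hasFDerivAt_id z).sub_const _
        have e3 := e1.comp z e2
        exact e3.const_smul (ρ y)
      · push Not at hy
        simp only [hρ.supp y hy.le, zero_smul]
        exact hasFDerivAt_const _ _)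
  exact key

end HdMoll1

open HdMoll1

/-! ### Task HdMoll1 -/

theorem exists_mollifier : ∃ ρ : V → ℝ, IsM ρ := by
  set f : ContDiffBump (0 : V) := ⟨1 / 2, 1, by norm_num, by norm_num⟩ with hf
  refine ⟨f.normed volume, f.contDiff_normed, f.nonneg_normed, fun y hy => ?_, f.integral_normed⟩
  by_contra h
  have h1 : y ∈ Function.support (f.normed volume) := h
  rw [f.support_normed_eq, mem_ball_zero_iff] at h1
  exact absurd h1 (not_lt.mpr hy)

theorem fderiv_mo {W : Type} [NormedAddCommGroup W] [NormedSpace ℝ W] [CompleteSpace W]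
    {ρ : V → ℝ} (hρ : IsM ρ) {ε : ℝ} (h0 : 0 < ε) (h1 : ε < 1) {F : V → W}
    (hF : ContDiffOn ℝ ∞ F (ball 0 3)) {x : V} (hx : x ∈ ball (0 : V) 2) :
    fderiv ℝ (mo ρ ε F) x = mo ρ ε (fderiv ℝ F) x :=
  (hasFDerivAt_mo hρ h0 h1 hF hx).fderiv

theorem HdMoll1.mo_smooth_nat {ρ : V → ℝ} (hρ : IsM ρ) {ε : ℝ} (h0 : 0 < ε) (h1 : ε < 1) (n : ℕ) :
    ∀ {W : Type} [NormedAddCommGroup W] [NormedSpace ℝ W] [CompleteSpace W] {F : V → W},
    ContDiffOn ℝ ∞ F (ball 0 3) → ContDiffOn ℝ n (mo ρ ε F) (ball 0 2) := by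
  induction n with
  | zero =>
    intro W _ _ _ F hF
    rw [Nat.cast_zero, contDiffOn_zero]
    exact fun x hx => (hasFDerivAt_mo hρ h0 h1 hF hx).continuousAt.continuousWithinAt
  | succ n ih =>
    intro W _ _ _ F hF
    rw [Nat.cast_succ, contDiffOn_succ_iff_fderiv_of_isOpen isOpen_ball]
    refine ⟨fun x hx => (hasFDerivAt_mo hρ h0 h1 hF hx).differentiableAt.differentiableWithinAt,
      by simp, ?_⟩
    have h2 : ContDiffOn ℝ ∞ (fderiv ℝ F) (ball 0 3) :=
      hF.fderiv_of_isOpen isOpen_ball (by simp)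
    exact (ih h2).congr fun x hx => fderiv_mo hρ h0 h1 hF hx

theorem mo_smooth {W : Type} [NormedAddCommGroup W] [NormedSpace ℝ W] [CompleteSpace W]
    {ρ : V → ℝ} (hρ : IsM ρ) {ε : ℝ} (h0 : 0 < ε) (h1 : ε < 1) {F : V → W}
    (hF : ContDiffOn ℝ ∞ F (ball 0 3)) : ContDiffOn ℝ ∞ (mo ρ ε F) (ball 0 2) := by
  rw [contDiffOn_infty]
  exact fun n => mo_smooth_nat hρ h0 h1 n hF

theorem D2_mo {ρ : V → ℝ} (hρ : IsM ρ) {ε : ℝ} (h0 : 0 < ε) (h1 : ε < 1) {f : V → ℝ}
    (hf : ContDiffOn ℝ ∞ f (ball 0 3)) {x : V} (hx : x ∈ ball (0 : V) 2) :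
    D2 (mo ρ ε f) x = mo ρ ε (D2 f) x := by
  have h2 : fderiv ℝ (mo ρ ε f) =ᶠ[𝓝 x] mo ρ ε (fderiv ℝ f) := by
    filter_upwards [isOpen_ball.mem_nhds hx] with z hz using fderiv_mo hρ h0 h1 hf hz
  show fderiv ℝ (fderiv ℝ (mo ρ ε f)) x = _
  rw [h2.fderiv_eq, fderiv_mo hρ h0 h1 (hf.fderiv_of_isOpen isOpen_ball (by simp)) hx]
  rfl

/-! ### Task HdMoll2 -/

namespace HdMoll2

open scoped ENNReal

variable {W : Type} [NormedAddCommGroup W] [NormedSpace ℝ W]

/-- Jensen's inequality for the square, extended nonnegative version. -/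
theorem jensen {ρ : V → ℝ} (hρ : IsM ρ) {φ : V → ℝ≥0∞} (hφ : Measurable φ) :
    (∫⁻ y, ENNReal.ofReal (ρ y) * φ y) ^ 2 ≤ ∫⁻ y, ENNReal.ofReal (ρ y) * φ y ^ 2 := by
  have hm : Measurable fun y => ENNReal.ofReal (ρ y) :=
    ENNReal.measurable_ofReal.comp hρ.s.continuous.measurable
  have h1 : ∫⁻ y, ENNReal.ofReal (ρ y) = 1 := by
    rw [← ofReal_integral_eq_lintegral_ofReal (rho_integrable hρ)
      (Filter.Eventually.of_forall hρ.nn), hρ.int, ENNReal.ofReal_one]
  have h2 := ENNReal.lintegral_mul_le_Lp_mul_Lq (volume : Measure V)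
    (Real.HolderConjugate.two_two) (f := fun y => ENNReal.ofReal (ρ y) ^ (1 / 2 : ℝ))
    (g := fun y => ENNReal.ofReal (ρ y) ^ (1 / 2 : ℝ) * φ y)
    (hm.pow_const _).aemeasurable ((hm.pow_const _).mul hφ).aemeasurable
  have e0 : ∀ t : ℝ≥0∞, t ^ (1 / 2 : ℝ) * t ^ (1 / 2 : ℝ) = t := by
    intro t
    rw [← ENNReal.rpow_add_of_nonneg _ _ (by norm_num) (by norm_num)]
    norm_num
  have e1 : ∀ t : ℝ≥0∞, (t ^ (1 / 2 : ℝ)) ^ (2 : ℝ) = t := by
    intro t
    rw [← ENNReal.rpow_mul]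
    norm_num
  have e2 : ∫⁻ y, ((fun y => ENNReal.ofReal (ρ y) ^ (1 / 2 : ℝ)) *
      (fun y => ENNReal.ofReal (ρ y) ^ (1 / 2 : ℝ) * φ y)) y = ∫⁻ y, ENNReal.ofReal (ρ y) * φ y := by
    refine lintegral_congr fun y => ?_
    simp only [Pi.mul_apply]
    rw [← mul_assoc, e0]
  have e3 : ∫⁻ y, (ENNReal.ofReal (ρ y) ^ (1 / 2 : ℝ) * φ y) ^ (2 : ℝ) =
      ∫⁻ y, ENNReal.ofReal (ρ y) * φ y ^ 2 := by
    refine lintegral_congr fun y => ?_
    rw [ENNReal.mul_rpow_of_nonneg _ _ (by norm_num), e1]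
    norm_num
  rw [e2, e3] at h2
  simp only [e1, h1, ENNReal.one_rpow, one_mul] at h2
  calc (∫⁻ y, ENNReal.ofReal (ρ y) * φ y) ^ 2
      ≤ ((∫⁻ y, ENNReal.ofReal (ρ y) * φ y ^ 2) ^ (1 / 2 : ℝ)) ^ 2 := pow_le_pow_left' h2 2
    _ = _ := by
      rw [← ENNReal.rpow_natCast, ← ENNReal.rpow_mul]
      norm_num

/-- the norm of `F` extended by zero -/
def ex (F : V → W) (z : V) : ℝ≥0∞ := (ball (0 : V) 3).indicator (fun z => ‖F z‖ₑ) z

theorem ex_meas {F : V → W} (hF : ContinuousOn F (ball 0 3)) : Measurable (ex F) := by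
  classical
  have h1 : ContinuousOn (fun z => ‖F z‖ₑ) (ball (0 : V) 3) := hF.enorm
  exact ContinuousOn.measurable_piecewise h1 (g := fun _ => 0) continuousOn_const
    measurableSet_ball

theorem ex_of_mem (F : V → W) {z : V} (hz : z ∈ ball (0 : V) 3) : ex F z = ‖F z‖ₑ :=
  indicator_of_mem hz _

theorem enorm_mo_le {ρ : V → ℝ} (hρ : IsM ρ) {ε : ℝ} (F : V → W) {x : V}
    (hx : ∀ y, ‖y‖ ≤ 1 → x - ε • y ∈ ball (0 : V) 3) :
    ‖mo ρ ε F x‖ₑ ≤ ∫⁻ y, ENNReal.ofReal (ρ y) * ex F (x - ε • y) := by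
  refine (enorm_integral_le_lintegral_enorm _).trans (lintegral_mono fun y => ?_)
  rw [enorm_smul, Real.enorm_eq_ofReal (hρ.nn y)]
  by_cases hy : ‖y‖ ≤ 1
  · rw [ex_of_mem F (hx y hy)]
  · push Not at hy
    rw [hρ.supp y hy.le]
    simp

theorem lsq {F : V → W} {r : ℝ} (hr : r < 3) (hF : ContinuousOn F (ball 0 3)) :
    ENNReal.ofReal (sq r F) = ∫⁻ z in ball (0 : V) r, ‖F z‖ₑ ^ 2 := by
  have hsub : ball (0 : V) r ⊆ ball 0 3 := ball_subset_ball hr.le
  have h1 : IntegrableOn (fun z => ‖F z‖ ^ 2) (ball (0 : V) r) := by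
    have h2 : ContinuousOn (fun z => ‖F z‖ ^ 2) (closedBall (0 : V) r) :=
      (hF.norm.pow 2).mono (closedBall_subset_ball hr)
    exact (h2.integrableOn_compact (isCompact_closedBall _ _)).mono_set ball_subset_closedBall
  unfold sq
  rw [ofReal_integral_eq_lintegral_ofReal h1 (Filter.Eventually.of_forall fun z => sq_nonneg _)]
  refine lintegral_congr fun z => ?_
  rw [ENNReal.ofReal_pow (norm_nonneg _), ofReal_norm]

theorem lsq_le (G : V → W) (r : ℝ) :
    ENNReal.ofReal (sq r G) ≤ ∫⁻ z in ball (0 : V) r, ‖G z‖ₑ ^ 2 := by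
  unfold sq
  by_cases h1 : Integrable (fun z => ‖G z‖ ^ 2) (volume.restrict (ball (0 : V) r))
  · rw [ofReal_integral_eq_lintegral_ofReal h1 (Filter.Eventually.of_forall fun z => sq_nonneg _)]
    refine le_of_eq (lintegral_congr fun z => ?_)
    rw [ENNReal.ofReal_pow (norm_nonneg _), ofReal_norm]
  · rw [integral_undef h1, ENNReal.ofReal_zero]
    exact bot_le

theorem sq_nonneg' (G : V → W) (r : ℝ) : 0 ≤ sq r G :=
  integral_nonneg fun _ => sq_nonneg _

/-- translation -/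
theorem shift (φ : V → ℝ≥0∞) {r ε : ℝ} {v : V} (hv : ‖v‖ ≤ ε) :
    ∫⁻ x in ball (0 : V) r, φ (x - v) ≤ ∫⁻ x in ball (0 : V) (r + ε), φ x := by
  rw [← lintegral_indicator measurableSet_ball, ← lintegral_indicator measurableSet_ball,
    ← lintegral_add_right_eq_self _ v]
  refine lintegral_mono fun z => ?_
  by_cases hz : z + v ∈ ball (0 : V) r
  · have h2 : z ∈ ball (0 : V) (r + ε) := by
      rw [mem_ball_zero_iff] at hz ⊢
      have := norm_le_norm_add_norm_sub' z (z + v)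
      have h3 : ‖z - (z + v)‖ = ‖v‖ := by
        rw [sub_add_cancel_left, norm_neg]
      linarith
    rw [indicator_of_mem hz, indicator_of_mem h2, add_sub_cancel_right]
  · rw [indicator_of_notMem hz]
    exact bot_le

end HdMoll2

open HdMoll2
open scoped ENNReal

/-- mollification is a contraction in `L²` -/
theorem sq_mo_le {W : Type} [NormedAddCommGroup W] [NormedSpace ℝ W] [CompleteSpace W]
    {ρ : V → ℝ} (hρ : IsM ρ) {ε : ℝ} (h0 : 0 < ε) (h1 : ε < 1) {F : V → W}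
    (hF : ContinuousOn F (ball 0 3)) {r : ℝ} (hr : 0 < r) (hr2 : r + ε ≤ 2) :
    sq r (mo ρ ε F) ≤ sq (r + ε) F := by
  have _ := hr
  have hρm : Measurable fun y => ENNReal.ofReal (ρ y) :=
    ENNReal.measurable_ofReal.comp hρ.s.continuous.measurable
  have hm : Measurable fun p : V × V => ENNReal.ofReal (ρ p.2) * ex F (p.1 - ε • p.2) ^ 2 := by
    refine (hρm.comp measurable_snd).mul (((ex_meas hF).comp ?_).pow_const 2)
    fun_prop
  rw [← ENNReal.ofReal_le_ofReal_iff (sq_nonneg' F (r + ε)), lsq (by linarith) hF]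
  calc ENNReal.ofReal (sq r (mo ρ ε F)) ≤ ∫⁻ z in ball (0 : V) r, ‖mo ρ ε F z‖ₑ ^ 2 := lsq_le _ _
    _ ≤ ∫⁻ z in ball (0 : V) r, ∫⁻ y, ENNReal.ofReal (ρ y) * ex F (z - ε • y) ^ 2 := by
        refine setLIntegral_mono' measurableSet_ball fun x hx => ?_
        have hx2 : x ∈ ball (0 : V) 2 := ball_subset_ball (by linarith) hx
        refine (pow_le_pow_left' (enorm_mo_le hρ F fun y hy => mem3 h0 h1 hx2 hy) 2).trans ?_
        exact jensen hρ ((ex_meas hF).comp (by fun_prop))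
    _ = ∫⁻ y, ∫⁻ z in ball (0 : V) r, ENNReal.ofReal (ρ y) * ex F (z - ε • y) ^ 2 :=
        lintegral_lintegral_swap hm.aemeasurable
    _ ≤ ∫⁻ y, ENNReal.ofReal (ρ y) * ∫⁻ z in ball (0 : V) (r + ε), ‖F z‖ₑ ^ 2 := by
        refine lintegral_mono fun y => ?_
        rw [lintegral_const_mul' _ _ ENNReal.ofReal_ne_top]
        by_cases hy : ‖y‖ ≤ 1
        · refine mul_le_mul' le_rfl ((shift (fun z => ex F z ^ 2) (ε := ε) ?_).trans ?_)
          · rw [norm_smul, Real.norm_of_nonneg h0.le]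
            nlinarith
          · refine le_of_eq (setLIntegral_congr_fun measurableSet_ball fun z hz => ?_)
            rw [ex_of_mem F (ball_subset_ball (by linarith) hz)]
        · push Not at hy
          rw [hρ.supp y hy.le]
          simp
    _ = ∫⁻ z in ball (0 : V) (r + ε), ‖F z‖ₑ ^ 2 := by
        rw [lintegral_mul_const _ hρm, ← ofReal_integral_eq_lintegral_ofReal (rho_integrable hρ)
          (Filter.Eventually.of_forall hρ.nn), hρ.int, ENNReal.ofReal_one, one_mul]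

theorem mo_tendsto {W : Type} [NormedAddCommGroup W] [NormedSpace ℝ W] [CompleteSpace W]
    {ρ : V → ℝ} (hρ : IsM ρ) {F : V → W} (hF : ContinuousOn F (ball 0 3)) {r : ℝ} (hr : r < 3) :
    Filter.Tendsto (fun ε => sq r (fun x => mo ρ ε F x - F x)) (𝓝[>] 0) (𝓝 0) := by
  obtain ⟨r', hr1, hr2⟩ := exists_between hr
  have huc := (isCompact_closedBall (0 : V) r').uniformContinuousOn_of_continuous
    (hF.mono (closedBall_subset_ball hr2))
  rw [Metric.uniformContinuousOn_iff] at huc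
  rw [tendsto_order]
  refine ⟨fun a ha => Filter.Eventually.of_forall fun ε => ha.trans_le (sq_nonneg' _ _),
    fun a ha => ?_⟩
  obtain ⟨v, hv⟩ : ∃ v : ℝ, v = volume.real (ball (0 : V) r) := ⟨_, rfl⟩
  have hv0 : 0 ≤ v := by rw [hv]; exact measureReal_nonneg
  obtain ⟨η, hη, hη2⟩ : ∃ η : ℝ, 0 < η ∧ η ^ 2 * v < a := by
    refine ⟨Real.sqrt (a / (v + 1)), Real.sqrt_pos.mpr (by positivity), ?_⟩
    rw [Real.sq_sqrt (by positivity), div_mul_eq_mul_div, div_lt_iff₀ (by positivity)]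
    nlinarith
  obtain ⟨δ, hδ, hδ2⟩ := huc η hη
  have hmin : (0 : ℝ) < min δ (r' - r) := lt_min hδ (by linarith)
  filter_upwards [Ioo_mem_nhdsGT hmin] with ε hε
  have hε1 : ε < δ := hε.2.trans_le (min_le_left _ _)
  have hε2 : ε < r' - r := hε.2.trans_le (min_le_right _ _)
  have hε0 : 0 < ε := hε.1
  have hpt : ∀ x ∈ ball (0 : V) r, ‖mo ρ ε F x - F x‖ ≤ η := by
    intro x hx
    rw [mem_ball_zero_iff] at hx
    have hn : ∀ y : V, ‖y‖ ≤ 1 → ‖ε • y‖ ≤ ε := by
      intro y hy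
      rw [norm_smul, Real.norm_of_nonneg hε0.le]
      nlinarith
    have hin : ∀ y : V, ‖y‖ ≤ 1 → ‖x - ε • y‖ ≤ r' := by
      intro y hy
      have := norm_sub_le x (ε • y)
      linarith [hn y hy]
    have hi := integrable' hρ (ε := ε) hF (x := x) (fun y hy => by
      rw [mem_ball_zero_iff]
      exact (hin y hy).trans_lt hr2)
    have e1 : mo ρ ε F x - F x = ∫ y, ρ y • (F (x - ε • y) - F x) := by
      have e2 : ∫ y, ρ y • F x = F x := by
        rw [integral_smul_const, hρ.int, one_smul]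
      have e3 : mo ρ ε F x = ∫ y, ρ y • F (x - ε • y) := rfl
      rw [e3]
      conv_lhs => rw [← e2]
      rw [← integral_sub hi ((rho_integrable hρ).smul_const _)]
      simp only [smul_sub]
    rw [e1]
    calc ‖∫ y, ρ y • (F (x - ε • y) - F x)‖ ≤ ∫ y, ρ y * η := by
          refine norm_integral_le_of_norm_le ((rho_integrable hρ).mul_const η)
            (Filter.Eventually.of_forall fun y => ?_)
          rw [norm_smul, Real.norm_of_nonneg (hρ.nn y)]
          by_cases hy : ‖y‖ ≤ 1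
          · refine mul_le_mul_of_nonneg_left ?_ (hρ.nn y)
            have h5 := hδ2 (x - ε • y) (by rw [mem_closedBall_zero_iff]; exact hin y hy) x
              (by rw [mem_closedBall_zero_iff]; linarith) (by
                rw [dist_eq_norm, sub_sub_cancel_left, norm_neg]
                exact (hn y hy).trans_lt hε1)
            rw [dist_eq_norm] at h5
            exact h5.le
          · push Not at hy
            rw [hρ.supp y hy.le, zero_mul, zero_mul]
      _ = η := by rw [integral_mul_const, hρ.int, one_mul]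
  refine lt_of_le_of_lt ?_ hη2
  unfold sq
  have h6 : ∫ z in ball (0 : V) r, ‖mo ρ ε F z - F z‖ ^ 2 ≤ ∫ _z in ball (0 : V) r, η ^ 2 := by
    by_cases hint : IntegrableOn (fun z => ‖mo ρ ε F z - F z‖ ^ 2) (ball (0 : V) r)
    · refine setIntegral_mono_on hint ?_ measurableSet_ball fun z hz => ?_
      · exact integrableOn_const measure_ball_lt_top.ne
      · exact pow_le_pow_left₀ (norm_nonneg _) (hpt z hz) 2
    · rw [integral_undef hint]
      positivity
  refine h6.trans (le_of_eq ?_)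
  rw [setIntegral_const, smul_eq_mul, hv, mul_comm]

namespace HdMoll2

/-- Cauchy-Schwarz on the unit interval -/
theorem cs_unit {g : ℝ → ℝ≥0∞} (hg : AEMeasurable g (volume.restrict (Ioc 0 1))) :
    (∫⁻ s in Ioc (0 : ℝ) 1, g s) ^ 2 ≤ ∫⁻ s in Ioc (0 : ℝ) 1, g s ^ 2 := by
  have h2 := ENNReal.lintegral_mul_le_Lp_mul_Lq (volume.restrict (Ioc (0 : ℝ) 1))
    (Real.HolderConjugate.two_two) (f := fun _ => 1) (g := g) aemeasurable_const hg
  have e1 : ∫⁻ s in Ioc (0 : ℝ) 1, ((fun _ : ℝ => (1 : ℝ≥0∞)) * g : ℝ → ℝ≥0∞) s = ∫⁻ s in Ioc (0 : ℝ) 1, g s := by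
    refine lintegral_congr fun s => ?_
    simp
  have e2 : ∫⁻ s in Ioc (0 : ℝ) 1, g s ^ (2 : ℝ) = ∫⁻ s in Ioc (0 : ℝ) 1, g s ^ 2 := by
    refine lintegral_congr fun s => ?_
    norm_num
  have e3 : ∫⁻ _s in Ioc (0 : ℝ) 1, (1 : ℝ≥0∞) ^ (2 : ℝ) = 1 := by
    simp
  rw [e1, e2, e3, ENNReal.one_rpow, one_mul] at h2
  calc (∫⁻ s in Ioc (0 : ℝ) 1, g s) ^ 2 ≤ ((∫⁻ s in Ioc (0 : ℝ) 1, g s ^ 2) ^ (1 / 2 : ℝ)) ^ 2 :=
        pow_le_pow_left' h2 2
    _ = _ := by
      rw [← ENNReal.rpow_natCast, ← ENNReal.rpow_mul]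
      norm_num

/-- the mean value inequality in integral form -/
theorem mean_value {f : V → ℝ} (hf : ContDiffOn ℝ ∞ f (ball 0 3)) {ε : ℝ} (h0 : 0 < ε)
    (h1 : ε < 1) {x y : V} (hx : x ∈ ball (0 : V) 2) (hy : ‖y‖ ≤ 1) :
    ‖f (x - ε • y) - f x‖ₑ ≤
      ENNReal.ofReal ε * ∫⁻ s in Ioc (0 : ℝ) 1, ex (fderiv ℝ f) (x - s • (ε • y)) := by
  have hin : ∀ s ∈ Icc (0 : ℝ) 1, x - s • (ε • y) ∈ ball (0 : V) 3 := by
    intro s hs
    rw [mem_ball_zero_iff] at hx ⊢
    have e1 : ‖s • (ε • y)‖ ≤ 1 := by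
      rw [norm_smul, norm_smul, Real.norm_of_nonneg hs.1, Real.norm_of_nonneg h0.le]
      have := mul_le_mul h1.le hy (norm_nonneg _) zero_le_one
      calc s * (ε * ‖y‖) ≤ 1 * (1 * 1) := mul_le_mul hs.2 this (by positivity) zero_le_one
        _ = 1 := by norm_num
    have := norm_sub_le x (s • (ε • y))
    linarith
  have hd : ∀ z ∈ ball (0 : V) 3, HasFDerivAt f (fderiv ℝ f z) z := fun z hz =>
    ((hf.differentiableOn (by simp)) z hz |>.differentiableAt (isOpen_ball.mem_nhds hz)).hasFDerivAt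
  have hF2 : ContinuousOn (fderiv ℝ f) (ball 0 3) :=
    (hf.fderiv_of_isOpen (m := 0) isOpen_ball (by simp)).continuousOn
  have hder : ∀ s ∈ uIcc (0 : ℝ) 1, HasDerivAt (fun s : ℝ => f (x - s • (ε • y)))
      (fderiv ℝ f (x - s • (ε • y)) (-(ε • y))) s := by
    intro s hs
    rw [uIcc_of_le zero_le_one] at hs
    have e1 : HasDerivAt (fun s : ℝ => x - s • (ε • y)) (-(ε • y)) s := by
      have := ((hasDerivAt_id s).smul_const (ε • y)).const_sub x
      simpa using this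
    exact (hd _ (hin s hs)).comp_hasDerivAt s e1
  have hcont : ContinuousOn (fun s : ℝ => fderiv ℝ f (x - s • (ε • y)) (-(ε • y))) (uIcc 0 1) := by
    rw [uIcc_of_le zero_le_one]
    have e1 : ContinuousOn (fun s : ℝ => fderiv ℝ f (x - s • (ε • y))) (Icc 0 1) :=
      hF2.comp (by fun_prop) hin
    exact e1.clm_apply continuousOn_const
  have h2 := intervalIntegral.integral_eq_sub_of_hasDerivAt hder hcont.intervalIntegrable
  simp only [one_smul, zero_smul, sub_zero] at h2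
  rw [← h2, intervalIntegral.integral_of_le zero_le_one]
  refine (enorm_integral_le_lintegral_enorm _).trans ?_
  rw [← lintegral_const_mul' _ _ ENNReal.ofReal_ne_top]
  refine setLIntegral_mono' measurableSet_Ioc fun s hs => ?_
  have hs' : s ∈ Icc (0 : ℝ) 1 := Ioc_subset_Icc_self hs
  rw [ex_of_mem _ (hin s hs'), ← ofReal_norm, ← ofReal_norm, ← ENNReal.ofReal_mul h0.le]
  apply ENNReal.ofReal_le_ofReal
  calc ‖fderiv ℝ f (x - s • ε • y) (-(ε • y))‖ ≤ ‖fderiv ℝ f (x - s • ε • y)‖ * ‖-(ε • y)‖ :=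
        (fderiv ℝ f (x - s • ε • y)).le_opNorm _
    _ ≤ ‖fderiv ℝ f (x - s • ε • y)‖ * ε := by
        refine mul_le_mul_of_nonneg_left ?_ (norm_nonneg _)
        rw [norm_neg, norm_smul, Real.norm_of_nonneg h0.le]
        nlinarith
    _ = _ := mul_comm _ _

end HdMoll2

theorem sq_mo_sub_le {ρ : V → ℝ} (hρ : IsM ρ) : ∃ Kc : ℝ, 0 < Kc ∧ ∀ f : V → ℝ,
    ContDiffOn ℝ ∞ f (ball 0 3) → ∀ ε : ℝ, 0 < ε → ε < 1 →
      sq 1 (fun x => mo ρ ε f x - f x) ≤ Kc * ε ^ 2 * sq 2 (fderiv ℝ f) := by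
  refine ⟨1, one_pos, fun f hf ε h0 h1 => ?_⟩
  have hρm : Measurable fun y => ENNReal.ofReal (ρ y) :=
    ENNReal.measurable_ofReal.comp hρ.s.continuous.measurable
  have hF : ContinuousOn f (ball 0 3) := hf.continuousOn
  have hF2 : ContinuousOn (fderiv ℝ f) (ball 0 3) :=
    (hf.fderiv_of_isOpen (m := 0) isOpen_ball (by simp)).continuousOn
  obtain ⟨ψ, hψ⟩ : ∃ ψ : V → V → ℝ≥0∞, ψ = fun x y =>
    ∫⁻ s in Ioc (0 : ℝ) 1, ex (fderiv ℝ f) (x - s • (ε • y)) := ⟨_, rfl⟩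
  have hex := ex_meas hF2
  have hmeas3 : Measurable fun p : (V × V) × ℝ =>
      ex (fderiv ℝ f) (p.1.1 - p.2 • (ε • p.1.2)) := hex.comp (by fun_prop)
  have hψm : Measurable fun p : V × V => ψ p.1 p.2 := by
    rw [hψ]
    exact hmeas3.lintegral_prod_right'
  have hmeas4 : Measurable fun p : V × V => ∫⁻ s in Ioc (0 : ℝ) 1,
      ex (fderiv ℝ f) (p.1 - s • (ε • p.2)) ^ 2 := (hmeas3.pow_const 2).lintegral_prod_right'
  -- pointwise bound
  have hpt : ∀ x ∈ ball (0 : V) 1, ‖mo ρ ε f x - f x‖ₑ ^ 2 ≤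
      ∫⁻ y, ENNReal.ofReal (ρ y) * (ENNReal.ofReal (ε ^ 2) * ∫⁻ s in Ioc (0 : ℝ) 1,
        ex (fderiv ℝ f) (x - s • (ε • y)) ^ 2) := by
    intro x hx
    have hx2 : x ∈ ball (0 : V) 2 := ball_subset_ball (by norm_num) hx
    have hi := integrable hρ h0 h1 hF hx2
    have e1 : mo ρ ε f x - f x = ∫ y, ρ y • (f (x - ε • y) - f x) := by
      have e2 : ∫ y, ρ y • f x = f x := by
        rw [integral_smul_const, hρ.int, one_smul]
      have e3 : mo ρ ε f x = ∫ y, ρ y • f (x - ε • y) := rfl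
      rw [e3]
      conv_lhs => rw [← e2]
      rw [← integral_sub hi ((rho_integrable hρ).smul_const _)]
      simp only [smul_sub]
    have e4 : ‖mo ρ ε f x - f x‖ₑ ≤ ∫⁻ y, ENNReal.ofReal (ρ y) * (ENNReal.ofReal ε * ψ x y) := by
      rw [e1]
      refine (enorm_integral_le_lintegral_enorm _).trans (lintegral_mono fun y => ?_)
      rw [enorm_smul, Real.enorm_eq_ofReal (hρ.nn y)]
      by_cases hy : ‖y‖ ≤ 1
      · rw [hψ]
        exact mul_le_mul' le_rfl (mean_value hf h0 h1 hx2 hy)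
      · push Not at hy
        rw [hρ.supp y hy.le]
        simp
    refine (pow_le_pow_left' e4 2).trans ?_
    have hψx : Measurable fun y => ENNReal.ofReal ε * ψ x y :=
      (hψm.comp (measurable_const.prodMk measurable_id)).const_mul _
    refine (jensen hρ hψx).trans (lintegral_mono fun y => mul_le_mul' le_rfl ?_)
    rw [mul_pow, ← ENNReal.ofReal_pow h0.le]
    refine mul_le_mul' le_rfl ?_
    rw [hψ]
    apply cs_unit
    exact (hex.comp (by fun_prop)).aemeasurable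
  rw [one_mul, ← ENNReal.ofReal_le_ofReal_iff (mul_nonneg (sq_nonneg _) (sq_nonneg' _ _)),
    ENNReal.ofReal_mul (sq_nonneg _), lsq (by norm_num) hF2]
  calc ENNReal.ofReal (sq 1 fun x => mo ρ ε f x - f x)
      ≤ ∫⁻ z in ball (0 : V) 1, ‖mo ρ ε f z - f z‖ₑ ^ 2 := lsq_le _ _
    _ ≤ ∫⁻ z in ball (0 : V) 1, ∫⁻ y, ENNReal.ofReal (ρ y) * (ENNReal.ofReal (ε ^ 2) *
          ∫⁻ s in Ioc (0 : ℝ) 1, ex (fderiv ℝ f) (z - s • (ε • y)) ^ 2) :=
        setLIntegral_mono' measurableSet_ball hpt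
    _ = ∫⁻ y, ∫⁻ z in ball (0 : V) 1, ENNReal.ofReal (ρ y) * (ENNReal.ofReal (ε ^ 2) *
          ∫⁻ s in Ioc (0 : ℝ) 1, ex (fderiv ℝ f) (z - s • (ε • y)) ^ 2) :=
        lintegral_lintegral_swap ((hρm.comp measurable_snd).mul
          (hmeas4.const_mul _)).aemeasurable
    _ ≤ ∫⁻ y, ENNReal.ofReal (ρ y) * (ENNReal.ofReal (ε ^ 2) *
          ∫⁻ z in ball (0 : V) 2, ‖fderiv ℝ f z‖ₑ ^ 2) := by
        refine lintegral_mono fun y => ?_
        rw [lintegral_const_mul' _ _ ENNReal.ofReal_ne_top,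
          lintegral_const_mul' _ _ ENNReal.ofReal_ne_top]
        by_cases hy : ‖y‖ ≤ 1
        · refine mul_le_mul' le_rfl (mul_le_mul' le_rfl ?_)
          rw [lintegral_lintegral_swap (f := fun z s => ex (fderiv ℝ f) (z - s • (ε • y)) ^ 2)
            ((hex.comp (by fun_prop)).pow_const 2).aemeasurable]
          have e5 : ∀ s ∈ Ioc (0 : ℝ) 1, ∫⁻ z in ball (0 : V) 1,
              ex (fderiv ℝ f) (z - s • (ε • y)) ^ 2 ≤
              ∫⁻ z in ball (0 : V) 2, ‖fderiv ℝ f z‖ₑ ^ 2 := by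
            intro s hs
            refine (shift (fun z => ex (fderiv ℝ f) z ^ 2) (ε := 1) ?_).trans ?_
            · rw [norm_smul, norm_smul, Real.norm_of_nonneg hs.1.le, Real.norm_of_nonneg h0.le]
              have := mul_le_mul h1.le hy (norm_nonneg _) zero_le_one
              calc s * (ε * ‖y‖) ≤ 1 * (1 * 1) := mul_le_mul hs.2 this (by positivity) zero_le_one
                _ = 1 := by norm_num
            · rw [show (1 : ℝ) + 1 = 2 by norm_num]
              refine le_of_eq (setLIntegral_congr_fun measurableSet_ball fun z hz => ?_)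
              rw [ex_of_mem _ (ball_subset_ball (by norm_num) hz)]
          refine (setLIntegral_mono' measurableSet_Ioc e5).trans (le_of_eq ?_)
          simp
        · push Not at hy
          rw [hρ.supp y hy.le]
          simp
    _ = ENNReal.ofReal (ε ^ 2) * ∫⁻ z in ball (0 : V) 2, ‖fderiv ℝ f z‖ₑ ^ 2 := by
        rw [lintegral_mul_const _ hρm, ← ofReal_integral_eq_lintegral_ofReal (rho_integrable hρ)
          (Filter.Eventually.of_forall hρ.nn), hρ.int, ENNReal.ofReal_one, one_mul]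

end Pool.Agent.K708.Hd
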