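import Pool.Agent.Lib.K708.HdBr3

/-! # K708: the Hodge decomposition (section A) -/

set_option autoImplicit false

open scoped Manifold ContDiff Topology
open Set

noncomputable section

namespace Pool.Agent.K708

/-- Section A (Hodge decomposition of closed 1-forms). -/
theorem hodge (X : CMfd 2) (hX : CptConn X) (Ω : F2 2 X) (hΩ : Kah Ω) (e : F1 2 X) (he : C1 e) :
    ∃ (a b : F1 2 X) (f : X → ℂ), H1 a ∧ H1 b ∧ S0 2 f ∧ e = a + cj b + d0 2 f :=
  hodge' X hX Ω hΩ e he

end Pool.Agent.K708
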