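import Pool.Agent.Lib.K708.Base

/-! # K708, section K: Hermitian algebra of the Fubini-Study form -/

set_option autoImplicit false

open scoped Manifold ContDiff Topology
open Set

noncomputable section

namespace Pool.Agent.K708

/-- The standard Hermitian product. -/
def herm {m : ℕ} (a b : E m) : ℂ := ∑ i, a i * (starRingEnd ℂ) (b i)

/-- The Hermitian form `(⟨Au, Av⟩ |f|² - ⟨Au, f⟩ ⟨f, Av⟩) / |f|⁴`. -/
def fsh {n m : ℕ} (f : E m) (A : E n → E m) (u v : E n) : ℂ :=
  herm (A u) (A v) / herm f f - herm (A u) f * herm f (A v) / (herm f f) ^ 2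

/-- Minus the imaginary part of `fsh`. -/
def fsv {n m : ℕ} (f : E m) (A : E n → E m) (u v : E n) : ℂ :=
  (-Complex.I / 2) * (fsh f A v u - fsh f A u v)

namespace KAlg

variable {m : ℕ}

theorem herm_add_left (a a' b : E m) : herm (a + a') b = herm a b + herm a' b := by
  simp [herm, add_mul, Finset.sum_add_distrib]

theorem herm_add_right (a b b' : E m) : herm a (b + b') = herm a b + herm a b' := by
  simp [herm, mul_add, Finset.sum_add_distrib]

theorem herm_sub_left (a a' b : E m) : herm (a - a') b = herm a b - herm a' b := by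
  simp [herm, sub_mul, Finset.sum_sub_distrib]

theorem herm_sub_right (a b b' : E m) : herm a (b - b') = herm a b - herm a b' := by
  simp [herm, mul_sub, Finset.sum_sub_distrib]

theorem herm_smul_left (c : ℂ) (a b : E m) : herm (c • a) b = c * herm a b := by
  simp [herm, Finset.mul_sum, mul_assoc]

theorem herm_smul_right (c : ℂ) (a b : E m) : herm a (c • b) = (starRingEnd ℂ) c * herm a b := by
  simp [herm, Finset.mul_sum, mul_left_comm]

theorem herm_conj (a b : E m) : (starRingEnd ℂ) (herm a b) = herm b a := by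
  simp [herm, map_sum, mul_comm]

theorem herm_self (a : E m) : herm a a = ((∑ i, Complex.normSq (a i) : ℝ) : ℂ) := by
  simp [herm, Complex.mul_conj]

theorem herm_self_nonneg (a : E m) : 0 ≤ (herm a a).re := by
  rw [herm_self, Complex.ofReal_re]
  exact Finset.sum_nonneg fun i _ => Complex.normSq_nonneg _

theorem herm_self_eq_zero {a : E m} (h : (herm a a).re = 0) : a = 0 := by
  rw [herm_self, Complex.ofReal_re,
    Finset.sum_eq_zero_iff_of_nonneg fun i _ => Complex.normSq_nonneg _] at h
  funext i
  exact Complex.normSq_eq_zero.1 (h i (Finset.mem_univ i))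

end KAlg

open KAlg

theorem herm_self_ne_zero {m : ℕ} {f : E m} (hf : f ≠ 0) :
    0 < (herm f f).re ∧ (herm f f).im = 0 := by
  refine ⟨lt_of_le_of_ne (herm_self_nonneg f) fun h => hf (herm_self_eq_zero h.symm), ?_⟩
  rw [herm_self, Complex.ofReal_im]

namespace KAlg

theorem fsh_conj {n m : ℕ} (f : E m) (A : E n → E m) (u v : E n) :
    (starRingEnd ℂ) (fsh f A u v) = fsh f A v u := by
  simp only [fsh, map_sub, map_div₀, map_mul, map_pow, herm_conj]
  ring

theorem fsv_eq {n m : ℕ} (f : E m) (A : E n → E m) (u v : E n) :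
    fsv f A u v = -((fsh f A u v).im : ℂ) := by
  have h : fsh f A v u - fsh f A u v = -(2 * ((fsh f A u v).im : ℂ) * Complex.I) := by
    rw [← fsh_conj]
    apply Complex.ext <;> simp
    ring
  rw [fsv, h]
  have := Complex.I_mul_I
  linear_combination ((fsh f A u v).im : ℂ) * this

theorem fsh_I {n m : ℕ} (f : E m) (A : E n → E m)
    (hA : ∀ u, A (Complex.I • u) = Complex.I • A u) (u v : E n) :
    fsh f A (Complex.I • u) (Complex.I • v) = fsh f A u v := by
  simp only [fsh, hA, herm_smul_left, herm_smul_right, Complex.conj_I]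
  have := Complex.I_mul_I
  linear_combination (- herm (A u) (A v) / herm f f + herm (A u) f * herm f (A v) /
    (herm f f) ^ 2) * this

theorem fsh_I' {n m : ℕ} (f : E m) (A : E n → E m)
    (hA : ∀ u, A (Complex.I • u) = Complex.I • A u) (u : E n) :
    fsh f A u (Complex.I • u) = -Complex.I * fsh f A u u := by
  simp only [fsh, hA, herm_smul_right, Complex.conj_I]
  ring

/-- The projection orthogonal to `f`. -/
theorem fsh_self {n m : ℕ} {f : E m} (hf : f ≠ 0) (A : E n → E m) (u : E n) :
    fsh f A u u = herm (A u - (herm (A u) f / herm f f) • f)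
      (A u - (herm (A u) f / herm f f) • f) / herm f f := by
  have h0 : herm f f ≠ 0 := by
    intro h
    have := (herm_self_ne_zero hf).1
    rw [h] at this
    simp at this
  have hc : (starRingEnd ℂ) (herm f f) = herm f f := herm_conj f f
  simp only [fsh, herm_sub_left, herm_sub_right, herm_smul_left, herm_smul_right, map_div₀,
    herm_conj, hc]
  field_simp
  ring

end KAlg

theorem fsv_im {n m : ℕ} (f : E m) (A : E n → E m) (u v : E n) : (fsv f A u v).im = 0 := by
  rw [fsv_eq]
  simp

theorem fsv_smul_I {n m : ℕ} (f : E m) (A : E n → E m)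
    (hA : ∀ u, A (Complex.I • u) = Complex.I • A u) (u v : E n) :
    fsv f A (Complex.I • u) (Complex.I • v) = fsv f A u v := by
  simp only [fsv_eq, fsh_I f A hA]

namespace KAlg

theorem fsv_self {n m : ℕ} {f : E m} (hf : f ≠ 0) (A : E n → E m)
    (hA : ∀ u, A (Complex.I • u) = Complex.I • A u) (u : E n) :
    (fsv f A u (Complex.I • u)).re = (herm (A u - (herm (A u) f / herm f f) • f)
      (A u - (herm (A u) f / herm f f) • f)).re / (herm f f).re := by
  have h1 : herm f f = (((herm f f).re : ℝ) : ℂ) := by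
    apply Complex.ext
    · simp
    · simpa using (herm_self_ne_zero hf).2
  rw [fsv_eq, fsh_I' f A hA, fsh_self hf]
  set w := herm (A u - (herm (A u) f / herm f f) • f) (A u - (herm (A u) f / herm f f) • f)
  rw [h1]
  simp only [neg_mul, Complex.neg_im, Complex.mul_im, Complex.I_re, Complex.I_im,
    Complex.ofReal_neg, neg_neg, Complex.ofReal_re, zero_mul, one_mul, zero_add,
    Complex.div_ofReal_re]

end KAlg

theorem fsv_nonneg {n m : ℕ} {f : E m} (hf : f ≠ 0) (A : E n → E m)
    (hA : ∀ u, A (Complex.I • u) = Complex.I • A u) (u : E n) :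
    0 ≤ (fsv f A u (Complex.I • u)).re := by
  rw [fsv_self hf A hA]
  exact div_nonneg (herm_self_nonneg _) (herm_self_nonneg _)

theorem fsv_eq_zero {n m : ℕ} {f : E m} (hf : f ≠ 0) (A : E n → E m)
    (hA : ∀ u, A (Complex.I • u) = Complex.I • A u) (u : E n)
    (h : (fsv f A u (Complex.I • u)).re = 0) : ∃ c : ℂ, A u = c • f := by
  rw [fsv_self hf A hA, div_eq_zero_iff] at h
  have h1 := h.resolve_right (herm_self_ne_zero hf).1.ne'
  exact ⟨_, sub_eq_zero.1 (herm_self_eq_zero h1)⟩

theorem fsv_change {n m : ℕ} {f : E m} (hf : f ≠ 0) {A A' : E n → E m} {c : ℂ} (hc : c ≠ 0)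
    (l : E n → ℂ) (h : ∀ u, A' u = c • A u + l u • f) (u v : E n) :
    fsv (c • f) A' u v = fsv f A u v := by
  have h0 : herm f f ≠ 0 := by
    intro h
    have := (herm_self_ne_zero hf).1
    rw [h] at this
    simp at this
  have hc' : (starRingEnd ℂ) c ≠ 0 := by
    intro h
    exact hc ((map_eq_zero _).1 h)
  have key : ∀ u v, fsh (c • f) A' u v = fsh f A u v := by
    intro u v
    simp only [fsh, h, herm_add_left, herm_add_right, herm_smul_left, herm_smul_right]
    field_simp
    ring
  simp only [fsv, key]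

end Pool.Agent.K708
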