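import Pool.Agent.Lib.K708.KAlg

/-! # K708, section K: the Fubini-Study form of a holomorphic map of vector spaces -/

set_option autoImplicit false

open scoped Manifold ContDiff Topology
open Set

noncomputable section

namespace Pool.Agent.K708

/-- `v ↦ ⟨v, f⟩`. -/
def hermL {m : ℕ} (f : E m) : E m →L[ℝ] ℂ :=
  ∑ i, (starRingEnd ℂ) (f i) • (ContinuousLinearMap.proj (R := ℝ) (φ := fun _ : Fin m => ℂ) i)

theorem hermL_apply {m : ℕ} (f v : E m) : hermL f v = herm v f := by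
  simp only [hermL, herm, sum_apply, smul_apply,
    ContinuousLinearMap.proj_apply, smul_eq_mul]
  exact Finset.sum_congr rfl fun i _ => mul_comm _ _

/-- The primitive `-i/2 ⟨dG, G⟩ / |G|²`. -/
def fsa {n m : ℕ} (G : E n → E m) (z : E n) : E n →L[ℝ] ℂ :=
  (-Complex.I / 2 / herm (G z) (G z)) • (hermL (G z)).comp (fderiv ℝ G z)

namespace KFs

/-- `hermL` as a real linear map of `f`. -/
theorem contDiff_hermL {m : ℕ} : ContDiff ℝ ∞ (fun f : E m => hermL f) := by
  unfold hermL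
  refine ContDiff.sum fun i _ => ?_
  have h1 : ContDiff ℝ ∞ (fun f : E m => (starRingEnd ℂ) (f i)) :=
    (Complex.conjCLE : ℂ →L[ℝ] ℂ).contDiff.comp (contDiff_apply ℝ ℂ i)
  exact h1.smul contDiff_const

theorem contDiffAt_herm {n m : ℕ} {p q : E n → E m} {z : E n} (hp : ContDiffAt ℝ ∞ p z)
    (hq : ContDiffAt ℝ ∞ q z) : ContDiffAt ℝ ∞ (fun w => herm (p w) (q w)) z := by
  unfold herm
  refine ContDiffAt.sum fun i _ => ?_
  refine ContDiffAt.mul ?_ ?_
  · exact contDiffAt_pi.1 hp i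
  · exact (Complex.conjCLE : ℂ →L[ℝ] ℂ).contDiff.contDiffAt.comp z (contDiffAt_pi.1 hq i)

theorem herm_ne {m : ℕ} {f : E m} (hf : f ≠ 0) : herm f f ≠ 0 := by
  intro h
  have := (herm_self_ne_zero hf).1
  rw [h] at this
  simp at this

section gen

variable {V : Type*} [NormedAddCommGroup V] [NormedSpace ℝ V]

theorem flip_cd : ContDiff ℝ ∞ (fun T : V →L[ℝ] V →L[ℝ] ℂ => T.flip) := by
  have := LinearIsometryEquiv.contDiff (𝕜 := ℝ) (E := V →L[ℝ] V →L[ℝ] ℂ)
    (F := V →L[ℝ] V →L[ℝ] ℂ) (n := ∞) (ContinuousLinearMap.flipₗᵢ ℝ V V ℂ)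
  exact this

theorem dgen_smooth {a : V → (V →L[ℝ] ℂ)} {z : V} (ha : ContDiffAt ℝ ∞ a z) :
    ContDiffAt ℝ ∞ (fun w => fderiv ℝ a w - (fderiv ℝ a w).flip) z := by
  have h1 : ContDiffAt ℝ ∞ (fderiv ℝ a) z := ha.fderiv_right (by simp)
  have h2 : ContDiffAt ℝ ∞ (fun w => (fderiv ℝ a w).flip) z :=
    ContDiffAt.comp (g := fun T : V →L[ℝ] V →L[ℝ] ℂ => T.flip) z
      (flip_cd (V := V)).contDiffAt h1
  exact h1.sub h2

theorem sym_gen {W : Type*} [NormedAddCommGroup W] [NormedSpace ℝ W] {a : V → W} {z : V}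
    (ha : ContDiffAt ℝ ∞ a z) (u v : V) :
    fderiv ℝ (fderiv ℝ a) z u v = fderiv ℝ (fderiv ℝ a) z v u := by
  have hsym : IsSymmSndFDerivAt ℝ a z := ha.isSymmSndFDerivAt
    (by simp only [minSmoothness_of_isRCLikeNormedField]
        exact WithTop.coe_le_coe.2 (le_top : (2 : ℕ∞) ≤ ⊤))
  exact hsym u v

/-- Derivative of a curve of covectors applied to a vector. -/
theorem line_gen {W : Type*} [NormedAddCommGroup W] [NormedSpace ℝ W] {a : V → W} {z : V}
    (ha : DifferentiableAt ℝ a z) (u : V) :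
    HasDerivAt (fun t : ℝ => a (z + t • u)) (fderiv ℝ a z u) 0 := by
  have hl : HasDerivAt (fun t : ℝ => z + t • u) u 0 := by
    simpa using ((hasDerivAt_id (0 : ℝ)).smul_const u).const_add z
  have e0 : z + (0 : ℝ) • u = z := by simp
  have h1 : HasFDerivAt a (fderiv ℝ a z) (z + (0 : ℝ) • u) := by
    rw [e0]; exact ha.hasFDerivAt
  exact h1.comp_hasDerivAt (0 : ℝ) hl

theorem line_gen' {W : Type*} [NormedAddCommGroup W] [NormedSpace ℝ W] {a : V → (V →L[ℝ] W)}
    {z : V} (ha : DifferentiableAt ℝ a z) (u v : V) :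
    HasDerivAt (fun t : ℝ => a (z + t • u) v) (fderiv ℝ a z u v) 0 := by
  have := (line_gen ha u).clm_apply (hasDerivAt_const (0 : ℝ) v)
  rwa [map_zero, add_zero] at this

theorem line_gen'' {A B : Type*} [NormedAddCommGroup A] [NormedSpace ℝ A]
    [NormedAddCommGroup B] [NormedSpace ℝ B] {a : V → (A →L[ℝ] B →L[ℝ] ℂ)}
    {z : V} (ha : DifferentiableAt ℝ a z) (u : V) (p : A) (q : B) :
    HasDerivAt (fun t : ℝ => a (z + t • u) p q) (fderiv ℝ a z u p q) 0 := by
  have h1 := line_gen (W := A →L[ℝ] B →L[ℝ] ℂ) ha u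
  have h2 : HasDerivAt (fun t : ℝ => a (z + t • u) p) (fderiv ℝ a z u p) 0 := by
    have := h1.clm_apply (hasDerivAt_const (0 : ℝ) p)
    rwa [map_zero, add_zero] at this
  have := h2.clm_apply (hasDerivAt_const (0 : ℝ) q)
  rwa [map_zero, add_zero] at this

theorem dgen_cyc {a : V → (V →L[ℝ] ℂ)} {z : V} (ha : ContDiffAt ℝ ∞ a z) (u v w : V) :
    fderiv ℝ (fun w => fderiv ℝ a w - (fderiv ℝ a w).flip) z u v w +
      fderiv ℝ (fun w => fderiv ℝ a w - (fderiv ℝ a w).flip) z v w u +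
      fderiv ℝ (fun w => fderiv ℝ a w - (fderiv ℝ a w).flip) z w u v = 0 := by
  have h1 : ContDiffAt ℝ ∞ (fderiv ℝ a) z := ha.fderiv_right (by simp)
  have hd : DifferentiableAt ℝ (fderiv ℝ a) z := h1.differentiableAt (by simp)
  have hdd : DifferentiableAt ℝ (fun w => fderiv ℝ a w - (fderiv ℝ a w).flip) z :=
    (dgen_smooth ha).differentiableAt (by simp)
  have key : ∀ x y t : V, fderiv ℝ (fun w => fderiv ℝ a w - (fderiv ℝ a w).flip) z x y t =
      fderiv ℝ (fderiv ℝ a) z x y t - fderiv ℝ (fderiv ℝ a) z x t y := by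
    intro x y t
    have k1 : HasDerivAt (fun s : ℝ => (fderiv ℝ a (z + s • x) - (fderiv ℝ a (z + s • x)).flip) y t)
        (fderiv ℝ (fun w => fderiv ℝ a w - (fderiv ℝ a w).flip) z x y t) 0 :=
      line_gen'' (a := fun w => fderiv ℝ a w - (fderiv ℝ a w).flip) hdd x y t
    have k2 : ∀ p q : V, HasDerivAt (fun s : ℝ => fderiv ℝ a (z + s • x) p q)
        (fderiv ℝ (fderiv ℝ a) z x p q) 0 := fun p q => line_gen'' hd x p q
    exact k1.unique ((k2 y t).sub (k2 t y))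
  have hs : ∀ x y t : V, fderiv ℝ (fderiv ℝ a) z x y t = fderiv ℝ (fderiv ℝ a) z y x t :=
    fun x y t => congrArg (fun L : V →L[ℝ] ℂ => L t) (sym_gen ha x y)
  rw [key, key, key, hs v w u, hs u v w, hs w u v]
  ring

end gen

theorem hasDerivAt_herm {m : ℕ} {p q : ℝ → E m} {p' q' : E m} {t : ℝ} (hp : HasDerivAt p p' t)
    (hq : HasDerivAt q q' t) :
    HasDerivAt (fun t => herm (p t) (q t)) (herm p' (q t) + herm (p t) q') t := by
  unfold herm
  rw [← Finset.sum_add_distrib]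
  refine HasDerivAt.fun_sum fun i _ => ?_
  have h1 := hasDerivAt_pi.1 hp i
  have h2 := hasDerivAt_pi.1 hq i
  have h3 : HasDerivAt (fun t => (starRingEnd ℂ) (q t i)) ((starRingEnd ℂ) (q' i)) t :=
    ((Complex.conjCLE : ℂ →L[ℝ] ℂ).hasFDerivAt).comp_hasDerivAt t h2
  exact h1.mul h3

end KFs

open KFs

theorem fsa_smooth {n m : ℕ} {G : E n → E m} {z : E n} (hG : ContDiffAt ℝ ∞ G z)
    (h : G z ≠ 0) : ContDiffAt ℝ ∞ (fsa G) z := by
  have h1 : ContDiffAt ℝ ∞ (fun w => herm (G w) (G w)) z := contDiffAt_herm hG hG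
  have h2 : ContDiffAt ℝ ∞ (fun w => hermL (G w)) z :=
    contDiff_hermL.contDiffAt.comp z hG
  have h3 : ContDiffAt ℝ ∞ (fderiv ℝ G) z := hG.fderiv_right (by simp)
  have h4 : ContDiffAt ℝ ∞ (fun w => -Complex.I / 2 / herm (G w) (G w)) z := by
    have := (contDiffAt_const (c := -Complex.I / 2)).mul (h1.inv (herm_ne h))
    exact this
  exact h4.smul (h2.clm_comp h3)

/-- `dE1` preserves smoothness. -/
theorem dE1_smooth {n : ℕ} {a : E n → (E n →L[ℝ] ℂ)} {z : E n} (ha : ContDiffAt ℝ ∞ a z) :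
    ContDiffAt ℝ ∞ (dE1 a) z := dgen_smooth ha

theorem dE1_fsa {n m : ℕ} {G : E n → E m} {z : E n} (hG : ContDiffAt ℝ ∞ G z)
    (h : G z ≠ 0) (u v : E n) : dE1 (fsa G) z u v = fsv (G z) (fderiv ℝ G z) u v := by
  have h1 : DifferentiableAt ℝ G z := hG.differentiableAt (by simp)
  have h2 : DifferentiableAt ℝ (fderiv ℝ G) z :=
    (hG.fderiv_right (m := ∞) (by simp)).differentiableAt (by simp)
  have h3 : DifferentiableAt ℝ (fsa G) z := (fsa_smooth hG h).differentiableAt (by simp)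
  have key : ∀ x y : E n, fderiv ℝ (fsa G) z x y =
      (-Complex.I / 2) * (-(herm (fderiv ℝ G z x) (G z) + herm (G z) (fderiv ℝ G z x)) /
        (herm (G z) (G z)) ^ 2) * herm (fderiv ℝ G z y) (G z) +
      (-Complex.I / 2 / herm (G z) (G z)) *
        (herm (fderiv ℝ (fderiv ℝ G) z x y) (G z) +
          herm (fderiv ℝ G z y) (fderiv ℝ G z x)) := by
    intro x y
    have e0 : z + (0 : ℝ) • x = z := by simp
    have g1 : HasDerivAt (fun t : ℝ => G (z + t • x)) (fderiv ℝ G z x) 0 := line_gen h1 x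
    have g2 : HasDerivAt (fun t : ℝ => fderiv ℝ G (z + t • x) y)
        (fderiv ℝ (fderiv ℝ G) z x y) 0 := line_gen' h2 x y
    have g3 : HasDerivAt (fun t : ℝ => fsa G (z + t • x) y) (fderiv ℝ (fsa G) z x y) 0 :=
      line_gen' h3 x y
    have hne : herm (G (z + (0 : ℝ) • x)) (G (z + (0 : ℝ) • x)) ≠ 0 := by
      rw [e0]; exact herm_ne h
    have g4 := (hasDerivAt_herm g1 g1).fun_inv hne
    have g5 := hasDerivAt_herm g2 g1
    have g6 := ((g4.const_mul (-Complex.I / 2)).fun_mul g5)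
    have ef : (fun t : ℝ => fsa G (z + t • x) y) = fun t : ℝ =>
        -Complex.I / 2 * (herm (G (z + t • x)) (G (z + t • x)))⁻¹ *
          herm (fderiv ℝ G (z + t • x) y) (G (z + t • x)) := by
      funext t
      show (-Complex.I / 2 / herm (G (z + t • x)) (G (z + t • x))) *
        hermL (G (z + t • x)) (fderiv ℝ G (z + t • x) y) = _
      rw [hermL_apply, div_eq_mul_inv]
    rw [ef] at g3
    rw [g3.unique g6]
    simp only [e0]
    ring
  have hs : fderiv ℝ (fderiv ℝ G) z u v = fderiv ℝ (fderiv ℝ G) z v u := sym_gen hG u v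
  have hl : dE1 (fsa G) z u v = fderiv ℝ (fsa G) z u v - fderiv ℝ (fsa G) z v u := rfl
  rw [hl, key, key, hs]
  simp only [fsv, fsh]
  have hne := herm_ne h
  field_simp
  ring

/-- `d d = 0`. -/
theorem dE1_cyc {n : ℕ} {a : E n → (E n →L[ℝ] ℂ)} {z : E n} (ha : ContDiffAt ℝ ∞ a z)
    (u v w : E n) : fderiv ℝ (dE1 a) z u v w + fderiv ℝ (dE1 a) z v w u +
      fderiv ℝ (dE1 a) z w u v = 0 := dgen_cyc ha u v w

end Pool.Agent.K708
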