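import Pool.Agent.Lib.K708.FcP

/-! # K708: restriction of a relative Kähler form to a fibre -/

set_option autoImplicit false

open scoped Manifold ContDiff Topology
open Set

noncomputable section

namespace Pool.Agent.K708

theorem DC_comp_zero {T : CMfd 3} {B : CMfd 1} {π : T → B} (hπ : Holo 3 1 π) {t : B}
    {Y : CMfd 2} {ι : Y → T} (hι : IsFib π t ι) (x : Y) (u : E 2) :
    DC 3 1 π (ι x) (DC 2 3 ι x u) = 0 := by
  have h1 : MDifferentiableAt 𝓘(ℂ, E 3) 𝓘(ℂ, E 1) π (ι x) :=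
    (hπ (ι x)).mdifferentiableAt (by simp)
  have h2 : MDifferentiableAt 𝓘(ℂ, E 2) 𝓘(ℂ, E 3) ι x :=
    (hι.emb.holo x).mdifferentiableAt (by simp)
  have h3 := mfderiv_comp x h1 h2
  have h4 : (π ∘ ι) = fun _ => t := by
    funext y
    have : ι y ∈ π ⁻¹' {t} := hι.range ▸ mem_range_self y
    exact this
  rw [h4, mfderiv_const] at h3
  have h5 := congrArg (fun L => L u) h3
  exact h5.symm

/-- Restriction of a relative Kähler form to a fibre. -/
theorem RelKah.kah {T : CMfd 3} {B : CMfd 1} {π : T → B} {Ω : F2 3 T} (hΩ : RelKah π Ω)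
    (hπ : Holo 3 1 π) {t : B} {Y : CMfd 2} {ι : Y → T} (hι : IsFib π t ι) :
    Kah (pb2 2 ι Ω) := by
  have hs : Smth 2 3 ι := hι.emb.holo.smth
  have hI : ∀ x u, D 2 3 ι x (Complex.I • u) = Complex.I • D 2 3 ι x u := fun x u =>
    D_smul_I (hι.emb.holo x) u
  refine ⟨hΩ.s2.pb hs, hΩ.cl.pb hs hΩ.s2, fun x u v => ?_, fun x u v => ?_, fun x u hu => ?_⟩
  · simpa [pb2] using hΩ.real (ι x) (D 2 3 ι x u) (D 2 3 ι x v)
  · simp only [pb2, ContinuousLinearMap.bilinearComp_apply, hI]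
    exact hΩ.inv _ _ _
  · simp only [pb2, ContinuousLinearMap.bilinearComp_apply, hI]
    have hne : D 2 3 ι x u ≠ 0 := by
      rw [D_eq_DC (hι.emb.holo x)]
      intro h
      exact hu (hι.emb.imm x (by rw [h, map_zero]))
    refine hΩ.pos _ _ hne ?_
    rw [D_eq_DC (hι.emb.holo x)]
    exact DC_comp_zero hπ hι x u

end Pool.Agent.K708
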