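import Mathlib

/-! # K708: complex manifolds and holomorphic maps

All complex manifolds are Mathlib manifolds modelled on `E n = Fin n → ℂ` with model
`𝓘(ℂ, E n)` and smoothness `ω` (analytic), Hausdorff and second countable. -/

set_option autoImplicit false

open scoped Manifold ContDiff Topology
open Set

noncomputable section

namespace Pool.Agent.K708

/-- Model space `ℂⁿ`. -/
abbrev E (n : ℕ) := Fin n → ℂ

/-- A complex manifold of dimension `n` (Hausdorff, second countable). -/
structure CMfd (n : ℕ) where
  /-- the underlying type -/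
  carrier : Type
  [top : TopologicalSpace carrier]
  [charted : ChartedSpace (E n) carrier]
  [mfd : IsManifold 𝓘(ℂ, E n) ω carrier]
  [t2 : T2Space carrier]
  [sc : SecondCountableTopology carrier]

instance (n : ℕ) : CoeSort (CMfd n) Type := ⟨CMfd.carrier⟩

attribute [instance] CMfd.top CMfd.charted CMfd.mfd CMfd.t2 CMfd.sc

section Maps

variable {n m : ℕ} {M N : Type*}
  [TopologicalSpace M] [ChartedSpace (E n) M]
  [TopologicalSpace N] [ChartedSpace (E m) N]

variable (n m) in
/-- Holomorphic maps. -/
def Holo (f : M → N) : Prop := ContMDiff 𝓘(ℂ, E n) 𝓘(ℂ, E m) ω f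

variable (n m) in
/-- Holomorphic at (i.e. near) a point. -/
def HoloAt (f : M → N) (x : M) : Prop := ContMDiffAt 𝓘(ℂ, E n) 𝓘(ℂ, E m) ω f x

variable (n m) in
/-- The complex derivative, as a map `E n → E m`. -/
def DC (f : M → N) (x : M) : E n →L[ℂ] E m := mfderiv 𝓘(ℂ, E n) 𝓘(ℂ, E m) f x

/-- `ι` is a closed holomorphic embedding. -/
structure CEmb (ι : M → N) : Prop where
  holo : Holo n m ι
  emb : Topology.IsClosedEmbedding ι
  imm : ∀ x, Function.Injective (DC n m ι x)

end Maps

end Pool.Agent.K708
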