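import Pool.Agent.Lib.K708.Base
import Pool.Agent.Lib.K708.Defs

/-! # K708: the topological data carried by every fibre -/

set_option autoImplicit false

open scoped Manifold ContDiff Topology
open Set

noncomputable section

namespace Pool.Agent.K708

/-- The data `PD X Ω c` (see the blueprint): closed forms `e 0, ..., e 3` (the differentials of
the maps `x, y, x + y, x + i y` to `ℂ/ℤ[i]`) and `γ 0, ..., γ 3` (differentials of the maps `w_j`),
with `e j ∧ γ j = 0`, `γ j` not a multiple of `e j` in cohomology, a smooth map `F` to `ℂ/ℤ[i]` with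
`F^* dz = e 0`, non vanishing four-fold integral and energy `c`. -/
def PD (X : CMfd 2) (Ω : F2 2 X) (c : ℝ) : Prop :=
  ∃ (e γ : Fin 4 → F1 2 X) (F : X → Tor),
    (∀ j, C1 (e j) ∧ C1 (γ j) ∧ wedge (e j) (γ j) = 0 ∧
      ∀ (l : ℂ) (f : X → ℂ), S0 2 f → γ j ≠ l • e j + d0 2 f) ∧
    TF F (e 0) ∧ e 2 = e 0 + e 1 ∧ e 3 = e 0 + Complex.I • e 1 ∧
    Int4 X Ω (wedge (e 0) (cj (e 0))) (wedge (e 1) (cj (e 1))) ≠ 0 ∧
    Int4 X Ω (Complex.I • wedge (e 0) (cj (e 0))) Ω = c

/-- Compact connected complex surfaces. -/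
structure CptConn (X : CMfd 2) : Prop where
  cpt : CompactSpace X
  conn : ConnectedSpace X

/-- `Y` (with `ι : Y → T`) is the fibre of `π` over `t`. -/
structure IsFib {T : CMfd 3} {B : CMfd 1} (π : T → B) (t : B) {Y : CMfd 2} (ι : Y → T) :
    Prop where
  emb : CEmb (n := 2) (m := 3) ι
  range : range ι = π ⁻¹' {t}

/-- A closed real (1,1)-form on the total space, positive on the fibres. -/
structure RelKah {T : CMfd 3} {B : CMfd 1} (π : T → B) (Ω : F2 3 T) : Prop where
  s2 : S2 Ω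
  cl : Cl2 Ω
  real : ∀ x u v, (Ω x u v).im = 0
  inv : ∀ x u v, Ω x (Complex.I • u) (Complex.I • v) = Ω x u v
  nonneg : ∀ x u, 0 ≤ (Ω x u (Complex.I • u)).re
  pos : ∀ x u, u ≠ 0 → DC 3 1 π x u = 0 → 0 < (Ω x u (Complex.I • u)).re

end Pool.Agent.K708
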