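import Mathlib

set_option autoImplicit false

open Set Filter
open scoped Topology

namespace Pool.Agent.K708.PFun

open PeriodPair

variable (L : PeriodPair)

/-- Uniqueness for `d'' = q d`. -/
theorem ode_unique {d q : ℂ → ℂ} {z₀ : ℂ} (hd : AnalyticAt ℂ d z₀) (hq : AnalyticAt ℂ q z₀)
    (h : ∀ᶠ z in 𝓝 z₀, deriv (deriv d) z = q z * d z) (h0 : d z₀ = 0) (h1 : deriv d z₀ = 0) :
    ∀ᶠ z in 𝓝 z₀, d z = 0 := by
  rw [← analyticOrderAt_eq_top]
  have e1 : analyticOrderAt (deriv d) z₀ + 1 = analyticOrderAt d z₀ := by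
    simpa [h0] using hd.analyticOrderAt_deriv_add_one
  have e2 : analyticOrderAt (deriv (deriv d)) z₀ + 1 = analyticOrderAt (deriv d) z₀ := by
    simpa [h1] using hd.deriv.analyticOrderAt_deriv_add_one
  have e3 : analyticOrderAt (deriv (deriv d)) z₀ = analyticOrderAt q z₀ + analyticOrderAt d z₀ := by
    rw [analyticOrderAt_congr (g := q * d) h, analyticOrderAt_mul hq hd]
  by_contra hne
  obtain ⟨n, hn⟩ := ENat.ne_top_iff_exists.mp hne
  rw [← hn] at e1 e3
  rw [← e2, e3] at e1
  have : (n : ℕ∞) + 2 ≤ n := by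
    calc (n : ℕ∞) + 2 ≤ analyticOrderAt q z₀ + n + 1 + 1 := by
          rw [add_assoc (analyticOrderAt q z₀ + n)]
          gcongr
          · exact le_add_self
          · norm_num
      _ = n := e1
  have h2 : n + 2 ≤ n := by exact_mod_cast this
  omega

theorem countable_lattice : (L.lattice : Set ℂ).Countable := by
  have : Countable L.lattice := L.latticeEquivProd.toEquiv.countable_iff.mpr inferInstance
  exact Set.countable_coe_iff.mp this

theorem conn_compl : IsPreconnected ((L.lattice : Set ℂ)ᶜ) :=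
  ((countable_lattice L).isPathConnected_compl_of_one_lt_rank
    (by simp)).isConnected.isPreconnected

theorem hasDerivAt_P {z : ℂ} (hz : z ∉ L.lattice) : HasDerivAt ℘[L] (℘'[L] z) z := by
  have := (L.analyticOnNhd_weierstrassP z hz).differentiableAt.hasDerivAt
  rwa [L.deriv_weierstrassP] at this

theorem tendsto_P {l : ℂ} (hl : l ∈ L.lattice) : Tendsto ℘[L] (𝓝[≠] l) (Bornology.cobounded ℂ) := by
  apply tendsto_cobounded_of_meromorphicOrderAt_neg
  rw [L.order_weierstrassP l hl]
  decide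


theorem nhds_notMem {z : ℂ} (hz : z ∉ L.lattice) : ∀ᶠ w in 𝓝 z, w ∉ L.lattice :=
  L.isClosed_lattice.isOpen_compl.mem_nhds hz

theorem nhdsNE_notMem (z : ℂ) : ∀ᶠ w in 𝓝[≠] z, w ∉ L.lattice := by
  filter_upwards [mem_nhdsWithin_of_mem_nhds (L.compl_lattice_sdiff_singleton_mem_nhds z),
    self_mem_nhdsWithin] with w hw hw'
  intro h
  exact hw ⟨h, hw'⟩

/-- The derivative is not identically zero off the lattice. -/
theorem exists_deriv_ne : ∃ z, z ∉ L.lattice ∧ ℘'[L] z ≠ 0 := by
  by_contra! hcon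
  have h1 : ∀ z ∈ ((L.lattice : Set ℂ)ᶜ), fderiv ℂ ℘[L] z = 0 := by
    intro z hz
    have h2 := (hasDerivAt_P L hz).hasFDerivAt.fderiv
    rw [h2, hcon z hz]
    ext
    simp
  obtain ⟨c, hc⟩ := L.isClosed_lattice.isOpen_compl.exists_eq_add_of_fderiv_eq (f := ℘[L])
    (g := fun _ => 0) (conn_compl L) L.differentiableOn_weierstrassP (by fun_prop)
    (fun z hz => by rw [h1 z hz]; simp)
  have h3 := tendsto_P L (zero_mem _)
  have h4 : Tendsto ℘[L] (𝓝[≠] 0) (𝓝 c) := by
    refine Tendsto.congr' (f₁ := fun _ => c) ?_ tendsto_const_nhds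
    filter_upwards [nhdsNE_notMem L 0] with z hz
    have := hc hz
    simpa using this.symm
  exact h3.not_tendsto (Metric.disjoint_nhds_cobounded c).symm h4


theorem analyticAt_P {z : ℂ} (hz : z ∉ L.lattice) : AnalyticAt ℂ ℘[L] z :=
  L.analyticOnNhd_weierstrassP z hz

theorem analyticAt_P' {z : ℂ} (hz : z ∉ L.lattice) : AnalyticAt ℂ ℘'[L] z :=
  L.analyticOnNhd_derivWeierstrassP z hz

/-- The second derivative of the Weierstrass function. -/
theorem deriv_P' {z : ℂ} (hz : z ∉ L.lattice) :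
    deriv ℘'[L] z = 6 * ℘[L] z ^ 2 - L.g₂ / 2 := by
  have hA : AnalyticOnNhd ℂ ℘'[L] ((L.lattice : Set ℂ)ᶜ) := fun z hz => analyticAt_P' L hz
  have hB : AnalyticOnNhd ℂ (fun z => deriv ℘'[L] z - (6 * ℘[L] z ^ 2 - L.g₂ / 2))
      ((L.lattice : Set ℂ)ᶜ) := fun z hz => by
    have h1 := (analyticAt_P' L hz).deriv
    have h2 := analyticAt_P L hz
    fun_prop
  have hprod : ∀ w ∈ ((L.lattice : Set ℂ)ᶜ),
      ℘'[L] w * (deriv ℘'[L] w - (6 * ℘[L] w ^ 2 - L.g₂ / 2)) = 0 := by
    intro w hw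
    have h1 : HasDerivAt ℘'[L] (deriv ℘'[L] w) w :=
      (analyticAt_P' L hw).differentiableAt.hasDerivAt
    have h2 := hasDerivAt_P L hw
    have h3 : HasDerivAt (fun z => ℘'[L] z ^ 2) (2 * ℘'[L] w * deriv ℘'[L] w) w := by
      simpa using h1.fun_pow 2
    have h4 : HasDerivAt (fun z => 4 * ℘[L] z ^ 3 - L.g₂ * ℘[L] z - L.g₃)
        (4 * (3 * ℘[L] w ^ 2 * ℘'[L] w) - L.g₂ * ℘'[L] w) w := by
      simpa using (((h2.fun_pow 3).const_mul 4).fun_sub (h2.const_mul L.g₂)).sub_const L.g₃
    have h5 : (fun z => ℘'[L] z ^ 2) =ᶠ[𝓝 w] (fun z => 4 * ℘[L] z ^ 3 - L.g₂ * ℘[L] z - L.g₃) := by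
      filter_upwards [nhds_notMem L hw] with z hz
      exact L.derivWeierstrassP_sq z hz
    have h6 := (h3.congr_of_eventuallyEq h5.symm).unique h4
    linear_combination h6 / 2
  rcases hA.eq_zero_or_eq_zero_of_mul_eq_zero hB (fun w hw => hprod w hw) (conn_compl L)
    with h | h
  · obtain ⟨w, hw, hw'⟩ := exists_deriv_ne L
    exact absurd (h w hw) hw'
  · have := h z hz
    linear_combination this

theorem analyticAt_shift {v z : ℂ} (hz : v + z ∉ L.lattice) :
    AnalyticAt ℂ (fun z => ℘[L] (v + z)) z :=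
  AnalyticAt.fun_comp (g := ℘[L]) (f := fun z => v + z) (analyticAt_P L hz) (by fun_prop)

/-- Two points with the same `℘` and `℘'` are equal modulo the lattice. -/
theorem sub_mem_of_eq {v w : ℂ} (hv : v ∉ L.lattice) (hw : w ∉ L.lattice)
    (h0 : ℘[L] v = ℘[L] w) (h1 : ℘'[L] v = ℘'[L] w) : v - w ∈ L.lattice := by
  by_contra hvw
  have hd : ∀ u, u ∉ L.lattice → ∀ᶠ z in 𝓝 (0 : ℂ), u + z ∉ L.lattice := by
    intro u hu
    have : Tendsto (fun z : ℂ => u + z) (𝓝 0) (𝓝 u) := by
      have : Continuous (fun z : ℂ => u + z) := by fun_prop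
      simpa using this.tendsto 0
    exact this.eventually (nhds_notMem L hu)
  have hder : ∀ u z, u + z ∉ L.lattice → HasDerivAt (fun z => ℘[L] (u + z)) (℘'[L] (u + z)) z := by
    intro u z hz
    simpa using (hasDerivAt_P L hz).comp_const_add u z
  have hder' : ∀ u z, u + z ∉ L.lattice → HasDerivAt (fun z => ℘'[L] (u + z))
      (6 * ℘[L] (u + z) ^ 2 - L.g₂ / 2) z := by
    intro u z hz
    have := (analyticAt_P' L hz).differentiableAt.hasDerivAt
    rw [deriv_P' L hz] at this
    simpa using this.comp_const_add u z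
  set d : ℂ → ℂ := fun z => ℘[L] (v + z) - ℘[L] (w + z) with hddef
  have hdd : ∀ᶠ z in 𝓝 (0 : ℂ), deriv d z = ℘'[L] (v + z) - ℘'[L] (w + z) := by
    filter_upwards [hd v hv, hd w hw] with z hz1 hz2
    exact ((hder v z hz1).sub (hder w z hz2)).deriv
  have hz : ∀ᶠ z in 𝓝 (0 : ℂ), d z = 0 := by
    refine ode_unique (q := fun z => 6 * (℘[L] (v + z) + ℘[L] (w + z))) ?_ ?_ ?_ ?_ ?_
    · exact (analyticAt_shift L (by simpa using hv)).sub (analyticAt_shift L (by simpa using hw))
    · have h1 := analyticAt_shift L (v := v) (z := 0) (by simpa using hv)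
      have h2 := analyticAt_shift L (v := w) (z := 0) (by simpa using hw)
      fun_prop
    · filter_upwards [hd v hv, hd w hw, hdd.eventually_nhds] with z hz1 hz2 hz3
      have h3 : deriv d =ᶠ[𝓝 z] fun z => ℘'[L] (v + z) - ℘'[L] (w + z) := hz3
      rw [h3.deriv_eq, ((hder' v z hz1).fun_sub (hder' w z hz2)).deriv]
      simp only [hddef]
      ring
    · simp [hddef, h0]
    · rw [hdd.self_of_nhds]
      simp [h1]
  -- identity theorem on the complement of the two translated lattices
  set U : Set ℂ := {z | v + z ∉ L.lattice ∧ w + z ∉ L.lattice} with hU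
  have hUc : IsPreconnected U := by
    have hcount : ({z | v + z ∈ L.lattice} ∪ {z | w + z ∈ L.lattice}).Countable := by
      refine Set.Countable.union ?_ ?_
      · exact (countable_lattice L).preimage_of_injOn (f := fun z => v + z)
          (fun a _ b _ h => by simpa using h)
      · exact (countable_lattice L).preimage_of_injOn (f := fun z => w + z)
          (fun a _ b _ h => by simpa using h)
    have := (hcount.isPathConnected_compl_of_one_lt_rank (by simp)).isConnected.isPreconnected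
    convert this using 1
    ext z
    simp [hU]
  have hUd : AnalyticOnNhd ℂ d U := fun z hz =>
    (analyticAt_shift L hz.1).sub (analyticAt_shift L hz.2)
  have hall := hUd.eqOn_zero_of_preconnected_of_eventuallyEq_zero hUc
    (z₀ := 0) (by simp [hU, hv, hw]) hz
  have h3 : Tendsto (fun z => ℘[L] (v + z)) (𝓝[≠] (-v)) (Bornology.cobounded ℂ) := by
    refine (tendsto_P L (zero_mem _)).comp ?_
    refine tendsto_nhdsWithin_iff.2 ⟨?_, ?_⟩
    · have : Continuous (fun z : ℂ => v + z) := by fun_prop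
      have := this.tendsto (-v)
      simp only [add_neg_cancel] at this
      exact this.mono_left nhdsWithin_le_nhds
    · filter_upwards [self_mem_nhdsWithin] with z hz
      intro h
      exact hz (by simpa [add_eq_zero_iff_neg_eq, eq_comm] using h)
  have hwv : w + (-v) ∉ L.lattice := fun h => hvw (by
    have := neg_mem h
    simpa [sub_eq_add_neg] using this)
  have h4 : Tendsto (fun z => ℘[L] (v + z)) (𝓝[≠] (-v)) (𝓝 (℘[L] (w + (-v)))) := by
    have h5 : Tendsto (fun z => ℘[L] (w + z)) (𝓝[≠] (-v)) (𝓝 (℘[L] (w + (-v)))) :=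
      (analyticAt_shift L hwv).continuousAt.tendsto.mono_left nhdsWithin_le_nhds
    refine h5.congr' ?_
    have e1 : ∀ᶠ z in 𝓝[≠] (-v), v + z ∉ L.lattice := by
      have h6 : Tendsto (fun z : ℂ => v + z) (𝓝[≠] (-v)) (𝓝[≠] 0) := by
        refine tendsto_nhdsWithin_iff.2 ⟨?_, ?_⟩
        · have : Continuous (fun z : ℂ => v + z) := by fun_prop
          have := this.tendsto (-v)
          simp only [add_neg_cancel] at this
          exact this.mono_left nhdsWithin_le_nhds
        · filter_upwards [self_mem_nhdsWithin] with z hz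
          intro h
          exact hz (by simpa [add_eq_zero_iff_neg_eq, eq_comm] using h)
      exact h6.eventually (nhdsNE_notMem L 0)
    have e2 : ∀ᶠ z in 𝓝[≠] (-v), w + z ∉ L.lattice := by
      have : Continuous (fun z : ℂ => w + z) := by fun_prop
      exact (this.tendsto (-v)).mono_left nhdsWithin_le_nhds |>.eventually (nhds_notMem L hwv)
    filter_upwards [e1, e2] with z hz1 hz2
    have := hall (show z ∈ U from ⟨hz1, hz2⟩)
    simp only [hddef, Pi.zero_apply] at this
    exact (sub_eq_zero.mp this).symm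
  exact h3.not_tendsto (Metric.disjoint_nhds_cobounded _).symm h4

/-- `℘` is two-to-one. -/
theorem P_eq_iff {v w : ℂ} (hv : v ∉ L.lattice) (hw : w ∉ L.lattice) :
    ℘[L] v = ℘[L] w ↔ v - w ∈ L.lattice ∨ v + w ∈ L.lattice := by
  constructor
  · intro h0
    have h1 : ℘'[L] v ^ 2 = ℘'[L] w ^ 2 := by
      rw [L.derivWeierstrassP_sq v hv, L.derivWeierstrassP_sq w hw, h0]
    rcases sq_eq_sq_iff_eq_or_eq_neg.mp h1 with h | h
    · exact Or.inl (sub_mem_of_eq L hv hw h0 h)
    · right
      have hw' : -w ∉ L.lattice := fun h => hw (by simpa using neg_mem h)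
      have := sub_mem_of_eq L hv hw' (by rw [L.weierstrassP_neg, h0])
        (by rw [L.derivWeierstrassP_neg, h])
      simpa using this
  · rintro (h | h)
    · have := L.weierstrassP_add_coe w ⟨v - w, h⟩
      simpa using this
    · have := L.weierstrassP_add_coe (-w) ⟨v + w, h⟩
      simpa [L.weierstrassP_neg] using this

/-- The zeros of `℘'` are the points of order two. -/
theorem P'_eq_zero_iff {z : ℂ} (hz : z ∉ L.lattice) : ℘'[L] z = 0 ↔ 2 * z ∈ L.lattice := by
  constructor
  · intro h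
    have hz' : -z ∉ L.lattice := fun h => hz (by simpa using neg_mem h)
    have := sub_mem_of_eq L hz hz' (by rw [L.weierstrassP_neg])
      (by rw [L.derivWeierstrassP_neg, h, neg_zero])
    simpa [two_mul] using this
  · intro h
    have h1 := L.derivWeierstrassP_add_coe (-z) ⟨2 * z, h⟩
    have h2 : (-z + 2 * z) = z := by ring
    simp only [h2, L.derivWeierstrassP_neg] at h1
    have h3 : (2 : ℂ) * ℘'[L] z = 0 := by linear_combination h1
    simpa using h3

/-- The second derivative does not vanish at the zeros of the first one. -/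
theorem P''_ne_zero {z : ℂ} (hz : z ∉ L.lattice) (h : ℘'[L] z = 0) :
    6 * ℘[L] z ^ 2 - L.g₂ / 2 ≠ 0 := by
  intro h2
  set c := ℘[L] z with hc
  set d : ℂ → ℂ := fun x => ℘[L] x - c with hd
  have hder : ∀ x ∉ L.lattice, HasDerivAt d (℘'[L] x) x := fun x hx =>
    (hasDerivAt_P L hx).sub_const c
  have hz1 : ∀ᶠ x in 𝓝 z, d x = 0 := by
    refine ode_unique (q := fun x => 6 * (℘[L] x + c)) ?_ ?_ ?_ ?_ ?_
    · exact (analyticAt_P L hz).sub analyticAt_const
    · have := analyticAt_P L hz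
      fun_prop
    · filter_upwards [nhds_notMem L hz, (nhds_notMem L hz).eventually_nhds] with x hx hx'
      have h3 : deriv d =ᶠ[𝓝 x] ℘'[L] := by
        filter_upwards [hx'] with y hy
        exact (hder y hy).deriv
      rw [h3.deriv_eq, deriv_P' L hx]
      simp only [hd]
      linear_combination h2
    · simp [hd, hc]
    · rw [(hder z hz).deriv, h]
  obtain ⟨w, hw, hw'⟩ := exists_deriv_ne L
  have hall := AnalyticOnNhd.eqOn_zero_of_preconnected_of_eventuallyEq_zero
    (f := d) (U := ((L.lattice : Set ℂ)ᶜ)) (z₀ := z)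
    (fun x hx => (analyticAt_P L hx).sub analyticAt_const) (conn_compl L) hz hz1
  have h4 : d =ᶠ[𝓝 w] 0 := by
    filter_upwards [nhds_notMem L hw] with y hy
    exact hall hy
  have h5 := h4.deriv_eq
  rw [(hder w hw).deriv] at h5
  exact hw' (by simpa using h5)


open Classical in
/-- `1 / (℘ - s)`, extended by `0` on the lattice. -/
noncomputable def R (s : ℂ) (z : ℂ) : ℂ := if z ∈ L.lattice then 0 else (℘[L] z - s)⁻¹

theorem R_of_mem {s z : ℂ} (hz : z ∈ L.lattice) : R L s z = 0 := by simp [R, hz]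

theorem R_of_notMem {s z : ℂ} (hz : z ∉ L.lattice) : R L s z = (℘[L] z - s)⁻¹ := by simp [R, hz]

theorem R_add_coe {s z l : ℂ} (hl : l ∈ L.lattice) : R L s (z + l) = R L s z := by
  by_cases hz : z ∈ L.lattice
  · rw [R_of_mem L hz, R_of_mem L (add_mem hz hl)]
  · have hz' : z + l ∉ L.lattice := fun h => hz (by simpa using sub_mem h hl)
    rw [R_of_notMem L hz, R_of_notMem L hz', L.weierstrassP_add_coe z ⟨l, hl⟩]

theorem R_neg {s z : ℂ} : R L s (-z) = R L s z := by
  by_cases hz : z ∈ L.lattice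
  · rw [R_of_mem L hz, R_of_mem L (neg_mem hz)]
  · have hz' : -z ∉ L.lattice := fun h => hz (by simpa using neg_mem h)
    rw [R_of_notMem L hz, R_of_notMem L hz', L.weierstrassP_neg]

/-- Near a lattice point `R` is `(z - l)^2` times a holomorphic function with value `1`. -/
theorem R_near {s l : ℂ} (hl : l ∈ L.lattice) : ∃ u : ℂ → ℂ, AnalyticAt ℂ u l ∧ u l = 1 ∧
    ∀ᶠ z in 𝓝 l, R L s z = (z - l) ^ 2 * u z := by
  set k : ℂ → ℂ := fun z => (z - l) ^ 2 * ℘[L - l] z + 1 - (z - l) ^ 2 / l ^ 2 - s * (z - l) ^ 2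
    with hk
  have hka : AnalyticAt ℂ k l := by
    have : AnalyticAt ℂ ℘[L - l] l := L.analyticAt_weierstrassPExcept l
    have h2 : AnalyticAt ℂ (fun z => (z - l) ^ 2 / l ^ 2) l := by
      by_cases hl₀ : l = 0
      · simpa [hl₀] using analyticAt_const
      · fun_prop (disch := simpa)
    fun_prop
  have hk1 : k l = 1 := by simp [hk]
  refine ⟨fun z => (k z)⁻¹, hka.inv (by simp [hk1]), by simp [hk1], ?_⟩
  have hne : ∀ᶠ z in 𝓝 l, k z ≠ 0 := hka.continuousAt.eventually_ne (by simp [hk1])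
  filter_upwards [hne, L.compl_lattice_sdiff_singleton_mem_nhds l] with z hz hz2
  by_cases hzl : z = l
  · subst hzl
    rw [R_of_mem L hl]
    simp
  · have hzL : z ∉ L.lattice := fun h => hz2 ⟨h, hzl⟩
    rw [R_of_notMem L hzL]
    have h1 := L.ite_eq_one_sub_sq_mul_weierstrassP l hl z
    rw [if_neg hzl] at h1
    have h2 : k z = (z - l) ^ 2 * (℘[L] z - s) := by
      simp only [hk]
      linear_combination -h1
    have h3 : (z - l) ^ 2 ≠ 0 := pow_ne_zero _ (sub_ne_zero.mpr hzl)
    rw [h2]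
    rw [h2] at hz
    have h4 : ℘[L] z - s ≠ 0 := right_ne_zero_of_mul hz
    field_simp

/-- The set where `R L s` is holomorphic. -/
theorem analyticAt_R {s z : ℂ} (hz : z ∉ L.lattice → ℘[L] z ≠ s) : AnalyticAt ℂ (R L s) z := by
  by_cases hzL : z ∈ L.lattice
  · obtain ⟨u, hu, -, h⟩ := R_near L (s := s) hzL
    have : AnalyticAt ℂ (fun w => (w - z) ^ 2 * u w) z := by fun_prop
    exact this.congr (h.mono fun _ h => h.symm)
  · have h1 : AnalyticAt ℂ (fun w => (℘[L] w - s)⁻¹) z := by
      have := analyticAt_P L hzL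
      exact (this.sub analyticAt_const).inv (sub_ne_zero.mpr (hz hzL))
    refine h1.congr ?_
    filter_upwards [nhds_notMem L hzL] with w hw
    rw [R_of_notMem L hw]

theorem hasDerivAt_R {s z : ℂ} (hzL : z ∉ L.lattice) (hz : ℘[L] z ≠ s) :
    HasDerivAt (R L s) (-℘'[L] z / (℘[L] z - s) ^ 2) z := by
  have h1 : HasDerivAt (fun w => (℘[L] w - s)⁻¹) (-℘'[L] z / (℘[L] z - s) ^ 2) z := by
    have := ((hasDerivAt_P L hzL).sub_const s).fun_inv (sub_ne_zero.mpr hz)
    simpa using this
  refine h1.congr_of_eventuallyEq ?_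
  filter_upwards [nhds_notMem L hzL] with w hw
  rw [R_of_notMem L hw]

theorem hasDerivAt_R_mem {s z : ℂ} (hzL : z ∈ L.lattice) : HasDerivAt (R L s) 0 z := by
  obtain ⟨u, hu, -, h⟩ := R_near L (s := s) hzL
  have h1 : HasDerivAt (fun w => (w - z) ^ 2) (2 * (z - z) ^ 1 * 1) z := by
    simpa using ((hasDerivAt_id z).sub_const z).fun_pow 2
  have h2 := h1.fun_mul hu.differentiableAt.hasDerivAt
  have h3 := h2.congr_of_eventuallyEq h
  simpa using h3

/-- `℘` takes every value. -/
theorem exists_P_eq (s : ℂ) : ∃ z, z ∉ L.lattice ∧ ℘[L] z = s := by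
  by_contra! hcon
  have hR : Differentiable ℂ (R L s) := fun z =>
    (analyticAt_R L (fun hz => hcon z hz)).differentiableAt
  have hb := (IsZLattice.isCompact_range_of_periodic L.lattice (R L s) hR.continuous
    (fun z w hw => R_add_coe L hw)).isBounded
  have h0 : ∀ z, R L s z = 0 := fun z => by
    rw [hR.apply_eq_apply_of_bounded hb z 0, R_of_mem L (zero_mem _)]
  have h1 := h0 (L.ω₁ / 2)
  rw [R_of_notMem L L.ω₁_div_two_notMem_lattice, inv_eq_zero, sub_eq_zero] at h1
  exact hcon _ L.ω₁_div_two_notMem_lattice h1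

/-- The finite branch values of `℘`. -/
def Br : Set ℂ := {c | ∃ z, z ∉ L.lattice ∧ ℘'[L] z = 0 ∧ ℘[L] z = c}

theorem Br_finite : (Br L).Finite := by
  classical
  set p : Polynomial ℂ := Polynomial.C 4 * Polynomial.X ^ 3 - Polynomial.C L.g₂ * Polynomial.X
    - Polynomial.C L.g₃ with hp
  have hp0 : p ≠ 0 := by
    intro h
    have h1 := congrArg (fun q => Polynomial.coeff q 3) h
    simp [hp] at h1
  refine (p.roots.toFinset.finite_toSet).subset ?_
  rintro c ⟨z, hz, hz', rfl⟩
  have h1 := L.derivWeierstrassP_sq z hz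
  rw [hz'] at h1
  refine Multiset.mem_toFinset.mpr ((Polynomial.mem_roots hp0).mpr ?_)
  rw [Polynomial.IsRoot, hp]
  simp only [Polynomial.eval_sub, Polynomial.eval_mul, Polynomial.eval_pow, Polynomial.eval_C,
    Polynomial.eval_X]
  linear_combination -h1

/-- The parameter `s` of the curve `(℘ z - s) (℘ w - s) = 1`. -/
theorem exists_s : ∃ s : ℂ, s ∉ Br L ∧ ∀ e ∈ Br L, ∀ e' ∈ Br L, (e - s) * (e' - s) ≠ 1 := by
  have hfin : (Br L ∪ ⋃ e ∈ Br L, ⋃ e' ∈ Br L, {s : ℂ | (e - s) * (e' - s) = 1}).Finite := by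
    refine (Br_finite L).union ((Br_finite L).biUnion fun e _ => (Br_finite L).biUnion fun e' _ => ?_)
    classical
    set p : Polynomial ℂ := (Polynomial.C e - Polynomial.X) * (Polynomial.C e' - Polynomial.X) - 1
      with hp
    have hp0 : p ≠ 0 := by
      intro h
      have h1 := congrArg (fun q => Polynomial.eval e q) h
      simp [hp] at h1
    refine (p.roots.toFinset.finite_toSet).subset ?_
    intro s hs
    refine Multiset.mem_toFinset.mpr ((Polynomial.mem_roots hp0).mpr ?_)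
    rw [Polynomial.IsRoot, hp]
    simp only [Polynomial.eval_sub, Polynomial.eval_mul, Polynomial.eval_C, Polynomial.eval_X,
      Polynomial.eval_one]
    rw [sub_eq_zero]
    exact hs
  obtain ⟨s, hs⟩ := hfin.infinite_compl.nonempty
  simp only [mem_compl_iff, mem_union, mem_iUnion, not_or, not_exists] at hs
  exact ⟨s, hs.1, fun e he e' he' => hs.2 e he e' he'⟩

/-! ### The curve `(℘ z - s) (℘ w - s) = 1` -/

/-- `(z, w)` lies on the curve `C_s : (℘ z - s) (℘ w - s) = 1` in `E × E` (with the points over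
the poles). -/
def Cur (s z w : ℂ) : Prop :=
  (w ∉ L.lattice ∧ (z ∉ L.lattice → ℘[L] z ≠ s) ∧ ℘[L] w - s = R L s z) ∨
    (z ∉ L.lattice ∧ (w ∉ L.lattice → ℘[L] w ≠ s) ∧ ℘[L] z - s = R L s w)

end Pool.Agent.K708.PFun
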