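import Pool.Agent.Lib.K708.TTrans
import Pool.Agent.Lib.K708.Fib

/-! # K708: section B, transport -/

set_option autoImplicit false

open scoped Manifold ContDiff Topology
open Set

noncomputable section

namespace Pool.Agent.K708

/-- Section B (transport of the data from fibre to fibre). -/
theorem transport {T : CMfd 3} {B : CMfd 1} (hB : ConnectedSpace B) (o : B) (π : T → B)
    (hπ : Holo 3 1 π) (hpr : IsProperMap π) (hsm : ∀ x, π x ≠ o → DC 3 1 π x ≠ 0)
    (Ω : F2 3 T) (hΩ : RelKah π Ω) {s t : B} (hs : s ≠ o) (ht : t ≠ o)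
    {Y Z : CMfd 2} {ι : Y → T} {ι' : Z → T} (hι : IsFib π s ι) (hι' : IsFib π t ι')
    (hY : CptConn Y) (c : ℝ) (h : PD Y (pb2 2 ι Ω) c) :
    CptConn Z ∧ PD Z (pb2 2 ι' Ω) c :=
  transport_main hB o π hπ hpr hsm
    (fun t ht => exists_fib π hπ t fun x hx => hsm x (hx ▸ ht)) Ω hΩ hs ht hι hι' hY c h

end Pool.Agent.K708
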