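import Pool.Agent.Lib.K708.KahFib
import Pool.Agent.Lib.K708.KFs

/-! # K708: Section K (Fubini-Study form) -/

set_option autoImplicit false

open scoped Manifold ContDiff Topology
open Set

noncomputable section

namespace Pool.Agent.K708

namespace SecK

variable {n N : ℕ} {M : CMfd n}

/-- The local expression of a lift in the preferred chart. -/
def lc (F : M → E (N + 1)) (x : M) (z : E n) : E (N + 1) := F ((chartAt (E n) x).symm z)

theorem lc_contDiffAt' {F : M → E (N + 1)} {x y : M} (hy : y ∈ (chartAt (E n) x).source)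
    (hF : HoloAt n (N + 1) F y) : ContDiffAt ℝ ∞ (lc F x) (chartAt (E n) x y) := by
  have h := HoloAt.analyticAt_loc (f := F) (φ := chartAt (E n) x)
    (ψ := OpenPartialHomeomorph.refl (E (N + 1))) (chartAt_mem_CA x) (chartAt_mem_CA (F x))
    (z := chartAt (E n) x y) ((chartAt (E n) x).map_source hy) (mem_univ _)
    (by rwa [(chartAt (E n) x).left_inv hy])
  exact (h.restrict_scalars ℝ).of_le le_top

theorem lc_contDiffAt {F : M → E (N + 1)} {x : M} (hF : HoloAt n (N + 1) F x) :
    ContDiffAt ℝ ∞ (lc F x) (chartAt (E n) x x) :=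
  lc_contDiffAt' (mem_chart_source _ x) hF

theorem lc_fderiv {F : M → E (N + 1)} {x y : M} (hy : y ∈ (chartAt (E n) x).source)
    (hF : HoloAt n (N + 1) F y) (u : E n) :
    fderiv ℝ (lc F x) (chartAt (E n) x y) u =
      D n (N + 1) F y (D n n (chartAt (E n) x).symm (chartAt (E n) x y) u) := by
  have hz : chartAt (E n) x y ∈ (chartAt (E n) x).target := (chartAt (E n) x).map_source hy
  have hl : (chartAt (E n) x).symm (chartAt (E n) x y) = y := (chartAt (E n) x).left_inv hy
  have h1 := D_comp (f := (chartAt (E n) x).symm) (g := F) (x := chartAt (E n) x y)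
    (n := n) (m := n) (k := N + 1) (by rw [hl]; exact HoloAt.mdiff hF)
    (mdiff_chart_symm (chartAt_mem_RA x) hz)
  rw [hl] at h1
  rw [← ContinuousLinearMap.comp_apply, ← h1, D_model]
  rfl

/-- Two lifts give the same value. -/
theorem fsv_lift {j : M → PN N} {F F' : M → E (N + 1)} {x : M} (h : IsLift n j F x)
    (h' : IsLift n j F' x) (u v : E n) :
    fsv (F' x) (D n (N + 1) F' x) u v = fsv (F x) (D n (N + 1) F x) u v := by
  obtain ⟨hx, -⟩ := h.2.self_of_nhds
  have hφ : x ∈ (chartAt (E n) x).source := mem_chart_source _ x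
  have hl : (chartAt (E n) x).symm (chartAt (E n) x x) = x := (chartAt (E n) x).left_inv hφ
  -- a non zero coordinate
  obtain ⟨i, hi⟩ : ∃ i, F x i ≠ 0 := by
    by_contra hc
    push Not at hc
    exact hx (funext hc)
  have hid : D n n (chartAt (E n) x).symm (chartAt (E n) x x) = ContinuousLinearMap.id ℝ (E n) :=
    D_chartAt_symm x
  have e1 : ∀ u, D n (N + 1) F x u = fderiv ℝ (lc F x) (chartAt (E n) x x) u := by
    intro u
    rw [lc_fderiv hφ h.1, hid]; rfl
  have e2 : ∀ u, D n (N + 1) F' x u = fderiv ℝ (lc F' x) (chartAt (E n) x x) u := by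
    intro u
    rw [lc_fderiv hφ h'.1, hid]; rfl
  set z := chartAt (E n) x x with hz
  have hd : DifferentiableAt ℝ (lc F x) z := (lc_contDiffAt h.1).differentiableAt (by simp)
  have hd' : DifferentiableAt ℝ (lc F' x) z := (lc_contDiffAt h'.1).differentiableAt (by simp)
  have hdi : DifferentiableAt ℝ (fun w => lc F x w i) z := differentiableAt_pi.1 hd i
  have hdi' : DifferentiableAt ℝ (fun w => lc F' x w i) z := differentiableAt_pi.1 hd' i
  have hlz : lc F x z = F x := congrArg F hl
  have hlz' : lc F' x z = F' x := congrArg F' hl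
  set c : E n → ℂ := fun w => lc F' x w i / lc F x w i with hc
  have hcd : DifferentiableAt ℝ c z := by
    have h3 := hdi'.mul ((hdi.inv (by rw [hlz]; exact hi)))
    exact h3
  -- proportionality near z
  have hev : ∀ᶠ y in 𝓝 x, F' y = (F' y i / F y i) • F y ∧ F' y i / F y i ≠ 0 := by
    have hci : ∀ᶠ y in 𝓝 x, F y i ≠ 0 := by
      have hcont : ContinuousAt F x := h.1.continuousAt
      have : ContinuousAt (fun y => F y i) x := (continuous_apply i).continuousAt.comp hcont
      exact this.eventually_ne hi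
    filter_upwards [h.2, h'.2, hci] with y h1 h2 h3
    obtain ⟨a1, b1⟩ := h1
    obtain ⟨a2, b2⟩ := h2
    have h4 := b1.symm.trans b2
    rw [Projectivization.mk_eq_mk_iff'] at h4
    obtain ⟨a, ha⟩ := h4
    have ha0 : a ≠ 0 := by
      rintro rfl
      rw [zero_smul] at ha
      exact a1 ha.symm
    have h5 : F y i = a * F' y i := by rw [← ha]; rfl
    have h6 : F' y i / F y i = a⁻¹ := by
      rw [h5] at h3 ⊢
      have : F' y i ≠ 0 := right_ne_zero_of_mul h3
      field_simp
    rw [h6]
    refine ⟨?_, inv_ne_zero ha0⟩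
    rw [← ha, smul_smul, inv_mul_cancel₀ ha0, one_smul]
  have hev' : lc F' x =ᶠ[𝓝 z] fun w => c w • lc F x w := by
    have hcs : ContinuousAt (chartAt (E n) x).symm z :=
      (chartAt (E n) x).continuousAt_symm (mem_chart_target _ x)
    have : Filter.Tendsto (chartAt (E n) x).symm (𝓝 z) (𝓝 x) := by
      have := hcs.tendsto
      rwa [hz, hl] at this
    filter_upwards [this.eventually hev] with w hw
    exact hw.1
  have hc0 : c z ≠ 0 := by
    have := hev.self_of_nhds.2
    simpa only [hc, hlz, hlz'] using this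
  have hcz : F' x = c z • F x := by
    have := hev.self_of_nhds.1
    simpa only [hc, hlz, hlz'] using this
  have hder : ∀ u, D n (N + 1) F' x u = c z • D n (N + 1) F x u + fderiv ℝ c z u • F x := by
    intro u
    rw [e1, e2, hev'.fderiv_eq, fderiv_fun_smul hcd hd]
    simp [hlz]
  rw [hcz]
  exact fsv_change hx hc0 (fun u => fderiv ℝ c z u) hder u v

open Classical in
/-- The Fubini-Study form of a map to projective space. -/
def fs (j : M → PN N) (hj : HoloP n j) : F2 n M := fun x =>
  dE1 (fsa (lc (hj x).choose x)) (chartAt (E n) x x)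

theorem fs_eq {j : M → PN N} (hj : HoloP n j) {F : M → E (N + 1)} {x : M} (h : IsLift n j F x)
    (u v : E n) : fs j hj x u v = fsv (F x) (D n (N + 1) F x) u v := by
  have h' : IsLift n j (hj x).choose x := (hj x).choose_spec
  obtain ⟨hx, -⟩ := h'.2.self_of_nhds
  have hφ : x ∈ (chartAt (E n) x).source := mem_chart_source _ x
  have hl : (chartAt (E n) x).symm (chartAt (E n) x x) = x := (chartAt (E n) x).left_inv hφ
  have hlz : lc (hj x).choose x (chartAt (E n) x x) = (hj x).choose x := by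
    simp only [lc, hl]
  have hid : D n n (chartAt (E n) x).symm (chartAt (E n) x x) = ContinuousLinearMap.id ℝ (E n) :=
    D_chartAt_symm x
  rw [fsv_lift h' h, fs, dE1_fsa (lc_contDiffAt h'.1) (by rw [hlz]; exact hx), hlz]
  congr 1
  funext u
  rw [lc_fderiv hφ h'.1, hid]; rfl

theorem IsLift.eventually {j : M → PN N} {F : M → E (N + 1)} {x : M} (h : IsLift n j F x) :
    ∀ᶠ y in 𝓝 x, IsLift n j F y := by
  have h1 : ∀ᶠ y in 𝓝 x, HoloAt n (N + 1) F y := (contMDiffAt_iff_contMDiffAt_nhds (by decide)).1 h.1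
  filter_upwards [h1, h.2.eventually_nhds] with y h2 h3
  exact ⟨h2, h3⟩

theorem fs_loc {j : M → PN N} (hj : HoloP n j) {F : M → E (N + 1)} {x : M}
    (h : IsLift n j F x) :
    loc2 (chartAt (E n) x) (fs j hj) =ᶠ[𝓝 (chartAt (E n) x x)] dE1 (fsa (lc F x)) := by
  have hφ : x ∈ (chartAt (E n) x).source := mem_chart_source _ x
  have hl : (chartAt (E n) x).symm (chartAt (E n) x x) = x := (chartAt (E n) x).left_inv hφ
  have hcs : ContinuousAt (chartAt (E n) x).symm (chartAt (E n) x x) :=
    (chartAt (E n) x).continuousAt_symm (mem_chart_target _ x)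
  have ht : Filter.Tendsto (chartAt (E n) x).symm (𝓝 (chartAt (E n) x x)) (𝓝 x) := by
    have := hcs.tendsto
    rwa [hl] at this
  filter_upwards [ht.eventually (IsLift.eventually h), ht.eventually (IsLift.eventually h),
    (chartAt (E n) x).open_target.mem_nhds (mem_chart_target _ x)] with w hw _ hwt
  ext u v
  have hr : chartAt (E n) x ((chartAt (E n) x).symm w) = w := (chartAt (E n) x).right_inv hwt
  have hs : (chartAt (E n) x).symm w ∈ (chartAt (E n) x).source :=
    (chartAt (E n) x).map_target hwt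
  obtain ⟨hne, -⟩ := hw.2.self_of_nhds
  have hcd : ContDiffAt ℝ ∞ (lc F x) w := by
    have := lc_contDiffAt' hs hw.1
    rwa [hr] at this
  rw [dE1_fsa hcd (by exact hne)]
  show fs j hj ((chartAt (E n) x).symm w) _ _ = _
  rw [fs_eq hj hw]
  have hlf := fun u => lc_fderiv hs hw.1 u
  rw [hr] at hlf
  simp only [fsv, fsh, hlf]
  rfl

end SecK

open SecK

/-- Section K (Fubini-Study form). -/
theorem exists_relKah {X : CMfd 2} (G : RatDegen X) : ∃ Ω : F2 3 G.T, RelKah G.π Ω := by
  have hj := G.holoj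
  have hl : ∀ x, ∃ F, IsLift 3 G.j F x := hj
  have s2 : S2 (fs G.j hj) := by
    refine S2_of_local ?_ ?_
    · intro x u v
      obtain ⟨F, hF⟩ := hl x
      rw [fs_eq hj hF, fs_eq hj hF]
      simp only [fsv]
      ring
    · intro x
      obtain ⟨F, hF⟩ := hl x
      obtain ⟨hne, -⟩ := hF.2.self_of_nhds
      refine ⟨chartAt (E 3) x, chartAt_mem_RA x, mem_chart_source _ x, ?_⟩
      refine ContDiffAt.congr_of_eventuallyEq ?_ (fs_loc hj hF)
      exact dE1_smooth (fsa_smooth (lc_contDiffAt hF.1) (by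
        simp only [lc, (chartAt (E 3) x).left_inv (mem_chart_source _ x)]; exact hne))
  refine ⟨fs G.j hj, s2, ?_, ?_, ?_, ?_, ?_⟩
  · refine Cl2_of_local s2 fun x => ?_
    obtain ⟨F, hF⟩ := hl x
    obtain ⟨hne, -⟩ := hF.2.self_of_nhds
    refine ⟨chartAt (E 3) x, chartAt_mem_RA x, mem_chart_source _ x, ?_⟩
    intro u v w
    rw [(fs_loc hj hF).fderiv_eq]
    exact dE1_cyc (fsa_smooth (lc_contDiffAt hF.1) (by
        simp only [lc, (chartAt (E 3) x).left_inv (mem_chart_source _ x)]; exact hne)) u v w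
  · intro x u v
    obtain ⟨F, hF⟩ := hl x
    rw [fs_eq hj hF]
    exact fsv_im _ _ _ _
  · intro x u v
    obtain ⟨F, hF⟩ := hl x
    rw [fs_eq hj hF, fs_eq hj hF]
    exact fsv_smul_I _ _ (fun u => D_smul_I hF.1 u) _ _
  · intro x u
    obtain ⟨F, hF⟩ := hl x
    obtain ⟨hne, -⟩ := hF.2.self_of_nhds
    rw [fs_eq hj hF]
    exact fsv_nonneg hne _ (fun u => D_smul_I hF.1 u) _
  · intro x u hu hπu
    obtain ⟨F, hF⟩ := hl x
    obtain ⟨hne, -⟩ := hF.2.self_of_nhds
    rw [fs_eq hj hF]
    refine lt_of_le_of_ne (fsv_nonneg hne _ (fun u => D_smul_I hF.1 u) _) fun h0 => ?_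
    obtain ⟨c, hc⟩ := fsv_eq_zero hne _ (fun u => D_smul_I hF.1 u) u h0.symm
    refine hu (G.immj x u ⟨F, hF, c, ?_⟩ hπu)
    rw [← hc, D_eq_DC hF.1]

end Pool.Agent.K708
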