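import Pool.Agent.Lib.K708.CFinal
import Pool.Agent.Lib.K708.SecK

/-! # K708: section C, limit argument -/

set_option autoImplicit false

open scoped Manifold ContDiff Topology
open Set

noncomputable section

namespace Pool.Agent.K708

/-- Section C (limit argument): maps of bounded energy to the elliptic curve are constant on the
fibres near the central fibre. -/
theorem limit {X : CMfd 2} (G : RatDegen X) (Ω : F2 3 G.T) (hΩ : RelKah G.π Ω) (c : ℝ)
    (Y : G.B → CMfd 2) (ι : ∀ t, Y t → G.T) (hι : ∀ t, t ≠ G.o → IsFib G.π t (ι t))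
    (hY : ∀ t, t ≠ G.o → CptConn (Y t)) (F : ∀ t, Y t → Tor) (a : ∀ t, F1 2 (Y t))
    (hF : ∀ t, t ≠ G.o → TF (F t) (a t) ∧ H1 (a t) ∧
      Int4 (Y t) (pb2 2 (ι t) Ω) (Complex.I • wedge (a t) (cj (a t))) (pb2 2 (ι t) Ω) = c) :
    ∃ t, t ≠ G.o ∧ a t = 0 :=
  limit' G Ω hΩ c Y ι hι hY (fun t ht => hΩ.kah G.holo (hι t ht)) F a hF

end Pool.Agent.K708
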