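import Pool.Agent.Lib.K708.DMain
import Pool.Agent.Lib.K708.DPD

/-! # K708: section D, the example -/

set_option autoImplicit false

open scoped Manifold ContDiff Topology
open Set Filter

noncomputable section

namespace Pool.Agent.K708

/-- `IsSurface` is invariant under `Birational`. -/
theorem isSurface_iff_of_birational {X X' : CMfd 2} (h : Birational X X') :
    IsSurface X ↔ IsSurface X' := by
  induction h with
  | rel Z Y h => exact ⟨fun _ => h.2.1, fun _ => h.1⟩
  | refl => exact Iff.rfl
  | symm _ _ _ ih => exact ih.symm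
  | trans _ _ _ _ _ ih₁ ih₂ => exact ih₁.trans ih₂

/-- Section D (the example). -/
theorem exists_example : ∃ X : CMfd 2, IsSurface X ∧ ∀ X' : CMfd 2, Birational X X' →
    ∀ Ω : F2 2 X', Kah Ω → ∃ c : ℝ, 0 < c ∧ PD X' Ω c := by
  obtain ⟨X, hX, hg⟩ := exists_good
  refine ⟨X, hX, fun X' h Ω hΩ => ?_⟩
  have hX' := (isSurface_iff_of_birational h).mp hX
  exact Good.pd ⟨hX'.cpt, hX'.conn⟩ ((Good.birational h).mp hg) hΩ

/-- `IsSurface` is invariant under `Birational` (trivial) unless the two are equal. -/
theorem IsSurface.of_birational {X X' : CMfd 2} (hX : IsSurface X) (h : Birational X X') :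
    IsSurface X' :=
  (isSurface_iff_of_birational h).mp hX

end Pool.Agent.K708
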