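import Pool.Agent.Lib.K708.SecS1

/-! # K708: section S, the key lemma -/

set_option autoImplicit false

open scoped Manifold ContDiff Topology
open Set

noncomputable section

namespace Pool.Agent.K708

namespace SecS2

theorem T10.smul' {n : ℕ} {c : Cov n} (h : T10 c) (z : ℂ) (u : E n) : c (z • u) = z * c u := by
  have h1 : z • u = (z.re : ℝ) • u + (z.im : ℝ) • (Complex.I • u) := by
    conv_lhs => rw [← Complex.re_add_im z]
    rw [add_smul, mul_smul]
    simp only [← Complex.coe_smul]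
  rw [h1, map_add, map_smul, map_smul, h u, Complex.real_smul, Complex.real_smul]
  conv_rhs => rw [← Complex.re_add_im z]
  ring

theorem T10.coord {c : Cov 2} (h : T10 c) (u : E 2) :
    c u = u 0 * c ![1, 0] + u 1 * c ![0, 1] := by
  have h1 : u = u 0 • (![1, 0] : E 2) + u 1 • (![0, 1] : E 2) := by
    ext i; fin_cases i <;> simp
  conv_lhs => rw [h1]
  rw [map_add, T10.smul' h, T10.smul' h]

theorem T10.ext {c c' : Cov 2} (h : T10 c) (h' : T10 c') (h0 : c ![1, 0] = c' ![1, 0])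
    (h1 : c ![0, 1] = c' ![0, 1]) : c = c' := by
  ext u
  rw [T10.coord h, T10.coord h', h0, h1]

/-- Proportionality of covectors of type (1,0), with explicit factor. -/
theorem prop_left {a b c : Cov 2} (ha : T10 a) (hc : T10 c)
    (hac : a ![1, 0] * c ![0, 1] - a ![0, 1] * c ![1, 0] = 0)
    (hab : a ![1, 0] * b ![0, 1] - a ![0, 1] * b ![1, 0] ≠ 0) :
    c = ((c ![1, 0] * b ![0, 1] - c ![0, 1] * b ![1, 0]) /
      (a ![1, 0] * b ![0, 1] - a ![0, 1] * b ![1, 0])) • a := by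
  have hs : T10 (((c ![1, 0] * b ![0, 1] - c ![0, 1] * b ![1, 0]) /
      (a ![1, 0] * b ![0, 1] - a ![0, 1] * b ![1, 0])) • a) := by
    intro u
    simp only [smul_apply, smul_eq_mul]
    rw [ha u]; ring
  refine T10.ext hc hs ?_ ?_
  · simp only [smul_apply, smul_eq_mul]
    rw [div_mul_eq_mul_div, eq_div_iff hab]
    linear_combination (b ![1, 0]) * hac
  · simp only [smul_apply, smul_eq_mul]
    rw [div_mul_eq_mul_div, eq_div_iff hab]
    linear_combination (b ![0, 1]) * hac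

theorem prop_right {a b c : Cov 2} (hb : T10 b) (hc : T10 c)
    (hbc : b ![1, 0] * c ![0, 1] - b ![0, 1] * c ![1, 0] = 0)
    (hab : a ![1, 0] * b ![0, 1] - a ![0, 1] * b ![1, 0] ≠ 0) :
    c = ((a ![1, 0] * c ![0, 1] - a ![0, 1] * c ![1, 0]) /
      (a ![1, 0] * b ![0, 1] - a ![0, 1] * b ![1, 0])) • b := by
  have hs : T10 (((a ![1, 0] * c ![0, 1] - a ![0, 1] * c ![1, 0]) /
      (a ![1, 0] * b ![0, 1] - a ![0, 1] * b ![1, 0])) • b) := by
    intro u
    simp only [smul_apply, smul_eq_mul]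
    rw [hb u]; ring
  refine T10.ext hc hs ?_ ?_
  · simp only [smul_apply, smul_eq_mul]
    rw [div_mul_eq_mul_div, eq_div_iff hab]
    linear_combination (-a ![1, 0]) * hbc
  · simp only [smul_apply, smul_eq_mul]
    rw [div_mul_eq_mul_div, eq_div_iff hab]
    linear_combination (-a ![0, 1]) * hbc

theorem wd_ne_iff {a b : Cov 2} (ha : T10 a) (hb : T10 b) (h : wd a b ≠ 0) :
    a ![1, 0] * b ![0, 1] - a ![0, 1] * b ![1, 0] ≠ 0 := by
  intro h0
  apply h
  ext u v
  rw [wd_apply, T10.coord ha u, T10.coord ha v, T10.coord hb u, T10.coord hb v]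
  simp only [zero_apply]
  linear_combination (u 0 * v 1 - u 1 * v 0) * h0

/-- `a ∧ s b̄ - t a ∧ b̄`, against its conjugate. -/
theorem factor_eq {a b : Cov 2} (ha : T10 a) (hb : T10 b) (hab : wd a b ≠ 0) {s t : ℂ}
    (h : w4 (wd a (cv (s • b)) - wd (t • a) (cv b)) (wd (cv a) (s • b) - wd (cv (t • a)) b) = 0) :
    t = (starRingEnd ℂ) s := by
  have e1 : wd a (cv (s • b)) - wd (t • a) (cv b) = ((starRingEnd ℂ) s - t) • wd a (cv b) := by
    ext u v
    simp only [wd_apply, cv_apply, sub_apply, smul_apply,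
      smul_eq_mul, map_mul]
    ring
  have e2 : wd (cv a) (s • b) - wd (cv (t • a)) b = (s - (starRingEnd ℂ) t) • wd (cv a) b := by
    ext u v
    simp only [wd_apply, cv_apply, sub_apply, smul_apply,
      smul_eq_mul, map_mul]
    ring
  have e3 : wd (cv b) b = - wd b (cv b) := by
    ext u v
    simp only [wd_apply, cv_apply, neg_apply]
    ring
  rw [e1, e2, w4_smul_left, w4_smul_right] at h
  have e4 : w4 (wd a (cv b)) (wd (cv a) b) = - w4 (wd a b) (wd (cv a) (cv b)) := by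
    rw [w4_swap, w4_swap (a := a) (b := b), e3, w4_comm, w4_neg_left, w4_comm]
  have h4 : w4 (wd a b) (wd (cv a) (cv b)) ≠ 0 := fun h0 => hab (w4_quad_eq_zero ha hb h0)
  rw [e4] at h
  rcases mul_eq_zero.mp h with h | h
  · exact (sub_eq_zero.mp h).symm
  · rcases mul_eq_zero.mp h with h | h
    · have := congrArg (starRingEnd ℂ) (sub_eq_zero.mp h)
      simp only [Complex.conj_conj] at this
      exact this.symm
    · exact absurd (neg_eq_zero.mp h) h4

theorem S0.lin {n : ℕ} {M : Type*} [TopologicalSpace M] [ChartedSpace (E n) M] {f g : M → ℂ}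
    (hf : S0 n f) (hg : S0 n g) (c : ℂ) : S0 n (fun x => g x + c * f x) := by
  have h1 : ContDiff ℝ ∞ (fun p : ℂ => c * p) := contDiff_const.mul contDiff_id
  exact ContMDiff.add hg (h1.contMDiff.comp hf)

theorem d0_lin {n : ℕ} {M : Type*} [TopologicalSpace M] [ChartedSpace (E n) M]
    [IsManifold 𝓘(ℂ, E n) ω M] {f g : M → ℂ} (hf : S0 n f) (hg : S0 n g) (c : ℂ) (x : M)
    (u : E n) : d0 n (fun x => g x + c * f x) x u = d0 n g x u + c * d0 n f x u := by
  have hφ := chartAt_mem_RA (n := n) x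
  have hz : chartAt (E n) x x ∈ (chartAt (E n) x).target := mem_chart_target (E n) x
  have hF := S0.lin hf hg c
  have hm : ∀ {f : M → ℂ}, S0 n f → ∀ y, MDifferentiableAt 𝓘(ℝ, E n) 𝓘(ℝ, ℂ) f y :=
    fun h y => (h y).mdifferentiableAt (by simp)
  have key : ∀ {f : M → ℂ}, S0 n f → d0 n f x =
      fderiv ℝ (f ∘ (chartAt (E n) x).symm) (chartAt (E n) x x) := by
    intro f h
    rw [← loc1_d0 hφ hz (hm h _), loc1_chartAt]
  have hdf : DifferentiableAt ℝ (f ∘ (chartAt (E n) x).symm) (chartAt (E n) x x) :=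
    (hf.contDiffAt_loc hφ hz).differentiableAt (by simp)
  have hdg : DifferentiableAt ℝ (g ∘ (chartAt (E n) x).symm) (chartAt (E n) x x) :=
    (hg.contDiffAt_loc hφ hz).differentiableAt (by simp)
  rw [key hF, key hf, key hg]
  have e : ((fun x => g x + c * f x) ∘ (chartAt (E n) x).symm) =
      fun z => (g ∘ (chartAt (E n) x).symm) z + c * (f ∘ (chartAt (E n) x).symm) z := rfl
  rw [e, fderiv_fun_add hdg (hdf.const_mul c), fderiv_const_mul hdf]
  rfl

/-- A function which is both holomorphic and antiholomorphic on a ball is constant. -/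
theorem const_of_conj {F G : E 2 → ℂ} {z₀ : E 2} {r : ℝ}
    (hF : DifferentiableOn ℂ F (Metric.ball z₀ r)) (hG : DifferentiableOn ℂ G (Metric.ball z₀ r))
    (h : ∀ z ∈ Metric.ball z₀ r, F z = (starRingEnd ℂ) (G z)) :
    ∀ z ∈ Metric.ball z₀ r, F z = F z₀ := by
  intro z hz
  have hr : 0 < r := Metric.pos_of_mem_ball hz
  have hz₀ : z₀ ∈ Metric.ball z₀ r := Metric.mem_ball_self hr
  have hd : ∀ w ∈ Metric.ball z₀ r, fderiv ℂ F w = 0 := by
    intro w hw
    have hn : Metric.ball z₀ r ∈ 𝓝 w := Metric.isOpen_ball.mem_nhds hw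
    have h1 : HasFDerivAt F (fderiv ℂ F w) w := (hF.differentiableAt hn).hasFDerivAt
    have h2 : HasFDerivAt G (fderiv ℂ G w) w := (hG.differentiableAt hn).hasFDerivAt
    have h1' : HasFDerivAt F ((fderiv ℂ F w).restrictScalars ℝ) w := h1.restrictScalars ℝ
    have h2' : HasFDerivAt G ((fderiv ℂ G w).restrictScalars ℝ) w := h2.restrictScalars ℝ
    have h3 : HasFDerivAt (fun z => (starRingEnd ℂ) (G z))
        ((Complex.conjCLE : ℂ →L[ℝ] ℂ).comp ((fderiv ℂ G w).restrictScalars ℝ)) w :=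
      ((Complex.conjCLE : ℂ →L[ℝ] ℂ).hasFDerivAt (x := G w)).comp w h2'
    have h4 : F =ᶠ[𝓝 w] fun z => (starRingEnd ℂ) (G z) := by
      filter_upwards [hn] with z hz using h z hz
    have h5 := h1'.unique (h3.congr_of_eventuallyEq h4)
    ext u
    have h6 : fderiv ℂ F w u = (starRingEnd ℂ) (fderiv ℂ G w u) := by
      have := congrArg (fun L => L u) h5
      simpa using this
    have h7 : fderiv ℂ F w (Complex.I • u) = (starRingEnd ℂ) (fderiv ℂ G w (Complex.I • u)) := by
      have := congrArg (fun L => L (Complex.I • u)) h5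
      simpa using this
    rw [map_smul, map_smul, smul_eq_mul, smul_eq_mul, map_mul, Complex.conj_I, ← h6] at h7
    have h8 : (2 * Complex.I) * fderiv ℂ F w u = 0 := by linear_combination h7
    have h9 : (2 * Complex.I) ≠ 0 := mul_ne_zero two_ne_zero Complex.I_ne_zero
    simpa using (mul_eq_zero.mp h8).resolve_left h9
  refine (convex_ball z₀ r).is_const_of_fderivWithin_eq_zero hF ?_ hz hz₀
  intro w hw
  rw [fderivWithin_of_isOpen Metric.isOpen_ball hw, hd w hw]

end SecS2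

section

variable {X : CMfd 2} {Ω : F2 2 X}

/-- The new key lemma: `ε ∧ γ` exact and `γ` independent of `ε` in cohomology imply
`a(ε) ∧ a(ε̄) = 0`. -/
theorem cross_zero (hX : CptConn X) (hΩ : Kah Ω) {ε a b γ a' b' : F1 2 X} {f g : X → ℂ}
    (hε : Dec ε a b f) (hγ : Dec γ a' b' g) (hex : Ex2 (wedge ε γ))
    (hind : ∀ (l : ℂ) (f : X → ℂ), S0 2 f → γ ≠ l • ε + d0 2 f) : wedge a b = 0 := by
  have hcpt := hX.cpt
  have := hX.conn
  -- the (2,0)-parts
  have h20 : wedge a a' = 0 := part20 hX hΩ hε hγ hex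
  have hexc : Ex2 (wedge (cj ε) (cj γ)) := by
    obtain ⟨κ, hκ, e⟩ := hex
    refine ⟨cj κ, hκ.cj, ?_⟩
    rw [d1_cj hκ, ← e, cj2_wedge]
  have h02 : wedge b b' = 0 := part20 hX hΩ hε.conj hγ.conj hexc
  -- the (1,1)-part is exact
  have hσex : Ex2 (wedge a (cj b') - wedge a' (cj b)) := by
    have h1 := hex.sub (hε.wedge_ex hγ)
    have e : wedge ε γ - (wedge ε γ - wedge (a + cj b) (a' + cj b')) =
        wedge a (cj b') - wedge a' (cj b) := by
      funext x
      ext u v
      have e1 := congrArg (fun L => L u v) (congrFun h20 x)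
      have e2 := congrArg (fun L => (starRingEnd ℂ) (L u v)) (congrFun h02 x)
      simp only [wedge_apply, Pi.zero_apply, zero_apply, map_sub, map_mul, map_zero] at e1 e2
      simp only [Pi.sub_apply, Pi.add_apply, sub_apply, add_apply, wedge_apply, cj_apply]
      linear_combination e1 + e2
    rwa [e] at h1
  have hσ2 : S2 (wedge a (cj b') - wedge a' (cj b)) :=
    (S2.wedge hε.ha.1.1 hγ.hb.1.1.cj).sub (S2.wedge hγ.ha.1.1 hε.hb.1.1.cj)
  have hσcl : Cl2 (wedge a (cj b') - wedge a' (cj b)) := by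
    obtain ⟨κ, hκ, e⟩ := hσex
    rw [e]; exact Cl2.d1 hκ
  have hint : Int4 X Ω (wedge a (cj b') - wedge a' (cj b))
      (cj2 (wedge a (cj b') - wedge a' (cj b))) = 0 :=
    stokes_ex hcpt hΩ hσex hσ2.cj2 (Cl2.cj2 hσ2 hσcl)
  have hcj : ∀ x, cj2 (wedge a (cj b') - wedge a' (cj b)) x =
      wd (cv (a x)) (b' x) - wd (cv (a' x)) (b x) := by
    intro x
    ext u v
    rw [cj2_apply]
    simp only [Pi.sub_apply, sub_apply, wedge_apply, wd_apply, cj_apply,
      cv_apply, map_sub, map_mul, Complex.conj_conj]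
  have hsx : ∀ x, (wedge a (cj b') - wedge a' (cj b)) x =
      wd (a x) (cv (b' x)) - wd (a' x) (cv (b x)) := fun x => rfl
  have hz' : ∀ x, w4 (wd (a x) (cv (b' x)) - wd (a' x) (cv (b x)))
      (wd (cv (a x)) (b' x) - wd (cv (a' x)) (b x)) = 0 := by
    have h1 : ∀ x, 0 ≤ (w4 (((-1 : ℂ) • (wedge a (cj b') - wedge a' (cj b))) x)
        (cj2 (wedge a (cj b') - wedge a' (cj b)) x)).re ∧
        (w4 (((-1 : ℂ) • (wedge a (cj b') - wedge a' (cj b))) x)
        (cj2 (wedge a (cj b') - wedge a' (cj b)) x)).im = 0 := by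
      intro x
      have hs := sign_pt (a := a x) (a' := a' x) (b := b x) (b' := b' x) (hε.ha.2 x) (hγ.ha.2 x)
        (hε.hb.2 x) (hγ.hb.2 x) (congrFun h20 x) (congrFun h02 x)
      rw [hcj x, Pi.smul_apply, hsx x, w4_smul_left]
      constructor
      · simpa using hs.1
      · simpa using hs.2
    have h2 := Int4_eq_zero hcpt hΩ (hσ2.smul (-1 : ℂ)) hσ2.cj2 h1
      (by rw [Int4_smul_left, hint, mul_zero])
    intro x
    have h3 := h2 x
    rw [hcj x, Pi.smul_apply, hsx x, w4_smul_left] at h3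
    simpa using h3
  by_contra hne
  obtain ⟨x₀, hx₀⟩ : ∃ x, wd (a x) (b x) ≠ 0 := by
    by_contra h
    push Not at h
    exact hne (funext fun x => h x)
  set φ := chartAt (E 2) x₀ with hφdef
  have hφ : φ ∈ CA 2 X := chartAt_mem_CA x₀
  have hφr : φ ∈ RA 2 X := ra_of_ca hφ
  have hxs : x₀ ∈ φ.source := mem_chart_source (E 2) x₀
  -- coefficients
  have cA := fun v => hε.ha.coeff hφ v
  have cB := fun v => hε.hb.coeff hφ v
  have cA' := fun v => hγ.ha.coeff hφ v
  have cB' := fun v => hγ.hb.coeff hφ v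
  set Δ : E 2 → ℂ := fun z => loc1 φ a z ![1, 0] * loc1 φ b z ![0, 1] -
    loc1 φ a z ![0, 1] * loc1 φ b z ![1, 0] with hΔ
  have hΔd : DifferentiableOn ℂ Δ φ.target :=
    ((cA _).mul (cB _)).sub ((cA _).mul (cB _))
  have hT : ∀ {α : F1 2 X}, H1 α → ∀ z ∈ φ.target, T10 (loc1 φ α z) :=
    fun h z hz u => loc1_T10 h.2 hφ hz u
  have hΔ0 : Δ (φ x₀) ≠ 0 := by
    have h1 : wd (loc1 φ a (φ x₀)) (loc1 φ b (φ x₀)) ≠ 0 := by
      rw [hφdef, loc1_chartAt, loc1_chartAt]; exact hx₀
    exact SecS2.wd_ne_iff (hT hε.ha _ (φ.map_source hxs)) (hT hε.hb _ (φ.map_source hxs)) h1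
  obtain ⟨r, hr, hball⟩ : ∃ r > 0, ∀ z ∈ Metric.ball (φ x₀) r, z ∈ φ.target ∧ Δ z ≠ 0 := by
    have h1 : ∀ᶠ z in 𝓝 (φ x₀), z ∈ φ.target ∧ Δ z ≠ 0 := by
      have ht : φ.target ∈ 𝓝 (φ x₀) := φ.open_target.mem_nhds (φ.map_source hxs)
      have hc : ContinuousAt Δ (φ x₀) := (hΔd.differentiableAt ht).continuousAt
      exact (Filter.Eventually.and ht (hc.eventually_ne hΔ0))
    obtain ⟨r, hr, h⟩ := Metric.eventually_nhds_iff_ball.mp h1
    exact ⟨r, hr, h⟩
  have hbt : Metric.ball (φ x₀) r ⊆ φ.target := fun z hz => (hball z hz).1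
  set P : E 2 → ℂ := fun z => (loc1 φ a' z ![1, 0] * loc1 φ b z ![0, 1] -
    loc1 φ a' z ![0, 1] * loc1 φ b z ![1, 0]) / Δ z with hP
  set Q : E 2 → ℂ := fun z => (loc1 φ a z ![1, 0] * loc1 φ b' z ![0, 1] -
    loc1 φ a z ![0, 1] * loc1 φ b' z ![1, 0]) / Δ z with hQ
  have hPd : DifferentiableOn ℂ P (Metric.ball (φ x₀) r) :=
    ((((cA' _).mul (cB _)).sub ((cA' _).mul (cB _))).mono hbt).mul ((hΔd.mono hbt).inv
      fun z hz => (hball z hz).2)
  have hQd : DifferentiableOn ℂ Q (Metric.ball (φ x₀) r) :=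
    ((((cA _).mul (cB' _)).sub ((cA _).mul (cB' _))).mono hbt).mul ((hΔd.mono hbt).inv
      fun z hz => (hball z hz).2)
  -- the proportionality at a point
  have hwl : ∀ (α β : F1 2 X), wedge α β = 0 → ∀ z, loc1 φ α z ![1, 0] * loc1 φ β z ![0, 1] -
      loc1 φ α z ![0, 1] * loc1 φ β z ![1, 0] = 0 := by
    intro α β h z
    rw [← loc2_wedge, h]
    simp [loc2]
  have hPa : ∀ z ∈ Metric.ball (φ x₀) r, loc1 φ a' z = P z • loc1 φ a z := fun z hz =>
    SecS2.prop_left (b := loc1 φ b z) (hT hε.ha z (hbt hz)) (hT hγ.ha z (hbt hz))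
      (hwl a a' h20 z) (hball z hz).2
  have hQb : ∀ z ∈ Metric.ball (φ x₀) r, loc1 φ b' z = Q z • loc1 φ b z := fun z hz =>
    SecS2.prop_right (a := loc1 φ a z) (hT hε.hb z (hbt hz)) (hT hγ.hb z (hbt hz))
      (hwl b b' h02 z) (hball z hz).2
  -- the same at points of X
  have hPx : ∀ z ∈ Metric.ball (φ x₀) r, a' (φ.symm z) = P z • a (φ.symm z) := by
    intro z hz
    have hs := φ.map_target (hbt hz)
    rw [eq_of_loc1 hφr hs a', eq_of_loc1 hφr hs a, φ.right_inv (hbt hz), hPa z hz]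
    rfl
  have hQx : ∀ z ∈ Metric.ball (φ x₀) r, b' (φ.symm z) = Q z • b (φ.symm z) := by
    intro z hz
    have hs := φ.map_target (hbt hz)
    rw [eq_of_loc1 hφr hs b', eq_of_loc1 hφr hs b, φ.right_inv (hbt hz), hQb z hz]
    rfl
  have hPQ : ∀ z ∈ Metric.ball (φ x₀) r, P z = (starRingEnd ℂ) (Q z) := by
    intro z hz
    have hab : wd (a (φ.symm z)) (b (φ.symm z)) ≠ 0 := by
      intro h0
      apply (hball z hz).2
      have h1 : loc2 φ (wedge a b) z ![1, 0] ![0, 1] = 0 := by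
        rw [loc2]
        have : wedge a b (φ.symm z) = 0 := h0
        rw [this]; simp
      rw [loc2_wedge] at h1
      exact h1
    have h1 := hz' (φ.symm z)
    rw [hPx z hz, hQx z hz] at h1
    exact SecS2.factor_eq (hε.ha.2 _) (hε.hb.2 _) hab h1
  have hconst := SecS2.const_of_conj hPd hQd hPQ
  set l := P (φ x₀) with hl
  have hx₀b : φ x₀ ∈ Metric.ball (φ x₀) r := Metric.mem_ball_self hr
  have hQc : ∀ z ∈ Metric.ball (φ x₀) r, Q z = (starRingEnd ℂ) l := by
    intro z hz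
    have h1 := hPQ z hz
    rw [hconst z hz] at h1
    rw [h1, Complex.conj_conj]
  -- the open set
  have hUo : IsOpen (φ.source ∩ φ ⁻¹' Metric.ball (φ x₀) r) :=
    φ.isOpen_inter_preimage Metric.isOpen_ball
  have hUn : (φ.source ∩ φ ⁻¹' Metric.ball (φ x₀) r).Nonempty := ⟨x₀, hxs, hx₀b⟩
  have ha' : a' = l • a := by
    have h1 : H1 (a' + (-l) • a) := hγ.ha.add (hε.ha.smul _)
    have h2 := h1.eq_zero_of_open hUo hUn (by
      rintro x ⟨hx, hxb⟩
      have h3 := hPx (φ x) hxb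
      rw [φ.left_inv hx, hconst _ hxb] at h3
      rw [Pi.add_apply, Pi.smul_apply, h3]
      ext u
      simp only [add_apply, smul_apply, zero_apply, smul_eq_mul]
      ring)
    funext x
    have h3 := congrFun h2 x
    ext u
    have h4 := congrArg (fun L => L u) h3
    simp only [Pi.add_apply, Pi.smul_apply, add_apply, smul_apply, Pi.zero_apply, zero_apply,
      smul_eq_mul] at h4
    simp only [Pi.smul_apply, smul_apply, smul_eq_mul]
    linear_combination h4
  have hb' : b' = (starRingEnd ℂ) l • b := by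
    have h1 : H1 (b' + (-(starRingEnd ℂ) l) • b) := hγ.hb.add (hε.hb.smul _)
    have h2 := h1.eq_zero_of_open hUo hUn (by
      rintro x ⟨hx, hxb⟩
      have h3 := hQx (φ x) hxb
      rw [φ.left_inv hx, hQc _ hxb] at h3
      rw [Pi.add_apply, Pi.smul_apply, h3]
      ext u
      simp only [add_apply, smul_apply, zero_apply, smul_eq_mul]
      ring)
    funext x
    have h3 := congrFun h2 x
    ext u
    have h4 := congrArg (fun L => L u) h3
    simp only [Pi.add_apply, Pi.smul_apply, add_apply, smul_apply, Pi.zero_apply, zero_apply,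
      smul_eq_mul] at h4
    simp only [Pi.smul_apply, smul_apply, smul_eq_mul]
    linear_combination h4
  -- the function
  have hfs : S0 2 f := hε.hf
  have hgs : S0 2 g := hγ.hf
  have hS : S0 2 (fun x => g x + (-l) * f x) := SecS2.S0.lin hfs hgs (-l)
  apply hind l (fun x => g x + (-l) * f x) hS
  funext x
  ext u
  have hd : d0 2 (fun x => g x + (-l) * f x) x u = d0 2 g x u + (-l) * d0 2 f x u :=
    SecS2.d0_lin hfs hgs (-l) x u
  have e1 : γ x u = l * a x u + l * (starRingEnd ℂ) (b x u) + d0 2 g x u := by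
    rw [hγ.eq, ha', hb']
    simp only [Pi.add_apply, Pi.smul_apply, add_apply, smul_apply, cj_apply, smul_eq_mul, map_mul,
      Complex.conj_conj]
  have e2 : ε x u = a x u + (starRingEnd ℂ) (b x u) + d0 2 f x u := by
    rw [hε.eq]
    simp only [Pi.add_apply, add_apply, cj_apply]
  rw [e1]
  simp only [Pi.add_apply, Pi.smul_apply, add_apply, smul_apply, smul_eq_mul]
  rw [e2, hd]
  ring

end

end Pool.Agent.K708
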