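import Pool.Agent.Lib.K708.SecS1

/-! # K708: section S, the alternative and the energy -/

set_option autoImplicit false

open scoped Manifold ContDiff Topology
open Set

noncomputable section

namespace Pool.Agent.K708

namespace SecS3

open SecS1

variable {X : CMfd 2} {Ω : F2 2 X}

/-- Replace a factor by a cohomologous one. -/
theorem Int4_congr_left (hX : CptConn X) (hΩ : Kah Ω) {σ σ' τ : F2 2 X} (hσ : S2 σ)
    (hσ' : S2 σ') (hτ : S2 τ) (hcl : Cl2 τ) (hex : Ex2 (σ - σ')) :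
    Int4 X Ω σ τ = Int4 X Ω σ' τ := by
  have h := stokes_ex hX.cpt hΩ hex hτ hcl
  rw [Int4_sub_left hX.cpt hΩ hσ hσ' hτ] at h
  exact sub_eq_zero.mp h

theorem bil_add_zero (B : Bil 2) : B + 0 = B := by
  ext u v
  simp only [add_apply, zero_apply, add_zero]

theorem bil_zero_add (B : Bil 2) : 0 + B = B := by
  ext u v
  simp only [add_apply, zero_apply, zero_add]

theorem wd_swap_zero {a b : Cov 2} (h : wd a b = 0) : wd b a = 0 := by
  ext u v
  have h1 : wd a b u v = 0 := by rw [h]; simp only [zero_apply]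
  rw [wd_apply] at h1
  simp only [wd_apply, zero_apply]
  linear_combination -h1

theorem wedge_swap_zero {a b : F1 2 X} (h : wedge a b = 0) : wedge b a = 0 := by
  funext x
  exact wd_swap_zero (congrFun h x)

/-- The product `(a + b̄) ∧ (b + ā)`. -/
theorem prod_pt (a b : Cov 2) :
    wd (a + cv b) (b + cv a) = wd a b + wd (cv b) (cv a) + (wd a (cv a) - wd b (cv b)) := by
  ext u v
  simp only [wd_apply, add_apply, sub_apply]
  ring

theorem wd_cv (a b : Cov 2) (h : wd a b = 0) : wd (cv b) (cv a) = 0 := by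
  ext u v
  have h2 : wd a b v u = 0 := by rw [h]; simp
  have h3 := congrArg (starRingEnd ℂ) h2
  rw [wd_apply] at h3
  simp only [map_sub, map_mul, map_zero] at h3
  simp only [wd_apply, cv_apply]
  simp only [zero_apply]
  linear_combination h3

theorem w4_cross {a b c d : Cov 2} (h : wd a c = 0) : w4 (wd a b) (wd c d) = 0 := by
  rw [w4_swap, h, w4_zero_left', neg_zero]

/-- A (1,0)-covector whose products with two independent ones vanish is zero. -/
theorem zero_of_indep {a c b : Cov 2} (ha : T10 a) (hc : T10 c) (hb : T10 b) (hac : wd a c ≠ 0)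
    (h1 : wd a b = 0) (h2 : wd c b = 0) : b = 0 := by
  have ha0 : a ≠ 0 := by
    rintro rfl
    exact hac (wd_zero_left _)
  obtain ⟨s, rfl⟩ := wd_eq_zero_iff ha hb ha0 h1
  by_cases hs : s = 0
  · ext u
    simp [hs]
  · exfalso
    apply hac
    ext u v
    have h3 : wd c (s • a) v u = 0 := by rw [h2]; simp only [zero_apply]
    rw [wd_apply] at h3
    simp only [smul_apply, smul_eq_mul] at h3
    have h4 : s * wd a c u v = 0 := by
      rw [wd_apply]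
      linear_combination h3
    rcases mul_eq_zero.mp h4 with h5 | h5
    · exact absurd h5 hs
    · rw [h5]
      simp only [zero_apply]

/-- If `a ∧ c` is not identically zero and `b` has product zero with `a` and `c` then `b = 0`. -/
theorem H1_zero_of_indep (hX : CptConn X) (hΩ : Kah Ω) {a c b : F1 2 X} (ha : H1 a) (hc : H1 c)
    (hb : H1 b) {x₀ : X} (hac : wd (a x₀) (c x₀) ≠ 0) (h1 : wedge a b = 0) (h2 : wedge c b = 0) :
    b = 0 := by
  have := hX.conn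
  have hcont : Continuous fun x => w4 (wedge a c x) (wedge (cj a) (cj c) x) / w4 (Ω x) (Ω x) :=
    continuous_w4_ratio hΩ (S2.wedge ha.1.1 hc.1.1) (S2.wedge ha.1.1.cj hc.1.1.cj)
  have hopen : IsOpen {x | w4 (wedge a c x) (wedge (cj a) (cj c) x) / w4 (Ω x) (Ω x) ≠ 0} :=
    isOpen_ne.preimage hcont
  refine H1.eq_zero_of_open hb hopen ⟨x₀, ?_⟩ ?_
  · show w4 (wd (a x₀) (c x₀)) (wd (cv (a x₀)) (cv (c x₀))) / w4 (Ω x₀) (Ω x₀) ≠ 0
    refine div_ne_zero ?_ ?_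
    · intro h
      exact hac (w4_quad_eq_zero (ha.2 x₀) (hc.2 x₀) h)
    · intro h
      have := (w4_pkah_pos (hΩ.pkah x₀)).1
      rw [h] at this
      simp at this
  · intro x hx
    have hx2 : wd (a x) (c x) ≠ 0 := by
      intro h
      apply hx
      show w4 (wd (a x) (c x)) (wd (cv (a x)) (cv (c x))) / w4 (Ω x) (Ω x) = 0
      rw [h, w4_zero_left', zero_div]
    exact zero_of_indep (ha.2 x) (hc.2 x) (hb.2 x) hx2 (congrFun h1 x) (congrFun h2 x)

end SecS3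

open SecS1 SecS3

section

variable {X : CMfd 2} {Ω : F2 2 X}

/-- The algebra: from the four relations to `b₀ = b₁ = 0` or `a₀ = a₁ = 0`. -/
theorem alternative (hX : CptConn X) (hΩ : Kah Ω) {e₀ e₁ a₀ b₀ a₁ b₁ : F1 2 X} {f₀ f₁ : X → ℂ}
    (h₀ : Dec e₀ a₀ b₀ f₀) (h₁ : Dec e₁ a₁ b₁ f₁) (r0 : wedge a₀ b₀ = 0) (r1 : wedge a₁ b₁ = 0)
    (r2 : wedge (a₀ + a₁) (b₀ + b₁) = 0)
    (r3 : wedge (a₀ + Complex.I • a₁) (b₀ - Complex.I • b₁) = 0)
    (hI : Int4 X Ω (wedge e₀ (cj e₀)) (wedge e₁ (cj e₁)) ≠ 0) :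
    (b₀ = 0 ∧ b₁ = 0) ∨ (a₀ = 0 ∧ a₁ = 0) := by
  have hI2 : Complex.I * Complex.I = -1 := Complex.I_mul_I
  have s1 : wedge a₀ b₁ + wedge a₁ b₀ = 0 := by
    funext x
    have h0 : wd (a₀ x) (b₀ x) = 0 := congrFun r0 x
    have h1 : wd (a₁ x) (b₁ x) = 0 := congrFun r1 x
    have h2 : wd (a₀ x + a₁ x) (b₀ x + b₁ x) = 0 := congrFun r2 x
    show wd (a₀ x) (b₁ x) + wd (a₁ x) (b₀ x) = 0
    rw [wd_add_left, wd_add_right, wd_add_right, h0, h1, bil_add_zero, bil_zero_add] at h2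
    exact h2
  have s2 : wedge a₁ b₀ = wedge a₀ b₁ := by
    funext x
    ext u v
    have h0 : wd (a₀ x) (b₀ x) = 0 := congrFun r0 x
    have h1 : wd (a₁ x) (b₁ x) = 0 := congrFun r1 x
    have h2 : wd (a₀ x + Complex.I • a₁ x) (b₀ x - Complex.I • b₁ x) = 0 := congrFun r3 x
    have k0 : wd (a₀ x) (b₀ x) u v = 0 := by rw [h0]; simp only [zero_apply]
    have k1 : wd (a₁ x) (b₁ x) u v = 0 := by rw [h1]; simp only [zero_apply]
    have k2 : wd (a₀ x + Complex.I • a₁ x) (b₀ x - Complex.I • b₁ x) u v = 0 := by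
      rw [h2]; simp only [zero_apply]
    rw [wd_apply] at k0 k1 k2
    simp only [add_apply, sub_apply, smul_apply, smul_eq_mul] at k2
    have h3 : Complex.I * (wedge a₁ b₀ x u v - wedge a₀ b₁ x u v) = 0 := by
      rw [wedge_apply, wedge_apply]
      linear_combination k2 - k0 - k1 + (a₁ x u * b₁ x v - a₁ x v * b₁ x u) * hI2
    rcases mul_eq_zero.mp h3 with h4 | h4
    · exact absurd h4 Complex.I_ne_zero
    · exact sub_eq_zero.mp h4
  have c01 : wedge a₀ b₁ = 0 := by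
    rw [s2] at s1
    funext x
    ext u v
    have h3 : wedge a₀ b₁ x + wedge a₀ b₁ x = 0 := congrFun s1 x
    have h4 : (wedge a₀ b₁ x + wedge a₀ b₁ x) u v = 0 := by rw [h3]; simp only [zero_apply]
    simp only [add_apply] at h4
    have h5 : (2 : ℂ) * wedge a₀ b₁ x u v = 0 := by linear_combination h4
    rcases mul_eq_zero.mp h5 with h6 | h6
    · exact absurd h6 two_ne_zero
    · rw [h6]
      rfl
  have c10 : wedge a₁ b₀ = 0 := by rw [s2, c01]
  -- a non zero product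
  have key : (∃ x, wd (a₀ x) (a₁ x) ≠ 0) ∨ (∃ x, wd (b₀ x) (b₁ x) ≠ 0) := by
    by_contra hcon
    push Not at hcon
    obtain ⟨ka, kb⟩ := hcon
    apply hI
    have dA : H1 a₀ := h₀.ha
    have hW0 : S2 (wedge (a₀ + cj b₀) (b₀ + cj a₀)) :=
      S2.wedge (h₀.ha.1.1.add h₀.hb.1.1.cj) (h₀.hb.1.1.add h₀.ha.1.1.cj)
    have hW1 : S2 (wedge (a₁ + cj b₁) (b₁ + cj a₁)) :=
      S2.wedge (h₁.ha.1.1.add h₁.hb.1.1.cj) (h₁.hb.1.1.add h₁.ha.1.1.cj)
    have cW0 : Cl2 (wedge (a₀ + cj b₀) (b₀ + cj a₀)) :=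
      Cl2.wedge (h₀.ha.1.add h₀.hb.1.cj) (h₀.hb.1.add h₀.ha.1.cj)
    rw [Int4_congr_left hX hΩ (S2.wedge h₀.c1.1 h₀.c1.1.cj) hW0 (S2.wedge h₁.c1.1 h₁.c1.1.cj)
      (Cl2.wedge h₁.c1 h₁.c1.cj) (h₀.wedge_ex h₀.conj), Int4_comm,
      Int4_congr_left hX hΩ (S2.wedge h₁.c1.1 h₁.c1.1.cj) hW1 hW0 cW0 (h₁.wedge_ex h₁.conj)]
    apply Int4_of_zero
    intro x
    show w4 (wd (a₁ x + cv (b₁ x)) (b₁ x + cv (a₁ x))) (wd (a₀ x + cv (b₀ x)) (b₀ x + cv (a₀ x)))
      = 0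
    have q0 : wd (a₀ x) (b₀ x) = 0 := congrFun r0 x
    have q1 : wd (a₁ x) (b₁ x) = 0 := congrFun r1 x
    have q2 : wd (a₀ x) (b₁ x) = 0 := congrFun c01 x
    have q3 : wd (a₁ x) (b₀ x) = 0 := congrFun c10 x
    have q4 : wd (b₁ x) (a₀ x) = 0 := wd_swap_zero q2
    rw [prod_pt, prod_pt, q0, q1, wd_cv _ _ q0, wd_cv _ _ q1, bil_add_zero, bil_zero_add,
      bil_zero_add, w4_sub_left, w4_sub_right, w4_sub_right, w4_cross q3, w4_cross q4]
    have q5 : wd (a₁ x) (a₀ x) = 0 := wd_swap_zero (ka x)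
    have q6 : wd (b₁ x) (b₀ x) = 0 := wd_swap_zero (kb x)
    rw [w4_cross q5, w4_cross q6]
    simp
  rcases key with ⟨x₀, hx₀⟩ | ⟨x₀, hx₀⟩
  · left
    exact ⟨H1_zero_of_indep hX hΩ h₀.ha h₁.ha h₀.hb hx₀ r0 c10,
      H1_zero_of_indep hX hΩ h₀.ha h₁.ha h₁.hb hx₀ c01 r1⟩
  · right
    have t0 : wedge b₀ a₀ = 0 := wedge_swap_zero r0
    have t1 : wedge b₁ a₁ = 0 := wedge_swap_zero r1
    have t2 : wedge b₀ a₁ = 0 := wedge_swap_zero c10
    have t3 : wedge b₁ a₀ = 0 := wedge_swap_zero c01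
    exact ⟨H1_zero_of_indep hX hΩ h₀.hb h₁.hb h₀.ha hx₀ t0 t3,
      H1_zero_of_indep hX hΩ h₀.hb h₁.hb h₁.ha hx₀ t2 t1⟩

/-- The energy of `a + b̄ + df`. -/
theorem energy_eq (hX : CptConn X) (hΩ : Kah Ω) {e a b : F1 2 X} {f : X → ℂ} (h : Dec e a b f) :
    Int4 X Ω (Complex.I • wedge e (cj e)) Ω =
      Int4 X Ω (Complex.I • wedge a (cj a)) Ω - Int4 X Ω (Complex.I • wedge b (cj b)) Ω := by
  have hs : S2 (wedge (a + cj b) (b + cj a)) :=
    S2.wedge (h.ha.1.1.add h.hb.1.1.cj) (h.hb.1.1.add h.ha.1.1.cj)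
  have hex : Ex2 (Complex.I • wedge e (cj e) - Complex.I • wedge (a + cj b) (b + cj a)) := by
    have h1 := (h.wedge_ex h.conj).smul Complex.I
    have h2 : Complex.I • wedge e (cj e) - Complex.I • wedge (a + cj b) (b + cj a) =
        Complex.I • (wedge e (cj e) - wedge (a + cj b) (b + cj a)) := by
      funext x
      ext u v
      show Complex.I * wedge e (cj e) x u v - Complex.I * wedge (a + cj b) (b + cj a) x u v =
        Complex.I * (wedge e (cj e) x u v - wedge (a + cj b) (b + cj a) x u v)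
      ring
    rwa [h2]
  rw [Int4_congr_left hX hΩ ((S2.wedge h.c1.1 h.c1.1.cj).smul _) (hs.smul _) hΩ.s2 hΩ.cl hex]
  have ha2 : S2 (Complex.I • wedge a (cj a)) := (S2.wedge h.ha.1.1 h.ha.1.1.cj).smul _
  have hb2 : S2 (Complex.I • wedge b (cj b)) := (S2.wedge h.hb.1.1 h.hb.1.1.cj).smul _
  rw [← Int4_sub_left hX.cpt hΩ ha2 hb2 hΩ.s2]
  unfold Int4
  refine MeasureTheory.integral_congr_ae (Filter.Eventually.of_forall fun x => ?_)
  have Ta : T10 (a x) := h.ha.2 x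
  have Tb : T10 (b x) := h.hb.2 x
  have PK := hΩ.pkah x
  show w4 (Complex.I • wd (a x + cv (b x)) (b x + cv (a x))) (Ω x) / w4 (Ω x) (Ω x) =
    w4 (Complex.I • wd (a x) (cv (a x)) - Complex.I • wd (b x) (cv (b x))) (Ω x) /
      w4 (Ω x) (Ω x)
  rw [prod_pt, w4_smul_left, w4_add_left, w4_add_left, w4_T10_T11 Ta Tb PK.alt PK.inv,
    w4_T01_T11 Tb Ta PK.alt PK.inv, w4_sub_left, w4_sub_left, w4_smul_left, w4_smul_left]
  ring

theorem energy_nonneg (hX : CptConn X) (hΩ : Kah Ω) {a : F1 2 X} (h : H1 a) :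
    0 ≤ (Int4 X Ω (Complex.I • wedge a (cj a)) Ω).re := by
  refine (Int4_nonneg hX.cpt hΩ ((S2.wedge h.1.1 h.1.1.cj).smul _) hΩ.s2 fun x => ?_).1
  exact w4_energy_nonneg (h.2 x) (hΩ.pkah x)

end

end Pool.Agent.K708
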