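import Pool.Agent.Lib.K708.Hodge
import Pool.Agent.Lib.K708.SecS2
import Pool.Agent.Lib.K708.SecS3

/-! # K708: section S, the algebra on one fibre -/

set_option autoImplicit false

open scoped Manifold ContDiff Topology
open Set

noncomputable section

namespace Pool.Agent.K708

namespace SecS

variable {X : CMfd 2} {Ω : F2 2 X}

theorem H1_sub {a b : F1 2 X} (ha : H1 a) (hb : H1 b) : H1 (a - b) := by
  have h := ha.add (hb.smul (-1))
  have e : a - b = a + (-1 : ℂ) • b := by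
    funext x
    ext u
    show a x u - b x u = a x u + (-1 : ℂ) * b x u
    ring
  rw [e]
  exact h

theorem d0_add {f g : X → ℂ} (hf : S0 2 f) (hg : S0 2 g) :
    d0 2 (fun x => f x + g x) = d0 2 f + d0 2 g := by
  funext x
  have h1 : MDifferentiableAt 𝓘(ℝ, E 2) 𝓘(ℝ, ℂ) f x := (hf x).mdifferentiableAt (by simp)
  have h2 : MDifferentiableAt 𝓘(ℝ, E 2) 𝓘(ℝ, ℂ) g x := (hg x).mdifferentiableAt (by simp)
  exact (h1.hasMFDerivAt.add h2.hasMFDerivAt).mfderiv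

theorem S0_smul (c : ℂ) {f : X → ℂ} (hf : S0 2 f) : S0 2 (fun x => c * f x) := by
  have h : ContMDiff 𝓘(ℝ, ℂ) 𝓘(ℝ, ℂ) ∞ (fun z : ℂ => c * z) :=
    (contDiff_const.mul contDiff_id).contMDiff
  exact h.comp hf

theorem d0_smul (c : ℂ) {f : X → ℂ} (hf : S0 2 f) :
    d0 2 (fun x => c * f x) = c • d0 2 f := by
  funext x
  have h1 : MDifferentiableAt 𝓘(ℝ, E 2) 𝓘(ℝ, ℂ) f x := (hf x).mdifferentiableAt (by simp)
  let L : ℂ →L[ℝ] ℂ := (ContinuousLinearMap.mul ℝ ℂ) c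
  have h2 : MDifferentiableAt 𝓘(ℝ, ℂ) 𝓘(ℝ, ℂ) (L : ℂ → ℂ) (f x) := L.mdifferentiableAt
  have h3 := mfderiv_comp x h2 h1
  have h4 : mfderiv 𝓘(ℝ, ℂ) 𝓘(ℝ, ℂ) (L : ℂ → ℂ) (f x) = L := by
    rw [mfderiv_eq_fderiv]
    exact L.fderiv
  show mfderiv 𝓘(ℝ, E 2) 𝓘(ℝ, ℂ) (fun x => c * f x) x = _
  have h5 : (fun x => c * f x) = (L : ℂ → ℂ) ∘ f := by
    funext y
    simp [L]
  rw [h5, h3, h4]
  rfl

theorem Dec_add {α a b β p q : F1 2 X} {f g : X → ℂ} (h : Dec α a b f) (h' : Dec β p q g) :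
    Dec (α + β) (a + p) (b + q) (fun x => f x + g x) := by
  refine ⟨h.ha.add h'.ha, h.hb.add h'.hb, ContMDiff.add h.hf h'.hf, ?_⟩
  rw [h.eq, h'.eq, cj_add, d0_add h.hf h'.hf]
  abel

theorem Dec_Ismul {α a b : F1 2 X} {f : X → ℂ} (h : Dec α a b f) :
    Dec (Complex.I • α) (Complex.I • a) ((-Complex.I) • b) (fun x => Complex.I * f x) := by
  refine ⟨h.ha.smul _, h.hb.smul _, S0_smul _ h.hf, ?_⟩
  rw [h.eq, d0_smul _ h.hf]
  funext x
  ext u
  show Complex.I * (a x u + (starRingEnd ℂ) (b x u) + d0 2 f x u) =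
    Complex.I * a x u + (starRingEnd ℂ) (-Complex.I * b x u) + Complex.I * d0 2 f x u
  rw [map_mul, map_neg, Complex.conj_I]
  ring

end SecS

open SecS

/-- Section S. -/
theorem holo_of_PD (X : CMfd 2) (hX : CptConn X) (Ω : F2 2 X) (hΩ : Kah Ω) (c : ℝ) (hc : 0 < c)
    (h : PD X Ω c) :
    ∃ (F : X → Tor) (a : F1 2 X), TF F a ∧ H1 a ∧
      Int4 X Ω (Complex.I • wedge a (cj a)) Ω = c := by
  obtain ⟨e, γ, F, hj, hF, h2, h3, hI, hE⟩ := h
  obtain ⟨a₀, b₀, f₀, ha₀, hb₀, hf₀, he₀⟩ := hodge X hX Ω hΩ (e 0) (hj 0).1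
  obtain ⟨a₁, b₁, f₁, ha₁, hb₁, hf₁, he₁⟩ := hodge X hX Ω hΩ (e 1) (hj 1).1
  have d₀ : Dec (e 0) a₀ b₀ f₀ := ⟨ha₀, hb₀, hf₀, he₀⟩
  have d₁ : Dec (e 1) a₁ b₁ f₁ := ⟨ha₁, hb₁, hf₁, he₁⟩
  have hγ : ∀ j, ∃ (a' b' : F1 2 X) (g : X → ℂ), Dec (γ j) a' b' g := by
    intro j
    obtain ⟨a', b', g, h1, h2, h3, h4⟩ := hodge X hX Ω hΩ (γ j) (hj j).2.1
    exact ⟨a', b', g, h1, h2, h3, h4⟩
  have hex : ∀ j, Ex2 (wedge (e j) (γ j)) := by
    intro j
    rw [(hj j).2.2.1]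
    exact ⟨0, S1.zero, by
      have h1 : d1 (0 : F1 2 X) = 0 := by
        have := d1_smul (0 : ℂ) (S1.zero (M := X) (n := 2))
        have e1 : (0 : ℂ) • (0 : F1 2 X) = 0 := by
          funext x
          ext u
          show (0 : ℂ) * 0 = 0
          ring
        rw [e1] at this
        rw [this]
        funext x
        ext u v
        show (0 : ℂ) * _ = 0
        ring
      exact h1.symm⟩
  have key : ∀ j (a b : F1 2 X) (f : X → ℂ), Dec (e j) a b f → wedge a b = 0 := by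
    intro j a b f hd
    obtain ⟨a', b', g, hg⟩ := hγ j
    exact cross_zero hX hΩ hd hg (hex j) (hj j).2.2.2
  have r0 := key 0 _ _ _ d₀
  have r1 := key 1 _ _ _ d₁
  have d₂ : Dec (e 2) (a₀ + a₁) (b₀ + b₁) (fun x => f₀ x + f₁ x) := by
    rw [h2]
    exact Dec_add d₀ d₁
  have d₃ : Dec (e 3) (a₀ + Complex.I • a₁) (b₀ + (-Complex.I) • b₁)
      (fun x => f₀ x + Complex.I * f₁ x) := by
    rw [h3]
    exact Dec_add d₀ (Dec_Ismul d₁)
  have r2 := key 2 _ _ _ d₂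
  have r3 := key 3 _ _ _ d₃
  have hb3 : b₀ + (-Complex.I) • b₁ = b₀ - Complex.I • b₁ := by
    funext x
    ext u
    show b₀ x u + (-Complex.I) * b₁ x u = b₀ x u - Complex.I * b₁ x u
    ring
  rw [hb3] at r3
  have hE0 := energy_eq (Ω := Ω) hX hΩ d₀
  have hz : Int4 X Ω (Complex.I • wedge (0 : F1 2 X) (cj 0)) Ω = 0 := by
    apply Int4_of_zero
    intro x
    have : (Complex.I • wedge (0 : F1 2 X) (cj 0)) x = 0 := by
      ext u v
      show Complex.I * (0 * _ - 0 * _) = 0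
      ring
    rw [this]
    simp [w4]
  rcases alternative hX hΩ d₀ d₁ r0 r1 r2 r3 hI with ⟨hb0, -⟩ | ⟨ha0, -⟩
  · refine ⟨fun x => F x - QuotientAddGroup.mk (f₀ x), a₀, ?_, ha₀, ?_⟩
    · have h1 := hF.sub_fun hf₀
      have h2 : e 0 - d0 2 f₀ = a₀ := by
        rw [he₀, hb0]
        funext x
        ext u
        show a₀ x u + (starRingEnd ℂ) 0 + d0 2 f₀ x u - d0 2 f₀ x u = a₀ x u
        rw [map_zero]
        ring
      rwa [h2] at h1
    · rw [hb0, hz, sub_zero, hE] at hE0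
      exact hE0.symm
  · exfalso
    rw [ha0, hz, hE] at hE0
    have h4 := energy_nonneg (Ω := Ω) hX hΩ hb₀
    have h5 := congrArg Complex.re hE0
    simp only [Complex.ofReal_re, Complex.sub_re, Complex.zero_re] at h5
    linarith

end Pool.Agent.K708
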