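import Pool.Agent.Lib.K708.Stk
import Pool.Agent.Lib.K708.FcHol

/-! # K708: section S, decompositions and (2,0)-parts -/

set_option autoImplicit false

open scoped Manifold ContDiff Topology
open Set

noncomputable section

namespace Pool.Agent.K708

namespace SecS1

theorem wd_smul_left {n : ℕ} (c : ℂ) (a b : Cov n) : wd (c • a) b = c • wd a b := by
  ext u v
  simp only [wd_apply, smul_apply, smul_eq_mul]
  ring

theorem wd_smul_right {n : ℕ} (c : ℂ) (a b : Cov n) : wd a (c • b) = c • wd a b := by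
  ext u v
  simp only [wd_apply, smul_apply, smul_eq_mul]
  ring

theorem wd_add_left {n : ℕ} (a a' b : Cov n) : wd (a + a') b = wd a b + wd a' b := by
  ext u v
  simp only [wd_apply, add_apply]
  ring

theorem wd_add_right {n : ℕ} (a b b' : Cov n) : wd a (b + b') = wd a b + wd a b' := by
  ext u v
  simp only [wd_apply, add_apply]
  ring

theorem wd_swap {n : ℕ} (a b : Cov n) : wd a b = - wd b a := by
  ext u v
  simp only [wd_apply, neg_apply]
  ring

theorem cv_smul {n : ℕ} (c : ℂ) (a : Cov n) : cv (c • a) = (starRingEnd ℂ) c • cv a := by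
  ext u
  simp only [cv_apply, smul_apply, smul_eq_mul, map_mul]

theorem cv_zero {n : ℕ} : cv (0 : Cov n) = 0 := by
  ext u
  simp [cv_apply]

theorem wd_zero_left {n : ℕ} (b : Cov n) : wd 0 b = 0 := by
  ext u v
  simp [wd_apply]

theorem wd_zero_right {n : ℕ} (b : Cov n) : wd b 0 = 0 := by
  ext u v
  simp [wd_apply]

/-- The conjugate of a product of conjugates. -/
theorem cv_cv {n : ℕ} (a : Cov n) : cv (cv a) = a := by
  ext u
  simp [cv_apply]

theorem w4_zero_left' (C : Bil 2) : w4 0 C = 0 := by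
  simp [w4]

theorem w4_zero_right' (C : Bil 2) : w4 C 0 = 0 := by
  rw [w4_comm, w4_zero_left']

/-- Two (1,0)-covectors with product zero are multiples of one. -/
theorem common {a a' : Cov 2} (ha : T10 a) (ha' : T10 a') (h : wd a a' = 0) :
    ∃ (u : Cov 2) (s s' : ℂ), T10 u ∧ a = s • u ∧ a' = s' • u := by
  by_cases h0 : a = 0
  · exact ⟨a', 0, 1, ha', by rw [h0]; ext u; simp, by ext u; simp⟩
  · obtain ⟨s, hs⟩ := wd_eq_zero_iff ha ha' h0 h
    exact ⟨a, 1, s, ha, by simp, hs⟩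

/-- Conjugation of functions and `d`. -/
theorem d0_conj {n : ℕ} {M : Type*} [TopologicalSpace M] [ChartedSpace (E n) M]
    {f : M → ℂ} (hf : S0 n f) :
    d0 n (fun x => (starRingEnd ℂ) (f x)) = cj (d0 n f) := by
  funext x
  have h1 : MDifferentiableAt 𝓘(ℝ, E n) 𝓘(ℝ, ℂ) f x :=
    (hf x).mdifferentiableAt (by simp)
  have h2 : MDifferentiableAt 𝓘(ℝ, ℂ) 𝓘(ℝ, ℂ) (Complex.conjCLE : ℂ → ℂ) (f x) :=
    (Complex.conjCLE : ℂ →L[ℝ] ℂ).mdifferentiableAt
  have h3 := mfderiv_comp x h2 h1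
  have h4 : mfderiv 𝓘(ℝ, ℂ) 𝓘(ℝ, ℂ) (Complex.conjCLE : ℂ → ℂ) (f x) =
      (Complex.conjCLE : ℂ →L[ℝ] ℂ) := by
    rw [mfderiv_eq_fderiv]
    exact (Complex.conjCLE : ℂ →L[ℝ] ℂ).fderiv
  show mfderiv 𝓘(ℝ, E n) 𝓘(ℝ, ℂ) (fun x => (starRingEnd ℂ) (f x)) x = _
  have h5 : (fun x => (starRingEnd ℂ) (f x)) = (Complex.conjCLE : ℂ → ℂ) ∘ f := by
    funext y
    simp
  rw [h5, h3, h4]
  rfl

theorem S0_conj {n : ℕ} {M : Type*} [TopologicalSpace M] [ChartedSpace (E n) M]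
    {f : M → ℂ} (hf : S0 n f) : S0 n (fun x => (starRingEnd ℂ) (f x)) := by
  have h : ContMDiff 𝓘(ℝ, ℂ) 𝓘(ℝ, ℂ) ∞ (Complex.conjCLE : ℂ → ℂ) :=
    (Complex.conjCLE : ℂ →L[ℝ] ℂ).contMDiff
  have h2 := h.comp hf
  have h5 : (fun x => (starRingEnd ℂ) (f x)) = (Complex.conjCLE : ℂ → ℂ) ∘ f := by
    funext y
    simp
  rw [S0, h5]
  exact h2

end SecS1

open SecS1

/-- `α = a + b̄ + df`. -/
structure Dec {X : CMfd 2} (α a b : F1 2 X) (f : X → ℂ) : Prop where
  ha : H1 a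
  hb : H1 b
  hf : S0 2 f
  eq : α = a + cj b + d0 2 f

section

variable {X : CMfd 2} {Ω : F2 2 X}

theorem Dec.c1 {α a b : F1 2 X} {f : X → ℂ} (h : Dec α a b f) : C1 α := by
  rw [h.eq]
  exact (h.ha.1.add h.hb.1.cj).add (C1.d0 h.hf)

theorem Dec.conj {α a b : F1 2 X} {f : X → ℂ} (h : Dec α a b f) :
    Dec (cj α) b a (fun x => (starRingEnd ℂ) (f x)) := by
  refine ⟨h.hb, h.ha, S0_conj h.hf, ?_⟩
  rw [h.eq, cj_add, cj_add, cj_cj, d0_conj h.hf]
  abel

/-- `α ∧ β = (a + b̄) ∧ (a' + b̄') + exact`. -/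
theorem Dec.wedge_ex {α a b α' a' b' : F1 2 X} {f f' : X → ℂ} (h : Dec α a b f)
    (h' : Dec α' a' b' f') : Ex2 (wedge α α' - wedge (a + cj b) (a' + cj b')) := by
  have e : wedge α α' - wedge (a + cj b) (a' + cj b') =
      wedge (a + cj b) (d0 2 f') + wedge (d0 2 f) α' := by
    conv_lhs => rw [h.eq, wedge_add_left]
    have : wedge (a + cj b) α' = wedge (a + cj b) (a' + cj b') + wedge (a + cj b) (d0 2 f') := by
      conv_lhs => rw [h'.eq, wedge_add_right]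
    rw [this]
    abel
  rw [e]
  exact (Ex2.wedge_d0 h'.hf (h.ha.1.add h.hb.1.cj)).add (Ex2.d0_wedge h.hf h'.c1)

/-- The (2,0)-part of an exact product of closed forms vanishes. -/
theorem part20 (hX : CptConn X) (hΩ : Kah Ω) {α a b β p q : F1 2 X} {f g : X → ℂ}
    (hα : Dec α a b f) (hβ : Dec β p q g) (hex : Ex2 (wedge α β)) : wedge a p = 0 := by
  have hex2 : Ex2 (wedge (a + cj b) (p + cj q)) := by
    have h1 := hex.sub (hα.wedge_ex hβ)
    have h2 : wedge α β - (wedge α β - wedge (a + cj b) (p + cj q)) =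
      wedge (a + cj b) (p + cj q) := by abel
    rwa [h2] at h1
  have hτc : Cl2 (wedge (cj a) (cj p)) := Cl2.wedge hα.ha.1.cj hβ.ha.1.cj
  have hτs : S2 (wedge (cj a) (cj p)) := S2.wedge hα.ha.1.1.cj hβ.ha.1.1.cj
  have h0 : Int4 X Ω (wedge (a + cj b) (p + cj q)) (wedge (cj a) (cj p)) = 0 :=
    stokes_ex hX.cpt hΩ hex2 hτs hτc
  have hpt : ∀ x, w4 (wedge (a + cj b) (p + cj q) x) (wedge (cj a) (cj p) x) =
      w4 (wedge a p x) (wedge (cj a) (cj p) x) := by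
    intro x
    have Ta : T10 (a x) := hα.ha.2 x
    have Tb : T10 (b x) := hα.hb.2 x
    have Tp : T10 (p x) := hβ.ha.2 x
    have Tq : T10 (q x) := hβ.hb.2 x
    have e1 : wedge (a + cj b) (p + cj q) x =
        wd (a x) (p x) + wd (a x) (cv (q x)) + (wd (cv (b x)) (p x) + wd (cv (b x)) (cv (q x))) := by
      show wd (a x + cv (b x)) (p x + cv (q x)) = _
      rw [wd_add_left, wd_add_right, wd_add_right]
    have e2 : wedge (cj a) (cj p) x = wd (cv (a x)) (cv (p x)) := rfl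
    have e3 : wedge a p x = wd (a x) (p x) := rfl
    rw [e1, e2, e3, w4_add_left, w4_add_left, w4_add_left]
    have z1 : w4 (wd (a x) (cv (q x))) (wd (cv (a x)) (cv (p x))) = 0 := by
      rw [w4_comm, wd_swap (a x) (cv (q x)), w4_comm, w4_neg_left, w4_comm,
        w4_three' (a x) Ta Tp Tq, neg_zero]
    have z2 : w4 (wd (cv (b x)) (p x)) (wd (cv (a x)) (cv (p x))) = 0 := by
      rw [w4_comm, w4_three' (p x) Ta Tp Tb]
    have z3 : w4 (wd (cv (b x)) (cv (q x))) (wd (cv (a x)) (cv (p x))) = 0 := by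
      rw [w4_three' (cv (p x)) Tb Tq Ta]
    rw [z1, z2, z3]
    ring
  have h0' : Int4 X Ω (wedge a p) (wedge (cj a) (cj p)) = 0 := by
    rw [← h0]
    unfold Int4
    simp only [hpt]
  have hs : S2 (wedge a p) := S2.wedge hα.ha.1.1 hβ.ha.1.1
  have hz := Int4_eq_zero hX.cpt hΩ hs hτs
    (fun x => w4_quad_nonneg (hα.ha.2 x) (hβ.ha.2 x)) h0'
  funext x
  exact w4_quad_eq_zero (hα.ha.2 x) (hβ.ha.2 x) (hz x)

/-- Pointwise sign: `σ = a ∧ b̄' - a' ∧ b̄` with `a ∧ a' = 0`, `b ∧ b' = 0` satisfies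
`- σ ∧ σ̄ ≥ 0`. -/
theorem sign_pt {a a' b b' : Cov 2} (ha : T10 a) (ha' : T10 a') (hb : T10 b) (hb' : T10 b')
    (h : wd a a' = 0) (h' : wd b b' = 0) :
    (w4 (wd a (cv b') - wd a' (cv b)) (wd (cv a) b' - wd (cv a') b)).re ≤ 0 ∧
    (w4 (wd a (cv b') - wd a' (cv b)) (wd (cv a) b' - wd (cv a') b)).im = 0 := by
  obtain ⟨u, s, s', hu, rfl, rfl⟩ := common ha ha' h
  obtain ⟨v, t, t', hv, rfl, rfl⟩ := common hb hb' h'
  have e1 : wd (s • u) (cv (t' • v)) - wd (s' • u) (cv (t • v)) =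
      (s * (starRingEnd ℂ) t' - s' * (starRingEnd ℂ) t) • wd u (cv v) := by
    ext x y
    simp only [wd_apply, cv_apply, smul_apply, sub_apply, smul_eq_mul, map_mul]
    ring
  have e2 : wd (cv (s • u)) (t' • v) - wd (cv (s' • u)) (t • v) =
      ((starRingEnd ℂ) s * t' - (starRingEnd ℂ) s' * t) • wd (cv u) v := by
    ext x y
    simp only [wd_apply, cv_apply, smul_apply, sub_apply, smul_eq_mul, map_mul]
    ring
  rw [e1, e2, w4_smul_left, w4_smul_right]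
  have e3 : w4 (wd u (cv v)) (wd (cv u) v) = - w4 (wd u v) (wd (cv u) (cv v)) := by
    rw [w4_swap, wd_swap (cv v) v, w4_comm, w4_neg_left, neg_neg, w4_comm, w4_swap]
  obtain ⟨h1, h2⟩ := w4_quad_nonneg hu hv
  rw [e3]
  set Q := w4 (wd u v) (wd (cv u) (cv v)) with hQ
  set c := s * (starRingEnd ℂ) t' - s' * (starRingEnd ℂ) t with hc
  have hcc : (starRingEnd ℂ) s * t' - (starRingEnd ℂ) s' * t = (starRingEnd ℂ) c := by
    rw [hc]
    simp
  rw [hcc]
  have h3 : c * ((starRingEnd ℂ) c * -Q) = ((Complex.normSq c : ℝ) : ℂ) * -Q := by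
    rw [← mul_assoc, Complex.mul_conj]
  rw [h3]
  have h4 : Q = ((Q.re : ℝ) : ℂ) := by
    apply Complex.ext <;> simp [h2]
  rw [h4]
  constructor
  · rw [← Complex.ofReal_neg, ← Complex.ofReal_mul, Complex.ofReal_re]
    have := Complex.normSq_nonneg c
    nlinarith
  · rw [← Complex.ofReal_neg, ← Complex.ofReal_mul, Complex.ofReal_im]

end

end Pool.Agent.K708
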