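import Pool.Agent.Lib.K708.VolI

/-! # K708: Stokes theorem `∫ dκ ∧ τ = 0` -/

set_option autoImplicit false

open scoped Manifold ContDiff Topology
open Set

noncomputable section

namespace Pool.Agent.K708

namespace Stk

open MeasureTheory

/-- The integral of a derivative of a function with compact support. -/
theorem int_fderiv {F : E 2 → ℂ} (hF : ContDiff ℝ ∞ F) (hc : HasCompactSupport F) (v : E 2) :
    Integrable (fun z => fderiv ℝ F z v) ∧ ∫ z, fderiv ℝ F z v = 0 := by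
  have h1 : Continuous fun z => fderiv ℝ F z v :=
    (hF.continuous_fderiv (by simp)).clm_apply continuous_const
  have h2 : HasCompactSupport fun z => fderiv ℝ F z v := hc.fderiv_apply ℝ v
  have h3 : Integrable (fun z => fderiv ℝ F z v) := h1.integrable_of_hasCompactSupport h2
  refine ⟨h3, ?_⟩
  have h4 := integral_mul_fderiv_eq_neg_fderiv_mul_of_integrable (𝕜 := ℂ) (μ := volume)
    (f := fun _ : E 2 => (1 : ℂ)) (g := F) (v := v) (by simp) (by simpa using h3)
    (by simpa using hF.continuous.integrable_of_hasCompactSupport hc)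
    (fun x _ => by fun_prop) (fun x _ => (hF.differentiable (by simp)) x)
  simpa using h4

theorem fd1 {a : E 2 → (E 2 →L[ℝ] ℂ)} (ha : ContDiff ℝ ∞ a) (z u v : E 2) :
    fderiv ℝ (fun z => a z v) z u = fderiv ℝ a z u v := by
  have h1 : HasFDerivAt a (fderiv ℝ a z) z := (ha.differentiable (by simp) z).hasFDerivAt
  have h2 := h1.clm_apply (hasFDerivAt_const v z)
  rw [h2.fderiv]
  simp

theorem fd2 {T : E 2 → (E 2 →L[ℝ] E 2 →L[ℝ] ℂ)} (hT : ContDiff ℝ ∞ T) (z u v w : E 2) :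
    fderiv ℝ (fun z => T z v w) z u = fderiv ℝ T z u v w := by
  have h1 : HasFDerivAt T (fderiv ℝ T z) z := (hT.differentiable (by simp) z).hasFDerivAt
  have h2 := (h1.clm_apply (hasFDerivAt_const v z)).clm_apply (hasFDerivAt_const w z)
  rw [h2.fderiv]
  simp

theorem fdP {a : E 2 → (E 2 →L[ℝ] ℂ)} (ha : ContDiff ℝ ∞ a)
    {T : E 2 → (E 2 →L[ℝ] E 2 →L[ℝ] ℂ)} (hT : ContDiff ℝ ∞ T) (z j k l : E 2) :
    HasFDerivAt (fun z => a z j * T z k l)
      ((a z j) • fderiv ℝ (fun z => T z k l) z + (T z k l) • fderiv ℝ (fun z => a z j) z) z := by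
  have h1 : DifferentiableAt ℝ (fun z => a z j) z :=
    ((ha.differentiable (by simp)) z).clm_apply (differentiableAt_const _)
  have h2 : DifferentiableAt ℝ (fun z => T z k l) z :=
    (((hT.differentiable (by simp)) z).clm_apply (differentiableAt_const _)).clm_apply
      (differentiableAt_const _)
  exact h1.hasFDerivAt.mul h2.hasFDerivAt

/-- A smooth function on an open set with small support, extended by zero. -/
theorem contDiff_indicator {F : Type*} [NormedAddCommGroup F] [NormedSpace ℝ F] {n : ℕ}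
    {U K : Set (E n)} (hU : IsOpen U) {g : E n → F} (hg : ContDiffOn ℝ ∞ g U) (hK : IsClosed K)
    (hKU : K ⊆ U) (h0 : ∀ z ∈ U, z ∉ K → g z = 0) : ContDiff ℝ ∞ (U.indicator g) := by
  rw [contDiff_iff_contDiffAt]
  intro z
  by_cases hz : z ∈ U
  · have h1 : ContDiffAt ℝ ∞ g z := (hg z hz).contDiffAt (hU.mem_nhds hz)
    refine h1.congr_of_eventuallyEq ?_
    filter_upwards [hU.mem_nhds hz] with y hy
    rw [indicator_of_mem hy]
  · have h2 : z ∉ K := fun h => hz (hKU h)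
    refine (contDiffAt_const (c := (0 : F))).congr_of_eventuallyEq ?_
    filter_upwards [hK.isOpen_compl.mem_nhds h2] with y hy
    by_cases hy2 : y ∈ U
    · rw [indicator_of_mem hy2, h0 y hy2 hy]
    · rw [indicator_of_notMem hy2]

end Stk

open MeasureTheory Stk

/-- The local computation. -/
theorem stokes_local {a : E 2 → (E 2 →L[ℝ] ℂ)} (ha : ContDiff ℝ ∞ a) (hc : HasCompactSupport a)
    {T : E 2 → (E 2 →L[ℝ] E 2 →L[ℝ] ℂ)} (hT : ContDiff ℝ ∞ T) (hTa : ∀ z, Alt (T z))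
    (hcl : ∀ z ∈ tsupport a, ∀ u v w : E 2,
      fderiv ℝ T z u v w + fderiv ℝ T z v w u + fderiv ℝ T z w u v = 0) :
    ∫ z, w4 (dE1 a z) (T z) = 0 := by
  have hA : ∀ j, ContDiff ℝ ∞ fun z => a z (bv j) := fun j => ha.clm_apply contDiff_const
  have hTT : ∀ k l, ContDiff ℝ ∞ fun z => T z (bv k) (bv l) := fun k l =>
    (hT.clm_apply contDiff_const).clm_apply contDiff_const
  have hAc : ∀ j, HasCompactSupport fun z => a z (bv j) := fun j =>
    hc.comp_left (g := fun L : E 2 →L[ℝ] ℂ => L (bv j)) (by simp)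
  set Q : Fin 4 → Fin 4 → Fin 4 → E 2 → ℂ := fun j k l z => a z (bv j) * T z (bv k) (bv l) with hQ
  have hQs : ∀ j k l, ContDiff ℝ ∞ (Q j k l) := fun j k l => (hA j).mul (hTT k l)
  have hQc : ∀ j k l, HasCompactSupport (Q j k l) := fun j k l => (hAc j).mul_right
  have hQd : ∀ j k l z i, fderiv ℝ (Q j k l) z (bv i) =
      a z (bv j) * fderiv ℝ T z (bv i) (bv k) (bv l) +
        T z (bv k) (bv l) * fderiv ℝ a z (bv i) (bv j) := by
    intro j k l z i
    rw [(fdP ha hT z (bv j) (bv k) (bv l)).fderiv]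
    simp only [add_apply, smul_apply, smul_eq_mul]
    rw [fd1 ha, fd2 hT]
  have hQi : ∀ j k l i, Integrable (fun z => fderiv ℝ (Q j k l) z (bv i)) := fun j k l i =>
    (int_fderiv (hQs j k l) (hQc j k l) (bv i)).1
  have hQ0 : ∀ j k l i, ∫ z, fderiv ℝ (Q j k l) z (bv i) = 0 := fun j k l i =>
    (int_fderiv (hQs j k l) (hQc j k l) (bv i)).2
  have halt : ∀ z u v w, fderiv ℝ T z u v w = - fderiv ℝ T z u w v := by
    intro z u v w
    have h1 : (fun z => T z v w) = fun z => - T z w v := by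
      funext y
      exact hTa y v w
    rw [← fd2 hT, h1, fderiv_fun_neg, neg_apply, fd2 hT]
  have hcl2 : ∀ z, ∀ j u v w, a z (bv j) *
      (fderiv ℝ T z u v w + fderiv ℝ T z v w u + fderiv ℝ T z w u v) = 0 := by
    intro z j u v w
    by_cases hz : z ∈ tsupport a
    · rw [hcl z hz, mul_zero]
    · rw [image_eq_zero_of_notMem_tsupport hz]
      simp
  have hpt : ∀ z, w4 (dE1 a z) (T z) =
      fderiv ℝ (Q 1 2 3) z (bv 0) - fderiv ℝ (Q 2 1 3) z (bv 0) + fderiv ℝ (Q 3 1 2) z (bv 0) -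
      fderiv ℝ (Q 0 2 3) z (bv 1) + fderiv ℝ (Q 2 0 3) z (bv 1) - fderiv ℝ (Q 3 0 2) z (bv 1) +
      fderiv ℝ (Q 0 1 3) z (bv 2) - fderiv ℝ (Q 1 0 3) z (bv 2) + fderiv ℝ (Q 3 0 1) z (bv 2) -
      fderiv ℝ (Q 0 1 2) z (bv 3) + fderiv ℝ (Q 1 0 2) z (bv 3) - fderiv ℝ (Q 2 0 1) z (bv 3) := by
    intro z
    simp only [hQd]
    have e0 := hcl2 z 0 (bv 1) (bv 2) (bv 3)
    have e1 := hcl2 z 1 (bv 0) (bv 2) (bv 3)
    have e2 := hcl2 z 2 (bv 0) (bv 1) (bv 3)
    have e3 := hcl2 z 3 (bv 0) (bv 1) (bv 2)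
    rw [halt z (bv 2) (bv 3) (bv 1)] at e0
    rw [halt z (bv 2) (bv 3) (bv 0)] at e1
    rw [halt z (bv 1) (bv 3) (bv 0)] at e2
    rw [halt z (bv 1) (bv 2) (bv 0)] at e3
    unfold w4 dE1
    simp only [sub_apply, ContinuousLinearMap.flip_apply]
    linear_combination e0 - e1 + e2 - e3
  simp only [hpt]
  have I := hQi
  have Z := hQ0
  rw [integral_sub, integral_add, integral_sub, integral_add, integral_sub, integral_add,
    integral_sub, integral_add, integral_sub, integral_add, integral_sub]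
  · simp only [Z]
    ring
  all_goals
    repeat' first
      | exact I _ _ _ _
      | apply Integrable.sub
      | apply Integrable.add

namespace Stk

theorem csmul1 (c : ℂ) (L : E 2 →L[ℝ] ℂ) (u : E 2) : (c • L) u = c * L u := rfl

theorem csmul2 (c : ℂ) (B : E 2 →L[ℝ] E 2 →L[ℝ] ℂ) (u v : E 2) :
    (c • B) u v = c * B u v := rfl

theorem rsmul2 (r : ℝ) (B : E 2 →L[ℝ] E 2 →L[ℝ] ℂ) : r • B = (r : ℂ) • B := by
  refine ContinuousLinearMap.ext fun u => ContinuousLinearMap.ext fun v => ?_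
  rw [csmul2]
  exact Complex.real_smul

theorem contDiffAt_gsmul {F : Type*} [NormedAddCommGroup F] [NormedSpace ℝ F] {n : ℕ}
    {f : E n → ℝ} {g : E n → F} {z : E n} (hf : ContDiffAt ℝ ∞ f z) (hg : ContDiffAt ℝ ∞ g z) :
    ContDiffAt ℝ ∞ (fun y => f y • g y) z := hf.smul hg

theorem gzero_smul {F : Type*} [NormedAddCommGroup F] [NormedSpace ℝ F] (x : F) :
    (0 : ℝ) • x = 0 := zero_smul ℝ x

theorem gone_smul {F : Type*} [NormedAddCommGroup F] [NormedSpace ℝ F] (x : F) :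
    (1 : ℝ) • x = x := one_smul ℝ x

theorem d1_zero {X : CMfd 2} : d1 (0 : F1 2 X) = 0 := by
  have h := d1_smul (M := X) (n := 2) (0 : ℂ) (α := 0) S1.zero
  have h1 : (0 : ℂ) • (0 : F1 2 X) = 0 := by
    funext x
    exact zero_smul ℂ (0 : E 2 →L[ℝ] ℂ)
  have h2 : (0 : ℂ) • d1 (0 : F1 2 X) = 0 := by
    funext x
    refine ContinuousLinearMap.ext fun u => ContinuousLinearMap.ext fun v => ?_
    change (0 : ℂ) * d1 (0 : F1 2 X) x u v = 0
    rw [zero_mul]
  rwa [h1, h2] at h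

theorem s0_real {X : CMfd 2} {χ : X → ℝ} (hχ : ContMDiff 𝓘(ℝ, E 2) 𝓘(ℝ, ℝ) ∞ χ) :
    S0 2 fun x => (χ x : ℂ) := by
  have h1 : ContMDiff 𝓘(ℝ, ℝ) 𝓘(ℝ, ℂ) ∞ (fun t : ℝ => (t : ℂ)) := by
    rw [contMDiff_iff_contDiff]
    exact Complex.ofRealCLM.contDiff
  exact h1.comp hχ

/-- Stokes for a form with support in a chart. -/
theorem chart {X : CMfd 2} (hX : CompactSpace X) {Ω : F2 2 X} (hΩ : Kah Ω) {κ : F1 2 X}
    (hκ : S1 κ) {τ : F2 2 X} (hτ : S2 τ) (hcl : Cl2 τ) {φ : OpenPartialHomeomorph X (E 2)}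
    (hφ : φ ∈ CA 2 X) {χ : X → ℝ} (hχ : ContMDiff 𝓘(ℝ, E 2) 𝓘(ℝ, ℝ) ∞ χ)
    (hs : tsupport χ ⊆ φ.source) :
    Int4 X Ω (d1 ((fun x => (χ x : ℂ)) • κ)) τ = 0 := by
  have hφR : φ ∈ RA 2 X := ra_of_ca hφ
  set κ' : F1 2 X := (fun x => (χ x : ℂ)) • κ with hκ'def
  have hκ' : S1 κ' := S1.fsmul (s0_real hχ) hκ
  have hK0c : IsCompact (tsupport χ) := (isClosed_tsupport χ).isCompact
  obtain ⟨χ', hχ's, hχ'01, hχ'1, hχ't, -⟩ := exists_bump X hK0c φ.open_source hs
  have hκ'0 : ∀ x, x ∉ tsupport χ → κ' x = 0 := by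
    intro x hx
    have h1 : χ x = 0 := image_eq_zero_of_notMem_tsupport hx
    refine ContinuousLinearMap.ext fun u => ?_
    change (χ x : ℂ) * κ x u = 0
    rw [h1, Complex.ofReal_zero, zero_mul]
  have hd0 : ∀ x, x ∉ tsupport χ → d1 κ' x = 0 := by
    intro x hx
    have h1 : κ' =ᶠ[𝓝 x] (0 : F1 2 X) := by
      filter_upwards [(isClosed_tsupport χ).isOpen_compl.mem_nhds hx] with y hy
      exact hκ'0 y hy
    rw [d1_congr h1, d1_zero]
    rfl
  have hcut : d1 κ' = fun x => (χ' x : ℂ) • d1 κ' x := by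
    funext x
    by_cases hx : x ∈ tsupport χ
    · have h1 : χ' x = 1 := hχ'1.self_of_nhdsSet x hx
      refine ContinuousLinearMap.ext fun u => ContinuousLinearMap.ext fun v => ?_
      change d1 κ' x u v = (χ' x : ℂ) * d1 κ' x u v
      rw [h1, Complex.ofReal_one, one_mul]
    · refine ContinuousLinearMap.ext fun u => ContinuousLinearMap.ext fun v => ?_
      change d1 κ' x u v = (χ' x : ℂ) * d1 κ' x u v
      rw [hd0 x hx]
      simp
  rw [hcut, Int4_chart hX hΩ hφ hχ's.continuous hχ't (S2.d1 hκ') hτ]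
  -- transfer to the model space
  have hsymm : ContinuousOn φ.symm φ.target := φ.continuousOn_symm
  have hcont : ContinuousOn φ φ.source := φ.continuousOn
  have hKc : IsCompact (φ '' tsupport χ) := hK0c.image_of_continuousOn (hcont.mono hs)
  have hK'c : IsCompact (φ '' tsupport χ') :=
    (isClosed_tsupport χ').isCompact.image_of_continuousOn (hcont.mono hχ't)
  have hKt : φ '' tsupport χ ⊆ φ.target := by
    rintro _ ⟨x, hx, rfl⟩
    exact φ.map_source (hs hx)
  have hK't : φ '' tsupport χ' ⊆ φ.target := by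
    rintro _ ⟨x, hx, rfl⟩
    exact φ.map_source (hχ't hx)
  have hback : ∀ (ξ : X → ℝ), ∀ z ∈ φ.target, z ∉ φ '' tsupport ξ →
      φ.symm z ∉ tsupport ξ := fun ξ z hz h1 h2 => h1 ⟨_, h2, φ.right_inv hz⟩
  have hl0 : ∀ z ∈ φ.target, z ∉ φ '' tsupport χ → loc1 φ κ' z = 0 := by
    intro z hz h1
    unfold loc1
    rw [hκ'0 _ (hback χ z hz h1), ContinuousLinearMap.zero_comp]
  set a : E 2 → (E 2 →L[ℝ] ℂ) := φ.target.indicator (loc1 φ κ') with hadef
  set T : E 2 → (E 2 →L[ℝ] E 2 →L[ℝ] ℂ) :=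
    φ.target.indicator (fun z => χ' (φ.symm z) • loc2 φ τ z) with hTdef
  have hasm : ContDiff ℝ ∞ a :=
    contDiff_indicator φ.open_target (hκ' φ hφR) hKc.isClosed hKt hl0
  have hac : HasCompactSupport a := by
    refine HasCompactSupport.intro hKc fun z hz => ?_
    by_cases hzt : z ∈ φ.target
    · rw [hadef, indicator_of_mem hzt, hl0 z hzt hz]
    · rw [hadef, indicator_of_notMem hzt]
  have hats : tsupport a ⊆ φ '' tsupport χ := by
    refine closure_minimal (fun z hz => ?_) hKc.isClosed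
    by_contra h1
    refine hz ?_
    by_cases hzt : z ∈ φ.target
    · rw [hadef, indicator_of_mem hzt, hl0 z hzt h1]
    · rw [hadef, indicator_of_notMem hzt]
  have hTsm : ContDiff ℝ ∞ T := by
    refine contDiff_indicator φ.open_target ?_ hK'c.isClosed hK't ?_
    · intro z hz
      have h1 : ContDiffAt ℝ ∞ ((fun x => (χ' x : ℂ)) ∘ φ.symm) z :=
        S0.contDiffAt_loc (s0_real hχ's) hφR hz
      have h2 : ContDiffAt ℝ ∞ (loc2 φ τ) z := S2.contDiffAt hτ hφR hz
      have h3 : ContDiffAt ℝ ∞ (fun y => χ' (φ.symm y)) z := by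
        have := Complex.reCLM.contDiff.contDiffAt.comp z h1
        simpa [Function.comp_def] using this
      exact (contDiffAt_gsmul h3 h2).contDiffWithinAt
    · intro z hz h1
      have h2 : χ' (φ.symm z) = 0 := image_eq_zero_of_notMem_tsupport (hback χ' z hz h1)
      rw [h2]
      exact gzero_smul (F := E 2 →L[ℝ] E 2 →L[ℝ] ℂ) _
  have hTalt : ∀ z, Alt (T z) := by
    intro z u v
    by_cases hzt : z ∈ φ.target
    · rw [hTdef, indicator_of_mem hzt]
      have h1 : loc2 φ τ z u v = - loc2 φ τ z v u := hτ.1 _ _ _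
      rw [rsmul2, csmul2, csmul2, h1]
      ring
    · rw [hTdef, indicator_of_notMem hzt]
      simp
  have hTcl : ∀ z ∈ tsupport a, ∀ u v w : E 2,
      fderiv ℝ T z u v w + fderiv ℝ T z v w u + fderiv ℝ T z w u v = 0 := by
    intro z hz u v w
    obtain ⟨x, hx, rfl⟩ := hats hz
    have hxs := hs hx
    have hzt := φ.map_source hxs
    have h1 : ∀ᶠ y in 𝓝 x, χ' y = 1 := by
      have := hχ'1
      rw [eventually_nhdsSet_iff_forall] at this
      exact this x hx
    have h2 : Filter.Tendsto φ.symm (𝓝 (φ x)) (𝓝 x) := by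
      have := φ.continuousAt_symm hzt
      rwa [ContinuousAt, φ.left_inv hxs] at this
    have h3 : T =ᶠ[𝓝 (φ x)] loc2 φ τ := by
      filter_upwards [h2.eventually h1, φ.open_target.mem_nhds hzt] with y hy1 hy2
      rw [hTdef, indicator_of_mem hy2]
      rw [hy1]
      exact gone_smul (F := E 2 →L[ℝ] E 2 →L[ℝ] ℂ) _
    rw [h3.fderiv_eq]
    exact hcl φ hφR _ hzt u v w
  have hmain := stokes_local hasm hac hTsm hTalt hTcl
  have hfull : ∫ z in φ.target, w4 (dE1 a z) (T z) = 0 := by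
    rw [setIntegral_eq_integral_of_forall_compl_eq_zero, hmain]
    intro z hz
    rw [hTdef, indicator_of_notMem hz]
    simp [w4]
  rw [← hfull]
  refine setIntegral_congr_fun φ.open_target.measurableSet fun z hz => ?_
  have h1 : a =ᶠ[𝓝 z] loc1 φ κ' := by
    filter_upwards [φ.open_target.mem_nhds hz] with y hy
    rw [hadef, indicator_of_mem hy]
  have h2 : dE1 a z = dE1 (loc1 φ κ') z := by
    unfold dE1
    rw [h1.fderiv_eq]
  rw [loc2_d1 hκ' hφR hz, h2, hTdef, indicator_of_mem hz, rsmul2, w4_smul_right]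

end Stk

/-- Stokes. -/
theorem stokes {X : CMfd 2} (hX : CompactSpace X) {Ω : F2 2 X} (hΩ : Kah Ω) {κ : F1 2 X}
    (hκ : S1 κ) {τ : F2 2 X} (hτ : S2 τ) (hcl : Cl2 τ) : Int4 X Ω (d1 κ) τ = 0 := by
  obtain ⟨P, -⟩ := exists_pu X hX (fun _ => univ) (fun _ => Filter.univ_mem)
  have h1 : ∀ s : Finset (Fin P.N),
      Int4 X Ω (d1 (∑ k ∈ s, (fun x => (P.χ k x : ℂ)) • κ)) τ = 0 := by
    intro s
    induction s using Finset.induction_on with
    | empty =>
      rw [Finset.sum_empty, d1_zero]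
      exact Int4_of_zero fun x => by simp [w4]
    | insert k s hk ih =>
      have hk1 : S1 ((fun x => (P.χ k x : ℂ)) • κ) := S1.fsmul (s0_real (P.smooth k)) hκ
      have hs1 : S1 (∑ k ∈ s, (fun x => (P.χ k x : ℂ)) • κ) :=
        S1.sum s fun i _ => S1.fsmul (s0_real (P.smooth i)) hκ
      rw [Finset.sum_insert hk, d1_add hk1 hs1, Int4_add_left hX hΩ (S2.d1 hk1) (S2.d1 hs1) hτ,
        ih, add_zero]
      exact Stk.chart hX hΩ hκ hτ hcl (P.mem k) (P.smooth k) (P.supp k)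
  have h2 : ∑ k, (fun x => (P.χ k x : ℂ)) • κ = κ := by
    funext x
    rw [Finset.sum_apply]
    simp only [Pi.smul_apply']
    rw [← Finset.sum_smul]
    have h3 : ∑ k, (P.χ k x : ℂ) = 1 := by
      rw [← Complex.ofReal_sum, P.sum x, Complex.ofReal_one]
    rw [h3, one_smul]
  have h4 := h1 Finset.univ
  rwa [h2] at h4

theorem stokes_ex {X : CMfd 2} (hX : CompactSpace X) {Ω : F2 2 X} (hΩ : Kah Ω) {σ τ : F2 2 X}
    (hσ : Ex2 σ) (hτ : S2 τ) (hcl : Cl2 τ) : Int4 X Ω σ τ = 0 := by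
  obtain ⟨κ, hκ, rfl⟩ := hσ
  exact stokes hX hΩ hκ hτ hcl

end Pool.Agent.K708
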