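import Pool.Agent.Lib.K708.FcP

/-! # K708, B7a: variation of the pull-back of a closed 2-form (in vector spaces) -/

set_option autoImplicit false

open scoped Manifold ContDiff Topology
open Set

noncomputable section

namespace Pool.Agent.K708

/-- The 1-form `w₀(∂_s g, ∂_z g ·)` in vector spaces. -/
def cartA {n m : ℕ} (g : E n × ℝ → E m) (w₀ : E m → (E m →L[ℝ] E m →L[ℝ] ℂ)) (s : ℝ) (z : E n) :
    E n →L[ℝ] ℂ :=
  (w₀ (g (z, s)) (fderiv ℝ g (z, s) (0, 1))).comp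
    ((fderiv ℝ g (z, s)).comp (ContinuousLinearMap.inl ℝ (E n) ℝ))

/-- The pull-back of `w₀` by `g (·, s)`. -/
def cartK {n m : ℕ} (g : E n × ℝ → E m) (w₀ : E m → (E m →L[ℝ] E m →L[ℝ] ℂ)) (s : ℝ) (z : E n) :
    E n →L[ℝ] E n →L[ℝ] ℂ :=
  (w₀ (g (z, s))).bilinearComp
    ((fderiv ℝ g (z, s)).comp (ContinuousLinearMap.inl ℝ (E n) ℝ))
    ((fderiv ℝ g (z, s)).comp (ContinuousLinearMap.inl ℝ (E n) ℝ))

namespace TCart

variable {n m : ℕ}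

/-- the pull-back of `w₀` to the product -/
def SS (g : E n × ℝ → E m) (w₀ : E m → (E m →L[ℝ] E m →L[ℝ] ℂ)) (p : E n × ℝ) :
    (E n × ℝ) →L[ℝ] (E n × ℝ) →L[ℝ] ℂ :=
  (w₀ (g p)).bilinearComp (fderiv ℝ g p) (fderiv ℝ g p)

theorem SS_apply (g : E n × ℝ → E m) (w₀ : E m → (E m →L[ℝ] E m →L[ℝ] ℂ)) (p u v : E n × ℝ) :
    SS g w₀ p u v = w₀ (g p) (fderiv ℝ g p u) (fderiv ℝ g p v) := rfl

/-- restriction of a bilinear form to the first factor, linear part -/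
def RKl (n : ℕ) : ((E n × ℝ) →L[ℝ] (E n × ℝ) →L[ℝ] ℂ) →ₗ[ℝ] (E n →L[ℝ] E n →L[ℝ] ℂ) where
  toFun := fun L => L.bilinearComp (ContinuousLinearMap.inl ℝ (E n) ℝ)
    (ContinuousLinearMap.inl ℝ (E n) ℝ)
  map_add' := fun _ _ => rfl
  map_smul' := fun _ _ => rfl

/-- restriction of a bilinear form to the first factor -/
def RK (n : ℕ) : ((E n × ℝ) →L[ℝ] (E n × ℝ) →L[ℝ] ℂ) →L[ℝ] (E n →L[ℝ] E n →L[ℝ] ℂ) :=
  LinearMap.toContinuousLinearMap (𝕜 := ℝ) (E := (E n × ℝ) →L[ℝ] (E n × ℝ) →L[ℝ] ℂ)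
    (F' := E n →L[ℝ] E n →L[ℝ] ℂ) (RKl n)

theorem RK_apply (L : (E n × ℝ) →L[ℝ] (E n × ℝ) →L[ℝ] ℂ) (u v : E n) :
    RK n L u v = L (u, 0) (v, 0) := rfl

/-- contraction with `∂_s`, linear part -/
def RBl (n : ℕ) : ((E n × ℝ) →L[ℝ] (E n × ℝ) →L[ℝ] ℂ) →ₗ[ℝ] (E n →L[ℝ] ℂ) where
  toFun := fun L => (L (0, 1)).comp (ContinuousLinearMap.inl ℝ (E n) ℝ)
  map_add' := fun _ _ => rfl
  map_smul' := fun _ _ => rfl

/-- contraction with `∂_s` -/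
def RB (n : ℕ) : ((E n × ℝ) →L[ℝ] (E n × ℝ) →L[ℝ] ℂ) →L[ℝ] (E n →L[ℝ] ℂ) :=
  LinearMap.toContinuousLinearMap (𝕜 := ℝ) (E := (E n × ℝ) →L[ℝ] (E n × ℝ) →L[ℝ] ℂ)
    (F' := E n →L[ℝ] ℂ) (RBl n)

theorem RB_apply (L : (E n × ℝ) →L[ℝ] (E n × ℝ) →L[ℝ] ℂ) (v : E n) :
    RB n L v = L (0, 1) (v, 0) := rfl

theorem cartK_eq (g : E n × ℝ → E m) (w₀ : E m → (E m →L[ℝ] E m →L[ℝ] ℂ)) (s : ℝ) (z : E n) :
    cartK g w₀ s z = RK n (SS g w₀ (z, s)) := rfl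

theorem cartA_eq (g : E n × ℝ → E m) (w₀ : E m → (E m →L[ℝ] E m →L[ℝ] ℂ)) (s : ℝ) (z : E n) :
    cartA g w₀ s z = RB n (SS g w₀ (z, s)) := rfl

theorem SS_contDiffAt {g : E n × ℝ → E m} {w₀ : E m → (E m →L[ℝ] E m →L[ℝ] ℂ)} {p : E n × ℝ}
    (hg : ContDiffAt ℝ ∞ g p) (hw : ContDiffAt ℝ ∞ w₀ (g p)) : ContDiffAt ℝ ∞ (SS g w₀) p := by
  have h1 : ContDiffAt ℝ ∞ (fun q => w₀ (g q)) p := ContDiffAt.comp (g := w₀) (f := g) p hw hg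
  have h2 : ContDiffAt ℝ ∞ (fderiv ℝ g) p := hg.fderiv_right (by simp)
  exact FcP.cda_bilin h1 h2

theorem eval_fderiv {F : Type*} [NormedAddCommGroup F] [NormedSpace ℝ F]
    {S : F → (F →L[ℝ] F →L[ℝ] ℂ)} {p : F} (hS : DifferentiableAt ℝ S p) (x u v : F) :
    fderiv ℝ S p x u v = fderiv ℝ (fun q => S q u v) p x := by
  have h1 := (hS.hasFDerivAt.clm_apply (hasFDerivAt_const u p)).clm_apply (hasFDerivAt_const v p)
  rw [h1.fderiv]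
  simp

theorem fderiv_alt {F : Type*} [NormedAddCommGroup F] [NormedSpace ℝ F]
    {S : F → (F →L[ℝ] F →L[ℝ] ℂ)} {p : F} (hS : DifferentiableAt ℝ S p)
    (halt : ∀ q u v, S q u v = - S q v u) (x u v : F) :
    fderiv ℝ S p x u v = - fderiv ℝ S p x v u := by
  rw [eval_fderiv hS, eval_fderiv hS]
  have : (fun q => S q u v) = fun q => - S q v u := funext fun q => halt q u v
  rw [this, fderiv_fun_neg]
  rfl

theorem hasFDerivAt_cartA {g : E n × ℝ → E m} {w₀ : E m → (E m →L[ℝ] E m →L[ℝ] ℂ)} {z : E n}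
    {s : ℝ} (hS : DifferentiableAt ℝ (SS g w₀) (z, s)) :
    HasFDerivAt (cartA g w₀ s)
      ((RB n).comp ((fderiv ℝ (SS g w₀) (z, s)).comp (ContinuousLinearMap.inl ℝ (E n) ℝ))) z := by
  have h1 : HasFDerivAt (fun y : E n => (y, s)) (ContinuousLinearMap.inl ℝ (E n) ℝ) z :=
    hasFDerivAt_prodMk_left z s
  have h2 : HasFDerivAt (fun y : E n => SS g w₀ (y, s))
      ((fderiv ℝ (SS g w₀) (z, s)).comp (ContinuousLinearMap.inl ℝ (E n) ℝ)) z :=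
    HasFDerivAt.comp (g := SS g w₀) (f := fun y : E n => (y, s)) z hS.hasFDerivAt h1
  have h3 : HasFDerivAt (RB n) (RB n) (SS g w₀ (z, s)) :=
    ContinuousLinearMap.hasFDerivAt (𝕜 := ℝ) (E := (E n × ℝ) →L[ℝ] (E n × ℝ) →L[ℝ] ℂ)
      (F := E n →L[ℝ] ℂ) (RB n)
  exact HasFDerivAt.comp (𝕜 := ℝ) (E := E n) (F := (E n × ℝ) →L[ℝ] (E n × ℝ) →L[ℝ] ℂ)
    (G := E n →L[ℝ] ℂ) (g := RB n) (f := fun y : E n => SS g w₀ (y, s)) z h3 h2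

theorem hasDerivAt_cartK {g : E n × ℝ → E m} {w₀ : E m → (E m →L[ℝ] E m →L[ℝ] ℂ)} {z : E n}
    {s : ℝ} (hS : DifferentiableAt ℝ (SS g w₀) (z, s)) :
    HasDerivAt (fun s' => cartK g w₀ s' z) (RK n (fderiv ℝ (SS g w₀) (z, s) (0, 1))) s := by
  have h1 : HasDerivAt (fun y : ℝ => (z, y)) ((0 : E n), (1 : ℝ)) s :=
    (hasDerivAt_const s z).prodMk (hasDerivAt_id s)
  have h2 : HasDerivAt (fun y : ℝ => SS g w₀ (z, y)) (fderiv ℝ (SS g w₀) (z, s) (0, 1)) s :=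
    HasFDerivAt.comp_hasDerivAt (l := SS g w₀) (f := fun y : ℝ => (z, y)) s hS.hasFDerivAt h1
  have h3 : HasFDerivAt (RK n) (RK n) (SS g w₀ (z, s)) :=
    ContinuousLinearMap.hasFDerivAt (𝕜 := ℝ) (E := (E n × ℝ) →L[ℝ] (E n × ℝ) →L[ℝ] ℂ)
      (F := E n →L[ℝ] E n →L[ℝ] ℂ) (RK n)
  exact HasFDerivAt.comp_hasDerivAt (l := RK n) (f := fun y : ℝ => SS g w₀ (z, y)) s h3 h2

end TCart

/-- Cartan formula: for a closed 2-form `w₀`, `∂_s (g_s^* w₀) = d (w₀(∂_s g, ∂_z g ·))`. -/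
theorem cartan_vec {n m : ℕ} (g : E n × ℝ → E m) (w₀ : E m → (E m →L[ℝ] E m →L[ℝ] ℂ)) (z : E n)
    (s : ℝ) (hg : ContDiffAt ℝ ∞ g (z, s)) (hw : ContDiffAt ℝ ∞ w₀ (g (z, s)))
    (halt : ∀ x u v, w₀ x u v = - w₀ x v u)
    (hcl : ∀ u v w : E m, fderiv ℝ w₀ (g (z, s)) u v w + fderiv ℝ w₀ (g (z, s)) v w u
      + fderiv ℝ w₀ (g (z, s)) w u v = 0) :
    HasDerivAt (fun s' => cartK g w₀ s' z) (dE1 (cartA g w₀ s) z) s := by
  have hS : DifferentiableAt ℝ (TCart.SS g w₀) (z, s) :=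
    (TCart.SS_contDiffAt hg hw).differentiableAt (by simp)
  have h1 := TCart.hasDerivAt_cartK hS
  have h2 := (TCart.hasFDerivAt_cartA hS).fderiv
  have hw' : DifferentiableAt ℝ w₀ (g (z, s)) := hw.differentiableAt (by simp)
  have h3 := FcP.cyc hw' hg (fun a b => halt _ a b) hcl
  have ha : ∀ q u v, TCart.SS g w₀ q u v = - TCart.SS g w₀ q v u := fun q u v => halt _ _ _
  have h4 : TCart.RK n (fderiv ℝ (TCart.SS g w₀) (z, s) (0, 1)) = dE1 (cartA g w₀ s) z := by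
    ext u v
    unfold dE1
    rw [h2]
    simp only [sub_apply, ContinuousLinearMap.flip_apply, ContinuousLinearMap.comp_apply,
      TCart.RK_apply, TCart.RB_apply, ContinuousLinearMap.inl_apply]
    have h5 := h3 (0, 1) (u, 0) (v, 0)
    have h6 := TCart.fderiv_alt hS ha (u, 0) (0, 1) (v, 0)
    unfold TCart.SS at h6 ⊢
    linear_combination h5 - h6
  rw [← h4]
  exact h1

end Pool.Agent.K708
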