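import Pool.Agent.Lib.K708.FcD

/-! # K708, B4: punctured Riemann surfaces are connected; small paths -/

set_option autoImplicit false

open scoped Manifold ContDiff Topology
open Set

noncomputable section

namespace Pool.Agent.K708

namespace TConn

theorem rank_E1 : 1 < Module.rank ℝ (E 1) := by
  have h : Module.finrank ℝ (E 1) = 2 := by
    simp only [E, Module.finrank_pi_fintype, Complex.finrank_real_complex, Finset.sum_const,
      Finset.card_univ, Fintype.card_fin]
    norm_num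
  have h2 := Module.lt_rank_of_lt_finrank (R := ℝ) (M := E 1) (n := 1) (by rw [h]; norm_num)
  exact_mod_cast h2

/-- Punctured balls are connected. -/
theorem isPreconnected_punct_ball (x : E 1) {r : ℝ} (hr : 0 < r) :
    IsPreconnected (Metric.ball x r \ {x}) := by
  have h1 := (isConnected_compl_singleton_of_one_lt_rank rank_E1 (0 : E 1)).isPreconnected
  have hc : Continuous fun v : E 1 => x + (r / (1 + ‖v‖)) • v := by
    have h3 : Continuous fun v : E 1 => r / (1 + ‖v‖) :=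
      continuous_const.div (continuous_const.add continuous_norm) (fun v => by positivity)
    exact continuous_const.add (h3.smul continuous_id')
  have h2 := h1.image _ hc.continuousOn
  convert h2 using 1
  ext y
  constructor
  · rintro ⟨hy, hyx⟩
    rw [Metric.mem_ball, dist_eq_norm] at hy
    have hyx' : y - x ≠ 0 := sub_ne_zero.2 hyx
    have hn : 0 < ‖y - x‖ := norm_pos_iff.2 hyx'
    have hd : 0 < r - ‖y - x‖ := by linarith
    refine ⟨(1 / (r - ‖y - x‖)) • (y - x), ?_, ?_⟩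
    · exact smul_ne_zero (by positivity) hyx'
    · have h3 : ‖(1 / (r - ‖y - x‖)) • (y - x)‖ = ‖y - x‖ / (r - ‖y - x‖) := by
        rw [norm_smul, Real.norm_of_nonneg (by positivity)]
        ring
      simp only [h3, smul_smul]
      have h4 : r / (1 + ‖y - x‖ / (r - ‖y - x‖)) * (1 / (r - ‖y - x‖)) = 1 := by
        have h5 : r - ‖y - x‖ ≠ 0 := hd.ne'
        have h6 : (1 + ‖y - x‖ / (r - ‖y - x‖)) = r / (r - ‖y - x‖) := by
          field_simp
          ring
        rw [h6]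
        field_simp
      rw [h4, one_smul]
      abel
  · rintro ⟨v, hv, rfl⟩
    have hv0 : v ≠ 0 := hv
    have hn : 0 < ‖v‖ := norm_pos_iff.2 hv0
    refine ⟨?_, ?_⟩
    · rw [Metric.mem_ball, dist_eq_norm, add_sub_cancel_left, norm_smul,
        Real.norm_of_nonneg (by positivity), div_mul_eq_mul_div, div_lt_iff₀ (by positivity)]
      nlinarith
    · simp only [mem_singleton_iff, add_eq_left, smul_eq_zero, not_or]
      exact ⟨by positivity, hv0⟩

end TConn

open TConn

theorem conn_punct (B : CMfd 1) (hB : ConnectedSpace B) (o : B) :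
    IsPreconnected ({o}ᶜ : Set B) := by
  classical
  set φ := chartAt (E 1) o with hφd
  have ho : o ∈ φ.source := mem_chart_source (E 1) o
  obtain ⟨r, hr, hb⟩ := Metric.isOpen_iff.1 φ.open_target (φ o) (φ.map_source ho)
  set D₀ : Set B := φ.symm '' Metric.ball (φ o) r with hD
  have hDo : IsOpen D₀ := φ.symm.isOpen_image_of_subset_source Metric.isOpen_ball hb
  have hoD : o ∈ D₀ := ⟨φ o, Metric.mem_ball_self hr, φ.left_inv ho⟩
  have hD' : IsPreconnected (D₀ \ {o}) := by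
    have h1 := (isPreconnected_punct_ball (φ o) hr).image φ.symm
      (φ.continuousOn_symm.mono (sdiff_subset.trans hb))
    convert h1 using 1
    ext y
    constructor
    · rintro ⟨⟨z, hz, rfl⟩, hy⟩
      refine ⟨z, ⟨hz, fun h => hy ?_⟩, rfl⟩
      rw [mem_singleton_iff] at h ⊢
      rw [h, φ.left_inv ho]
    · rintro ⟨z, ⟨hz, hzo⟩, rfl⟩
      refine ⟨⟨z, hz, rfl⟩, fun h => hzo ?_⟩
      rw [mem_singleton_iff] at h ⊢
      rw [← h, φ.right_inv (hb hz)]
  intro u v hu hv huv hsu hsv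
  by_contra hne
  have hso : IsOpen ({o}ᶜ : Set B) := isOpen_compl_singleton
  have hdisj : ∀ x, x ≠ o → x ∈ u → x ∈ v → False := fun x hx h1 h2 =>
    hne ⟨x, hx, h1, h2⟩
  -- one of the two sets contains the punctured disc
  have key : ∀ u v : Set B, IsOpen u → IsOpen v → ({o}ᶜ : Set B) ⊆ u ∪ v →
      ({o}ᶜ ∩ v : Set B).Nonempty → (∀ x, x ≠ o → x ∈ u → x ∈ v → False) →
      D₀ \ {o} ⊆ u → False := by
    intro u v hu hv huv hsv hdisj hDu
    obtain ⟨x, hxo, hxv⟩ := hsv
    have h1 := isPreconnected_univ (α := B) (u ∩ {o}ᶜ ∪ D₀) (v ∩ {o}ᶜ)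
      ((hu.inter hso).union hDo) (hv.inter hso) ?_ ⟨o, mem_univ _, Or.inr hoD⟩
      ⟨x, mem_univ _, hxv, hxo⟩
    · obtain ⟨y, -, hy1, hy2, hy3⟩ := h1
      rcases hy1 with ⟨hy1, _⟩ | hy1
      · exact hdisj y hy3 hy1 hy2
      · exact hdisj y hy3 (hDu ⟨hy1, hy3⟩) hy2
    · intro y _
      by_cases hy : y = o
      · exact Or.inl (Or.inr (hy ▸ hoD))
      · rcases huv hy with h | h
        · exact Or.inl (Or.inl ⟨h, hy⟩)
        · exact Or.inr ⟨h, hy⟩
  have hsub : D₀ \ {o} ⊆ u ∨ D₀ \ {o} ⊆ v := by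
    have h1 : D₀ \ {o} ⊆ (u ∩ {o}ᶜ) ∪ (v ∩ {o}ᶜ) := by
      rintro y ⟨_, hy⟩
      rcases huv hy with h | h
      · exact Or.inl ⟨h, hy⟩
      · exact Or.inr ⟨h, hy⟩
    have h2 : Disjoint (u ∩ {o}ᶜ) (v ∩ {o}ᶜ) := by
      rw [disjoint_left]
      rintro y ⟨h1, h2⟩ ⟨h3, _⟩
      exact hdisj y h2 h1 h3
    rcases hD'.subset_or_subset (hu.inter hso) (hv.inter hso) h2 h1 with h | h
    · exact Or.inl (h.trans inter_subset_left)
    · exact Or.inr (h.trans inter_subset_left)
  rcases hsub with h | h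
  · exact key u v hu hv huv hsv hdisj h
  · exact key v u hv hu (by rwa [union_comm]) hsu (fun x hx h1 h2 => hdisj x hx h2 h1) h

theorem small_paths (B : CMfd 1) (t₀ : B) (U : Set B) (hU : U ∈ 𝓝 t₀) :
    ∃ N : Set B, IsOpen N ∧ t₀ ∈ N ∧ N ⊆ U ∧ ∀ s ∈ N, ∀ t ∈ N, ∃ c : ℝ → B,
      ContMDiff 𝓘(ℝ, ℝ) 𝓘(ℝ, E 1) ∞ c ∧ c 0 = s ∧ c 1 = t ∧ ∀ x, c x ∈ N := by
  set φ := chartAt (E 1) t₀ with hφd
  have hφ : φ ∈ RA 1 B := chartAt_mem_RA (n := 1) t₀
  have ho : t₀ ∈ φ.source := mem_chart_source (E 1) t₀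
  have h1 : φ.target ∩ φ.symm ⁻¹' U ∈ 𝓝 (φ t₀) := by
    refine Filter.inter_mem (φ.open_target.mem_nhds (φ.map_source ho)) ?_
    have h2 : ContinuousAt φ.symm (φ t₀) := φ.continuousAt_symm (φ.map_source ho)
    refine h2 ?_
    rw [φ.left_inv ho]
    exact hU
  obtain ⟨r, hr, hb⟩ := Metric.mem_nhds_iff.1 h1
  have hbt : Metric.ball (φ t₀) r ⊆ φ.target := fun z hz => (hb hz).1
  refine ⟨φ.symm '' Metric.ball (φ t₀) r,
    φ.symm.isOpen_image_of_subset_source Metric.isOpen_ball hbt,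
    ⟨φ t₀, Metric.mem_ball_self hr, φ.left_inv ho⟩, ?_, ?_⟩
  · rintro _ ⟨z, hz, rfl⟩
    exact (hb hz).2
  · rintro _ ⟨z, hz, rfl⟩ _ ⟨w, hw, rfl⟩
    have hmem : ∀ x : ℝ, z + Real.smoothTransition x • (w - z) ∈ Metric.ball (φ t₀) r := by
      intro x
      have h3 := (convex_ball (φ t₀) r) hz hw
        (sub_nonneg.2 (Real.smoothTransition.le_one x)) (Real.smoothTransition.nonneg x)
        (sub_add_cancel _ _)
      convert h3 using 1
      module
    refine ⟨fun x => φ.symm (z + Real.smoothTransition x • (w - z)), ?_, ?_, ?_, ?_⟩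
    · have h4 : ContMDiff 𝓘(ℝ, ℝ) 𝓘(ℝ, E 1) ∞
          (fun x : ℝ => z + Real.smoothTransition x • (w - z)) := by
        rw [contMDiff_iff_contDiff]
        exact contDiff_const.add (Real.smoothTransition.contDiff.smul contDiff_const)
      exact (contMDiffOn_symm_of_mem_maximalAtlas hφ).comp_contMDiff h4
        (fun x => hbt (hmem x))
    · simp
    · simp
    · intro x
      exact ⟨_, hmem x, rfl⟩

end Pool.Agent.K708
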