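import Pool.Agent.Lib.K708.PD

/-! # K708, section B (transport): definitions -/

set_option autoImplicit false

open scoped Manifold ContDiff Topology
open Set

noncomputable section

namespace Pool.Agent.K708

/-- `θ` and `θ'` are mutually inverse smooth maps. -/
structure Dif {n : ℕ} {M N : CMfd n} (θ : M → N) (θ' : N → M) : Prop where
  s : Smth n n θ
  s' : Smth n n θ'
  l : ∀ x, θ' (θ x) = x
  r : ∀ y, θ (θ' y) = y

/-- Smooth trivialisation of `π` over the open set `N`, with retraction `r` to `Y` and inverse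
`H`. -/
structure Triv {T : CMfd 3} {B : CMfd 1} (π : T → B) (Y : CMfd 2) (N : Set B) (r : T → Y)
    (H : Y → B → T) : Prop where
  opn : IsOpen N
  rs : ContMDiffOn 𝓘(ℝ, E 3) 𝓘(ℝ, E 2) ∞ r (π ⁻¹' N)
  hs : ContMDiffOn (𝓘(ℝ, E 2).prod 𝓘(ℝ, E 1)) 𝓘(ℝ, E 3) ∞
    (fun p : Y × B => H p.1 p.2) (univ ×ˢ N)
  pH : ∀ t ∈ N, ∀ y, π (H y t) = t
  rH : ∀ t ∈ N, ∀ y, r (H y t) = y
  Hrp : ∀ q, π q ∈ N → H (r q) (π q) = q

end Pool.Agent.K708
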