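import Mathlib

/-! # K708, B1: inverse function theorem on manifolds -/

set_option autoImplicit false

open scoped Manifold ContDiff Topology
open Set

noncomputable section

namespace Pool.Agent.K708

theorem inv_fun_vec {E F : Type*} [NormedAddCommGroup E] [NormedSpace ℝ E]
    [FiniteDimensional ℝ E] [NormedAddCommGroup F] [NormedSpace ℝ F] [FiniteDimensional ℝ F]
    {g : E → F} {D : Set E} (hD : IsOpen D) (hg : ContDiffOn ℝ ∞ g D) {a : E} (ha : a ∈ D)
    (hd : Function.Bijective (fderiv ℝ g a)) :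
    ∃ G : OpenPartialHomeomorph E F, a ∈ G.source ∧ G.source ⊆ D ∧ (∀ x, G x = g x) ∧
      ContDiffOn ℝ ∞ G.symm G.target := by
  have : CompleteSpace E := FiniteDimensional.complete ℝ E
  have : CompleteSpace F := FiniteDimensional.complete ℝ F
  let e0 : E ≃L[ℝ] F :=
    (LinearEquiv.ofBijective (fderiv ℝ g a : E →ₗ[ℝ] F) hd).toContinuousLinearEquiv
  have he0 : (e0 : E →L[ℝ] F) = fderiv ℝ g a := by
    ext v
    rfl
  have hcd : ∀ z ∈ D, ContDiffAt ℝ ∞ g z := fun z hz => hg.contDiffAt (hD.mem_nhds hz)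
  have hdiff : ∀ z ∈ D, HasFDerivAt g (fderiv ℝ g z) z := fun z hz =>
    ((hcd z hz).differentiableAt (by simp)).hasFDerivAt
  have hf' : HasFDerivAt g (e0 : E →L[ℝ] F) a := by
    rw [he0]
    exact hdiff a ha
  let G0 := (hcd a ha).toOpenPartialHomeomorph g hf' (by simp)
  have hG0 : ∀ z, G0 z = g z := fun z => rfl
  have hS : IsOpen (D ∩ (fderiv ℝ g) ⁻¹' (range ((↑) : (E ≃L[ℝ] F) → E →L[ℝ] F))) :=
    (hg.continuousOn_fderiv_of_isOpen hD (by simp)).isOpen_inter_preimage hD
      ContinuousLinearEquiv.isOpen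
  refine ⟨G0.restrOpen _ hS, ?_, ?_, fun x => rfl, ?_⟩
  · rw [OpenPartialHomeomorph.restrOpen_source]
    exact ⟨(hcd a ha).mem_toOpenPartialHomeomorph_source hf' (by simp), ha, ⟨e0, he0⟩⟩
  · rw [OpenPartialHomeomorph.restrOpen_source]
    exact fun x hx => hx.2.1
  · intro y hy
    have hx := (G0.restrOpen _ hS).map_target hy
    rw [OpenPartialHomeomorph.restrOpen_source] at hx
    obtain ⟨e1, he1⟩ := hx.2.2
    refine ((G0.restrOpen _ hS).contDiffAt_symm (f₀' := e1) hy ?_ ?_).contDiffWithinAt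
    · rw [he1]
      exact hdiff _ hx.2.1
    · exact hcd _ hx.2.1

theorem inv_fun {E₁ H₁ E₂ H₂ : Type*} [NormedAddCommGroup E₁] [NormedSpace ℝ E₁]
    [FiniteDimensional ℝ E₁] [NormedAddCommGroup E₂] [NormedSpace ℝ E₂] [FiniteDimensional ℝ E₂]
    [TopologicalSpace H₁] [TopologicalSpace H₂]
    (I : ModelWithCorners ℝ E₁ H₁) [I.Boundaryless] (J : ModelWithCorners ℝ E₂ H₂)
    [J.Boundaryless] {M N : Type*} [TopologicalSpace M] [ChartedSpace H₁ M] [IsManifold I ∞ M]
    [TopologicalSpace N] [ChartedSpace H₂ N] [IsManifold J ∞ N]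
    {f : M → N} {U : Set M} (hU : IsOpen U) (hf : ContMDiffOn I J ∞ f U) {x : M} (hx : x ∈ U)
    (hd : Function.Bijective (mfderiv I J f x)) :
    ∃ e : OpenPartialHomeomorph M N, x ∈ e.source ∧ e.source ⊆ U ∧ EqOn e f e.source ∧
      ContMDiffOn J I ∞ e.symm e.target := by
  classical
  -- charts with values in the vector spaces
  let φ : OpenPartialHomeomorph M E₁ := (chartAt H₁ x).trans I.toHomeomorph.toOpenPartialHomeomorph
  let ψ : OpenPartialHomeomorph N E₂ :=
    (chartAt H₂ (f x)).trans J.toHomeomorph.toOpenPartialHomeomorph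
  have hφ : ∀ z, φ z = extChartAt I x z := fun z => rfl
  have hψ : ∀ z, ψ z = extChartAt J (f x) z := fun z => rfl
  have hφs : φ.source = (extChartAt I x).source := by
    simp [φ, extChartAt_source]
  have hψs : ψ.source = (extChartAt J (f x)).source := by
    simp [ψ, extChartAt_source]
  have hφ' : ∀ z, φ.symm z = (extChartAt I x).symm z := fun z => rfl
  have hψ' : ∀ z, ψ.symm z = (extChartAt J (f x)).symm z := fun z => rfl
  have hφt : φ.target = (extChartAt I x).target := by
    rw [← φ.image_source_eq_target, ← (extChartAt I x).image_source_eq_target, hφs]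
    rfl
  have hψt : ψ.target = (extChartAt J (f x)).target := by
    rw [← ψ.image_source_eq_target, ← (extChartAt J (f x)).image_source_eq_target, hψs]
    rfl
  have hφm : ContMDiffOn I 𝓘(ℝ, E₁) ∞ φ φ.source := by
    rw [hφs]
    have := contMDiffOn_extChartAt (I := I) (n := ∞) (x := x)
    rwa [← extChartAt_source I] at this
  have hψm : ContMDiffOn J 𝓘(ℝ, E₂) ∞ ψ ψ.source := by
    rw [hψs]
    have := contMDiffOn_extChartAt (I := J) (n := ∞) (x := f x)
    rwa [← extChartAt_source J] at this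
  have hφm' : ContMDiffOn 𝓘(ℝ, E₁) I ∞ φ.symm φ.target := by
    rw [hφt]
    exact contMDiffOn_extChartAt_symm x
  have hψm' : ContMDiffOn 𝓘(ℝ, E₂) J ∞ ψ.symm ψ.target := by
    rw [hψt]
    exact contMDiffOn_extChartAt_symm (f x)
  -- the domain
  have hW : IsOpen (U ∩ f ⁻¹' ψ.source) := hf.continuousOn.isOpen_inter_preimage hU ψ.open_source
  have hD : IsOpen (φ.target ∩ φ.symm ⁻¹' (U ∩ f ⁻¹' ψ.source)) :=
    φ.symm.isOpen_inter_preimage hW
  have hxφ : x ∈ φ.source := by
    rw [hφs]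
    exact mem_extChartAt_source x
  have hxψ : f x ∈ ψ.source := by
    rw [hψs]
    exact mem_extChartAt_source (f x)
  have hgD : ContDiffOn ℝ ∞ (ψ ∘ f ∘ φ.symm) (φ.target ∩ φ.symm ⁻¹' (U ∩ f ⁻¹' ψ.source)) := by
    rw [← contMDiffOn_iff_contDiffOn]
    refine hψm.comp (hf.comp (hφm'.mono inter_subset_left) fun z hz => hz.2.1) fun z hz => hz.2.2
  have ha : φ x ∈ φ.target ∩ φ.symm ⁻¹' (U ∩ f ⁻¹' ψ.source) := by
    refine ⟨φ.map_source hxφ, ?_⟩
    rw [mem_preimage, φ.left_inv hxφ]
    exact ⟨hx, hxψ⟩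
  have hfx : ContMDiffAt I J ∞ f x := hf.contMDiffAt (hU.mem_nhds hx)
  have hder : fderiv ℝ (ψ ∘ f ∘ φ.symm) (φ x) = mfderiv I J f x := by
    rw [(hfx.mdifferentiableAt (by simp)).mfderiv, ModelWithCorners.range_eq_univ,
      fderivWithin_univ]
    rfl
  obtain ⟨G, hG1, hG2, hG3, hG4⟩ := inv_fun_vec hD hgD ha (by rw [hder]; exact hd)
  refine ⟨(φ.trans G).trans ψ.symm, ?_, ?_, ?_, ?_⟩
  · simp only [OpenPartialHomeomorph.trans_source, OpenPartialHomeomorph.symm_source,
      OpenPartialHomeomorph.coe_trans, mem_inter_iff, mem_preimage, Function.comp_apply]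
    refine ⟨⟨hxφ, hG1⟩, ?_⟩
    rw [hG3]
    simp only [Function.comp_apply]
    rw [φ.left_inv hxφ]
    exact ψ.map_source hxψ
  · intro z hz
    simp only [OpenPartialHomeomorph.trans_source, OpenPartialHomeomorph.symm_source,
      OpenPartialHomeomorph.coe_trans, mem_inter_iff, mem_preimage, Function.comp_apply] at hz
    have := (hG2 hz.1.2).2
    rw [mem_preimage, φ.left_inv hz.1.1] at this
    exact this.1
  · intro z hz
    simp only [OpenPartialHomeomorph.trans_source, OpenPartialHomeomorph.symm_source,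
      OpenPartialHomeomorph.coe_trans, mem_inter_iff, mem_preimage, Function.comp_apply] at hz
    have h1 := (hG2 hz.1.2).2
    rw [mem_preimage, φ.left_inv hz.1.1] at h1
    simp only [OpenPartialHomeomorph.coe_trans, Function.comp_apply]
    rw [hG3]
    simp only [Function.comp_apply]
    rw [φ.left_inv hz.1.1, ψ.left_inv h1.2]
  · have h0 : ∀ (a : OpenPartialHomeomorph M E₁) (b : OpenPartialHomeomorph E₁ E₂)
        (c : OpenPartialHomeomorph N E₂),
        ((a.trans b).trans c.symm).symm = c.trans (b.symm.trans a.symm) := by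
      intro a b c
      rw [OpenPartialHomeomorph.trans_symm_eq_symm_trans_symm,
        OpenPartialHomeomorph.trans_symm_eq_symm_trans_symm, OpenPartialHomeomorph.symm_symm]
    have h1 : ((φ.trans G).trans ψ.symm).symm = ψ.trans (G.symm.trans φ.symm) := h0 φ G ψ
    rw [← OpenPartialHomeomorph.symm_source, h1]
    have h2 : ContMDiffOn 𝓘(ℝ, E₂) 𝓘(ℝ, E₁) ∞ G.symm G.target := hG4.contMDiffOn
    simp only [OpenPartialHomeomorph.trans_source, OpenPartialHomeomorph.coe_trans,
      OpenPartialHomeomorph.symm_source]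
    refine hφm'.comp ?_ fun z hz => hz.2.2
    exact h2.comp (hψm.mono inter_subset_left) fun z hz => hz.2.1

end Pool.Agent.K708
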