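import Pool.Agent.Lib.K708.TDefs
import Pool.Agent.Lib.K708.TInv
import Pool.Agent.Lib.K708.FcD

/-! # K708, B6: the fibres over a trivialising open set are diffeomorphic -/

set_option autoImplicit false

open scoped Manifold ContDiff Topology
open Set

noncomputable section

namespace Pool.Agent.K708

/-- In a trivialisation, a tangent vector killed by `dr` and `dπ` vanishes. -/
theorem Triv.inj {T : CMfd 3} {B : CMfd 1} {π : T → B} {Y : CMfd 2} {N : Set B} {r : T → Y}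
    {H : Y → B → T} (h : Triv π Y N r H) (hπ : Holo 3 1 π) {q : T} (hq : π q ∈ N) {v : E 3}
    (h1 : D 3 2 r q v = 0) (h2 : D 3 1 π q v = 0) : v = 0 := by
  have hop : IsOpen (π ⁻¹' N) := h.opn.preimage hπ.continuous
  have hopF : IsOpen ((univ : Set Y) ×ˢ N) := isOpen_univ.prod h.opn
  have hr : MDifferentiableAt 𝓘(ℝ, E 3) 𝓘(ℝ, E 2) r q :=
    (h.rs.contMDiffAt (hop.mem_nhds hq)).mdifferentiableAt (by simp)
  have hp : MDifferentiableAt 𝓘(ℝ, E 3) 𝓘(ℝ, E 1) π q := hπ.smth.mdiff q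
  have hP : MDifferentiableAt 𝓘(ℝ, E 3) (𝓘(ℝ, E 2).prod 𝓘(ℝ, E 1))
      (fun q => ((r q, π q) : Y × B)) q := hr.prodMk hp
  have hF : MDifferentiableAt (𝓘(ℝ, E 2).prod 𝓘(ℝ, E 1)) 𝓘(ℝ, E 3)
      (fun p : Y × B => H p.1 p.2) ((fun q => ((r q, π q) : Y × B)) q) :=
    (h.hs.contMDiffAt (hopF.mem_nhds ⟨mem_univ _, hq⟩)).mdifferentiableAt (by simp)
  have hcomp := mfderiv_comp q hF hP
  have hid : ((fun p : Y × B => H p.1 p.2) ∘ (fun q => ((r q, π q) : Y × B))) =ᶠ[𝓝 q] id := by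
    filter_upwards [hop.mem_nhds hq] with y hy
    exact h.Hrp y hy
  rw [hid.mfderiv_eq, mfderiv_id, mfderiv_prodMk hr hp] at hcomp
  let L : (E 2 × E 1) →L[ℝ] E 3 := mfderiv (𝓘(ℝ, E 2).prod 𝓘(ℝ, E 1)) 𝓘(ℝ, E 3)
      (fun p : Y × B => H p.1 p.2) ((fun q => ((r q, π q) : Y × B)) q)
  have h5 : v = L (D 3 2 r q v, D 3 1 π q v) := congrArg (fun L => L v) hcomp
  rw [h5, h1, h2]
  exact L.map_zero

/-- A smooth bijection with injective derivatives has a smooth inverse. -/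
theorem Smth.inv_of_inj {n : ℕ} {M N : CMfd n} {θ : M → N} {θ' : N → M} (hs : Smth n n θ)
    (hl : ∀ x, θ' (θ x) = x) (hr : ∀ y, θ (θ' y) = y)
    (hd : ∀ x u, D n n θ x u = 0 → u = 0) : Smth n n θ' := by
  intro y
  have hbij : Function.Bijective (D n n θ (θ' y)) := by
    have hinj : Function.Injective (D n n θ (θ' y)) := by
      intro u v huv
      have : D n n θ (θ' y) (u - v) = 0 := by rw [map_sub, huv, sub_self]
      exact sub_eq_zero.1 (hd _ _ this)
    exact ⟨hinj, (LinearMap.injective_iff_surjective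
      (f := (D n n θ (θ' y) : E n →ₗ[ℝ] E n))).1 hinj⟩
  obtain ⟨e, he1, -, he2, he3⟩ := inv_fun 𝓘(ℝ, E n) 𝓘(ℝ, E n) (f := θ) isOpen_univ
    hs.contMDiffOn (mem_univ (θ' y)) hbij
  have hy : y ∈ e.target := by
    have := e.map_source he1
    rwa [he2 he1, hr] at this
  refine (he3.contMDiffAt (e.open_target.mem_nhds hy)).congr_of_eventuallyEq ?_
  filter_upwards [e.open_target.mem_nhds hy] with w hw
  have h1 : θ (e.symm w) = w := by
    rw [← he2 (e.map_target hw)]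
    exact e.right_inv hw
  rw [← h1, hl, h1]

theorem Triv.dif {T : CMfd 3} {B : CMfd 1} {π : T → B} {Y : CMfd 2} {N : Set B} {r : T → Y}
    {H : Y → B → T} (h : Triv π Y N r H) (hπ : Holo 3 1 π) {t : B} (ht : t ∈ N) {Z : CMfd 2}
    {ι : Z → T} (hι : IsFib π t ι) :
    ∃ θ' : Y → Z, Dif (fun z => r (ι z)) θ' ∧ ∀ y, ι (θ' y) = H y t := by
  have hex : ∀ y, ∃ z, ι z = H y t := by
    intro y
    have h1 : H y t ∈ range ι := by
      rw [hι.range]
      exact h.pH t ht y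
    exact h1
  choose θ' hθ' using hex
  have hπι : ∀ z, π (ι z) = t := by
    intro z
    have h1 : ι z ∈ range ι := ⟨z, rfl⟩
    rw [hι.range] at h1
    exact h1
  have hιs : Smth 2 3 ι := hι.emb.holo.smth
  have hs : Smth 2 2 (fun z => r (ι z)) := by
    intro z
    have hop : IsOpen (π ⁻¹' N) := h.opn.preimage hπ.continuous
    have h1 : ContMDiffAt 𝓘(ℝ, E 3) 𝓘(ℝ, E 2) ∞ r (ι z) :=
      h.rs.contMDiffAt (hop.mem_nhds (by rw [mem_preimage, hπι]; exact ht))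
    exact h1.comp z (hιs z)
  have hl : ∀ z, θ' (r (ι z)) = z := by
    intro z
    apply hι.emb.emb.injective
    rw [hθ']
    have h1 := h.Hrp (ι z) (by rw [hπι]; exact ht)
    rwa [hπι] at h1
  have hr : ∀ y, r (ι (θ' y)) = y := by
    intro y
    rw [hθ']
    exact h.rH t ht y
  refine ⟨θ', ⟨hs, Smth.inv_of_inj hs hl hr ?_, hl, hr⟩, hθ'⟩
  intro z u hu
  have hop : IsOpen (π ⁻¹' N) := h.opn.preimage hπ.continuous
  have hzN : π (ι z) ∈ N := by rw [hπι]; exact ht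
  have h1 : D 2 2 (r ∘ ι) z = (D 3 2 r (ι z)).comp (D 2 3 ι z) :=
    D_comp ((h.rs.contMDiffAt (hop.mem_nhds hzN)).mdifferentiableAt (by simp)) (hιs.mdiff z)
  have h2 : D 2 1 (π ∘ ι) z = (D 3 1 π (ι z)).comp (D 2 3 ι z) :=
    D_comp (hπ.smth.mdiff _) (hιs.mdiff z)
  have h3 : D 2 1 (π ∘ ι) z = 0 := by
    have : (π ∘ ι) = fun _ => t := funext hπι
    rw [this]
    exact mfderiv_const
  have h4 : D 2 3 ι z u = 0 := by
    refine h.inj hπ hzN ?_ ?_
    · have h5 : D 2 2 (r ∘ ι) z u = 0 := hu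
      rw [h1] at h5
      exact h5
    · rw [h3] at h2
      exact (congrArg (fun L => L u) h2).symm
  rw [D_eq_DC (hι.emb.holo z)] at h4
  exact hι.emb.imm z (by rw [h4, map_zero])

end Pool.Agent.K708
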