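import Pool.Agent.Lib.K708.FcD

/-! # K708, B3: a smooth map to a Euclidean space which is an embedding on a compact set -/

set_option autoImplicit false

open scoped Manifold ContDiff Topology
open Set

noncomputable section

namespace Pool.Agent.K708

theorem exists_emb_compact {n : ℕ} (T : CMfd n) (K : Set T) (hK : IsCompact K) :
    ∃ (m : ℕ) (Ψ : T → EuclideanSpace ℝ (Fin m)),
      ContMDiff 𝓘(ℝ, E n) 𝓘(ℝ, EuclideanSpace ℝ (Fin m)) ∞ Ψ ∧ InjOn Ψ K ∧
      ∀ x ∈ K, Function.Injective (mfderiv 𝓘(ℝ, E n) 𝓘(ℝ, EuclideanSpace ℝ (Fin m)) Ψ x) := by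
  classical
  have hne : ∀ x : T, Nonempty (SmoothBumpFunction 𝓘(ℝ, E n) x) := fun x => inferInstance
  set b : ∀ x : T, SmoothBumpFunction 𝓘(ℝ, E n) x := fun x => (hne x).some with hb
  set U : T → Set T := fun x => interior {y | b x y = 1} with hU
  have hUx : ∀ x, x ∈ U x := fun x => mem_interior_iff_mem_nhds.2 (b x).eventuallyEq_one
  have hU1 : ∀ i x, x ∈ U i → b i x = 1 := fun i x hx =>
    (interior_subset hx : x ∈ {y | b i y = 1})
  obtain ⟨s, hsK, hs⟩ := hK.elim_nhds_subcover U (fun x _ => isOpen_interior.mem_nhds (hUx x))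
  set Ψ₀ : T → (s → E n × ℝ) := fun x i => (b i x • chartAt (E n) (i : T) x, b i x) with hΨ₀
  have hΨ₀s : ContMDiff 𝓘(ℝ, E n) 𝓘(ℝ, s → E n × ℝ) ∞ Ψ₀ := by
    refine contMDiff_pi_space.2 fun i => ?_
    have h1 : ContMDiffOn 𝓘(ℝ, E n) 𝓘(ℝ, E n) ∞ (chartAt (E n) (i : T))
        (chartAt (E n) (i : T)).source :=
      contMDiffOn_of_mem_maximalAtlas (chartAt_mem_RA (i : T))
    exact ((b i).contMDiff_smul h1).prodMk_space (b i).contMDiff
  set F := EuclideanSpace ℝ (Fin <| Module.finrank ℝ (s → E n × ℝ))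
  set eEF : (s → E n × ℝ) ≃L[ℝ] F :=
    ContinuousLinearEquiv.ofFinrankEq finrank_euclideanSpace_fin.symm
  have hsm : ContMDiff 𝓘(ℝ, E n) 𝓘(ℝ, F) ∞ (eEF ∘ Ψ₀) :=
    eEF.contDiff.contMDiff.comp hΨ₀s
  refine ⟨_, eEF ∘ Ψ₀, hsm, ?_, fun x hx => ?_⟩
  · refine eEF.injective.comp_injOn ?_
    intro x hx y _ h
    obtain ⟨i, hi, hxi⟩ := mem_iUnion₂.1 (hs hx)
    have h1 : b i x = 1 := hU1 i x hxi
    have h2 := congrFun h ⟨i, hi⟩
    have h3 : b i x = b i y := (Prod.ext_iff.1 h2).2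
    have h4 : b i x • chartAt (E n) i x = b i y • chartAt (E n) i y := (Prod.ext_iff.1 h2).1
    rw [← h3, h1, one_smul, one_smul] at h4
    have hxs : x ∈ (chartAt (E n) i).source := (b i).support_subset_source (by
      rw [Function.mem_support, h1]; exact one_ne_zero)
    have hys : y ∈ (chartAt (E n) i).source := (b i).support_subset_source (by
      rw [Function.mem_support, ← h3, h1]; exact one_ne_zero)
    exact (chartAt (E n) i).injOn hxs hys h4
  · obtain ⟨i, hi, hxi⟩ := mem_iUnion₂.1 (hs hx)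
    have hxs : x ∈ (chartAt (E n) i).source := (b i).support_subset_source (by
      rw [Function.mem_support, hU1 i x hxi]; exact one_ne_zero)
    set L : F →L[ℝ] E n := (((ContinuousLinearMap.fst ℝ (E n) ℝ).comp
      (ContinuousLinearMap.proj (R := ℝ) (φ := fun _ : s => E n × ℝ) ⟨i, hi⟩)).comp
        (eEF.symm : F →L[ℝ] (s → E n × ℝ))) with hL
    have hev : (L ∘ (eEF ∘ Ψ₀)) =ᶠ[𝓝 x] chartAt (E n) i := by
      have h1 : ∀ᶠ y in 𝓝 x, b i y = 1 := mem_interior_iff_mem_nhds.1 hxi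
      filter_upwards [h1] with y hy
      simp [hL, hΨ₀, hy]
    have h2 : HasMFDerivAt 𝓘(ℝ, F) 𝓘(ℝ, E n) L ((eEF ∘ Ψ₀) x) L := L.hasMFDerivAt
    have h3 := (hsm x).mdifferentiableAt (by simp) |>.hasMFDerivAt
    have h4 := h2.comp x h3
    have h5 : HasMFDerivAt 𝓘(ℝ, E n) 𝓘(ℝ, E n) (chartAt (E n) i) x
        (mfderiv 𝓘(ℝ, E n) 𝓘(ℝ, E n) (chartAt (E n) i) x) :=
      (mdiff_chart (chartAt_mem_RA i) hxs).hasMFDerivAt
    have h6 := hasMFDerivAt_unique h5 (h4.congr_of_eventuallyEq hev.symm)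
    intro u v huv
    have h7 : (D n n (chartAt (E n) i) x) u = (D n n (chartAt (E n) i) x) v := by
      show (mfderiv 𝓘(ℝ, E n) 𝓘(ℝ, E n) (chartAt (E n) i) x) u = _
      rw [h6]
      show L (mfderiv 𝓘(ℝ, E n) 𝓘(ℝ, F) (eEF ∘ Ψ₀) x u) =
        (mfderiv 𝓘(ℝ, E n) 𝓘(ℝ, E n) (chartAt (E n) i) x) v
      rw [h6, huv]
      rfl
    have h8 := D_symm_comp (chartAt_mem_RA i) hxs
    have h9 := congrArg (fun A : E n →L[ℝ] E n => A u) h8
    have h10 := congrArg (fun A : E n →L[ℝ] E n => A v) h8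
    simp only [ContinuousLinearMap.comp_apply, ContinuousLinearMap.id_apply] at h9 h10
    rw [← h9, ← h10, h7]

end Pool.Agent.K708
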