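import Pool.Agent.Lib.K708.TCart
import Pool.Agent.Lib.K708.FcP

/-! # K708, B7b: variation of the pull-back of a closed 2-form under a homotopy -/

set_option autoImplicit false

open scoped Manifold ContDiff Topology
open Set

noncomputable section

namespace Pool.Agent.K708

namespace TFam

variable {n m : ℕ} {M : CMfd n} {T : CMfd m}

/-- `∂_s G`. -/
def ds (G : M × ℝ → T) (y : M) (s : ℝ) : E m :=
  (mfderiv 𝓘(ℝ, ℝ) 𝓘(ℝ, E m) (fun s' : ℝ => G (y, s')) s : ℝ →L[ℝ] E m) 1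

/-- the 1-form `τ(∂_s G, DG_s ·)` -/
def al (G : M × ℝ → T) (τ : F2 m T) (s : ℝ) : F1 n M := fun y =>
  (τ (G (y, s)) (ds G y s)).comp (D n m (fun y => G (y, s)) y)

/-- local expression of `G` -/
def gg (φ : OpenPartialHomeomorph M (E n)) (ψ : OpenPartialHomeomorph T (E m)) (G : M × ℝ → T)
    (p : E n × ℝ) : E m := ψ (G (φ.symm p.1, p.2))

/-- the domain of the local expression -/
def OO (φ : OpenPartialHomeomorph M (E n)) (ψ : OpenPartialHomeomorph T (E m)) (G : M × ℝ → T) :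
    Set (E n × ℝ) := {p | p.1 ∈ φ.target ∧ G (φ.symm p.1, p.2) ∈ ψ.source}

theorem isOpen_OO {φ : OpenPartialHomeomorph M (E n)} {ψ : OpenPartialHomeomorph T (E m)}
    {G : M × ℝ → T} (hG : Continuous G) : IsOpen (OO φ ψ G) := by
  have h1 : ContinuousOn (fun p : E n × ℝ => G (φ.symm p.1, p.2)) (φ.target ×ˢ univ) := by
    refine hG.comp_continuousOn ?_
    refine ContinuousOn.prodMk ?_ continuousOn_snd
    exact φ.continuousOn_symm.comp continuousOn_fst (fun p hp => hp.1)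
  have h2 := h1.isOpen_inter_preimage (φ.open_target.prod isOpen_univ) ψ.open_source
  convert h2 using 1
  ext p
  simp [OO]

theorem gg_contDiffAt {φ : OpenPartialHomeomorph M (E n)} {ψ : OpenPartialHomeomorph T (E m)}
    (hφ : φ ∈ RA n M) (hψ : ψ ∈ RA m T) {G : M × ℝ → T}
    (hG : ContMDiff (𝓘(ℝ, E n).prod 𝓘(ℝ, ℝ)) 𝓘(ℝ, E m) ∞ G) {p : E n × ℝ}
    (hp : p ∈ OO φ ψ G) : ContDiffAt ℝ ∞ (gg φ ψ G) p := by
  rw [← contMDiffAt_iff_contDiffAt]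
  have h1 : ContMDiffAt 𝓘(ℝ, E n) 𝓘(ℝ, E n) ∞ φ.symm p.1 :=
    (contMDiffOn_symm_of_mem_maximalAtlas hφ).contMDiffAt (φ.open_target.mem_nhds hp.1)
  have h2 : ContMDiffAt 𝓘(ℝ, E n × ℝ) 𝓘(ℝ, E n) ∞ (fun p : E n × ℝ => p.1) p :=
    contDiff_fst.contMDiff.contMDiffAt
  have h3 : ContMDiffAt 𝓘(ℝ, E n × ℝ) 𝓘(ℝ, ℝ) ∞ (fun p : E n × ℝ => p.2) p :=
    contDiff_snd.contMDiff.contMDiffAt
  have h4 : ContMDiffAt 𝓘(ℝ, E n × ℝ) 𝓘(ℝ, E n) ∞ (fun p : E n × ℝ => φ.symm p.1) p :=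
    ContMDiffAt.comp p h1 h2
  have h5 : ContMDiffAt 𝓘(ℝ, E n × ℝ) (𝓘(ℝ, E n).prod 𝓘(ℝ, ℝ)) ∞
      (fun p : E n × ℝ => (φ.symm p.1, p.2)) p := h4.prodMk h3
  have h6 : ContMDiffAt 𝓘(ℝ, E n × ℝ) 𝓘(ℝ, E m) ∞
      (fun p : E n × ℝ => G (φ.symm p.1, p.2)) p := (hG _).comp p h5
  have h7 : ContMDiffAt 𝓘(ℝ, E m) 𝓘(ℝ, E m) ∞ ψ (G (φ.symm p.1, p.2)) :=
    contMDiffAt_of_mem_maximalAtlas hψ hp.2
  exact h7.comp p h6

theorem smth_slice {G : M × ℝ → T}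
    (hG : ContMDiff (𝓘(ℝ, E n).prod 𝓘(ℝ, ℝ)) 𝓘(ℝ, E m) ∞ G) (s : ℝ) :
    Smth n m (fun y => G (y, s)) :=
  hG.comp (contMDiff_id.prodMk contMDiff_const)

theorem smth_path {G : M × ℝ → T}
    (hG : ContMDiff (𝓘(ℝ, E n).prod 𝓘(ℝ, ℝ)) 𝓘(ℝ, E m) ∞ G) (y : M) :
    ContMDiff 𝓘(ℝ, ℝ) 𝓘(ℝ, E m) ∞ (fun s => G (y, s)) :=
  hG.comp (contMDiff_const.prodMk contMDiff_id)

theorem fderiv_slice {φ : OpenPartialHomeomorph M (E n)} {ψ : OpenPartialHomeomorph T (E m)}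
    {G : M × ℝ → T} {z : E n} {s : ℝ} (h : DifferentiableAt ℝ (gg φ ψ G) (z, s)) :
    fderiv ℝ (ψ ∘ (fun y => G (y, s)) ∘ φ.symm) z =
      (fderiv ℝ (gg φ ψ G) (z, s)).comp (ContinuousLinearMap.inl ℝ (E n) ℝ) := by
  have h1 : HasFDerivAt (fun y : E n => (y, s)) (ContinuousLinearMap.inl ℝ (E n) ℝ) z :=
    hasFDerivAt_prodMk_left z s
  exact (HasFDerivAt.comp (g := gg φ ψ G) (f := fun y : E n => (y, s)) z
    h.hasFDerivAt h1).fderiv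

theorem ds_eq {φ : OpenPartialHomeomorph M (E n)} {ψ : OpenPartialHomeomorph T (E m)}
    (hφ : φ ∈ RA n M) (hψ : ψ ∈ RA m T) {G : M × ℝ → T}
    (hG : ContMDiff (𝓘(ℝ, E n).prod 𝓘(ℝ, ℝ)) 𝓘(ℝ, E m) ∞ G) {z : E n} {s : ℝ}
    (hp : (z, s) ∈ OO φ ψ G) :
    ds G (φ.symm z) s = D m m ψ.symm (gg φ ψ G (z, s)) (fderiv ℝ (gg φ ψ G) (z, s) (0, 1)) := by
  have hg : DifferentiableAt ℝ (gg φ ψ G) (z, s) :=
    (gg_contDiffAt hφ hψ hG hp).differentiableAt (by simp)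
  set c : ℝ → T := fun s' => G (φ.symm z, s') with hc
  have hcs : ContMDiff 𝓘(ℝ, ℝ) 𝓘(ℝ, E m) ∞ c := smth_path hG _
  have hsrc : c s ∈ ψ.source := hp.2
  have hev : c =ᶠ[𝓝 s] ψ.symm ∘ (ψ ∘ c) := by
    have : ∀ᶠ s' in 𝓝 s, c s' ∈ ψ.source :=
      hcs.continuous.continuousAt.preimage_mem_nhds (ψ.open_source.mem_nhds hsrc)
    filter_upwards [this] with s' hs'
    exact (ψ.left_inv hs').symm
  have hd1 : HasDerivAt (ψ ∘ c) (fderiv ℝ (gg φ ψ G) (z, s) (0, 1)) s := by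
    have h1 : HasDerivAt (fun y : ℝ => (z, y)) ((0 : E n), (1 : ℝ)) s :=
      (hasDerivAt_const s z).prodMk (hasDerivAt_id s)
    exact HasFDerivAt.comp_hasDerivAt (l := gg φ ψ G) (f := fun y : ℝ => (z, y)) s
      hg.hasFDerivAt h1
  have hd2 : MDifferentiableAt 𝓘(ℝ, ℝ) 𝓘(ℝ, E m) (ψ ∘ c) s :=
    hd1.differentiableAt.mdifferentiableAt
  have hd3 : MDifferentiableAt 𝓘(ℝ, E m) 𝓘(ℝ, E m) ψ.symm ((ψ ∘ c) s) :=
    mdiff_chart_symm hψ (ψ.map_source hsrc)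
  have h5 : mfderiv 𝓘(ℝ, ℝ) 𝓘(ℝ, E m) c s =
      (mfderiv 𝓘(ℝ, E m) 𝓘(ℝ, E m) ψ.symm ((ψ ∘ c) s)).comp
        (mfderiv 𝓘(ℝ, ℝ) 𝓘(ℝ, E m) (ψ ∘ c) s) := by
    rw [hev.mfderiv_eq]
    exact mfderiv_comp s hd3 hd2
  have h6 : mfderiv 𝓘(ℝ, ℝ) 𝓘(ℝ, E m) (ψ ∘ c) s = fderiv ℝ (ψ ∘ c) s := mfderiv_eq_fderiv
  have h7 : fderiv ℝ (ψ ∘ c) s 1 = fderiv ℝ (gg φ ψ G) (z, s) (0, 1) := by
    rw [hd1.hasFDerivAt.fderiv]; simp
  show (mfderiv 𝓘(ℝ, ℝ) 𝓘(ℝ, E m) c s : ℝ →L[ℝ] E m) 1 = _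
  rw [h5, h6]
  show (mfderiv 𝓘(ℝ, E m) 𝓘(ℝ, E m) ψ.symm ((ψ ∘ c) s) : E m →L[ℝ] E m)
    ((fderiv ℝ (ψ ∘ c) s) 1) = _
  rw [h7]
  rfl

theorem loc2_fam {φ : OpenPartialHomeomorph M (E n)} {ψ : OpenPartialHomeomorph T (E m)}
    (hφ : φ ∈ RA n M) (hψ : ψ ∈ RA m T) {G : M × ℝ → T}
    (hG : ContMDiff (𝓘(ℝ, E n).prod 𝓘(ℝ, ℝ)) 𝓘(ℝ, E m) ∞ G) (τ : F2 m T) {z : E n} {s : ℝ}
    (hp : (z, s) ∈ OO φ ψ G) :
    loc2 φ (pb2 n (fun y => G (y, s)) τ) z = cartK (gg φ ψ G) (loc2 ψ τ) s z := by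
  have hg : DifferentiableAt ℝ (gg φ ψ G) (z, s) :=
    (gg_contDiffAt hφ hψ hG hp).differentiableAt (by simp)
  rw [loc2_pb2 hφ hψ hp.1 hp.2 ((smth_slice hG s).mdiff _) τ, fderiv_slice hg]
  rfl

theorem loc1_fam {φ : OpenPartialHomeomorph M (E n)} {ψ : OpenPartialHomeomorph T (E m)}
    (hφ : φ ∈ RA n M) (hψ : ψ ∈ RA m T) {G : M × ℝ → T}
    (hG : ContMDiff (𝓘(ℝ, E n).prod 𝓘(ℝ, ℝ)) 𝓘(ℝ, E m) ∞ G) (τ : F2 m T) {z : E n} {s : ℝ}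
    (hp : (z, s) ∈ OO φ ψ G) :
    loc1 φ (al G τ s) z = cartA (gg φ ψ G) (loc2 ψ τ) s z := by
  have hg : DifferentiableAt ℝ (gg φ ψ G) (z, s) :=
    (gg_contDiffAt hφ hψ hG hp).differentiableAt (by simp)
  have h1 := D_loc' hφ hψ hp.1 hp.2 ((smth_slice hG s).mdiff _)
  rw [fderiv_slice hg] at h1
  have h2 := ds_eq hφ hψ hG hp
  have h3 : ψ.symm (gg φ ψ G (z, s)) = G (φ.symm z, s) := ψ.left_inv hp.2
  ext v
  show τ (G (φ.symm z, s)) (ds G (φ.symm z) s)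
    (((D n m (fun y => G (y, s)) (φ.symm z)).comp (D n n φ.symm z)) v) = _
  rw [h1, h2]
  show _ = τ (ψ.symm (gg φ ψ G (z, s))) (D m m ψ.symm (gg φ ψ G (z, s)) _)
    (D m m ψ.symm (gg φ ψ G (z, s)) _)
  rw [h3]
  rfl

theorem w_contDiffAt {φ : OpenPartialHomeomorph M (E n)} {ψ : OpenPartialHomeomorph T (E m)}
    (hψ : ψ ∈ RA m T) {G : M × ℝ → T} {τ : F2 m T} (hτ : S2 τ) {p : E n × ℝ}
    (hp : p ∈ OO φ ψ G) : ContDiffAt ℝ ∞ (loc2 ψ τ) (gg φ ψ G p) :=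
  hτ.contDiffAt hψ (ψ.map_source hp.2)

theorem SS_cd {φ : OpenPartialHomeomorph M (E n)} {ψ : OpenPartialHomeomorph T (E m)}
    (hφ : φ ∈ RA n M) (hψ : ψ ∈ RA m T) {G : M × ℝ → T}
    (hG : ContMDiff (𝓘(ℝ, E n).prod 𝓘(ℝ, ℝ)) 𝓘(ℝ, E m) ∞ G) {τ : F2 m T} (hτ : S2 τ)
    {p : E n × ℝ} (hp : p ∈ OO φ ψ G) :
    ContDiffAt ℝ ∞ (TCart.SS (gg φ ψ G) (loc2 ψ τ)) p :=
  TCart.SS_contDiffAt (gg_contDiffAt hφ hψ hG hp) (w_contDiffAt hψ hτ hp)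

/-- nearby points stay in the domain -/
theorem ev_slice {φ : OpenPartialHomeomorph M (E n)} {ψ : OpenPartialHomeomorph T (E m)}
    {G : M × ℝ → T} (hG : Continuous G) {z : E n} {s : ℝ} (hp : (z, s) ∈ OO φ ψ G) :
    ∀ᶠ y in 𝓝 z, (y, s) ∈ OO φ ψ G := by
  have h : ContinuousAt (fun y : E n => (y, s)) z := by fun_prop
  exact h.preimage_mem_nhds ((isOpen_OO hG).mem_nhds hp)

theorem ev_path {φ : OpenPartialHomeomorph M (E n)} {ψ : OpenPartialHomeomorph T (E m)}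
    {G : M × ℝ → T} (hG : Continuous G) {z : E n} {s : ℝ} (hp : (z, s) ∈ OO φ ψ G) :
    ∀ᶠ t in 𝓝 s, (z, t) ∈ OO φ ψ G := by
  have h : ContinuousAt (fun t : ℝ => (z, t)) s := by fun_prop
  exact h.preimage_mem_nhds ((isOpen_OO hG).mem_nhds hp)

theorem loc1_ev {φ : OpenPartialHomeomorph M (E n)} {ψ : OpenPartialHomeomorph T (E m)}
    (hφ : φ ∈ RA n M) (hψ : ψ ∈ RA m T) {G : M × ℝ → T}
    (hG : ContMDiff (𝓘(ℝ, E n).prod 𝓘(ℝ, ℝ)) 𝓘(ℝ, E m) ∞ G) (τ : F2 m T) {z : E n} {s : ℝ}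
    (hp : (z, s) ∈ OO φ ψ G) :
    loc1 φ (al G τ s) =ᶠ[𝓝 z] cartA (gg φ ψ G) (loc2 ψ τ) s := by
  filter_upwards [ev_slice hG.continuous hp] with y hy
  exact loc1_fam hφ hψ hG τ hy

theorem RB_cd : ContDiff ℝ ∞ (TCart.RB n) :=
  ContinuousLinearMap.contDiff (𝕜 := ℝ) (E := (E n × ℝ) →L[ℝ] (E n × ℝ) →L[ℝ] ℂ)
    (F := E n →L[ℝ] ℂ) (TCart.RB n)

theorem S1_al {G : M × ℝ → T}
    (hG : ContMDiff (𝓘(ℝ, E n).prod 𝓘(ℝ, ℝ)) 𝓘(ℝ, E m) ∞ G) {τ : F2 m T} (hτ : S2 τ) (s : ℝ) :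
    S1 (al G τ s) := by
  refine S1_of_local fun x => ⟨chartAt (E n) x, chartAt_mem_RA x, mem_chart_source _ x, ?_⟩
  set φ := chartAt (E n) x
  have hφ : φ ∈ RA n M := chartAt_mem_RA x
  have hx : x ∈ φ.source := mem_chart_source _ x
  set ψ := chartAt (E m) (G (x, s))
  have hψ : ψ ∈ RA m T := chartAt_mem_RA _
  have hp : (φ x, s) ∈ OO φ ψ G := by
    refine ⟨φ.map_source hx, ?_⟩
    show G (φ.symm (φ x), s) ∈ ψ.source
    rw [φ.left_inv hx]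
    exact mem_chart_source _ _
  refine ContDiffAt.congr_of_eventuallyEq ?_ (loc1_ev hφ hψ hG τ hp)
  have h1 := SS_cd hφ hψ hG hτ hp
  have h2 : ContDiffAt ℝ ∞ (fun y : E n => (y, s)) (φ x) :=
    contDiffAt_id.prodMk contDiffAt_const
  have h3 : ContDiffAt ℝ ∞ (fun y : E n => TCart.SS (gg φ ψ G) (loc2 ψ τ) (y, s)) (φ x) :=
    ContDiffAt.comp (g := TCart.SS (gg φ ψ G) (loc2 ψ τ)) (f := fun y : E n => (y, s)) (φ x) h1 h2
  exact ContDiffAt.comp (g := TCart.RB n)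
    (f := fun y : E n => TCart.SS (gg φ ψ G) (loc2 ψ τ) (y, s)) (φ x) RB_cd.contDiffAt h3

/-- the exterior derivative of `al` in the chart -/
theorem dE1_al {φ : OpenPartialHomeomorph M (E n)} {ψ : OpenPartialHomeomorph T (E m)}
    (hφ : φ ∈ RA n M) (hψ : ψ ∈ RA m T) {G : M × ℝ → T}
    (hG : ContMDiff (𝓘(ℝ, E n).prod 𝓘(ℝ, ℝ)) 𝓘(ℝ, E m) ∞ G) (τ : F2 m T) {z : E n} {s : ℝ}
    (hp : (z, s) ∈ OO φ ψ G) :
    dE1 (loc1 φ (al G τ s)) z = dE1 (cartA (gg φ ψ G) (loc2 ψ τ) s) z := by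
  unfold dE1
  rw [(loc1_ev hφ hψ hG τ hp).fderiv_eq]

theorem ct_bilin {X : Type*} [TopologicalSpace X] {f : X → (E n →L[ℝ] E n →L[ℝ] ℂ)} {x : X}
    (h : ∀ u v, ContinuousAt (fun y => f y u v) x) : ContinuousAt f x := by
  rw [continuousAt_clm_apply]
  intro u
  rw [continuousAt_clm_apply]
  intro v
  exact h u v

theorem fderiv_ct {X : Type*} [NormedAddCommGroup X] [NormedSpace ℝ X] {f : X → ℂ} {p : X}
    (h : ContDiffAt ℝ ∞ f p) (x : X) : ContinuousAt (fun q => fderiv ℝ f q x) p := by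
  have h1 : ContinuousAt (fderiv ℝ f) p :=
    (h.fderiv_right (m := 1) (WithTop.coe_le_coe.2 (le_top : (2 : ℕ∞) ≤ ⊤))).continuousAt
  exact h1.clm_apply continuousAt_const

theorem eval_cd {X : Type*} [NormedAddCommGroup X] [NormedSpace ℝ X]
    {S : X → (X →L[ℝ] X →L[ℝ] ℂ)} {p : X} (h : ContDiffAt ℝ ∞ S p) (u v : X) :
    ContDiffAt ℝ ∞ (fun q => S q u v) p :=
  (h.clm_apply contDiffAt_const).clm_apply contDiffAt_const

theorem RK_ct {X : Type*} [TopologicalSpace X]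
    {f : X → ((E n × ℝ) →L[ℝ] (E n × ℝ) →L[ℝ] ℂ)} {x : X} (hf : ContinuousAt f x) :
    ContinuousAt (fun y => TCart.RK n (f y)) x := by
  have h : ContinuousAt (TCart.RK n) (f x) := (TCart.RK n).continuous.continuousAt
  exact ContinuousAt.comp (g := TCart.RK n) h hf

end TFam

open TFam in
/-- For a smooth homotopy `G : M × ℝ → T` and a closed 2-form `τ` on `T`: `∂_s (G_s^* τ) = d α_s`
with `α_s(y) v = τ(∂_s G, DG_s v)`; everything is continuous in `(y, s)` in charts of `M`. -/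
theorem htpy_fam {n m : ℕ} {M : CMfd n} {T : CMfd m} (G : M × ℝ → T)
    (hG : ContMDiff (𝓘(ℝ, E n).prod 𝓘(ℝ, ℝ)) 𝓘(ℝ, E m) ∞ G)
    (τ : F2 m T) (hτ : S2 τ) (hτ' : Cl2 τ) :
    ∃ α : ℝ → F1 n M, (∀ s, S1 (α s)) ∧
      (∀ y s, HasDerivAt (fun s' => pb2 n (fun y => G (y, s')) τ y) (d1 (α s) y) s) ∧
      (∀ y : M, ContinuousOn (fun p : E n × ℝ =>
        loc2 (chartAt (E n) y) (pb2 n (fun y => G (y, p.2)) τ) p.1)
        ((chartAt (E n) y).target ×ˢ univ)) ∧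
      (∀ y : M, ContinuousOn (fun p : E n × ℝ => loc2 (chartAt (E n) y) (d1 (α p.2)) p.1)
        ((chartAt (E n) y).target ×ˢ univ)) := by
  refine ⟨al G τ, S1_al hG hτ, fun y s => ?_, fun y => ?_, fun y => ?_⟩
  · set φ := chartAt (E n) y with hφd
    have hφ : φ ∈ RA n M := chartAt_mem_RA y
    have hx : y ∈ φ.source := mem_chart_source _ y
    set ψ := chartAt (E m) (G (y, s))
    have hψ : ψ ∈ RA m T := chartAt_mem_RA _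
    have hp : (φ y, s) ∈ OO φ ψ G := by
      refine ⟨φ.map_source hx, ?_⟩
      show G (φ.symm (φ y), s) ∈ ψ.source
      rw [φ.left_inv hx]
      exact mem_chart_source _ _
    have h1 := cartan_vec (gg φ ψ G) (loc2 ψ τ) (φ y) s (gg_contDiffAt hφ hψ hG hp)
      (w_contDiffAt hψ hτ hp) (fun x u v => hτ.1 _ _ _)
      (hτ' ψ hψ _ (ψ.map_source hp.2))
    have h2 : d1 (al G τ s) y = dE1 (cartA (gg φ ψ G) (loc2 ψ τ) s) (φ y) :=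
      dE1_al hφ hψ hG τ hp
    rw [h2]
    refine HasDerivAt.congr_of_eventuallyEq (𝕜 := ℝ) (F := E n →L[ℝ] E n →L[ℝ] ℂ) h1 ?_
    filter_upwards [ev_path hG.continuous hp] with t ht
    rw [← loc2_fam hφ hψ hG τ ht]
    exact (loc2_chartAt _ y).symm
  · rintro ⟨z, s⟩ ⟨hz, -⟩
    refine ContinuousAt.continuousWithinAt ?_
    set φ := chartAt (E n) y with hφd
    have hφ : φ ∈ RA n M := chartAt_mem_RA y
    set ψ := chartAt (E m) (G (φ.symm z, s))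
    have hψ : ψ ∈ RA m T := chartAt_mem_RA _
    have hp : (z, s) ∈ OO φ ψ G := ⟨hz, mem_chart_source _ _⟩
    have hev : (fun p : E n × ℝ => loc2 φ (pb2 n (fun y => G (y, p.2)) τ) p.1) =ᶠ[𝓝 (z, s)]
        fun p => TCart.RK n (TCart.SS (gg φ ψ G) (loc2 ψ τ) p) := by
      filter_upwards [(isOpen_OO hG.continuous).mem_nhds hp] with p hp'
      exact loc2_fam (z := p.1) (s := p.2) hφ hψ hG τ hp'
    refine ContinuousAt.congr ?_ hev.symm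
    exact RK_ct (SS_cd hφ hψ hG hτ hp).continuousAt
  · rintro ⟨z, s⟩ ⟨hz, -⟩
    refine ContinuousAt.continuousWithinAt ?_
    set φ := chartAt (E n) y with hφd
    have hφ : φ ∈ RA n M := chartAt_mem_RA y
    set ψ := chartAt (E m) (G (φ.symm z, s))
    have hψ : ψ ∈ RA m T := chartAt_mem_RA _
    have hp : (z, s) ∈ OO φ ψ G := ⟨hz, mem_chart_source _ _⟩
    set S := TCart.SS (gg φ ψ G) (loc2 ψ τ) with hS
    refine ct_bilin fun u v => ?_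
    have hev : (fun p : E n × ℝ => loc2 φ (d1 (al G τ p.2)) p.1 u v) =ᶠ[𝓝 (z, s)]
        fun p => fderiv ℝ (fun q => S q (0, 1) (v, 0)) p (u, 0) -
          fderiv ℝ (fun q => S q (0, 1) (u, 0)) p (v, 0) := by
      filter_upwards [(isOpen_OO hG.continuous).mem_nhds hp] with p hp'
      have hp'' : (p.1, p.2) ∈ OO φ ψ G := hp'
      have hSd : DifferentiableAt ℝ S (p.1, p.2) :=
        (SS_cd hφ hψ hG hτ hp'').differentiableAt (by simp)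
      rw [loc2_d1 (S1_al hG hτ p.2) hφ hp'.1, dE1_al hφ hψ hG τ hp'']
      unfold dE1
      rw [(TCart.hasFDerivAt_cartA hSd).fderiv]
      simp only [sub_apply, ContinuousLinearMap.flip_apply, ContinuousLinearMap.comp_apply,
        TCart.RB_apply, ContinuousLinearMap.inl_apply]
      rw [TCart.eval_fderiv hSd, TCart.eval_fderiv hSd]
    refine ContinuousAt.congr ?_ hev.symm
    have hcd := SS_cd hφ hψ hG hτ hp
    exact (fderiv_ct (eval_cd hcd _ _) _).sub (fderiv_ct (eval_cd hcd _ _) _)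

end Pool.Agent.K708
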