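import Pool.Agent.Lib.K708.W4
import Pool.Agent.Lib.K708.FcL
import Pool.Agent.Lib.K708.VolI

/-! # K708, B7c, B7d: continuity of `w4 σ ρ / w4 Ω Ω`; derivative of `Int4` in a parameter -/

set_option autoImplicit false

open scoped Manifold ContDiff Topology
open Set

noncomputable section

namespace Pool.Agent.K708

namespace TRatio

theorem w4_loc_alt {M : CMfd 2} (φ : OpenPartialHomeomorph M (E 2)) {σ τ : F2 2 M}
    (hσ : ∀ x u v, σ x u v = - σ x v u) (hτ : ∀ x u v, τ x u v = - τ x v u) (z : E 2) :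
    w4 (loc2 φ σ z) (loc2 φ τ z) =
      ((D 2 2 φ.symm z).det : ℂ) * w4 (σ (φ.symm z)) (τ (φ.symm z)) :=
  w4_comp (fun u v => hσ _ u v) (fun u v => hτ _ u v) _

/-- The ratio in a chart. -/
theorem ratio_chart {M : CMfd 2} {φ : OpenPartialHomeomorph M (E 2)} (hφ : φ ∈ RA 2 M)
    {Ω σ τ : F2 2 M} (hΩ : ∀ x u v, Ω x u v = - Ω x v u)
    (hσ : ∀ x u v, σ x u v = - σ x v u) (hτ : ∀ x u v, τ x u v = - τ x v u) {x : M}
    (hx : x ∈ φ.source) :
    w4 (loc2 φ σ (φ x)) (loc2 φ τ (φ x)) / w4 (loc2 φ Ω (φ x)) (loc2 φ Ω (φ x)) =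
      w4 (σ x) (τ x) / w4 (Ω x) (Ω x) := by
  have h3 : ((D 2 2 φ.symm (φ x)).det : ℂ) ≠ 0 := by
    exact_mod_cast VolI.det_ne hφ (φ.map_source hx)
  rw [w4_loc_alt φ hσ hτ, w4_loc_alt φ hΩ hΩ, φ.left_inv hx, mul_div_mul_left _ _ h3]

/-- Continuity at a point of a family of products in coordinates. -/
theorem cont_aux {B C D' : E 2 × ℝ → Bil 2} {p : E 2 × ℝ} (hB : ContinuousAt B p)
    (hC : ContinuousAt C p) (hD : ContinuousAt D' p) (h0 : w4 (D' p) (D' p) ≠ 0) :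
    ContinuousAt (fun q => w4 (B q) (C q) / w4 (D' q) (D' q)) p :=
  (VolI.continuousAt_w4 hB hC).div (VolI.continuousAt_w4 hD hD) h0

end TRatio

open TRatio

/-- Continuity of the scalar density of `σ ∧ ρ_s`. -/
theorem ratio_cont {M : CMfd 2} (Ω : F2 2 M) (hΩ : Kah Ω) (σ : F2 2 M) (hσ : S2 σ)
    (ρ : ℝ → F2 2 M) (ha : ∀ s y u v, ρ s y u v = - ρ s y v u)
    (hρ : ∀ y : M, ContinuousOn (fun p : E 2 × ℝ => loc2 (chartAt (E 2) y) (ρ p.2) p.1)
      ((chartAt (E 2) y).target ×ˢ univ)) :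
    Continuous fun p : M × ℝ => w4 (σ p.1) (ρ p.2 p.1) / w4 (Ω p.1) (Ω p.1) := by
  rw [continuous_iff_continuousAt]
  rintro ⟨y, s⟩
  obtain ⟨φ, hφd⟩ : ∃ φ, φ = chartAt (E 2) y := ⟨_, rfl⟩
  have hφ : φ ∈ RA 2 M := hφd ▸ chartAt_mem_RA (n := 2) y
  have hy : y ∈ φ.source := hφd ▸ mem_chart_source (E 2) y
  have hz : φ y ∈ φ.target := φ.map_source hy
  have hc1 : ContinuousAt (fun p : E 2 × ℝ => loc2 φ σ p.1) (φ y, s) :=
    ContinuousAt.comp (g := loc2 φ σ) (f := (Prod.fst : E 2 × ℝ → E 2)) (x := (φ y, s))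
      (hσ.contDiffAt hφ hz).continuousAt continuousAt_fst
  have hc2 : ContinuousAt (fun p : E 2 × ℝ => loc2 φ (ρ p.2) p.1) (φ y, s) := by
    have h := hρ y
    rw [← hφd] at h
    exact h.continuousAt ((φ.open_target.prod isOpen_univ).mem_nhds ⟨hz, mem_univ _⟩)
  have hc3 : ContinuousAt (fun p : E 2 × ℝ => loc2 φ Ω p.1) (φ y, s) :=
    ContinuousAt.comp (g := loc2 φ Ω) (f := (Prod.fst : E 2 × ℝ → E 2)) (x := (φ y, s))
      (hΩ.s2.contDiffAt hφ hz).continuousAt continuousAt_fst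
  have hc4 := cont_aux hc1 hc2 hc3 (VolI.w4_loc_ne hΩ hφ hz)
  have hc5 : ContinuousAt (fun p : M × ℝ => ((φ p.1, p.2) : E 2 × ℝ)) (y, s) :=
    (ContinuousAt.comp (g := φ) (f := (Prod.fst : M × ℝ → M)) (x := (y, s))
      (φ.continuousAt hy) continuousAt_fst).prodMk continuousAt_snd
  have hc6 := ContinuousAt.comp (x := ((y, s) : M × ℝ)) (f := fun p : M × ℝ =>
    ((φ p.1, p.2) : E 2 × ℝ)) hc4 hc5
  have hev : ∀ᶠ p : M × ℝ in 𝓝 (y, s), p.1 ∈ φ.source :=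
    continuousAt_fst (φ.open_source.mem_nhds hy)
  refine hc6.congr ?_
  filter_upwards [hev] with p hp
  exact ratio_chart hφ hΩ.s2.1 hσ.1 (ha p.2) hp

/-- A family with `∂_s ρ_s = ρ'_s` and `∫ σ ∧ ρ'_s = 0` has constant `∫ σ ∧ ρ_s`. -/
theorem Int4_family {M : CMfd 2} (hM : CompactSpace M) (Ω σ : F2 2 M) (ρ ρ' : ℝ → F2 2 M)
    (h1 : ∀ y s, HasDerivAt (fun s' => ρ s' y) (ρ' s y) s)
    (h2 : Continuous fun p : M × ℝ => w4 (σ p.1) (ρ p.2 p.1) / w4 (Ω p.1) (Ω p.1))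
    (h3 : Continuous fun p : M × ℝ => w4 (σ p.1) (ρ' p.2 p.1) / w4 (Ω p.1) (Ω p.1))
    (h0 : ∀ s, Int4 M Ω σ (ρ' s) = 0) : Int4 M Ω σ (ρ 0) = Int4 M Ω σ (ρ 1) := by
  have hfin : MeasureTheory.IsFiniteMeasure (vol M Ω) := by
    unfold vol
    split_ifs with h
    · exact h.choose_spec.fin
    · infer_instance
  have hderiv : ∀ y s, HasDerivAt (fun s' => w4 (σ y) (ρ s' y) / w4 (Ω y) (Ω y))
      (w4 (σ y) (ρ' s y) / w4 (Ω y) (Ω y)) s := by
    intro y s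
    have e : ∀ u v, HasDerivAt (fun s' => ρ s' y u v) (ρ' s y u v) s := by
      intro u v
      have := ((h1 y s).clm_apply (hasDerivAt_const s u)).clm_apply (hasDerivAt_const s v)
      simpa using this
    refine HasDerivAt.div_const ?_ _
    unfold w4
    exact ((((((e _ _).const_mul _).sub ((e _ _).const_mul _)).add ((e _ _).const_mul _)).add
      ((e _ _).const_mul _)).sub ((e _ _).const_mul _)).add ((e _ _).const_mul _)
  have hI : ∀ s₀, HasDerivAt (fun s => Int4 M Ω σ (ρ s)) 0 s₀ := by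
    intro s₀
    obtain ⟨C, hC⟩ : ∃ C : ℝ, ∀ y : M, ∀ s ∈ Icc (s₀ - 1) (s₀ + 1),
        ‖w4 (σ y) (ρ' s y) / w4 (Ω y) (Ω y)‖ ≤ C := by
      have hK : IsCompact ((univ : Set M) ×ˢ Icc (s₀ - 1) (s₀ + 1)) :=
        isCompact_univ.prod isCompact_Icc
      obtain ⟨C, hC⟩ := hK.exists_bound_of_continuousOn h3.continuousOn
      exact ⟨C, fun y s hs => hC (y, s) ⟨mem_univ _, hs⟩⟩
    have hm : ∀ s, MeasureTheory.AEStronglyMeasurable
        (fun y => w4 (σ y) (ρ s y) / w4 (Ω y) (Ω y)) (vol M Ω) := fun s =>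
      (h2.comp (Continuous.prodMk_left s)).aestronglyMeasurable
    have hm' : MeasureTheory.AEStronglyMeasurable
        (fun y => w4 (σ y) (ρ' s₀ y) / w4 (Ω y) (Ω y)) (vol M Ω) :=
      (h3.comp (Continuous.prodMk_left s₀)).aestronglyMeasurable
    have hint : MeasureTheory.Integrable (fun y => w4 (σ y) (ρ s₀ y) / w4 (Ω y) (Ω y))
        (vol M Ω) :=
      (h2.comp (Continuous.prodMk_left s₀)).integrable_of_hasCompactSupport
        (HasCompactSupport.of_compactSpace _)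
    have h4 := hasDerivAt_integral_of_dominated_loc_of_deriv_le (μ := vol M Ω)
      (F := fun s y => w4 (σ y) (ρ s y) / w4 (Ω y) (Ω y))
      (F' := fun s y => w4 (σ y) (ρ' s y) / w4 (Ω y) (Ω y))
      (x₀ := s₀) (bound := fun _ => C) (s := Metric.ball s₀ 1)
      (Metric.ball_mem_nhds s₀ one_pos)
      (Filter.Eventually.of_forall hm) hint hm'
      (Filter.Eventually.of_forall fun y s hs => hC y s (by
        rw [Metric.mem_ball, Real.dist_eq, abs_lt] at hs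
        exact ⟨by linarith [hs.1], by linarith [hs.2]⟩))
      (MeasureTheory.integrable_const C)
      (Filter.Eventually.of_forall fun y s _ => hderiv y s)
    have h5 := h4.2
    have h6 : ∫ y, w4 (σ y) (ρ' s₀ y) / w4 (Ω y) (Ω y) ∂(vol M Ω) = 0 := h0 s₀
    rw [h6] at h5
    exact h5
  exact is_const_of_deriv_eq_zero (fun s => (hI s).differentiableAt) (fun s => (hI s).deriv) 0 1

end Pool.Agent.K708
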