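import Pool.Agent.Lib.K708.TFam
import Pool.Agent.Lib.K708.TRatio
import Pool.Agent.Lib.K708.Stk

/-! # K708, B7: homotopy invariance of the integral `∫ σ ∧ G^* τ` -/

set_option autoImplicit false

open scoped Manifold ContDiff Topology
open Set

noncomputable section

namespace Pool.Agent.K708

theorem pb2_alt {n m : ℕ} {M : CMfd n} {T : CMfd m} (f : M → T) (τ : F2 m T)
    (hτ : ∀ x u v, τ x u v = - τ x v u) (x : M) (u v : E n) :
    pb2 n f τ x u v = - pb2 n f τ x v u := by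
  simp only [pb2, ContinuousLinearMap.bilinearComp_apply]
  exact hτ _ _ _

theorem d1_alt {n : ℕ} {M : CMfd n} (κ : F1 n M) (x : M) (u v : E n) :
    d1 κ x u v = - d1 κ x v u := by
  simp only [d1, dE1, sub_apply, ContinuousLinearMap.flip_apply]
  ring

theorem htpy {M : CMfd 2} (hM : CompactSpace M) {Ω : F2 2 M} (hΩ : Kah Ω) {m : ℕ} {T : CMfd m}
    (G : M × ℝ → T)
    (hG : ContMDiff (𝓘(ℝ, E 2).prod 𝓘(ℝ, ℝ)) 𝓘(ℝ, E m) ∞ G)
    {σ : F2 2 M} (hσ : S2 σ) (hσ' : Cl2 σ) {τ : F2 m T} (hτ : S2 τ) (hτ' : Cl2 τ) :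
    Int4 M Ω σ (pb2 2 (fun y => G (y, 0)) τ) = Int4 M Ω σ (pb2 2 (fun y => G (y, 1)) τ) := by
  obtain ⟨α, hα, hd, hc, hc'⟩ := htpy_fam G hG τ hτ hτ'
  have h1 := ratio_cont Ω hΩ σ hσ (fun s => pb2 2 (fun y => G (y, s)) τ)
    (fun s y u v => pb2_alt _ _ hτ.1 y u v) hc
  have h2 := ratio_cont Ω hΩ σ hσ (fun s => d1 (α s)) (fun s y u v => d1_alt _ y u v) hc'
  refine Int4_family hM Ω σ (fun s => pb2 2 (fun y => G (y, s)) τ) (fun s => d1 (α s)) hd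
    h1 h2 (fun s => ?_)
  rw [Int4_comm]
  exact stokes hM hΩ (hα s) hσ hσ'

end Pool.Agent.K708
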