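import Pool.Agent.Lib.K708.TDefs
import Pool.Agent.Lib.K708.VolI

/-! # K708, B8: integrals and diffeomorphisms -/

set_option autoImplicit false

open scoped Manifold ContDiff Topology
open Set MeasureTheory

noncomputable section

namespace Pool.Agent.K708

namespace TInt

variable {Z Y : CMfd 2} {θ : Z → Y} {θ' : Y → Z}

/-- A diffeomorphism as a homeomorphism. -/
def homeo (h : Dif θ θ') : Z ≃ₜ Y where
  toFun := θ
  invFun := θ'
  left_inv := h.l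
  right_inv := h.r
  continuous_toFun := h.s.continuous
  continuous_invFun := h.s'.continuous

/-- Pull-back of a chart. -/
def pull (h : Dif θ θ') (φ : OpenPartialHomeomorph Y (E 2)) : OpenPartialHomeomorph Z (E 2) :=
  (homeo h).transOpenPartialHomeomorph φ

theorem pull_source (h : Dif θ θ') (φ : OpenPartialHomeomorph Y (E 2)) :
    (pull h φ).source = θ ⁻¹' φ.source := rfl

theorem pull_target (h : Dif θ θ') (φ : OpenPartialHomeomorph Y (E 2)) :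
    (pull h φ).target = φ.target := rfl

theorem pull_symm (h : Dif θ θ') (φ : OpenPartialHomeomorph Y (E 2)) :
    ((pull h φ).symm : E 2 → Z) = θ' ∘ φ.symm := rfl

theorem pull_coe (h : Dif θ θ') (φ : OpenPartialHomeomorph Y (E 2)) :
    (pull h φ : Z → E 2) = φ ∘ θ := rfl

theorem pull_mem (h : Dif θ θ') {φ : OpenPartialHomeomorph Y (E 2)} (hφ : φ ∈ RA 2 Y) :
    pull h φ ∈ RA 2 Z := by
  refine (pull h φ).mem_maximalAtlas_of_contMDiffOn ?_ ?_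
  · rw [pull_coe, pull_source]
    exact (contMDiffOn_of_mem_maximalAtlas hφ).comp h.s.contMDiffOn (fun x hx => hx)
  · rw [pull_symm, pull_target]
    exact h.s'.contMDiffOn.comp (t := univ) (contMDiffOn_symm_of_mem_maximalAtlas hφ)
      (fun x _ => mem_univ _)

theorem D_inv (h : Dif θ θ') (z : Z) :
    (D 2 2 θ' (θ z)).comp (D 2 2 θ z) = ContinuousLinearMap.id ℝ (E 2) := by
  rw [← D_comp (h.s'.mdiff _) (h.s.mdiff _)]
  have h1 : θ' ∘ θ = id := by funext x; exact h.l x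
  rw [h1, D_id]

theorem det_D_ne (h : Dif θ θ') (z : Z) : (D 2 2 θ z).det ≠ 0 := by
  intro h0
  have h1 := congrArg ContinuousLinearMap.det (D_inv h z)
  have h2 : ((D 2 2 θ' (θ z)).comp (D 2 2 θ z)).det =
      (D 2 2 θ' (θ z)).det * (D 2 2 θ z).det := LinearMap.det_comp _ _
  rw [h2, h0, mul_zero] at h1
  have h3 : (ContinuousLinearMap.id ℝ (E 2)).det = 1 := LinearMap.det_id
  rw [h3] at h1
  exact zero_ne_one h1

theorem w4_pull (θ : Z → Y) {σ τ : F2 2 Y} (hσ : S2 σ) (hτ : S2 τ) (z : Z) :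
    w4 (pb2 2 θ σ z) (pb2 2 θ τ z) = ((D 2 2 θ z).det : ℂ) * w4 (σ (θ z)) (τ (θ z)) :=
  w4_comp (VolI.alt_of_S2 hσ _) (VolI.alt_of_S2 hτ _) _

/-- The sign of the Jacobian is constant. -/
theorem exists_sign (hZ : CptConn Z) {ΩZ : F2 2 Z} (hΩZ : Kah ΩZ) {ΩY : F2 2 Y}
    (hΩY : Kah ΩY) (h : Dif θ θ') :
    ∃ s : ℝ, s * s = 1 ∧ ∀ z, (D 2 2 θ z).det = s * |(D 2 2 θ z).det| := by
  have hconn := hZ.conn
  obtain ⟨q, hq⟩ : ∃ q : Z → ℝ, q = fun z =>
      (w4 (pb2 2 θ ΩY z) (pb2 2 θ ΩY z) / w4 (ΩZ z) (ΩZ z)).re := ⟨_, rfl⟩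
  have hqc : Continuous q := by
    rw [hq]
    exact Complex.continuous_re.comp (continuous_w4_ratio hΩZ (hΩY.s2.pb h.s) (hΩY.s2.pb h.s))
  have hqv : ∀ z, q z = (D 2 2 θ z).det * ((w4 (ΩY (θ z)) (ΩY (θ z))).re /
      (w4 (ΩZ z) (ΩZ z)).re) := by
    intro z
    have h1 := w4_pkah_pos (hΩY.pkah (θ z))
    have h2 := w4_pkah_pos (hΩZ.pkah z)
    have h3 : w4 (ΩY (θ z)) (ΩY (θ z)) = (((w4 (ΩY (θ z)) (ΩY (θ z))).re : ℝ) : ℂ) :=
      Complex.ext (by simp) (by simpa using h1.2)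
    have h4 : w4 (ΩZ z) (ΩZ z) = (((w4 (ΩZ z) (ΩZ z)).re : ℝ) : ℂ) :=
      Complex.ext (by simp) (by simpa using h2.2)
    rw [hq]
    show (w4 (pb2 2 θ ΩY z) (pb2 2 θ ΩY z) / w4 (ΩZ z) (ΩZ z)).re = _
    rw [w4_pull θ hΩY.s2 hΩY.s2 z, h3, h4, ← Complex.ofReal_mul, ← Complex.ofReal_div,
      Complex.ofReal_re, Complex.ofReal_re, Complex.ofReal_re, mul_div_assoc]
  have hpos : ∀ z, 0 < (w4 (ΩY (θ z)) (ΩY (θ z))).re / (w4 (ΩZ z) (ΩZ z)).re := fun z =>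
    div_pos (w4_pkah_pos (hΩY.pkah (θ z))).1 (w4_pkah_pos (hΩZ.pkah z)).1
  have hne : ∀ z, q z ≠ 0 := fun z => by
    rw [hqv]
    exact mul_ne_zero (det_D_ne h z) (hpos z).ne'
  have hcl : IsClopen {z | 0 < q z} := by
    refine ⟨?_, isOpen_lt continuous_const hqc⟩
    have h1 : {z | 0 < q z} = {z | 0 ≤ q z} := by
      ext z
      exact ⟨fun h => le_of_lt (show (0 : ℝ) < q z from h),
        fun h => lt_of_le_of_ne (show (0 : ℝ) ≤ q z from h) (hne z).symm⟩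
    rw [h1]
    exact isClosed_le continuous_const hqc
  rcases isClopen_iff.1 hcl with h0 | h0
  · refine ⟨-1, by norm_num, fun z => ?_⟩
    have h1 : ¬ (0 < q z) := fun h => by
      have : z ∈ ({z | 0 < q z} : Set Z) := h
      rw [h0] at this
      exact this
    have h2 : q z < 0 := lt_of_le_of_ne (not_lt.1 h1) (hne z)
    rw [hqv] at h2
    have h3 : (D 2 2 θ z).det < 0 := by
      by_contra h4
      exact absurd h2 (not_lt.2 (mul_nonneg (not_lt.1 h4) (hpos z).le))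
    rw [abs_of_neg h3]
    ring
  · refine ⟨1, by norm_num, fun z => ?_⟩
    have h2 : 0 < q z := by
      have : z ∈ ({z | 0 < q z} : Set Z) := by rw [h0]; exact mem_univ z
      exact this
    rw [hqv] at h2
    have h3 : 0 < (D 2 2 θ z).det := by
      by_contra h4
      exact absurd h2 (not_lt.2 (mul_nonpos_of_nonpos_of_nonneg (not_lt.1 h4) (hpos z).le))
    rw [abs_of_pos h3, one_mul]

/-- The density of the transported measure. -/
def gd (θ : Z → Y) (ΩZ : F2 2 Z) (ΩY : F2 2 Y) (z : Z) : ℝ :=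
  |(D 2 2 θ z).det| * ((w4 (ΩY (θ z)) (ΩY (θ z))).re / (w4 (ΩZ z) (ΩZ z)).re)

theorem gd_nonneg {ΩZ : F2 2 Z} (hΩZ : Kah ΩZ) {ΩY : F2 2 Y} (hΩY : Kah ΩY) (z : Z) :
    0 ≤ gd θ ΩZ ΩY z :=
  mul_nonneg (abs_nonneg _) (div_nonneg (w4_pkah_pos (hΩY.pkah (θ z))).1.le
    (w4_pkah_pos (hΩZ.pkah z)).1.le)

theorem continuous_gd {ΩZ : F2 2 Z} (hΩZ : Kah ΩZ) {ΩY : F2 2 Y} (hΩY : Kah ΩY)
    (h : Dif θ θ') : Continuous (gd θ ΩZ ΩY) := by
  have h1 : gd θ ΩZ ΩY = fun z =>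
      |(w4 (pb2 2 θ ΩY z) (pb2 2 θ ΩY z) / w4 (ΩZ z) (ΩZ z)).re| := by
    funext z
    have h1 := w4_pkah_pos (hΩY.pkah (θ z))
    have h2 := w4_pkah_pos (hΩZ.pkah z)
    have h3 : w4 (ΩY (θ z)) (ΩY (θ z)) = (((w4 (ΩY (θ z)) (ΩY (θ z))).re : ℝ) : ℂ) :=
      Complex.ext (by simp) (by simpa using h1.2)
    have h4 : w4 (ΩZ z) (ΩZ z) = (((w4 (ΩZ z) (ΩZ z)).re : ℝ) : ℂ) :=
      Complex.ext (by simp) (by simpa using h2.2)
    rw [w4_pull θ hΩY.s2 hΩY.s2 z, h3, h4, ← Complex.ofReal_mul, ← Complex.ofReal_div,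
      Complex.ofReal_re, mul_div_assoc, abs_mul, gd]
    congr 1
    exact (abs_of_nonneg (div_nonneg h1.1.le h2.1.le)).symm
  rw [h1]
  exact (Complex.continuous_re.comp
    (continuous_w4_ratio hΩZ (hΩY.s2.pb h.s) (hΩY.s2.pb h.s))).abs

/-- Transport of the volume measure. -/
theorem vol_eq (hZ : CompactSpace Z) (hY : CompactSpace Y) {ΩZ : F2 2 Z} (hΩZ : Kah ΩZ)
    {ΩY : F2 2 Y} (hΩY : Kah ΩY) (h : Dif θ θ') :
    vol Y ΩY = Measure.map θ ((vol Z ΩZ).withDensity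
      fun z => ENNReal.ofReal (gd θ ΩZ ΩY z)) := by
  have hgm : Measurable fun z => ENNReal.ofReal (gd θ ΩZ ΩY z) :=
    (continuous_gd hΩZ hΩY h).measurable.ennreal_ofReal
  have hθm : Measurable θ := h.s.continuous.measurable
  have hvZ := isVol_vol hZ hΩZ
  have hvY := isVol_vol hY hΩY
  -- equality on chart domains
  have hloc : ∀ φ ∈ RA 2 Y, (vol Y ΩY).restrict φ.source =
      (Measure.map θ ((vol Z ΩZ).withDensity
        fun z => ENNReal.ofReal (gd θ ΩZ ΩY z))).restrict φ.source := by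
    intro φ hφ
    refine Measure.ext_of_lintegral _ fun g hg => ?_
    rw [hvY.chart φ hφ g hg]
    rw [setLIntegral_map φ.open_source.measurableSet hg hθm]
    have hms : MeasurableSet (θ ⁻¹' φ.source) := hθm φ.open_source.measurableSet
    rw [restrict_withDensity hms, lintegral_withDensity_eq_lintegral_mul _ hgm
      (show Measurable fun z => g (θ z) from hg.comp hθm)]
    have h1 := hvZ.chart (pull h φ) (pull_mem h hφ)
      ((fun z => ENNReal.ofReal (gd θ ΩZ ΩY z)) * fun z => g (θ z)) (hgm.mul (hg.comp hθm))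
    rw [pull_source, pull_target] at h1
    refine Eq.trans ?_ h1.symm
    refine setLIntegral_congr_fun φ.open_target.measurableSet fun w hw => ?_
    show g (φ.symm w) * ENNReal.ofReal ((w4 (ΩY (φ.symm w)) (ΩY (φ.symm w))).re *
        |(D 2 2 φ.symm w).det|) =
      (ENNReal.ofReal (gd θ ΩZ ΩY (θ' (φ.symm w))) * g (θ (θ' (φ.symm w)))) *
        ENNReal.ofReal ((w4 (ΩZ (θ' (φ.symm w))) (ΩZ (θ' (φ.symm w)))).re *
          |(D 2 2 (pull h φ).symm w).det|)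
    have h2 : (D 2 2 φ.symm w) = (D 2 2 θ (θ' (φ.symm w))).comp (D 2 2 (pull h φ).symm w) := by
      have h3 : (φ.symm : E 2 → Y) = θ ∘ ((pull h φ).symm : E 2 → Z) := by
        rw [pull_symm]
        funext v
        exact (h.r _).symm
      have h4 : D 2 2 φ.symm w = D 2 2 (θ ∘ ((pull h φ).symm : E 2 → Z)) w := by rw [← h3]
      rw [h4]
      exact D_comp (h.s.mdiff _) (mdiff_chart_symm (pull_mem h hφ) hw)
    have h5 : (D 2 2 φ.symm w).det =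
        (D 2 2 θ (θ' (φ.symm w))).det * (D 2 2 (pull h φ).symm w).det := by
      rw [h2]
      exact LinearMap.det_comp _ _
    have hp1 := (w4_pkah_pos (hΩY.pkah (φ.symm w))).1
    have hp2 := (w4_pkah_pos (hΩZ.pkah (θ' (φ.symm w)))).1
    rw [h.r, mul_comm (ENNReal.ofReal _) (g _), mul_assoc,
      ← ENNReal.ofReal_mul (gd_nonneg hΩZ hΩY _)]
    congr 2
    rw [gd, h.r, h5, abs_mul]
    field_simp
  -- countable cover by charts
  have hcov : ∃ s : Finset Y, (⋃ y ∈ s, (chartAt (E 2) y).source) = univ := by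
    obtain ⟨s, hs⟩ := (isCompact_univ (X := Y)).elim_finite_subcover
      (fun y : Y => (chartAt (E 2) y).source) (fun y => (chartAt (E 2) y).open_source)
      (fun y _ => mem_iUnion.2 ⟨y, mem_chart_source (E 2) y⟩)
    exact ⟨s, eq_univ_of_univ_subset hs⟩
  obtain ⟨s, hs⟩ := hcov
  have h6 : (⋃ y : s, (chartAt (E 2) (y : Y)).source) = univ := by
    rw [← hs, iUnion_subtype]
  have h7 := (Measure.restrict_iUnion_congr (μ := vol Y ΩY)
    (ν := Measure.map θ ((vol Z ΩZ).withDensity fun z => ENNReal.ofReal (gd θ ΩZ ΩY z)))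
    (s := fun y : s => (chartAt (E 2) (y : Y)).source)).2
    (fun y => hloc _ (chartAt_mem_RA (y : Y)))
  rwa [h6, Measure.restrict_univ, Measure.restrict_univ] at h7

end TInt

open TInt

/-- A diffeomorphism preserves the integral up to a sign `ε`. -/
theorem Int4_dif {Z Y : CMfd 2} (hZ : CptConn Z) {ΩZ : F2 2 Z} (hΩZ : Kah ΩZ) {ΩY : F2 2 Y}
    (hΩY : Kah ΩY) {θ : Z → Y} {θ' : Y → Z} (h : Dif θ θ') :
    ∃ ε : ℂ, ε * ε = 1 ∧ ∀ σ τ : F2 2 Y, S2 σ → S2 τ →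
      Int4 Z ΩZ (pb2 2 θ σ) (pb2 2 θ τ) = ε * Int4 Y ΩY σ τ := by
  have hZc := hZ.cpt
  have hYc : CompactSpace Y := (homeo h).compactSpace
  obtain ⟨s, hs, hdet⟩ := exists_sign hZ hΩZ hΩY h
  refine ⟨s, by exact_mod_cast hs, fun σ τ hσ hτ => ?_⟩
  have hfc := continuous_w4_ratio hΩY hσ hτ
  have hgm : Measurable fun z => ENNReal.ofReal (gd θ ΩZ ΩY z) :=
    (continuous_gd hΩZ hΩY h).measurable.ennreal_ofReal
  have h1 : Int4 Y ΩY σ τ = ∫ z, gd θ ΩZ ΩY z •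
      (w4 (σ (θ z)) (τ (θ z)) / w4 (ΩY (θ z)) (ΩY (θ z))) ∂(vol Z ΩZ) := by
    unfold Int4
    rw [vol_eq hZc hYc hΩZ hΩY h, integral_map h.s.continuous.measurable.aemeasurable
      hfc.aestronglyMeasurable, integral_withDensity_eq_integral_toReal_smul hgm
      (Filter.Eventually.of_forall fun z => ENNReal.ofReal_lt_top)]
    refine integral_congr_ae (Filter.Eventually.of_forall fun z => ?_)
    show (ENNReal.ofReal (gd θ ΩZ ΩY z)).toReal • _ = _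
    rw [ENNReal.toReal_ofReal (gd_nonneg hΩZ hΩY z)]
  rw [h1]
  unfold Int4
  rw [← integral_const_mul]
  refine integral_congr_ae (Filter.Eventually.of_forall fun z => ?_)
  show w4 (pb2 2 θ σ z) (pb2 2 θ τ z) / w4 (ΩZ z) (ΩZ z) = (s : ℂ) * (gd θ ΩZ ΩY z •
      (w4 (σ (θ z)) (τ (θ z)) / w4 (ΩY (θ z)) (ΩY (θ z))))
  have h2 := w4_pkah_pos (hΩY.pkah (θ z))
  have h3 := w4_pkah_pos (hΩZ.pkah z)
  have h4 : w4 (ΩY (θ z)) (ΩY (θ z)) = (((w4 (ΩY (θ z)) (ΩY (θ z))).re : ℝ) : ℂ) :=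
    Complex.ext (by simp) (by simpa using h2.2)
  have h5 : w4 (ΩZ z) (ΩZ z) = (((w4 (ΩZ z) (ΩZ z)).re : ℝ) : ℂ) :=
    Complex.ext (by simp) (by simpa using h3.2)
  have h6 : ((w4 (ΩY (θ z)) (ΩY (θ z))).re : ℂ) ≠ 0 := by exact_mod_cast h2.1.ne'
  have h7 : ((w4 (ΩZ z) (ΩZ z)).re : ℂ) ≠ 0 := by exact_mod_cast h3.1.ne'
  rw [w4_pull θ hσ hτ z, gd, Complex.real_smul]
  rw [h4, h5]
  rw [Complex.ofReal_re, Complex.ofReal_re]
  have h8 : ((D 2 2 θ z).det : ℂ) = (s : ℂ) * ((|(D 2 2 θ z).det| : ℝ) : ℂ) := by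
    exact_mod_cast hdet z
  rw [h8]
  push_cast
  field_simp

theorem Int4_self_ne {Z : CMfd 2} (hZ : CptConn Z) {Ω : F2 2 Z} (hΩ : Kah Ω) :
    0 < (Int4 Z Ω Ω Ω).re ∧ (Int4 Z Ω Ω Ω).im = 0 := by
  have hc := hZ.cpt
  have hcn := hZ.conn
  have hp : ∀ x, 0 < (w4 (Ω x) (Ω x)).re ∧ (w4 (Ω x) (Ω x)).im = 0 := fun x =>
    w4_pkah_pos (hΩ.pkah x)
  have h1 := Int4_nonneg hc hΩ hΩ.s2 hΩ.s2 fun x => ⟨(hp x).1.le, (hp x).2⟩
  refine ⟨lt_of_le_of_ne h1.1 fun h => ?_, h1.2⟩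
  have h0 : Int4 Z Ω Ω Ω = 0 := Complex.ext h.symm h1.2
  have h2 := Int4_eq_zero hc hΩ hΩ.s2 hΩ.s2 (fun x => ⟨(hp x).1.le, (hp x).2⟩) h0
  obtain ⟨x⟩ := (inferInstance : Nonempty Z)
  have h3 := (hp x).1
  rw [h2 x] at h3
  simp at h3

end Pool.Agent.K708
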