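import Pool.Agent.Lib.K708.TDefs
import Pool.Agent.Lib.K708.FcP
import Pool.Agent.Lib.K708.FcC
import Pool.Agent.Lib.K708.FcAlg

/-! # K708, B9: pull-back of the data `PD` by a diffeomorphism -/

set_option autoImplicit false

open scoped Manifold ContDiff Topology
open Set

noncomputable section

namespace Pool.Agent.K708

namespace TPull

theorem pb1_id {n : ℕ} {M : CMfd n} (α : F1 n M) : pb1 n (id : M → M) α = α := by
  funext x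
  ext u
  simp [pb1, D_id]

theorem pb2_zero {n m : ℕ} {M : CMfd n} {N : CMfd m} (f : M → N) :
    pb2 n f (0 : F2 m N) = 0 := by
  funext x
  ext u v
  simp [pb2]

end TPull

open TPull

theorem PD.pull {Z Y : CMfd 2} {θ : Z → Y} {θ' : Y → Z} (hθ : Dif θ θ') {ΩZ : F2 2 Z}
    {ΩY : F2 2 Y} (c : ℝ)
    (h4 : ∀ σ τ : F2 2 Y, S2 σ → S2 τ → Cl2 σ → Cl2 τ →
      Int4 Z ΩZ (pb2 2 θ σ) (pb2 2 θ τ) = Int4 Y ΩY σ τ)
    (hΩ : ∀ σ : F2 2 Y, S2 σ → Cl2 σ → Int4 Z ΩZ (pb2 2 θ σ) ΩZ = Int4 Y ΩY σ ΩY)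
    (h : PD Y ΩY c) : PD Z ΩZ c := by
  obtain ⟨e, γ, F, hj, hF, h2, h3, hI, hc⟩ := h
  have w0 : ∀ j, S2 (wedge (e j) (cj (e j))) := fun j => S2.wedge (hj j).1.1 (S1.cj (hj j).1.1)
  have w1 : ∀ j, Cl2 (wedge (e j) (cj (e j))) := fun j => Cl2.wedge (hj j).1 (C1.cj (hj j).1)
  refine ⟨fun j => pb1 2 θ (e j), fun j => pb1 2 θ (γ j), F ∘ θ, ?_, TF.pb hθ.s hF, ?_, ?_, ?_,
    ?_⟩
  · intro j
    obtain ⟨he, hγ, hw, hn⟩ := hj j
    refine ⟨C1.pb hθ.s he, C1.pb hθ.s hγ, ?_, ?_⟩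
    · rw [← pb2_wedge, hw, pb2_zero]
    · intro l f hf heq
      refine hn l (f ∘ θ') (S0.comp hf hθ.s') ?_
      have h1 : pb1 2 θ' (pb1 2 θ (γ j)) = γ j := by
        rw [← pb1_comp hθ.s' hθ.s, show θ ∘ θ' = id from funext hθ.r, pb1_id]
      have h2 : pb1 2 θ' (pb1 2 θ (e j)) = e j := by
        rw [← pb1_comp hθ.s' hθ.s, show θ ∘ θ' = id from funext hθ.r, pb1_id]
      have heq' : pb1 2 θ (γ j) = l • pb1 2 θ (e j) + d0 2 f := heq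
      rw [← h1, heq', pb1_add, pb1_smul, h2, d0_comp hθ.s' hf]
  · change pb1 2 θ (e 2) = pb1 2 θ (e 0) + pb1 2 θ (e 1)
    rw [h2, pb1_add]
  · change pb1 2 θ (e 3) = pb1 2 θ (e 0) + Complex.I • pb1 2 θ (e 1)
    rw [h3, pb1_add, pb1_smul]
  · simp only
    rw [← pb1_cj, ← pb1_cj, ← pb2_wedge, ← pb2_wedge, h4 _ _ (w0 0) (w0 1) (w1 0) (w1 1)]
    exact hI
  · simp only
    rw [← pb1_cj, ← pb2_wedge, ← pb2_smul,
      hΩ _ (S2.smul _ (w0 0)) (Cl2.smul _ (w0 0) (w1 0))]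
    exact hc

end Pool.Agent.K708
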