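import Pool.Agent.Lib.K708.Base
import Pool.Agent.Lib.K708.TInv

/-! # K708, B2: smooth retraction of a neighbourhood of a compact embedded manifold -/

set_option autoImplicit false

open scoped Manifold ContDiff Topology InnerProductSpace
open Set

noncomputable section

namespace Pool.Agent.K708

/-- Critical points of the distance to an immersed manifold depend smoothly on the point. -/
theorem ret_loc {A W' : Type*} [NormedAddCommGroup A] [NormedSpace ℝ A] [FiniteDimensional ℝ A]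
    [NormedAddCommGroup W'] [InnerProductSpace ℝ W'] [FiniteDimensional ℝ W']
    {h : A → W'} {D : Set A} (hD : IsOpen D) (hh : ContDiffOn ℝ ∞ h D) {v₀ : A} (hv₀ : v₀ ∈ D)
    (hinj : Function.Injective (fderiv ℝ h v₀)) :
    ∃ (V : Set (W' × A)) (W : Set W') (σ : W' → A), IsOpen V ∧ (h v₀, v₀) ∈ V ∧ IsOpen W ∧
      h v₀ ∈ W ∧ ContDiffOn ℝ ∞ σ W ∧ ∀ w v, w ∈ W → (w, v) ∈ V →
        (∀ u, ⟪w - h v, fderiv ℝ h v u⟫_ℝ = 0) → v = σ w := by
  classical
  let b := Module.finBasis ℝ A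
  let F : W' × A → W' × (Fin (Module.finrank ℝ A) → ℝ) := fun p =>
    (p.1, fun i => ⟪p.1 - h p.2, fderiv ℝ h p.2 (b i)⟫_ℝ)
  have hD' : IsOpen ((univ : Set W') ×ˢ D) := isOpen_univ.prod hD
  have hA : ContDiffOn ℝ ∞ (fderiv ℝ h) D := hh.fderiv_of_isOpen hD (by simp)
  have hsnd : ContDiffOn ℝ ∞ (Prod.snd : W' × A → A) ((univ : Set W') ×ˢ D) := contDiff_snd.contDiffOn
  have hmaps : MapsTo (Prod.snd : W' × A → A) ((univ : Set W') ×ˢ D) D := fun p hp => hp.2
  have hF : ContDiffOn ℝ ∞ F ((univ : Set W') ×ˢ D) := by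
    refine contDiff_fst.contDiffOn.prodMk ?_
    rw [contDiffOn_pi]
    intro i
    refine ContDiffOn.inner ℝ (contDiff_fst.contDiffOn.sub (hh.comp hsnd hmaps)) ?_
    exact (hA.comp hsnd hmaps).clm_apply contDiffOn_const
  have hmem : (h v₀, v₀) ∈ (univ : Set W') ×ˢ D := ⟨mem_univ _, hv₀⟩
  have hder : Function.Bijective (fderiv ℝ F (h v₀, v₀)) := by
    have h1 : HasFDerivAt h (fderiv ℝ h v₀) v₀ :=
      ((hh.contDiffAt (hD.mem_nhds hv₀)).differentiableAt (by simp)).hasFDerivAt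
    have h2 : HasFDerivAt (fun p : W' × A => p.1 - h p.2)
        (ContinuousLinearMap.fst ℝ W' A - (fderiv ℝ h v₀).comp (ContinuousLinearMap.snd ℝ W' A))
        (h v₀, v₀) :=
      hasFDerivAt_fst.sub (HasFDerivAt.comp (h v₀, v₀) h1 hasFDerivAt_snd)
    have h3 : ∀ i, ∃ L : W' × A →L[ℝ] W', HasFDerivAt (fun p : W' × A => fderiv ℝ h p.2 (b i)) L
        (h v₀, v₀) := by
      intro i
      have h4 : ContDiffAt ℝ ∞ (fun p : W' × A => fderiv ℝ h p.2 (b i)) (h v₀, v₀) :=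
        ((hA.comp hsnd hmaps).clm_apply contDiffOn_const).contDiffAt (hD'.mem_nhds hmem)
      exact ⟨_, (h4.differentiableAt (by simp)).hasFDerivAt⟩
    choose L hL using h3
    have h5 : HasFDerivAt F ((ContinuousLinearMap.fst ℝ W' A).prod
        (ContinuousLinearMap.pi fun i => (fderivInnerCLM ℝ
          (h v₀ - h v₀, fderiv ℝ h v₀ (b i))).comp ((ContinuousLinearMap.fst ℝ W' A -
            (fderiv ℝ h v₀).comp (ContinuousLinearMap.snd ℝ W' A)).prod (L i)))) (h v₀, v₀) := by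
      refine hasFDerivAt_fst.prodMk ?_
      rw [hasFDerivAt_pi]
      intro i
      exact h2.inner ℝ (hL i)
    rw [h5.fderiv]
    have h6 : Function.Injective ((ContinuousLinearMap.fst ℝ W' A).prod
        (ContinuousLinearMap.pi fun i => (fderivInnerCLM ℝ
          (h v₀ - h v₀, fderiv ℝ h v₀ (b i))).comp ((ContinuousLinearMap.fst ℝ W' A -
            (fderiv ℝ h v₀).comp (ContinuousLinearMap.snd ℝ W' A)).prod (L i)))) := by
      rw [injective_iff_map_eq_zero]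
      rintro ⟨w', v'⟩ hz
      have hz1 : w' = 0 := congrArg Prod.fst hz
      subst hz1
      have hz2 : ∀ i, ⟪fderiv ℝ h v₀ v', fderiv ℝ h v₀ (b i)⟫_ℝ = 0 := by
        intro i
        have hz3 := congrFun (congrArg Prod.snd hz) i
        simpa [fderivInnerCLM_apply] using hz3
      have hz4 : ⟪fderiv ℝ h v₀ v', fderiv ℝ h v₀ v'⟫_ℝ = 0 := by
        have hz7 : fderiv ℝ h v₀ v' = ∑ i, b.repr v' i • fderiv ℝ h v₀ (b i) := by
          conv_lhs => rw [← b.sum_repr v']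
          rw [map_sum]
          refine Finset.sum_congr rfl fun i _ => ?_
          rw [map_smul]
        calc ⟪fderiv ℝ h v₀ v', fderiv ℝ h v₀ v'⟫_ℝ
            = ⟪fderiv ℝ h v₀ v', ∑ i, b.repr v' i • fderiv ℝ h v₀ (b i)⟫_ℝ := by rw [← hz7]
          _ = 0 := by
              rw [inner_sum]
              refine Finset.sum_eq_zero fun i _ => ?_
              rw [inner_smul_right, hz2, mul_zero]
      have hz5 : fderiv ℝ h v₀ v' = 0 := inner_self_eq_zero.1 hz4
      have hz6 : v' = 0 := hinj (by rw [hz5, map_zero])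
      rw [hz6]
      rfl
    refine ⟨h6, ?_⟩
    have h7 : Module.finrank ℝ (W' × A) =
        Module.finrank ℝ (W' × (Fin (Module.finrank ℝ A) → ℝ)) := by
      rw [Module.finrank_prod, Module.finrank_prod, Module.finrank_fin_fun]
    exact (LinearMap.injective_iff_surjective_of_finrank_eq_finrank h7
      (f := ((ContinuousLinearMap.fst ℝ W' A).prod
        (ContinuousLinearMap.pi fun i => (fderivInnerCLM ℝ
          (h v₀ - h v₀, fderiv ℝ h v₀ (b i))).comp ((ContinuousLinearMap.fst ℝ W' A -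
            (fderiv ℝ h v₀).comp (ContinuousLinearMap.snd ℝ W' A)).prod (L i))) :
              (W' × A) →ₗ[ℝ] (W' × (Fin (Module.finrank ℝ A) → ℝ))))).1 h6
  obtain ⟨G, hG1, hG2, hG3, hG4⟩ := inv_fun_vec hD' hF hmem hder
  have hF0 : F (h v₀, v₀) = (h v₀, 0) := by
    simp only [F, sub_self, inner_zero_left]
    rfl
  refine ⟨G.source, (fun w => (w, (0 : Fin (Module.finrank ℝ A) → ℝ))) ⁻¹' G.target,
    fun w => (G.symm (w, 0)).2, G.open_source, hG1, G.open_target.preimage (by fun_prop), ?_, ?_,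
    ?_⟩
  · rw [mem_preimage, ← hF0, ← hG3]
    exact G.map_source hG1
  · exact contDiff_snd.comp_contDiffOn (hG4.comp (by fun_prop) fun w hw => hw)
  · intro w v hw hv hcrit
    have h1 : G (w, v) = (w, 0) := by
      rw [hG3]
      simp only [F, hcrit]
      rfl
    change v = (G.symm (w, 0)).2
    rw [← h1, G.left_inv hv]

theorem exists_retraction {n : ℕ} (Y : CMfd n) (hY : CompactSpace Y) (hne : Nonempty Y) {m : ℕ}
    (g : Y → EuclideanSpace ℝ (Fin m))
    (hg : ContMDiff 𝓘(ℝ, E n) 𝓘(ℝ, EuclideanSpace ℝ (Fin m)) ∞ g) (hi : Function.Injective g)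
    (hd : ∀ y, Function.Injective (mfderiv 𝓘(ℝ, E n) 𝓘(ℝ, EuclideanSpace ℝ (Fin m)) g y)) :
    ∃ (O : Set (EuclideanSpace ℝ (Fin m))) (ρ : EuclideanSpace ℝ (Fin m) → Y), IsOpen O ∧
      range g ⊆ O ∧ ContMDiffOn 𝓘(ℝ, EuclideanSpace ℝ (Fin m)) 𝓘(ℝ, E n) ∞ ρ O ∧
      ∀ y, ρ (g y) = y := by
  classical
  -- nearest points
  have hmin : ∀ w : EuclideanSpace ℝ (Fin m), ∃ y : Y, ∀ y', ‖w - g y‖ ≤ ‖w - g y'‖ := by
    intro w
    obtain ⟨y, -, hy⟩ := isCompact_univ.exists_isMinOn (s := (univ : Set Y)) univ_nonempty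
      (f := fun y => ‖w - g y‖) (by
        have := hg.continuous
        fun_prop)
    exact ⟨y, fun y' => hy (mem_univ y')⟩
  choose ρ hρ using hmin
  have hρg : ∀ y, ρ (g y) = y := by
    intro y
    apply hi
    have h1 := hρ (g y) y
    rw [sub_self, norm_zero] at h1
    exact (sub_eq_zero.1 (norm_le_zero_iff.1 h1)).symm
  -- continuity at the points of `Y`
  have hcont : ∀ y₀ : Y, ∀ U ∈ 𝓝 y₀, ∀ᶠ w in 𝓝 (g y₀), ρ w ∈ U := by
    intro y₀ U hU
    obtain ⟨U', hU'U, hU'o, hU'm⟩ := mem_nhds_iff.1 hU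
    have hK : IsCompact (U'ᶜ : Set Y) := hU'o.isClosed_compl.isCompact
    have hKg : IsClosed (g '' U'ᶜ) := (hK.image hg.continuous).isClosed
    have hnot : g y₀ ∉ g '' U'ᶜ := by
      rintro ⟨y, hy, hyy⟩
      rw [hi hyy] at hy
      exact hy hU'm
    obtain ⟨δ, hδ, hball⟩ := Metric.isOpen_iff.1 hKg.isOpen_compl (g y₀) hnot
    filter_upwards [Metric.ball_mem_nhds (g y₀) (half_pos hδ)] with w hw
    by_contra hcon
    have h1 : ρ w ∈ U'ᶜ := fun h => hcon (hU'U h)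
    have h2 : g (ρ w) ∉ Metric.ball (g y₀) δ := fun h => hball h ⟨ρ w, h1, rfl⟩
    apply h2
    rw [Metric.mem_ball, dist_eq_norm] at hw ⊢
    have h3 := hρ w y₀
    calc ‖g (ρ w) - g y₀‖ = ‖(w - g y₀) - (w - g (ρ w))‖ := by congr 1; abel
      _ ≤ ‖w - g y₀‖ + ‖w - g (ρ w)‖ := norm_sub_le _ _
      _ < δ := by linarith
  -- local smoothness
  have hloc : ∀ y₀ : Y, ∀ᶠ w in 𝓝 (g y₀),
      ContMDiffAt 𝓘(ℝ, EuclideanSpace ℝ (Fin m)) 𝓘(ℝ, E n) ∞ ρ w := by
    intro y₀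
    let ψ := chartAt (E n) y₀
    have hψA : ψ ∈ IsManifold.maximalAtlas 𝓘(ℝ, E n) ∞ Y := IsManifold.chart_mem_maximalAtlas y₀
    have hψs : ContMDiffOn 𝓘(ℝ, E n) 𝓘(ℝ, E n) ∞ ψ.symm ψ.target :=
      contMDiffOn_symm_of_mem_maximalAtlas hψA
    have hh : ContDiffOn ℝ ∞ (g ∘ ψ.symm) ψ.target := by
      rw [← contMDiffOn_iff_contDiffOn]
      exact hg.comp_contMDiffOn hψs
    have hv₀ : ψ y₀ ∈ ψ.target := ψ.map_source (mem_chart_source _ _)
    have hψy : ψ.symm (ψ y₀) = y₀ := ψ.left_inv (mem_chart_source _ _)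
    have hinj : Function.Injective (fderiv ℝ (g ∘ ψ.symm) (ψ y₀)) := by
      have h1 : mfderiv 𝓘(ℝ, E n) 𝓘(ℝ, EuclideanSpace ℝ (Fin m)) g y₀ =
          fderiv ℝ (g ∘ ψ.symm) (ψ y₀) := by
        rw [((hg y₀).mdifferentiableAt (by simp)).mfderiv, ModelWithCorners.range_eq_univ,
          fderivWithin_univ]
        rfl
      rw [← h1]
      exact hd y₀
    obtain ⟨V, W, σ, hV, hVm, hW, hWm, hσ, hcrit⟩ := ret_loc ψ.open_target hh hv₀ hinj
    have hg0 : (g ∘ ψ.symm) (ψ y₀) = g y₀ := by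
      rw [Function.comp_apply, hψy]
    rw [hg0] at hVm hWm
    -- near `g y₀` the pair `(w, ψ (ρ w))` is in `V`
    have hev : ∀ᶠ w in 𝓝 (g y₀), w ∈ W ∧ ρ w ∈ ψ.source ∧ (w, ψ (ρ w)) ∈ V := by
      have h1 : Filter.Tendsto ρ (𝓝 (g y₀)) (𝓝 y₀) := fun U hU => hcont y₀ U hU
      have h2 : Filter.Tendsto (fun w => (w, ψ (ρ w))) (𝓝 (g y₀)) (𝓝 (g y₀, ψ y₀)) :=
        Filter.tendsto_id.prodMk_nhds
          ((ψ.continuousAt (mem_chart_source _ _)).tendsto.comp h1)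
      filter_upwards [hW.mem_nhds hWm, h1 (ψ.open_source.mem_nhds (mem_chart_source _ _)),
        h2 (hV.mem_nhds hVm)] with w hw1 hw2 hw3
      exact ⟨hw1, hw2, hw3⟩
    have heq : ∀ᶠ w in 𝓝 (g y₀), w ∈ W ∧ σ w ∈ ψ.target ∧ ρ w = ψ.symm (σ w) := by
      filter_upwards [hev] with w hw
      have h1 : ψ (ρ w) = σ w := by
        refine hcrit w (ψ (ρ w)) hw.1 hw.2.2 ?_
        intro u
        -- the critical point equation
        have hv : ψ (ρ w) ∈ ψ.target := ψ.map_source hw.2.1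
        have hgv : (g ∘ ψ.symm) (ψ (ρ w)) = g (ρ w) := by
          rw [Function.comp_apply, ψ.left_inv hw.2.1]
        have hder : HasFDerivAt (g ∘ ψ.symm) (fderiv ℝ (g ∘ ψ.symm) (ψ (ρ w))) (ψ (ρ w)) :=
          ((hh.contDiffAt (ψ.open_target.mem_nhds hv)).differentiableAt (by simp)).hasFDerivAt
        have hder2 := (hder.const_sub w).norm_sq
        have hlm : IsLocalMin (fun v => ‖w - (g ∘ ψ.symm) v‖ ^ 2) (ψ (ρ w)) := by
          refine Filter.Eventually.of_forall fun v => ?_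
          have h1 := hρ w (ψ.symm v)
          simp only [hgv]
          exact pow_le_pow_left₀ (norm_nonneg _) h1 2
        have h0 := hlm.hasFDerivAt_eq_zero hder2
        have h1 := congrArg (fun L => L u) h0
        simp at h1
        rw [inner_sub_left]
        simp only [Function.comp_apply]
        linarith
      refine ⟨hw.1, ?_, ?_⟩
      · rw [← h1]
        exact ψ.map_source hw.2.1
      · rw [← h1, ψ.left_inv hw.2.1]
    filter_upwards [heq.eventually_nhds] with w hw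
    obtain ⟨hw1, hw2, hw3⟩ := hw.self_of_nhds
    have h1 : ContMDiffAt 𝓘(ℝ, EuclideanSpace ℝ (Fin m)) 𝓘(ℝ, E n) ∞ σ w :=
      (hσ.contDiffAt (hW.mem_nhds hw1)).contMDiffAt
    have h2 : ContMDiffAt 𝓘(ℝ, E n) 𝓘(ℝ, E n) ∞ ψ.symm (σ w) :=
      hψs.contMDiffAt (ψ.open_target.mem_nhds hw2)
    refine (h2.comp w h1).congr_of_eventuallyEq ?_
    filter_upwards [hw] with w' hw'
    exact hw'.2.2
  refine ⟨interior {w | ContMDiffAt 𝓘(ℝ, EuclideanSpace ℝ (Fin m)) 𝓘(ℝ, E n) ∞ ρ w}, ρ,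
    isOpen_interior, ?_, ?_, hρg⟩
  · rintro _ ⟨y, rfl⟩
    rw [mem_interior_iff_mem_nhds]
    exact hloc y
  · intro w hw
    have h1 : ContMDiffAt 𝓘(ℝ, EuclideanSpace ℝ (Fin m)) 𝓘(ℝ, E n) ∞ ρ w := interior_subset hw
    exact ContMDiffAt.contMDiffWithinAt h1

end Pool.Agent.K708
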