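import Pool.Agent.Lib.K708.TTriv
import Pool.Agent.Lib.K708.TDif
import Pool.Agent.Lib.K708.TConn
import Pool.Agent.Lib.K708.THtpy
import Pool.Agent.Lib.K708.TInt
import Pool.Agent.Lib.K708.TPull
import Pool.Agent.Lib.K708.KahFib

/-! # K708, B10: transport of the data -/

set_option autoImplicit false

open scoped Manifold ContDiff Topology
open Set

noncomputable section

namespace Pool.Agent.K708

namespace TTrans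

theorem pb2_id {n : ℕ} {M : CMfd n} (σ : F2 n M) : pb2 n (id : M → M) σ = σ := by
  funext x
  ext u v
  simp [pb2, D_id]

theorem pb2_left {n : ℕ} {M N : CMfd n} {θ : M → N} {θ' : N → M} (h : Dif θ θ') (σ : F2 n M) :
    pb2 n θ (pb2 n θ' σ) = σ := by
  rw [← pb2_comp h.s h.s', show θ' ∘ θ = id from funext h.l, pb2_id]

theorem Dif.symm {n : ℕ} {M N : CMfd n} {θ : M → N} {θ' : N → M} (h : Dif θ θ') : Dif θ' θ :=
  ⟨h.s', h.s, h.r, h.l⟩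

theorem Dif.trans {n : ℕ} {M N P : CMfd n} {θ : M → N} {θ' : N → M} (h : Dif θ θ') {η : N → P}
    {η' : P → N} (h' : Dif η η') : Dif (η ∘ θ) (θ' ∘ η') :=
  ⟨Smth.comp h'.s h.s, Smth.comp h.s' h'.s', fun x => by simp [h.l, h'.l],
    fun x => by simp [h.r, h'.r]⟩

theorem Dif.cptConn {n : ℕ} {M N : CMfd n} {θ : M → N} {θ' : N → M} (h : Dif θ θ')
    (hc : CompactSpace M ∧ ConnectedSpace M) : CompactSpace N ∧ ConnectedSpace N := by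
  have hs : Function.Surjective θ := fun y => ⟨θ' y, h.r y⟩
  have hcont : Continuous θ := h.s.continuous
  obtain ⟨h1, h2⟩ := hc
  exact ⟨hs.compactSpace hcont, hs.connectedSpace hcont⟩

theorem compactSpace_fib {T : CMfd 3} {B : CMfd 1} {π : T → B} (hpr : IsProperMap π) {t : B}
    {Y : CMfd 2} {ι : Y → T} (hι : IsFib π t ι) : CompactSpace Y := by
  have hK : IsCompact (π ⁻¹' {t}) := hpr.isCompact_preimage isCompact_singleton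
  rw [← hι.range, ← image_univ, ← hι.emb.emb.isEmbedding.isCompact_iff] at hK
  exact ⟨hK⟩

theorem smth_H {T : CMfd 3} {B : CMfd 1} {π : T → B} {Y : CMfd 2} {N : Set B} {r : T → Y}
    {H : Y → B → T} (h : Triv π Y N r H) {t : B} (ht : t ∈ N) : Smth 2 3 (fun y => H y t) := by
  have h1 : ContMDiff 𝓘(ℝ, E 2) (𝓘(ℝ, E 2).prod 𝓘(ℝ, E 1)) ∞ (fun y : Y => (y, t)) :=
    contMDiff_id.prodMk contMDiff_const
  exact (h.hs.comp_contMDiff h1 fun y => ⟨mem_univ _, ht⟩)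

theorem fib_eq {T : CMfd 3} {B : CMfd 1} {π : T → B} {Y : CMfd 2} {N : Set B} {r : T → Y}
    {H : Y → B → T} (h : Triv π Y N r H) {t : B} (ht : t ∈ N) {Z : CMfd 2} {ι : Z → T}
    (hι : IsFib π t ι) : ι = (fun y => H y t) ∘ fun z => r (ι z) := by
  funext z
  have hz : π (ι z) = t := by
    have : ι z ∈ π ⁻¹' {t} := hι.range ▸ mem_range_self z
    exact this
  have := h.Hrp (ι z) (hz ▸ ht)
  rw [hz] at this
  exact this.symm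

theorem sign_eq {a b J : ℂ} (ha : a * a = 1) (hb : b * b = 1) (h1 : 0 < (a * J).re)
    (h2 : 0 < (b * J).re) : a = b := by
  have ha' : a = 1 ∨ a = -1 := mul_self_eq_one_iff.1 ha
  have hb' : b = 1 ∨ b = -1 := mul_self_eq_one_iff.1 hb
  rcases ha' with rfl | rfl <;> rcases hb' with rfl | rfl
  · rfl
  · simp at h1 h2; linarith
  · simp at h1 h2; linarith
  · rfl

end TTrans

open TTrans

/-- Comparison of two fibres over a trivialising set. -/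
theorem compare {T : CMfd 3} {B : CMfd 1} {π : T → B} (hπ : Holo 3 1 π)
    {Y₀ : CMfd 2} {Ω₀ : F2 2 Y₀} (hΩ₀ : Kah Ω₀) {N : Set B} {r : T → Y₀} {H : Y₀ → B → T}
    (h : Triv π Y₀ N r H) {Ω : F2 3 T} (hΩ : RelKah π Ω) {s t : B} (hs : s ∈ N) (ht : t ∈ N)
    {p : ℝ → B} (hp : ContMDiff 𝓘(ℝ, ℝ) 𝓘(ℝ, E 1) ∞ p) (p0 : p 0 = s) (p1 : p 1 = t)
    (hpN : ∀ x, p x ∈ N) {Y Z : CMfd 2} {ι : Y → T} {ι' : Z → T} (hι : IsFib π s ι)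
    (hι' : IsFib π t ι') (hY : CptConn Y) {c : ℝ} (hPD : PD Y (pb2 2 ι Ω) c) :
    CptConn Z ∧ PD Z (pb2 2 ι' Ω) c := by
  obtain ⟨θY', dY, -⟩ := h.dif hπ hs hι
  obtain ⟨θZ', dZ, -⟩ := h.dif hπ ht hι'
  set θY : Y → Y₀ := fun z => r (ι z) with hθY
  set θZ : Z → Y₀ := fun z => r (ι' z) with hθZ
  have c0 : CompactSpace Y₀ ∧ ConnectedSpace Y₀ := Dif.cptConn dY ⟨hY.cpt, hY.conn⟩
  have cZ : CompactSpace Z ∧ ConnectedSpace Z := Dif.cptConn (Dif.symm dZ) c0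
  have hZ : CptConn Z := ⟨cZ.1, cZ.2⟩
  have kY : Kah (pb2 2 ι Ω) := hΩ.kah hπ hι
  have kZ : Kah (pb2 2 ι' Ω) := hΩ.kah hπ hι'
  -- the two forms on the reference fibre
  have Hs : Smth 2 3 (fun y => H y s) := smth_H h hs
  have Ht : Smth 2 3 (fun y => H y t) := smth_H h ht
  have eY : pb2 2 ι Ω = pb2 2 θY (pb2 2 (fun y => H y s) Ω) := by
    rw [← pb2_comp dY.s Hs]
    exact congrArg (fun f => pb2 2 f Ω) (fib_eq h hs hι)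
  have eZ : pb2 2 ι' Ω = pb2 2 θZ (pb2 2 (fun y => H y t) Ω) := by
    rw [← pb2_comp dZ.s Ht]
    exact congrArg (fun f => pb2 2 f Ω) (fib_eq h ht hι')
  set Ωs : F2 2 Y₀ := pb2 2 (fun y => H y s) Ω with hΩs
  set Ωt : F2 2 Y₀ := pb2 2 (fun y => H y t) Ω with hΩt
  have s2s : S2 Ωs := S2.pb Hs hΩ.s2
  have s2t : S2 Ωt := S2.pb Ht hΩ.s2
  have cls : Cl2 Ωs := Cl2.pb Hs hΩ.s2 hΩ.cl
  have clt : Cl2 Ωt := Cl2.pb Ht hΩ.s2 hΩ.cl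
  -- homotopy
  have hG : ContMDiff (𝓘(ℝ, E 2).prod 𝓘(ℝ, ℝ)) 𝓘(ℝ, E 3) ∞
      (fun q : Y₀ × ℝ => H q.1 (p q.2)) := by
    have h1 : ContMDiff (𝓘(ℝ, E 2).prod 𝓘(ℝ, ℝ)) (𝓘(ℝ, E 2).prod 𝓘(ℝ, E 1)) ∞
        (fun q : Y₀ × ℝ => (q.1, p q.2)) :=
      contMDiff_fst.prodMk (hp.comp contMDiff_snd)
    exact h.hs.comp_contMDiff h1 fun q => ⟨mem_univ _, hpN _⟩
  have key : ∀ σ : F2 2 Y₀, S2 σ → Cl2 σ → Int4 Y₀ Ω₀ σ Ωs = Int4 Y₀ Ω₀ σ Ωt := by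
    intro σ h1 h2
    have := htpy c0.1 hΩ₀ (fun q : Y₀ × ℝ => H q.1 (p q.2)) hG h1 h2 hΩ.s2 hΩ.cl
    simp only [p0, p1] at this
    exact this
  have J : Int4 Y₀ Ω₀ Ωs Ωs = Int4 Y₀ Ω₀ Ωt Ωt := by
    rw [key Ωs s2s cls, Int4_comm, key Ωt s2t clt]
  obtain ⟨εY, hεY, iY⟩ := Int4_dif hY kY hΩ₀ dY
  obtain ⟨εZ, hεZ, iZ⟩ := Int4_dif hZ kZ hΩ₀ dZ
  have hε : εY = εZ := by
    have a1 := (Int4_self_ne hY kY).1
    have a2 := (Int4_self_ne hZ kZ).1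
    have b1 : Int4 Y (pb2 2 ι Ω) (pb2 2 ι Ω) (pb2 2 ι Ω) = εY * Int4 Y₀ Ω₀ Ωs Ωs := by
      rw [← iY Ωs Ωs s2s s2s, ← eY]
    have b2 : Int4 Z (pb2 2 ι' Ω) (pb2 2 ι' Ω) (pb2 2 ι' Ω) = εZ * Int4 Y₀ Ω₀ Ωs Ωs := by
      rw [J, ← iZ Ωt Ωt s2t s2t, ← eZ]
    rw [b1] at a1
    rw [b2] at a2
    exact sign_eq hεY hεZ a1 a2
  refine ⟨hZ, PD.pull (Dif.trans dZ (Dif.symm dY)) c ?_ ?_ hPD⟩
  · intro σ τ hσ hτ _ _
    have e1 : pb2 2 (θY' ∘ θZ) σ = pb2 2 θZ (pb2 2 θY' σ) := pb2_comp dZ.s dY.s' σ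
    have e2 : pb2 2 (θY' ∘ θZ) τ = pb2 2 θZ (pb2 2 θY' τ) := pb2_comp dZ.s dY.s' τ
    rw [e1, e2, iZ _ _ (S2.pb dY.s' hσ) (S2.pb dY.s' hτ), ← hε,
      ← iY _ _ (S2.pb dY.s' hσ) (S2.pb dY.s' hτ), pb2_left dY, pb2_left dY]
  · intro σ hσ hσ'
    have e1 : pb2 2 (θY' ∘ θZ) σ = pb2 2 θZ (pb2 2 θY' σ) := pb2_comp dZ.s dY.s' σ
    have e3 : Int4 Z (pb2 2 ι' Ω) (pb2 2 (θY' ∘ θZ) σ) (pb2 2 ι' Ω) =
        εZ * Int4 Y₀ Ω₀ (pb2 2 θY' σ) Ωt := by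
      rw [e1, ← iZ _ _ (S2.pb dY.s' hσ) s2t, ← eZ]
    have e4 : Int4 Y (pb2 2 ι Ω) σ (pb2 2 ι Ω) = εY * Int4 Y₀ Ω₀ (pb2 2 θY' σ) Ωs := by
      rw [← iY _ _ (S2.pb dY.s' hσ) s2s, ← eY, pb2_left dY]
    rw [e3, e4, hε, key _ (S2.pb dY.s' hσ) (Cl2.pb dY.s' hσ hσ')]

/-- Local transport. -/
theorem transport_loc {T : CMfd 3} {B : CMfd 1} {π : T → B} (hπ : Holo 3 1 π)
    (hpr : IsProperMap π) {t₀ : B} (hsm : ∀ x, π x = t₀ → DC 3 1 π x ≠ 0)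
    (hfib : ∃ (Y : CMfd 2) (ι : Y → T), IsFib π t₀ ι) {Ω : F2 3 T} (hΩ : RelKah π Ω) (c : ℝ) :
    ∃ N ∈ 𝓝 t₀, ∀ s ∈ N, ∀ t ∈ N, ∀ (Y Z : CMfd 2) (ι : Y → T) (ι' : Z → T), IsFib π s ι →
      IsFib π t ι' → CptConn Y → PD Y (pb2 2 ι Ω) c → CptConn Z ∧ PD Z (pb2 2 ι' Ω) c := by
  obtain ⟨Y₀, ι₀, hι₀⟩ := hfib
  rcases isEmpty_or_nonempty Y₀ with he | hne
  · have h0 : π ⁻¹' {t₀} = ∅ := by rw [← hι₀.range]; exact range_eq_empty _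
    have hcl : IsClosed (range π) := by
      rw [← image_univ]; exact hpr.isClosedMap _ isClosed_univ
    refine ⟨(range π)ᶜ, hcl.isOpen_compl.mem_nhds ?_, ?_⟩
    · rintro ⟨x, hx⟩
      have : x ∈ π ⁻¹' {t₀} := hx
      rw [h0] at this
      exact this
    · intro s hs t _ Y Z ι ι' hι _ hY _
      have := hY.conn
      obtain ⟨y⟩ := (inferInstance : Nonempty Y)
      have : ι y ∈ π ⁻¹' {s} := hι.range ▸ mem_range_self y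
      exact absurd ⟨ι y, this⟩ hs
  · obtain ⟨N₁, r, H, ht₀, h⟩ := exists_triv π hπ hpr hsm hι₀ hne
    obtain ⟨N, hN, htN, hNN, hpath⟩ := small_paths B t₀ N₁ (h.opn.mem_nhds ht₀)
    refine ⟨N, hN.mem_nhds htN, ?_⟩
    intro s hs t ht Y Z ι ι' hι hι' hY hPD
    obtain ⟨p, hp, p0, p1, hpN⟩ := hpath s hs t ht
    exact compare hπ (hΩ.kah hπ hι₀) h hΩ (hNN hs) (hNN ht) hp p0 p1
      (fun x => hNN (hpN x)) hι hι' hY hPD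

theorem transport_main {T : CMfd 3} {B : CMfd 1} (hB : ConnectedSpace B) (o : B) (π : T → B)
    (hπ : Holo 3 1 π) (hpr : IsProperMap π) (hsm : ∀ x, π x ≠ o → DC 3 1 π x ≠ 0)
    (hfib : ∀ t, t ≠ o → ∃ (Y : CMfd 2) (ι : Y → T), IsFib π t ι)
    (Ω : F2 3 T) (hΩ : RelKah π Ω) {s t : B} (hs : s ≠ o) (ht : t ≠ o)
    {Y Z : CMfd 2} {ι : Y → T} {ι' : Z → T} (hι : IsFib π s ι) (hι' : IsFib π t ι')
    (hY : CptConn Y) (c : ℝ) (h : PD Y (pb2 2 ι Ω) c) :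
    CptConn Z ∧ PD Z (pb2 2 ι' Ω) c := by
  classical
  have hconn := conn_punct B hB o
  set P : B → Prop := fun t => ∀ (Z : CMfd 2) (ι' : Z → T), IsFib π t ι' →
    CptConn Z ∧ PD Z (pb2 2 ι' Ω) c with hP
  have hloc : ∀ t₀, t₀ ≠ o → ∃ N ∈ 𝓝 t₀, ∀ s ∈ N, ∀ t ∈ N, s ≠ o → P s → P t := by
    intro t₀ ht₀
    obtain ⟨N, hN, h⟩ := transport_loc hπ hpr (fun x hx => hsm x (hx ▸ ht₀)) (hfib t₀ ht₀) hΩ c
    refine ⟨N, hN, fun s hs t ht hso hPs Z ι' hι' => ?_⟩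
    obtain ⟨Y, ι, hι⟩ := hfib s hso
    obtain ⟨h1, h2⟩ := hPs Y ι hι
    exact h s hs t ht Y Z ι ι' hι hι' h1 h2
  have hPs : P s := by
    obtain ⟨N, hN, h'⟩ := transport_loc hπ hpr (fun x hx => hsm x (hx ▸ hs)) (hfib s hs) hΩ c
    intro Z ι' hι'
    exact h' s (mem_of_mem_nhds hN) s (mem_of_mem_nhds hN) Y Z ι ι' hι hι' hY h
  suffices hPt : P t from hPt Z ι' hι'
  by_contra hnt
  -- separation of the punctured base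
  have hU : IsOpen {x : B | x ≠ o ∧ P x} := by
    rw [isOpen_iff_mem_nhds]
    rintro x ⟨hx, hPx⟩
    obtain ⟨N, hN, h'⟩ := hloc x hx
    filter_upwards [hN, isOpen_ne.mem_nhds hx] with y hy hyo
    exact ⟨hyo, h' x (mem_of_mem_nhds hN) y hy hx hPx⟩
  have hV : IsOpen {x : B | x ≠ o ∧ ¬ P x} := by
    rw [isOpen_iff_mem_nhds]
    rintro x ⟨hx, hPx⟩
    obtain ⟨N, hN, h'⟩ := hloc x hx
    filter_upwards [hN, isOpen_ne.mem_nhds hx] with y hy hyo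
    exact ⟨hyo, fun hy' => hPx (h' y hy x (mem_of_mem_nhds hN) hyo hy')⟩
  obtain ⟨x, -, hx1, hx2⟩ := hconn _ _ hU hV
    (fun x hx => (em (P x)).imp (fun h => ⟨hx, h⟩) fun h => ⟨hx, h⟩)
    ⟨s, hs, hs, hPs⟩ ⟨t, ht, ht, hnt⟩
  exact hx2.2 hx1.2

end Pool.Agent.K708
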