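import Pool.Agent.Lib.K708.TDefs
import Pool.Agent.Lib.K708.TInv
import Pool.Agent.Lib.K708.TRet
import Pool.Agent.Lib.K708.TEmb
import Pool.Agent.Lib.K708.KahFib

/-! # K708, B5: local triviality of proper submersions -/

set_option autoImplicit false

open scoped Manifold ContDiff Topology
open Set

noncomputable section

namespace Pool.Agent.K708

namespace TTriv

/-- A nonzero linear map `ℂ³ → ℂ` kills exactly the range of an injective `ℂ² → ℂ³` which it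
kills. -/
theorem ker_eq_range (A : E 3 →L[ℂ] E 1) (L : E 2 →L[ℂ] E 3) (hA : A ≠ 0)
    (hL : Function.Injective L) (hAL : ∀ u, A (L u) = 0) (v : E 3) (hv : A v = 0) :
    ∃ u, L u = v := by
  have h1 : LinearMap.range (L : E 2 →ₗ[ℂ] E 3) ≤ LinearMap.ker (A : E 3 →ₗ[ℂ] E 1) := by
    rintro _ ⟨u, rfl⟩
    exact hAL u
  have h2 : Module.finrank ℂ (LinearMap.range (L : E 2 →ₗ[ℂ] E 3)) = 2 := by
    rw [LinearMap.finrank_range_of_inj hL]
    simp
  have h3 : Module.finrank ℂ (LinearMap.range (A : E 3 →ₗ[ℂ] E 1)) +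
      Module.finrank ℂ (LinearMap.ker (A : E 3 →ₗ[ℂ] E 1)) = 3 := by
    rw [LinearMap.finrank_range_add_finrank_ker]
    simp
  have h4 : 0 < Module.finrank ℂ (LinearMap.range (A : E 3 →ₗ[ℂ] E 1)) := by
    rw [Module.finrank_pos_iff]
    by_contra h
    rw [not_nontrivial_iff_subsingleton, Submodule.subsingleton_iff_eq_bot,
      LinearMap.range_eq_bot] at h
    apply hA
    ext1 x
    exact congrArg (fun f => f x) h
  have h5 : LinearMap.range (L : E 2 →ₗ[ℂ] E 3) = LinearMap.ker (A : E 3 →ₗ[ℂ] E 1) :=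
    Submodule.eq_of_le_of_finrank_le h1 (by omega)
  have h6 : v ∈ LinearMap.range (L : E 2 →ₗ[ℂ] E 3) := by
    rw [h5]; exact hv
  obtain ⟨u, hu⟩ := h6
  exact ⟨u, hu⟩

end TTriv

theorem exists_triv {T : CMfd 3} {B : CMfd 1} (π : T → B) (hπ : Holo 3 1 π)
    (hpr : IsProperMap π) {t : B} (hsm : ∀ x, π x = t → DC 3 1 π x ≠ 0) {Y : CMfd 2}
    {ι : Y → T} (hι : IsFib π t ι) (hne : Nonempty Y) :
    ∃ (N : Set B) (r : T → Y) (H : Y → B → T), t ∈ N ∧ Triv π Y N r H := by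
  classical
  set K : Set T := π ⁻¹' {t} with hK
  have hKc : IsCompact K := hpr.isCompact_preimage isCompact_singleton
  have hιK : ∀ y, ι y ∈ K := fun y => by rw [hK, ← hι.range]; exact mem_range_self y
  have hιs : Smth 2 3 ι := hι.emb.holo.smth
  have hYc : CompactSpace Y := by
    refine ⟨?_⟩
    have h1 : IsCompact (ι ⁻¹' K) := hι.emb.emb.isCompact_preimage hKc
    have h2 : ι ⁻¹' K = univ := by
      ext y; simp [hιK y]
    rwa [h2] at h1
  obtain ⟨m, Ψ, hΨ, hΨi, hΨd⟩ := exists_emb_compact T K hKc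
  have hιd : ∀ y, Function.Injective (mfderiv 𝓘(ℝ, E 2) 𝓘(ℝ, E 3) ι y) := by
    intro y u v huv
    have h1 : D 2 3 ι y u = D 2 3 ι y v := huv
    rw [D_eq_DC (hι.emb.holo y), D_eq_DC (hι.emb.holo y)] at h1
    exact hι.emb.imm y h1
  have hg : ContMDiff 𝓘(ℝ, E 2) 𝓘(ℝ, EuclideanSpace ℝ (Fin m)) ∞ (Ψ ∘ ι) := hΨ.comp hιs
  have hgi : Function.Injective (Ψ ∘ ι) := fun a b hab =>
    hι.emb.emb.injective (hΨi (hιK a) (hιK b) hab)
  have hgd : ∀ y, Function.Injective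
      (mfderiv 𝓘(ℝ, E 2) 𝓘(ℝ, EuclideanSpace ℝ (Fin m)) (Ψ ∘ ι) y) := by
    intro y
    rw [mfderiv_comp y ((hΨ (ι y)).mdifferentiableAt (by simp))
      ((hιs y).mdifferentiableAt (by simp))]
    exact (hΨd (ι y) (hιK y)).comp (hιd y)
  obtain ⟨O, ρ, hO, hgO, hρ, hρg⟩ := exists_retraction Y hYc hne (Ψ ∘ ι) hg hgi hgd
  set r : T → Y := ρ ∘ Ψ with hr
  set O' : Set T := Ψ ⁻¹' O with hO'
  have hO'o : IsOpen O' := hO.preimage hΨ.continuous
  have hKO' : K ⊆ O' := by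
    intro q hq
    rw [hK, ← hι.range] at hq
    obtain ⟨y, rfl⟩ := hq
    exact hgO (mem_range_self y)
  have hrs : ContMDiffOn 𝓘(ℝ, E 3) 𝓘(ℝ, E 2) ∞ r O' := hρ.comp hΨ.contMDiffOn (fun x hx => hx)
  have hrι : ∀ y, r (ι y) = y := hρg
  have hπs : Smth 3 1 π := hπ.smth
  set P : T → Y × B := fun q => (r q, π q) with hP
  have hPs : ContMDiffOn 𝓘(ℝ, E 3) (𝓘(ℝ, E 2).prod 𝓘(ℝ, E 1)) ∞ P O' :=
    hrs.prodMk hπs.contMDiffOn
  -- the derivative of P on K is bijective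
  have hPd : ∀ q ∈ K, Function.Bijective (mfderiv 𝓘(ℝ, E 3) (𝓘(ℝ, E 2).prod 𝓘(ℝ, E 1)) P q) := by
    intro q hq
    have hq' : q ∈ range ι := by rw [hι.range]; exact hq
    obtain ⟨y, rfl⟩ := hq'
    have hrd : MDifferentiableAt 𝓘(ℝ, E 3) 𝓘(ℝ, E 2) r (ι y) :=
      (hrs.contMDiffAt (hO'o.mem_nhds (hKO' hq))).mdifferentiableAt (by simp)
    have hπd : MDifferentiableAt 𝓘(ℝ, E 3) 𝓘(ℝ, E 1) π (ι y) :=
      (hπs (ι y)).mdifferentiableAt (by simp)
    have hPq : mfderiv 𝓘(ℝ, E 3) (𝓘(ℝ, E 2).prod 𝓘(ℝ, E 1)) P (ι y) =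
        (mfderiv 𝓘(ℝ, E 3) 𝓘(ℝ, E 2) r (ι y)).prod (mfderiv 𝓘(ℝ, E 3) 𝓘(ℝ, E 1) π (ι y)) :=
      mfderiv_prodMk hrd hπd
    have hinj : Function.Injective
        (mfderiv 𝓘(ℝ, E 3) (𝓘(ℝ, E 2).prod 𝓘(ℝ, E 1)) P (ι y)) := by
      rw [hPq]
      refine (injective_iff_map_eq_zero _).2 fun v hv => ?_
      have h1 : D 3 2 r (ι y) v = 0 := (Prod.ext_iff.1 hv).1
      have h2 : D 3 1 π (ι y) v = 0 := (Prod.ext_iff.1 hv).2
      rw [D_eq_DC (hπ (ι y))] at h2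
      obtain ⟨u, hu⟩ := TTriv.ker_eq_range (DC 3 1 π (ι y)) (DC 2 3 ι y)
        (hsm _ hq) (hι.emb.imm y) (DC_comp_zero hπ hι y) v h2
      have h3 : D 3 2 r (ι y) (D 2 3 ι y u) = u := by
        have h4 := D_comp (n := 2) (m := 3) (k := 2) (f := ι) (g := r) (x := y) hrd
          ((hιs y).mdifferentiableAt (by simp))
        have h5 : r ∘ ι = id := by funext z; exact hrι z
        rw [h5, D_id] at h4
        exact (congrArg (fun L => L u) h4).symm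
      have h6 : u = 0 := by
        rw [← h3, D_eq_DC (hι.emb.holo y), hu, h1]
      rw [← hu, h6, map_zero]
      rfl
    refine ⟨hinj, ?_⟩
    have hfr : Module.finrank ℝ (E 3) = Module.finrank ℝ (E 2 × E 1) := by
      rw [Module.finrank_prod]
      simp only [E, Module.finrank_pi_fintype, Complex.finrank_real_complex, Finset.sum_const,
        Finset.card_univ, Fintype.card_fin]
      norm_num
    exact (LinearMap.injective_iff_surjective_of_finrank_eq_finrank (K := ℝ) (V := E 3)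
      (V₂ := E 2 × E 1) (f := (mfderiv 𝓘(ℝ, E 3) (𝓘(ℝ, E 2).prod 𝓘(ℝ, E 1)) P (ι y) :
        E 3 →L[ℝ] (E 2 × E 1)).toLinearMap) hfr).1 hinj
  -- local inverses
  have hloc : ∀ q ∈ K, ∃ e : OpenPartialHomeomorph T (Y × B), q ∈ e.source ∧ e.source ⊆ O' ∧
      EqOn e P e.source ∧
      ContMDiffOn (𝓘(ℝ, E 2).prod 𝓘(ℝ, E 1)) 𝓘(ℝ, E 3) ∞ e.symm e.target := fun q hq =>
    inv_fun 𝓘(ℝ, E 3) (𝓘(ℝ, E 2).prod 𝓘(ℝ, E 1)) hO'o hPs (hKO' hq) (hPd q hq)
  have hneo : Nonempty (OpenPartialHomeomorph T (Y × B)) := by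
    obtain ⟨y₀⟩ := hne
    exact ⟨(hloc (ι y₀) (hιK y₀)).choose⟩
  choose! e he1 he2 he3 he4 using hloc
  have hPc : ContinuousOn P O' := hPs.continuousOn
  have hinjK : InjOn P K := by
    intro a ha b hb hab
    rw [hK, ← hι.range] at ha hb
    obtain ⟨a, rfl⟩ := ha
    obtain ⟨b, rfl⟩ := hb
    have h1 : r (ι a) = r (ι b) := (Prod.ext_iff.1 hab).1
    rw [hrι, hrι] at h1
    rw [h1]
  obtain ⟨W1, hW1o, hKW1, hW1i⟩ := hinjK.exists_isOpen_superset hKc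
    (fun q hq => hPc.continuousAt (hO'o.mem_nhds (hKO' hq)))
    (fun q hq => ⟨(e q).source, (e q).open_source.mem_nhds (he1 q hq), fun a ha b hb hab => by
      rw [← he3 q hq ha, ← he3 q hq hb] at hab
      exact (e q).injOn ha hb hab⟩)
  set W : Set T := W1 ∩ ⋃ q ∈ K, (e q).source with hW
  have hWo : IsOpen W := hW1o.inter (isOpen_biUnion fun q _ => (e q).open_source)
  have hKW : K ⊆ W := fun q hq => ⟨hKW1 hq, mem_iUnion₂.2 ⟨q, hq, he1 q hq⟩⟩
  have hWi : InjOn P W := hW1i.mono inter_subset_left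
  have hWO' : W ⊆ O' := by
    rintro q ⟨_, hq⟩
    obtain ⟨p, hp, hqp⟩ := mem_iUnion₂.1 hq
    exact he2 p hp hqp
  -- image of W is open
  have hPW : IsOpen (P '' W) := by
    rw [isOpen_iff_mem_nhds]
    rintro _ ⟨q, hq, rfl⟩
    obtain ⟨p, hp, hqp⟩ := mem_iUnion₂.1 hq.2
    have h1 : (e p) '' (W ∩ (e p).source) ∈ 𝓝 (e p q) := by
      have h2 : IsOpen ((e p) '' (W ∩ (e p).source)) := by
        rw [inter_comm]
        exact (e p).isOpen_image_source_inter hWo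
      exact h2.mem_nhds ⟨q, ⟨hq, hqp⟩, rfl⟩
    rw [he3 p hp hqp] at h1
    refine Filter.mem_of_superset h1 ?_
    rintro _ ⟨a, ⟨ha1, ha2⟩, rfl⟩
    exact ⟨a, ha1, (he3 p hp ha2).symm⟩
  have hYt : (univ : Set Y) ×ˢ ({t} : Set B) ⊆ P '' W := by
    rintro ⟨y, s⟩ ⟨_, hs⟩
    rw [mem_singleton_iff] at hs
    refine ⟨ι y, hKW (hιK y), ?_⟩
    rw [hP]
    exact Prod.ext (hrι y) ((hιK y : π (ι y) = t).trans hs.symm)
  obtain ⟨u, N2, huo, hN2o, hu, htN2, huN2⟩ := generalized_tube_lemma isCompact_univ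
    isCompact_singleton hPW hYt
  have hu' : u = univ := eq_univ_of_univ_subset hu
  subst hu'
  set N1 : Set B := (π '' Wᶜ)ᶜ with hN1
  have hN1o : IsOpen N1 := (hpr.isClosedMap _ hWo.isClosed_compl).isOpen_compl
  have htN1 : t ∈ N1 := by
    rintro ⟨q, hq, hqt⟩
    exact hq (hKW hqt)
  have hN1W : ∀ q, π q ∈ N1 → q ∈ W := by
    intro q hq
    by_contra h
    exact hq ⟨q, h, rfl⟩
  obtain ⟨y₀⟩ := hne
  set H : Y → B → T := fun y s => if h : ∃ q ∈ W, P q = (y, s) then h.choose else ι y₀ with hH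
  have hHspec : ∀ y s, (y, s) ∈ P '' W → H y s ∈ W ∧ P (H y s) = (y, s) := by
    intro y s hys
    have h : ∃ q ∈ W, P q = (y, s) := by
      obtain ⟨q, hq, hq'⟩ := hys
      exact ⟨q, hq, hq'⟩
    simp only [hH, dif_pos h]
    exact ⟨h.choose_spec.1, h.choose_spec.2⟩
  have hHuniq : ∀ q ∈ W, H (P q).1 (P q).2 = q := by
    intro q hq
    have h1 := hHspec (P q).1 (P q).2 ⟨q, hq, rfl⟩
    exact hWi h1.1 hq h1.2
  have hmem : ∀ y, ∀ s ∈ N2, (y, s) ∈ P '' W := fun y s hs => huN2 ⟨mem_univ y, hs⟩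
  refine ⟨N1 ∩ N2, r, H, ⟨htN1, htN2 rfl⟩, ?_⟩
  refine ⟨hN1o.inter hN2o, ?_, ?_, ?_, ?_, ?_⟩
  · exact hrs.mono fun q hq => hWO' (hN1W q hq.1)
  · rintro ⟨y, s⟩ ⟨_, hs⟩
    obtain ⟨hw, hPH⟩ := hHspec y s (hmem y s hs.2)
    obtain ⟨p, hp, hqp⟩ := mem_iUnion₂.1 hw.2
    have hes : e p (H y s) = (y, s) := (he3 p hp hqp).trans hPH
    have htar : (y, s) ∈ (e p).target := by
      rw [← hes]; exact (e p).map_source hqp
    have hsymm : (e p).symm (y, s) = H y s := by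
      rw [← hes]; exact (e p).left_inv hqp
    have hcd : ContMDiffAt (𝓘(ℝ, E 2).prod 𝓘(ℝ, E 1)) 𝓘(ℝ, E 3) ∞ (e p).symm (y, s) :=
      (he4 p hp).contMDiffAt ((e p).open_target.mem_nhds htar)
    have hev : (fun z : Y × B => H z.1 z.2) =ᶠ[𝓝 (y, s)] (e p).symm := by
      have h1 : ∀ᶠ z in 𝓝 ((y, s) : Y × B), (e p).symm z ∈ W := by
        have h2 : ContinuousAt (e p).symm (y, s) := (e p).continuousAt_symm htar
        exact h2 (hWo.mem_nhds (by rw [hsymm]; exact hw))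
      filter_upwards [h1, (e p).open_target.mem_nhds htar] with z hz1 hz2
      have h3 : P ((e p).symm z) = z := by
        rw [← he3 p hp ((e p).map_target hz2)]
        exact (e p).right_inv hz2
      have h4 := hHuniq _ hz1
      rw [h3] at h4
      exact h4
    exact (hcd.congr_of_eventuallyEq hev).contMDiffWithinAt
  · intro s hs y
    exact (Prod.ext_iff.1 (hHspec y s (hmem y s hs.2)).2).2
  · intro s hs y
    exact (Prod.ext_iff.1 (hHspec y s (hmem y s hs.2)).2).1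
  · intro q hq
    exact hHuniq q (hN1W q hq.1)

end Pool.Agent.K708
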