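import Pool.Agent.Lib.K708.SecS
import Pool.Agent.Lib.K708.Fib
import Pool.Agent.Lib.K708.SecB
import Pool.Agent.Lib.K708.SecC
import Pool.Agent.Lib.K708.SecD
import Pool.Agent.Lib.K708.SecK

/-! # K708: the main theorems of all sections

`hodge` (Hodge.lean), `holo_of_PD` (SecS.lean), `exists_fib` (Fib.lean), `transport` (SecB.lean),
`limit` (SecC.lean), `exists_example`, `IsSurface.of_birational` (SecD.lean), `exists_relKah`,
`RelKah.kah` (SecK.lean). -/
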