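import Pool.Agent.Lib.K708.W4
import Pool.Agent.Lib.K708.PU
import Pool.Agent.Lib.K708.FcS

/-! # K708: existence of the volume measure -/

set_option autoImplicit false

open scoped Manifold ContDiff Topology ENNReal
open Set MeasureTheory

noncomputable section

namespace Pool.Agent.K708

namespace VolE

variable {X : CMfd 2} {Ω : F2 2 X}

/-- The density in a chart. -/
def dens (φ : OpenPartialHomeomorph X (E 2)) (Ω : F2 2 X) (z : E 2) : ℝ≥0∞ :=
  ENNReal.ofReal ((w4 (Ω (φ.symm z)) (Ω (φ.symm z))).re * |(D 2 2 φ.symm z).det|)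

theorem w4_loc (hΩ : Kah Ω) (φ : OpenPartialHomeomorph X (E 2)) (z : E 2) :
    w4 (loc2 φ Ω z) (loc2 φ Ω z) =
      ((D 2 2 φ.symm z).det : ℂ) * w4 (Ω (φ.symm z)) (Ω (φ.symm z)) :=
  w4_comp (fun u v => hΩ.s2.1 _ u v) (fun u v => hΩ.s2.1 _ u v) _

theorem dens_eq (hΩ : Kah Ω) (φ : OpenPartialHomeomorph X (E 2)) (z : E 2) :
    (w4 (Ω (φ.symm z)) (Ω (φ.symm z))).re * |(D 2 2 φ.symm z).det| =
      |(w4 (loc2 φ Ω z) (loc2 φ Ω z)).re| := by
  have h := (w4_pkah_pos (hΩ.pkah (φ.symm z))).1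
  rw [w4_loc hΩ, Complex.re_ofReal_mul, abs_mul, abs_of_pos h, mul_comm]

theorem continuous_w4 : Continuous fun p : Bil 2 × Bil 2 => w4 p.1 p.2 := by
  have h1 : ∀ u v : E 2, Continuous fun p : Bil 2 × Bil 2 => p.1 u v := fun u v =>
    (continuous_fst.clm_apply continuous_const).clm_apply continuous_const
  have h2 : ∀ u v : E 2, Continuous fun p : Bil 2 × Bil 2 => p.2 u v := fun u v =>
    (continuous_snd.clm_apply continuous_const).clm_apply continuous_const
  unfold w4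
  exact ((((((h1 _ _).mul (h2 _ _)).sub ((h1 _ _).mul (h2 _ _))).add
    ((h1 _ _).mul (h2 _ _))).add ((h1 _ _).mul (h2 _ _))).sub
    ((h1 _ _).mul (h2 _ _))).add ((h1 _ _).mul (h2 _ _))

theorem continuousOn_real (hΩ : Kah Ω) {φ : OpenPartialHomeomorph X (E 2)} (hφ : φ ∈ RA 2 X) :
    ContinuousOn (fun z => (w4 (Ω (φ.symm z)) (Ω (φ.symm z))).re * |(D 2 2 φ.symm z).det|)
      φ.target := by
  have h1 : ContinuousOn (loc2 φ Ω) φ.target := (hΩ.s2.2 φ hφ).continuousOn
  have h2 : ContinuousOn (fun z => |(w4 (loc2 φ Ω z) (loc2 φ Ω z)).re|) φ.target :=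
    (Complex.continuous_re.comp_continuousOn
      (continuous_w4.comp_continuousOn (h1.prodMk h1))).abs
  exact h2.congr fun z _ => dens_eq hΩ φ z

theorem continuousOn_dens (hΩ : Kah Ω) {φ : OpenPartialHomeomorph X (E 2)} (hφ : φ ∈ RA 2 X) :
    ContinuousOn (dens φ Ω) φ.target :=
  ENNReal.continuous_ofReal.comp_continuousOn (continuousOn_real hΩ hφ)

theorem aemeasurable_symm (φ : OpenPartialHomeomorph X (E 2)) :
    AEMeasurable φ.symm (volume.restrict φ.target) :=
  φ.continuousOn_symm.aemeasurable φ.open_target.measurableSet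

theorem aemeasurable_dens (hΩ : Kah Ω) {φ : OpenPartialHomeomorph X (E 2)} (hφ : φ ∈ RA 2 X) :
    AEMeasurable (dens φ Ω) (volume.restrict φ.target) :=
  (continuousOn_dens hΩ hφ).aemeasurable φ.open_target.measurableSet

/-- One piece of the volume measure. -/
def piece (φ : OpenPartialHomeomorph X (E 2)) (χ : X → ℝ) (Ω : F2 2 X) : Measure X :=
  Measure.map φ.symm ((volume.restrict φ.target).withDensity
    (fun z => ENNReal.ofReal (χ (φ.symm z)) * dens φ Ω z))

theorem aemeasurable_weight (hΩ : Kah Ω) {φ : OpenPartialHomeomorph X (E 2)} (hφ : φ ∈ RA 2 X)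
    {χ : X → ℝ} (hχ : Continuous χ) :
    AEMeasurable (fun z => ENNReal.ofReal (χ (φ.symm z)) * dens φ Ω z)
      (volume.restrict φ.target) :=
  ((hχ.measurable.comp_aemeasurable (aemeasurable_symm φ)).ennreal_ofReal).mul
    (aemeasurable_dens hΩ hφ)

theorem lintegral_piece (hΩ : Kah Ω) {φ : OpenPartialHomeomorph X (E 2)} (hφ : φ ∈ RA 2 X)
    {χ : X → ℝ} (hχ : Continuous χ) {g : X → ℝ≥0∞} (hg : Measurable g) :
    ∫⁻ x, g x ∂(piece φ χ Ω) =
      ∫⁻ z in φ.target, ENNReal.ofReal (χ (φ.symm z)) * dens φ Ω z * g (φ.symm z) := by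
  have h1 : AEMeasurable φ.symm ((volume.restrict φ.target).withDensity
      (fun z => ENNReal.ofReal (χ (φ.symm z)) * dens φ Ω z)) :=
    (aemeasurable_symm φ).mono' (withDensity_absolutelyContinuous _ _)
  rw [piece, lintegral_map' hg.aemeasurable h1]
  exact lintegral_withDensity_eq_lintegral_mul₀ (aemeasurable_weight hΩ hφ hχ)
    (hg.comp_aemeasurable (aemeasurable_symm φ))

/-- The jacobian of a coordinate change. -/
theorem dens_change (φ ψ : OpenPartialHomeomorph X (E 2)) (hφ : φ ∈ RA 2 X) (hψ : ψ ∈ RA 2 X)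
    (Ω : F2 2 X) {z : E 2} (hz : z ∈ φ.target) (hz' : φ.symm z ∈ ψ.source) :
    ENNReal.ofReal |(fderiv ℝ (ψ ∘ φ.symm) z).det| * dens ψ Ω (ψ (φ.symm z)) = dens φ Ω z := by
  have h0 : MDifferentiableAt 𝓘(ℝ, E 2) 𝓘(ℝ, E 2) (id : X → X) (φ.symm z) :=
    mdifferentiableAt_id
  have h1 := D_loc' (f := (id : X → X)) hφ hψ hz hz' h0
  rw [D_id, ContinuousLinearMap.id_comp] at h1
  have h2 : (D 2 2 φ.symm z).det = (D 2 2 ψ.symm (ψ (φ.symm z))).det *
      (fderiv ℝ (ψ ∘ φ.symm) z).det := by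
    rw [h1]
    exact LinearMap.det_comp _ _
  unfold dens
  rw [ψ.left_inv hz', h2, ← ENNReal.ofReal_mul (abs_nonneg _), abs_mul]
  congr 1
  ring

/-- The overlap of two charts in the coordinates of the first one. -/
theorem image_overlap (φ ψ : OpenPartialHomeomorph X (E 2)) :
    (ψ ∘ φ.symm) '' (φ.target ∩ φ.symm ⁻¹' ψ.source) = ψ.target ∩ ψ.symm ⁻¹' φ.source := by
  ext w
  constructor
  · rintro ⟨z, ⟨hz, hz'⟩, rfl⟩
    refine ⟨ψ.map_source hz', ?_⟩
    show ψ.symm (ψ (φ.symm z)) ∈ φ.source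
    rw [ψ.left_inv hz']
    exact φ.map_target hz
  · rintro ⟨hw, hw'⟩
    refine ⟨φ (ψ.symm w), ⟨φ.map_source hw', ?_⟩, ?_⟩
    · show φ.symm (φ (ψ.symm w)) ∈ ψ.source
      rw [φ.left_inv hw']
      exact ψ.map_target hw
    · show ψ (φ.symm (φ (ψ.symm w))) = w
      rw [φ.left_inv hw', ψ.right_inv hw]

theorem isOpen_overlap (φ ψ : OpenPartialHomeomorph X (E 2)) :
    IsOpen (φ.target ∩ φ.symm ⁻¹' ψ.source) :=
  φ.continuousOn_symm.isOpen_inter_preimage φ.open_target ψ.open_source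

/-- Transformation of integrals over the overlap of two charts. -/
theorem lintegral_change {φ ψ : OpenPartialHomeomorph X (E 2)} (hφ : φ ∈ RA 2 X)
    (hψ : ψ ∈ RA 2 X) (Ω : F2 2 X) (g : X → ℝ≥0∞) :
    ∫⁻ z in φ.target ∩ φ.symm ⁻¹' ψ.source, dens φ Ω z * g (φ.symm z) =
      ∫⁻ z in ψ.target ∩ ψ.symm ⁻¹' φ.source, dens ψ Ω z * g (ψ.symm z) := by
  have hm : MeasurableSet (φ.target ∩ φ.symm ⁻¹' ψ.source) := (isOpen_overlap φ ψ).measurableSet
  have hd : ∀ z ∈ φ.target ∩ φ.symm ⁻¹' ψ.source,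
      HasFDerivWithinAt (ψ ∘ φ.symm) (fderiv ℝ (ψ ∘ φ.symm) z)
        (φ.target ∩ φ.symm ⁻¹' ψ.source) z := by
    rintro z ⟨hz, hz'⟩
    exact ((contDiffAt_change hφ hψ hz hz').differentiableAt (by simp)).hasFDerivAt.hasFDerivWithinAt
  have hi : InjOn (ψ ∘ φ.symm) (φ.target ∩ φ.symm ⁻¹' ψ.source) := by
    rintro z ⟨hz, hz'⟩ w ⟨hw, hw'⟩ h
    exact φ.symm.injOn hz hw (ψ.injOn hz' hw' h)
  rw [← image_overlap φ ψ, lintegral_image_eq_lintegral_abs_det_fderiv_mul volume hm hd hi]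
  refine setLIntegral_congr_fun hm ?_
  rintro z ⟨hz, hz'⟩
  show dens φ Ω z * g (φ.symm z) = ENNReal.ofReal |(fderiv ℝ (ψ ∘ φ.symm) z).det| *
    (dens ψ Ω (ψ (φ.symm z)) * g (ψ.symm (ψ (φ.symm z))))
  rw [← mul_assoc, dens_change φ ψ hφ hψ Ω hz hz', ψ.left_inv hz']


theorem piece_finite (hΩ : Kah Ω) {φ : OpenPartialHomeomorph X (E 2)} (hφ : φ ∈ RA 2 X)
    (hX : CompactSpace X) {χ : X → ℝ} (hχ : Continuous χ) (hs : tsupport χ ⊆ φ.source) :
    piece φ χ Ω univ < ⊤ := by
  have h1 : piece φ χ Ω univ = ∫⁻ x, (1 : ℝ≥0∞) ∂(piece φ χ Ω) := by simp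
  rw [h1, lintegral_piece hΩ hφ hχ measurable_const]
  -- the compact support in the chart
  have hc : IsCompact (φ '' tsupport χ) :=
    (isClosed_tsupport χ).isCompact.image_of_continuousOn (φ.continuousOn.mono hs)
  have hct : φ '' tsupport χ ⊆ φ.target := by
    rintro _ ⟨x, hx, rfl⟩
    exact φ.map_source (hs hx)
  have hf : ContinuousOn (fun z => ENNReal.ofReal (χ (φ.symm z)) * dens φ Ω z)
      (φ '' tsupport χ) := by
    have e : (fun z => ENNReal.ofReal (χ (φ.symm z)) * dens φ Ω z) = fun z =>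
        ENNReal.ofReal (((w4 (Ω (φ.symm z)) (Ω (φ.symm z))).re * |(D 2 2 φ.symm z).det|) *
          χ (φ.symm z)) := by
      funext z
      rw [ENNReal.ofReal_mul (mul_nonneg (w4_pkah_pos (hΩ.pkah (φ.symm z))).1.le (abs_nonneg _)),
        mul_comm]
      rfl
    rw [e]
    exact ENNReal.continuous_ofReal.comp_continuousOn
      ((continuousOn_real hΩ hφ).mono hct |>.mul
        (hχ.comp_continuousOn (φ.continuousOn_symm.mono hct)))
  obtain ⟨C, hC⟩ : ∃ C : ℝ, ∀ z ∈ φ '' tsupport χ,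
      ((w4 (Ω (φ.symm z)) (Ω (φ.symm z))).re * |(D 2 2 φ.symm z).det|) * χ (φ.symm z) ≤ C := by
    have hr : ContinuousOn (fun z => ((w4 (Ω (φ.symm z)) (Ω (φ.symm z))).re *
        |(D 2 2 φ.symm z).det|) * χ (φ.symm z)) (φ '' tsupport χ) :=
      (continuousOn_real hΩ hφ).mono hct |>.mul
        (hχ.comp_continuousOn (φ.continuousOn_symm.mono hct))
    obtain ⟨C, hC⟩ := (hc.image_of_continuousOn hr).bddAbove
    exact ⟨C, fun z hz => hC ⟨z, hz, rfl⟩⟩
  calc ∫⁻ z in φ.target, ENNReal.ofReal (χ (φ.symm z)) * dens φ Ω z * 1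
      ≤ ∫⁻ z in φ.target, (φ '' tsupport χ).indicator (fun _ => ENNReal.ofReal C) z := by
        refine setLIntegral_mono' φ.open_target.measurableSet fun z hz => ?_
        by_cases hz' : z ∈ φ '' tsupport χ
        · rw [indicator_of_mem hz', mul_one, dens, mul_comm,
            ← ENNReal.ofReal_mul (mul_nonneg (w4_pkah_pos (hΩ.pkah (φ.symm z))).1.le
              (abs_nonneg _))]
          exact ENNReal.ofReal_le_ofReal (hC z hz')
        · have : χ (φ.symm z) = 0 := by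
            by_contra hne
            exact hz' ⟨φ.symm z, subset_tsupport χ hne, φ.right_inv hz⟩
          rw [this, ENNReal.ofReal_zero, zero_mul, zero_mul]
          exact zero_le
    _ ≤ ∫⁻ z, (φ '' tsupport χ).indicator (fun _ => ENNReal.ofReal C) z :=
        setLIntegral_le_lintegral _ _
    _ = ENNReal.ofReal C * volume (φ '' tsupport χ) := by
        rw [lintegral_indicator hc.measurableSet, setLIntegral_const]
    _ < ⊤ := ENNReal.mul_lt_top ENNReal.ofReal_lt_top hc.measure_lt_top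

theorem lintegral_piece_chart (hΩ : Kah Ω) {φ ψ : OpenPartialHomeomorph X (E 2)}
    (hφ : φ ∈ RA 2 X) (hψ : ψ ∈ RA 2 X) {χ : X → ℝ} (hχ : Continuous χ)
    (hs : tsupport χ ⊆ φ.source) {g : X → ℝ≥0∞} (hg : Measurable g) :
    ∫⁻ x in ψ.source, g x ∂(piece φ χ Ω) =
      ∫⁻ z in ψ.target, ENNReal.ofReal (χ (ψ.symm z)) * (dens ψ Ω z * g (ψ.symm z)) := by
  rw [← lintegral_indicator ψ.open_source.measurableSet,
    lintegral_piece hΩ hφ hχ (hg.indicator ψ.open_source.measurableSet)]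
  have h1 : ∫⁻ z in φ.target, ENNReal.ofReal (χ (φ.symm z)) * dens φ Ω z *
      ψ.source.indicator g (φ.symm z) =
      ∫⁻ z in φ.target ∩ φ.symm ⁻¹' ψ.source, dens φ Ω z *
        (ENNReal.ofReal (χ (φ.symm z)) * g (φ.symm z)) := by
    rw [← lintegral_indicator φ.open_target.measurableSet,
      ← lintegral_indicator (isOpen_overlap φ ψ).measurableSet]
    refine lintegral_congr fun z => ?_
    by_cases hz : z ∈ φ.target
    · by_cases hz' : φ.symm z ∈ ψ.source
      · rw [indicator_of_mem hz, indicator_of_mem (show z ∈ φ.target ∩ φ.symm ⁻¹' ψ.source from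
          ⟨hz, hz'⟩), indicator_of_mem hz']
        ring
      · rw [indicator_of_mem hz, indicator_of_notMem hz', mul_zero,
          indicator_of_notMem (fun h => hz' h.2)]
    · rw [indicator_of_notMem hz, indicator_of_notMem (fun h => hz h.1)]
  rw [h1, lintegral_change hφ hψ Ω fun x => ENNReal.ofReal (χ x) * g x]
  rw [← lintegral_indicator ψ.open_target.measurableSet,
    ← lintegral_indicator (isOpen_overlap ψ φ).measurableSet]
  refine lintegral_congr fun z => ?_
  by_cases hz : z ∈ ψ.target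
  · by_cases hz' : ψ.symm z ∈ φ.source
    · rw [indicator_of_mem hz, indicator_of_mem (show z ∈ ψ.target ∩ ψ.symm ⁻¹' φ.source from
        ⟨hz, hz'⟩)]
      ring
    · have : χ (ψ.symm z) = 0 := by
        by_contra hne
        exact hz' (hs (subset_tsupport χ hne))
      rw [indicator_of_mem hz, indicator_of_notMem (fun h => hz' h.2), this,
        ENNReal.ofReal_zero, zero_mul]
  · rw [indicator_of_notMem hz, indicator_of_notMem (fun h => hz h.1)]

theorem dens_pos (hΩ : Kah Ω) {φ : OpenPartialHomeomorph X (E 2)} (hφ : φ ∈ RA 2 X) {z : E 2}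
    (hz : z ∈ φ.target) : dens φ Ω z ≠ 0 := by
  have h1 := (w4_pkah_pos (hΩ.pkah (φ.symm z))).1
  have h2 : (D 2 2 φ.symm z).det ≠ 0 := by
    intro h0
    have h3 := congrArg (fun L : E 2 →L[ℝ] E 2 => L.det) (D_comp_symm hφ hz)
    have h4 : ((D 2 2 φ (φ.symm z)).comp (D 2 2 φ.symm z)).det =
        (D 2 2 φ (φ.symm z)).det * (D 2 2 φ.symm z).det := LinearMap.det_comp _ _
    have h5 : (ContinuousLinearMap.id ℝ (E 2)).det = 1 := LinearMap.det_id
    simp only [h4, h0, mul_zero, h5] at h3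
    exact zero_ne_one h3
  unfold dens
  rw [Ne, ENNReal.ofReal_eq_zero, not_le]
  exact mul_pos h1 (abs_pos.2 h2)

end VolE

open VolE

theorem exists_isVol {X : CMfd 2} (hX : CompactSpace X) {Ω : F2 2 X} (hΩ : Kah Ω) :
    ∃ μ, IsVol X Ω μ := by
  obtain ⟨P, -, -⟩ := exists_pu X hX (fun _ => univ) fun _ => Filter.univ_mem
  have hχ : ∀ k, Continuous (P.χ k) := fun k => (P.smooth k).continuous
  refine ⟨∑ k, piece (P.φ k) (P.χ k) Ω, ⟨?_, ?_⟩⟩
  · constructor
    rw [Measure.finsetSum_apply]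
    exact ENNReal.sum_lt_top.2 fun k _ =>
      piece_finite hΩ (ra_of_ca (P.mem k)) hX (hχ k) (P.supp k)
  · intro ψ hψ g hg
    have h1 : ∀ k, ∫⁻ x in ψ.source, g x ∂(piece (P.φ k) (P.χ k) Ω) =
        ∫⁻ z in ψ.target, ENNReal.ofReal (P.χ k (ψ.symm z)) * (dens ψ Ω z * g (ψ.symm z)) :=
      fun k => lintegral_piece_chart hΩ (ra_of_ca (P.mem k)) hψ (hχ k) (P.supp k) hg
    rw [← lintegral_indicator ψ.open_source.measurableSet, lintegral_finsetSum_measure]
    simp_rw [lintegral_indicator ψ.open_source.measurableSet]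
    rw [Finset.sum_congr rfl fun k _ => h1 k, ← lintegral_finsetSum']
    · refine setLIntegral_congr_fun ψ.open_target.measurableSet fun z _ => ?_
      show ∑ k, ENNReal.ofReal (P.χ k (ψ.symm z)) * (dens ψ Ω z * g (ψ.symm z)) = _
      rw [← Finset.sum_mul, ← ENNReal.ofReal_sum_of_nonneg fun k _ => P.nonneg k _, P.sum,
        ENNReal.ofReal_one, one_mul, mul_comm]
      rfl
    · intro k _
      exact ((hχ k).measurable.comp_aemeasurable (aemeasurable_symm ψ)).ennreal_ofReal.mul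
        ((aemeasurable_dens hΩ hψ).mul (hg.comp_aemeasurable (aemeasurable_symm ψ)))

theorem isVol_vol {X : CMfd 2} (hX : CompactSpace X) {Ω : F2 2 X} (hΩ : Kah Ω) :
    IsVol X Ω (vol X Ω) := by
  have h := exists_isVol hX hΩ
  unfold vol
  rw [dif_pos h]
  exact h.choose_spec

/-- Nonempty open sets have positive volume. -/
theorem IsVol.open_pos {X : CMfd 2} {Ω : F2 2 X} (hΩ : Kah Ω) {μ : MeasureTheory.Measure X}
    (h : IsVol X Ω μ) {U : Set X} (hU : IsOpen U) (hne : U.Nonempty) : 0 < μ U := by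
  obtain ⟨x, hx⟩ := hne
  set φ := chartAt (E 2) x with hφ
  have hφA : φ ∈ RA 2 X := chartAt_mem_RA x
  have h1 := h.chart φ hφA (U.indicator 1) (measurable_one.indicator hU.measurableSet)
  set V : Set (E 2) := φ.target ∩ φ.symm ⁻¹' U with hV
  have hVo : IsOpen V := φ.continuousOn_symm.isOpen_inter_preimage φ.open_target hU
  have hVne : V.Nonempty := ⟨φ x, φ.map_source (mem_chart_source _ x), by
    show φ.symm (φ x) ∈ U
    rwa [φ.left_inv (mem_chart_source _ x)]⟩
  have h2 : ∫⁻ z in φ.target, U.indicator 1 (φ.symm z) *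
      ENNReal.ofReal ((w4 (Ω (φ.symm z)) (Ω (φ.symm z))).re * |(D 2 2 φ.symm z).det|) =
      ∫⁻ z in V, dens φ Ω z := by
    rw [← lintegral_indicator φ.open_target.measurableSet,
      ← lintegral_indicator hVo.measurableSet]
    refine lintegral_congr fun z => ?_
    by_cases hz : z ∈ φ.target
    · by_cases hz' : φ.symm z ∈ U
      · rw [indicator_of_mem hz, indicator_of_mem (show z ∈ V from ⟨hz, hz'⟩),
          indicator_of_mem hz', Pi.one_apply, one_mul]
        rfl
      · rw [indicator_of_mem hz, indicator_of_notMem hz', zero_mul,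
          indicator_of_notMem (fun h => hz' h.2)]
    · rw [indicator_of_notMem hz, indicator_of_notMem (fun h => hz h.1)]
  have h3 : 0 < ∫⁻ z in V, dens φ Ω z := by
    rw [pos_iff_ne_zero, Ne, lintegral_eq_zero_iff' ((aemeasurable_dens hΩ hφA).mono_set
      inter_subset_left)]
    intro h0
    have h4 : ∀ᵐ z ∂(volume.restrict V), dens φ Ω z ≠ 0 :=
      ae_restrict_of_forall_mem hVo.measurableSet fun z hz => dens_pos hΩ hφA hz.1
    have h6 : ∀ᵐ z ∂(volume.restrict V), False := by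
      filter_upwards [h0, h4] with z hz hz'
      exact hz' hz
    rw [Filter.eventually_false_iff_eq_bot, ae_eq_bot, Measure.restrict_eq_zero] at h6
    exact (hVo.measure_pos volume hVne).ne' h6
  rw [h2] at h1
  have h5 : ∫⁻ x in φ.source, U.indicator 1 x ∂μ ≤ μ U := by
    calc ∫⁻ x in φ.source, U.indicator 1 x ∂μ ≤ ∫⁻ x, U.indicator 1 x ∂μ :=
          setLIntegral_le_lintegral _ _
      _ = μ U := lintegral_indicator_one hU.measurableSet
  exact (h1 ▸ h3).trans_le h5

end Pool.Agent.K708
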